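import Pool.Agent.H57.ApW

set_option autoImplicit false

/-! One stage of the construction: vocabulary and local lemmas. -/

namespace Pool.Agent.H57.Ap

open Set

theorem seq_gen {Z : ℕ → Type} (G : ∀ k, Z k → Z (k + 1) → Prop) (h0 : ∀ k, Z k) {ι : Type}
    [Countable ι] [Nonempty ι] (T : ι → (∀ k, Z k) → ℕ → Prop)
    (loc : ∀ i h h' n, (∀ k ≤ n, h' k = h k) → T i h n → T i h' n)
    (ext : ∀ i (h : ∀ k, Z k) n, h 0 = h0 0 → (∀ k < n, G k (h k) (h (k + 1))) → ∃ h' n', n < n' ∧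
      (∀ k ≤ n, (h' : ∀ k, Z k) k = h k) ∧ (∀ k < n', G k (h' k) (h' (k + 1))) ∧ T i h' n') :
    ∃ h : ∀ k, Z k, h 0 = h0 0 ∧ (∀ k, G k (h k) (h (k + 1))) ∧ ∀ i, ∃ n, T i h n := by
  obtain ⟨e, he⟩ := exists_surjective_nat ι
  choose! H N h1 h2 h3 h4 using ext
  let s : ℕ → (∀ k, Z k) × ℕ := fun m =>
    m.rec (h0, 0) fun m p => (H (e m) p.1 p.2, N (e m) p.1 p.2)
  have k1 : ∀ m, (s m).1 0 = h0 0 ∧ ∀ k < (s m).2, G k ((s m).1 k) ((s m).1 (k + 1)) := fun m => by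
    induction m with
    | zero => exact ⟨rfl, fun k hk => absurd hk (Nat.not_lt_zero k)⟩
    | succ m ih => exact ⟨(h2 _ _ _ ih.1 ih.2 0 (Nat.zero_le _)).trans ih.1, h3 _ _ _ ih.1 ih.2⟩
  have k2 : StrictMono fun m => (s m).2 :=
    strictMono_nat_of_lt_succ fun m => h1 _ _ _ (k1 m).1 (k1 m).2
  have k3 : ∀ m m', m ≤ m' → ∀ k ≤ (s m).2, (s m').1 k = (s m).1 k := fun m m' h k hk => by
    induction m', h using Nat.le_induction with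
    | base => rfl
    | succ m' h ih => exact (h2 _ _ _ (k1 m').1 (k1 m').2 k (hk.trans (k2.monotone h))).trans ih
  have k4 : ∀ m, ∀ k ≤ (s m).2, (s k).1 k = (s m).1 k := fun m k hk =>
    (k3 k _ (le_max_left k m) k k2.le_apply).symm.trans (k3 m _ (le_max_right k m) k hk)
  refine ⟨fun k => (s k).1 k, rfl, fun k => ?_, fun i => ?_⟩
  · have := (k1 (k + 1)).2 k ((Nat.lt_succ_self k).trans_le k2.le_apply)
    rwa [← k4 (k + 1) k ((Nat.le_succ k).trans k2.le_apply)] at this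
  · obtain ⟨m, rfl⟩ := he i
    exact ⟨_, loc _ _ _ _ (k4 (m + 1)) (h4 _ _ _ (k1 m).1 (k1 m).2)⟩

abbrev B : Type := ∀ k, P k

def cjk {k : ℕ} (v : P (k + 1)) : P k →* P (k + 1) := cj (Q := P k) v
def iok {k : ℕ} : P k →* P (k + 1) := io (Q := P k)
def prk {k : ℕ} : P (k + 1) →* P k := pr (Q := P k)
def Zk (k : ℕ) (m : ZMod 4) : Subgroup (P (k + 1)) := Zs (Q := P k) m
def At (S : Subgroup B) (k : ℕ) : Subgroup (P k) := S.map (Pi.evalMonoidHom P k)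
noncomputable def Ek (S : Subgroup B) (k : ℕ) (c : ZMod 4) : P (k + 1) :=
  E (Q := P k) (At S k) c

theorem At_mem {S : Subgroup B} {w : B} (h : w ∈ S) (k : ℕ) : w k ∈ At S k := ⟨w, h, rfl⟩

theorem At_mono {S S' : Subgroup B} (h : S ≤ S') (k : ℕ) : At S k ≤ At S' k := Subgroup.map_mono h

theorem cjk_one {k : ℕ} : cjk (1 : P (k + 1)) = iok := cj_one

theorem cjk_fix {S : Subgroup B} {w : B} (h : w ∈ S) (k : ℕ) (c : ZMod 4) :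
    cjk (Ek S k c) (w k) = iok (w k) := cj_fix c (At_mem h k)

theorem prk_cj {k : ℕ} {v : P (k + 1)} (h : prk v = 1) (g : P k) : prk (cjk v g) = g := pr_cj h g

structure Dt where
  t : B
  u : B
  G : ℕ → Subgroup B
  H : ℕ → Subgroup B
  Rd : ℕ → ℕ → Prop

def Sub (x y : Dt) (k : ℕ) : Prop := ∀ j, k < j → x.G j ≤ y.G j

def Qt (x : Dt) (k : ℕ) : Prop := x.u (k + 1) = 1 ∧ x.G (k + 1) ≤ x.G k

def Fol (x y : Dt) (j : ℕ) : Prop :=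
  y.u (j + 1) = x.u (j + 1) ∧ y.G (j + 1) ≤ y.G j ⊔ x.G (j + 1)

def Sf (S S' : Subgroup B) (k : ℕ) (v : P (k + 1)) : Prop :=
  ∀ R g, At S k ≤ R → g ∉ R → cjk v g ∉ At S' (k + 1) ⊔ R.map (cjk v)

structure Bs (x : Dt) : Prop where
  mem : ∀ k, x.t ∈ x.G k
  mono : Monotone x.G
  monoH : Monotone x.H
  le : ∀ k, x.H k ≤ x.G k
  le' : ∀ k, x.G (k + 1) ≤ x.G k ⊔ x.H (k + 1)
  pu : ∀ k, prk (x.u (k + 1)) = 1
  br : ∀ k, ∀ w ∈ x.G k, ∀ j, prk (w (j + 1)) = w j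
  coh : ∀ k, ∀ w ∈ x.G k, w (k + 1) = cjk (x.u (k + 1)) (w k)
  safe : ∀ k, Sf (x.G k) (x.G (k + 1)) k (x.u (k + 1))
  quiet : ∀ k, ∃ a, k ≤ a ∧ Qt x a
  rd : ∀ k, ∃ a b, k ≤ a ∧ x.Rd a b

theorem Bs.eq1 {x : Dt} (h : Bs x) {k : ℕ} {w : B} (hw : w ∈ x.G k) (h1 : w k = 1) : w = 1 := by
  have h2 : ∀ j, k ≤ j → w j = 1 := fun j hj => by
    induction j, hj using Nat.le_induction with
    | base => exact h1
    | succ j hj ih => rw [h.coh j w (h.mono hj hw), ih, map_one]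
  have h3 : ∀ i j, j + i = k → w j = 1 := fun i => by
    induction i with
    | zero => rintro _ rfl; exact h1
    | succ i ih => intro j hj; rw [← h.br k w hw j, ih (j + 1) (by omega), map_one]
  funext j
  rcases le_total k j with h4 | h4
  · exact h2 j h4
  · exact h3 (k - j) j (by omega)

theorem Bs.eq {x : Dt} (h : Bs x) {k : ℕ} {w w' : B} (hw : w ∈ x.G k) (hw' : w' ∈ x.G k)
    (h1 : w k = w' k) : w = w' :=
  mul_inv_eq_one.1 (h.eq1 (mul_mem hw (inv_mem hw')) (mul_inv_eq_one.2 h1))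

def Tr (k : ℕ) (g b : Dt) (v : P (k + 1)) : Prop :=
  Sub g b k ∧ prk v = 1 ∧ (∀ w ∈ g.G k, w (k + 1) = cjk v (w k)) ∧ Sf (g.G k) (b.G (k + 1)) k v

theorem tr_fol {g : Dt} (h : Bs g) (k : ℕ) : Tr k g g (g.u (k + 1)) :=
  ⟨fun _ _ => le_rfl, h.pu k, h.coh k, h.safe k⟩

theorem tr_jump {g b : Dt} {k : ℕ} {m c : ZMod 4} (h : m * c ≠ 0) (h1 : Sub g b k)
    (h2 : ∀ w ∈ g.G k, w (k + 1) = iok (w k)) (h3 : At (b.G (k + 1)) (k + 1) ≤ Zk k m) :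
    Tr k g b (Ek (g.G k) k c) :=
  ⟨h1, rfl, fun w hw => (h2 w hw).trans (cjk_fix hw k c).symm, fun _ _ h4 h5 h6 =>
    safe h h4 h5 (sup_le_sup_right h3 _ h6)⟩

theorem Bs.qt {g : Dt} (h : Bs g) {k : ℕ} (h1 : Qt g k) :
    (∀ w ∈ g.G k, w (k + 1) = iok (w k)) ∧ At (g.G (k + 1)) (k + 1) ≤ Zk k 1 := by
  have h2 : ∀ w ∈ g.G k, w (k + 1) = iok (w k) := fun w hw => by
    rw [h.coh k w hw, h1.1, cjk_one]
  refine ⟨h2, ?_⟩
  rintro _ ⟨w, hw, rfl⟩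
  show w (k + 1) ∈ _
  rw [h2 w (h1.2 hw)]
  exact io_Zs (Q := P k) 1 _

def C2 (A : Set B) (K : ℕ) (g b : Dt) (q : P K) : Prop :=
  Sub g b K ∧ At (b.G (K + 1)) (K + 1) ≤ Zk K 1 ∧ ∃ p ∈ A, p ∈ b.G (K + 1) ∧ p (K + 1) = iok q

def Pair (A : Set B) (K : ℕ) (S S' : Subgroup B) (q : P K) (p z : B) : Prop :=
  p ∈ A ∧ z ∈ A ∧ p ≠ z ∧ p ∈ S' ∧ z ∈ S' ∧ p (K + 1) = iok q ∧ z (K + 1) = cjk (Ek S K 2) q

def C3 (A : Set B) (K : ℕ) (g b : Dt) (q : P K) : Prop :=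
  Sub g b K ∧ At (b.G (K + 1)) (K + 1) ≤ Zk K 2 ∧ ∃ p z, Pair A K (g.G K) (b.G (K + 1)) q p z

variable {W : Type} [LinearOrder W]

def Hd (A : Set B) (α : W) (d : ∀ β, β < α → Dt) (x g : Dt) (K : ℕ) (q : P K) : Prop :=
  x.H K = g.G K ∧ Sub g x K ∧
    (((∃ p z, Pair A K (x.H K) (x.H (K + 1)) q p z) ∧ x.u (K + 1) = Ek (x.H K) K 1) ∨
    (¬ ∃ β h, C3 A K g (d β h) q) ∧ ((At (x.H (K + 1)) (K + 1) ≤ Zk K 1 ∧
      (∃ p ∈ A, p ∈ x.H (K + 1) ∧ p (K + 1) = iok q) ∧ x.u (K + 1) = Ek (x.H K) K 2) ∨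
    (¬ ∃ β h, C2 A K g (d β h) q) ∧ Qt x K))

structure Iv (A : Set B) (α : W) (d : ∀ β, β < α → Dt) (x : Dt) : Prop where
  bs : Bs x
  bot : IsMin α → (∀ k, x.G k = ⊥) ∧ x.u = 1 ∧ ∀ a b, x.Rd a b → a < b
  w : ∀ δ h k, ∃ a b, k ≤ a ∧ (d δ h).Rd a b ∧ ∀ j, a ≤ j → j < b → Fol (d δ h) x j
  cl : ∀ δ h, ∃ k, Sub (d δ h) x k
  ne : ∀ δ h, x.t ≠ (d δ h).t
  sp : ¬ IsMin α → ∀ a b, x.Rd a b → ∀ y : B,
    (∀ j, a ≤ j → j < b → y (j + 1) = cjk (x.u (j + 1)) (y j)) →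
      ∃ K, a ≤ K ∧ K < b ∧ ∃ γ h, Hd A α d x (d γ h) K (y K)

theorem iv_min (A : Set B) {α : W} (h : IsMin α) (d : ∀ β, β < α → Dt) : ∃ x, Iv A α d x := by
  refine ⟨⟨1, 1, fun _ => ⊥, fun _ => ⊥, (· < ·)⟩, ⟨fun _ => one_mem _, monotone_const,
    monotone_const, fun _ => le_rfl, fun _ => le_sup_left, fun _ => map_one _, ?_, ?_, ?_,
    fun k => ⟨k, le_rfl, rfl, le_rfl⟩, fun k => ⟨k, k + 1, le_rfl, Nat.lt_succ_self k⟩⟩,
    fun _ => ⟨fun _ => rfl, rfl, fun _ _ => id⟩, fun δ h' => absurd h' h.not_lt,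
    fun δ h' => absurd h' h.not_lt, fun δ h' => absurd h' h.not_lt, fun h' => absurd h h'⟩
  · rintro k w (rfl : w = 1) j; exact map_one _
  · rintro k w (rfl : w = 1); exact (map_one _).symm
  · intro k R g _ hg
    rw [At, Subgroup.map_bot]
    exact safe0 (Q := P k) hg

end Pool.Agent.H57.Ap
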