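import Pool.Agent.H57.Aro1
import Pool.Agent.H82.LadA

set_option autoImplicit false

/-! Strong colourings of pairs from `ω₂` in ZFC, by walks on ordinals. -/

namespace Pool.Agent.H57.Pr

open Set Cardinal Order Pool.Agent.H57.Lots Pool.Agent.H57.Coh Pool.Agent.H57.Aro
open Pool.Agent.H82.LadA (Reg Unc reg_toType exmin)

section general

variable {W : Type} [LinearOrder W] {θ : Cardinal.{0}}

/-- stationary sets, through closure points of functions -/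
def St (S : Set W) : Prop := ∀ (g : W → W) (a : W), ∃ x ∈ S, a < x ∧ ∀ y < x, g y < x

theorem St.mono {S T : Set W} (h : St S) (h' : S ⊆ T) : St T := fun g a =>
  let ⟨x, h1, h2⟩ := h g a; ⟨x, h' h1, h2⟩

theorem St.unb {S : Set W} (h : St S) (a : W) : ∃ x ∈ S, a < x :=
  let ⟨x, h1, h2, _⟩ := h id a; ⟨x, h1, h2⟩

theorem St.gt {S : Set W} (h : St S) (a : W) : St {x ∈ S | a < x} := fun g b =>
  let ⟨x, h1, h2, h3⟩ := h g (max a b)
  ⟨x, ⟨h1, (le_max_left _ _).trans_lt h2⟩, (le_max_right _ _).trans_lt h2, h3⟩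

theorem diag (h : Reg W θ) {ι : Type} (S : ι → Set W) (r : ι → W)
    (hr : ∀ a, #{i | r i ≤ a} < θ) (hS : St {x | ∃ i, r i < x ∧ x ∈ S i}) : ∃ i, St (S i) := by
  by_contra hn
  simp only [St, not_exists, not_forall, not_and, not_lt] at hn
  choose g a hg using hn
  have h1 : ∀ y, ∃ b, ∀ z ∈ (fun p : ι × W => max (a p.1) (g p.1 p.2)) '' {i | r i ≤ y} ×ˢ Iic y,
      z < b := fun y => h.bdd (mk_image_le.trans_lt (by
        rw [mk_setProd]; exact mul_lt_of_lt h.reg.aleph0_le (hr y) (h.iic y)))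
  choose G hG using h1
  obtain ⟨b⟩ : Nonempty W := mk_ne_zero_iff.1 (h.card ▸ h.reg.pos.ne')
  obtain ⟨x, ⟨i, h2, h3⟩, -, h4⟩ := hS G b
  obtain ⟨y, h5, h6⟩ := hg i x h3 ((le_max_left _ _).trans_lt
    ((hG (r i) _ ⟨(i, r i), ⟨le_rfl, le_rfl⟩, rfl⟩).trans (h4 _ h2)))
  exact ((le_max_right _ _).trans_lt ((hG (max y (r i)) _ ⟨(i, y), ⟨le_max_right _ _,
    le_max_left _ _⟩, rfl⟩).trans (h4 _ (max_lt h5 h2)))).not_ge h6

theorem St.fodor (h : Reg W θ) {S : Set W} (hS : St S) (f : W → W) (hf : ∀ x ∈ S, f x < x) :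
    ∃ z, St {x ∈ S | f x = z} :=
  diag h _ id h.iic (hS.mono fun x hx => ⟨f x, hf x hx, hx, rfl⟩)

theorem St.pigeon (h : Reg W θ) {S : Set W} (hS : St S) {α : Type} {Y : Set α} (hY : #Y < θ)
    (f : W → α) (hf : ∀ x ∈ S, f x ∈ Y) : ∃ y, St {x ∈ S | f x = y} := by
  obtain ⟨b⟩ : Nonempty W := mk_ne_zero_iff.1 (h.card ▸ h.reg.pos.ne')
  obtain ⟨y, hy⟩ := diag h (fun y : Y => {x ∈ S | f x = y}) (fun _ => b)
    (fun _ => (mk_set_le _).trans_lt hY) ((hS.gt b).mono fun x hx =>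
      ⟨⟨f x, hf x hx.1⟩, hx.2, hx.1, rfl⟩)
  exact ⟨y, hy⟩

theorem fin_bd (s : Finset W) {a x : W} (ha : a < x) (hs : ∀ y ∈ s, y < x) :
    ∃ b < x, ∀ y ∈ s, y ≤ b := by
  classical
  refine ⟨(insert a s).max' (by simp), (Finset.max'_lt_iff _ _).2 (by simpa using ⟨ha, hs⟩),
    fun y hy => Finset.le_max' _ _ (by simp [hy])⟩

theorem St.fin (h : Reg W θ) (h0 : ℵ₀ < θ) {S : Set W} (hS : St S) (V : W → Finset W) :
    ∃ R, St {x ∈ S | (V x).filter (· < x) = R} := by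
  obtain ⟨b⟩ : Nonempty W := mk_ne_zero_iff.1 (h.card ▸ h.reg.pos.ne')
  choose! f h1 h2 using fun x (hx : x ∈ {x ∈ S | b < x}) =>
    fin_bd ((V x).filter (· < x)) hx.2 fun y hy => (Finset.mem_filter.1 hy).2
  obtain ⟨z, hz⟩ := (hS.gt b).fodor h f h1
  obtain ⟨R, hR⟩ := hz.pigeon h (Y := range fun l : List (Iic z) => (l.map Subtype.val).toFinset)
    ((mk_range_le.trans (mk_list_le_max _)).trans_lt (max_lt h0 (h.iic z)))
    (fun x => (V x).filter (· < x)) fun x hx => ⟨((V x).filter (· < x)).attach.toList.map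
      fun y => ⟨y.1, hx.2 ▸ h2 x hx.1 y.1 y.2⟩, by ext; simp⟩
  exact ⟨R, hR.mono fun x hx => ⟨hx.1.1.1, hx.2⟩⟩

theorem ulam (h : Reg W θ) {V Θ : Type} (hV : #V < θ) (hΘ : #Θ ≤ θ) [Nonempty Θ] (e : W → W → V)
    (he : ∀ x, InjOn (e x) (Iio x)) {S : Set W} (hS : St S) :
    ∃ g : W → Θ, ∀ t, St {x ∈ S | g x = t} := by
  classical
  choose i hi using fun a => (hS.gt a).pigeon h (Y := Set.univ) (mk_univ.trans_lt hV)
    (fun x => e x a) fun _ _ => trivial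
  obtain ⟨v, hv⟩ := infinite_pigeonhole_card i θ h.card.ge h.reg.aleph0_le (h.reg.cof_ord.symm ▸ hV)
  obtain ⟨k⟩ := Cardinal.le_def _ _ |>.1 (hΘ.trans hv)
  refine ⟨fun x => if h : ∃ t, (k t).1 < x ∧ e x (k t) = v then h.choose else Classical.arbitrary _,
    fun t => (hi (k t)).mono fun x hx => ⟨hx.1.1, ?_⟩⟩
  have h1 : ∃ t, (k t).1 < x ∧ e x (k t) = v := ⟨t, hx.1.2, hx.2.trans (k t).2⟩
  refine (dif_pos h1).trans ?_
  exact k.injective (Subtype.ext (he x h1.choose_spec.1 hx.1.2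
    (h1.choose_spec.2.trans (hx.2.trans (k t).2).symm)))

theorem inj_ex {V : Type} [Nonempty V] (h : ∀ x : W, #(Iio x) ≤ #V) :
    ∃ e : W → W → V, ∀ x, InjOn (e x) (Iio x) := by
  classical
  have k := fun x => Classical.choice ((Cardinal.le_def _ _).1 (h x))
  exact ⟨fun x y => if h : y < x then k x ⟨y, h⟩ else Classical.arbitrary _, fun x y hy z hz h' => by
    simp only [dif_pos (show y < x from hy), dif_pos (show z < x from hz)] at h'
    exact congrArg Subtype.val ((k x).injective h')⟩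

end general

abbrev W2 : Type := (succ ℵ₁ : Cardinal.{0}).ord.ToType

theorem R1 : Reg W1 ℵ₁ := reg_toType isRegular_aleph_one

theorem R2 : Reg W2 (succ ℵ₁) := reg_toType (isRegular_succ aleph0_lt_aleph_one.le)

instance : Nonempty W2 := mk_ne_zero_iff.1 (R2.card ▸ R2.reg.pos.ne')

theorem e2_ex : ∃ e : W2 → W2 → W1, ∀ x, InjOn (e x) (Iio x) :=
  inj_ex fun x => (Order.lt_succ_iff.1 (R2.iio x)).trans_eq mk_W1.symm

theorem St_unc : St {x : W2 | Unc x} := fun g a =>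
  let ⟨x, h1, h2, h3, _⟩ := R2.clo (lt_succ _) g a; ⟨x, h3, h1, h2⟩

theorem St_univ : St (Set.univ : Set W1) := fun g a =>
  let ⟨x, h1, h2⟩ := cp_unb g a; ⟨x, trivial, h2, h1⟩

theorem walks : ∃ Tr : W2 → W2 → Finset W2, (∀ a b, a < b → b ∈ Tr a b) ∧
    ∀ d, Unc d → ∀ B : Finset W2, (∀ b ∈ B, d ≤ b) → ∃ l < d, ∀ b ∈ B, ∀ a, l < a → a < d →
      Tr a b = Tr d b ∪ Tr a d := by
  classical
  obtain ⟨e, he⟩ := e2_ex
  let C : W2 → Set W2 := fun b => {c | c < b ∧ ∀ d < b, e b d < e b c → d < c}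
  have h1 : ∀ a b, ∃ c, a < b → (c ∈ C b ∧ a ≤ c) ∧ ∀ y < c, ¬ (y ∈ C b ∧ a ≤ y) := fun a b => by
    by_cases h : a < b
    · obtain ⟨_, ⟨c, h1, rfl⟩, h2⟩ := exists_min (S := e b '' Ico a b) ⟨_, a, ⟨le_rfl, h⟩, rfl⟩
      obtain ⟨c', h3⟩ := exmin (P := fun c => c ∈ C b ∧ a ≤ c) ⟨c, ⟨h1.2, fun d hd h' =>
        (not_le.1 fun h3 => h'.not_ge (h2 _ ⟨d, ⟨h3, hd⟩, rfl⟩)).trans_le h1.1⟩, h1.1⟩
      exact ⟨c', fun _ => h3⟩
    · exact ⟨a, fun h' => absurd h' h⟩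
  choose nx hn using h1
  let Tr : W2 → W2 → Finset W2 := fun a => (wellFounded_lt (α := W2)).fix fun b rc =>
    if h : a < b then insert b (rc (nx a b) (hn a b h).1.1.1) else ∅
  have hT : ∀ a b, Tr a b = if a < b then insert b (Tr a (nx a b)) else ∅ := fun a b =>
    (WellFounded.fix_eq _ _ _).trans (dite_eq_ite ..)
  have h2 : ∀ d, Unc d → ∀ b, d ≤ b → ∃ l < d, ∀ a, l < a → a < d →
      Tr a b = Tr d b ∪ Tr a d := fun d hd b => by
    induction b using WellFoundedLT.induction with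
    | ind b ih =>
    intro hb
    rcases hb.eq_or_lt with rfl | hb
    · obtain ⟨l, hl, -⟩ := hd ∅ countable_empty (by simp)
      exact ⟨l, hl, fun a _ _ => by rw [hT d d]; simp⟩
    obtain ⟨c, hc⟩ := exists_gt (e b d)
    obtain ⟨l, h3, h4⟩ := hd (C b ∩ Iio d) (countable_of_injective_of_countable_image
      ((he b).mono fun x hx => hx.1.1) ((Iio_countable c).mono (forall_mem_image.2 fun x hx =>
        (not_lt.1 fun h => (hx.1.2 d hb h).not_gt hx.2).trans_lt hc))) fun x hx => hx.2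
    obtain ⟨l', h5, h6⟩ := ih _ (hn d b hb).1.1.1 (hn d b hb).1.2
    refine ⟨max l l', max_lt h3 h5, fun a h7 h8 => ?_⟩
    have h9 := hn a b (h8.trans hb)
    have h10 : nx a b = nx d b := le_antisymm
      (not_lt.1 fun h => h9.2 _ h ⟨(hn d b hb).1.1, h8.le.trans (hn d b hb).1.2⟩)
      (not_lt.1 fun h => (hn d b hb).2 _ h ⟨h9.1.1, not_lt.1 fun h' =>
        (((h4 _ ⟨h9.1.1, h'⟩).trans_le (le_max_left _ _)).trans h7).not_ge h9.1.2⟩)
    rw [hT a b, hT d b, if_pos hb, if_pos (h8.trans hb), h10,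
      h6 a ((le_max_right _ _).trans_lt h7) h8, Finset.insert_union]
  refine ⟨Tr, fun a b h => by rw [hT, if_pos h]; simp, fun d hd B hB => ?_⟩
  choose! l h3 h4 using h2 d hd
  obtain ⟨l', h5, h6⟩ := hd (l '' B) (B.finite_toSet.image l).countable
    (forall_mem_image.2 fun b hb => h3 b (hB b hb))
  exact ⟨l', h5, fun b hb a h7 => h4 b (hB b hb) a ((h6 _ ⟨b, hb, rfl⟩).trans h7)⟩

theorem pr1 {Θ : Type} [Nonempty Θ] (hΘ : #Θ ≤ ℵ₁) : ∃ c : W2 → W2 → Θ,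
    ∀ (A B : W2 → Finset W2) (T : Set W2), (∀ a, ∃ d ∈ T, a < d) →
      (∀ d ∈ T, (∀ x ∈ A d, d ≤ x) ∧ ∀ x ∈ B d, d ≤ x) → ∀ t, ∃ g ∈ T, ∃ d ∈ T, g < d ∧
        ∀ x ∈ A g, x < d ∧ ∀ y ∈ B d, c x y = t := by
  classical
  obtain ⟨Tr, w1, w2⟩ := walks
  obtain ⟨e2, he2⟩ := e2_ex
  obtain ⟨e, he⟩ : ∃ e : W1 → W1 → ℕ, ∀ x, InjOn (e x) (Iio x) :=
    inj_ex fun x => mk_nat ▸ le_aleph0_iff_set_countable.2 (Iio_countable x)
  obtain ⟨h, hh⟩ := ulam (Θ := W1) R2 (mk_W1.trans_lt (lt_succ _)) (mk_W1.trans_le (le_succ _))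
    e2 he2 St_unc
  obtain ⟨g, hg⟩ := ulam R1 (mk_nat.trans_lt aleph0_lt_aleph_one) hΘ e he St_univ
  let Co : Finset W1 → W1 → W1 → Prop := fun L x y =>
    x ∈ L ∧ y ∈ L ∧ x < y ∧ ∀ z ∈ L, z < y → z ≤ x
  let P : Finset W1 → W1 → Prop := fun L y =>
    ∃ x, Co L x y ∧ ∀ x' y', Co L x' y' → y' ≠ y → e y' x' < e y x
  refine ⟨fun a b => g (if h : ∃ y, P ((Tr a b).image h) y then h.choose else
    Classical.arbitrary _), fun A B T hT hA t => ?_⟩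
  choose u u1 u2 using hT
  choose! Λ l1 l2 using fun d (hd : d ∈ {x | Unc x ∧ True}) => w2 d hd.1 (B (u d)) fun b hb =>
    (u2 d).le.trans ((hA _ (u1 d)).2 b hb)
  choose z hz using fun τ => (hh τ).fodor R2 Λ fun x hx => l1 x ⟨hx.1, trivial⟩
  obtain ⟨z0, hz0⟩ := R2.bdd (A := range z) (mk_range_le.trans_lt (mk_W1.trans_lt (lt_succ _)))
  choose g0 hg0 using fun a => R2.bdd (A := insert (u a) (A (u a)))
    (((A (u a)).finite_toSet.insert _).lt_aleph0.trans_le R2.reg.aleph0_le)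
  choose ε a1 a2 a3 using fun a σ => hh σ g0 a
  choose g1 hg1 using fun a => R2.bdd (A := range (ε a))
    (mk_range_le.trans_lt (mk_W1.trans_lt (lt_succ _)))
  obtain ⟨D, d1, d2, d3⟩ := St_unc g1 z0
  choose δ b1 b2 using fun τ => (hz τ).unb D
  choose l l3 l4 using fun τ => w2 D d1 (B (u (δ τ))) fun b hb =>
    ((b2 τ).trans (u2 _)).le.trans ((hA _ (u1 _)).2 b hb)
  choose ζ c1 c2 using fun σ => d1 (l '' Iio σ) ((Iio_countable σ).image l)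
    (forall_mem_image.2 fun τ _ => l3 τ)
  have c3 : ∀ σ, ε (ζ σ) σ < D := fun σ => (hg1 _ _ ⟨σ, rfl⟩).trans (d3 _ (c1 σ))
  choose m m1 m2 using fun σ => w2 _ (a1 (ζ σ) σ).1 {D} (by simpa using (c3 σ).le)
  let γ : W1 → W2 := fun σ => u (max (ζ σ) (m σ))
  have c4 : ∀ σ, ∀ x ∈ insert (γ σ) (A (γ σ) : Set W2), x < ε (ζ σ) σ := fun σ x hx =>
    (hg0 _ x hx).trans (a3 _ σ _ (max_lt (a2 _ σ) (m1 σ)))
  let U : W1 → Finset W1 := fun τ => ((B (u (δ τ))).biUnion (Tr D)).image h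
  let V : W1 → Finset W1 := fun σ => ((A (γ σ)).biUnion fun x => Tr x D).image h
  let E : Finset W1 → ℕ := fun L => (L ×ˢ L).sup fun p => e p.1 p.2
  have hE : ∀ L, ∀ x ∈ L, ∀ y ∈ L, e x y ≤ E L := fun L x hx y hy =>
    Finset.le_sup (f := fun p : W1 × W1 => e p.1 p.2) (b := (x, y)) (Finset.mk_mem_product hx hy)
  obtain ⟨R, hR⟩ := (hg t).fin R1 aleph0_lt_aleph_one V
  obtain ⟨n1, n2⟩ := hR.pigeon R1 (Y := Set.univ) (by simp) (fun σ => E (V σ)) fun _ _ => trivial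
  obtain ⟨n3, n4⟩ := St_univ.pigeon R1 (Y := Set.univ) (by simp) (fun τ => E (U τ ∪ R))
    fun _ _ => trivial
  choose τ t1 t2 using n4.unb
  choose g2 hg2 using fun a => bdd (((U (τ a)).finite_toSet.insert (τ a)).countable)
  obtain ⟨σ, ⟨⟨⟨-, s1⟩, s2⟩, s3⟩, s4, s5⟩ := n2 g2 (Classical.arbitrary _)
  have s6 : {x | x < σ ∧ e σ x ≤ max n1 n3}.Finite := Finite.of_finite_image
    ((finite_le_nat (max n1 n3)).subset (image_subset_iff.2 fun x hx => hx.2))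
    ((he σ).mono fun x hx => hx.1)
  obtain ⟨a, s7, s8⟩ := fin_bd (s6.toFinset ∪ R) s4 fun y hy => by
    rcases Finset.mem_union.1 hy with hy | hy
    exacts [(s6.mem_toFinset.1 hy).1, (Finset.mem_filter.1 (s2.symm.subset hy)).2]
  have s9 : ∀ x ∈ insert (τ a) (U (τ a) : Set W1), x < σ := fun x hx => (hg2 a hx).trans (s5 a s7)
  have s10 : ε (ζ σ) σ < u (δ (τ a)) := (c3 σ).trans ((b2 _).trans (u2 _))
  refine ⟨γ σ, u1 _, u (δ (τ a)), u1 _, (c4 σ _ (Or.inl rfl)).trans s10, fun x hx =>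
    ⟨(c4 σ x (Or.inr hx)).trans s10, fun y hy => ?_⟩⟩
  have x1 : max (ζ σ) (m σ) < x := (u2 _).trans_le ((hA _ (u1 _)).1 x hx)
  have x2 := c4 σ x (Or.inr hx)
  have x3 := l4 _ y hy x ((c2 σ _ ⟨_, s9 _ (Or.inl rfl), rfl⟩).trans
    ((le_max_left _ _).trans_lt x1)) (x2.trans (c3 σ))
  have x4 : τ a ∈ (Tr x y).image h := Finset.mem_image.2 ⟨δ (τ a), by
    rw [x3, l2 _ ⟨(b1 _).1.1, trivial⟩ y hy D ((b1 _).2 ▸ (hz0 _ ⟨_, rfl⟩).trans d2) (b2 _)]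
    simp [w1 _ _ (b2 _)], (b1 _).1.2⟩
  have x5 : σ ∈ (Tr x y).image h := Finset.mem_image.2 ⟨ε (ζ σ) σ, by
    rw [x3, m2 σ D (by simp) x ((le_max_right _ _).trans_lt x1) x2]
    simp [w1 _ _ x2], (a1 _ σ).2⟩
  have x6 : ∀ v ∈ (Tr x y).image h, v ∈ U (τ a) ∨ v ∈ V σ := fun v hv => by
    rw [x3, Finset.image_union] at hv
    exact (Finset.mem_union.1 hv).imp
      (fun h => Finset.image_subset_image (Finset.subset_biUnion_of_mem _ hy) h)
      fun h => Finset.image_subset_image (Finset.subset_biUnion_of_mem (fun x => Tr x D) hx) h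
  beta_reduce
  generalize (Tr x y).image h = L at x4 x5 x6
  have x7 : P L σ := by
    obtain ⟨v, v1, v2⟩ := (L.filter (· < σ)).exists_max_image id
      ⟨_, Finset.mem_filter.2 ⟨x4, s9 _ (Or.inl rfl)⟩⟩
    rw [Finset.mem_filter] at v1
    refine ⟨v, ⟨v1.1, x5, v1.2, fun z h1 h2 => v2 z (Finset.mem_filter.2 ⟨h1, h2⟩)⟩,
      fun x' y' ⟨q1, q2, q3, q4⟩ q5 => lt_of_le_of_lt ?_ (not_le.1 fun h =>
        ((t2 a).trans_le (v2 _ (Finset.mem_filter.2 ⟨x4, s9 _ (Or.inl rfl)⟩))).not_ge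
          (s8 v (Finset.mem_union_left _ (s6.mem_toFinset.2 ⟨v1.2, h⟩))))⟩
    rcases q5.lt_or_gt with q6 | q6
    · have : ∀ v ∈ L, v < σ → v ∈ U (τ a) ∪ R := fun v h1 h2 => Finset.mem_union.2
        ((x6 v h1).imp_right fun h => s2.subset (Finset.mem_filter.2 ⟨h, h2⟩))
      exact le_max_of_le_right ((hE _ _ (this _ q2 q6) _ (this _ q1 (q3.trans q6))).trans (t1 a).2.le)
    · have : ∀ v ∈ L, σ ≤ v → v ∈ V σ := fun v h1 h2 =>
        (x6 v h1).resolve_left fun h => (s9 v (Or.inr h)).not_ge h2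
      exact le_max_of_le_left ((hE _ _ (this _ q2 q6.le) _ (this _ q1 (q4 σ x5 q6))).trans s3.le)
  have x8 : ∃ y, P L y := ⟨σ, x7⟩
  rw [dif_pos x8, ← s1]
  congr 1
  by_contra hn
  obtain ⟨v, v1, v2⟩ := x7
  obtain ⟨v', v3, v4⟩ := x8.choose_spec
  exact (v2 _ _ v3 hn).not_gt (v4 _ _ v1 (Ne.symm hn))

end Pool.Agent.H57.Pr
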