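import Pool.Agent.H57.ApS
import Pool.Agent.H57.Pr1
import Pool.Agent.H33.DiaDefs

set_option autoImplicit false

/-! Capturing three-term progressions. -/

namespace Pool.Agent.H57.Ap

open Set Cardinal Pool.Agent.H57.Lots Pool.Agent.H57.Coh Pool.Agent.H57.Pr

theorem build (A : W1 → Set B) : ∃ d : W1 → Dt, ∀ α, Iv (A α) α (fun γ _ => d γ) (d α) := by
  classical
  obtain ⟨μ, -, hμ⟩ := wellFounded_lt.has_min (Set.univ : Set W1) univ_nonempty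
  have h1 : IsMin μ := fun b hb => not_lt.1 (hμ b trivial)
  let d : W1 → Dt := wellFounded_lt.fix fun α ih =>
    if h : ∃ x, Iv (A α) α ih x then h.choose else ⟨1, 1, ⊥, ⊥, ⊥⟩
  refine ⟨d, fun α => ?_⟩
  induction α using WellFoundedLT.induction with
  | ind α ih =>
  have h : ∃ x, Iv (A α) α (fun γ _ => d γ) x := by
    rcases (not_lt.1 (hμ α trivial)).eq_or_lt with rfl | h
    · exact iv_min _ h1 _
    · exact iv_step ih (Iio_countable α) h1 h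
  rw [show d α = h.choose from (wellFounded_lt.fix_eq _ α).trans (dif_pos h)]
  exact h.choose_spec

def D (x : Dt) : Set B := {p | ∃ K q z, Pair Set.univ K (x.H K) (x.H (K + 1)) q p z}

theorem Pair.new {x : Dt} (h : Bs x) {A : Set B} {K : ℕ} {q : P K} {p z : B}
    (h1 : Pair A K (x.H K) (x.H (K + 1)) q p z) :
    p K = q ∧ z K = q ∧ p (K + 1) ≠ z (K + 1) ∧ p ∉ x.H K ∧ z ∉ x.H K := by
  obtain ⟨-, -, h2, h3, h4, h5, h6⟩ := h1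
  have k1 : p K = q := by rw [← h.br _ p (h.le _ h3) K, h5, ← cjk_one, prk_cj (map_one _)]
  have k2 : z K = q := by rw [← h.br _ z (h.le _ h4) K, h6, prk_cj rfl]
  have k3 : p (K + 1) ≠ z (K + 1) := fun k => h2 (h.eq (h.le _ h3) (h.le _ h4) k)
  exact ⟨k1, k2, k3, fun k => k3 (by rw [h5, h6, ← k1, cjk_fix k]),
    fun k => k3 (by rw [h5, h6, ← k2, cjk_fix k])⟩

theorem Pair.notD {x : Dt} (h : Bs x) {A : Set B} {K : ℕ} {q : P K} {p z : B}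
    (h1 : Pair A K (x.H K) (x.H (K + 1)) q p z) : z ∉ D x := by
  rintro ⟨K', q', z', h2⟩
  obtain ⟨-, k2, k3, -, k5⟩ := h1.new h
  obtain ⟨l1, -, -, l4, -⟩ := h2.new h
  rcases lt_trichotomy K K' with k | rfl | k
  · exact l4 (h.monoH k h1.2.2.2.2.1)
  · exact k3 (by rw [h1.2.2.2.2.2.1, h2.2.2.2.2.2.1, ← k2, l1])
  · exact k5 (h.monoH k h2.2.2.2.1)

theorem capt {A : W1 → Set B} {d : W1 → Dt} (hd : ∀ α, Iv (A α) α (fun γ _ => d γ) (d α))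
    {S : Set W1} (hS : St S) (y : W1 → B)
    (hy : ∀ δ ∈ S, y δ ∈ Subgroup.closure (range fun α => (d α).t) ∧ y δ ∉ A δ)
    (hA : ∀ δ ∈ S, ∀ p, p = y δ ∨ p ∈ A δ → ∃ b, ∀ δ' ∈ S, b < δ' → p ∈ A δ') :
    ∃ δ ∈ S, ∃ p ∈ A δ, ∃ z ∈ A δ, p ∈ D (d δ) ∧ z ∉ D (d δ) ∧ y δ * p⁻¹ * y δ = z := by
  have hb := fun α => (hd α).bs
  have h1 : ∀ w ∈ Subgroup.closure (range fun α => (d α).t),
      ∃ b, ∀ α, b < α → ∃ k, w ∈ (d α).G k := fun w hw => by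
    induction hw using Subgroup.closure_induction with
    | mem w hw =>
      obtain ⟨b, rfl⟩ := hw
      refine ⟨b, fun α h => ?_⟩
      obtain ⟨k, hk⟩ := (hd α).cl b h
      exact ⟨k + 1, hk _ (Nat.lt_succ_self k) ((hb b).mem _)⟩
    | one => exact ⟨Classical.arbitrary _, fun _ _ => ⟨0, one_mem _⟩⟩
    | mul v w _ _ h1 h2 =>
      obtain ⟨b, h1⟩ := h1
      obtain ⟨c, h2⟩ := h2
      refine ⟨max b c, fun α h => ?_⟩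
      obtain ⟨k, h1⟩ := h1 α ((le_max_left _ _).trans_lt h)
      obtain ⟨l, h2⟩ := h2 α ((le_max_right _ _).trans_lt h)
      exact ⟨max k l, mul_mem ((hb α).mono (le_max_left _ _) h1)
        ((hb α).mono (le_max_right _ _) h2)⟩
    | inv w _ h => exact h.imp fun _ h α h' => (h α h').imp fun _ => inv_mem
  obtain ⟨μ⟩ : Nonempty W1 := inferInstance
  have h2 : ∀ δ ∈ {x ∈ S | μ < x}, ∃ α K γ, γ < δ ∧
      Hd (A δ) δ (fun γ _ => d γ) (d δ) (d γ) K (y δ K) ∧ Fol (d δ) (d α) K ∧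
      y δ ∈ (d α).G K ∧ ∀ j, K ≤ j → (d δ).G j ≤ (d α).G j := fun δ hδ => by
    obtain ⟨b, k1⟩ := h1 _ (hy δ hδ.1).1
    obtain ⟨α, k2⟩ := exists_gt (max b δ)
    obtain ⟨k, k1⟩ := k1 α ((le_max_left _ _).trans_lt k2)
    have k3 := (le_max_right _ _).trans_lt k2
    obtain ⟨l, k4⟩ := (hd α).cl δ k3
    obtain ⟨a, c, k5, k6, k7⟩ := (hd α).w δ k3 (max k (l + 1))
    obtain ⟨K, m1, m2, γ, m3, m4⟩ := (hd δ).sp hδ.2.not_isMin a c k6 (y δ) fun j j1 j2 =>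
      ((hb α).coh j _ ((hb α).mono (by omega) k1)).trans (by rw [(k7 j j1 j2).1])
    exact ⟨α, K, γ, m3, m4, k7 K m1 m2, (hb α).mono (by omega) k1, fun j hj => k4 j (by omega)⟩
  choose! α K γ h3 h4 h5 h6 h7 using h2
  obtain ⟨g, hg⟩ := (hS.gt μ).fodor R1 γ h3
  obtain ⟨⟨k, q⟩, hq⟩ := hg.pigeon R1 (Y := (Set.univ : Set (Σ k, P k)))
    ((mk_univ.trans_le mk_le_aleph0).trans_lt aleph0_lt_aleph_one) (fun δ => ⟨K δ, y δ (K δ)⟩)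
    fun _ _ => trivial
  obtain ⟨T, hT, h8⟩ : ∃ T, St T ∧ ∀ δ ∈ T, δ ∈ S ∧ y δ k = q ∧
      Hd (A δ) δ (fun γ _ => d γ) (d δ) (d g) k q ∧ Fol (d δ) (d (α δ)) k ∧
      y δ ∈ (d (α δ)).G k ∧ ∀ j, k ≤ j → (d δ).G j ≤ (d (α δ)).G j := ⟨_, hq, by
    rintro δ ⟨⟨k1, rfl⟩, k2⟩
    obtain ⟨rfl, k3⟩ := Sigma.mk.inj_iff.1 k2
    obtain rfl := eq_of_heq k3
    exact ⟨k1.1, rfl, h4 δ k1, h5 δ k1, h6 δ k1, h7 δ k1⟩⟩
  have e1 : ∀ δ ∈ T, ∀ w ∈ (d (α δ)).G k, w (k + 1) = cjk ((d δ).u (k + 1)) (w k) :=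
    fun δ hδ w hw => by rw [(hb _).coh k w hw, (h8 δ hδ).2.2.2.1.1]
  have e2 : ∀ δ ∈ T, Sub (d g) (d (α δ)) k := fun δ hδ j hj =>
    ((h8 δ hδ).2.2.1.2.1 j hj).trans ((h8 δ hδ).2.2.2.2.2 j hj.le)
  have e3 : ∀ δ ∈ T, (d δ).H (k + 1) ≤ (d (α δ)).G (k + 1) := fun δ hδ =>
    ((hb δ).le _).trans ((h8 δ hδ).2.2.2.2.2 _ k.le_succ)
  by_contra hn
  have n3 : ∀ δ ∈ T, ¬ ((∃ p z, Pair (A δ) k ((d δ).H k) ((d δ).H (k + 1)) q p z) ∧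
      (d δ).u (k + 1) = Ek ((d δ).H k) k 1) := fun δ hδ ⟨⟨p, z, k1⟩, k2⟩ => by
    have k3 := (hb _).mono k.le_succ (h8 δ hδ).2.2.2.2.1
    refine hn ⟨δ, (h8 δ hδ).1, p, k1.1, z, k1.2.1, ⟨k, q, z, trivial, trivial, k1.2.2⟩,
      k1.notD (hb δ), (hb _).eq (mul_mem (mul_mem k3 (inv_mem (e3 δ hδ k1.2.2.2.1))) k3)
        (e3 δ hδ k1.2.2.2.2.1) ?_⟩
    rw [Pi.mul_apply, Pi.mul_apply, Pi.inv_apply, e1 δ hδ _ (h8 δ hδ).2.2.2.2.1, k2,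
      (h8 δ hδ).2.1, k1.2.2.2.2.2.1, k1.2.2.2.2.2.2]
    exact ap (Q := P k) _ q
  have n2 : ∀ δ ∈ T, ¬ (At ((d δ).H (k + 1)) (k + 1) ≤ Zk k 1 ∧
      (∃ p ∈ A δ, p ∈ (d δ).H (k + 1) ∧ p (k + 1) = iok q) ∧
      (d δ).u (k + 1) = Ek ((d δ).H k) k 2) := fun δ hδ ⟨k1, ⟨p, k2, k3, k4⟩, k5⟩ => by
    obtain ⟨l1, l2, l3, l4, l5, l6⟩ := h8 δ hδ
    obtain ⟨b, m1⟩ := hA δ l1 p (Or.inr k2)
    obtain ⟨c, m2⟩ := hA δ l1 _ (Or.inl rfl)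
    obtain ⟨δ', m3, m4⟩ := hT.unb (max (α δ) (max b c))
    simp only [max_lt_iff] at m4
    refine ((h8 δ' m3).2.2.1.2.2.resolve_left (n3 δ' m3)).1 ⟨α δ, m4.1, e2 δ hδ, ?_, p, y δ,
      m1 δ' (h8 δ' m3).1 m4.2.1, m2 δ' (h8 δ' m3).1 m4.2.2, fun h => (hy δ l1).2 (h ▸ k2),
      e3 δ hδ k3, (hb _).mono k.le_succ l5, k4, by rw [e1 δ hδ _ l5, k5, l2, l3.1]⟩
    have m5 : (d (α δ)).G k ≤ (Zk k 2).comap (Pi.evalMonoidHom P (k + 1)) := fun w hw => by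
      show w (k + 1) ∈ Zk k 2
      rw [e1 δ hδ w hw, k5]
      exact cj_Zs (Q := P k) _ _
    exact Subgroup.map_le_iff_le_comap.2 (l4.2.trans (sup_le m5 (((hb δ).le' k).trans
      (sup_le ((l6 k le_rfl).trans m5) (Subgroup.map_le_iff_le_comap.1 (k1.trans Zs_le))))))
  have n1 := fun δ hδ => (((h8 δ hδ).2.2.1.2.2.resolve_left (n3 δ hδ)).2.resolve_left (n2 δ hδ))
  obtain ⟨δ, hδ, -⟩ := hT.unb μ
  obtain ⟨l1, l2, l3, l4, l5, l6⟩ := h8 δ hδ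
  obtain ⟨c, m2⟩ := hA δ l1 _ (Or.inl rfl)
  obtain ⟨δ', m3, m4⟩ := hT.unb (max (α δ) c)
  simp only [max_lt_iff] at m4
  have m5 : Qt (d (α δ)) k := ⟨l4.1.trans (n1 δ hδ).2.1,
    l4.2.trans (sup_le le_rfl ((n1 δ hδ).2.2.trans (l6 k le_rfl)))⟩
  exact (n1 δ' m3).1 ⟨α δ, m4.1, e2 δ hδ, ((hb _).qt m5).2, y δ, m2 δ' (h8 δ' m3).1 m4.2,
    (hb _).mono k.le_succ l5, by rw [((hb _).qt m5).1 _ l5, l2]⟩

theorem bd1 {s : Set W1} (hs : s.Countable) : ∃ b, ∀ a ∈ s, a < b :=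
  R1.bdd ((le_aleph0_iff_set_countable.2 hs).trans_lt aleph0_lt_aleph_one)

theorem st_of {S : Set W1} (h : IsStationary S) : St S := fun g δ => by
  have : IsClub {β | δ < β ∧ ∀ i < β, g i < β} := by
    constructor
    · intro s hs ⟨a, ha⟩ _ b hb
      refine ⟨(hs ha).1.trans_le (hb.1 ha), fun i hi => ?_⟩
      obtain ⟨c, hc, hic⟩ := (lt_isLUB_iff hb).1 hi
      exact ((hs hc).2 i hic).trans_le (hb.1 hc)
    · intro a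
      obtain ⟨x, -, h1, h2⟩ := St_univ g (max a δ)
      exact ⟨x, ⟨(le_max_right _ _).trans_lt h1, h2⟩, ((le_max_left _ _).trans_lt h1).le⟩
  obtain ⟨x, h1, h2⟩ := h this
  exact ⟨x, h1, h2⟩

theorem dia_B (h : H33.DiaDefs.Diamond) : #B ≤ ℵ₁ := by
  obtain ⟨A, hA⟩ := h
  have := H33.DiaDefs.unc
  obtain ⟨j, hj⟩ := exists_injective_nat (Σ k, P k)
  let e := Infinite.natEmbedding W1
  obtain ⟨b, hb⟩ := bd1 (countable_range e)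
  choose δ h1 h2 using fun y : B => (st_of (hA (range fun k => e (j ⟨k, y k⟩)))).unb b
  refine (mk_le_of_injective (f := δ) fun y z h => funext fun k => ?_).trans mk_W1.le
  have h3 : e (j ⟨k, y k⟩) ∈ A (δ y) := h1 y ▸ ⟨⟨k, rfl⟩, (hb _ ⟨_, rfl⟩).trans (h2 y)⟩
  obtain ⟨⟨l, hl⟩, -⟩ := (h1 z).symm.subset (h ▸ h3)
  obtain ⟨rfl, h4⟩ := Sigma.mk.inj_iff.1 (hj (e.injective hl))
  exact (eq_of_heq h4).symm

theorem dia (h : H33.DiaDefs.Diamond) {Y : Type} [Nonempty Y] (hY : #Y ≤ ℵ₁) :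
    ∃ A : W1 → Set Y, (∀ δ, (A δ).Countable) ∧ ∀ X : Set Y, ∃ S, St S ∧ (∀ δ ∈ S, A δ ⊆ X) ∧
      ∀ p ∈ X, ∃ b, ∀ δ ∈ S, b < δ → p ∈ A δ := by
  obtain ⟨A, hA⟩ := h
  obtain ⟨j⟩ := (Cardinal.le_def Y W1).1 (hY.trans mk_W1.ge)
  refine ⟨fun δ => j ⁻¹' (A δ ∩ Iio δ), fun δ =>
    ((Iio_countable δ).mono inter_subset_right).preimage j.injective, fun X =>
    ⟨_, st_of (hA (j '' X)), fun δ h p hp => ?_, fun p hp => ⟨j p, fun δ h h' =>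
      ⟨h ▸ ⟨⟨p, hp, rfl⟩, h'⟩, h'⟩⟩⟩⟩
  exact (j.injective.mem_set_image).1 (h.symm.subset hp.1).1

theorem card_G {A : W1 → Set B} {d : W1 → Dt} (hd : ∀ α, Iv (A α) α (fun γ _ => d γ) (d α))
    (h : #B ≤ ℵ₁) : #(Subgroup.closure (range fun α => (d α).t)) = ℵ₁ :=
  le_antisymm ((mk_set_le _).trans h) (mk_W1.ge.trans (mk_le_of_injective
    (f := fun α => ⟨(d α).t, Subgroup.subset_closure ⟨α, rfl⟩⟩) fun a b h => by
      rcases lt_trichotomy a b with h1 | h1 | h1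
      · exact absurd (congrArg Subtype.val h).symm ((hd b).ne a h1)
      · exact h1
      · exact absurd (congrArg Subtype.val h) ((hd a).ne b h1)))

theorem noadm (h : H33.DiaDefs.Diamond) : ∃ (G : Type) (_ : Group G), #G = ℵ₁ ∧
    ∀ H : Set G, ¬ H.Countable → ∃ x ∈ H, ∃ y ∈ H, ∃ z ∈ H, x⁻¹ * y = y⁻¹ * z ∧ x ≠ z := by
  obtain ⟨A, h1, h2⟩ := dia h (dia_B h)
  obtain ⟨d, hd⟩ := build A
  refine ⟨_, inferInstance, card_G hd (dia_B h), fun H hH => ?_⟩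
  obtain ⟨S, k1, k2, k3⟩ := h2 (Subtype.val '' H)
  choose y k4 k5 using fun δ => not_subset.1 fun k : Subtype.val '' H ⊆ A δ =>
    hH (countable_of_injective_of_countable_image Subtype.val_injective.injOn ((h1 δ).mono k))
  obtain ⟨δ, l1, p, l2, z, l3, l4, l5, l6⟩ := capt hd k1 y
    (fun δ _ => ⟨let ⟨w, _, e⟩ := k4 δ; e ▸ w.2, k5 δ⟩)
    fun δ hδ p hp => k3 p (hp.elim (· ▸ k4 δ) (k2 δ hδ ·))
  obtain ⟨p, m1, rfl⟩ := k2 δ l1 l2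
  obtain ⟨z, m2, rfl⟩ := k2 δ l1 l3
  obtain ⟨w, m3, e⟩ := k4 δ
  refine ⟨p, m1, w, m3, z, m2, Subtype.ext ?_, fun h => l5 (h ▸ l4)⟩
  simp [← l6, e, mul_assoc]

theorem nocay (h : H33.DiaDefs.Diamond) : ∃ (X : SimpleGraph W1) (G : Type) (_ : Group G),
    #G = ℵ₁ ∧ ∀ (S : Set G) (φ : W1 → G), Function.Injective φ →
      ¬ ∀ u v, X.Adj u v ↔ (φ u)⁻¹ * φ v ∈ S := by
  have h0 : #(W1 × W1) = #W1 := by simp [mk_W1]
  obtain ⟨A, h1, h2⟩ := dia h (Y := W1 × B) (by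
    simpa [mk_W1] using mul_le_max_of_aleph0_le_left (b := #B) aleph0_lt_aleph_one.le |>.trans
      (max_le le_rfl (dia_B h)))
  obtain ⟨d, hd⟩ := build fun δ => Prod.snd '' A δ
  obtain ⟨e⟩ := Cardinal.eq.1 h0
  let R : W1 → W1 → Prop := fun u v => u < v ∧ ∃ p ∈ D (d (e.symm v).1), (u, p) ∈ A (e.symm v).1
  refine ⟨SimpleGraph.fromRel R, _, inferInstance, card_G hd (dia_B h), fun S φ hφ hX => ?_⟩
  obtain ⟨T, k1, k2, k3⟩ := h2 (range fun u => (u, (φ u).1))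
  choose b hb using fun δ => bd1 ((h1 δ).image Prod.fst)
  have := H33.DiaDefs.unc
  choose v hv using fun δ => not_forall.1 fun k : ∀ i, e (δ, i) < b δ =>
    not_countable_univ (((Iio_countable (b δ)).preimage (f := fun i => e (δ, i))
      fun _ _ h => (Prod.mk.inj (e.injective h)).2).mono fun i _ => k i)
  have k4 : ∀ δ, ∀ x ∈ A δ, x.1 < e (δ, v δ) := fun δ x hx =>
    (hb δ _ ⟨x, hx, rfl⟩).trans_le (not_lt.1 (hv δ))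
  obtain ⟨δ, l1, _, ⟨p, l2, rfl⟩, _, ⟨z, l3, rfl⟩, l4, l5, l6⟩ := capt hd k1
    (fun δ => φ (e (δ, v δ))) (fun δ hδ => ⟨(φ _).2, fun ⟨x, hx, h⟩ => by
      obtain ⟨u, rfl⟩ := k2 δ hδ hx
      exact (k4 δ _ hx).ne (hφ (Subtype.ext h))⟩) fun δ hδ p hp => by
    obtain ⟨u, rfl⟩ : ∃ u, p = (φ u).1 := hp.elim (⟨_, ·⟩) fun ⟨x, hx, h⟩ => by
      obtain ⟨u, rfl⟩ := k2 δ hδ hx
      exact ⟨u, h.symm⟩
    exact (k3 _ ⟨u, rfl⟩).imp fun _ h δ' h1 h2 => ⟨_, h δ' h1 h2, rfl⟩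
  obtain ⟨u, rfl⟩ := k2 δ l1 l2
  obtain ⟨w, rfl⟩ := k2 δ l1 l3
  have m1 := (hX u (e (δ, v δ))).1 ⟨(k4 δ _ l2).ne, Or.inl ⟨k4 δ _ l2, _, by simpa using l4,
    by simpa using l2⟩⟩
  rw [show (φ u)⁻¹ * φ (e (δ, v δ)) = (φ (e (δ, v δ)))⁻¹ * φ w from Subtype.ext (by
    simp only at l6; simp [← l6, mul_assoc])] at m1
  obtain ⟨-, m2 | ⟨-, p, m2, m3⟩⟩ := (hX _ _).2 m1
  · exact m2.1.not_gt (k4 δ _ l3)
  · rw [Equiv.symm_apply_apply] at m2 m3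
    obtain ⟨_, m4⟩ := k2 δ l1 m3
    obtain ⟨rfl, rfl⟩ := Prod.mk.inj m4
    exact l5 m2

end Pool.Agent.H57.Ap
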