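import Pool.Agent.H57.ApC

set_option autoImplicit false

/-! One stage of the construction. -/

namespace Pool.Agent.H57.Ap

open Set

variable {W : Type} [LinearOrder W] {A : Set B} {α : W} {d : W → Dt}

def Gs (α : W) (d : W → Dt) (k : ℕ) (z : W × P k) (z' : W × P (k + 1)) : Prop :=
  z.1 < α ∧ z'.1 < α ∧ Tr k (d z.1) (d z'.1) z'.2

theorem gs_lt {h : ∀ k, W × P k} {n : ℕ} (h0 : (h 0).1 < α)
    (hg : ∀ k < n, Gs α d k (h k) (h (k + 1))) : (h n).1 < α := by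
  cases n with
  | zero => exact h0
  | succ n => exact (hg n (Nat.lt_succ_self n)).2.1

theorem folw {h : ∀ k, W × P k} {n : ℕ} (h0 : (h n).1 < α) (hb : Bs (d (h n).1))
    (hg : ∀ k < n, Gs α d k (h k) (h (k + 1))) : ∃ h' : ∀ k, W × P k, (∀ k ≤ n, h' k = h k) ∧
      (∀ k, Gs α d k (h' k) (h' (k + 1))) ∧ ∀ k, n ≤ k → (h' k).1 = (h n).1 ∧
        (h' (k + 1)).2 = (d (h n).1).u (k + 1) := by
  let h' : ∀ k, W × P k := fun k => if k ≤ n then h k else ((h n).1, (d (h n).1).u k)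
  have h1 : ∀ k ≤ n, h' k = h k := fun k hk => if_pos hk
  have h2 : ∀ k, n ≤ k → (h' k).1 = (h n).1 ∧ (h' (k + 1)).2 = (d (h n).1).u (k + 1) :=
    fun k hk => ⟨by
      rcases hk.eq_or_lt with rfl | hk
      · rw [h1 n le_rfl]
      · exact congrArg Prod.fst (if_neg hk.not_ge), congrArg Prod.snd (if_neg (by omega))⟩
  refine ⟨h', h1, fun k => ?_, h2⟩
  rcases lt_or_ge k n with hk | hk
  · rw [h1 k hk.le, h1 (k + 1) hk]; exact hg k hk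
  · rw [Gs, (h2 k hk).1, (h2 k hk).2, (h2 (k + 1) (by omega)).1]
    exact ⟨h0, h0, tr_fol hb k⟩

theorem jump {h : ∀ k, W × P k} {K : ℕ} (hg : ∀ k, Gs α d k (h k) (h (k + 1)))
    (z : W × P (K + 1)) (h1 : z.1 < α) (h2 : Tr K (d (h K).1) (d z.1) z.2) :
    ∃ h' : ∀ k, W × P k, (∀ k ≤ K, h' k = h k) ∧
      (∀ k < K + 1, Gs α d k (h' k) (h' (k + 1))) ∧ h' (K + 1) = z := by
  have h3 : ∀ k ≤ K, Function.update h (K + 1) z k = h k := fun k hk =>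
    Function.update_of_ne (by omega) ..
  refine ⟨_, h3, fun k hk => ?_, Function.update_self ..⟩
  rcases (Nat.le_of_lt_succ hk).eq_or_lt with rfl | hk
  · rw [h3 k le_rfl, Function.update_self]; exact ⟨(hg k).1, h1, h2⟩
  · rw [h3 k hk.le, h3 (k + 1) hk]; exact hg k

def HdL (A : Set B) (α : W) (d : W → Dt) (K : ℕ) (z : W × P K) (z' : W × P (K + 1)) (q : P K) :
    Prop :=
  Qt (d z.1) K ∧ ((C3 A K (d z.1) (d z'.1) q ∧ z'.2 = Ek ((d z.1).G K) K 1) ∨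
    (¬ ∃ β, ∃ _ : β < α, C3 A K (d z.1) (d β) q) ∧
    ((C2 A K (d z.1) (d z'.1) q ∧ z'.2 = Ek ((d z.1).G K) K 2) ∨
    (¬ ∃ β, ∃ _ : β < α, C2 A K (d z.1) (d β) q) ∧ z'.1 = z.1 ∧ z'.2 = 1))

theorem hd_ex {K : ℕ} {z : W × P K} (h0 : z.1 < α) (hb : Bs (d z.1)) (hq : Qt (d z.1) K)
    (q : P K) : ∃ z' : W × P (K + 1), z'.1 < α ∧ Tr K (d z.1) (d z'.1) z'.2 ∧
      HdL A α d K z z' q := by
  by_cases h3 : ∃ β, ∃ _ : β < α, C3 A K (d z.1) (d β) q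
  · obtain ⟨β, h1, h3⟩ := h3
    exact ⟨(β, _), h1, tr_jump (m := 2) (c := 1) (by decide) h3.1 (hb.qt hq).1 h3.2.1, hq,
      Or.inl ⟨h3, rfl⟩⟩
  by_cases h2 : ∃ β, ∃ _ : β < α, C2 A K (d z.1) (d β) q
  · obtain ⟨β, h1, h2⟩ := h2
    exact ⟨(β, _), h1, tr_jump (m := 1) (c := 2) (by decide) h2.1 (hb.qt hq).1 h2.2.1, hq,
      Or.inr ⟨h3, Or.inl ⟨h2, rfl⟩⟩⟩
  exact ⟨(z.1, 1), h0, hq.1 ▸ tr_fol hb K, hq, Or.inr ⟨h3, Or.inr ⟨h2, rfl, rfl⟩⟩⟩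

theorem cont (v : B) (a : ℕ) (p : P a) (K : ℕ) (hK : a ≤ K) : ∃ q, ∀ y : B, y a = p →
    (∀ j, a ≤ j → j < K → y (j + 1) = cjk (v (j + 1)) (y j)) → y K = q := by
  induction K, hK using Nat.le_induction with
  | base => exact ⟨p, fun _ h _ => h⟩
  | succ K hK ih =>
    obtain ⟨q, hq⟩ := ih
    exact ⟨cjk (v (K + 1)) q, fun y h h' => by
      rw [h' K hK (Nat.lt_succ_self K), hq y h fun j h1 h2 => h' j h1 (by omega)]⟩

theorem round (hb : ∀ β < α, Bs (d β)) {h : ∀ k, W × P k} {a : ℕ} (h0 : (h 0).1 < α)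
    (hg : ∀ k < a, Gs α d k (h k) (h (k + 1))) (s : Finset (P a)) :
    ∃ (h' : ∀ k, W × P k) (b : ℕ), a < b ∧ (∀ k ≤ a, h' k = h k) ∧
      (∀ k < b, Gs α d k (h' k) (h' (k + 1))) ∧ ∀ y : B, y a ∈ s →
      (∀ j, a ≤ j → j < b → y (j + 1) = cjk (h' (j + 1)).2 (y j)) →
        ∃ K, a ≤ K ∧ K < b ∧ HdL A α d K (h' K) (h' (K + 1)) (y K) := by
  classical
  induction s using Finset.induction with
  | empty =>
    obtain ⟨h', h1, h2, -⟩ := folw (gs_lt h0 hg) (hb _ (gs_lt h0 hg)) hg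
    exact ⟨h', a + 1, Nat.lt_succ_self a, h1, fun k _ => h2 k, by simp⟩
  | insert p s _ ih =>
    obtain ⟨h1, b, k1, k2, k3, k4⟩ := ih
    have k5 := gs_lt (k2 0 (Nat.zero_le a) ▸ h0) k3
    obtain ⟨K, k6, k7⟩ := (hb _ k5).quiet b
    obtain ⟨h2, l1, l2, l3⟩ := folw k5 (hb _ k5) k3
    obtain ⟨q, hq⟩ := cont (fun k => (h2 k).2) a p K (by omega)
    rw [← (l3 K k6).1] at k7
    obtain ⟨z, m1, m2, m3⟩ := hd_ex (A := A) (l2 K).1 (hb _ (l2 K).1) k7 q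
    obtain ⟨h3, n1, n2, n3⟩ := jump l2 z m1 m2
    have n4 : ∀ k ≤ b, h3 k = h1 k := fun k hk => (n1 k (by omega)).trans (l1 k hk)
    refine ⟨h3, K + 1, by omega, fun k hk => (n4 k (by omega)).trans (k2 k hk), n2,
      fun y hy hf => ?_⟩
    rcases Finset.mem_insert.1 hy with hy | hy
    · refine ⟨K, by omega, by omega, ?_⟩
      rw [n3, n1 K le_rfl, hq y hy fun j j1 j2 => by rw [hf j j1 (by omega), n1 _ j2]]
      exact m3
    · obtain ⟨K', o1, o2, o3⟩ := k4 y hy fun j j1 j2 => by rw [hf j j1 (by omega), n4 _ j2]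
      exact ⟨K', o1, by omega, by rwa [n4 _ o2.le, n4 _ o2]⟩

def Tk (A : Set B) (α : W) (d : W → Dt) (i : Option (Iio α) × ℕ) (h : ∀ k, W × P k) (n : ℕ) :
    Prop :=
  ∃ a b, i.2 ≤ a ∧ b ≤ n ∧ (∀ δ : Iio α, i.1 = some δ → (∃ m ≤ n, δ.1 ≤ (h m).1) ∧
    (d δ).Rd a b ∧ ∀ j, a ≤ j → j < b → (h (j + 1)).1 = (h j).1 ∧
      (h (j + 1)).2 = (d (h j).1).u (j + 1) ∧ Fol (d δ) (d (h j).1) j) ∧
  (i.1 = none → ∀ y : B, (∀ j, a ≤ j → j < b → y (j + 1) = cjk (h (j + 1)).2 (y j)) →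
    ∃ K, a ≤ K ∧ K < b ∧ HdL A α d K (h K) (h (K + 1)) (y K))

theorem tk_loc (i : Option (Iio α) × ℕ) (h h' : ∀ k, W × P k) (n : ℕ) (e : ∀ k ≤ n, h' k = h k) :
    Tk A α d i h n → Tk A α d i h' n := by
  rintro ⟨a, b, h1, h2, h3, h4⟩
  refine ⟨a, b, h1, h2, fun δ hδ => ?_, fun hi y hy => ?_⟩
  · obtain ⟨⟨m, k1, k2⟩, k3, k4⟩ := h3 δ hδ
    refine ⟨⟨m, k1, e m k1 ▸ k2⟩, k3, fun j j1 j2 => ?_⟩
    rw [e j (by omega), e (j + 1) (by omega)]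
    exact k4 j j1 j2
  · obtain ⟨K, k1, k2, k3⟩ := h4 hi y fun j j1 j2 => by rw [hy j j1 j2, e _ (by omega)]
    exact ⟨K, k1, k2, by rwa [e K (by omega), e (K + 1) (by omega)]⟩

theorem tk_ext {AA : W → Set B} (hi : ∀ β < α, Iv (AA β) β (fun γ _ => d γ) (d β))
    (i : Option (Iio α) × ℕ) (h : ∀ k, W × P k) (n : ℕ) (h0 : (h 0).1 < α)
    (hg : ∀ k < n, Gs α d k (h k) (h (k + 1))) : ∃ h' n', n < n' ∧
      (∀ k ≤ n, (h' : ∀ k, W × P k) k = h k) ∧ (∀ k < n', Gs α d k (h' k) (h' (k + 1))) ∧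
      Tk A α d i h' n' := by
  have hb : ∀ β < α, Bs (d β) := fun β h => (hi β h).bs
  have k5 := gs_lt h0 hg
  obtain ⟨h1, l1, l2, l3⟩ := folw k5 (hb _ k5) hg
  obtain ⟨_ | δ, k⟩ := i
  · have := Fintype.ofFinite (P (max n k))
    obtain ⟨h2, b, m1, m2, m3, m4⟩ := round (A := A) hb (l1 0 (Nat.zero_le n) ▸ h0)
      (a := max n k) (fun k _ => l2 k) Finset.univ
    exact ⟨h2, b, by omega, fun j hj => (m2 j (by omega)).trans (l1 j hj), m3, max n k, b,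
      le_max_right _ _, le_rfl, by simp, fun _ y => m4 y (Finset.mem_univ _)⟩
  obtain ⟨h2, m, m1, m2, m3, m4⟩ : ∃ (h2 : ∀ k, W × P k) (m : ℕ), n ≤ m ∧
      (∀ k ≤ n, h2 k = h k) ∧ (∀ k < m, Gs α d k (h2 k) (h2 (k + 1))) ∧ δ.1 ≤ (h2 m).1 := by
    rcases le_or_gt δ.1 (h n).1 with h2 | h2
    · exact ⟨h, n, le_rfl, fun _ _ => rfl, hg, h2⟩
    obtain ⟨k0, k1⟩ := (hi δ δ.2).cl _ h2
    obtain ⟨K, k2, k3⟩ := (hb δ δ.2).quiet (max n (k0 + 1))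
    obtain ⟨h3, n1, n2, n3⟩ := jump (K := K) l2 (δ.1, Ek ((d (h1 K).1).G K) K 2) δ.2 (by
      rw [(l3 K (by omega)).1]
      exact tr_jump (m := 1) (by decide) (fun j hj => k1 j (by omega))
        (fun w hw => ((hb δ δ.2).qt k3).1 w (k1 K (by omega) hw)) ((hb δ δ.2).qt k3).2)
    exact ⟨h3, K + 1, by omega, fun j hj => (n1 j (by omega)).trans (l1 j hj), n2, by rw [n3]⟩
  have k6 := gs_lt (m2 0 (Nat.zero_le n) ▸ h0) m3
  obtain ⟨a, b, o1, o2, o3⟩ : ∃ a b, max k m ≤ a ∧ (d δ).Rd a b ∧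
      ∀ j, a ≤ j → j < b → Fol (d δ) (d (h2 m).1) j := by
    rcases m4.eq_or_lt with h3 | h3
    · obtain ⟨a, b, o1, o2⟩ := (hb δ δ.2).rd (max k m)
      exact ⟨a, b, o1, o2, fun j _ _ => h3 ▸ ⟨rfl, le_sup_right⟩⟩
    · exact (hi _ k6).w _ h3 _
  obtain ⟨h3, n1, n2, n3⟩ := folw k6 (hb _ k6) m3
  refine ⟨h3, max (m + 1) b, by omega, fun j hj => (n1 j (by omega)).trans (m2 j hj),
    fun j _ => n2 j, a, b, by simp only; omega, le_max_right _ _, ?_, by simp⟩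
  rintro _ ⟨rfl⟩
  refine ⟨⟨m, by omega, n1 m le_rfl ▸ m4⟩, o2, fun j j1 j2 => ?_⟩
  rw [(n3 j (by omega)).1, (n3 j (by omega)).2, (n3 (j + 1) (by omega)).1]
  exact ⟨rfl, rfl, o3 j j1 j2⟩

theorem iv_step {AA : W → Set B} (hi : ∀ β < α, Iv (AA β) β (fun γ _ => d γ) (d β))
    (hc : (Iio α).Countable) {μ : W} (hμ : IsMin μ) (h0 : μ < α) :
    ∃ x, Iv A α (fun γ _ => d γ) x := by
  have hb : ∀ β < α, Bs (d β) := fun β h => (hi β h).bs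
  have := hc.to_subtype
  obtain ⟨h, e0, hg, ht⟩ := seq_gen (Gs α d) (fun _ => (μ, 1)) (Tk A α d) tk_loc
    fun i h n e => tk_ext hi i h n (e ▸ h0)
  obtain ⟨g, hg0⟩ := g0
  let t : B := fun k => k.rec g fun k p => cjk (h (k + 1)).2 p
  have et : ∀ k, t (k + 1) = cjk (h (k + 1)).2 (t k) := fun _ => rfl
  let H : ℕ → Subgroup B := fun k => (d (h k).1).G k
  let x : Dt := ⟨t, fun k => (h k).2, fun k => Subgroup.closure {t} ⊔ H k, H, fun a b =>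
    ∀ y : B, (∀ j, a ≤ j → j < b → y (j + 1) = cjk (h (j + 1)).2 (y j)) →
      ∃ K, a ≤ K ∧ K < b ∧ HdL A α d K (h K) (h (K + 1)) (y K)⟩
  have b1 : ∀ k, Bs (d (h k).1) := fun k => hb _ (hg k).1
  have b2 : ∀ k, t ∈ x.G k := fun k =>
    Subgroup.mem_sup_left (Subgroup.subset_closure (mem_singleton t))
  have b3 : ∀ {k S}, t ∈ S → H k ≤ S → x.G k ≤ S := fun h1 h2 =>
    sup_le ((Subgroup.closure_le _).2 (singleton_subset_iff.2 h1)) h2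
  have b4 : Monotone H := monotone_nat_of_le_succ fun k =>
    ((b1 k).mono (Nat.le_succ k)).trans ((hg k).2.2.1 _ (Nat.lt_succ_self k))
  have b5 : ∀ K j, K ≤ j → (d (h K).1).G j ≤ x.G j := fun K j hj => by
    have : ∀ K', K ≤ K' → K' ≤ j → (d (h K).1).G j ≤ (d (h K').1).G j := fun K' h1 => by
      induction K', h1 using Nat.le_induction with
      | base => exact fun _ => le_rfl
      | succ K' _ ih => exact fun h2 => (ih (by omega)).trans ((hg K').2.2.1 j h2)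
    exact (this j hj le_rfl).trans le_sup_right
  have b6 : ∀ k, t k ∉ At (H k) k := fun k => by
    induction k with
    | zero =>
      rw [show H 0 = ⊥ from (congrArg (fun z : W × P 0 => (d z.1).G 0) e0).trans
        (((hi μ h0).bot hμ).1 0), At, Subgroup.map_bot]
      exact hg0
    | succ k ih => exact fun h1 => (hg k).2.2.2.2.2 _ _ le_rfl ih (Subgroup.mem_sup_left h1)
  have b7 : ∀ δ (hδ : δ < α), ∃ k, ∀ j, k < j → (d δ).G j ≤ H j := fun δ hδ => by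
    obtain ⟨n, a, b, -, -, h1, -⟩ := ht (some ⟨δ, hδ⟩, 0)
    obtain ⟨⟨m, -, h2⟩, -⟩ := h1 _ rfl
    obtain ⟨k, hk⟩ : ∃ k, Sub (d δ) (d (h m).1) k := by
      rcases h2.eq_or_lt with h3 | h3
      · exact ⟨0, fun _ _ => (congrArg (fun z => (d z).G _) h3).le⟩
      · exact (hi _ (hg m).1).cl δ h3
    refine ⟨max k m, fun j hj => (hk j (by omega)).trans ?_⟩
    have : ∀ K', m ≤ K' → K' ≤ j → (d (h m).1).G j ≤ (d (h K').1).G j := fun K' h1 => by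
      induction K', h1 using Nat.le_induction with
      | base => exact fun _ => le_rfl
      | succ K' _ ih => exact fun h2 => (ih (by omega)).trans ((hg K').2.2.1 j h2)
    exact this j (by omega) le_rfl
  have b8 : ∀ δ (hδ : δ < α) k, ∃ a b, k ≤ a ∧ (d δ).Rd a b ∧
      ∀ j, a ≤ j → j < b → Fol (d δ) x j := fun δ hδ k => by
    obtain ⟨n, a, b, h1, -, h2, -⟩ := ht (some ⟨δ, hδ⟩, k)
    obtain ⟨-, h3, h4⟩ := h2 _ rfl
    refine ⟨a, b, h1, h3, fun j j1 j2 => ?_⟩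
    obtain ⟨h5, h6, h7, h8⟩ := h4 j j1 j2
    refine ⟨h6.trans h7, b3 (Subgroup.mem_sup_left (b2 j)) ?_⟩
    exact (congrArg (fun z => (d z).G (j + 1)) h5).le.trans
      (h8.trans (sup_le_sup_right le_sup_right _))
  refine ⟨x, ⟨b2, fun a b hab => sup_le_sup_left (b4 hab) _, b4, fun _ => le_sup_right,
    fun k => b3 (Subgroup.mem_sup_left (b2 k)) le_sup_right, fun k => (hg k).2.2.2.1,
    fun k w hw j => ?_, fun k => ?_, fun k R p h1 h2 h3 => ?_, fun k => ?_, fun k => ?_⟩,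
    fun h1 => absurd h0 h1.not_lt, b8, fun δ hδ => ?_, fun δ hδ h1 => ?_,
    fun _ a b h1 y hy => ?_⟩
  · exact b3 (S := (prk.comp (Pi.evalMonoidHom P (j + 1))).eqLocus (Pi.evalMonoidHom P j))
      (prk_cj (hg j).2.2.2.1 _) (fun w hw => (b1 k).br k w hw j) hw
  · exact b3 (S := (Pi.evalMonoidHom P (k + 1)).eqLocus
      ((cjk (h (k + 1)).2).comp (Pi.evalMonoidHom P k))) (et k) (hg k).2.2.2.2.1
  · refine (hg k).2.2.2.2.2 R p ((At_mono le_sup_right k).trans h1) h2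
      ((sup_le ?_ le_sup_right : At (x.G (k + 1)) (k + 1) ⊔ R.map (cjk (h (k + 1)).2) ≤ _) h3)
    exact Subgroup.map_le_iff_le_comap.2 (b3 (Subgroup.mem_sup_right
      ⟨_, h1 (At_mem (b2 k) k), rfl⟩) fun w hw => Subgroup.mem_sup_left (At_mem hw _))
  · obtain ⟨a, b, h1, h2, h3⟩ := b8 μ h0 k
    obtain ⟨h4, h5, h6⟩ := (hi μ h0).bot hμ
    obtain ⟨h7, h8⟩ := h3 a le_rfl (h6 a b h2)
    exact ⟨a, h1, h7.trans (congrFun h5 _), by simpa only [h4, sup_bot_eq] using h8⟩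
  · obtain ⟨n, a, b, h1, -, -, h2⟩ := ht (none, k)
    exact ⟨a, b, h1, h2 rfl⟩
  · obtain ⟨k, hk⟩ := b7 δ hδ
    exact ⟨k, fun j hj => (hk j hj).trans le_sup_right⟩
  · obtain ⟨k, hk⟩ := b7 δ hδ
    exact b6 (k + 1) (At_mem (hk _ (Nat.lt_succ_self k) ((show t = (d δ).t from h1) ▸ (hb δ hδ).mem _)) _)
  · obtain ⟨K, k1, k2, k3, k4⟩ := h1 y hy
    refine ⟨K, k1, k2, _, (hg K).1, rfl, fun j hj => b5 K j hj.le, ?_⟩
    rcases k4 with ⟨k4, k5⟩ | ⟨k4, ⟨k5, k6⟩ | ⟨k5, k6, k7⟩⟩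
    · exact Or.inl ⟨k4.2.2, k5⟩
    · exact Or.inr ⟨k4, Or.inl ⟨k5.2.1, k5.2.2, k6⟩⟩
    · exact Or.inr ⟨k4, Or.inr ⟨k5, k7, b3 (b2 K)
        ((congrArg (fun z => (d z).G (K + 1)) k6).le.trans (k3.2.trans le_sup_right))⟩⟩

end Pool.Agent.H57.Ap
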