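import Mathlib

set_option autoImplicit false

/-! A tower of finite wreath-type products. -/

namespace Pool.Agent.H57.Ap

@[ext] structure Wr (Q : Type) [Group Q] where
  f : Subgroup Q → Q → ZMod 4
  g : Q

variable {Q : Type} [Group Q]

instance : Mul (Wr Q) := ⟨fun a b => ⟨fun S x => a.f S x + b.f S (a.g⁻¹ * x), a.g * b.g⟩⟩
instance : One (Wr Q) := ⟨⟨0, 1⟩⟩
instance : Inv (Wr Q) := ⟨fun a => ⟨fun S x => - a.f S (a.g * x), a.g⁻¹⟩⟩

@[simp] theorem mul_f (a b : Wr Q) (S : Subgroup Q) (x : Q) :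
    (a * b).f S x = a.f S x + b.f S (a.g⁻¹ * x) := rfl
@[simp] theorem mul_g (a b : Wr Q) : (a * b).g = a.g * b.g := rfl
@[simp] theorem one_f (S : Subgroup Q) (x : Q) : (1 : Wr Q).f S x = 0 := rfl
@[simp] theorem one_g : (1 : Wr Q).g = 1 := rfl
@[simp] theorem inv_f (a : Wr Q) (S : Subgroup Q) (x : Q) : a⁻¹.f S x = - a.f S (a.g * x) := rfl
@[simp] theorem inv_g (a : Wr Q) : a⁻¹.g = a.g⁻¹ := rfl

instance Wr.group : Group (Wr Q) := Group.ofLeftAxioms
  (fun a b c => by ext <;> simp [add_assoc, mul_assoc]) (fun a => by ext <;> simp)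
  fun a => by ext <;> simp

instance [Finite Q] : Finite (Wr Q) :=
  Finite.of_injective (fun a : Wr Q => (a.f, a.g)) fun a b h => by
    ext1
    · exact congrArg Prod.fst h
    · exact congrArg Prod.snd h

def io : Q →* Wr Q := MonoidHom.mk' (fun g => ⟨0, g⟩) fun a b => by ext <;> simp

def pr : Wr Q →* Q := MonoidHom.mk' (·.g) fun _ _ => rfl

def cj (v : Wr Q) : Q →* Wr Q := (MulAut.conj v).toMonoidHom.comp io

open Classical in
noncomputable def E (R : Subgroup Q) (c : ZMod 4) : Wr Q :=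
  ⟨fun S x => if R ≤ S ∧ x ∈ S then c else 0, 1⟩

def Zs (m : ZMod 4) : Subgroup (Wr Q) where
  carrier := {w | ∀ S x, m * w.f S x = 0}
  one_mem' := by simp
  mul_mem' ha hb S x := by simp [mul_add, ha S, hb S]
  inv_mem' ha S x := by simp [ha S]

theorem cj_f {v : Wr Q} (hv : pr v = 1) (g : Q) (S : Subgroup Q) (x : Q) :
    (cj v g).f S x = v.f S x - v.f S (g⁻¹ * x) := by
  have : v.g = 1 := hv
  simp [cj, io, this, sub_eq_add_neg]

theorem pr_cj {v : Wr Q} (hv : pr v = 1) (g : Q) : pr (cj v g) = g := by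
  have : v.g = 1 := hv
  simp [cj, io, pr, this]

theorem pr_E (R : Subgroup Q) (c : ZMod 4) : pr (E R c) = 1 := rfl

open Classical in
theorem E_mul (R S : Subgroup Q) (c : ZMod 4) {g : Q} (h : R ≤ S → g ∈ S) (x : Q) :
    (E R c).f S x - (E R c).f S (g⁻¹ * x) = 0 :=
  sub_eq_zero.2 (if_congr (and_congr_right fun h1 =>
    (S.mul_mem_cancel_left (inv_mem (h h1))).symm) rfl rfl)

theorem cj_one : cj (1 : Wr Q) = io := by ext1; simp [cj]

theorem cj_fix {R : Subgroup Q} (c : ZMod 4) {g : Q} (h : g ∈ R) : cj (E R c) g = io g := by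
  ext S x
  · exact (cj_f (pr_E R c) ..).trans (E_mul R S c (fun h1 => h1 h) x)
  · exact pr_cj (pr_E R c) g

theorem ap (R : Subgroup Q) (q : Q) :
    cj (E R 1) q * (io q)⁻¹ * cj (E R 1) q = cj (E R 2) q := by
  ext S x
  · have h : (cj (E R 1) q).g = q := pr_cj (pr_E R 1) q
    simp only [mul_f, mul_g, h, cj_f (pr_E R _), inv_f, inv_g]
    simp only [io, E, MonoidHom.mk'_apply, Pi.zero_apply, mul_inv_cancel, inv_one, one_mul]
    split_ifs <;> decide
  · have h : ∀ c, (cj (E R c) q).g = q := fun c => pr_cj (pr_E R c) q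
    simp [h, io]

theorem io_Zs (m : ZMod 4) (g : Q) : io g ∈ Zs m := fun _ _ => mul_zero _

theorem cj_Zs (R : Subgroup Q) (g : Q) : cj (E R 2) g ∈ Zs 2 := fun S x => by
  rw [cj_f (pr_E R _)]
  simp only [E]
  split_ifs <;> decide

theorem Zs_le : (Zs 1 : Subgroup (Wr Q)) ≤ Zs 2 := fun w h S x => by
  rw [show w.f S x = 0 from (one_mul _).symm.trans (h S x), mul_zero]

theorem safe {m c : ZMod 4} (h : m * c ≠ 0) {R R' : Subgroup Q} (hR : R ≤ R') {g : Q}
    (hg : g ∉ R') : cj (E R c) g ∉ Zs m ⊔ R'.map (cj (E R c)) := fun h1 => by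
  let W : Subgroup (Wr Q) :=
    { carrier := {w | ∀ x, m * w.f R' x = 0}
      one_mem' := by simp
      mul_mem' ha hb x := by simp [mul_add, ha x, hb _]
      inv_mem' ha x := by simp [ha _] }
  have h2 : Zs m ⊔ R'.map (cj (E R c)) ≤ W := sup_le (fun w hw => hw R') (by
    rintro _ ⟨k, hk, rfl⟩ x
    rw [cj_f (pr_E R _), E_mul R R' c (fun _ => hk), mul_zero])
  have h3 := h2 h1 1
  rw [cj_f (pr_E R _)] at h3
  simp [E, hR, hg, h] at h3

theorem safe0 {R' : Subgroup Q} {g : Q} (hg : g ∉ R') :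
    cj 1 g ∉ ⊥ ⊔ R'.map (cj (1 : Wr Q)) := by
  rw [bot_sup_eq, cj_one]
  rintro ⟨k, hk, h⟩
  exact hg ((show k = g from congrArg Wr.g h) ▸ hk)

structure Gp where
  T : Type
  g : Group T
  fin : Finite T

def L : ℕ → Gp
  | 0 => ⟨Multiplicative (ZMod 2), inferInstance, inferInstance⟩
  | k + 1 => ⟨@Wr (L k).T (L k).g, @Wr.group _ (L k).g, by
      letI := (L k).g; haveI := (L k).fin; infer_instance⟩

def P (k : ℕ) : Type := (L k).T

instance (k : ℕ) : Group (P k) := (L k).g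
instance (k : ℕ) : Finite (P k) := (L k).fin

theorem g0 : ∃ g : P 0, g ≠ 1 := exists_ne (1 : Multiplicative (ZMod 2))

example (k : ℕ) (v : P (k + 1)) : P k →* P (k + 1) := cj (Q := P k) v

end Pool.Agent.H57.Ap
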