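import Pool.Agent.H57.Lots2

set_option autoImplicit false

namespace Pool.Agent.H57.Coh

open Set Cardinal Filter Pool.Agent.H57.Lots

theorem Iio_countable (a : W1) : (Iio a).Countable := by
  have := mk_Iio_lt a (by simp)
  exact le_aleph0_iff_set_countable.1
    (Order.lt_succ_iff.1 (this.trans_eq (mk_W1.trans succ_aleph0.symm)))

theorem en_ex (b : W1) : ∃ en : ℕ → W1, ∀ x < b, (∀ k, en k < b) ∧ ∃ k, en k = x := by
  rcases (Iio b).eq_empty_or_nonempty with h | h
  · exact ⟨fun _ => b, fun x hx => absurd (show x ∈ Iio b from hx) (by rw [h]; simp)⟩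
  · obtain ⟨en, hen⟩ := (Iio_countable b).exists_eq_range h
    refine ⟨en, fun x hx => ⟨fun k => ?_, ?_⟩⟩
    · show en k ∈ Iio b
      rw [hen]; exact ⟨k, rfl⟩
    · have : x ∈ Iio b := hx
      rwa [hen] at this

/-- a coherent sequence of finite-to-one maps -/
theorem coherent : ∃ e : W1 → W1 → ℕ, (∀ b m, {x | x < b ∧ e b x ≤ m}.Finite) ∧
    ∀ a b, a < b → {x | x < a ∧ e a x ≠ e b x}.Finite := by
  classical
  choose en hen using en_ex
  have hex : ∀ b x, x < b → ∃ k, x ≤ en b k := fun b x h => by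
    obtain ⟨k, hk⟩ := (hen b x h).2
    exact ⟨k, hk.ge⟩
  let step : ∀ b : W1, (∀ c, c < b → W1 → ℕ) → W1 → ℕ := fun b rc x =>
    if h : x < b then
      max (rc (en b (Nat.find (hex b x h))) ((hen b x h).1 _) x) (Nat.find (hex b x h))
    else 0
  let e : W1 → W1 → ℕ := (wellFounded_lt (α := W1)).fix step
  have he : ∀ b x (h : x < b),
      e b x = max (e (en b (Nat.find (hex b x h))) x) (Nat.find (hex b x h)) := by
    intro b x h
    have : e b = step b fun c _ => e c := WellFounded.fix_eq _ _ _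
    rw [this]
    simp only [step, dif_pos h]
  refine ⟨e, ?_⟩
  have key : ∀ b, (∀ m, {x | x < b ∧ e b x ≤ m}.Finite) ∧
      ∀ a, a < b → {x | x < a ∧ e a x ≠ e b x}.Finite := by
    intro b
    induction b using WellFoundedLT.induction with
    | ind b ih =>
    constructor
    · intro m
      rcases (Iio b).eq_empty_or_nonempty with h | ⟨x0, hx0⟩
      · exact Set.finite_empty.subset fun x hx => h ▸ hx.1
      refine ((Set.finite_le_nat m).biUnion fun k _ =>
        ((ih (en b k) ((hen b x0 hx0).1 k)).1 m).insert (en b k)).subset fun x hx => ?_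
      have h1 := hx.2
      rw [he b x hx.1] at h1
      refine mem_biUnion (x := Nat.find (hex b x hx.1)) (le_trans (le_max_right _ _) h1) ?_
      rcases (Nat.find_spec (hex b x hx.1)).lt_or_eq with h | h
      · exact Or.inr ⟨h, le_trans (le_max_left _ _) h1⟩
      · exact Or.inl h
    · intro a hab
      obtain ⟨j, hj⟩ := (hen b a hab).2
      have hc : ∀ c, c < b → {x | x < a ∧ x < c ∧ e a x ≠ e c x}.Finite := by
        intro c hc
        rcases lt_trichotomy a c with h | rfl | h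
        · exact ((ih c hc).2 a h).subset fun x hx => ⟨hx.1, hx.2.2⟩
        · exact Set.finite_empty.subset fun x hx => hx.2.2 rfl
        · exact ((ih a hab).2 c h).subset fun x hx => ⟨hx.2.1, hx.2.2.symm⟩
      refine ((Set.finite_le_nat j).biUnion fun k _ =>
        (((ih (en b k) ((hen b a hab).1 k)).1 k).union
          (hc _ ((hen b a hab).1 k))).insert (en b k)).subset fun x hx => ?_
      have hxb := hx.1.trans hab
      refine mem_biUnion (x := Nat.find (hex b x hxb))
        (Nat.find_min' _ (by rw [hj]; exact hx.1.le)) ?_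
      rcases (Nat.find_spec (hex b x hxb)).lt_or_eq with h | h
      · right
        rcases le_total (e (en b (Nat.find (hex b x hxb))) x) (Nat.find (hex b x hxb)) with h1 | h1
        · exact Or.inl ⟨h, h1⟩
        · refine Or.inr ⟨hx.1, h, ?_⟩
          have h2 := hx.2
          rwa [he b x hxb, max_eq_left h1] at h2
      · exact Or.inl h
  exact ⟨fun b => (key b).1, fun a b => (key b).2 a⟩

/-- finite approximations of the countable ordinals, cohering on a tail -/
theorem approx : ∃ F : W1 → ℕ → Finset W1, (∀ b n, ∀ x ∈ F b n, x < b) ∧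
    ∀ a b, a < b → ∀ᶠ n in atTop, a ∈ F b n ∧ ∀ x < a, (x ∈ F a n ↔ x ∈ F b n) := by
  obtain ⟨e, h1, h2⟩ := coherent
  refine ⟨fun b n => (h1 b n).toFinset, fun b n x hx => ((h1 b n).mem_toFinset.1 hx).1,
    fun a b hab => ?_⟩
  obtain ⟨M, hM⟩ := ((h2 a b hab).image fun x => e a x + e b x).bddAbove
  refine eventually_atTop.2 ⟨M + e b a, fun n hn => ⟨?_, fun x hx => ?_⟩⟩
  · exact (h1 b n).mem_toFinset.2 ⟨hab, by omega⟩
  · simp only [Set.Finite.mem_toFinset, mem_setOf_eq, hx, hx.trans hab, true_and]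
    by_cases h : e a x = e b x
    · rw [h]
    · have : e a x + e b x ≤ M := hM ⟨x, ⟨hx, h⟩, rfl⟩
      constructor <;> intro _ <;> omega

noncomputable def code (n : ℕ) (A : Finset W1) (b : W1 → Bool) : ℕ :=
  Encodable.encode ((n, A.card, (A.filter fun x => b x = true).image fun x =>
    (A.filter fun y => y < x).card) : ℕ × ℕ × Finset ℕ)

theorem code_inj {n n' : ℕ} {A A' : Finset W1} {b b' : W1 → Bool} (h : code n A b = code n' A' b') :
    n = n' ∧ A.card = A'.card ∧ ∀ z ∈ A, z ∈ A' → (∀ x < z, (x ∈ A ↔ x ∈ A')) → b z = true →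
      b' z = true := by
  have h1 := Encodable.encode_injective h
  simp only [Prod.mk.injEq] at h1
  refine ⟨h1.1, h1.2.1, fun z hz hz' hA hb => ?_⟩
  have h2 : (A.filter fun y => y < z).card ∈ (A'.filter fun x => b' x = true).image fun x =>
      (A'.filter fun y => y < x).card := by
    rw [← h1.2.2]
    exact Finset.mem_image.2 ⟨z, Finset.mem_filter.2 ⟨hz, hb⟩, rfl⟩
  obtain ⟨w, hw, hw'⟩ := Finset.mem_image.1 h2
  have h3 : (A.filter fun y => y < z) = A'.filter fun y => y < z := by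
    ext x
    simp only [Finset.mem_filter]
    exact ⟨fun h => ⟨(hA x h.2).1 h.1, h.2⟩, fun h => ⟨(hA x h.2).2 h.1, h.2⟩⟩
  rw [h3] at hw'
  have h4 : ∀ u v, u ∈ A' → u < v →
      (A'.filter fun y => y < u).card < (A'.filter fun y => y < v).card := by
    intro u v hu huv
    refine Finset.card_lt_card ⟨fun x hx => ?_, fun hsub => ?_⟩
    · exact Finset.mem_filter.2 ⟨(Finset.mem_filter.1 hx).1, (Finset.mem_filter.1 hx).2.trans huv⟩
    · exact lt_irrefl _ (Finset.mem_filter.1 (hsub (Finset.mem_filter.2 ⟨hu, huv⟩))).2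
  rcases lt_trichotomy w z with h5 | rfl | h5
  · exact absurd hw' (h4 _ _ (Finset.mem_filter.1 hw).1 h5).ne
  · exact (Finset.mem_filter.1 hw).2
  · exact absurd hw' (h4 _ _ hz' h5).ne'

theorem code_congr (n : ℕ) (A : Finset W1) {b b' : W1 → Bool} (h : ∀ x ∈ A, b x = b' x) :
    code n A b = code n A b' := by
  have : (A.filter fun x => b x = true) = A.filter fun x => b' x = true :=
    Finset.filter_congr fun x hx => by rw [h x hx]
  simp only [code, this]

/-- a tree of subsets of `ℕ` indexed by the binary tree of height `ω₁` -/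
theorem tree : ∃ T : (W1 → Bool) → W1 → Set ℕ,
    (∀ b a c, a < c → (T b a \ T b c).Finite) ∧ (∀ b a c, a < c → (T b c \ T b a).Infinite) ∧
    ∀ b b' z, (∀ x < z, b x = b' x) → T b z = T b' z ∧
      (b z ≠ b' z → ∀ a, z < a → ((T b a ∩ T b' a) \ T b z).Finite) := by
  classical
  obtain ⟨F, h1, h2⟩ := approx
  let p : (W1 → Bool) → W1 → ℕ → W1 → ℕ := fun b a n x => code n ((F a n).filter (· ≤ x)) b
  let T : (W1 → Bool) → W1 → Set ℕ := fun b a => {m | ∃ n, ∃ x ∈ F a n, p b a n x = m}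
  have hfin : ∀ b a (S : Set ℕ), (∀ᶠ n in atTop, ∀ x ∈ F a n, p b a n x ∉ S) →
      (T b a ∩ S).Finite := by
    intro b a S h
    obtain ⟨N, hN⟩ := eventually_atTop.1 h
    refine ((Set.finite_lt_nat N).biUnion fun n _ =>
      (F a n).finite_toSet.image (p b a n)).subset ?_
    rintro m ⟨⟨n, x, hx, rfl⟩, hS⟩
    exact mem_biUnion (x := n) (not_le.1 fun hn => hN n hn x hx hS) ⟨x, hx, rfl⟩
  have hp : ∀ b a c n x, (∀ y < a, (y ∈ F a n ↔ y ∈ F c n)) → x < a → p b c n x = p b a n x := by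
    intro b a c n x h hx
    have : (F c n).filter (· ≤ x) = (F a n).filter (· ≤ x) := by
      ext y
      simp only [Finset.mem_filter]
      exact ⟨fun hy => ⟨(h y (hy.2.trans_lt hx)).2 hy.1, hy.2⟩,
        fun hy => ⟨(h y (hy.2.trans_lt hx)).1 hy.1, hy.2⟩⟩
    simp only [p, this]
  have hT : ∀ b b' z, (∀ x < z, b x = b' x) → ∀ n x, x < z → ∀ a, p b a n x = p b' a n x :=
    fun b b' z h n x hx a => code_congr _ _ fun y hy =>
      h y ((Finset.mem_filter.1 hy).2.trans_lt hx)
  refine ⟨T, fun b a c hac => ?_, fun b a c hac => ?_, fun b b' z hz => ⟨?_, fun hne a hza => ?_⟩⟩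
  · refine hfin b a (T b c)ᶜ ((h2 a c hac).mono fun n hn x hx h => h ?_)
    exact ⟨n, x, (hn.2 x (h1 _ _ _ hx)).1 hx, hp b a c n x hn.2 (h1 _ _ _ hx)⟩
  · obtain ⟨N, hN⟩ := eventually_atTop.1 (h2 a c hac)
    refine Set.infinite_of_injective_forall_mem (f := fun n => p b c (n + N) a)
      (fun n m h => by have := (code_inj h).1; omega) fun n => ⟨⟨_, a, (hN _ (by omega)).1, rfl⟩, ?_⟩
    rintro ⟨m, x, hx, h⟩
    obtain ⟨rfl, h3, -⟩ := code_inj h
    obtain ⟨h4, h5⟩ := hN (n + N) (by omega)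
    refine absurd h3 (Finset.card_lt_card ⟨fun y hy => ?_, fun hsub => ?_⟩).ne
    · have h6 := (Finset.mem_filter.1 hy).1
      exact Finset.mem_filter.2 ⟨(h5 y (h1 _ _ _ h6)).1 h6, (h1 _ _ _ h6).le⟩
    · exact lt_irrefl _ (h1 _ _ _ (Finset.mem_filter.1 (hsub (Finset.mem_filter.2 ⟨h4, le_rfl⟩))).1)
  · ext m
    simp only [T, mem_setOf_eq]
    refine exists_congr fun n => exists_congr fun x => and_congr_right fun hx => ?_
    rw [hT b b' z hz n x (h1 _ _ _ hx)]
  · refine (hfin b a (T b' a \ T b z) ((h2 z a hza).mono fun n hn x hx h => h.2 ?_)).subset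
      fun m hm => ⟨hm.1.1, hm.1.2, hm.2⟩
    obtain ⟨m, y, hy, h3⟩ := h.1
    obtain rfl : m = n := (code_inj h3).1
    rcases lt_or_ge x z with h4 | h4
    · exact ⟨m, x, (hn.2 x h4).2 hx, (hp b z a m x hn.2 h4).symm⟩
    rcases lt_or_ge y z with h5 | h5
    · refine ⟨m, y, (hn.2 y h5).2 hy, ?_⟩
      rw [← hp b z a m y hn.2 h5, hT b b' z hz m y h5, h3]
    exfalso
    have hA : ∀ w < z, (w ∈ (F a m).filter (· ≤ y) ↔ w ∈ (F a m).filter (· ≤ x)) := fun w hw => by
      simp only [Finset.mem_filter, hw.le.trans h4, hw.le.trans h5]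
    have h6 := (code_inj h3).2.2 z (Finset.mem_filter.2 ⟨hn.1, h5⟩)
      (Finset.mem_filter.2 ⟨hn.1, h4⟩) hA
    have h7 := (code_inj h3.symm).2.2 z (Finset.mem_filter.2 ⟨hn.1, h4⟩)
      (Finset.mem_filter.2 ⟨hn.1, h5⟩) fun w hw => (hA w hw).symm
    cases hb : b z <;> cases hb' : b' z <;> simp_all

end Pool.Agent.H57.Coh
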