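import Pool.Agent.H57.AroDefs
import Pool.Agent.H57.Coh

set_option autoImplicit false

namespace Pool.Agent.H57.Aro

open Set Cardinal Order Filter Pool.Agent.H57.Lots Pool.Agent.H57.Coh

theorem bdd {t : Set W1} (ht : t.Countable) : ∃ b, t ⊆ Iio b := by
  rcases t.eq_empty_or_nonempty with rfl | hne
  · exact ⟨Classical.arbitrary _, empty_subset _⟩
  obtain ⟨a, rfl⟩ := ht.exists_eq_range hne
  obtain ⟨b, hb⟩ := bdd_seq cof_W1 a
  obtain ⟨c, hc⟩ := exists_gt b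
  exact ⟨c, fun x hx => (hb hx).trans_lt hc⟩

theorem unb {S : Set W1} (hS : ¬ S.Countable) (a : W1) : ∃ b ∈ S, a < b := by
  by_contra h
  push Not at h
  obtain ⟨c, hc⟩ := exists_gt a
  exact hS ((Iio_countable c).mono fun x hx => (h x hx).trans_lt hc)

theorem pigeon {S : Set W1} (hS : ¬ S.Countable) {X : Type} {Y : Set X} (hY : Y.Countable)
    (f : W1 → X) (hf : ∀ a ∈ S, f a ∈ Y) : ∃ y, ¬ {a | a ∈ S ∧ f a = y}.Countable := by
  by_contra h
  push Not at h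
  refine hS ((hY.biUnion fun y _ => h y).mono fun a ha => ?_)
  exact mem_iUnion₂.2 ⟨f a, hf a ha, ha, rfl⟩

theorem exists_min {S : Set W1} (hS : S.Nonempty) : ∃ a ∈ S, ∀ b ∈ S, a ≤ b :=
  ⟨_, wellFounded_lt.min_mem S hS, fun _ hb => not_lt.1 (wellFounded_lt.not_lt_min S hb)⟩

/-- closure points -/
def Cp (f : W1 → W1) : Set W1 := {a | ∀ b < a, f b < a}

theorem cp_unb (f : W1 → W1) (a : W1) : ∃ c ∈ Cp f, a < c := by
  have h : ∀ x : W1, ∃ y, x < y ∧ ∀ b < x, f b < y := fun x => by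
    obtain ⟨y, hy⟩ := bdd (((Iio_countable x).image f).insert x)
    exact ⟨y, hy (mem_insert _ _), fun b hb => hy (mem_insert_of_mem _ ⟨b, hb, rfl⟩)⟩
  choose g hg1 hg2 using h
  obtain ⟨c, hc⟩ := bdd_seq cof_W1 fun n => g^[n] a
  obtain ⟨d, hd, hd'⟩ := exists_min (S := upperBounds (range fun n => g^[n] a)) ⟨c, hc⟩
  refine ⟨d, fun b hb => ?_, (hg1 a).trans_le (hd ⟨1, rfl⟩)⟩
  by_contra hn
  refine (hd' b ?_).not_gt hb
  rintro _ ⟨n, rfl⟩
  by_contra h1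
  have := hg2 _ b (not_le.1 h1)
  exact hn (this.trans_le (hd ⟨n + 1, Function.iterate_succ_apply' g n a⟩))

theorem press (f b : W1 → W1) (a : W1) (hb : ∀ x ∈ Cp f, a < x → b x < x) :
    ∃ c, ¬ {x | x ∈ Cp f ∧ a < x ∧ b x ≤ c}.Countable := by
  by_contra h
  push Not at h
  choose k hk using fun c => bdd (h c)
  obtain ⟨x, hx, hax⟩ := cp_unb (fun c => max (f c) (k c)) a
  have h1 : x ∈ Cp f := fun c hc => (le_max_left _ _).trans_lt (hx c hc)
  exact (hk (b x) ⟨h1, hax, le_rfl⟩).not_gt ((le_max_right _ _).trans_lt (hx _ (hb x h1 hax)))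

theorem fin_bd {s : Set W1} (hs : s.Finite) {x a : W1} (ha : a < x) (h : ∀ y ∈ s, y < x) :
    ∃ b < x, ∀ y ∈ s, y ≤ b := by
  obtain ⟨b, hb, hb'⟩ := exists_max_image (insert a s) id (hs.insert a) (insert_nonempty _ _)
  refine ⟨b, ?_, fun y hy => hb' y (mem_insert_of_mem _ hy)⟩
  rcases hb with rfl | hb
  exacts [ha, h b hb]

theorem chain {L : Type} [LinearOrder L] {S : Set W1} (hS : ¬ S.Countable) (z : W1 → L)
    (k : W1 → W1) (h : ∀ a ∈ S, ∀ b ∈ S, k a < b → z a < z b) : Nonempty (W1 ↪o L) := by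
  have h1 : ∀ (x : W1) (r : Iio x → W1), ∃ y ∈ S, ∀ i, k (r i) < y := fun x r => by
    haveI := (Iio_countable x).to_subtype
    obtain ⟨b, hb⟩ := bdd (countable_range fun i => k (r i))
    obtain ⟨y, hy, hy'⟩ := unb hS b
    exact ⟨y, hy, fun i => (hb ⟨i, rfl⟩).trans hy'⟩
  choose F hF1 hF2 using h1
  let s : W1 → W1 := (wellFounded_lt (α := W1)).fix fun x rc => F x fun i => rc i.1 i.2
  have hs : ∀ x, s x = F x fun i => s i.1 := fun x => WellFounded.fix_eq _ _ _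
  refine ⟨OrderEmbedding.ofStrictMono (fun x => z (s x)) fun x y hxy => ?_⟩
  refine h _ (by rw [hs]; exact hF1 _ _) _ (by rw [hs]; exact hF1 _ _) ?_
  rw [hs y]
  exact hF2 y (fun i => s i.1) ⟨x, hxy⟩

theorem cofinal {L : Type} [LinearOrder L] (z : W1 ≃ L) (hL : IsEmpty (W1 ↪o L)) (K : Set L) :
    ∃ C ⊆ K, C.Countable ∧ ∀ w ∈ K, ∃ y ∈ C, w ≤ y := by
  by_contra h
  push Not at h
  refine hL.false (chain (S := {a | z a ∈ K ∧ ∀ b < a, z b ∈ K → z b < z a}) (fun hc => ?_) z id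
    fun a ha b hb hab => hb.2 a hab ha.1).some
  obtain ⟨a, ha⟩ := bdd hc
  obtain ⟨w, hw, hw'⟩ := h (K ∩ z '' Iio a) inter_subset_left
    (((Iio_countable a).image z).mono inter_subset_right)
  obtain ⟨x, hx, hx'⟩ := exists_min (S := {x | z x ∈ K ∧ ∀ y ∈ K ∩ z '' Iio a, y < z x})
    ⟨z.symm w, by simpa using hw, by simpa using hw'⟩
  refine lt_irrefl _ (hx.2 (z x) ⟨hx.1, x, ha ⟨hx.1, fun b hb hbK => ?_⟩, rfl⟩)
  by_contra hn
  exact (hx' b ⟨hbK, fun y hy => (hx.2 y hy).trans_le (not_lt.1 hn)⟩).not_gt hb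

/-- cliques -/
def Cl {V : Type} (R : V → V → Prop) (p : Set V) : Prop := ∀ v ∈ p, ∀ w ∈ p, R v w

theorem clique (hMA : MA1) {V : Type} (R : V → V → Prop)
    (hccc : ∀ p : W1 → Set V, (∀ a, (p a).Finite ∧ Cl R (p a)) →
      ∃ a b, a ≠ b ∧ ∀ v ∈ p a, ∀ w ∈ p b, R v w ∧ R w v)
    {I : Type} (hI : #I ≤ ℵ₁) (D : I → Set V → Prop)
    (hD : ∀ i p, p.Finite → Cl R p → ∃ q, p ⊆ q ∧ q.Finite ∧ Cl R q ∧ D i q) :
    ∃ H, Cl R H ∧ ∀ i, ∃ q ⊆ H, D i q := by
  let P := {p : Set V // p.Finite ∧ Cl R p}ᵒᵈ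
  haveI : Nonempty P := ⟨⟨∅, finite_empty, fun _ h => h.elim⟩⟩
  obtain ⟨G, -, hG2, hG3⟩ := hMA P (fun A hA => by
      by_contra hc
      obtain ⟨e⟩ : Nonempty (W1 ↪ A) := by
        rw [← Cardinal.le_def, mk_W1, ← succ_aleph0, Order.succ_le_iff]
        exact not_le.1 fun h => hc (le_aleph0_iff_set_countable.1 h)
      obtain ⟨a, b, hab, h⟩ := hccc (fun a => (e a).1.1) fun a => (e a).1.2
      refine hA (e a).2 (e b).2 (fun h => hab (e.injective (Subtype.ext h)))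
        ⟨⟨(e a).1.1 ∪ (e b).1.1, (e a).1.2.1.union (e b).1.2.1, ?_⟩,
          subset_union_left, subset_union_right⟩
      rintro v (hv | hv) w (hw | hw)
      exacts [(e a).1.2.2 v hv w hw, (h v hv w hw).1, (h w hw v hv).2, (e b).1.2.2 v hv w hw])
    (range fun i => {p | D i p.1}) (mk_range_le.trans hI) (by
      rintro _ ⟨i, rfl⟩ p
      obtain ⟨q, h1, h2, h3, h4⟩ := hD i p.1 p.2.1 p.2.2
      exact ⟨⟨q, h2, h3⟩, h4, h1⟩)
  refine ⟨⋃ p ∈ G, p.1, fun v hv w hw => ?_, fun i => ?_⟩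
  · obtain ⟨p, hp, hv⟩ := mem_iUnion₂.1 hv
    obtain ⟨q, hq, hw⟩ := mem_iUnion₂.1 hw
    obtain ⟨r, -, h1, h2⟩ := hG2 p hp q hq
    exact r.2.2 v (h1 hv) w (h2 hw)
  · obtain ⟨p, hp, hp'⟩ := hG3 _ ⟨i, rfl⟩
    exact ⟨p.1, subset_biUnion_of_mem (u := fun p : P => p.1) hp, hp'⟩

theorem level {Z : Type} [LinearOrder Z] (hZ : Aron Z) {D : Set Z} (hD : D.Countable)
    (hne : D.Nonempty) : ∃ e : Z → ℚ, Monotone e ∧ (∀ x, 0 < e x ∧ e x < 1) ∧
      ∀ x y, e x = e y ↔ ∀ d ∈ D, (d < x ↔ d < y) ∧ (d ≤ x ↔ d ≤ y) := by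
  classical
  obtain ⟨d, rfl⟩ := hD.exists_eq_range hne
  let f : Z → ℕ → Bool := fun x n => decide (if n % 2 = 0 then d (n / 2) < x else d (n / 2) ≤ x)
  let g : Z → ℝ := fun x => cantorFunction (1 / 3) (f x)
  have hg : Monotone g := fun x y hxy => cantorFunction_le (by norm_num) (by norm_num) fun n => by
    simp only [f, decide_eq_true_eq]
    split_ifs
    exacts [fun h => h.trans_le hxy, fun h => h.trans hxy]
  have hg' : ∀ x y, g x = g y ↔ ∀ a ∈ range d, (a < x ↔ a < y) ∧ (a ≤ x ↔ a ≤ y) := by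
    intro x y
    constructor
    · rintro h _ ⟨n, rfl⟩
      have h1 := cantorFunction_injective (by norm_num) (by norm_num) h
      have h2 := congrFun h1 (2 * n)
      have h3 := congrFun h1 (2 * n + 1)
      have e1 : (2 * n + 1) / 2 = n := by omega
      have e2 : (2 * n + 1) % 2 = 1 := by omega
      simp [f, e1, e2] at h2 h3
      exact ⟨h2, h3⟩
    · intro h
      have : f x = f y := funext fun n => by
        simp only [f, (h _ ⟨_, rfl⟩).1, (h _ ⟨_, rfl⟩).2]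
      simp only [g, this]
  have hc : (range g).Countable := by
    by_contra hn
    refine (hZ.2.2.2 _ hn).false (OrderEmbedding.ofStrictMono (fun r => r.2.choose) fun r s h => ?_)
    by_contra h1
    have := hg (not_lt.1 h1)
    rw [r.2.choose_spec, s.2.choose_spec] at this
    exact this.not_gt h
  haveI := hc.to_subtype
  haveI : Nontrivial (Ioo (0 : ℚ) 1) :=
    ⟨⟨⟨1 / 2, by norm_num, by norm_num⟩, ⟨1 / 3, by norm_num, by norm_num⟩, by norm_num⟩⟩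
  obtain ⟨j⟩ := Order.embedding_from_countable_to_dense (range g) (Ioo (0 : ℚ) 1)
  refine ⟨fun x => j ⟨g x, x, rfl⟩, fun x y h => ?_, fun x => (j _).2, fun x y => ?_⟩
  · exact Subtype.coe_le_coe.2 (j.monotone (hg h))
  · rw [← hg', Subtype.coe_inj, j.injective.eq_iff]
    exact Subtype.mk_eq_mk

/-- agreement below a level -/
def Ag {X : Type} (a : W1) (u v : W1 → X) : Prop := ∀ b < a, u b = v b

theorem Ag.refl {X : Type} (a : W1) (u : W1 → X) : Ag a u u := fun _ _ => rfl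
theorem Ag.symm {X : Type} {a : W1} {u v : W1 → X} (h : Ag a u v) : Ag a v u :=
  fun b hb => (h b hb).symm
theorem Ag.trans {X : Type} {a : W1} {u v w : W1 → X} (h : Ag a u v) (h' : Ag a v w) : Ag a u w :=
  fun b hb => (h b hb).trans (h' b hb)
theorem Ag.mono {X : Type} {a c : W1} {u v : W1 → X} (h : Ag a u v) (h' : c ≤ a) : Ag c u v :=
  fun b hb => h b (hb.trans_le h')

theorem no_branch {Z : Type} [LinearOrder Z] (hZ : Aron Z) (h : Z → W1) (e : Z → W1 → ℚ)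
    (he1 : ∀ b x y, x ≤ y → e x b ≤ e y b) (he3 : ∀ x y, e x (h x) = e y (h x) → x = y)
    {S : Set W1} (hS : ¬ S.Countable) (z : W1 → Z) (hz : ∀ a ∈ S, a ≤ h (z a))
    (hb : ∀ a ∈ S, ∀ b ∈ S, a ≤ b → Ag a (e (z a)) (e (z b))) : False := by
  have h1 : ∀ a, ∀ b ∈ S, ∀ c ∈ S, h (z a) < b → h (z a) < c → z a < z b → z a < z c := by
    intro a b hb' c hc hab hac hlt
    have e1 : e (z b) (h (z a)) = e (z c) (h (z a)) := by
      rcases le_total b c with h2 | h2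
      exacts [hb b hb' c hc h2 _ hab, (hb c hc b hb' h2 _ hac).symm]
    by_contra hn
    have e2 := he1 (h (z a)) _ _ hlt.le
    have e3 := he1 (h (z a)) _ _ (not_lt.1 hn)
    have e4 := he3 (z a) (z b) (by linarith)
    exact hlt.ne e4
  by_cases hc : {a | a ∈ S ∧ ∀ b ∈ S, h (z a) < b → z a < z b}.Countable
  · refine hZ.2.2.1.false (chain (L := Zᵒᵈ) (S := {a | a ∈ S ∧ ∀ b ∈ S, h (z a) < b → z b < z a})
      (fun hc' => hS ((hc.union hc').mono fun a ha => ?_)) z (fun a => h (z a))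
      fun a ha b hb hab => ha.2 b hb.1 hab).some.dual
    by_contra hn
    simp only [mem_union, mem_setOf_eq, not_or, not_and, not_forall] at hn
    obtain ⟨b, hb1, hb2, hb3⟩ := hn.1 ha
    obtain ⟨c, hc1, hc2, hc3⟩ := hn.2 ha
    refine hb3 (h1 a c hc1 b hb1 hc2 hb2 (lt_of_le_of_ne (not_lt.1 hc3) fun h4 => ?_))
    exact (hz c hc1).not_gt (h4 ▸ hc2)
  · exact hZ.2.1.false (chain hc z (fun a => h (z a)) fun a ha b hb hab => ha.2 b hb.1 hab).some

theorem special (hMA : MA1) {Z : Type} [LinearOrder Z] (hZ : Aron Z) (h : Z → W1)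
    (e : Z → W1 → ℚ) (he1 : ∀ b x y, x ≤ y → e x b ≤ e y b)
    (he2 : ∀ a b x y, a ≤ b → e x b = e y b → e x a = e y a)
    (he3 : ∀ x y, e x (h x) = e y (h x) → x = y) :
    ∃ c : W1 → Z → ℕ, (∀ a x y, a ≤ h x → a ≤ h y → Ag a (e x) (e y) → c a x = c a y) ∧
      ∀ a b x, a < b → b ≤ h x → c a x ≠ c b x := by
  classical
  let V := W1 × Z × ℕ
  let R : V → V → Prop := fun v w => v.1 ≤ h v.2.1 ∧
    (v.1 = w.1 → Ag v.1 (e v.2.1) (e w.2.1) → v.2.2 = w.2.2) ∧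
    (v.1 < w.1 → Ag v.1 (e v.2.1) (e w.2.1) → v.2.2 ≠ w.2.2)
  have tr : ∀ v v' w : V, v.1 ≤ h v.2.1 → v.1 = v'.1 → Ag v.1 (e v.2.1) (e v'.2.1) →
      v.2.2 = v'.2.2 → R v' w → R w v' → R v w ∧ R w v := by
    rintro ⟨a, x, m⟩ ⟨a', x', m'⟩ ⟨b, y, n⟩ h0 rfl h2 rfl h4 h5
    refine ⟨⟨h0, fun h6 h7 => h4.2.1 h6 (h2.symm.trans h7), fun h6 h7 =>
      h4.2.2 h6 (h2.symm.trans h7)⟩, h5.1, fun h6 h7 => h5.2.1 h6 (h7.trans (h2.mono h6.le)),
      fun h6 h7 => h5.2.2 h6 (h7.trans (h2.mono h6.le))⟩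
  obtain ⟨H, hH, hH'⟩ := clique hMA R (fun p hp => by
      obtain ⟨a0⟩ : Nonempty W1 := inferInstance
      have h1 : ∀ x, ∃ b, a0 < x → b < x ∧ ∀ v ∈ p x, v.1 < x → v.1 ≤ b := fun x => by
        by_cases hx : a0 < x
        · obtain ⟨b, hb, hb'⟩ := fin_bd (s := Prod.fst '' {v | v ∈ p x ∧ v.1 < x})
            (((hp x).1.subset fun v hv => hv.1).image _) hx (by rintro _ ⟨v, hv, rfl⟩; exact hv.2)
          exact ⟨b, fun _ => ⟨hb, fun v h1 h2 => hb' _ ⟨v, ⟨h1, h2⟩, rfl⟩⟩⟩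
        · exact ⟨a0, fun h => absurd h hx⟩
      choose b hb using h1
      obtain ⟨c, hc⟩ := press succ b a0 fun x _ hx => (hb x hx).1
      let l : W1 → List V := fun x => (hp x).1.toFinset.toList
      let T : W1 → Set (W1 × ℚ × ℕ) × ℕ := fun x =>
        ((fun v : V => (v.1, e v.2.1 v.1, v.2.2)) '' {v | v ∈ p x ∧ v.1 < x}, (l x).length)
      obtain ⟨t, ht⟩ := pigeon hc ((countable_setOf_finite_subset
        (((Iio_countable (succ c)).prod (countable_univ (α := ℚ × ℕ))))).prod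
          (countable_univ (α := ℕ))) T fun x hx => ⟨⟨((hp x).1.subset fun v hv => hv.1).image _, by
            rintro _ ⟨v, hv, rfl⟩
            exact ⟨lt_succ_of_le (((hb x hx.2.1).2 v hv.1 hv.2).trans hx.2.2), trivial⟩⟩, trivial⟩
      set S := {a | a ∈ {x | x ∈ Cp succ ∧ a0 < x ∧ b x ≤ c} ∧ T a = t}
      have low : ∀ x ∈ S, ∀ y ∈ S, ∀ v ∈ p x, v.1 < x → ∀ w ∈ p y, R v w ∧ R w v := by
        intro x hx y hy v hv hvx w hw
        have : (v.1, e v.2.1 v.1, v.2.2) ∈ (T y).1 := by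
          rw [hy.2, ← hx.2]; exact ⟨v, ⟨hv, hvx⟩, rfl⟩
        obtain ⟨v', hv', h2⟩ := this
        simp only [Prod.mk.injEq] at h2
        refine tr v v' w ((hp x).2 v hv v hv).1 h2.1.symm (fun d hd => he2 d v.1 _ _ hd.le ?_)
          h2.2.2.symm ((hp y).2 _ hv'.1 _ hw) ((hp y).2 _ hw _ hv'.1)
        rw [← h2.2.1, h2.1]
      by_contra hn
      push Not at hn
      obtain ⟨z0⟩ : Nonempty Z := by
        rw [← mk_ne_zero_iff, hZ.1]; exact (aleph0_pos.trans aleph0_lt_aleph_one).ne'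
      let en : W1 → ℕ → V := fun x i => (l x).getD i (a0, z0, 0)
      have hen : ∀ x ∈ S, ∀ v ∈ p x, ∃ i < t.2, en x i = v := by
        intro x hx v hv
        obtain ⟨i, hi, rfl⟩ := List.mem_iff_getElem.1 (show v ∈ l x by simpa [l] using hv)
        exact ⟨i, by rw [← hx.2]; exact hi, List.getD_eq_getElem _ _ hi⟩
      haveI : (atTop ⊓ 𝓟 S : Filter W1).NeBot := by
        rw [← frequently_mem_iff_neBot, frequently_atTop]
        intro a
        obtain ⟨y, hy, hy'⟩ := unb ht a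
        exact ⟨y, hy'.le, hy⟩
      let U := Ultrafilter.of (atTop ⊓ 𝓟 S : Filter W1)
      have hU := Ultrafilter.of_le (atTop ⊓ 𝓟 S : Filter W1)
      have key : ∀ x, ∃ ij : ℕ × ℕ, x ∈ S → x ≤ h (en x ij.1).2.1 ∧
          {y | Ag x (e (en x ij.1).2.1) (e (en y ij.2).2.1)} ∈ U := by
        intro x
        by_cases hx : x ∈ S
        swap
        · exact ⟨(0, 0), fun h => absurd h hx⟩
        have h2 : (⋃ ij ∈ Iio t.2 ×ˢ Iio t.2, {y | x ≤ h (en x ij.1).2.1 ∧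
            Ag x (e (en x ij.1).2.1) (e (en y ij.2).2.1)}) ∈ U := by
          refine mem_of_superset (hU (inter_mem_inf (Ioi_mem_atTop x) (mem_principal_self S))) ?_
          rintro y ⟨hxy, hy⟩
          obtain ⟨v, hv, w, hw, h3⟩ := hn x y (ne_of_lt hxy)
          obtain ⟨i, hi, rfl⟩ := hen x hx v hv
          obtain ⟨j, hj, rfl⟩ := hen y hy w hw
          have h4 : x ≤ (en x i).1 := not_lt.1 fun h => h3 (low x hx y hy _ hv h _ hw).1
            (low x hx y hy _ hv h _ hw).2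
          have h5 : y ≤ (en y j).1 := not_lt.1 fun h => h3 (low y hy x hx _ hw h _ hv).2
            (low y hy x hx _ hw h _ hv).1
          refine mem_biUnion (x := (i, j)) ⟨hi, hj⟩ ⟨h4.trans ((hp x).2 _ hv _ hv).1, ?_⟩
          by_contra h6
          have h7 : ¬ Ag (en x i).1 (e (en x i).2.1) (e (en y j).2.1) := fun h => h6 (h.mono h4)
          have h8 : ¬ Ag (en y j).1 (e (en y j).2.1) (e (en x i).2.1) :=
            fun h => h6 (h.symm.mono (hxy.le.trans h5))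
          exact h3 ⟨((hp x).2 _ hv _ hv).1, fun _ h => absurd h h7, fun _ h => absurd h h7⟩
            ⟨((hp y).2 _ hw _ hw).1, fun _ h => absurd h h8, fun _ h => absurd h h8⟩
        obtain ⟨ij, -, h3⟩ := (Ultrafilter.finite_biUnion_mem_iff
          ((finite_lt_nat _).prod (finite_lt_nat _))).1 h2
        obtain ⟨y, hy⟩ := Ultrafilter.nonempty_of_mem h3
        exact ⟨ij, fun _ => ⟨hy.1, mem_of_superset h3 fun y hy => hy.2⟩⟩
      choose ij hij using key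
      obtain ⟨k, hk⟩ := pigeon ht countable_univ ij fun _ _ => trivial
      refine no_branch hZ h e he1 he3 hk (fun x => (en x (ij x).1).2.1) (fun x hx => (hij x hx.1).1)
        fun x hx y hy hxy => ?_
      obtain ⟨w, h1, h2⟩ := Ultrafilter.nonempty_of_mem (inter_mem (hij x hx.1).2 (hij y hy.1).2)
      have h3 : (ij x).2 = (ij y).2 := by rw [hx.2, hy.2]
      refine Ag.trans h1 ?_
      rw [h3]
      exact (Ag.symm h2).mono hxy)
    (I := W1 × Z) (by simp [mk_W1, hZ.1]) (fun i q => i.1 ≤ h i.2 → ∃ m, (i.1, i.2, m) ∈ q) (by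
      rintro ⟨a, x⟩ p hp hp'
      by_cases ha : a ≤ h x
      swap
      · exact ⟨p, subset_rfl, hp, hp', fun h => absurd h ha⟩
      have : ∃ m, ∀ w ∈ p, R (a, x, m) w ∧ R w (a, x, m) := by
        by_cases h1 : ∃ v ∈ p, a = v.1 ∧ Ag a (e x) (e v.2.1)
        · obtain ⟨v, hv, h2, h3⟩ := h1
          exact ⟨v.2.2, fun w hw => tr _ v w ha h2 h3 rfl (hp' _ hv _ hw) (hp' _ hw _ hv)⟩
        · push Not at h1
          obtain ⟨m, hm⟩ := (hp.image fun v => v.2.2).bddAbove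
          have h2 : ∀ w ∈ p, w.2.2 < m + 1 := fun w hw => Nat.lt_succ_of_le (hm ⟨w, hw, rfl⟩)
          exact ⟨m + 1, fun w hw => ⟨⟨ha, fun h3 h4 => absurd h4 (h1 w hw h3),
            fun _ _ => (h2 w hw).ne'⟩, (hp' w hw w hw).1,
            fun h3 h4 => absurd (h4.symm.mono h3.ge) (h1 w hw h3.symm), fun _ _ => (h2 w hw).ne⟩⟩
      obtain ⟨m, hm⟩ := this
      refine ⟨insert (a, x, m) p, subset_insert _ _, hp.insert _, ?_, fun _ => ⟨m, mem_insert _ _⟩⟩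
      rintro v (rfl | hv) w (rfl | hw)
      exacts [⟨ha, fun _ _ => rfl, fun h => absurd h (lt_irrefl _)⟩, (hm w hw).1, (hm v hv).2,
        hp' v hv w hw])
  have h1 : ∀ a x, ∃ m, a ≤ h x → (a, x, m) ∈ H := fun a x => by
    obtain ⟨q, hq, hq'⟩ := hH' (a, x)
    by_cases ha : a ≤ h x
    · obtain ⟨m, hm⟩ := hq' ha
      exact ⟨m, fun _ => hq hm⟩
    · exact ⟨0, fun h => absurd h ha⟩
  choose c hc using h1
  exact ⟨c, fun a x y hx hy hxy => (hH _ (hc a x hx) _ (hc a y hy)).2.1 rfl hxy,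
    fun a b x hab hb => (hH _ (hc a x (hab.le.trans hb)) _ (hc b x hb)).2.2 hab (Ag.refl _ _)⟩

structure Frame (Z : Type) [LinearOrder Z] where
  h : Z → W1
  e : Z → W1 → ℚ
  c : W1 → Z → ℕ
  e0 : ∀ x b, 0 < e x b ∧ e x b < 1
  e1 : ∀ b x y, x ≤ y → e x b ≤ e y b
  e2 : ∀ a b x y, a ≤ b → e x b = e y b → e x a = e y a
  e3 : ∀ x y, e x (h x) = e y (h x) → x = y
  c0 : ∀ a x, c a x ≠ 0
  c1 : ∀ a x y, a ≤ h x → a ≤ h y → Ag a (e x) (e y) → c a x = c a y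
  c2 : ∀ a b x, a < b → b ≤ h x → c a x ≠ c b x
  hs : ∀ a, ∃ x, a ≤ h x

theorem frame (hMA : MA1) {Z : Type} [LinearOrder Z] (hZ : Aron Z) : Nonempty (Frame Z) := by
  obtain ⟨z⟩ : Nonempty (W1 ≃ Z) := by rw [← Cardinal.eq, mk_W1, hZ.1]
  choose e h1 h2 h3 using fun b : W1 => level hZ ((Iio_countable (succ b)).image z)
    ⟨z b, b, lt_succ b, rfl⟩
  have e2 : ∀ a b x y, a ≤ b → e b x = e b y → e a x = e a y := fun a b x y hab h =>
    (h3 a x y).2 fun d hd => (h3 b x y).1 h d (image_mono (Iio_subset_Iio (succ_le_succ hab)) hd)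
  have e3 : ∀ x y, e (z.symm x) x = e (z.symm x) y → x = y := fun x y h => by
    obtain ⟨h4, h5⟩ := (h3 _ x y).1 h x ⟨z.symm x, lt_succ (z.symm x), by simp⟩
    exact le_antisymm (h5.1 le_rfl) (not_lt.1 fun h => lt_irrefl _ (h4.2 h))
  obtain ⟨c, hc1, hc2⟩ := special hMA hZ z.symm (fun x b => e b x) (fun b x y h => h1 b h) e2 e3
  exact ⟨⟨z.symm, fun x b => e b x, fun a x => c a x + 1, fun x b => h2 b x, fun b x y h => h1 b h,
    e2, e3, fun _ _ => Nat.succ_ne_zero _, fun a x y h4 h5 h6 => by rw [hc1 a x y h4 h5 h6],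
    fun a b x h4 h5 h6 => hc2 a b x h4 h5 (Nat.succ_injective h6), fun a => ⟨z a, by simp⟩⟩⟩

end Pool.Agent.H57.Aro
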