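import Pool.Agent.H57.Aro1

set_option autoImplicit false

namespace Pool.Agent.H57.Aro

open Set Cardinal Order Filter Pool.Agent.H57.Lots Pool.Agent.H57.Coh

def Col (r : ℝ) (n : ℕ) : Prop := 0 < r ∧ r < 1 ∧ ∃ q : ℚ, r = q + n * √2

theorem Col.uniq {r : ℝ} {m n : ℕ} (h : Col r m) (h' : Col r n) : m = n := by
  obtain ⟨-, -, q, rfl⟩ := h
  obtain ⟨-, -, q', h⟩ := h'
  by_contra hn
  have h1 : ((m : ℝ) - n) ≠ 0 := sub_ne_zero.2 (by exact_mod_cast hn)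
  refine irrational_sqrt_two ⟨(q' - q) / (m - n), ?_⟩
  push_cast
  rw [div_eq_iff h1]
  linarith

theorem Col.dense {a b : ℝ} (ha : 0 ≤ a) (hab : a < b) (hb : b ≤ 1) (n : ℕ) :
    ∃ r, a < r ∧ r < b ∧ Col r n := by
  obtain ⟨q, h1, h2⟩ := exists_rat_btwn (show a - n * √2 < b - n * √2 by linarith)
  exact ⟨q + n * √2, by linarith, by linarith, by linarith, by linarith, q, rfl⟩

def Val (r : ℝ) : Prop := r = 0 ∨ r = 1 ∨ ∃ n, Col r n

theorem Val.count : {r | Val r}.Countable := by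
  refine (((countable_range fun p : ℚ × ℕ => (p.1 : ℝ) + p.2 * √2).insert 1).insert 0).mono ?_
  rintro r (h | h | ⟨n, -, -, q, h⟩)
  exacts [Or.inl h, Or.inr (Or.inl h), Or.inr (Or.inr ⟨(q, n), h.symm⟩)]

theorem Val.bd {r : ℝ} (h : Val r) : 0 ≤ r ∧ r ≤ 1 := by
  rcases h with rfl | rfl | ⟨n, h1, h2, -⟩
  exacts [⟨le_rfl, zero_le_one⟩, ⟨zero_le_one, le_rfl⟩, ⟨h1.le, h2.le⟩]

/-- lexicographic comparison -/
def Lt (u v : W1 → ℝ) : Prop := ∃ i, Ag i u v ∧ u i < v i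

theorem lt_iff (u v : W1 → ℝ) : toLex u < toLex v ↔ Lt u v := Iff.rfl

theorem Ag.convex {a : W1} {u v w : W1 → ℝ} (h1 : toLex u ≤ toLex v) (h2 : toLex v ≤ toLex w)
    (h : Ag a u w) : Ag a u v := by
  by_contra hn
  obtain ⟨i, hi, hi'⟩ := exists_min (S := {i | i < a ∧ u i ≠ v i}) (by
    simp only [Ag, not_forall] at hn
    obtain ⟨i, h3, h4⟩ := hn
    exact ⟨i, h3, h4⟩)
  have h3 : ∀ j < i, u j = v j := fun j hj => by
    by_contra h4
    exact (hi' j ⟨hj.trans hi.1, h4⟩).not_gt hj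
  have h4 := Pi.apply_le_of_toLex h1 h3
  have h5 := Pi.apply_le_of_toLex h2 fun j hj => (h3 j hj).symm.trans (h j (hj.trans hi.1))
  exact hi.2 (le_antisymm h4 (h5.trans (h i hi.1).ge))

namespace Frame

variable {Z : Type} [LinearOrder Z] (F : Frame Z)

theorem col0 (z : Z) (b : W1) : Col (F.e z b) 0 :=
  ⟨by exact_mod_cast (F.e0 z b).1, by exact_mod_cast (F.e0 z b).2, F.e z b, by simp⟩

def Term (u : W1 → ℝ) (d : W1) : Prop :=
  (∃ g, d = succ g ∧ (u g = 0 ∨ u g = 1 ∨ Col (u g) 1)) ∨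
    ∃ g z, succ g < d ∧ d ≤ F.h z ∧ Col (u g) (F.c d z + 2) ∧ ∀ b, g < b → b < d → u b = F.e z b

def Node (u : W1 → ℝ) (d : W1) : Prop :=
  (∀ b < d, Val (u b)) ∧ {b | b < d ∧ ¬ Col (u b) 0}.Finite ∧
    ∀ b ≤ d, ∃ z, b ≤ F.h z ∧ ∀ g < b, (∀ g', g ≤ g' → g' < b → Col (u g') 0) → u g = F.e z g

def Stop (u : W1 → ℝ) (d : W1) : Prop :=
  F.Term u d ∧ (∀ d' < d, ¬ F.Term u d') ∧ F.Node u d ∧ ∀ b, d ≤ b → u b = 0

variable {F}

theorem Term.congr {u v : W1 → ℝ} {d : W1} (h : F.Term u d) (huv : Ag d u v) : F.Term v d := by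
  rcases h with ⟨g, rfl, h⟩ | ⟨g, z, h1, h2, h3, h4⟩
  · exact Or.inl ⟨g, rfl, huv g (lt_succ g) ▸ h⟩
  · exact Or.inr ⟨g, z, h1, h2, huv g ((lt_succ g).trans h1) ▸ h3,
      fun b h5 h6 => huv b h6 ▸ h4 b h5 h6⟩

theorem Node.mono {u v : W1 → ℝ} {d d' : W1} (h : F.Node u d) (hd : d' ≤ d) (huv : Ag d' u v) :
    F.Node v d' := by
  refine ⟨fun b hb => huv b hb ▸ h.1 b (hb.trans_le hd),
    h.2.1.subset fun b hb => ⟨hb.1.trans_le hd, huv b hb.1 ▸ hb.2⟩, fun b hb => ?_⟩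
  obtain ⟨z, h1, h2⟩ := h.2.2 b (hb.trans hd)
  exact ⟨z, h1, fun g hg h3 => huv g (hg.trans_le hb) ▸
    h2 g hg fun g' h4 h5 => huv g' (h5.trans_le hb) ▸ h3 g' h4 h5⟩

theorem Stop.eq {u v : W1 → ℝ} {d d' : W1} (h : F.Stop u d) (h' : F.Stop v d') (huv : Ag d u v) :
    u = v := by
  have h1 : d' ≤ d := not_lt.1 fun h2 => h'.2.1 d h2 (h.1.congr huv)
  have h2 : d ≤ d' := not_lt.1 fun h2 => h.2.1 d' h2 (h'.1.congr (huv.symm.mono h1))
  funext b
  rcases lt_or_ge b d with hb | hb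
  exacts [huv b hb, (h.2.2.2 b hb).trans (h'.2.2.2 b (h1.trans hb)).symm]

theorem Stop.bd {u : W1 → ℝ} {d : W1} (h : F.Stop u d) (b : W1) : 0 ≤ u b ∧ u b ≤ 1 := by
  rcases lt_or_ge b d with hb | hb
  · exact (h.2.2.1.1 b hb).bd
  · rw [h.2.2.2 b hb]; exact ⟨le_rfl, zero_le_one⟩

variable (F)

theorem count (d : W1) : {u | F.Node u d ∧ ∀ b, d ≤ b → u b = 0}.Countable := by
  classical
  have h0 : ∀ u b, ∃ z, F.Node u d → b ≤ d →
      ∀ g < b, (∀ g', g ≤ g' → g' < b → Col (u g') 0) → u g = F.e z g := fun u b => by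
    by_cases h : F.Node u d ∧ b ≤ d
    · obtain ⟨z, -, hz⟩ := h.1.2.2 b h.2
      exact ⟨z, fun _ _ => hz⟩
    · exact ⟨(F.hs b).choose, fun h1 h2 => absurd ⟨h1, h2⟩ h⟩
  choose z hz using h0
  let K : (W1 → ℝ) → Set W1 := fun u => insert d {b | b < d ∧ ¬ Col (u b) 0}
  let T : (W1 → ℝ) → Set (W1 × ℝ × ℚ) := fun u => (fun b => (b, u b, F.e (z u b) b)) '' K u
  refine Set.MapsTo.countable_of_injOn (f := T) (fun u hu => ?_) (fun u hu v hv h => ?_)
    (countable_setOf_finite_subset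
      ((Iio_countable (succ d)).prod (Val.count.prod (countable_univ (α := ℚ)))))
  · refine ⟨(hu.1.2.1.insert d).image _, ?_⟩
    rintro _ ⟨b, rfl | hb, rfl⟩
    · exact ⟨lt_succ b, Or.inl (hu.2 b le_rfl), trivial⟩
    · exact ⟨hb.1.trans (lt_succ d), hu.1.1 b hb.1, trivial⟩
  · have h1 : ∀ u v, T u = T v → ∀ b ∈ K u, b ∈ K v ∧ u b = v b ∧
        F.e (z u b) b = F.e (z v b) b := by
      intro u v h b hb
      obtain ⟨b', h1, h2⟩ : (b, u b, F.e (z u b) b) ∈ T v := h ▸ ⟨b, hb, rfl⟩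
      simp only [Prod.mk.injEq] at h2
      obtain ⟨rfl, h3, h4⟩ := h2
      exact ⟨h1, h3.symm, h4.symm⟩
    funext g
    rcases lt_or_ge g d with hg | hg
    swap
    · rw [hu.2 g hg, hv.2 g hg]
    obtain ⟨b, hb, hb'⟩ := exists_min (S := {b | b ∈ K u ∧ g ≤ b}) ⟨d, mem_insert _ _, hg.le⟩
    rcases hb.2.eq_or_lt with rfl | hgb
    · exact (h1 u v h _ hb.1).2.1
    have hbd : b ≤ d := hb' d ⟨mem_insert _ _, hg.le⟩
    have h2 : ∀ g', g ≤ g' → g' < b → g' ∉ K u := fun g' h3 h4 h5 => (hb' g' ⟨h5, h3⟩).not_gt h4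
    rw [hz u b hu.1 hbd g hgb fun g' h3 h4 => not_not.1 fun h5 =>
        h2 g' h3 h4 (Or.inr ⟨h4.trans_le hbd, h5⟩),
      hz v b hv.1 hbd g hgb fun g' h3 h4 => not_not.1 fun h5 =>
        h2 g' h3 h4 (h1 v u h.symm _ (Or.inr ⟨h4.trans_le hbd, h5⟩)).1,
      F.e2 g b _ _ hb.2 (h1 u v h _ hb.1).2.2]

theorem no_path (u : W1 → ℝ) (hu : ∀ d, F.Node u d) : False := by
  have h1 : ∃ a, ∀ b, ¬ Col (u b) 0 → b < a := by
    by_contra h
    push Not at h
    have h2 : {b | ¬ Col (u b) 0}.Infinite := fun hf => by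
      obtain ⟨a, ha⟩ := bdd hf.countable
      obtain ⟨b, h3, h4⟩ := h a
      exact h4.not_gt (ha h3)
    obtain ⟨a, ha⟩ := bdd (countable_range fun n => (h2.natEmbedding _ n : W1))
    refine (infinite_range_of_injective
      (Subtype.val_injective.comp (h2.natEmbedding _).injective)) ((hu a).2.1.subset ?_)
    rintro _ ⟨n, rfl⟩
    exact ⟨ha ⟨n, rfl⟩, (h2.natEmbedding _ n).2⟩
  obtain ⟨a, ha⟩ := h1
  choose z hz1 hz2 using fun b => (hu b).2.2 b le_rfl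
  have hz3 : ∀ b g, a ≤ g → g < b → u g = F.e (z b) g := fun b g h1 h2 =>
    hz2 b g h2 fun g' h3 _ => not_not.1 fun h4 => (ha g' h4).not_ge (h1.trans h3)
  have h2 : ¬ (Ioi a).Countable := fun hc => by
    obtain ⟨b, hb⟩ := bdd hc
    obtain ⟨c, hc⟩ := exists_gt (max a b)
    exact (hb ((le_max_left _ _).trans_lt hc)).not_ge ((le_max_right _ _).trans hc.le)
  obtain ⟨k, hk⟩ := pigeon h2 countable_univ (fun b => F.c b (z b)) fun _ _ => trivial
  obtain ⟨b, hb, -⟩ := unb hk a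
  obtain ⟨b', hb', hbb⟩ := unb hk b
  refine F.c2 b b' (z b') hbb (hz1 b') ?_
  rw [hb'.2, ← hb.2]
  refine F.c1 b _ _ (hbb.le.trans (hz1 b')) (hz1 b) fun g hg => F.e2 g (max g a) _ _
    (le_max_left _ _) ?_
  have h3 : max g a < b := max_lt hg hb.1
  have h4 := hz3 b _ (le_max_right g a) h3
  rw [hz3 b' _ (le_max_right g a) (h3.trans hbb)] at h4
  exact_mod_cast h4

/-- the universal line -/
abbrev U : Type := {u : Lex (W1 → ℝ) // ∃ d, F.Stop (ofLex u) d}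

theorem trunc (d : W1) : ∃ (Y : Set (W1 → ℝ)) (t : F.U → W1 → ℝ), Y.Countable ∧
    ∀ u, t u ∈ Y ∧ ∀ v, t u = t v → Ag d (ofLex u.1) (ofLex v.1) := by
  classical
  refine ⟨⋃ d' ∈ Iio (succ d), {u | F.Node u d' ∧ ∀ b, d' ≤ b → u b = 0},
    fun u b => if b < d then ofLex u.1 b else 0,
    (Iio_countable _).biUnion fun d' _ => F.count d', fun u => ⟨?_, fun v h b hb => ?_⟩⟩
  · obtain ⟨d', hd⟩ := u.2
    refine mem_iUnion₂.2 ⟨min d d', lt_succ_of_le (min_le_left d d'),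
      hd.2.2.1.mono (min_le_right _ _) fun b hb => ?_, fun b hb => ?_⟩
    · exact (if_pos (hb.trans_le (min_le_left _ _))).symm
    · beta_reduce
      split_ifs with h
      · exact hd.2.2.2 b ((min_le_iff.1 hb).resolve_left h.not_ge)
      · rfl
  · have := congrFun h b
    simpa only [if_pos hb] using this

theorem no_seq (f : W1 → F.U) (hf : Function.Injective f)
    (hc : ∀ d x y z, x ≤ y → y ≤ z → Ag d (ofLex (f x).1) (ofLex (f z).1) →
      Ag d (ofLex (f x).1) (ofLex (f y).1)) : False := by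
  have h1 : ∀ d, ∃ x, ∀ y, x ≤ y → Ag d (ofLex (f x).1) (ofLex (f y).1) := fun d => by
    obtain ⟨Y, t, hY, ht⟩ := F.trunc d
    obtain ⟨k, hk⟩ := pigeon (S := univ) (fun hc => by
      obtain ⟨b, hb⟩ := bdd hc
      exact lt_irrefl b (hb trivial)) hY (fun x => t (f x)) fun x _ => (ht _).1
    obtain ⟨x, hx, -⟩ := unb hk d
    refine ⟨x, fun y hy => ?_⟩
    obtain ⟨z, hz, hyz⟩ := unb hk y
    exact hc d x y z hy hyz.le ((ht _).2 _ (hx.2.trans hz.2.symm))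
  choose x hx using h1
  refine F.no_path (fun b => ofLex (f (x (succ b))).1 b) fun d => ?_
  obtain ⟨d', hd⟩ := (f (x d)).2
  obtain ⟨d'', hd'⟩ := (f (succ (x d))).2
  refine hd.2.2.1.mono (not_lt.1 fun h => ?_) fun b hb => ?_
  · exact (lt_succ _).ne (hf (Subtype.ext (hd.eq hd' ((hx d _ (le_succ _)).mono h.le))))
  · exact (hx d _ (le_max_left _ (x (succ b))) b hb).trans
      (hx _ _ (le_max_right _ _) b (lt_succ b)).symm

theorem aron (hU : ℵ₁ ≤ #F.U) : Aron F.U := by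
  refine ⟨le_antisymm ?_ hU, ⟨fun f => F.no_seq f f.injective fun d x y z h1 h2 h =>
    Ag.convex (f.monotone h1) (f.monotone h2) h⟩,
    ⟨fun f => F.no_seq (fun x => f (OrderDual.toDual x)) f.injective fun d x y z h1 h2 h =>
      h.trans (Ag.convex (f.monotone h2) (f.monotone h1) h.symm)⟩, fun X hX => ⟨fun f => ?_⟩⟩
  · refine (mk_le_of_injective (f := fun u : F.U =>
      (⟨ofLex u.1, by
        obtain ⟨d, hd⟩ := u.2
        exact mem_iUnion.2 ⟨d, hd.2.2⟩⟩ : ⋃ d, {u | F.Node u d ∧ ∀ b, d ≤ b → u b = 0}))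
      fun u v h => Subtype.ext (Subtype.mk.inj h)).trans
        ((mk_iUnion_le _).trans ?_)
    rw [mk_W1]
    refine (mul_le_mul_right (ciSup_le' fun d => (le_aleph0_iff_set_countable.2
      (F.count d)).trans aleph0_lt_aleph_one.le) _).trans ?_
    simp
  · obtain ⟨D, hD, hD'⟩ := TopologicalSpace.exists_countable_dense X
    choose s hs using fun x : X => (f x).2
    obtain ⟨d, hd⟩ := bdd (hD.image s)
    obtain ⟨Y, t, hY, ht⟩ := F.trunc d
    have : ∃ k, {x | t (f x) = k}.Infinite := by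
      by_contra h
      push Not at h
      refine hX (countable_coe_iff.1 (countable_univ_iff.1
        ((hY.biUnion fun k _ => (h k).countable).mono fun x _ => ?_)))
      exact mem_iUnion₂.2 ⟨_, (ht _).1, rfl⟩
    obtain ⟨k, hk⟩ := this
    obtain ⟨T, hT, hT'⟩ := hk.exists_subset_card_eq 3
    let o := T.orderEmbOfFin hT'
    have ho : ∀ i, t (f (o i)) = k := fun i => hT (T.orderEmbOfFin_mem hT' i)
    obtain ⟨y, hy, hy'⟩ := hD'.exists_mem_open (isOpen_Ioo (a := o 0) (b := o 2))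
      ⟨o 1, o.strictMono (by decide), o.strictMono (by decide)⟩
    have h1 := Ag.convex (f.monotone hy'.1.le) (f.monotone hy'.2.le)
      ((ht _).2 _ ((ho 0).trans (ho 2).symm))
    exact hy'.1.ne' (f.injective (Subtype.ext
      ((hs y).eq (hs _) (h1.symm.mono (le_of_lt (hd ⟨y, hy, rfl⟩))))))

end Frame

end Pool.Agent.H57.Aro
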