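import Pool.Agent.H57.Aro2

set_option autoImplicit false

namespace Pool.Agent.H57.Aro

open Set Cardinal Order Filter Pool.Agent.H57.Lots Pool.Agent.H57.Coh

namespace Frame

variable {Z : Type} [LinearOrder Z] {F : Frame Z}

theorem Node.ext {w u : W1 → ℝ} {g d : W1} {z : Z} (hw : F.Node w g) (h1 : Ag g w u)
    (h2 : Val (u g)) (h3 : ¬ Col (u g) 0) (h4 : d ≤ F.h z)
    (h5 : ∀ b, g < b → b < d → u b = F.e z b) : F.Node u d := by
  have hu := hw.mono le_rfl h1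
  refine ⟨fun b hb => ?_, (hu.2.1.insert g).subset fun b hb => ?_, fun b hb => ?_⟩
  · rcases lt_trichotomy b g with h | rfl | h
    exacts [hu.1 b h, h2, h5 b h hb ▸ Or.inr (Or.inr ⟨0, F.col0 z b⟩)]
  · rcases lt_trichotomy b g with h | rfl | h
    exacts [Or.inr ⟨h, hb.2⟩, Or.inl rfl, absurd (h5 b h hb.1 ▸ F.col0 z b) hb.2]
  · rcases le_or_gt b g with h | h
    · exact hu.2.2 b h
    · exact ⟨z, hb.trans h4, fun a ha h6 =>
        h5 a (not_le.1 fun h7 => h3 (h6 g h7 h)) (ha.trans_le hb)⟩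

theorem no_term {w u : W1 → ℝ} {g d : W1} {z : Z} {k : ℕ} (hw : ∀ d' ≤ g, ¬ F.Term w d')
    (h1 : Ag g w u) (h2 : Col (u g) (k + 2)) (h4 : d ≤ F.h z)
    (h5 : ∀ b, g < b → b < d → u b = F.e z b) {d' : W1} (hd : d' ≤ d) (h : F.Term u d') :
    k = F.c d' z := by
  have hg : g < d' := not_le.1 fun h6 => hw d' h6 (h.congr (h1.symm.mono h6))
  have h0 : ∀ b, g < b → b < d' → Col (u b) 0 := fun b h6 h7 =>
    h5 b h6 (h7.trans_le hd) ▸ F.col0 z b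
  rcases h with ⟨a, rfl, h⟩ | ⟨a, y, h6, h7, h8, h9⟩
  · have : ∃ n, n ≠ 1 ∧ Col (u a) n := by
      rcases (le_of_lt_succ hg).eq_or_lt with rfl | h6
      exacts [⟨_, by omega, h2⟩, ⟨0, by omega, h0 a h6 (lt_succ a)⟩]
    obtain ⟨n, hn, hn'⟩ := this
    rcases h with h | h | h
    exacts [absurd h hn'.1.ne', absurd h hn'.2.1.ne, absurd (hn'.uniq h) hn]
  · rcases lt_trichotomy a g with h | rfl | h
    · have := h2.uniq (h9 g h hg ▸ F.col0 y g)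
      omega
    · have := h2.uniq h8
      rw [F.c1 d' z y (hd.trans h4) h7 fun b hb => F.e2 b (max b (succ a)) _ _ (le_max_left _ _) ?_]
      · omega
      have e1 : a < max b (succ a) := (lt_succ a).trans_le (le_max_right _ _)
      have e2 : max b (succ a) < d' := max_lt hb h6
      have := h9 _ e1 e2
      rw [h5 _ e1 (e2.trans_le hd)] at this
      exact_mod_cast this
    · have := h8.uniq (h0 a h ((lt_succ a).trans h6))
      omega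

end Frame

structure Ctx {Z : Type} [LinearOrder Z] (F : Frame Z) (A : Type) [LinearOrder A] where
  g : A ↪o Z
  f : W1 → W1
  f1 : ∀ b, succ b ≤ f b
  cof : ∀ b x (K : Set A), K = {y | Ag b (F.e (g y)) (F.e (g x))} ∨
    K = {y | ∀ v, Ag b (F.e (g v)) (F.e (g x)) → y < v} ∨
    K = {y | ∀ v, Ag b (F.e (g v)) (F.e (g x)) → v < y} →
      ∀ w ∈ K, (∃ y ∈ K, y ≤ w ∧ F.h (g y) < f b) ∧ ∃ y ∈ K, w ≤ y ∧ F.h (g y) < f b
  nt : Nontrivial A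

theorem ctx {Z : Type} [LinearOrder Z] (F : Frame Z) {A : Type} [LinearOrder A] (hA : Aron A)
    (g : A ↪o Z) : Nonempty (Ctx F A) := by
  obtain ⟨z⟩ : Nonempty (W1 ≃ A) := by rw [← Cardinal.eq, mk_W1, hA.1]
  choose C hC1 hC2 hC3 using cofinal z hA.2.1
  choose D hD1 hD2 hD3 using cofinal (L := Aᵒᵈ) z ⟨fun j => hA.2.2.1.false j.dual⟩
  let N : W1 → ℚ → Set A := fun b q => {y | ∃ x, F.e (g x) b = q ∧ Ag b (F.e (g y)) (F.e (g x))}
  let M : W1 → ℚ × Fin 3 → Set A := fun b i =>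
    ![N b i.1, {y | ∀ v ∈ N b i.1, y < v}, {y | ∀ v ∈ N b i.1, v < y}] i.2
  choose f hf using fun b => bdd (((countable_iUnion fun i => (hC2 (M b i)).union
    (hD2 (M b i))).image fun y => F.h (g y)).insert (succ b))
  refine ⟨⟨g, f, fun b => le_of_lt (hf b (mem_insert _ _)), fun b x K hK => ?_, ?_⟩⟩
  · have h1 : N b (F.e (g x) b) = {y | Ag b (F.e (g y)) (F.e (g x))} :=
      Set.ext fun y => ⟨fun ⟨x', h1, h2⟩ => h2.trans fun a ha => F.e2 a b _ _ ha.le h1,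
        fun h => ⟨x, rfl, h⟩⟩
    have h2 : ∃ i, K = M b i := by
      rcases hK with rfl | rfl | rfl
      · exact ⟨(_, 0), h1.symm⟩
      · exact ⟨(F.e (g x) b, 1), by simp only [M, h1]; rfl⟩
      · exact ⟨(F.e (g x) b, 2), by simp only [M, h1]; rfl⟩
    obtain ⟨i, rfl⟩ := h2
    intro w hw
    obtain ⟨y, hy, hy'⟩ := hC3 _ w hw
    obtain ⟨y', hz, hz'⟩ := hD3 _ w hw
    exact ⟨⟨y', hD1 _ hz, hz', hf b (Or.inr ⟨y', mem_iUnion.2 ⟨i, Or.inr hz⟩, rfl⟩)⟩,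
      y, hC1 _ hy, hy', hf b (Or.inr ⟨y, mem_iUnion.2 ⟨i, Or.inl hy⟩, rfl⟩)⟩
  · rw [← Cardinal.one_lt_iff_nontrivial, hA.1]
    exact one_lt_aleph0.trans aleph0_lt_aleph_one

namespace Ctx

variable {Z : Type} [LinearOrder Z] {F : Frame Z} {A : Type} [LinearOrder A] (X : Ctx F A)

def E : Set W1 := Cp X.f
def Sim (a : W1) (x y : A) : Prop := Ag a (F.e (X.g x)) (F.e (X.g y))
def Sing (x : A) (a : W1) : Prop := ∀ y, X.Sim a y x → y = x
def Mn (x : A) (a : W1) : Prop := ∀ y, X.Sim a y x → x ≤ y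
def Mx (x : A) (a : W1) : Prop := ∀ y, X.Sim a y x → y ≤ x

theorem nxt_ex (g : W1) : ∃ a, (a ∈ X.E ∧ g < a) ∧ ∀ b, b ∈ X.E ∧ g < b → a ≤ b :=
  exists_min (S := {a | a ∈ X.E ∧ g < a}) (cp_unb X.f g)

noncomputable def nxt (g : W1) : W1 := (X.nxt_ex g).choose

theorem nxt_mem (g : W1) : X.nxt g ∈ X.E := (X.nxt_ex g).choose_spec.1.1
theorem lt_nxt (g : W1) : g < X.nxt g := (X.nxt_ex g).choose_spec.1.2

variable {X}

theorem nxt_le {g a : W1} (ha : a ∈ X.E) (h : g < a) : X.nxt g ≤ a :=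
  (X.nxt_ex g).choose_spec.2 a ⟨ha, h⟩

theorem le_of_lt_nxt {g a : W1} (ha : a ∈ X.E) (h : a < X.nxt g) : a ≤ g :=
  not_lt.1 fun h1 => (nxt_le ha h1).not_gt h

theorem succ_lt {g a : W1} (ha : a ∈ X.E) (h : g < a) : succ g < a := (X.f1 g).trans_lt (ha g h)

theorem prv (g : W1) : ∃ a ∈ X.E, a ≤ g ∧ g < X.nxt a := by
  obtain ⟨a, ha, ha'⟩ := exists_min (S := upperBounds {a | a ∈ X.E ∧ a ≤ g}) ⟨g, fun _ h => h.2⟩
  refine ⟨a, fun b hb => ?_, ha' g fun _ h => h.2, not_le.1 fun h =>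
    (ha ⟨X.nxt_mem a, h⟩).not_gt (X.lt_nxt a)⟩
  by_contra hn
  exact (ha' b fun c hc => not_lt.1 fun h => hn ((hc.1 b h).trans_le (ha hc))).not_gt hb

theorem lim_mem {a : W1} (ha : a ∈ Cp X.nxt) : a ∈ X.E :=
  fun b hb => (X.nxt_mem b b (X.lt_nxt b)).trans (ha b hb)

theorem Sim.convex {a : W1} {x y z : A} (h1 : x ≤ y) (h2 : y ≤ z) (h : X.Sim a x z) :
    X.Sim a x y := fun b hb => le_antisymm (F.e1 b _ _ (X.g.monotone h1))
      ((F.e1 b _ _ (X.g.monotone h2)).trans (h b hb).ge)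

theorem Sing.mono {x : A} {a b : W1} (h : X.Sing x a) (hab : a ≤ b) : X.Sing x b :=
  fun y hy => h y (Ag.mono hy hab)

theorem sing_of {x : A} {a : W1} (h : F.h (X.g x) < a) : X.Sing x a :=
  fun y hy => X.g.injective (F.e3 _ _ (hy _ h).symm).symm

theorem Mn.sing {x : A} {a : W1} (h : X.Mn x a) : X.Sing x (X.nxt a) := fun y hy => by
  have h1 : X.Sim a y x := Ag.mono hy (X.lt_nxt a).le
  obtain ⟨z, h2, h3, h4⟩ := (X.cof a x _ (Or.inl rfl) x (Ag.refl _ _)).1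
  obtain rfl := le_antisymm h3 (h z h2)
  exact sing_of (h4.trans (X.nxt_mem a a (X.lt_nxt a))) y hy

theorem Mx.sing {x : A} {a : W1} (h : X.Mx x a) : X.Sing x (X.nxt a) := fun y hy => by
  have h1 : X.Sim a y x := Ag.mono hy (X.lt_nxt a).le
  obtain ⟨z, h2, h3, h4⟩ := (X.cof a x _ (Or.inl rfl) x (Ag.refl _ _)).2
  obtain rfl := le_antisymm h3 (h z h2)
  exact sing_of (h4.trans (X.nxt_mem a a (X.lt_nxt a))) y hy

theorem gapL {a : W1} (ha : a ∈ X.E) {b x : A} (hb : b < x) (h : ¬ X.Sim a b x)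
    (hx : ∀ b < x, ∃ y, b < y ∧ y < x) : ∃ y, b < y ∧ y < x ∧ ¬ X.Sim a b y := by
  by_contra hn
  push Not at hn
  simp only [Sim, Ag, not_forall] at h
  obtain ⟨c, hc, h⟩ := h
  have h1 : ∀ y, b ≤ y → y < x → ∀ v, X.Sim (succ c) v x → y < v := fun y h1 h2 v hv =>
    not_le.1 fun h3 => by
      have h4 : X.Sim (succ c) y x := Ag.trans (Ag.symm (Sim.convex h3 h2.le hv)) hv
      rcases h1.eq_or_lt with rfl | h1
      · exact h (h4 c (lt_succ c))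
      · exact h ((hn y h1 h2 c hc).trans (h4 c (lt_succ c)))
  obtain ⟨y, h2, h3⟩ := hx b hb
  obtain ⟨z, h4, h5, h6⟩ := (X.cof (succ c) x _ (Or.inr (Or.inl rfl)) y (h1 y h2.le h3)).2
  exact (h2.trans_le h5).ne (sing_of (h6.trans (ha _ (succ_lt ha hc))) b
    (hn z (h2.trans_le h5) (h4 x (Ag.refl _ _))))

theorem gapR {a : W1} (ha : a ∈ X.E) {b x : A} (hb : x < b) (h : ¬ X.Sim a b x)
    (hx : ∀ b, x < b → ∃ y, x < y ∧ y < b) : ∃ y, y < b ∧ x < y ∧ ¬ X.Sim a b y := by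
  by_contra hn
  push Not at hn
  simp only [Sim, Ag, not_forall] at h
  obtain ⟨c, hc, h⟩ := h
  have h1 : ∀ y, y ≤ b → x < y → ∀ v, X.Sim (succ c) v x → v < y := fun y h1 h2 v hv =>
    not_le.1 fun h3 => by
      have h4 : X.Sim (succ c) y x := Ag.symm (Sim.convex h2.le h3 (Ag.symm hv))
      rcases h1.eq_or_lt with rfl | h1
      · exact h (h4 c (lt_succ c))
      · exact h ((hn y h1 h2 c hc).trans (h4 c (lt_succ c)))
  obtain ⟨y, h3, h2⟩ := hx b hb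
  obtain ⟨z, h4, h5, h6⟩ := (X.cof (succ c) x _ (Or.inr (Or.inr rfl)) y (h1 y h2.le h3)).1
  exact (h5.trans_lt h2).ne' (sing_of (h6.trans (ha _ (succ_lt ha hc))) b
    (hn z (h5.trans_lt h2) (h4 x (Ag.refl _ _))))

theorem depth (y : A) : ∃ d ∈ X.E, (∀ g < d, X.Sing y (X.nxt g) → False) ∧
    (∀ a ∈ X.E, a < d → ¬ X.Sing y a) ∧ ∀ a ∈ X.E, d < a → X.Sing y a := by
  obtain ⟨s, hs, hs'⟩ := exists_min (S := {a | a ∈ X.E ∧ X.Sing y a})
    ⟨_, X.nxt_mem _, sing_of (X.lt_nxt _)⟩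
  have h0 : ∀ a ∈ X.E, a < s → ¬ X.Sing y a := fun a ha h h1 => (hs' a ⟨ha, h1⟩).not_gt h
  by_cases h : ∀ g < s, X.nxt g < s
  · exact ⟨s, hs.1, fun g hg => h0 _ (X.nxt_mem g) (h g hg), h0, fun a _ h => hs.2.mono h.le⟩
  · push Not at h
    obtain ⟨g, hg, hg'⟩ := h
    obtain ⟨d, h1, h2, h3⟩ := prv (X := X) g
    refine ⟨d, h1, fun c hc => h0 _ (X.nxt_mem c) ((nxt_le h1 hc).trans_lt (h2.trans_lt hg)),
      fun a ha h => h0 a ha (h.trans (h2.trans_lt hg)), fun a ha h => hs.2.mono ?_⟩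
    exact hg'.trans ((nxt_le (X.nxt_mem d) h3).trans (nxt_le ha h))

variable (X)

def Pt (x : A) (u : W1 → ℝ) : Prop :=
  ∃ d, F.Stop u d ∧ (∃ B : Set W1, B.Finite ∧
      ∀ b < d, u b ≠ F.e (X.g x) b → ∃ a ∈ B, a ≤ b ∧ b < X.nxt a) ∧
    (∀ a ∈ X.E, d ≤ a ↔ X.Sing x a) ∧ (∀ g < d, u g = 0 ↔ g ∈ X.E ∧ X.Mn x g) ∧
      ∀ g < d, u g = 1 ↔ g ∈ X.E ∧ X.Mx x g

structure Base (y : A) (a g : W1) (w : W1 → ℝ) : Prop where
  mem : a ∈ X.E
  le : a ≤ g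
  lt : g < X.nxt a
  ns : ¬ X.Sing y a
  node : F.Node w g
  nt : ∀ d ≤ g, ¬ F.Term w d
  fin : ∃ B : Set W1, B.Finite ∧ ∀ b < a, w b ≠ F.e (X.g y) b → ∃ c ∈ B, c ≤ b ∧ b < X.nxt c
  mn : X.Mn y a → g = a
  mx : X.Mx y a → g = a

variable {X}

theorem Base.fin' {y : A} {a g d : W1} {w u : W1 → ℝ} (h : X.Base y a g w) (h1 : Ag g w u)
    (h5 : ∀ b, g < b → b < d → u b = F.e (X.g y) b) : ∃ B : Set W1, B.Finite ∧
      ∀ b < d, u b ≠ F.e (X.g y) b → ∃ c ∈ B, c ≤ b ∧ b < X.nxt c := by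
  obtain ⟨B, hB, hB'⟩ := h.fin
  refine ⟨insert a B, hB.insert a, fun b hb hn => ?_⟩
  rcases lt_or_ge b a with h2 | h2
  · obtain ⟨c, h3, h4⟩ := hB' b h2 (h1 b (h2.trans_le h.le) ▸ hn)
    exact ⟨c, Or.inr h3, h4⟩
  · exact ⟨a, Or.inl rfl, h2, (not_lt.1 fun h3 => hn (h5 b h3 hb)).trans_lt h.lt⟩

theorem Base.gelA {y : A} {a g : W1} {w : W1 → ℝ} (h : X.Base y a g w)
    (hs : X.Sing y (X.nxt a)) {r1 r2 : ℝ} (h1 : 0 ≤ r1) (h2 : r1 < r2) (h3 : r2 ≤ 1) :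
    ∃ u, X.Pt y u ∧ Ag g w u ∧ (¬ X.Mn y a → r1 < u g) ∧ (¬ X.Mx y a → u g < r2) := by
  classical
  have : ∃ r : ℝ, (r = 0 ∨ r = 1 ∨ Col r 1) ∧ (r = 0 ↔ X.Mn y a) ∧ (r = 1 ↔ X.Mx y a) ∧
      (¬ X.Mn y a → r1 < r) ∧ (¬ X.Mx y a → r < r2) := by
    have h4 : X.Mn y a → ¬ X.Mx y a := fun h4 h5 => h.ns fun z hz => le_antisymm (h5 z hz) (h4 z hz)
    by_cases h5 : X.Mn y a
    · exact ⟨0, Or.inl rfl, by simp [h5], by simp [h4 h5], by simp [h5], fun _ => by linarith⟩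
    by_cases h6 : X.Mx y a
    · exact ⟨1, Or.inr (Or.inl rfl), by simp [h5], by simp [h6], fun _ => by linarith, by simp [h6]⟩
    obtain ⟨r, h7, h8, h9⟩ := Col.dense h1 h2 h3 1
    exact ⟨r, Or.inr (Or.inr h9), by simp [h5, h9.1.ne'], by simp [h6, h9.2.1.ne], fun _ => h7,
      fun _ => h8⟩
  obtain ⟨r, e1, e2, e3, e4, e5⟩ := this
  let u : W1 → ℝ := fun b => if b < g then w b else if b = g then r else 0
  have hu : Ag g w u := fun b hb => (if_pos hb).symm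
  have hg : u g = r := by simp [u]
  have hnt : ∀ d < succ g, ¬ F.Term u d := fun d hd ht =>
    h.nt d (le_of_lt_succ hd) (ht.congr (hu.symm.mono (le_of_lt_succ hd)))
  have hend : ∀ (t : ℝ) (P : W1 → Prop), (t = 0 ∨ t = 1) → (r = t ↔ P a) → (P a → g = a) →
      (∀ b, P b → X.Sing y (X.nxt b)) → ∀ b < succ g, u b = t ↔ b ∈ X.E ∧ P b := by
    intro t P ht hr hP hP' b hb
    rcases (le_of_lt_succ hb).eq_or_lt with rfl | hb'
    · rw [hg, hr]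
      exact ⟨fun h4 => hP h4 ▸ ⟨h.mem, h4⟩, fun h4 =>
        le_antisymm (le_of_lt_nxt h4.1 h.lt) h.le ▸ h4.2⟩
    · refine iff_of_false (fun h4 => hnt (succ b) (succ_lt_succ hb') (Or.inl ⟨b, rfl, ?_⟩))
        fun h4 => ?_
      · rcases ht with rfl | rfl
        exacts [Or.inl h4, Or.inr (Or.inl h4)]
      · rcases (le_of_lt_nxt h4.1 (hb'.trans h.lt)).eq_or_lt with rfl | h5
        · exact hb'.ne' (hP h4.2)
        · exact h.ns ((hP' b h4.2).mono (nxt_le h.mem h5))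
  obtain ⟨z, hz⟩ := F.hs (succ g)
  refine ⟨u, ⟨succ g, ⟨Or.inl ⟨g, rfl, hg ▸ e1⟩, hnt, h.node.ext hu ?_ ?_ hz
    (fun b h4 h5 => absurd (le_of_lt_succ h5) h4.not_ge), fun b hb => ?_⟩,
    h.fin' hu (fun b h4 h5 => absurd (le_of_lt_succ h5) h4.not_ge), fun c hc => ?_,
    hend 0 _ (Or.inl rfl) e2 h.mn fun _ => Mn.sing, hend 1 _ (Or.inr rfl) e3 h.mx fun _ => Mx.sing⟩,
    hu, hg ▸ e4, hg ▸ e5⟩
  · rw [hg]
    rcases e1 with e | e | e
    exacts [Or.inl e, Or.inr (Or.inl e), Or.inr (Or.inr ⟨1, e⟩)]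
  · rw [hg]
    intro h4
    rcases e1 with e | e | e
    exacts [h4.1.ne' e, h4.2.1.ne e, zero_ne_one (h4.uniq e)]
  · have h4 : g < b := succ_le_iff.1 hb
    simp [u, h4.not_gt, h4.ne']
  · rw [succ_le_iff]
    exact ⟨fun h4 => hs.mono (nxt_le hc (h.le.trans_lt h4)), fun h4 => not_le.1 fun h5 =>
      h.ns (h4.mono (le_of_lt_nxt hc (h5.trans_lt h.lt)))⟩

theorem Base.gel {y : A} {a g : W1} {w : W1 → ℝ} (h : X.Base y a g w)
    {r1 r2 : ℝ} (h1 : 0 ≤ r1) (h2 : r1 < r2) (h3 : r2 ≤ 1) :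
    ∃ u, X.Pt y u ∧ Ag g w u ∧ (¬ X.Mn y a → r1 < u g) ∧ (¬ X.Mx y a → u g < r2) := by
  classical
  by_cases hs : X.Sing y (X.nxt a)
  · exact h.gelA hs h1 h2 h3
  obtain ⟨d, d1, d2, d3, d4⟩ := depth (X := X) y
  have hgd : g < d := h.lt.trans_le (not_lt.1 fun h4 => hs (d4 _ (X.nxt_mem a) h4))
  have hd : d ≤ F.h (X.g y) := not_lt.1 fun h4 => d2 _ h4 (sing_of (X.lt_nxt _))
  obtain ⟨r, e1, e2, e3⟩ := Col.dense h1 h2 h3 ((if X.Sing y d then F.c d (X.g y) else 0) + 2)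
  let u : W1 → ℝ := fun b =>
    if b < g then w b else if b = g then r else if b < d then F.e (X.g y) b else 0
  have hu : Ag g w u := fun b hb => (if_pos hb).symm
  have hg : u g = r := by simp [u]
  have ht : ∀ b, g < b → b < d → u b = F.e (X.g y) b := fun b h4 h5 => by
    simp [u, h4.not_gt, h4.ne', h5]
  have hN : F.Node u d := h.node.ext hu (hg ▸ Or.inr (Or.inr ⟨_, e3⟩))
    (hg ▸ fun h4 => by have := h4.uniq e3; omega) hd ht
  have hT := fun d' => Frame.no_term (d' := d') h.nt hu (hg ▸ e3) hd ht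
  by_cases hy : X.Sing y d
  · rw [if_pos hy] at hT e3
    have hnt : ∀ d' < d, ¬ F.Term u d' := fun d' h4 h5 =>
      F.c2 d' d _ h4 hd (hT d' h4.le h5).symm
    refine ⟨u, ⟨d, ⟨Or.inr ⟨g, X.g y, succ_lt d1 hgd, hd, hg ▸ e3, ht⟩, hnt, hN, fun b hb => ?_⟩,
      h.fin' hu ht, fun c hc => ⟨fun h4 => hy.mono h4, fun h4 => not_lt.1 fun h5 => d3 c hc h5 h4⟩,
      fun b hb => iff_of_false (fun h4 => hnt _ (succ_lt d1 hb) (Or.inl ⟨b, rfl, Or.inl h4⟩))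
        fun h4 => d2 b hb h4.2.sing,
      fun b hb => iff_of_false
        (fun h4 => hnt _ (succ_lt d1 hb) (Or.inl ⟨b, rfl, Or.inr (Or.inl h4)⟩))
        fun h4 => d2 b hb h4.2.sing⟩, hu, fun _ => hg ▸ e1, fun _ => hg ▸ e2⟩
    have h4 := hgd.trans_le hb
    simp [u, h4.not_gt, h4.ne', hb.not_gt]
  · rw [if_neg hy] at hT
    obtain ⟨v, h4, h5, -⟩ := Base.gelA (X := X) (y := y) (a := d) (g := d) (w := u)
      ⟨d1, le_rfl, X.lt_nxt d, hy, hN, fun d' h4 h5 => F.c0 _ _ (hT d' h4 h5).symm, h.fin' hu ht,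
        fun _ => rfl, fun _ => rfl⟩ (d4 _ (X.nxt_mem d) (X.lt_nxt d)) le_rfl zero_lt_one le_rfl
    have h6 : v g = r := (h5 g hgd).symm.trans hg
    exact ⟨v, h4, hu.trans (h5.mono hgd.le), fun _ => h6 ▸ e1, fun _ => h6 ▸ e2⟩

end Ctx

end Pool.Agent.H57.Aro
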