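import Pool.Agent.H57.Aro3

set_option autoImplicit false

namespace Pool.Agent.H57.Aro

open Set Cardinal Order Filter Pool.Agent.H57.Lots Pool.Agent.H57.Coh

def Lo (g : W1) (r : ℝ) (v w : W1 → ℝ) : Prop :=
  (∃ i < g, Ag i v w ∧ v i < w i) ∨ (Ag g v w ∧ v g ≤ r)

def Up (g : W1) (r : ℝ) (v w : W1 → ℝ) : Prop :=
  (∃ i < g, Ag i v w ∧ w i < v i) ∨ (Ag g v w ∧ r ≤ v g)

theorem Lo.of_le {g : W1} {r : ℝ} {v t w : W1 → ℝ} (h : toLex v ≤ toLex t) (h' : Lo g r t w) :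
    Lo g r v w := by
  rcases h.eq_or_lt with h | ⟨j, h1, h2⟩
  · rwa [toLex.injective h]
  have h1 : Ag j v t := h1
  have h2 : v j < t j := h2
  rcases h' with ⟨i, h3, h4, h5⟩ | ⟨h3, h4⟩
  · rcases lt_or_ge j i with h6 | h6
    · exact Or.inl ⟨j, h6.trans h3, h1.trans (h4.mono h6.le), h4 j h6 ▸ h2⟩
    · exact Or.inl ⟨i, h3, (h1.mono h6).trans h4,
        (Pi.apply_le_of_toLex h (h1.mono h6)).trans_lt h5⟩
  · rcases lt_or_ge j g with h6 | h6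
    · exact Or.inl ⟨j, h6, h1.trans (h3.mono h6.le), h3 j h6 ▸ h2⟩
    · exact Or.inr ⟨(h1.mono h6).trans h3, (Pi.apply_le_of_toLex h (h1.mono h6)).trans h4⟩

theorem Up.of_le {g : W1} {r : ℝ} {v t w : W1 → ℝ} (h : toLex t ≤ toLex v) (h' : Up g r t w) :
    Up g r v w := by
  rcases h.eq_or_lt with h | ⟨j, h1, h2⟩
  · rwa [← toLex.injective h]
  have h1 : Ag j t v := h1
  have h2 : t j < v j := h2
  rcases h' with ⟨i, h3, h4, h5⟩ | ⟨h3, h4⟩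
  · rcases lt_or_ge j i with h6 | h6
    · exact Or.inl ⟨j, h6.trans h3, h1.symm.trans (h4.mono h6.le), h4 j h6 ▸ h2⟩
    · exact Or.inl ⟨i, h3, (h1.symm.mono h6).trans h4,
        h5.trans_le (Pi.apply_le_of_toLex h (h1.mono h6))⟩
  · rcases lt_or_ge j g with h6 | h6
    · exact Or.inl ⟨j, h6, h1.symm.trans (h3.mono h6.le), h3 j h6 ▸ h2⟩
    · exact Or.inr ⟨(h1.symm.mono h6).trans h3, h4.trans (Pi.apply_le_of_toLex h (h1.mono h6))⟩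

namespace Ctx

variable {Z : Type} [LinearOrder Z] {F : Frame Z} {A : Type} [LinearOrder A] (X : Ctx F A)

def R (v w : A × (W1 → ℝ)) : Prop :=
  X.Pt v.1 v.2 ∧ (v.1 < w.1 → Lt v.2 w.2) ∧ ∀ a ∈ X.E, X.Sim a v.1 w.1 ↔ Ag a v.2 w.2

variable {X}

theorem R.le {v w : A × (W1 → ℝ)} (h : X.R v w) (h' : v.1 ≤ w.1) : toLex v.2 ≤ toLex w.2 := by
  rcases h'.eq_or_lt with h1 | h1
  · refine le_of_eq (congrArg toLex (funext fun b => ?_))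
    exact (h.2.2 _ (X.nxt_mem b)).1 (h1 ▸ Ag.refl _ _) b (X.lt_nxt b)
  · exact le_of_lt ((lt_iff _ _).2 (h.2.1 h1))

theorem R.refl {y : A} {u : W1 → ℝ} (h : X.Pt y u) : X.R (y, u) (y, u) :=
  ⟨h, fun h => absurd h (lt_irrefl _), fun _ _ => iff_of_true (Ag.refl _ _) (Ag.refl _ _)⟩

theorem ins {p : Set (A × (W1 → ℝ))} (hp : Cl X.R p) {y : A} {a g : W1} {w : W1 → ℝ}
    (h : X.Base y a g w) {r1 r2 : ℝ} (h1 : 0 ≤ r1) (h2 : r1 < r2) (h3 : r2 ≤ 1)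
    (hT : ∀ v ∈ p, ∀ c ∈ X.E, c ≤ a → (X.Sim c v.1 y ↔ Ag c v.2 w))
    (hN : ∀ v ∈ p, ¬ X.Sim (X.nxt a) v.1 y) (hlo : ∀ v ∈ p, v.1 < y → Lo g r1 v.2 w)
    (hup : ∀ v ∈ p, y < v.1 → Up g r2 v.2 w) :
    ∃ u, Cl X.R (insert (y, u) p) ∧ Ag g w u ∧ (¬ X.Mn y a → r1 < u g) ∧
      (¬ X.Mx y a → u g < r2) := by
  obtain ⟨u, e1, e2, e3, e4⟩ := h.gel h1 h2 h3
  refine ⟨u, ?_, e2, e3, e4⟩
  have k1 : ∀ v ∈ p, v.1 < y → ∃ i ≤ g, Ag i v.2 u ∧ v.2 i < u i := fun v hv hy => by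
    rcases hlo v hv hy with ⟨i, h4, h5, h6⟩ | ⟨h4, h5⟩
    · exact ⟨i, h4.le, h5.trans (e2.mono h4.le), e2 i h4 ▸ h6⟩
    · exact ⟨g, le_rfl, h4.trans e2, h5.trans_lt (e3 fun h6 =>
        (h6 _ ((hT v hv a h.mem le_rfl).2 (h4.mono h.le))).not_gt hy)⟩
  have k2 : ∀ v ∈ p, y < v.1 → ∃ i ≤ g, Ag i u v.2 ∧ u i < v.2 i := fun v hv hy => by
    rcases hup v hv hy with ⟨i, h4, h5, h6⟩ | ⟨h4, h5⟩
    · exact ⟨i, h4.le, (h5.trans (e2.mono h4.le)).symm, e2 i h4 ▸ h6⟩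
    · exact ⟨g, le_rfl, (h4.trans e2).symm, (e4 fun h6 =>
        (h6 _ ((hT v hv a h.mem le_rfl).2 (h4.mono h.le))).not_gt hy).trans_le h5⟩
  have k3 : ∀ v ∈ p, ∀ c ∈ X.E, X.Sim c v.1 y ↔ Ag c v.2 u := fun v hv c hc => by
    rcases le_or_gt c a with h4 | h4
    · rw [hT v hv c hc h4]
      have := e2.mono (h4.trans h.le)
      exact ⟨fun h5 => h5.trans this, fun h5 => h5.trans this.symm⟩
    · have h5 := nxt_le hc h4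
      refine iff_of_false (fun h6 => hN v hv (Ag.mono h6 h5)) fun h6 => ?_
      rcases lt_trichotomy v.1 y with h7 | h7 | h7
      · obtain ⟨i, h8, -, h9⟩ := k1 v hv h7
        exact h9.ne (h6 i (h8.trans_lt (h.lt.trans_le h5)))
      · exact hN v hv (h7 ▸ Ag.refl _ _)
      · obtain ⟨i, h8, -, h9⟩ := k2 v hv h7
        exact h9.ne' (h6 i (h8.trans_lt (h.lt.trans_le h5)))
  rintro v (rfl | hv) t (rfl | ht)
  · exact R.refl e1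
  · exact ⟨e1, fun h4 => (k2 t ht h4).imp fun _ h => h.2, fun c hc =>
      ⟨fun h4 => ((k3 t ht c hc).1 (Ag.symm h4)).symm, fun h4 => Ag.symm ((k3 t ht c hc).2 h4.symm)⟩⟩
  · exact ⟨(hp v hv v hv).1, fun h4 => (k1 v hv h4).imp fun _ h => h.2, k3 v hv⟩
  · exact hp v hv t ht

theorem Pt.base {x y : A} {w : W1 → ℝ} (h : X.Pt x w) {a g : W1} (ha : a ∈ X.E) (h1 : a ≤ g)
    (h2 : g < X.nxt a) (h3 : X.Sim a x y) (hne : x ≠ y) (h4 : ∀ d, F.Stop w d → g < d)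
    (h5 : X.Mn y a → g = a) (h6 : X.Mx y a → g = a) : X.Base y a g w := by
  obtain ⟨d, e1, ⟨B, hB, hB'⟩, -⟩ := h
  have := h4 d e1
  exact ⟨ha, h1, h2, fun h7 => hne (h7 x h3), e1.2.2.1.mono this.le (Ag.refl _ _),
    fun d' h7 => e1.2.1 d' (h7.trans_lt this),
    ⟨B, hB, fun b hb hn => hB' b (hb.trans (h1.trans_lt this)) ((h3 b hb).symm ▸ hn)⟩, h5, h6⟩

theorem Pt.lt_stop {x y : A} {w : W1 → ℝ} (h : X.Pt x w) {a : W1} (ha : a ∈ X.E)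
    (h3 : X.Sim a x y) (hne : x ≠ y) : (∀ d, F.Stop w d → a < d) ∧ (w a = 0 ↔ X.Mn x a) ∧
      (w a = 1 ↔ X.Mx x a) ∧ 0 ≤ w a ∧ w a ≤ 1 := by
  obtain ⟨d, e1, -, e2, e3, e4⟩ := h
  have h1 : a < d := not_le.1 fun h => hne ((e2 a ha).1 h y (Ag.symm h3)).symm
  exact ⟨fun d' hd => h1.trans_le (not_lt.1 fun h => e1.2.1 d' h hd.1), by simp [e3 a h1, ha],
    by simp [e4 a h1, ha], e1.bd a⟩

theorem Pt.bd {x : A} {w : W1 → ℝ} (h : X.Pt x w) (a : W1) : 0 ≤ w a ∧ w a ≤ 1 :=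
  h.choose_spec.1.bd a

theorem stop_gt {u v : W1 → ℝ} {g d' : W1} (hv : F.Stop v d') (h : Ag g u v) (hne : u g ≠ v g)
    (d : W1) (hu : F.Stop u d) : g < d :=
  not_le.1 fun h1 => hne (congrFun (hu.eq hv (h.mono h1)) g)

theorem sim_iff {p : Set (A × (W1 → ℝ))} (hp : Cl X.R p) {t : A × (W1 → ℝ)} (ht : t ∈ p) {y : A}
    {a : W1} (h : X.Sim a t.1 y) : ∀ v ∈ p, ∀ c ∈ X.E, c ≤ a → (X.Sim c v.1 y ↔ Ag c v.2 t.2) :=
  fun v hv c hc h1 => by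
    rw [← (hp v hv t ht).2.2 c hc]
    exact ⟨fun h2 => Ag.trans h2 (Ag.symm (Ag.mono h h1)), fun h2 => Ag.trans h2 (Ag.mono h h1)⟩

theorem add {p : Set (A × (W1 → ℝ))} (hf : p.Finite) (hp : Cl X.R p) (y : A) :
    ∃ q, p ⊆ q ∧ q.Finite ∧ Cl X.R q ∧ ∃ u, (y, u) ∈ q := by
  by_cases hy : ∃ u, (y, u) ∈ p
  · exact ⟨p, subset_rfl, hf, hp, hy⟩
  have hne : ∀ v ∈ p, v.1 ≠ y := fun v hv h => hy ⟨v.2, h ▸ hv⟩
  suffices ∃ u, Cl X.R (insert (y, u) p) by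
    obtain ⟨u, hu⟩ := this
    exact ⟨_, subset_insert _ _, hf.insert _, hu, u, mem_insert _ _⟩
  rcases p.eq_empty_or_nonempty with rfl | hp0
  · obtain ⟨a, -, ha⟩ := exists_min (S := univ) univ_nonempty
    have h0 : ∀ b, ¬ b < a := fun b h => (ha b trivial).not_gt h
    haveI := X.nt
    obtain ⟨u, hu, -⟩ := ins (w := fun _ => 0) (y := y) (a := a) (g := a) hp
      ⟨fun b hb => absurd hb (h0 b), le_rfl, X.lt_nxt a, fun h => by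
        obtain ⟨z, hz⟩ := exists_ne y
        exact hz (h z fun b hb => absurd hb (h0 b)),
        ⟨fun b hb => absurd hb (h0 b), finite_empty.subset fun b hb => h0 b hb.1, fun b hb => by
          obtain ⟨z, hz⟩ := F.hs b
          exact ⟨z, hz, fun g hg => absurd (hg.trans_le hb) (h0 g)⟩⟩,
        fun d hd h => by
          rcases h with ⟨g, rfl, -⟩ | ⟨g, z, h, -⟩
          exacts [h0 g ((lt_succ g).trans_le hd), h0 _ (h.trans_le hd)],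
        ⟨∅, finite_empty, fun b hb => absurd hb (h0 b)⟩, fun _ => rfl, fun _ => rfl⟩
      le_rfl zero_lt_one le_rfl (by simp) (by simp) (by simp) (by simp)
    exact ⟨u, hu⟩
  have h1 : ∀ v : A × (W1 → ℝ), ∃ s, v ∈ p → X.Sim s v.1 y ∧
      F.e (X.g v.1) s ≠ F.e (X.g y) s := fun v => by
    by_cases hv : v ∈ p
    · obtain ⟨s, hs, hs'⟩ := exists_min (S := {s | F.e (X.g v.1) s ≠ F.e (X.g y) s})
        ⟨_, fun h => hne v hv (X.g.injective (F.e3 _ _ h))⟩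
      exact ⟨s, fun _ => ⟨fun b hb => not_not.1 fun h => (hs' b h).not_gt hb, hs⟩⟩
    · exact ⟨F.h (X.g y), fun h => absurd h hv⟩
  choose s hs using h1
  obtain ⟨t, ht, ht'⟩ := exists_max_image p s hf hp0
  obtain ⟨a, ha, ha1, ha2⟩ := prv (X := X) (s t)
  have hta : X.Sim a t.1 y := Ag.mono (hs t ht).1 ha1
  have hN : ∀ v ∈ p, ¬ X.Sim (X.nxt a) v.1 y := fun v hv h =>
    (hs v hv).2 (h _ ((ht' v hv).trans_lt ha2))
  have hmax : ∀ v ∈ p, v.1 < y → X.Sim a v.1 y → ∃ l ∈ p, l.1 < y ∧ X.Sim a l.1 y ∧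
      ∀ v ∈ p, v.1 < y → toLex v.2 ≤ toLex l.2 := fun v hv h1 h2 => by
    obtain ⟨l, hl, hl'⟩ := exists_max_image {v | v ∈ p ∧ v.1 < y} Prod.fst
      (hf.subset fun _ h => h.1) ⟨v, hv, h1⟩
    exact ⟨l, hl.1, hl.2, Ag.trans (Ag.symm (Sim.convex (hl' v ⟨hv, h1⟩) hl.2.le h2)) h2,
      fun v hv h => (hp v hv l hl.1).le (hl' v ⟨hv, h⟩)⟩
  have hmin : ∀ v ∈ p, y < v.1 → X.Sim a v.1 y → ∃ l ∈ p, y < l.1 ∧ X.Sim a l.1 y ∧
      ∀ v ∈ p, y < v.1 → toLex l.2 ≤ toLex v.2 := fun v hv h1 h2 => by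
    obtain ⟨l, hl, hl'⟩ := exists_min_image {v | v ∈ p ∧ y < v.1} Prod.fst
      (hf.subset fun _ h => h.1) ⟨v, hv, h1⟩
    exact ⟨l, hl.1, hl.2, Ag.symm (Sim.convex hl.2.le (hl' v ⟨hv, h1⟩) (Ag.symm h2)),
      fun v hv h => (hp l hl.1 v hv).le (hl' v ⟨hv, h⟩)⟩
  by_cases c1 : ∃ v ∈ p, v.1 < y ∧ X.Sim a v.1 y
  · obtain ⟨v, hv, h1, h2⟩ := c1
    obtain ⟨l, hl, l1, l2, l3⟩ := hmax v hv h1 h2
    have hl' := (hp l hl l hl).1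
    by_cases c2 : ∃ v ∈ p, y < v.1 ∧ X.Sim a v.1 y
    · obtain ⟨v, hv, h1, h2⟩ := c2
      obtain ⟨m, hm, m1, m2, m3⟩ := hmin v hv h1 h2
      obtain ⟨g, g1, g2⟩ := (hp l hl m hm).2.1 (l1.trans m1)
      have h3 : a ≤ g := not_lt.1 fun h =>
        g2.ne (((hp l hl m hm).2.2 a ha).1 (Ag.trans l2 (Ag.symm m2)) g h)
      have h4 : g < X.nxt a := not_le.1 fun h => hN l hl (Sim.convex l1.le m1.le
        (((hp l hl m hm).2.2 _ (X.nxt_mem a)).2 (g1.mono h)))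
      obtain ⟨u, hu, -⟩ := ins hp (hl'.base ha h3 h4 l2 l1.ne
        (stop_gt (hp m hm m hm).1.choose_spec.1 g1 g2.ne) (fun h => absurd (h _ l2) l1.not_ge)
        (fun h => absurd (h _ m2) m1.not_ge)) (hl'.bd g).1 g2 ((hp m hm m hm).1.bd g).2
        (sim_iff hp hl l2) hN (fun v hv h => Lo.of_le (l3 v hv h) (Or.inr ⟨Ag.refl _ _, le_rfl⟩))
        fun v hv h => Up.of_le (m3 v hv h) (Or.inr ⟨g1.symm, le_rfl⟩)
      exact ⟨u, hu⟩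
    · obtain ⟨e1, -, e3, e4, e5⟩ := hl'.lt_stop ha l2 l1.ne
      obtain ⟨u, hu, -⟩ := ins hp (hl'.base ha le_rfl (X.lt_nxt a) l2 l1.ne e1 (fun _ => rfl)
        fun _ => rfl) e4 (lt_of_le_of_ne e5 fun h => (e3.1 h _ (Ag.symm l2)).not_gt l1) le_rfl
        (sim_iff hp hl l2) hN (fun v hv h => Lo.of_le (l3 v hv h) (Or.inr ⟨Ag.refl _ _, le_rfl⟩))
        fun v hv h => by
          obtain ⟨i, i1, i2⟩ := (hp l hl v hv).2.1 (l1.trans h)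
          exact Or.inl ⟨i, not_le.1 fun h3 => c2 ⟨v, hv, h,
            (sim_iff hp hl l2 v hv a ha le_rfl).2 (i1.symm.mono h3)⟩, i1.symm, i2⟩
      exact ⟨u, hu⟩
  · obtain ⟨m, hm, m1, m2, m3⟩ := hmin t ht
      (lt_of_le_of_ne (not_lt.1 fun h => c1 ⟨t, ht, h, hta⟩) (hne t ht).symm) hta
    have hm' := (hp m hm m hm).1
    obtain ⟨e1, e2, -, e4, e5⟩ := hm'.lt_stop ha m2 m1.ne'
    obtain ⟨u, hu, -⟩ := ins hp (hm'.base ha le_rfl (X.lt_nxt a) m2 m1.ne' e1 (fun _ => rfl)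
      fun _ => rfl) le_rfl (lt_of_le_of_ne e4 fun h => (e2.1 h.symm _ (Ag.symm m2)).not_gt m1) e5
      (sim_iff hp hm m2) hN (fun v hv h => by
        obtain ⟨i, i1, i2⟩ := (hp v hv m hm).2.1 (h.trans m1)
        exact Or.inl ⟨i, not_le.1 fun h3 => c1 ⟨v, hv, h,
          (sim_iff hp hm m2 v hv a ha le_rfl).2 (i1.mono h3)⟩, i1, i2⟩)
      fun v hv h => Up.of_le (m3 v hv h) (Or.inr ⟨Ag.refl _ _, le_rfl⟩)
    exact ⟨u, hu⟩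

theorem contL {p : Set (A × (W1 → ℝ))} (hf : p.Finite) (hp : Cl X.R p) {x : A} {w u : W1 → ℝ}
    (hx : (x, w) ∈ p) {du : W1} (hu : F.Stop u du) (h : Lt u w)
    (hl : ∀ b < x, ∃ y, b < y ∧ y < x) :
    ∃ q, p ⊆ q ∧ q.Finite ∧ Cl X.R q ∧ ∃ v ∈ q, v.1 < x ∧ toLex u ≤ toLex v.2 := by
  obtain ⟨g, g1, g2⟩ := h
  obtain ⟨a, ha, ha1, ha2⟩ := prv (X := X) g
  by_cases c1 : ∃ y < x, X.Sim (X.nxt a) y x
  · obtain ⟨y, h1, h2⟩ := c1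
    obtain ⟨q, q1, q2, q3, v, hv⟩ := add hf hp y
    have := ((q3 _ hv _ (q1 hx)).2.2 _ (X.nxt_mem a)).1 h2
    exact ⟨q, q1, q2, q3, _, hv, h1, le_of_lt ((lt_iff _ _).2
      ⟨g, g1.trans (this.symm.mono ha2.le), g2.trans_eq (this g ha2).symm⟩)⟩
  have hw := (hp _ hx _ hx).1
  have hst := stop_gt hu g1.symm g2.ne'
  have h0 : ∃ y < x, X.Sim a y x := by
    by_contra hn
    push Not at hn
    obtain ⟨d, e1, -, -, e3, -⟩ := hw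
    have h1 := (e3 a (ha1.trans_lt (hst d e1))).2 ⟨ha, fun y hy => not_lt.1 fun h => hn y h hy⟩
    rcases ha1.eq_or_lt with rfl | h2
    · exact (hu.bd a).1.not_gt (g2.trans_eq h1)
    · exact e1.2.1 _ ((succ_le_of_lt h2).trans_lt (hst d e1)) (Or.inl ⟨a, rfl, Or.inl h1⟩)
  obtain ⟨y0, h1, h2⟩ := h0
  obtain ⟨q, q1, q2, q3, v0, hv⟩ := add hf hp y0
  obtain ⟨l, hl1, hl2⟩ := exists_max_image {v | v ∈ q ∧ v.1 < x} Prod.fst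
    (q2.subset fun _ h => h.1) ⟨_, hv, h1⟩
  have l2 : X.Sim a l.1 x := Ag.trans (Ag.symm (Sim.convex (hl2 _ ⟨hv, h1⟩) hl1.2.le h2)) h2
  obtain ⟨i, i1, i2⟩ := (q3 l hl1.1 _ (q1 hx)).2.1 hl1.2
  rcases lt_or_ge g i with h3 | h3
  · exact ⟨q, q1, q2, q3, l, hl1.1, hl1.2, le_of_lt ((lt_iff _ _).2
      ⟨g, g1.trans (i1.symm.mono h3.le), g2.trans_eq (i1 g h3).symm⟩)⟩
  obtain ⟨y, y1, y2, y3⟩ := gapL (X.nxt_mem a) hl1.2 (fun h => c1 ⟨_, hl1.2, h⟩) hl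
  have y4 : X.Sim a x y := Ag.trans (Ag.symm l2) (Sim.convex y1.le y2.le l2)
  have hn : ¬ X.Mn y a := fun h => (h _ (Ag.trans l2 y4)).not_gt y1
  have : ∃ r, u g ≤ r ∧ r < w g ∧ Lo g r l.2 w := by
    rcases h3.eq_or_lt with rfl | h3
    · exact ⟨max (u i) (l.2 i), le_max_left _ _, max_lt g2 i2, Or.inr ⟨i1, le_max_right _ _⟩⟩
    · exact ⟨u g, le_rfl, g2, Or.inl ⟨i, h3, i1, i2⟩⟩
  obtain ⟨r, r1, r2, r3⟩ := this
  have hc : ∀ v ∈ q, v.1 ≤ l.1 ∨ x ≤ v.1 := fun v hv =>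
    (lt_or_ge v.1 x).imp_left fun h => hl2 v ⟨hv, h⟩
  obtain ⟨t, t1, t2, t3, -⟩ := ins q3 (hw.base ha ha1 ha2 y4 y2.ne' hst (fun h => absurd h hn)
    (fun h => absurd (h _ y4) y2.not_ge)) ((hu.bd g).1.trans r1) r2 (hw.bd g).2
    (sim_iff q3 (q1 hx) y4) (fun v hv h => by
      rcases hc v hv with h4 | h4
      · exact y3 (Ag.trans (Ag.symm (Sim.convex h4 y1.le h)) h)
      · exact c1 ⟨y, y2, Sim.convex y2.le h4 (Ag.symm h)⟩)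
    (fun v hv h => Lo.of_le ((q3 v hv l hl1.1).le (hl2 v ⟨hv, h.trans y2⟩)) r3)
    fun v hv h => Up.of_le ((q3 _ (q1 hx) v hv).le ((hc v hv).resolve_left (y1.trans h).not_ge))
      (Or.inr ⟨Ag.refl _ _, le_rfl⟩)
  exact ⟨_, q1.trans (subset_insert _ _), q2.insert _, t1, _, mem_insert _ _, y2,
    le_of_lt ((lt_iff _ _).2 ⟨g, g1.trans t2, r1.trans_lt (t3 hn)⟩)⟩

theorem contR {p : Set (A × (W1 → ℝ))} (hf : p.Finite) (hp : Cl X.R p) {x : A} {w u : W1 → ℝ}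
    (hx : (x, w) ∈ p) {du : W1} (hu : F.Stop u du) (h : Lt w u)
    (hl : ∀ b, x < b → ∃ y, x < y ∧ y < b) :
    ∃ q, p ⊆ q ∧ q.Finite ∧ Cl X.R q ∧ ∃ v ∈ q, x < v.1 ∧ toLex v.2 ≤ toLex u := by
  obtain ⟨g, g1, g2⟩ := h
  obtain ⟨a, ha, ha1, ha2⟩ := prv (X := X) g
  by_cases c1 : ∃ y, x < y ∧ X.Sim (X.nxt a) y x
  · obtain ⟨y, h1, h2⟩ := c1
    obtain ⟨q, q1, q2, q3, v, hv⟩ := add hf hp y
    have := ((q3 _ hv _ (q1 hx)).2.2 _ (X.nxt_mem a)).1 h2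
    exact ⟨q, q1, q2, q3, _, hv, h1, le_of_lt ((lt_iff _ _).2
      ⟨g, (this.mono ha2.le).trans g1, (this g ha2).trans_lt g2⟩)⟩
  have hw := (hp _ hx _ hx).1
  have hst := stop_gt hu g1 g2.ne
  have h0 : ∃ y, x < y ∧ X.Sim a y x := by
    by_contra hn
    push Not at hn
    obtain ⟨d, e1, -, -, -, e3⟩ := hw
    have h1 := (e3 a (ha1.trans_lt (hst d e1))).2 ⟨ha, fun y hy => not_lt.1 fun h => hn y h hy⟩
    rcases ha1.eq_or_lt with rfl | h2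
    · exact (hu.bd a).2.not_gt (h1.symm.trans_lt g2)
    · exact e1.2.1 _ ((succ_le_of_lt h2).trans_lt (hst d e1))
        (Or.inl ⟨a, rfl, Or.inr (Or.inl h1)⟩)
  obtain ⟨y0, h1, h2⟩ := h0
  obtain ⟨q, q1, q2, q3, v0, hv⟩ := add hf hp y0
  obtain ⟨l, hl1, hl2⟩ := exists_min_image {v | v ∈ q ∧ x < v.1} Prod.fst
    (q2.subset fun _ h => h.1) ⟨_, hv, h1⟩
  have l2 : X.Sim a l.1 x := Ag.symm (Sim.convex hl1.2.le (hl2 _ ⟨hv, h1⟩) (Ag.symm h2))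
  obtain ⟨i, i1, i2⟩ := (q3 _ (q1 hx) l hl1.1).2.1 hl1.2
  rcases lt_or_ge g i with h3 | h3
  · exact ⟨q, q1, q2, q3, l, hl1.1, hl1.2, le_of_lt ((lt_iff _ _).2
      ⟨g, (i1.symm.mono h3.le).trans g1, (i1 g h3).symm.trans_lt g2⟩)⟩
  obtain ⟨y, y1, y2, y3⟩ := gapR (X.nxt_mem a) hl1.2 (fun h => c1 ⟨_, hl1.2, h⟩) hl
  have y4 : X.Sim a x y := Sim.convex y2.le y1.le (Ag.symm l2)
  have hn : ¬ X.Mx y a := fun h => (h _ (Ag.trans l2 y4)).not_gt y1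
  have : ∃ r, r ≤ u g ∧ w g < r ∧ Up g r l.2 w := by
    rcases h3.eq_or_lt with rfl | h3
    · exact ⟨min (u i) (l.2 i), min_le_left _ _, lt_min g2 i2, Or.inr ⟨i1.symm, min_le_right _ _⟩⟩
    · exact ⟨u g, le_rfl, g2, Or.inl ⟨i, h3, i1.symm, i2⟩⟩
  obtain ⟨r, r1, r2, r3⟩ := this
  have hc : ∀ v ∈ q, l.1 ≤ v.1 ∨ v.1 ≤ x := fun v hv =>
    (lt_or_ge x v.1).imp_left fun h => hl2 v ⟨hv, h⟩
  obtain ⟨t, t1, t2, -, t3⟩ := ins q3 (hw.base ha ha1 ha2 y4 y2.ne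
    hst (fun h => absurd (h _ y4) y2.not_ge) (fun h => absurd h hn))
    (hw.bd g).1 r2 (r1.trans (hu.bd g).2)
    (sim_iff q3 (q1 hx) y4) (fun v hv h => by
      rcases hc v hv with h4 | h4
      · exact y3 (Ag.symm (Sim.convex y1.le h4 (Ag.symm h)))
      · exact c1 ⟨y, y2, Ag.trans (Ag.symm h) (Sim.convex h4 y2.le h)⟩)
    (fun v hv h => Lo.of_le ((q3 v hv _ (q1 hx)).le ((hc v hv).resolve_left (h.trans y1).not_ge))
      (Or.inr ⟨Ag.refl _ _, le_rfl⟩))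
    fun v hv h => Up.of_le ((q3 l hl1.1 v hv).le (hl2 v ⟨hv, y2.trans h⟩)) r3
  exact ⟨_, q1.trans (subset_insert _ _), q2.insert _, t1, _, mem_insert _ _, y2,
    le_of_lt ((lt_iff _ _).2 ⟨g, t2.symm.trans g1, (t3 hn).trans_le r1⟩)⟩

end Ctx

end Pool.Agent.H57.Aro
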