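import Pool.Agent.H57.Aro4

set_option autoImplicit false

namespace Pool.Agent.H57.Aro

open Set Cardinal Order Filter Pool.Agent.H57.Lots Pool.Agent.H57.Coh

namespace Ctx

variable {Z : Type} [LinearOrder Z] {F : Frame Z} {A : Type} [LinearOrder A] {X : Ctx F A}

/-- nothing happens to `v` between the levels `b` and `x` -/
def Quiet (X : Ctx F A) (v : A × (W1 → ℝ)) (b x : W1) : Prop :=
  X.Sing v.1 b ∨ (x ≤ F.h (X.g v.1) ∧ ∀ g, b ≤ g → g < x → v.2 g = F.e (X.g v.1) g)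

theorem Pt.quiet {v : A × (W1 → ℝ)} (h : X.Pt v.1 v.2) {a x : W1} (hx : x ∈ Cp X.nxt)
    (ha : a < x) : ∃ b < x, ∀ c, b ≤ c → X.Quiet v c x := by
  obtain ⟨d, -, ⟨B, hB, hB'⟩, e2, -⟩ := h
  by_cases h1 : ∃ c ∈ X.E, c < x ∧ X.Sing v.1 c
  · obtain ⟨c, -, h2, h3⟩ := h1
    exact ⟨c, h2, fun _ h => Or.inl (h3.mono h)⟩
  push Not at h1
  obtain ⟨b, h2, h3⟩ := fin_bd (s := X.nxt '' {c | c ∈ B ∧ c < x})
    ((hB.subset fun _ h => h.1).image _) ha (by rintro _ ⟨c, hc, rfl⟩; exact hx c hc.2)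
  refine ⟨b, h2, fun c hc => Or.inr ⟨not_lt.1 fun h4 =>
    h1 _ (X.nxt_mem _) (hx _ h4) (sing_of (X.lt_nxt _)), fun g h4 h5 => ?_⟩⟩
  by_contra hn
  obtain ⟨k, k1, k2, k3⟩ := hB' g (not_le.1 fun h6 => h1 _ (X.nxt_mem g) (hx g h5)
    ((e2 _ (X.nxt_mem g)).1 (h6.trans (X.lt_nxt g).le))) hn
  exact k3.not_ge ((h3 _ ⟨k, ⟨k1, k2.trans_lt h5⟩, rfl⟩).trans (hc.trans h4))

theorem cross {v v' w : A × (W1 → ℝ)} {c : W1} (hc : c ∈ X.E) (h1 : X.R v v') (h2 : X.R v' v)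
    (hw : X.Pt w.1 w.2) (h3 : X.Sim c v'.1 w.1) (h4 : Ag c v'.2 w.2) (h5 : ¬ X.Sim c v.1 w.1) :
    X.R v w ∧ X.R w v := by
  have h6 : ¬ X.Sim c v.1 v'.1 := fun h => h5 (Ag.trans h h3)
  have h7 : ¬ Ag c v.2 v'.2 := fun h => h6 ((h1.2.2 c hc).2 h)
  have h8 : ∀ a ∈ X.E, X.Sim a v.1 w.1 ↔ Ag a v.2 w.2 := fun a ha => by
    rcases le_total a c with h | h
    · exact ⟨fun h9 => ((h1.2.2 a ha).1 (Ag.trans h9 (Ag.symm (Ag.mono h3 h)))).trans (h4.mono h),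
        fun h9 => Ag.trans ((h1.2.2 a ha).2 (h9.trans (h4.symm.mono h))) (Ag.mono h3 h)⟩
    · exact iff_of_false (fun h9 => h5 (Ag.mono h9 h)) fun h9 => h7 ((h9.mono h).trans h4.symm)
  refine ⟨⟨h1.1, fun h => ?_, h8⟩, hw, fun h => ?_, fun a ha =>
    ⟨fun h => ((h8 a ha).1 (Ag.symm h)).symm, fun h => Ag.symm ((h8 a ha).2 h.symm)⟩⟩
  · obtain ⟨i, i1, i2⟩ := h1.2.1 (not_le.1 fun h9 => h6 (Ag.symm (Sim.convex h9 h.le h3)))
    have : i < c := not_le.1 fun h9 => h7 (i1.mono h9)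
    exact ⟨i, i1.trans (h4.mono this.le), i2.trans_eq (h4 i this)⟩
  · obtain ⟨i, i1, i2⟩ := h2.2.1 (not_le.1 fun h9 => h5 (Ag.symm (Sim.convex h.le h9 (Ag.symm h3))))
    have : i < c := not_le.1 fun h9 => h7 (i1.symm.mono h9)
    exact ⟨i, (h4.symm.mono this.le).trans i1, (h4 i this).symm.trans_lt i2⟩

theorem cross' {v w : A × (W1 → ℝ)} {c x : W1} (hv : X.Pt v.1 v.2) (hw : X.Pt w.1 w.2)
    (h1 : X.Sim c v.1 w.1) (h2 : Ag c v.2 w.2) (h3 : ¬ X.Sim x v.1 w.1)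
    (h4 : ∀ g, c ≤ g → g < x → v.2 g = F.e (X.g v.1) g)
    (h5 : ∀ g, c ≤ g → g < x → w.2 g = F.e (X.g w.1) g) : X.R v w := by
  obtain ⟨s, hs, hs'⟩ := exists_min (S := {s | s < x ∧ F.e (X.g v.1) s ≠ F.e (X.g w.1) s}) (by
    simp only [Sim, Ag, not_forall] at h3
    obtain ⟨s, h6, h7⟩ := h3
    exact ⟨s, h6, h7⟩)
  have e1 : c ≤ s := not_lt.1 fun h => hs.2 (h1 s h)
  have e2 : X.Sim s v.1 w.1 := fun b hb => not_not.1 fun h => (hs' b ⟨hb.trans hs.1, h⟩).not_gt hb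
  have e3 : Ag s v.2 w.2 := fun b hb => by
    rcases lt_or_ge b c with h | h
    · exact h2 b h
    · rw [h4 b h (hb.trans hs.1), h5 b h (hb.trans hs.1), e2 b hb]
  refine ⟨hv, fun h => ⟨s, e3, ?_⟩, fun a _ => ?_⟩
  · rw [h4 s e1 hs.1, h5 s e1 hs.1]
    exact_mod_cast lt_of_le_of_ne (F.e1 s _ _ (X.g.monotone h.le)) hs.2
  · rcases le_or_gt a s with h | h
    · exact iff_of_true (Ag.mono e2 h) (e3.mono h)
    · refine iff_of_false (fun h6 => hs.2 (h6 s h)) fun h6 => hs.2 ?_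
      have := h6 s h
      rw [h4 s e1 hs.1, h5 s e1 hs.1] at this
      exact_mod_cast this

theorem ccc (X : Ctx F A) (p : W1 → Set (A × (W1 → ℝ))) (hp : ∀ a, (p a).Finite ∧ Cl X.R (p a)) :
    ∃ a b, a ≠ b ∧ ∀ v ∈ p a, ∀ w ∈ p b, X.R v w ∧ X.R w v := by
  obtain ⟨a0⟩ : Nonempty W1 := inferInstance
  have h1 : ∀ x, ∃ b, x ∈ Cp X.nxt → a0 < x → b < x ∧ ∀ c, b ≤ c → (∀ v ∈ p x, X.Quiet v c x) ∧
      ∀ v ∈ p x, ∀ w ∈ p x, X.Sim c v.1 w.1 → X.Sim x v.1 w.1 := fun x => by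
    by_cases hx : x ∈ Cp X.nxt ∧ a0 < x
    swap
    · exact ⟨a0, fun h1 h2 => absurd ⟨h1, h2⟩ hx⟩
    choose k hk1 hk2 using fun v : p x => ((hp x).2 v v.2 v v.2).1.quiet hx.1 hx.2
    have h2 : ∀ v w : A, ∃ b < x, ∀ c, b ≤ c → X.Sim c v w → X.Sim x v w := fun v w => by
      by_cases h : X.Sim x v w
      · exact ⟨a0, hx.2, fun _ _ _ => h⟩
      · simp only [Sim, Ag, not_forall] at h
        obtain ⟨s, h6, h7⟩ := h
        exact ⟨succ s, succ_lt (lim_mem hx.1) h6, fun c hc h =>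
          absurd (h s ((lt_succ s).trans_le hc)) h7⟩
    choose m hm1 hm2 using h2
    haveI := (hp x).1.to_subtype
    obtain ⟨b, h3, h4⟩ := fin_bd ((finite_range k).union
      (finite_range fun t : p x × p x => m t.1.1.1 t.2.1.1)) hx.2 (by
        rintro _ (⟨v, rfl⟩ | ⟨t, rfl⟩)
        exacts [hk1 v, hm1 _ _])
    exact ⟨b, fun _ _ => ⟨h3, fun c hc => ⟨fun v hv => hk2 ⟨v, hv⟩ c
      ((h4 _ (Or.inl ⟨_, rfl⟩)).trans hc), fun v hv w hw => hm2 _ _ c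
        ((h4 _ (Or.inr ⟨(⟨v, hv⟩, ⟨w, hw⟩), rfl⟩)).trans hc)⟩⟩⟩
  choose b hb using h1
  obtain ⟨c0, hc⟩ := press X.nxt b a0 fun x h1 h2 => (hb x h1 h2).1
  obtain ⟨Y, t, hY, ht⟩ := F.trunc (X.nxt c0)
  let j : ∀ x, p x → F.U := fun x v => ⟨toLex v.1.2, by
    obtain ⟨d, hd, -⟩ := ((hp x).2 v v.2 v v.2).1
    exact ⟨d, hd⟩⟩
  let T : W1 → Set (ℚ × (W1 → ℝ) × ℕ) := fun x =>
    range fun v : p x => (F.e (X.g v.1.1) (X.nxt c0), t (j x v), F.c x (X.g v.1.1))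
  obtain ⟨k, hk⟩ := pigeon hc (countable_setOf_finite_subset ((countable_univ (α := ℚ)).prod
    (hY.prod (countable_univ (α := ℕ))))) T fun x _ => ⟨by
      haveI := (hp x).1.to_subtype
      exact finite_range _, by
      rintro _ ⟨v, rfl⟩
      exact ⟨trivial, (ht _).1, trivial⟩⟩
  obtain ⟨x, hx, hcx⟩ := unb hk (X.nxt c0)
  obtain ⟨y, hy, hxy⟩ := unb hk x
  refine ⟨x, y, hxy.ne, fun v hv w hw => ?_⟩
  obtain ⟨v', h2⟩ : (F.e (X.g w.1) (X.nxt c0), t (j y ⟨w, hw⟩), F.c y (X.g w.1)) ∈ T x := by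
    rw [hx.2, ← hy.2]; exact ⟨⟨w, hw⟩, rfl⟩
  simp only [Prod.mk.injEq] at h2
  have e1 : X.Sim (X.nxt c0) v'.1.1 w.1 := fun g hg => F.e2 g _ _ _ hg.le h2.1
  have e2 : Ag (X.nxt c0) v'.1.2 w.2 := (ht _).2 _ h2.2.1
  have hvv := (hp x).2 v hv _ v'.2
  have hw' := ((hp y).2 w hw w hw).1
  by_cases h3 : X.Sim (X.nxt c0) v.1 w.1
  swap
  · exact cross (X.nxt_mem c0) hvv ((hp x).2 _ v'.2 v hv) hw' e1 e2 h3
  have qx := (hb x hx.1.1 hx.1.2.1).2 _ (hx.1.2.2.trans (X.lt_nxt c0).le)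
  have qy := (hb y hy.1.1 hy.1.2.1).2 _ (hy.1.2.2.trans (X.lt_nxt c0).le)
  have e3 : X.Sim (X.nxt c0) v.1 v'.1.1 := Ag.trans h3 (Ag.symm e1)
  have e4 : Ag (X.nxt c0) v.2 w.2 := ((hvv.2.2 _ (X.nxt_mem c0)).1 e3).trans e2
  by_cases h4 : X.Sing w.1 (X.nxt c0)
  · obtain ⟨d, d1, -, d2, -⟩ := id hw'
    have : v = w := Prod.ext (h4 _ h3) (d1.eq hvv.1.choose_spec.1
      (e4.symm.mono ((d2 _ (X.nxt_mem c0)).2 h4))).symm
    subst this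
    exact ⟨R.refl hw', R.refl hw'⟩
  have h5 : ∀ z, X.Sim (X.nxt c0) z w.1 → ¬ X.Sing z (X.nxt c0) := fun z hz h => by
    obtain rfl := h _ (Ag.symm hz)
    exact h4 h
  have q1 := (qx.1 v hv).resolve_left (h5 _ h3)
  have q2 := (qx.1 _ v'.2).resolve_left (h5 _ e1)
  have q3 := (qy.1 w hw).resolve_left h4
  have h6 : ¬ X.Sim x v.1 w.1 := fun h => F.c2 x y _ hxy q3.1 (by
    rw [← h2.2.2]
    exact F.c1 x _ _ (hxy.le.trans q3.1) q2.1 (Ag.trans (Ag.symm h) (qx.2 v hv _ v'.2 e3)))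
  have q4 := fun g h1 (h2 : g < x) => q3.2 g h1 (h2.trans hxy)
  exact ⟨cross' hvv.1 hw' h3 e4 h6 q1.2 q4,
    cross' hw' hvv.1 (Ag.symm h3) e4.symm (fun h => h6 (Ag.symm h)) q4 q1.2⟩

end Ctx

theorem cont_of {A U : Type} [LinearOrder A] [LinearOrder U] {f : A → U} (hf : StrictMono f)
    (hL : ∀ x u, u < f x → (∀ b < x, ∃ y, b < y ∧ y < x) → ∃ y < x, u ≤ f y)
    (hR : ∀ x u, f x < u → (∀ b, x < b → ∃ y, x < y ∧ y < b) → ∃ y, x < y ∧ f y ≤ u) :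
    LotsEmb f := by
  refine ⟨hf.injective, hf.monotone, ?_⟩
  letI : TopologicalSpace A := Preorder.topology A
  letI : TopologicalSpace U := Preorder.topology U
  haveI : OrderTopology A := ⟨rfl⟩
  haveI : OrderTopology U := ⟨rfl⟩
  refine OrderTopology.continuous_iff.2 fun u => ⟨isOpen_iff_mem_nhds.2 fun x hx => ?_,
    isOpen_iff_mem_nhds.2 fun x hx => ?_⟩
  · by_cases h : ∀ b < x, ∃ y, b < y ∧ y < x
    · obtain ⟨y, h1, h2⟩ := hL x u hx h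
      exact mem_of_superset (Ioi_mem_nhds h1) fun z hz => h2.trans_lt (hf hz)
    · push Not at h
      obtain ⟨b, h1, h2⟩ := h
      exact mem_of_superset (Ioi_mem_nhds h1) fun z hz => lt_of_lt_of_le hx (hf.monotone (h2 z hz))
  · by_cases h : ∀ b, x < b → ∃ y, x < y ∧ y < b
    · obtain ⟨y, h1, h2⟩ := hR x u hx h
      exact mem_of_superset (Iio_mem_nhds h1) fun z hz => (hf hz).trans_le h2
    · push Not at h
      obtain ⟨b, h1, h2⟩ := h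
      exact mem_of_superset (Iio_mem_nhds h1) fun z hz =>
        lt_of_le_of_lt (hf.monotone (not_lt.1 fun h3 => (h2 z h3).not_gt hz)) hx

theorem mk_U {Z : Type} [LinearOrder Z] (F : Frame Z) : #F.U ≤ ℵ₁ := by
  by_contra h
  exact h (F.aron (not_le.1 h).le).1.le

theorem embed (hMA : MA1) {Z : Type} [LinearOrder Z] (F : Frame Z) {A : Type} [LinearOrder A]
    (hA : Aron A) (g : A ↪o Z) : ∃ f : A → F.U, LotsEmb f := by
  obtain ⟨X⟩ := ctx F hA g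
  obtain ⟨H, hH, hH'⟩ := clique hMA X.R X.ccc (I := A × Option F.U) (by
      rw [mk_prod, lift_id, lift_id, hA.1, mk_option]
      refine (mul_le_mul_right (add_le_add (mk_U F) (one_le_aleph0.trans aleph0_lt_aleph_one.le))
        _).trans ?_
      simp)
    (fun i q => ∃ w, (i.1, w) ∈ q ∧ ∀ u, i.2 = some u →
      (u.1 < toLex w → (∀ b < i.1, ∃ y, b < y ∧ y < i.1) → ∃ v ∈ q, v.1 < i.1 ∧ u.1 ≤ toLex v.2) ∧
      (toLex w < u.1 → (∀ b, i.1 < b → ∃ y, i.1 < y ∧ y < b) →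
        ∃ v ∈ q, i.1 < v.1 ∧ toLex v.2 ≤ u.1)) (by
      rintro ⟨x, o⟩ p h1 h2
      obtain ⟨q, q1, q2, q3, w, hw⟩ := Ctx.add h1 h2 x
      rcases o with _ | ⟨u, d, hd⟩
      · exact ⟨q, q1, q2, q3, w, hw, fun _ h => nomatch h⟩
      by_cases c1 : u < toLex w ∧ ∀ b < x, ∃ y, b < y ∧ y < x
      · obtain ⟨r, r1, r2, r3, r4⟩ := Ctx.contL q2 q3 hw hd c1.1 c1.2
        refine ⟨r, q1.trans r1, r2, r3, w, r1 hw, ?_⟩
        rintro _ ⟨rfl⟩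
        exact ⟨fun _ _ => r4, fun h => absurd h c1.1.not_gt⟩
      by_cases c2 : toLex w < u ∧ ∀ b, x < b → ∃ y, x < y ∧ y < b
      · obtain ⟨r, r1, r2, r3, r4⟩ := Ctx.contR q2 q3 hw hd c2.1 c2.2
        refine ⟨r, q1.trans r1, r2, r3, w, r1 hw, ?_⟩
        rintro _ ⟨rfl⟩
        exact ⟨fun h => absurd h c2.1.not_gt, fun _ _ => r4⟩
      refine ⟨q, q1, q2, q3, w, hw, ?_⟩
      rintro _ ⟨rfl⟩
      exact ⟨fun h h' => absurd ⟨h, h'⟩ c1, fun h h' => absurd ⟨h, h'⟩ c2⟩)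
  have h1 : ∀ x, ∃ u : F.U, (x, ofLex u.1) ∈ H := fun x => by
    obtain ⟨q, hq, w, hw, -⟩ := hH' (x, none)
    obtain ⟨d, hd, -⟩ := (hH _ (hq hw) _ (hq hw)).1
    exact ⟨⟨toLex w, d, hd⟩, hq hw⟩
  choose f hf using h1
  have h2 : ∀ v ∈ H, toLex v.2 = (f v.1).1 := fun v hv =>
    le_antisymm ((hH _ hv _ (hf _)).le le_rfl) ((hH _ (hf _) _ hv).le le_rfl)
  refine ⟨f, cont_of (fun x y h => (hH _ (hf x) _ (hf y)).2.1 h) (fun x u h3 h4 => ?_)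
    fun x u h3 h4 => ?_⟩
  · obtain ⟨q, hq, w, hw, h5⟩ := hH' (x, some u)
    obtain ⟨v, h6, h7, h8⟩ := (h5 u rfl).1 ((h2 _ (hq hw)).symm ▸ h3) h4
    exact ⟨v.1, h7, h8.trans_eq (h2 v (hq h6))⟩
  · obtain ⟨q, hq, w, hw, h5⟩ := hH' (x, some u)
    obtain ⟨v, h6, h7, h8⟩ := (h5 u rfl).2 ((h2 _ (hq hw)).symm ▸ h3) h4
    exact ⟨v.1, h7, (h2 v (hq h6)).symm.trans_le h8⟩

theorem hull (hMA : MA1) (Z : Type) [LinearOrder Z] (hZ : Aron Z) :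
    ∃ (U : Type) (_ : LinearOrder U), Aron U ∧
      ∀ (A : Type) [LinearOrder A], Aron A → Nonempty (A ↪o Z) → ∃ f : A → U, LotsEmb f := by
  obtain ⟨F⟩ := frame hMA hZ
  obtain ⟨f, hf⟩ := embed hMA F hZ (OrderEmbedding.id Z)
  exact ⟨F.U, inferInstance, F.aron (hZ.1.ge.trans (mk_le_of_injective hf.1)),
    fun A _ hA ⟨g⟩ => embed hMA F hA g⟩

end Pool.Agent.H57.Aro
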