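import Mathlib

set_option autoImplicit false

namespace Pool.Agent.H57.Aro

open Cardinal

/-- the first uncountable ordinal, as a linear order -/
abbrev Om1 : Type := (ℵ₁ : Cardinal.{0}).ord.ToType

/-- An injective, order-preserving map that is continuous for the open interval topologies. -/
def LotsEmb {A B : Type} [LinearOrder A] [LinearOrder B] (f : A → B) : Prop :=
  Function.Injective f ∧ Monotone f ∧ @Continuous A B (Preorder.topology A) (Preorder.topology B) f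

/-- Aronszajn lines -/
def Aron (L : Type) [LinearOrder L] : Prop :=
  #L = ℵ₁ ∧ IsEmpty (Om1 ↪o L) ∧ IsEmpty (Om1ᵒᵈ ↪o L) ∧
    ∀ X : Set ℝ, ¬ X.Countable → IsEmpty (X ↪o L)

/-- Martin's axiom for `ℵ₁` dense sets -/
def MA1 : Prop :=
  ∀ (P : Type) [PartialOrder P] [Nonempty P],
    (∀ A : Set P, (A.Pairwise fun p q => ¬ ∃ r, r ≤ p ∧ r ≤ q) → A.Countable) →
    ∀ D : Set (Set P), #D ≤ ℵ₁ → (∀ d ∈ D, ∀ p, ∃ q ∈ d, q ≤ p) →
      ∃ G : Set P, (∀ p ∈ G, ∀ q, p ≤ q → q ∈ G) ∧ (∀ p ∈ G, ∀ q ∈ G, ∃ r ∈ G, r ≤ p ∧ r ≤ q) ∧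
        ∀ d ∈ D, (G ∩ d).Nonempty

/-- universal Aronszajn line -/
def UnivLine (U : Type) [LinearOrder U] : Prop :=
  Aron U ∧ ∀ (A : Type) [LinearOrder A], Aron A → Nonempty (A ↪o U)

/-- universal Aronszajn LOTS -/
def UnivLots (U : Type) [LinearOrder U] : Prop :=
  Aron U ∧ ∀ (A : Type) [LinearOrder A], Aron A → ∃ f : A → U, LotsEmb f

end Pool.Agent.H57.Aro
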