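import Pool.Agent.H57.BasDefs

set_option autoImplicit false

namespace Pool.Agent.H57.Bas

open Cardinal Set

abbrev K : Type := ℕ ⊕ₗ ℕᵒᵈ

def kl (n : ℕ) : K := toLex (Sum.inl n)
def kr (n : ℕ) : K := toLex (Sum.inr (OrderDual.toDual n))

theorem K.cases (k : K) : (∃ n, k = kl n) ∨ ∃ n, k = kr n := by
  rcases k with n | n
  exacts [Or.inl ⟨n, rfl⟩, Or.inr ⟨n, rfl⟩]

@[simp] theorem kl_kl {n m : ℕ} : kl n < kl m ↔ n < m := Sum.Lex.inl_lt_inl_iff
@[simp] theorem kr_kr {n m : ℕ} : kr n < kr m ↔ m < n := Sum.Lex.inr_lt_inr_iff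
@[simp] theorem kl_kr {n m : ℕ} : kl n < kr m := Sum.Lex.inl_lt_inr _ _
@[simp] theorem kr_kl {n m : ℕ} : ¬ kr n < kl m := Sum.Lex.not_inr_lt_inl

def Left (k : K) : Prop := k < kr 0 ∧ ∃ n, k = kl n

@[simp] theorem left_kl (n : ℕ) : Left (kl n) := ⟨kl_kr, n, rfl⟩
@[simp] theorem left_kr (n : ℕ) : ¬ Left (kr n) := fun ⟨_, _, h⟩ => by cases h

theorem Left.mono {k k' : K} (h : k ≤ k') (h' : Left k') : Left k := by
  obtain ⟨-, n, rfl⟩ := h'
  rcases k.cases with ⟨m, rfl⟩ | ⟨m, rfl⟩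
  · simp
  · exact (h.not_gt kl_kr).elim

variable {Z : Type} [LinearOrder Z]

abbrev Le (Z : Type) : Type := K ×ₗ Z

def lft (c : Le Z) : Prop := Left (ofLex c).1

theorem lft_mono {c d : Le Z} (h : c ≤ d) (h' : lft d) : lft c :=
  Left.mono (Prod.Lex.monotone_fst _ _ h) h'

def lt : List (Le Z) → List (Le Z) → Prop
  | [], [] => False
  | [], d :: _ => ¬ lft d
  | c :: _, [] => lft c
  | c :: s, d :: t => c < d ∨ (c = d ∧ lt s t)

theorem lt_irrefl' : ∀ s : List (Le Z), ¬ lt s s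
  | [] => id
  | _ :: s => fun h => h.elim (lt_irrefl _) fun h => lt_irrefl' s h.2

theorem lt_tri : ∀ s t : List (Le Z), lt s t ∨ s = t ∨ lt t s
  | [], [] => Or.inr (Or.inl rfl)
  | [], d :: _ => (em (lft d)).elim (fun h => Or.inr (Or.inr h)) Or.inl
  | c :: _, [] => (em (lft c)).elim Or.inl fun h => Or.inr (Or.inr h)
  | c :: s, d :: t => by
    rcases lt_trichotomy c d with h | rfl | h
    · exact Or.inl (Or.inl h)
    · rcases lt_tri s t with h | rfl | h
      exacts [Or.inl (Or.inr ⟨rfl, h⟩), Or.inr (Or.inl rfl), Or.inr (Or.inr (Or.inr ⟨rfl, h⟩))]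
    · exact Or.inr (Or.inr (Or.inl h))

theorem lt_trans' : ∀ s t u : List (Le Z), lt s t → lt t u → lt s u
  | [], [], _, h, _ => h.elim
  | _, [], [], _, h => h.elim
  | [], _ :: _, [], h, h' => h h'
  | [], _ :: _, _ :: _, h, h' => fun h'' => h (lft_mono (h'.elim le_of_lt fun h => h.1.le) h'')
  | _ :: _, [], _ :: _, h, h' => Or.inl (not_le.1 fun h'' => h' (lft_mono h'' h))
  | _ :: _, _ :: _, [], h, h' => lft_mono (h.elim le_of_lt fun h => h.1.le) h'
  | _ :: s, _ :: t, _ :: u, h, h' => by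
    rcases h with h | ⟨rfl, h⟩ <;> rcases h' with h' | ⟨rfl, h'⟩
    exacts [Or.inl (h.trans h'), Or.inl h, Or.inl h', Or.inr ⟨rfl, lt_trans' s t u h h'⟩]

def B (Z : Type) : Type := List (Le Z)

instance : IsStrictTotalOrder (B Z) lt where
  irrefl := lt_irrefl'
  trans := lt_trans'
  trichotomous := fun s t h1 h2 => ((lt_tri s t).resolve_left h1).resolve_right h2

noncomputable instance : LinearOrder (B Z) :=
  @linearOrderOfSTO (B Z) lt inferInstance (Classical.decRel _)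

def ext (s : B Z) (k : K) (z : Z) : B Z := List.append s [toLex (k, z)]

theorem lt_ext (n : ℕ) (z : Z) : ∀ s : List (Le Z), lt s (ext s (kr n) z)
  | [] => left_kr n
  | _ :: s => Or.inr ⟨rfl, lt_ext n z s⟩

theorem ext_lt (n : ℕ) (z : Z) : ∀ s : List (Le Z), lt (ext s (kl n) z) s
  | [] => left_kl n
  | _ :: s => Or.inr ⟨rfl, ext_lt n z s⟩

theorem ext_right : ∀ s t : List (Le Z), lt s t → ∃ n, ∀ z, lt (ext s (kr n) z) t
  | [], [], h => h.elim
  | [], d :: _, h => by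
    obtain ⟨k, w⟩ := d
    rcases k.cases with ⟨m, rfl⟩ | ⟨m, rfl⟩
    · exact (h (left_kl m)).elim
    · exact ⟨m + 1, fun z => Or.inl (Prod.Lex.left _ _ (kr_kr.2 m.lt_succ_self))⟩
  | _ :: _, [], h => ⟨0, fun _ => h⟩
  | _ :: s, _ :: t, h => by
    rcases h with h | ⟨rfl, h⟩
    · exact ⟨0, fun _ => Or.inl h⟩
    · obtain ⟨n, hn⟩ := ext_right s t h
      exact ⟨n, fun z => Or.inr ⟨rfl, hn z⟩⟩

theorem ext_left : ∀ s t : List (Le Z), lt t s → ∃ n, ∀ z, lt t (ext s (kl n) z)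
  | [], [], h => h.elim
  | [], d :: _, h => by
    obtain ⟨k, w⟩ := d
    rcases k.cases with ⟨m, rfl⟩ | ⟨m, rfl⟩
    · exact ⟨m + 1, fun z => Or.inl (Prod.Lex.left _ _ (kl_kl.2 m.lt_succ_self))⟩
    · exact (left_kr m h).elim
  | _ :: _, [], h => ⟨0, fun _ => h⟩
  | _ :: s, _ :: t, h => by
    rcases h with h | ⟨rfl, h⟩
    · exact ⟨0, fun _ => Or.inl h⟩
    · obtain ⟨n, hn⟩ := ext_left s t h
      exact ⟨n, fun z => Or.inr ⟨rfl, hn z⟩⟩

theorem B_inC (hZ : #Z = ℵ₁) : InC (B Z) := by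
  obtain ⟨z0⟩ : Nonempty Z := by
    rw [← mk_ne_zero_iff, hZ]; exact (aleph_pos 1).ne'
  haveI : Nonempty (Le Z) := ⟨toLex (kl 0, z0)⟩
  have hB : #(B Z) ≤ ℵ₁ := by
    have h1 : #(Le Z) = #K * #Z := by
      show #(K × Z) = _
      simp
    haveI : Countable K := inferInstanceAs (Countable (ℕ ⊕ ℕ))
    have h2 : #K ≤ ℵ₁ := mk_le_aleph0.trans aleph0_lt_aleph_one.le
    refine (mk_list_eq_max_mk_aleph0 (Le Z)).trans_le (max_le ?_ aleph0_lt_aleph_one.le)
    rw [h1, hZ]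
    exact (mul_le_mul' h2 le_rfl).trans (mul_eq_self aleph0_lt_aleph_one.le).le
  refine ⟨⟨[], ext [] (kl 0) z0, fun h => by cases h⟩, fun s t h => le_antisymm ((mk_set_le _).trans hB) ?_,
    fun s _ _ => ⟨range fun n => ext s (kl n) z0, ?_, countable_range _, ?_, fun t ht => ?_⟩,
    fun s _ _ => ⟨range fun n => ext s (kr n) z0, ?_, countable_range _, ?_, fun t ht => ?_⟩⟩
  · obtain ⟨n, hn⟩ := ext_right s t h
    rw [← hZ]
    refine mk_le_of_injective (f := fun z => ⟨ext s (kr n) z, lt_ext n z s, hn z⟩) fun z w h => ?_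
    have h' : ext s (kr n) z = ext s (kr n) w := congrArg Subtype.val h
    have h2 := List.append_cancel_left h'
    simpa using h2
  · rintro _ ⟨n, rfl⟩; exact ext_lt n z0 s
  · rintro _ ⟨n, rfl⟩; exact le_of_lt (ext_lt n z0 s)
  · by_contra h
    obtain ⟨n, hn⟩ := ext_left s t (not_le.1 h)
    exact (ht (mem_range_self n)).not_gt (hn z0)
  · rintro _ ⟨n, rfl⟩; exact lt_ext n z0 s
  · rintro _ ⟨n, rfl⟩; exact le_of_lt (lt_ext n z0 s)
  · by_contra h
    obtain ⟨n, hn⟩ := ext_right s t (not_le.1 h)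
    exact (ht (mem_range_self n)).not_gt (hn z0)

theorem emb_of {A L : Type} [LinearOrder A] [LinearOrder L] {f : A → L} (hf : StrictMono f)
    (H₁ : ∀ a x, x < f a → ∃ b < a, x ≤ f b) (H₂ : ∀ a x, f a < x → ∃ b > a, f b ≤ x) :
    LotsEmb f := by
  letI : TopologicalSpace L := Preorder.topology L
  haveI : OrderTopology L := ⟨rfl⟩
  refine ⟨hf.injective, hf.monotone, ?_⟩
  have h := induced_orderTopology' f hf.lt_iff_lt (H₁ _ _) (H₂ _ _)
  have h' : TopologicalSpace.induced f (Preorder.topology L) = Preorder.topology A := h.1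
  rw [← h']
  exact continuous_induced_dom

theorem tree_emb {L I : Type} [LinearOrder L] (lo hi mid : I → L) (ch : I → Le Z → I)
    (h1 : ∀ p, lo p < mid p ∧ mid p < hi p)
    (h2 : ∀ p c, lo p ≤ lo (ch p c) ∧ hi (ch p c) ≤ hi p)
    (h3 : ∀ p c, (lft c → hi (ch p c) ≤ mid p) ∧ (¬ lft c → mid p ≤ lo (ch p c)))
    (h4 : ∀ p c d, c < d → hi (ch p c) ≤ lo (ch p d))
    (h5 : ∀ p y, y < mid p → ∃ c, lft c ∧ y ≤ lo (ch p c))
    (h6 : ∀ p y, mid p < y → ∃ c, ¬ lft c ∧ hi (ch p c) ≤ y) (p : I) :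
    ∃ f : B Z → L, LotsEmb f := by
  let F : List (Le Z) → I → L := fun s => s.rec mid fun c _ G p => G (ch p c)
  have hb : ∀ s p, lo p < F s p ∧ F s p < hi p := by
    intro s
    induction s with
    | nil => exact h1
    | cons c s ih => exact fun p => ⟨(h2 p c).1.trans_lt (ih _).1, (ih _).2.trans_le (h2 p c).2⟩
  have hm : ∀ s t p, lt s t → F s p < F t p := by
    intro s
    induction s with
    | nil =>
      rintro (_ | ⟨d, t⟩) p h
      · exact h.elim
      · exact ((h3 p d).2 h).trans_lt (hb t _).1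
    | cons c s ih =>
      rintro (_ | ⟨d, t⟩) p h
      · exact (hb s _).2.trans_le ((h3 p c).1 h)
      · rcases h with h | ⟨rfl, h⟩
        · exact ((hb s _).2.trans_le (h4 p c d h)).trans (hb t _).1
        · exact ih t _ h
  have hl : ∀ s p y, y < F s p → ∃ t, lt t s ∧ y ≤ F t p := by
    intro s
    induction s with
    | nil =>
      intro p y h
      obtain ⟨c, h7, h8⟩ := h5 p y h
      exact ⟨[c], h7, h8.trans (h1 _).1.le⟩
    | cons c s ih =>
      intro p y h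
      obtain ⟨t, h7, h8⟩ := ih _ y h
      exact ⟨c :: t, Or.inr ⟨rfl, h7⟩, h8⟩
  have hr : ∀ s p y, F s p < y → ∃ t, lt s t ∧ F t p ≤ y := by
    intro s
    induction s with
    | nil =>
      intro p y h
      obtain ⟨c, h7, h8⟩ := h6 p y h
      exact ⟨[c], h7, (h1 _).2.le.trans h8⟩
    | cons c s ih =>
      intro p y h
      obtain ⟨t, h7, h8⟩ := ih _ y h
      exact ⟨c :: t, Or.inr ⟨rfl, h7⟩, h8⟩
  exact ⟨fun s => F s p, emb_of (fun s t h => hm s t p h) (fun s y h => hl s p y h)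
    fun s y h => hr s p y h⟩

end Pool.Agent.H57.Bas
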