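import Pool.Agent.H57.Bas1

set_option autoImplicit false

namespace Pool.Agent.H57.Bas

open Cardinal Set

theorem ne_of_mk {X : Type} {s : Set X} (h : #s = ℵ₁) : s.Nonempty := by
  rw [← nonempty_coe_sort, ← mk_ne_zero_iff, h]; exact (aleph_pos 1).ne'

theorem InC.dense {L : Type} [LinearOrder L] (h : InC L) : DenselyOrdered L :=
  ⟨fun a b hab => ne_of_mk (h.2.1 a b hab)⟩

theorem seq_up {L : Type} [LinearOrder L] [DenselyOrdered L] {a m : L} (h : a < m) {S : Set L}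
    (h1 : S ⊆ Iio m) (h2 : S.Countable) (h3 : IsLUB S m) :
    ∃ l : ℕ → L, StrictMono l ∧ (∀ n, a < l n ∧ l n < m) ∧ ∀ y < m, ∃ n, y ≤ l n := by
  obtain ⟨x0, hx0, -⟩ := (lt_isLUB_iff h3).1 h
  obtain ⟨s, rfl⟩ := h2.exists_eq_range ⟨x0, hx0⟩
  have h4 : ∀ (n : ℕ) (x : Iio m), ∃ y : Iio m, x.1 < y.1 ∧ s n < y.1 := fun n x => by
    obtain ⟨y, h5, h6⟩ := exists_between (max_lt x.2 (h1 (mem_range_self n)))
    exact ⟨⟨y, h6⟩, max_lt_iff.1 h5⟩
  choose g hg1 hg2 using h4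
  let l : ℕ → Iio m := fun n => n.rec (g 0 ⟨a, h⟩) fun n x => g n x
  have hl : StrictMono fun n => (l n).1 := strictMono_nat_of_lt_succ fun n => hg1 n (l n)
  refine ⟨fun n => (l n).1, hl, fun n => ⟨(hg1 0 ⟨a, h⟩).trans_le (hl.monotone (Nat.zero_le n)),
    (l n).2⟩, fun y hy => ?_⟩
  obtain ⟨_, ⟨n, rfl⟩, hn⟩ := (lt_isLUB_iff h3).1 hy
  exact ⟨n + 1, (hn.trans (hg2 n (l n))).le⟩

theorem slots {L : Type} [LinearOrder L] (h : InC L) {a b : L} (hab : a < b) :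
    ∃ (m : L) (sl sh : K → L), (a < m ∧ m < b) ∧ (∀ k, a ≤ sl k ∧ sl k < sh k ∧ sh k ≤ b) ∧
      (∀ k, (Left k → sh k ≤ m) ∧ (¬ Left k → m ≤ sl k)) ∧ (∀ k k', k < k' → sh k ≤ sl k') ∧
      (∀ y < m, ∃ k, Left k ∧ y ≤ sl k) ∧ ∀ y, m < y → ∃ k, ¬ Left k ∧ sh k ≤ y := by
  haveI := h.dense
  obtain ⟨m, h1, h2⟩ := exists_between hab
  obtain ⟨S, h3, h4, h5⟩ := h.2.2.1 m ⟨a, h1⟩ isLUB_Iio
  obtain ⟨T, h6, h7, h8⟩ := h.2.2.2 m ⟨b, h2⟩ isGLB_Ioi
  obtain ⟨l, l1, l2, l3⟩ := seq_up h1 h3 h4 h5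
  obtain ⟨r, r1, r2, r3⟩ := seq_up (L := Lᵒᵈ) (a := b) (m := m) h2 (S := T) h6 h7 h8
  have r1' : ∀ {n k : ℕ}, n ≤ k → OrderDual.ofDual (r k) ≤ OrderDual.ofDual (r n) :=
    fun h => r1.monotone h
  refine ⟨m, fun k => Sum.elim l (fun n => OrderDual.ofDual (r (OrderDual.ofDual n + 1))) (ofLex k),
    fun k => Sum.elim (fun n => l (n + 1)) (fun n => OrderDual.ofDual (r (OrderDual.ofDual n))) (ofLex k),
    ⟨h1, h2⟩, fun k => ?_, fun k => ?_, fun k k' hk => ?_, fun y hy => ?_, fun y hy => ?_⟩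
  · rcases k.cases with ⟨n, rfl⟩ | ⟨n, rfl⟩
    · exact ⟨(l2 n).1.le, l1 n.lt_succ_self, ((l2 _).2.trans h2).le⟩
    · exact ⟨(h1.trans (r2 _).2).le, r1 n.lt_succ_self, (r2 n).1.le⟩
  · rcases k.cases with ⟨n, rfl⟩ | ⟨n, rfl⟩
    · exact ⟨fun _ => (l2 _).2.le, fun h => (h (left_kl n)).elim⟩
    · exact ⟨fun h => (left_kr n h).elim, fun _ => (r2 _).2.le⟩
  · rcases k.cases with ⟨n, rfl⟩ | ⟨n, rfl⟩ <;> rcases k'.cases with ⟨j, rfl⟩ | ⟨j, rfl⟩
    · exact l1.monotone (kl_kl.1 hk)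
    · exact ((l2 _).2.trans (r2 _).2).le
    · exact (kr_kl hk).elim
    · exact r1' (kr_kr.1 hk)
  · obtain ⟨n, hn⟩ := l3 y hy
    exact ⟨kl n, left_kl n, hn⟩
  · obtain ⟨n, hn⟩ := r3 y hy
    exact ⟨kr n, left_kr n, hn⟩

def Rich (Z : Type) [LinearOrder Z] {L : Type} [LinearOrder L] (a b : L) : Prop :=
  ∃ u v : Z → L, (∀ z, a ≤ u z ∧ u z < v z ∧ v z ≤ b) ∧ ∀ z w, z < w → v z ≤ u w

theorem rich_emb {Z : Type} [LinearOrder Z] [Nonempty Z] {L : Type} [LinearOrder L] (h : InC L)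
    {a0 b0 : L} (h0 : a0 < b0) (hr : ∀ a b, a0 ≤ a → a < b → b ≤ b0 → Rich Z a b) :
    ∃ f : B Z → L, LotsEmb f := by
  let I := {p : L × L // a0 ≤ p.1 ∧ p.1 < p.2 ∧ p.2 ≤ b0}
  choose m sl sh h1 h2 h3 h4 h5 h6 using fun p : I => slots h p.2.2.1
  choose u v h7 h8 using fun (p : I) (k : K) => hr (sl p k) (sh p k) (p.2.1.trans (h2 p k).1)
    (h2 p k).2.1 ((h2 p k).2.2.trans p.2.2.2)
  refine tree_emb (I := I) (fun p => p.1.1) (fun p => p.1.2) m
    (fun p c => ⟨(u p (ofLex c).1 (ofLex c).2, v p (ofLex c).1 (ofLex c).2),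
      (p.2.1.trans (h2 p _).1).trans (h7 p _ _).1, (h7 p _ _).2.1,
      (h7 p _ _).2.2.trans ((h2 p _).2.2.trans p.2.2.2)⟩) h1
    (fun p c => ⟨(h2 p _).1.trans (h7 p _ _).1, (h7 p _ _).2.2.trans (h2 p _).2.2⟩)
    (fun p c => ⟨fun h => (h7 p _ _).2.2.trans ((h3 p _).1 h),
      fun h => ((h3 p _).2 h).trans (h7 p _ _).1⟩) (fun p c d h => ?_) (fun p y h => ?_)
    (fun p y h => ?_) ⟨(a0, b0), le_rfl, h0, le_rfl⟩
  · obtain ⟨k, z⟩ := c
    obtain ⟨k', w⟩ := d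
    rcases Prod.Lex.toLex_lt_toLex.1 h with h | ⟨h, h'⟩
    · exact ((h7 p _ _).2.2.trans (h4 p _ _ h)).trans (h7 p _ _).1
    · obtain rfl : k = k' := h
      exact h8 p k z w h'
  · obtain ⟨k, h9, h10⟩ := h5 p y h
    exact ⟨toLex (k, Classical.arbitrary Z), h9, h10.trans (h7 p _ _).1⟩
  · obtain ⟨k, h9, h10⟩ := h6 p y h
    exact ⟨toLex (k, Classical.arbitrary Z), h9, (h7 p _ _).2.2.trans h10⟩

theorem pigeon {I L : Type} [Finite I] [LinearOrder L] [Nontrivial L] (P : I → L → L → Prop)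
    (h1 : ∀ i a b a' b', a ≤ a' → b' ≤ b → P i a' b' → P i a b)
    (h2 : ∀ a b, a < b → ∃ i, P i a b) :
    ∃ i a0 b0, a0 < b0 ∧ ∀ a b, a0 ≤ a → a < b → b ≤ b0 → P i a b := by
  classical
  by_contra hn
  push Not at hn
  have key : ∀ s : Finset I, ∃ a b, a < b ∧ ∀ i ∈ s, ¬ P i a b := by
    intro s
    induction s using Finset.induction_on with
    | empty =>
      obtain ⟨a, b, h⟩ := exists_pair_lt L
      exact ⟨a, b, h, by simp⟩
    | insert i s _ ih =>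
      obtain ⟨a, b, h3, h4⟩ := ih
      obtain ⟨a', b', h5, h6, h7, h8⟩ := hn i a b h3
      refine ⟨a', b', h6, fun j hj => ?_⟩
      rcases Finset.mem_insert.1 hj with rfl | hj
      exacts [h8, fun h => h4 j hj (h1 _ _ _ _ _ h5 h7 h)]
  haveI := Fintype.ofFinite I
  obtain ⟨a, b, h3, h4⟩ := key Finset.univ
  obtain ⟨i, hi⟩ := h2 a b h3
  exact h4 i (Finset.mem_univ i) hi

def Sep (J : Type) [LinearOrder J] : Prop :=
  ∃ D : Set J, D.Countable ∧ ∀ u v, u < v → ∃ d ∈ D, u < d ∧ d < v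

theorem not_sep (hS : SH) {J : Type} [LinearOrder J] [DenselyOrdered J] [Nontrivial J]
    (h : ¬ Sep J) : ∃ (T : Set J) (v : T → J), ¬ T.Countable ∧ (∀ t, t.1 < v t) ∧
      ∀ t t', t < t' → v t ≤ t'.1 := by
  letI : TopologicalSpace J := Preorder.topology J
  haveI : OrderTopology J := ⟨rfl⟩
  by_contra hn
  haveI := hS J fun S h1 h2 => by
    by_contra h3
    choose u v h4 h5 using fun U : S => (h1 U.1 U.2).1.exists_Ioo_subset (h1 U.1 U.2).2
    have h6 : ∀ U V : S, U ≠ V → u U ≤ u V → v U ≤ u V := fun U V h6 h7 => by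
      by_contra h8
      obtain ⟨x, h9, h10⟩ := exists_between (lt_min (not_le.1 h8) (h4 V))
      exact disjoint_left.1 (h2 U.2 V.2 fun e => h6 (Subtype.ext e))
        (h5 U ⟨h7.trans_lt h9, h10.trans_le (min_le_left _ _)⟩)
        (h5 V ⟨h9, h10.trans_le (min_le_right _ _)⟩)
    have h7 : Function.Injective u := fun U V e => by
      by_contra h8
      exact (h6 U V h8 e.le).not_gt (e ▸ h4 U)
    refine hn ⟨range u, fun t => v t.2.choose, fun h8 => h3 ?_, fun t => ?_, fun t t' h8 => ?_⟩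
    · exact countable_coe_iff.1 (countable_univ_iff.1
        (countable_of_injective_of_countable_image h7.injOn (by rwa [image_univ])))
    · exact t.2.choose_spec.symm.trans_lt (h4 _)
    · have h9 : u t.2.choose < u t'.2.choose := by
        rw [t.2.choose_spec, t'.2.choose_spec]; exact h8
      exact (h6 _ _ (fun e => h9.ne (by rw [e])) h9.le).trans t'.2.choose_spec.le
  obtain ⟨D, h1, h2⟩ := TopologicalSpace.exists_countable_dense J
  exact h ⟨D, h1, fun u v huv => h2.exists_between huv⟩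

theorem sep_real {J : Type} [LinearOrder J] [DenselyOrdered J] [NoMinOrder J] [NoMaxOrder J]
    [Nonempty J] (h : Sep J) : ∃ f : J → ℝ, StrictMono f ∧
      ∀ r s : ℝ, r < s → ∃ u v, u < v ∧ f '' Ioo u v ⊆ Ioo r s := by
  obtain ⟨D, h1, h2⟩ := h
  haveI := h1.to_subtype
  have lo : ∀ x : J, ∃ d : D, d.1 < x := fun x => by
    obtain ⟨y, hy⟩ := exists_lt x
    obtain ⟨d, h3, -, h4⟩ := h2 y x hy
    exact ⟨⟨d, h3⟩, h4⟩
  have hi : ∀ x : J, ∃ d : D, x < d.1 := fun x => by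
    obtain ⟨y, hy⟩ := exists_gt x
    obtain ⟨d, h3, h4, -⟩ := h2 x y hy
    exact ⟨⟨d, h3⟩, h4⟩
  haveI : DenselyOrdered D := ⟨fun a b h => by
    obtain ⟨d, h3, h4⟩ := h2 a.1 b.1 h
    exact ⟨⟨d, h3⟩, h4⟩⟩
  haveI : NoMinOrder D := ⟨fun a => lo a.1⟩
  haveI : NoMaxOrder D := ⟨fun a => hi a.1⟩
  haveI : Nonempty D := ⟨(lo (Classical.arbitrary J)).choose⟩
  obtain ⟨e⟩ := Order.iso_of_countable_dense D ℚ
  let f : J → ℝ := fun x => sSup ((fun d : D => (e d : ℝ)) '' {d | d.1 < x})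
  have hub : ∀ x (d : D), x < d.1 → (e d : ℝ) ∈ upperBounds ((fun d : D => (e d : ℝ)) '' {d | d.1 < x}) := by
    rintro x d h _ ⟨d', h', rfl⟩
    exact Rat.cast_le.2 (e.monotone (show d'.1 ≤ d.1 from le_of_lt (lt_trans h' h)))
  have hA : ∀ x (d : D), d.1 < x → (e d : ℝ) ≤ f x := fun x d h =>
    le_csSup ⟨_, hub x _ (hi x).choose_spec⟩ ⟨d, h, rfl⟩
  have hB : ∀ x (d : D), x < d.1 → f x ≤ e d := fun x d h =>
    csSup_le ⟨_, _, (lo x).choose_spec, rfl⟩ (hub x d h)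
  refine ⟨f, fun x y h => ?_, fun r s h => ?_⟩
  · obtain ⟨d, h3, h4, h5⟩ := h2 x y h
    obtain ⟨d', h6, h7, h8⟩ := h2 d y h5
    exact ((hB x ⟨d, h3⟩ h4).trans_lt (Rat.cast_lt.2 (e.strictMono h7))).trans_le (hA y ⟨d', h6⟩ h8)
  · obtain ⟨p, h3, h4⟩ := exists_rat_btwn h
    obtain ⟨q, h5, h6⟩ := exists_rat_btwn h4
    refine ⟨e.symm p, e.symm q, e.symm.strictMono (Rat.cast_lt.1 h5), ?_⟩
    rintro _ ⟨x, hx, rfl⟩
    exact ⟨h3.trans_le (by simpa using hA x _ hx.1), lt_of_le_of_lt (by simpa using hB x _ hx.2) h6⟩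

theorem DenseOne.inC {A : Set ℝ} (h : DenseOne A) : InC A := by
  have h1 : ∀ r s : ℝ, r < s → ∃ x : A, r < x.1 ∧ x.1 < s := fun r s hrs => by
    obtain ⟨x, hx⟩ := ne_of_mk (h r s hrs)
    exact ⟨⟨x, hx.1⟩, hx.2⟩
  refine ⟨?_, fun a b hab => ?_, fun x _ _ => ?_, fun x _ _ => ?_⟩
  · obtain ⟨x, -, hx⟩ := h1 0 1 zero_lt_one
    obtain ⟨y, hy, -⟩ := h1 1 2 one_lt_two
    exact ⟨x, y, ne_of_lt (hx.trans hy)⟩
  · rw [← h a.1 b.1 hab, ← Subtype.image_preimage_coe, mk_image_eq Subtype.val_injective]; rfl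
  · choose y h2 h3 using fun n : ℕ => h1 (x.1 - 1 / (n + 1)) x.1
      (sub_lt_self _ Nat.one_div_pos_of_nat)
    refine ⟨range y, range_subset_iff.2 h3, countable_range _,
      forall_mem_range.2 fun n => (h3 n).le, fun t ht => ?_⟩
    by_contra hn
    obtain ⟨n, hn⟩ := exists_nat_one_div_lt (sub_pos.2 (show t.1 < x.1 from not_le.1 hn))
    have : (y n).1 ≤ t.1 := ht (mem_range_self n)
    linarith [h2 n]
  · choose y h2 h3 using fun n : ℕ => h1 x.1 (x.1 + 1 / (n + 1))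
      (lt_add_of_pos_right _ Nat.one_div_pos_of_nat)
    refine ⟨range y, range_subset_iff.2 h2, countable_range _,
      forall_mem_range.2 fun n => (h2 n).le, fun t ht => ?_⟩
    by_contra hn
    obtain ⟨n, hn⟩ := exists_nat_one_div_lt (sub_pos.2 (show x.1 < t.1 from not_le.1 hn))
    have : t.1 ≤ (y n).1 := ht (mem_range_self n)
    linarith [h3 n]

theorem sep_case {L : Type} [LinearOrder L] (h : InC L) {a b : L} (hab : a < b)
    (hs : Sep (Ioo a b)) : ∃ A, DenseOne A ∧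
      ∀ (X : Type) [LinearOrder X], Nonempty (X ≃o A) → ∃ g : X → L, LotsEmb g := by
  haveI := h.dense
  haveI : Nonempty (Ioo a b) := (nonempty_Ioo.2 hab).to_subtype
  obtain ⟨f, h1, h2⟩ := sep_real hs
  refine ⟨range f, fun r s hrs => le_antisymm ?_ ?_, ?_⟩
  · exact (mk_le_mk_of_subset inter_subset_left).trans (mk_range_le.trans (h.2.1 a b hab).le)
  · obtain ⟨u, v, h3, h4⟩ := h2 r s hrs
    refine le_trans ?_ (mk_le_mk_of_subset (subset_inter (image_subset_range _ _) h4))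
    rw [mk_image_eq h1.injective, ← h.2.1 u.1 v.1 h3, ← mk_image_eq Subtype.val_injective]
    exact mk_le_mk_of_subset fun x hx =>
      ⟨⟨x, u.2.1.trans hx.1, hx.2.trans v.2.2⟩, hx, rfl⟩
  · rintro X _ ⟨e⟩
    let g : X → L := fun x => ((h1.orderIso f).symm (e x)).1
    have hg : StrictMono g := fun x y h => (h1.orderIso f).symm.strictMono (e.strictMono h)
    have hr : range g = Ioo a b := by
      refine Subset.antisymm (range_subset_iff.2 fun x => Subtype.prop _) fun x hx => ?_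
      exact ⟨e.symm (h1.orderIso f ⟨x, hx⟩), by
        simp only [g, OrderIso.apply_symm_apply, OrderIso.symm_apply_apply]⟩
    letI : TopologicalSpace L := Preorder.topology L
    haveI : OrderTopology L := ⟨rfl⟩
    letI : TopologicalSpace X := Preorder.topology X
    haveI : OrderTopology X := ⟨rfl⟩
    exact ⟨g, hg.injective, hg.monotone,
      (hg.isEmbedding_of_ordConnected (hr ▸ ordConnected_Ioo)).continuous⟩

theorem main (h1 : FiniteBasisLO) (h2 : SH) (h3 : BA) : FiniteBasisC := by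
  classical
  obtain ⟨I, _, Z, _, hZ1, hZ2⟩ := h1
  let P := PLift (∃ A, DenseOne A)
  refine ⟨{i // #(Z i) = ℵ₁} ⊕ P, inferInstance,
    Sum.elim (fun i => B (Z i.1)) fun p => p.down.choose,
    fun i => match i with
      | .inl i => (inferInstance : LinearOrder (B (Z i.1)))
      | .inr p => (inferInstance : LinearOrder p.down.choose), ?_, fun L _ hL => ?_⟩
  · rintro (i | p)
    exacts [B_inC i.2, p.down.choose_spec.inC]
  by_cases hs : ∃ a b : L, a < b ∧ Sep (Ioo a b)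
  · obtain ⟨a, b, hab, hs⟩ := hs
    obtain ⟨A, h4, h5⟩ := sep_case hL hab hs
    have p : ∃ A, DenseOne A := ⟨A, h4⟩
    exact ⟨.inr ⟨p⟩, h5 p.choose (h3 _ _ p.choose_spec h4)⟩
  haveI := hL.dense
  haveI := hL.1
  obtain ⟨i, a0, b0, h4, h5⟩ := pigeon (L := L) (fun (i : {i // #(Z i) = ℵ₁}) a b => Rich (Z i.1) a b)
    (fun i a b a' b' h4 h5 ⟨u, v, h6, h7⟩ =>
      ⟨u, v, fun z => ⟨h4.trans (h6 z).1, (h6 z).2.1, (h6 z).2.2.trans h5⟩, h7⟩) fun a b hab => by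
    obtain ⟨c, h4, h5⟩ := exists_between hab
    obtain ⟨d, h6, h7⟩ := exists_between h5
    haveI : Nontrivial (Ioo a b) := ⟨⟨c, h4, h5⟩, ⟨d, h4.trans h6, h7⟩,
      fun e => h6.ne (congrArg Subtype.val e)⟩
    obtain ⟨T, v, h8, h9, h10⟩ := not_sep h2 fun h => hs ⟨a, b, hab, h⟩
    obtain ⟨i, ⟨e⟩⟩ := hZ2 T (not_countable_iff.1 fun h => h8 (countable_coe_iff.1 h))
    refine ⟨⟨i, le_antisymm (((mk_le_of_injective e.injective).trans (mk_set_le _)).trans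
      (hL.2.1 a b hab).le) ?_⟩, fun z => (e z).1.1, fun z => (v (e z)).1,
      fun z => ⟨(e z).1.2.1.le, h9 _, (v (e z)).2.2.le⟩, fun z w h => h10 _ _ (e.strictMono h)⟩
    haveI := hZ1 i
    rw [← succ_aleph0]
    exact Order.succ_le_of_lt (aleph0_lt_mk (α := Z i))
  haveI := hZ1 i.1
  exact ⟨.inl i, rich_emb hL h4 h5⟩

end Pool.Agent.H57.Bas
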