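import Mathlib

set_option autoImplicit false

namespace Pool.Agent.H57.Bas

open Cardinal Set

/-- An injective, order-preserving map that is continuous for the open interval topologies. -/
def LotsEmb {A B : Type} [LinearOrder A] [LinearOrder B] (f : A → B) : Prop :=
  Function.Injective f ∧ Monotone f ∧ @Continuous A B (Preorder.topology A) (Preorder.topology B) f

/-- The class `C`: `ℵ₁`-dense linear orders in which every point that is a limit from the left
(from the right) is the supremum (infimum) of countably many smaller (larger) points. -/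
def InC (L : Type) [LinearOrder L] : Prop :=
  Nontrivial L ∧ (∀ a b : L, a < b → #(Ioo a b) = ℵ₁) ∧
  (∀ x : L, (Iio x).Nonempty → IsLUB (Iio x) x → ∃ S ⊆ Iio x, S.Countable ∧ IsLUB S x) ∧
  (∀ x : L, (Ioi x).Nonempty → IsGLB (Ioi x) x → ∃ S ⊆ Ioi x, S.Countable ∧ IsGLB S x)

/-- `C` has a finite basis under LOTS embeddings. -/
def FiniteBasisC : Prop :=
  ∃ (I : Type) (_ : Finite I) (B : I → Type) (_ : ∀ i, LinearOrder (B i)),
    (∀ i, InC (B i)) ∧ ∀ (L : Type) [LinearOrder L], InC L → ∃ i, ∃ f : B i → L, LotsEmb f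

/-- The uncountable linear orders have a finite basis under order embeddings. -/
def FiniteBasisLO : Prop :=
  ∃ (I : Type) (_ : Finite I) (Z : I → Type) (_ : ∀ i, LinearOrder (Z i)),
    (∀ i, Uncountable (Z i)) ∧
      ∀ (L : Type) [LinearOrder L], Uncountable L → ∃ i, Nonempty (Z i ↪o L)

/-- Suslin's hypothesis: every ccc linearly ordered space is separable. -/
def SH : Prop :=
  ∀ (L : Type) [LinearOrder L] [TopologicalSpace L] [OrderTopology L],
    (∀ S : Set (Set L), (∀ U ∈ S, IsOpen U ∧ U.Nonempty) → S.PairwiseDisjoint id → S.Countable) →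
      TopologicalSpace.SeparableSpace L

/-- a set of reals meeting every nonempty open interval of `ℝ` in exactly `ℵ₁` points -/
def DenseOne (A : Set ℝ) : Prop := ∀ r s : ℝ, r < s → #(A ∩ Ioo r s : Set ℝ) = ℵ₁

/-- Baumgartner's axiom -/
def BA : Prop := ∀ A B : Set ℝ, DenseOne A → DenseOne B → Nonempty (A ≃o B)

end Pool.Agent.H57.Bas
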