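import Mathlib

set_option autoImplicit false

namespace Pool.Agent.H57.Cent

open MeasureTheory Measure Set Metric Module
open scoped RealInnerProductSpace Pointwise

section General

variable {E : Type} [NormedAddCommGroup E] [InnerProductSpace ℝ E] [FiniteDimensional ℝ E]
  [MeasurableSpace E] [BorelSpace E]

/-- The surface measure of the unit sphere. -/
noncomputable abbrev sig (E : Type) [NormedAddCommGroup E] [InnerProductSpace ℝ E]
    [FiniteDimensional ℝ E] [MeasurableSpace E] [BorelSpace E] : Measure (sphere (0 : E) 1) :=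
  (volume : Measure E).toSphere

lemma polar [Nontrivial E] (f : E → ℝ) (hf : Integrable f) :
    ∫ x, f x = ∫ v : sphere (0 : E) 1,
      (∫ r in Ioi (0 : ℝ), r ^ (finrank ℝ E - 1) * f (r • (v : E))) ∂(sig E) := by
  have hmp := (volume : Measure E).measurePreserving_homeomorphUnitSphereProd
  have hemb : MeasurableEmbedding (homeomorphUnitSphereProd E) := Homeomorph.measurableEmbedding _
  set g : sphere (0 : E) 1 × Ioi (0 : ℝ) → ℝ := fun p => f (p.2.1 • (p.1 : E)) with hg
  have hgf : ∀ x : ({(0)}ᶜ : Set E), g (homeomorphUnitSphereProd E x) = f x.1 := by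
    intro x
    have hx : ‖x.1‖ ≠ 0 := norm_ne_zero_iff.2 x.2
    simp [hg, smul_smul, mul_inv_cancel₀ hx]
  have hint : Integrable g ((sig E).prod (volumeIoiPow (finrank ℝ E - 1))) := by
    rw [← hmp.integrable_comp_emb hemb]
    have h1 : IntegrableOn f ({(0)}ᶜ : Set E) := hf.integrableOn
    rw [integrableOn_iff_comap_subtypeVal (measurableSet_singleton _).compl] at h1
    refine h1.congr (Filter.Eventually.of_forall fun x => ?_)
    simp [hgf]
  calc ∫ x, f x = ∫ x : ({(0)}ᶜ : Set E), f x.1 ∂((volume : Measure E).comap (↑)) := by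
        rw [integral_subtype_comap (measurableSet_singleton _).compl f, restrict_compl_singleton]
    _ = ∫ x : ({(0)}ᶜ : Set E), g (homeomorphUnitSphereProd E x)
          ∂((volume : Measure E).comap (↑)) := by simp only [hgf]
    _ = ∫ p, g p ∂((sig E).prod (volumeIoiPow (finrank ℝ E - 1))) := hmp.integral_comp hemb g
    _ = ∫ v, (∫ r, g (v, r) ∂(volumeIoiPow (finrank ℝ E - 1))) ∂(sig E) := integral_prod g hint
    _ = _ := by
      refine integral_congr_ae (Filter.Eventually.of_forall fun v => ?_)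
      simp only [Measure.volumeIoiPow, ENNReal.ofReal, hg]
      rw [integral_withDensity_eq_integral_smul,
        integral_subtype_comap measurableSet_Ioi
          fun a ↦ Real.toNNReal (a ^ (finrank ℝ E - 1)) • f (a • (v : E)),
        setIntegral_congr_fun measurableSet_Ioi fun x hx ↦ ?_]
      · rw [NNReal.smul_def, Real.coe_toNNReal _ (pow_nonneg hx.out.le _), smul_eq_mul]
      · exact (measurable_subtype_coe.pow_const _).real_toNNReal

/-- A linear isometry restricted to the unit sphere. -/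
noncomputable def sphMap (R : E ≃ₗᵢ[ℝ] E) : sphere (0 : E) 1 ≃ₜ sphere (0 : E) 1 where
  toFun v := ⟨R v, by simp⟩
  invFun v := ⟨R.symm v, by simp⟩
  left_inv v := by simp
  right_inv v := by simp
  continuous_toFun := by fun_prop
  continuous_invFun := by fun_prop

lemma sphMap_pres (R : E ≃ₗᵢ[ℝ] E) : MeasurePreserving (sphMap R) (sig E) (sig E) := by
  refine ⟨(sphMap R).measurable, ?_⟩
  ext s hs
  rw [map_apply (sphMap R).measurable hs, toSphere_apply' _ hs,
    toSphere_apply' _ ((sphMap R).measurable hs)]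
  congr 1
  have : (Ioo (0 : ℝ) 1 • ((↑) '' (sphMap R ⁻¹' s) : Set E)) =
      R ⁻¹' (Ioo (0 : ℝ) 1 • ((↑) '' s : Set E)) := by
    ext x
    simp only [mem_preimage, mem_smul, mem_image]
    constructor
    · rintro ⟨c, hc, y, ⟨v, hv, rfl⟩, rfl⟩
      exact ⟨c, hc, R v, ⟨sphMap R v, hv, rfl⟩, by simp⟩
    · rintro ⟨c, hc, y, ⟨v, hv, rfl⟩, h⟩
      refine ⟨c, hc, R.symm v, ⟨(sphMap R).symm v, by simpa using hv, rfl⟩, ?_⟩
      apply R.injective
      simp [← h]
  rw [this]
  exact R.measurePreserving.measure_preimage_emb R.toHomeomorph.measurableEmbedding _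

lemma sph_comp (R : E ≃ₗᵢ[ℝ] E) (g : E → ℝ) :
    ∫ v : sphere (0 : E) 1, g (R v) ∂(sig E) = ∫ v : sphere (0 : E) 1, g v ∂(sig E) :=
  (sphMap_pres R).integral_comp (sphMap R).measurableEmbedding (fun v => g v)

lemma sph_int {g : E → ℝ} (hg : Continuous g) :
    Integrable (fun v : sphere (0 : E) 1 => g v) (sig E) :=
  (hg.comp continuous_subtype_val).integrable_of_hasCompactSupport
    (HasCompactSupport.of_compactSpace _)

lemma sph_lin (w : E) : ∫ v : sphere (0 : E) 1, ⟪w, (v : E)⟫ ∂(sig E) = 0 := by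
  have h := sph_comp (LinearIsometryEquiv.neg ℝ (E := E)) (fun x => ⟪w, x⟫)
  simp only [LinearIsometryEquiv.coe_neg, inner_neg_right, integral_neg] at h
  linarith

lemma sph_orth (e w : E) (h : ⟪e, w⟫ = 0) :
    ∫ v : sphere (0 : E) 1, ⟪e, (v : E)⟫ ^ 11 * ⟪w, (v : E)⟫ ∂(sig E) = 0 := by
  set R : E ≃ₗᵢ[ℝ] E := (ℝ ∙ w)ᗮ.reflection with hR
  have hRe : R e = e := by
    apply Submodule.reflection_mem_subspace_eq_self
    rw [Submodule.mem_orthogonal_singleton_iff_inner_left]
    exact h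
  have hRw : R w = -w := Submodule.reflection_orthogonalComplement_singleton_eq_neg w
  have h1 := sph_comp R (fun x => ⟪e, x⟫ ^ 11 * ⟪w, x⟫)
  have h2 : ∀ x : E, ⟪e, R x⟫ = ⟪e, x⟫ := fun x => by
    conv_lhs => rw [← hRe]
    exact R.inner_map_map e x
  have h3 : ∀ x : E, ⟪w, R x⟫ = -⟪w, x⟫ := fun x => by
    have : w = R (-w) := by rw [map_neg, hRw, neg_neg]
    conv_lhs => rw [this]
    rw [R.inner_map_map, inner_neg_left]
  simp only [h2, h3, mul_neg, integral_neg] at h1
  linarith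

lemma sph_unit (a b : E) (hab : ‖a‖ = ‖b‖) :
    ∫ v : sphere (0 : E) 1, ⟪a, (v : E)⟫ ^ 12 ∂(sig E) =
      ∫ v : sphere (0 : E) 1, ⟪b, (v : E)⟫ ^ 12 ∂(sig E) := by
  set R : E ≃ₗᵢ[ℝ] E := (ℝ ∙ (a - b))ᗮ.reflection with hR
  have hRa : R a = b := Submodule.reflection_sub hab
  rw [← sph_comp R (fun x => ⟪b, x⟫ ^ 12)]
  simp only [← hRa, R.inner_map_map]

lemma sph_pos [Nontrivial E] (b : E) (hb : ‖b‖ = 1) :
    0 < ∫ v : sphere (0 : E) 1, ⟪b, (v : E)⟫ ^ 12 ∂(sig E) := by
  have hc : Continuous fun x : E => ⟪b, x⟫ ^ 12 := by fun_prop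
  rw [integral_pos_iff_support_of_nonneg (fun v => by positivity) (sph_int hc)]
  have h1 := toSphereBallBound_mul_measure_unitBall_le_toSphere_ball (volume : Measure E)
    (ε := 1) one_pos (⟨b, by simpa using hb⟩ : sphere (0 : E) 1)
  refine lt_of_lt_of_le ?_ (h1.trans (measure_mono ?_))
  · exact ENNReal.mul_pos (by simpa using (toSphereBallBound_pos _ _).ne')
      (measure_ball_pos _ _ one_pos).ne'
  · intro v hv
    rw [mem_ball, Subtype.dist_eq, dist_eq_norm] at hv
    simp only [Function.mem_support, ne_eq]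
    intro h0
    have h0' : ⟪b, (v : E)⟫ = 0 := pow_eq_zero_iff (by norm_num) |>.1 h0
    have hv1 : ‖(v : E)‖ = 1 := by simp
    have := norm_sub_sq_real (v : E) b
    rw [real_inner_comm, h0', hv1, hb] at this
    have h2 : 0 ≤ ‖(v : E) - b‖ := norm_nonneg _
    nlinarith

lemma ridge [Nontrivial E] : ∃ κ : ℝ, 0 < κ ∧ ∀ e w : E,
    ∫ v : sphere (0 : E) 1, ⟪e, (v : E)⟫ ^ 11 * ⟪w, (v : E)⟫ ∂(sig E) =
      κ * ((‖e‖ ^ 2) ^ 5 * ⟪e, w⟫) := by
  obtain ⟨b, hb⟩ : ∃ b : E, ‖b‖ = 1 := exists_norm_eq E zero_le_one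
  refine ⟨_, sph_pos b hb, fun e w => ?_⟩
  by_cases he : e = 0
  · simp [he]
  have hn : ‖e‖ ≠ 0 := norm_ne_zero_iff.2 he
  set c : ℝ := ⟪e, w⟫ / ‖e‖ ^ 2 with hc
  have ho : ⟪e, w - c • e⟫ = 0 := by
    rw [inner_sub_right, inner_smul_right, real_inner_self_eq_norm_sq, hc]
    field_simp
    ring
  have h1 := sph_orth e _ ho
  have h2 := sph_unit e (‖e‖ • b) (by rw [norm_smul, hb]; simp)
  have e1 : ∀ x : E, ⟪e, x⟫ ^ 11 * ⟪w, x⟫ = ⟪e, x⟫ ^ 11 * ⟪w - c • e, x⟫ + c * ⟪e, x⟫ ^ 12 := by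
    intro x
    rw [inner_sub_left, inner_smul_left]
    simp only [conj_trivial]
    ring
  simp only [e1]
  rw [integral_add (sph_int (g := fun x => ⟪e, x⟫ ^ 11 * ⟪w - c • e, x⟫) (by fun_prop))
    (sph_int (g := fun x => c * ⟪e, x⟫ ^ 12) (by fun_prop)), h1, integral_const_mul, h2]
  simp only [inner_smul_left, conj_trivial, mul_pow]
  rw [integral_const_mul, hc]
  field_simp
  ring

end General

end Pool.Agent.H57.Cent
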