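import Pool.Agent.H57.Cent1

set_option autoImplicit false

namespace Pool.Agent.H57.Cent

open MeasureTheory Measure Set Metric Module
open scoped RealInnerProductSpace Pointwise

section Alg

variable {E : Type} [NormedAddCommGroup E] [InnerProductSpace ℝ E] {ι : Type} [Fintype ι]

/-- A sum of eleventh powers of linear forms. -/
noncomputable def P (l : ι → ℝ) (e : ι → E) (x : E) : ℝ := ∑ j, l j * ⟪e j, x⟫ ^ 11

/-- The size of the coefficients. -/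
noncomputable def Lam (l : ι → ℝ) (e : ι → E) : ℝ := ∑ j, |l j| * ‖e j‖ ^ 11

/-- The star body whose radial function cubed is `1 + ε P`. -/
def body (ε : ℝ) (l : ι → ℝ) (e : ι → E) : Set E :=
  {x | ‖x‖ ^ 14 - ‖x‖ ^ 11 ≤ ε * P l e x}

lemma P_cont (l : ι → ℝ) (e : ι → E) : Continuous (P l e) := by
  unfold P; fun_prop

lemma P_bound (l : ι → ℝ) (e : ι → E) (x : E) : |P l e x| ≤ Lam l e * ‖x‖ ^ 11 := by
  unfold P Lam
  rw [Finset.sum_mul]
  refine (Finset.abs_sum_le_sum_abs _ _).trans (Finset.sum_le_sum fun j _ => ?_)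
  rw [abs_mul, abs_pow, mul_assoc, ← mul_pow]
  gcongr
  exact abs_real_inner_le_norm _ _

omit [InnerProductSpace ℝ E] in
lemma Lam_nonneg (l : ι → ℝ) (e : ι → E) : 0 ≤ Lam l e := by
  unfold Lam; positivity

lemma P_smul (l : ι → ℝ) (e : ι → E) (r : ℝ) (x : E) : P l e (r • x) = r ^ 11 * P l e x := by
  unfold P
  rw [Finset.mul_sum]
  refine Finset.sum_congr rfl fun j _ => ?_
  rw [inner_smul_right]; ring

lemma epsP_bound {ε : ℝ} {l : ι → ℝ} {e : ι → E} (h0 : 0 ≤ ε) (h1 : ε * Lam l e ≤ 1 / 100)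
    (x : E) : |ε * P l e x| ≤ 1 / 100 * ‖x‖ ^ 11 := by
  rw [abs_mul, abs_of_nonneg h0]
  calc ε * |P l e x| ≤ ε * (Lam l e * ‖x‖ ^ 11) := by gcongr; exact P_bound l e x
    _ = (ε * Lam l e) * ‖x‖ ^ 11 := by ring
    _ ≤ _ := by gcongr

lemma body_closed (ε : ℝ) (l : ι → ℝ) (e : ι → E) : IsClosed (body ε l e) :=
  isClosed_le (by fun_prop) (continuous_const.mul (P_cont l e))

lemma body_sub {ε : ℝ} {l : ι → ℝ} {e : ι → E} (h0 : 0 ≤ ε) (h1 : ε * Lam l e ≤ 1 / 100) :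
    body ε l e ⊆ closedBall 0 2 := by
  intro x hx
  rw [mem_closedBall_zero_iff]
  by_contra h
  push Not at h
  have h2 := (abs_le.1 (epsP_bound h0 h1 x)).2
  have hx' : ‖x‖ ^ 14 - ‖x‖ ^ 11 ≤ ε * P l e x := hx
  have h3 : (2 : ℝ) ^ 3 ≤ ‖x‖ ^ 3 := by gcongr
  have h4 : 0 < ‖x‖ ^ 11 := by positivity
  have h5 : ‖x‖ ^ 14 = ‖x‖ ^ 3 * ‖x‖ ^ 11 := by ring
  nlinarith

lemma sub_body {ε : ℝ} {l : ι → ℝ} {e : ι → E} (h0 : 0 ≤ ε) (h1 : ε * Lam l e ≤ 1 / 100) :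
    ball 0 (1 / 2) ⊆ body ε l e := by
  intro x hx
  rw [mem_ball_zero_iff] at hx
  have h2 := (abs_le.1 (epsP_bound h0 h1 x)).1
  show ‖x‖ ^ 14 - ‖x‖ ^ 11 ≤ ε * P l e x
  have h3 : ‖x‖ ^ 3 ≤ (1 / 2 : ℝ) ^ 3 := by gcongr
  have h4 : 0 ≤ ‖x‖ ^ 11 := by positivity
  have h5 : ‖x‖ ^ 14 = ‖x‖ ^ 3 * ‖x‖ ^ 11 := by ring
  nlinarith

/-- The radial function. -/
noncomputable def rad (ε : ℝ) (l : ι → ℝ) (e : ι → E) (v : E) : ℝ :=
  (1 + ε * P l e v) ^ ((1 : ℝ) / 3)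

lemma base_pos {ε : ℝ} {l : ι → ℝ} {e : ι → E} (h0 : 0 ≤ ε) (h1 : ε * Lam l e ≤ 1 / 100)
    {v : E} (hv : ‖v‖ = 1) : 0 < 1 + ε * P l e v := by
  have h2 := (abs_le.1 (epsP_bound h0 h1 v)).1
  rw [hv] at h2
  linarith

lemma rad_pos {ε : ℝ} {l : ι → ℝ} {e : ι → E} (h0 : 0 ≤ ε) (h1 : ε * Lam l e ≤ 1 / 100)
    {v : E} (hv : ‖v‖ = 1) : 0 < rad ε l e v := Real.rpow_pos_of_pos (base_pos h0 h1 hv) _

lemma rad_cube {ε : ℝ} {l : ι → ℝ} {e : ι → E} (h0 : 0 ≤ ε) (h1 : ε * Lam l e ≤ 1 / 100)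
    {v : E} (hv : ‖v‖ = 1) : rad ε l e v ^ 3 = 1 + ε * P l e v := by
  unfold rad
  rw [← Real.rpow_natCast, ← Real.rpow_mul (base_pos h0 h1 hv).le]
  norm_num

lemma mem_body_smul {ε : ℝ} {l : ι → ℝ} {e : ι → E} (h0 : 0 ≤ ε) (h1 : ε * Lam l e ≤ 1 / 100)
    {v : E} (hv : ‖v‖ = 1) {r : ℝ} (hr : 0 < r) : r • v ∈ body ε l e ↔ r ≤ rad ε l e v := by
  show ‖r • v‖ ^ 14 - ‖r • v‖ ^ 11 ≤ ε * P l e (r • v) ↔ _
  rw [norm_smul, hv, mul_one, Real.norm_eq_abs, abs_of_pos hr, P_smul,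
    ← pow_le_pow_iff_left₀ hr.le (rad_pos h0 h1 hv).le (three_ne_zero), rad_cube h0 h1 hv]
  have h4 : 0 < r ^ 11 := by positivity
  have h5 : r ^ 14 = r ^ 3 * r ^ 11 := by ring
  rw [h5]
  constructor
  · intro h
    by_contra h'
    push Not at h'
    nlinarith
  · intro h
    nlinarith

lemma body_convex {ε : ℝ} {l : ι → ℝ} {e : ι → E} (h0 : 0 ≤ ε) (h1 : ε * Lam l e ≤ 1 / 100) :
    Convex ℝ (body ε l e) := by
  rw [convex_iff_add_mem]
  intro x hx y hy a b ha hb hab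
  by_cases hxy : y = x
  · rw [hxy, ← add_smul, hab, one_smul]; exact hx
  set d : E := y - x with hd
  have hd0 : 0 < ‖d‖ := norm_pos_iff.2 (sub_ne_zero.2 hxy)
  set z : ℝ → E := fun t => x + t • d with hz
  set θ : ℝ → ℝ := fun t => ‖z t‖ ^ 14 - ‖z t‖ ^ 11 - ε * P l e (z t) with hθ
  have hzc : Continuous z := by fun_prop
  have hθc : Continuous θ := by
    have := (P_cont l e).comp hzc
    simp only [hθ]
    exact ((hzc.norm.pow 14).sub (hzc.norm.pow 11)).sub (continuous_const.mul this)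
  have hθ0 : θ 0 ≤ 0 := by
    have : ‖x‖ ^ 14 - ‖x‖ ^ 11 ≤ ε * P l e x := hx
    simp only [hθ, hz, zero_smul, add_zero]; linarith
  have hθ1 : θ 1 ≤ 0 := by
    have : ‖y‖ ^ 14 - ‖y‖ ^ 11 ≤ ε * P l e y := hy
    simp only [hθ, hz, hd, one_smul, add_sub_cancel]; linarith
  have hzb : a • x + b • y = z b := by
    simp only [hz, hd]
    have : a = 1 - b := by linarith
    rw [this]; module
  rw [hzb]
  show ‖z b‖ ^ 14 - ‖z b‖ ^ 11 ≤ ε * P l e (z b)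
  by_contra hcon
  have hb1 : b ≤ 1 := by linarith
  have hθb : 0 < θ b := by simp only [hθ]; linarith
  obtain ⟨t, ht, hmax⟩ := isCompact_Icc.exists_isMaxOn (nonempty_Icc.2 zero_le_one)
    (hθc.continuousOn (s := Icc (0 : ℝ) 1))
  have hθt : 0 < θ t := lt_of_lt_of_le hθb (hmax ⟨hb, hb1⟩)
  have ht0 : 0 < t := lt_of_le_of_ne ht.1 (by rintro rfl; linarith)
  have ht1 : t < 1 := lt_of_le_of_ne ht.2 (by rintro rfl; linarith)
  -- the open set where `θ` is positive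
  have hU : IsOpen ({s | 0 < θ s} ∩ Ioo (0 : ℝ) 1) :=
    (isOpen_lt continuous_const hθc).inter isOpen_Ioo
  obtain ⟨δ, hδ, hball⟩ := Metric.isOpen_iff.1 hU t ⟨hθt, ht0, ht1⟩
  have hbig : ∀ s, 0 < θ s → 99 / 100 < ‖z s‖ ^ 3 := by
    intro s hs
    have h2 := (abs_le.1 (epsP_bound h0 h1 (z s))).1
    simp only [hθ] at hs
    have h5 : ‖z s‖ ^ 14 = ‖z s‖ ^ 3 * ‖z s‖ ^ 11 := by ring
    have h4 : 0 ≤ ‖z s‖ ^ 11 := by positivity
    by_contra h'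
    push Not at h'
    nlinarith
  have hpos : ∀ s, 0 < θ s → 0 < ‖z s‖ := by
    intro s hs
    have := hbig s hs
    rcases (norm_nonneg (z s)).lt_or_eq with h | h
    · exact h
    · rw [← h] at this; norm_num at this
  have hdz : ∀ s, HasDerivAt z d s := fun s => by
    simpa [hz] using ((hasDerivAt_id s).smul_const d).const_add x
  have hdi : ∀ (c : E) s, HasDerivAt (fun s => ⟪c, z s⟫) ⟪c, d⟫ s := fun c s => by
    simpa using (hasDerivAt_const s c).inner ℝ (hdz s)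
  have hdn : ∀ s, 0 < ‖z s‖ → HasDerivAt (fun s => ‖z s‖) (⟪d, z s⟫ / ‖z s‖) s := by
    intro s hs
    have h1 : HasDerivAt (fun s => ‖z s‖ ^ 2) (2 * ⟪z s, d⟫) s := (hdz s).norm_sq
    have h2 := h1.sqrt (by positivity)
    simp only [Real.sqrt_sq (norm_nonneg _)] at h2
    convert h2 using 1
    rw [real_inner_comm]; field_simp
  set θ1 : ℝ → ℝ := fun s => (14 * ‖z s‖ ^ 12 - 11 * ‖z s‖ ^ 9) * ⟪d, z s⟫ -
    ε * ∑ j, l j * (11 * ⟪e j, z s⟫ ^ 10 * ⟪e j, d⟫) with hθ1d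
  set θ2 : ℝ → ℝ := fun s => (168 * ‖z s‖ ^ 10 - 99 * ‖z s‖ ^ 7) * ⟪d, z s⟫ ^ 2 +
    (14 * ‖z s‖ ^ 12 - 11 * ‖z s‖ ^ 9) * ‖d‖ ^ 2 -
    ε * ∑ j, l j * (110 * ⟪e j, z s⟫ ^ 9 * ⟪e j, d⟫ ^ 2) with hθ2d
  have hD1 : ∀ s, 0 < θ s → HasDerivAt θ (θ1 s) s := by
    intro s hs
    have hn := hpos s hs
    have hA := ((hdn s hn).pow 14).sub ((hdn s hn).pow 11)
    have hB : HasDerivAt (fun s => P l e (z s))
        (∑ j, l j * (11 * ⟪e j, z s⟫ ^ 10 * ⟪e j, d⟫)) s := by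
      unfold P
      refine HasDerivAt.fun_sum fun j _ => ?_
      simpa using ((hdi (e j) s).pow 11).const_mul (l j)
    refine (hA.sub (hB.const_mul ε)).congr_deriv ?_
    simp only [hθ1d, Nat.cast_ofNat, Nat.add_one_sub_one]
    field_simp
    try ring
  have hD2 : ∀ s, 0 < θ s → HasDerivAt θ1 (θ2 s) s := by
    intro s hs
    have hn := hpos s hs
    have hA := ((((hdn s hn).pow 12).const_mul 14).sub (((hdn s hn).pow 9).const_mul 11)).mul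
      (hdi d s)
    have hB : HasDerivAt (fun s => ∑ j, l j * (11 * ⟪e j, z s⟫ ^ 10 * ⟪e j, d⟫))
        (∑ j, l j * (110 * ⟪e j, z s⟫ ^ 9 * ⟪e j, d⟫ ^ 2)) s := by
      refine HasDerivAt.fun_sum fun j _ => ?_
      refine (((((hdi (e j) s).pow 10).const_mul 11).mul_const ⟪e j, d⟫).const_mul
        (l j)).congr_deriv ?_
      simp only [Nat.cast_ofNat, Nat.add_one_sub_one]
      ring
    refine (hA.sub (hB.const_mul ε)).congr_deriv ?_
    simp only [hθ2d, real_inner_self_eq_norm_sq, Nat.cast_ofNat, Nat.add_one_sub_one,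
      Pi.sub_apply, Pi.pow_apply]
    field_simp
    ring_nf
  have hP2 : ∀ s, 0 < θ s → 0 < θ2 s := by
    intro s hs
    have hn := hpos s hs
    have h3 := hbig s hs
    have hS : |∑ j, l j * (110 * ⟪e j, z s⟫ ^ 9 * ⟪e j, d⟫ ^ 2)| ≤
        Lam l e * (110 * ‖z s‖ ^ 9 * ‖d‖ ^ 2) := by
      unfold Lam
      rw [Finset.sum_mul]
      refine (Finset.abs_sum_le_sum_abs _ _).trans (Finset.sum_le_sum fun j _ => ?_)
      rw [abs_mul, abs_mul, abs_mul, abs_pow, abs_pow]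
      have a1 := abs_real_inner_le_norm (e j) (z s)
      have a2 := abs_real_inner_le_norm (e j) d
      calc |l j| * (|(110 : ℝ)| * |⟪e j, z s⟫| ^ 9 * |⟪e j, d⟫| ^ 2)
          ≤ |l j| * (|(110 : ℝ)| * (‖e j‖ * ‖z s‖) ^ 9 * (‖e j‖ * ‖d‖) ^ 2) := by gcongr
        _ = _ := by rw [abs_of_pos (by norm_num : (0 : ℝ) < 110)]; ring
    have hS2 : ε * ∑ j, l j * (110 * ⟪e j, z s⟫ ^ 9 * ⟪e j, d⟫ ^ 2) ≤
        1 / 100 * (110 * ‖z s‖ ^ 9 * ‖d‖ ^ 2) := by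
      calc _ ≤ ε * (Lam l e * (110 * ‖z s‖ ^ 9 * ‖d‖ ^ 2)) := by
            gcongr; exact (le_abs_self _).trans hS
        _ = (ε * Lam l e) * (110 * ‖z s‖ ^ 9 * ‖d‖ ^ 2) := by ring
        _ ≤ _ := by gcongr
    have hq1 : 0 ≤ (168 * ‖z s‖ ^ 10 - 99 * ‖z s‖ ^ 7) * ⟪d, z s⟫ ^ 2 := by
      have : 168 * ‖z s‖ ^ 10 - 99 * ‖z s‖ ^ 7 = ‖z s‖ ^ 7 * (168 * ‖z s‖ ^ 3 - 99) := by ring
      rw [this]
      have : 0 ≤ 168 * ‖z s‖ ^ 3 - 99 := by linarith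
      positivity
    have hq2 : 0 < ‖z s‖ ^ 9 * ‖d‖ ^ 2 := by positivity
    have hq3 : (14 * ‖z s‖ ^ 12 - 11 * ‖z s‖ ^ 9) * ‖d‖ ^ 2 =
        (14 * ‖z s‖ ^ 3 - 11) * (‖z s‖ ^ 9 * ‖d‖ ^ 2) := by ring
    simp only [hθ2d]
    rw [hq3]
    nlinarith
  have hIoo : ∀ s ∈ Ioo (t - δ) (t + δ), 0 < θ s ∧ s ∈ Ioo (0 : ℝ) 1 := by
    intro s hs
    apply hball
    rw [mem_ball, Real.dist_eq, abs_lt]
    constructor <;> linarith [hs.1, hs.2]
  have hconv : StrictConvexOn ℝ (Ioo (t - δ) (t + δ)) θ := by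
    refine strictConvexOn_of_deriv2_pos (convex_Ioo _ _) hθc.continuousOn fun s hs => ?_
    rw [interior_Ioo] at hs
    have hev : deriv θ =ᶠ[nhds s] θ1 := by
      filter_upwards [isOpen_Ioo.mem_nhds hs] with u hu
      exact (hD1 u (hIoo u hu).1).deriv
    show 0 < deriv (deriv θ) s
    rw [hev.deriv_eq, (hD2 s (hIoo s hs).1).deriv]
    exact hP2 s (hIoo s hs).1
  have m1 : t - δ / 2 ∈ Ioo (t - δ) (t + δ) := ⟨by linarith, by linarith⟩
  have m2 : t + δ / 2 ∈ Ioo (t - δ) (t + δ) := ⟨by linarith, by linarith⟩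
  have hlt := hconv.2 m1 m2 (by intro h; linarith) (by norm_num : (0 : ℝ) < 1 / 2)
    (by norm_num : (0 : ℝ) < 1 / 2) (by norm_num)
  have e1 : (1 / 2 : ℝ) • (t - δ / 2) + (1 / 2 : ℝ) • (t + δ / 2) = t := by
    simp only [smul_eq_mul]; ring
  rw [e1] at hlt
  have b1 : θ (t - δ / 2) ≤ θ t := hmax (Ioo_subset_Icc_self (hIoo _ m1).2)
  have b2 : θ (t + δ / 2) ≤ θ t := hmax (Ioo_subset_Icc_self (hIoo _ m2).2)
  simp only [smul_eq_mul] at hlt
  linarith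

end Alg

section Meas

variable {E : Type} [NormedAddCommGroup E] [InnerProductSpace ℝ E] [FiniteDimensional ℝ E]
  [MeasurableSpace E] [BorelSpace E] {ι : Type} [Fintype ι]

omit [MeasurableSpace E] [BorelSpace E] in
lemma body_compact {ε : ℝ} {l : ι → ℝ} {e : ι → E} (h0 : 0 ≤ ε) (h1 : ε * Lam l e ≤ 1 / 100) :
    IsCompact (body ε l e) :=
  (isCompact_closedBall 0 2).of_isClosed_subset (body_closed ε l e) (body_sub h0 h1)

lemma moment [Nontrivial E] {ε : ℝ} {l : ι → ℝ} {e : ι → E} (h0 : 0 ≤ ε)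
    (h1 : ε * Lam l e ≤ 1 / 100) (w : E) :
    ∫ x in body ε l e, ⟪w, x⟫ = ∫ v : sphere (0 : E) 1,
      rad ε l e v ^ (finrank ℝ E + 1) / (finrank ℝ E + 1) * ⟪w, (v : E)⟫ ∂(sig E) := by
  have hm : MeasurableSet (body ε l e) := (body_closed ε l e).measurableSet
  have hi : IntegrableOn (fun x => ⟪w, x⟫) (body ε l e) :=
    (by fun_prop : Continuous fun x : E => ⟪w, x⟫).continuousOn.integrableOn_compact
      (body_compact h0 h1)
  rw [← integral_indicator hm, polar _ ((integrable_indicator_iff hm).2 hi)]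
  refine integral_congr_ae (Filter.Eventually.of_forall fun v => ?_)
  have hv : ‖(v : E)‖ = 1 := by simp
  have hr := rad_pos h0 h1 hv
  obtain ⟨n, hn⟩ : ∃ n, finrank ℝ E = n + 1 := Nat.exists_eq_succ_of_ne_zero finrank_pos.ne'
  have e1 : ∀ r ∈ Ioi (0 : ℝ), r ^ (finrank ℝ E - 1) *
      (body ε l e).indicator (fun x => ⟪w, x⟫) (r • (v : E)) =
      (Iic (rad ε l e v)).indicator (fun r => r ^ (finrank ℝ E) * ⟪w, (v : E)⟫) r := by
    intro r hr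
    by_cases h : r ≤ rad ε l e v
    · rw [indicator_of_mem ((mem_body_smul h0 h1 hv hr).2 h), indicator_of_mem (mem_Iic.2 h),
        inner_smul_right, hn]
      simp only [Nat.add_sub_cancel]
      ring
    · rw [indicator_of_notMem (fun h' => h ((mem_body_smul h0 h1 hv hr).1 h')),
        indicator_of_notMem (fun h' => h (mem_Iic.1 h')), mul_zero]
  simp only
  rw [setIntegral_congr_fun measurableSet_Ioi e1, setIntegral_indicator measurableSet_Iic,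
    Ioi_inter_Iic, ← intervalIntegral.integral_of_le hr.le, intervalIntegral.integral_mul_const,
    integral_pow]
  simp

end Meas

end Pool.Agent.H57.Cent
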