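import Pool.Agent.H57.Cent2

set_option autoImplicit false

namespace Pool.Agent.H57.Cent

open MeasureTheory Measure Set Metric Module
open scoped RealInnerProductSpace Pointwise

variable {E : Type} [NormedAddCommGroup E] [InnerProductSpace ℝ E] [FiniteDimensional ℝ E]
  [MeasurableSpace E] [BorelSpace E] {ι : Type} [Fintype ι]

/-- First moment of a ridge sum, up to a positive constant. -/
noncomputable def Mom (l : ι → ℝ) (e : ι → E) (w : E) : ℝ :=
  ∑ j, l j * ((‖e j‖ ^ 2) ^ 5 * ⟪e j, w⟫)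

lemma P_moment [Nontrivial E] : ∃ κ : ℝ, 0 < κ ∧ ∀ (l : ι → ℝ) (e : ι → E) (w : E),
    ∫ v : sphere (0 : E) 1, P l e v * ⟪w, (v : E)⟫ ∂(sig E) = κ * Mom l e w := by
  obtain ⟨κ, hκ, h⟩ := ridge (E := E)
  refine ⟨κ, hκ, fun l e w => ?_⟩
  unfold P Mom
  simp only [Finset.sum_mul, mul_assoc]
  rw [integral_finsetSum _ (fun j _ =>
    sph_int (g := fun x => l j * (⟪e j, x⟫ ^ 11 * ⟪w, x⟫)) (by fun_prop)), Finset.mul_sum]
  refine Finset.sum_congr rfl fun j _ => ?_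
  rw [integral_const_mul, h]
  ring

lemma moment2 (hE : finrank ℝ E = 2) : ∃ κ : ℝ, 0 < κ ∧ ∀ (ε : ℝ) (l : ι → ℝ) (e : ι → E),
    0 ≤ ε → ε * Lam l e ≤ 1 / 100 → ∀ w : E,
      ∫ x in body ε l e, ⟪w, x⟫ = ε * κ * Mom l e w := by
  have : Nontrivial E := Module.nontrivial_of_finrank_pos (R := ℝ) (by omega)
  obtain ⟨κ, hκ, h⟩ := P_moment (E := E) (ι := ι)
  refine ⟨κ / 3, by positivity, fun ε l e h0 h1 w => ?_⟩
  rw [moment h0 h1, hE]
  have e1 : ∀ v : sphere (0 : E) 1, rad ε l e v ^ (2 + 1) / ((2 : ℕ) + 1) * ⟪w, (v : E)⟫ =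
      1 / 3 * ⟪w, (v : E)⟫ + ε / 3 * (P l e v * ⟪w, (v : E)⟫) := by
    intro v
    rw [rad_cube h0 h1 (by simp)]
    push_cast
    ring
  simp only [e1]
  have hc := P_cont l e
  rw [integral_add (sph_int (g := fun x => 1 / 3 * ⟪w, x⟫) (by fun_prop))
    (sph_int (g := fun x => ε / 3 * (P l e x * ⟪w, x⟫)) (by fun_prop)), integral_const_mul,
    integral_const_mul, sph_lin, h]
  ring

lemma quartic {y : ℝ} (hy : 0 ≤ y) : |y ^ 4 - 1 - 4 / 3 * (y ^ 3 - 1)| ≤ (y ^ 3 - 1) ^ 2 := by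
  have e1 : y ^ 4 - 1 - 4 / 3 * (y ^ 3 - 1) = (y - 1) ^ 2 * (y ^ 2 + 2 / 3 * y + 1 / 3) := by ring
  have e2 : (y ^ 3 - 1) ^ 2 = (y - 1) ^ 2 * (y ^ 2 + y + 1) ^ 2 := by ring
  rw [e1, e2, abs_of_nonneg (by positivity)]
  gcongr
  nlinarith [sq_nonneg y, mul_nonneg hy (sq_nonneg y), sq_nonneg (y ^ 2)]

lemma ivt (hE : finrank ℝ E = 3) (l δ : ι → ℝ) (e : ι → E) (m : E) (s1 : ℝ) (hs1 : 0 ≤ s1)
    (hneg : Mom l e m < 0) (hpos : 0 < Mom (fun j => l j + s1 * δ j) e m) :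
    ∃ ε : ℝ, 0 < ε ∧ ∃ s : ℝ, 0 ≤ s ∧ ε * Lam (fun j => l j + s * δ j) e ≤ 1 / 100 ∧
      ∫ x in body ε (fun j => l j + s * δ j) e, ⟪m, x⟫ = 0 := by
  have : Nontrivial E := Module.nontrivial_of_finrank_pos (R := ℝ) (by omega)
  obtain ⟨κ, hκ, h⟩ := P_moment (E := E) (ι := ι)
  set L : ℝ := ∑ j, (|l j| + s1 * |δ j|) * ‖e j‖ ^ 11 + 1 with hL
  have hL0 : 0 < L := by positivity
  have hLam : ∀ s ∈ Icc 0 s1, Lam (fun j => l j + s * δ j) e ≤ L := by
    intro s hs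
    unfold Lam
    have : ∑ j, |l j + s * δ j| * ‖e j‖ ^ 11 ≤ ∑ j, (|l j| + s1 * |δ j|) * ‖e j‖ ^ 11 := by
      refine Finset.sum_le_sum fun j _ => ?_
      gcongr
      refine (abs_add_le _ _).trans ?_
      rw [abs_mul, abs_of_nonneg hs.1]
      gcongr
      exact hs.2
    linarith
  set C : ℝ := ‖m‖ * (sig E).real univ with hC
  have hC0 : 0 ≤ C := by positivity
  set μ : ℝ := κ * min (-Mom l e m) (Mom (fun j => l j + s1 * δ j) e m) with hμ
  have hμ0 : 0 < μ := mul_pos hκ (lt_min (by linarith) hpos)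
  set ε : ℝ := min (1 / (100 * L)) (μ / (L ^ 2 * (C + 1))) with hε
  have hε0 : 0 < ε := lt_min (by positivity) (by positivity)
  have hsmall : ∀ s ∈ Icc 0 s1, ε * Lam (fun j => l j + s * δ j) e ≤ 1 / 100 := by
    intro s hs
    calc ε * Lam (fun j => l j + s * δ j) e ≤ (1 / (100 * L)) * L :=
          mul_le_mul (min_le_left _ _) (hLam s hs) (Lam_nonneg _ _) (by positivity)
      _ = 1 / 100 := by field_simp
  set G : ℝ → ℝ := fun s => ∫ v : sphere (0 : E) 1,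
    rad ε (fun j => l j + s * δ j) e v ^ 4 * ⟪m, (v : E)⟫ ∂(sig E) with hG
  have hGc : Continuous G := by
    have := continuous_parametric_integral_of_continuous (μ := sig E)
      (f := fun (s : ℝ) (v : sphere (0 : E) 1) =>
        rad ε (fun j => l j + s * δ j) e v ^ 4 * ⟪m, (v : E)⟫) (by
          unfold rad P
          refine Continuous.mul (Continuous.pow (Continuous.rpow_const ?_
            (fun _ => Or.inr (by norm_num))) 4) ?_
          · fun_prop
          · fun_prop) isCompact_univ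
    simpa using this
  have hest : ∀ s ∈ Icc 0 s1,
      |G s - 4 / 3 * ε * (κ * Mom (fun j => l j + s * δ j) e m)| ≤ ε * μ := by
    intro s hs
    set l' : ι → ℝ := fun j => l j + s * δ j with hl'
    have hc := P_cont l' e
    have hrc : Continuous fun x : E => rad ε l' e x := by
      unfold rad
      exact Continuous.rpow_const (by fun_prop) (fun _ => Or.inr (by norm_num))
    have e1 : G s - 4 / 3 * ε * (κ * Mom l' e m) = ∫ v : sphere (0 : E) 1,
        (rad ε l' e v ^ 4 - 1 - 4 / 3 * (ε * P l' e v)) * ⟪m, (v : E)⟫ ∂(sig E) := by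
      have e2 : ∀ x : E, (rad ε l' e x ^ 4 - 1 - 4 / 3 * (ε * P l' e x)) * ⟪m, x⟫ =
          rad ε l' e x ^ 4 * ⟪m, x⟫ - ⟪m, x⟫ - 4 / 3 * ε * (P l' e x * ⟪m, x⟫) := fun x => by ring
      simp only [e2]
      rw [integral_sub (sph_int (g := fun x => rad ε l' e x ^ 4 * ⟪m, x⟫ - ⟪m, x⟫) (by fun_prop))
        (sph_int (g := fun x => 4 / 3 * ε * (P l' e x * ⟪m, x⟫)) (by fun_prop)),
        integral_sub (sph_int (g := fun x => rad ε l' e x ^ 4 * ⟪m, x⟫) (by fun_prop))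
        (sph_int (g := fun x => ⟪m, x⟫) (by fun_prop)), integral_const_mul, sph_lin, h]
      simp only [hG, sub_zero, hl']
    rw [e1]
    have hb : ∀ v : sphere (0 : E) 1,
        ‖(rad ε l' e v ^ 4 - 1 - 4 / 3 * (ε * P l' e v)) * ⟪m, (v : E)⟫‖ ≤ (ε * L) ^ 2 * ‖m‖ := by
      intro v
      have hv : ‖(v : E)‖ = 1 := by simp
      have q := quartic (rad_pos hε0.le (hsmall s hs) hv).le
      rw [rad_cube hε0.le (hsmall s hs) hv, add_sub_cancel_left] at q
      have q2 : |P l' e v| ≤ L := by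
        have := P_bound l' e (v : E)
        rw [hv, one_pow, mul_one] at this
        exact this.trans (hLam s hs)
      have q3 : (ε * P l' e v) ^ 2 ≤ (ε * L) ^ 2 := by
        rw [mul_pow, mul_pow, ← sq_abs (P l' e v)]
        gcongr
      have q4 : |⟪m, (v : E)⟫| ≤ ‖m‖ := by
        simpa [hv] using abs_real_inner_le_norm m (v : E)
      rw [Real.norm_eq_abs, abs_mul]
      exact mul_le_mul (q.trans q3) q4 (abs_nonneg _) (by positivity)
    have := norm_integral_le_of_norm_le_const (μ := sig E) (Filter.Eventually.of_forall hb)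
    rw [Real.norm_eq_abs] at this
    refine this.trans ?_
    have h2 : ε ≤ μ / (L ^ 2 * (C + 1)) := min_le_right _ _
    rw [le_div_iff₀ (by positivity)] at h2
    have e3 : (ε * L) ^ 2 * ‖m‖ * (sig E).real univ = ε * (ε * (L ^ 2 * C)) := by
      rw [hC]; ring
    rw [e3]
    gcongr
    refine le_trans ?_ h2
    gcongr
    linarith
  have hG0 : G 0 ≤ 0 := by
    have h1 := (abs_le.1 (hest 0 ⟨le_rfl, hs1⟩)).2
    simp only [zero_mul, add_zero] at h1
    have h2 : μ ≤ κ * (-Mom l e m) := mul_le_mul_of_nonneg_left (min_le_left _ _) hκ.le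
    have h3 : ε * μ ≤ ε * (κ * (-Mom l e m)) := by gcongr
    have h4 : 0 ≤ ε * (κ * (-Mom l e m)) := by
      have : 0 ≤ -Mom l e m := by linarith
      positivity
    change G 0 - 4 / 3 * ε * (κ * Mom l e m) ≤ ε * μ at h1
    nlinarith
  have hG1 : 0 ≤ G s1 := by
    have h1 := (abs_le.1 (hest s1 ⟨hs1, le_rfl⟩)).1
    have h2 : μ ≤ κ * Mom (fun j => l j + s1 * δ j) e m :=
      mul_le_mul_of_nonneg_left (min_le_right _ _) hκ.le
    have h3 : ε * μ ≤ ε * (κ * Mom (fun j => l j + s1 * δ j) e m) := by gcongr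
    have h4 : 0 ≤ ε * (κ * Mom (fun j => l j + s1 * δ j) e m) := by positivity
    nlinarith
  obtain ⟨s, hs, hs0⟩ := intermediate_value_Icc hs1 hGc.continuousOn ⟨hG0, hG1⟩
  refine ⟨ε, hε0, s, hs.1, hsmall s hs, ?_⟩
  rw [moment hε0.le (hsmall s hs), hE]
  have e1 : ∀ v : sphere (0 : E) 1,
      rad ε (fun j => l j + s * δ j) e v ^ (3 + 1) / ((3 : ℕ) + 1) * ⟪m, (v : E)⟫ =
      1 / 4 * (rad ε (fun j => l j + s * δ j) e v ^ 4 * ⟪m, (v : E)⟫) := by
    intro v
    push_cast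
    ring
  simp only [e1]
  rw [integral_const_mul]
  simp only [hG] at hs0
  rw [hs0, mul_zero]

end Pool.Agent.H57.Cent
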