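import Mathlib

set_option autoImplicit false

namespace Pool.Agent.H57.Cent

/-- Auxiliary polynomial. -/
noncomputable def pa (σ : ℝ) : ℝ := (-272756 : ℝ) * σ ^ 0 + (1168605 : ℝ) * σ ^ 1 + (-2466185 : ℝ) * σ ^ 2 + (2276883 : ℝ) * σ ^ 3 + (-837135 : ℝ) * σ ^ 4 + (109956 : ℝ) * σ ^ 5
/-- Auxiliary polynomial. -/
noncomputable def pb (σ : ℝ) : ℝ := (24564 : ℝ) * σ ^ 0 + (12924 : ℝ) * σ ^ 1 + (-912 : ℝ) * σ ^ 2 + (-376 : ℝ) * σ ^ 3 + (3950 : ℝ) * σ ^ 4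
/-- Auxiliary polynomial. -/
noncomputable def pb1 (σ : ℝ) : ℝ := (25848 : ℝ) * σ ^ 0 + (-3648 : ℝ) * σ ^ 1 + (-2256 : ℝ) * σ ^ 2 + (31600 : ℝ) * σ ^ 3
/-- Auxiliary polynomial. -/
noncomputable def pc (σ : ℝ) : ℝ := (5090 : ℝ) * σ ^ 0 + (-2195 : ℝ) * σ ^ 1 + (6858 : ℝ) * σ ^ 2
/-- Auxiliary polynomial. -/
noncomputable def pc1 (σ : ℝ) : ℝ := (5090 : ℝ) * σ ^ 0 + (-6585 : ℝ) * σ ^ 1 + (34290 : ℝ) * σ ^ 2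
/-- Auxiliary polynomial. -/
noncomputable def AA (σ : ℝ) : ℝ :=
  4 * σ * pc σ ^ 2 * pa σ - 2 * σ * pc σ * pb1 σ * pb σ + pc1 σ * pb σ ^ 2
/-- Auxiliary polynomial. -/
noncomputable def DD (σ : ℝ) : ℝ := pb σ ^ 2 - 8 * σ * pc σ ^ 2 * (3 - σ) ^ 3
/-- Auxiliary binary form. -/
noncomputable def GG (x z : ℝ) : ℝ := (1220 : ℝ) * x ^ 0 * z ^ 10 + (460 : ℝ) * x ^ 1 * z ^ 9 + (274032 : ℝ) * x ^ 2 * z ^ 8 + (1486864 : ℝ) * x ^ 3 * z ^ 7 + (-3274280 : ℝ) * x ^ 4 * z ^ 6 + (-28383856 : ℝ) * x ^ 5 * z ^ 5 + (-10980168 : ℝ) * x ^ 6 * z ^ 4 + (124913280 : ℝ) * x ^ 7 * z ^ 3 + (185514352 : ℝ) * x ^ 8 * z ^ 2 + (68970816 : ℝ) * x ^ 9 * z ^ 1 + (7657024 : ℝ) * x ^ 10 * z ^ 0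

lemma AA_pos (σ : ℝ) (h0 : (0 : ℝ) ≤ σ) (h1 : σ ≤ (9 / 4 : ℝ)) : 0 < AA σ := by
  rcases le_total σ (1 / 4 : ℝ) with h | h0
  · have hu : 0 ≤ σ - (0 : ℝ) := by linarith
    have hv : 0 ≤ (1 / 4 : ℝ) - σ := by linarith
    have e : AA σ = 1 + ((3220444900112728064 : ℝ) * (σ - (0 : ℝ)) ^ 0 * ((1 / 4 : ℝ) - σ) ^ 10 + (22905813934937210880 : ℝ) * (σ - (0 : ℝ)) ^ 1 * ((1 / 4 : ℝ) - σ) ^ 9 + (71909074776295997440 : ℝ) * (σ - (0 : ℝ)) ^ 2 * ((1 / 4 : ℝ) - σ) ^ 8 + (130119873350907461632 : ℝ) * (σ - (0 : ℝ)) ^ 3 * ((1 / 4 : ℝ) - σ) ^ 7 + (148588086281077080064 : ℝ) * (σ - (0 : ℝ)) ^ 4 * ((1 / 4 : ℝ) - σ) ^ 6 + (110088696493859794944 : ℝ) * (σ - (0 : ℝ)) ^ 5 * ((1 / 4 : ℝ) - σ) ^ 5 + (52349569436328754176 : ℝ) * (σ - (0 : ℝ)) ^ 6 * ((1 / 4 : ℝ) - σ) ^ 4 + (15286588912023195904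 : ℝ) * (σ - (0 : ℝ)) ^ 7 * ((1 / 4 : ℝ) - σ) ^ 3 + (2589525608771681920 : ℝ) * (σ - (0 : ℝ)) ^ 8 * ((1 / 4 : ℝ) - σ) ^ 2 + (287525376099992752 : ℝ) * (σ - (0 : ℝ)) ^ 9 * ((1 / 4 : ℝ) - σ) ^ 1 + (31816574094518584 : ℝ) * (σ - (0 : ℝ)) ^ 10 * ((1 / 4 : ℝ) - σ) ^ 0) := by
      unfold AA pa pb pb1 pc pc1; ring
    rw [e]; positivity
  rcases le_total σ (1 / 2 : ℝ) with h | h0
  · have hu : 0 ≤ σ - (1 / 4 : ℝ) := by linarith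
    have hv : 0 ≤ (1 / 2 : ℝ) - σ := by linarith
    have e : AA σ = 1 + ((31816574094518584 : ℝ) * (σ - (1 / 4 : ℝ)) ^ 0 * ((1 / 2 : ℝ) - σ) ^ 10 + (348806105790378928 : ℝ) * (σ - (1 / 4 : ℝ)) ^ 1 * ((1 / 2 : ℝ) - σ) ^ 9 + (3141052175985157504 : ℝ) * (σ - (1 / 4 : ℝ)) ^ 2 * ((1 / 2 : ℝ) - σ) ^ 8 + (15286077800662599168 : ℝ) * (σ - (1 / 4 : ℝ)) ^ 3 * ((1 / 2 : ℝ) - σ) ^ 7 + (42050829068819699456 : ℝ) * (σ - (1 / 4 : ℝ)) ^ 4 * ((1 / 2 : ℝ) - σ) ^ 6 + (71057836142462772736 : ℝ) * (σ - (1 / 4 : ℝ)) ^ 5 * ((1 / 2 : ℝ) - σ) ^ 5 + (77011513375152271360 : ℝ) * (σ - (1 / 4 : ℝ)) ^ 6 * ((1 / 2 : ℝ) - σ) ^ 4 + (53874323320026759168 : ℝ) * (σ - (1 / 4 : ℝ)) ^ 7 * ((1 / 2 : ℝ) - σ) ^ 3 + (23556993166172395520 : ℝ) * (σ - (1 / 4 : ℝ)) ^ 8 * ((1 / 2 : ℝ) - σ) ^ 2 + (5857161845523378176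 : ℝ) * (σ - (1 / 4 : ℝ)) ^ 9 * ((1 / 2 : ℝ) - σ) ^ 1 + (632020363094949888 : ℝ) * (σ - (1 / 4 : ℝ)) ^ 10 * ((1 / 2 : ℝ) - σ) ^ 0) := by
      unfold AA pa pb pb1 pc pc1; ring
    rw [e]; positivity
  rcases le_total σ (3 / 4 : ℝ) with h | h0
  · have hu : 0 ≤ σ - (1 / 2 : ℝ) := by linarith
    have hv : 0 ≤ (3 / 4 : ℝ) - σ := by linarith
    have e : AA σ = 1 + ((632020363094949888 : ℝ) * (σ - (1 / 2 : ℝ)) ^ 0 * ((3 / 4 : ℝ) - σ) ^ 10 + (6783245416375619584 : ℝ) * (σ - (1 / 2 : ℝ)) ^ 1 * ((3 / 4 : ℝ) - σ) ^ 9 + (31891745303842568192 : ℝ) * (σ - (1 / 2 : ℝ)) ^ 2 * ((3 / 4 : ℝ) - σ) ^ 8 + (86345810154517004288 : ℝ) * (σ - (1 / 2 : ℝ)) ^ 3 * ((3 / 4 : ℝ) - σ) ^ 7 + (148729881313407430656 : ℝ) * (σ - (1 / 2 : ℝ)) ^ 4 * ((3 / 4 : ℝ) - σ) ^ 6 + (169744031344895400448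 : ℝ) * (σ - (1 / 2 : ℝ)) ^ 5 * ((3 / 4 : ℝ) - σ) ^ 5 + (129462205504784358144 : ℝ) * (σ - (1 / 2 : ℝ)) ^ 6 * ((3 / 4 : ℝ) - σ) ^ 4 + (64890639246444347904 : ℝ) * (σ - (1 / 2 : ℝ)) ^ 7 * ((3 / 4 : ℝ) - σ) ^ 3 + (20440083068252342656 : ℝ) * (σ - (1 / 2 : ℝ)) ^ 8 * ((3 / 4 : ℝ) - σ) ^ 2 + (3700197573468740176 : ℝ) * (σ - (1 / 2 : ℝ)) ^ 9 * ((3 / 4 : ℝ) - σ) ^ 1 + (308007691172567000 : ℝ) * (σ - (1 / 2 : ℝ)) ^ 10 * ((3 / 4 : ℝ) - σ) ^ 0) := by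
      unfold AA pa pb pb1 pc pc1; ring
    rw [e]; positivity
  rcases le_total σ (1 : ℝ) with h | h0
  · have hu : 0 ≤ σ - (3 / 4 : ℝ) := by linarith
    have hv : 0 ≤ (1 : ℝ) - σ := by linarith
    have e : AA σ = 1 + ((308007691172567000 : ℝ) * (σ - (3 / 4 : ℝ)) ^ 0 * ((1 : ℝ) - σ) ^ 10 + (2459956249982599824 : ℝ) * (σ - (3 / 4 : ℝ)) ^ 1 * ((1 : ℝ) - σ) ^ 9 + (9277911156877079488 : ℝ) * (σ - (3 / 4 : ℝ)) ^ 2 * ((1 : ℝ) - σ) ^ 8 + (25009622791758869248 : ℝ) * (σ - (3 / 4 : ℝ)) ^ 3 * ((1 : ℝ) - σ) ^ 7 + (58655632667657586688 : ℝ) * (σ - (3 / 4 : ℝ)) ^ 4 * ((1 : ℝ) - σ) ^ 6 + (114321666090841276416 : ℝ) * (σ - (3 / 4 : ℝ)) ^ 5 * ((1 : ℝ) - σ) ^ 5 + (162962698723061366784 : ℝ) * (σ - (3 / 4 : ℝ)) ^ 6 * ((1 : ℝ) - σ) ^ 4 + (156291729064468873216 : ℝ) * (σ -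 (3 / 4 : ℝ)) ^ 7 * ((1 : ℝ) - σ) ^ 3 + (94598317916746153984 : ℝ) * (σ - (3 / 4 : ℝ)) ^ 8 * ((1 : ℝ) - σ) ^ 2 + (32594014315689803776 : ℝ) * (σ - (3 / 4 : ℝ)) ^ 9 * ((1 : ℝ) - σ) ^ 1 + (4874439866079772672 : ℝ) * (σ - (3 / 4 : ℝ)) ^ 10 * ((1 : ℝ) - σ) ^ 0) := by
      unfold AA pa pb pb1 pc pc1; ring
    rw [e]; positivity
  rcases le_total σ (2 : ℝ) with h | h0
  · have hu : 0 ≤ σ - (1 : ℝ) := by linarith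
    have hv : 0 ≤ (2 : ℝ) - σ := by linarith
    have e : AA σ = 1 + ((4648628107147 : ℝ) * (σ - (1 : ℝ)) ^ 0 * ((2 : ℝ) - σ) ^ 10 + (108095108071546 : ℝ) * (σ - (1 : ℝ)) ^ 1 * ((2 : ℝ) - σ) ^ 9 + (1078029021438139 : ℝ) * (σ - (1 : ℝ)) ^ 2 * ((2 : ℝ) - σ) ^ 8 + (6025695096306636 : ℝ) * (σ - (1 : ℝ)) ^ 3 * ((2 : ℝ) - σ) ^ 7 + (20931024170159114 : ℝ) * (σ - (1 : ℝ)) ^ 4 * ((2 : ℝ) - σ) ^ 6 + (47306571312940336 : ℝ) * (σ - (1 : ℝ)) ^ 5 * ((2 : ℝ) - σ) ^ 5 + (70437969139973098 : ℝ) * (σ - (1 : ℝ)) ^ 6 * ((2 : ℝ) - σ) ^ 4 + (67959304406593128 : ℝ) * (σ - (1 : ℝ)) ^ 7 * ((2 : ℝ) - σ) ^ 3 + (40295509558416563 : ℝ) * (σ - (1 : ℝ)) ^ 8 * ((2 : ℝ) - σ) ^ 2 + (13061254109917574 : ℝ) * (σ - (1 : ℝ)) ^ 9 * ((2 : ℝ) - σ) ^ 1 + (1733248368839295 : ℝ) * (σ - (1 : ℝ)) ^ 10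 * ((2 : ℝ) - σ) ^ 0) := by
      unfold AA pa pb pb1 pc pc1; ring
    rw [e]; positivity
  have h := h1
  have hu : 0 ≤ σ - (2 : ℝ) := by linarith
  have hv : 0 ≤ (9 / 4 : ℝ) - σ := by linarith
  have e : AA σ = 1 + ((1817442641604032593920 : ℝ) * (σ - (2 : ℝ)) ^ 0 * ((9 / 4 : ℝ) - σ) ^ 10 + (19294103622660174905344 : ℝ) * (σ - (2 : ℝ)) ^ 1 * ((9 / 4 : ℝ) - σ) ^ 9 + (91910536531563813797888 : ℝ) * (σ - (2 : ℝ)) ^ 2 * ((9 / 4 : ℝ) - σ) ^ 8 + (258661710423550816944128 : ℝ) * (σ - (2 : ℝ)) ^ 3 * ((9 / 4 : ℝ) - σ) ^ 7 + (476137059376430077820928 : ℝ) * (σ - (2 : ℝ)) ^ 4 * ((9 / 4 : ℝ) - σ) ^ 6 + (598850656156955301277696 : ℝ) * (σ - (2 : ℝ)) ^ 5 * ((9 / 4 : ℝ) - σ) ^ 5 + (521014142987419703030784 : ℝ) * (σ - (2 : ℝ)) ^ 6 * ((9 / 4 : ℝ) - σ) ^ 4 + (309509932943376200745216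 : ℝ) * (σ - (2 : ℝ)) ^ 7 * ((9 / 4 : ℝ) - σ) ^ 3 + (120099335556140814621184 : ℝ) * (σ - (2 : ℝ)) ^ 8 * ((9 / 4 : ℝ) - σ) ^ 2 + (27474333685689031126576 : ℝ) * (σ - (2 : ℝ)) ^ 9 * ((9 / 4 : ℝ) - σ) ^ 1 + (2812219758581936238392 : ℝ) * (σ - (2 : ℝ)) ^ 10 * ((9 / 4 : ℝ) - σ) ^ 0) := by
    unfold AA pa pb pb1 pc pc1; ring
  rw [e]; positivity

lemma DD_pos (σ : ℝ) (h0 : (9 / 4 : ℝ) ≤ σ) (h1 : σ ≤ (3 : ℝ)) : 0 < DD σ := by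
  have h := h1
  have hu : 0 ≤ σ - (9 / 4 : ℝ) := by linarith
  have hv : 0 ≤ (3 : ℝ) - σ := by linarith
  have e : DD σ = 1 + ((791417370827108 / 6561 : ℝ) * (σ - (9 / 4 : ℝ)) ^ 0 * ((3 : ℝ) - σ) ^ 8 + (9826038964828672 / 6561 : ℝ) * (σ - (9 / 4 : ℝ)) ^ 1 * ((3 : ℝ) - σ) ^ 7 + (49528075194812288 / 6561 : ℝ) * (σ - (9 / 4 : ℝ)) ^ 2 * ((3 : ℝ) - σ) ^ 6 + (136000194077263360 / 6561 : ℝ) * (σ - (9 / 4 : ℝ)) ^ 3 * ((3 : ℝ) - σ) ^ 5 + (225851144967458816 / 6561 : ℝ) * (σ - (9 / 4 : ℝ)) ^ 4 * ((3 : ℝ) - σ) ^ 4 + (234625514163036160 / 6561 : ℝ) * (σ - (9 / 4 : ℝ)) ^ 5 * ((3 : ℝ) - σ) ^ 3 + (150169281307738112 / 6561 : ℝ) * (σ - (9 / 4 : ℝ)) ^ 6 * ((3 : ℝ) - σ) ^ 2 + (54613094347571200 / 6561 : ℝ) * (σ - (9 / 4 : ℝ)) ^ 7 * ((3 : ℝ) - σ) ^ 1 + (8727493704089600 /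 6561 : ℝ) * (σ - (9 / 4 : ℝ)) ^ 8 * ((3 : ℝ) - σ) ^ 0) := by
    unfold DD pb pc; ring
  rw [e]; positivity

lemma GG_ge (x z : ℝ) (hz : 0 ≤ z) : (2 * x ^ 2 + z ^ 2) ^ 5 ≤ GG x z := by
  rcases le_total x ((-4 : ℝ) * z) with h | h0
  · have hu : 0 ≤ (-4 : ℝ) * z - x := by linarith
    have hv : 0 ≤ z := by linarith
    have e : GG x z = (2 * x ^ 2 + z ^ 2) ^ 5 + ((43097575411 : ℝ) * ((-4 : ℝ) * z - x) ^ 0 * (z) ^ 10 + (93876915812 : ℝ) * ((-4 : ℝ) * z - x) ^ 1 * (z) ^ 9 + (466540937126 : ℝ) * ((-4 : ℝ) * z - x) ^ 2 * (z) ^ 8 + (833224243440 : ℝ) * ((-4 : ℝ) * z - x) ^ 3 * (z) ^ 7 + (729886825456 : ℝ) * ((-4 : ℝ) * z - x) ^ 4 * (z) ^ 6 + (373825977392 : ℝ) * ((-4 : ℝ) * z - x) ^ 5 * (z) ^ 5 + (120454624872 : ℝ) * ((-4 : ℝ) * z - x) ^ 6 * (z) ^ 4 + (24890051968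 : ℝ) * ((-4 : ℝ) * z - x) ^ 7 * (z) ^ 3 + (3215599136 : ℝ) * ((-4 : ℝ) * z - x) ^ 8 * (z) ^ 2 + (237308864 : ℝ) * ((-4 : ℝ) * z - x) ^ 9 * (z) ^ 1 + (7656992 : ℝ) * ((-4 : ℝ) * z - x) ^ 10 * (z) ^ 0) := by
      unfold GG; ring
    rw [e]; exact le_add_of_nonneg_right (by positivity)
  rcases le_total x ((-2 : ℝ) * z) with h | h0
  · have hu : 0 ≤ x - (-4 : ℝ) * z := by linarith
    have hv : 0 ≤ (-2 : ℝ) * z - x := by linarith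
    have e : GG x z = (2 * x ^ 2 + z ^ 2) ^ 5 + ((43097575411 / 1024 : ℝ) * (x - (-4 : ℝ) * z) ^ 0 * ((-2 : ℝ) * z - x) ^ 10 + (121610961243 / 512 : ℝ) * (x - (-4 : ℝ) * z) ^ 1 * ((-2 : ℝ) * z - x) ^ 9 + (2115770157383 / 1024 : ℝ) * (x - (-4 : ℝ) * z) ^ 2 * ((-2 : ℝ) * z - x) ^ 8 + (834510893921 / 128 : ℝ) * (x - (-4 : ℝ) * z) ^ 3 * ((-2 : ℝ) * z - x) ^ 7 + (5274692756331 / 512 : ℝ) * (x - (-4 : ℝ) * z) ^ 4 * ((-2 : ℝ) * z - x) ^ 6 + (2458451801121 / 256 : ℝ) * (x - (-4 : ℝ) * z) ^ 5 * ((-2 : ℝ) * z - x) ^ 5 + (2895980001147 / 512 : ℝ) * (x - (-4 : ℝ) * z) ^ 6 * ((-2 : ℝ) * z - x) ^ 4 + (274087205217 / 128 : ℝ) * (x - (-4 : ℝ) * z) ^ 7 * ((-2 : ℝ) * z - x) ^ 3 + (519679733175 / 1024 : ℝ) * (x - (-4 : ℝ) * z) ^ 8 * ((-2 : ℝ) * z - x) ^ 2 + (35205558363 / 512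 : ℝ) * (x - (-4 : ℝ) * z) ^ 9 * ((-2 : ℝ) * z - x) ^ 1 + (4172815683 / 1024 : ℝ) * (x - (-4 : ℝ) * z) ^ 10 * ((-2 : ℝ) * z - x) ^ 0) := by
      unfold GG; ring
    rw [e]; exact le_add_of_nonneg_right (by positivity)
  rcases le_total x ((-1 : ℝ) * z) with h | h0
  · have hu : 0 ≤ x - (-2 : ℝ) * z := by linarith
    have hv : 0 ≤ (-1 : ℝ) * z - x := by linarith
    have e : GG x z = (2 * x ^ 2 + z ^ 2) ^ 5 + ((4172815683 : ℝ) * (x - (-2 : ℝ) * z) ^ 0 * ((-1 : ℝ) * z - x) ^ 10 + (27386676882 : ℝ) * (x - (-2 : ℝ) * z) ^ 1 * ((-1 : ℝ) * z - x) ^ 9 + (77142483297 : ℝ) * (x - (-2 : ℝ) * z) ^ 2 * ((-1 : ℝ) * z - x) ^ 8 + (123292118520 : ℝ) * (x - (-2 : ℝ) * z) ^ 3 * ((-1 : ℝ) * z - x) ^ 7 + (124486519950 : ℝ) * (x - (-2 : ℝ) * z) ^ 4 * ((-1 : ℝ) * z - x) ^ 6 +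 (83376842748 : ℝ) * (x - (-2 : ℝ) * z) ^ 5 * ((-1 : ℝ) * z - x) ^ 5 + (37663662666 : ℝ) * (x - (-2 : ℝ) * z) ^ 6 * ((-1 : ℝ) * z - x) ^ 4 + (11366332600 : ℝ) * (x - (-2 : ℝ) * z) ^ 7 * ((-1 : ℝ) * z - x) ^ 3 + (2198566799 : ℝ) * (x - (-2 : ℝ) * z) ^ 8 * ((-1 : ℝ) * z - x) ^ 2 + (246625026 : ℝ) * (x - (-2 : ℝ) * z) ^ 9 * ((-1 : ℝ) * z - x) ^ 1 + (12204373 : ℝ) * (x - (-2 : ℝ) * z) ^ 10 * ((-1 : ℝ) * z - x) ^ 0) := by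
      unfold GG; ring
    rw [e]; exact le_add_of_nonneg_right (by positivity)
  rcases le_total x ((-1 / 2 : ℝ) * z) with h | h0
  · have hu : 0 ≤ x - (-1 : ℝ) * z := by linarith
    have hv : 0 ≤ (-1 / 2 : ℝ) * z - x := by linarith
    have e : GG x z = (2 * x ^ 2 + z ^ 2) ^ 5 + ((12497277952 : ℝ) * (x - (-1 : ℝ) * z) ^ 0 * ((-1 / 2 : ℝ) * z - x) ^ 10 + (61187155968 : ℝ) * (x - (-1 : ℝ) * z) ^ 1 * ((-1 / 2 : ℝ) * z - x) ^ 9 + (123510313472 : ℝ) * (x - (-1 : ℝ) * z) ^ 2 * ((-1 / 2 : ℝ) * z - x) ^ 8 + (132471126016 : ℝ) * (x - (-1 : ℝ) * z) ^ 3 * ((-1 / 2 : ℝ) * z - x) ^ 7 + (80661579264 : ℝ) * (x - (-1 : ℝ) * z) ^ 4 * ((-1 / 2 : ℝ) * z - x) ^ 6 + (27430195200 : ℝ) * (x - (-1 : ℝ) * z) ^ 5 * ((-1 / 2 : ℝ) * z - x) ^ 5 + (5123175552 : ℝ) * (x - (-1 : ℝ) *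 z) ^ 6 * ((-1 / 2 : ℝ) * z - x) ^ 4 + (1102007808 : ℝ) * (x - (-1 : ℝ) * z) ^ 7 * ((-1 / 2 : ℝ) * z - x) ^ 3 + (547575552 : ℝ) * (x - (-1 : ℝ) * z) ^ 8 * ((-1 / 2 : ℝ) * z - x) ^ 2 + (158132736 : ℝ) * (x - (-1 : ℝ) * z) ^ 9 * ((-1 / 2 : ℝ) * z - x) ^ 1 + (16352928 : ℝ) * (x - (-1 : ℝ) * z) ^ 10 * ((-1 / 2 : ℝ) * z - x) ^ 0) := by
      unfold GG; ring
    rw [e]; exact le_add_of_nonneg_right (by positivity)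
  rcases le_total x ((-1 / 4 : ℝ) * z) with h | h0
  · have hu : 0 ≤ x - (-1 / 2 : ℝ) * z := by linarith
    have hv : 0 ≤ (-1 / 4 : ℝ) * z - x := by linarith
    have e : GG x z = (2 * x ^ 2 + z ^ 2) ^ 5 + ((16745398272 : ℝ) * (x - (-1 / 2 : ℝ) * z) ^ 0 * ((-1 / 4 : ℝ) * z - x) ^ 10 + (170217013248 : ℝ) * (x - (-1 / 2 : ℝ) * z) ^ 1 * ((-1 / 4 : ℝ) * z - x) ^ 9 + (742637445120 : ℝ) * (x - (-1 / 2 : ℝ) * z) ^ 2 * ((-1 / 4 : ℝ) * z - x) ^ 8 + (1764900569088 : ℝ) * (x - (-1 / 2 : ℝ) * z) ^ 3 * ((-1 / 4 : ℝ) * z - x) ^ 7 + (2527251886080 : ℝ) * (x - (-1 / 2 : ℝ) * z) ^ 4 * ((-1 / 4 : ℝ) * z - x) ^ 6 + (2301661409280 : ℝ) * (x - (-1 / 2 : ℝ) * z) ^ 5 * ((-1 / 4 : ℝ) * z - x) ^ 5 + (1375279819776 : ℝ) * (x - (-1 / 2 : ℝ) * z) ^ 6 * ((-1 / 4 : ℝ) * z - x) ^ 4 +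 (549817870336 : ℝ) * (x - (-1 / 2 : ℝ) * z) ^ 7 * ((-1 / 4 : ℝ) * z - x) ^ 3 + (148324124288 : ℝ) * (x - (-1 / 2 : ℝ) * z) ^ 8 * ((-1 / 4 : ℝ) * z - x) ^ 2 + (25937371008 : ℝ) * (x - (-1 / 2 : ℝ) * z) ^ 9 * ((-1 / 4 : ℝ) * z - x) ^ 1 + (2303216416 : ℝ) * (x - (-1 / 2 : ℝ) * z) ^ 10 * ((-1 / 4 : ℝ) * z - x) ^ 0) := by
      unfold GG; ring
    rw [e]; exact le_add_of_nonneg_right (by positivity)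
  rcases le_total x ((0 : ℝ) * z) with h | h0
  · have hu : 0 ≤ x - (-1 / 4 : ℝ) * z := by linarith
    have hv : 0 ≤ (0 : ℝ) * z - x := by linarith
    have e : GG x z = (2 * x ^ 2 + z ^ 2) ^ 5 + ((2303216416 : ℝ) * (x - (-1 / 4 : ℝ) * z) ^ 0 * ((0 : ℝ) * z - x) ^ 10 + (20126957312 : ℝ) * (x - (-1 / 4 : ℝ) * z) ^ 1 * ((0 : ℝ) * z - x) ^ 9 + (96030401024 : ℝ) * (x - (-1 / 4 : ℝ) * z) ^ 2 * ((0 : ℝ) * z - x) ^ 8 + (299474452480 : ℝ) * (x - (-1 / 4 : ℝ) * z) ^ 3 * ((0 : ℝ) * z - x) ^ 7 + (599025395712 : ℝ) * (x - (-1 / 4 : ℝ) * z) ^ 4 * ((0 : ℝ) * z - x) ^ 6 + (749600227328 : ℝ) * (x - (-1 / 4 : ℝ) * z) ^ 5 * ((0 : ℝ) * z - x) ^ 5 + (577191215104 : ℝ) * (x - (-1 / 4 : ℝ) * z) ^ 6 * ((0 : ℝ) * z - x) ^ 4 + (268350259200 : ℝ) * (x - (-1 / 4 : ℝ) * z) ^ 7 * ((0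 : ℝ) * z - x) ^ 3 + (74392666112 : ℝ) * (x - (-1 / 4 : ℝ) * z) ^ 8 * ((0 : ℝ) * z - x) ^ 2 + (12661555200 : ℝ) * (x - (-1 / 4 : ℝ) * z) ^ 9 * ((0 : ℝ) * z - x) ^ 1 + (1278214144 : ℝ) * (x - (-1 / 4 : ℝ) * z) ^ 10 * ((0 : ℝ) * z - x) ^ 0) := by
      unfold GG; ring
    rw [e]; exact le_add_of_nonneg_right (by positivity)
  rcases le_total x ((1 / 4 : ℝ) * z) with h | h0
  · have hu : 0 ≤ x - (0 : ℝ) * z := by linarith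
    have hv : 0 ≤ (1 / 4 : ℝ) * z - x := by linarith
    have e : GG x z = (2 * x ^ 2 + z ^ 2) ^ 5 + ((1278214144 : ℝ) * (x - (0 : ℝ) * z) ^ 0 * ((1 / 4 : ℝ) * z - x) ^ 10 + (12902727680 : ℝ) * (x - (0 : ℝ) * z) ^ 1 * ((1 / 4 : ℝ) * z - x) ^ 9 + (76563218432 : ℝ) * (x - (0 : ℝ) * z) ^ 2 * ((1 / 4 : ℝ) * z - x) ^ 8 + (325754028032 : ℝ) * (x - (0 : ℝ) * z) ^ 3 * ((1 / 4 : ℝ) * z - x) ^ 7 + (938500620288 : ℝ) * (x - (0 : ℝ) * z) ^ 4 * ((1 / 4 : ℝ) * z - x) ^ 6 + (1745010573312 : ℝ) * (x - (0 : ℝ) * z) ^ 5 * ((1 / 4 : ℝ) * z - x) ^ 5 + (2044017027072 : ℝ) * (x - (0 : ℝ) * z) ^ 6 * ((1 / 4 : ℝ) * z - x) ^ 4 + (1459675054080 : ℝ) * (x - (0 : ℝ) * z) ^ 7 * ((1 / 4 : ℝ) * z - x) ^ 3 + (594530689536 : ℝ) * (x - (0 : ℝ) * z) ^ 8 * ((1 / 4 : ℝ) * z - x) ^ 2 + (121216207104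 : ℝ) * (x - (0 : ℝ) * z) ^ 9 * ((1 / 4 : ℝ) * z - x) ^ 1 + (9676477728 : ℝ) * (x - (0 : ℝ) * z) ^ 10 * ((1 / 4 : ℝ) * z - x) ^ 0) := by
      unfold GG; ring
    rw [e]; exact le_add_of_nonneg_right (by positivity)
  rcases le_total x ((3 / 8 : ℝ) * z) with h | h0
  · have hu : 0 ≤ x - (1 / 4 : ℝ) * z := by linarith
    have hv : 0 ≤ (3 / 8 : ℝ) * z - x := by linarith
    have e : GG x z = (2 * x ^ 2 + z ^ 2) ^ 5 + ((9908713193472 : ℝ) * (x - (1 / 4 : ℝ) * z) ^ 0 * ((3 / 8 : ℝ) * z - x) ^ 10 + (86567999864832 : ℝ) * (x - (1 / 4 : ℝ) * z) ^ 1 * ((3 / 8 : ℝ) * z - x) ^ 9 + (317610643857408 : ℝ) * (x - (1 / 4 : ℝ) * z) ^ 2 * ((3 / 8 : ℝ) * z - x) ^ 8 + (625510173671424 : ℝ) * (x - (1 / 4 : ℝ) * z) ^ 3 * ((3 / 8 : ℝ) * z - x) ^ 7 + (697030598135808 : ℝ) * (x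 - (1 / 4 : ℝ) * z) ^ 4 * ((3 / 8 : ℝ) * z - x) ^ 6 + (432489399029760 : ℝ) * (x - (1 / 4 : ℝ) * z) ^ 5 * ((3 / 8 : ℝ) * z - x) ^ 5 + (196413928129536 : ℝ) * (x - (1 / 4 : ℝ) * z) ^ 6 * ((3 / 8 : ℝ) * z - x) ^ 4 + (212387984328704 : ℝ) * (x - (1 / 4 : ℝ) * z) ^ 7 * ((3 / 8 : ℝ) * z - x) ^ 3 + (241310105959040 : ℝ) * (x - (1 / 4 : ℝ) * z) ^ 8 * ((3 / 8 : ℝ) * z - x) ^ 2 + (133138338333056 : ℝ) * (x - (1 / 4 : ℝ) * z) ^ 9 * ((3 / 8 : ℝ) * z - x) ^ 1 + (27819913609504 : ℝ) * (x - (1 / 4 : ℝ) * z) ^ 10 * ((3 / 8 : ℝ) * z - x) ^ 0) := by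
      unfold GG; ring
    rw [e]; exact le_add_of_nonneg_right (by positivity)
  rcases le_total x ((1 / 2 : ℝ) * z) with h | h0
  · have hu : 0 ≤ x - (3 / 8 : ℝ) * z := by linarith
    have hv : 0 ≤ (1 / 2 : ℝ) * z - x := by linarith
    have e : GG x z = (2 * x ^ 2 + z ^ 2) ^ 5 + ((27819913609504 : ℝ) * (x - (3 / 8 : ℝ) * z) ^ 0 * ((1 / 2 : ℝ) * z - x) ^ 10 + (423259933857024 : ℝ) * (x - (3 / 8 : ℝ) * z) ^ 1 * ((1 / 2 : ℝ) * z - x) ^ 9 + (2852404465674752 : ℝ) * (x - (3 / 8 : ℝ) * z) ^ 2 * ((1 / 2 : ℝ) * z - x) ^ 8 + (11183770056179712 : ℝ) * (x - (3 / 8 : ℝ) * z) ^ 3 * ((1 / 2 : ℝ) * z - x) ^ 7 + (28255660383059968 : ℝ) * (x - (3 / 8 : ℝ) * z) ^ 4 * ((1 / 2 : ℝ) * z - x) ^ 6 + (48123707792162816 : ℝ) * (x - (3 / 8 : ℝ) * z) ^ 5 * ((1 / 2 : ℝ) * z - x)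 ^ 5 + (56041514110550016 : ℝ) * (x - (3 / 8 : ℝ) * z) ^ 6 * ((1 / 2 : ℝ) * z - x) ^ 4 + (44129991968948224 : ℝ) * (x - (3 / 8 : ℝ) * z) ^ 7 * ((1 / 2 : ℝ) * z - x) ^ 3 + (22520400938270720 : ℝ) * (x - (3 / 8 : ℝ) * z) ^ 8 * ((1 / 2 : ℝ) * z - x) ^ 2 + (6734011594440704 : ℝ) * (x - (3 / 8 : ℝ) * z) ^ 9 * ((1 / 2 : ℝ) * z - x) ^ 1 + (896941542080512 : ℝ) * (x - (3 / 8 : ℝ) * z) ^ 10 * ((1 / 2 : ℝ) * z - x) ^ 0) := by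
      unfold GG; ring
    rw [e]; exact le_add_of_nonneg_right (by positivity)
  rcases le_total x ((1 : ℝ) * z) with h | h0
  · have hu : 0 ≤ x - (1 / 2 : ℝ) * z := by linarith
    have hv : 0 ≤ (1 : ℝ) * z - x := by linarith
    have e : GG x z = (2 * x ^ 2 + z ^ 2) ^ 5 + ((855390112 : ℝ) * (x - (1 / 2 : ℝ) * z) ^ 0 * ((1 : ℝ) * z - x) ^ 10 + (17081289984 : ℝ) * (x - (1 / 2 : ℝ) * z) ^ 1 * ((1 : ℝ) * z - x) ^ 9 + (149978220800 : ℝ) * (x - (1 / 2 : ℝ) * z) ^ 2 * ((1 : ℝ) * z - x) ^ 8 + (763338571264 : ℝ) * (x - (1 / 2 : ℝ) * z) ^ 3 * ((1 : ℝ) * z - x) ^ 7 + (2497698347136 : ℝ) * (x - (1 / 2 : ℝ) * z) ^ 4 * ((1 : ℝ) * z - x) ^ 6 + (5498064669696 : ℝ) * (x - (1 / 2 : ℝ) * z) ^ 5 * ((1 : ℝ) * z - x) ^ 5 + (8256625417728 : ℝ) * (x - (1 / 2 : ℝ) * z) ^ 6 * ((1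 : ℝ) * z - x) ^ 4 + (8362391242752 : ℝ) * (x - (1 / 2 : ℝ) * z) ^ 7 * ((1 : ℝ) * z - x) ^ 3 + (5472074506752 : ℝ) * (x - (1 / 2 : ℝ) * z) ^ 8 * ((1 : ℝ) * z - x) ^ 2 + (2090836260864 : ℝ) * (x - (1 / 2 : ℝ) * z) ^ 9 * ((1 : ℝ) * z - x) ^ 1 + (354487809024 : ℝ) * (x - (1 / 2 : ℝ) * z) ^ 10 * ((1 : ℝ) * z - x) ^ 0) := by
      unfold GG; ring
    rw [e]; exact le_add_of_nonneg_right (by positivity)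
  rcases le_total x ((2 : ℝ) * z) with h | h0
  · have hu : 0 ≤ x - (1 : ℝ) * z := by linarith
    have hv : 0 ≤ (2 : ℝ) * z - x := by linarith
    have e : GG x z = (2 * x ^ 2 + z ^ 2) ^ 5 + ((346179501 : ℝ) * (x - (1 : ℝ) * z) ^ 0 * ((2 : ℝ) * z - x) ^ 10 + (6301720458 : ℝ) * (x - (1 : ℝ) * z) ^ 1 * ((2 : ℝ) * z - x) ^ 9 + (51319045503 : ℝ) * (x - (1 : ℝ) * z) ^ 2 * ((2 : ℝ) * z - x) ^ 8 + (246190065336 : ℝ) * (x - (1 : ℝ) * z) ^ 3 * ((2 : ℝ) * z - x) ^ 7 + (770390364186 : ℝ) * (x - (1 : ℝ) * z) ^ 4 * ((2 : ℝ) * z - x) ^ 6 + (1642975415340 : ℝ) * (x - (1 : ℝ) * z) ^ 5 * ((2 : ℝ) * z - x) ^ 5 + (2418119127150 : ℝ) * (x - (1 : ℝ) * z) ^ 6 * ((2 : ℝ) * z - x) ^ 4 + (2424951737848 : ℝ) * (x - (1 : ℝ) * z) ^ 7 * ((2 : ℝ) * z - x) ^ 3 + (1585531914425 : ℝ) *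 (x - (1 : ℝ) * z) ^ 8 * ((2 : ℝ) * z - x) ^ 2 + (610263990618 : ℝ) * (x - (1 : ℝ) * z) ^ 9 * ((2 : ℝ) * z - x) ^ 1 + (104983955827 : ℝ) * (x - (1 : ℝ) * z) ^ 10 * ((2 : ℝ) * z - x) ^ 0) := by
      unfold GG; ring
    rw [e]; exact le_add_of_nonneg_right (by positivity)
  rcases le_total x ((4 : ℝ) * z) with h | h0
  · have hu : 0 ≤ x - (2 : ℝ) * z := by linarith
    have hv : 0 ≤ (4 : ℝ) * z - x := by linarith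
    have e : GG x z = (2 * x ^ 2 + z ^ 2) ^ 5 + ((104983955827 / 1024 : ℝ) * (x - (2 : ℝ) * z) ^ 0 * ((4 : ℝ) * z - x) ^ 10 + (964495346787 / 512 : ℝ) * (x - (2 : ℝ) * z) ^ 1 * ((4 : ℝ) * z - x) ^ 9 + (15906374274263 / 1024 : ℝ) * (x - (2 : ℝ) * z) ^ 2 * ((4 : ℝ) * z - x) ^ 8 + (9688550105129 / 128 : ℝ) * (x - (2 : ℝ) * z) ^ 3 * ((4 : ℝ) * z - x) ^ 7 + (123566905495179 / 512 : ℝ) * (x - (2 : ℝ) * z) ^ 4 * ((4 : ℝ) * z - x) ^ 6 + (134675507168025 / 256 : ℝ) * (x - (2 : ℝ) * z) ^ 5 * ((4 : ℝ) * z - x) ^ 5 + (406455423844203 / 512 : ℝ) * (x - (2 : ℝ) * z) ^ 6 * ((4 : ℝ) * z - x) ^ 4 + (104804149198473 / 128 : ℝ) * (x - (2 : ℝ) * z) ^ 7 * ((4 : ℝ) * z - x) ^ 3 + (565583084802423 / 1024 : ℝ) * (x - (2 : ℝ) * z) ^ 8 * ((4 : ℝ) * z - x) ^ 2 + (112648767227811 /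 512 : ℝ) * (x - (2 : ℝ) * z) ^ 9 * ((4 : ℝ) * z - x) ^ 1 + (40238887298643 / 1024 : ℝ) * (x - (2 : ℝ) * z) ^ 10 * ((4 : ℝ) * z - x) ^ 0) := by
      unfold GG; ring
    rw [e]; exact le_add_of_nonneg_right (by positivity)
  have hu : 0 ≤ x - (4 : ℝ) * z := by linarith
  have hv : 0 ≤ z := by linarith
  have e : GG x z = (2 * x ^ 2 + z ^ 2) ^ 5 + ((40238887298643 : ℝ) * (x - (4 : ℝ) * z) ^ 0 * (z) ^ 10 + (88545669265404 : ℝ) * (x - (4 : ℝ) * z) ^ 1 * (z) ^ 9 + (87163800785190 : ℝ) * (x - (4 : ℝ) * z) ^ 2 * (z) ^ 8 + (50523340033296 : ℝ) * (x - (4 : ℝ) * z) ^ 3 * (z) ^ 7 + (19086144092784 : ℝ) * (x - (4 : ℝ) * z) ^ 4 * (z) ^ 6 + (4907156215632 : ℝ) * (x - (4 : ℝ) * z) ^ 5 * (z) ^ 5 + (869023982184 : ℝ) * (x - (4 : ℝ) * z) ^ 6 * (z) ^ 4 + (104594258560 : ℝ)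 * (x - (4 : ℝ) * z) ^ 7 * (z) ^ 3 + (8181497888 : ℝ) * (x - (4 : ℝ) * z) ^ 8 * (z) ^ 2 + (375250496 : ℝ) * (x - (4 : ℝ) * z) ^ 9 * (z) ^ 1 + (7656992 : ℝ) * (x - (4 : ℝ) * z) ^ 10 * (z) ^ 0) := by
    unfold GG; ring
  rw [e]; exact le_add_of_nonneg_right (by positivity)

end Pool.Agent.H57.Cent
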