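import Pool.Agent.H57.Cent4

set_option autoImplicit false

namespace Pool.Agent.H57.Cent

/-- Cubic invariant. -/
noncomputable def ZH (S p T : ℝ) : ℝ := 54 * T + 9 * S * p - 5 * S ^ 3
/-- Auxiliary form. -/
noncomputable def pZH (S p T : ℝ) : ℝ :=
  ((24564 : ℝ) * (S ^ 2) ^ 0 * p ^ 4 + (12924 : ℝ) * (S ^ 2) ^ 1 * p ^ 3 + (-912 : ℝ) * (S ^ 2) ^ 2 * p ^ 2 + (-376 : ℝ) * (S ^ 2) ^ 3 * p ^ 1 + (3950 : ℝ) * (S ^ 2) ^ 4 * p ^ 0) + 2 * S * ((5090 : ℝ) * (S ^ 2) ^ 0 * p ^ 2 + (-2195 : ℝ) * (S ^ 2) ^ 1 * p ^ 1 + (6858 : ℝ) * (S ^ 2) ^ 2 * p ^ 0) * ZH S p T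
/-- Auxiliary form. -/
noncomputable def alH (S p T : ℝ) : ℝ :=
  ((-272756 : ℝ) * (S ^ 2) ^ 0 * p ^ 5 + (1168605 : ℝ) * (S ^ 2) ^ 1 * p ^ 4 + (-2466185 : ℝ) * (S ^ 2) ^ 2 * p ^ 3 + (2276883 : ℝ) * (S ^ 2) ^ 3 * p ^ 2 + (-837135 : ℝ) * (S ^ 2) ^ 4 * p ^ 1 + (109956 : ℝ) * (S ^ 2) ^ 5 * p ^ 0) + S * ((25848 : ℝ) * (S ^ 2) ^ 0 * p ^ 3 + (-3648 : ℝ) * (S ^ 2) ^ 1 * p ^ 2 + (-2256 : ℝ) * (S ^ 2) ^ 2 * p ^ 1 + (31600 : ℝ) * (S ^ 2) ^ 3 * p ^ 0) * ZH S p T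
    + ((5090 : ℝ) * (S ^ 2) ^ 0 * p ^ 2 + (-6585 : ℝ) * (S ^ 2) ^ 1 * p ^ 1 + (34290 : ℝ) * (S ^ 2) ^ 2 * p ^ 0) * ZH S p T ^ 2 + pZH S p T * (12 * S ^ 2 - 18 * p)

lemma pZH_one (S T : ℝ) : pZH S 1 T = pb (S ^ 2) + 2 * S * pc (S ^ 2) * ZH S 1 T := by
  unfold pZH pb pc; ring

lemma alH_one (S T : ℝ) : alH S 1 T = pa (S ^ 2) + S * pb1 (S ^ 2) * ZH S 1 T +
    pc1 (S ^ 2) * ZH S 1 T ^ 2 + pZH S 1 T * (12 * S ^ 2 - 18) := by
  unfold alH pa pb1 pc1; ring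

lemma mer (x z : ℝ) (h : 2 * x ^ 2 + z ^ 2 = 1) :
    0 < alH (2 * x + z) 1 (x ^ 2 * z) - 54 * pZH (2 * x + z) 1 (x ^ 2 * z) * (x * z) := by
  have e : alH (2 * x + z) (2 * x ^ 2 + z ^ 2) (x ^ 2 * z) -
      54 * pZH (2 * x + z) (2 * x ^ 2 + z ^ 2) (x ^ 2 * z) * (x * z) = GG x z := by
    unfold alH pZH ZH GG; ring
  rw [h] at e
  rw [e]
  rcases le_total 0 z with hz | hz
  · have := GG_ge x z hz
    rw [h] at this; linarith
  · have := GG_ge (-x) (-z) (by linarith)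
    have e2 : GG (-x) (-z) = GG x z := by unfold GG; ring
    rw [e2, neg_sq, neg_sq, h] at this; linarith

lemma offmer (x y z : ℝ) (hp : x ^ 2 + y ^ 2 + z ^ 2 = 1)
    (hb : pZH (x + y + z) 1 (x * y * z) = 0) : 0 < alH (x + y + z) 1 (x * y * z) := by
  have hdisc : 2 * (3 * (x ^ 2 + y ^ 2 + z ^ 2) - (x + y + z) ^ 2) ^ 3 -
      ZH (x + y + z) (x ^ 2 + y ^ 2 + z ^ 2) (x * y * z) ^ 2 =
      108 * ((x - y) * (y - z) * (z - x)) ^ 2 := by unfold ZH; ring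
  have hS3 : (x + y + z) ^ 2 ≤ 3 := by
    nlinarith [sq_nonneg (x - y), sq_nonneg (y - z), sq_nonneg (z - x)]
  rw [hp] at hdisc
  rw [alH_one, hb]
  rw [pZH_one] at hb
  set S := x + y + z
  set Z := ZH S 1 (x * y * z)
  have hd : 0 ≤ 2 * (3 - S ^ 2) ^ 3 - Z ^ 2 := by
    have : (0 : ℝ) ≤ 108 * ((x - y) * (y - z) * (z - x)) ^ 2 := by positivity
    rw [← hdisc] at this
    simpa using this
  have hbb : pb (S ^ 2) = -(2 * S * pc (S ^ 2) * Z) := by linarith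
  have hD : DD (S ^ 2) ≤ 0 := by
    have : DD (S ^ 2) = -(4 * (S * pc (S ^ 2)) ^ 2 * (2 * (3 - S ^ 2) ^ 3 - Z ^ 2)) := by
      unfold DD; rw [hbb]; ring
    rw [this]
    have : 0 ≤ 4 * (S * pc (S ^ 2)) ^ 2 * (2 * (3 - S ^ 2) ^ 3 - Z ^ 2) := by positivity
    linarith
  have h94 : S ^ 2 ≤ 9 / 4 := by
    by_contra h
    push Not at h
    have := DD_pos (S ^ 2) h.le hS3
    linarith
  have hA := AA_pos (S ^ 2) (sq_nonneg S) h94
  have e : AA (S ^ 2) = 4 * (S * pc (S ^ 2)) ^ 2 *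
      (pa (S ^ 2) + S * pb1 (S ^ 2) * Z + pc1 (S ^ 2) * Z ^ 2 + 0 * (12 * S ^ 2 - 18)) := by
    unfold AA; rw [hbb]; ring
  rw [e] at hA
  by_contra h
  push Not at h
  have : 0 ≤ 4 * (S * pc (S ^ 2)) ^ 2 := by positivity
  nlinarith

lemma key (x y z t : ℝ) (hp : x ^ 2 + y ^ 2 + z ^ 2 = 1) (ht : 0 ≤ t)
    (h1 : (x - y) * (alH (x + y + z) 1 (x * y * z) + t -
      54 * pZH (x + y + z) 1 (x * y * z) * (x * y)) = 0)
    (h2 : (y - z) * (alH (x + y + z) 1 (x * y * z) + t -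
      54 * pZH (x + y + z) 1 (x * y * z) * (y * z)) = 0)
    (h3 : (z - x) * (alH (x + y + z) 1 (x * y * z) + t -
      54 * pZH (x + y + z) 1 (x * y * z) * (z * x)) = 0) : x = y ∧ y = z := by
  by_cases hxy : x = y
  · refine ⟨hxy, ?_⟩
    by_contra hyz
    subst hxy
    have := mer x z (by linarith)
    rw [show 2 * x + z = x + x + z by ring, show x ^ 2 * z = x * x * z by ring] at this
    rcases mul_eq_zero.1 h2 with h | h
    · exact hyz (by linarith)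
    · linarith
  exfalso
  by_cases hyz : y = z
  · subst hyz
    have := mer y x (by linarith)
    rw [show 2 * y + x = x + y + y by ring, show y ^ 2 * x = x * y * y by ring,
      show y * x = x * y by ring] at this
    rcases mul_eq_zero.1 h1 with h | h
    · exact hxy (by linarith)
    · linarith
  by_cases hzx : z = x
  · subst hzx
    have := mer z y (by linarith)
    rw [show 2 * z + y = z + y + z by ring, show z ^ 2 * y = z * y * z by ring] at this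
    rcases mul_eq_zero.1 h1 with h | h
    · exact hxy (by linarith)
    · linarith
  have g1 := (mul_eq_zero.1 h1).resolve_left (sub_ne_zero.2 hxy)
  have g2 := (mul_eq_zero.1 h2).resolve_left (sub_ne_zero.2 hyz)
  have g3 := (mul_eq_zero.1 h3).resolve_left (sub_ne_zero.2 hzx)
  set B := pZH (x + y + z) 1 (x * y * z) with hB
  have k1 : (B * y) * (z - x) = 0 := by linarith
  have k2 : (B * z) * (x - y) = 0 := by linarith
  have k3 := (mul_eq_zero.1 k1).resolve_right (sub_ne_zero.2 hzx)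
  have k4 := (mul_eq_zero.1 k2).resolve_right (sub_ne_zero.2 hxy)
  have k5 : B * (y - z) = 0 := by linarith
  have k6 := (mul_eq_zero.1 k5).resolve_right (sub_ne_zero.2 hyz)
  have := offmer x y z hp k6
  rw [k6] at g1
  linarith

/-- Squared length of the projection of `(a,b,c)` orthogonal to `(x,y,z)`, homogenised. -/
noncomputable def wt (a b c x y z : ℝ) : ℝ :=
  (a ^ 2 + b ^ 2 + c ^ 2) * (x ^ 2 + y ^ 2 + z ^ 2) - (a * x + b * y + c * z) ^ 2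

/-- Orbit sum of cross products. -/
noncomputable def orbCr (a b c x y z : ℝ) : ℝ :=
  wt a b c x y z ^ 5 * (x * b - y * a) + wt b c a x y z ^ 5 * (x * c - y * b) +
  wt c a b x y z ^ 5 * (x * a - y * c) + wt a c b x y z ^ 5 * (x * c - y * a) +
  wt c b a x y z ^ 5 * (x * b - y * c) + wt b a c x y z ^ 5 * (x * a - y * b)

/-- First coordinates. -/
def ea : Fin 16 → ℝ := ![1, 1, 1, 1, 2, 2, 2, 2, 2, 2, 1, 3, 3, 3, 3, 3]
/-- Second coordinates. -/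
def eb : Fin 16 → ℝ := ![1, 0, 1, 1, 1, 1, -1, 1, 2, 2, 1, 1, 1, -1, 1, -1]
/-- Third coordinates. -/
def ec : Fin 16 → ℝ := ![1, 0, 0, -1, 1, 0, 0, -1, 1, -1, -2, 1, 0, 0, -1, -1]
/-- Coefficients. -/
def lam0 : Fin 16 → ℝ := ![-332606514491125, -482089625605056000, 2299381439670000, -482906178145125, 49275679125120, -75226803129216, -37495419139968, 54475934150400, -1393507794240, -692666601280, -7918513267840, -1858688580765, 4732336759776, 3282129349392, -2593201051350, -796827975945]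
/-- Direction of the deformation. -/
def del0 : Fin 16 → ℝ := ![1, 0, 0, 0, 0, 0, 0, 0, 0, 0, 0, 0, 0, 0, 0, 0]

lemma cross0 (x y z : ℝ) : ∑ j, lam0 j * orbCr (ea j) (eb j) (ec j) x y z =
    29030400000 * ((x - y) * (alH (x + y + z) (x ^ 2 + y ^ 2 + z ^ 2) (x * y * z) -
      54 * pZH (x + y + z) (x ^ 2 + y ^ 2 + z ^ 2) (x * y * z) * (x * y))) := by
  simp only [Fin.sum_univ_succ, Fin.sum_univ_zero, lam0, ea, eb, ec, Matrix.cons_val_zero,
    Matrix.cons_val_succ]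
  unfold orbCr wt alH pZH ZH
  ring

lemma cross1 (x y z : ℝ) : ∑ j, del0 j * orbCr (ea j) (eb j) (ec j) x y z =
    (x - y) * (6 * (3 * (x ^ 2 + y ^ 2 + z ^ 2) - (x + y + z) ^ 2) ^ 5) := by
  simp only [Fin.sum_univ_succ, Fin.sum_univ_zero, del0, ea, eb, ec, Matrix.cons_val_zero,
    Matrix.cons_val_succ, zero_mul, add_zero, one_mul]
  unfold orbCr wt
  ring

lemma only_pole (x y z s : ℝ) (hp : x ^ 2 + y ^ 2 + z ^ 2 = 1) (hs : 0 ≤ s)
    (h1 : ∑ j, (lam0 j + s * del0 j) * orbCr (ea j) (eb j) (ec j) x y z = 0)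
    (h2 : ∑ j, (lam0 j + s * del0 j) * orbCr (ea j) (eb j) (ec j) y z x = 0)
    (h3 : ∑ j, (lam0 j + s * del0 j) * orbCr (ea j) (eb j) (ec j) z x y = 0) :
    x = y ∧ y = z := by
  have hS3 : 0 ≤ 3 - (x + y + z) ^ 2 := by
    nlinarith [sq_nonneg (x - y), sq_nonneg (y - z), sq_nonneg (z - x)]
  simp only [add_mul, Finset.sum_add_distrib, mul_assoc, ← Finset.mul_sum, cross0, cross1]
    at h1 h2 h3
  rw [hp] at h1
  rw [show y ^ 2 + z ^ 2 + x ^ 2 = 1 by linarith, show y + z + x = x + y + z by ring,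
    show y * (z * x) = x * (y * z) by ring] at h2
  rw [show z ^ 2 + x ^ 2 + y ^ 2 = 1 by linarith, show z + x + y = x + y + z by ring,
    show z * (x * y) = x * (y * z) by ring] at h3
  refine key x y z (s * (6 * (3 - (x + y + z) ^ 2) ^ 5) / 29030400000) hp (by positivity) ?_ ?_ ?_
  · rw [mul_assoc x y z]; linarith
  · rw [mul_assoc x y z]; linarith
  · rw [mul_assoc x y z]; linarith

end Pool.Agent.H57.Cent
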