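import Pool.Agent.H57.Cent3
import Pool.Agent.H57.Cent5

set_option autoImplicit false

namespace Pool.Agent.H57.Cent

open MeasureTheory Measure Set Metric Module
open scoped RealInnerProductSpace Pointwise

/-- Euclidean three-space. -/
abbrev E3 : Type := EuclideanSpace ℝ (Fin 3)

/-- The six coordinate permutations of a vector. -/
noncomputable def vec (a b c : ℝ) : Fin 6 → E3 :=
  ![!₂[a, b, c], !₂[b, c, a], !₂[c, a, b], !₂[a, c, b], !₂[c, b, a], !₂[b, a, c]]

/-- The ridge directions. -/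
noncomputable def ee (p : Fin 16 × Fin 6) : E3 := vec (ea p.1) (eb p.1) (ec p.1) p.2

/-- The axis. -/
noncomputable def nn : E3 := !₂[1, 1, 1]

lemma inner3 (x y : E3) : ⟪x, y⟫ = x 0 * y 0 + x 1 * y 1 + x 2 * y 2 := by
  simp [PiLp.inner_apply, Fin.sum_univ_three]; ring

lemma normsq3 (x : E3) : ‖x‖ ^ 2 = x 0 ^ 2 + x 1 ^ 2 + x 2 ^ 2 := by
  rw [← real_inner_self_eq_norm_sq, inner3]; ring

lemma orb_gen (a b c : ℝ) (u w : E3) (hu : u 0 ^ 2 + u 1 ^ 2 + u 2 ^ 2 = 1) :
    ∑ k, (‖vec a b c k‖ ^ 2 - ⟪u, vec a b c k⟫ ^ 2) ^ 5 * ⟪vec a b c k, w⟫ =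
      wt a b c (u 0) (u 1) (u 2) ^ 5 * (a * w 0 + b * w 1 + c * w 2) +
      wt b c a (u 0) (u 1) (u 2) ^ 5 * (b * w 0 + c * w 1 + a * w 2) +
      wt c a b (u 0) (u 1) (u 2) ^ 5 * (c * w 0 + a * w 1 + b * w 2) +
      wt a c b (u 0) (u 1) (u 2) ^ 5 * (a * w 0 + c * w 1 + b * w 2) +
      wt c b a (u 0) (u 1) (u 2) ^ 5 * (c * w 0 + b * w 1 + a * w 2) +
      wt b a c (u 0) (u 1) (u 2) ^ 5 * (b * w 0 + a * w 1 + c * w 2) := by
  have h : ∀ e : E3, ‖e‖ ^ 2 - ⟪u, e⟫ ^ 2 = wt (e 0) (e 1) (e 2) (u 0) (u 1) (u 2) := by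
    intro e
    rw [normsq3, inner3, wt, hu]; ring
  simp only [h]
  simp only [inner3, Fin.sum_univ_six]
  simp [vec]

lemma wt_cyc (a b c x y z : ℝ) : wt a b c y z x = wt c a b x y z := by unfold wt; ring

lemma wt_cyc2 (a b c x y z : ℝ) : wt a b c z x y = wt b c a x y z := by unfold wt; ring

/-- The tangential moment of the ridge family. -/
noncomputable def TM (s : ℝ) (u w : E3) : ℝ :=
  ∑ p : Fin 16 × Fin 6, (lam0 p.1 + s * del0 p.1) *
    ((‖ee p‖ ^ 2 - ⟪u, ee p⟫ ^ 2) ^ 5 * ⟪ee p, w⟫)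

lemma TM_zero {s : ℝ} (hs : 0 ≤ s) {u : E3} (hu : ‖u‖ = 1)
    (h : ∀ w : E3, ⟪u, w⟫ = 0 → TM s u w = 0) : u 0 = u 1 ∧ u 1 = u 2 := by
  have hu' : u 0 ^ 2 + u 1 ^ 2 + u 2 ^ 2 = 1 := by rw [← normsq3, hu]; norm_num
  have h1 := h !₂[-u 1, u 0, 0] (by rw [inner3]; simp; ring)
  have h2 := h !₂[0, -u 2, u 1] (by rw [inner3]; simp; ring)
  have h3 := h !₂[u 2, 0, -u 0] (by rw [inner3]; simp; ring)
  unfold TM ee at h1 h2 h3
  rw [Fintype.sum_prod_type] at h1 h2 h3
  simp only [← Finset.mul_sum, orb_gen _ _ _ u _ hu'] at h1 h2 h3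
  refine only_pole _ _ _ s hu' hs ?_ ?_ ?_
  · rw [← h1]
    refine Finset.sum_congr rfl fun j _ => ?_
    unfold orbCr
    simp
    left; ring
  · rw [← h2]
    refine Finset.sum_congr rfl fun j _ => ?_
    unfold orbCr
    simp only [wt_cyc _ _ _ (u 0) (u 1) (u 2)]
    simp
    left; ring
  · rw [← h3]
    refine Finset.sum_congr rfl fun j _ => ?_
    unfold orbCr
    simp only [wt_cyc2 _ _ _ (u 0) (u 1) (u 2)]
    simp
    left; ring

lemma TM_pole (s : ℝ) {u : E3} (hu : ‖u‖ = 1) (h1 : u 0 = u 1) (h2 : u 1 = u 2) (w : E3)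
    (hw : ⟪u, w⟫ = 0) : TM s u w = 0 := by
  have hu' : u 0 ^ 2 + u 1 ^ 2 + u 2 ^ 2 = 1 := by rw [← normsq3, hu]; norm_num
  have h0 : u 2 ≠ 0 := by
    intro h; rw [h1, h2, h] at hu'; norm_num at hu'
  have hw' : w 2 = -w 0 - w 1 := by
    rw [inner3, h1, h2] at hw
    have : u 2 * (w 0 + w 1 + w 2) = 0 := by linarith
    have := (mul_eq_zero.1 this).resolve_left h0
    linarith
  unfold TM ee
  rw [Fintype.sum_prod_type]
  simp only [← Finset.mul_sum, orb_gen _ _ _ u _ hu']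
  refine Finset.sum_eq_zero fun j _ => ?_
  rw [h1, h2, hw']
  have k : ∀ a b c a' b' c' : ℝ, a' ^ 2 + b' ^ 2 + c' ^ 2 = a ^ 2 + b ^ 2 + c ^ 2 →
      a' + b' + c' = a + b + c →
      wt a' b' c' (u 2) (u 2) (u 2) = wt a b c (u 2) (u 2) (u 2) := by
    intro a b c a' b' c' e1 e2
    unfold wt
    rw [e1, show a' * u 2 + b' * u 2 + c' * u 2 = (a' + b' + c') * u 2 by ring, e2]
    ring
  rw [k (ea j) (eb j) (ec j) (eb j) (ec j) (ea j) (by ring) (by ring),
    k (ea j) (eb j) (ec j) (ec j) (ea j) (eb j) (by ring) (by ring),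
    k (ea j) (eb j) (ec j) (ea j) (ec j) (eb j) (by ring) (by ring),
    k (ea j) (eb j) (ec j) (ec j) (eb j) (ea j) (by ring) (by ring),
    k (ea j) (eb j) (ec j) (eb j) (ea j) (ec j) (by ring) (by ring)]
  generalize wt (ea j) (eb j) (ec j) (u 2) (u 2) (u 2) = q
  ring

lemma mom_nn (l : Fin 16 → ℝ) : Mom (fun p : Fin 16 × Fin 6 => l p.1) ee nn =
    ∑ j, l j * (6 * (ea j ^ 2 + eb j ^ 2 + ec j ^ 2) ^ 5 * (ea j + eb j + ec j)) := by
  unfold Mom ee
  rw [Fintype.sum_prod_type]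
  refine Finset.sum_congr rfl fun j _ => ?_
  simp only [normsq3, inner3, Fin.sum_univ_six]
  simp [vec, nn]
  ring

lemma exists_body : ∃ ε : ℝ, 0 < ε ∧ ∃ s : ℝ, 0 ≤ s ∧
    ε * Lam (fun p : Fin 16 × Fin 6 => lam0 p.1 + s * del0 p.1) ee ≤ 1 / 100 ∧
    ∫ x in body ε (fun p : Fin 16 × Fin 6 => lam0 p.1 + s * del0 p.1) ee, ⟪nn, x⟫ = 0 := by
  refine ivt (by simp) (fun p : Fin 16 × Fin 6 => lam0 p.1) (fun p => del0 p.1) ee nn (10 ^ 12)
    (by positivity) ?_ ?_
  · rw [mom_nn]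
    simp only [Fin.sum_univ_succ, Fin.sum_univ_zero, lam0, ea, eb, ec, Matrix.cons_val_zero,
      Matrix.cons_val_succ]
    norm_num
  · rw [mom_nn (fun j => lam0 j + 10 ^ 12 * del0 j)]
    simp only [Fin.sum_univ_succ, Fin.sum_univ_zero, lam0, del0, ea, eb, ec, Matrix.cons_val_zero,
      Matrix.cons_val_succ]
    norm_num

/-- Cyclic permutation of the coordinates. -/
noncomputable def cyc : E3 ≃ₗᵢ[ℝ] E3 := LinearIsometryEquiv.piLpCongrLeft 2 ℝ ℝ (finRotate 3)

lemma cyc0 (x : E3) : cyc x 0 = x 2 := rfl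
lemma cyc1 (x : E3) : cyc x 1 = x 0 := rfl
lemma cyc2 (x : E3) : cyc x 2 = x 1 := rfl

lemma P_cyc (l : Fin 16 → ℝ) (x : E3) :
    P (fun p : Fin 16 × Fin 6 => l p.1) ee (cyc x) = P (fun p : Fin 16 × Fin 6 => l p.1) ee x := by
  unfold P ee
  rw [Fintype.sum_prod_type, Fintype.sum_prod_type]
  refine Finset.sum_congr rfl fun j _ => ?_
  simp only [inner3, Fin.sum_univ_six, cyc0, cyc1, cyc2]
  simp only [vec]
  generalize ea j = a
  generalize eb j = b
  generalize ec j = c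
  simp
  have e : ∀ p q r : ℝ, p * x 2 + q * x 0 + r * x 1 = q * x 0 + r * x 1 + p * x 2 := by
    intros; ring
  simp only [e]
  abel

lemma body_center {ε : ℝ} {l : Fin 16 → ℝ} (h0 : 0 ≤ ε)
    (h1 : ε * Lam (fun p : Fin 16 × Fin 6 => l p.1) ee ≤ 1 / 100)
    (h : ∫ x in body ε (fun p : Fin 16 × Fin 6 => l p.1) ee, ⟪nn, x⟫ = 0) :
    ∫ x in body ε (fun p : Fin 16 × Fin 6 => l p.1) ee, x = 0 := by
  set K := body ε (fun p : Fin 16 × Fin 6 => l p.1) ee with hK
  have hKc : IsCompact K := body_compact h0 h1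
  have hpre : cyc ⁻¹' K = K := by
    ext x
    simp only [hK, body, mem_preimage, mem_ofPred_eq, P_cyc, LinearIsometryEquiv.norm_map]
  have hinv : ∀ g : E3 → ℝ, ∫ x in K, g (cyc x) = ∫ x in K, g x := by
    intro g
    have := cyc.measurePreserving.setIntegral_preimage_emb cyc.toHomeomorph.measurableEmbedding g K
    rwa [hpre] at this
  have a1 := hinv (fun x => x 0)
  have a2 := hinv (fun x => x 1)
  simp only [cyc0, cyc1] at a1 a2
  have hi : ∀ i, IntegrableOn (fun x : E3 => x i) K := fun i =>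
    (by fun_prop : Continuous fun x : E3 => x i).continuousOn.integrableOn_compact hKc
  have e : ∀ x : E3, ⟪nn, x⟫ = x 0 + x 1 + x 2 := by
    intro x; rw [inner3]; simp [nn]
  simp only [e] at h
  rw [integral_add (f := fun x : E3 => x 0 + x 1) ((hi 0).add (hi 1)) (hi 2),
    integral_add (hi 0) (hi 1)] at h
  have hid : IntegrableOn (fun x : E3 => x) K := continuous_id.continuousOn.integrableOn_compact hKc
  refine ext_inner_left ℝ fun w => ?_
  rw [← integral_inner hid, inner_zero_right]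
  simp only [inner3]
  rw [integral_add (f := fun x : E3 => w 0 * x 0 + w 1 * x 1)
    (((hi 0).const_mul _).add ((hi 1).const_mul _)) ((hi 2).const_mul _),
    integral_add ((hi 0).const_mul _) ((hi 1).const_mul _), integral_const_mul, integral_const_mul,
    integral_const_mul]
  have b0 : ∫ x in K, x 0 = 0 := by linarith
  have b1 : ∫ x in K, x 1 = 0 := by linarith
  have b2 : ∫ x in K, x 2 = 0 := by linarith
  rw [b0, b1, b2]; ring

lemma exists_normal (W : Submodule ℝ E3) (hW : finrank ℝ W = 2) :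
    ∃ u : E3, ‖u‖ = 1 ∧ ∀ x, x ∈ W ↔ ⟪u, x⟫ = 0 := by
  have h1 : finrank ℝ Wᗮ = 1 := by
    have := W.finrank_add_finrank_orthogonal
    rw [hW, finrank_euclideanSpace_fin] at this
    omega
  obtain ⟨v, hv, hall⟩ := finrank_eq_one_iff'.1 h1
  have hv' : (v : E3) ≠ 0 := fun h => hv (Subtype.ext h)
  have hn : ‖(v : E3)‖ ≠ 0 := norm_ne_zero_iff.2 hv'
  refine ⟨‖(v : E3)‖⁻¹ • (v : E3), by rw [norm_smul, norm_inv, norm_norm, inv_mul_cancel₀ hn],
    fun x => ?_⟩
  rw [inner_smul_left]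
  constructor
  · intro hx
    rw [Submodule.inner_left_of_mem_orthogonal hx v.2, mul_zero]
  · intro hx
    have hx' : ⟪(v : E3), x⟫ = 0 := by
      rcases mul_eq_zero.1 hx with h | h
      · simp at h; exact absurd h hv
      · exact h
    rw [← W.orthogonal_orthogonal, Submodule.mem_orthogonal]
    intro y hy
    obtain ⟨c, hc⟩ := hall ⟨y, hy⟩
    have : y = c • (v : E3) := by rw [← Submodule.coe_smul, hc]
    rw [this, inner_smul_left, hx', mul_zero]

lemma section_iff {ε s : ℝ} (h0 : 0 < ε)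
    (h1 : ε * Lam (fun p : Fin 16 × Fin 6 => lam0 p.1 + s * del0 p.1) ee ≤ 1 / 100)
    (W : Submodule ℝ E3) (hW : finrank ℝ W = 2) (u : E3) (hu : ‖u‖ = 1)
    (huW : ∀ x, x ∈ W ↔ ⟪u, x⟫ = 0) :
    ((euclideanHausdorffMeasure 2 : Measure E3)
        (body ε (fun p : Fin 16 × Fin 6 => lam0 p.1 + s * del0 p.1) ee ∩ W)).toReal⁻¹ •
      ∫ x in body ε (fun p : Fin 16 × Fin 6 => lam0 p.1 + s * del0 p.1) ee ∩ W, x
        ∂(euclideanHausdorffMeasure 2) = 0 ↔ ∀ w : E3, ⟪u, w⟫ = 0 → TM s u w = 0 := by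
  set l : Fin 16 × Fin 6 → ℝ := fun p => lam0 p.1 + s * del0 p.1 with hl
  set K := body ε l ee with hK
  have hKm : MeasurableSet K := (body_closed _ _ _).measurableSet
  have huu : ⟪u, u⟫ = 1 := by rw [real_inner_self_eq_norm_sq, hu]; norm_num
  set e' : Fin 16 × Fin 6 → W := fun p => ⟨ee p - ⟪u, ee p⟫ • u, by
    rw [huW, inner_sub_right, inner_smul_right, huu]; ring⟩ with he'
  have hin : ∀ p (x : W), ⟪e' p, x⟫ = ⟪ee p, (x : E3)⟫ := by
    intro p x
    rw [Submodule.coe_inner]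
    simp only [he']
    rw [inner_sub_left, inner_smul_left, (huW x).1 x.2]; simp
  have hno : ∀ p, ‖e' p‖ ^ 2 = ‖ee p‖ ^ 2 - ⟪u, ee p⟫ ^ 2 := by
    intro p
    rw [← real_inner_self_eq_norm_sq, hin]
    simp only [he']
    rw [inner_sub_right, inner_smul_right, real_inner_self_eq_norm_sq, real_inner_comm]; ring
  have hLam : ε * Lam l e' ≤ 1 / 100 := by
    refine le_trans ?_ h1
    gcongr
    unfold Lam
    refine Finset.sum_le_sum fun p _ => ?_
    have : ‖e' p‖ ≤ ‖ee p‖ := by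
      refine (pow_le_pow_iff_left₀ (norm_nonneg _) (norm_nonneg _) two_ne_zero).1 ?_
      rw [hno]; nlinarith [sq_nonneg ⟪u, ee p⟫]
    gcongr
  have hpre : ((↑) : W → E3) ⁻¹' K = body ε l e' := by
    ext x
    simp only [hK, body, mem_preimage, mem_ofPred_eq, P, hin, Submodule.coe_norm]
  have hiso : Isometry ((↑) : W → E3) := isometry_subtype_coe
  have hemb : MeasurableEmbedding ((↑) : W → E3) :=
    MeasurableEmbedding.subtype_coe W.closed_of_finiteDimensional.measurableSet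
  have hvol : (euclideanHausdorffMeasure 2 : Measure W) = volume := by
    rw [← hW]; exact InnerProductSpace.euclideanHausdorffMeasure_eq_volume
  have hmap : (volume : Measure W).map ((↑) : W → E3) =
      (euclideanHausdorffMeasure 2 : Measure E3).restrict W := by
    rw [← hvol, hiso.map_euclideanHausdorffMeasure]
    simp
  have harea : (euclideanHausdorffMeasure 2 : Measure E3) (K ∩ W) = volume (body ε l e') := by
    rw [← Measure.restrict_apply hKm, ← hmap, hemb.map_apply, hpre]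
  have hcomp := body_compact h0.le hLam
  have hid : IntegrableOn (fun x : W => x) (body ε l e') :=
    continuous_id.continuousOn.integrableOn_compact hcomp
  have hint : ∫ x in K ∩ W, x ∂(euclideanHausdorffMeasure 2 : Measure E3) =
      ((∫ x in body ε l e', x : W) : E3) := by
    rw [← Measure.restrict_restrict hKm, ← hmap, hemb.setIntegral_map, hpre]
    exact W.subtypeL.integral_comp_comm hid
  have hne : (volume (body ε l e')).toReal⁻¹ ≠ 0 := by
    refine inv_ne_zero (ENNReal.toReal_ne_zero.2 ⟨?_, hcomp.measure_lt_top.ne⟩)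
    exact ((measure_ball_pos volume (0 : W) (by norm_num)).trans_le
      (measure_mono (sub_body h0.le hLam))).ne'
  obtain ⟨κ, hκ, hmom⟩ := moment2 (E := W) (ι := Fin 16 × Fin 6) hW
  have hTM : ∀ w : W, ⟪w, ∫ x in body ε l e', x⟫ = ε * κ * TM s u w := by
    intro w
    rw [← integral_inner hid, hmom ε l e' h0.le hLam]
    unfold Mom TM
    simp only [hno, hin, hl]
  rw [harea, hint, smul_eq_zero, or_iff_right hne, Submodule.coe_eq_zero]
  constructor
  · intro h w hw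
    have := hTM ⟨w, (huW w).2 hw⟩
    rw [h, inner_zero_right] at this
    exact (mul_eq_zero.1 this.symm).resolve_left (by positivity)
  · intro h
    refine ext_inner_left ℝ fun w => ?_
    rw [hTM, h w ((huW w).1 w.2)]; simp

end Pool.Agent.H57.Cent
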