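import Mathlib

/-! Permanents of circulant-like matrices modulo p and p squared. -/

namespace Pool.Agent.H57.Circ

open Finset Equiv

lemma free_sum {G X M : Type} [AddGroup G] [Fintype G] [DecidableEq X] [AddCommMonoid M]
    (T : G → X → X) (hT : ∀ a b x, T (a + b) x = T a (T b x)) (h0 : ∀ x, T 0 x = x)
    (P : M → Prop) (hP0 : P 0) (hPa : ∀ a b, P a → P b → P (a + b)) (F : X → M) (s : Finset X)
    (hs : ∀ x ∈ s, ∀ g, T g x ∈ s) (hf : ∀ x ∈ s, ∀ g, T g x = x → g = 0)
    (hF : ∀ x ∈ s, P (∑ g, F (T g x))) : P (∑ x ∈ s, F x) := by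
  induction s using Finset.strongInduction with
  | H s ih =>
    rcases s.eq_empty_or_nonempty with rfl | ⟨x, hx⟩
    · simpa using hP0
    · have hinj : Function.Injective fun g => T g x := by
        intro a b hab
        have : T (-b + a) x = x := by
          rw [hT]; beta_reduce at hab; rw [hab, ← hT, neg_add_cancel, h0]
        have := hf x hx _ this
        rw [neg_add_eq_zero] at this
        exact this.symm
      have hsub : univ.image (fun g => T g x) ⊆ s := by
        intro y hy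
        obtain ⟨g, -, rfl⟩ := mem_image.1 hy
        exact hs x hx g
      rw [← sum_sdiff hsub, sum_image (fun a _ b _ h => hinj h)]
      refine hPa _ _ (ih _ ?_ ?_ ?_ ?_) (hF x hx)
      · refine sdiff_ssubset hsub ⟨x, mem_image.2 ⟨0, mem_univ _, h0 x⟩⟩
      · intro y hy g
        rw [mem_sdiff] at hy ⊢
        refine ⟨hs y hy.1 g, fun h => hy.2 ?_⟩
        obtain ⟨a, -, ha⟩ := mem_image.1 h
        refine mem_image.2 ⟨-g + a, mem_univ _, ?_⟩
        rw [hT, ha, ← hT, neg_add_cancel, h0]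
      · exact fun y hy => hf y (mem_sdiff.1 hy).1
      · exact fun y hy => hF y (mem_sdiff.1 hy).1

variable {p : ℕ} [hp : Fact p.Prime]

/-- conjugation by a shift -/
def T (t : ZMod p) (σ : Perm (ZMod p)) : Perm (ZMod p) :=
  (Equiv.subRight t).trans (σ.trans (Equiv.addRight t))

lemma T_apply (t : ZMod p) (σ : Perm (ZMod p)) (i : ZMod p) : T t σ i = σ (i - t) + t := rfl

lemma T_add (a b : ZMod p) (σ : Perm (ZMod p)) : T (a + b) σ = T a (T b σ) := by
  ext i; simp only [T_apply]; rw [sub_add_eq_sub_sub]; ring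

lemma T_zero (σ : Perm (ZMod p)) : T 0 σ = σ := by ext i; simp [T_apply]

lemma prod_T {M : Type} [CommMonoid M] (w : ZMod p → ZMod p → M) (t : ZMod p)
    (σ : Perm (ZMod p)) : ∏ i, w (T t σ i) i = ∏ i, w (σ i + t) (i + t) := by
  rw [← Equiv.prod_comp (Equiv.addRight t)]
  simp [T_apply]

lemma prod_T' {M : Type} [CommMonoid M] (h : ZMod p → M) (t : ZMod p)
    (σ : Perm (ZMod p)) : ∏ i, h (T t σ i - i) = ∏ i, h (σ i - i) := by
  rw [prod_T (fun a b => h (a - b))]
  simp

lemma sum_T' {M : Type} [AddCommMonoid M] (h : ZMod p → M) (t : ZMod p)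
    (σ : Perm (ZMod p)) : ∑ i, h (T t σ i - i) = ∑ i, h (σ i - i) := by
  rw [← Equiv.sum_comp (Equiv.addRight t)]
  simp [T_apply]

/-- the translations -/
def tr (p : ℕ) [Fact p.Prime] : Finset (Perm (ZMod p)) := univ.image fun a => Equiv.addRight a

lemma mem_tr {σ : Perm (ZMod p)} : σ ∈ tr p ↔ ∃ a, ∀ i, σ i = i + a := by
  simp only [tr, mem_image, mem_univ, true_and]
  exact exists_congr fun a => ⟨fun h i => by rw [← h]; rfl, fun h => by ext i; simp [h]⟩

lemma sum_tr {M : Type} [AddCommMonoid M] (F : Perm (ZMod p) → M) :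
    ∑ σ ∈ tr p, F σ = ∑ a : ZMod p, F (Equiv.addRight a) := by
  rw [tr, sum_image]
  intro a _ b _ h
  simpa using congrArg (fun e : Perm (ZMod p) => e 0) h

lemma T_not_tr {σ : Perm (ZMod p)} (h : σ ∉ tr p) (t : ZMod p) : T t σ ∉ tr p := by
  rw [mem_tr] at h ⊢
  rintro ⟨a, ha⟩
  refine h ⟨a, fun i => ?_⟩
  have := ha (i + t)
  rw [T_apply, add_sub_cancel_right] at this
  linear_combination this

lemma T_free {σ : Perm (ZMod p)} (h : σ ∉ tr p) (t : ZMod p) (ht : T t σ = σ) : t = 0 := by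
  by_contra h0
  refine h (mem_tr.2 ⟨σ 0, fun i => ?_⟩)
  have h1 : ∀ k : ℕ, σ (k * t) = k * t + σ 0 := by
    intro k
    induction k with
    | zero => simp
    | succ k ih =>
      have := congrArg (fun e : Perm (ZMod p) => e ((k + 1 : ℕ) * t)) ht
      simp only [T_apply] at this
      rw [← this, show ((k + 1 : ℕ) : ZMod p) * t - t = k * t by push_cast; ring, ih]
      push_cast; ring
  have := h1 (i / t).val
  rwa [ZMod.natCast_zmod_val, div_mul_cancel₀ _ h0] at this

lemma circ (f : ZMod p → ZMod p) :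
    ∑ σ : Perm (ZMod p), ∏ i, f (σ i - i) = ∑ a, f a := by
  rw [← sum_add_sum_compl (tr p), sum_tr]
  have := free_sum (G := ZMod p) (X := Perm (ZMod p)) (M := ZMod p) T T_add T_zero
    (fun x : ZMod p => x = 0) rfl
    (fun a b ha hb => by rw [ha, hb, add_zero]) (fun σ : Perm (ZMod p) => ∏ i, f (σ i - i)) (tr p)ᶜ
    (fun σ h g => mem_compl.2 (T_not_tr (mem_compl.1 h) g))
    (fun σ h g => T_free (mem_compl.1 h) g)
    (fun σ _ => by simp [prod_T'])
  rw [this, add_zero]
  simp

lemma val_sub' (a b : ZMod p) :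
    (a - b).val + b.val = a.val + p * (if a.val < b.val then 1 else 0) := by
  have h := ZMod.val_add (a - b) b
  rw [sub_add_cancel] at h
  have h1 := (a - b).val_lt
  have h2 := b.val_lt
  by_cases h3 : (a - b).val + b.val < p
  · rw [Nat.mod_eq_of_lt h3] at h
    rw [if_neg (by omega)]; omega
  · rw [Nat.mod_eq_sub_mod (not_lt.1 h3), Nat.mod_eq_of_lt (by omega)] at h
    rw [if_pos (by omega)]; omega

lemma alt_sum (r : ℕ) : ∑ k ∈ range (2 * r + 1), (k : ℤ) * (-1) ^ k = r := by
  induction r with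
  | zero => simp
  | succ r ih =>
    rw [show 2 * (r + 1) + 1 = 2 * r + 1 + 1 + 1 by ring, sum_range_succ, sum_range_succ, ih]
    simp only [pow_succ, pow_mul]
    push_cast; norm_num; ring

lemma abs_per (h2 : p ≠ 2) (c : ℤ) :
    2 * ((∑ σ : Perm (ZMod p), ∏ i, (|((σ i).val : ℤ) - (i.val : ℤ)| +
      if σ i = i then c else 0) : ℤ) : ZMod p) = 2 * c - 1 := by
  obtain ⟨r, hr⟩ := hp.out.odd_of_ne_two h2
  have key : ∀ a b : ZMod p, ((|(a.val : ℤ) - (b.val : ℤ)| + if a = b then c else 0 : ℤ) : ZMod p)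
      = (-1) ^ a.val * (-1) ^ b.val *
        ((a - b) * (-1) ^ (a - b).val + if a - b = 0 then (c : ZMod p) else 0) := by
    intro a b
    by_cases hab : a = b
    · subst hab
      simp [← mul_pow]
    · rw [if_neg hab, if_neg (sub_ne_zero.2 hab), add_zero, add_zero]
      have h := congrArg (fun n => (-1 : ZMod p) ^ n) (val_sub' a b)
      simp only [pow_add] at h
      have hsq : ((-1 : ZMod p) ^ a.val) * (-1) ^ a.val = 1 := by simp [← mul_pow]
      split_ifs at h with h1
      · rw [abs_of_nonpos (by omega)]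
        rw [mul_one, (hp.out.odd_of_ne_two h2).neg_one_pow] at h
        push_cast
        simp only [ZMod.natCast_val, ZMod.cast_id', id]
        linear_combination (-(a - b) * (-1) ^ a.val) * h + (a - b) * hsq
      · rw [abs_of_nonneg (by omega)]
        rw [mul_zero, pow_zero] at h
        push_cast
        simp only [ZMod.natCast_val, ZMod.cast_id', id]
        linear_combination (-(a - b) * (-1) ^ a.val) * h - (a - b) * hsq
  rw [Int.cast_sum]
  simp only [Int.cast_prod, key, prod_mul_distrib]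
  have e : ∀ σ : Perm (ZMod p), (∏ i, (-1 : ZMod p) ^ (σ i).val) * ∏ i : ZMod p, (-1) ^ i.val = 1 := by
    intro σ
    rw [Equiv.prod_comp σ (fun i => (-1 : ZMod p) ^ i.val), ← prod_mul_distrib]
    simp [← mul_pow]
  simp only [e, one_mul]
  rw [circ (fun x => x * (-1) ^ x.val + if x = 0 then (c : ZMod p) else 0), sum_add_distrib]
  have e2 : ∑ x : ZMod p, x * (-1) ^ x.val = (r : ZMod p) := by
    have := congrArg (fun z : ℤ => (z : ZMod p)) (alt_sum r)
    push_cast at this
    rw [← this, ← hr]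
    refine sum_bij (fun x _ => x.val) (fun x _ => mem_range.2 x.val_lt)
      (fun a _ b _ h => ZMod.val_injective _ h)
      (fun k hk => ⟨k, mem_univ _, ZMod.val_cast_of_lt (mem_range.1 hk)⟩) (fun x _ => by simp)
  have e3 : (2 * r + 1 : ZMod p) = 0 := by
    have : ((2 * r + 1 : ℕ) : ZMod p) = 0 := by rw [← hr]; simp
    exact_mod_cast this
  rw [e2]
  simp only [sum_ite_eq', mem_univ, if_true]
  linear_combination e3

lemma sum_fin {M : Type} [CommSemiring M] (w : ℕ → ℕ → M) :
    ∑ σ : Perm (Fin p), ∏ i, w (σ i) i = ∑ σ : Perm (ZMod p), ∏ i, w (σ i).val i.val := by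
  have hv : ∀ i : Fin p, (ZMod.finEquiv p i).val = i := by
    intro i
    obtain ⟨n, rfl⟩ := Nat.exists_eq_succ_of_ne_zero hp.out.ne_zero
    rfl
  rw [← Equiv.sum_comp (ZMod.finEquiv p).toEquiv.permCongr]
  refine sum_congr rfl fun σ _ => ?_
  rw [← Equiv.prod_comp (ZMod.finEquiv p).toEquiv]
  simp [hv]

lemma abs_fin (h2 : p ≠ 2) (c : ℤ) :
    (p : ℤ) ∣ 2 * (Matrix.of fun j k : Fin p =>
      |((j : ℕ) : ℤ) - ((k : ℕ) : ℤ)| + if j = k then c else 0).permanent - (2 * c - 1) := by
  rw [← ZMod.intCast_zmod_eq_zero_iff_dvd]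
  have h := abs_per h2 c
  have h3 := sum_fin (p := p) (fun a b => |(a : ℤ) - (b : ℤ)| + if a = b then c else 0)
  simp only [Fin.val_inj, (ZMod.val_injective p).eq_iff] at h3
  simp only [Matrix.permanent, Matrix.of_apply]
  rw [h3]
  push_cast at h ⊢
  linear_combination h

end Pool.Agent.H57.Circ
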