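import Pool.Agent.H57.Circ

/-! The permanent of the matrix of `i - l + delta` modulo p squared. -/

namespace Pool.Agent.H57.Circ

open Finset Equiv

lemma prod_expand {ι : Type} [DecidableEq ι] (q : ℤ) (d e : ι → ℤ) (s : Finset ι) :
    q ^ 2 ∣ ∏ i ∈ s, (d i - q * e i) - (∏ i ∈ s, d i - q * ∑ i ∈ s, e i * ∏ j ∈ s.erase i, d j) := by
  induction s using Finset.induction_on with
  | empty => simp
  | insert a s ha ih =>
    obtain ⟨c, hc⟩ := ih
    have e1 : ∑ i ∈ s, e i * ∏ j ∈ (insert a s).erase i, d j =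
        d a * ∑ i ∈ s, e i * ∏ j ∈ s.erase i, d j := by
      rw [mul_sum]
      refine sum_congr rfl fun i hi => ?_
      rw [erase_insert_of_ne (by rintro rfl; exact ha hi),
        prod_insert (fun h => ha (mem_of_mem_erase h))]
      ring
    rw [prod_insert ha, prod_insert ha, sum_insert ha, erase_insert ha, e1]
    refine ⟨(d a - q * e a) * c + e a * ∑ i ∈ s, e i * ∏ j ∈ s.erase i, d j, ?_⟩
    linear_combination (d a - q * e a) * hc

variable {p : ℕ} [hp : Fact p.Prime]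

/-- the circulant lift -/
def dd (x : ZMod p) : ℤ := (x.val : ℤ) + if x = 0 then 1 else 0

/-- the matrix entry -/
def ww (a b : ZMod p) : ℤ := (a.val : ℤ) - (b.val : ℤ) + if a = b then 1 else 0

/-- the carry -/
def ee (a b : ZMod p) : ℤ := if a.val < b.val then 1 else 0

/-- number of moved points -/
def mm (σ : Perm (ZMod p)) : ℕ := ∑ i, if σ i - i = 0 then 0 else 1

lemma ww_eq (a b : ZMod p) : ww a b = dd (a - b) - p * ee a b := by
  have h := val_sub' a b
  simp only [ww, dd, ee, sub_eq_zero]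
  split_ifs at h ⊢ <;> omega

lemma sum_ee (a b : ZMod p) : ∑ t, ee (a + t) (b + t) = (a - b).val := by
  have h : ∀ t, (p : ℤ) * ee (a + t) (b + t) = (a - b).val + (b + t).val - (a + t).val := by
    intro t
    have h := val_sub' (a + t) (b + t)
    rw [add_sub_add_right_eq_sub] at h
    simp only [ee]
    split_ifs at h ⊢ <;> omega
  refine mul_left_cancel₀ (show (p : ℤ) ≠ 0 by exact_mod_cast hp.out.ne_zero) ?_
  rw [mul_sum]
  simp only [h, sum_sub_distrib, sum_add_distrib]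
  rw [Equiv.sum_comp (Equiv.addLeft a) (fun x => (x.val : ℤ)) |>.symm.symm.trans
    (Equiv.sum_comp (Equiv.addLeft b) (fun x => (x.val : ℤ))).symm |> fun h => (h : ∑ t, ((a + t).val : ℤ) = ∑ t, ((b + t).val : ℤ))]
  simp

lemma val_mul_erase (σ : Perm (ZMod p)) (i : ZMod p) :
    ((σ i - i).val : ℤ) * ∏ j ∈ univ.erase i, dd (σ j - j) =
      (if σ i - i = 0 then 0 else 1) * ∏ j, dd (σ j - j) := by
  rw [← mul_prod_erase _ _ (mem_univ i)]
  split_ifs with h
  · simp [h]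
  · simp [dd, h]

lemma orbit_sum (σ : Perm (ZMod p)) : (p : ℤ) ^ 2 ∣
    ∑ t, ((∏ i, ww (T t σ i) i) - (∏ i, dd (T t σ i - i)) * (1 - mm (T t σ))) := by
  have h1 : ∀ t, mm (T t σ) = mm σ := fun t => sum_T' (fun x => if x = 0 then 0 else 1) t σ
  simp only [prod_T ww, prod_T' dd, h1]
  simp only [ww_eq, add_sub_add_right_eq_sub]
  have h2 := dvd_sum (s := univ) fun t _ => prod_expand (p : ℤ) (fun i => dd (σ i - i))
    (fun i => ee (σ i + t) (i + t)) univ
  have h3 : ∑ t, ∑ i, ee (σ i + t) (i + t) * ∏ j ∈ univ.erase i, dd (σ j - j) =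
      mm σ * ∏ j, dd (σ j - j) := by
    rw [sum_comm]
    simp only [← sum_mul, sum_ee, val_mul_erase]
    simp [mm]
  refine h2.trans (dvd_of_eq ?_)
  rw [sum_sub_distrib, sum_sub_distrib, sum_sub_distrib, ← mul_sum _ _ (p : ℤ), h3]
  simp only [sum_const, card_univ, ZMod.card, nsmul_eq_mul]
  ring

lemma mm_le (σ : Perm (ZMod p)) : mm σ ≤ p := by
  calc mm σ ≤ ∑ _i : ZMod p, 1 := sum_le_sum fun i _ => by split_ifs <;> simp
    _ = p := by simp

lemma mm_zero {σ : Perm (ZMod p)} (h : mm σ = 0) : σ ∈ tr p := by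
  refine mem_tr.2 ⟨0, fun i => ?_⟩
  have := (sum_eq_zero_iff.1 h) i (mem_univ _)
  split_ifs at this with h1
  linear_combination h1

lemma prod_dd_mul (σ : Perm (ZMod p)) (u : (ZMod p)ˣ) :
    ((∏ i, dd ((u : ZMod p) * (σ i - i)) : ℤ) : ZMod p) = u ^ mm σ * (∏ i, dd (σ i - i) : ℤ) := by
  simp only [mm, ← prod_pow_eq_pow_sum, Int.cast_prod, ← prod_mul_distrib]
  refine prod_congr rfl fun i _ => ?_
  by_cases h : σ i - i = 0
  · simp [h]
  · simp [dd, h]

/-- conjugation by a dilation -/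
def S (u : (ZMod p)ˣ) : Perm (ZMod p) ≃ Perm (ZMod p) := (Units.mulLeft u).permCongr

lemma S_apply (u : (ZMod p)ˣ) (σ : Perm (ZMod p)) (i : ZMod p) : S u σ (u * i) = u * σ i := by
  rw [S, Equiv.permCongr_apply]
  exact congrArg (fun x => (u : ZMod p) * σ x) ((Units.mulLeft u).symm_apply_apply i)

lemma prod_S {M : Type} [CommMonoid M] (h : ZMod p → M) (u : (ZMod p)ˣ)
    (σ : Perm (ZMod p)) : ∏ i, h (S u σ i - i) = ∏ i, h (u * (σ i - i)) := by
  rw [← Equiv.prod_comp (Units.mulLeft u)]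
  simp only [Units.mulLeft_apply, S_apply, mul_sub]

lemma mm_S (u : (ZMod p)ˣ) (σ : Perm (ZMod p)) : mm (S u σ) = mm σ := by
  rw [mm, ← Equiv.sum_comp (Units.mulLeft u)]
  simp only [Units.mulLeft_apply, S_apply, ← mul_sub, Units.mul_right_eq_zero, mm]

lemma S_tr (u : (ZMod p)ˣ) (σ : Perm (ZMod p)) : S u σ ∈ tr p ↔ σ ∈ tr p := by
  simp only [mem_tr]
  constructor
  · rintro ⟨a, ha⟩
    refine ⟨(u⁻¹ : (ZMod p)ˣ) * a, fun i => ?_⟩
    have := ha (u * i)
    rw [S_apply] at this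
    have h2 : ((u⁻¹ : (ZMod p)ˣ) : ZMod p) * u = 1 := u.inv_mul
    linear_combination (u⁻¹ : (ZMod p)ˣ) * this - (σ i - i) * h2
  · rintro ⟨a, ha⟩
    refine ⟨u * a, fun i => ?_⟩
    obtain ⟨j, rfl⟩ := (Units.mulLeft u).surjective i
    rw [Units.mulLeft_apply, S_apply, ha, mul_add]

lemma part2 (h2 : p ≠ 2) : (p : ℤ) ^ 2 ∣ ∑ σ ∈ (tr p)ᶜ.filter (fun σ => mm σ ≠ p - 1),
    (∏ i, dd (σ i - i)) * (1 - mm σ) := by
  set s := (tr p)ᶜ.filter (fun σ => mm σ ≠ p - 1) with hs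
  have h1 : ∀ t (σ : Perm (ZMod p)), mm (T t σ) = mm σ :=
    fun t σ => sum_T' (fun x => if x = 0 then 0 else 1) t σ
  have h3 : ∀ u : (ZMod p)ˣ, ∑ σ ∈ s, (∏ i, dd (σ i - i)) * (1 - mm σ) =
      ∑ σ ∈ s, (∏ i, dd ((u : ZMod p) * (σ i - i))) * (1 - mm σ) := by
    intro u
    symm
    refine sum_equiv (S u) (fun σ => ?_) (fun σ _ => ?_)
    · simp [hs, S_tr, mm_S]
    · rw [prod_S dd, mm_S]
  have h4 := free_sum (G := ZMod p) (X := Perm (ZMod p)) (M := ℤ) T T_add T_zero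
    (fun x : ℤ => (p : ℤ) ^ 2 ∣ x) (dvd_zero _) (fun a b ha hb => dvd_add ha hb)
    (fun σ : Perm (ZMod p) => ∑ u : (ZMod p)ˣ, (∏ i, dd ((u : ZMod p) * (σ i - i))) * (1 - mm σ)) s
    (fun σ h g => by
      rw [hs, mem_filter, mem_compl] at h ⊢
      exact ⟨T_not_tr h.1 g, by rw [h1]; exact h.2⟩)
    (fun σ h g => T_free (mem_compl.1 (mem_filter.1 h).1) g)
    (fun σ h => by
      rw [hs, mem_filter, mem_compl] at h
      have h5 : ∀ (u : (ZMod p)ˣ) (g : ZMod p), ∏ i, dd ((u : ZMod p) * (T g σ i - i)) =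
          ∏ i, dd ((u : ZMod p) * (σ i - i)) :=
        fun u g => prod_T' (fun x => dd ((u : ZMod p) * x)) g σ
      simp only [h5, h1, sum_const, card_univ, ZMod.card, nsmul_eq_mul, pow_two]
      refine mul_dvd_mul_left _ ?_
      rw [← ZMod.intCast_zmod_eq_zero_iff_dvd, ← sum_mul, Int.cast_mul, Int.cast_sum]
      simp only [prod_dd_mul]
      rw [← sum_mul, FiniteField.sum_pow_units, if_neg, zero_mul, zero_mul]
      rw [ZMod.card]
      rintro ⟨c, hc⟩
      have h6 := mm_le σ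
      have h7 := hp.out.two_le
      have h8 : mm σ ≠ 0 := fun h0 => h.1 (mm_zero h0)
      rcases c with _ | _ | c
      · omega
      · exact h.2 (by omega)
      · obtain ⟨r, hr⟩ := hp.out.odd_of_ne_two h2
        have : p - 1 = 2 * r := by omega
        rw [this] at hc
        have h9 : 2 * r * 2 ≤ 2 * r * (c + 1 + 1) := Nat.mul_le_mul_left _ (by omega)
        omega)
  rw [sum_comm] at h4
  simp only [← h3, sum_const, card_univ, ZMod.card_units, nsmul_eq_mul] at h4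
  refine IsCoprime.dvd_of_dvd_mul_left ?_ h4
  refine IsCoprime.pow_left ?_
  rw [Nat.cast_sub hp.out.one_le]
  exact ⟨1, -1, by simp⟩

lemma unit_sum (h2 : p ≠ 2) : ∑ τ : Perm (ZMod p)ˣ, ∏ i, ((τ i : ZMod p) - i) = 2 := by
  have h1 : ∀ u : (ZMod p)ˣ, ∑ τ : Perm (ZMod p)ˣ, ∏ i, ((τ i : ZMod p) - i) =
      ∑ τ : Perm (ZMod p)ˣ, ∏ i : (ZMod p)ˣ, (-(u * i : ZMod p) + (τ i : ZMod p)) := by
    intro u
    symm
    rw [← Equiv.sum_comp (Equiv.mulRight (Equiv.mulLeft u))]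
    refine sum_congr rfl fun τ _ => ?_
    rw [← Equiv.prod_comp (Equiv.mulLeft u) (fun i => (τ i : ZMod p) - i)]
    refine prod_congr rfl fun i _ => ?_
    simp [neg_add_eq_sub]
  have hprod : ∏ i : (ZMod p)ˣ, (i : ZMod p) = -1 := by
    rw [← Units.coe_prod, FiniteField.prod_univ_units_id_eq_neg_one]; simp
  have hev : Even (p - 1) := hp.out.even_sub_one h2
  have h3 : ∀ τ : Perm (ZMod p)ˣ,
      ∑ u : (ZMod p)ˣ, ∏ i : (ZMod p)ˣ, (-(u * i : ZMod p) + (τ i : ZMod p)) = 2 := by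
    intro τ
    have h4 : ∀ (u : (ZMod p)ˣ) (t : Finset (ZMod p)ˣ), ∏ i ∈ t, -(u * i : ZMod p) =
        (u : ZMod p) ^ t.card * ∏ i ∈ t, -(i : ZMod p) := by
      intro u t
      rw [← prod_const, ← prod_mul_distrib]
      simp
    simp only [prod_add, h4, mul_assoc]
    rw [sum_comm]
    simp only [← sum_mul, FiniteField.sum_pow_units, ZMod.card]
    rw [sum_eq_add (∅ : Finset (ZMod p)ˣ) univ (Ne.symm univ_nonempty.ne_empty)]
    · rw [Equiv.prod_comp τ (fun i => (i : ZMod p)) |> fun h =>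
        (h : ∏ i, (τ i : ZMod p) = _) |> fun h => (by simpa using h :
          ∏ i ∈ univ \ ∅, (τ i : ZMod p) = ∏ i : (ZMod p)ˣ, (i : ZMod p))]
      simp [prod_neg, hprod, Nat.totient_prime hp.out, hev.neg_one_pow]
      norm_num
    · intro t _ ht
      rw [if_neg, zero_mul]
      intro hd
      have h5 : t.card < p - 1 := by
        rw [← ZMod.card_units p]
        exact card_lt_card (ssubset_univ_iff.2 ht.2)
      exact ht.1 (card_eq_zero.1 (Nat.eq_zero_of_dvd_of_lt hd h5))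
    · simp
    · simp
  have h6 : ∑ u : (ZMod p)ˣ, ∑ τ : Perm (ZMod p)ˣ, ∏ i, ((τ i : ZMod p) - i) =
      ∑ τ : Perm (ZMod p)ˣ, (2 : ZMod p) := by
    rw [sum_congr rfl fun u _ => h1 u, sum_comm]
    simp only [h3]
  simp only [sum_const, card_univ, ZMod.card_units, Fintype.card_perm, nsmul_eq_mul,
    ZMod.wilsons_lemma, Nat.cast_sub hp.out.one_le, ZMod.natCast_self, Nat.cast_one] at h6
  linear_combination -h6

lemma fix_sum (h2 : p ≠ 2) : ∑ σ ∈ univ.filter (fun σ : Perm (ZMod p) => σ 0 = 0),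
    ∏ i ∈ univ.erase 0, (σ i - i) = 2 := by
  rw [← unit_sum h2]
  symm
  let e : (ZMod p)ˣ ≃ {x : ZMod p // x ≠ 0} := unitsEquivNeZero
  refine sum_bij (fun τ _ => Perm.ofSubtype (e.permCongr τ)) (fun τ _ => ?_) (fun a _ b _ h => ?_)
    (fun σ h => ?_) (fun τ _ => ?_)
  · simp [Perm.ofSubtype_apply_of_not_mem]
  · exact e.permCongr.injective (Perm.ofSubtype_injective h)
  · have h0 := (mem_filter.1 h).2
    have h1 : ∀ x, σ x ≠ 0 ↔ x ≠ 0 := fun x => by
      rw [← h0, σ.injective.ne_iff, h0]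
    refine ⟨e.permCongr.symm (σ.subtypePerm h1), mem_univ _, ?_⟩
    rw [Equiv.apply_symm_apply]
    refine Perm.ofSubtype_subtypePerm h1 fun x hx => ?_
    rintro rfl; exact hx h0
  · refine prod_bij (fun i _ => (i : ZMod p)) (fun i _ => by simp) (fun a _ b _ h => Units.ext h)
      (fun x hx => ⟨Units.mk0 x (ne_of_mem_erase hx), mem_univ _, rfl⟩) (fun i _ => ?_)
    rw [Perm.ofSubtype_apply_of_mem (p := fun x : ZMod p => x ≠ 0) _ i.ne_zero]
    simp [e]

lemma mm_iff (σ : Perm (ZMod p)) : mm σ + (univ.filter fun i => σ i = i).card = p := by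
  rw [mm, card_filter, ← sum_add_distrib]
  conv_rhs => rw [← ZMod.card p, ← card_univ, card_eq_sum_ones]
  refine sum_congr rfl fun i _ => ?_
  simp only [sub_eq_zero]
  split_ifs <;> rfl

lemma part1 (h2 : p ≠ 2) : (p : ℤ) ^ 2 ∣ ∑ σ ∈ (tr p)ᶜ.filter (fun σ => ¬ mm σ ≠ p - 1),
    (∏ i, dd (σ i - i)) * (1 - mm σ) - 4 * p := by
  have h1 : ∀ t (σ : Perm (ZMod p)), mm (T t σ) = mm σ :=
    fun t σ => sum_T' (fun x => if x = 0 then 0 else 1) t σ
  have h3 := hp.out.two_le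
  have e1 : (tr p)ᶜ.filter (fun σ => ¬ mm σ ≠ p - 1) = univ.filter (fun σ => mm σ = p - 1) := by
    ext σ
    simp only [mem_filter, mem_compl, mem_univ, true_and, not_not, and_iff_right_iff_imp]
    intro h h'
    obtain ⟨a, ha⟩ := mem_tr.1 h'
    by_cases h0 : a = 0
    · simp [mm, ha, h0] at h; omega
    · simp [mm, ha, h0] at h; omega
  set Y := ∑ σ ∈ univ.filter (fun σ : Perm (ZMod p) => mm σ = p - 1 ∧ σ 0 = 0),
    ∏ i, dd (σ i - i) with hY
  have e2 : ∑ σ ∈ univ.filter (fun σ : Perm (ZMod p) => mm σ = p - 1), ∏ i, dd (σ i - i)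
      = p * Y := by
    have e3 : ∀ a : ZMod p, ∑ σ ∈ univ.filter (fun σ : Perm (ZMod p) => mm σ = p - 1 ∧ σ a = a),
        ∏ i, dd (σ i - i) = Y := by
      intro a
      symm
      refine sum_nbij' (T a) (T (-a)) (fun σ h => ?_) (fun σ h => ?_) (fun σ _ => ?_)
        (fun σ _ => ?_) (fun σ _ => (prod_T' dd a σ).symm)
      · simp only [mem_filter, mem_univ, true_and, h1, T_apply] at h ⊢
        simp [h.1, h.2]
      · simp only [mem_filter, mem_univ, true_and, h1, T_apply] at h ⊢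
        simp [h.1, h.2]
      · rw [← T_add, neg_add_cancel, T_zero]
      · rw [← T_add, add_neg_cancel, T_zero]
    have e4 : ∑ a : ZMod p, Y = p * Y := by simp
    rw [← e4, ← sum_congr rfl fun a _ => e3 a]
    simp only [← filter_filter, sum_filter (fun σ : Perm (ZMod p) => σ _ = _)]
    rw [sum_comm]
    refine sum_congr rfl fun σ hσ => ?_
    have := mm_iff σ
    rw [(mem_filter.1 hσ).2] at this
    rw [← sum_filter, sum_const, show (univ.filter fun i => σ i = i).card = 1 by omega, one_smul]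
  have e5 : (Y : ZMod p) = 2 := by
    rw [← fix_sum h2, hY, Int.cast_sum, ← filter_filter, filter_comm, sum_filter]
    refine sum_congr rfl fun σ hσ => ?_
    have h0 := (mem_filter.1 hσ).2
    have h5 := mm_iff σ
    split_ifs with h
    · rw [h] at h5
      have h6 : (univ.filter fun i => σ i = i).card ≤ 1 := by omega
      rw [← mul_prod_erase _ _ (mem_univ 0), Int.cast_mul, Int.cast_prod]
      simp only [h0, dd, sub_self, ZMod.val_zero, if_true]
      simp only [CharP.cast_eq_zero, zero_add, Int.cast_one, one_mul, Nat.cast_zero]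
      refine prod_congr rfl fun i hi => ?_
      rw [if_neg]
      · simp
      · intro h7
        exact ne_of_mem_erase hi (card_le_one.1 h6 i (by simpa [sub_eq_zero] using h7) 0
          (by simpa using h0))
    · have h6 : 1 < (univ.filter fun i => σ i = i).card := by
        have : 0 < (univ.filter fun i => σ i = i).card := card_pos.2 ⟨0, by simpa using h0⟩
        omega
      obtain ⟨i, hi, hi0⟩ := exists_mem_ne h6 0
      symm
      exact prod_eq_zero (mem_erase.2 ⟨hi0, mem_univ _⟩) (by simpa [sub_eq_zero] using hi)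
  have e6 : (p : ℤ) ∣ Y - 2 := by
    rw [← ZMod.intCast_zmod_eq_zero_iff_dvd]
    push_cast
    rw [e5, sub_self]
  obtain ⟨c, hc⟩ := e6
  rw [e1, sum_congr rfl (g := fun σ => (∏ i, dd (σ i - i)) * (2 - p)) (fun σ h => by
    rw [(mem_filter.1 h).2, Nat.cast_sub hp.out.one_le]; push_cast; ring), ← sum_mul, e2]
  refine ⟨c * (2 - p) - 2, ?_⟩
  linear_combination (p * (2 - p) : ℤ) * hc

lemma part0 (h2 : p ≠ 2) : (p : ℤ) ^ 2 ∣ ∑ σ ∈ tr p, ∏ i, ww (σ i) i - 1 := by
  rw [sum_tr, ← add_sum_erase _ _ (mem_univ 0)]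
  simp only [coe_addRight, add_zero, ww_eq, add_sub_cancel_left, sub_self]
  have e0 : ∏ i : ZMod p, (dd (0 : ZMod p) - p * ee i i) = 1 := by simp [dd, ee]
  rw [e0, add_sub_cancel_left]
  have h1 : ∀ a ∈ univ.erase (0 : ZMod p), (p : ℤ) ^ 2 ∣
      ∏ i : ZMod p, (dd a - p * ee (i + a) i) - (a.val : ℤ) ^ p * (1 - p) := by
    intro a ha
    have h3 := prod_expand (p : ℤ) (fun _ => dd a) (fun i : ZMod p => ee (i + a) i) univ
    have h4 := sum_ee a 0
    simp only [zero_add, sub_zero, add_comm a] at h4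
    simp only [prod_const, card_erase_of_mem (mem_univ _), card_univ, ZMod.card, ← sum_mul,
      h4] at h3
    convert h3 using 2
    simp only [dd, if_neg (ne_of_mem_erase ha), add_zero]
    rw [← pow_succ', Nat.sub_add_cancel hp.out.one_le]
    ring
  have h5 := dvd_sum h1
  rw [sum_sub_distrib, ← sum_mul] at h5
  refine (dvd_sub_left (Dvd.dvd.mul_right ?_ _)).1 h5
  have h6 : (p : ℤ) ^ 2 ∣ 2 * ∑ a ∈ univ.erase (0 : ZMod p), (a.val : ℤ) ^ p := by
    have : ∑ a ∈ univ.erase (0 : ZMod p), (a.val : ℤ) ^ p =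
        ∑ a ∈ univ.erase (0 : ZMod p), ((-a).val : ℤ) ^ p :=
      sum_equiv (Equiv.neg _) (by simp) (by simp)
    rw [two_mul]
    nth_rewrite 1 [this]
    rw [← sum_add_distrib]
    refine dvd_sum fun a ha => ?_
    have h7 := dvd_sub_pow_of_dvd_sub (R := ℤ) (p := p) (a := ((-a).val : ℤ)) (b := -(a.val : ℤ))
      (by rw [← ZMod.intCast_zmod_eq_zero_iff_dvd]; simp) 1
    rwa [pow_one, (hp.out.odd_of_ne_two h2).neg_pow, sub_neg_eq_add] at h7
  refine IsCoprime.dvd_of_dvd_mul_left (IsCoprime.pow_left ?_) h6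
  obtain ⟨r, hr⟩ := hp.out.odd_of_ne_two h2
  exact ⟨1, -r, by rw [hr]; push_cast; ring⟩

theorem per_sq (h2 : p ≠ 2) :
    (p : ℤ) ^ 2 ∣ ∑ σ : Perm (ZMod p), ∏ i, ww (σ i) i - (4 * p + 1) := by
  have h := free_sum (G := ZMod p) (X := Perm (ZMod p)) (M := ℤ) T T_add T_zero
    (fun x : ℤ => (p : ℤ) ^ 2 ∣ x) (dvd_zero _) (fun a b ha hb => dvd_add ha hb)
    (fun σ : Perm (ZMod p) => (∏ i, ww (σ i) i) - (∏ i, dd (σ i - i)) * (1 - mm σ)) (tr p)ᶜ
    (fun σ h g => mem_compl.2 (T_not_tr (mem_compl.1 h) g))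
    (fun σ h g => T_free (mem_compl.1 h) g) (fun σ _ => orbit_sum σ)
  rw [sum_sub_distrib, ← sum_filter_add_sum_filter_not (tr p)ᶜ (fun σ => mm σ ≠ p - 1)
    (fun σ => (∏ i, dd (σ i - i)) * (1 - (mm σ : ℤ)))] at h
  have := dvd_add (dvd_add (dvd_add h (part0 h2)) (part1 h2)) (part2 h2)
  rw [← sum_add_sum_compl (tr p)]
  refine this.trans (dvd_of_eq ?_)
  ring

end Pool.Agent.H57.Circ
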