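import Mathlib

namespace Pool.Agent.H57.Col

/-- The `3x+1` map. -/
def T (m : ℕ) : ℕ := if m % 2 = 0 then m / 2 else (3 * m + 1) / 2

end Pool.Agent.H57.Col
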