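import Mathlib
import Pool.Agent.H57.ColDefs

namespace Pool.Agent.H57.Col

open Finset Real

/-- number of odd steps among the first `k` steps -/
def od : ℕ → ℕ → ℕ
  | 0, _ => 0
  | k + 1, n => if T^[k] n % 2 = 0 then od k n else od k n + 1

/-- additive constant after `k` steps -/
def cc : ℕ → ℕ → ℕ
  | 0, _ => 0
  | k + 1, n => if T^[k] n % 2 = 0 then cc k n else 3 * cc k n + 2 ^ k

lemma T_even {x : ℕ} (h : x % 2 = 0) : 2 * T x = x := by
  unfold T; rw [if_pos h]; omega

lemma T_odd {x : ℕ} (h : ¬ x % 2 = 0) : 2 * T x = 3 * x + 1 := by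
  unfold T; rw [if_neg h]; omega

lemma iter_eq (k n : ℕ) : 2 ^ k * T^[k] n = 3 ^ od k n * n + cc k n := by
  induction k with
  | zero => simp [od, cc]
  | succ k ih =>
    rw [Function.iterate_succ_apply', od, cc]
    by_cases h : T^[k] n % 2 = 0
    · rw [if_pos h, if_pos h, pow_succ, mul_assoc, T_even h, ih]
    · rw [if_neg h, if_neg h, pow_succ, mul_assoc, T_odd h]
      have : 2 ^ k * (3 * T^[k] n + 1) = 3 * (2 ^ k * T^[k] n) + 2 ^ k := by ring
      rw [this, ih]; ring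

lemma od_le (k n : ℕ) : od k n ≤ k := by
  induction k with
  | zero => simp [od]
  | succ k ih => rw [od]; split_ifs <;> omega

lemma shift (k n u : ℕ) : T^[k] (2 ^ k * u + n) = T^[k] n + 3 ^ od k n * u ∧
    od k (2 ^ k * u + n) = od k n ∧ cc k (2 ^ k * u + n) = cc k n := by
  induction k generalizing u with
  | zero => simp [od, cc, add_comm]
  | succ k ih =>
    obtain ⟨h1, h2, h3⟩ := ih (2 * u)
    have e : 2 ^ (k + 1) * u + n = 2 ^ k * (2 * u) + n := by ring
    have e2 : 3 ^ od k n * (2 * u) = 2 * (3 ^ od k n * u) := by ring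
    rw [e]
    simp only [Function.iterate_succ_apply', od, cc, h1, h2, h3, e2]
    by_cases h : T^[k] n % 2 = 0
    · have h' : (T^[k] n + 2 * (3 ^ od k n * u)) % 2 = 0 := by omega
      rw [if_pos h, if_pos h', if_pos h, if_pos h']
      refine ⟨?_, rfl, rfl⟩
      have := T_even h; have := T_even h'; omega
    · have h' : ¬ (T^[k] n + 2 * (3 ^ od k n * u)) % 2 = 0 := by omega
      rw [if_neg h, if_neg h', if_neg h, if_neg h']
      refine ⟨?_, rfl, rfl⟩
      have := T_odd h; have := T_odd h'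
      rw [pow_succ, mul_comm _ 3, mul_assoc]
      omega

lemma sum_step (F : ℕ → ℕ → ℝ) (k : ℕ) :
    ∑ n ∈ range (2 ^ (k + 1)), F (od (k + 1) n) (cc (k + 1) n) =
      ∑ n ∈ range (2 ^ k), (F (od k n) (cc k n) + F (od k n + 1) (3 * cc k n + 2 ^ k)) := by
  rw [show 2 ^ (k + 1) = 2 ^ k + 2 ^ k by ring, Finset.sum_range_add, ← Finset.sum_add_distrib]
  refine Finset.sum_congr rfl fun n _ => ?_
  obtain ⟨h1, h2, h3⟩ := shift k n 1
  rw [mul_one] at h1 h2 h3
  have hodd : 3 ^ od k n % 2 = 1 := Nat.odd_iff.mp (Odd.pow (by decide))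
  simp only [od, cc, h1, h2, h3, mul_one]
  by_cases h : T^[k] n % 2 = 0
  · have h' : ¬ (T^[k] n + 3 ^ od k n) % 2 = 0 := by omega
    rw [if_pos h, if_neg h', if_pos h, if_neg h']
  · have h' : (T^[k] n + 3 ^ od k n) % 2 = 0 := by omega
    rw [if_neg h, if_pos h', if_neg h, if_pos h', add_comm]

lemma sum_pow_od (θ : ℝ) (k : ℕ) : ∑ n ∈ range (2 ^ k), θ ^ od k n = (1 + θ) ^ k := by
  induction k with
  | zero => simp [od]
  | succ k ih =>
    have := sum_step (fun o _ => θ ^ o) k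
    rw [this, pow_succ, ← ih, Finset.sum_mul]
    refine Finset.sum_congr rfl fun n _ => by ring

lemma sum_cc (k : ℕ) : 4 * ∑ n ∈ range (2 ^ k), (cc k n : ℝ) = k * 4 ^ k := by
  induction k with
  | zero => simp [cc]
  | succ k ih =>
    have := sum_step (fun _ c => (c : ℝ)) k
    rw [this]
    have e : ∑ n ∈ range (2 ^ k), ((cc k n : ℝ) + ((3 * cc k n + 2 ^ k : ℕ) : ℝ)) =
        4 * ∑ n ∈ range (2 ^ k), (cc k n : ℝ) + 2 ^ k * 2 ^ k := by
      rw [Finset.mul_sum]
      have : (2 : ℝ) ^ k * 2 ^ k = ∑ n ∈ range (2 ^ k), (2 : ℝ) ^ k := by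
        simp
      rw [this, ← Finset.sum_add_distrib]
      refine Finset.sum_congr rfl fun n _ => by push_cast; ring
    rw [e, ih, ← mul_pow]; push_cast; ring

lemma markov (s : Finset ℕ) (f : ℕ → ℝ) (hf : ∀ n ∈ s, 0 ≤ f n) (p : ℕ → Prop) [DecidablePred p]
    (b : ℝ) (hb : ∀ n ∈ s, p n → b ≤ f n) : ((s.filter p).card : ℝ) * b ≤ ∑ n ∈ s, f n := by
  calc ((s.filter p).card : ℝ) * b = ∑ n ∈ s.filter p, b := by simp
    _ ≤ ∑ n ∈ s.filter p, f n := Finset.sum_le_sum fun n hn => by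
        rw [Finset.mem_filter] at hn; exact hb n hn.1 hn.2
    _ ≤ ∑ n ∈ s, f n := Finset.sum_le_sum_of_subset_of_nonneg (Finset.filter_subset _ _)
        fun n hn _ => hf n hn

lemma card_interval (S : Finset ℕ) (u w : ℝ) (hw : 0 ≤ w)
    (h : ∀ n ∈ S, u - w ≤ n ∧ (n : ℝ) ≤ u) : (S.card : ℝ) ≤ w + 1 := by
  rcases S.eq_empty_or_nonempty with rfl | hS
  · simp; linarith
  have h1 : S ⊆ Finset.Icc (S.min' hS) (S.max' hS) := fun n hn =>
    Finset.mem_Icc.mpr ⟨S.min'_le n hn, S.le_max' n hn⟩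
  have h2 := Finset.card_le_card h1
  rw [Nat.card_Icc] at h2
  have h3 := (h _ (S.min'_mem hS)).1
  have h4 := (h _ (S.max'_mem hS)).2
  have h5 : S.min' hS ≤ S.max' hS := S.min'_le _ (S.max'_mem hS)
  have h6 : S.card + S.min' hS ≤ S.max' hS + 1 := by omega
  have h7 : (S.card : ℝ) + S.min' hS ≤ S.max' hS + 1 := by exact_mod_cast h6
  linarith

lemma bad1 (k : ℕ) (R : ℝ) (hR : 0 < R) :
    (((range (2 ^ k)).filter fun m => ¬ (3 : ℝ) ^ od k m ≤ 2 ^ k * R).card : ℝ) ≤ 2 ^ k / R := by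
  have := markov (range (2 ^ k)) (fun m => (3 : ℝ) ^ od k m) (fun _ _ => by positivity)
    (fun m => ¬ (3 : ℝ) ^ od k m ≤ 2 ^ k * R) (2 ^ k * R) (fun n _ h => by push Not at h; exact h.le)
  rw [sum_pow_od, show (1 + 3 : ℝ) = 2 * 2 by norm_num, mul_pow] at this
  rw [le_div_iff₀ hR]
  have h2 : (0 : ℝ) < 2 ^ k := by positivity
  nlinarith

lemma bad2 (k : ℕ) (R : ℝ) (hR : 0 < R) :
    (((range (2 ^ k)).filter fun m => ¬ (cc k m : ℝ) ≤ 2 ^ k * R).card : ℝ) ≤ k * 2 ^ k / R := by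
  have := markov (range (2 ^ k)) (fun m => (cc k m : ℝ)) (fun _ _ => by positivity)
    (fun m => ¬ (cc k m : ℝ) ≤ 2 ^ k * R) (2 ^ k * R) (fun n _ h => by push Not at h; exact h.le)
  have h4 := sum_cc k
  rw [show (4 : ℝ) ^ k = 2 ^ k * 2 ^ k by rw [← mul_pow]; norm_num] at h4
  rw [le_div_iff₀ hR]
  have h2 : (0 : ℝ) < 2 ^ k := by positivity
  have h3 : (0 : ℝ) ≤ k * (2 ^ k * 2 ^ k) := by positivity
  apply le_of_mul_le_mul_left _ h2
  nlinarith

lemma bad3 (k : ℕ) (t : ℝ) (ht : 0 ≤ t) :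
    (((range (2 ^ k)).filter fun m => ¬ (1 / 2 - t) * k ≤ (od k m : ℝ)).card : ℝ) ≤
      2 ^ k * exp (-(2 * t ^ 2) * k) := by
  have := markov (range (2 ^ k)) (fun m => (exp (-(4 * t))) ^ od k m) (fun _ _ => by positivity)
    (fun m => ¬ (1 / 2 - t) * k ≤ (od k m : ℝ)) (exp (-(4 * t) * ((1 / 2 - t) * k)))
    (fun n _ h => by
      push Not at h
      rw [← Real.exp_nat_mul]
      apply Real.exp_le_exp.mpr
      nlinarith)
  rw [sum_pow_od] at this
  have h1 : 1 + exp (-(4 * t)) ≤ 2 * exp (-(2 * t) + 2 * t ^ 2) := by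
    have hc := Real.cosh_le_exp_half_sq (2 * t)
    rw [Real.cosh_eq] at hc
    have e1 : 1 + exp (-(4 * t)) = exp (-(2 * t)) * (exp (2 * t) + exp (-(2 * t))) := by
      rw [mul_add, ← Real.exp_add, ← Real.exp_add]
      congr 1
      · simp
      · congr 1; ring
    rw [e1, Real.exp_add, show 2 * t ^ 2 = (2 * t) ^ 2 / 2 by ring]
    have := Real.exp_pos (-(2 * t))
    nlinarith
  have h2 : (1 + exp (-(4 * t))) ^ k ≤ (2 * exp (-(2 * t) + 2 * t ^ 2)) ^ k :=
    pow_le_pow_left₀ (by positivity) h1 k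
  rw [mul_pow, ← Real.exp_nat_mul] at h2
  have h3 := this.trans h2
  have h4 : exp (k * (-(2 * t) + 2 * t ^ 2)) =
      exp (-(2 * t ^ 2) * k) * exp (-(4 * t) * ((1 / 2 - t) * k)) := by
    rw [← Real.exp_add]; congr 1; ring
  rw [h4, ← mul_assoc ((2 : ℝ) ^ k)] at h3
  exact le_of_mul_le_mul_right h3 (Real.exp_pos _)

/-- `n` reaches `1` in fewer than `c log n` steps. -/
def Fast (c : ℝ) (n : ℕ) : Prop := ∃ i : ℕ, (i : ℝ) < c * Real.log n ∧ T^[i] n = 1

open Classical in
/-- counting function -/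
noncomputable def cnt (E : ℕ → Prop) (N : ℕ) : ℕ := ((range N).filter E).card

/-- power saving density -/
def Sparse (E : ℕ → Prop) : Prop :=
  ∃ a C : ℝ, 0 ≤ a ∧ a < 1 ∧ 0 ≤ C ∧ ∀ N : ℕ, (cnt E N : ℝ) ≤ C * (N : ℝ) ^ a

lemma after_one (i : ℕ) : T^[i] 1 = 1 ∨ T^[i] 1 = 2 := by
  induction i with
  | zero => simp
  | succ i ih =>
    rw [Function.iterate_succ_apply']
    rcases ih with h | h <;> rw [h] <;> simp [T]

lemma pass {n k i : ℕ} (hy : 2 < T^[k] n) (hi : T^[i] n = 1) :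
    ∃ i', i = i' + k ∧ T^[i'] (T^[k] n) = 1 := by
  by_cases h : i ≤ k
  · obtain ⟨d, rfl⟩ : ∃ d, k = d + i := ⟨k - i, by omega⟩
    rw [Function.iterate_add_apply, hi] at hy
    have := after_one d
    omega
  · refine ⟨i - k, by omega, ?_⟩
    rw [← Function.iterate_add_apply, show i - k + k = i by omega, hi]

open Classical in
lemma good_j (E : ℕ → Prop) (k j : ℕ) (R : ℝ) (hR : 0 < R) (h1 : (3 : ℝ) ^ j ≤ 2 ^ k * R)
    (h2 : R ≤ 3 ^ j) (S : Finset ℕ) (hS : ∀ m ∈ S, m < 2 ^ k ∧ od k m = j ∧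
      (cc k m : ℝ) ≤ 2 ^ k * R ∧ E (T^[k] (2 ^ k + m))) :
    (S.card : ℝ) ≤ cnt E (3 ^ (j + 1)) * (2 * (2 ^ k * R / 3 ^ j)) := by
  have h3 : (0 : ℝ) < 3 ^ j := by positivity
  have h2k : (0 : ℝ) < 2 ^ k := by positivity
  have key : ∀ m ∈ S, (2 : ℝ) ^ k * (T^[k] (2 ^ k + m) : ℕ) = 3 ^ j * (2 ^ k + m) + cc k m := by
    intro m hm
    obtain ⟨-, hj, -, -⟩ := hS m hm
    have := iter_eq k (2 ^ k + m)
    obtain ⟨-, e2, e3⟩ := shift k m 1
    rw [mul_one] at e2 e3
    rw [e2, e3, hj] at this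
    exact_mod_cast this
  have hmap : ∀ m ∈ S, T^[k] (2 ^ k + m) ∈ (range (3 ^ (j + 1))).filter E := by
    intro m hm
    obtain ⟨hlt, -, hc, hE⟩ := hS m hm
    refine Finset.mem_filter.mpr ⟨Finset.mem_range.mpr ?_, hE⟩
    have hk := key m hm
    have hlt' : (m : ℝ) < 2 ^ k := by exact_mod_cast hlt
    have : ((T^[k] (2 ^ k + m) : ℕ) : ℝ) < 3 ^ (j + 1) := by
      apply lt_of_mul_lt_mul_left _ h2k.le
      rw [hk, pow_succ]
      nlinarith
    exact_mod_cast this
  rw [Finset.card_eq_sum_card_fiberwise hmap]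
  push_cast
  unfold cnt
  rw [← nsmul_eq_mul, ← Finset.sum_const]
  refine Finset.sum_le_sum fun y _ => ?_
  have := card_interval (S.filter fun m => T^[k] (2 ^ k + m) = y)
    (2 ^ k * y / 3 ^ j - 2 ^ k) (2 ^ k * R / 3 ^ j) (by positivity) (by
      intro m hm
      rw [Finset.mem_filter] at hm
      have hk := key m hm.1
      obtain ⟨-, -, hc, -⟩ := hS m hm.1
      rw [hm.2] at hk
      have hc0 : (0 : ℝ) ≤ cc k m := by positivity
      constructor
      · have : (2 : ℝ) ^ k * y / 3 ^ j - 2 ^ k * R / 3 ^ j ≤ 2 ^ k + m := by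
          rw [← sub_div, div_le_iff₀ h3]; nlinarith
        linarith
      · have : (2 : ℝ) ^ k + m ≤ 2 ^ k * y / 3 ^ j := by
          rw [le_div_iff₀ h3]; nlinarith
        linarith)
  have h5 : (1 : ℝ) ≤ 2 ^ k * R / 3 ^ j := by rw [le_div_iff₀ h3]; linarith
  linarith

open Classical in
lemma block (c c' a C t : ℝ) (ha0 : 0 ≤ a) (ha : a < 1) (hC0 : 0 ≤ C)
    (hC : ∀ N : ℕ, (cnt (Fast c) N : ℝ) ≤ C * (N : ℝ) ^ a) (hc : 0 ≤ c) (hc' : 0 ≤ c')
    (ht : 0 ≤ t) (ht4 : t ≤ 1 / 4) (k : ℕ) (hk : 4 ≤ k)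
    (hk2 : c' * ((k + 1) * Real.log 2) ≤ k + c * ((1 / 2 - t) * k * Real.log 3)) :
    (((range (2 ^ k)).filter fun m => Fast c' (2 ^ k + m)).card : ℝ) ≤
      2 ^ k * ((k + 1) * (1 + 6 * C) * exp (-((1 - a) * Real.log 3 / 8) * k) +
        exp (-(2 * t ^ 2) * k)) := by
  have hl3 : 0 < Real.log 3 := Real.log_pos (by norm_num)
  set s := (1 - a) * Real.log 3 / 8 with hs
  have hs0 : 0 < s := by have : 0 < 1 - a := by linarith
                         positivity
  set R := exp (s * k) with hRdef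
  have hR : 0 < R := Real.exp_pos _
  have hRinv : exp (-s * k) = 1 / R := by
    rw [hRdef, one_div, ← Real.exp_neg]; congr 1; ring
  set G := (range (2 ^ k)).filter fun m => Fast c' (2 ^ k + m) ∧ (3 : ℝ) ^ od k m ≤ 2 ^ k * R ∧
    (cc k m : ℝ) ≤ 2 ^ k * R ∧ (1 / 2 - t) * k ≤ (od k m : ℝ) with hG
  have hsub : ((range (2 ^ k)).filter fun m => Fast c' (2 ^ k + m)) ⊆
      G ∪ (((range (2 ^ k)).filter fun m => ¬ (3 : ℝ) ^ od k m ≤ 2 ^ k * R) ∪
        (((range (2 ^ k)).filter fun m => ¬ (cc k m : ℝ) ≤ 2 ^ k * R) ∪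
          ((range (2 ^ k)).filter fun m => ¬ (1 / 2 - t) * k ≤ (od k m : ℝ)))) := by
    intro m hm
    simp only [hG, Finset.mem_union, Finset.mem_filter] at hm ⊢
    tauto
  have hcard := (Finset.card_le_card hsub).trans ((Finset.card_union_le _ _).trans
    (Nat.add_le_add_left ((Finset.card_union_le _ _).trans
      (Nat.add_le_add_left (Finset.card_union_le _ _) _)) _))
  have hcard' : (((range (2 ^ k)).filter fun m => Fast c' (2 ^ k + m)).card : ℝ) ≤
      G.card + ((((range (2 ^ k)).filter fun m => ¬ (3 : ℝ) ^ od k m ≤ 2 ^ k * R).card : ℝ) +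
        ((((range (2 ^ k)).filter fun m => ¬ (cc k m : ℝ) ≤ 2 ^ k * R).card : ℝ) +
          (((range (2 ^ k)).filter fun m => ¬ (1 / 2 - t) * k ≤ (od k m : ℝ)).card : ℝ))) := by
    exact_mod_cast hcard
  have b1 := bad1 k R hR
  have b2 := bad2 k R hR
  have b3 := bad3 k t ht
  have hk0 : (4 : ℝ) ≤ k := by exact_mod_cast hk
  have hGb : (G.card : ℝ) ≤ (k + 1) * (6 * C * (2 ^ k / R)) := by
    have hmap : ∀ m ∈ G, od k m ∈ range (k + 1) := fun m _ =>
      Finset.mem_range.mpr (Nat.lt_succ_of_le (od_le k m))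
    rw [Finset.card_eq_sum_card_fiberwise hmap]
    push_cast
    have : ((k : ℝ) + 1) * (6 * C * (2 ^ k / R)) =
        ∑ j ∈ range (k + 1), (6 * C * (2 ^ k / R)) := by simp
    rw [this]
    refine Finset.sum_le_sum fun j _ => ?_
    rcases (G.filter fun m => od k m = j).eq_empty_or_nonempty with he | ⟨m0, hm0⟩
    · rw [he]; simp only [Finset.card_empty, Nat.cast_zero]; positivity
    have hm0' := hm0
    simp only [hG, Finset.mem_filter] at hm0'
    obtain ⟨⟨-, -, g1, -, g3⟩, hj⟩ := hm0'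
    rw [hj] at g1 g3
    have hjk : (k : ℝ) / 4 ≤ j := by nlinarith
    have h3j : (3 : ℝ) ^ j = exp (j * Real.log 3) := by
      rw [Real.exp_nat_mul, Real.exp_log (by norm_num)]
    have hR3 : R ≤ 3 ^ j := by
      rw [h3j, hRdef]; apply Real.exp_le_exp.mpr
      have : s ≤ Real.log 3 / 8 := by rw [hs]; nlinarith
      nlinarith
    have hgood := good_j (Fast c) k j R hR g1 hR3 (G.filter fun m => od k m = j) (by
      intro m hm
      simp only [hG, Finset.mem_filter, Finset.mem_range] at hm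
      obtain ⟨⟨hlt, ⟨i, hi, hi1⟩, -, g2, -⟩, hj⟩ := hm
      refine ⟨hlt, hj, g2, ?_⟩
      have hy : 3 ^ j ≤ T^[k] (2 ^ k + m) := by
        have := iter_eq k (2 ^ k + m)
        obtain ⟨-, e2, e3⟩ := shift k m 1
        rw [mul_one] at e2 e3
        rw [e2, hj] at this
        have h2k : 0 < 2 ^ k := by positivity
        apply Nat.le_of_mul_le_mul_left _ h2k
        rw [this]; nlinarith [Nat.zero_le (3 ^ j * m), Nat.zero_le (cc k (2 ^ k + m))]
      have hj1 : 1 ≤ j := by
        have : (1 : ℝ) ≤ j := by linarith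
        exact_mod_cast this
      have h33 : 3 ^ 1 ≤ 3 ^ j := Nat.pow_le_pow_right (by norm_num) hj1
      obtain ⟨i', rfl, hi'⟩ := pass (k := k) (by omega) hi1
      refine ⟨i', ?_, hi'⟩
      have l1 : Real.log ((2 ^ k + m : ℕ) : ℝ) ≤ (k + 1) * Real.log 2 := by
        have : ((2 ^ k + m : ℕ) : ℝ) ≤ 2 ^ (k + 1) := by
          have : 2 ^ k + m ≤ 2 ^ (k + 1) := by rw [pow_succ]; omega
          exact_mod_cast this
        have h0 : (0 : ℝ) < ((2 ^ k + m : ℕ) : ℝ) := by positivity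
        have := Real.log_le_log h0 this
        rwa [Real.log_pow, Nat.cast_add k 1, Nat.cast_one] at this
      have l2 : j * Real.log 3 ≤ Real.log ((T^[k] (2 ^ k + m) : ℕ) : ℝ) := by
        rw [← Real.log_pow]
        apply Real.log_le_log (by positivity)
        exact_mod_cast hy
      have l3 : c' * Real.log ((2 ^ k + m : ℕ) : ℝ) ≤ c' * ((k + 1) * Real.log 2) :=
        mul_le_mul_of_nonneg_left l1 hc'
      have l4 : c * ((1 / 2 - t) * k * Real.log 3) ≤
          c * Real.log ((T^[k] (2 ^ k + m) : ℕ) : ℝ) := by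
        apply mul_le_mul_of_nonneg_left _ hc
        nlinarith
      push_cast at hi l3 l1
      push_cast
      linarith)
    refine hgood.trans ?_
    have hcn := hC (3 ^ (j + 1))
    have e1 : ((3 ^ (j + 1) : ℕ) : ℝ) ^ a = exp (a * ((j + 1) * Real.log 3)) := by
      rw [Real.rpow_def_of_pos (by positivity)]
      push_cast
      rw [Real.log_pow]; push_cast; congr 1; ring
    rw [e1] at hcn
    have e2 : exp (a * ((j + 1) * Real.log 3)) * (R / 3 ^ j) ≤ 3 * (1 / R) := by
      rw [← hRinv, h3j, hRdef, ← Real.exp_sub, ← Real.exp_add]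
      conv_rhs => rw [← Real.exp_log (show (0 : ℝ) < 3 by norm_num), ← Real.exp_add]
      apply Real.exp_le_exp.mpr
      have h1a : 0 < 1 - a := by linarith
      have : 2 * s * k ≤ (1 - a) * (j * Real.log 3) := by
        have : (1 - a) * Real.log 3 * (k / 4) ≤ (1 - a) * Real.log 3 * j :=
          mul_le_mul_of_nonneg_left hjk (by positivity)
        rw [hs]; nlinarith
      nlinarith
    have h2k : (0 : ℝ) < 2 ^ k := by positivity
    calc (cnt (Fast c) (3 ^ (j + 1)) : ℝ) * (2 * (2 ^ k * R / 3 ^ j))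
        ≤ C * exp (a * ((j + 1) * Real.log 3)) * (2 * (2 ^ k * R / 3 ^ j)) :=
          mul_le_mul_of_nonneg_right hcn (by positivity)
      _ = 2 * C * 2 ^ k * (exp (a * ((j + 1) * Real.log 3)) * (R / 3 ^ j)) := by ring
      _ ≤ 2 * C * 2 ^ k * (3 * (1 / R)) := mul_le_mul_of_nonneg_left e2 (by positivity)
      _ = _ := by ring
  rw [hRinv]
  have : (2 : ℝ) ^ k * ((k + 1) * (1 + 6 * C) * (1 / R) + exp (-(2 * t ^ 2) * k)) =
      (k + 1) * (6 * C * (2 ^ k / R)) + (2 ^ k / R + (k * 2 ^ k / R +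
        2 ^ k * exp (-(2 * t ^ 2) * k))) := by ring
  rw [this]
  linarith

lemma cnt_le (E : ℕ → Prop) (N : ℕ) : cnt E N ≤ N := by
  classical
  unfold cnt
  exact (Finset.card_filter_le _ _).trans (by simp)

lemma cnt_mono (E : ℕ → Prop) {N M : ℕ} (h : N ≤ M) : cnt E N ≤ cnt E M := by
  classical
  unfold cnt
  exact Finset.card_le_card (Finset.filter_subset_filter _ (Finset.range_mono h))

open Classical in
lemma cnt_double (E : ℕ → Prop) (k : ℕ) : cnt E (2 ^ (k + 1)) =
    cnt E (2 ^ k) + ((range (2 ^ k)).filter fun m => E (2 ^ k + m)).card := by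
  unfold cnt
  rw [show 2 ^ (k + 1) = 2 ^ k + 2 ^ k by ring, Finset.card_filter, Finset.card_filter,
    Finset.card_filter, Finset.sum_range_add]

open Classical in
lemma dyadic (E : ℕ → Prop) (D s : ℝ) (hD : 0 ≤ D) (hs : 0 < s) (hs1 : s ≤ 1) (k0 : ℕ)
    (h : ∀ k, k0 ≤ k → (((range (2 ^ k)).filter fun m => E (2 ^ k + m)).card : ℝ) ≤
      2 ^ k * (D * (k + 1) * exp (-s * k))) : Sparse E := by
  set q := 2 * exp (-(s / 2)) with hq
  have hq1 : 1 < q := by
    have := Real.add_one_le_exp (-(s / 2))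
    have h2 : exp (-(s / 2)) ≠ -(s / 2) + 1 := by
      have := Real.add_one_lt_exp (x := -(s / 2)) (by linarith)
      linarith
    have := Real.add_one_lt_exp (x := -(s / 2)) (by linarith)
    linarith
  have hq2 : q < 2 := by
    have : exp (-(s / 2)) < 1 := Real.exp_lt_one_iff.mpr (by linarith)
    linarith
  set D1 := D * (2 / s + 1) with hD1
  have hD10 : 0 ≤ D1 := by positivity
  have h' : ∀ k, k0 ≤ k → (((range (2 ^ k)).filter fun m => E (2 ^ k + m)).card : ℝ) ≤
      D1 * q ^ k := by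
    intro k hk
    refine (h k hk).trans ?_
    have e1 : q ^ k = 2 ^ k * exp (-(s / 2) * k) := by
      rw [hq, mul_pow, ← Real.exp_nat_mul]; congr 2; ring
    have e2 : exp (-(s / 2) * k) = exp (s / 2 * k) * exp (-s * k) := by
      rw [← Real.exp_add]; congr 1; ring
    have e3 : (k : ℝ) + 1 ≤ (2 / s + 1) * exp (s / 2 * k) := by
      have h1 := Real.add_one_le_exp (s / 2 * k)
      have h2 : (2 / s + 1) * (s / 2 * k + 1) = k + 1 + (2 / s + s / 2 * k) := by
        field_simp; ring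
      have h3 : 0 ≤ 2 / s + s / 2 * k := by positivity
      have h4 : (2 / s + 1) * (s / 2 * k + 1) ≤ (2 / s + 1) * exp (s / 2 * k) :=
        mul_le_mul_of_nonneg_left h1 (by positivity)
      linarith
    rw [e1, e2, hD1]
    have : (2 : ℝ) ^ k * (D * (k + 1) * exp (-s * k)) =
        (2 ^ k * D * exp (-s * k)) * (k + 1) := by ring
    rw [this]
    have : D * (2 / s + 1) * (2 ^ k * (exp (s / 2 * k) * exp (-s * k))) =
        (2 ^ k * D * exp (-s * k)) * ((2 / s + 1) * exp (s / 2 * k)) := by ring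
    rw [this]
    exact mul_le_mul_of_nonneg_left e3 (by positivity)
  set D2 := 2 ^ k0 + D1 / (q - 1) with hD2
  have hq0 : 0 < q - 1 := by linarith
  have hD20 : 0 ≤ D2 := by positivity
  have h2 : ∀ k, (cnt E (2 ^ k) : ℝ) ≤ D2 * q ^ k := by
    intro k
    induction k with
    | zero =>
      have := cnt_le E (2 ^ 0)
      have h1 : (cnt E (2 ^ 0) : ℝ) ≤ 1 := by exact_mod_cast this
      have h3 : (1 : ℝ) ≤ 2 ^ k0 := one_le_pow₀ (by norm_num)
      have h4 : 0 ≤ D1 / (q - 1) := by positivity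
      simp only [pow_zero, mul_one] at h1 ⊢
      linarith
    | succ k ih =>
      by_cases hk : k0 ≤ k
      · rw [cnt_double]; push_cast
        have h5 := h' k hk
        have h6 : D1 ≤ D2 * (q - 1) := by
          rw [hD2, add_mul, div_mul_cancel₀ _ hq0.ne']
          have : (0 : ℝ) ≤ 2 ^ k0 * (q - 1) := by positivity
          linarith
        have h7 : 0 < q ^ k := by positivity
        rw [pow_succ]
        nlinarith
      · have h1 : cnt E (2 ^ (k + 1)) ≤ 2 ^ k0 :=
          (cnt_le _ _).trans (Nat.pow_le_pow_right (by norm_num) (by omega))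
        have h1' : (cnt E (2 ^ (k + 1)) : ℝ) ≤ 2 ^ k0 := by exact_mod_cast h1
        have h3 : (1 : ℝ) ≤ q ^ (k + 1) := one_le_pow₀ hq1.le
        have h4 : 0 ≤ D1 / (q - 1) := by positivity
        nlinarith
  have hl2 : 0 < Real.log 2 := Real.log_pos (by norm_num)
  refine ⟨Real.log q / Real.log 2, D2 * q, div_nonneg (Real.log_nonneg hq1.le) hl2.le, ?_,
    by positivity, fun N => ?_⟩
  · rw [div_lt_one hl2]; exact Real.log_lt_log (by linarith) hq2
  rcases Nat.eq_zero_or_pos N with rfl | hN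
  · have := cnt_le E 0
    have h0 : cnt E 0 = 0 := by omega
    rw [h0, Nat.cast_zero]; positivity
  have hN1 := Nat.lt_pow_succ_log_self (b := 2) (by norm_num) N
  have hN2 := Nat.pow_log_le_self 2 hN.ne'
  set k := Nat.log 2 N
  have h3 : (cnt E N : ℝ) ≤ cnt E (2 ^ (k + 1)) := by exact_mod_cast cnt_mono E hN1.le
  refine h3.trans ((h2 _).trans ?_)
  have h4 : q ^ k ≤ (N : ℝ) ^ (Real.log q / Real.log 2) := by
    have : q ^ k = ((2 : ℝ) ^ k) ^ (Real.log q / Real.log 2) := by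
      rw [Real.rpow_def_of_pos (by positivity), Real.log_pow]
      conv_lhs => rw [← Real.exp_log (show 0 < q by linarith), ← Real.exp_nat_mul]
      congr 1; field_simp
    rw [this]
    apply Real.rpow_le_rpow (by positivity) (by exact_mod_cast hN2)
    exact div_nonneg (Real.log_nonneg hq1.le) hl2.le
  rw [pow_succ, mul_comm (q ^ k) q, ← mul_assoc]
  exact mul_le_mul_of_nonneg_left h4 (by positivity)

lemma sparse_nonpos {c : ℝ} (hc : c ≤ 0) : Sparse (Fast c) := by
  classical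
  refine ⟨0, 0, le_rfl, by norm_num, le_rfl, fun N => ?_⟩
  have : cnt (Fast c) N = 0 := by
    unfold cnt
    rw [Finset.card_eq_zero, Finset.filter_eq_empty_iff]
    rintro n - ⟨i, hi, -⟩
    have := Real.log_natCast_nonneg n
    have h0 : (0 : ℝ) ≤ i := by positivity
    nlinarith
  rw [this]; simp

lemma sparse_step {c c' : ℝ} (h : Sparse (Fast c)) (hc : 0 ≤ c)
    (hcc : c' * Real.log 2 < 1 + c * Real.log 3 / 2) : Sparse (Fast c') := by
  classical
  rcases le_or_gt c' 0 with hc' | hc'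
  · exact sparse_nonpos hc'
  obtain ⟨a, C, ha0, ha, hC0, hC⟩ := h
  have hl3 : 0 < Real.log 3 := Real.log_pos (by norm_num)
  have hl2 : 0 < Real.log 2 := Real.log_pos (by norm_num)
  set g := 1 + c * Real.log 3 / 2 - c' * Real.log 2 with hg
  have hg0 : 0 < g := by linarith
  set t := min (1 / 4) (g / (2 * (c * Real.log 3 + 1))) with ht
  have ht0 : 0 < t := by positivity
  have ht4 : t ≤ 1 / 4 := min_le_left _ _
  have htg : t * (c * Real.log 3) ≤ g / 2 := by
    have h1 : t ≤ g / (2 * (c * Real.log 3 + 1)) := min_le_right _ _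
    rw [le_div_iff₀ (by positivity)] at h1
    nlinarith
  set s0 := (1 - a) * Real.log 3 / 8 with hs0
  have hs00 : 0 < s0 := by have : 0 < 1 - a := by linarith
                           positivity
  set s := min 1 (min s0 (2 * t ^ 2)) with hs
  have hs_pos : 0 < s := by positivity
  obtain ⟨k1, hk1⟩ := exists_nat_ge (c' * Real.log 2 / (g / 2))
  apply dyadic _ (2 + 6 * C) s (by positivity) hs_pos (min_le_left _ _) (max 4 k1)
  intro k hk
  have hk4 : 4 ≤ k := le_of_max_le_left hk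
  have hkk : (k1 : ℝ) ≤ k := by exact_mod_cast le_of_max_le_right hk
  have hk0 : (0 : ℝ) ≤ k := by positivity
  have := block c c' a C t ha0 ha hC0 hC hc hc'.le ht0.le ht4 k hk4 (by
    rw [div_le_iff₀ (by positivity)] at hk1
    have h1 : c' * Real.log 2 ≤ k * (g / 2) := by nlinarith
    have h2 : k * (t * (c * Real.log 3)) ≤ k * (g / 2) := mul_le_mul_of_nonneg_left htg hk0
    have h3 : k * g = k * (1 + c * Real.log 3 / 2 - c' * Real.log 2) := by rw [hg]
    nlinarith)
  refine this.trans (mul_le_mul_of_nonneg_left ?_ (by positivity))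
  have e1 : exp (-s0 * k) ≤ exp (-s * k) := by
    apply Real.exp_le_exp.mpr
    have : s ≤ s0 := (min_le_right _ _).trans (min_le_left _ _)
    nlinarith
  have e2 : exp (-(2 * t ^ 2) * k) ≤ exp (-s * k) := by
    apply Real.exp_le_exp.mpr
    have : s ≤ 2 * t ^ 2 := (min_le_right _ _).trans (min_le_right _ _)
    nlinarith
  have e3 := Real.exp_pos (-s * k)
  have e4 : ((k : ℝ) + 1) * (1 + 6 * C) * exp (-s0 * k) ≤ (k + 1) * (1 + 6 * C) * exp (-s * k) :=
    mul_le_mul_of_nonneg_left e1 (by positivity)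
  nlinarith

lemma log_facts : Real.log (4 / 3) = 2 * Real.log 2 - Real.log 3 ∧ 0 < Real.log 2 ∧
    0 < Real.log 3 ∧ Real.log 3 < 2 * Real.log 2 := by
  have h4 : Real.log 4 = 2 * Real.log 2 := by
    rw [show (4 : ℝ) = 2 ^ 2 by norm_num, Real.log_pow]; norm_num
  refine ⟨?_, Real.log_pos (by norm_num), Real.log_pos (by norm_num), ?_⟩
  · rw [Real.log_div (by norm_num) (by norm_num), h4]
  · rw [← h4]; exact Real.log_lt_log (by norm_num) (by norm_num)

theorem sparse_fast {c : ℝ} (hc : c * (Real.log 2 - Real.log 3 / 2) < 1) : Sparse (Fast c) := by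
  obtain ⟨-, hl2, hl3, h32⟩ := log_facts
  set β := Real.log 3 / (2 * Real.log 2) with hβ
  have hβ0 : 0 < β := by positivity
  have hβ1 : β < 1 := by rw [hβ, div_lt_one (by positivity)]; exact h32
  have hβ2 : β * Real.log 2 = Real.log 3 / 2 := by rw [hβ]; field_simp
  set w := Real.log 2 - Real.log 3 / 2 with hw
  have hw0 : 0 < w := by linarith
  have key : ∀ r : ℕ, ∀ c : ℝ, c * w < 1 - β ^ r → Sparse (Fast c) := by
    intro r
    induction r with
    | zero =>
      intro c hc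
      apply sparse_nonpos
      simp only [pow_zero, sub_self] at hc
      by_contra h
      push Not at h
      have := mul_pos h hw0
      linarith
    | succ r ih =>
      intro c' hc'
      have hgap : 0 < (1 - β ^ (r + 1) - c' * w) := by linarith
      set e := (1 - β ^ (r + 1) - c' * w) / 2 with he
      have he0 : 0 < e := by positivity
      set c := (1 - β ^ r - e) / w with hcdef
      have hcw : c * w = 1 - β ^ r - e := by rw [hcdef]; field_simp
      have h1 : Sparse (Fast c) := ih c (by linarith)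
      have hwβ : w = (1 - β) * Real.log 2 := by rw [hw, sub_mul, hβ2]; ring
      have h2 : c' * Real.log 2 < 1 + c * Real.log 3 / 2 := by
        apply lt_of_mul_lt_mul_right _ hw0.le
        have e1 : c' * Real.log 2 * w = (1 - β ^ (r + 1) - 2 * e) * Real.log 2 := by
          rw [he]; ring
        have e2 : (1 + c * Real.log 3 / 2) * w =
            (1 - β ^ (r + 1) - β * e) * Real.log 2 := by
          have : (1 + c * Real.log 3 / 2) * w = w + (c * w) * (Real.log 3 / 2) := by ring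
          rw [this, hcw, ← hβ2, hwβ]; ring
        rw [e1, e2]
        apply mul_lt_mul_of_pos_right _ hl2
        nlinarith
      rcases le_or_gt 0 c with h0 | h0
      · exact sparse_step h1 h0 h2
      · apply sparse_step (sparse_nonpos le_rfl) le_rfl
        have : c * Real.log 3 < 0 := mul_neg_of_neg_of_pos h0 hl3
        linarith
  obtain ⟨r, hr⟩ := exists_pow_lt_of_lt_one (show 0 < 1 - c * w by linarith) hβ1
  exact key r c (by linarith)

end Pool.Agent.H57.Col
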