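import Mathlib
import Pool.Agent.H57.ColA

namespace Pool.Agent.H57.Col

open Finset Real Filter Topology

/-- data of a backward strategy -/
structure Strat where
  M : ℕ
  D : ℕ
  KK : ℕ
  H : ℕ → ℕ
  s : ℕ → ℕ

namespace Strat

variable (S : Strat)

def st (a : ℕ) : ℕ := S.s (a % (3 * S.M))

def B (a : ℕ) : ℕ := (2 ^ S.st a * a - 1) / 3

def K : ℕ → ℕ → ℕ
  | 0, _ => 0
  | j + 1, a => S.st a + K j (S.B a)

def h (a : ℕ) : ℕ := S.D * S.st a + S.H (S.B a % S.M)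

structure Ok : Prop where
  hM : 3 ∣ S.M
  hM0 : 0 < S.M
  hs : ∀ r < 3 * S.M, r % 3 ≠ 0 → 1 ≤ S.st r ∧ (2 ^ S.st r * r) % 3 = 1 ∧ S.B r % 3 ≠ 0
  hH : ∀ b < S.M, b % 3 ≠ 0 → S.h b + S.h (b + S.M) + S.h (b + 2 * S.M) ≤ 3 * S.H b + S.KK

variable {S}

lemma st_add (a q : ℕ) : S.st (a + 3 * S.M * q) = S.st a := by
  unfold st; rw [Nat.add_mul_mod_self_left]

lemma facts_mod (ok : S.Ok) {a : ℕ} (ha : a % 3 ≠ 0) :
    1 ≤ S.st a ∧ (2 ^ S.st a * a) % 3 = 1 := by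
  have hM0 := ok.hM0
  have hr : a % (3 * S.M) % 3 = a % 3 := Nat.mod_mod_of_dvd _ (Dvd.intro _ rfl)
  obtain ⟨h1, h2, -⟩ := ok.hs (a % (3 * S.M)) (Nat.mod_lt _ (by omega)) (by omega)
  have e : S.st (a % (3 * S.M)) = S.st a := by unfold st; rw [Nat.mod_mod]
  rw [e] at h1 h2
  refine ⟨h1, ?_⟩
  rw [Nat.mul_mod, hr, ← Nat.mul_mod] at h2
  exact h2

lemma B_eq (ok : S.Ok) {a : ℕ} (ha : a % 3 ≠ 0) : 3 * S.B a + 1 = 2 ^ S.st a * a := by
  have := (facts_mod ok ha).2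
  unfold B; omega

lemma B_add (ok : S.Ok) {a : ℕ} (ha : a % 3 ≠ 0) (q : ℕ) :
    S.B (a + 3 * S.M * q) = S.B a + S.M * (2 ^ S.st a * q) := by
  have h1 := B_eq ok ha
  have h2 := B_eq ok (a := a + 3 * S.M * q) (by rw [mul_assoc]; omega)
  rw [st_add] at h2
  have : 2 ^ S.st a * (a + 3 * S.M * q) = 2 ^ S.st a * a + 3 * (S.M * (2 ^ S.st a * q)) := by ring
  omega

lemma B_ne (ok : S.Ok) {a : ℕ} (ha : a % 3 ≠ 0) : S.B a % 3 ≠ 0 := by
  have hM0 := ok.hM0
  have hr : a % (3 * S.M) % 3 = a % 3 := Nat.mod_mod_of_dvd _ (Dvd.intro _ rfl)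
  obtain ⟨-, -, h3⟩ := ok.hs (a % (3 * S.M)) (Nat.mod_lt _ (by omega)) (by omega)
  have := B_add ok (a := a % (3 * S.M)) (by omega) (a / (3 * S.M))
  rw [Nat.mod_add_div] at this
  obtain ⟨w, hw⟩ := Dvd.dvd.mul_right ok.hM (2 ^ S.st (a % (3 * S.M)) * (a / (3 * S.M)))
  rw [this, hw]
  omega

lemma h_add (ok : S.Ok) {a : ℕ} (ha : a % 3 ≠ 0) (q : ℕ) : S.h (a + 3 * S.M * q) = S.h a := by
  unfold h; rw [st_add, B_add ok ha, Nat.add_mul_mod_self_left]

lemma h_lift (ok : S.Ok) {b : ℕ} (hb : b % 3 ≠ 0) (z : ℕ) :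
    S.h (b + S.M * z) = S.h (b + (z % 3) * S.M) := by
  obtain ⟨w, hw⟩ := ok.hM
  have := h_add ok (a := b + (z % 3) * S.M) (by rw [hw, mul_left_comm]; omega) (z / 3)
  rw [← this]; congr 1
  conv_lhs => rw [← Nat.mod_add_div z 3]
  ring

lemma three (ok : S.Ok) {b u : ℕ} (hb : b % 3 ≠ 0) (hu : u % 3 ≠ 0) :
    S.h (b + S.M * (u * 0)) + S.h (b + S.M * (u * 1)) + S.h (b + S.M * (u * 2)) ≤
      3 * S.H (b % S.M) + S.KK := by
  have hr : b % S.M % 3 = b % 3 := Nat.mod_mod_of_dvd _ ok.hM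
  have h0 := ok.hH (b % S.M) (Nat.mod_lt _ ok.hM0) (by omega)
  have e : ∀ d, S.h (b + S.M * (u * d)) = S.h (b % S.M + ((b / S.M + u * d) % 3) * S.M) := by
    intro d
    rw [← h_lift ok (by omega)]; congr 1
    conv_lhs => rw [← Nat.mod_add_div b S.M]
    ring
  rw [e, e, e]
  have h1 : (b / S.M) % 3 = 0 ∨ (b / S.M) % 3 = 1 ∨ (b / S.M) % 3 = 2 := by omega
  have h2 : u % 3 = 1 ∨ u % 3 = 2 := by omega
  rcases h1 with h1 | h1 | h1 <;> rcases h2 with h2 | h2 <;>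
  · simp only [Nat.add_mod (b / S.M), Nat.mul_mod u, h1, h2]
    norm_num
    omega

lemma sum_range_three (f : ℕ → ℕ) (n : ℕ) :
    ∑ d ∈ range (3 * n), f d = ∑ d ∈ range n, (f (3 * d) + f (3 * d + 1) + f (3 * d + 2)) := by
  induction n with
  | zero => simp
  | succ n ih =>
    rw [show 3 * (n + 1) = 3 * n + 1 + 1 + 1 by ring, sum_range_succ, sum_range_succ,
      sum_range_succ, sum_range_succ, ih]; ring

lemma expect (ok : S.Ok) (j : ℕ) : ∀ b u : ℕ, b % 3 ≠ 0 → u % 3 ≠ 0 →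
    3 * ∑ d ∈ range (3 ^ j), (S.D * S.K j (b + S.M * (u * d)) +
      S.H (S.B^[j] (b + S.M * (u * d)) % S.M)) ≤ 3 ^ j * (3 * S.H (b % S.M) + j * S.KK) := by
  induction j with
  | zero => intro b u _ _; simp [K]
  | succ j ih =>
    intro b u hb hu
    obtain ⟨w, hw⟩ := ok.hM
    rw [pow_succ, mul_comm _ 3, sum_range_three, Finset.sum_add_distrib, Finset.sum_add_distrib]
    have key : ∀ d0, 3 * ∑ d ∈ range (3 ^ j), (S.D * S.K (j + 1) (b + S.M * (u * (3 * d + d0))) +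
        S.H (S.B^[j + 1] (b + S.M * (u * (3 * d + d0))) % S.M)) ≤
        3 ^ j * (3 * S.h (b + S.M * (u * d0)) + j * S.KK) := by
      intro d0
      set a0 := b + S.M * (u * d0) with ha0
      have ha : a0 % 3 ≠ 0 := by rw [ha0, hw, mul_assoc]; omega
      have hu' : (2 ^ S.st a0 * u) % 3 ≠ 0 := by
        intro h
        have : 3 ∣ 2 ^ S.st a0 * u := Nat.dvd_of_mod_eq_zero h
        rcases (Nat.Prime.dvd_mul Nat.prime_three).mp this with h | h
        · have := Nat.Prime.dvd_of_dvd_pow Nat.prime_three h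
          omega
        · omega
      have := ih (S.B a0) (2 ^ S.st a0 * u) (B_ne ok ha) hu'
      have e : ∀ d, S.D * S.K (j + 1) (b + S.M * (u * (3 * d + d0))) +
          S.H (S.B^[j + 1] (b + S.M * (u * (3 * d + d0))) % S.M) = S.D * S.st a0 +
          (S.D * S.K j (S.B a0 + S.M * (2 ^ S.st a0 * u * d)) +
          S.H (S.B^[j] (S.B a0 + S.M * (2 ^ S.st a0 * u * d)) % S.M)) := by
        intro d
        have e1 : b + S.M * (u * (3 * d + d0)) = a0 + 3 * S.M * (u * d) := by rw [ha0]; ring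
        rw [e1, K, Function.iterate_succ_apply, st_add, B_add ok ha, mul_assoc (2 ^ S.st a0)]
        ring
      simp only [e]
      rw [Finset.sum_add_distrib, Finset.sum_const, Finset.card_range, smul_eq_mul, h]
      nlinarith
    have k0 := key 0
    have k1 := key 1
    have k2 := key 2
    have h3 := Nat.mul_le_mul_left (3 ^ j * 3) (three ok hb hu)
    simp only [add_zero] at k0
    nlinarith

lemma T_halve (e a : ℕ) : T^[e] (2 ^ e * a) = a := by
  induction e with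
  | zero => simp
  | succ e ih =>
    rw [Function.iterate_succ_apply]
    have : T (2 ^ (e + 1) * a) = 2 ^ e * a := by
      have e1 : 2 ^ (e + 1) * a = 2 * (2 ^ e * a) := by ring
      have := T_even (x := 2 ^ (e + 1) * a) (by omega)
      omega
    rw [this, ih]

lemma T_B (ok : S.Ok) {a : ℕ} (ha : a % 3 ≠ 0) : T^[S.st a] (S.B a) = a := by
  have h1 := B_eq ok ha
  obtain ⟨e, he⟩ : ∃ e, S.st a = e + 1 := ⟨S.st a - 1, by have := (facts_mod ok ha).1; omega⟩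
  rw [he] at h1 ⊢
  have e1 : 2 ^ (e + 1) * a = 2 * (2 ^ e * a) := by ring
  have := T_odd (x := S.B a) (by omega)
  rw [Function.iterate_succ_apply, show T (S.B a) = 2 ^ e * a by omega, T_halve]

lemma path (ok : S.Ok) (j : ℕ) : ∀ a : ℕ, a % 3 ≠ 0 → T^[S.K j a] (S.B^[j] a) = a ∧
    3 ^ j * S.B^[j] a ≤ 2 ^ S.K j a * a ∧ 2 ^ j * (a + 1) ≤ 3 ^ j * (S.B^[j] a + 1) := by
  induction j with
  | zero => intro a _; simp [K]
  | succ j ih =>
    intro a ha
    obtain ⟨h1, h2, h3⟩ := ih (S.B a) (B_ne ok ha)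
    have h4 := B_eq ok ha
    rw [K, Function.iterate_succ_apply]
    refine ⟨by rw [Function.iterate_add_apply, h1, T_B ok ha], ?_, ?_⟩
    · calc 3 ^ (j + 1) * S.B^[j] (S.B a) = 3 * (3 ^ j * S.B^[j] (S.B a)) := by ring
        _ ≤ 3 * (2 ^ S.K j (S.B a) * S.B a) := Nat.mul_le_mul_left _ h2
        _ = 2 ^ S.K j (S.B a) * (3 * S.B a) := by ring
        _ ≤ 2 ^ S.K j (S.B a) * (2 ^ S.st a * a) := Nat.mul_le_mul_left _ (by omega)
        _ = _ := by ring
    · have h5 : 2 ^ 1 * a ≤ 2 ^ S.st a * a :=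
        Nat.mul_le_mul_right _ (Nat.pow_le_pow_right (by norm_num) (facts_mod ok ha).1)
      calc 2 ^ (j + 1) * (a + 1) = 2 ^ j * (2 * (a + 1)) := by ring
        _ ≤ 2 ^ j * (3 * (S.B a + 1)) := Nat.mul_le_mul_left _ (by omega)
        _ = 3 * (2 ^ j * (S.B a + 1)) := by ring
        _ ≤ 3 * (3 ^ j * (S.B^[j] (S.B a) + 1)) := Nat.mul_le_mul_left _ h3
        _ = _ := by ring

lemma exists_good (ok : S.Ok) (hD : 0 < S.D) (κ c : ℝ) (hκ0 : 0 < κ)
    (hκ : (S.KK : ℝ) < 3 * S.D * κ) (hc : Sparse (Fast c)) :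
    ∀ᶠ j : ℕ in atTop, ∃ y : ℕ, y % 3 ≠ 0 ∧ S.M * 3 ^ j < y ∧ y ≤ 2 * (S.M * 3 ^ j) ∧
      (S.K j y : ℝ) ≤ κ * j ∧ ¬ Fast c y := by
  classical
  obtain ⟨a, C, ha0, ha, hC0, hC⟩ := hc
  have hM0 := ok.hM0
  obtain ⟨w, hw⟩ := ok.hM
  have hM3 : 3 ≤ S.M := by omega
  have hD' : (0 : ℝ) < S.D := by exact_mod_cast hD
  have hDκ : (0 : ℝ) < 3 * S.D * κ := by positivity
  have hq : (3 : ℝ) ^ (a - 1) < 1 := Real.rpow_lt_one_of_one_lt_of_neg (by norm_num) (by linarith)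
  have hq0 : (0 : ℝ) ≤ (3 : ℝ) ^ (a - 1) := by positivity
  have t1 : Tendsto (fun j : ℕ => (3 * (S.H 1 : ℝ) / j + S.KK) / (3 * S.D * κ) +
      C * (3 * S.M : ℝ) ^ a * ((3 : ℝ) ^ (a - 1)) ^ j) atTop
      (𝓝 ((0 + S.KK) / (3 * S.D * κ) + C * (3 * S.M : ℝ) ^ a * 0)) := by
    refine Tendsto.add (Tendsto.div_const (Tendsto.add ?_ tendsto_const_nhds) _)
      (Tendsto.const_mul _ (tendsto_pow_atTop_nhds_zero_of_lt_one hq0 hq))
    exact tendsto_const_div_atTop_nhds_zero_nat _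
  have hlim : ((0 + S.KK) / (3 * S.D * κ) + C * (3 * S.M : ℝ) ^ a * 0) < 1 := by
    rw [mul_zero, add_zero, zero_add, div_lt_one hDκ]; exact hκ
  filter_upwards [t1.eventually (gt_mem_nhds hlim), eventually_ge_atTop 1] with j hj hj1
  by_contra hno
  push Not at hno
  set X := S.M * 3 ^ j with hX
  have h3j : 0 < 3 ^ j := by positivity
  have hy : ∀ d ∈ range (3 ^ j), (X + 1 + S.M * (1 * d)) % 3 ≠ 0 ∧ X < X + 1 + S.M * (1 * d) ∧
      X + 1 + S.M * (1 * d) ≤ 2 * X := by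
    intro d hd
    rw [Finset.mem_range] at hd
    refine ⟨?_, by omega, ?_⟩
    · rw [hX, hw, mul_assoc, mul_assoc]; omega
    · have : S.M * (d + 1) ≤ S.M * 3 ^ j := Nat.mul_le_mul_left _ hd
      rw [one_mul]; nlinarith
  have hsub : range (3 ^ j) ⊆
      ((range (3 ^ j)).filter fun d => ¬ (S.K j (X + 1 + S.M * (1 * d)) : ℝ) ≤ κ * j) ∪
      ((range (3 ^ j)).filter fun d => Fast c (X + 1 + S.M * (1 * d))) := by
    intro d hd
    obtain ⟨y1, y2, y3⟩ := hy d hd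
    have := hno _ y1 y2 y3
    simp only [Finset.mem_union, Finset.mem_filter]
    tauto
  have hcard := (Finset.card_le_card hsub).trans (Finset.card_union_le _ _)
  rw [Finset.card_range] at hcard
  have hj0 : (0 : ℝ) < j := by exact_mod_cast hj1
  have b1 : (((range (3 ^ j)).filter fun d =>
      ¬ (S.K j (X + 1 + S.M * (1 * d)) : ℝ) ≤ κ * j).card : ℝ) ≤
      3 ^ j * ((3 * (S.H 1 : ℝ) / j + S.KK) / (3 * S.D * κ)) := by
    have m := markov (range (3 ^ j)) (fun d => (S.K j (X + 1 + S.M * (1 * d)) : ℝ))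
      (fun _ _ => by positivity) (fun d => ¬ (S.K j (X + 1 + S.M * (1 * d)) : ℝ) ≤ κ * j)
      (κ * j) (fun n _ h => by push Not at h; exact h.le)
    have ex := expect ok j (X + 1) 1 (by rw [hX, hw, mul_assoc]; omega) (by norm_num)
    have e1 : (X + 1) % S.M = 1 := by
      rw [hX, Nat.mul_add_mod]; exact Nat.mod_eq_of_lt (by omega)
    rw [e1, Finset.sum_add_distrib, ← Finset.mul_sum] at ex
    have ex2 : 3 * (S.D * ∑ d ∈ range (3 ^ j), S.K j (X + 1 + S.M * (1 * d))) ≤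
        3 ^ j * (3 * S.H 1 + j * S.KK) := le_trans (by omega) ex
    have ex3 : (3 : ℝ) * (S.D * ∑ d ∈ range (3 ^ j), (S.K j (X + 1 + S.M * (1 * d)) : ℝ)) ≤
        3 ^ j * (3 * S.H 1 + j * S.KK) := by exact_mod_cast ex2
    rw [← mul_div_assoc, le_div_iff₀ hDκ]
    apply le_of_mul_le_mul_right _ hj0
    have e2 : (3 : ℝ) ^ j * (3 * (S.H 1 : ℝ) / j + S.KK) * j = 3 ^ j * (3 * S.H 1 + j * S.KK) := by
      field_simp
    rw [e2]
    nlinarith
  have b2 : (((range (3 ^ j)).filter fun d => Fast c (X + 1 + S.M * (1 * d))).card : ℝ) ≤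
      3 ^ j * (C * (3 * S.M : ℝ) ^ a * ((3 : ℝ) ^ (a - 1)) ^ j) := by
    have h1 : ((range (3 ^ j)).filter fun d => Fast c (X + 1 + S.M * (1 * d))).card ≤
        cnt (Fast c) (3 * X) := by
      unfold cnt
      apply Finset.card_le_card_of_injOn (fun d => X + 1 + S.M * (1 * d))
      · intro d hd
        simp only [Finset.coe_filter, Set.mem_ofPred_eq] at hd ⊢
        obtain ⟨y1, y2, y3⟩ := hy d hd.1
        refine ⟨Finset.mem_range.mpr ?_, hd.2⟩
        have : 0 < X := by positivity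
        omega
      · intro d _ d' _ h
        simp only [one_mul] at h
        exact Nat.eq_of_mul_eq_mul_left hM0 (by omega)
    have h2 := hC (3 * X)
    have h3 : ((3 * X : ℕ) : ℝ) ^ a = 3 ^ j * ((3 * S.M : ℝ) ^ a * ((3 : ℝ) ^ (a - 1)) ^ j) := by
      rw [hX]; push_cast
      rw [← mul_assoc, Real.mul_rpow (by positivity) (by positivity), mul_left_comm]
      congr 1
      rw [← mul_pow, ← Real.rpow_natCast, ← Real.rpow_mul (by norm_num), mul_comm,
        Real.rpow_mul (by norm_num), Real.rpow_natCast]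
      congr 1
      rw [Real.rpow_sub (by norm_num), Real.rpow_one]; field_simp
    have h1' : (((range (3 ^ j)).filter fun d => Fast c (X + 1 + S.M * (1 * d))).card : ℝ) ≤
        cnt (Fast c) (3 * X) := by exact_mod_cast h1
    rw [h3] at h2
    refine h1'.trans (h2.trans (le_of_eq (by ring)))
  have hc' : ((3 ^ j : ℕ) : ℝ) ≤ (((range (3 ^ j)).filter fun d =>
      ¬ (S.K j (X + 1 + S.M * (1 * d)) : ℝ) ≤ κ * j).card : ℝ) +
      (((range (3 ^ j)).filter fun d => Fast c (X + 1 + S.M * (1 * d))).card : ℝ) := by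
    exact_mod_cast hcard
  push_cast at hc'
  have h3r : (0 : ℝ) < 3 ^ j := by positivity
  have := mul_lt_mul_of_pos_left hj h3r
  linarith

theorem main (ok : S.Ok) (hD : 0 < S.D) (κ c γ : ℝ) (hκ0 : 0 < κ)
    (hκ : (S.KK : ℝ) < 3 * S.D * κ) (hc : c * (Real.log 2 - Real.log 3 / 2) < 1)
    (hγ1 : 1 ≤ γ * Real.log 2) (hγ : κ * (γ * Real.log 2 - 1) < c * Real.log 3) (N : ℕ) :
    ∃ n : ℕ, N < n ∧ ∀ k : ℕ, (k : ℝ) < γ * Real.log n → T^[k] n ≠ 1 := by
  obtain ⟨-, hl2, hl3, -⟩ := log_facts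
  have hγ0 : 0 < γ := by
    by_contra h
    push Not at h
    nlinarith
  have hc0 : 0 < c := by
    by_contra h
    push Not at h
    have : 0 ≤ κ * (γ * Real.log 2 - 1) := mul_nonneg hκ0.le (by linarith)
    nlinarith
  set g := c * Real.log 3 - κ * (γ * Real.log 2 - 1) with hg
  have hg0 : 0 < g := by linarith
  obtain ⟨j0, hj0⟩ := exists_nat_ge (γ * Real.log (2 * S.M) / g)
  obtain ⟨j, ⟨y, y1, y2, y3, y4, y5⟩, hj⟩ := ((exists_good ok hD κ c hκ0 hκ (sparse_fast hc)).and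
    (eventually_ge_atTop (max N j0))).exists
  have hjN : N ≤ j := le_of_max_le_left hj
  have hjj : (j0 : ℝ) ≤ j := by exact_mod_cast le_of_max_le_right hj
  obtain ⟨p1, p2, p3⟩ := path ok j y y1
  have hM0 := ok.hM0
  obtain ⟨w, hw⟩ := ok.hM
  have hM3 : 3 ≤ S.M := by omega
  have h3j : 0 < 3 ^ j := by positivity
  have hy3 : 3 * 3 ^ j < y := lt_of_le_of_lt (Nat.mul_le_mul_right _ hM3) y2
  set n := S.B^[j] y with hn
  have hnj : 2 ^ j ≤ n := by
    have : 3 ^ j * 2 ^ j < 3 ^ j * (n + 1) := by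
      refine lt_of_lt_of_le ?_ p3
      rw [mul_comm]
      exact Nat.mul_lt_mul_of_pos_left (by omega) (by positivity)
    have := Nat.lt_of_mul_lt_mul_left this
    omega
  have hj2 : j < 2 ^ j := Nat.lt_two_pow_self
  refine ⟨n, by omega, fun k hk h1 => ?_⟩
  obtain ⟨i, rfl, hi⟩ := pass (k := S.K j y) (by rw [p1]; omega) h1
  rw [p1] at hi
  have hi2 : c * Real.log y ≤ i := by
    by_contra h
    push Not at h
    exact y5 ⟨i, h, hi⟩
  have l1 : j * Real.log 3 ≤ Real.log y := by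
    rw [← Real.log_pow]
    apply Real.log_le_log (by positivity)
    have : 3 ^ j ≤ y := by omega
    exact_mod_cast this
  have l2 : Real.log n ≤ S.K j y * Real.log 2 + Real.log (2 * S.M) := by
    have hn0 : 0 < n := by omega
    have h5 : n ≤ 2 ^ S.K j y * (2 * S.M) := by
      apply Nat.le_of_mul_le_mul_left _ h3j
      refine p2.trans ((Nat.mul_le_mul_left _ y3).trans (le_of_eq (by ring)))
    have h6 : (n : ℝ) ≤ 2 ^ S.K j y * (2 * S.M) := by exact_mod_cast h5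
    have := Real.log_le_log (by exact_mod_cast hn0) h6
    rwa [Real.log_mul (by positivity) (by positivity), Real.log_pow] at this
  rw [div_le_iff₀ hg0] at hj0
  push_cast at hk
  have l3 := mul_le_mul_of_nonneg_left l1 hc0.le
  have l4 := mul_le_mul_of_nonneg_left l2 hγ0.le
  have l5 := mul_le_mul_of_nonneg_right y4 (show 0 ≤ γ * Real.log 2 - 1 by linarith)
  have l6 := mul_le_mul_of_nonneg_right hjj hg0.le
  have l7 : j * g = j * (c * Real.log 3 - κ * (γ * Real.log 2 - 1)) := by rw [hg]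
  nlinarith

end Strat

end Pool.Agent.H57.Col
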