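import Mathlib
import Pool.Agent.H57.ColB
import Pool.Agent.H57.ColTab

namespace Pool.Agent.H57.Col

def chunk (k : ℕ) : ℕ :=
  bif Nat.ble k 3 then
    bif Nat.ble k 1 then (bif Nat.ble k 0 then t0 else t1) else (bif Nat.ble k 2 then t2 else t3)
  else bif Nat.ble k 5 then (bif Nat.ble k 4 then t4 else t5)
  else bif Nat.ble k 6 then t6 else (bif Nat.ble k 7 then t7 else t8)

def look (i : ℕ) : ℕ := (chunk (i / 4374) >>> (24 * (i % 4374))) % 16777216

def ent (b : ℕ) : ℕ := look (2 * (b / 3) + b % 3 - 1)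

def S11 : Strat where
  M := 59049
  D := 2048
  KK := 11173
  H b := ent b / 64
  s r := 3 - r % 3 + 2 * ((ent (r % 59049) >>> (2 * (r / 59049))) % 4)

def c1 (r : ℕ) : Bool :=
  Nat.ble 1 (S11.st r) && Nat.beq ((2 ^ S11.st r * r) % 3) 1 && Nat.ble 1 (S11.B r % 3)

def chk (b : ℕ) : Bool :=
  Nat.beq (b % 3) 0 || (c1 b && c1 (b + 59049) && c1 (b + 2 * 59049) &&
    Nat.ble (S11.h b + S11.h (b + 59049) + S11.h (b + 2 * 59049)) (3 * S11.H b + 11173))

def allB (f : ℕ → Bool) : ℕ → Bool
  | 0 => true
  | n + 1 => f n && allB f n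

lemma allB_sound {f : ℕ → Bool} {n : ℕ} (h : allB f n = true) : ∀ i < n, f i = true := by
  induction n with
  | zero => intro i hi; omega
  | succ n ih =>
    rw [allB, Bool.and_eq_true] at h
    intro i hi
    rcases Nat.lt_succ_iff_lt_or_eq.mp hi with hi | rfl
    · exact ih h.2 i hi
    · exact h.1

def blk (k : ℕ) : Bool := allB (fun i => allB (fun l => chk (6561 * k + 81 * i + l)) 81) 81

theorem b0 : blk 0 = true := by decide +kernel
theorem b1 : blk 1 = true := by decide +kernel
theorem b2 : blk 2 = true := by decide +kernel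
theorem b3 : blk 3 = true := by decide +kernel
theorem b4 : blk 4 = true := by decide +kernel
theorem b5 : blk 5 = true := by decide +kernel
theorem b6 : blk 6 = true := by decide +kernel
theorem b7 : blk 7 = true := by decide +kernel
theorem b8 : blk 8 = true := by decide +kernel

end Pool.Agent.H57.Col
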