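import Mathlib
import Pool.Agent.H57.ColC

namespace Pool.Agent.H57.Col

lemma chk_all (b : ℕ) (hb : b < 59049) : chk b = true := by
  have h : ∀ k < 9, blk k = true := by
    intro k hk
    interval_cases k
    exacts [b0, b1, b2, b3, b4, b5, b6, b7, b8]
  have := allB_sound (allB_sound (h (b / 6561) (by omega)) (b % 6561 / 81) (by omega))
    (b % 81) (by omega)
  rwa [show 6561 * (b / 6561) + 81 * (b % 6561 / 81) + b % 81 = b by omega] at this

lemma c1_sound {r : ℕ} (h : c1 r = true) :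
    1 ≤ S11.st r ∧ (2 ^ S11.st r * r) % 3 = 1 ∧ S11.B r % 3 ≠ 0 := by
  simp only [c1, Bool.and_eq_true, Nat.ble_eq, Nat.beq_eq] at h
  exact ⟨h.1.1, h.1.2, by omega⟩

lemma chk_sound {b : ℕ} (hb : b < 59049) (h3 : b % 3 ≠ 0) : c1 b = true ∧ c1 (b + 59049) = true ∧
    c1 (b + 2 * 59049) = true ∧
    S11.h b + S11.h (b + 59049) + S11.h (b + 2 * 59049) ≤ 3 * S11.H b + 11173 := by
  have h := chk_all b hb
  simp only [chk, Bool.or_eq_true, Bool.and_eq_true, Nat.ble_eq, Nat.beq_eq] at h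
  rcases h with h | h
  · exact absurd h h3
  · exact ⟨h.1.1.1, h.1.1.2, h.1.2, h.2⟩

theorem S11_ok : S11.Ok where
  hM := by decide
  hM0 := by decide
  hs := by
    intro r hr h3
    have hr' : r < 3 * 59049 := hr
    apply c1_sound
    obtain ⟨h1, h2, h4, -⟩ := chk_sound (b := r % 59049) (by omega) (by omega)
    have : r = r % 59049 ∨ r = r % 59049 + 59049 ∨ r = r % 59049 + 2 * 59049 := by omega
    rcases this with h | h | h
    · rw [h]; exact h1
    · rw [h]; exact h2
    · rw [h]; exact h4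
  hH := by
    have hM : S11.M = 59049 := rfl
    have hK : S11.KK = 11173 := rfl
    rw [hM, hK]
    intro b hb h3
    exact (chk_sound hb h3).2.2.2

theorem long_stop (N : ℕ) :
    ∃ n : ℕ, N < n ∧ ∀ k : ℕ, (k : ℝ) < 7.5 * Real.log n → T^[k] n ≠ 1 := by
  have h1 := Real.log_two_gt_d9
  have h2 := Real.log_two_lt_d9
  have h3 := Real.log_three_gt_d9
  have h4 := Real.log_three_lt_d9
  apply Strat.main S11_ok (by decide) 1.8187 6.952 7.5 (by norm_num)
  · show ((11173 : ℕ) : ℝ) < 3 * ((2048 : ℕ) : ℝ) * 1.8187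
    norm_num
  · linarith
  · linarith
  · linarith

end Pool.Agent.H57.Col
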