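import Mathlib

namespace Pool.Agent.H57.Cong

/-- a is congruent to b modulo p ^ k: the difference is p ^ k times a rational whose denominator
is not divisible by p -/
def Cong (p k : ℕ) (a b : ℚ) : Prop := ∃ c : ℚ, ¬ p ∣ c.den ∧ a - b = (p : ℚ) ^ k * c

/-- binomial coefficient with rational upper entry -/
def bn (a : ℚ) (k : ℕ) : ℚ := (∏ i ∈ Finset.range k, (a - i)) / k.factorial

/-- generalized central trinomial coefficient -/
def T (n : ℕ) (b c : ℤ) : ℤ :=
  ∑ j ∈ Finset.range (n / 2 + 1),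
    (n.choose (2 * j) : ℤ) * ((2 * j).choose j) * b ^ (n - 2 * j) * c ^ j

lemma not_cong {p k : ℕ} {a b : ℚ} (hp : p ≠ 0) (h : ((a - b) / (p : ℚ) ^ k).den % p = 0) :
    ¬ Cong p k a b := by
  rintro ⟨c, h1, h2⟩
  have : (p : ℚ) ^ k ≠ 0 := pow_ne_zero _ (by exact_mod_cast hp)
  rw [h2, mul_div_cancel_left₀ _ this] at h
  exact h1 (Nat.dvd_of_mod_eq_zero h)

end Pool.Agent.H57.Cong
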