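import Mathlib

set_option autoImplicit false

namespace Pool.Agent.H57.Cox

open Filter Topology

section Games

variable {ι : Type}

/-- One move of the numbers game. -/
def fire (G : ι → ι → ℝ) (i : ι) (A : ι → ℝ) : ι → ℝ := fun j => A j - 2 * G i j * A i

/-- A play of the numbers game along the word `s`. -/
def Game (G : ι → ι → ℝ) (s : ℕ → ι) (A : ℕ → ι → ℝ) : Prop :=
  ∀ k, A (k + 1) = fire G (s k) (A k)

lemma Game.lin {G : ι → ι → ℝ} {s : ℕ → ι} {A B : ℕ → ι → ℝ} (hA : Game G s A) (hB : Game G s B)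
    (a b : ℝ) : Game G s (fun k j => a * A k j + b * B k j) := by
  intro k
  funext j
  simp only [hA k, hB k, fire]
  ring

lemma persist {G : ι → ι → ℝ} {s : ℕ → ι} {Pos : ℕ → (ι → ℝ) → Prop}
    (hstep : ∀ k A, Pos k A → Pos (k + 1) (fire G (s k) A)) {X : ℕ → ι → ℝ} (hX : Game G s X)
    {t : ℕ} (h : Pos t (X t)) : ∀ k, t ≤ k → Pos k (X k) := by
  intro k hk
  induction k, hk using Nat.le_induction with
  | base => exact h
  | succ k _ ih => rw [hX k]; exact hstep k _ ih

lemma conv {G : ι → ι → ℝ} {s : ℕ → ι} {Pos : ℕ → (ι → ℝ) → Prop}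
    (hstep : ∀ k A, Pos k A → Pos (k + 1) (fire G (s k) A))
    (hval : ∀ k A, Pos k A → 0 ≤ A (s k))
    (hsmul : ∀ k A (c : ℝ), 0 ≤ c → Pos k A → Pos k (fun j => c * A j))
    {f : ℕ → ι → ℝ} (hf : Game G s f) (hF : ∀ k, 0 < f k (s k)) {θ : ℝ} (h0 : 0 < θ) (h1 : θ < 1)
    (harnack : ∀ t, ∃ t', ∀ A, Game G s A → Pos t (A t) → Pos t (fun j => f t j - A t j) →
      Pos t' (fun j => A t' j - θ * f t' j) ∨ Pos t' (fun j => f t' j - A t' j - θ * f t' j))
    {h : ℕ → ι → ℝ} (hh : Game G s h) (p1 : Pos 0 (h 0)) (p2 : Pos 0 (fun j => f 0 j - h 0 j)) :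
    ∃ x, Tendsto (fun k => h k (s k) / f k (s k)) atTop (𝓝 x) := by
  have hδ : 0 < 1 - θ := by linarith
  have claim : ∀ n : ℕ, ∃ t a, Pos t (fun j => 1 * h t j + (-a) * f t j) ∧
      Pos t (fun j => (-1) * h t j + (a + (1 - θ) ^ n) * f t j) := by
    intro n
    induction n with
    | zero =>
      refine ⟨0, 0, ?_, ?_⟩
      · convert p1 using 2; ring
      · convert p2 using 2; ring
    | succ n ih =>
      obtain ⟨t, a, q1, q2⟩ := ih
      obtain ⟨t', ht'⟩ := harnack t
      have hd : 0 < (1 - θ) ^ n := by positivity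
      set d := (1 - θ) ^ n with hdd
      have hA := hh.lin hf d⁻¹ (-a * d⁻¹)
      have r1 : Pos t (fun j => d⁻¹ * h t j + (-a * d⁻¹) * f t j) := by
        convert hsmul _ _ d⁻¹ (by positivity) q1 using 2; ring
      have r2 : Pos t (fun j => f t j - (d⁻¹ * h t j + (-a * d⁻¹) * f t j)) := by
        convert hsmul _ _ d⁻¹ (by positivity) q2 using 2; field_simp; ring
      have u1 := persist hstep (hh.lin hf 1 (-a)) q1 (max t t') (le_max_left _ _)
      have u2 := persist hstep (hh.lin hf (-1) (a + d)) q2 (max t t') (le_max_left _ _)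
      rcases ht' _ hA r1 r2 with r | r
      · refine ⟨max t t', a + θ * d, ?_, ?_⟩
        · refine persist hstep (hh.lin hf 1 (-(a + θ * d))) ?_ (max t t') (le_max_right _ _)
          convert hsmul _ _ d hd.le r using 2; field_simp; ring
        · convert u2 using 3; rw [pow_succ]; ring
      · refine ⟨max t t', a, u1, ?_⟩
        refine persist hstep (hh.lin hf (-1) (a + (1 - θ) ^ (n + 1))) ?_ (max t t')
          (le_max_right _ _)
        convert hsmul _ _ d hd.le r using 2; rw [pow_succ, ← hdd]; field_simp; ring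
  refine cauchySeq_tendsto_of_complete (Metric.cauchySeq_iff.2 fun ε hε => ?_)
  obtain ⟨n, hn⟩ := exists_pow_lt_of_lt_one hε (show 1 - θ < 1 by linarith)
  obtain ⟨t, a, q1, q2⟩ := claim n
  have b : ∀ k, t ≤ k → a ≤ h k (s k) / f k (s k) ∧ h k (s k) / f k (s k) ≤ a + (1 - θ) ^ n := by
    intro k hk
    have u1 := hval _ _ (persist hstep (hh.lin hf 1 (-a)) q1 k hk)
    have u2 := hval _ _ (persist hstep (hh.lin hf (-1) (a + (1 - θ) ^ n)) q2 k hk)
    rw [le_div_iff₀ (hF k), div_le_iff₀ (hF k)]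
    constructor <;> linarith
  refine ⟨t, fun m hm k hk => ?_⟩
  rw [Real.dist_eq, abs_lt]
  have := b m hm
  have := b k hk
  constructor <;> linarith

lemma conv_alt {G : ι → ι → ℝ} (hG : ∀ i, G i i = 1) {s : ℕ → ι}
    {m : ℕ} (halt : ∀ n, m ≤ n → s (n + 2) = s n)
    {f h : ℕ → ι → ℝ} (hf : Game G s f) (hh : Game G s h)
    (hF : ∀ n : ℕ, (n : ℝ) + 1 ≤ f (m + n) (s (m + n))) :
    ∃ x, Tendsto (fun k => h k (s k) / f k (s k)) atTop (𝓝 x) := by
  have hrec : ∀ A : ℕ → ι → ℝ, Game G s A → ∀ n, m ≤ n → A (n + 2) (s (n + 2)) =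
      -A n (s n) - 2 * G (s (n + 1)) (s n) * A (n + 1) (s (n + 1)) := by
    intro A hA n hn
    rw [halt n hn, hA (n + 1)]
    simp only [fire]
    rw [show A (n + 1) (s n) = -A n (s n) by rw [hA n]; simp only [fire, hG]; ring]
  set W : ℝ := h (m + 1) (s (m + 1)) * f m (s m) - h m (s m) * f (m + 1) (s (m + 1)) with hW
  have hWn : ∀ n : ℕ, h (m + n + 1) (s (m + n + 1)) * f (m + n) (s (m + n)) -
      h (m + n) (s (m + n)) * f (m + n + 1) (s (m + n + 1)) = W := by
    intro n
    induction n with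
    | zero => rfl
    | succ n ih =>
      rw [← ih, show m + (n + 1) + 1 = m + n + 2 by ring, show m + (n + 1) = m + n + 1 by ring,
        hrec h hh _ (Nat.le_add_right m n), hrec f hf _ (Nat.le_add_right m n)]
      ring
  have hsum : Summable fun n : ℕ => |W| * (1 / ((n : ℝ) + 1) ^ 2) := by
    refine Summable.mul_left _ ?_
    have := (summable_nat_add_iff 1).2 (Real.summable_one_div_nat_pow.2 one_lt_two)
    simpa using this
  have hc : CauchySeq fun n : ℕ => h (m + n) (s (m + n)) / f (m + n) (s (m + n)) := by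
    refine cauchySeq_of_dist_le_of_summable _ (fun n => ?_) hsum
    have a1 := hF n
    have a2 := hF (n + 1)
    rw [show m + (n + 1) = m + n + 1 by ring] at a2
    push_cast at a2
    have n0 : (0 : ℝ) < n + 1 := by positivity
    have b1 : 0 < f (m + n) (s (m + n)) := by linarith
    have b2 : 0 < f (m + n + 1) (s (m + n + 1)) := by linarith
    rw [Real.dist_eq, abs_sub_comm, show m + n.succ = m + n + 1 by rfl,
      div_sub_div _ _ b2.ne' b1.ne', mul_comm (f (m + n + 1) (s (m + n + 1))) (h _ _), hWn, abs_div,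
      abs_of_pos (mul_pos b2 b1), mul_one_div]
    gcongr
    rw [sq]
    gcongr
    linarith
  obtain ⟨x, hx⟩ := cauchySeq_tendsto_of_complete hc
  refine ⟨x, (tendsto_add_atTop_iff_nat m).1 ?_⟩
  simpa [add_comm] using hx

end Games

lemma unique_acc {X : Type} [MetricSpace X] {y : ℕ → X} {x : X} (hy : Tendsto y atTop (𝓝 x))
    (hne : ∀ k, y (k + 1) ≠ y k) : ∃! z, AccPt z (𝓟 (Set.range y)) := by
  refine ⟨x, ?_, fun z hz => ?_⟩
  · refine accPt_iff_nhds.2 fun U hU => ?_
    obtain ⟨N, hN⟩ := eventually_atTop.1 (hy.eventually hU)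
    by_cases h : y N = x
    · exact ⟨y (N + 1), ⟨hN _ (Nat.le_succ N), ⟨_, rfl⟩⟩, h ▸ hne N⟩
    · exact ⟨y N, ⟨hN _ le_rfl, ⟨_, rfl⟩⟩, h⟩
  · by_contra hzx
    obtain ⟨U, V, hU, hV, hzU, hxV, hUV⟩ := t2_separation hzx
    obtain ⟨N, hN⟩ := eventually_atTop.1 (hy.eventually (hV.mem_nhds hxV))
    have h1 := hz.nhds_inter (hU.mem_nhds hzU)
    refine Set.Infinite.of_accPt h1 (((Set.finite_lt_nat N).image y).subset ?_)
    rintro w ⟨hwU, k, rfl⟩
    refine ⟨k, ?_, rfl⟩
    by_contra hk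
    exact Set.disjoint_left.1 hUV hwU (hN k (not_lt.1 hk))

/-- The set of letters that can be moved to the end of the prefix of length `k`. -/
def Desc {ι : Type} (C : ι → ι → Prop) (s : ℕ → ι) : ℕ → ι → Prop
  | 0 => fun _ => False
  | k + 1 => fun j => j = s k ∨ (Desc C s k j ∧ C (s k) j)

lemma not_desc {ι : Type} (M : CoxeterMatrix ι) (C : ι → ι → Prop)
    (hC : ∀ i j, C i j → i = j ∨ M i j = 2) (s : ℕ → ι)
    (hred : ∀ k : ℕ, M.toCoxeterSystem.IsReduced (List.ofFn fun j : Fin k => s j)) :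
    ∀ k, ¬ Desc C s k (s k) := by
  set cs := M.toCoxeterSystem
  have hcat : ∀ k : ℕ, cs.wordProd (List.ofFn fun j : Fin (k + 1) => s j) =
      cs.wordProd (List.ofFn fun j : Fin k => s j) * cs.simple (s k) := by
    intro k
    rw [List.ofFn_succ', CoxeterSystem.wordProd_concat]
    simp
  have hcomm : ∀ i j, C i j → cs.simple j * cs.simple i = cs.simple i * cs.simple j := by
    intro i j hij
    rcases hC i j hij with rfl | h
    · rfl
    · have h1 := cs.simple_mul_simple_pow i j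
      rw [h, sq] at h1
      have h2 : cs.simple i * cs.simple j = (cs.simple i * cs.simple j)⁻¹ :=
        eq_inv_of_mul_eq_one_left h1
      rw [h2]
      simp
  have key : ∀ k d, Desc C s k d → ∃ ω : List ι, ω.length + 1 = k ∧
      cs.wordProd (List.ofFn fun j : Fin k => s j) = cs.wordProd ω * cs.simple d := by
    intro k
    induction k with
    | zero => intro d hd; exact hd.elim
    | succ k ih =>
      rintro d (rfl | ⟨hd, hc⟩)
      · exact ⟨List.ofFn fun j : Fin k => s j, by simp, hcat k⟩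
      · obtain ⟨ω, h1, h2⟩ := ih d hd
        refine ⟨ω.concat (s k), by simp [h1], ?_⟩
        rw [hcat, h2, CoxeterSystem.wordProd_concat, mul_assoc, hcomm _ _ hc, mul_assoc]
  intro k hk
  obtain ⟨ω, h1, h2⟩ := key k _ hk
  have h3 := (hred (k + 1)).eq
  rw [hcat, h2, CoxeterSystem.simple_mul_simple_cancel_right, List.length_ofFn] at h3
  have := cs.length_wordProd_le ω
  omega

lemma final {n : ℕ} (G : Matrix (Fin n) (Fin n) ℝ) (hG : ∀ i, G i i = 1)
    (σ : Fin n → Matrix (Fin n) (Fin n) ℝ)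
    (hσ : ∀ i a b, σ i a b = (if a = b then (1 : ℝ) else 0) - (if a = i then 2 * G i b else 0))
    (s : ℕ → Fin n) (hne : ∀ k, s (k + 1) ≠ s k)
    (hconv : ∀ f : ℕ → Fin n → ℝ, Game G s f → (∀ j, f 0 j = 1) →
      (∀ k, 0 < f k (s k)) ∧ ∀ h : ℕ → Fin n → ℝ, Game G s h → (∀ j, 0 ≤ h 0 j ∧ h 0 j ≤ 1) →
        ∃ x, Tendsto (fun k => h k (s k) / f k (s k)) atTop (𝓝 x)) :
    ∃! x : Fin n → ℝ, AccPt x (Filter.principal (Set.range fun k : ℕ =>
      (∑ i, (Matrix.mulVec (List.ofFn fun j : Fin k => σ (s j)).prod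
          (Pi.single (s k) (1 : ℝ) : Fin n → ℝ)) i)⁻¹ •
        Matrix.mulVec (List.ofFn fun j : Fin k => σ (s j)).prod
          (Pi.single (s k) (1 : ℝ) : Fin n → ℝ))) := by
  set P : ℕ → Matrix (Fin n) (Fin n) ℝ := fun k => (List.ofFn fun j : Fin k => σ (s j)).prod
    with hP
  have hPs : ∀ k, P (k + 1) = P k * σ (s k) := by
    intro k
    simp only [hP]
    rw [List.ofFn_succ', List.prod_concat]
    simp
  have hP0 : P 0 = 1 := by simp [hP]
  have hrow : ∀ u, Game G s (fun k j => P k u j) := by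
    intro u k
    funext j
    simp only [hPs, Matrix.mul_apply, hσ, fire, mul_sub, Finset.sum_sub_distrib, mul_ite, mul_one,
      mul_zero, Finset.sum_ite_eq', Finset.mem_univ, if_true]
    ring
  have hsum : Game G s (fun k j => ∑ u, P k u j) := by
    intro k
    funext j
    have : ∀ u, P (k + 1) u j = fire G (s k) (fun j => P k u j) j := fun u => congrFun (hrow u k) j
    simp only [this, fire, Finset.sum_sub_distrib, Finset.mul_sum]
  obtain ⟨hF, hc⟩ := hconv _ hsum (by intro j; simp [hP0, Matrix.one_apply])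
  have hx : ∀ u, ∃ x, Tendsto (fun k => P k u (s k) / ∑ u, P k u (s k)) atTop (𝓝 x) := by
    intro u
    refine hc _ (hrow u) fun j => ?_
    simp only [hP0, Matrix.one_apply]
    split_ifs <;> simp
  choose x hx using hx
  have hmv : ∀ k j, Matrix.mulVec (P k) (Pi.single j (1 : ℝ) : Fin n → ℝ) = fun u => P k u j := by
    intro k j
    funext u
    simp
  have hσσ : ∀ i, σ i * σ i = 1 := by
    intro i
    ext a b
    simp only [Matrix.mul_apply, hσ, sub_mul, Finset.sum_sub_distrib, ite_mul, one_mul, zero_mul,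
      Finset.sum_ite_eq, Finset.mem_univ, if_true, Matrix.one_apply]
    by_cases ha : a = i
    · simp only [ha, if_true, mul_sub, Finset.sum_sub_distrib, mul_ite, mul_one, mul_zero,
        Finset.sum_ite_eq', Finset.mem_univ, hG]
      ring
    · simp [ha]
  have hinv : ∀ k, ∃ Q : Matrix (Fin n) (Fin n) ℝ, Q * P k = 1 := by
    intro k
    induction k with
    | zero => exact ⟨1, by simp [hP0]⟩
    | succ k ih =>
      obtain ⟨Q, hQ⟩ := ih
      refine ⟨σ (s k) * Q, ?_⟩
      rw [hPs, mul_assoc, ← mul_assoc Q, hQ, one_mul, hσσ]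
  refine unique_acc (x := x) ?_ ?_
  · rw [tendsto_pi_nhds]
    intro u
    refine (hx u).congr fun k => ?_
    change _ = (∑ i, (Matrix.mulVec (P k) (Pi.single (s k) (1 : ℝ) : Fin n → ℝ)) i)⁻¹ *
      (Matrix.mulVec (P k) (Pi.single (s k) (1 : ℝ) : Fin n → ℝ)) u
    rw [hmv, div_eq_inv_mul]
  · intro k hk
    change (∑ i, (Matrix.mulVec (P (k + 1)) (Pi.single (s (k + 1)) (1 : ℝ) : Fin n → ℝ)) i)⁻¹ •
      (Matrix.mulVec (P (k + 1)) (Pi.single (s (k + 1)) (1 : ℝ) : Fin n → ℝ)) =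
      (∑ i, (Matrix.mulVec (P k) (Pi.single (s k) (1 : ℝ) : Fin n → ℝ)) i)⁻¹ •
      (Matrix.mulVec (P k) (Pi.single (s k) (1 : ℝ) : Fin n → ℝ)) at hk
    obtain ⟨Q, hQ⟩ := hinv k
    have h1 := congrFun (congrArg (Matrix.mulVec Q) hk) (s (k + 1))
    have h2 := hF (k + 1)
    rw [Matrix.mulVec_smul, Matrix.mulVec_smul, Matrix.mulVec_mulVec, Matrix.mulVec_mulVec, hQ,
      hPs k, ← mul_assoc, hQ, one_mul, ← hPs k, hmv] at h1
    simp [hσ, hne k] at h1
    exact h2.ne' h1

end Pool.Agent.H57.Cox
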