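import Pool.Agent.H57.Cox1

set_option autoImplicit false

namespace Pool.Agent.H57.Cox

open Filter Topology

variable {ι : Type}

/-- Nonnegativity on the cone attached to the last letter. -/
def PosA (s : ℕ → ι) : ℕ → (ι → ℝ) → Prop
  | 0 => fun A => ∀ j, 0 ≤ A j
  | k + 1 => fun A => ∀ j, j ≠ s k → 0 ≤ A j ∧ 0 ≤ A (s k) + A j

theorem sysA {G : ι → ι → ℝ} (hG : ∀ i, G i i = 1) (hlo : ∀ i j, j ≠ i → -6 ≤ G i j)
    (hhi : ∀ i j, j ≠ i → G i j ≤ -1) {s : ℕ → ι} (hne : ∀ k, s (k + 1) ≠ s k)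
    (f : ℕ → ι → ℝ) (hf : Game G s f) (hf0 : ∀ j, f 0 j = 1) :
    (∀ k, 0 < f k (s k)) ∧ ∀ h : ℕ → ι → ℝ, Game G s h → (∀ j, 0 ≤ h 0 j ∧ h 0 j ≤ 1) →
      ∃ x, Tendsto (fun k => h k (s k) / f k (s k)) atTop (𝓝 x) := by
  have fself : ∀ i (A : ι → ℝ), fire G i A i = -A i := by
    intro i A; simp only [fire, hG]; ring
  have flo : ∀ i j (A : ι → ℝ), j ≠ i → 0 ≤ A i → A j + 2 * A i ≤ fire G i A j := by
    intro i j A hj hA
    have := hhi i j hj
    simp only [fire]; nlinarith
  have fhi : ∀ i j (A : ι → ℝ), j ≠ i → 0 ≤ A i → fire G i A j ≤ A j + 12 * A i := by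
    intro i j A hj hA
    have := hlo i j hj
    simp only [fire]; nlinarith
  have hval : ∀ k A, PosA s k A → 0 ≤ A (s k) := by
    intro k A h
    cases k with
    | zero => exact h _
    | succ k => exact (h _ (hne k)).1
  have hstep : ∀ k A, PosA s k A → PosA s (k + 1) (fire G (s k) A) := by
    intro k A h j hj
    have h0 := hval k A h
    have h1 := flo (s k) j A hj h0
    have h2 : 0 ≤ A j + A (s k) := by
      cases k with
      | zero => have := h j; linarith
      | succ k =>
        by_cases hp : j = s k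
        · rw [hp]; exact (h _ (hne k)).2
        · have := (h j hp).1; linarith
    rw [fself]
    constructor <;> linarith
  have hsmul : ∀ k A (c : ℝ), 0 ≤ c → PosA s k A → PosA s k (fun j => c * A j) := by
    intro k A c hc h
    cases k with
    | zero => exact fun j => mul_nonneg hc (h j)
    | succ k =>
      intro j hj
      refine ⟨mul_nonneg hc (h j hj).1, ?_⟩
      rw [← mul_add]; exact mul_nonneg hc (h j hj).2
  have inv1 : ∀ n : ℕ, (n : ℝ) + 1 ≤ f n (s n) ∧
      ∀ j, j ≠ s n → f n (s n) + 1 ≤ f (n + 1) j := by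
    intro n
    induction n with
    | zero =>
      refine ⟨by simp [hf0], fun j hj => ?_⟩
      have := flo (s 0) j (f 0) hj (by simp [hf0])
      rw [hf 0]; simp only [hf0] at this ⊢; linarith
    | succ n ih =>
      have a1 := ih.2 _ (hne n)
      have n0 : (0 : ℝ) ≤ n := by positivity
      refine ⟨by push_cast; linarith [ih.1], fun j hj => ?_⟩
      have a2 := flo (s (n + 1)) j (f (n + 1)) hj (by linarith [ih.1])
      rw [hf (n + 1)]
      by_cases hp : j = s n
      · have : f (n + 1) j = -f n (s n) := by rw [hp, hf n, fself]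
        linarith
      · have := ih.2 j hp
        linarith [ih.1]
  have hF : ∀ k, 0 < f k (s k) := fun k => by
    have n0 : (0 : ℝ) ≤ k := by positivity
    linarith [(inv1 k).1]
  refine ⟨hF, fun h hh h0 => ?_⟩
  by_cases halt : ∃ m, ∀ n, m ≤ n → s (n + 2) = s n
  · obtain ⟨m, hm⟩ := halt
    refine conv_alt hG hm hf hh fun n => ?_
    have := (inv1 (m + n)).1
    have m0 : (0 : ℝ) ≤ m := by positivity
    push_cast at this; linarith
  push Not at halt
  have i2a : ∀ n, f (n + 2) (s n) ≤ 12 * f (n + 1) (s (n + 1)) := by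
    intro n
    have a1 := fhi (s (n + 1)) (s n) (f (n + 1)) (hne n).symm (hF _).le
    have a2 : f (n + 1) (s n) = -f n (s n) := by rw [hf n, fself]
    rw [hf (n + 1)]
    linarith [hF n]
  have i2b : ∀ n a, a ≠ s n → a ≠ s (n + 1) → 2 * f (n + 1) (s (n + 1)) ≤ f (n + 2) a := by
    intro n a h1 h2
    have a1 := flo (s (n + 1)) a (f (n + 1)) h2 (hF _).le
    have a2 := (inv1 n).2 a h1
    rw [hf (n + 1)]
    linarith [hF n]
  have i2c : ∀ n a b, a ≠ s n → a ≠ s (n + 1) → b ≠ s n → b ≠ s (n + 1) →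
      f (n + 2) a ≤ 200 * f (n + 2) b := by
    intro n
    induction n with
    | zero =>
      intro a b a1 a2 b1 b2
      have c1 := fhi (s 1) a (f 1) a2 (hF 1).le
      have c2 := fhi (s 0) a (f 0) a1 (hF 0).le
      have c3 := fhi (s 0) (s 1) (f 0) (hne 0) (hF 0).le
      have c4 := i2b 0 b b1 b2
      have c5 := (inv1 1).1
      rw [← hf 0, hf0, hf0] at c2 c3
      rw [← hf 1] at c1
      norm_num at c1 c2 c3 c4 c5 ⊢
      linarith
    | succ n ih =>
      intro a b a1 a2 b1 b2
      have c1 := fhi (s (n + 2)) a (f (n + 2)) a2 (hF _).le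
      have c2 := flo (s (n + 2)) b (f (n + 2)) b2 (hF _).le
      have c3 := (inv1 (n + 1)).2 b b1
      have c4 := hF (n + 1)
      have c5 := hF (n + 2)
      rw [← hf (n + 2)] at c1 c2
      change f (n + 2 + 1) a ≤ 200 * f (n + 2 + 1) b
      change f (n + 1) (s (n + 1)) + 1 ≤ f (n + 2) b at c3
      by_cases hq : s (n + 2) = s n
      · have := ih a b (hq ▸ a2) a1 (hq ▸ b2) b1
        linarith
      · have c6 := i2b n (s (n + 2)) hq (hne (n + 1))
        by_cases ha : a = s n
        · have := i2a n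
          rw [← ha] at this
          linarith
        · have := ih a (s (n + 2)) ha a1 hq (hne (n + 1))
          linarith
  have core : ∀ n, s (n + 2) ≠ s n → ∀ X : ℕ → ι → ℝ, Game G s X → PosA s (n + 1) (X (n + 1)) →
      f (n + 2) (s (n + 2)) / 4 ≤ X (n + 2) (s (n + 1)) + X (n + 2) (s (n + 2)) →
      PosA s (n + 3) (fun j => X (n + 3) j - 1 / 1000 * f (n + 3) j) := by
    intro n hq X hX p1 hw k hk
    have p2 : PosA s (n + 2) (X (n + 2)) := by rw [hX (n + 1)]; exact hstep _ _ p1
    have x1 : X (n + 2) (s (n + 1)) ≤ 0 := by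
      rw [hX (n + 1), fself]; linarith [hval _ _ p1]
    have x2 := hval _ _ p2
    have c5 := hF (n + 2)
    have c1 := flo (s (n + 2)) k (X (n + 2)) hk x2
    have c2 := fhi (s (n + 2)) k (f (n + 2)) hk c5.le
    have c3 : X (n + 3) (s (n + 2)) = -X (n + 2) (s (n + 2)) := by rw [hX (n + 2), fself]
    have c4 : f (n + 3) (s (n + 2)) = -f (n + 2) (s (n + 2)) := by rw [hf (n + 2), fself]
    rw [← hX (n + 2)] at c1
    rw [← hf (n + 2)] at c2
    have c6 := i2b n (s (n + 2)) hq (hne (n + 1))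
    have c7 := hF (n + 1)
    have c8 : f (n + 2) k ≤ 200 * f (n + 2) (s (n + 2)) := by
      by_cases h1 : k = s (n + 1)
      · rw [h1, hf (n + 1), fself, ← hf (n + 1)]; linarith
      · by_cases h2 : k = s n
        · have := i2a n
          rw [h2]; linarith
        · exact i2c n k _ h2 h1 hq (hne (n + 1))
    change X (n + 2) k + 2 * X (n + 2) (s (n + 2)) ≤ X (n + 3) k at c1
    change f (n + 3) k ≤ f (n + 2) k + 12 * f (n + 2) (s (n + 2)) at c2
    show 0 ≤ X (n + 3) k - 1 / 1000 * f (n + 3) k ∧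
      0 ≤ X (n + 3) (s (n + 2)) - 1 / 1000 * f (n + 3) (s (n + 2)) +
        (X (n + 3) k - 1 / 1000 * f (n + 3) k)
    rw [c3, c4]
    by_cases h1 : k = s (n + 1)
    · rw [← h1] at hw x1
      constructor <;> linarith
    · have := (p2 k h1).1
      constructor <;> linarith
  refine conv hstep hval hsmul hf hF (θ := 1 / 1000) (by norm_num) (by norm_num) (fun t => ?_) hh
    (fun j => (h0 j).1) (fun j => by have := hf0 j; have := (h0 j).2; show 0 ≤ f 0 j - h 0 j; linarith)
  obtain ⟨n, hn, hq⟩ := halt t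
  refine ⟨n + 3, fun A hA p1 p2 => ?_⟩
  have hB : Game G s (fun k j => f k j - A k j) := by
    have := hf.lin hA 1 (-1)
    convert this using 3; ring
  have c6 := i2b n (s (n + 2)) hq (hne (n + 1))
  have c4 : f (n + 2) (s (n + 1)) = -f (n + 1) (s (n + 1)) := by rw [hf (n + 1), fself]
  by_cases hw : f (n + 2) (s (n + 2)) / 4 ≤ A (n + 2) (s (n + 1)) + A (n + 2) (s (n + 2))
  · exact Or.inl (core n hq A hA (persist hstep hA p1 _ (by omega)) hw)
  · refine Or.inr (core n hq _ hB (persist hstep hB p2 _ (by omega)) ?_)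
    linarith

end Pool.Agent.H57.Cox
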