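import Pool.Agent.H57.Cox2

set_option autoImplicit false

namespace Pool.Agent.H57.Cox

open Filter Topology

/-- Adjacency in the pentagon. -/
abbrev adj (i j : Fin 5) : Prop := i - j = 1 ∨ j - i = 1

lemma adj_symm {i j : Fin 5} (h : adj i j) : adj j i := h.symm
lemma adj_ne : ∀ i j : Fin 5, adj i j → j ≠ i := by decide
lemma far_adj : ∀ i p q : Fin 5, ¬adj i p → p ≠ i → ¬adj i q → q ≠ i → p ≠ q → adj p q := by decide
set_option synthInstance.maxSize 100000 in
lemma far_alt : ∀ i p q r : Fin 5, ¬adj i p → p ≠ i → ¬adj i q → q ≠ i → ¬adj i r → r ≠ i →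
    q ≠ p → r ≠ q → r = p := by decide
lemma opp : ∀ i j : Fin 5, adj i j → ∃ o, o ≠ i ∧ o ≠ j ∧ ¬adj i o ∧ ¬adj j o ∧
    (∀ a, a ≠ j → a ≠ o → adj j a ∨ adj i a) ∧ (∀ d, ¬adj i d → ¬adj j d → d = o) ∧
    (∀ a, adj o a → a ≠ j ∧ a ≠ o ∧ (adj j a ∨ adj i a)) := by decide

/-- Nonnegativity on the cone attached to a descent set. -/
def Pos (D : Fin 5 → Prop) (A : Fin 5 → ℝ) : Prop :=
  (∀ i, ¬D i → 0 ≤ A i) ∧ ∀ d i, D d → adj d i → 0 ≤ A d + A i

lemma Pos.add {D : Fin 5 → Prop} {A B : Fin 5 → ℝ} (hA : Pos D A) (hB : Pos D B) :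
    Pos D (fun j => A j + B j) :=
  ⟨fun i hi => add_nonneg (hA.1 i hi) (hB.1 i hi), fun d i hd hi => by
    have := hA.2 d i hd hi
    have := hB.2 d i hd hi
    linarith⟩

lemma Pos.smul {D : Fin 5 → Prop} {A : Fin 5 → ℝ} {c : ℝ} (hc : 0 ≤ c) (hA : Pos D A) :
    Pos D (fun j => c * A j) :=
  ⟨fun i hi => mul_nonneg hc (hA.1 i hi), fun d i hd hi => by
    rw [← mul_add]; exact mul_nonneg hc (hA.2 d i hd hi)⟩

section

variable {G : Fin 5 → Fin 5 → ℝ}
  (hG : ∀ i j, G i j = if i = j then 1 else if adj i j then -2 else 0)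
include hG

lemma fself (i : Fin 5) (A : Fin 5 → ℝ) : fire G i A i = -A i := by
  simp only [fire, hG, if_true]; ring

lemma fadj {i j : Fin 5} (h : adj i j) (A : Fin 5 → ℝ) : fire G i A j = A j + 4 * A i := by
  simp only [fire, hG, if_neg (adj_ne i j h).symm, if_pos h]; ring

lemma ffar {i j : Fin 5} (h : ¬adj i j) (h' : j ≠ i) (A : Fin 5 → ℝ) : fire G i A j = A j := by
  simp only [fire, hG, if_neg h'.symm, if_neg h]; ring

lemma fge {i j : Fin 5} (h' : j ≠ i) {A : Fin 5 → ℝ} (hA : 0 ≤ A i) : A j ≤ fire G i A j := by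
  by_cases h : adj i j
  · rw [fadj hG h]; linarith
  · rw [ffar hG h h']

lemma fle {i : Fin 5} (j : Fin 5) {A : Fin 5 → ℝ} (hA : 0 ≤ A i) :
    fire G i A j ≤ A j + 4 * A i := by
  by_cases h' : j = i
  · rw [h', fself hG]; linarith
  by_cases h : adj i j
  · rw [fadj hG h]
  · rw [ffar hG h h']; linarith

lemma pos_step {D : Fin 5 → Prop} {i : Fin 5} (hi : ¬D i) {A : Fin 5 → ℝ} (hA : Pos D A) :
    Pos (fun j => j = i ∨ (D j ∧ ¬adj i j)) (fire G i A) := by
  have h0 := hA.1 i hi
  have h1 : ∀ j, adj i j → 0 ≤ A j + A i := by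
    intro j hj
    by_cases hD : D j
    · exact hA.2 j i hD (adj_symm hj)
    · have := hA.1 j hD; linarith
  constructor
  · intro j hj
    push Not at hj
    by_cases h : adj i j
    · rw [fadj hG h]; linarith [h1 j h]
    · rw [ffar hG h hj.1]; exact hA.1 j fun hD => h (hj.2 hD)
  · rintro d k (rfl | ⟨hd, hd'⟩) hk
    · rw [fself hG, fadj hG hk]; linarith [h1 k hk]
    · have hdi : d ≠ i := fun h => hi (h ▸ hd)
      have hki : k ≠ i := fun h => hd' (adj_symm (h ▸ hk))
      rw [ffar hG hd' hdi]
      have := fge hG hki h0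
      linarith [hA.2 d k hd hk]

end

/-- Last value fired at each letter. -/
noncomputable def Lst (s : ℕ → Fin 5) (f : ℕ → Fin 5 → ℝ) : ℕ → Fin 5 → ℝ
  | 0 => fun _ => 0
  | k + 1 => Function.update (Lst s f k) (s k) (f k (s k))

theorem sysB {G : Fin 5 → Fin 5 → ℝ}
    (hG : ∀ i j, G i j = if i = j then 1 else if adj i j then -2 else 0) {s : ℕ → Fin 5}
    (hs : ∀ k, ¬Desc (fun i j => ¬adj i j) s k (s k))
    (f : ℕ → Fin 5 → ℝ) (hf : Game G s f) (hf0 : ∀ j, f 0 j = 1) :
    (∀ k, 0 < f k (s k)) ∧ ∀ h : ℕ → Fin 5 → ℝ, Game G s h → (∀ j, 0 ≤ h 0 j ∧ h 0 j ≤ 1) →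
      ∃ x, Tendsto (fun k => h k (s k) / f k (s k)) atTop (𝓝 x) := by
  set D := Desc (fun i j => ¬adj i j) s with hD
  have hDs : ∀ k j, D (k + 1) j ↔ j = s k ∨ (D k j ∧ ¬adj (s k) j) := fun k j => Iff.rfl
  have hne : ∀ k, s (k + 1) ≠ s k := fun k h => hs (k + 1) (Or.inl h)
  have hind : ∀ k a b, D k a → D k b → ¬adj a b := by
    intro k
    induction k with
    | zero => intro a b ha; exact ha.elim
    | succ k ih =>
      rintro a b (rfl | ⟨ha, ha'⟩) (rfl | ⟨hb, hb'⟩)
      · exact fun h => adj_ne _ _ h rfl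
      · exact hb'
      · exact fun h => ha' (adj_symm h)
      · exact ih a b ha hb
  have hstep : ∀ k A, Pos (D k) A → Pos (D (k + 1)) (fire G (s k) A) :=
    fun k A h => pos_step hG (hs k) h
  have hval : ∀ k A, Pos (D k) A → 0 ≤ A (s k) := fun k A h => h.1 _ (hs k)
  set L := Lst s f with hL
  have hLs : ∀ k, L (k + 1) (s k) = f k (s k) := fun k => by simp [hL, Lst]
  have hLn : ∀ k j, j ≠ s k → L (k + 1) j = L k j := fun k j hj => by simp [hL, Lst, hj]
  have hLsum : ∀ k, ∑ j, L (k + 1) j = ∑ j, L k j - L k (s k) + f k (s k) := by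
    intro k
    simp only [hL, Lst]
    rw [Finset.sum_update_of_mem (Finset.mem_univ _),
      ← Finset.sum_erase_add _ _ (Finset.mem_univ (s k)), Finset.sdiff_singleton_eq_erase]
    ring
  have inv : ∀ k : ℕ, (∀ j, ¬D k j → 1 ≤ f k j ∧ 9 * L k j ≤ f k j) ∧
      (∀ d, D k d → f k d = -L k d) ∧ (∀ d i, D k d → adj d i → 3 * L k d ≤ f k i) ∧
      (∀ j, f k j ≤ 1 + 9 / 2 * ∑ j, L k j) ∧ (∀ j, 0 ≤ L k j) ∧ (8 / 9 * k ≤ ∑ j, L k j) := by
    intro k
    induction k with
    | zero =>
      refine ⟨fun j _ => ?_, fun d hd => hd.elim, fun d i hd => hd.elim, fun j => ?_, fun j => ?_,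
        ?_⟩ <;> simp [hf0, hL, Lst]
    | succ k ih =>
      obtain ⟨i1, i2, i3, i4, i5, i6⟩ := ih
      obtain ⟨a1, a2⟩ := i1 _ (hs k)
      have hnb : ∀ j, adj (s k) j → 3 * f k (s k) ≤ f (k + 1) j ∧ 9 * L k j ≤ f (k + 1) j := by
        intro j hj
        rw [hf k, fadj hG hj]
        by_cases hd : D k j
        · have := i2 j hd
          have := i3 j _ hd (adj_symm hj)
          constructor <;> linarith
        · have := i1 j hd
          constructor <;> linarith
      refine ⟨fun j hj => ?_, ?_, ?_, fun j => ?_, fun j => ?_, ?_⟩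
      · rw [hDs] at hj
        push Not at hj
        rw [hLn k j hj.1]
        by_cases h : adj (s k) j
        · have := hnb j h
          constructor <;> linarith
        · rw [hf k, ffar hG h hj.1]; exact i1 j fun hd => h (hj.2 hd)
      · rintro d (rfl | ⟨hd, hd'⟩)
        · rw [hLs, hf k, fself hG]
        · have hdi : d ≠ s k := fun h => hs k (h ▸ hd)
          rw [hLn k d hdi, hf k, ffar hG hd' hdi, i2 d hd]
      · rintro d i (rfl | ⟨hd, hd'⟩) hi
        · rw [hLs]; exact (hnb i hi).1
        · have hdi : d ≠ s k := fun h => hs k (h ▸ hd)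
          have hki : i ≠ s k := fun h => hd' (adj_symm (h ▸ hi))
          have := fge hG hki (A := f k) (by linarith)
          rw [hLn k d hdi, hf k]
          linarith [i3 d i hd hi]
      · have := fle hG j (i := s k) (A := f k) (by linarith)
        rw [hLsum, hf k]
        linarith [i4 j]
      · by_cases h : j = s k
        · rw [h, hLs]; linarith
        · rw [hLn k j h]; exact i5 j
      · rw [hLsum]; push_cast; linarith
  have hF1 : ∀ k, 1 ≤ f k (s k) := fun k => ((inv k).1 _ (hs k)).1
  have hF : ∀ k, 0 < f k (s k) := fun k => by linarith [hF1 k]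
  have hfP : ∀ k, Pos (D k) (f k) := fun k =>
    persist hstep hf (t := 0) ⟨fun i _ => by simp [hf0], fun d i hd => hd.elim⟩ k (Nat.zero_le k)
  refine ⟨hF, fun h hh h0 => ?_⟩
  by_cases halt : ∃ o m, ∀ n, m ≤ n → ¬adj o (s n) ∧ s n ≠ o
  · obtain ⟨o, m, hm⟩ := halt
    refine conv_alt (m := m) (fun i => by simp [hG]) (fun n hn => ?_) hf hh fun n => ?_
    · exact far_alt o _ _ _ (hm n hn).1 (hm n hn).2 (hm (n + 1) (by omega)).1
        (hm (n + 1) (by omega)).2 (hm (n + 2) (by omega)).1 (hm (n + 2) (by omega)).2 (hne n)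
        (hne (n + 1))
    · induction n with
      | zero => simpa using hF1 m
      | succ n ih =>
        have ha := far_adj o _ _ (hm (m + n) (by omega)).1 (hm (m + n) (by omega)).2
          (hm (m + n + 1) (by omega)).1 (hm (m + n + 1) (by omega)).2 (hne (m + n)).symm
        have := (inv (m + n + 1)).2.2.1 _ _ (Or.inl rfl) ha
        rw [hLs] at this
        have := hF1 (m + n)
        rw [show m + (n + 1) = m + n + 1 by ring]
        push_cast; linarith
  have hNT : ∀ o t, ∃ t', t < t' ∧ (adj o (s t') ∨ s t' = o) ∧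
      ∀ r, t < r → r < t' → ¬adj o (s r) ∧ s r ≠ o := by
    intro o t
    have hex : ∃ n, t < n ∧ (adj o (s n) ∨ s n = o) := by
      by_contra hc
      exact halt ⟨o, t + 1, fun n hn => not_or.1 fun h => hc ⟨n, by omega, h⟩⟩
    classical
    refine ⟨Nat.find hex, (Nat.find_spec hex).1, (Nat.find_spec hex).2, fun r h1 h2 => ?_⟩
    exact not_or.1 fun h => Nat.find_min hex h2 ⟨h1, h⟩
  have hbound : ∀ k (X : ℝ), 1 ≤ X → (∀ j, L k j ≤ X) → ∀ j, f k j ≤ 24 * X := by
    intro k X hX hb j
    have h1 := (inv k).2.2.2.1 j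
    have h2 : ∑ j, L k j ≤ ∑ _j : Fin 5, X := Finset.sum_le_sum fun j _ => hb j
    simp at h2
    linarith
  have hrecord : ∀ t0, ∃ t, t0 ≤ t ∧ ∀ j, L t j ≤ f t (s t) := by
    intro t0
    by_contra hc
    push Not at hc
    have hB : ∀ t, t0 ≤ t → ∀ j, L t j ≤ ∑ j, L t0 j := by
      intro t ht
      induction t, ht using Nat.le_induction with
      | base => exact fun j =>
          Finset.single_le_sum (fun j _ => (inv t0).2.2.2.2.1 j) (Finset.mem_univ j)
      | succ t ht ih =>
        intro j
        by_cases hj : j = s t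
        · obtain ⟨a, ha⟩ := hc t ht
          rw [hj, hLs]; linarith [ih a]
        · rw [hLn t j hj]; exact ih j
    obtain ⟨n, hn⟩ := exists_nat_gt (6 * ∑ j, L t0 j)
    have h1 := (inv (t0 + n)).2.2.2.2.2
    have h2 : ∑ j, L (t0 + n) j ≤ ∑ _j : Fin 5, ∑ j, L t0 j :=
      Finset.sum_le_sum fun j _ => hB _ (by omega) j
    have h3 : (0 : ℝ) ≤ t0 := by positivity
    have h4 : 0 ≤ ∑ j, L t0 j := Finset.sum_nonneg fun j _ => (inv t0).2.2.2.2.1 j
    simp at h2
    push_cast at h1
    linarith
  have hstay : ∀ t t', (∀ r, t < r → r < t' → ¬adj (s t) (s r) ∧ s r ≠ s t) →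
      ∀ r, t < r → r ≤ t' → D r (s t) ∧ L r (s t) = f t (s t) := by
    intro t t' hb r hr
    induction r, hr using Nat.le_induction with
    | base => exact fun _ => ⟨Or.inl rfl, hLs t⟩
    | succ r hr ih =>
      intro h2
      obtain ⟨b1, b2⟩ := ih (by omega)
      obtain ⟨c1, c2⟩ := hb r hr (by omega)
      exact ⟨Or.inr ⟨b1, fun h => c1 (adj_symm h)⟩, by rw [hLn r _ c2.symm, b2]⟩
  have hgood : ∀ t0, ∃ t t', t0 ≤ t ∧ t < t' ∧ adj (s t) (s t') ∧
      (∀ r, t < r → r < t' → ¬adj (s t) (s r) ∧ s r ≠ s t) ∧ ∀ j, f t' j ≤ 600 * f t (s t) := by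
    intro t0
    obtain ⟨t, ht, hrec⟩ := hrecord t0
    obtain ⟨t', h1, h2, h3⟩ := hNT (s t) t
    have h2' : adj (s t) (s t') := h2.resolve_right fun h =>
      hs t' (h ▸ (hstay t t' h3 t' h1 le_rfl).1)
    have hkeep : ∀ u, (∀ r, t < r → r < u → f r (s r) ≤ f t (s t)) →
        ∀ r, t ≤ r → r ≤ u → ∀ j, L r j ≤ f t (s t) := by
      intro u hu r hr
      induction r, hr using Nat.le_induction with
      | base => exact fun _ => hrec
      | succ r hr ih =>
        intro h4 j
        by_cases hj : j = s r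
        · rw [hj, hLs]
          rcases hr.lt_or_eq with h | h
          · exact hu r h (by omega)
          · rw [h]
        · rw [hLn r j hj]; exact ih (by omega) j
    by_cases hv : ∃ r, t < r ∧ r + 1 < t' ∧ f t (s t) < f r (s r)
    · classical
      obtain ⟨v1, v2, v3⟩ := Nat.find_spec hv
      have hmin : ∀ r, t < r → r < Nat.find hv → f r (s r) ≤ f t (s t) := by
        intro r a1 a2
        have := Nat.find_min hv a2
        push Not at this
        exact this a1 (by omega)
      generalize Nat.find hv = r at *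
      have b1 := hkeep r hmin r v1.le le_rfl
      refine ⟨r, r + 1, by omega, by omega, far_adj (s t) _ _ (h3 r v1 (by omega)).1
        (h3 r v1 (by omega)).2 (h3 (r + 1) (by omega) v2).1 (h3 (r + 1) (by omega) v2).2
        (hne r).symm, fun u a1 a2 => by omega, fun j => ?_⟩
      have := hbound (r + 1) (f r (s r)) (hF1 r) (fun j => by
        by_cases hj : j = s r
        · rw [hj, hLs]
        · rw [hLn r j hj]; linarith [b1 j]) j
      linarith [hF r]
    · push Not at hv
      obtain ⟨u, rfl⟩ : ∃ u, t' = u + 1 := ⟨t' - 1, by omega⟩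
      have b1 := hkeep u (fun r a1 a2 => hv r a1 (by omega)) u (by omega) le_rfl
      have b2 := hbound u _ (hF1 t) b1
      refine ⟨t, u + 1, ht, h1, h2', h3, fun j => ?_⟩
      have := hbound (u + 1) (24 * f t (s t)) (by linarith [hF1 t]) (fun j => by
        by_cases hj : j = s u
        · rw [hj, hLs]; exact b2 _
        · rw [hLn u j hj]; linarith [b1 j, hF t]) j
      linarith [hF t]
  refine conv (Pos := fun k => Pos (D k)) hstep hval (fun k A c hc hA => hA.smul hc) hf hF
    (θ := 1 / 12000000) (by norm_num) (by norm_num) (fun t0 => ?_) hh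
    ⟨fun j _ => (h0 j).1, fun d i hd => hd.elim⟩
    ⟨fun j _ => by have := hf0 j; have := (h0 j).2; linarith, fun d i hd => hd.elim⟩
  obtain ⟨t, t', g0, g1, g2, g3, g4⟩ := hgood t0
  obtain ⟨o, o1, o2, o3, o4, o5, o6, o7⟩ := opp _ _ g2
  obtain ⟨t'', k1, k2, k3⟩ := hNT o t'
  have core : ∀ X : ℕ → Fin 5 → ℝ, Game G s X → Pos (D t) (X t) → f t (s t) ≤ 2 * X t (s t) →
      Pos (D (t'' + 1)) (fun j => X (t'' + 1) j - 1 / 12000000 * f (t'' + 1) j) := by
    intro X hX p0 hw
    set F := f t (s t) with hFd
    have F0 : 0 < F := hF t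
    set χ : Fin 5 → ℝ := fun a => if adj (s t) a then 1 else 0 with hχ
    have χ0 : ∀ a, 0 ≤ χ a := fun a => by simp only [hχ]; split_ifs <;> norm_num
    have χ1 : ∀ a, adj (s t) a → χ a = 1 := fun a ha => by simp only [hχ, if_pos ha]
    have χ2 : ∀ a, ¬adj (s t) a → χ a = 0 := fun a ha => by simp only [hχ, if_neg ha]
    have ph1 : ∀ r, t < r → r ≤ t' → Pos (D r) (fun j => X r j - F * χ j) := by
      intro r hr
      induction r, hr using Nat.le_induction with
      | base =>
        intro _
        have x0 := hval t _ p0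
        have x1 : ∀ j, adj (s t) j → 0 ≤ X t j + X t (s t) := by
          intro j hj
          by_cases hd : D t j
          · exact p0.2 j _ hd (adj_symm hj)
          · have := p0.1 j hd; linarith
        have p1 := hstep t _ p0
        rw [← hX t] at p1
        constructor
        · intro j hj
          beta_reduce
          by_cases ha : adj (s t) j
          · simp only [χ1 j ha]; rw [hX t, fadj hG ha]; linarith [x1 j ha]
          · simp only [χ2 j ha]; linarith [p1.1 j hj]
        · intro d k hd hk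
          beta_reduce
          have hd2 : ¬adj (s t) d := hind (t + 1) (s t) _ (Or.inl rfl) hd
          by_cases ha : adj (s t) k
          · simp only [χ1 k ha, χ2 d hd2]
            rcases hd with rfl | ⟨hd, _⟩
            · rw [hX t, fadj hG ha, fself hG]; linarith [x1 k ha]
            · have hdi : d ≠ s t := fun h => hs t (h ▸ hd)
              rw [hX t, fadj hG ha, ffar hG hd2 hdi]; linarith [p0.2 d k hd hk]
          · simp only [χ2 k ha, χ2 d hd2]; linarith [p1.2 d k hd hk]
      | succ r hr ih =>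
        intro h2
        have := hstep r _ (ih (by omega))
        convert this using 2 with j
        simp only [hX r, fire, χ2 _ (g3 r hr (by omega)).1]
        ring
    obtain ⟨s1, s2⟩ := hstay t t' g3 t' g1 le_rfl
    have fj : 3 * F ≤ f t' (s t') := by
      have := (inv t').2.2.1 _ _ s1 g2
      rw [s2] at this; exact this
    have hχj : ∀ a, a ≠ s t' → a ≠ o → 1 ≤ fire G (s t') χ a := by
      intro a a1 a2
      by_cases ha : adj (s t') a
      · rw [fadj hG ha, χ1 _ g2]; linarith [χ0 a]
      · rw [ffar hG ha a1, χ1 a ((o5 a a1 a2).resolve_left ha)]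
    have hχo : fire G (s t') χ o = 0 := by rw [ffar hG o4 o2, χ2 o o3]
    have hfo : f (t' + 1) o = f t' o := by rw [hf t', ffar hG o4 o2]
    have hf' : ∀ a, f (t' + 1) a ≤ 3000 * F := by
      intro a
      have := fle hG a (i := s t') (A := f t') (hF t').le
      rw [hf t']
      linarith [g4 a, g4 (s t')]
    set e : Fin 5 → ℝ := fun a => if a = o then 1 else 0 with he
    have e0 : ∀ a, 0 ≤ e a := fun a => by simp only [he]; split_ifs <;> norm_num
    have e1 : e o = 1 := by simp [he]
    have e2 : ∀ a, a ≠ o → e a = 0 := fun a ha => by simp [he, ha]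
    have ph2 : ∀ m, 0 ≤ m → (¬D (t' + 1) o → f (t' + 1) o ≤ m) → Pos (D (t' + 1))
        (fun j => X (t' + 1) j - 1 / 3000 * f (t' + 1) j + 1 / 3000 * m * e j) := by
      intro m m0 hm
      have q1 := hstep t' _ (ph1 t' g1 le_rfl)
      have q2 : Pos (D (t' + 1)) (fun j => F * fire G (s t') χ j - 1 / 3000 * f (t' + 1) j +
          1 / 3000 * m * e j) := by
        constructor
        · intro a ha
          beta_reduce
          by_cases hao : a = o
          · rw [hao] at ha ⊢
            rw [hχo, e1]; linarith [hm ha]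
          · have a1 : a ≠ s t' := fun h => ha (Or.inl h)
            have := hχj a a1 hao
            rw [e2 a hao]
            nlinarith [hf' a]
        · intro d a hd ha
          beta_reduce
          have d0 : f (t' + 1) d ≤ 0 := by
            rw [(inv (t' + 1)).2.1 d hd]; linarith [(inv (t' + 1)).2.2.2.2.1 d]
          have c1 : 1 ≤ fire G (s t') χ d + fire G (s t') χ a := by
            rcases hd with rfl | ⟨hd, hd'⟩
            · rw [fself hG, fadj hG ha, χ1 _ g2]; linarith [χ0 a]
            · have hdo := o6 d (hind _ _ _ s1 hd) hd'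
              rw [hdo] at ha ⊢
              rw [hχo]; linarith [hχj a (o7 a ha).1 (o7 a ha).2.1]
          have c2 : 0 ≤ m * e d := mul_nonneg m0 (e0 d)
          have c3 : 0 ≤ m * e a := mul_nonneg m0 (e0 a)
          nlinarith [hf' a]
      convert q1.add q2 using 2 with j
      simp only [hX t', fire]
      ring
    have hXf := hX.lin hf 1 (-(1 / 12000000))
    by_cases hDo : D (t' + 1) o
    · have q1 := (ph2 0 le_rfl fun h => (h hDo).elim).add
        ((hfP (t' + 1)).smul (c := 1 / 3000 - 1 / 12000000) (by norm_num))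
      have q2 := persist (Pos := fun k => Pos (D k)) hstep hXf (t := t' + 1)
        (by convert q1 using 2; ring) (t'' + 1) (by omega)
      convert q2 using 2; ring
    set m := f (t' + 1) o with hm
    have m0 : 0 ≤ m := by linarith [((inv (t' + 1)).1 o hDo).1]
    have m1 : m ≤ 600 * F := by rw [hfo]; exact g4 o
    have ph3 : ∀ r, t' < r → r ≤ t'' →
        Pos (D r) (fun j => X r j - 1 / 3000 * f r j + 1 / 3000 * m * e j) ∧ ¬D r o ∧ f r o = m ∧
          ∀ a, adj o a → ¬D r a ∧ F ≤ f r a := by
      intro r hr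
      induction r, hr using Nat.le_induction with
      | base =>
        intro _
        refine ⟨ph2 m m0 fun _ => le_rfl, hDo, rfl, fun a ha => ?_⟩
        obtain ⟨b1, b2, b3⟩ := o7 a ha
        by_cases hja : adj (s t') a
        · refine ⟨fun hd => hind (t' + 1) (s t') _ (Or.inl rfl) hd hja, ?_⟩
          have := (inv (t' + 1)).2.2.1 _ _ (Or.inl rfl) hja
          rw [hLs] at this
          linarith
        · have hia := b3.resolve_left hja
          refine ⟨?_, ?_⟩
          · rintro (h | ⟨h, _⟩)
            · exact b1 h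
            · exact hind _ _ _ s1 h hia
          · have := (inv t').2.2.1 _ _ s1 hia
            rw [s2] at this
            rw [hf t', ffar hG hja b1]
            linarith
      | succ r hr ih =>
        intro h2
        obtain ⟨b1, b2, b3, b4⟩ := ih (by omega)
        obtain ⟨c1, c2⟩ := k3 r hr (by omega)
        refine ⟨?_, ?_, ?_, fun a ha => ?_⟩
        · convert hstep r _ b1 using 2 with j
          simp only [hX r, hf r, fire, e2 _ c2]
          ring
        · rintro (h | ⟨h, _⟩)
          · exact c2 h.symm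
          · exact b2 h
        · rw [hf r, ffar hG (fun h => c1 (adj_symm h)) c2.symm, b3]
        · have a1 : a ≠ s r := fun h => c1 (h ▸ ha)
          refine ⟨?_, ?_⟩
          · rintro (h | ⟨h, _⟩)
            · exact a1 h
            · exact (b4 a ha).1 h
          · have := fge hG a1 (A := f r) (hF r).le
            rw [hf r]; linarith [(b4 a ha).2]
    obtain ⟨b1, b2, b3, b4⟩ := ph3 t'' k1 le_rfl
    have q1 := hstep t'' _ b1
    have pf := hfP (t'' + 1)
    have q2 : Pos (D (t'' + 1)) (fun j => (1 / 3000 - 1 / 12000000) * f (t'' + 1) j -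
        1 / 3000 * m * fire G (s t'') e j) := by
      rcases k2 with k2 | k2
      · have hq : s t'' ≠ o := adj_ne _ _ k2
        have ee : ∀ j, fire G (s t'') e j = e j := fun j => by simp only [fire, e2 _ hq]; ring
        have fq := (b4 _ k2).2
        have fo : f (t'' + 1) o = m + 4 * f t'' (s t'') := by
          rw [hf t'', fadj hG (adj_symm k2), b3]
        simp only [ee]
        constructor
        · intro a ha
          beta_reduce
          by_cases hao : a = o
          · rw [hao, e1, fo]; linarith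
          · rw [e2 a hao]; linarith [pf.1 a ha]
        · intro d a hd ha
          beta_reduce
          have hdo : d ≠ o := by
            rintro rfl
            exact hind (t'' + 1) _ (s t'') hd (Or.inl rfl) k2
          by_cases hao : a = o
          · have hdq : d = s t'' := by
              rcases hd with h | ⟨h, _⟩
              · exact h
              · exact ((b4 d (adj_symm (hao ▸ ha))).1 h).elim
            have : f (t'' + 1) d = -f t'' (s t'') := by rw [hdq, hf t'', fself hG]
            rw [e2 d hdo, hao, e1, fo, this]; linarith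
          · rw [e2 d hdo, e2 a hao]; linarith [pf.2 d a hd ha]
      · have ea : ∀ a, adj o a → fire G (s t'') e a = 4 ∧ f (t'' + 1) a = f t'' a + 4 * m := by
          intro a ha
          rw [hf t'', k2, fadj hG ha, fadj hG ha, e2 a (adj_ne _ _ ha), e1, b3]
          exact ⟨by ring, rfl⟩
        have eb : ∀ a, ¬adj o a → a ≠ o → fire G (s t'') e a = 0 ∧ f (t'' + 1) a = f t'' a := by
          intro a ha ha'
          rw [hf t'', k2, ffar hG ha ha', ffar hG ha ha', e2 a ha']
          exact ⟨rfl, rfl⟩
        constructor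
        · intro a ha
          beta_reduce
          have hao : a ≠ o := fun h => ha (Or.inl (h.trans k2.symm))
          by_cases hoa : adj o a
          · rw [(ea a hoa).1, (ea a hoa).2]; linarith [(b4 a hoa).2]
          · rw [(eb a hoa hao).1]; linarith [pf.1 a ha]
        · intro d a hd ha
          beta_reduce
          by_cases hdo : d = o
          · rw [hdo] at ha ⊢
            have z1 : fire G (s t'') e o = -1 := by rw [k2, fself hG, e1]
            have z2 : f (t'' + 1) o = -m := by rw [hf t'', k2, fself hG, b3]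
            rw [(ea a ha).1, (ea a ha).2, z1, z2]; linarith [(b4 a ha).2]
          · obtain ⟨hd1, hd2⟩ := hd.resolve_left fun h => hdo (h.trans k2)
            rw [k2] at hd2
            by_cases hoa : adj o a
            · have z1 := (inv t'').2.1 d hd1
              have z2 := (inv t'').2.2.1 d a hd1 ha
              rw [(ea a hoa).1, (ea a hoa).2, (eb d hd2 hdo).1, (eb d hd2 hdo).2]
              linarith [(b4 a hoa).2]
            · have hao : a ≠ o := fun h => hd2 (adj_symm (h ▸ ha))
              rw [(eb d hd2 hdo).1, (eb a hoa hao).1]; linarith [pf.2 d a hd ha]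
    convert q1.add q2 using 2 with j
    simp only [hX t'', hf t'', fire]
    ring
  refine ⟨t'' + 1, fun A hA p1 p2 => ?_⟩
  have hB : Game G s (fun k j => f k j - A k j) := by
    have := hf.lin hA 1 (-1)
    convert this using 3; ring
  by_cases hw : f t (s t) ≤ 2 * A t (s t)
  · exact Or.inl (core A hA (persist (Pos := fun k => Pos (D k)) hstep hA p1 _ g0) hw)
  · refine Or.inr (core _ hB (persist (Pos := fun k => Pos (D k)) hstep hB p2 _ g0) ?_)
    linarith

end Pool.Agent.H57.Cox
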