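import Mathlib

set_option autoImplicit false

namespace Pool.Agent.H57.Cube

open Set Cardinal

universe u

theorem small_trans {W : Type u} [LinearOrder W] [WellFoundedLT W] {R : W → W → Prop}
    (h1 : ∀ a b, R a b → a < b) {t : Cardinal.{u}} (ht : t.IsRegular)
    (h2 : ∀ b, #{a | R a b} < t) (b : W) : #{a | Relation.TransGen R a b} < t := by
  induction b using WellFoundedLT.induction with
  | ind b ih =>
    have : {a | Relation.TransGen R a b} ⊆
        {a | R a b} ∪ ⋃ c ∈ {a | R a b}, {a | Relation.TransGen R a c} := by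
      intro a ha
      cases ha with
      | single h => exact Or.inl h
      | tail h h' => exact Or.inr (mem_biUnion h' h)
    refine (mk_le_mk_of_subset this).trans_lt ((mk_union_le _ _).trans_lt
      (add_lt_of_lt ht.aleph0_le (h2 b) ?_))
    exact (card_biUnion_lt_iff_forall_of_isRegular ht (h2 b)).2 fun c hc => ih c (h1 _ _ hc)

theorem rho (k : Cardinal.{u}) (hk : ℵ₀ ≤ k) :
    ∃ r : (Order.succ k).ord.ToType → (Order.succ k).ord.ToType → k.ord.ToType,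
      (∀ a b c, a < b → b < c → r a c ≤ max (r a b) (r b c)) ∧
      ∀ z v, #{x | x < z ∧ r x z ≤ v} < k := by
  have h0 : ∀ b : (Order.succ k).ord.ToType, Nonempty (Iio b ↪ k.ord.ToType) := fun b => by
    rw [← Cardinal.le_def, mk_ord_toType]
    exact Order.lt_succ_iff.1 (by simpa using mk_Iio_lt b)
  have f := fun b => Classical.choice (h0 b)
  let R : k.ord.ToType → _ → _ → Prop := fun v a b => ∃ h : a < b, f b ⟨a, h⟩ ≤ v
  have hm : ∀ v w a b, v ≤ w → Relation.TransGen (R v) a b → Relation.TransGen (R w) a b :=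
    fun v w a b h => Relation.TransGen.mono (r := R v) (p := R w)
      (fun _ _ h1 => ⟨h1.1, h1.2.trans h⟩) a b
  haveI : Nonempty k.ord.ToType := by
    rw [← mk_ne_zero_iff, mk_ord_toType]; exact (aleph0_pos.trans_le hk).ne'
  have h1 : ∀ a b, ∃ v, a < b → Relation.TransGen (R v) a b ∧
      ∀ w, Relation.TransGen (R w) a b → v ≤ w := by
    intro a b
    by_cases h : a < b
    · obtain ⟨v, h2, h3⟩ := wellFounded_lt.has_min {v | Relation.TransGen (R v) a b}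
        ⟨f b ⟨a, h⟩, .single ⟨h, le_rfl⟩⟩
      exact ⟨v, fun _ => ⟨h2, fun w hw => not_lt.1 (h3 w hw)⟩⟩
    · exact ⟨Classical.arbitrary _, fun h' => (h h').elim⟩
  choose r hr using h1
  refine ⟨r, fun a b c h1 h2 => (hr a c (h1.trans h2)).2 _
    ((hm _ _ _ _ (le_max_left _ _) (hr a b h1).1).trans (hm _ _ _ _ (le_max_right _ _) (hr b c h2).1)),
    fun z v => ?_⟩
  have hv : #(Iic v) < k := by
    rw [← Iio_insert]
    exact (mk_insert_le).trans_lt (add_lt_of_lt hk (by simpa using mk_Iio_lt v)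
      (one_lt_aleph0.trans_le hk))
  obtain ⟨t, ht1, ht2, ht3⟩ : ∃ t : Cardinal.{u}, t.IsRegular ∧ #(Iic v) < t ∧ t ≤ k := by
    rcases hk.eq_or_lt with h | h
    · exact ⟨ℵ₀, isRegular_aleph0, hv.trans_eq h.symm, hk⟩
    · exact ⟨Order.succ (max #(Iic v) ℵ₀), isRegular_succ (le_max_right _ _),
        (le_max_left _ _).trans_lt (Order.lt_succ _), Order.succ_le_of_lt (max_lt hv h)⟩
  refine lt_of_le_of_lt (mk_le_mk_of_subset fun x hx => ?_)
    ((small_trans (R := R v) (fun _ _ h => h.1) ht1 (fun b => ?_) z).trans_le ht3)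
  · exact hm _ _ _ _ hx.2 (hr x z hx.1).1
  · refine lt_of_le_of_lt (mk_le_of_injective
      (f := fun a : {a | R v a b} => (⟨f b ⟨a.1, a.2.1⟩, a.2.2⟩ : Iic v)) fun a c h => ?_) ht2
    have h' : f b ⟨a.1, a.2.1⟩ = f b ⟨c.1, c.2.1⟩ := congrArg Subtype.val h
    exact Subtype.ext (congrArg (fun q : Iio b => q.1) ((f b).injective h'))

section
variable {W K : Type u} [LinearOrder W] [LinearOrder K] (r : W → W → K)

def Prec (z x y : W) : Prop := r x z < r y z ∨ (r x z = r y z ∧ x < y)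

def Good (A B C : Set W) : Prop :=
  ∀ x ∈ A, ∀ y ∈ B, ∀ z ∈ C, x < z → y < z → x ≠ y → Prec r z x y

def Top (k : Cardinal.{u}) (A : Set W) (d : W) : Prop :=
  k ≤ #(A ∩ Iio d : Set W) ∧ ∀ t < d, ∃ x ∈ A, t < x ∧ x < d

variable {r} {k : Cardinal.{u}} {A B C : Set W}

theorem step1 (hr : ∀ z v, #{x | x < z ∧ r x z ≤ v} < k) (h : Good r A B C) {a : W}
    (ha : Top k A a) {z : W} (hz : z ∈ C) (h1 : a ≤ z) {y : W} (hy : y ∈ B) : z ≤ y := by
  by_contra h2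
  obtain ⟨x, h3, h4⟩ := not_subset.1 fun h' : A ∩ Iio a ⊆ {x | x < z ∧ r x z ≤ r y z} =>
    (hr z (r y z)).not_ge (ha.1.trans (mk_le_mk_of_subset h'))
  have h5 : x < z := lt_of_lt_of_le h3.2 h1
  have h6 : r y z < r x z := not_le.1 fun h' => h4 ⟨h5, h'⟩
  rcases h x h3.1 y hy z hz h5 (not_le.1 h2) (fun e => h6.ne (by rw [e])) with h | h
  · exact h6.not_gt h
  · exact h6.ne' h.1

theorem Top.ne (hk : 0 < k) {a : W} (ha : Top k A a) : ∃ x ∈ A, x < a := by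
  obtain ⟨x, hx⟩ := mk_ne_zero_iff.1 (hk.trans_le ha.1).ne'
  exact ⟨x, hx⟩

theorem step2 (hk : 0 < k) (hr : ∀ z v, #{x | x < z ∧ r x z ≤ v} < k) (h : Good r A B C)
    (h' : Good r C A B) {a b c : W} (ha : Top k A a) (hb : Top k B b) (hc : Top k C c) :
    c ≤ a := by
  by_contra h1
  obtain ⟨y, hy, -⟩ := hb.ne hk
  obtain ⟨x, hx, h2⟩ := ha.ne hk
  have h3 : c ≤ y := by
    by_contra h3
    obtain ⟨z, hz, h4, -⟩ := hc.2 _ (max_lt (not_le.1 h1) (not_le.1 h3))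
    exact (step1 hr h ha hz (le_of_max_le_left h4.le) hy).not_gt (lt_of_le_of_lt (le_max_right _ _) h4)
  exact (step1 hr h' hc hy h3 hx).not_gt ((h2.trans (not_le.1 h1)).trans_le h3)

theorem step3 (hr : ∀ a b c, a < b → b < c → r a c ≤ max (r a b) (r b c)) (h : Good r A B C)
    {d : W} (hc : Top k C d) {x y : W} (hx : x ∈ A) (hy : y ∈ B) (h1 : y < x) (h2 : x < d) :
    ∃ z ∈ C, x < z ∧ z < d ∧ r x z < r y x := by
  obtain ⟨z, hz, h3, h4⟩ := hc.2 x h2
  refine ⟨z, hz, h3, h4, ?_⟩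
  rcases h x hx y hy z hz h3 (h1.trans h3) h1.ne' with h5 | h5
  · rcases le_max_iff.1 (hr y x z h1 h3) with h6 | h6
    · exact h5.trans_le h6
    · exact (h5.not_ge h6).elim
  · exact (h1.not_gt h5.2).elim

theorem core [WellFoundedLT K] (hk : 0 < k)
    (hr1 : ∀ a b c, a < b → b < c → r a c ≤ max (r a b) (r b c))
    (hr2 : ∀ z v, #{x | x < z ∧ r x z ≤ v} < k) (h1 : Good r A B C) (h2 : Good r B C A)
    (h3 : Good r C A B) {a b c : W} (ha : Top k A a) (hb : Top k B b) (hc : Top k C c) :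
    False := by
  have e1 := step2 hk hr2 h1 h3 ha hb hc
  have e2 := step2 hk hr2 h2 h1 hb hc ha
  have e3 := step2 hk hr2 h3 h2 hc ha hb
  obtain rfl : a = b := le_antisymm e2 (e3.trans e1)
  obtain rfl : a = c := le_antisymm e3 e1
  have key : ∀ v : K, ∀ x y, y < x → x < a → r y x = v →
      ¬ ((x ∈ A ∧ y ∈ B) ∨ (x ∈ B ∧ y ∈ C) ∨ (x ∈ C ∧ y ∈ A)) := by
    intro v
    induction v using WellFoundedLT.induction with
    | ind v ih =>
      rintro x y h4 h5 rfl (⟨hx, hy⟩ | ⟨hx, hy⟩ | ⟨hx, hy⟩)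
      · obtain ⟨z, hz, h6, h7, h8⟩ := step3 hr1 h1 hc hx hy h4 h5
        exact ih _ h8 z x h6 h7 rfl (Or.inr (Or.inr ⟨hz, hx⟩))
      · obtain ⟨z, hz, h6, h7, h8⟩ := step3 hr1 h2 ha hx hy h4 h5
        exact ih _ h8 z x h6 h7 rfl (Or.inl ⟨hz, hx⟩)
      · obtain ⟨z, hz, h6, h7, h8⟩ := step3 hr1 h3 hb hx hy h4 h5
        exact ih _ h8 z x h6 h7 rfl (Or.inr (Or.inl ⟨hz, hx⟩))
  obtain ⟨y, hy, h4⟩ := hb.ne hk
  obtain ⟨x, hx, h5, h6⟩ := ha.2 y h4
  exact key _ x y h5 h6 rfl (Or.inl ⟨hx, hy⟩)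

theorem Prec.tot {z x y : W} (h : ¬ Prec r z x y) (hne : y ≠ x) : Prec r z y x := by
  rcases lt_trichotomy (r x z) (r y z) with h1 | h1 | h1
  · exact (h (Or.inl h1)).elim
  · exact Or.inr ⟨h1.symm, lt_of_le_of_ne (not_lt.1 fun h2 => h (Or.inr ⟨h1, h2⟩)) hne⟩
  · exact Or.inl h1

end

theorem exists_top (k : Cardinal.{u}) (hk : ℵ₀ ≤ k) (A : Set (Order.succ k).ord.ToType)
    (hA : #A = k) : ∃ d, Top k A d := by
  haveI : NoMaxOrder (Order.succ k).ord.ToType := Cardinal.noMaxOrder (hk.trans (Order.le_succ k))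
  have h1 : ∃ d, A ⊆ Iio d := by
    by_contra hn
    have h2 : IsCofinal A := fun d => by
      obtain ⟨x, h3, h4⟩ := not_subset.1 (not_exists.1 hn d)
      exact ⟨x, h3, not_lt.1 h4⟩
    have h3 := Order.cof_le h2
    rw [Ordinal.cof_toType, (isRegular_succ hk).cof_ord, hA] at h3
    exact h3.not_gt (Order.lt_succ k)
  obtain ⟨d, hd⟩ := h1
  obtain ⟨a, h2, h3⟩ := wellFounded_lt.has_min {a | k ≤ #(A ∩ Iio a : Set _)}
    ⟨d, by rw [mem_setOf_eq, inter_eq_left.2 hd, hA]⟩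
  refine ⟨a, h2, fun t ht => ?_⟩
  by_contra hn
  have h4 : A ∩ Iio a ⊆ insert t (A ∩ Iio t) := fun x hx => by
    rcases (not_lt.1 fun h => hn ⟨x, hx.1, h, hx.2⟩).eq_or_lt with h | h
    · exact Or.inl h
    · exact Or.inr ⟨hx.1, h⟩
  refine (add_lt_of_lt hk (not_le.1 fun h => h3 t h ht) (one_lt_aleph0.trans_le hk)).not_ge ?_
  exact h2.trans ((mk_le_mk_of_subset h4).trans mk_insert_le)

theorem main (k : Cardinal.{u}) (hk : ℵ₀ ≤ k) :
    ∃ c : (Order.succ k).ord.ToType × (Order.succ k).ord.ToType × (Order.succ k).ord.ToType → Bool,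
      ∀ (H₁ H₂ H₃ : Set (Order.succ k).ord.ToType) (i : Bool), #H₁ = k → #H₂ = k → #H₃ = k →
        ¬ ∀ x ∈ H₁, ∀ y ∈ H₂, ∀ z ∈ H₃, c (x, y, z) = i := by
  classical
  obtain ⟨r, hr1, hr2⟩ := rho k hk
  refine ⟨fun p => decide ((p.1 < p.2.2 ∧ p.2.1 < p.2.2 ∧ Prec r p.2.2 p.1 p.2.1) ∨
    (p.2.1 < p.1 ∧ p.2.2 < p.1 ∧ Prec r p.1 p.2.1 p.2.2) ∨
    (p.2.2 < p.2.1 ∧ p.1 < p.2.1 ∧ Prec r p.2.1 p.2.2 p.1)), fun A B C i hA hB hC h => ?_⟩
  obtain ⟨a, ha⟩ := exists_top k hk A hA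
  obtain ⟨b, hb⟩ := exists_top k hk B hB
  obtain ⟨c, hc⟩ := exists_top k hk C hC
  have hk0 := aleph0_pos.trans_le hk
  cases i with
  | true =>
    simp only [decide_eq_true_eq] at h
    refine core hk0 hr1 hr2 (A := A) (B := B) (C := C) ?_ ?_ ?_ ha hb hc
    · intro x hx y hy z hz h1 h2 _
      rcases h x hx y hy z hz with h | h | h
      exacts [h.2.2, (h1.not_gt h.2.1).elim, (h2.not_gt h.1).elim]
    · intro y hy z hz x hx h1 h2 _
      rcases h x hx y hy z hz with h | h | h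
      exacts [(h2.not_gt h.1).elim, h.2.2, (h1.not_gt h.2.1).elim]
    · intro z hz x hx y hy h1 h2 _
      rcases h x hx y hy z hz with h | h | h
      exacts [(h1.not_gt h.2.1).elim, (h2.not_gt h.1).elim, h.2.2]
  | false =>
    simp only [decide_eq_false_iff_not, not_or] at h
    refine core hk0 hr1 hr2 (A := B) (B := A) (C := C) ?_ ?_ ?_ hb ha hc
    · intro y hy x hx z hz h1 h2 h3
      exact Prec.tot (fun h4 => (h x hx y hy z hz).1 ⟨h2, h1, h4⟩) h3
    · intro x hx z hz y hy h1 h2 h3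
      exact Prec.tot (fun h4 => (h x hx y hy z hz).2.2 ⟨h2, h1, h4⟩) h3
    · intro z hz y hy x hx h1 h2 h3
      exact Prec.tot (fun h4 => (h x hx y hy z hz).2.1 ⟨h2, h1, h4⟩) h3

end Pool.Agent.H57.Cube
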