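import Mathlib

/-! Averages, eventual properties of finite types, combinatorial subspaces. -/

namespace Pool.Agent.H57.DHJ

open Finset

/-- average of a real function over a finite type -/
noncomputable def av {X : Type} (f : X → ℝ) : ℝ := (∑ᶠ x, f x) / Nat.card X

open Classical in
/-- indicator of a proposition -/
noncomputable def ind (p : Prop) : ℝ := if p then 1 else 0

lemma ind_pos {p : Prop} (h : p) : ind p = 1 := by simp [ind, h]
lemma ind_neg {p : Prop} (h : ¬ p) : ind p = 0 := by simp [ind, h]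
lemma ind_nonneg (p : Prop) : 0 ≤ ind p := by unfold ind; split_ifs <;> norm_num
lemma ind_le_one (p : Prop) : ind p ≤ 1 := by unfold ind; split_ifs <;> norm_num
lemma ind_congr {p q : Prop} (h : p ↔ q) : ind p = ind q := by rw [propext h]

lemma av_eq {X : Type} [Fintype X] (f : X → ℝ) : av f = (∑ x, f x) / Fintype.card X := by
  unfold av; rw [finsum_eq_sum_of_fintype, Nat.card_eq_fintype_card]

section
variable {X Y : Type}

lemma av_mono [Finite X] {f g : X → ℝ} (h : ∀ x, f x ≤ g x) : av f ≤ av g := by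
  have := Fintype.ofFinite X
  rw [av_eq, av_eq]
  exact div_le_div_of_nonneg_right (sum_le_sum fun x _ => h x) (Nat.cast_nonneg _)

lemma av_add [Finite X] (f g : X → ℝ) : av (fun x => f x + g x) = av f + av g := by
  have := Fintype.ofFinite X
  simp only [av_eq, sum_add_distrib, add_div]

lemma av_sub [Finite X] (f g : X → ℝ) : av (fun x => f x - g x) = av f - av g := by
  have := Fintype.ofFinite X
  simp only [av_eq, sum_sub_distrib, sub_div]

lemma av_mul [Finite X] (c : ℝ) (f : X → ℝ) : av (fun x => c * f x) = c * av f := by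
  have := Fintype.ofFinite X
  simp only [av_eq, ← mul_sum, mul_div_assoc]

lemma av_const [Finite X] [Nonempty X] (c : ℝ) : av (fun _ : X => c) = c := by
  have := Fintype.ofFinite X
  have : (0:ℝ) < Fintype.card X := by exact_mod_cast Fintype.card_pos
  rw [av_eq, sum_const, card_univ, nsmul_eq_mul]
  field_simp

lemma av_zero [Finite X] : av (fun _ : X => (0:ℝ)) = 0 := by
  have := Fintype.ofFinite X
  simp [av_eq]

lemma av_nonneg [Finite X] {f : X → ℝ} (h : ∀ x, 0 ≤ f x) : 0 ≤ av f := by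
  rw [← av_zero (X := X)]; exact av_mono h

lemma av_nonpos [Finite X] {f : X → ℝ} (h : ∀ x, f x ≤ 0) : av f ≤ 0 := by
  rw [← av_zero (X := X)]; exact av_mono h

lemma av_le [Finite X] [Nonempty X] {f : X → ℝ} {c : ℝ} (h : ∀ x, f x ≤ c) : av f ≤ c := by
  rw [← av_const (X := X) c]; exact av_mono h

lemma le_av [Finite X] [Nonempty X] {f : X → ℝ} {c : ℝ} (h : ∀ x, c ≤ f x) : c ≤ av f := by
  rw [← av_const (X := X) c]; exact av_mono h

lemma exists_av_le [Finite X] [Nonempty X] (f : X → ℝ) : ∃ x, av f ≤ f x := by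
  obtain ⟨x, hx⟩ := Finite.exists_max f
  exact ⟨x, av_le hx⟩

lemma av_sum [Finite X] {P : Type} [Fintype P] (f : P → X → ℝ) :
    av (fun x => ∑ p, f p x) = ∑ p, av (f p) := by
  have := Fintype.ofFinite X
  simp only [av_eq]
  rw [sum_comm, sum_div]

lemma av_equiv [Finite X] (e : Y ≃ X) (f : X → ℝ) : av (fun y => f (e y)) = av f := by
  have := Fintype.ofFinite X
  have := Fintype.ofEquiv X e.symm
  rw [av_eq, av_eq, Fintype.card_congr e, Equiv.sum_comp e f]

lemma av_prod [Finite X] [Finite Y] (f : X × Y → ℝ) :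
    av f = av (fun x => av (fun y => f (x, y))) := by
  have := Fintype.ofFinite X
  have := Fintype.ofFinite Y
  simp only [av_eq]
  rw [Fintype.sum_prod_type, Fintype.card_prod, ← sum_div, div_div]
  push_cast
  rw [mul_comm]

lemma av_comm [Finite X] [Finite Y] (f : X → Y → ℝ) :
    av (fun x => av (fun y => f x y)) = av (fun y => av (fun x => f x y)) := by
  rw [← av_prod (fun p : X × Y => f p.1 p.2), ← av_prod (fun p : Y × X => f p.2 p.1)]
  exact (av_equiv (Equiv.prodComm Y X) (fun p : X × Y => f p.1 p.2)).symm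

lemma av_elim {ι κ γ : Type} [Finite ι] [Finite κ] [Finite γ] (f : (ι ⊕ κ → γ) → ℝ) :
    av f = av (fun x : ι → γ => av (fun y : κ → γ => f (Sum.elim x y))) := by
  rw [← av_equiv (Equiv.sumArrowEquivProdArrow ι κ γ).symm f, av_prod]
  rfl

lemma av_reindex {ι κ γ : Type} [Finite ι] [Finite γ] (e : ι ≃ κ) (f : (ι → γ) → ℝ) :
    av (fun x : κ → γ => f (fun i => x (e i))) = av f :=
  av_equiv (Equiv.arrowCongr e.symm (Equiv.refl γ)) f

lemma av_range [Finite X] [Finite Y] {V : Y → X} (hV : Function.Injective V) (g : X → ℝ) :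
    av (fun x => g x * ind (x ∈ Set.range V)) = (∑ᶠ y, g (V y)) / Nat.card X := by
  classical
  have := Fintype.ofFinite X
  have := Fintype.ofFinite Y
  rw [av_eq, finsum_eq_sum_of_fintype, Nat.card_eq_fintype_card]
  congr 1
  rw [← sum_image (s := univ) (g := V) (f := g) (fun a _ b _ h => hV h)]
  rw [← sum_subset (subset_univ (univ.image V))]
  · refine sum_congr rfl fun x hx => ?_
    obtain ⟨y, -, rfl⟩ := mem_image.1 hx
    rw [ind_pos ⟨y, rfl⟩, mul_one]
  · intro x _ hx
    rw [ind_neg, mul_zero]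
    rintro ⟨y, rfl⟩
    exact hx (mem_image_of_mem _ (mem_univ _))

lemma av_range_nonpos [Finite X] [Finite Y] {V : Y → X} (hV : Function.Injective V) (g : X → ℝ)
    (h : av (fun y => g (V y)) ≤ 0) : av (fun x => g x * ind (x ∈ Set.range V)) ≤ 0 := by
  rw [av_range hV]
  refine div_nonpos_of_nonpos_of_nonneg ?_ (Nat.cast_nonneg _)
  rcases isEmpty_or_nonempty Y with hY | hY
  · rw [finsum_of_isEmpty]
  · have : (0:ℝ) < Nat.card Y := by exact_mod_cast Nat.card_pos
    unfold av at h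
    by_contra hc
    push Not at hc
    exact absurd (div_pos hc this) (not_lt.2 h)

lemma av_ind_range [Finite X] [Finite Y] {V : Y → X} (hV : Function.Injective V) :
    av (fun x => ind (x ∈ Set.range V)) = (Nat.card Y : ℝ) / Nat.card X := by
  have := Fintype.ofFinite Y
  have := av_range hV (fun _ => 1)
  simp only [one_mul] at this
  rw [this, finsum_eq_sum_of_fintype, Nat.card_eq_fintype_card (α := Y)]
  simp

/-- one value below the mean forces one value above -/
lemma exists_gain [Finite X] (g : X → ℝ) {ε : ℝ} (hε : 0 < ε) {x₀ : X} (h : g x₀ < av g - ε) :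
    ∃ x, av g + ε / Nat.card X ≤ g x := by
  classical
  have : Nonempty X := ⟨x₀⟩
  by_contra hc
  push Not at hc
  have hN : (0:ℝ) < Nat.card X := by exact_mod_cast Nat.card_pos
  have hinj : Function.Injective (fun _ : Unit => x₀) := fun _ _ _ => rfl
  have h1 := av_ind_range hinj
  have hN1 : (1:ℝ) ≤ Nat.card X := by exact_mod_cast Nat.card_pos
  have h2 : av g ≤ av (fun x => (av g + ε / Nat.card X) -
      (ε + ε / Nat.card X) * ind (x ∈ Set.range (fun _ : Unit => x₀))) := by
    refine av_mono fun x => ?_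
    by_cases hx : x ∈ Set.range (fun _ : Unit => x₀)
    · obtain ⟨_, rfl⟩ := hx
      rw [ind_pos ⟨(), rfl⟩]; linarith
    · rw [ind_neg hx]; linarith [hc x]
  rw [av_sub, av_const, av_mul, h1] at h2
  simp only [Nat.card_unique, Nat.cast_one] at h2
  have : 0 < ε / Nat.card X * (1 / Nat.card X) := by positivity
  have h3 : ε * (1 / Nat.card X) = ε / Nat.card X := by ring
  nlinarith

/-- pigeonhole over a finite family of witnesses -/
lemma pigeon [Finite X] [Nonempty X] [Finite Y] [Nonempty Y] {P : Type} [Finite P]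
    (g : X → Y → Prop) (Q : P → Y → Prop) {δ : ℝ} (hδ : 0 < δ)
    (h1 : 2 * δ ≤ av (fun y => av (fun x => ind (g x y))))
    (h2 : ∀ y, δ ≤ av (fun x => ind (g x y)) → ∃ p, Q p y) :
    ∃ p, δ / Nat.card P ≤ av (fun y => ind (Q p y)) := by
  have := Fintype.ofFinite P
  have h3 : av (fun y => av (fun x => ind (g x y))) ≤ av (fun y => δ + ∑ p, ind (Q p y)) := by
    refine av_mono fun y => ?_
    by_cases hy : δ ≤ av (fun x => ind (g x y))
    · obtain ⟨p, hp⟩ := h2 y hy
      have := single_le_sum (f := fun p => ind (Q p y)) (fun p _ => ind_nonneg _) (mem_univ p)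
      rw [ind_pos hp] at this
      have h4 : av (fun x => ind (g x y)) ≤ 1 := av_le fun x => ind_le_one _
      linarith
    · have : 0 ≤ ∑ p, ind (Q p y) := sum_nonneg fun p _ => ind_nonneg _
      linarith [not_le.1 hy]
  rw [av_add, av_const, av_sum] at h3
  have h5 : δ ≤ ∑ p, av (fun y => ind (Q p y)) := by linarith
  rcases isEmpty_or_nonempty P with hP | hP
  · simp at h5; linarith
  · obtain ⟨p, hp⟩ := exists_av_le (fun p => av (fun y => ind (Q p y)))
    refine ⟨p, le_trans ?_ hp⟩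
    rw [av_eq, Nat.card_eq_fintype_card]
    exact div_le_div_of_nonneg_right h5 (Nat.cast_nonneg _)

end

/-- `P` holds for all large finite types -/
def Ev (P : Type → Prop) : Prop := ∃ n : ℕ, ∀ ι : Type, Finite ι → n ≤ Nat.card ι → P ι

lemma Ev.mono {P Q : Type → Prop} (h : Ev P) (hPQ : ∀ ι, Finite ι → P ι → Q ι) : Ev Q := by
  obtain ⟨n, hn⟩ := h
  exact ⟨n, fun ι hι hc => hPQ ι hι (hn ι hι hc)⟩

lemma Ev.and {P Q : Type → Prop} (h : Ev P) (h' : Ev Q) : Ev (fun ι => P ι ∧ Q ι) := by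
  obtain ⟨n, hn⟩ := h
  obtain ⟨m, hm⟩ := h'
  exact ⟨max n m, fun ι hι hc => ⟨hn ι hι (le_trans (le_max_left _ _) hc),
    hm ι hι (le_trans (le_max_right _ _) hc)⟩⟩

lemma Ev.ex {P : Type → Prop} (h : Ev P) : ∃ ι : Type, Finite ι ∧ P ι := by
  obtain ⟨n, hn⟩ := h
  exact ⟨Fin n, inferInstance, hn _ inferInstance (by simp)⟩

lemma Ev.of_all {P : Type → Prop} (h : ∀ ι, Finite ι → P ι) : Ev P := ⟨0, fun ι hι _ => h ι hι⟩

lemma Ev.split {P : Type → Prop} (h : Ev P) (κ : Type) [Finite κ] :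
    Ev (fun ι => ∃ ι' : Type, Finite ι' ∧ P ι' ∧ Nonempty (ι ≃ κ ⊕ ι')) := by
  obtain ⟨n, hn⟩ := h
  refine ⟨Nat.card κ + n, fun ι hι hc => ⟨Fin (Nat.card ι - Nat.card κ), inferInstance,
    hn _ inferInstance (by simp; omega), ?_⟩⟩
  refine Finite.card_eq.1 ?_
  simp; omega

/-- `F` parametrises a combinatorial subspace with variable set `η` -/
def IsSub {η ι γ : Type} (F : (η → γ) → (ι → γ)) : Prop :=
  ∃ idx : ι → γ ⊕ η, (∀ e, ∃ i, idx i = Sum.inr e) ∧ ∀ w i, F w i = Sum.elim id w (idx i)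

section
variable {η ι κ γ : Type}

lemma IsSub.comp {F : (κ → γ) → (ι → γ)} {G : (η → γ) → (κ → γ)} (hF : IsSub F) (hG : IsSub G) :
    IsSub (fun w => F (G w)) := by
  obtain ⟨a, ha, hFa⟩ := hF
  obtain ⟨b, hb, hGb⟩ := hG
  refine ⟨fun i => Sum.elim Sum.inl b (a i), fun e => ?_, fun w i => ?_⟩
  · obtain ⟨k, hk⟩ := hb e
    obtain ⟨i, hi⟩ := ha k
    exact ⟨i, by simp [hi, hk]⟩
  · beta_reduce
    rw [hFa]
    rcases a i with c | k
    · rfl
    · simp [hGb]

lemma isSub_reindex (e : ι ≃ κ) : IsSub (fun (x : κ → γ) (i : ι) => x (e i)) :=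
  ⟨fun i => Sum.inr (e i), fun k => ⟨e.symm k, by simp⟩, fun _ _ => rfl⟩

lemma isSub_left (y : κ → γ) : IsSub (fun (x : ι → γ) => (Sum.elim x y : ι ⊕ κ → γ)) :=
  ⟨Sum.elim Sum.inr (fun k => Sum.inl (y k)), fun k => ⟨Sum.inl k, rfl⟩,
    fun _ i => by cases i <;> rfl⟩

lemma isSub_right (x : ι → γ) : IsSub (fun (y : κ → γ) => (Sum.elim x y : ι ⊕ κ → γ)) :=
  ⟨Sum.elim (fun k => Sum.inl (x k)) Sum.inr, fun k => ⟨Sum.inr k, rfl⟩,
    fun _ i => by cases i <;> rfl⟩

lemma IsSub.injective {F : (η → γ) → (ι → γ)} (hF : IsSub F) : Function.Injective F := by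
  obtain ⟨a, ha, hFa⟩ := hF
  intro w w' h
  funext e
  obtain ⟨i, hi⟩ := ha e
  have := congrFun h i
  simpa [hFa, hi] using this

/-- `A` contains a combinatorial line -/
def HasLine (A : (ι → γ) → Prop) : Prop :=
  ∃ p : ι → Option γ, (∃ i, p i = none) ∧ ∀ a, A (fun i => (p i).getD a)

lemma IsSub.hasLine {F : (η → γ) → (ι → γ)} (hF : IsSub F) {A : (ι → γ) → Prop}
    (h : HasLine (fun w => A (F w))) : HasLine A := by
  obtain ⟨a, ha, hFa⟩ := hF
  obtain ⟨p, ⟨e, he⟩, hp⟩ := h
  refine ⟨fun i => Sum.elim some p (a i), ?_, fun c => ?_⟩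
  · obtain ⟨i, hi⟩ := ha e
    exact ⟨i, by simp [hi, he]⟩
  · convert hp c using 1
    funext i
    beta_reduce
    rw [hFa]
    rcases a i with d | k <;> rfl

/-- a bound on all small subspaces bounds the global average -/
lemma ev_global [Finite η] [Finite γ] : Ev (fun ι => ∀ f : (ι → γ) → ℝ,
    (∀ F : (η → γ) → (ι → γ), IsSub F → av (fun w => f (F w)) ≤ 0) → av f ≤ 0) := by
  refine ((Ev.of_all (P := fun _ => True) fun _ _ => trivial).split η).mono ?_
  rintro ι hι ⟨ι', hι', -, ⟨e⟩⟩ f hf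
  rw [← av_reindex e f, av_elim, av_comm]
  exact av_nonpos fun y => hf _ ((isSub_reindex e).comp (isSub_left y))

end

end Pool.Agent.H57.DHJ
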