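import Pool.Agent.H57.DHJ1

/-! Regularisation, multidimensional versions. -/

namespace Pool.Agent.H57.DHJ

open Finset

/-- density Hales-Jewett for the alphabet `γ` -/
def HasDHJ (γ : Type) : Prop := ∀ δ : ℝ, 0 < δ →
  Ev (fun ι => ∀ A : (ι → γ) → Prop, δ ≤ av (fun x => ind (A x)) → HasLine A)

lemma regular_aux (γ η : Type) [Finite γ] [Nonempty γ] [Finite η] {ε : ℝ} (hε : 0 < ε) (t : ℕ) :
    Ev (fun ι => ∀ f : (ι → γ) → ℝ, (∀ x, f x ≤ 1) →
      1 - t * (ε / Nat.card (η → γ)) < av f →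
      ∃ (κ : Type) (_ : Finite κ) (F : (η ⊕ κ → γ) → (ι → γ)), IsSub F ∧
        ∀ w : η → γ, av f - ε ≤ av (fun y : κ → γ => f (F (Sum.elim w y)))) := by
  induction t with
  | zero =>
    refine Ev.of_all fun ι hι f hf h => ?_
    have : av f ≤ 1 := av_le hf
    simp at h; linarith
  | succ t ih =>
    refine (ih.split η).mono ?_
    rintro ι hι ⟨ι', hι', hP, ⟨e⟩⟩ f hf h
    have hav : av f = av (fun w : η → γ => av (fun y : ι' → γ =>
        f (fun i => Sum.elim w y (e i)))) := by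
      rw [← av_reindex e f, av_elim]
    by_cases hall : ∀ w : η → γ, av f - ε ≤ av (fun y : ι' → γ => f (fun i => Sum.elim w y (e i)))
    · exact ⟨ι', hι', fun x i => x (e i), isSub_reindex e, hall⟩
    · push Not at hall
      obtain ⟨w₀, hw₀⟩ := hall
      obtain ⟨w₁, hw₁⟩ := exists_gain (fun w : η → γ => av (fun y : ι' → γ =>
        f (fun i => Sum.elim w y (e i)))) hε (x₀ := w₀) (by rw [← hav]; exact hw₀)
      rw [← hav] at hw₁
      have hpos : 0 ≤ ε / Nat.card (η → γ) := by positivity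
      obtain ⟨κ, hκ, F, hF, hsec⟩ := hP (fun y => f (fun i => Sum.elim w₁ y (e i)))
        (fun y => hf _) (by push_cast at h; linarith)
      refine ⟨κ, hκ, fun x i => Sum.elim w₁ (F x) (e i),
        (isSub_reindex e).comp ((isSub_right w₁).comp hF), fun w => ?_⟩
      have := hsec w
      linarith

/-- all sections over a subspace are nearly as dense as the whole -/
lemma regular (γ η : Type) [Finite γ] [Nonempty γ] [Finite η] {ε : ℝ} (hε : 0 < ε) :
    Ev (fun ι => ∀ f : (ι → γ) → ℝ, (∀ x, 0 ≤ f x) → (∀ x, f x ≤ 1) →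
      ∃ (κ : Type) (_ : Finite κ) (F : (η ⊕ κ → γ) → (ι → γ)), IsSub F ∧
        ∀ w : η → γ, av f - ε ≤ av (fun y : κ → γ => f (F (Sum.elim w y)))) := by
  have hN : (0:ℝ) < Nat.card (η → γ) := by exact_mod_cast Nat.card_pos
  obtain ⟨t, ht⟩ := exists_nat_gt (1 / (ε / Nat.card (η → γ)))
  have hc : 0 < ε / Nat.card (η → γ) := by positivity
  rw [div_lt_iff₀ hc] at ht
  refine (regular_aux γ η hε t).mono fun ι hι h f h0 h1 => h f h1 ?_
  have := av_nonneg h0
  linarith

lemma exists_of_av_pos {X : Type} [Finite X] {A : X → Prop} (h : 0 < av (fun x => ind (A x))) :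
    ∃ x, A x := by
  by_contra hc
  push Not at hc
  have : av (fun x => ind (A x)) ≤ 0 := av_nonpos fun x => (ind_neg (hc x)).le
  linarith

/-- multidimensional density Hales-Jewett -/
def MDHJ (γ η : Type) : Prop := ∀ δ : ℝ, 0 < δ →
  Ev (fun ι => ∀ A : (ι → γ) → Prop, δ ≤ av (fun x => ind (A x)) →
    ∃ F : (η → γ) → (ι → γ), IsSub F ∧ ∀ w, A (F w))

lemma mdhj {γ : Type} [Finite γ] [Nonempty γ] (H : HasDHJ γ) (η : Type) [Finite η] : MDHJ γ η := by
  induction η using Finite.induction_empty_option with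
  | of_equiv e ih =>
    intro δ hδ
    refine (ih δ hδ).mono fun ι hι h A hA => ?_
    obtain ⟨F, hF, hFA⟩ := h A hA
    exact ⟨fun w => F (fun i => w (e i)), hF.comp (isSub_reindex e), fun w => hFA _⟩
  | h_empty =>
    intro δ hδ
    refine Ev.of_all fun ι hι A hA => ?_
    obtain ⟨x, hx⟩ := exists_of_av_pos (lt_of_lt_of_le hδ hA)
    exact ⟨fun _ => x, ⟨fun i => Sum.inl (x i), fun e => e.elim, fun _ _ => rfl⟩, fun _ => hx⟩
  | @h_option η _ ih =>
    intro δ hδ
    obtain ⟨κ, hκ, hline⟩ := (H (δ / 2) (by positivity)).ex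
    have hN : (0:ℝ) < Nat.card (κ → Option γ) := by exact_mod_cast Nat.card_pos
    refine ((ih (δ / 2 / Nat.card (κ → Option γ)) (by positivity)).split κ).mono ?_
    rintro ι hι ⟨ι', hι', hP, ⟨e⟩⟩ A hA
    rw [← av_reindex e, av_elim, av_comm] at hA
    obtain ⟨p, hp⟩ := pigeon (fun (x : κ → γ) (y : ι' → γ) => A (fun i => Sum.elim x y (e i)))
      (fun (p : κ → Option γ) (y : ι' → γ) => (∃ k, p k = none) ∧
        ∀ a, A (fun i => Sum.elim (fun k => (p k).getD a) y (e i))) (δ := δ / 2) (by positivity)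
      (by linarith) (fun y hy => hline _ hy)
    obtain ⟨F, hF, hFA⟩ := hP _ hp
    obtain ⟨k₀, hk₀⟩ := (hFA (Classical.arbitrary _)).1
    refine ⟨fun w i => Sum.elim (fun k => (p k).getD (w none)) (F (fun j => w (some j))) (e i),
      (isSub_reindex e).comp ?_, fun w => (hFA _).2 _⟩
    obtain ⟨a, ha, hFa⟩ := hF
    refine ⟨Sum.elim (fun k => (p k).elim (Sum.inr none) Sum.inl)
      (fun j => Sum.map id some (a j)), fun o => ?_, fun w i => ?_⟩
    · rcases o with _ | j
      · exact ⟨Sum.inl k₀, by simp [hk₀]⟩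
      · obtain ⟨i, hi⟩ := ha j
        exact ⟨Sum.inr i, by simp [hi]⟩
    · rcases i with k | j
      · simp only [Sum.elim_inl]
        rcases p k with _ | c <;> rfl
      · simp only [Sum.elim_inr, hFa]
        rcases a j with c | j' <;> rfl

lemma IsSub.lift {α η ι : Type} {G : (η → α) → (ι → α)} (hG : IsSub G) :
    ∃ G' : (η → Option α) → (ι → Option α), IsSub G' ∧
      ∀ w : η → α, G' (fun e => some (w e)) = fun i => some (G w i) := by
  obtain ⟨a, ha, hGa⟩ := hG
  refine ⟨fun u i => Sum.elim some u (a i), ⟨fun i => Sum.map some id (a i), fun e => ?_,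
    fun u i => ?_⟩, fun w => ?_⟩
  · obtain ⟨i, hi⟩ := ha e
    exact ⟨i, by simp [hi]⟩
  · beta_reduce
    rcases a i with c | j <;> rfl
  · funext i
    beta_reduce
    rw [hGa]
    rcases a i with c | j <;> rfl

lemma mdhj_star {α : Type} [Finite α] [Nonempty α] (H : HasDHJ α) (η : Type) [Finite η]
    {δ : ℝ} (hδ : 0 < δ) :
    Ev (fun ι => ∀ A : (ι → Option α) → Prop, δ ≤ av (fun x => ind (A x)) →
      ∃ F : (η → Option α) → (ι → Option α), IsSub F ∧
        ∀ w : η → α, A (F (fun e => some (w e)))) := by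
  obtain ⟨μ, hμ, hM⟩ := (mdhj H η (δ / 2) (by positivity)).ex
  refine (regular (Option α) μ (ε := δ / 2) (by positivity)).mono fun ι hι h A hA => ?_
  obtain ⟨κ, hκ, F, hF, hsec⟩ := h (fun x => ind (A x)) (fun _ => ind_nonneg _)
    (fun _ => ind_le_one _)
  have h1 : δ / 2 ≤ av (fun w : μ → α => av (fun y : κ → Option α =>
      ind (A (F (Sum.elim (fun e => some (w e)) y))))) :=
    le_av fun w => by linarith [hsec (fun e => some (w e))]
  rw [av_comm] at h1
  obtain ⟨y, hy⟩ := exists_av_le (fun y : κ → Option α => av (fun w : μ → α =>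
      ind (A (F (Sum.elim (fun e => some (w e)) y)))))
  obtain ⟨G, hG, hGA⟩ := hM _ (h1.trans hy)
  obtain ⟨G', hG', hGG⟩ := hG.lift
  refine ⟨fun u => F (Sum.elim (G' u) y), hF.comp ((isSub_left y).comp hG'), fun w => ?_⟩
  beta_reduce
  rw [hGG]
  exact hGA w

end Pool.Agent.H57.DHJ
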