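import Pool.Agent.H57.DHJ2

/-! Insensitive sets and tilings by subspaces. -/

namespace Pool.Agent.H57.DHJ

open Finset

section
variable {α η ι κ : Type}

/-- replace the extra letter by `a` -/
def R (a : α) (x : ι → Option α) : ι → Option α := fun i => some ((x i).getD a)

/-- `D` does not distinguish the extra letter from `a` -/
def Ins (a : α) (D : (ι → Option α) → Prop) : Prop := ∀ x, D x ↔ D (R a x)

lemma R_R (a : α) (x : ι → Option α) : R a (R a x) = R a x := rfl

lemma IsSub.R_comm {F : (η → Option α) → (ι → Option α)} (hF : IsSub F) (a : α)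
    (w : η → Option α) : R a (F (R a w)) = R a (F w) := by
  obtain ⟨b, -, hb⟩ := hF
  funext i
  simp only [R, hb]
  rcases b i with c | j <;> rfl

lemma Ins.comp {a : α} {D : (ι → Option α) → Prop} (hD : Ins a D)
    {F : (η → Option α) → (ι → Option α)} (hF : IsSub F) : Ins a (fun w => D (F w)) := by
  intro w
  beta_reduce
  rw [hD (F w), hD (F (R a w)), hF.R_comm]

lemma Ins.not {a : α} {D : (ι → Option α) → Prop} (hD : Ins a D) : Ins a (fun x => ¬ D x) :=
  fun x => not_congr (hD x)

end

/-- the subspace with a given index function -/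
def subOf {η ι γ : Type} (idx : ι → γ ⊕ η) (w : η → γ) : ι → γ := fun i => Sum.elim id w (idx i)

lemma ind_split (p q : Prop) : ind p = ind (p ∧ ¬ q) + ind (p ∧ q) := by
  by_cases hp : p <;> by_cases hq : q <;> simp [ind, hp, hq]

lemma ind_and (p q : Prop) : ind (p ∧ q) = ind p * ind q := by
  by_cases hp : p <;> by_cases hq : q <;> simp [ind, hp, hq]

lemma av_shuffle {Z κ ι γ : Type} [Finite Z] [Finite κ] [Finite ι] [Finite γ]
    (φ : Z → (κ → γ) → (ι → γ) → ℝ) :
    av (fun z => av (fun x => av (fun y => φ z x y))) =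
      av (fun q : Z × (ι → γ) => av (fun x => φ q.1 x q.2)) := by
  rw [av_prod]
  congr 1
  funext z
  exact av_comm _

lemma tile_aux {α : Type} [Finite α] (a : α) (η κ : Type) [Finite η] [Finite κ] {b : ℝ}
    (hb : 0 < b)
    (hκ : ∀ A : (κ → Option α) → Prop, b ≤ av (fun x => ind (A x)) →
      ∃ F : (η → Option α) → (κ → Option α), IsSub F ∧
        ∀ w : η → α, A (F (fun e => some (w e)))) (t : ℕ) :
    Ev (fun ι => ∀ (Z : Type) [Finite Z] [Nonempty Z] (D : Z → (ι → Option α) → Prop)
      (f : Z → (ι → Option α) → ℝ), (∀ z, Ins a (D z)) → (∀ z x, f z x ≤ 1) →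
      (∀ z (F : (η → Option α) → (ι → Option α)), IsSub F → av (fun w => f z (F w)) ≤ 0) →
      av (fun z => av (fun x => ind (D z x))) ≤
        2 * b + t * (b / Nat.card (κ → Option α ⊕ η) / Nat.card (κ → Option α)) →
      av (fun z => av (fun x => f z x * ind (D z x))) ≤ 2 * b) := by
  have base : ∀ (ι Z : Type) [Finite ι] [Finite Z] (D : Z → (ι → Option α) → Prop)
      (f : Z → (ι → Option α) → ℝ), (∀ z x, f z x ≤ 1) →
      av (fun z => av (fun x => f z x * ind (D z x))) ≤
        av (fun z => av (fun x => ind (D z x))) := by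
    intro ι Z _ _ D f hf
    refine av_mono fun z => av_mono fun x => ?_
    nlinarith [hf z x, ind_nonneg (D z x)]
  induction t with
  | zero =>
    refine Ev.of_all fun ι hι Z _ _ D f hD hf hsub hden => ?_
    have := base ι Z D f hf
    simp at hden; linarith
  | succ t ih =>
    refine (ih.split κ).mono ?_
    rintro ι hι ⟨ι', hι', hP, ⟨e⟩⟩ Z _ _ D f hD hf hsub hden
    by_cases hsmall : av (fun z => av (fun x => ind (D z x))) ≤ 2 * b
    · exact (base ι Z D f hf).trans hsmall
    push Not at hsmall
    -- coordinates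
    set J : (κ → Option α) → (ι' → Option α) → (ι → Option α) :=
      fun x y i => Sum.elim x y (e i) with hJ
    have hJl : ∀ y, IsSub (fun x => J x y) := fun y => (isSub_reindex e).comp (isSub_left y)
    have hJr : ∀ x, IsSub (fun y => J x y) := fun x => (isSub_reindex e).comp (isSub_right x)
    have hre : ∀ φ : Z → (ι → Option α) → ℝ, av (fun z => av (fun x => φ z x)) =
        av (fun z => av (fun x => av (fun y => φ z (J x y)))) := by
      intro φ
      congr 1
      funext z
      rw [← av_reindex e, av_elim]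
    have h1 := hre (fun z x => ind (D z x))
    rw [av_shuffle] at h1
    obtain ⟨idx, hidx⟩ := pigeon
      (fun (x : κ → Option α) (q : Z × (ι' → Option α)) => D q.1 (J x q.2))
      (fun (idx : κ → Option α ⊕ η) (q : Z × (ι' → Option α)) =>
        (∀ e, ∃ i, idx i = Sum.inr e) ∧ ∀ w, D q.1 (J (subOf idx w) q.2)) hb
      (by rw [← h1]; exact hsmall.le) (by
        intro q hq
        obtain ⟨F, hF, hFA⟩ := hκ _ hq
        have hins := (hD q.1).comp ((hJl q.2).comp hF)
        obtain ⟨idx, hs, hFi⟩ := hF
        refine ⟨idx, hs, fun w => ?_⟩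
        have h2 : subOf idx w = F w := funext fun i => (hFi w i).symm
        rw [h2]
        exact (hins w).2 (hFA _))
    have hΘ : (0:ℝ) < Nat.card (κ → Option α ⊕ η) := by exact_mod_cast Nat.card_pos
    have hK : (0:ℝ) < Nat.card (κ → Option α) := by exact_mod_cast Nat.card_pos
    obtain ⟨q₀, hs, -⟩ := exists_of_av_pos (lt_of_lt_of_le (by positivity) hidx)
    have hV : IsSub (subOf idx) := ⟨idx, hs, fun _ _ => rfl⟩
    set S : Z → (ι' → Option α) → Prop := fun z y => ∀ w, D z (J (subOf idx w) y) with hS
    have hSden : b / Nat.card (κ → Option α ⊕ η) ≤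
        av (fun q : Z × (ι' → Option α) => ind (S q.1 q.2)) := by
      refine hidx.trans (le_of_eq ?_)
      congr 1
      funext q
      exact ind_congr ⟨fun h => h.2, fun h => ⟨hs, h⟩⟩
    have hSins : ∀ z, Ins a (S z) := fun z y =>
      forall_congr' fun w => (hD z).comp (hJr (subOf idx w)) y
    -- splitting of weighted averages
    have hsplit : ∀ g : Z → (ι → Option α) → ℝ,
        av (fun z => av (fun x => g z x * ind (D z x))) =
          av (fun p : Z × (κ → Option α) => av (fun y => g p.1 (J p.2 y) *
            ind (D p.1 (J p.2 y) ∧ ¬ (S p.1 y ∧ p.2 ∈ Set.range (subOf idx))))) +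
          av (fun q : Z × (ι' → Option α) => ind (S q.1 q.2) *
            av (fun x => g q.1 (J x q.2) * ind (x ∈ Set.range (subOf idx)))) := by
      intro g
      rw [hre (fun z x => g z x * ind (D z x)), av_prod]
      have h3 := av_shuffle (fun z (x : κ → Option α) (y : ι' → Option α) =>
        ind (S z y) * (g z (J x y) * ind (x ∈ Set.range (subOf idx))))
      simp only [av_mul] at h3
      rw [← h3, ← av_add]
      congr 1
      funext z
      rw [← av_add]
      congr 1
      funext x
      rw [← av_add]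
      congr 1
      funext y
      rw [ind_split (D z (J x y)) (S z y ∧ x ∈ Set.range (subOf idx))]
      have h4 : ind (D z (J x y) ∧ S z y ∧ x ∈ Set.range (subOf idx)) =
          ind (S z y) * ind (x ∈ Set.range (subOf idx)) := by
        rw [← ind_and]
        refine ind_congr ⟨fun h => h.2, fun h => ⟨?_, h⟩⟩
        obtain ⟨h5, w, rfl⟩ := h
        exact h5 w
      rw [h4]; ring
    have hmain := hP (Z × (κ → Option α))
      (fun p y => D p.1 (J p.2 y) ∧ ¬ (S p.1 y ∧ p.2 ∈ Set.range (subOf idx)))
      (fun p y => f p.1 (J p.2 y))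
      (fun p y => and_congr ((hD p.1).comp (hJr p.2) y)
        (not_congr (and_congr (hSins p.1 y) Iff.rfl)))
      (fun p y => hf _ _) (fun p F hF => hsub p.1 _ ((hJr p.2).comp hF)) (by
        have h6 := hsplit (fun _ _ => 1)
        simp only [one_mul] at h6
        rw [av_ind_range hV.injective] at h6
        have h7 : (1:ℝ) ≤ Nat.card (η → Option α) := by exact_mod_cast Nat.card_pos
        have h8 : b / Nat.card (κ → Option α ⊕ η) / Nat.card (κ → Option α) ≤
            av (fun q : Z × (ι' → Option α) => ind (S q.1 q.2) *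
              ((Nat.card (η → Option α) : ℝ) / Nat.card (κ → Option α))) := by
          simp only [mul_comm (ind _), av_mul]
          rw [mul_comm, ← mul_one (b / _), mul_div_assoc]
          exact mul_le_mul hSden (div_le_div_of_nonneg_right h7 hK.le) (by positivity)
            (av_nonneg fun _ => ind_nonneg _)
        push_cast at hden
        linarith)
    rw [hsplit f]
    have h9 : av (fun q : Z × (ι' → Option α) => ind (S q.1 q.2) *
        av (fun x => f q.1 (J x q.2) * ind (x ∈ Set.range (subOf idx)))) ≤ 0 :=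
      av_nonpos fun q => mul_nonpos_of_nonneg_of_nonpos (ind_nonneg _)
        (av_range_nonpos hV.injective _ (hsub q.1 _ ((hJl q.2).comp hV)))
    linarith

lemma tile {α : Type} [Finite α] [Nonempty α] (H : HasDHJ α) (a : α) (η : Type) [Finite η]
    {b : ℝ} (hb : 0 < b) :
    Ev (fun ι => ∀ (D : (ι → Option α) → Prop) (f : (ι → Option α) → ℝ), Ins a D →
      (∀ x, f x ≤ 1) →
      (∀ (F : (η → Option α) → (ι → Option α)), IsSub F → av (fun w => f (F w)) ≤ 0) →
      av (fun x => f x * ind (D x)) ≤ 2 * b) := by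
  obtain ⟨κ, hκ, hM⟩ := (mdhj_star H η hb).ex
  have hΘ : (0:ℝ) < Nat.card (κ → Option α ⊕ η) := by exact_mod_cast Nat.card_pos
  have hK : (0:ℝ) < Nat.card (κ → Option α) := by exact_mod_cast Nat.card_pos
  have hc : 0 < b / Nat.card (κ → Option α ⊕ η) / Nat.card (κ → Option α) := by positivity
  obtain ⟨t, ht⟩ := exists_nat_gt (1 / (b / Nat.card (κ → Option α ⊕ η) / Nat.card (κ → Option α)))
  rw [div_lt_iff₀ hc] at ht
  refine (tile_aux a η κ hb hM t).mono fun ι hι h D f hD hf hsub => ?_
  have := h Unit (fun _ => D) (fun _ => f) (fun _ => hD) (fun _ => hf) (fun _ => hsub) (by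
    rw [av_const]
    have : av (fun x => ind (D x)) ≤ 1 := av_le fun _ => ind_le_one _
    linarith)
  rwa [av_const] at this

lemma outside {α : Type} [Finite α] [Nonempty α] (H : HasDHJ α) (η : Type) [Finite η]
    (s : Finset α) : ∀ b : ℝ, 0 < b →
    Ev (fun ι => ∀ (C : α → (ι → Option α) → Prop) (f : (ι → Option α) → ℝ),
      (∀ a, Ins a (C a)) → (∀ x, f x ≤ 1) →
      (∀ (F : (η → Option α) → (ι → Option α)), IsSub F → av (fun w => f (F w)) ≤ 0) →
      av (fun x => f x * ind (¬ ∀ a ∈ s, C a x)) ≤ b) := by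
  classical
  induction s using Finset.induction_on with
  | empty =>
    intro b hb
    refine Ev.of_all fun ι hι C f _ _ _ => av_le fun x => ?_
    rw [ind_neg (by simp)]; linarith
  | insert a s ha ih =>
    intro b hb
    obtain ⟨μ, hμ, hM⟩ := (ih (b / 4) (by positivity)).ex
    refine ((tile H a η (b := b / 8) (by positivity)).and
      (tile H a μ (b := b / 8) (by positivity))).mono ?_
    rintro ι hι ⟨h1, h2⟩ C f hC hf hsub
    have h3 := h1 _ f (hC a).not hf hsub
    have h4 := h2 (C a) (fun x => f x * ind (¬ ∀ a ∈ s, C a x) - b / 4) (hC a)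
      (fun x => by nlinarith [hf x, ind_nonneg (¬ ∀ a ∈ s, C a x), ind_le_one (¬ ∀ a ∈ s, C a x)])
      (fun F hF => by
        rw [av_sub, av_const]
        have := hM (fun a w => C a (F w)) (fun w => f (F w)) (fun a => (hC a).comp hF)
          (fun w => hf _) (fun G hG => hsub _ (hF.comp hG))
        linarith)
    have h5 : av (fun x => f x * ind (¬ ∀ a' ∈ insert a s, C a' x)) ≤
        av (fun x => (f x * ind (¬ C a x) +
          (f x * ind (¬ ∀ a ∈ s, C a x) - b / 4) * ind (C a x)) + b / 4) := by
      refine av_mono fun x => ?_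
      by_cases h6 : C a x
      · rw [ind_neg (not_not.2 h6), ind_pos h6,
          ind_congr (show (¬ ∀ a' ∈ insert a s, C a' x) ↔ ¬ ∀ a ∈ s, C a x by simp [h6])]
        linarith
      · rw [ind_pos h6, ind_neg h6, ind_pos (fun h => h6 (h a (mem_insert_self _ _)))]
        linarith
    rw [av_add, av_add, av_const] at h5
    linarith

end Pool.Agent.H57.DHJ
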