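import Pool.Agent.H57.DHJ3

/-! The density Hales-Jewett theorem. -/

namespace Pool.Agent.H57.DHJ

open Finset

lemma exists_ge_of_le_av {X : Type} [Finite X] [Nonempty X] {f : X → ℝ} {c : ℝ} (h : c ≤ av f) :
    ∃ x, c ≤ f x := by
  obtain ⟨x, hx⟩ := exists_av_le f
  exact ⟨x, h.trans hx⟩

lemma many_lines {α : Type} [Finite α] [Nonempty α] (H : HasDHJ α) {δ : ℝ} (hδ : 0 < δ) :
    ∃ θ : ℝ, 0 < θ ∧ θ ≤ δ ∧ ∀ (μ : Type) [Finite μ], ∃ (ι₀ : Type) (_ : Finite ι₀),
      ∀ (Y : Type) [Finite Y] [Nonempty Y] (B : (ι₀ → Option α) → Y → Prop),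
        (∀ w, 2 * δ ≤ av (fun y => ind (B w y))) →
        ∃ (W : Type) (_ : Finite W) (G : (W → Option α) → (ι₀ → Option α)),
          Nat.card μ ≤ Nat.card W ∧ IsSub G ∧
          θ ≤ av (fun y => av (fun u : W → Option α => ind (∀ a, B (G (R a u)) y))) := by
  classical
  obtain ⟨m, hm, hline⟩ := (H δ hδ).ex
  have hN : (1:ℝ) ≤ Nat.card (m → Option α) := by exact_mod_cast Nat.card_pos
  refine ⟨δ / Nat.card (m → Option α), by positivity, div_le_self hδ.le hN, fun μ _ =>
    ⟨m × μ, inferInstance, fun Y _ _ B hB => ?_⟩⟩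
  obtain ⟨p, hp⟩ := pigeon
    (fun (z : m → α) (q : (m × μ → Option α) × Y) =>
      B (fun x => some ((q.1 x).getD (z x.1))) q.2)
    (fun (p : m → Option α) (q : (m × μ → Option α) × Y) => (∃ i, p i = none) ∧
      ∀ a, B (fun x => some ((q.1 x).getD ((p x.1).getD a))) q.2) hδ
    (by
      rw [av_prod]
      refine le_av fun u => ?_
      rw [av_comm]
      exact le_av fun z => hB (fun x => some ((u x).getD (z x.1))))
    (fun q hq => hline _ hq)
  obtain ⟨-, ⟨i₀, hi₀⟩, -⟩ := exists_of_av_pos (lt_of_lt_of_le (by positivity) hp)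
  rw [av_prod, ← av_equiv (Equiv.piEquivPiSubtypeProd (fun x : m × μ => p x.1 = none)
    (fun _ => Option α)).symm, av_prod, av_comm] at hp
  obtain ⟨v, hp⟩ := exists_ge_of_le_av hp
  let a₀ : α := Classical.arbitrary α
  refine ⟨{x : m × μ // p x.1 = none}, inferInstance, fun u x => if h : p x.1 = none then u ⟨x, h⟩
    else some ((v ⟨x, h⟩).getD ((p x.1).getD a₀)), ?_, ?_, ?_⟩
  · exact Nat.card_le_card_of_injective (fun j => ⟨(i₀, j), hi₀⟩)
      (fun j j' h => by simpa using h)
  · refine ⟨fun x => if h : p x.1 = none then Sum.inr ⟨x, h⟩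
      else Sum.inl (some ((v ⟨x, h⟩).getD ((p x.1).getD a₀))), fun e => ⟨e.1, by simp [e.2]⟩,
      fun u x => ?_⟩
    by_cases h : p x.1 = none <;> simp [h]
  · rw [av_comm]
    refine hp.trans (av_mono fun u => av_mono fun y => ?_)
    by_cases hq : (∃ i, p i = none) ∧ ∀ a, B (fun x => some ((((Equiv.piEquivPiSubtypeProd
        (fun x : m × μ => p x.1 = none) (fun _ => Option α)).symm (u, v)) x).getD
        ((p x.1).getD a))) y
    · rw [ind_pos hq, ind_pos]
      intro a
      convert hq.2 a using 1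
      funext x
      by_cases h : p x.1 = none
      · simp [h, R]
      · obtain ⟨c, hc⟩ := Option.ne_none_iff_exists'.1 h
        simp [hc]
    · rw [ind_neg hq]; exact ind_nonneg _

lemma few_plain (α : Type) [Finite α] {τ : ℝ} (hτ : 0 < τ) :
    Ev (fun W => av (fun u : W → Option α => ind (∀ e, u e ≠ none)) ≤ τ) := by
  have hk : (0:ℝ) ≤ Nat.card α := Nat.cast_nonneg _
  have h1 : (Nat.card α : ℝ) / (Nat.card α + 1) < 1 := by
    rw [div_lt_one (by positivity)]; linarith
  obtain ⟨n, hn⟩ := exists_pow_lt_of_lt_one hτ h1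
  refine ⟨n, fun W hW hc => ?_⟩
  have hinj : Function.Injective (fun (w : W → α) (e : W) => some (w e)) :=
    fun w w' h => funext fun e => by simpa using congrFun h e
  have h2 := av_ind_range hinj
  have h3 : av (fun u : W → Option α => ind (∀ e, u e ≠ none)) =
      av (fun u : W → Option α => ind (u ∈ Set.range (fun (w : W → α) (e : W) => some (w e)))) := by
    congr 1
    funext u
    refine ind_congr ⟨fun h => ?_, ?_⟩
    · choose w hw using fun e => Option.ne_none_iff_exists.1 (h e)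
      exact ⟨w, funext hw⟩
    · rintro ⟨w, rfl⟩ e
      simp
  beta_reduce
  rw [h3, h2, Nat.card_fun, Nat.card_fun, Finite.card_option]
  push_cast
  rw [← div_pow]
  exact (pow_le_pow_of_le_one (by positivity) h1.le hc).trans hn.le

/-- sets of density at least `d` contain lines -/
def Good (γ : Type) (d : ℝ) : Prop :=
  Ev (fun ι => ∀ A : (ι → γ) → Prop, d ≤ av (fun x => ind (A x)) → HasLine A)

lemma increment {α : Type} [Finite α] [Nonempty α] (H : HasDHJ α) {δ : ℝ} (hδ : 0 < δ)
    (hδ1 : δ ≤ 1) :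
    ∃ γ : ℝ, 0 < γ ∧ ∀ d, δ ≤ d → Good (Option α) (d + γ) → Good (Option α) d := by
  classical
  have := Fintype.ofFinite α
  obtain ⟨θ, hθ, hθδ, hML⟩ := many_lines H (δ := δ / 4) (by positivity)
  set τ := δ * θ / 10 with hτ
  have hτ0 : 0 < τ := by positivity
  set γ := τ * θ / 4 with hγ
  have hγ0 : 0 < γ := by positivity
  have hθ1 : θ ≤ 1 := by linarith
  have hγτ : γ ≤ τ := by nlinarith
  have hτδ : τ ≤ δ / 10 := by nlinarith
  refine ⟨γ, hγ0, fun d hd hG => ?_⟩
  obtain ⟨η, hη, hηl⟩ := hG.ex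
  obtain ⟨n, hn⟩ := ((outside H η univ τ hτ0).and (few_plain α hτ0)).and
    (ev_global (η := η) (γ := Option α))
  obtain ⟨ι₀, hι₀, hι₀l⟩ := hML (Fin n)
  refine (regular (Option α) ι₀ hγ0).mono fun ι hι hreg A hA => ?_
  by_contra hno
  obtain ⟨κ, hκ, F, hF, hsec⟩ := hreg (fun x => ind (A x)) (fun _ => ind_nonneg _)
    (fun _ => ind_le_one _)
  obtain ⟨W, hW, G, hcard, hG', hθW⟩ := hι₀l (κ → Option α) (fun w y => A (F (Sum.elim w y)))
    (fun w => by linarith [hsec w])
  obtain ⟨⟨hout, hplain⟩, hglob⟩ := hn W hW (by simpa using hcard)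
  have hK : ∀ y, IsSub (fun u => F (Sum.elim (G u) y)) :=
    fun y => hF.comp ((isSub_left y).comp hG')
  have hsub : ∀ y (E : (η → Option α) → (W → Option α)), IsSub E →
      av (fun w => ind (A (F (Sum.elim (G (E w)) y))) - (d + γ)) ≤ 0 := by
    intro y E hE
    rw [av_sub, av_const]
    by_contra hc
    push Not at hc
    exact hno (((hK y).comp hE).hasLine (hηl _ (by linarith)))
  set g : (κ → Option α) → ℝ := fun y => av (fun u => ind (A (F (Sum.elim (G u) y)))) with hg
  set h : (κ → Option α) → ℝ := fun y => av (fun u : W → Option α =>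
    ind (∀ a, A (F (Sum.elim (G (R a u)) y)))) with hh
  have hg1 : ∀ y, g y ≤ d + γ := by
    intro y
    have := hglob (fun u => ind (A (F (Sum.elim (G u) y))) - (d + γ)) (hsub y)
    rw [av_sub, av_const] at this
    simp only [hg]; linarith
  have hg2 : d - γ ≤ av g := by
    simp only [hg]
    rw [av_comm]
    exact le_av fun u => by linarith [hsec (G u)]
  obtain ⟨y, hy⟩ := exists_av_le (fun y => τ * h y - (d + γ - g y))
  rw [av_sub, av_sub, av_const, av_mul] at hy
  have hh1 : h y ≤ 1 := av_le fun _ => ind_le_one _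
  have hθh : τ * θ ≤ τ * av h := mul_le_mul_of_nonneg_left hθW hτ0.le
  have hy1 : θ / 2 ≤ h y := by
    have : τ * (θ / 2) ≤ τ * h y := by linarith [hg1 y]
    exact le_of_mul_le_mul_left this hτ0
  have hy2 : d - τ ≤ g y := by nlinarith
  have h1 := hout (fun a u => A (F (Sum.elim (G (R a u)) y)))
    (fun u => ind (A (F (Sum.elim (G u) y))) - (d + γ)) (fun a u => Iff.rfl)
    (fun u => by linarith [ind_le_one (A (F (Sum.elim (G u) y)))]) (hsub y)
  have h2 : g y ≤ av (fun u : W → Option α =>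
      ((ind (A (F (Sum.elim (G u) y))) - (d + γ)) *
        ind (¬ ∀ a ∈ (univ : Finset α), A (F (Sum.elim (G (R a u)) y))) +
      ((d + γ) - (d + γ) * ind (∀ a, A (F (Sum.elim (G (R a u)) y))))) +
      ind (∀ e, u e ≠ none)) := by
    refine av_mono fun u => ?_
    by_cases hC : ∀ a, A (F (Sum.elim (G (R a u)) y))
    · rw [ind_pos hC, ind_neg (p := ¬ ∀ a ∈ (univ : Finset α), _) (not_not.2 fun a _ => hC a)]
      by_cases hu : ∀ e, u e ≠ none
      · rw [ind_pos hu]; linarith [ind_le_one (A (F (Sum.elim (G u) y)))]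
      · rw [ind_neg hu, ind_neg]
        · linarith
        · intro hAu
          push Not at hu
          obtain ⟨e, he⟩ := hu
          refine hno ((hK y).hasLine ⟨fun e => (u e).map some, ⟨e, by simp [he]⟩, fun o => ?_⟩)
          rcases o with _ | a
          · convert hAu using 4
            funext e
            beta_reduce
            rcases u e with _ | c <;> rfl
          · convert hC a using 4
            funext e
            simp only [R]
            rcases u e with _ | c <;> rfl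
    · rw [ind_neg hC, ind_pos (p := ¬ ∀ a ∈ (univ : Finset α), _)
        (fun h => hC fun a => h a (mem_univ _))]
      linarith [ind_nonneg (∀ e, u e ≠ none)]
  rw [av_add, av_add, av_sub, av_const, av_mul] at h2
  have h3 : δ * (θ / 2) ≤ (d + γ) * h y :=
    mul_le_mul (by linarith) hy1 (by positivity) (by linarith)
  simp only [hh] at h3
  linarith

lemma hasDHJ_option {α : Type} [Finite α] [Nonempty α] (H : HasDHJ α) : HasDHJ (Option α) := by
  intro δ hδ
  have hbig : ∀ d : ℝ, 1 < d → Good (Option α) d := fun d hd =>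
    Ev.of_all fun ι hι A hA => by
      have : av (fun x => ind (A x)) ≤ 1 := av_le fun _ => ind_le_one _
      linarith
  by_cases hδ1 : 1 < δ
  · exact hbig δ hδ1
  obtain ⟨γ, hγ, hinc⟩ := increment H hδ (not_lt.1 hδ1)
  have key : ∀ t : ℕ, Good (Option α) (δ + t * γ) → Good (Option α) δ := by
    intro t
    induction t with
    | zero => simp
    | succ t ih =>
      intro h
      refine ih (hinc _ (by nlinarith [Nat.cast_nonneg (α := ℝ) t]) ?_)
      convert h using 1
      push_cast; ring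
  obtain ⟨t, ht⟩ := exists_nat_gt (1 / γ)
  rw [div_lt_iff₀ hγ] at ht
  exact key t (hbig _ (by linarith))

lemma HasDHJ.equiv {α β : Type} [Finite α] (e : α ≃ β) (H : HasDHJ α) : HasDHJ β := by
  intro δ hδ
  refine (H δ hδ).mono fun ι hι h A hA => ?_
  have : Finite β := Finite.of_equiv α e
  rw [← av_equiv (Equiv.arrowCongr (Equiv.refl ι) e)] at hA
  obtain ⟨p, ⟨i, hi⟩, hp⟩ := h _ hA
  refine ⟨fun i => (p i).map e, ⟨i, by simp [hi]⟩, fun b => ?_⟩
  convert hp (e.symm b) using 1
  funext j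
  simp only [Equiv.arrowCongr_apply, Equiv.refl_symm, Equiv.coe_refl, Function.comp, id]
  rcases p j with _ | c <;> simp

lemma hasDHJ_fin (k : ℕ) : HasDHJ (Fin (k + 1)) := by
  induction k with
  | zero =>
    intro δ hδ
    refine ⟨1, fun ι hι hc A hA => ?_⟩
    obtain ⟨x, hx⟩ := exists_of_av_pos (lt_of_lt_of_le hδ hA)
    have : Nonempty ι := (Nat.card_pos_iff.1 hc).1
    refine ⟨fun _ => none, ⟨Classical.arbitrary ι, rfl⟩, fun a => ?_⟩
    convert hx using 1
    funext i
    exact Subsingleton.elim (α := Fin 1) _ _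
  | succ k ih => exact (hasDHJ_option ih).equiv (finSuccEquiv (k + 1)).symm

/-- The density Hales-Jewett theorem. -/
theorem hasDHJ (γ : Type) [Finite γ] [Nonempty γ] : HasDHJ γ := by
  obtain ⟨k, hk⟩ : ∃ k, Nat.card γ = k + 1 := Nat.exists_eq_succ_of_ne_zero Nat.card_pos.ne'
  exact (hasDHJ_fin k).equiv (Finite.equivFinOfCardEq hk).symm

lemma sum_ind_mem {X : Type} [Fintype X] (A : Finset X) : ∑ x, ind (x ∈ A) = A.card := by
  classical
  rw [Finset.card_eq_sum_ones, Nat.cast_sum, ← sum_subset (subset_univ A)]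
  · exact sum_congr rfl fun x hx => by rw [ind_pos hx]; simp
  · exact fun x _ hx => ind_neg hx

/-- The density Hales-Jewett theorem, counting form: a set of at least `δ * k ^ n` words
contains a combinatorial line. -/
theorem density_hales_jewett (γ : Type) [Fintype γ] [Nonempty γ] {δ : ℝ} (hδ : 0 < δ) :
    ∃ N : ℕ, ∀ (ι : Type) [Fintype ι], N ≤ Fintype.card ι → ∀ A : Finset (ι → γ),
      δ * (Fintype.card γ : ℝ) ^ Fintype.card ι ≤ A.card →
      ∃ p : ι → Option γ, (∃ i, p i = none) ∧ ∀ a, (fun i => (p i).getD a) ∈ A := by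
  classical
  obtain ⟨N, hN⟩ := hasDHJ γ δ hδ
  refine ⟨N, fun ι _ hc A hA => hN ι inferInstance (by simpa using hc) (fun x => x ∈ A) ?_⟩
  have hpos : (0:ℝ) < (Fintype.card γ : ℝ) ^ Fintype.card ι := by
    have : (0:ℝ) < Fintype.card γ := by exact_mod_cast Fintype.card_pos
    positivity
  rw [av_eq, Fintype.card_fun, Nat.cast_pow, le_div_iff₀ hpos]
  exact hA.trans (sum_ind_mem A).ge

/-- Multidimensional form: a dense set of words contains a subspace of any given dimension. -/
theorem density_hales_jewett_multi (γ η : Type) [Fintype γ] [Nonempty γ] [Finite η] {δ : ℝ}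
    (hδ : 0 < δ) :
    ∃ N : ℕ, ∀ (ι : Type) [Fintype ι], N ≤ Fintype.card ι → ∀ A : Finset (ι → γ),
      δ * (Fintype.card γ : ℝ) ^ Fintype.card ι ≤ A.card →
      ∃ idx : ι → γ ⊕ η, (∀ e, ∃ i, idx i = Sum.inr e) ∧
        ∀ w : η → γ, (fun i => Sum.elim id w (idx i)) ∈ A := by
  classical
  obtain ⟨N, hN⟩ := mdhj (hasDHJ γ) η δ hδ
  refine ⟨N, fun ι _ hc A hA => ?_⟩
  obtain ⟨F, ⟨idx, hs, hF⟩, hFA⟩ := hN ι inferInstance (by simpa using hc) (fun x => x ∈ A) (by
    have hpos : (0:ℝ) < (Fintype.card γ : ℝ) ^ Fintype.card ι := by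
      have : (0:ℝ) < Fintype.card γ := by exact_mod_cast Fintype.card_pos
      positivity
    rw [av_eq, Fintype.card_fun, Nat.cast_pow, le_div_iff₀ hpos]
    exact hA.trans (sum_ind_mem A).ge)
  refine ⟨idx, hs, fun w => ?_⟩
  convert hFA w using 1
  funext i
  exact (hF w i).symm

end Pool.Agent.H57.DHJ
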