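import Pool.Agent.H57.DHJ4

/-! Consequences of density Hales-Jewett: finite abelian groups, Szemeredi theorems. -/

namespace Pool.Agent.H57.DHJ

open Finset

lemma av_ind_mem {X : Type} [Fintype X] (A : Finset X) :
    av (fun x => ind (x ∈ A)) = (A.card : ℝ) / Fintype.card X := by
  rw [av_eq, sum_ind_mem]

/-- IP form in finite abelian groups: for any long list of patterns `f i : γ → G`, a dense set
contains a translate of the sum of the patterns over a nonempty subfamily. -/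
theorem dhj_group (γ : Type) [Finite γ] [Nonempty γ] {δ : ℝ} (hδ : 0 < δ) :
    ∃ N : ℕ, ∀ (G : Type) [AddCommGroup G] [Fintype G] (ι : Type) [Fintype ι],
      N ≤ Fintype.card ι → ∀ (f : ι → γ → G) (A : Finset G), δ * Fintype.card G ≤ A.card →
      ∃ (x : G) (J : Finset ι), J.Nonempty ∧ ∀ a, x + ∑ i ∈ J, f i a ∈ A := by
  classical
  obtain ⟨N, hN⟩ := hasDHJ γ δ hδ
  refine ⟨N, fun G _ _ ι _ hc f A hA => ?_⟩
  have hG : (0:ℝ) < Fintype.card G := by exact_mod_cast Fintype.card_pos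
  have h1 : δ ≤ av (fun w : ι → γ => av (fun x : G => ind (x + ∑ i, f i (w i) ∈ A))) := by
    refine le_av fun w => ?_
    have := av_equiv (Equiv.addRight (∑ i, f i (w i))) (fun x : G => ind (x ∈ A))
    simp only [Equiv.coe_addRight] at this
    rw [this, av_ind_mem, le_div_iff₀ hG]
    exact hA
  rw [av_comm] at h1
  obtain ⟨x, hx⟩ := exists_ge_of_le_av h1
  obtain ⟨p, ⟨i₀, hi₀⟩, hp⟩ := hN ι inferInstance (by simpa using hc) _ hx
  let a₀ : γ := Classical.arbitrary γ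
  refine ⟨x + ∑ i ∈ univ.filter (fun i => ¬ p i = none), f i ((p i).getD a₀),
    univ.filter (fun i => p i = none), ⟨i₀, by simp [hi₀]⟩, fun a => ?_⟩
  convert hp a using 1
  rw [add_assoc, ← sum_filter_add_sum_filter_not univ (fun i => p i = none), add_comm (∑ _ ∈ _, _)]
  congr 2
  · exact sum_congr rfl fun i hi => by simp [(mem_filter.1 hi).2]
  · refine sum_congr rfl fun i hi => ?_
    obtain ⟨c, hc⟩ := Option.ne_none_iff_exists'.1 (mem_filter.1 hi).2
    simp [hc]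

/-- Multidimensional Szemeredi theorem: a dense subset of the box `[0,N)^σ` contains a homothetic
copy `x + t • S` (`t > 0`, even `t` bounded in terms of `δ` and `S`-size only) of any finite
pattern `S`. -/
theorem szemeredi_multi (σ γ : Type) [Fintype σ] [Finite γ] [Nonempty γ] (s : γ → σ → ℕ)
    {δ : ℝ} (hδ : 0 < δ) :
    ∃ M N₀ : ℕ, ∀ N, N₀ ≤ N → ∀ A : Finset (σ → ℕ), (∀ v ∈ A, ∀ j, v j < N) →
      δ * (N : ℝ) ^ Fintype.card σ ≤ A.card →
      ∃ (x : σ → ℤ) (t : ℕ), 0 < t ∧ t ≤ M ∧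
        ∀ a, ∃ v ∈ A, ∀ j, (v j : ℤ) = x j + t * s a j := by
  classical
  obtain ⟨M, hM⟩ := dhj_group γ (δ := δ / 2 ^ Fintype.card σ) (by positivity)
  obtain ⟨B, hB⟩ : ∃ B : ℕ, ∀ a j, s a j ≤ B := by
    obtain ⟨B, hB⟩ := (Set.finite_range (fun q : γ × σ => s q.1 q.2)).bddAbove
    exact ⟨B, fun a j => hB ⟨(a, j), rfl⟩⟩
  refine ⟨M, M * B + 1, fun N hN A hA hcard => ?_⟩
  have : NeZero (2 * N) := ⟨by omega⟩
  let φ : (σ → ℕ) → (σ → ZMod (2 * N)) := fun v j => (v j : ZMod (2 * N))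
  have hφ : Set.InjOn φ A := by
    intro v hv w hw h
    funext j
    have h1 := (ZMod.natCast_eq_natCast_iff' _ _ _).1 (congrFun h j)
    have := hA v hv j
    have := hA w hw j
    rwa [Nat.mod_eq_of_lt (by omega), Nat.mod_eq_of_lt (by omega)] at h1
  obtain ⟨x, J, hJ, hx⟩ := hM (σ → ZMod (2 * N)) (Fin M) (by simp) (fun _ a => φ (s a))
    (A.image φ) (by
      rw [card_image_of_injOn hφ, Fintype.card_fun, ZMod.card]
      refine le_trans (le_of_eq ?_) hcard
      push_cast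
      rw [mul_pow]
      field_simp)
  have hJM : J.card ≤ M := by simpa using card_le_univ J
  choose v hvA hv using fun a => mem_image.1 (hx a)
  let a₀ : γ := Classical.arbitrary γ
  refine ⟨fun j => v a₀ j - J.card * s a₀ j, J.card, hJ.card_pos, hJM, fun a =>
    ⟨v a, hvA a, fun j => ?_⟩⟩
  have h1 := congrFun (hv a) j
  have h2 := congrFun (hv a₀) j
  simp only [φ, sum_const, Pi.add_apply, nsmul_eq_mul, Pi.mul_apply, Pi.natCast_apply] at h1 h2
  have h3 : (((v a j + J.card * s a₀ j : ℕ)) : ZMod (2 * N)) =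
      ((v a₀ j + J.card * s a j : ℕ) : ZMod (2 * N)) := by
    push_cast
    rw [h1, h2]; ring
  have h4 := (ZMod.natCast_eq_natCast_iff' _ _ _).1 h3
  have b1 : J.card * s a₀ j ≤ M * B := Nat.mul_le_mul hJM (hB _ _)
  have b2 : J.card * s a j ≤ M * B := Nat.mul_le_mul hJM (hB _ _)
  have := hA _ (hvA a) j
  have := hA _ (hvA a₀) j
  rw [Nat.mod_eq_of_lt (by omega), Nat.mod_eq_of_lt (by omega)] at h4
  have h5 : ((v a j + J.card * s a₀ j : ℕ) : ℤ) = ((v a₀ j + J.card * s a j : ℕ) : ℤ) := by rw [h4]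
  push_cast at h5
  linarith

/-- Szemeredi's theorem. -/
theorem szemeredi (k : ℕ) {δ : ℝ} (hδ : 0 < δ) :
    ∃ N₀ : ℕ, ∀ N, N₀ ≤ N → ∀ A : Finset ℕ, (∀ v ∈ A, v < N) → δ * N ≤ A.card →
      ∃ x t : ℕ, 0 < t ∧ ∀ i < k, x + t * i ∈ A := by
  classical
  obtain ⟨M, N₀, h⟩ := szemeredi_multi Unit (Fin (k + 1)) (fun a _ => a) hδ
  refine ⟨N₀, fun N hN A hA hc => ?_⟩
  have hinj : Function.Injective (fun (v : ℕ) (_ : Unit) => v) := fun v w h => congrFun h ()
  obtain ⟨x, t, ht, -, hx⟩ := h N hN (A.image fun v _ => v) (by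
    intro v hv j
    obtain ⟨u, hu, rfl⟩ := mem_image.1 hv
    exact hA u hu) (by rw [card_image_of_injective _ hinj]; simpa using hc)
  obtain ⟨v₀, hv₀, h₀⟩ := hx 0
  refine ⟨v₀ (), t, ht, fun i hi => ?_⟩
  obtain ⟨v, hv, h₁⟩ := hx ⟨i, by omega⟩
  obtain ⟨u, hu, rfl⟩ := mem_image.1 hv
  have e₀ := h₀ ()
  have e₁ := h₁ ()
  simp only [Fin.val_zero, Nat.cast_zero, mul_zero, add_zero] at e₀ e₁
  have : u = v₀ () + t * i := by
    have : (u : ℤ) = ((v₀ () + t * i : ℕ) : ℤ) := by push_cast; rw [e₀, e₁]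
    exact_mod_cast this
  rwa [← this]

end Pool.Agent.H57.DHJ
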