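import Mathlib

/-! Ergodicity of random iterations on a compact space from vanishing oscillation. -/

set_option linter.unusedSectionVars false

namespace Pool.Agent.H57.Feller

open MeasureTheory Filter Topology Function

variable {Y Ω : Type} [TopologicalSpace Y] [TopologicalSpace Ω] [CompactSpace Ω]
  [MeasurableSpace Ω] [BorelSpace Ω] [FirstCountableTopology Y]

lemma intg {Z : Type} [TopologicalSpace Z] [CompactSpace Z] [MeasurableSpace Z]
    [OpensMeasurableSpace Z] (μ : Measure Z) [IsFiniteMeasure μ] {g : Z → ℝ} (hg : Continuous g) :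
    Integrable g μ :=
  (BoundedContinuousFunction.mkOfCompact ⟨g, hg⟩).integrable μ

/-- the Markov operator of a random map -/
noncomputable def op [CompactSpace Y] (ν : Measure Ω) [IsProbabilityMeasure ν] (s : Y → Ω → Y)
    (hs : Continuous (uncurry s)) : C(Y, ℝ) →ₗ[ℝ] C(Y, ℝ) where
  toFun f := ⟨fun y => ∫ ξ, f (s y ξ) ∂ν, by
    refine continuous_of_dominated (bound := fun _ => ‖f‖) (fun y => ?_)
      (fun y => Eventually.of_forall fun ξ => f.norm_coe_le_norm _) (integrable_const _)
      (Eventually.of_forall fun ξ => ?_)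
    · exact (f.continuous.comp (hs.uncurry_left y)).measurable.aestronglyMeasurable
    · exact f.continuous.comp (hs.uncurry_right ξ)⟩
  map_add' f g := by
    ext y
    exact integral_add (intg ν (f.continuous.comp (hs.uncurry_left y)))
      (intg ν (g.continuous.comp (hs.uncurry_left y)))
  map_smul' c f := by
    ext y
    exact integral_const_mul c _

variable [CompactSpace Y] {ν : Measure Ω} [IsProbabilityMeasure ν] {s : Y → Ω → Y}
  {hs : Continuous (uncurry s)}

lemma op_apply (f : C(Y, ℝ)) (y : Y) : op ν s hs f y = ∫ ξ, f (s y ξ) ∂ν := rfl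

lemma op_mono {f g : C(Y, ℝ)} (h : f ≤ g) : op ν s hs f ≤ op ν s hs g := fun y =>
  integral_mono (intg ν (f.continuous.comp (hs.uncurry_left y)))
    (intg ν (g.continuous.comp (hs.uncurry_left y))) fun _ => h _

lemma op_one : op ν s hs 1 = 1 := by
  ext y; simp [op_apply]

lemma pow_mono (n : ℕ) {f g : C(Y, ℝ)} (h : f ≤ g) : (op ν s hs ^ n) f ≤ (op ν s hs ^ n) g := by
  induction n with
  | zero => exact h
  | succ n ih => rw [pow_succ']; exact op_mono (hs := hs) ih

lemma pow_one' (n : ℕ) : (op ν s hs ^ n) 1 = 1 := by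
  induction n with
  | zero => rfl
  | succ n ih => rw [pow_succ', Module.End.mul_apply, ih, op_one]

variable [MeasurableSpace Y] [BorelSpace Y] [SecondCountableTopology Y]

lemma measurable_ker (hs : Continuous (uncurry s)) : Measurable fun y => ν.map (s y) := by
  refine Measure.measurable_of_measurable_coe _ fun B hB => ?_
  simp only [Measure.map_apply (hs.uncurry_left _).measurable hB]
  exact measurable_measure_prodMk_left (hs.measurable hB)

lemma bind_eq (hs : Continuous (uncurry s)) (μ : Measure Y) :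
    μ.bind (fun y => ν.map (s y)) = (μ.prod ν).map (uncurry s) := by
  ext B hB
  rw [Measure.bind_apply hB (measurable_ker hs).aemeasurable, Measure.map_apply hs.measurable hB,
    Measure.prod_apply (hs.measurable hB)]
  refine lintegral_congr fun y => ?_
  rw [Measure.map_apply (hs.uncurry_left _).measurable hB]
  rfl

lemma prob_bind (hs : Continuous (uncurry s)) (μ : Measure Y) [IsProbabilityMeasure μ] :
    IsProbabilityMeasure (μ.bind (fun y => ν.map (s y))) := by
  rw [bind_eq hs]
  exact Measure.isProbabilityMeasure_map hs.measurable.aemeasurable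

lemma prob_iter (hs : Continuous (uncurry s)) (n : ℕ) (μ : Measure Y) [IsProbabilityMeasure μ] :
    IsProbabilityMeasure ((fun m : Measure Y => m.bind (fun y => ν.map (s y)))^[n] μ) := by
  induction n with
  | zero => simpa
  | succ n ih => rw [iterate_succ_apply']; exact prob_bind hs _

lemma integral_bind' (μ : Measure Y) [IsProbabilityMeasure μ] (f : C(Y, ℝ)) :
    ∫ y, f y ∂(μ.bind (fun y => ν.map (s y))) = ∫ y, op ν s hs f y ∂μ := by
  rw [bind_eq hs, integral_map hs.measurable.aemeasurable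
    f.continuous.measurable.aestronglyMeasurable]
  exact integral_prod _ (intg _ (f.continuous.comp hs))

lemma integral_iter (n : ℕ) (μ : Measure Y) [IsProbabilityMeasure μ] (f : C(Y, ℝ)) :
    ∫ y, f y ∂((fun m : Measure Y => m.bind (fun y => ν.map (s y)))^[n] μ) =
      ∫ y, (op ν s hs ^ n) f y ∂μ := by
  induction n generalizing f with
  | zero => rfl
  | succ n ih =>
    have := prob_iter (ν := ν) hs n μ
    rw [iterate_succ_apply', integral_bind' (hs := hs), ih, pow_succ]
    rfl

omit [FirstCountableTopology Y] [SecondCountableTopology Y] in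
lemma osc_bound (μ μ' : Measure Y) [IsProbabilityMeasure μ] [IsProbabilityMeasure μ']
    (g : C(Y, ℝ)) {ε : ℝ} (h : ∀ y y', g y - g y' ≤ ε) : ∫ y, g y ∂μ - ∫ y, g y ∂μ' ≤ ε := by
  have h1 : ∀ y', ∫ y, g y ∂μ - ε ≤ g y' := fun y' => by
    have : ∫ y, g y ∂μ ≤ ∫ _, g y' + ε ∂μ :=
      integral_mono (intg μ g.continuous) (integrable_const _) fun y => by linarith [h y y']
    simp at this; linarith
  have : ∫ _, (∫ y, g y ∂μ - ε) ∂μ' ≤ ∫ y, g y ∂μ' :=
    integral_mono (integrable_const _) (intg μ' g.continuous) h1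
  simp at this; linarith

theorem ergodic_of_osc [TopologicalSpace.MetrizableSpace Y] [Nonempty Y]
    (h : ∀ f : C(Y, ℝ), ∀ ε : ℝ, 0 < ε → ∃ N, ∀ n, N ≤ n → ∀ y y',
      (op ν s hs ^ n) f y - (op ν s hs ^ n) f y' ≤ ε) :
    ∃ π : Measure Y, IsProbabilityMeasure π ∧ π.bind (fun y => ν.map (s y)) = π ∧
      (∀ μ : Measure Y, IsProbabilityMeasure μ → μ.bind (fun y => ν.map (s y)) = μ → μ = π) ∧
      ∀ μ : Measure Y, IsProbabilityMeasure μ → ∀ f : C(Y, ℝ),
        Tendsto (fun n => ∫ y, f y ∂((fun m : Measure Y => m.bind (fun y => ν.map (s y)))^[n] μ))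
          atTop (𝓝 (∫ y, f y ∂π)) := by
  set Φ := fun m : Measure Y => m.bind (fun y => ν.map (s y)) with hΦ
  let y₀ : Y := Classical.arbitrary Y
  let u : ℕ → ProbabilityMeasure Y := fun n => ⟨Φ^[n] (Measure.dirac y₀), prob_iter hs n _⟩
  obtain ⟨π, φ, hφ, hlim⟩ := CompactSpace.tendsto_subseq u
  have close : ∀ f : C(Y, ℝ), ∀ ε : ℝ, 0 < ε → ∃ N, ∀ n, N ≤ n → ∀ μ μ' : Measure Y,
      IsProbabilityMeasure μ → IsProbabilityMeasure μ' →
      |∫ y, f y ∂(Φ^[n] μ) - ∫ y, f y ∂(Φ^[n] μ')| ≤ ε := by
    intro f ε hε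
    obtain ⟨N, hN⟩ := h f ε hε
    refine ⟨N, fun n hn μ μ' _ _ => ?_⟩
    rw [integral_iter (hs := hs), integral_iter (hs := hs), abs_le]
    constructor
    · linarith [osc_bound μ' μ _ (hN n hn)]
    · exact osc_bound μ μ' _ (hN n hn)
  have conv₀ : ∀ f : C(Y, ℝ), Tendsto (fun n => ∫ y, f y ∂(Φ^[n] (Measure.dirac y₀))) atTop
      (𝓝 (∫ y, f y ∂(π : Measure Y))) := by
    intro f
    refine tendsto_nhds_of_cauchySeq_of_subseq ?_ hφ.tendsto_atTop
      (ProbabilityMeasure.tendsto_iff_forall_integral_tendsto.1 hlim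
        (BoundedContinuousFunction.mkOfCompact f))
    refine Metric.cauchySeq_iff'.2 fun ε hε => ?_
    obtain ⟨N, hN⟩ := close f (ε / 2) (by positivity)
    refine ⟨N, fun n hn => ?_⟩
    obtain ⟨m, rfl⟩ := Nat.exists_eq_add_of_le hn
    rw [iterate_add_apply, Real.dist_eq]
    exact (hN N le_rfl _ _ (prob_iter hs m _) inferInstance).trans_lt (by linarith)
  have conv : ∀ μ : Measure Y, IsProbabilityMeasure μ → ∀ f : C(Y, ℝ),
      Tendsto (fun n => ∫ y, f y ∂(Φ^[n] μ)) atTop (𝓝 (∫ y, f y ∂(π : Measure Y))) := by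
    intro μ hμ f
    have : Tendsto (fun n => ∫ y, f y ∂(Φ^[n] μ) - ∫ y, f y ∂(Φ^[n] (Measure.dirac y₀))) atTop
        (𝓝 0) := by
      refine Metric.tendsto_atTop.2 fun ε hε => ?_
      obtain ⟨N, hN⟩ := close f (ε / 2) (by positivity)
      refine ⟨N, fun n hn => ?_⟩
      rw [Real.dist_eq, sub_zero]
      exact (hN n hn _ _ hμ inferInstance).trans_lt (by linarith)
    simpa using this.add (conv₀ f)
  refine ⟨π, inferInstance, ?_, fun μ hμ hinv => ?_, conv⟩
  · have := prob_bind (ν := ν) hs (π : Measure Y)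
    refine ext_of_forall_integral_eq_of_IsFiniteMeasure fun f => ?_
    have h1 := conv₀ (op ν s hs f.toContinuousMap)
    have h2 := (conv₀ f.toContinuousMap).comp (tendsto_add_atTop_nat 1)
    refine Eq.trans (integral_bind' (hs := hs) _ f.toContinuousMap) (tendsto_nhds_unique h1 ?_)
    refine h2.congr fun n => ?_
    have := prob_iter (ν := ν) hs n (Measure.dirac y₀)
    simp only [comp, iterate_succ_apply']
    exact integral_bind' (hs := hs) _ _
  · refine ext_of_forall_integral_eq_of_IsFiniteMeasure fun f => ?_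
    have h1 := conv μ hμ f.toContinuousMap
    simp only [iterate_fixed (f := Φ) hinv] at h1
    exact tendsto_nhds_unique tendsto_const_nhds h1

end Pool.Agent.H57.Feller
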