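import Pool.Agent.H57.FsA

set_option autoImplicit false

/-! A negative partition relation at successors of singular cardinals. -/

namespace Pool.Agent.H57.Fs

open Set Cardinal Order
open Pool.Agent.H82.LadA (Reg)
open Pool.Agent.H57.IdC (un_le un2 pw)

variable {W : Type} [LinearOrder W] [WellFoundedLT W] {κ : Cardinal.{0}}

omit [WellFoundedLT W] in
theorem Bd.union {A B : Set W} {γ : W} (h : Bd A γ) (h' : Bd B γ) : Bd (A ∪ B) γ :=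
  let ⟨η, h1, h2⟩ := h
  let ⟨ζ, h3, h4⟩ := h'
  ⟨max η ζ, max_lt h1 h3, fun a ha l =>
    ha.elim (fun k => lt_max_of_lt_left (h2 a k l)) fun k => lt_max_of_lt_right (h4 a k l)⟩

theorem sel {μ : Cardinal.{0}} (h0 : ℵ₀ ≤ μ) {t η : W} (ht : Cf μ t) (hη : η < t) {s : Set W}
    (hs : #s ≤ μ) {A : W → Set W} (hA : ∀ ξ ∈ s, ¬ Bd (A ξ) t) :
    ∃ v : W → W, InjOn v s ∧ ∀ ξ ∈ s, v ξ ∈ A ξ ∧ η < v ξ := by
  have h1 : ∀ ξ ∈ s, ∀ U : Set W, #U ≤ μ → ∃ v ∈ A ξ, η < v ∧ v ∉ U := fun ξ h U hU => by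
    obtain ⟨ζ, z1, z2⟩ := ht (insert η U)
      (mk_insert_le.trans (add_le_of_le h0 hU (one_le_aleph0.trans h0)))
    have := hA ξ h
    unfold Bd at this
    push Not at this
    obtain ⟨v, v1, v2, v3⟩ := this ζ z1
    exact ⟨v, v1, (z2 η (Or.inl rfl) hη).trans_le v3, fun k => (z2 v (Or.inr k) v2).not_ge v3⟩
  haveI : Nonempty W := ⟨t⟩
  choose! p p1 p2 p3 using h1
  let v : W → W := wellFounded_lt.fix fun ξ ih => p ξ {w | ∃ ζ ∈ s, ∃ h : ζ < ξ, ih ζ h = w}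
  have hv : ∀ ξ, v ξ = p ξ {w | ∃ ζ ∈ s, ∃ _ : ζ < ξ, v ζ = w} := fun ξ =>
    wellFounded_lt.fix_eq _ ξ
  have h2 : ∀ ξ, #{w | ∃ ζ ∈ s, ∃ _ : ζ < ξ, v ζ = w} ≤ μ := fun ξ => (mk_le_mk_of_subset
    (t := v '' s) fun w h => h.imp fun _ h => ⟨h.1, h.2.2⟩).trans (mk_image_le.trans hs)
  have h3 : ∀ ξ ∈ s, ∀ ζ ∈ s, ζ < ξ → v ζ ≠ v ξ := fun ξ h ζ h' l e =>
    p3 ξ h _ (h2 ξ) ⟨ζ, h', l, e.trans (hv ξ)⟩
  exact ⟨v, fun a ha b hb e => by_contra fun n => (lt_or_gt_of_ne n).elim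
    (fun l => h3 b hb a ha l e) fun l => h3 a ha b hb l e.symm,
    fun ξ h => by rw [hv]; exact ⟨p1 ξ h _ (h2 ξ), p2 ξ h _ (h2 ξ)⟩⟩

theorem dec (R : Reg W (succ κ)) {ν : ℕ → Cardinal.{0}} (h0 : ∀ m, ℵ₀ ≤ ν m) (hm : Monotone ν)
    (hs : κ ≤ sum ν) : ∃ D : ℕ → W → Set W, (∀ k α, #(D k α) ≤ ν k) ∧
      ∀ α, ∀ β < α, ∃ k, ∀ m, k ≤ m → β ∈ D m α := by
  choose c hc using fun α : W => enum (X := Σ k, (ν k).out) (S := Iic α) nonempty_Iic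
    ((le_of_lt_succ (R.iic α)).trans (by simpa using hs))
  exact ⟨fun k α => ⋃ i ∈ Iic k, range fun y => c α ⟨i, y⟩, fun k α => un_le (h0 k)
    (mk_le_aleph0.trans (h0 k)) fun i hi => mk_range_le.trans ((mk_out _).le.trans (hm hi)),
    fun α β h => let ⟨⟨k, y⟩, e⟩ := (hc α).ge (show β ∈ Iic α from h.le)
    ⟨k, fun m l => mem_biUnion l ⟨y, e⟩⟩⟩

theorem omega2 (R : Reg W (succ κ)) (hp : 2 ^ κ = succ κ) {ν : ℕ → Cardinal.{0}}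
    (h0 : ∀ m, ℵ₀ ≤ ν m) (h2 : ∀ m, 2 ^ ν m ≤ ν (m + 1)) (hκ : ∀ m, ν m < κ) (hs : κ ≤ sum ν) :
    ∃ E : W → W → Prop, (∀ X : Set W, (∀ η, ∃ x ∈ X, η ≤ x) → ∃ x ∈ X, ∃ y ∈ X, x < y ∧ E x y) ∧
      ∀ (a : ℕ → W) (β α : W), StrictMono a → β < α → (∀ n m, n < m → E (a n) (a m)) →
        (∀ n, E (a n) β) → ¬ ∀ n, E (a n) α := by
  classical
  have hm : Monotone ν := monotone_nat_of_le_succ fun m => (cantor _).le.trans (h2 m)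
  have k0 : ℵ₀ ≤ κ := (h0 0).trans (hκ 0).le
  have : Nonempty W := mk_ne_zero_iff.1 (R.card.trans_ne R.reg.pos.ne')
  obtain ⟨D, d1, d2⟩ := dec R h0 hm hs
  have ht : ∀ m, ∃ t : W, Cf (ν m) t := fun m =>
    let ⟨_, _, h⟩ := club R hp (h0 m) ((h2 m).trans (hκ _).le) (D := D)
      (fun k α => (power_le_power_left two_ne_zero (d1 k α)).trans ((h2 k).trans (hκ _).le))
      fun α β h => (d2 α β h).imp fun k l => l k le_rfl
    (h Set.univ fun η => ⟨η, trivial, le_rfl⟩).imp fun _ h => h.1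
  choose t ht using ht
  obtain ⟨Z, hZ⟩ := enum (X := W) (S := {A : Set W | #A ≤ κ}) ⟨∅, by simp⟩
    ((mk_bounded_set_le W κ).trans (by
      rw [R.card, max_eq_left R.reg.aleph0_le, ← hp, ← power_mul, mul_eq_self k0]))
  choose! nx n1 n2 using fun k (V : Set W) (h : Bd V (t k)) => h
  have wf : WellFounded (Prod.Lex ((· < ·) : W → W → Prop) ((· < ·) : ℕ → ℕ → Prop)) :=
    wellFounded_lt.prod_lex wellFounded_lt
  let r : W × ℕ → W := wf.fix fun p ih =>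
    let S : W → Set W := fun ξ => {v | ∃ x ∈ Z ξ, ∃ h : x < p.1, (∀ i (hi : i < p.2),
      ih (x, i) (.left _ _ h) = ih (p.1, i) (.right _ hi)) ∧ ih (x, p.2) (.left _ _ h) = v}
    nx p.2 ((⋃ ξ ∈ {ξ ∈ D p.2 p.1 | Bd (S ξ) (t p.2)}, S ξ) ∪
      {v | ∃ x ∈ D p.2 p.1, ∃ h : x < p.1, ih (x, p.2) (.left _ _ h) = v})
  let S : W → ℕ → W → Set W := fun α k ξ =>
    {v | ∃ x ∈ Z ξ, ∃ _ : x < α, (∀ i, i < k → r (x, i) = r (α, i)) ∧ r (x, k) = v}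
  let V : W → ℕ → Set W := fun α k => (⋃ ξ ∈ {ξ ∈ D k α | Bd (S α k ξ) (t k)}, S α k ξ) ∪
    {v | ∃ x ∈ D k α, ∃ _ : x < α, r (x, k) = v}
  have hr : ∀ α k, r (α, k) = nx k (V α k) := fun α k => wf.fix_eq _ (α, k)
  have v1 : ∀ α k, Bd (V α k) (t k) := fun α k => ((ht k).un ((mk_le_mk_of_subset
    (sep_subset _ _)).trans (d1 k α)) fun _ h => h.2).union (ht k _ ((mk_le_mk_of_subset
      (t := (fun x => r (x, k)) '' D k α) fun w h => h.imp fun _ h => ⟨h.1, h.2.2⟩).trans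
        (mk_image_le.trans (d1 k α))))
  have r1 : ∀ α k, r (α, k) < t k := fun α k => (hr α k).trans_lt (n1 k _ (v1 α k))
  have r2 : ∀ α k, ∀ v ∈ V α k, v < t k → v < r (α, k) := fun α k v h l =>
    (n2 k _ (v1 α k) v h l).trans_eq (hr α k).symm
  have key : ∀ α k, ∃ N : Set W, (∀ x ∈ N, x < α ∧ (∀ i < k, r (x, i) = r (α, i)) ∧
      r (α, k) < r (x, k)) ∧ InjOn (fun x => r (x, k)) N ∧
      ∀ ξ ∈ D k α, ¬ Bd (S α k ξ) (t k) → ∃ x ∈ N, x ∈ Z ξ := fun α k => by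
    obtain ⟨v, h1, h3⟩ := sel (h0 k) (ht k) (r1 α k) (s := {ξ ∈ D k α | ¬ Bd (S α k ξ) (t k)})
      ((mk_le_mk_of_subset (sep_subset _ _)).trans (d1 k α)) fun _ h => h.2
    choose! x x1 x2 x3 x4 using fun ξ h => (h3 ξ h).1
    refine ⟨x '' {ξ ∈ D k α | ¬ Bd (S α k ξ) (t k)}, ?_, ?_, fun ξ h h' =>
      ⟨x ξ, ⟨ξ, ⟨h, h'⟩, rfl⟩, x1 ξ ⟨h, h'⟩⟩⟩
    · rintro _ ⟨ξ, h, rfl⟩
      exact ⟨x2 ξ h, x3 ξ h, (h3 ξ h).2.trans_eq (x4 ξ h).symm⟩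
    · rintro _ ⟨ξ, h, rfl⟩ _ ⟨ζ, h', rfl⟩ e
      rw [h1 h h' ((x4 ξ h).symm.trans (e.trans (x4 ζ h')))]
  choose N m1 m2 m3 using key
  refine ⟨fun x α => ∃ k, x ∈ N α k, fun X hX => ?_, fun a β α ha hβ e1 e2 e3 => ?_⟩
  · obtain ⟨T, hT⟩ := R.bdd (A := range t) (mk_range_le.trans_lt
      (mk_le_aleph0.trans_lt (k0.trans_lt (lt_succ κ))))
    choose! z z1 z2 using fun k (u : Fin k → Iio T) (h : ∃ x ∈ X, ∀ i, r (x, i.1) = u i) => h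
    obtain ⟨ξ, hξ⟩ := hZ.ge (show X ∩ ⋃ k ∈ Set.univ, range (z k) ∈ _ from
      (mk_le_mk_of_subset inter_subset_right).trans (un_le k0 (mk_le_aleph0.trans k0) fun k _ =>
        mk_range_le.trans (by
          rw [← power_def]
          exact (power_le_power_right (le_of_lt_succ (R.iio T))).trans
            (Cardinal.pow_le k0 (lt_aleph0_of_finite _)))))
    obtain ⟨η, hη⟩ := R.bdd (A := insert ξ (Z ξ)) ((mk_insert_le.trans (add_le_of_le k0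
      (hZ.le ⟨ξ, rfl⟩) (one_le_aleph0.trans k0))).trans_lt (lt_succ κ))
    obtain ⟨α, a1, a2⟩ := hX η
    obtain ⟨k, hk⟩ := d2 α ξ ((hη ξ (Or.inl rfl)).trans_le a2)
    obtain ⟨x, x1, x2⟩ := m3 α k ξ (hk k le_rfl) fun h => by
      let u : Fin (k + 1) → Iio T := fun i => ⟨r (α, i), (r1 α i).trans (hT _ ⟨_, rfl⟩)⟩
      have l : ∃ x ∈ X, ∀ i : Fin (k + 1), r (x, i.1) = u i := ⟨α, a1, fun _ => rfl⟩
      have l1 : z _ u ∈ Z ξ := hξ.ge ⟨z1 _ u l, mem_biUnion (mem_univ _) ⟨u, rfl⟩⟩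
      exact (r2 α k _ (Or.inl (mem_biUnion (x := ξ) ⟨hk k le_rfl, h⟩ ⟨_, l1,
        (hη _ (Or.inr l1)).trans_le a2, fun i hi => z2 _ u l ⟨i, hi.trans (lt_add_one k)⟩,
          z2 _ u l (Fin.last k)⟩)) (r1 α k)).false
    exact ⟨x, (hξ.le x2).1, α, a1, (m1 α k x x1).1, k, x1⟩
  · have fin : ∀ γ j, {n | a n ∈ N γ j}.Finite := fun γ j => by_contra fun h => by
      obtain ⟨_, ⟨n, h1, rfl⟩, h3⟩ := wellFounded_lt.has_min
        ((fun n => r (a n, j)) '' {n | a n ∈ N γ j}) ((Set.Infinite.nonempty h).image _)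
      obtain ⟨m, h4, h5⟩ := Set.Infinite.exists_gt h n
      obtain ⟨i, h6⟩ := e1 n m h5
      obtain ⟨-, l1, l2⟩ := m1 _ _ _ h6
      rcases lt_trichotomy i j with l | rfl | l
      · exact l2.ne (((m1 _ _ _ h4).2.1 i l).trans ((m1 _ _ _ h1).2.1 i l).symm)
      · exact h3 _ ⟨m, h4, rfl⟩ l2
      · exact (ha h5).ne (m2 γ j h1 h4 (l1 j l))
    obtain ⟨k, hk⟩ := d2 α β hβ
    refine infinite_univ (((finite_Iic k).biUnion fun j _ => (fin α j).union (fin β j)).subset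
      fun n _ => ?_)
    obtain ⟨i, h1⟩ := e2 n
    obtain ⟨j, h3⟩ := e3 n
    by_cases l : i ≤ k
    · exact mem_biUnion l (Or.inr h1)
    refine mem_biUnion (show j ≤ k from not_lt.1 fun l' => ?_) (Or.inl h3)
    exact (r2 α k _ (Or.inr ⟨β, hk k le_rfl, hβ, rfl⟩) (r1 β k)).ne
      (((m1 _ _ _ h1).2.1 k (not_le.1 l)).symm.trans ((m1 _ _ _ h3).2.1 k l'))

end Pool.Agent.H57.Fs
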