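import Pool.Agent.H57.FsA

set_option autoImplicit false

/-! Almost disjoint set mappings at successors of singular cardinals of any cofinality. -/

namespace Pool.Agent.H57.Fs

open Set Cardinal Order
open Pool.Agent.H82.LadA (Reg lim card_lim exmin)
open Pool.Agent.H57.IdC (un_le un2 pw)

variable {W I : Type} [LinearOrder W] [WellFoundedLT W] {κ : Cardinal.{0}}


theorem club2 [Nonempty I] {μ : Cardinal.{0}} (R : Reg W (succ κ)) (hp : 2 ^ κ = succ κ) (h0 : ℵ₀ ≤ μ)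
    (hμ : 2 ^ μ ≤ κ) (hI : #I ≤ μ) {D : I → W → Set W} (d1 : ∀ k α, 2 ^ #(D k α) ≤ κ)
    (d2 : ∀ α, ∀ β < α, ∃ k, β ∈ D k α) : ∃ B : W → Set W, (∀ γ, #(B γ) ≤ 2 ^ μ) ∧
      ∀ X : Set W, (∀ η, ∃ x ∈ X, η ≤ x) → ∃ γ, Cf μ γ ∧ B γ ⊆ X ∧ ¬ Bd (B γ) γ := by
  classical
  have k0 : ℵ₀ ≤ κ := (pw h0).trans hμ
  have k1 : μ ≤ κ := (cantor μ).le.trans hμ
  have : Nonempty W := mk_ne_zero_iff.1 (R.card.trans_ne R.reg.pos.ne')
  obtain ⟨F, hF⟩ := enum (X := W) (S := (Set.univ : Set (κ.out → W))) univ_nonempty (by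
    rw [mk_univ, ← power_def, R.card, mk_out, ← hp, ← power_mul, mul_eq_self k0])
  choose b hb using fun γ => enum (X := κ.out)
    (S := {b ∈ ⋃ k ∈ (Set.univ : Set I), 𝒫 (D k γ) | #b ≤ 2 ^ μ}) ⟨∅, by simp⟩
    ((mk_le_mk_of_subset (sep_subset _ _)).trans ((un_le k0 (mk_univ.trans_le (hI.trans k1))
      fun k _ => (mk_powerset _).trans_le (d1 k γ)).trans (mk_out κ).ge))
  by_contra! hn
  choose X x1 x2 using fun j => hn (fun γ => (F · j) '' b γ j) fun γ =>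
    mk_image_le.trans ((hb γ).le (mem_range_self j)).2
  choose t t1 t2 using fun η j => x1 j η
  choose ι hι using fun η => hF.ge (mem_univ (t η))
  choose! u hu using fun (A : Set W) (h : #A ≤ κ) => R.bdd (h.trans_lt (lt_succ κ))
  obtain ⟨N, -, n1, n2⟩ := IdC.closure h0 (fun A => {u (A ∪ ⋃ η ∈ A, range (t η)),
    ι (Classical.epsilon (· ∈ A))}) (fun A => (Set.toFinite _).lt_aleph0.le.trans (pw h0))
    (N0 := ∅) (by simp)
  obtain ⟨γ, g1, g2⟩ := exmin (R.bdd ((n1.trans hμ).trans_lt (lt_succ κ)))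
  push Not at g2
  have n3 : ∀ A ⊆ N, #A ≤ μ → ∃ z < γ, ∀ a ∈ A, a < z ∧ ∀ j, t a j < z := fun A h h' =>
    have k := hu (A ∪ ⋃ η ∈ A, range (t η)) (un2 k0 (h'.trans k1)
      (un_le k0 (h'.trans k1) fun _ _ => mk_range_le.trans (mk_out κ).le))
    ⟨_, g1 _ (n2 A h h' (Or.inl rfl)), fun a ha =>
      ⟨k a (Or.inl ha), fun j => k _ (Or.inr (mem_biUnion ha ⟨j, rfl⟩))⟩⟩
  have k2 : ∀ η : W, #({η} : Set W) ≤ μ := fun η => (Set.toFinite _).lt_aleph0.le.trans h0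
  have n4 : ∀ η ∈ N, ι η < γ := fun η h => by
    have := n2 {η} (singleton_subset_iff.2 h) (k2 η) (Or.inr rfl)
    rw [show Classical.epsilon (· ∈ ({η} : Set W)) = η from
      Classical.epsilon_spec (p := (· ∈ ({η} : Set W))) ⟨η, rfl⟩] at this
    exact g1 _ this
  have cf : Cf μ γ := fun A hA => by
    choose! n m1 m2 using g2
    obtain ⟨z, z1, z2⟩ := n3 (n '' (A ∩ Iio γ)) (image_subset_iff.2 fun a ha => m1 a ha.2)
      (mk_image_le.trans ((mk_le_mk_of_subset inter_subset_left).trans hA))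
    exact ⟨z, z1, fun a ha l => (m2 a l).trans_lt (z2 _ ⟨a, ⟨ha, l⟩, rfl⟩).1⟩
  obtain ⟨k, hk⟩ := not_forall.1 fun h : ∀ k, Bd {η ∈ N | ι η ∈ D k γ} γ => by
    obtain ⟨ζ, z1, z2⟩ := cf.un (s := Set.univ) (mk_univ.trans_le hI) fun k _ => h k
    obtain ⟨a, a1, a2⟩ := g2 ζ z1
    obtain ⟨k, hk⟩ := d2 γ _ (n4 a a1)
    exact a2.not_gt (z2 a (mem_biUnion (mem_univ k) ⟨a1, hk⟩) (g1 a a1))
  obtain ⟨j, hj⟩ := (hb γ).ge (show ι '' {η ∈ N | ι η ∈ D k γ} ∈ _ from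
    ⟨mem_biUnion (mem_univ k) (image_subset_iff.2 fun _ h => h.2),
      mk_image_le.trans ((mk_le_mk_of_subset (sep_subset _ _)).trans n1)⟩)
  obtain ⟨ζ, z1, z2⟩ := x2 j γ cf (by
    rw [hj]
    rintro _ ⟨_, ⟨η, -, rfl⟩, rfl⟩
    exact mem_of_eq_of_mem (congrFun (hι η) j) (t1 η j))
  refine hk ⟨ζ, z1, fun η hη _ => (t2 η j).trans_lt (z2 _ ⟨ι η, hj ▸ ⟨η, hη, rfl⟩,
    congrFun (hι η) j⟩ ?_)⟩
  obtain ⟨z, l1, l2⟩ := n3 {η} (singleton_subset_iff.2 hη.1) (k2 η)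
  exact ((l2 η rfl).2 j).trans l1

theorem step2 [Nonempty I] {ν : I → Cardinal.{0}} (h0 : ∀ m, ℵ₀ ≤ ν m) (hI : ∀ m, #I ≤ ν m)
    (hκ : ∀ m, ν m < κ) {D B : I → W → Set W} (d1 : ∀ k α, #(D k α) ≤ ν k)
    (d2 : ∀ α, ∀ β < α, ∃ k, ∀ m, ν k ≤ ν m → β ∈ D m α)
    (b1 : ∀ n m γ, ν n < ν m → #(B n γ) ≤ ν m) (G : W → I → W) (α : W) (g : W → Set W)
    (hg : ∀ β m γ, Cf (ν m) γ → Bd (g β ∩ B m γ) γ) :
    ∃ s, (∀ m γ, Cf (ν m) γ → Bd (s ∩ B m γ) γ) ∧ s ⊆ Iio α ∧ #s ≤ κ ∧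
      (∀ β < α, #(s ∩ g β : Set W) < κ) ∧ ∀ ξ < α, (∀ m, G ξ m ≤ α ∧ Cf (ν m) (G ξ m) ∧
        ¬ Bd (B m (G ξ m)) (G ξ m)) → ∃ m, (s ∩ B m (G ξ m)).Nonempty := by
  have hI' : ∀ (s : Set I) m, #s ≤ ν m := fun s m => (mk_set_le s).trans (hI m)
  obtain ⟨o⟩ := ‹Nonempty I›
  let Q : I → Set W := fun m => {γ ∈ (G · m) '' D m α | γ ≤ α ∧ Cf (ν m) γ ∧ ¬ Bd (B m γ) γ}
  have q1 : ∀ m, #(Q m) ≤ ν m := fun m =>
    (mk_le_mk_of_subset (sep_subset _ _)).trans (mk_image_le.trans (d1 m α))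
  have key : ∀ m, ∀ γ ∈ Q m, ∃ x ∈ B m γ, x < γ ∧ (∀ β ∈ D m α, x ∉ g β) ∧
      (∀ n, ν n < ν m → ∀ δ ∈ lim (Q m), x ∉ B n δ) ∧ ∀ r ∈ Q m, r < γ → r < x := fun m γ h => by
    obtain ⟨η, e1, e2⟩ := h.2.2.1.un (d1 m α) fun β _ => hg β m γ h.2.2.1
    obtain ⟨ζ, e3, e4⟩ := h.2.2.1 (Q m ∪ ⋃ n ∈ {n | ν n < ν m}, ⋃ δ ∈ lim (Q m), B n δ)
      (un2 (h0 m) (q1 m) (un_le (h0 m) (hI' _ m) fun n hn => un_le (h0 m) ((card_lim _).trans
        (add_le_of_le (h0 m) (q1 m) (one_le_aleph0.trans (h0 m)))) fun δ _ =>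
          b1 n m δ hn))
    have := h.2.2.2
    unfold Bd at this
    push Not at this
    obtain ⟨x, x1, x2, x3⟩ := this _ (max_lt e1 e3)
    exact ⟨x, x1, x2, fun β hβ k => (e2 x (mem_biUnion hβ ⟨k, x1⟩) x2).not_ge (le_of_max_le_left x3),
      fun n hn δ hδ k => (e4 x (Or.inr (mem_biUnion hn (mem_biUnion hδ k))) x2).not_ge
        (le_of_max_le_right x3), fun r hr l => (e4 r (Or.inl hr) l).trans_le (le_of_max_le_right x3)⟩
  haveI : Nonempty W := ⟨α⟩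
  choose! x x1 x2 x3 x4 x5 using key
  have q2 : ∀ m, #(x m '' Q m) ≤ ν m := fun m => mk_image_le.trans (q1 m)
  refine ⟨⋃ m ∈ Set.univ, x m '' Q m, fun n γ hγ => ?_, iUnion₂_subset fun m _ =>
    image_subset_iff.2 fun γ h => (x2 m γ h).trans_le h.2.1, un_le ((h0 o).trans (hκ o).le)
      ((hI' _ o).trans (hκ o).le) fun m _ => (q2 m).trans (hκ m).le,
    fun β hβ => ?_, fun ξ hξ h => ?_⟩
  · rw [iUnion₂_inter]
    refine hγ.un (hI' _ n) fun m _ => ?_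
    rcases le_or_gt (ν m) (ν n) with l | l
    · exact hγ _ ((mk_le_mk_of_subset inter_subset_left).trans ((q2 m).trans l))
    by_contra hn
    have hn' := hn
    unfold Bd at hn'
    push Not at hn'
    have hl : γ ∈ lim (Q m) := fun η hη => by
      obtain ⟨_, ⟨⟨r, r1, rfl⟩, -⟩, r2, r3⟩ := hn' η hη
      obtain ⟨ζ, z1, z2⟩ := hγ {x m r} ((Set.toFinite _).lt_aleph0.le.trans (h0 n))
      obtain ⟨_, ⟨⟨r', r4, rfl⟩, -⟩, r5, r6⟩ := hn' ζ z1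
      have r7 := (z2 _ rfl r2).trans_le r6
      refine ⟨r, r1, r3.trans_lt (x2 m r r1), ?_⟩
      rcases lt_trichotomy r r' with k | rfl | k
      · exact (x5 m r' r4 r r1 k).trans r5
      · exact r7.false.elim
      · exact (((x5 m r r1 r' r4 k).trans r7).trans (x2 m r' r4)).false.elim
    refine hn ((hγ ∅ (by simp)).mono ?_)
    rintro _ ⟨⟨r, r1, rfl⟩, r2⟩
    exact x4 m r r1 n l γ hl r2
  · obtain ⟨k, hk⟩ := d2 α β hβ
    refine ((mk_le_mk_of_subset (t := ⋃ m ∈ {m | ν m < ν k}, x m '' Q m) fun y hy => ?_).trans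
      (un_le (h0 k) (hI' _ k) fun m h => (q2 m).trans (le_of_lt h))).trans_lt
      (hκ k)
    obtain ⟨m, -, r, r1, rfl⟩ := mem_iUnion₂.1 hy.1
    exact mem_biUnion (not_le.1 fun l => x3 m r r1 β (hk m l) hy.2) ⟨r, r1, rfl⟩
  · obtain ⟨k, hk⟩ := d2 α ξ hξ
    have : G ξ k ∈ Q k := ⟨⟨ξ, hk k le_rfl, rfl⟩, h k⟩
    exact ⟨k, _, mem_biUnion (mem_univ k) ⟨_, this, rfl⟩, x1 k _ this⟩

theorem main2 [Nonempty I] (R : Reg W (succ κ)) (gch : ∀ c : Cardinal.{0}, ℵ₀ ≤ c → 2 ^ c = succ c)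
    {ν : I → Cardinal.{0}} (h0 : ∀ m, ℵ₀ ≤ ν m) (hI : ∀ m, #I ≤ ν m) (hκ : ∀ m, ν m < κ)
    (hs : κ ≤ sum ν) :
    ∃ f : W → Set W, (∀ a, f a ⊆ Iio a) ∧ (∀ a, #(f a) ≤ κ) ∧
      (∀ a b, a ≠ b → #(f a ∩ f b : Set W) < κ) ∧
      ∀ X Y : Set W, κ < #X → κ < #Y → ∃ x ∈ X, ∃ a ∈ Y, x ∈ f a := by
  classical
  obtain ⟨o⟩ := ‹Nonempty I›
  have k0 : ℵ₀ ≤ κ := (h0 o).trans (hκ o).le
  have hp := gch κ k0
  have h2 : ∀ m c, ν m < c → 2 ^ ν m ≤ c := fun m c h => (gch _ (h0 m)).trans_le (succ_le_of_lt h)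
  have : Nonempty W := mk_ne_zero_iff.1 (R.card.trans_ne R.reg.pos.ne')
  choose c hc using fun α : W => enum (X := Σ k, (ν k).out) (S := Iic α) nonempty_Iic
    ((le_of_lt_succ (R.iic α)).trans (by simpa using hs))
  let D : I → W → Set W := fun k α => ⋃ i ∈ {i | ν i ≤ ν k}, range fun y => c α ⟨i, y⟩
  have d1 : ∀ k α, #(D k α) ≤ ν k := fun k α => un_le (h0 k) ((mk_set_le _).trans (hI k))
    fun i hi => mk_range_le.trans ((mk_out _).le.trans hi)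
  have d2 : ∀ α, ∀ β < α, ∃ k, ∀ m, ν k ≤ ν m → β ∈ D m α := fun α β h =>
    let ⟨⟨k, y⟩, e⟩ := (hc α).ge (show β ∈ Iic α from h.le)
    ⟨k, fun m l => mem_biUnion l ⟨y, e⟩⟩
  choose B b1 b2 using fun m => club2 R hp (h0 m) (h2 m _ (hκ m)) (hI m) (D := D)
    (fun k α => (power_le_power_left two_ne_zero (d1 k α)).trans (h2 k _ (hκ k)))
    fun α β h => (d2 α β h).imp fun k l => l k le_rfl
  obtain ⟨G, hG⟩ := enum (X := W) (S := (Set.univ : Set (I → W))) univ_nonempty (by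
    rw [mk_univ, ← power_def, R.card, ← hp, ← power_mul]
    exact power_le_power_left two_ne_zero
      ((mul_le_mul_right ((hI o).trans (hκ o).le) κ).trans (mul_eq_self k0).le))
  choose! st s1 s2 s3 s4 s5 using step2 h0 hI hκ d1 d2 (fun n m γ h => (b1 n γ).trans (h2 n _ h)) G
  let f : W → Set W := wellFounded_lt.fix fun a ih => st a fun b => if h : b < a then ih b h else ∅
  have hf : ∀ a, f a = st a fun b => if b < a then f b else ∅ := fun a => wellFounded_lt.fix_eq _ a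
  have f1 : ∀ a b m γ, Cf (ν m) γ → Bd ((if b < a then f b else ∅) ∩ B m γ) γ := fun a => by
    induction a using WellFoundedLT.induction with
    | ind a ih =>
    intro b m γ h
    split_ifs with l
    · exact hf b ▸ s1 b _ (ih b l) m γ h
    · simpa using h ∅ (by simp)
  have f2 : ∀ a, ∀ b < a, #(f a ∩ f b : Set W) < κ := fun a b h => by
    simpa only [← hf, if_pos h] using s4 a _ (f1 a) b h
  have f3 : ∀ a, f a ⊆ Iio a := fun a => hf a ▸ s2 a _ (f1 a)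
  refine ⟨f, f3, fun a => hf a ▸ s3 a _ (f1 a), fun a b h => (lt_or_gt_of_ne h).elim
    (fun l => inter_comm (f b) _ ▸ f2 b a l) (f2 a b), fun X Y hX hY => ?_⟩
  have y1 : ∀ Y : Set W, κ < #Y → ∀ η, ∃ x ∈ Y, η ≤ x := fun Y hY η => by_contra fun h =>
    hY.not_ge ((mk_le_mk_of_subset fun x hx => not_le.1 fun l => h ⟨x, hx, l⟩).trans
      (le_of_lt_succ (R.iio η)))
  choose γ g1 g2 g3 using fun m => b2 m X (y1 X hX)
  obtain ⟨ξ, rfl⟩ := hG.ge (mem_univ γ)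
  obtain ⟨η, hη⟩ := R.bdd (A := insert ξ (range (G ξ))) ((mk_insert_le.trans (add_le_of_le k0
    (mk_range_le.trans ((hI o).trans (hκ o).le)) (one_le_aleph0.trans k0))).trans_lt (lt_succ κ))
  obtain ⟨a, a1, a2⟩ := y1 Y hY η
  obtain ⟨m, x, x1, x2⟩ := s5 a _ (f1 a) ξ ((hη ξ (Or.inl rfl)).trans_le a2) fun m =>
    ⟨(hη _ (Or.inr ⟨m, rfl⟩)).le.trans a2, g1 m, g3 m⟩
  exact ⟨x, g2 m x2, a, a1, hf a ▸ x1⟩

theorem levels {l : Cardinal.{0}} (h : l.IsSingular) : ∃ (I : Type) (_ : Nonempty I)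
    (ν : I → Cardinal.{0}), (∀ m, ℵ₀ ≤ ν m) ∧ (∀ m, #I ≤ ν m) ∧ (∀ m, ν m < l) ∧ l ≤ sum ν := by
  obtain ⟨s, s1, s2⟩ := Order.exists_cof_eq l.ord.ToType
  have s3 : #s < l := s2.trans_lt ((Ordinal.cof_toType _).trans_lt h.cof_ord_lt)
  have hu : ℵ₀ < l := h.aleph0_le.lt_of_ne fun e => h.not_isRegular (e ▸ isRegular_aleph0)
  have : Nonempty l.ord.ToType := mk_ne_zero_iff.1 ((mk_ord_toType l).trans_ne h.pos.ne')
  refine ⟨s, s1.nonempty.to_subtype, fun i => max (max ℵ₀ #s) #(Iic i.1),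
    fun _ => le_max_of_le_left (le_max_left _ _), fun _ => le_max_of_le_left (le_max_right _ _),
    fun i => max_lt (max_lt hu s3) ?_, ?_⟩
  · rw [← Iio_insert]
    exact mk_insert_le.trans_lt (add_lt_of_lt hu.le (by simpa using mk_Iio_lt i.1)
      (one_lt_aleph0.trans hu))
  · refine ((mk_ord_toType l).symm.trans mk_univ.symm).le.trans ((mk_le_mk_of_subset
      (t := ⋃ i : s, Iic i.1) fun x _ => ?_).trans (mk_iUnion_le_sum_mk.trans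
        (sum_le_sum _ _ fun _ => le_max_right _ _)))
    obtain ⟨y, y1, y2⟩ := s1 x
    exact mem_iUnion.2 ⟨⟨y, y1⟩, y2⟩

end Pool.Agent.H57.Fs
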