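import Pool.Agent.H57.FsB

set_option autoImplicit false

/-! A graph on the successor of a singular cardinal without uncountable cliques. -/

namespace Pool.Agent.H57.Fs

open Set Cardinal Order
open Pool.Agent.H82.LadA (Reg lim card_lim exmin)
open Pool.Agent.H57.IdC (un_le un2 pw)

variable {W : Type} [LinearOrder W] [WellFoundedLT W] {κ : Cardinal.{0}}

omit [WellFoundedLT W] in
theorem blk {μ ν : Cardinal.{0}} (h0 : ℵ₀ ≤ μ) (hν : succ μ ≤ ν) {γ : W} (h : Cf ν γ) {B : Set W}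
    (hB : ¬ Bd B γ) {g : W → Set W} (hg : ∀ y, #(g y) ≤ μ) : ∃ P : Set W, #P ≤ μ ∧
      ∀ U : Set W, #U ≤ μ → Disjoint U P → ¬ Bd {y ∈ B | Disjoint (g y) U} γ := by
  obtain ⟨F, ⟨m1, m2⟩, m3⟩ := zorn_subset {F : Set (Set W) | (∀ U ∈ F, #U ≤ μ ∧
      Bd {y ∈ B | Disjoint (g y) U} γ) ∧ F.Pairwise Disjoint} fun C h hC =>
    ⟨⋃₀ C, ⟨fun U ⟨t, ht, l⟩ => (h ht).1 U l, hC.pairwise_sUnion.2 fun t ht => (h ht).2⟩,
      fun _ => subset_sUnion_of_mem⟩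
  refine ⟨⋃ U ∈ F, U, un_le h0 (le_of_lt_succ (not_le.1 fun l => ?_)) fun U hU => (m1 U hU).1,
    fun U h1 h2 h3 => hB (h3.mono fun y hy => ⟨hy, ?_⟩)⟩
  · obtain ⟨F', f1, f2⟩ := le_mk_iff_exists_subset.1 l
    obtain ⟨η, e1, e2⟩ := h.un (f2.le.trans hν) fun U hU => (m1 U (f1 hU)).2
    unfold Bd at hB
    push Not at hB
    obtain ⟨y, y1, y2, y3⟩ := hB η e1
    choose c c1 c2 using fun U : F' => not_disjoint_iff.1 fun k =>
      (e2 y (mem_biUnion U.2 ⟨y1, k⟩) y2).not_ge y3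
    refine (lt_succ μ).not_ge (f2.ge.trans ((mk_le_of_injective
      (f := fun U => (⟨c U, c1 U⟩ : g y)) fun U V e => by_contra fun n => ?_).trans (hg y)))
    exact disjoint_left.1 (m2 (f1 U.2) (f1 V.2) fun k => n (Subtype.ext k)) (c2 U)
      (mem_of_eq_of_mem (congrArg Subtype.val e) (c2 V))
  · have := m3 (y := insert U F) ⟨forall_mem_insert.2 ⟨⟨h1, h3⟩, m1⟩, m2.insert fun V hV _ =>
      have k := h2.mono_right (subset_biUnion_of_mem (u := fun U => U) hV)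
      ⟨k, k.symm⟩⟩ (subset_insert _ _) (mem_insert _ _)
    exact disjoint_left.2 fun a _ ha => disjoint_left.1 h2 ha (mem_biUnion this ha)

theorem tri {N : W → ℕ → Set W} (h : ∀ a m, ∀ x ∈ N a m, ∀ y ∈ N a m, x < y → x ∉ N y m)
    (S : Finset ℕ) : ∀ H : Set W, (∀ x ∈ H, ∀ y ∈ H, x < y → ∃ m ∈ S, x ∈ N y m) → H.Finite := by
  induction S using Finset.strongInduction with
  | H S ih =>
  intro H hH
  rcases H.eq_empty_or_nonempty with rfl | hn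
  · exact finite_empty
  obtain ⟨x, x1, x2⟩ := wellFounded_lt.has_min H hn
  refine ((S.finite_toSet.biUnion (t := fun m => {y ∈ H | x < y ∧ x ∈ N y m}) fun m hm =>
    ih _ (Finset.erase_ssubset hm) _ fun y hy z hz l => ?_).insert x).subset fun y hy => ?_
  · obtain ⟨i, h1, h2⟩ := hH y hy.1 z hz.1 l
    exact ⟨i, Finset.mem_erase.2 ⟨fun e => h z m x hz.2.2 y (e ▸ h2) hy.2.1 hy.2.2, h1⟩, h2⟩
  · rcases (not_lt.1 (x2 y hy)).eq_or_lt with rfl | l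
    · exact Or.inl rfl
    · obtain ⟨m, h1, h2⟩ := hH x x1 y hy l
      exact Or.inr (mem_biUnion h1 ⟨hy, l, h2⟩)

theorem step3 {μ ν : ℕ → Cardinal.{0}} (h0 : ∀ m, ℵ₀ ≤ μ m) (hm : Monotone μ)
    (hν : ∀ m, succ (μ m) ≤ ν m) {D B : ℕ → W → Set W} (d1 : ∀ k α, #(D k α) ≤ μ k)
    (d2 : ∀ α, ∀ β < α, ∃ k, ∀ m, k ≤ m → β ∈ D m α) (b1 : ∀ m γ, #(B m γ) ≤ μ (m + 1))
    (G : W → ℕ → W) (α : W) (g : W → ℕ → Set W)
    (hg : ∀ β, (∀ m γ, Cf (ν m) γ → Bd ((⋃ i, g β i) ∩ B m γ) γ) ∧ ∀ m, #(g β m) ≤ μ m) :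
    ∃ s : ℕ → Set W, ((∀ m γ, Cf (ν m) γ → Bd ((⋃ i, s i) ∩ B m γ) γ) ∧ ∀ m, #(s m) ≤ μ m) ∧
      (∀ m, s m ⊆ Iio α) ∧ (∀ β < α, ∃ k, ∀ m, k ≤ m → ∀ x ∈ s m, ∀ i, x ∉ g β i) ∧
      (∀ m, ∀ x ∈ s m, ∀ y ∈ s m, x < y → x ∉ g y m) ∧
      ∀ ξ < α, (∀ m, G ξ m ≤ α ∧ Cf (ν m) (G ξ m) ∧
        ¬ Bd (B m (G ξ m)) (G ξ m)) → ∃ m, (s m ∩ B m (G ξ m)).Nonempty := by
  have h1 : ∀ m, μ m ≤ ν m := fun m => (le_succ _).trans (hν m)
  have h2 : ∀ m, ℵ₀ ≤ ν m := fun m => (h0 m).trans (h1 m)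
  let Q : ℕ → Set W := fun m => {γ ∈ (G · m) '' D m α | γ ≤ α ∧ Cf (ν m) γ ∧ ¬ Bd (B m γ) γ}
  have q1 : ∀ m, #(Q m) ≤ μ m := fun m =>
    (mk_le_mk_of_subset (sep_subset _ _)).trans (mk_image_le.trans (d1 m α))
  haveI : Nonempty W := ⟨α⟩
  choose! P p1 p2 using fun m γ (h : γ ∈ Q m) => blk (h0 m) (hν m) h.2.2.1 h.2.2.2
    (g := fun y => g y m) fun y => (hg y).2 m
  have key0 : ∀ m, ∀ γ ∈ Q m, ∀ U : Set W, #U ≤ μ m → Disjoint U (⋃ r ∈ Q m, P m r) →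
      ∃ x, (x ∈ B m γ ∧ x < γ ∧ (∀ β ∈ D m α, x ∉ ⋃ i, g β i) ∧
      (∀ n < m, ∀ δ ∈ lim (Q m), x ∉ B n δ) ∧ ∀ r ∈ Q m, r < γ → r < x) ∧
      (x ∉ ⋃ r ∈ Q m, P m r) ∧ Disjoint (g x m) U := fun m γ h U u1 u2 => by
    obtain ⟨η, e1, e2⟩ := h.2.2.1.un ((d1 m α).trans (h1 m)) fun β _ => (hg β).1 m γ h.2.2.1
    obtain ⟨ζ, e3, e4⟩ := h.2.2.1 ((Q m ∪ ⋃ n ∈ Iio m, ⋃ δ ∈ lim (Q m), B n δ) ∪
      ⋃ r ∈ Q m, P m r) ((un2 (h0 m) (un2 (h0 m) (q1 m)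
      (un_le (h0 m) (mk_le_aleph0.trans (h0 m)) fun n hn => un_le (h0 m) ((card_lim _).trans
        (add_le_of_le (h0 m) (q1 m) (one_le_aleph0.trans (h0 m)))) fun δ _ =>
          (b1 n δ).trans (hm hn))) (un_le (h0 m) (q1 m) (p1 m))).trans (h1 m))
    have := p2 m γ h U u1 (u2.mono_right (subset_biUnion_of_mem (u := P m) h))
    unfold Bd at this
    push Not at this
    obtain ⟨x, ⟨x1, x0⟩, x2, x3⟩ := this _ (max_lt e1 e3)
    have x4 := fun k => (e4 x k x2).not_ge (le_of_max_le_right x3)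
    exact ⟨x, ⟨x1, x2, fun β hβ k => (e2 x (mem_biUnion hβ ⟨k, x1⟩) x2).not_ge
      (le_of_max_le_left x3), fun n hn δ hδ k => x4 (Or.inl (Or.inr (mem_biUnion hn
        (mem_biUnion hδ k)))), fun r hr l => (e4 r (Or.inl (Or.inl hr)) l).trans_le
          (le_of_max_le_right x3)⟩, fun k => x4 (Or.inr k), x0⟩
  choose! p k1 k2 k3 using key0
  let x : ℕ → W → W := fun m => wellFounded_lt.fix fun γ ih =>
    p m γ {w | ∃ r ∈ Q m, ∃ h : r < γ, ih r h = w}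
  have hx : ∀ m γ, x m γ = p m γ {w | ∃ r ∈ Q m, ∃ _ : r < γ, x m r = w} := fun m γ =>
    wellFounded_lt.fix_eq _ γ
  have u1 : ∀ m γ, #{w | ∃ r ∈ Q m, ∃ _ : r < γ, x m r = w} ≤ μ m := fun m γ =>
    (mk_le_mk_of_subset (t := x m '' Q m) fun w h => h.imp fun _ h => ⟨h.1, h.2.2⟩).trans
      (mk_image_le.trans (q1 m))
  have u2 : ∀ m γ, Disjoint {w | ∃ r ∈ Q m, ∃ _ : r < γ, x m r = w} (⋃ r ∈ Q m, P m r) :=
    fun m γ => by
      induction γ using WellFoundedLT.induction with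
      | ind γ ih =>
      refine disjoint_left.2 ?_
      rintro _ ⟨r, r1, r2, rfl⟩
      rw [hx]
      exact k2 m r r1 _ (u1 m r) (ih r r2)
  have key := fun m γ h => hx m γ ▸ k1 m γ h _ (u1 m γ) (u2 m γ)
  have x1 := fun m γ h => (key m γ h).1
  have x2 := fun m γ h => (key m γ h).2.1
  have x4 := fun m γ h => (key m γ h).2.2.2.1
  have x5 := fun m γ h => (key m γ h).2.2.2.2
  have q2 : ∀ m, #(x m '' Q m) ≤ μ m := fun m => mk_image_le.trans (q1 m)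
  refine ⟨fun m => x m '' Q m, ⟨fun n γ hγ => ?_, q2⟩, fun m =>
    image_subset_iff.2 fun γ h => (x2 m γ h).trans_le h.2.1, fun β hβ => ?_, ?_, fun ξ hξ h => ?_⟩
  · rw [← biUnion_univ, iUnion₂_inter]
    refine hγ.un (mk_le_aleph0.trans (h2 n)) fun m _ => ?_
    rcases le_or_gt m n with l | l
    · exact hγ _ ((mk_le_mk_of_subset inter_subset_left).trans ((q2 m).trans ((hm l).trans (h1 n))))
    by_contra hn
    have hn' := hn
    unfold Bd at hn'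
    push Not at hn'
    have hl : γ ∈ lim (Q m) := fun η hη => by
      obtain ⟨_, ⟨⟨r, r1, rfl⟩, -⟩, r2, r3⟩ := hn' η hη
      obtain ⟨ζ, z1, z2⟩ := hγ {x m r} ((Set.toFinite _).lt_aleph0.le.trans (h2 n))
      obtain ⟨_, ⟨⟨r', r4, rfl⟩, -⟩, r5, r6⟩ := hn' ζ z1
      have r7 := (z2 _ rfl r2).trans_le r6
      refine ⟨r, r1, r3.trans_lt (x2 m r r1), ?_⟩
      rcases lt_trichotomy r r' with k | rfl | k
      · exact (x5 m r' r4 r r1 k).trans r5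
      · exact r7.false.elim
      · exact (((x5 m r r1 r' r4 k).trans r7).trans (x2 m r' r4)).false.elim
    refine hn ((hγ ∅ (by simp)).mono ?_)
    rintro _ ⟨⟨r, r1, rfl⟩, r2⟩
    exact x4 m r r1 n l γ hl r2
  · obtain ⟨k, hk⟩ := d2 α β hβ
    refine ⟨k, fun m l => ?_⟩
    rintro _ ⟨r, r1, rfl⟩ i e
    exact (key m r r1).2.2.1 β (hk m l) (mem_iUnion.2 ⟨i, e⟩)
  · rintro m _ ⟨r, r1, rfl⟩ _ ⟨r', r2, rfl⟩ l e
    rcases lt_trichotomy r r' with k | rfl | k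
    · exact disjoint_left.1 (k3 m r' r2 _ (u1 m r') (u2 m r')) (hx m r' ▸ e) ⟨r, r1, k, rfl⟩
    · exact l.false
    · exact (((x5 m r r1 r' r2 k).trans l).trans (x2 m r' r2)).false
  · obtain ⟨k, hk⟩ := d2 α ξ hξ
    have : G ξ k ∈ Q k := ⟨⟨ξ, hk k le_rfl, rfl⟩, h k⟩
    exact ⟨k, _, ⟨_, this, rfl⟩, x1 k _ this⟩

theorem main3 (R : Reg W (succ κ)) (hp : 2 ^ κ = succ κ) {μ ν : ℕ → Cardinal.{0}}
    (h0 : ∀ m, ℵ₀ ≤ μ m) (hν : ∀ m, succ (μ m) ≤ ν m) (h2 : ∀ m, 2 ^ ν m ≤ μ (m + 1))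
    (hκ : ∀ m, μ m < κ) (hs : κ ≤ sum μ) :
    ∃ f : W → Set W, (∀ a, f a ⊆ Iio a) ∧
      (∀ H : Set W, (∀ x ∈ H, ∀ y ∈ H, x < y → x ∈ f y) → H.Countable) ∧
      ∀ X : Set W, κ < #X → ∃ Z ⊆ X, #Z ≤ κ ∧ ∃ η, ∀ a, η ≤ a → (f a ∩ Z).Nonempty := by
  classical
  have h1 : ∀ m, μ m ≤ ν m := fun m => (le_succ _).trans (hν m)
  have hm : Monotone μ := monotone_nat_of_le_succ fun m => (h1 m).trans ((cantor _).le.trans (h2 m))
  have k0 : ℵ₀ ≤ κ := (h0 0).trans (hκ 0).le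
  have : Nonempty W := mk_ne_zero_iff.1 (R.card.trans_ne R.reg.pos.ne')
  obtain ⟨D, d1, d2⟩ := dec R h0 hm hs
  choose B b1 b2 using fun m => club R hp ((h0 m).trans (h1 m)) ((h2 m).trans (hκ _).le) (D := D)
    (fun k α => (power_le_power_left two_ne_zero ((d1 k α).trans (h1 k))).trans
      ((h2 k).trans (hκ _).le)) fun α β h => (d2 α β h).imp fun k l => l k le_rfl
  obtain ⟨G, hG⟩ := enum (X := W) (S := (Set.univ : Set (ℕ → W))) univ_nonempty (by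
    rw [mk_univ, ← power_def, R.card, mk_nat, ← hp, ← power_mul, mul_aleph0_eq k0])
  choose! st s1 s2 s3 s4 s5 using step3 h0 hm hν d1 d2 (fun m γ => (b1 m γ).trans (h2 m)) G
  let N : W → ℕ → Set W := wellFounded_lt.fix fun a ih =>
    st a fun b => if h : b < a then ih b h else fun _ => ∅
  have hf : ∀ a, N a = st a fun b => if b < a then N b else fun _ => ∅ := fun a =>
    wellFounded_lt.fix_eq _ a
  have f1 : ∀ a b, (∀ m γ, Cf (ν m) γ → Bd ((⋃ i, (if b < a then N b else fun _ => ∅) i) ∩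
      B m γ) γ) ∧ ∀ m, #((if b < a then N b else fun _ => ∅) m : Set W) ≤ μ m := fun a => by
    induction a using WellFoundedLT.induction with
    | ind a ih =>
    intro b
    split_ifs with l
    · exact hf b ▸ s1 b _ (ih b l)
    · exact ⟨fun m γ h => by simpa using h ∅ (by simp), by simp⟩
  have f2 : ∀ a, ∀ b < a, ∃ k, ∀ m, k ≤ m → ∀ x ∈ N a m, ∀ i, x ∉ N b i := fun a b h => by
    simpa only [← hf, if_pos h] using s3 a _ (f1 a) b h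
  have f3 : ∀ a m, N a m ⊆ Iio a := fun a => hf a ▸ s2 a _ (f1 a)
  have f4 : ∀ a m, ∀ x ∈ N a m, ∀ y ∈ N a m, x < y → x ∉ N y m := fun a m x hx y hy l => by
    simpa only [if_pos (show y < a from f3 a m hy)] using
      s4 a _ (f1 a) m x (hf a ▸ hx) y (hf a ▸ hy) l
  refine ⟨fun a => ⋃ i, N a i, fun a => iUnion_subset (f3 a), fun H hH => ?_, fun X hX => ?_⟩
  · choose! nx n1 n2 using fun β (h : {y ∈ H | β < y}.Nonempty) => wellFounded_lt.has_min _ h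
    have c1 := countable_iUnion fun k => (tri f4 (Finset.range k) {y ∈ H | ∀ x ∈ H, x < y →
      ∃ m ∈ Finset.range k, x ∈ N y m} fun x hx y hy => hy.2 x hx.1).countable
    have c2 : ∀ a ∈ H, ∀ b ∈ H, {y ∈ H | b < y}.Nonempty → a < b → nx a < nx b :=
      fun a _ b hb h l => (not_lt.1 (n2 a ⟨b, hb, l⟩ b ⟨hb, l⟩)).trans_lt (n1 b h).2
    refine ((MapsTo.countable_of_injOn (f := nx) (s := {β ∈ H | {y ∈ H | β < y}.Nonempty})
      (fun β hβ => ?_) (StrictMonoOn.injOn fun a ha b hb => c2 a ha.1 b hb.1 hb.2) c1).union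
      (Set.Subsingleton.countable (s := {β ∈ H | ¬ {y ∈ H | β < y}.Nonempty}) fun a ha b hb =>
        le_antisymm (not_lt.1 fun l => hb.2 ⟨a, ha.1, l⟩) (not_lt.1 fun l => ha.2 ⟨b, hb.1, l⟩))).mono
      fun a ha => (em _).imp (And.intro ha) (And.intro ha)
    obtain ⟨l1, l2⟩ := n1 β hβ.2
    obtain ⟨k, hk⟩ := f2 _ β l2
    obtain ⟨j, hj⟩ := mem_iUnion.1 (hH β hβ.1 _ l1 l2)
    refine mem_iUnion.2 ⟨max k (j + 1), l1, fun x hx l => ?_⟩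
    rcases (not_lt.1 fun e => n2 β hβ.2 x ⟨hx, e⟩ l).eq_or_lt with rfl | e
    · exact ⟨j, by simp, hj⟩
    obtain ⟨m, h3⟩ := mem_iUnion.1 (hH x hx _ l1 l)
    obtain ⟨i, h4⟩ := mem_iUnion.1 (hH x hx β hβ.1 e)
    exact ⟨m, Finset.mem_range.2 (lt_max_of_lt_left (not_le.1 fun h => hk m h x h3 i h4)), h3⟩
  · choose γ g1 g2 g3 using fun m => b2 m X fun η => by_contra fun h =>
      hX.not_ge ((mk_le_mk_of_subset fun x hx => not_le.1 fun l => h ⟨x, hx, l⟩).trans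
        (le_of_lt_succ (R.iio η)))
    obtain ⟨ξ, rfl⟩ := hG.ge (mem_univ γ)
    obtain ⟨η, hη⟩ := R.bdd (A := insert ξ (range (G ξ))) ((le_aleph0_iff_set_countable.2
      ((countable_range _).insert ξ)).trans_lt (k0.trans_lt (lt_succ κ)))
    refine ⟨⋃ m ∈ Set.univ, B m (G ξ m), iUnion₂_subset fun m _ => g2 m, un_le k0
      (mk_le_aleph0.trans k0) fun m _ => (b1 m _).trans ((h2 m).trans (hκ _).le), η, fun a a2 => ?_⟩
    obtain ⟨m, x, x1, x2⟩ := s5 a _ (f1 a) ξ ((hη ξ (Or.inl rfl)).trans_le a2) fun m =>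
      ⟨(hη _ (Or.inr ⟨m, rfl⟩)).le.trans a2, g1 m, g3 m⟩
    exact ⟨x, mem_iUnion.2 ⟨m, hf a ▸ x1⟩, mem_biUnion (mem_univ m) x2⟩

end Pool.Agent.H57.Fs
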