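import Pool.Agent.H57.FsD

set_option autoImplicit false

/-! Levels of cofinality `ω` and the colouring given by a set mapping. -/

namespace Pool.Agent.H57.Fs

open Set Cardinal Order
open Pool.Agent.H82.LadA (Reg)

theorem seq0 {κ : Cardinal.{0}} (h1 : κ.IsSingular) (h2 : κ.ord.cof = ℵ₀) :
    ∃ c : ℕ → Cardinal.{0}, (∀ n, c n < κ) ∧ κ ≤ sum c := by
  obtain ⟨s, s1, s2⟩ := Order.exists_cof_eq κ.ord.ToType
  have : Nonempty κ.ord.ToType := mk_ne_zero_iff.1 ((mk_ord_toType κ).trans_ne h1.pos.ne')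
  obtain ⟨e, he⟩ := (le_aleph0_iff_set_countable.1
    (s2.trans ((Ordinal.cof_toType _).trans h2)).le).exists_eq_range s1.nonempty
  have hu : ℵ₀ < κ := h2.symm.trans_lt h1.cof_ord_lt
  refine ⟨fun n => #(Iic (e n)), fun n => ?_, ?_⟩
  · beta_reduce
    rw [← Iio_insert]
    exact mk_insert_le.trans_lt (add_lt_of_lt hu.le (mk_Iio_ord_toType (e n))
      (one_lt_aleph0.trans hu))
  · refine ((mk_ord_toType κ).symm.trans mk_univ.symm).le.trans ((mk_le_mk_of_subset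
      (t := ⋃ n, Iic (e n)) fun x _ => ?_).trans mk_iUnion_le_sum_mk)
    obtain ⟨y, y1, l⟩ := s1 x
    rw [he] at y1
    obtain ⟨n, rfl⟩ := y1
    exact mem_iUnion.2 ⟨n, l⟩

theorem seq1 {κ : Cardinal.{0}} (h1 : κ.IsSingular) (h2 : κ.ord.cof = ℵ₀) :
    ∃ μ : ℕ → Cardinal.{0}, (∀ n, ℵ₀ ≤ μ n) ∧ (∀ n, succ (succ (μ n)) ≤ μ (n + 1)) ∧
      (∀ n, μ n < κ) ∧ κ ≤ sum μ := by
  obtain ⟨c, c1, c2⟩ := seq0 h1 h2
  have hu : ℵ₀ < κ := h2.symm.trans_lt h1.cof_ord_lt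
  obtain ⟨μ, m1, m2⟩ : ∃ μ : ℕ → Cardinal.{0}, μ 0 = max ℵ₀ (c 0) ∧
      ∀ n, μ (n + 1) = max (succ (succ (μ n))) (c (n + 1)) :=
    ⟨fun n => n.rec (max ℵ₀ (c 0)) fun n d => max (succ (succ d)) (c (n + 1)), rfl, fun _ => rfl⟩
  refine ⟨μ, fun n => ?_, fun n => (le_max_left _ _).trans_eq (m2 n).symm, fun n => ?_,
    c2.trans (sum_le_sum _ _ fun n => ?_)⟩
  · induction n with
    | zero => exact (le_max_left _ _).trans_eq m1.symm
    | succ n ih =>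
      exact ih.trans ((le_succ _).trans ((le_succ _).trans ((le_max_left _ _).trans_eq (m2 n).symm)))
  · induction n with
    | zero => exact m1.trans_lt (max_lt hu (c1 0))
    | succ n ih =>
      exact (m2 n).trans_lt (max_lt (h1.isSuccLimit.succ_lt (h1.isSuccLimit.succ_lt ih)) (c1 _))
  · cases n with
    | zero => exact (le_max_right _ _).trans_eq m1.symm
    | succ n => exact (le_max_right _ _).trans_eq (m2 n).symm

theorem colour {W : Type} [LinearOrder W] [WellFoundedLT W] {κ : Cardinal.{0}}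
    (R : Reg W (succ κ)) {f : W → Set W} (f1 : ∀ a, f a ⊆ Iio a)
    (f2 : ∀ H : Set W, (∀ x ∈ H, ∀ y ∈ H, x < y → x ∈ f y) → H.Countable)
    (f3 : ∀ X : Set W, κ < #X → ∃ Z ⊆ X, #Z ≤ κ ∧ ∃ η, ∀ a, η ≤ a → (f a ∩ Z).Nonempty) :
    ∃ g : Sym2 W → Fin 2, (∀ A B : Set W, #A = succ κ → #B = succ κ → ∀ φ : W → W,
      InjOn φ (A ∪ B) → ¬ ∀ ξ ∈ A, ∀ η ∈ B, ξ < η → g s(φ ξ, φ η) = 1) ∧
      ∀ H : Set W, (∀ x ∈ H, ∀ y ∈ H, x ≠ y → g s(x, y) = 0) → H.Countable := by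
  classical
  refine ⟨Sym2.lift ⟨fun x y => if x ∈ f y ∨ y ∈ f x then 0 else 1, fun x y => by
    simp only [or_comm]⟩, fun A B k1 k2 φ k3 k4 => ?_, fun H k2 => f2 H fun x hx y hy l => ?_⟩
  · obtain ⟨Z, z1, z2, η, z3⟩ := f3 (φ '' A) (by
      rw [mk_image_eq_of_injOn _ _ (k3.mono subset_union_left), k1]; exact lt_succ κ)
    have i : ∀ C ⊆ A ∪ B, ∀ T : Set W, #↥(C ∩ φ ⁻¹' T) ≤ #T := fun C hC T =>
      mk_le_of_injective (f := fun x : ↥(C ∩ φ ⁻¹' T) => (⟨φ x, x.2.2⟩ : T)) fun x y e =>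
        Subtype.ext (k3 (hC x.2.1) (hC y.2.1) (congrArg Subtype.val e))
    obtain ⟨ζ, z4⟩ := R.bdd ((i A subset_union_left Z).trans_lt (z2.trans_lt (lt_succ κ)))
    obtain ⟨b, b1, b2⟩ := not_subset.1 fun l : B ⊆ Iio ζ ∪ B ∩ φ ⁻¹' Iio η => (add_lt_of_lt
      R.reg.aleph0_le (R.iio ζ) ((i B subset_union_right _).trans_lt (R.iio η))).not_ge
          (k2.ge.trans ((mk_le_mk_of_subset l).trans (mk_union_le _ _)))
    obtain ⟨x, x1, x2⟩ := z3 (φ b) (not_lt.1 fun l => b2 (Or.inr ⟨b1, l⟩))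
    obtain ⟨a, a1, rfl⟩ := z1 x2
    have := k4 a a1 b b1 ((z4 a ⟨a1, x2⟩).trans_le (not_lt.1 fun l => b2 (Or.inl l)))
    rw [Sym2.lift_mk] at this
    exact zero_ne_one ((if_pos (Or.inl x1)).symm.trans this)
  · have := k2 x hx y hy l.ne
    rw [Sym2.lift_mk] at this
    by_contra n
    exact one_ne_zero ((if_neg (not_or.2 ⟨n, fun k => l.not_gt (f1 x k)⟩)).symm.trans this)

end Pool.Agent.H57.Fs
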