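import Pool.Agent.H57.FsE

set_option autoImplicit false

/-! A polarized colouring from approachability at cofinality `ω₁`. -/

namespace Pool.Agent.H57.Fs

open Set Cardinal Order
open Pool.Agent.H82.LadA (Reg)
open Pool.Agent.H57.IdC (un_le un2)

variable {W : Type} [LinearOrder W] [WellFoundedLT W] {κ : Cardinal.{0}}

theorem apH (R : Reg W (succ κ)) (h1 : ℵ₁ ≤ κ) {ν : ℕ → Cardinal.{0}} (h0 : ∀ m, ℵ₀ ≤ ν m)
    {D : ℕ → W → Set W} (d1 : ∀ k α, #(D k α) ≤ ν k)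
    (d2 : ∀ α, ∀ β < α, ∃ k, ∀ m, k ≤ m → β ∈ D m α) {a : W → Set W} {C : Set W} (hC : IsClub C)
    (ha : ∀ δ ∈ C, cof (Iio δ) = ℵ₁ → ∃ A ⊆ Iio δ, (∀ x < δ, ∃ y ∈ A, x ≤ y) ∧
      ∀ γ < δ, (A ∩ Iio γ).Countable ∧ ∃ α < δ, a α = A ∩ Iio γ) :
    ∃ E : ℕ → W → Set W, (∀ k α, #(E k α) ≤ ν k) ∧ (∀ α, ∀ β < α, ∃ k, β ∈ E k α) ∧
      ∀ B ⊆ C, ¬ B.Countable → ∃ n, ∃ x : ℕ → W, ∀ i, x i ∈ B ∧ x i < x (i + 1) ∧
        ∀ k, n ≤ k → x i ∈ E k (x (i + 1)) := by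
  refine ⟨fun k β => D k β ∪ ⋃ α ∈ {α ∈ D k β | (a α).Countable}, ⋃ γ ∈ a α, D k γ,
    fun k β => un2 (h0 k) (d1 k β) (un_le (h0 k) ((mk_le_mk_of_subset (sep_subset _ _)).trans
      (d1 k β)) fun α h => un_le (h0 k) (h.2.le_aleph0.trans (h0 k)) fun γ _ => d1 k γ),
    fun α β h => (d2 α β h).imp fun k l => Or.inl (l k le_rfl), fun B0 b1 b2 => ?_⟩
  obtain ⟨B, b3, b4⟩ := le_mk_iff_exists_subset.1 (show ℵ₁ ≤ #B0 by
    rw [← succ_aleph0, succ_le_iff, ← not_le, le_aleph0_iff_set_countable]; exact b2)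
  obtain ⟨ζ, z1⟩ := R.bdd (b4.le.trans_lt (h1.trans_lt (lt_succ κ)))
  obtain ⟨δ, e1, e2⟩ := wellFounded_lt.has_min {δ | ¬ (B ∩ Iio δ).Countable} ⟨ζ, fun h =>
    aleph0_lt_aleph_one.not_ge (b4.ge.trans (h.mono (subset_inter Subset.rfl z1)).le_aleph0)⟩
  have un : ∀ T : Set W, T.Countable → T ⊆ Iio δ → ∃ y ∈ B, y < δ ∧ ∀ t ∈ T, t < y := by
    intro T t1 t2
    by_contra! h
    refine e1 ((t1.biUnion (t := fun t _ => insert t (B ∩ Iio t)) fun t ht =>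
      (not_not.1 fun k => e2 t k (t2 ht)).insert t).mono fun y hy => ?_)
    obtain ⟨t, k1, k2⟩ := h y hy.1 hy.2
    exact mem_biUnion k1 (k2.eq_or_lt.imp id fun l => ⟨hy.1, l⟩)
  have u1 : ∀ t < δ, ∃ y ∈ B, y < δ ∧ t < y := fun t ht =>
    (un {t} (countable_singleton t) (singleton_subset_iff.2 ht)).imp fun y h =>
      ⟨h.1, h.2.1, h.2.2 t rfl⟩
  obtain ⟨A, a1, a2, a3⟩ := ha δ (hC.dirSupClosed (d := B ∩ Iio δ) (fun x hx => b1 (b3 hx.1))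
    ((un ∅ countable_empty (empty_subset _)).imp fun y h => ⟨h.1, h.2.1⟩)
    (fun x hx y hy => (le_total x y).elim (fun l => ⟨y, hy, l, le_rfl⟩) fun l => ⟨x, hx, le_rfl, l⟩)
    ⟨fun x hx => hx.2.le, fun u hu => not_lt.1 fun l =>
      let ⟨y, y1, y2, y3⟩ := u1 u l; y3.not_ge (hu ⟨y1, y2⟩)⟩) (le_antisymm
    ((cof_le (s := Subtype.val ⁻¹' B) fun x => let ⟨y, y1, y2, y3⟩ := u1 x x.2
      ⟨⟨y, y2⟩, y1, y3.le⟩).trans ((mk_preimage_of_injective _ _ Subtype.val_injective).trans b4.le))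
    (le_cof_iff.2 fun s hs => by
      rw [← succ_aleph0, succ_le_iff, ← not_le, le_aleph0_iff_set_countable]
      intro k
      obtain ⟨y, -, y2, y3⟩ := un _ (k.image Subtype.val) (Subtype.coe_image_subset _ _)
      obtain ⟨t, t1, t2⟩ := hs ⟨y, y2⟩
      exact (y3 t ⟨t, t1, rfl⟩).not_ge t2))
  have : Nonempty W := ⟨δ⟩
  choose! g g1 g2 using fun x (h : x < δ) => show ∃ y ∈ A, x < y from
    let ⟨y, _, y2, y3⟩ := u1 x h; let ⟨z, z1, z2⟩ := a2 y y2; ⟨z, z1, y3.trans_le z2⟩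
  choose! φ f1 f2 using fun γ h => (a3 γ h).2
  obtain ⟨n, hn⟩ : ∃ n, ∀ t < δ, ∃ γ < δ, t < γ ∧ ∃ y, (y ∈ B ∧ y < δ ∧
      ∀ k, n ≤ k → y ∈ D k (g y)) ∧ γ ≤ y ∧ ∀ k, n ≤ k → φ γ ∈ D k y := by
    by_contra h
    choose t t1 t2 using fun n => not_forall₂.1 (not_exists.1 h n)
    obtain ⟨γ, -, c1, c2⟩ := un _ (countable_range t) (range_subset_iff.2 t1)
    obtain ⟨y, y1, y2, y3⟩ := un {γ, φ γ} (Set.toFinite _).countable
      (insert_subset c1 (singleton_subset_iff.2 (f1 γ c1)))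
    obtain ⟨k, hk⟩ := d2 _ _ (g2 y y2)
    obtain ⟨l, hl⟩ := d2 _ _ (y3 (φ γ) (Or.inr rfl))
    exact t2 (max k l) ⟨γ, c1, c2 _ ⟨_, rfl⟩, y, ⟨y1, y2, fun m h => hk m (le_of_max_le_left h)⟩,
      (y3 γ (Or.inl rfl)).le, fun m h => hl m (le_of_max_le_right h)⟩
  obtain ⟨t, -, t1, -⟩ := un ∅ countable_empty (empty_subset _)
  obtain ⟨-, -, -, y0, y1, -⟩ := hn t t1
  choose F F1 F2 using fun y : {y // y ∈ B ∧ y < δ ∧ ∀ k, n ≤ k → y ∈ D k (g y)} =>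
    show ∃ z : {y // y ∈ B ∧ y < δ ∧ ∀ k, n ≤ k → y ∈ D k (g y)}, y.1 < z.1 ∧ ∀ k, n ≤ k →
      y.1 ∈ D k z ∪ ⋃ α ∈ {α ∈ D k z | (a α).Countable}, ⋃ γ ∈ a α, D k γ from
    let ⟨γ, c1, c2, z, z1, z2, z3⟩ := hn _ (a1 (g1 y y.2.2.1))
    ⟨⟨z, z1⟩, (g2 y y.2.2.1).trans (c2.trans_le z2), fun k h => Or.inr (mem_biUnion
      (show φ γ ∈ {α ∈ D k z | (a α).Countable} from ⟨z3 k h, f2 γ c1 ▸ (a3 γ c1).1⟩)
      (mem_biUnion (f2 γ c1 ▸ ⟨g1 y y.2.2.1, c2⟩ : g y ∈ a (φ γ)) (y.2.2.2 k h)))⟩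
  refine ⟨n, fun i => F^[i] ⟨y0, y1⟩, fun i => ⟨b3 (F^[i] ⟨y0, y1⟩).2.1, ?_⟩⟩
  simp only [Function.iterate_succ_apply']
  exact ⟨F1 _, F2 _⟩

theorem neg (R : Reg W (succ κ)) (hp : 2 ^ κ = succ κ) {ν : ℕ → Cardinal.{0}}
    (h0 : ∀ m, ℵ₀ ≤ ν m) (hm : Monotone ν) (hκ : ∀ m, ν m < κ) {E : ℕ → W → Set W}
    (e1 : ∀ k α, #(E k α) ≤ ν k) (e2 : ∀ α, ∀ β < α, ∃ k, β ∈ E k α) {Y : Type} (y1 : κ ≤ #Y)
    (y2 : #Y ≤ succ κ) : ∃ f : W → Set Y,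
      (∀ A : Set Y, #A = κ → #{β | Disjoint (f β) A} ≤ κ) ∧ ∀ n (x : ℕ → W),
        (∀ i, x i < x (i + 1) ∧ ∀ k, n ≤ k → x i ∈ E k (x (i + 1))) → #(⋂ i, f (x i)) < κ := by
  classical
  have k0 : ℵ₀ ≤ κ := (h0 0).trans (hκ 0).le
  obtain ⟨A, hA⟩ := enum (X := W) (S := {A : Set Y | #A = κ}) (le_mk_iff_exists_set.1 y1) (by
    refine (mk_le_mk_of_subset (t := {A : Set Y | #A ≤ κ}) fun A h => le_of_eq h).trans
      ((mk_bounded_set_le Y κ).trans ((power_le_power_right (max_le y2 (k0.trans (le_succ κ)))).trans ?_))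
    rw [R.card, ← hp, ← power_mul, mul_eq_self k0])
  choose! st s1 s2 s3 using fun (β : W) (G : W → ℕ → Set Y) (hG : ∀ γ j, #(G γ j) ≤ ν j) =>
    show ∃ M : ℕ → Set Y, (∀ k, #(M k) ≤ ν k) ∧ (∀ k, ∀ ξ ∈ E k β, (M k ∩ A ξ).Nonempty) ∧
      ∀ k, ∀ y ∈ M k, ∀ γ ∈ E k β, ∀ j ≤ k, y ∉ G γ j by
    choose p p1 p2 using fun k ξ => not_subset.1 fun l : A ξ ⊆ ⋃ γ ∈ E k β, ⋃ j ∈ Iic k, G γ j =>
      (hκ k).not_ge ((hA.le ⟨ξ, rfl⟩).ge.trans ((mk_le_mk_of_subset l).trans (un_le (h0 k) (e1 k β)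
        fun γ _ => un_le (h0 k) (mk_le_aleph0.trans (h0 k)) fun j hj => (hG γ j).trans (hm hj))))
    exact ⟨fun k => p k '' E k β, fun k => mk_image_le.trans (e1 k β),
      fun k ξ h => ⟨_, ⟨ξ, h, rfl⟩, p1 k ξ⟩,
      fun k _ ⟨ξ, _, e⟩ γ h j hj l => p2 k ξ (e ▸ mem_biUnion h (mem_biUnion hj l))⟩
  let N : W → ℕ → Set Y := wellFounded_lt.fix fun a ih =>
    st a fun b => if h : b < a then ih b h else fun _ => ∅
  have hf : ∀ a, N a = st a fun b => if b < a then N b else fun _ => ∅ := fun a =>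
    wellFounded_lt.fix_eq _ a
  have f1 : ∀ a b m, #((if b < a then N b else fun _ => ∅) m : Set Y) ≤ ν m := fun a => by
    induction a using WellFoundedLT.induction with
    | ind a ih =>
    intro b
    split_ifs with l
    · exact hf b ▸ s1 b _ (ih b l)
    · simp
  refine ⟨fun a => ⋃ k, N a k, fun S hS => ?_, fun n x hx => ?_⟩
  · obtain ⟨ξ, rfl⟩ := hA.ge hS
    refine (mk_le_mk_of_subset (t := Iic ξ) fun β h => not_lt.1 fun l => ?_).trans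
      (le_of_lt_succ (R.iic ξ))
    obtain ⟨k, hk⟩ := e2 β ξ l
    obtain ⟨y, k1, k2⟩ := s2 β _ (f1 β) k ξ hk
    exact disjoint_left.1 h (mem_iUnion.2 ⟨k, hf β ▸ k1⟩) k2
  · refine (mk_le_mk_of_subset (t := ⋃ i ∈ (Set.univ : Set ℕ), ⋃ j ∈ Iic n, N (x i) j)
      fun y hy => by_contra fun h => ?_).trans_lt ((un_le (h0 n) (mk_le_aleph0.trans (h0 n))
        fun i _ => un_le (h0 n) (mk_le_aleph0.trans (h0 n)) fun j hj =>
          (hf (x i) ▸ s1 (x i) _ (f1 _) j : #(N (x i) j) ≤ ν j).trans (hm hj)).trans_lt (hκ n))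
    choose k hk using fun i => mem_iUnion.1 (mem_iInter.1 hy i)
    refine not_strictAnti_of_wellFoundedLT k (strictAnti_nat_of_succ_lt fun i => not_le.1 fun l => ?_)
    have := s3 (x (i + 1)) _ (f1 _) _ y (hf (x (i + 1)) ▸ hk (i + 1)) _ ((hx i).2 _ (not_lt.1
      fun l => h (mem_biUnion trivial (mem_biUnion l.le (hk (i + 1)))))) _ l
    rw [if_pos (hx i).1] at this
    exact this (hk i)

end Pool.Agent.H57.Fs
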