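import Pool.Agent.H57.FsF
import Pool.Agent.H15.Inj2

set_option autoImplicit false

/-! Tools for a positive polarized relation from the Chang property. -/

namespace Pool.Agent.H57.Fs

open Set Cardinal Order
open Pool.Agent.H82.LadA (Reg)
open Pool.Agent.H57.IdC (un_le un2)
open Pool.Agent.H15.Inj (LL cc_closed)

variable {W : Type} [LinearOrder W] [WellFoundedLT W] {κ : Cardinal.{0}}

theorem cc1 (R : Reg W (succ κ))
    (hcc : ∀ [LL.Structure W] (r : LL.Relations 1),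
      #{m : W | FirstOrder.Language.Structure.RelMap r ![m]} = κ →
      ∃ N : LL.ElementarySubstructure W, #N = ℵ₁ ∧
        #{m : W | m ∈ N ∧ FirstOrder.Language.Structure.RelMap r ![m]} = ℵ₀)
    {K : Type} {S : Set K} (hS : #S ≤ κ) (F : ℕ → Finset W → K) (hF : ∀ n s, F n s ∈ S)
    (h : Finset W → W) : ∃ B : Set W, #B = ℵ₁ ∧
      (∀ β ∈ B, ∀ s : Finset W, (∀ a ∈ s, a ∈ B ∧ a < β) → h s < β) ∧
      {k | ∃ n, ∃ s : Finset W, ↑s ⊆ B ∧ F n s = k}.Countable := by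
  classical
  have : Infinite W := aleph0_le_mk_iff.1 (R.reg.aleph0_le.trans_eq R.card.symm)
  obtain ⟨u, hu⟩ := enum (X := κ.out) ⟨_, hF 0 ∅⟩ (hS.trans_eq (mk_out κ).symm)
  choose v hv using fun n s => hu.ge (hF n s)
  obtain ⟨j⟩ := (Cardinal.le_def κ.out W).1 ((mk_out κ).trans_le ((le_succ κ).trans_eq R.card.symm))
  obtain ⟨c⟩ := Cardinal.eq.1 (mk_finset_of_infinite W)
  choose e he using fun a : W => show ∃ e : W → W, InjOn e (Iio a) ∧ MapsTo e (Iio a) (range j) by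
    obtain ⟨i⟩ := (Cardinal.le_def (Iio a) κ.out).1 ((le_of_lt_succ (R.iio a)).trans_eq (mk_out κ).symm)
    refine ⟨fun x => if l : x < a then j (i ⟨x, l⟩) else a, fun x hx y hy k => ?_, fun x hx => ?_⟩
    · simp only [dif_pos (show x < a from hx), dif_pos (show y < a from hy)] at k
      exact congrArg Subtype.val (i.injective (j.injective k))
    · exact ⟨i ⟨x, hx⟩, by simp only [dif_pos (show x < a from hx)]⟩
  obtain ⟨x, x1, x2, x3⟩ := cc_closed (range j) (fun n a b => match n with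
    | 0 => c (insert a (c.symm b))
    | 1 => c ∅
    | 2 => e a b
    | 3 => h (c.symm a)
    | n + 4 => j (v n (c.symm a))) fun r k => hcc r (by
      rw [k, mk_range_eq _ j.injective, mk_out])
  have xn : ¬ x.Countable := fun k => aleph0_lt_aleph_one.not_ge (x1.ge.trans k.le_aleph0)
  obtain ⟨a0, h0⟩ := nonempty_iff_ne_empty.2 fun k : x = ∅ => xn (k ▸ countable_empty)
  have c1 : ∀ s : Finset W, ↑s ⊆ x → c s ∈ x := fun s => by
    induction s using Finset.induction_on with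
    | empty => exact fun _ => x3 1 a0 h0 a0 h0
    | insert a s _ ih =>
      intro k
      rw [Finset.coe_insert, insert_subset_iff] at k
      simpa only [Equiv.symm_apply_apply] using x3 0 a k.1 _ (ih k.2)
  have c3 : ∀ T ⊆ x, T.Countable → ∃ b ∈ x, ∀ t ∈ T, t < b := fun T t1 t2 => by
    by_contra! k
    refine xn ((t2.biUnion (t := fun t _ => insert t (x ∩ Iio t)) fun t ht => Countable.insert t
      (MapsTo.countable_of_injOn (f := e t) (t := x ∩ range j) (fun b hb => ⟨x3 2 t (t1 ht) b hb.1, (he t).2 hb.2⟩)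
        ((he t).1.mono inter_subset_right) x2)).mono fun y hy => ?_)
    obtain ⟨t, k1, k2⟩ := k y hy
    exact mem_biUnion k1 (k2.eq_or_lt.imp id fun l => ⟨hy, l⟩)
  let Q : W → Prop := wellFounded_lt.fix fun β ih =>
    β ∈ x ∧ ∀ s : Finset W, (∀ a ∈ s, ∃ l : a < β, ih a l) → h s < β
  have hQ : ∀ β, Q β = (β ∈ x ∧ ∀ s : Finset W, (∀ a ∈ s, ∃ _ : a < β, Q a) → h s < β) :=
    fun β => wellFounded_lt.fix_eq _ β
  have q1 : {β | Q β} ⊆ x := fun β k => ((hQ β).mp k).1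
  refine ⟨{β | Q β}, le_antisymm ((mk_le_mk_of_subset q1).trans x1.le) ?_,
    fun β k s l => ((hQ β).mp k).2 s fun a ha => ⟨(l a ha).2, (l a ha).1⟩,
    ((x2.preimage j.injective).image u).mono ?_⟩
  · rw [← succ_aleph0, succ_le_iff, ← not_le, le_aleph0_iff_set_countable]
    intro k
    have k2 : {s : Finset W | (s : Set W) ⊆ {β | Q β}}.Countable :=
      Countable.mono (fun s hs => by exact ⟨s.finite_toSet, hs⟩)
        ((countable_ofPred_finite_subset k).preimage Finset.coe_injective)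
    obtain ⟨b, b1, b2⟩ := c3 _ (union_subset q1 (by
      rintro _ ⟨s, hs, rfl⟩
      simpa only [Equiv.symm_apply_apply] using x3 3 _ (c1 s (Subset.trans hs q1)) a0 h0))
      (k.union (k2.image h))
    exact lt_irrefl b (b2 b (Or.inl ((hQ b).mpr ⟨b1, fun s l =>
      b2 _ (Or.inr ⟨s, fun a ha => (l a ha).2, rfl⟩)⟩)))
  · rintro _ ⟨n, s, hs, rfl⟩
    refine ⟨v n s, ⟨?_, _, rfl⟩, hv n s⟩
    simpa only [Equiv.symm_apply_apply] using x3 (n + 4) _ (c1 s (hs.trans q1)) a0 h0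

theorem gen {P : Type} [Preorder P] (hσ : ∀ r : ℕ → P, Antitone r → ∃ q, ∀ n, q ≤ r n) {p : P}
    {d : ℕ → P → Prop} (hd : ∀ n, ∀ q ≤ p, ∃ r ≤ q, d n r) : ∃ q ≤ p, ∀ n, ∃ r, q ≤ r ∧ d n r := by
  have : Nonempty P := ⟨p⟩
  choose! g g1 g2 using hd
  let r : ℕ → P := fun n => n.rec p g
  have r1 : ∀ n, r n ≤ p := fun n => by
    induction n with
    | zero => exact le_rfl
    | succ n ih => exact (g1 n _ ih).trans ih
  obtain ⟨q, hq⟩ := hσ r (antitone_nat_of_succ_le fun n => g1 n _ (r1 n))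
  exact ⟨q, hq 0, fun n => ⟨r (n + 1), hq (n + 1), g2 n _ (r1 n)⟩⟩

theorem pieces (k0 : ℵ₀ ≤ κ) {Y : Type} (hY : #Y = κ) {A : Set Y} (hA : κ ≤ #A) :
    ∃ π : Y → Set Y, (∀ i, π i ⊆ A ∧ #(π i) = κ) ∧ ∀ U : Set Y, #U < κ → ∃ i, Disjoint U (π i) := by
  obtain ⟨ι⟩ := (Cardinal.le_def (Y × Y) A).1 (by
    rw [mk_prod, lift_id, hY, mul_eq_self k0]; exact hA)
  refine ⟨fun i => range fun y => ι (i, y), fun i => ⟨range_subset_iff.2 fun y => (ι _).2,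
    (mk_range_eq _ fun y z e => (Prod.ext_iff.1 (ι.injective (Subtype.ext e))).2).trans hY⟩,
    fun U hU => by_contra fun h => ?_⟩
  choose z z1 y z2 using fun i => not_disjoint_iff.1 (not_exists.1 h i)
  exact hU.not_ge (hY.ge.trans (mk_le_of_injective (f := fun i => (⟨z i, z1 i⟩ : U)) fun i k e =>
    (Prod.ext_iff.1 (ι.injective (Subtype.ext ((z2 i).trans ((congrArg Subtype.val e).trans
      (z2 k).symm))))).1))

theorem cfl {ν : ℕ → Cardinal.{0}} (hu : ℵ₀ < κ) (hs : κ ≤ sum ν) {c : Cardinal.{0}} (h : c < κ) :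
    ∃ m, c < ν m := by
  by_contra! k
  exact (mul_lt_of_lt hu.le hu h).not_ge (hs.trans ((sum_le_sum _ _ k).trans (by simp)))

omit [WellFoundedLT W] in
theorem stepG (R : Reg W (succ κ)) (hu : ℵ₀ < κ) {ν : ℕ → Cardinal.{0}} (h0 : ∀ m, ℵ₀ ≤ ν m)
    (hκ : ∀ m, ν m < κ) (hs : κ ≤ sum ν) {P : Type} [Preorder P] (hP : #P < κ)
    (hσ : ∀ r : ℕ → P, Antitone r → ∃ q, ∀ n, q ≤ r n) {Y : Type} (hY : #Y = κ) {p : P}
    {In : P → Y → W → Prop} (hI : ∀ q r y β, r ≤ q → In q y β → In r y β) {J : P → Set Y}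
    (hJ : Antitone J) (hg : ∀ q ≤ p, ∃ r ≤ q, κ ≤ #(J r))
    (hn : ∀ q ≤ p, ∀ A : Set Y, #A = κ → #{β | ∀ y ∈ A, ∀ r ≤ q, ¬ In r y β} ≤ κ) :
    ∃ η, ∀ β, η < β → ∀ q ≤ p, ∃ r ≤ q, κ ≤ #{y ∈ J r | In r y β} := by
  have : Nonempty (Y → Set Y) := ⟨fun _ => ∅⟩
  choose! π p1 p2 using fun q (h : κ ≤ #(J q)) => pieces hu.le hY h
  obtain ⟨η, hη⟩ := R.bdd ((un_le hu.le (s := {q | q ≤ p ∧ κ ≤ #(J q)})
    ((mk_set_le _).trans hP.le) fun q hq => un_le hu.le (s := Set.univ) (mk_univ.trans hY).le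
      fun i _ => hn q hq.1 _ (p1 q hq.2 i).2).trans_lt (lt_succ κ))
  refine ⟨η, fun β l q hq => by_contra fun h => l.not_gt (hη β ?_)⟩
  push Not at h
  obtain ⟨q1, a1, a2⟩ := hg q hq
  obtain ⟨m, q2, b1, b2⟩ : ∃ m, ∃ q2 ≤ q1, ∀ r ≤ q2, #{y ∈ J r | In r y β} ≤ ν m := by
    by_contra! k
    obtain ⟨r, r1, r2⟩ := gen hσ k
    obtain ⟨m, hm⟩ := cfl hu hs (h r (r1.trans a1))
    obtain ⟨t, t1, t2⟩ := r2 m
    exact hm.not_gt (t2.trans_le (mk_le_mk_of_subset fun y hy => ⟨hJ t1 hy.1, hI _ _ _ _ t1 hy.2⟩))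
  have c1 := a2.trans (mk_le_mk_of_subset (hJ b1))
  obtain ⟨i, hi⟩ := p2 q2 c1 _ ((un_le (le_max_of_le_right (h0 m)) (s := Iic q2)
    ((mk_set_le _).trans (le_max_left _ _)) fun r hr => (b2 r hr).trans (le_max_right _ _)).trans_lt
      (max_lt hP (hκ m)))
  exact mem_biUnion (show q2 ∈ {q | q ≤ p ∧ κ ≤ #(J q)} from ⟨(b1.trans a1).trans hq, c1⟩)
    (mem_biUnion (mem_univ i) fun y hy r hr k =>
      disjoint_left.1 hi (mem_biUnion hr ⟨hJ hr ((p1 q2 c1 i).1 hy), k⟩) hy)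

theorem fin {ν : ℕ → Cardinal.{0}} (hu : ℵ₀ < κ) (hm : Monotone ν) (hs : κ ≤ sum ν)
    (hp : ∀ 𝓕 : Set (Set ℕ), #𝓕 ≤ ℵ₁ → (∀ T ⊆ 𝓕, T.Finite → (⋂₀ T).Infinite) →
      ∃ X : Set ℕ, X.Infinite ∧ ∀ F ∈ 𝓕, (X \ F).Finite) {Y V : Type} (hY : #Y = κ) {B : Set V}
    (hB : #B = ℵ₁) {f : V → Set Y} {Z : ℕ → Set Y} (z1 : ∀ i, #(Z i) < κ)
    (z2 : ∀ s : Finset V, ↑s ⊆ B → ∀ m, ∃ i, (∀ β ∈ s, Z i ⊆ f β) ∧ ν m ≤ #(Z i)) :
    ∃ (A : Set Y) (C : Set V), #A = κ ∧ #C = ℵ₁ ∧ ∀ β ∈ C, A ⊆ f β := by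
  classical
  obtain ⟨X, x1, x2⟩ := hp ((fun β => {i | Z i ⊆ f β}) '' B ∪ range fun m => {i | ν m ≤ #(Z i)})
    (un2 aleph0_lt_aleph_one.le (mk_image_le.trans hB.le)
      (mk_range_le.trans (mk_nat.le.trans aleph0_lt_aleph_one.le))) fun T t1 t2 => by
    obtain ⟨s, m, s1, s2⟩ : ∃ (s : Finset V) (m : ℕ), ↑s ⊆ B ∧ ∀ F ∈ T, ∀ i,
        (∀ β ∈ s, Z i ⊆ f β) → ν m ≤ #(Z i) → i ∈ F := by
      induction T, t2 using Set.Finite.induction_on with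
      | empty => exact ⟨∅, 0, by simp, fun _ h => h.elim⟩
      | @insert F T _ _ ih =>
        obtain ⟨s, m, s1, s2⟩ := ih ((subset_insert _ _).trans t1)
        rcases t1 (mem_insert _ _) with ⟨β, hβ, rfl⟩ | ⟨n, rfl⟩
        · exact ⟨insert β s, m, by rw [Finset.coe_insert]; exact insert_subset hβ s1,
            forall_mem_insert.2 ⟨fun i h _ => h β (Finset.mem_insert_self _ _), fun F hF i h =>
              s2 F hF i fun γ k => h γ (Finset.mem_insert_of_mem k)⟩⟩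
        · exact ⟨s, max m n, s1, forall_mem_insert.2 ⟨fun i _ h => (hm (le_max_right _ _)).trans h,
            fun F hF i h k => s2 F hF i h ((hm (le_max_left _ _)).trans k)⟩⟩
    refine infinite_of_forall_exists_gt fun k => ?_
    choose μ hμ using fun i => cfl hu hs (z1 i)
    obtain ⟨i, i1, i2⟩ := z2 s s1 (max m ((Finset.range (k + 1)).sup μ))
    exact ⟨i, fun F hF => s2 F hF i i1 ((hm (le_max_left _ _)).trans i2), not_le.1 fun l =>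
      (hμ i).not_ge ((hm (le_max_of_le_right (Finset.le_sup (f := μ)
        (Finset.mem_range.2 (Nat.lt_succ_of_le l))))).trans i2)⟩
  obtain ⟨k, hk⟩ : ∃ k, ¬ {β ∈ B | ∀ i ∈ X, k < i → Z i ⊆ f β}.Countable := by
    by_contra! h
    refine aleph0_lt_aleph_one.not_ge (hB.ge.trans ((countable_iUnion h).mono fun β hβ => ?_).le_aleph0)
    obtain ⟨k, hk⟩ := (x2 _ (Or.inl ⟨β, hβ, rfl⟩)).bddAbove
    exact mem_iUnion.2 ⟨k, hβ, fun i hi l => by_contra fun n => l.not_ge (hk ⟨hi, n⟩)⟩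
  refine ⟨⋃ i ∈ X \ Iic k, Z i, {β ∈ B | ∀ i ∈ X, k < i → Z i ⊆ f β}, le_antisymm ((mk_set_le _).trans hY.le) (not_lt.1 fun l => ?_),
    le_antisymm ((mk_le_mk_of_subset (sep_subset _ _)).trans hB.le) (by
      rw [← succ_aleph0, succ_le_iff, ← not_le, le_aleph0_iff_set_countable]; exact hk),
    fun β hβ => iUnion₂_subset fun i hi => hβ.2 i hi.1 (not_le.1 hi.2)⟩
  obtain ⟨m, hm⟩ := cfl hu hs l
  obtain ⟨i, i1, i2⟩ := (x1.diff ((x2 _ (Or.inr ⟨m, rfl⟩)).union (finite_Iic k))).nonempty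
  rw [mem_union, not_or] at i2
  exact hm.not_ge ((not_not.1 fun n => i2.1 ⟨i1, n⟩ : ν m ≤ #(Z i)).trans
    (mk_le_mk_of_subset (subset_biUnion_of_mem (u := Z) ⟨i1, i2.2⟩)))

theorem pos (R : Reg W (succ κ)) (hl : κ.IsStrongLimit) (hu : ℵ₀ < κ) {ν : ℕ → Cardinal.{0}}
    (h0 : ∀ m, ℵ₀ ≤ ν m) (hm : Monotone ν) (hκ : ∀ m, ν m < κ) (hs : κ ≤ sum ν)
    (hcc : ∀ [LL.Structure W] (r : LL.Relations 1),
      #{m : W | FirstOrder.Language.Structure.RelMap r ![m]} = κ →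
      ∃ N : LL.ElementarySubstructure W, #N = ℵ₁ ∧
        #{m : W | m ∈ N ∧ FirstOrder.Language.Structure.RelMap r ![m]} = ℵ₀)
    (hp : ∀ 𝓕 : Set (Set ℕ), #𝓕 ≤ ℵ₁ → (∀ T ⊆ 𝓕, T.Finite → (⋂₀ T).Infinite) →
      ∃ X : Set ℕ, X.Infinite ∧ ∀ F ∈ 𝓕, (X \ F).Finite)
    {P : Type} [Preorder P] (hP : #P < κ) (hσ : ∀ r : ℕ → P, Antitone r → ∃ q, ∀ n, q ≤ r n)
    {Y : Type} (hY : #Y = κ) {In : P → Y → W → Prop}
    (hI : ∀ q r y β, r ≤ q → In q y β → In r y β) (p : P) : ∃ q ≤ p,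
      (∃ (A : Set Y) (B : Set W), #A = κ ∧ #B = succ κ ∧ ∀ y ∈ A, ∀ β ∈ B, ∀ r ≤ q, ¬ In r y β) ∨
      ∃ (A : Set Y) (B : Set W), #A = κ ∧ #B = ℵ₁ ∧ ∀ y ∈ A, ∀ β ∈ B, In q y β := by
  classical
  by_cases hn : ∀ q ≤ p, ∀ A : Set Y, #A = κ → #{β | ∀ y ∈ A, ∀ r ≤ q, ¬ In r y β} ≤ κ
  swap
  · push Not at hn
    obtain ⟨q, q1, A, a1, a2⟩ := hn
    exact ⟨q, q1, Or.inl ⟨A, _, a1, le_antisymm ((mk_set_le _).trans R.card.le) (succ_le_of_lt a2),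
      fun y hy β h r hr => h y hy r hr⟩⟩
  have : Nonempty W := mk_ne_zero_iff.1 (R.card.trans_ne R.reg.pos.ne')
  have : Nonempty Y := mk_ne_zero_iff.1 (hY.trans_ne (aleph0_pos.trans hu).ne')
  let J : Finset W → P → Set Y := fun s r => {y | ∀ β ∈ s, In r y β}
  have j1 : ∀ s q r, r ≤ q → J s q ⊆ J s r := fun s q r h y hy β hβ => hI _ _ _ _ h (hy β hβ)
  choose! h hh using fun s (hg : ∀ q ≤ p, ∃ r ≤ q, κ ≤ #(J s r)) =>
    stepG R hu h0 hκ hs hP hσ hY hI (fun r q l => j1 s q r l) hg hn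
  obtain ⟨c, hc⟩ := enum (X := Σ k, (ν k).out) (S := (Set.univ : Set Y)) univ_nonempty
    ((mk_univ.trans hY).trans_le (by simpa using hs))
  let L : ℕ → Set Y := fun k => ⋃ i ∈ Iic k, range fun y => c ⟨i, y⟩
  have l1 : ∀ k, #(L k) ≤ ν k := fun k => un_le (h0 k) (mk_le_aleph0.trans (h0 k)) fun i hi =>
    mk_range_le.trans ((mk_out _).le.trans (hm hi))
  obtain ⟨B, b1, b2, b3⟩ := cc1 R hcc (S := Set.univ ×ˢ ⋃ n ∈ (Set.univ : Set ℕ), 𝒫 (Set.univ ×ˢ L n))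
    (F := fun n s => ({r : P | κ ≤ #(J s r)}, {z : P × Y | z.2 ∈ J s z.1 ∩ L n})) (by
      rw [mk_setProd, mk_univ, mk_set]
      refine mul_le_of_le hu.le (hl.isStrongPrelimit hP).le (un_le hu.le (mk_le_aleph0.trans hu.le)
        fun n _ => ?_)
      rw [mk_powerset, mk_setProd, mk_univ]
      exact (hl.isStrongPrelimit (mul_lt_of_lt hu.le hP ((l1 n).trans_lt (hκ n)))).le)
    (fun n s => ⟨trivial, mem_biUnion (mem_univ n) fun z hz => ⟨trivial, hz.2⟩⟩) h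
  have g1 : ∀ s : Finset W, ↑s ⊆ B → ∀ q ≤ p, ∃ r ≤ q, κ ≤ #(J s r) := fun s => by
    induction s using Finset.induction_on_max with
    | empty => exact fun _ q _ => ⟨q, le_rfl, (hY.symm.trans mk_univ.symm).le.trans
        (mk_le_mk_of_subset fun y _ β h => by simp at h)⟩
    | insert a s l ih =>
      intro k q hq
      rw [Finset.coe_insert, insert_subset_iff] at k
      obtain ⟨r, r1, r2⟩ := hh s (ih k.2) a (b2 a k.1 s fun b hb => ⟨k.2 hb, l b hb⟩) q hq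
      exact ⟨r, r1, r2.trans (mk_le_mk_of_subset fun y hy =>
        Finset.forall_mem_insert _ _ _ |>.2 ⟨hy.2, hy.1⟩)⟩
  obtain ⟨t, ht⟩ := b3.exists_eq_range ⟨_, 0, ∅, by simp, rfl⟩
  obtain ⟨q, q1, q2⟩ := gen hσ (p := p) (d := fun n r => r ∈ (t n).1) fun n q hq => by
    obtain ⟨_, s, s1, e⟩ := ht.ge ⟨n, rfl⟩
    rw [← e]
    exact g1 s s1 q hq
  obtain ⟨A, C, a1, a2, a3⟩ := fin hu hm hs hp hY b1 (f := fun β => {y | In q y β})
    (Z := fun i => {y | (q, y) ∈ (t i).2}) (fun i => by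
      obtain ⟨n, s, -, e⟩ := ht.ge ⟨i, rfl⟩
      rw [← e]
      exact (mk_le_mk_of_subset fun y hy => hy.2).trans_lt ((l1 n).trans_lt (hκ n))) fun s s1 m => by
    obtain ⟨i, e⟩ := ht.le ⟨0, s, s1, rfl⟩
    obtain ⟨r, r1, r2⟩ := q2 i
    rw [e] at r2
    obtain ⟨n, hn⟩ : ∃ n, ν m ≤ #(J s q ∩ L n : Set Y) := by
      by_contra! k
      refine (hκ m).not_ge (r2.trans ((mk_le_mk_of_subset (t := ⋃ n ∈ (Set.univ : Set ℕ),
        J s q ∩ L n) fun y hy => ?_).trans (un_le (h0 m) (mk_le_aleph0.trans (h0 m))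
          fun n _ => (k n).le)))
      obtain ⟨⟨n, z⟩, rfl⟩ := hc.ge (mem_univ y)
      exact mem_biUnion (mem_univ n) ⟨j1 s r q r1 hy, mem_biUnion (mem_Iic.2 le_rfl) ⟨z, rfl⟩⟩
    obtain ⟨i, e⟩ := ht.le ⟨n, s, s1, rfl⟩
    exact ⟨i, by rw [e]; exact ⟨fun β hβ y hy => hy.1 β hβ, hn⟩⟩
  exact ⟨q, q1, Or.inr ⟨A, C, a1, a2, fun y hy β hβ => a3 β hβ hy⟩⟩

theorem seq2 (hu : ℵ₀ < κ) (h2 : κ.ord.cof = ℵ₀) : ∃ μ : ℕ → Cardinal.{0}, (∀ n, ℵ₀ ≤ μ n) ∧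
    Monotone μ ∧ (∀ n, μ n < κ) ∧ κ ≤ sum μ :=
  let ⟨μ, m0, m1, m2, m3⟩ := seq1 ⟨hu.le, (h2.trans_lt hu).ne⟩ h2
  ⟨μ, m0, monotone_nat_of_le_succ fun n => (le_succ _).trans ((le_succ _).trans (m1 n)), m2, m3⟩

theorem neg2 (R : Reg W (succ κ)) (hu : ℵ₀ < κ) (h2 : κ.ord.cof = ℵ₀) (hp : 2 ^ κ = succ κ)
    {a : W → Set W} {C : Set W} (hC : IsClub C)
    (ha : ∀ δ ∈ C, cof (Iio δ) = ℵ₁ → ∃ A ⊆ Iio δ, (∀ x < δ, ∃ y ∈ A, x ≤ y) ∧
      ∀ γ < δ, (A ∩ Iio γ).Countable ∧ ∃ α < δ, a α = A ∩ Iio γ) {Y : Type} (y1 : κ ≤ #Y)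
    (y2 : #Y ≤ succ κ) : ∃ f : W → Set Y,
      (∀ (A : Set Y) (B : Set W), #A = κ → #B = succ κ → ∃ y ∈ A, ∃ β ∈ B, y ∈ f β) ∧
      ∀ (A : Set Y) (B : Set W), #A = κ → #B = ℵ₁ → ∃ y ∈ A, ∃ β ∈ B, y ∉ f β := by
  obtain ⟨ν, h0, hm, hκ, hs⟩ := seq2 hu h2
  obtain ⟨D, d1, d2⟩ := dec R h0 hm hs
  obtain ⟨E, e1, e2, e3⟩ := apH R (succ_aleph0.ge.trans (succ_le_of_lt hu)) h0 d1 d2 hC ha
  obtain ⟨f, f1, f2⟩ := neg R hp h0 hm hκ e1 e2 y1 y2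
  obtain ⟨e⟩ := (Cardinal.le_def W C).1 (R.card.trans_le (not_lt.1 fun l =>
    let ⟨η, h⟩ := R.bdd l; let ⟨c, c1, c2⟩ := hC.isCofinal η; (h c c1).not_ge c2))
  have i : Function.Injective fun β => (e β).1 := Subtype.val_injective.comp e.injective
  refine ⟨fun β => f (e β), fun A B a1 b1 => by_contra fun h => ?_, fun A B a1 b1 =>
    by_contra fun h => ?_⟩ <;> push Not at h
  · refine (lt_succ κ).not_ge ((b1.symm.trans (mk_image_eq i).symm).le.trans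
      ((mk_le_mk_of_subset ?_).trans (f1 A a1)))
    rintro _ ⟨β, hβ, rfl⟩
    exact disjoint_right.2 fun y hy => h y hy β hβ
  · obtain ⟨n, x, hx⟩ := e3 ((fun β => (e β).1) '' B) (image_subset_iff.2 fun β _ => (e β).2)
      fun k => aleph0_lt_aleph_one.not_ge ((b1.symm.trans (mk_image_eq i).symm).le.trans k.le_aleph0)
    refine (f2 n x fun i => (hx i).2).not_ge (a1.ge.trans (mk_le_mk_of_subset fun y hy =>
      mem_iInter.2 fun i => ?_))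
    obtain ⟨β, hβ, k⟩ := (hx i).1
    exact k ▸ h y hy β hβ

end Pool.Agent.H57.Fs
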