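import Pool.Agent.H57.PrCH

set_option autoImplicit false

namespace Pool.Agent.H57.Pr

open Set Cardinal Order Filter Topology Pool.Agent.H57.Lots

theorem fu (hCH : (𝔠 : Cardinal.{0}) = ℵ₁) : ¬ (∀ (X : Type) [TopologicalSpace X] [T35Space X],
      (∀ D : Set {f : X → ℝ | Continuous f},
          DiscreteTopology D → FrechetUrysohnSpace (closure D)) →
        FrechetUrysohnSpace {f : X → ℝ | Continuous f}) := by
  classical
  intro H
  obtain ⟨c, hc⟩ := prch hCH
  let x : W1 → W1 → Bool := fun ξ α => if α < ξ then false else if α = ξ then true else c ξ α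
  let y : W1 → range x := fun ξ => ⟨_, ξ, rfl⟩
  choose π hπ using fun z : range x => z.2
  have hy : ∀ z, y (π z) = z := fun z => Subtype.ext (hπ z)
  have key : ∀ (ι : Type) [Fintype ι] (s z : W1 → ι → W1) (B : W1 → Finset W1) (T : Set W1),
      St T → (∀ d ∈ T, ∀ i j, s d i = s d j → z d i = z d j) → (∀ d ∈ T, ∀ i, d ≤ s d i → d ≤ z d i) →
      ∃ g ∈ T, ∃ d ∈ T, g < d ∧ ∀ i, (s g i = s d i ∧ s g i < g) ∨
        ∀ α ∈ B d, x (s g i) α = x (z d i) α := fun ι _ s z B T hT h1 h2 => by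
    obtain ⟨R, hR⟩ := hT.fin R1 aleph0_lt_aleph_one B
    obtain ⟨m, hm⟩ := H82.Luz.bdd R.countable_toSet
    obtain ⟨g, ⟨g1, g2⟩, d, ⟨d1, -⟩, h3, h4⟩ := hc _ s B (fun d i => x (z d i)) _ (hR.gt m)
      fun d hd i j h => h1 d hd.1.1 i j h ▸ rfl
    refine ⟨g, g1.1, d, d1.1, h3, fun i => (h4 i).imp_right fun ⟨a1, a2, a3, a4⟩ α ha => ?_⟩
    rcases lt_or_ge α d with h | h
    · simp [x, h.trans_le (h2 d d1.1 i a3), ((hm α (d1.2.subset (Finset.mem_filter.2
        ⟨ha, h⟩))).trans g2).trans_le a1]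
    · exact (show _ = c (s g i) α by
        simp [x, (a2.trans_le h).not_gt, (a2.trans_le h).ne']).trans (a4 α ha h)
  have ev : ∀ f : range x → ℝ, Continuous f → ∃ β, ∀ ξ ≥ β, f (y ξ) = f (y β) := fun f hf => by
    by_contra hn
    have h1 : ∀ β, ∃ (a z : W1) (q : ℚ), β ≤ a ∧ β ≤ z ∧ f (y a) < q ∧ q < f (y z) := fun β => by
      simp only [not_exists, not_forall] at hn
      obtain ⟨a, h1, h2⟩ := hn β
      rcases lt_or_gt_of_ne h2 with h | h <;> obtain ⟨q, hq⟩ := exists_rat_btwn h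
      exacts [⟨a, β, q, h1, le_rfl, hq⟩, ⟨β, a, q, le_rfl, h1, hq⟩]
    choose a z q h1 h2 h3 h4 using h1
    choose B hB using fun β => agree' (hf.continuousAt (isOpen_Ioi.mem_nhds (h4 β)))
    obtain ⟨r, h5⟩ := St_univ.ct1 q
    obtain ⟨g, g1, d, d1, -, h6⟩ := key Unit (fun d _ => a d) (fun d _ => z d) B _ h5
      (fun _ _ _ _ _ => rfl) fun d _ _ _ => h2 d
    rcases h6 () with h | h
    · exact h.2.not_ge (h1 g)
    · exact (g1.2.trans d1.2.symm ▸ h3 g).asymm (hB d (y (a g)) h)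
  haveI := H (range x) fun D h2 => by
    have hD : D.Countable := by
      by_contra hn
      obtain ⟨k⟩ := (Cardinal.le_def W1 D).1 (mk_W1.trans_le (not_lt.1
        (mt (countable_iff_lt_aleph_one _).2 hn)))
      have h3 : ∀ δ, ∃ e : Σ n, Fin n → ℚ × ℚ, ∃ s : Fin e.1 → W1,
          (∀ i, (k δ).1.1 (y (s i)) ∈ Ioo ((e.2 i).1 : ℝ) (e.2 i).2) ∧
          ∀ g, (∀ i, (k g).1.1 (y (s i)) ∈ Ioo ((e.2 i).1 : ℝ) (e.2 i).2) → g = δ := fun δ => by
        obtain ⟨V, h3, h4⟩ := isOpen_induced_iff.1 (isOpen_discrete {k δ})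
        obtain ⟨U, h3', rfl⟩ := isOpen_induced_iff.1 h3
        obtain ⟨I, u, h5, h6⟩ := isOpen_pi_iff.1 h3' (k δ).1.1
          (h4.symm.subset (mem_singleton (k δ)) :)
        choose p h7 h8 using fun z : I => rat_Ioo (h5 _ z.2).1 (h5 _ z.2).2
        refine ⟨⟨_, fun i => p (I.equivFin.symm i)⟩, fun i => π (I.equivFin.symm i),
          fun i => hy _ ▸ h7 _, fun g hg => k.injective (h4.subset (h6 fun z hz => ?_))⟩
        exact h8 ⟨z, hz⟩ (by simpa [hy] using hg (I.equivFin ⟨z, hz⟩))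
      choose e he using h3
      obtain ⟨⟨n, J⟩, h4⟩ := St_univ.ct1 e
      choose! s h6 h7 using fun δ (h : δ ∈ {x ∈ Set.univ | e x = ⟨n, J⟩}) => h.2 ▸ he δ
      choose! B hB using fun δ h i => agree'
        ((k δ).1.2.continuousAt (isOpen_Ioo.mem_nhds (h6 δ h i)))
      obtain ⟨g, g1, δ, d1, h11, h12⟩ := key _ s s (fun δ => Finset.univ.biUnion (B δ)) _ h4
        (fun _ _ _ _ h => h) fun _ _ _ h => h
      refine h11.ne' (h7 g g1 δ fun i => ?_)
      rcases h12 i with h | h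
      · exact h.1 ▸ h6 δ d1 i
      · exact hB δ d1 i _ fun α ha => h α (Finset.mem_biUnion.2 ⟨_, Finset.mem_univ _, ha⟩)
    choose b hb using fun g : {f : range x → ℝ | Continuous f} => ev _ g.2
    obtain ⟨β, hβ⟩ := H82.Luz.bdd (hD.image b)
    have h5 : ∀ g ∈ closure D, ∀ ξ ≥ β, g.1 (y ξ) = g.1 (y β) := fun g hg ξ h =>
      closure_minimal (t := {g : {f : range x → ℝ | Continuous f} | g.1 (y ξ) = g.1 (y β)})
        (fun g hg => (hb g ξ ((hβ _ ⟨g, hg, rfl⟩).le.trans h)).trans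
          (hb g β (hβ _ ⟨g, hg, rfl⟩).le).symm)
        (isClosed_eq ((continuous_apply _).comp continuous_subtype_val)
          ((continuous_apply _).comp continuous_subtype_val)) hg
    haveI := (H82.Luz.iic β).to_subtype
    refine IsInducing.frechetUrysohnSpace (IsInducing.of_comp
      (f := fun (g : closure D) (ξ : Iic β) => g.1.1 (y ξ))
      (g := fun w (z : range x) => w ⟨min (π z) β, mem_Iic.2 (min_le_right _ _)⟩)
      (continuous_pi fun ξ => (continuous_apply _).comp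
        (continuous_subtype_val.comp continuous_subtype_val)) (by fun_prop) ?_)
    convert IsInducing.subtypeVal.comp IsInducing.subtypeVal
    funext g z
    rcases le_total (π z) β with h | h
    · simp [h, hy]
    · simpa [h, hy] using (h5 _ g.2 _ h).symm
  obtain ⟨u, h1, h2⟩ := mem_closure_iff_seq_limit.1 (show (⟨1, continuous_const⟩ :
      {f : range x → ℝ | Continuous f}) ∈ closure {f | ∃ β, ∀ ξ > β, f.1 (y ξ) = 0} from
    mem_closure_iff_nhds.2 fun V hV => by
      obtain ⟨U, h1, h2⟩ := (mem_nhds_subtype _ _ _).1 hV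
      obtain ⟨S, hS⟩ := agree h1
      obtain ⟨β, hβ⟩ := H82.Luz.bdd (S.countable_toSet.image π)
      refine ⟨⟨fun z => if ∃ a : S, z.1 (π a) = true then 1 else 0, (continuous_of_discreteTopology
        (f := fun v : S → Bool => if ∃ a, v a = true then (1 : ℝ) else 0)).comp
          (continuous_pi fun a => (continuous_apply _).comp continuous_subtype_val)⟩,
        h2 (hS _ fun z hz => if_pos ⟨⟨z, hz⟩, by simp [← hπ z, x]⟩), β, fun ξ h => if_neg ?_⟩
      rintro ⟨a, ha⟩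
      simp [y, x, (hβ _ ⟨_, a.2, rfl⟩).trans h] at ha)
  choose b hb using h1
  obtain ⟨β, hβ⟩ := H82.Luz.bdd (countable_range b)
  have := ((continuous_apply (y β)).comp continuous_subtype_val).continuousAt.tendsto.comp h2
  simpa using tendsto_nhds_unique this
    (tendsto_const_nhds.congr fun n => (hb n β (hβ _ ⟨n, rfl⟩)).symm)

end Pool.Agent.H57.Pr
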