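import Mathlib

set_option autoImplicit false

namespace Pool.Agent.H57.Gab

open Finset

variable {Fq : Type*} [Field Fq] [Fintype Fq]

lemma fixed {K : Type*} [Field K] [Algebra Fq K] (x : K) (hx : x ^ Fintype.card Fq = x) :
    ∃ a : Fq, algebraMap Fq K a = x := by
  classical
  by_contra hne
  push Not at hne
  have h1 : 1 < Fintype.card Fq := Fintype.one_lt_card
  have hP := FiniteField.X_pow_card_sub_X_ne_zero K h1
  have hd := FiniteField.X_pow_card_sub_X_natDegree_eq K h1
  set Z : Finset K := insert x (univ.image (algebraMap Fq K)) with hZ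
  have hsub : Z.val ⊆ (Polynomial.X ^ Fintype.card Fq - Polynomial.X : Polynomial K).roots := by
    intro y hy
    rw [Polynomial.mem_roots hP]
    have hy' : y ∈ Z := hy
    simp only [hZ, mem_insert, mem_image, mem_univ, true_and] at hy'
    simp only [Polynomial.IsRoot.def, Polynomial.eval_sub, Polynomial.eval_pow, Polynomial.eval_X]
    rcases hy' with rfl | ⟨a, rfl⟩
    · rw [hx, sub_self]
    · rw [← map_pow, FiniteField.pow_card, sub_self]
  have hle := Polynomial.card_le_degree_of_subset_roots hsub
  rw [hd, hZ, card_insert_of_notMem, card_image_of_injective _ (algebraMap Fq K).injective,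
    card_univ] at hle
  · omega
  · simp only [mem_image, mem_univ, true_and, not_exists]
    exact hne

lemma li_frob {K : Type*} [Field K] [Algebra Fq K] {n : ℕ} {u : Fin n → K}
    (hu : LinearIndependent Fq u) : LinearIndependent Fq (fun j => u j ^ Fintype.card Fq) := by
  have := hu.map' (FiniteField.frobeniusAlgHom Fq K).toLinearMap
    (LinearMap.ker_eq_bot.mpr (FiniteField.frobeniusAlgHom Fq K).injective)
  exact this

lemma frob_sum {K : Type*} [Field K] [Algebra Fq K] {n : ℕ} (c u : Fin n → K) (s : ℕ) :
    ∑ j, c j ^ Fintype.card Fq * u j ^ Fintype.card Fq ^ (s + 1) =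
      (∑ j, c j * u j ^ Fintype.card Fq ^ s) ^ Fintype.card Fq := by
  have := map_sum (FiniteField.frobeniusAlgHom Fq K) (fun j => c j * u j ^ Fintype.card Fq ^ s) univ
  simp only [FiniteField.coe_frobeniusAlgHom] at this
  rw [this]
  refine sum_congr rfl fun j _ => ?_
  rw [mul_pow, ← pow_mul, pow_succ]

/-- Any `r` columns of a Moore matrix with `r` rows are independent. -/
lemma moore {K : Type*} [Field K] [Algebra Fq K] {n : ℕ} (r : ℕ) :
    ∀ (u : Fin n → K), LinearIndependent Fq u → ∀ (S : Finset (Fin n)), S.card ≤ r →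
      ∀ c : Fin n → K, (∀ j ∉ S, c j = 0) →
      (∀ s < r, ∑ j, c j * u j ^ Fintype.card Fq ^ s = 0) → c = 0 := by
  induction r with
  | zero =>
    intro u _ S hS c hc _
    have : S = ∅ := card_eq_zero.mp (by omega)
    funext j
    exact hc j (by simp [this])
  | succ r ih =>
    intro u hu S hS c hc hk
    by_contra hne
    obtain ⟨j0, hj0⟩ : ∃ j0, c j0 ≠ 0 := by
      by_contra h
      push Not at h
      exact hne (funext h)
    have hj0S : j0 ∈ S := by
      by_contra h
      exact hj0 (hc j0 h)
    set c' : Fin n → K := fun j => c j / c j0 with hc'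
    have hk' : ∀ s < r + 1, ∑ j, c' j * u j ^ Fintype.card Fq ^ s = 0 := by
      intro s hs
      have : ∑ j, c' j * u j ^ Fintype.card Fq ^ s =
          (∑ j, c j * u j ^ Fintype.card Fq ^ s) / c j0 := by
        rw [sum_div]
        refine sum_congr rfl fun j _ => ?_
        simp only [hc']
        ring
      rw [this, hk s hs, zero_div]
    have hq0 : Fintype.card Fq ≠ 0 := Fintype.card_ne_zero
    have hd := ih (fun j => u j ^ Fintype.card Fq) (li_frob hu) (S.erase j0)
      (by rw [card_erase_of_mem hj0S]; omega) (fun j => c' j ^ Fintype.card Fq - c' j)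
      (by
        intro j hj
        by_cases hjj : j = j0
        · subst hjj
          simp [hc', div_self hj0]
        · have : j ∉ S := fun h => hj (mem_erase.mpr ⟨hjj, h⟩)
          simp [hc', hc j this, hq0])
      (by
        intro s hs
        have e : ∀ j, (u j ^ Fintype.card Fq) ^ Fintype.card Fq ^ s =
            u j ^ Fintype.card Fq ^ (s + 1) := by
          intro j
          rw [← pow_mul, pow_succ']
        simp only [e, sub_mul, sum_sub_distrib]
        rw [frob_sum, hk' s (by omega), hk' (s + 1) (by omega), zero_pow hq0, sub_zero])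
    have hfix : ∀ j, ∃ a : Fq, algebraMap Fq K a = c' j := fun j =>
      fixed _ (sub_eq_zero.mp (congrFun hd j))
    choose a ha using hfix
    have h0 := hk' 0 (by omega)
    simp only [pow_zero, pow_one] at h0
    have := Fintype.linearIndependent_iff.mp hu a (by
      rw [← h0]
      refine sum_congr rfl fun j _ => ?_
      rw [Algebra.smul_def, ha]) j0
    have h1 := ha j0
    rw [this, map_zero] at h1
    simp [hc', div_self hj0] at h1

/-- Hall condition with surplus `r`. -/
def Hall {ι : Type*} {n : ℕ} (r : ℕ) (S : ι → Finset (Fin n)) : Prop :=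
  ∀ Ω : Finset ι, Ω.Nonempty → Ω.card + r ≤ (Ω.biUnion S).card

lemma shrink_one {ι : Type*} [DecidableEq ι] {n r : ℕ} (S : ι → Finset (Fin n)) (h : Hall r S)
    (i : ι) (hi : r + 2 ≤ (S i).card) :
    ∃ x ∈ S i, Hall r (Function.update S i ((S i).erase x)) := by
  obtain ⟨x, hx, y, hy, hxy⟩ := one_lt_card.mp (show 1 < (S i).card by omega)
  by_contra hne
  push Not at hne
  have key : ∀ z ∈ S i, ∃ Ω : Finset ι, i ∉ Ω ∧
      ((S i).erase z ∪ Ω.biUnion S).card < Ω.card + 1 + r := by
    intro z hz
    have := hne z hz
    unfold Hall at this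
    push Not at this
    obtain ⟨Ω, hΩ, hlt⟩ := this
    by_cases hiΩ : i ∈ Ω
    · refine ⟨Ω.erase i, by simp, ?_⟩
      rw [card_erase_add_one hiΩ]
      refine lt_of_le_of_lt (card_le_card ?_) hlt
      intro w hw
      rw [mem_union] at hw
      rw [mem_biUnion]
      rcases hw with hw | hw
      · exact ⟨i, hiΩ, by simpa using hw⟩
      · obtain ⟨l, hl, hw⟩ := mem_biUnion.mp hw
        rw [mem_erase] at hl
        exact ⟨l, hl.2, by rw [Function.update_of_ne hl.1]; exact hw⟩
    · exfalso
      have h1 := h Ω hΩ
      have : Ω.biUnion (Function.update S i ((S i).erase z)) = Ω.biUnion S := by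
        refine biUnion_congr rfl fun l hl => ?_
        rw [Function.update_of_ne (by rintro rfl; exact hiΩ hl)]
      rw [this] at hlt
      omega
  obtain ⟨A, hA, hA'⟩ := key x hx
  obtain ⟨B, hB, hB'⟩ := key y hy
  set U := (S i).erase x ∪ A.biUnion S with hU
  set V := (S i).erase y ∪ B.biUnion S with hV
  have h1 : (insert i (A ∪ B)).card + r ≤ (U ∪ V).card := by
    refine (h _ (insert_nonempty _ _)).trans (card_le_card ?_)
    intro w hw
    obtain ⟨l, hl, hw2⟩ := mem_biUnion.mp hw
    simp only [hU, hV, mem_union, mem_erase, mem_biUnion]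
    rcases mem_insert.mp hl with hl | hl
    · rw [hl] at hw2
      by_cases hwx : w = x
      · right; left; exact ⟨by rw [hwx]; exact hxy, hw2⟩
      · left; left; exact ⟨hwx, hw2⟩
    · rcases mem_union.mp hl with hl | hl
      · left; right; exact ⟨l, hl, hw2⟩
      · right; right; exact ⟨l, hl, hw2⟩
  rw [card_insert_of_notMem (by simp [hA, hB])] at h1
  have h2 : (A ∩ B).card + r ≤ (U ∩ V).card := by
    rcases (A ∩ B).eq_empty_or_nonempty with he | hn
    · rw [he, card_empty, zero_add]
      have : ((S i).erase x).erase y ⊆ U ∩ V := by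
        intro w hw
        simp only [mem_erase] at hw
        simp only [hU, hV, mem_inter, mem_union, mem_erase]
        exact ⟨Or.inl ⟨hw.2.1, hw.2.2⟩, Or.inl ⟨hw.1, hw.2.2⟩⟩
      have h3 := card_le_card this
      rw [card_erase_of_mem (mem_erase.mpr ⟨hxy.symm, hy⟩), card_erase_of_mem hx] at h3
      omega
    · refine (h _ hn).trans (card_le_card ?_)
      intro w hw
      obtain ⟨l, hl, hw⟩ := mem_biUnion.mp hw
      rw [mem_inter] at hl
      simp only [hU, hV, mem_inter, mem_union, mem_biUnion]
      exact ⟨Or.inr ⟨l, hl.1, hw⟩, Or.inr ⟨l, hl.2, hw⟩⟩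
  have h3 := card_union_add_card_inter U V
  have h4 := card_union_add_card_inter A B
  omega

lemma shrink {ι : Type*} [Fintype ι] [DecidableEq ι] {n r : ℕ} (N : ℕ) :
    ∀ S : ι → Finset (Fin n), ∑ i, (S i).card ≤ N → Hall r S →
      ∃ T : ι → Finset (Fin n), (∀ i, T i ⊆ S i ∧ (T i).card = r + 1) ∧ Hall r T := by
  induction N with
  | zero =>
    intro S hN h
    refine ⟨S, fun i => ⟨Subset.refl _, ?_⟩, h⟩
    have h1 := h {i} (singleton_nonempty i)
    simp only [card_singleton, singleton_biUnion] at h1
    have h2 : (S i).card ≤ ∑ i, (S i).card :=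
      single_le_sum (f := fun i => (S i).card) (fun _ _ => Nat.zero_le _) (mem_univ i)
    omega
  | succ N ih =>
    intro S hN h
    by_cases hall : ∀ i, (S i).card = r + 1
    · exact ⟨S, fun i => ⟨Subset.refl _, hall i⟩, h⟩
    · push Not at hall
      obtain ⟨i, hi⟩ := hall
      have h1 := h {i} (singleton_nonempty i)
      simp only [card_singleton, singleton_biUnion] at h1
      obtain ⟨x, hx, hH⟩ := shrink_one S h i (by omega)
      obtain ⟨T, hT, hT'⟩ := ih _ (by
        have e1 := add_sum_erase univ (fun l => (S l).card) (mem_univ i)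
        have e2 := add_sum_erase univ
          (fun l => (Function.update S i ((S i).erase x) l).card) (mem_univ i)
        have e3 : ∑ l ∈ univ.erase i, (Function.update S i ((S i).erase x) l).card =
            ∑ l ∈ univ.erase i, (S l).card :=
          sum_congr rfl fun l hl => by rw [Function.update_of_ne (mem_erase.mp hl).1]
        simp only [Function.update_self] at e2
        rw [card_erase_of_mem hx, e3] at e2
        omega) hH
      refine ⟨T, fun l => ⟨(hT l).1.trans ?_, (hT l).2⟩, hT'⟩
      by_cases hl : l = i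
      · subst hl
        rw [Function.update_self]
        exact erase_subset _ _
      · rw [Function.update_of_ne hl]

end Pool.Agent.H57.Gab
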