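import Pool.Agent.H57.Gab1

set_option autoImplicit false

namespace Pool.Agent.H57.Gab

open Finset

variable {Fq : Type*} [Field Fq] [Fintype Fq] {K : Type*} [Field K] [Algebra Fq K] {n : ℕ}

lemma exists_kernel {α β : Type*} [Fintype α] [Fintype β] (hlt : Fintype.card α < Fintype.card β)
    (M : α → β → K) : ∃ w : β → K, w ≠ 0 ∧ ∀ s, ∑ t, w t * M s t = 0 := by
  have := LinearMap.ker_ne_bot_of_finrank_lt (f := Matrix.mulVecLin (Matrix.of M))
    (by simpa using hlt)
  obtain ⟨w, hw, hw0⟩ := Submodule.exists_mem_ne_zero_of_ne_bot this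
  refine ⟨w, hw0, fun s => ?_⟩
  have := congrFun (LinearMap.mem_ker.mp hw) s
  simp only [Matrix.mulVecLin_apply, Matrix.mulVec, dotProduct, Matrix.of_apply,
    Pi.zero_apply] at this
  rw [← this]
  exact sum_congr rfl fun t _ => mul_comm _ _

lemma li_map {ι : Type*} [Fintype ι] [DecidableEq ι] (φ : K →+* K) (c : ι → Fin n → K)
    (hc : LinearIndependent K c) : LinearIndependent K (fun i j => φ (c i j)) := by
  have hinj : LinearMap.ker (Fintype.linearCombination K c) = ⊥ :=
    LinearMap.ker_eq_bot'.mpr fun m hm => funext (Fintype.linearIndependent_iff.mp hc m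
      (by simpa [Fintype.linearCombination_apply] using hm))
  obtain ⟨L, hL⟩ := LinearMap.exists_leftInverse_of_injective _ hinj
  have h1 : ∀ i i', ∑ j, c i' j * L (Pi.single j 1) i = if i = i' then 1 else 0 := by
    intro i i'
    have e1 := congrFun (LinearMap.congr_fun hL (Pi.single i' 1)) i
    simp only [LinearMap.comp_apply, Fintype.linearCombination_apply_single, one_smul,
      LinearMap.id_apply, Pi.single_apply] at e1
    rw [← e1, LinearMap.pi_apply_eq_sum_univ L (c i'), Finset.sum_apply]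
    refine sum_congr rfl fun j _ => ?_
    simp only [Pi.smul_apply, smul_eq_mul]
    have : (Pi.single j 1 : Fin n → K) = fun l => if j = l then 1 else 0 := by
      funext l
      simp [Pi.single_apply, eq_comm]
    rw [this]
  rw [Fintype.linearIndependent_iff]
  intro μ hμ i
  have h2 : ∀ j, ∑ i', μ i' * φ (c i' j) = 0 := by
    intro j
    have := congrFun hμ j
    simpa [Finset.sum_apply] using this
  have h3 : ∑ i', μ i' * φ (∑ j, c i' j * L (Pi.single j 1) i) = μ i := by
    simp only [h1, apply_ite φ, map_one, map_zero, mul_ite, mul_one, mul_zero]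
    simp
  rw [← h3]
  simp only [map_sum, map_mul, mul_sum]
  rw [sum_comm]
  refine sum_eq_zero fun j _ => ?_
  simp only [← mul_assoc]
  rw [← sum_mul, h2, zero_mul]

lemma der_pow (D : K →+ K) (hD : ∀ x y, D (x * y) = x * D y + y * D x) (x : K) (m : ℕ) :
    D (x ^ (m + 1)) = (m + 1 : ℕ) * x ^ m * D x := by
  induction m with
  | zero => simp
  | succ m ih =>
    rw [pow_succ, hD, ih]
    push_cast
    ring

lemma der_frob (D : K →+ K) (hD : ∀ x y, D (x * y) = x * D y + y * D x) (x : K) :
    D (x ^ Fintype.card Fq) = 0 := by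
  obtain ⟨m, hm⟩ : ∃ m, Fintype.card Fq = m + 1 := Nat.exists_eq_succ_of_ne_zero Fintype.card_ne_zero
  have : ((Fintype.card Fq : ℕ) : K) = 0 := by
    rw [← map_natCast (algebraMap Fq K), FiniteField.cast_card_eq_zero, map_zero]
  rw [hm, der_pow D hD, ← hm, this, zero_mul, zero_mul]

lemma span_pair_of {r : ℕ} {u : Fin n → K} (hu : LinearIndependent Fq u) {T : Finset (Fin n)}
    (hT : T.card = r + 2) (c : Fin 2 → Fin n → K) (hc : LinearIndependent K c)
    (h1 : ∀ i, (∀ j ∉ T, c i j = 0) ∧ ∀ s < r, ∑ j, c i j * u j ^ Fintype.card Fq ^ s = 0)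
    (v : Fin n → K) (hv : ∀ j ∉ T, v j = 0)
    (hv' : ∀ s < r, ∑ j, v j * u j ^ Fintype.card Fq ^ s = 0) :
    ∃ μ ν : K, v = μ • c 0 + ν • c 1 := by
  obtain ⟨x, hx, y, hy, hxy⟩ := one_lt_card.mp (show 1 < T.card by omega)
  obtain ⟨w, hw0, hw⟩ := exists_kernel (K := K) (α := Fin 2) (β := Fin 3) (by simp)
    (fun s t => (![c 0, c 1, v] t) (![x, y] s))
  have e0 := hw 0
  have e1 := hw 1
  simp only [Fin.sum_univ_three, Matrix.cons_val_zero, Matrix.cons_val_one, Matrix.cons_val] at e0 e1
  have hz := moore (Fq := Fq) r u hu ((T.erase x).erase y)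
    (by rw [card_erase_of_mem (mem_erase.mpr ⟨hxy.symm, hy⟩), card_erase_of_mem hx]; omega)
    (w 0 • c 0 + w 1 • c 1 + w 2 • v)
    (by
      intro j hj
      simp only [Pi.add_apply, Pi.smul_apply, smul_eq_mul]
      by_cases hjy : j = y
      · rw [hjy]; exact e1
      by_cases hjx : j = x
      · rw [hjx]; exact e0
      have : j ∉ T := fun h => hj (mem_erase.mpr ⟨hjy, mem_erase.mpr ⟨hjx, h⟩⟩)
      rw [(h1 0).1 j this, (h1 1).1 j this, hv j this]
      ring)
    (by
      intro s hs
      simp only [Pi.add_apply, Pi.smul_apply, smul_eq_mul, add_mul, sum_add_distrib, mul_assoc,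
        ← mul_sum]
      rw [(h1 0).2 s hs, (h1 1).2 s hs, hv' s hs]
      ring)
  have hw2 : w 2 ≠ 0 := by
    intro h2
    rw [h2, zero_smul, add_zero] at hz
    have := Fintype.linearIndependent_iff.mp hc ![w 0, w 1] (by
      simpa [Fin.sum_univ_two] using hz)
    apply hw0
    funext t
    fin_cases t
    · exact this 0
    · exact this 1
    · exact h2
  refine ⟨-(w 0 / w 2), -(w 1 / w 2), ?_⟩
  funext j
  have := congrFun hz j
  simp only [Pi.add_apply, Pi.smul_apply, smul_eq_mul, Pi.zero_apply] at this ⊢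
  field_simp
  linear_combination this

end Pool.Agent.H57.Gab
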