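import Pool.Agent.H57.Gab2

set_option autoImplicit false

namespace Pool.Agent.H57.Gab

open Finset

variable {Fq : Type*} [Field Fq] [Fintype Fq] {K : Type*} [Field K] [Algebra Fq K] {n : ℕ}

/-- Every coordinate direction is realised by a derivation. -/
def Ders (h : Fin n → K) : Prop :=
  ∀ g : Fin n → K, ∃ D : K →+ K, (∀ x y, D (x * y) = x * D y + y * D x) ∧ ∀ j, D (h j) = g j

lemma dual_eq (γ : Module.Dual K (Fin n → K)) (c : Fin n → K) :
    γ c = ∑ j, c j * γ (Pi.single j 1) := by
  rw [LinearMap.pi_apply_eq_sum_univ γ c]
  refine sum_congr rfl fun j _ => ?_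
  have : (Pi.single j 1 : Fin n → K) = fun l => if j = l then 1 else 0 := by
    funext l
    simp [Pi.single_apply, eq_comm]
  rw [this, smul_eq_mul]

lemma der_lin {h : Fin n → K} (D : K →+ K) (hD : ∀ x y, D (x * y) = x * D y + y * D x)
    (g : Fin n → K) (hg : ∀ j, D (h j) = g j) (a : Fin n → K) (ha : ∀ j, D (a j) = 0) :
    D (∑ j, a j * h j) = ∑ j, a j * g j := by
  rw [map_sum]
  refine sum_congr rfl fun j _ => ?_
  rw [hD, ha, hg, mul_zero, add_zero]

/-- The derivation form of the Dilworth truncation argument. -/
lemma trunc {ι : Type*} [Fintype ι] [DecidableEq ι] {h : Fin n → K} (hD : Ders h)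
    (a b : ι → Fin n → K)
    (ha : ∀ D : K →+ K, (∀ x y, D (x * y) = x * D y + y * D x) → ∀ i j, D (a i j) = 0)
    (hb : ∀ D : K →+ K, (∀ x y, D (x * y) = x * D y + y * D x) → ∀ i j, D (b i j) = 0)
    (ha0 : ∀ i, a i ≠ 0)
    (hrank : ∀ I : Finset ι, I.Nonempty → ∀ w : Finset (Fin n → K),
      (∀ i ∈ I, a i ∈ Submodule.span K (w : Set (Fin n → K)) ∧
        b i ∈ Submodule.span K (w : Set (Fin n → K))) → I.card + 1 ≤ w.card) :
    LinearIndependent K
      (fun i => (∑ j, b i j * h j) • a i - (∑ j, a i j * h j) • b i) := by
  classical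
  set α : ι → K := fun i => ∑ j, a i j * h j with hα
  set β : ι → K := fun i => ∑ j, b i j * h j with hβ
  set x : ι → Fin n → K := fun i => β i • a i - α i • b i with hx
  have hα0 : ∀ i, α i ≠ 0 := by
    intro i h0
    apply ha0 i
    funext j
    obtain ⟨D, hD1, hD2⟩ := hD (Pi.single j 1)
    have := der_lin D hD1 _ hD2 (a i) (ha D hD1 i)
    rw [show ∑ j, a i j * h j = α i from rfl, h0, map_zero] at this
    simpa [Pi.single_apply] using this.symm
  set p : ι → Fin n → K := fun i => (α i)⁻¹ • a i with hp
  have key : ∀ lam : ι → K, ∑ i, lam i • x i = 0 → ∀ γ : Module.Dual K (Fin n → K),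
      ∃ μ : ι → K, (∀ i, lam i = 0 → μ i = 0) ∧
        ∑ i, (lam i * γ (x i)) • p i = ∑ i, μ i • x i := by
    intro lam hlam γ
    obtain ⟨D, hD1, hD2⟩ := hD (fun j => γ (Pi.single j 1))
    refine ⟨fun i => lam i * γ (a i) / α i + D (lam i), fun i hi => by simp [hi], ?_⟩
    funext j
    have e0 : D (∑ i, lam i * x i j) = 0 := by
      have := congrFun hlam j
      simp only [Finset.sum_apply, Pi.smul_apply, smul_eq_mul, Pi.zero_apply] at this
      rw [this, map_zero]
    rw [map_sum] at e0
    simp only [Finset.sum_apply, Pi.smul_apply, smul_eq_mul]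
    rw [← sub_eq_zero, ← sum_sub_distrib, ← neg_eq_zero, ← sum_neg_distrib, ← e0]
    refine sum_congr rfl fun i _ => ?_
    have e1 : D (α i) = γ (a i) := by
      rw [dual_eq γ (a i)]
      exact der_lin D hD1 _ hD2 (a i) (ha D hD1 i)
    have e2 : D (β i) = γ (b i) := by
      rw [dual_eq γ (b i)]
      exact der_lin D hD1 _ hD2 (b i) (hb D hD1 i)
    have e3 : x i j = β i * a i j - α i * b i j := by simp [hx]
    have e4 : γ (x i) = β i * γ (a i) - α i * γ (b i) := by simp [hx]
    have e5 : p i j = (α i)⁻¹ * a i j := by simp [hp]
    rw [e4, hD1, e3, map_sub, hD1, hD1, ha D hD1, hb D hD1, e1, e2, e5]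
    have := hα0 i
    field_simp
    ring
  have main : ∀ N : ℕ, ∀ lam : ι → K, (univ.filter fun i => lam i ≠ 0).card ≤ N →
      ∑ i, lam i • x i = 0 → lam = 0 := by
    intro N
    induction N with
    | zero =>
      intro lam hN _
      funext i
      by_contra hi
      have : i ∈ univ.filter fun i => lam i ≠ 0 := by simpa using hi
      have := card_pos.mpr ⟨i, this⟩
      omega
    | succ N ih =>
      intro lam hN hlam
      by_contra hne
      obtain ⟨i0, hi0⟩ : ∃ i0, lam i0 ≠ 0 := by
        by_contra hh
        push Not at hh
        exact hne (funext hh)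
      set I := univ.filter fun i => lam i ≠ 0 with hI
      have hmem : ∀ i, i ∈ I ↔ lam i ≠ 0 := by intro i; simp [hI]
      have hi0I : i0 ∈ I := (hmem i0).mpr hi0
      set w : Finset (Fin n → K) := insert (p i0) ((I.erase i0).image x) with hw
      set W := Submodule.span K (w : Set (Fin n → K)) with hW
      have hx1 : ∀ i ∈ I.erase i0, x i ∈ W := by
        intro i hi
        apply Submodule.subset_span
        simp only [hw, coe_insert, coe_image, Set.mem_insert_iff, Set.mem_image]
        exact Or.inr ⟨i, hi, rfl⟩
      have hx0 : x i0 ∈ W := by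
        have e := add_sum_erase univ (fun i => lam i • x i) (mem_univ i0)
        rw [hlam] at e
        have h1 : ∑ i ∈ univ.erase i0, lam i • x i ∈ W := by
          refine Submodule.sum_mem _ fun i hi => ?_
          by_cases hl : lam i = 0
          · rw [hl, zero_smul]; exact W.zero_mem
          · exact W.smul_mem _ (hx1 i (mem_erase.mpr ⟨(mem_erase.mp hi).1, (hmem i).mpr hl⟩))
        have h2 : lam i0 • x i0 ∈ W := by
          rw [eq_neg_of_add_eq_zero_left e]
          exact W.neg_mem h1
        exact (W.smul_mem_iff hi0).mp h2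
      have hxI : ∀ i ∈ I, x i ∈ W := by
        intro i hi
        by_cases hii : i = i0
        · rw [hii]; exact hx0
        · exact hx1 i (mem_erase.mpr ⟨hii, hi⟩)
      have hp0 : p i0 ∈ W := Submodule.subset_span (by simp [hw])
      have hpI : ∀ i ∈ I, p i ∈ W := by
        intro i hi
        by_cases hii : i = i0
        · rw [hii]; exact hp0
        have hnot : x i ∉ Submodule.span K (x '' (((I.erase i0).erase i : Finset ι) : Set ι)) := by
          intro hin
          obtain ⟨c, hc⟩ := (Submodule.mem_span_image_finset_iff_exists_fun' K).mp hin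
          have := ih (fun l => if l = i then -1 else if l ∈ (I.erase i0).erase i then c l else 0)
            (by
              have : (univ.filter fun l => (if l = i then -1 else
                  if l ∈ (I.erase i0).erase i then c l else 0) ≠ 0) ⊆ I.erase i0 := by
                intro l hl
                simp only [mem_filter, mem_univ, true_and] at hl
                by_cases hli : l = i
                · rw [hli]; exact mem_erase.mpr ⟨hii, hi⟩
                · rw [if_neg hli] at hl
                  by_contra hn
                  apply hl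
                  rw [if_neg (fun hh => hn (mem_erase.mp hh).2)]
              have h3 := card_le_card this
              rw [card_erase_of_mem hi0I] at h3
              omega)
            (by
              rw [← add_sum_erase univ _ (mem_univ i)]
              simp only [if_true]
              have : ∑ l ∈ univ.erase i, (if l = i then -1 else
                  if l ∈ (I.erase i0).erase i then c l else 0) • x l =
                  ∑ l ∈ (I.erase i0).erase i, c l • x l := by
                rw [← sum_subset (erase_subset_erase i (subset_univ (I.erase i0)))]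
                · refine sum_congr rfl fun l hl => ?_
                  rw [if_neg (mem_erase.mp hl).1, if_pos hl]
                · intro l hl hl'
                  rw [if_neg (mem_erase.mp hl).1, if_neg hl', zero_smul]
              rw [this, hc]
              simp)
          have := congrFun this i
          simp at this
        obtain ⟨γ, hγ, hγ'⟩ := Submodule.exists_dual_map_eq_bot_of_notMem hnot inferInstance
        have hγ0 : ∀ l, l ≠ i ∧ l ≠ i0 → lam l * γ (x l) = 0 := by
          intro l hl
          by_cases hl0 : lam l = 0
          · rw [hl0, zero_mul]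
          · have : γ (x l) ∈ (⊥ : Submodule K K) := by
              rw [← hγ']
              refine Submodule.mem_map_of_mem (Submodule.subset_span ⟨l, ?_, rfl⟩)
              exact mem_coe.mpr (mem_erase.mpr ⟨hl.1, mem_erase.mpr ⟨hl.2, (hmem l).mpr hl0⟩⟩)
            rw [(Submodule.mem_bot K).mp this, mul_zero]
        obtain ⟨μ, hμ, hμ'⟩ := key lam hlam γ
        have h1 : ∑ l, μ l • x l ∈ W := by
          refine Submodule.sum_mem _ fun l _ => ?_
          by_cases hl : lam l = 0
          · rw [hμ l hl, zero_smul]; exact W.zero_mem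
          · exact W.smul_mem _ (hxI l ((hmem l).mpr hl))
        rw [← hμ', Fintype.sum_eq_add i i0 hii (fun l hl => by rw [hγ0 l hl, zero_smul])] at h1
        have h2 := W.sub_mem h1 (W.smul_mem (lam i0 * γ (x i0)) hp0)
        rw [add_sub_cancel_right] at h2
        exact (W.smul_mem_iff (mul_ne_zero ((hmem i).mp hi) hγ)).mp h2
      have hle := hrank I ⟨i0, hi0I⟩ w (by
        intro i hi
        have h1 : a i ∈ W := by
          have := hpI i hi
          exact (W.smul_mem_iff (inv_ne_zero (hα0 i))).mp this
        refine ⟨h1, ?_⟩
        have h2 := W.sub_mem (W.smul_mem (β i) h1) (hxI i hi)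
        have : β i • a i - x i = α i • b i := by simp [hx]
        rw [this] at h2
        exact (W.smul_mem_iff (hα0 i)).mp h2)
      have h3 : w.card ≤ ((I.erase i0).image x).card + 1 := card_insert_le _ _
      have h4 : ((I.erase i0).image x).card ≤ (I.erase i0).card := card_image_le
      rw [card_erase_of_mem hi0I] at h4
      have := card_pos.mpr ⟨i0, hi0I⟩
      omega
  rw [Fintype.linearIndependent_iff]
  intro lam hlam i
  exact congrFun (main _ lam le_rfl hlam) i

theorem generic {h : Fin n → K} (hD : Ders h) (hh : LinearIndependent Fq h) (r : ℕ) :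
    ∀ (ι : Type) [Fintype ι] [DecidableEq ι] (S : ι → Finset (Fin n)), Hall r S →
      ∃ c : ι → Fin n → K, (∀ i, (∀ j ∉ S i, c i j = 0) ∧
        ∀ s < r, ∑ j, c i j * h j ^ Fintype.card Fq ^ s = 0) ∧ LinearIndependent K c := by
  induction r with
  | zero =>
    intro ι _ _ S hS
    obtain ⟨f, hf, hf'⟩ := (Finset.all_card_le_biUnion_card_iff_exists_injective S).mp (by
      intro Ω
      rcases Ω.eq_empty_or_nonempty with rfl | hn
      · simp
      · simpa using hS Ω hn)
    refine ⟨fun i => Pi.single (f i) 1, fun i => ⟨fun j hj => ?_, fun s hs => by omega⟩, ?_⟩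
    · refine Pi.single_eq_of_ne ?_ _
      rintro rfl
      exact hj (hf' i)
    · have := (Pi.basisFun K (Fin n)).linearIndependent.comp f hf
      convert this using 1
      funext i
      simp
  | succ r ih =>
    intro ι _ _ S hS
    obtain ⟨T, hT, hTH⟩ := shrink _ S le_rfl hS
    have hq0 : Fintype.card Fq ≠ 0 := Fintype.card_ne_zero
    have shift : ∀ (κ : Type) [Fintype κ] [DecidableEq κ] (U : κ → Finset (Fin n)), Hall r U →
        ∃ c : κ → Fin n → K, (∀ i, (∀ j ∉ U i, c i j = 0) ∧
          ∀ s < r, ∑ j, c i j * (h j ^ Fintype.card Fq) ^ Fintype.card Fq ^ s = 0) ∧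
          LinearIndependent K c ∧ ∀ D : K →+ K, (∀ x y, D (x * y) = x * D y + y * D x) →
            ∀ i j, D (c i j) = 0 := by
      intro κ _ _ U hU
      obtain ⟨c, hc, hc'⟩ := ih κ U hU
      refine ⟨fun i j => c i j ^ Fintype.card Fq, fun i => ⟨fun j hj => ?_, fun s hs => ?_⟩,
        li_map (FiniteField.frobeniusAlgHom Fq K).toRingHom c hc',
        fun D hD i j => der_frob D hD _⟩
      · show c i j ^ Fintype.card Fq = 0
        rw [(hc i).1 j hj, zero_pow hq0]
      · have e : ∀ j, (h j ^ Fintype.card Fq) ^ Fintype.card Fq ^ s =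
            h j ^ Fintype.card Fq ^ (s + 1) := by
          intro j
          rw [← pow_mul, pow_succ']
        simp only [e]
        rw [frob_sum, (hc i).2 s hs, zero_pow hq0]
    have hpair : ∀ i, Hall r (fun _ : Fin 2 => T i) := by
      intro i Ω hΩ
      have h1 : Ω.card ≤ 2 := by simpa using card_le_univ Ω
      obtain ⟨l, hl⟩ := hΩ
      have h2 : (T i).card ≤ (Ω.biUnion fun _ => T i).card :=
        card_le_card (subset_biUnion_of_mem (fun _ => T i) hl)
      have := (hT i).2
      omega
    choose c hc1 hc2 hc3 using fun i => shift (Fin 2) _ (hpair i)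
    have hli := trunc hD (fun i => c i 0) (fun i => c i 1) (fun D hD i => hc3 i D hD 0)
      (fun D hD i => hc3 i D hD 1) (fun i => (hc2 i).ne_zero 0) (by
        intro I hI w hw
        obtain ⟨i0, hi0⟩ := hI
        set e : Option I → ι := fun o => o.elim i0 Subtype.val with he
        have heI : ∀ o, e o ∈ I := by
          rintro (_ | o)
          · exact hi0
          · exact o.2
        obtain ⟨d, hd1, hd2, -⟩ := shift (Option I) (fun o => T (e o)) (by
          intro Ω hΩ
          have h1 := hTH (Ω.image e) (hΩ.image e)
          rw [image_biUnion] at h1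
          have h2 : (Ω.erase none).card ≤ (Ω.image e).card := by
            refine card_le_card_of_injOn e (fun o ho => ?_) ?_
            · exact mem_coe.mpr (mem_image_of_mem e (mem_erase.mp (mem_coe.mp ho)).2)
            · rintro (_ | o) ho (_ | o') ho' hoo
              · rfl
              · simp at ho
              · simp at ho'
              · simp only [he, Option.elim] at hoo
                rw [Subtype.ext hoo]
          have h3 : Ω.card ≤ (Ω.erase none).card + 1 := by
            have := pred_card_le_card_erase (s := Ω) (a := none)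
            omega
          omega)
        have := linearIndependent_le_span_aux' d hd2 (w : Set (Fin n → K)) (by
          rintro _ ⟨o, rfl⟩
          obtain ⟨μ, ν, hμ⟩ := span_pair_of (li_frob hh) (hT (e o)).2 (c (e o)) (hc2 _) (hc1 _)
            (d o) (hd1 o).1 (hd1 o).2
          rw [hμ]
          exact Submodule.add_mem _ (Submodule.smul_mem _ _ (hw _ (heI o)).1)
            (Submodule.smul_mem _ _ (hw _ (heI o)).2))
        simpa using this)
    refine ⟨_, fun i => ⟨fun j hj => ?_, fun s hs => ?_⟩, hli⟩
    · have : j ∉ T i := fun hh => hj ((hT i).1 hh)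
      simp [(hc1 i 0).1 j this, (hc1 i 1).1 j this]
    · simp only [Pi.sub_apply, Pi.smul_apply, smul_eq_mul, sub_mul, sum_sub_distrib, mul_assoc,
        ← mul_sum]
      rcases s with _ | s
      · simp only [pow_zero, pow_one]
        ring
      · have e : ∀ j, h j ^ Fintype.card Fq ^ (s + 1) =
            (h j ^ Fintype.card Fq) ^ Fintype.card Fq ^ s := by
          intro j
          rw [← pow_mul, pow_succ']
        simp only [e]
        rw [(hc1 i 0).2 s (by omega), (hc1 i 1).2 s (by omega)]
        ring

end Pool.Agent.H57.Gab
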