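import Pool.Agent.H57.Gab3

set_option autoImplicit false

namespace Pool.Agent.H57.Gab

open Finset

lemma ders_frac (F : Type*) [Field F] (n : ℕ) :
    Ders (fun j : Fin n => algebraMap (MvPolynomial (Fin n) F)
      (FractionRing (MvPolynomial (Fin n) F)) (MvPolynomial.X j)) := by
  intro g
  let R := MvPolynomial (Fin n) F
  let K := FractionRing R
  let ψ : R →+* TrivSqZeroExt K K :=
    MvPolynomial.eval₂Hom ((TrivSqZeroExt.inlHom K K).comp ((algebraMap R K).comp MvPolynomial.C))
      (fun j => TrivSqZeroExt.inl (algebraMap R K (MvPolynomial.X j)) + TrivSqZeroExt.inr (g j))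
  have h1 : (TrivSqZeroExt.fstHom K K K).toRingHom.comp ψ = algebraMap R K := by
    apply MvPolynomial.ringHom_ext
    · intro a
      simp [ψ]
    · intro j
      simp [ψ]
  have h2 : ∀ y : nonZeroDivisors R, IsUnit (ψ y) := by
    intro y
    rw [TrivSqZeroExt.isUnit_iff_isUnit_fst]
    have : (ψ y).fst = algebraMap R K y := RingHom.congr_fun h1 y
    rw [this]
    exact IsLocalization.map_units K y
  let Ψ : K →+* TrivSqZeroExt K K := IsLocalization.lift h2
  have h3 : (TrivSqZeroExt.fstHom K K K).toRingHom.comp Ψ = RingHom.id K := by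
    apply IsLocalization.ringHom_ext (nonZeroDivisors R)
    rw [RingHom.comp_assoc, IsLocalization.lift_comp, h1, RingHom.id_comp]
  have h4 : ∀ x, (Ψ x).fst = x := fun x => RingHom.congr_fun h3 x
  refine ⟨(TrivSqZeroExt.sndHom K K).toAddMonoidHom.comp Ψ.toAddMonoidHom, fun x y => ?_,
    fun j => ?_⟩
  · show (Ψ (x * y)).snd = x * (Ψ y).snd + y * (Ψ x).snd
    rw [map_mul, TrivSqZeroExt.snd_mul, h4, h4]
    simp [mul_comm]
  · show (Ψ (algebraMap R K (MvPolynomial.X j))).snd = _
    have : Ψ (algebraMap R K (MvPolynomial.X j)) = ψ (MvPolynomial.X j) :=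
      IsLocalization.lift_eq h2 _
    have h5 : ψ (MvPolynomial.X j) = TrivSqZeroExt.inl (algebraMap R K (MvPolynomial.X j)) +
        TrivSqZeroExt.inr (g j) := MvPolynomial.eval₂Hom_X' _ _ _
    rw [this, h5]
    simp

variable {Fq : Type*} [Field Fq] [Fintype Fq]

lemma li_of_ders {K : Type*} [Field K] [Algebra Fq K] {n : ℕ} {h : Fin n → K} (hD : Ders h) :
    LinearIndependent Fq h := by
  rw [Fintype.linearIndependent_iff]
  intro a ha j
  obtain ⟨D, hD1, hD2⟩ := hD (Pi.single j 1)
  have := der_lin D hD1 _ hD2 (fun l => algebraMap Fq K (a l)) (fun l => by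
    rw [← FiniteField.pow_card (a l), map_pow]
    exact der_frob D hD1 _)
  simp only [← Algebra.smul_def] at this
  rw [ha, map_zero] at this
  simpa [Pi.single_apply, Algebra.smul_def] using this.symm

lemma avoid {F : Type*} [Field F] [Fintype F] [Algebra Fq F] (d n : ℕ) :
    ∀ P : MvPolynomial (Fin n) F, P ≠ 0 → P.totalDegree ≤ d →
      (∀ m < n, d + Fintype.card Fq ^ m < Fintype.card F) →
      ∃ h : Fin n → F, LinearIndependent Fq h ∧ MvPolynomial.eval h P ≠ 0 := by
  classical
  induction n with
  | zero =>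
    intro P hP _ _
    refine ⟨fun j => j.elim0, linearIndependent_empty_type, ?_⟩
    rw [MvPolynomial.eq_C_of_isEmpty P] at hP ⊢
    rw [MvPolynomial.eval_C]
    intro h0
    exact hP (by rw [h0, map_zero])
  | succ n ih =>
    intro P hP hd hc
    set Q := MvPolynomial.finSuccEquiv F n P with hQ
    have hQ0 : Q ≠ 0 := by
      rw [hQ]
      exact (map_ne_zero_iff _ (MvPolynomial.finSuccEquiv F n).injective).mpr hP
    have hl : Q.coeff Q.natDegree ≠ 0 := Polynomial.leadingCoeff_ne_zero.mpr hQ0
    have hl' := MvPolynomial.totalDegree_coeff_finSuccEquiv_add_le P Q.natDegree hl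
    obtain ⟨s, hs, hs'⟩ := ih _ hl (by rw [← hQ] at hl'; omega) (fun m hm => hc m (by omega))
    set Q' := Q.map (MvPolynomial.eval s) with hQ'
    have hQ'0 : Q' ≠ 0 := by
      intro h0
      apply hs'
      have := congrArg (fun p => Polynomial.coeff p Q.natDegree) h0
      simpa [hQ'] using this
    have hdeg : Q'.natDegree ≤ d := by
      have : Q'.natDegree ≤ Q.natDegree := Polynomial.natDegree_map_le
      omega
    set B : Finset F := Q'.roots.toFinset ∪ univ.image (fun a : Fin n → Fq => ∑ j, a j • s j) with hB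
    have hBc : B.card < (univ : Finset F).card := by
      have h1 : Q'.roots.toFinset.card ≤ d :=
        (Multiset.toFinset_card_le _).trans ((Polynomial.card_roots' Q').trans hdeg)
      have h2 : (univ.image (fun a : Fin n → Fq => ∑ j, a j • s j)).card ≤
          Fintype.card Fq ^ n := card_image_le.trans (by simp)
      have h3 := card_union_le Q'.roots.toFinset (univ.image (fun a : Fin n → Fq => ∑ j, a j • s j))
      have h4 := hc n (by omega)
      rw [card_univ, hB]
      omega
    obtain ⟨y, -, hy⟩ := exists_mem_notMem_of_card_lt_card hBc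
    simp only [hB, mem_union, Multiset.mem_toFinset, not_or, mem_image, mem_univ, true_and,
      not_exists] at hy
    refine ⟨Fin.cons y s, ?_, ?_⟩
    · rw [linearIndependent_finCons]
      refine ⟨hs, fun hin => ?_⟩
      obtain ⟨a, ha⟩ := (Submodule.mem_span_range_iff_exists_fun Fq).mp hin
      exact hy.2 a ha
    · rw [MvPolynomial.eval_eq_eval_mv_eval']
      intro h0
      exact hy.1 ((Polynomial.mem_roots hQ'0).mpr h0)

section Block

variable {k r n : ℕ} (q : ℕ) (e : Fin k → Fin (r + 1) → Fin n) (J : Fin k → Fin n)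

/-- The square system expressing a dependence among codewords with prescribed supports. -/
def blk {A : Type*} [CommRing A] (h : Fin n → A) :
    Matrix (Fin k × Fin (r + 1)) (Fin k × Fin (r + 1)) A := fun a b =>
  if (a.2 : ℕ) < r then (if a.1 = b.1 then h (e b.1 b.2) ^ q ^ (a.2 : ℕ) else 0)
  else (if e b.1 b.2 = J a.1 then 1 else 0)

/-- The vectors encoded by a solution of the system. -/
def vec {A : Type*} [CommRing A] (X : Fin k × Fin (r + 1) → A) (i : Fin k) : Fin n → A :=
  fun j => ∑ t, if e i t = j then X (i, t) else 0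

lemma vec_dot {A : Type*} [CommRing A] (X : Fin k × Fin (r + 1) → A) (i : Fin k) (u : Fin n → A) :
    ∑ j, vec e X i j * u j = ∑ t, X (i, t) * u (e i t) := by
  simp only [vec, sum_mul]
  rw [sum_comm]
  refine sum_congr rfl fun t _ => ?_
  simp

lemma blk_mulVec {A : Type*} [CommRing A] (h : Fin n → A) (X : Fin k × Fin (r + 1) → A)
    (i : Fin k) (s : Fin (r + 1)) :
    (blk q e J h).mulVec X (i, s) =
      if (s : ℕ) < r then ∑ j, vec e X i j * h j ^ q ^ (s : ℕ) else ∑ l, vec e X l (J i) := by
  simp only [Matrix.mulVec, dotProduct, blk, Fintype.sum_prod_type]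
  split_ifs with hs
  · rw [vec_dot e X i (fun j => h j ^ q ^ (s : ℕ)), Fintype.sum_eq_single i]
    · simp [mul_comm]
    · intro l hl
      simp [hl.symm]
  · simp [vec]

lemma blk_det_map {A B : Type*} [CommRing A] [CommRing B] (φ : A →+* B) (h : Fin n → A) :
    φ (blk q e J h).det = (blk q e J (fun j => φ (h j))).det := by
  rw [RingHom.map_det]
  congr 1
  ext a b
  simp only [RingHom.mapMatrix_apply, Matrix.map_apply, blk]
  split_ifs <;> simp

lemma blk_deg {F : Type*} [Field F] :
    (blk q e J (fun j => (MvPolynomial.X j : MvPolynomial (Fin n) F))).det.totalDegree ≤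
      k * ∑ s ∈ range r, q ^ s := by
  classical
  rw [Matrix.det_apply']
  refine (MvPolynomial.totalDegree_finsetSum _ _).trans (Finset.sup_le fun σ _ => ?_)
  refine (MvPolynomial.totalDegree_mul _ _).trans ?_
  have h0 : ((((Equiv.Perm.sign σ : ℤˣ) : ℤ) : MvPolynomial (Fin n) F)).totalDegree = 0 := by
    rw [← map_intCast (MvPolynomial.C : F →+* MvPolynomial (Fin n) F), MvPolynomial.totalDegree_C]
  rw [h0, zero_add]
  refine (MvPolynomial.totalDegree_finsetProd _ _).trans ?_
  have h1 : ∀ a b, (blk q e J (fun j => (MvPolynomial.X j : MvPolynomial (Fin n) F)) a b).totalDegree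
      ≤ (fun a : Fin k × Fin (r + 1) => if (a.2 : ℕ) < r then q ^ (a.2 : ℕ) else 0) a := by
    intro a b
    simp only [blk]
    split_ifs <;> simp [MvPolynomial.totalDegree_X_pow]
  refine (sum_le_sum fun b _ => h1 (σ b) b).trans ?_
  rw [Equiv.sum_comp σ (fun a : Fin k × Fin (r + 1) => if (a.2 : ℕ) < r then q ^ (a.2 : ℕ) else 0),
    Fintype.sum_prod_type]
  simp only [sum_const, card_univ, Fintype.card_fin, smul_eq_mul]
  rw [Fin.sum_univ_castSucc]
  simp [Finset.sum_range]

lemma vec_apply {A : Type*} [CommRing A] (he : ∀ i, Function.Injective (e i))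
    (X : Fin k × Fin (r + 1) → A) (i : Fin k) (t : Fin (r + 1)) : vec e X i (e i t) = X (i, t) := by
  simp [vec, (he i).eq_iff]

lemma vec_zero {A : Type*} [CommRing A] (X : Fin k × Fin (r + 1) → A) (i : Fin k) (j : Fin n)
    (hj : ∀ t, e i t ≠ j) : vec e X i j = 0 := by
  simp [vec, hj]

end Block

end Pool.Agent.H57.Gab
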