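import Pool.Agent.H57.Gab4

set_option autoImplicit false

namespace Pool.Agent.H57.Gab

open Finset

variable {Fq : Type*} [Field Fq] [Fintype Fq]

lemma blk_det_ne {K : Type*} [Field K] [Algebra Fq K] {k r n : ℕ} (hn : n = k + r)
    (e : Fin k → Fin (r + 1) → Fin n) (he : ∀ i, Function.Injective (e i))
    (J : Fin k → Fin n) (hJ : Function.Injective J) {h : Fin n → K} (hh : LinearIndependent Fq h)
    (c : Fin k → Fin n → K) (hc : ∀ i, (∀ j ∉ univ.image (e i), c i j = 0) ∧
      ∀ s < r, ∑ j, c i j * h j ^ Fintype.card Fq ^ s = 0) (hli : LinearIndependent K c) :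
    (blk (Fintype.card Fq) e J h).det ≠ 0 := by
  intro h0
  obtain ⟨X, hX0, hX⟩ := Matrix.exists_mulVec_eq_zero_iff.mpr h0
  have h1 : ∀ i, ∀ s < r, ∑ j, vec e X i j * h j ^ Fintype.card Fq ^ s = 0 := by
    intro i s hs
    have := congrFun hX (i, ⟨s, by omega⟩)
    rw [blk_mulVec, if_pos hs] at this
    exact this
  have h2 : ∀ i, ∑ l, vec e X l (J i) = 0 := by
    intro i
    have := congrFun hX (i, Fin.last r)
    rw [blk_mulVec, if_neg (by simp)] at this
    exact this
  have h3 : ∀ i, ∃ μ : K, vec e X i = μ • c i := by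
    intro i
    obtain ⟨j0, hj0⟩ : ∃ j0, c i j0 ≠ 0 := by
      by_contra hn
      push Not at hn
      exact hli.ne_zero i (funext hn)
    have hj0' : j0 ∈ univ.image (e i) := by
      by_contra hn
      exact hj0 ((hc i).1 j0 hn)
    refine ⟨vec e X i j0 / c i j0, sub_eq_zero.mp ?_⟩
    refine moore (Fq := Fq) r h hh ((univ.image (e i)).erase j0) ?_ _ ?_ ?_
    · rw [card_erase_of_mem hj0', card_image_of_injective _ (he i)]
      simp
    · intro j hj
      simp only [Pi.sub_apply, Pi.smul_apply, smul_eq_mul]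
      by_cases hjj : j = j0
      · rw [hjj]
        field_simp
        ring
      · have : j ∉ univ.image (e i) := fun hh => hj (mem_erase.mpr ⟨hjj, hh⟩)
        rw [(hc i).1 j this, vec_zero e X i j (fun t ht => this (by simp [← ht]))]
        ring
    · intro s hs
      simp only [Pi.sub_apply, Pi.smul_apply, smul_eq_mul, sub_mul, sum_sub_distrib, mul_assoc,
        ← mul_sum]
      rw [h1 i s hs, (hc i).2 s hs]
      ring
  choose μ hμ using h3
  have h4 : ∑ l, vec e X l = 0 := by
    refine moore (Fq := Fq) r h hh (univ.image J)ᶜ ?_ _ ?_ ?_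
    · rw [card_compl, card_image_of_injective _ hJ]
      simp
      omega
    · intro j hj
      simp only [mem_compl, not_not, mem_image, mem_univ, true_and] at hj
      obtain ⟨i, rfl⟩ := hj
      rw [Finset.sum_apply]
      exact h2 i
    · intro s hs
      simp only [Finset.sum_apply, sum_mul]
      rw [sum_comm]
      exact sum_eq_zero fun l _ => h1 l s hs
  simp only [hμ] at h4
  have h5 := Fintype.linearIndependent_iff.mp hli μ h4
  apply hX0
  funext ⟨i, t⟩
  rw [← vec_apply e he X i t, hμ, h5 i]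
  simp

lemma rows_of_det {F : Type*} [Field F] (q : ℕ) {k r n : ℕ}
    (e : Fin k → Fin (r + 1) → Fin n) (he : ∀ i, Function.Injective (e i))
    (J : Fin k → Fin n) {h : Fin n → F} (hdet : (blk q e J h).det ≠ 0) :
    ∃ c : Fin k → Fin n → F, (∀ i, (∀ j ∉ univ.image (e i), c i j = 0) ∧
      ∀ s < r, ∑ j, c i j * h j ^ q ^ s = 0) ∧ LinearIndependent F c := by
  choose w hw0 hw using fun i : Fin k => exists_kernel (K := F) (α := Fin r) (β := Fin (r + 1))
    (by simp) (fun s t => h (e i t) ^ q ^ (s : ℕ))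
  set X : Fin k × Fin (r + 1) → F := fun a => w a.1 a.2 with hX
  have h1 : ∀ i, ∀ s < r, ∑ j, vec e X i j * h j ^ q ^ s = 0 := by
    intro i s hs
    rw [vec_dot e X i (fun j => h j ^ q ^ s)]
    exact hw i ⟨s, hs⟩
  refine ⟨vec e X, fun i => ⟨fun j hj => vec_zero e X i j (fun t ht => hj (by simp [← ht])),
    h1 i⟩, ?_⟩
  rw [Fintype.linearIndependent_iff]
  intro lam hlam i
  set Y : Fin k × Fin (r + 1) → F := fun a => lam a.1 * X a with hY
  have h2 : ∀ l j, vec e Y l j = lam l * vec e X l j := by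
    intro l j
    simp [vec, hY, mul_sum]
  have h3 : (blk q e J h).mulVec Y = 0 := by
    funext ⟨l, s⟩
    rw [blk_mulVec]
    split_ifs with hs
    · simp only [h2, mul_assoc, ← mul_sum, h1 l s hs, mul_zero, Pi.zero_apply]
    · have := congrFun hlam (J l)
      simpa [h2, Finset.sum_apply] using this
  have h4 : Y = 0 := by
    by_contra hne
    exact hdet (Matrix.exists_mulVec_eq_zero_iff.mp ⟨Y, hne, h3⟩)
  by_contra hi
  apply hw0 i
  funext t
  have := congrFun h4 (i, t)
  simpa [hY, hX, hi] using this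

lemma count_lt {q k r m N : ℕ} (hq : 2 ≤ q) (hk : 1 ≤ k) (hm : m < k + r) (hN : k + r ≤ N) :
    k * ∑ s ∈ range r, q ^ s + q ^ m < q ^ N := by
  have h1 : ∑ s ∈ range r, q ^ s < q ^ r := Nat.geomSum_lt hq (fun _ => mem_range.mp)
  obtain ⟨k', rfl⟩ : ∃ k', k = k' + 1 := ⟨k - 1, by omega⟩
  have h2 : k' + 1 ≤ q ^ k' := Nat.lt_pow_self (by omega)
  have h3 : (k' + 1) * ∑ s ∈ range r, q ^ s < q ^ (k' + r) := by
    rw [pow_add]
    exact lt_of_lt_of_le (Nat.mul_lt_mul_of_pos_left h1 (by omega)) (Nat.mul_le_mul_right _ h2)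
  have h4 : q ^ m ≤ q ^ (k' + r) := Nat.pow_le_pow_right (by omega) (by omega)
  have h5 : q ^ (k' + r + 1) ≤ q ^ N := Nat.pow_le_pow_right (by omega) (by omega)
  rw [pow_succ] at h5
  have h6 : q ^ (k' + r) * 2 ≤ q ^ (k' + r) * q := Nat.mul_le_mul_left _ hq
  omega

/-- The dual form: independent words of a parity-check Moore code with prescribed supports. -/
theorem dual_form {F : Type*} [Field F] [Fintype F] [Algebra Fq F] {k r n : ℕ} (hn : n = k + r)
    (hk : 1 ≤ k) (hm : n ≤ Module.finrank Fq F) (S : Fin k → Finset (Fin n)) (hS : Hall r S) :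
    ∃ h : Fin n → F, LinearIndependent Fq h ∧
      ∃ c : Fin k → Fin n → F, (∀ i, (∀ j ∉ S i, c i j = 0) ∧
        ∀ s < r, ∑ j, c i j * h j ^ Fintype.card Fq ^ s = 0) ∧ LinearIndependent F c := by
  obtain ⟨T, hT, hTH⟩ := shrink _ S le_rfl hS
  set e : Fin k → Fin (r + 1) → Fin n := fun i => (T i).orderEmbOfFin (hT i).2 with he
  have he1 : ∀ i, Function.Injective (e i) := fun i => ((T i).orderEmbOfFin (hT i).2).injective
  have he2 : ∀ i, univ.image (e i) = T i := fun i => image_orderEmbOfFin_univ _ _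
  set J : Fin k → Fin n := Fin.castLE (by omega) with hJ
  have hJ1 : Function.Injective J := Fin.castLE_injective _
  have hD := ders_frac F n
  obtain ⟨c, hc, hc'⟩ := generic hD (li_of_ders (Fq := Fq) hD) r (Fin k) T hTH
  have h1 := blk_det_ne hn e he1 J hJ1 (li_of_ders (Fq := Fq) hD) c (by
    intro i
    rw [he2]
    exact hc i) hc'
  rw [← blk_det_map] at h1
  obtain ⟨h, hh, hh'⟩ := avoid (Fq := Fq) _ n _ (fun h0 => h1 (by rw [h0, map_zero]))
    (blk_deg (Fintype.card Fq) e J) (by
      intro m hm'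
      rw [Module.card_eq_pow_finrank (K := Fq) (V := F)]
      exact count_lt Fintype.one_lt_card hk (by omega) (by omega))
  rw [blk_det_map] at hh'
  simp only [MvPolynomial.eval_X] at hh'
  obtain ⟨d, hd, hd'⟩ := rows_of_det _ e he1 J hh'
  refine ⟨h, hh, d, fun i => ⟨fun j hj => (hd i).1 j ?_, (hd i).2⟩, hd'⟩
  rw [he2]
  exact fun hh => hj ((hT i).1 hh)

lemma pow_hom {F : Type*} [Field F] [Algebra Fq F] (m : ℕ) (x : F) :
    (FiniteField.frobeniusAlgHom Fq F ^ m) x = x ^ Fintype.card Fq ^ m := by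
  rw [AlgHom.coe_pow, FiniteField.coe_frobeniusAlgHom, pow_iterate]

lemma dual_params {F : Type*} [Field F] [Fintype F] [Algebra Fq F] {k r n : ℕ} (hn : n = k + r)
    (hk : 1 ≤ k) {h : Fin n → F} (hh : LinearIndependent Fq h) :
    ∃ g : Fin n → F, LinearIndependent Fq g ∧ ∀ t < k, ∀ s < r,
      ∑ j, g j ^ Fintype.card Fq ^ t * h j ^ Fintype.card Fq ^ s = 0 := by
  set φ := FiniteField.frobeniusAlgHom Fq F with hφ
  have hsurj : Function.Surjective (φ ^ (k - 1)) :=
    Finite.injective_iff_surjective.mp (φ ^ (k - 1)).injective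
  choose u hu using fun j => hsurj (h j)
  have huli : LinearIndependent Fq u := by
    apply LinearIndependent.of_comp (φ ^ (k - 1)).toLinearMap
    have : ⇑(φ ^ (k - 1)).toLinearMap ∘ u = h := funext hu
    rw [this]
    exact hh
  obtain ⟨g, hg0, hg⟩ := exists_kernel (K := F) (α := Fin (n - 1)) (β := Fin n)
    (by simp; omega) (fun s j => u j ^ Fintype.card Fq ^ (s : ℕ))
  refine ⟨g, ?_, fun t ht s hs => ?_⟩
  · rw [Fintype.linearIndependent_iff]
    intro a ha j0
    by_contra hj0
    set τ : Fin n → Fq := fun j => if j = j0 then 0 else a j / a j0 with hτ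
    set c : Fin n → F := fun j => if j = j0 then 0 else g j with hc
    have hsum : ∑ j, τ j • c j = -g j0 := by
      have e1 := add_sum_erase univ (fun j => a j • g j) (mem_univ j0)
      rw [ha] at e1
      rw [← add_sum_erase univ _ (mem_univ j0)]
      have e2 : ∑ j ∈ univ.erase j0, τ j • c j = (a j0)⁻¹ • ∑ j ∈ univ.erase j0, a j • g j := by
        rw [smul_sum]
        refine sum_congr rfl fun j hj => ?_
        simp only [hτ, hc, if_neg (mem_erase.mp hj).1, smul_smul]
        rw [div_eq_inv_mul]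
      rw [e2, eq_neg_of_add_eq_zero_right e1, smul_neg, smul_smul, inv_mul_cancel₀ hj0]
      simp [hτ]
    have hli : LinearIndependent Fq (fun j => u j - τ j • u j0) := by
      rw [Fintype.linearIndependent_iff]
      intro b hb
      have e1 := Fintype.linearIndependent_iff.mp huli
        (fun j => b j - if j = j0 then ∑ l, b l * τ l else 0) (by
          rw [← hb]
          simp only [sub_smul, sum_sub_distrib, smul_sub, smul_smul, ← sum_smul, ite_smul,
            zero_smul, sum_ite_eq', mem_univ, if_true])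
      have e2 : ∀ j, j ≠ j0 → b j = 0 := by
        intro j hj
        simpa [hj] using e1 j
      have e3 : ∑ l, b l * τ l = 0 := by
        refine sum_eq_zero fun l _ => ?_
        by_cases hl : l = j0
        · simp [hτ, hl]
        · rw [e2 l hl, zero_mul]
      intro j
      simpa [e3] using e1 j
    have hc0 := moore (Fq := Fq) (n - 1) _ hli (univ.erase j0)
      (by rw [card_erase_of_mem (mem_univ _)]; simp) c
      (by
        intro j hj
        have : j = j0 := by simpa using hj
        simp [hc, this])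
      (by
        intro s hs
        have e1 := hg ⟨s, hs⟩
        simp only [← pow_hom (Fq := Fq), map_sub, map_smul, mul_sub, sum_sub_distrib] at e1 ⊢
        have e2 : ∑ j, c j * τ j • (FiniteField.frobeniusAlgHom Fq F ^ s) (u j0) =
            (∑ j, τ j • c j) * (FiniteField.frobeniusAlgHom Fq F ^ s) (u j0) := by
          rw [sum_mul]
          refine sum_congr rfl fun j _ => ?_
          rw [mul_smul_comm, smul_mul_assoc]
        rw [e2, hsum, ← e1, ← add_sum_erase univ _ (mem_univ j0),
          ← add_sum_erase univ _ (mem_univ j0)]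
        have e3 : ∑ j ∈ univ.erase j0, c j * (FiniteField.frobeniusAlgHom Fq F ^ s) (u j) =
            ∑ j ∈ univ.erase j0, g j * (FiniteField.frobeniusAlgHom Fq F ^ s) (u j) :=
          sum_congr rfl fun j hj => by simp only [hc, if_neg (mem_erase.mp hj).1]
        rw [e3]
        simp [hc, add_comm])
    apply hg0
    funext j
    by_cases hj : j = j0
    · rw [hc0] at hsum
      simp only [Pi.zero_apply, smul_zero, sum_const_zero] at hsum
      rw [hj]
      exact neg_eq_zero.mp hsum.symm
    · have := congrFun hc0 j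
      simpa [hc, hj] using this
  · have e1 := congrArg (φ ^ t) (hg ⟨k - 1 - t + s, by omega⟩)
    rw [map_sum, map_zero] at e1
    rw [← e1]
    refine sum_congr rfl fun j _ => ?_
    rw [map_mul, ← hu j, hφ]
    simp only [pow_hom, ← pow_mul, ← pow_add]
    congr 3
    omega

end Pool.Agent.H57.Gab
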