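import Mathlib

namespace Pool.Agent.H57.Garner

/-- The Collatz map. -/
def C (n : ℕ) : ℕ := if n % 2 = 0 then n / 2 else 3 * n + 1

/-- `n` has finite height `h`: `h` is the least `k` with `C^[k] n = 1`. -/
def HasHeight (n h : ℕ) : Prop := IsLeast {k : ℕ | C^[k] n = 1} h

end Pool.Agent.H57.Garner
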