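import Mathlib
import Pool.Agent.H57.GarnerDefs

namespace Pool.Agent.H57.Garner

/-- The Collatz map on the integers. -/
def D (x : ℤ) : ℤ := if x % 2 = 0 then x / 2 else 3 * x + 1

lemma D_even (x : ℤ) : D (2 * x) = x := by
  unfold D; rw [if_pos (by omega)]; omega

lemma D_odd (x : ℤ) : D (D (2 * x + 1)) = 3 * x + 2 := by
  have h : D (2 * x + 1) = 2 * (3 * x + 2) := by
    unfold D; rw [if_neg (by omega)]; ring
  rw [h, D_even]

lemma cast_C (n : ℕ) : ((C n : ℕ) : ℤ) = D n := by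
  unfold C D
  by_cases h : n % 2 = 0
  · rw [if_pos h, if_pos (by omega)]; omega
  · rw [if_neg h, if_neg (by omega)]; push_cast; ring

lemma cast_iter (k n : ℕ) : ((C^[k] n : ℕ) : ℤ) = D^[k] n := by
  induction k generalizing n with
  | zero => rfl
  | succ k ih => rw [Function.iterate_succ_apply, Function.iterate_succ_apply, ih, cast_C]

lemma it1 (s : ℕ) (x : ℤ) : D^[s + 1] (2 * x) = D^[s] x := by
  rw [Function.iterate_succ_apply, D_even]

lemma it2 (s : ℕ) (x : ℤ) : D^[s + 2] (2 * x + 1) = D^[s] (3 * x + 2) := by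
  rw [show s + 2 = (s + 1) + 1 from rfl, Function.iterate_succ_apply, Function.iterate_succ_apply,
    D_odd]

/-- Merging of `x` and `3^d x + c` on a residue class. -/
def M (d : ℕ) (c : ℤ) : Prop :=
  ∃ (k s : ℕ) (ρ : ℤ), ∀ v : ℤ, D^[s + d] (2 ^ k * v + ρ) = D^[s] (3 ^ d * (2 ^ k * v + ρ) + c)

lemma solve3 (a k : ℕ) (b ρ : ℤ) : ∃ w e : ℤ, 3 ^ a * w + b = 2 ^ k * e + ρ := by
  have h : IsCoprime ((3 : ℤ) ^ a) (2 ^ k) := by
    apply IsCoprime.pow
    exact ⟨1, -1, by norm_num⟩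
  obtain ⟨p, q, hpq⟩ := h
  refine ⟨p * (ρ - b), -q * (ρ - b), ?_⟩
  linear_combination (ρ - b) * hpq

lemma M_half {d : ℕ} {c : ℤ} (h : M d c) : M d (2 * c) := by
  obtain ⟨k, s, ρ, h⟩ := h
  refine ⟨k + 1, s + 1, 2 * ρ, fun v => ?_⟩
  have e1 : (2 : ℤ) ^ (k + 1) * v + 2 * ρ = 2 * (2 ^ k * v + ρ) := by ring
  have e2 : (3 : ℤ) ^ d * (2 * (2 ^ k * v + ρ)) + 2 * c = 2 * (3 ^ d * (2 ^ k * v + ρ) + c) := by
    ring
  rw [e1, e2, show s + 1 + d = (s + d) + 1 by ring, it1, it1, h]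

lemma M_down {d : ℕ} {c : ℤ} (h : M d c) : M (d + 1) (2 * c + 3 ^ d) := by
  obtain ⟨k, s, ρ, h⟩ := h
  obtain ⟨w, e, hwe⟩ := solve3 1 k 2 ρ
  refine ⟨k + 1, s + 1, 2 * w + 1, fun v => ?_⟩
  have e1 : (2 : ℤ) ^ (k + 1) * v + (2 * w + 1) = 2 * (2 ^ k * v + w) + 1 := by ring
  have e3 : 3 * ((2 : ℤ) ^ k * v + w) + 2 = 2 ^ k * (3 * v + e) + ρ := by
    linear_combination hwe
  have e2 : (3 : ℤ) ^ (d + 1) * (2 * (2 ^ k * v + w) + 1) + (2 * c + 3 ^ d)
      = 2 * (3 ^ d * (2 ^ k * (3 * v + e) + ρ) + c) := by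
    rw [← e3]; ring
  rw [e1, e2, show s + 1 + (d + 1) = (s + d) + 2 by ring, it2, it1, e3, h]

lemma M_up {d : ℕ} {c : ℤ} (h : M (d + 1) (3 * c + 2)) : M d (2 * c + 1) := by
  obtain ⟨k, s, ρ, h⟩ := h
  refine ⟨k + 1, s + 2, 2 * ρ, fun v => ?_⟩
  have e1 : (2 : ℤ) ^ (k + 1) * v + 2 * ρ = 2 * (2 ^ k * v + ρ) := by ring
  obtain ⟨y, hy⟩ : ∃ y : ℤ, y = 3 ^ d * (2 ^ k * v + ρ) + c := ⟨_, rfl⟩
  have e2 : (3 : ℤ) ^ d * (2 * (2 ^ k * v + ρ)) + (2 * c + 1) = 2 * y + 1 := by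
    rw [hy]; ring
  have e3 : 3 * y + 2 = 3 ^ (d + 1) * (2 ^ k * v + ρ) + (3 * c + 2) := by
    rw [hy]; ring
  rw [e1, e2, show s + 2 + d = (s + (d + 1)) + 1 by ring, it1, it2, e3, h]

lemma M_both {d : ℕ} {g : ℤ} (hg : (3 : ℤ) ^ d = 2 * g + 1) (h : M d (-g)) : M d 0 := by
  obtain ⟨k, s, ρ, h⟩ := h
  obtain ⟨w, e, hwe⟩ := solve3 1 k 2 ρ
  refine ⟨k + 1, s + 2, 2 * w + 1, fun v => ?_⟩
  have e1 : (2 : ℤ) ^ (k + 1) * v + (2 * w + 1) = 2 * (2 ^ k * v + w) + 1 := by ring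
  have e3 : 3 * ((2 : ℤ) ^ k * v + w) + 2 = 2 ^ k * (3 * v + e) + ρ := by
    linear_combination hwe
  obtain ⟨x, hx⟩ : ∃ x : ℤ, x = 2 ^ k * v + w := ⟨_, rfl⟩
  rw [← hx] at e1 e3
  have e2 : (3 : ℤ) ^ d * (2 * x + 1) + 0 = 2 * (3 ^ d * x + g) + 1 := by
    rw [hg]; ring
  have e4 : 3 * ((3 : ℤ) ^ d * x + g) + 2 = 3 ^ d * (2 ^ k * (3 * v + e) + ρ) + -g := by
    rw [← e3, hg]; ring
  rw [e1, e2, show s + 2 + d = (s + d) + 2 by ring, it2, it2, e3, e4, h]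

lemma M_neg {c : ℤ} (h : M 0 c) : M 0 (-c) := by
  obtain ⟨k, s, ρ, h⟩ := h
  refine ⟨k, s, ρ + c, fun v => ?_⟩
  have := h v
  simp only [add_zero, pow_zero, one_mul] at this ⊢
  rw [show (2 : ℤ) ^ k * v + (ρ + c) + -c = 2 ^ k * v + ρ by ring, this]
  congr 1; ring

lemma M_zero_zero : M 0 0 := ⟨0, 0, 0, fun v => by simp⟩

lemma M_zero_one : M 0 1 := by
  have h1 : M 1 1 := by simpa using M_down M_zero_zero
  have h2 : M 1 2 := by simpa using M_half h1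
  have h3 : M (0 + 1) (3 * 0 + 2) := by simpa using h2
  simpa using M_up h3

lemma M_three {t : ℤ} (h : M 0 (3 * t + 2)) : M 0 (4 * t + 3) := by
  have h1 := M_down h
  have h2 : M (0 + 1) (3 * (2 * t + 1) + 2) := by
    convert h1 using 1; ring
  have h3 := M_up h2
  convert h3 using 1; ring

lemma M_zero (c : ℤ) : M 0 c := by
  induction' hn : c.natAbs using Nat.strong_induction_on with n ih generalizing c
  by_cases h0 : c = 0
  · rw [h0]; exact M_zero_zero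
  by_cases h1 : c = 1
  · rw [h1]; exact M_zero_one
  by_cases h2 : c = -1
  · rw [h2]; exact M_neg M_zero_one
  by_cases he : c % 2 = 0
  · have := M_half (ih (c / 2).natAbs (by omega) (c / 2) rfl)
    convert this using 1; omega
  by_cases h3 : c % 4 = 3
  · have := M_three (ih (3 * (c / 4) + 2).natAbs (by omega) (3 * (c / 4) + 2) rfl)
    convert this using 1; omega
  · have := M_neg (M_three (ih (3 * ((-c) / 4) + 2).natAbs (by omega) (3 * ((-c) / 4) + 2) rfl))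
    convert this using 1; omega

lemma odd_three_pow (d : ℕ) : ∃ g : ℤ, (3 : ℤ) ^ d = 2 * g + 1 ∧ (d ≠ 0 → g ≠ 0) := by
  obtain ⟨g, hg⟩ : Odd ((3 : ℤ) ^ d) := Odd.pow (by decide)
  refine ⟨g, hg, fun hd h => ?_⟩
  have : (1 : ℤ) < 3 ^ d := one_lt_pow₀ (by norm_num) hd
  omega

lemma M_all (d : ℕ) (c : ℤ) : M d c := by
  induction d generalizing c with
  | zero => exact M_zero c
  | succ d ihd =>
    have key : ∀ c : ℤ, c ≠ 0 → M (d + 1) c := by
      intro c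
      induction' hn : c.natAbs using Nat.strong_induction_on with n ih generalizing c
      intro h0
      by_cases he : c % 2 = 0
      · have := M_half (ih (c / 2).natAbs (by omega) (c / 2) rfl (by omega))
        convert this using 1; omega
      · obtain ⟨g, hg, -⟩ := odd_three_pow d
        have := M_down (ihd ((c - 1) / 2 - g))
        convert this using 1; rw [hg]; omega
    by_cases h0 : c = 0
    · obtain ⟨g, hg, hg0⟩ := odd_three_pow (d + 1)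
      rw [h0]
      exact M_both hg (key _ (by simpa using hg0 (by omega)))
    · exact key c h0

lemma affine (K : ℕ) (r : ℤ) : ∃ (a : ℕ) (b : ℤ), (a = 0 ∨ ¬ (3 : ℤ) ∣ b) ∧
    ∀ u : ℤ, D^[K + a] (2 ^ K * u + r) = 3 ^ a * u + b := by
  induction K with
  | zero => exact ⟨0, r, Or.inl rfl, fun u => by simp⟩
  | succ K ih =>
    obtain ⟨a, b, hab, h⟩ := ih
    by_cases hb : b % 2 = 0
    · refine ⟨a, b / 2, ?_, fun u => ?_⟩
      · rcases hab with h | h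
        · exact Or.inl h
        · right; omega
      · rw [show K + 1 + a = 1 + (K + a) by ring, Function.iterate_add_apply,
          show (2 : ℤ) ^ (K + 1) * u + r = 2 ^ K * (2 * u) + r by ring, h,
          show (3 : ℤ) ^ a * (2 * u) + b = 2 * (3 ^ a * u + b / 2) by
            have : b = 2 * (b / 2) := by omega
            linear_combination this]
        exact it1 0 _
    · refine ⟨a + 1, 3 * (b / 2) + 2, ?_, fun u => ?_⟩
      · right; omega
      · rw [show K + 1 + (a + 1) = 2 + (K + a) by ring, Function.iterate_add_apply,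
          show (2 : ℤ) ^ (K + 1) * u + r = 2 ^ K * (2 * u) + r by ring, h,
          show (3 : ℤ) ^ a * (2 * u) + b = 2 * (3 ^ a * u + b / 2) + 1 by
            have : b = 2 * (b / 2) + 1 := by omega
            linear_combination this]
        rw [show (2 : ℕ) = 0 + 2 from rfl, it2]
        simp only [Function.iterate_zero, id]
        ring

/-- A block of `L` consecutive integers merges on a residue class. -/
def Q (L : ℕ) : Prop :=
  ∃ (K S : ℕ) (r : ℤ), ∀ u : ℤ, ∀ j : ℕ, j < L →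
    D^[S] (2 ^ K * u + r + j) = D^[S] (2 ^ K * u + r)

lemma Q_normal {L : ℕ} (h : Q L) : ∃ (K : ℕ) (r : ℤ), ∀ S : ℕ, K ≤ S → ∀ u : ℤ, ∀ j : ℕ, j < L →
    D^[S] (2 ^ K * u + r + j) = D^[S] (2 ^ K * u + r) := by
  obtain ⟨K, S, r, h⟩ := h
  refine ⟨K + S, r, fun S' hS u j hj => ?_⟩
  obtain ⟨t, rfl⟩ : ∃ t, S' = t + S := ⟨S' - S, by omega⟩
  rw [Function.iterate_add_apply, Function.iterate_add_apply,
    show (2 : ℤ) ^ (K + S) * u = 2 ^ K * (2 ^ S * u) by ring, h _ j hj]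

lemma merge_pair (a a' : ℕ) (b b' : ℤ) : ∃ (k s s' : ℕ) (w : ℤ), s + a = s' + a' ∧
    ∀ v : ℤ, D^[s] (3 ^ a * (2 ^ k * v + w) + b) = D^[s'] (3 ^ a' * (2 ^ k * v + w) + b') := by
  wlog hle : a ≤ a' generalizing a a' b b'
  · obtain ⟨k, s, s', w, h1, h2⟩ := this a' a b' b (by omega)
    exact ⟨k, s', s, w, h1.symm, fun v => (h2 v).symm⟩
  obtain ⟨d, rfl⟩ := Nat.exists_eq_add_of_le hle
  obtain ⟨k, s, ρ, h⟩ := M_all d (b' - 3 ^ d * b)
  obtain ⟨w, e, hwe⟩ := solve3 a k b ρ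
  refine ⟨k, s + d, s, w, by ring, fun v => ?_⟩
  have e1 : (3 : ℤ) ^ a * (2 ^ k * v + w) + b = 2 ^ k * (3 ^ a * v + e) + ρ := by
    linear_combination hwe
  have e2 : (3 : ℤ) ^ (a + d) * (2 ^ k * v + w) + b'
      = 3 ^ d * (2 ^ k * (3 ^ a * v + e) + ρ) + (b' - 3 ^ d * b) := by
    rw [← e1]; ring
  rw [e1, e2, h]

lemma Q_all (L : ℕ) : Q L := by
  induction L with
  | zero => exact ⟨0, 0, 0, fun u j hj => by omega⟩
  | succ L ih =>
    obtain ⟨K, r, h⟩ := Q_normal ih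
    obtain ⟨a, b, -, hab⟩ := affine K r
    obtain ⟨a', b', -, hab'⟩ := affine K (r + L)
    obtain ⟨k, s, s', w, h1, h2⟩ := merge_pair a a' b b'
    refine ⟨K + k, s + (K + a), 2 ^ K * w + r, fun u j hj => ?_⟩
    have e1 : (2 : ℤ) ^ (K + k) * u + (2 ^ K * w + r) = 2 ^ K * (2 ^ k * u + w) + r := by ring
    rw [e1]
    rcases Nat.lt_succ_iff_lt_or_eq.mp hj with hj | rfl
    · exact h _ (by omega) _ j hj
    · conv_lhs => rw [show s + (K + a) = s' + (K + a') by omega]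
      rw [Function.iterate_add_apply D s', Function.iterate_add_apply D s, add_assoc, hab', hab, h2]

lemma four_pow (a : ℕ) : ∃ w : ℤ, (2 : ℤ) ^ (2 * 3 ^ a) = 1 + 3 ^ (a + 1) * (3 * w + 1) := by
  induction a with
  | zero => exact ⟨0, by norm_num⟩
  | succ a ih =>
    obtain ⟨w, hw⟩ := ih
    refine ⟨w + 3 ^ a * (3 * w + 1) ^ 2 + 3 ^ (2 * a) * (3 * w + 1) ^ 3, ?_⟩
    rw [show 2 * 3 ^ (a + 1) = (2 * 3 ^ a) * 3 by ring, pow_mul, hw]
    ring

lemma two_pow_hits (N a : ℕ) (b : ℤ) (hb : ¬ (3 : ℤ) ∣ b) :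
    ∃ t : ℕ, N ≤ t ∧ ∃ e : ℤ, (2 : ℤ) ^ t = 3 ^ (a + 1) * e + b := by
  induction a with
  | zero =>
    have h4 : ∃ e : ℤ, (2 : ℤ) ^ (2 * N) = 3 * e + 1 := by
      have : (3 : ℤ) ∣ 4 ^ N - 1 := by simpa using sub_dvd_pow_sub_pow (4 : ℤ) 1 N
      obtain ⟨e, he⟩ := this
      exact ⟨e, by rw [pow_mul]; norm_num; linarith⟩
    obtain ⟨e, he⟩ := h4
    by_cases h1 : b % 3 = 1
    · refine ⟨2 * N, by omega, e - b / 3, ?_⟩
      rw [he]; norm_num; omega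
    · refine ⟨2 * N + 1, by omega, 2 * e - b / 3, ?_⟩
      rw [pow_succ, he]; norm_num; omega
  | succ a ih =>
    obtain ⟨t, ht, e, he⟩ := ih
    obtain ⟨w, hw⟩ := four_pow a
    have step : ∀ (t : ℕ) (e : ℤ), (2 : ℤ) ^ t = 3 ^ (a + 1) * e + b →
        ∃ f : ℤ, (2 : ℤ) ^ (t + 2 * 3 ^ a) = 3 ^ (a + 1) * (e + b + 3 * f) + b := by
      intro t e he
      refine ⟨b * w + 3 ^ a * e * (3 * w + 1), ?_⟩
      rw [pow_add, he, hw]; ring
    by_cases h0 : (3 : ℤ) ∣ e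
    · obtain ⟨f, rfl⟩ := h0
      exact ⟨t, ht, f, by rw [he]; ring⟩
    obtain ⟨f, hf⟩ := step t e he
    by_cases h1 : (3 : ℤ) ∣ e + b + 3 * f
    · obtain ⟨g, hg⟩ := h1
      exact ⟨t + 2 * 3 ^ a, by omega, g, by rw [hf, hg]; ring⟩
    obtain ⟨f', hf'⟩ := step _ _ hf
    have h2 : (3 : ℤ) ∣ e + b + 3 * f + b + 3 * f' := by
      clear hf hf' he hw step
      have hb3 : b % 3 = 1 ∨ b % 3 = 2 := by omega
      have he3 : e % 3 = 1 ∨ e % 3 = 2 := by omega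
      rcases hb3 with hb3 | hb3 <;> rcases he3 with he3 | he3 <;> omega
    obtain ⟨g, hg⟩ := h2
    exact ⟨t + 2 * 3 ^ a + 2 * 3 ^ a, by omega, g, by rw [hf', hg]; ring⟩

lemma two_pow_hits' (N a : ℕ) (b : ℤ) (hb : a = 0 ∨ ¬ (3 : ℤ) ∣ b) :
    ∃ t : ℕ, N ≤ t ∧ ∃ e : ℤ, (2 : ℤ) ^ t = 3 ^ a * e + b := by
  rcases hb with rfl | hb
  · exact ⟨N, le_rfl, 2 ^ N - b, by ring⟩
  · obtain ⟨t, ht, e, he⟩ := two_pow_hits N a b hb
    exact ⟨t, ht, 3 * e, by rw [he]; ring⟩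

lemma le_iter (k n : ℕ) : n ≤ 2 ^ k * C^[k] n := by
  induction k with
  | zero => simp
  | succ k ih =>
    rw [Function.iterate_succ_apply']
    have : C^[k] n ≤ 2 * C (C^[k] n) := by
      unfold C; split_ifs <;> omega
    calc n ≤ 2 ^ k * C^[k] n := ih
      _ ≤ 2 ^ k * (2 * C (C^[k] n)) := Nat.mul_le_mul_left _ this
      _ = _ := by ring

lemma C_two_pow (j m : ℕ) : C^[j] (2 ^ (m + j)) = 2 ^ m := by
  induction j with
  | zero => rfl
  | succ j ih =>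
    rw [Function.iterate_succ_apply]
    have : C (2 ^ (m + (j + 1))) = 2 ^ (m + j) := by
      unfold C
      rw [show m + (j + 1) = (m + j) + 1 by ring, pow_succ, if_pos (by omega)]; omega
    rw [this, ih]

lemma height_of (n S t : ℕ) (hn : 2 ^ S < n) (h : C^[S] n = 2 ^ t) : HasHeight n (t + S) := by
  constructor
  · show C^[t + S] n = 1
    rw [Function.iterate_add_apply, h]
    simpa using C_two_pow t 0
  · intro k hk
    have hk : C^[k] n = 1 := hk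
    by_contra hlt
    push Not at hlt
    by_cases hkS : k ≤ S
    · have h1 := le_iter k n
      rw [hk] at h1
      have : 2 ^ k ≤ 2 ^ S := Nat.pow_le_pow_right (by norm_num) hkS
      omega
    · obtain ⟨j, rfl⟩ : ∃ j, k = j + S := ⟨k - S, by omega⟩
      obtain ⟨m, rfl⟩ : ∃ m, t = (m + 1) + j := ⟨t - j - 1, by omega⟩
      rw [Function.iterate_add_apply, h, C_two_pow] at hk
      have : 1 ≤ 2 ^ m := Nat.one_le_two_pow
      rw [pow_succ] at hk
      omega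

theorem long_runs (L : ℕ) : ∃ n : ℕ, 1 ≤ n ∧ ∃ h : ℕ, ∀ j : ℕ, j < L → HasHeight (n + j) h := by
  obtain ⟨K, r, h⟩ := Q_normal (Q_all L)
  obtain ⟨a, b, hb, hab⟩ := affine K r
  obtain ⟨B, hB⟩ : ∃ B : ℕ, B = 2 ^ (K + a) + r.natAbs + 1 := ⟨_, rfl⟩
  obtain ⟨t, ht, e, he⟩ := two_pow_hits' (3 ^ a * B + b.natAbs) a b hb
  have h2t : ((t : ℕ) : ℤ) < 2 ^ t := by exact_mod_cast Nat.lt_two_pow_self
  have hte : ((3 : ℤ) ^ a * B + |b|) ≤ t := by
    have : ((3 ^ a * B + b.natAbs : ℕ) : ℤ) ≤ t := by exact_mod_cast ht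
    push_cast at this
    exact this
  have h3 : (0 : ℤ) < 3 ^ a := by positivity
  have heB : (B : ℤ) < e := by
    have : (3 : ℤ) ^ a * B < 3 ^ a * e := by
      have := le_abs_self b
      linarith
    exact lt_of_mul_lt_mul_left this h3.le
  have hK : (1 : ℤ) ≤ 2 ^ K := one_le_pow₀ (by norm_num)
  have hBz : (B : ℤ) = 2 ^ (K + a) + |r| + 1 := by rw [hB]; push_cast; ring
  have hpos : (0 : ℤ) < 2 ^ (K + a) := by positivity
  have hn : (2 : ℤ) ^ (K + a) < 2 ^ K * e + r := by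
    have h1 : e ≤ 2 ^ K * e := by
      have : (0 : ℤ) ≤ e := by have := abs_nonneg r; linarith
      nlinarith
    have := neg_abs_le r
    linarith
  obtain ⟨n, hnz⟩ : ∃ n : ℕ, (n : ℤ) = 2 ^ K * e + r := ⟨(2 ^ K * e + r).toNat, by omega⟩
  have hn' : 2 ^ (K + a) < n := by
    have : ((2 ^ (K + a) : ℕ) : ℤ) < n := by push_cast; linarith
    exact_mod_cast this
  refine ⟨n, by have : 0 < 2 ^ (K + a) := by positivity
                omega, t + (K + a), fun j hj => ?_⟩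
  apply height_of _ _ _ (by omega)
  have : ((C^[K + a] (n + j) : ℕ) : ℤ) = ((2 ^ t : ℕ) : ℤ) := by
    rw [cast_iter]; push_cast
    rw [hnz, h _ (by omega) e j hj, hab, he]
  exact_mod_cast this

end Pool.Agent.H57.Garner
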