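import Pool.Agent.H57.SplAdd

set_option autoImplicit false

namespace Pool.Agent.H57.HurGrp

open Set Cardinal Order Filter Topology Pool.Agent.H57.Lots Pool.Agent.H57.Coh Pool.Agent.H57.Aro

abbrev Col : Type := ℕ × (ℕ → Bool)

def cle (a b : Col) : Prop := a.1 ≤ b.1 ∧ ∀ m < a.1, b.2 m = a.2 m

theorem cle.trans {a b c : Col} (h : cle a b) (h' : cle b c) : cle a c :=
  ⟨h.1.trans h'.1, fun m hm => (h'.2 m (hm.trans_le h.1)).trans (h.2 m hm)⟩

def In (t : ℕ → Col) (i : Bool) (p : ℕ × ℕ) : Prop := p.2 < (t p.1).1 ∧ (t p.1).2 p.2 = i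

theorem gap (hCH : (𝔠 : Cardinal.{0}) = ℵ₁) : ∃ f : W1 → ℕ → Col,
    (∀ a b, a < b → ∀ᶠ n in atTop, cle (f a n) (f b n)) ∧
    (∀ h : ℕ → ℕ, ∃ a, ∀ n, h n ≤ (f a n).1) ∧
    ∀ (i : Bool) (S : ℕ → Set (Finset (ℕ × ℕ))), ∃ a,
      (∃ n, ∀ s ∈ S n, ∃ p ∈ s, p.1 < n ∨ In (f a) i p) ∨
      ∃ s : ℕ → Finset (ℕ × ℕ), ∀ n, s n ∈ S n ∧ ∀ p ∈ s n, n ≤ p.1 ∧ In (f a) (!i) p := by
  classical
  obtain ⟨f, h1, h2⟩ := SplAdd.gen (T := ℕ → Col)
    (I := (ℕ → ℕ) ⊕ Bool × (ℕ → Set (Finset (ℕ × ℕ))))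
    (fun a b => ∀ᶠ n in atTop, cle (a n) (b n))
    (fun a b c h h' => (h.and h').mono fun n hn => hn.1.trans hn.2)
    (fun a f hf => by
      rcases isEmpty_or_nonempty (Iio a) with h0 | h0
      · exact ⟨fun _ => (0, fun _ => true), fun b => isEmptyElim b⟩
      haveI := (Iio_countable a).to_subtype
      obtain ⟨g, hg⟩ := exists_surjective_nat (Iio a)
      have h1 : ∀ j, ∃ b, ∃ N, ∀ n ≥ N, ∀ i ≤ j, cle (f (g i) n) (f b n) := fun j => by
        obtain ⟨i0, -, h2⟩ := exists_max_image (Iic j) g (finite_le_nat j) ⟨0, j.zero_le⟩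
        refine ⟨g i0, eventually_atTop.1 ((eventually_all_finite (finite_le_nat j)).2
          fun i hi => ?_)⟩
        rcases (h2 i hi).eq_or_lt with h | h
        · exact .of_forall fun n => h ▸ ⟨le_rfl, fun _ _ => rfl⟩
        · exact hf _ _ h
      choose b N h2 using h1
      refine ⟨fun n => f (b (Nat.findGreatest (fun j => N j ≤ n) n)) n, fun c => ?_⟩
      obtain ⟨i, rfl⟩ := hg c
      filter_upwards [eventually_ge_atTop i, eventually_ge_atTop (N i)] with n h3 h4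
      exact h2 _ n (Nat.findGreatest_spec (P := fun j => N j ≤ n) h3 h4) i
        (Nat.le_findGreatest h3 h4))
    (by rw [← hCH]; simp)
    (fun i t => match i with
      | .inl h => ∀ n, h n ≤ (t n).1
      | .inr (i, S) => (∃ n, ∀ s ∈ S n, ∃ p ∈ s, p.1 < n ∨ In t i p) ∨
        ∃ s : ℕ → Finset (ℕ × ℕ), ∀ n, s n ∈ S n ∧ ∀ p ∈ s n, n ≤ p.1 ∧ In t (!i) p)
    (by
      rintro (h | ⟨i, S⟩) t
      · exact ⟨fun n => (max (h n) (t n).1, (t n).2), .of_forall fun n =>
          ⟨le_max_right _ _, fun _ _ => rfl⟩, fun n => le_max_left _ _⟩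
      by_cases h : ∃ n, ∀ s ∈ S n, ∃ p ∈ s, p.1 < n ∨ In t i p
      · exact ⟨t, .of_forall fun n => ⟨le_rfl, fun _ _ => rfl⟩, Or.inl h⟩
      push Not at h
      choose s h3 h4 using h
      refine ⟨fun n => (max (t n).1 (((Finset.range (n + 1)).biUnion s).sup fun p => p.2 + 1),
        fun m => if m < (t n).1 then (t n).2 m else !i), .of_forall fun n =>
          ⟨le_max_left _ _, fun m hm => if_pos hm⟩, Or.inr ⟨s, fun n => ⟨h3 n, fun p hp =>
            ⟨(h4 n p hp).1, lt_max_of_lt_right (Finset.le_sup (f := fun p : ℕ × ℕ => p.2 + 1)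
              (Finset.mem_biUnion.2 ⟨n, by simpa [Nat.lt_succ_iff] using (h4 n p hp).1, hp⟩)), ?_⟩⟩⟩⟩
      dsimp only
      split_ifs with h5
      · exact Bool.eq_not.2 fun h6 => (h4 n p hp).2 ⟨h5, h6⟩
      · rfl)
  exact ⟨f, h1, fun h => h2 (.inl h), fun i S => h2 (.inr (i, S))⟩

abbrev M : Type := Multiplicative (ZMod 2)

abbrev G : Type := ℕ × ℕ → M

instance : DiscreteTopology M := ⟨rfl⟩

/-- the ideal `Fin × Fin` as a subgroup of the Cantor group -/
def H : Subgroup G where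
  carrier := {x | ∀ᶠ n in atTop, ∀ᶠ m in atTop, x (n, m) = 1}
  mul_mem' := fun hx hy => (hx.and hy).mono fun _ h => (h.1.and h.2).mono fun _ h => by
    simp [h.1, h.2]
  one_mem' := .of_forall fun _ => .of_forall fun _ => rfl
  inv_mem' := fun hx => hx.mono fun _ h => h.mono fun _ h => by simp [h]

theorem H_borel : @MeasurableSet G (borel G) (H : Set G) := by
  borelize G
  have : (H : Set G) = ⋃ N, ⋂ n ≥ N, ⋃ k, ⋂ m ≥ k, {x : G | x (n, m) = 1} := by
    ext x; simp [H]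
  rw [this]
  exact .iUnion fun N => .biInter (to_countable _) fun n _ => .iUnion fun k =>
    .biInter (to_countable _) fun m _ =>
      (isClosed_eq (continuous_apply _) continuous_const).measurableSet

theorem H_not : ¬ IsSigmaCompact (H : Set G) := by
  rintro ⟨K, h1, h2⟩
  let φ : (ℕ → ℕ) → G := fun g p => if p.2 < g p.1 then .ofAdd 1 else 1
  have h3 : Continuous φ := continuous_pi fun p =>
    (continuous_of_discreteTopology (f := fun k : ℕ => if p.2 < k then (.ofAdd 1 : M) else 1)).comp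
      (continuous_apply p.1)
  obtain ⟨k, g, hg⟩ := nonempty_interior_of_iUnion_of_closed (f := fun k => φ ⁻¹' K k)
    (fun k => (h1 k).isClosed.preimage h3) (eq_univ_of_forall fun g => by
      rw [← preimage_iUnion, h2]
      exact .of_forall fun n => (eventually_ge_atTop (g n)).mono fun m hm => if_neg hm.not_gt)
  obtain ⟨_, ⟨z, N, rfl⟩, h4, h5⟩ :=
    (PiNat.isTopologicalBasis_cylinders fun _ : ℕ => ℕ).exists_subset_of_mem_open hg isOpen_interior
  have h6 : (fun p => if p.1 < N then φ z p else .ofAdd 1) ∈ K k :=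
    (h1 k).isClosed.mem_of_tendsto (b := atTop) (f := fun j => φ fun n => if n < N then z n else j)
      (tendsto_pi_nhds.2 fun p => tendsto_const_nhds.congr' ((eventually_gt_atTop p.2).mono
        fun j hj => by by_cases h : p.1 < N <;> simp [φ, h, hj]))
      (.of_forall fun j => interior_subset (s := φ ⁻¹' K k) (h5 fun i hi => if_pos hi))
  have h7 : _ ∈ (H : Set G) := h2 ▸ mem_iUnion.2 ⟨k, h6⟩
  obtain ⟨n, h8, h9⟩ := (Eventually.and h7 (eventually_ge_atTop N)).exists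
  obtain ⟨m, hm⟩ := h8.exists
  simp [h9.not_gt] at hm

theorem yes (hCH : (𝔠 : Cardinal.{0}) = ℵ₁) : ∃ X : Set G, Subgroup.closure X = H ∧
    ∀ U : ℕ → Set (Set G), (∀ n, (∀ u ∈ U n, IsOpen u) ∧ X ⊆ ⋃₀ U n) →
      ∃ F : ℕ → Finset (Set G), (∀ n, (↑(F n) : Set (Set G)) ⊆ U n) ∧
        ∀ x ∈ X, ∀ᶠ n in atTop, x ∈ ⋃₀ ((↑(F n) : Set (Set G))) := by
  classical
  obtain ⟨f, h1, h2, h3⟩ := gap hCH
  let Y : Bool → Set G := fun i => {x | ∃ a, ∀ᶠ n in atTop, ∀ m, x (n, m) ≠ 1 → In (f a) i (n, m)}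
  refine ⟨Y true ∪ Y false, le_antisymm ((Subgroup.closure_le _).2 ?_) fun x hx => ?_,
    fun U hU => ?_⟩
  · have : ∀ i, Y i ⊆ H := fun i x ⟨a, ha⟩ => ha.mono fun n hn =>
      (eventually_ge_atTop (f a n).1).mono fun m hm => not_not.1 fun h => (hn m h).1.not_ge hm
    exact union_subset (this _) (this _)
  · have : ∀ n, ∃ k, (∀ᶠ m in atTop, x (n, m) = 1) → ∀ m ≥ k, x (n, m) = 1 := fun n => by
      by_cases h : ∀ᶠ m in atTop, x (n, m) = 1
      exacts [(eventually_atTop.1 h).imp fun _ h _ => h, ⟨0, fun h' => absurd h' h⟩]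
    choose h hh using this
    obtain ⟨a, ha⟩ := h2 h
    have h4 : ∀ i, (fun p => if (f a p.1).2 p.2 = i then x p else 1) ∈ Y i := fun i =>
      ⟨a, Eventually.mono hx fun n hn m hm => by
        by_cases h5 : (f a n).2 m = i
        · exact ⟨not_le.1 fun h6 => hm ((if_pos h5).trans (hh n hn m ((ha n).trans h6))), h5⟩
        · exact absurd (if_neg h5) hm⟩
    convert mul_mem (Subgroup.subset_closure (k := Y true ∪ Y false) (Or.inl (h4 true)))
      (Subgroup.subset_closure (k := Y true ∪ Y false) (Or.inr (h4 false))) using 1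
    funext p
    cases h5 : (f a p.1).2 p.2 <;> simp [h5]
  have key : ∀ i, Y i ⊆ Y true ∪ Y false → ∃ F : ℕ → Finset (Set G),
      (∀ n, (↑(F n) : Set (Set G)) ⊆ U n) ∧
        ∀ x ∈ Y i, ∀ᶠ n in atTop, x ∈ ⋃₀ ((↑(F n) : Set (Set G))) := fun i hi => by
    obtain ⟨a, ⟨n, h4⟩ | ⟨s, h4⟩⟩ := h3 i fun n => {s | ∃ F : Finset (Set G),
      (↑F : Set (Set G)) ⊆ U n ∧ {x | ∀ p ∈ s, x p = 1} ⊆ ⋃₀ (↑F : Set (Set G))}
    · exfalso
      let A := {p : ℕ × ℕ // ¬ (p.1 < n ∨ In (f a) i p)}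
      have h5 : IsCompact (⋂ p : A, {x : G | x p = 1}) := (isClosed_iInter fun p =>
        isClosed_eq (continuous_apply _) continuous_const).isCompact
      obtain ⟨F, h6, h7, h8⟩ := h5.elim_finite_subcover_image (c := id) (hU n).1 fun x hx => by
        refine sUnion_eq_biUnion.subset ((hU n).2 (hi ⟨a, (eventually_ge_atTop n).mono fun k hk m hm => not_not.1 fun h =>
          hm (mem_iInter.1 hx ⟨(k, m), fun h' => h'.elim hk.not_gt h⟩)⟩))
      obtain ⟨t, ht⟩ := (isOpen_biUnion fun u hu => (hU n).1 u (h6 hu)).isClosed_compl.isCompact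
        |>.elim_finite_subcover (fun p : A => {x : G | x p ≠ 1})
          (fun p => isOpen_ne_fun (continuous_apply _) continuous_const) fun x hx => by
            by_contra h
            exact hx (h8 (mem_iInter.2 fun p => not_not.1 fun h' => h (mem_iUnion.2 ⟨p, h'⟩)))
      obtain ⟨p, h9, h10⟩ := h4 (t.image Subtype.val) ⟨h7.toFinset, by simpa using h6, fun x hx => by
        by_contra h
        obtain ⟨p, h9, h10⟩ := mem_iUnion₂.1 (ht (a := x) (by simpa using h))
        exact h10 (hx p (Finset.mem_image_of_mem _ h9))⟩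
      obtain ⟨q, -, rfl⟩ := Finset.mem_image.1 h9
      exact q.2 h10
    choose F h5 h6 using fun n => (h4 n).1
    refine ⟨F, h5, fun x ⟨b, hb⟩ => ?_⟩
    have h7 : ∀ᶠ n in atTop, ∀ m, In (f b) i (n, m) → ¬ In (f a) (!i) (n, m) := by
      rcases lt_trichotomy a b with h | rfl | h
      · exact (h1 _ _ h).mono fun n hn m h h' => by
          simpa using h.2.symm.trans ((hn.2 m h'.1).trans h'.2)
      · exact .of_forall fun n m h h' => by simpa using h.2.symm.trans h'.2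
      · exact (h1 _ _ h).mono fun n hn m h h' => by
          simpa using h.2.symm.trans ((hn.2 m h.1).symm.trans h'.2)
    obtain ⟨N, hN⟩ := eventually_atTop.1 (hb.and h7)
    filter_upwards [eventually_ge_atTop N] with n hn
    refine h6 n fun p hp => not_not.1 fun h => ?_
    have := hN p.1 (hn.trans ((h4 n).2 p hp).1)
    exact this.2 p.2 (this.1 p.2 h) ((h4 n).2 p hp).2
  obtain ⟨F, h4, h5⟩ := key true subset_union_left
  obtain ⟨F', h6, h7⟩ := key false subset_union_right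
  refine ⟨fun n => F n ∪ F' n, fun n => by simpa using ⟨h4 n, h6 n⟩, ?_⟩
  rintro x (hx | hx)
  exacts [(h5 x hx).mono fun n h => sUnion_mono (by simp) h,
    (h7 x hx).mono fun n h => sUnion_mono (by simp) h]

end Pool.Agent.H57.HurGrp
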