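import Pool.Agent.H57.MengerDefs

set_option autoImplicit false

namespace Pool.Agent.H57.HurGrp

open Set Filter Topology Metric TopologicalSpace Pointwise

theorem Menger.image {Y Z : Type} [TopologicalSpace Y] [TopologicalSpace Z] {A : Set Y}
    (h : Menger A) {f : Y → Z} (hf : Continuous f) : Menger (f '' A) := fun U hU => by
  obtain ⟨F, h1, h2⟩ := h (fun n => preimage f '' U n) fun n =>
    ⟨forall_mem_image.2 fun u hu => ((hU n).1 u hu).preimage hf, fun x hx => by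
      obtain ⟨u, h1, h2⟩ := (hU n).2 ⟨x, hx, rfl⟩
      exact ⟨_, ⟨u, h1, rfl⟩, h2⟩⟩
  choose E h3 h4 h5 using fun n => (h1 n).1.exists_subset_finite_image_eq (h1 n).2
  refine ⟨E, fun n => ⟨h4 n, h3 n⟩, ?_⟩
  rintro _ ⟨x, hx, rfl⟩
  obtain ⟨n, u, h6, h7⟩ := mem_iUnion.1 (h2 hx)
  obtain ⟨v, h8, rfl⟩ := (h5 n).symm.subset h6
  exact mem_iUnion.2 ⟨n, v, h8, h7⟩

theorem Menger.iUnion {Z : Type} [TopologicalSpace Z] {A : ℕ → Set Z}
    (h : ∀ k, Menger (A k)) : Menger (⋃ k, A k) := fun U hU => by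
  choose F h1 h2 using fun k => h k (fun n => U (Nat.pair k n)) fun n =>
    ⟨(hU _).1, (subset_iUnion A k).trans (hU _).2⟩
  refine ⟨fun n => F n.unpair.1 n.unpair.2, fun n => by simpa using h1 n.unpair.1 n.unpair.2,
    iUnion_subset fun k x hx => ?_⟩
  obtain ⟨n, hn⟩ := mem_iUnion.1 (h2 k hx)
  exact mem_iUnion.2 ⟨Nat.pair k n, by simpa using hn⟩

theorem Menger.sigma {P Z : Type} [MetricSpace P] [CompleteSpace P] [SecondCountableTopology P]
    [MetricSpace Z] [CompactSpace Z] {f : P → Z} (hf : Continuous f) (h : Menger (range f)) :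
    IsSigmaCompact (range f) := by
  by_contra hn
  let S : Set (Set P) := {V | IsOpen V ∧ ∃ K, IsSigmaCompact K ∧ f '' V ⊆ K ∧ K ⊆ range f}
  obtain ⟨K, h1, h2, h3⟩ : ∃ K, IsSigmaCompact K ∧ f '' ⋃₀ S ⊆ K ∧ K ⊆ range f := by
    obtain ⟨T, h1, h2, h3⟩ := isOpen_sUnion_countable S fun V hV => hV.1
    choose K h4 h5 h6 using fun V : T => (h2 V.2).2
    haveI := h1.to_subtype
    refine ⟨⋃ V, K V, isSigmaCompact_iUnion _ h4, ?_, iUnion_subset h6⟩
    rintro _ ⟨x, hx, rfl⟩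
    obtain ⟨V, h7, h8⟩ := h3.symm.subset hx
    exact mem_iUnion.2 ⟨⟨V, h7⟩, h5 _ ⟨x, h8, rfl⟩⟩
  let T := {s : P × ℝ // s.1 ∉ ⋃₀ S ∧ 0 < s.2}
  have h4 : ∀ s : T, ∃ q ∉ range f, ∀ k : ℕ, ∃ t : T, t.1.2 ≤ s.1.2 / 2 ∧
      closedBall t.1.1 t.1.2 ⊆ ball s.1.1 s.1.2 ∧ f '' ball t.1.1 t.1.2 ⊆ ball q (1 / (k + 1)) := by
    intro s
    obtain ⟨q, h4, h5⟩ : ∃ q ∈ closure (f '' (ball s.1.1 s.1.2 \ ⋃₀ S)), q ∉ range f := by
      by_contra h
      push Not at h
      refine s.2.1 ⟨ball s.1.1 s.1.2, ⟨isOpen_ball, _, union_eq_iUnion ▸ isSigmaCompact_iUnion _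
        (Bool.forall_bool.2 ⟨isClosed_closure.isCompact.isSigmaCompact, h1⟩), ?_,
          union_subset h3 h⟩, mem_ball_self s.2.2⟩
      rintro _ ⟨x, hx, rfl⟩
      by_cases h' : x ∈ ⋃₀ S
      exacts [Or.inl (h2 ⟨x, h', rfl⟩), Or.inr (subset_closure ⟨x, ⟨hx, h'⟩, rfl⟩)]
    refine ⟨q, h5, fun k => ?_⟩
    obtain ⟨_, h6, x, h7, rfl⟩ := mem_closure_iff.1 h4 _ isOpen_ball
      (mem_ball_self (Nat.one_div_pos_of_nat (n := k)))
    obtain ⟨r, h8, h9⟩ := nhds_basis_closedBall.mem_iff.1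
      ((isOpen_ball.inter (isOpen_ball.preimage hf)).mem_nhds ⟨h7.1, h6⟩)
    have h10 := (closedBall_subset_closedBall (min_le_left r (s.1.2 / 2))).trans h9
    exact ⟨⟨(x, min r (s.1.2 / 2)), h7.2, lt_min h8 (half_pos s.2.2)⟩, min_le_right _ _,
      fun y hy => (h10 hy).1, image_subset_iff.2 fun y hy => (h10 (ball_subset_closedBall hy)).2⟩
  choose q h4 nx h5 h6 h7 using h4
  let B : T → Set P := fun s => ball s.1.1 s.1.2
  have h8 : ∀ (l : List ℕ) s, B (l.foldl nx s) ⊆ B s := fun l => by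
    induction l with
    | nil => exact fun _ => subset_rfl
    | cons k l ih => exact fun s => (ih _).trans (ball_subset_closedBall.trans (h6 s k))
  have h9 : ∀ n s, ∀ y ∈ range f, ∃ m, ∀ᶠ z in 𝓝 y, ∀ l : List ℕ, l.length = n →
      (∃ k ∈ l, m ≤ k) → z ∉ f '' B (l.foldl nx s) := fun n => by
    induction n with
    | zero => exact fun s y _ => ⟨0, .of_forall fun z l hl => by simp [List.length_eq_zero_iff.1 hl]⟩
    | succ n ih =>
      intro s y hy
      obtain ⟨k, hk⟩ := exists_nat_one_div_lt (dist_pos.2 fun h : y = q s => h4 s (h ▸ hy))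
      choose m hm using fun j => ih (nx s j) y hy
      refine ⟨max k ((Finset.range k).sup m), ?_⟩
      filter_upwards [(eventually_all_finite (finite_lt_nat k)).2 fun j _ => hm j,
        (continuous_id.dist continuous_const).continuousAt.eventually_const_lt hk] with z h1 h2
      rintro (_ | ⟨j, l⟩) hl ⟨i, h3, h4⟩ hz
      · simp at hl
      by_cases h : j < k
      · have := Finset.le_sup (f := m) (Finset.mem_range.2 h)
        rcases List.mem_cons.1 h3 with rfl | h3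
        · omega
        exact h1 j h l (by simpa using hl) ⟨i, h3, by omega⟩ hz
      · exact (h2.trans (h7 s j (image_mono (h8 l _) hz))).not_ge
          (Nat.one_div_le_one_div (not_lt.1 h))
  obtain ⟨x, hx⟩ : ∃ x, x ∉ ⋃₀ S := by
    by_contra h
    push Not at h
    exact hn (h3.antisymm (range_subset_iff.2 fun x => h2 ⟨x, h x, rfl⟩) ▸ h1)
  let s : T := ⟨(x, 1), hx, one_pos⟩
  let O : ℕ → ℕ → Set Z := fun n m => interior {z | ∀ l : List ℕ, l.length = n + 1 →
    (∃ k ∈ l, m ≤ k) → z ∉ f '' B (l.foldl nx s)}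
  obtain ⟨F, h10, h11⟩ := h (fun n => range (O n)) fun n =>
    ⟨forall_mem_range.2 fun _ => isOpen_interior, fun y hy => by
      obtain ⟨m, hm⟩ := h9 (n + 1) s y hy
      exact ⟨_, ⟨m, rfl⟩, mem_interior_iff_mem_nhds.2 hm⟩⟩
  have h12 : ∀ n, ∃ m, ⋃₀ F n ⊆ O n m := fun n => by
    obtain ⟨E, -, h1, h2⟩ := (h10 n).1.exists_subset_finite_image_eq
      ((h10 n).2.trans image_univ.symm.subset)
    obtain ⟨m, hm⟩ := h1.bddAbove
    refine ⟨m, sUnion_subset fun u hu => ?_⟩
    obtain ⟨j, hj, rfl⟩ := h2.symm.subset hu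
    exact interior_mono fun z hz l hl ⟨k, h3, h4⟩ => hz l hl ⟨k, h3, (hm hj).trans h4⟩
  choose m h12 using h12
  let t : ℕ → T := fun n => ((List.range n).map m).foldl nx s
  have ht : ∀ n, t (n + 1) = nx (t n) (m n) := fun n => by simp [t, List.range_succ]
  have h13 : Antitone fun n => closedBall (t n).1.1 (t n).1.2 := antitone_nat_of_succ_le fun n =>
    ht n ▸ (h6 _ _).trans ball_subset_closedBall
  have h14 : ∀ n, (t n).1.2 ≤ (1 / 2) ^ n := fun n => by
    induction n with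
    | zero => simp [t, s]
    | succ n ih => rw [ht, pow_succ]; linarith [h5 (t n) (m n)]
  obtain ⟨p, hp⟩ := nonempty_iInter_of_nonempty_biInter
    (s := fun n => closedBall (t n).1.1 (t n).1.2) (fun _ => isClosed_closedBall)
    (fun _ => isBounded_closedBall) (fun N => ⟨_, mem_iInter₂.2 fun n hn =>
      h13 hn (mem_closedBall_self (t N).2.2.le)⟩)
    (squeeze_zero (fun _ => diam_nonneg) (fun n => (diam_closedBall (t n).2.2.le).trans
      (mul_le_mul_of_nonneg_left (h14 n) zero_le_two)) (by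
        simpa using (tendsto_pow_atTop_nhds_zero_of_lt_one (r := (1 / 2 : ℝ)) (by norm_num)
          (by norm_num)).const_mul 2))
  obtain ⟨n, hn⟩ := mem_iUnion.1 (h11 ⟨p, rfl⟩)
  exact interior_subset (h12 n hn) ((List.range (n + 1)).map m) (by simp)
    ⟨m n, List.mem_map_of_mem (by simp), le_rfl⟩
    ⟨p, h6 _ _ (ht (n + 1) ▸ mem_iInter.1 hp (n + 2)), rfl⟩

theorem no (hP : MengerProductive) : ¬ HurewiczGenerated := by
  rintro ⟨G, _, _, _, _, X, h1, h2, h3⟩
  borelize G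
  have h4 : Menger X := fun U hU => by
    obtain ⟨F, h4, h5⟩ := h3 U hU
    exact ⟨fun n => F n, fun n => ⟨(F n).finite_toSet, h4 n⟩, fun x hx =>
      mem_iUnion.2 (h5 x hx).exists⟩
  have h5 : Menger (X ∪ X⁻¹) := by
    convert Menger.iUnion (A := fun k => if k = 0 then X else Inv.inv '' X) fun k => by
      split_ifs
      exacts [h4, h4.image continuous_inv]
    ext x
    refine ⟨fun h => mem_iUnion.2 (h.elim (fun h => ⟨0, h⟩) fun h => ⟨1, by simpa using h⟩),
      fun h => ?_⟩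
    obtain ⟨k, hk⟩ := mem_iUnion.1 h
    split_ifs at hk
    exacts [Or.inl hk, Or.inr (by simpa using hk)]
  have h6 : ∀ n, Menger ((X ∪ X⁻¹) ^ n) := fun n => by
    induction n with
    | zero =>
      intro U hU
      obtain ⟨u, h6, h7⟩ := (hU 0).2 (Set.mem_one.2 rfl)
      exact ⟨fun n => {u} ∩ U n, fun n => ⟨(finite_singleton u).inter_of_left _, inter_subset_right⟩,
        fun x hx => mem_iUnion.2 ⟨0, u, ⟨rfl, h6⟩, Set.mem_one.1 hx ▸ h7⟩⟩
    | succ n ih =>
      rw [pow_succ, ← image_mul_prod]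
      exact (hP G _ _ ih h5).image continuous_mul
  have h7 : Menger (Subgroup.closure X : Set G) := by
    convert Menger.iUnion h6
    refine Subset.antisymm (fun x hx => ?_) (iUnion_subset fun n => Subgroup.pow_subset
      (union_subset Subgroup.subset_closure fun x hx => inv_mem_iff.1 (Subgroup.subset_closure hx)))
    induction hx using Subgroup.closure_induction_right with
    | one => exact mem_iUnion.2 ⟨0, Set.mem_one.2 rfl⟩
    | mul_right x _ y hy ih =>
      obtain ⟨n, hn⟩ := mem_iUnion.1 ih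
      exact mem_iUnion.2 ⟨n + 1, pow_succ (X ∪ X⁻¹) n ▸ Set.mul_mem_mul hn (Or.inl hy)⟩
    | mul_inv_cancel x _ y hy ih =>
      obtain ⟨n, hn⟩ := mem_iUnion.1 ih
      exact mem_iUnion.2 ⟨n + 1, pow_succ (X ∪ X⁻¹) n ▸ Set.mul_mem_mul hn (Or.inr (by simpa))⟩
  letI := upgradeIsCompletelyMetrizable G
  obtain ⟨e, he⟩ := Metric.PiNatEmbed.exists_embedding_to_hilbert_cube (X := G)
  obtain ⟨P, _, _, f, hf, h8⟩ := MeasureTheory.analyticSet_iff_exists_polishSpace_range.1 h1.analyticSet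
  letI := upgradeIsCompletelyMetrizable P
  letI := metrizableSpaceMetric (ℕ → unitInterval)
  refine h2 (he.isInducing.isSigmaCompact_iff.2 ?_)
  rw [← h8, ← range_comp]
  exact Menger.sigma (he.continuous.comp hf) (by rw [range_comp, h8]; exact h7.image he.continuous)

end Pool.Agent.H57.HurGrp
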