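import Pool.Agent.H57.GmaxDefs
import Pool.Agent.H57.HurGrp
import Pool.Agent.H57.MengerAn

set_option autoImplicit false

namespace Pool.Agent.H57.HurGrp

open Set Cardinal Filter Topology

theorem gmax_neg (hCH : (𝔠 : Cardinal.{0}) = ℵ₁) : ¬ GmaxScheepers := fun h => by
  classical
  obtain ⟨X, h1, h2⟩ := yes hCH
  let E : G → ℝ := fun x => cantorSetHomeomorphNatToBool.symm fun n => decide (x n.unpair ≠ 1)
  have hE : Continuous E := continuous_subtype_val.comp
    (cantorSetHomeomorphNatToBool.symm.continuous.comp (continuous_pi fun n =>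
      (continuous_of_discreteTopology (f := fun a : M => decide (a ≠ 1))).comp
        (continuous_apply n.unpair)))
  let f : ℝ → ℕ → ℕ := fun r n =>
    if h : r ∈ cantorSet then (cantorSetHomeomorphNatToBool ⟨r, h⟩ n).toNat else 0
  let c : G → ℕ → ℕ := fun x n => if x n.unpair = 1 then 0 else 1
  have hf : ∀ x, f (E x) = c x := fun x => funext fun n => by
    simp only [f, E, c, Subtype.coe_prop, dif_pos, Subtype.coe_eta, Homeomorph.apply_symm_apply]
    split_ifs with h <;> simp [h]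
  have h3 : Scheepers (E '' X) := fun U hU hU' => by
    obtain ⟨F, h3, h4⟩ := h2 (fun n => preimage E '' U n) fun n =>
      ⟨forall_mem_image.2 fun u hu => (hU n u hu).preimage hE, fun x hx => by
        obtain ⟨u, h1, h2⟩ := hU' n ⟨x, hx, rfl⟩
        exact ⟨_, ⟨u, h1, rfl⟩, h2⟩⟩
    choose D h5 h6 using fun n => Finset.subset_set_image_iff.1 (h3 n)
    refine ⟨D, h5, fun B hB => ((eventually_all_finset (l := atTop) B).2 fun y hy => ?_).exists⟩
    obtain ⟨x, hx, rfl⟩ := hB hy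
    refine (h4 x hx).mono fun n ⟨u, h7, h8⟩ => ?_
    obtain ⟨v, h9, rfl⟩ := Finset.mem_image.1 ((h6 n).symm.subset h7)
    exact ⟨v, h9, h8⟩
  have h4 : ContinuousOn f (E '' X) := by
    refine ContinuousOn.mono (s := cantorSet) (continuousOn_iff_continuous_restrict.2 ?_)
      (image_subset_iff.2 fun x _ => Subtype.coe_prop _)
    refine continuous_pi fun n => ((continuous_of_discreteTopology (f := Bool.toNat)).comp
      ((continuous_apply n).comp cantorSetHomeomorphNatToBool.continuous)).congr fun r => ?_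
    simp [f]
  have h5 : ∀ x ∈ Subgroup.closure X, c x ∈ Gmax (f '' (E '' X)) := fun x hx => by
    induction hx using Subgroup.closure_induction with
    | mem x hx => exact ⟨{c x}, by simp, by simpa using ⟨x, hx, hf x⟩, .of_forall fun m => by simp⟩
    | one =>
      obtain ⟨x, hx⟩ : X.Nonempty := nonempty_iff_ne_empty.2 fun h => H_not (by
        rw [← h1, h, Subgroup.closure_empty, Subgroup.coe_bot]
        exact isCompact_singleton.isSigmaCompact)
      exact ⟨{c x}, by simp, by simpa using ⟨x, hx, hf x⟩, .of_forall fun m => by simp [c]⟩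
    | mul x y _ _ hx hy =>
      obtain ⟨F, a1, a2, a3⟩ := hx
      obtain ⟨F', -, a4, a5⟩ := hy
      refine ⟨F ∪ F', a1.mono Finset.subset_union_left, by simpa using ⟨a2, a4⟩,
        (a3.and a5).mono fun m hm => ?_⟩
      rw [Finset.sup_union]
      refine le_trans ?_ (sup_le_sup hm.1 hm.2)
      by_cases hx : x m.unpair = 1 <;> by_cases hy : y m.unpair = 1 <;> simp only [c, Pi.mul_apply] <;>
        split_ifs <;> simp_all
    | inv x _ hx => convert hx using 1; funext n; simp [c]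
  obtain ⟨F, h6, h7⟩ := h _ h3 f h4
    (fun k => (fun p : ℕ × ℕ => {g : ℕ → ℕ | g (Nat.pair p.1 p.2) = 0}) '' {p | k ≤ p.1})
    (fun k => forall_mem_image.2 fun p _ =>
      (isOpen_discrete {0}).preimage (continuous_apply _)) (by
      rintro k g ⟨F, -, a1, a2⟩
      have a3 : ∀ᶠ n in atTop, ∀ h ∈ F, ∀ᶠ m in atTop, h (Nat.pair n m) = 0 :=
        (eventually_all_finset F).2 fun h hh => by
          obtain ⟨_, ⟨x, hx, rfl⟩, rfl⟩ := a1 hh
          exact Eventually.mono (h1.le (Subgroup.subset_closure hx)) fun n hn =>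
            hn.mono fun m hm => by simp [hf, c, hm]
      obtain ⟨n, a4, a5⟩ := (a3.and (eventually_ge_atTop k)).exists
      obtain ⟨m, a6, a7⟩ := (((eventually_all_finset F).2 a4).and
        ((tendsto_atTop_mono (Nat.right_le_pair n) tendsto_id).eventually a2)).exists
      exact ⟨_, ⟨(n, m), a5, rfl⟩, Nat.le_zero.1 (a7.trans (Finset.sup_le fun h hh => (a6 h hh).le))⟩)
  choose s h8 h9 using fun k => Finset.subset_set_image_iff.1 (h6 k)
  let x : G := fun p => if ∃ k, p ∈ s k then .ofAdd 1 else 1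
  obtain ⟨k, hk⟩ := h7 {c x} (by
    rw [Finset.coe_singleton, singleton_subset_iff]
    refine h5 x (h1.ge (Eventually.of_forall fun n => ?_))
    filter_upwards [eventually_gt_atTop (((Finset.range (n + 1)).biUnion s).sup Prod.snd)] with m hm
    exact if_neg fun ⟨k, hk⟩ => hm.not_ge (Finset.le_sup (f := Prod.snd) (Finset.mem_biUnion.2
      ⟨k, Finset.mem_range_succ_iff.2 (h8 k hk), hk⟩)))
  obtain ⟨u, a1, a2⟩ := hk (Finset.mem_singleton_self _)
  obtain ⟨p, a3, rfl⟩ := Finset.mem_image.1 ((h9 k).symm.subset a1)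
  simp [c, x] at a2
  exact a2 k a3

theorem Menger.imageOn {Y Z : Type} [TopologicalSpace Y] [TopologicalSpace Z] {A : Set Y}
    (h : Menger A) {f : Y → Z} (hf : ContinuousOn f A) : Menger (f '' A) := fun U hU => by
  choose! v h0 h0' using continuousOn_iff'.1 hf
  obtain ⟨F, h1, h2⟩ := h (fun n => v '' U n) fun n =>
    ⟨forall_mem_image.2 fun u hu => h0 u ((hU n).1 u hu), fun x hx => by
      obtain ⟨u, h1, h2⟩ := (hU n).2 ⟨x, hx, rfl⟩
      exact ⟨_, ⟨u, h1, rfl⟩, ((h0' u ((hU n).1 u h1)).subset ⟨h2, hx⟩).1⟩⟩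
  choose E h3 h4 h5 using fun n => (h1 n).1.exists_subset_finite_image_eq (h1 n).2
  refine ⟨E, fun n => ⟨h4 n, h3 n⟩, ?_⟩
  rintro _ ⟨x, hx, rfl⟩
  obtain ⟨n, u, h6, h7⟩ := mem_iUnion.1 (h2 hx)
  obtain ⟨w, h8, rfl⟩ := (h5 n).symm.subset h6
  exact mem_iUnion.2 ⟨n, w, h8, ((h0' w ((hU n).1 w (h3 n h8))).symm.subset ⟨h7, hx⟩).1⟩

theorem gmax_pos (hP : MengerProductive) : GmaxScheepers := fun X hX f hf U hU hU' => by
  classical
  have h1 : Menger (f '' X) := Menger.imageOn (fun V hV => by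
    obtain ⟨F, h1, h2⟩ := hX V (fun n => (hV n).1) fun n => (hV n).2
    exact ⟨fun n => F n, fun n => ⟨(F n).finite_toSet, h1 n⟩, fun x hx => mem_iUnion.2
      ((h2 {x} (by simpa)).imp fun n hn => hn (by simp))⟩) hf
  generalize f '' X = Y at *
  have hs : Continuous fun p : (ℕ → ℕ) × (ℕ → ℕ) => p.1 ⊔ p.2 := continuous_pi fun i =>
    ((continuous_apply i).comp continuous_fst).max ((continuous_apply i).comp continuous_snd)
  let Z : ℕ → Set (ℕ → ℕ) := fun k =>
    Nat.rec Y (fun _ Z => (fun p : (ℕ → ℕ) × (ℕ → ℕ) => p.1 ⊔ p.2) '' Z ×ˢ Y) k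
  have h2 : ∀ k, Menger (Z k) := fun k => by
    induction k with
    | zero => exact h1
    | succ k ih => exact (hP _ _ _ ih h1).image hs
  have h3 : ∀ k, ∀ h ∈ Z k, ∃ F : Finset (ℕ → ℕ), F.Nonempty ∧ (↑F : Set (ℕ → ℕ)) ⊆ Y ∧
      h = F.sup id := fun k => by
    induction k with
    | zero => exact fun h hh => ⟨{h}, by simp, by simpa, by simp⟩
    | succ k ih =>
      rintro _ ⟨⟨h, y⟩, ⟨a1, a2⟩, rfl⟩
      obtain ⟨F, -, a3, rfl⟩ := ih h a1
      exact ⟨insert y F, by simp, by simpa [insert_subset_iff] using ⟨a2, a3⟩, by simp [sup_comm]⟩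
  have h4 : ∀ F : Finset (ℕ → ℕ), F.Nonempty → (↑F : Set (ℕ → ℕ)) ⊆ Y → ∃ k, F.sup id ∈ Z k := by
    intro F hF
    induction hF using Finset.Nonempty.cons_induction with
    | singleton y => exact fun h => ⟨0, show _ ∈ Y by simpa using h⟩
    | cons y F _ _ ih =>
      intro h
      rw [Finset.coe_cons, insert_subset_iff] at h
      obtain ⟨k, hk⟩ := ih h.2
      exact ⟨k + 1, (_, y), ⟨hk, h.1⟩, by rw [Finset.sup_cons]; exact sup_comm _ _⟩
  let d : ℕ → ℕ → ℕ := fun k n => if n < k then k else 0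
  obtain ⟨V, h5, h6⟩ := Menger.iUnion (fun j => (Menger.iUnion h2).image
    (f := fun h => h ⊔ d j) (hs.comp (continuous_id.prodMk continuous_const)))
    (fun n => {V | IsOpen V ∧ ∃ F : Finset (Set (ℕ → ℕ)), (↑F : Set (Set (ℕ → ℕ))) ⊆ U n ∧
      ∀ h ∈ V, Iic h ⊆ ⋃₀ (↑F : Set (Set (ℕ → ℕ)))}) fun n => ⟨fun V hV => hV.1, fun h hh => by
      have a0 : IsCompact (Iic h) := by
        rw [← pi_univ_Iic]
        exact isCompact_univ_pi fun i => (finite_Iic _).isCompact
      obtain ⟨F, a1, a2, a3⟩ := a0.elim_finite_subcover_image (c := id) (hU n) fun g hg =>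
        sUnion_eq_biUnion.subset (hU' n (by
          obtain ⟨j, h, a1, rfl⟩ := mem_iUnion.1 hh
          obtain ⟨k, a2⟩ := mem_iUnion.1 a1
          obtain ⟨F, a3, a4, rfl⟩ := h3 k h a2
          exact ⟨F, a3, a4, (eventually_ge_atTop j).mono fun m hm => by
            simpa [d, hm.not_gt, Finset.sup_apply] using hg m⟩))
      obtain ⟨N, hN⟩ := a0.elim_directed_cover
        (fun N => {g | PiNat.cylinder g N ⊆ ⋃ u ∈ F, id u})
        (fun N => isOpen_iff_mem_nhds.2 fun g hg => mem_of_superset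
          ((PiNat.isOpen_cylinder _ g N).mem_nhds (PiNat.self_mem_cylinder _ _)) fun g' hg' =>
            (PiNat.mem_cylinder_iff_eq.1 hg').subset.trans hg)
        (fun g hg => by
          obtain ⟨_, ⟨z, N, rfl⟩, a4, a5⟩ := (PiNat.isTopologicalBasis_cylinders fun _ : ℕ =>
            ℕ).exists_subset_of_mem_open (a3 hg) (isOpen_biUnion fun u hu => hU n u (a1 hu))
          exact mem_iUnion.2 ⟨N, (PiNat.mem_cylinder_iff_eq.1 a4).subset.trans a5⟩)
        (Monotone.directed_le fun a b hab g hg => (PiNat.cylinder_anti g hab).trans hg)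
      refine ⟨PiNat.cylinder h N, ⟨PiNat.isOpen_cylinder _ h N, a2.toFinset, by simpa using a1,
        fun h' a4 g a5 => ?_⟩, PiNat.self_mem_cylinder _ _⟩
      simpa using hN (show g ⊓ h ∈ Iic h from mem_Iic.2 inf_le_right) (show g ∈ _ from fun i hi =>
        (inf_eq_left.2 ((a5 i).trans (a4 i hi).le)).symm)⟩
  choose F h7 h8 using fun n (W : V n) => ((h5 n).2 W.2).2
  haveI := fun n => (h5 n).1.fintype
  refine ⟨fun n => Finset.univ.biUnion (F n), fun n => by simpa using fun W hW => h7 n ⟨W, hW⟩,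
    fun B hB => ?_⟩
  rcases B.eq_empty_or_nonempty with rfl | ⟨g0, hg0⟩
  · exact ⟨0, by simp⟩
  choose! D a1 a2 a3 using hB
  obtain ⟨k, hk⟩ := h4 (B.biUnion D) ((a1 hg0).mono (Finset.subset_biUnion_of_mem D hg0))
    (by simpa using a2)
  obtain ⟨N, hN⟩ := eventually_atTop.1 ((eventually_all_finset B).2 a3)
  let j := max N (B.sup fun g => (Finset.range N).sup g)
  obtain ⟨n, W, a4, a5⟩ := mem_iUnion.1 (h6 (mem_iUnion.2 ⟨j, _, mem_iUnion.2 ⟨k, hk⟩, rfl⟩))
  refine ⟨n, fun g hg => sUnion_mono (Finset.coe_subset.2 (Finset.subset_biUnion_of_mem (F n)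
    (Finset.mem_univ ⟨W, a4⟩)))
    (h8 n ⟨W, a4⟩ _ a5 fun m => ?_)⟩
  by_cases hm : m < N
  · refine le_sup_of_le_right ?_
    refine le_of_le_of_eq ?_ (if_pos (lt_max_of_lt_left hm : m < j)).symm
    exact le_max_of_le_right ((Finset.le_sup (f := g) (Finset.mem_range.2 hm)).trans
      (Finset.le_sup (f := fun g => (Finset.range N).sup g) hg))
  · refine le_sup_of_le_left ((hN m (not_lt.1 hm) g hg).trans ?_)
    rw [Finset.sup_apply]
    exact Finset.sup_mono (Finset.subset_biUnion_of_mem D hg)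

end Pool.Agent.H57.HurGrp
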