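import Pool.Agent.H57.MengerDefs

set_option autoImplicit false

namespace Pool.Agent.H57.HurGrp

/-- the Scheepers property `U_fin(O, Ω)` of a subset `A` of a space -/
def Scheepers {Z : Type} [TopologicalSpace Z] (A : Set Z) : Prop :=
  ∀ U : ℕ → Set (Set Z), (∀ n, ∀ u ∈ U n, IsOpen u) → (∀ n, A ⊆ ⋃₀ U n) →
    ∃ F : ℕ → Finset (Set Z), (∀ n, (↑(F n) : Set (Set Z)) ⊆ U n) ∧
      ∀ B : Finset Z, (↑B : Set Z) ⊆ A → ∃ n, (↑B : Set Z) ⊆ ⋃₀ (↑(F n) : Set (Set Z))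

/-- functions eventually dominated by the maximum of finitely many members of `Y` -/
def Gmax (Y : Set (ℕ → ℕ)) : Set (ℕ → ℕ) :=
  {g | ∃ F : Finset (ℕ → ℕ), F.Nonempty ∧ (↑F : Set (ℕ → ℕ)) ⊆ Y ∧
    ∀ᶠ m in Filter.atTop, g m ≤ F.sup fun h => h m}

/-- the statement of the question -/
def GmaxScheepers : Prop :=
  ∀ X : Set ℝ, Scheepers X → ∀ f : ℝ → ℕ → ℕ, ContinuousOn f X → Scheepers (Gmax (f '' X))

end Pool.Agent.H57.HurGrp
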