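import Mathlib

set_option autoImplicit false

namespace Pool.Agent.H57.HNon

open Finset

/-- Functions hitting `B` at least `T` times are rare. -/
theorem many_hits {I V : Type} [Fintype I] [Fintype V] [DecidableEq I] [DecidableEq V]
    (B : Finset V) (T : ℕ) :
    #{g : I → V | T ≤ #{i | g i ∈ B}} * Fintype.card V ^ T ≤
      Fintype.card I ^ T * #B ^ T * Fintype.card V ^ Fintype.card I := by
  have hsub : ({g : I → V | T ≤ #{i | g i ∈ B}} : Finset (I → V)) ⊆
      (powersetCard T (univ : Finset I)).biUnion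
        (fun P => Fintype.piFinset (fun i => if i ∈ P then B else univ)) := by
    intro g hg
    simp only [mem_filter, mem_univ, true_and] at hg
    obtain ⟨P, hP, hc⟩ := exists_subset_card_eq hg
    refine mem_biUnion.2 ⟨P, mem_powersetCard.2 ⟨subset_univ _, hc⟩, ?_⟩
    rw [Fintype.mem_piFinset]
    intro i
    split_ifs with h
    · exact (mem_filter.1 (hP h)).2
    · exact mem_univ _
  have hone : ∀ P ∈ powersetCard T (univ : Finset I),
      #(Fintype.piFinset (fun i => if i ∈ P then B else (univ : Finset V))) * Fintype.card V ^ T =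
        #B ^ T * Fintype.card V ^ Fintype.card I := by
    intro P hP
    have hc := (mem_powersetCard.1 hP).2
    rw [Fintype.card_piFinset]
    have h1 : ∏ i : I, #(if i ∈ P then B else (univ : Finset V)) =
        ∏ i : I, (if i ∈ P then #B else Fintype.card V) := by
      refine prod_congr rfl fun i _ => ?_
      split_ifs <;> simp
    rw [h1, prod_ite]
    simp only [prod_const]
    have h2 : #{i ∈ (univ : Finset I) | i ∈ P} = T := by
      rw [← hc]; congr 1; ext i; simp
    have h3 : #{i ∈ (univ : Finset I) | ¬ i ∈ P} + T = Fintype.card I := by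
      have := card_filter_add_card_filter_not (s := (univ : Finset I)) (fun i => i ∈ P)
      rw [h2, card_univ] at this
      omega
    rw [h2, mul_assoc, ← pow_add, h3]
  calc #{g : I → V | T ≤ #{i | g i ∈ B}} * Fintype.card V ^ T
      ≤ (∑ P ∈ powersetCard T (univ : Finset I),
          #(Fintype.piFinset (fun i => if i ∈ P then B else (univ : Finset V)))) *
          Fintype.card V ^ T :=
        Nat.mul_le_mul_right _ ((card_le_card hsub).trans card_biUnion_le)
    _ = ∑ P ∈ powersetCard T (univ : Finset I), #B ^ T * Fintype.card V ^ Fintype.card I := by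
        rw [sum_mul]; exact sum_congr rfl hone
    _ = (Fintype.card I).choose T * (#B ^ T * Fintype.card V ^ Fintype.card I) := by
        rw [sum_const, card_powersetCard, card_univ, smul_eq_mul]
    _ ≤ Fintype.card I ^ T * (#B ^ T * Fintype.card V ^ Fintype.card I) :=
        Nat.mul_le_mul_right _ (Nat.choose_le_pow _ _)
    _ = _ := by ring

/-- If `c |I| |B| ≤ |V|`, the fraction of functions hitting `B` at least `T` times is at most
`c^(-T)`. -/
theorem many_hits' {I V : Type} [Fintype I] [Fintype V] [DecidableEq I] [DecidableEq V]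
    [Nonempty V] (B : Finset V) (T c : ℕ) (h : c * Fintype.card I * #B ≤ Fintype.card V) :
    c ^ T * #{g : I → V | T ≤ #{i | g i ∈ B}} ≤ Fintype.card (I → V) := by
  have hV : 0 < Fintype.card V ^ T := pow_pos Fintype.card_pos _
  refine Nat.le_of_mul_le_mul_right ?_ hV
  have h1 := many_hits (I := I) B T
  have h2 : (c * Fintype.card I * #B) ^ T ≤ Fintype.card V ^ T := Nat.pow_le_pow_left h T
  rw [Fintype.card_fun]
  calc c ^ T * #{g : I → V | T ≤ #{i | g i ∈ B}} * Fintype.card V ^ T
      = c ^ T * (#{g : I → V | T ≤ #{i | g i ∈ B}} * Fintype.card V ^ T) := by ring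
    _ ≤ c ^ T * (Fintype.card I ^ T * #B ^ T * Fintype.card V ^ Fintype.card I) :=
        Nat.mul_le_mul_left _ h1
    _ = (c * Fintype.card I * #B) ^ T * Fintype.card V ^ Fintype.card I := by
        rw [mul_pow, mul_pow]; ring
    _ ≤ Fintype.card V ^ T * Fintype.card V ^ Fintype.card I := Nat.mul_le_mul_right _ h2
    _ = _ := by ring

/-- A two-source condenser. -/
theorem condenser (X Y W : Type) [Fintype X] [Fintype Y] [Fintype W] [DecidableEq X]
    [DecidableEq Y] [DecidableEq W] [Nonempty W] (T : ℕ) (hT : 4 * Fintype.card X ≤ 2 ^ T) :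
    ∃ G : X → Y → W, ∀ B : Finset W, 2 * Fintype.card Y * #B ≤ Fintype.card W →
      #{x | T ≤ #{y | G x y ∈ B}} ≤ Fintype.card W := by
  classical
  by_contra hcon
  push Not at hcon
  set K := Fintype.card W with hK
  have hKpos : 0 < K := Fintype.card_pos
  let bad : Finset W → Finset (Y → W) := fun B => {g | T ≤ #{y | g y ∈ B}}
  let Bad : Finset W → Finset (X → Y → W) := fun B => {G | K ≤ #{x | G x ∈ bad B}}
  let sm : Finset (Finset W) := {B | 2 * Fintype.card Y * #B ≤ K}
  have hsub : (univ : Finset (X → Y → W)) ⊆ sm.biUnion Bad := by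
    intro G _
    obtain ⟨B, hB, hlt⟩ := hcon G
    refine mem_biUnion.2 ⟨B, by simpa [sm] using hB, ?_⟩
    simp only [Bad, bad, mem_filter, mem_univ, true_and]
    exact hlt.le
  have hone : ∀ B ∈ sm, 4 ^ K * #(Bad B) ≤ Fintype.card (X → Y → W) := by
    intro B hB
    have hB' : 2 * Fintype.card Y * #B ≤ Fintype.card W := by simpa [sm] using hB
    have h1 := many_hits' (I := Y) B T 2 hB'
    have h2 : 4 * Fintype.card X * #(bad B) ≤ Fintype.card (Y → W) :=
      le_trans (Nat.mul_le_mul_right _ hT) h1
    exact many_hits' (I := X) (bad B) K 4 h2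
  have hcard : Fintype.card (X → Y → W) ≤ ∑ B ∈ sm, #(Bad B) := by
    rw [← card_univ]; exact (card_le_card hsub).trans card_biUnion_le
  have hsm : #(sm) ≤ 2 ^ K := by
    calc #(sm) ≤ #(univ : Finset (Finset W)) := card_le_card (subset_univ _)
      _ = 2 ^ K := by rw [card_univ, Fintype.card_finset]
  have hpos : 0 < Fintype.card (X → Y → W) := Fintype.card_pos
  have h3 : 4 ^ K * Fintype.card (X → Y → W) ≤ 2 ^ K * Fintype.card (X → Y → W) := by
    calc 4 ^ K * Fintype.card (X → Y → W) ≤ 4 ^ K * ∑ B ∈ sm, #(Bad B) :=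
          Nat.mul_le_mul_left _ hcard
      _ = ∑ B ∈ sm, 4 ^ K * #(Bad B) := by rw [mul_sum]
      _ ≤ ∑ _B ∈ sm, Fintype.card (X → Y → W) := sum_le_sum hone
      _ = #(sm) * Fintype.card (X → Y → W) := by rw [sum_const, smul_eq_mul]
      _ ≤ _ := Nat.mul_le_mul_right _ hsm
  have h4 : 4 ^ K ≤ 2 ^ K := Nat.le_of_mul_le_mul_right h3 hpos
  have h5 : 2 ^ K < 4 ^ K := Nat.pow_lt_pow_left (by norm_num) hKpos.ne'
  omega

end Pool.Agent.H57.HNon
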