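import Mathlib

set_option autoImplicit false

namespace Pool.Agent.H57.HNon

open Finset Filter Topology MeasureTheory Metric
open scoped ENNReal

theorem null_of_io {E : Type} [MetricSpace E] [MeasurableSpace E] [BorelSpace E] (r : ℝ)
    (hr : 0 < r) {σ : ℕ → Type} (S : ∀ j, Finset (σ j)) (V : ∀ j, σ j → Set E) (ρ : ℕ → ℝ)
    (hρ0 : ∀ j, 0 ≤ ρ j) (hanti : Antitone ρ) (hρ : Tendsto ρ atTop (𝓝 0))
    (hV : ∀ j a, ediam (V j a) ≤ ENNReal.ofReal (ρ j))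
    (hs : Summable fun j => (#(S j) : ℝ) * ρ j ^ r) :
    μH[r] {x | ∃ᶠ j in atTop, ∃ a ∈ S j, x ∈ V j a} = 0 := by
  refine le_antisymm ?_ bot_le
  let f : ℕ → ℝ≥0∞ := fun j => ENNReal.ofReal ((#(S j) : ℝ) * ρ j ^ r)
  have hf : ∑' j, f j ≠ ∞ := by
    rw [← ENNReal.ofReal_tsum_of_nonneg
      (fun j => mul_nonneg (Nat.cast_nonneg _) (Real.rpow_nonneg (hρ0 j) _)) hs]
    exact ENNReal.ofReal_ne_top
  have ht := ENNReal.tendsto_sum_nat_add f hf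
  have h1 := Measure.hausdorffMeasure_le_liminf_tsum (β := ℕ)
    (ι := fun J => Σ j : ℕ, ↥(S (j + J))) r
    {x | ∃ᶠ j in atTop, ∃ a ∈ S j, x ∈ V j a} (l := atTop) (fun J => ENNReal.ofReal (ρ J))
    (by simpa using ENNReal.tendsto_ofReal hρ)
    (fun J p => V (p.1 + J) p.2.1)
    (Eventually.of_forall fun J p =>
      (hV _ _).trans (ENNReal.ofReal_le_ofReal (hanti (Nat.le_add_left _ _))))
    (Eventually.of_forall fun J x hx => by
      obtain ⟨j, hj, a, ha, hxa⟩ := (frequently_atTop.1 hx) J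
      obtain ⟨i, rfl⟩ : ∃ i, j = i + J := ⟨j - J, by omega⟩
      exact Set.mem_iUnion.2 ⟨⟨i, ⟨a, ha⟩⟩, hxa⟩)
  refine h1.trans ?_
  rw [← ht.liminf_eq]
  refine liminf_le_liminf (Eventually.of_forall fun J => ?_)
  rw [ENNReal.tsum_sigma']
  refine ENNReal.tsum_le_tsum fun j => ?_
  calc ∑' a : ↥(S (j + J)), ediam (V (j + J) a.1) ^ r
      ≤ ∑' _a : ↥(S (j + J)), ENNReal.ofReal (ρ (j + J) ^ r) := by
        refine ENNReal.tsum_le_tsum fun a => ?_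
        rw [← ENNReal.ofReal_rpow_of_nonneg (hρ0 _) hr.le]
        exact ENNReal.rpow_le_rpow (hV _ _) hr.le
    _ = f (j + J) := by
        simp only [f]
        rw [tsum_fintype, sum_const, card_univ, Fintype.card_coe, nsmul_eq_mul,
          ENNReal.ofReal_mul (Nat.cast_nonneg _), ENNReal.ofReal_natCast]

/-- level `k` dyadic digits of a point, modulo the integer part -/
noncomputable def q {n : ℕ} (k : ℕ) (x : EuclideanSpace ℝ (Fin n)) : Fin n → ZMod (2 ^ k) :=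
  fun i => ((⌊(2 : ℝ) ^ k * x i⌋ : ℤ) : ZMod (2 ^ k))

def cube {n : ℕ} (v : Fin n → ℤ) : Set (EuclideanSpace ℝ (Fin n)) := {x | ∀ i, ⌊x i⌋ = v i}

theorem dist_le_of_coord {n : ℕ} (x y : EuclideanSpace ℝ (Fin n)) (c : ℝ) (hc : 0 ≤ c)
    (h : ∀ i, |x i - y i| ≤ c) : dist x y ≤ n * c := by
  rw [EuclideanSpace.dist_eq]
  refine Real.sqrt_le_iff.2 ⟨by positivity, ?_⟩
  have h1 : ∑ i, dist (x i) (y i) ^ 2 ≤ ∑ _i : Fin n, c ^ 2 := by
    refine sum_le_sum fun i _ => ?_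
    rw [Real.dist_eq]
    exact pow_le_pow_left₀ (abs_nonneg _) (h i) 2
  refine h1.trans ?_
  rw [sum_const, card_univ, Fintype.card_fin, nsmul_eq_mul, mul_pow]
  refine mul_le_mul_of_nonneg_right ?_ (sq_nonneg _)
  have : (n : ℝ) ≤ (n : ℝ) ^ 2 := by exact_mod_cast Nat.le_self_pow (by norm_num) n
  exact this

theorem close_of_q (k : ℕ) (a b : ℝ) (h1 : ⌊a⌋ = ⌊b⌋)
    (h2 : ((⌊(2 : ℝ) ^ k * a⌋ : ℤ) : ZMod (2 ^ k)) = ((⌊(2 : ℝ) ^ k * b⌋ : ℤ) : ZMod (2 ^ k))) :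
    |a - b| ≤ ((2 : ℝ) ^ k)⁻¹ := by
  have hp : (0 : ℝ) < 2 ^ k := by positivity
  rw [ZMod.intCast_eq_intCast_iff_dvd_sub] at h2
  have key : ∀ c : ℝ, 2 ^ k * ⌊c⌋ ≤ ⌊(2 : ℝ) ^ k * c⌋ ∧ ⌊(2 : ℝ) ^ k * c⌋ < 2 ^ k * (⌊c⌋ + 1) := by
    intro c
    constructor
    · rw [Int.le_floor]; push_cast
      exact mul_le_mul_of_nonneg_left (Int.floor_le c) hp.le
    · rw [Int.floor_lt]; push_cast
      exact mul_lt_mul_of_pos_left (Int.lt_floor_add_one c) hp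
  have ha := key a
  have hb := key b
  rw [h1] at ha
  have h3 : ⌊(2 : ℝ) ^ k * b⌋ - ⌊(2 : ℝ) ^ k * a⌋ = 0 := by
    refine Int.eq_zero_of_abs_lt_dvd h2 ?_
    rw [abs_lt]; push_cast
    constructor <;> nlinarith [ha.1, ha.2, hb.1, hb.2]
  have h4 : ⌊(2 : ℝ) ^ k * a⌋ = ⌊(2 : ℝ) ^ k * b⌋ := by omega
  have h5 := Int.abs_sub_lt_one_of_floor_eq_floor h4
  rw [← mul_sub, abs_mul, abs_of_pos hp] at h5
  rw [← one_div, le_div_iff₀ hp]
  linarith

theorem exists_cube {n : ℕ} (r : ℝ) (X : Set (EuclideanSpace ℝ (Fin n))) (hX : μH[r] X ≠ 0) :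
    ∃ v, μH[r] (X ∩ cube v) ≠ 0 := by
  by_contra hcon
  push Not at hcon
  apply hX
  have : X = ⋃ v, X ∩ cube v := by
    ext x
    simp only [Set.mem_iUnion, Set.mem_inter_iff]
    exact ⟨fun h => ⟨fun i => ⌊x i⌋, h, fun _ => rfl⟩, fun ⟨_, h, _⟩ => h⟩
  rw [this]
  exact measure_iUnion_null hcon

theorem exists_avoid {n : ℕ} (r : ℝ) (hr : 0 < r) (X : Set (EuclideanSpace ℝ (Fin n)))
    (hX : μH[r] X ≠ 0) (k : ℕ → ℕ) (hk : Monotone k) (hk' : Tendsto k atTop atTop)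
    (S : ∀ j, Finset (Fin n → ZMod (2 ^ k j)))
    (hs : Summable fun j => (#(S j) : ℝ) * ((2 : ℝ) ^ k j)⁻¹ ^ r) :
    ∃ x ∈ X, ∀ᶠ j in atTop, q (k j) x ∉ S j := by
  obtain ⟨v, hv⟩ := exists_cube r X hX
  by_contra hcon
  push Not at hcon
  apply hv
  have hnull := null_of_io r hr S (fun j a => {x ∈ cube v | q (k j) x = a})
    (fun j => n * ((2 : ℝ) ^ k j)⁻¹) (fun j => by positivity)
    (fun i j hij => by
      refine mul_le_mul_of_nonneg_left ?_ (Nat.cast_nonneg _)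
      exact inv_anti₀ (by positivity) (pow_le_pow_right₀ (by norm_num) (hk hij)))
    (by
      have h1 : Tendsto (fun j => ((2 : ℝ) ^ k j)⁻¹) atTop (𝓝 0) :=
        tendsto_inv_atTop_zero.comp
          ((tendsto_pow_atTop_atTop_of_one_lt (by norm_num : (1 : ℝ) < 2)).comp hk')
      simpa using h1.const_mul (n : ℝ))
    (fun j a => by
      refine ediam_le fun x hx y hy => ?_
      rw [edist_dist]
      refine ENNReal.ofReal_le_ofReal (dist_le_of_coord x y _ (by positivity) fun i => ?_)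
      refine close_of_q _ _ _ ((hx.1 i).trans (hy.1 i).symm) ?_
      exact congrFun (hx.2.trans hy.2.symm) i)
    (by
      refine (hs.mul_left ((n : ℝ) ^ r)).congr fun j => ?_
      rw [Real.mul_rpow (Nat.cast_nonneg _) (by positivity)]; ring)
  refine measure_mono_null ?_ hnull
  intro x hx
  exact (hcon x hx.1).mono fun j hj => ⟨_, hj, hx.2, rfl⟩

theorem cover_of_null {n : ℕ} (s : ℝ) (hs : 0 < s) (Z : Set (EuclideanSpace ℝ (Fin n)))
    (hZ : μH[s] Z = 0) :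
    ∃ (p : ℕ × ℕ → EuclideanSpace ℝ (Fin n)) (ρ : ℕ × ℕ → ℝ) (C : ℝ), (∀ i, 0 < ρ i) ∧
      (∀ F : Finset (ℕ × ℕ), ∑ i ∈ F, ρ i ^ s ≤ C) ∧
      ∀ z ∈ Z, ∀ ε : ℝ, 0 < ε → ∃ i, ρ i ≤ ε ∧ dist z (p i) ≤ ρ i := by
  classical
  rw [Measure.hausdorffMeasure_apply] at hZ
  have h1 : ∀ k : ℕ, ∃ t : ℕ → Set (EuclideanSpace ℝ (Fin n)), Z ⊆ ⋃ i, t i ∧
      (∀ i, ediam (t i) ≤ 1) ∧
      ∑' i, ⨆ _ : (t i).Nonempty, ediam (t i) ^ s < ENNReal.ofReal ((1 / 2) ^ k) := by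
    intro k
    have h2 := (le_iSup₂_of_le (f := fun (r : ℝ≥0∞) (_ : 0 < r) =>
      ⨅ (t : ℕ → Set (EuclideanSpace ℝ (Fin n))) (_ : Z ⊆ ⋃ n, t n) (_ : ∀ n, ediam (t n) ≤ r),
        ∑' n, ⨆ _ : (t n).Nonempty, ediam (t n) ^ s) (1 : ℝ≥0∞) one_pos le_rfl).trans hZ.le
    have h3 := h2.trans_lt (ENNReal.ofReal_pos.2 (by positivity : (0 : ℝ) < (1 / 2) ^ k))
    simp only [iInf_lt_iff] at h3
    obtain ⟨t, ht1, ht2, ht3⟩ := h3
    exact ⟨t, ht1, ht2, ht3⟩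
  choose t ht1 ht2 ht3 using h1
  let a : ℕ × ℕ → ℝ := fun i => (⨆ _ : (t i.1 i.2).Nonempty, ediam (t i.1 i.2) ^ s).toReal
  have ha0 : ∀ i, 0 ≤ a i := fun i => ENNReal.toReal_nonneg
  have hne : ∀ k, ∑' i, ⨆ _ : (t k i).Nonempty, ediam (t k i) ^ s ≠ ∞ := fun k =>
    (ht3 k).ne_top
  have hsum : ∀ k, Summable fun i => a (k, i) := fun k => ENNReal.summable_toReal (hne k)
  have hle : ∀ k, ∑' i, a (k, i) ≤ (1 / 2) ^ k := by
    intro k
    simp only [a]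
    rw [← ENNReal.tsum_toReal_eq (fun i => ENNReal.ne_top_of_tsum_ne_top (hne k) i)]
    exact ENNReal.toReal_le_of_le_ofReal (by positivity) (ht3 k).le
  have hg : Summable fun k : ℕ => ((1 : ℝ) / 2) ^ k := summable_geometric_two
  have hA : Summable a := by
    rw [summable_prod_of_nonneg ha0]
    exact ⟨hsum, Summable.of_nonneg_of_le (fun k => tsum_nonneg fun i => ha0 _) hle hg⟩
  let b : ℕ × ℕ → ℝ := fun i => a i + (1 / 2) ^ i.1 * (1 / 2) ^ i.2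
  have hb0 : ∀ i, 0 < b i := fun i => add_pos_of_nonneg_of_pos (ha0 i) (by positivity)
  have hB : Summable b := hA.add (hg.mul_of_nonneg hg (fun _ => by positivity) (fun _ => by positivity))
  have hpow : ∀ i, (b i ^ s⁻¹) ^ s = b i := fun i => Real.rpow_inv_rpow (hb0 i).le hs.ne'
  refine ⟨fun i => if h : (t i.1 i.2).Nonempty then h.some else 0, fun i => b i ^ s⁻¹, ∑' i, b i,
    fun i => Real.rpow_pos_of_pos (hb0 i) _, fun F => ?_, fun z hz ε hε => ?_⟩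
  · simp only [hpow]
    exact hB.sum_le_tsum F fun i _ => (hb0 i).le
  · obtain ⟨k, hk⟩ := exists_pow_lt_of_lt_one (x := ε ^ s / 2) (y := (1 / 2 : ℝ))
      (by have := Real.rpow_pos_of_pos hε s; positivity) (by norm_num)
    obtain ⟨i, hi⟩ := Set.mem_iUnion.1 (ht1 k hz)
    have hn : (t k i).Nonempty := ⟨z, hi⟩
    refine ⟨(k, i), ?_, ?_⟩
    · rw [← Real.rpow_le_rpow_iff (Real.rpow_pos_of_pos (hb0 _) _).le hε.le hs, hpow]
      have h1 : a (k, i) ≤ (1 / 2) ^ k :=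
        ((hsum k).le_tsum i fun _ _ => ha0 _).trans (hle k)
      have h2 : ((1 : ℝ) / 2) ^ k * (1 / 2) ^ i ≤ (1 / 2) ^ k :=
        mul_le_of_le_one_right (by positivity) (pow_le_one₀ (by norm_num) (by norm_num))
      simp only [b]
      linarith
    · simp only [hn, dif_pos]
      rw [← Real.rpow_le_rpow_iff dist_nonneg (Real.rpow_pos_of_pos (hb0 _) _).le hs, hpow]
      have hfin : ediam (t k i) ≠ ∞ := ((ht2 k i).trans_lt ENNReal.one_lt_top).ne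
      have h1 : dist z hn.some ≤ (ediam (t k i)).toReal := by
        rw [dist_edist]
        exact ENNReal.toReal_mono hfin (edist_le_ediam_of_mem hi hn.some_mem)
      have h2 : a (k, i) = (ediam (t k i)).toReal ^ s := by
        simp only [a, hn, iSup_pos]
        rw [ENNReal.toReal_rpow]
      have h3 : dist z hn.some ^ s ≤ a (k, i) := by
        rw [h2]; exact Real.rpow_le_rpow dist_nonneg h1 hs.le
      simp only [b]
      have : (0 : ℝ) ≤ (1 / 2) ^ k * (1 / 2) ^ i := by positivity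
      linarith

end Pool.Agent.H57.HNon
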