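import Mathlib

set_option autoImplicit false

namespace Pool.Agent.H57.HNon

open Finset Filter Topology

section
variable {n : ℕ} (R : ℕ → ℕ)

def Q (j : ℕ) : ℕ := ∏ i ∈ range j, R i

def N (g : ∀ j, Fin n → Fin (R j)) (i : Fin n) : ℕ → ℕ
  | 0 => 0
  | j + 1 => N g i j * R j + g j i

noncomputable def Phi (g : ∀ j, Fin n → Fin (R j)) : EuclideanSpace ℝ (Fin n) :=
  WithLp.toLp 2 fun i => ⨆ j, (N R g i j : ℝ) / Q R j

variable {R}

theorem Q_pos (hR : ∀ j, 0 < R j) (j : ℕ) : 0 < Q R j := prod_pos fun i _ => hR i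

theorem Q_succ (j : ℕ) : Q R (j + 1) = Q R j * R j := prod_range_succ _ _

theorem Phi_bounds (hR : ∀ j, 0 < R j) (g : ∀ j, Fin n → Fin (R j)) (i : Fin n) (j : ℕ) :
    (N R g i j : ℝ) ≤ Q R j * Phi R g i ∧ Q R j * Phi R g i ≤ N R g i j + 1 := by
  have hQ : ∀ j, (0 : ℝ) < Q R j := fun j => by exact_mod_cast Q_pos hR j
  have hR' : ∀ j, (0 : ℝ) < R j := fun j => by exact_mod_cast hR j
  have hmono : Monotone fun j => (N R g i j : ℝ) / Q R j := by
    refine monotone_nat_of_le_succ fun j => ?_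
    rw [div_le_div_iff₀ (hQ j) (hQ _), Q_succ, N]
    push_cast
    have : (0 : ℝ) ≤ ((g j i : ℕ) : ℝ) * Q R j := by have := hQ j; positivity
    nlinarith
  have hanti : Antitone fun j => ((N R g i j : ℝ) + 1) / Q R j := by
    refine antitone_nat_of_succ_le fun j => ?_
    rw [div_le_div_iff₀ (hQ _) (hQ j), Q_succ, N]
    push_cast
    have h1 : ((g j i : ℕ) : ℝ) + 1 ≤ R j := by exact_mod_cast (g j i).2
    have := mul_le_mul_of_nonneg_right h1 (hQ j).le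
    nlinarith
  have hle : (fun j => (N R g i j : ℝ) / Q R j) ≤ fun j => ((N R g i j : ℝ) + 1) / Q R j :=
    fun j => div_le_div_of_nonneg_right (by linarith) (hQ j).le
  have h := Set.mem_iInter.1 (hmono.ciSup_mem_iInter_Icc_of_antitone hanti hle) j
  have e : Phi R g i = ⨆ j, (N R g i j : ℝ) / Q R j := rfl
  rw [e]
  constructor
  · have := h.1
    rw [div_le_iff₀ (hQ j)] at this
    linarith
  · have := h.2
    rw [le_div_iff₀ (hQ j)] at this
    linarith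

theorem card_Icc_le (a b c : ℝ) (hc : 1 ≤ c) (h : b - a + 1 ≤ c) :
    (#(Finset.Icc ⌈a⌉₊ ⌊b⌋₊) : ℝ) ≤ c := by
  rw [Nat.card_Icc]
  rcases le_or_gt (⌈a⌉₊) (⌊b⌋₊ + 1) with h1 | h1
  · rw [Nat.cast_sub h1]
    push_cast
    rcases lt_or_ge b 0 with hb | hb
    · rw [Nat.floor_of_nonpos hb.le]
      have : (0 : ℝ) ≤ ⌈a⌉₊ := Nat.cast_nonneg _
      push_cast
      linarith
    · have h2 := Nat.floor_le hb
      have h3 := Nat.le_ceil a
      linarith
  · rw [Nat.sub_eq_zero_of_le h1.le]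
    push_cast
    linarith

open Classical in
/-- pairs of consecutive digit blocks of points of a ball -/
noncomputable def pairs (R : ℕ → ℕ) (j : ℕ) (p : EuclideanSpace ℝ (Fin n)) (ρ : ℝ) :
    Finset ((Fin n → Fin (R j)) × (Fin n → Fin (R (j + 1)))) :=
  {ab | ∃ g : ∀ j, Fin n → Fin (R j), g j = ab.1 ∧ g (j + 1) = ab.2 ∧ dist (Phi R g) p ≤ ρ}

theorem card_pairs (hR : ∀ j, 0 < R j) (j : ℕ) (p : EuclideanSpace ℝ (Fin n)) (ρ : ℝ)
    (h : 1 ≤ Q R (j + 2) * ρ) : (#(pairs R j p ρ) : ℝ) ≤ (4 * (Q R (j + 2) * ρ)) ^ n := by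
  classical
  have hQ : (0 : ℝ) < Q R (j + 2) := by exact_mod_cast Q_pos hR _
  let dec : (Fin n → ℕ) → (Fin n → Fin (R j)) × (Fin n → Fin (R (j + 1))) := fun M =>
    (fun i => ⟨M i / R (j + 1) % R j, Nat.mod_lt _ (hR _)⟩,
      fun i => ⟨M i % R (j + 1), Nat.mod_lt _ (hR _)⟩)
  let box : Finset (Fin n → ℕ) := Fintype.piFinset fun i =>
    Finset.Icc ⌈Q R (j + 2) * (p i - ρ) - 1⌉₊ ⌊Q R (j + 2) * (p i + ρ)⌋₊
  have hsub : pairs R j p ρ ⊆ box.image dec := by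
    intro ab hab
    simp only [pairs, mem_filter, mem_univ, true_and] at hab
    obtain ⟨g, h1, h2, h3⟩ := hab
    refine mem_image.2 ⟨fun i => N R g i (j + 2), ?_, ?_⟩
    · rw [Fintype.mem_piFinset]
      intro i
      have hb := Phi_bounds hR g i (j + 2)
      have hd : |Phi R g i - p i| ≤ ρ := by
        rw [← Real.dist_eq]
        exact (PiLp.dist_apply_le _ _ i).trans h3
      rw [abs_le] at hd
      rw [Finset.mem_Icc, Nat.ceil_le]
      constructor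
      · nlinarith [hb.2, hd.1]
      · refine Nat.le_floor ?_
        nlinarith [hb.1, hd.2]
    · refine Prod.ext ?_ ?_
      · rw [← h1]
        funext i
        apply Fin.ext
        show (N R g i (j + 1) * R (j + 1) + g (j + 1) i) / R (j + 1) % R j = g j i
        rw [add_comm, Nat.add_mul_div_right _ _ (hR _), Nat.div_eq_of_lt (g (j + 1) i).2,
          zero_add, N, add_comm, Nat.add_mul_mod_self_right, Nat.mod_eq_of_lt (g j i).2]
      · rw [← h2]
        funext i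
        apply Fin.ext
        show (N R g i (j + 1) * R (j + 1) + g (j + 1) i) % R (j + 1) = g (j + 1) i
        rw [add_comm, Nat.add_mul_mod_self_right, Nat.mod_eq_of_lt (g (j + 1) i).2]
  have hc : #(pairs R j p ρ) ≤ #(box) := (card_le_card hsub).trans card_image_le
  refine (Nat.cast_le.2 hc).trans ?_
  simp only [box]
  rw [Fintype.card_piFinset]
  push_cast
  calc ∏ i : Fin n, (#(Finset.Icc ⌈Q R (j + 2) * (p i - ρ) - 1⌉₊ ⌊Q R (j + 2) * (p i + ρ)⌋₊) : ℝ)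
      ≤ ∏ _i : Fin n, (4 * (Q R (j + 2) * ρ)) := by
        refine prod_le_prod (fun i _ => Nat.cast_nonneg _) fun i _ => ?_
        refine card_Icc_le _ _ _ (by linarith) (by nlinarith)
    _ = _ := by rw [prod_const, card_univ, Fintype.card_fin]

open Classical in
/-- all pairs coming from balls of the cover whose radius lies in the `j`-th range -/
noncomputable def allPairs (R : ℕ → ℕ) {ι : Type} (p : ι → EuclideanSpace ℝ (Fin n)) (ρ : ι → ℝ)
    (j : ℕ) : Finset ((Fin n → Fin (R j)) × (Fin n → Fin (R (j + 1)))) :=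
  {ab | ∃ i, 1 ≤ Q R (j + 2) * ρ i ∧ Q R (j + 1) * ρ i ≤ 1 ∧ ab ∈ pairs R j (p i) (ρ i)}

theorem card_allPairs (hR : ∀ j, 0 < R j) {ι : Type} (p : ι → EuclideanSpace ℝ (Fin n))
    (ρ : ι → ℝ) (s C : ℝ) (hs : s ≤ n) (hρ : ∀ i, 0 < ρ i)
    (hC : ∀ F : Finset ι, ∑ i ∈ F, ρ i ^ s ≤ C) (j : ℕ) :
    (#(allPairs R p ρ j) : ℝ) ≤
      (4 * Q R (j + 2)) ^ n * ((R j : ℝ) ^ ((n : ℝ) - s))⁻¹ * C := by
  classical
  have hch : ∀ ab ∈ allPairs R p ρ j, ∃ i, 1 ≤ Q R (j + 2) * ρ i ∧ Q R (j + 1) * ρ i ≤ 1 ∧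
      ab ∈ pairs R j (p i) (ρ i) := fun ab hab => by simpa [allPairs] using hab
  choose c hc using hch
  let F : Finset ι := (allPairs R p ρ j).attach.image fun ab => c ab.1 ab.2
  have hF : ∀ i ∈ F, 1 ≤ Q R (j + 2) * ρ i ∧ Q R (j + 1) * ρ i ≤ 1 := by
    intro i hi
    obtain ⟨ab, _, rfl⟩ := mem_image.1 hi
    exact ⟨(hc _ ab.2).1, (hc _ ab.2).2.1⟩
  have hsub : allPairs R p ρ j ⊆ F.biUnion fun i => pairs R j (p i) (ρ i) := by
    intro ab hab
    exact mem_biUnion.2 ⟨c ab hab, mem_image.2 ⟨⟨ab, hab⟩, mem_attach _ _, rfl⟩, (hc ab hab).2.2⟩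
  have h1 : #(allPairs R p ρ j) ≤ ∑ i ∈ F, #(pairs R j (p i) (ρ i)) :=
    (card_le_card hsub).trans card_biUnion_le
  have hRj : (0 : ℝ) < R j := by exact_mod_cast hR j
  have hK : (0 : ℝ) ≤ (4 * Q R (j + 2)) ^ n * ((R j : ℝ) ^ ((n : ℝ) - s))⁻¹ := by
    have := Real.rpow_pos_of_pos hRj ((n : ℝ) - s)
    positivity
  refine (Nat.cast_le.2 h1).trans ?_
  push_cast
  refine le_trans ?_ (mul_le_mul_of_nonneg_left (hC F) hK)
  rw [mul_sum]
  refine sum_le_sum fun i hi => (card_pairs hR j _ _ (hF i hi).1).trans ?_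
  rw [← mul_assoc, mul_pow, mul_assoc]
  refine mul_le_mul_of_nonneg_left ?_ (by positivity)
  have h2 : ρ i ^ n = ρ i ^ ((n : ℝ) - s) * ρ i ^ s := by
    rw [← Real.rpow_add (hρ i), sub_add_cancel, Real.rpow_natCast]
  rw [h2]
  refine mul_le_mul_of_nonneg_right ?_ (Real.rpow_nonneg (hρ i).le _)
  rw [← Real.inv_rpow hRj.le]
  refine Real.rpow_le_rpow (hρ i).le ?_ (by linarith)
  have h3 : (R j : ℝ) ≤ Q R (j + 1) := by
    rw [Q_succ]
    exact_mod_cast Nat.le_mul_of_pos_left _ (Q_pos hR j)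
  rw [← one_div, le_div_iff₀ hRj]
  nlinarith [(hF i hi).2, hρ i]

theorem exists_range (hR : ∀ j, 2 ≤ R j) (J : ℕ) (ρ : ℝ) (h0 : 0 < ρ) (h1 : Q R (J + 1) * ρ ≤ 1) :
    ∃ j, J ≤ j ∧ 1 ≤ Q R (j + 2) * ρ ∧ Q R (j + 1) * ρ ≤ 1 := by
  by_contra hcon
  push Not at hcon
  have h2 : ∀ j, J ≤ j → Q R (j + 1) * ρ ≤ 1 := by
    intro j hj
    induction j, hj using Nat.le_induction with
    | base => exact h1
    | succ j hj ih =>
      by_contra h
      push Not at h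
      exact absurd (hcon j hj h.le) (not_lt.2 ih)
  have h3 : ∀ j, j ≤ Q R j := by
    intro j
    have : 2 ^ j ≤ Q R j := by
      calc 2 ^ j = ∏ _i ∈ range j, 2 := by simp
        _ ≤ _ := prod_le_prod' fun i _ => hR i
    exact (Nat.lt_two_pow_self.le).trans this
  obtain ⟨m, hm⟩ := exists_nat_gt (1 / ρ)
  have h4 := h2 (m + J) (by omega)
  have h5 : (m : ℝ) ≤ Q R (m + J + 1) := by
    exact_mod_cast le_trans (by omega) (h3 (m + J + 1))
  rw [div_lt_iff₀ h0] at hm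
  nlinarith
end

end Pool.Agent.H57.HNon
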