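import Pool.Agent.H57.HNon1
import Pool.Agent.H57.HNon2
import Pool.Agent.H57.HNon3

set_option autoImplicit false

namespace Pool.Agent.H57.HNon

open Finset Filter Topology MeasureTheory

theorem markov {U V : Type} [Fintype U] [Fintype V] [DecidableEq U] [DecidableEq V]
    (P : Finset (U × V)) (c : ℕ) :
    #{a : U | Fintype.card V < c * #{b : V | (a, b) ∈ P}} * Fintype.card V ≤ c * #P := by
  have h1 : #P = ∑ a : U, #{b : V | (a, b) ∈ P} := by
    rw [card_eq_sum_card_fiberwise (f := Prod.fst) (t := (univ : Finset U))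
      (fun _ _ => mem_coe.2 (mem_univ _))]
    refine sum_congr rfl fun a _ => ?_
    refine card_bij (fun p _ => p.2) ?_ ?_ ?_
    · rintro ⟨x, y⟩ h
      simp only [mem_filter, mem_univ, true_and] at h ⊢
      rw [← h.2]; exact h.1
    · rintro ⟨x, y⟩ h ⟨x', y'⟩ h' e
      simp only [mem_filter] at h h'
      exact Prod.ext (h.2.trans h'.2.symm) e
    · intro b hb
      simp only [mem_filter, mem_univ, true_and] at hb
      exact ⟨(a, b), mem_filter.2 ⟨hb, rfl⟩, rfl⟩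
  rw [h1, mul_sum, ← smul_eq_mul, ← sum_const]
  calc ∑ _a ∈ ({a : U | Fintype.card V < c * #{b : V | (a, b) ∈ P}} : Finset U), Fintype.card V
      ≤ ∑ a ∈ ({a : U | Fintype.card V < c * #{b : V | (a, b) ∈ P}} : Finset U),
          c * #{b : V | (a, b) ∈ P} := sum_le_sum fun a ha => (mem_filter.1 ha).2.le
    _ ≤ _ := sum_le_sum_of_subset (subset_univ _)

theorem le_pow_self {A : ℕ} (hA : 2 ≤ A) (j : ℕ) : j ≤ A ^ j :=
  Nat.lt_two_pow_self.le.trans (Nat.pow_le_pow_left hA j)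

theorem summable_aux {A : ℕ} (hA : 2 ≤ A) (r : ℝ) (m : ℕ) (hm : (m : ℝ) + 1 ≤ r * A) (c : ℕ)
    (e : ℕ) (u : ℕ → ℕ) (hu : ∀ j, u j ≤ c * 2 ^ (m * A ^ (j + e))) :
    Summable fun j => (u j : ℝ) * ((2 : ℝ) ^ (A ^ (j + e + 1)))⁻¹ ^ r := by
  refine Summable.of_nonneg_of_le (fun j => by positivity) (fun j => ?_)
    (summable_geometric_two.mul_left (c : ℝ))
  have h1 : (u j : ℝ) ≤ c * 2 ^ (m * A ^ (j + e)) := by exact_mod_cast hu j
  have h2 : ((2 : ℝ) ^ (A ^ (j + e + 1)))⁻¹ ^ r ≤ ((2 : ℝ) ^ ((m + 1) * A ^ (j + e)))⁻¹ := by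
    rw [Real.inv_rpow (by positivity)]
    refine inv_anti₀ (by positivity) ?_
    rw [← Real.rpow_natCast, ← Real.rpow_natCast, ← Real.rpow_mul (by norm_num)]
    refine Real.rpow_le_rpow_of_exponent_le (by norm_num) ?_
    push_cast
    have : (0 : ℝ) ≤ (A : ℝ) ^ (j + e) := by positivity
    rw [pow_succ]
    nlinarith
  have h3 : (2 : ℝ) ^ j ≤ 2 ^ (A ^ (j + e)) :=
    pow_le_pow_right₀ (by norm_num) (le_trans (by omega) (le_pow_self hA (j + e)))
  calc (u j : ℝ) * ((2 : ℝ) ^ (A ^ (j + e + 1)))⁻¹ ^ r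
      ≤ (c * 2 ^ (m * A ^ (j + e))) * ((2 : ℝ) ^ ((m + 1) * A ^ (j + e)))⁻¹ :=
        mul_le_mul h1 h2 (by positivity) (by positivity)
    _ = c * ((2 : ℝ) ^ (A ^ (j + e)))⁻¹ := by
        rw [add_mul, one_mul, pow_add (2 : ℝ)]; field_simp
    _ ≤ c * (1 / 2) ^ j := by
        refine mul_le_mul_of_nonneg_left ?_ (Nat.cast_nonneg _)
        rw [one_div, inv_pow]
        exact inv_anti₀ (by positivity) h3

def Rad (A j : ℕ) : ℕ := 2 ^ A ^ (j + 2)

theorem Rad_two {A : ℕ} (hA : 2 ≤ A) (j : ℕ) : 2 ≤ Rad A j := by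
  unfold Rad
  calc 2 = 2 ^ 1 := rfl
    _ ≤ _ := Nat.pow_le_pow_right (by norm_num) (Nat.one_le_pow _ _ (by omega))

theorem Q_le {A : ℕ} (hA : 2 ≤ A) (j : ℕ) : Q (Rad A) j ≤ 2 ^ (2 * A ^ (j + 1)) := by
  induction j with
  | zero => simp [Q]; exact Nat.one_le_two_pow
  | succ j ih =>
    rw [Q_succ]
    refine (Nat.mul_le_mul_right _ ih).trans ?_
    rw [Rad, ← pow_add]
    refine Nat.pow_le_pow_right (by norm_num) ?_
    have : 2 * A ^ (j + 1) ≤ A ^ (j + 2) := by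
      rw [pow_succ A (j + 1), mul_comm]; exact Nat.mul_le_mul_left _ hA
    show _ ≤ 2 * A ^ (j + 2)
    omega

theorem small_heavy {n A : ℕ} (hA : 2 ≤ A) (s C : ℝ) (hs : (4 * n + 1 : ℝ) ≤ (n - s) * A)
    (P : ∀ j, Finset ((Fin n → Fin (Rad A j)) × (Fin n → Fin (Rad A (j + 1)))))
    (hP : ∀ j, (#(P j) : ℝ) ≤
      (4 * Q (Rad A) (j + 2)) ^ n * ((Rad A j : ℝ) ^ ((n : ℝ) - s))⁻¹ * C) :
    ∀ᶠ j in atTop, 4 * 2 ^ (n * A ^ j) * #{a : Fin n → Fin (Rad A j) |
      Fintype.card (Fin n → Fin (Rad A (j + 1))) <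
        4 * 2 ^ (n * A ^ (j + 1)) * #{b | (a, b) ∈ P j}} ≤ Fintype.card (Fin n → Fin (Rad A j)) := by
  obtain ⟨J, hJ⟩ := exists_nat_ge (16 * 4 ^ n * |C|)
  filter_upwards [eventually_ge_atTop J] with j hj
  have hm := markov (P j) (4 * 2 ^ (n * A ^ (j + 1)))
  set h := #{a : Fin n → Fin (Rad A j) | Fintype.card (Fin n → Fin (Rad A (j + 1))) <
        4 * 2 ^ (n * A ^ (j + 1)) * #{b | (a, b) ∈ P j}} with hh
  simp only [Fintype.card_fun, Fintype.card_fin] at hm ⊢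
  have hR : ∀ j, (0 : ℝ) < Rad A j := fun j => by
    have := Rad_two hA j
    exact_mod_cast (by omega : 0 < Rad A j)
  have hm' : (h : ℝ) * (Rad A (j + 1)) ^ n ≤ 4 * 2 ^ (n * A ^ (j + 1)) * #(P j) := by
    exact_mod_cast hm
  have hQ : (Q (Rad A) j : ℝ) ≤ 2 ^ (2 * A ^ (j + 1)) := by exact_mod_cast Q_le hA j
  have hbig : (2 : ℝ) ^ ((4 * n + 1) * A ^ (j + 1)) ≤ (Rad A j : ℝ) ^ ((n : ℝ) - s) := by
    rw [Rad]
    push_cast
    rw [← Real.rpow_natCast, ← Real.rpow_natCast, ← Real.rpow_mul (by norm_num)]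
    refine Real.rpow_le_rpow_of_exponent_le (by norm_num) ?_
    push_cast
    have : (0 : ℝ) ≤ (A : ℝ) ^ (j + 1) := by positivity
    rw [pow_succ (A : ℝ) (j + 1)]
    nlinarith
  have hJ2 : 16 * 4 ^ n * |C| ≤ (2 : ℝ) ^ (A ^ (j + 1)) := by
    refine hJ.trans ?_
    have : J ≤ 2 ^ (A ^ (j + 1)) :=
      le_trans (le_trans (by omega) (le_pow_self hA (j + 1))) Nat.lt_two_pow_self.le
    exact_mod_cast this
  have hY : (2 : ℝ) ^ (n * A ^ j) ≤ 2 ^ (n * A ^ (j + 1)) :=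
    pow_le_pow_right₀ (by norm_num)
      (Nat.mul_le_mul_left _ (Nat.pow_le_pow_right (by omega) (by omega)))
  have hP1 : (#(P j) : ℝ) ≤ (4 ^ n * (2 ^ (2 * A ^ (j + 1))) ^ n * (Rad A j) ^ n *
      (Rad A (j + 1)) ^ n) * ((2 : ℝ) ^ ((4 * n + 1) * A ^ (j + 1)))⁻¹ * |C| := by
    refine (hP j).trans ?_
    refine le_trans (mul_le_mul_of_nonneg_left (le_abs_self C) ?_) ?_
    · have := Real.rpow_pos_of_pos (hR j) ((n : ℝ) - s)
      positivity
    refine mul_le_mul_of_nonneg_right ?_ (abs_nonneg _)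
    refine mul_le_mul ?_ (inv_anti₀ (by positivity) hbig) ?_ ?_
    · rw [Q_succ, Q_succ]
      push_cast
      rw [← mul_pow, ← mul_pow, ← mul_pow]
      refine pow_le_pow_left₀ (by positivity) ?_ n
      have h1 := hR j
      have h2 := hR (j + 1)
      have : (Q (Rad A) j : ℝ) * (Rad A j * Rad A (j + 1)) ≤
          2 ^ (2 * A ^ (j + 1)) * (Rad A j * Rad A (j + 1)) :=
        mul_le_mul_of_nonneg_right hQ (by positivity)
      nlinarith
    · have := Real.rpow_pos_of_pos (hR j) ((n : ℝ) - s)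
      positivity
    · have h1 := hR j
      have h2 := hR (j + 1)
      positivity
  have hfin : (4 * 2 ^ (n * A ^ j) * h : ℝ) ≤ (Rad A j : ℝ) ^ n := by
    have hp : (0 : ℝ) < (Rad A (j + 1) : ℝ) ^ n := pow_pos (hR _) n
    refine le_of_mul_le_mul_right ?_ hp
    set t : ℝ := 2 ^ (A ^ (j + 1)) with ht
    have htp : 0 < t := by positivity
    have e1 : (2 : ℝ) ^ (n * A ^ (j + 1)) = t ^ n := by rw [ht, ← pow_mul, mul_comm]
    have e2 : ((2 : ℝ) ^ (2 * A ^ (j + 1))) ^ n = t ^ n * t ^ n := by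
      rw [ht, ← mul_pow, ← pow_add, two_mul]
    have e3 : (2 : ℝ) ^ ((4 * n + 1) * A ^ (j + 1)) = t ^ n * t ^ n * t ^ n * t ^ n * t := by
      rw [mul_comm, pow_mul, ← ht]; ring
    rw [e1] at hm' hY
    rw [e2, e3] at hP1
    have h1 := hR j
    calc (4 * 2 ^ (n * A ^ j) * h : ℝ) * (Rad A (j + 1) : ℝ) ^ n
        = 4 * 2 ^ (n * A ^ j) * (h * (Rad A (j + 1) : ℝ) ^ n) := by ring
      _ ≤ 4 * t ^ n * (4 * t ^ n * #(P j)) :=
          mul_le_mul (by linarith) hm' (by positivity) (by positivity)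
      _ ≤ 4 * t ^ n * (4 * t ^ n * ((4 ^ n * (t ^ n * t ^ n) * (Rad A j) ^ n *
            (Rad A (j + 1)) ^ n) * (t ^ n * t ^ n * t ^ n * t ^ n * t)⁻¹ * |C|)) := by
          gcongr
      _ = (16 * 4 ^ n * |C|) / t * ((Rad A j : ℝ) ^ n * (Rad A (j + 1) : ℝ) ^ n) := by
          field_simp; ring
      _ ≤ 1 * ((Rad A j : ℝ) ^ n * (Rad A (j + 1) : ℝ) ^ n) := by
          refine mul_le_mul_of_nonneg_right ((div_le_one htp).2 hJ2) (by positivity)
      _ = _ := by ring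
  exact_mod_cast hfin

theorem main {n : ℕ} (r s : ℝ) (hr : 0 < r) (hs0 : 0 < s) (hs : s < n) :
    ∃ F : EuclideanSpace ℝ (Fin n) → EuclideanSpace ℝ (Fin n) → EuclideanSpace ℝ (Fin n),
      ∀ X : Set (EuclideanSpace ℝ (Fin n)), μH[r] X ≠ 0 → μH[s] (Set.image2 F X X) ≠ 0 := by
  classical
  obtain ⟨A, hA, hA1, hA2⟩ : ∃ A : ℕ, 2 ≤ A ∧ (2 * n + 2 : ℝ) ≤ r * A ∧
      (4 * n + 1 : ℝ) ≤ (n - s) * A := by
    obtain ⟨A1, h1⟩ := exists_nat_ge ((2 * n + 2 : ℝ) / r)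
    obtain ⟨A2, h2⟩ := exists_nat_ge ((4 * n + 1 : ℝ) / (n - s))
    have hns : (0 : ℝ) < n - s := by linarith
    rw [div_le_iff₀ hr] at h1
    rw [div_le_iff₀ hns] at h2
    refine ⟨A1 + A2 + 2, by omega, ?_, ?_⟩
    · push_cast
      have : (0 : ℝ) ≤ A2 := Nat.cast_nonneg _
      nlinarith
    · push_cast
      have : (0 : ℝ) ≤ A1 := Nat.cast_nonneg _
      nlinarith
  have hR2 := Rad_two hA
  have hR : ∀ j, 0 < Rad A j := fun j => by have := hR2 j; omega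
  have hcz : ∀ k, Fintype.card (Fin n → ZMod (2 ^ k)) = 2 ^ (n * k) := fun k => by
    rw [Fintype.card_fun, ZMod.card, Fintype.card_fin, ← pow_mul, mul_comm]
  have hcw : ∀ j, Fintype.card (Fin n → Fin (Rad A j)) = 2 ^ (n * A ^ (j + 2)) := fun j => by
    rw [Fintype.card_fun, Fintype.card_fin, Fintype.card_fin, Rad, ← pow_mul, mul_comm]
  have hG : ∀ j, ∃ G : (Fin n → ZMod (2 ^ A ^ (j + 3))) → (Fin n → ZMod (2 ^ A ^ j)) →
      (Fin n → Fin (Rad A j)), ∀ B : Finset (Fin n → Fin (Rad A j)),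
      2 * Fintype.card (Fin n → ZMod (2 ^ A ^ j)) * #B ≤ Fintype.card (Fin n → Fin (Rad A j)) →
      #{x | n * A ^ (j + 3) + 2 ≤ #{y | G x y ∈ B}} ≤ Fintype.card (Fin n → Fin (Rad A j)) := by
    intro j
    haveI : Nonempty (Fin (Rad A j)) := ⟨⟨0, hR j⟩⟩
    refine condenser _ _ _ _ ?_
    rw [hcz, pow_add 2]; omega
  choose G hG using hG
  refine ⟨fun x y => Phi (Rad A) fun j => G j (q _ x) (q _ y), fun X hX hZ => ?_⟩
  obtain ⟨p, ρ, C, hρ, hC, hcov⟩ := cover_of_null s hs0 _ hZ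
  let P := allPairs (Rad A) p ρ
  have hP := card_allPairs hR p ρ s C hs.le hρ hC
  let H : ∀ j, Finset (Fin n → Fin (Rad A j)) := fun j =>
    {a | Fintype.card (Fin n → Fin (Rad A (j + 1))) <
        4 * 2 ^ (n * A ^ (j + 1)) * #{b | (a, b) ∈ P j}}
  have hH : ∀ᶠ j in atTop, 4 * 2 ^ (n * A ^ j) * #(H j) ≤ Fintype.card (Fin n → Fin (Rad A j)) :=
    small_heavy hA s C hA2 P hP
  let B : ∀ j, (Fin n → Fin (Rad A j)) → Finset (Fin n → Fin (Rad A (j + 1))) := fun j a =>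
    H (j + 1) ∪ if a ∈ H j then ∅ else univ.filter fun b => (a, b) ∈ P j
  have hB : ∀ᶠ j in atTop, ∀ a, 2 * Fintype.card (Fin n → ZMod (2 ^ A ^ (j + 1))) * #(B j a) ≤
      Fintype.card (Fin n → Fin (Rad A (j + 1))) := by
    filter_upwards [(tendsto_add_atTop_nat 1).eventually hH] with j hj a
    rw [hcz]
    have h1 : #(B j a) ≤ #(H (j + 1)) +
        #(if a ∈ H j then ∅ else (univ.filter fun b => (a, b) ∈ P j)) := card_union_le _ _
    have h2 : 4 * 2 ^ (n * A ^ (j + 1)) *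
        #(if a ∈ H j then ∅ else (univ.filter fun b => (a, b) ∈ P j)) ≤
        Fintype.card (Fin n → Fin (Rad A (j + 1))) := by
      split_ifs with h
      · simp
      · simp only [H, mem_filter, mem_univ, true_and, not_lt] at h
        exact h
    have h3 := Nat.mul_le_mul_left (4 * 2 ^ (n * A ^ (j + 1))) h1
    rw [mul_add] at h3
    have h4 : 4 * 2 ^ (n * A ^ (j + 1)) * #(B j a) =
        2 * (2 * 2 ^ (n * A ^ (j + 1)) * #(B j a)) := by ring
    omega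
  let SX : ∀ j, Finset (Fin n → ZMod (2 ^ A ^ (j + 3 + 1))) := fun j =>
    (univ : Finset (Fin n → Fin (Rad A j))).biUnion fun a =>
      if 2 * Fintype.card (Fin n → ZMod (2 ^ A ^ (j + 1))) * #(B j a) ≤
        Fintype.card (Fin n → Fin (Rad A (j + 1))) then
        (univ.filter fun x => n * A ^ (j + 1 + 3) + 2 ≤ #{y | G (j + 1) x y ∈ B j a}) else ∅
  have hmono : ∀ e, Monotone fun j => A ^ (j + e + 1) := fun e i j hij =>
    Nat.pow_le_pow_right (by omega) (by omega)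
  have htend : ∀ e, Tendsto (fun j => A ^ (j + e + 1)) atTop atTop := fun e =>
    tendsto_atTop_mono (fun j => le_trans (by omega : j ≤ j + e + 1) (le_pow_self hA _)) tendsto_id
  obtain ⟨x, hx, hxa⟩ := exists_avoid r hr X hX (fun j => A ^ (j + 3 + 1)) (hmono 3) (htend 3) SX
    (summable_aux hA r (2 * n) (by push_cast; linarith) 1 3 _ fun j => by
      refine card_biUnion_le.trans ?_
      refine (sum_le_card_nsmul _ _ (Fintype.card (Fin n → Fin (Rad A (j + 1)))) ?_).trans ?_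
      · intro a _
        split_ifs with h
        · exact hG (j + 1) _ h
        · simp
      · rw [card_univ, smul_eq_mul, hcw, hcw, ← pow_add, one_mul]
        refine Nat.pow_le_pow_right (by norm_num) ?_
        have : A ^ (j + 2) ≤ A ^ (j + 3) := Nat.pow_le_pow_right (by omega) (by omega)
        have h2 := Nat.mul_le_mul_left n this
        show n * A ^ (j + 2) + n * A ^ (j + 3) ≤ _
        nlinarith)
  let SY : ∀ j, Finset (Fin n → ZMod (2 ^ A ^ (j + 0 + 1))) := fun j =>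
    (univ : Finset (Fin n → ZMod (2 ^ A ^ j))).biUnion fun y' =>
      if #{y | G (j + 1) (q _ x) y ∈ B j (G j (q _ x) y')} < n * A ^ (j + 1 + 3) + 2 then
        (univ.filter fun y => G (j + 1) (q _ x) y ∈ B j (G j (q _ x) y')) else ∅
  obtain ⟨y, hy, hya⟩ := exists_avoid r hr X hX (fun j => A ^ (j + 0 + 1)) (hmono 0) (htend 0) SY
    (summable_aux hA r (n + 1) (by push_cast; have : (0 : ℝ) ≤ n := Nat.cast_nonneg _; linarith)
      (n * A ^ 4 + 2) 0 _ fun j => by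
      refine card_biUnion_le.trans ?_
      refine (sum_le_card_nsmul _ _ (n * A ^ (j + 1 + 3) + 2) ?_).trans ?_
      · intro a _
        split_ifs with h
        · exact h.le
        · simp
      · rw [card_univ, smul_eq_mul, hcz, add_zero, add_mul n, one_mul, pow_add 2, mul_comm,
          mul_comm (2 ^ (n * A ^ j)), ← mul_assoc]
        refine Nat.mul_le_mul_right _ ?_
        have h1 : A ^ j ≤ 2 ^ A ^ j := Nat.lt_two_pow_self.le
        have h2 : 1 ≤ 2 ^ A ^ j := Nat.one_le_two_pow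
        have h3 : A ^ (j + 1 + 3) = A ^ 4 * A ^ j := by ring
        have h4 := Nat.mul_le_mul_left (n * A ^ 4) h1
        rw [h3, add_mul, ← mul_assoc]
        omega)
  set g : ∀ j, Fin n → Fin (Rad A j) := fun j => G j (q _ x) (q _ y) with hg
  have h1 : ∀ᶠ j in atTop, g (j + 1) ∉ B j (g j) := by
    filter_upwards [hB, hxa, hya] with j hj hjx hjy hmem
    apply hjy
    refine mem_biUnion.2 ⟨q _ y, mem_univ _, ?_⟩
    have hlt : #{y' | G (j + 1) (q _ x) y' ∈ B j (g j)} < n * A ^ (j + 1 + 3) + 2 := by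
      by_contra hge
      apply hjx
      refine mem_biUnion.2 ⟨g j, mem_univ _, ?_⟩
      rw [if_pos (hj _)]
      exact mem_filter.2 ⟨mem_univ _, not_lt.1 hge⟩
    rw [if_pos hlt]
    exact mem_filter.2 ⟨mem_univ _, hmem⟩
  obtain ⟨J, hJ⟩ := eventually_atTop.1 h1
  have h2 : ∀ j, J + 1 ≤ j → (g j, g (j + 1)) ∉ P j := by
    intro j hj hmem
    obtain ⟨i, rfl⟩ : ∃ i, j = i + 1 := ⟨j - 1, by omega⟩
    have h3 : g (i + 1) ∉ H (i + 1) := fun h => hJ i (by omega) (mem_union_left _ h)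
    refine hJ (i + 1) (by omega) (mem_union_right _ ?_)
    rw [if_neg h3, mem_filter]
    exact ⟨mem_univ _, hmem⟩
  have hQ : (0 : ℝ) < Q (Rad A) (J + 1 + 1) := by exact_mod_cast Q_pos hR _
  obtain ⟨i, hi1, hi2⟩ := hcov _ (Set.mem_image2_of_mem hx hy) (1 / Q (Rad A) (J + 1 + 1))
    (by positivity)
  obtain ⟨j, hj1, hj2, hj3⟩ := exists_range hR2 (J + 1) (ρ i) (hρ i) (by
    rw [le_div_iff₀ hQ] at hi1; linarith)
  refine h2 j hj1 ?_
  simp only [P, allPairs, pairs, mem_filter, mem_univ, true_and]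
  exact ⟨i, hj2, hj3, g, rfl, rfl, hi2⟩

end Pool.Agent.H57.HNon
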