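namespace Pool.Agent.H57.IZ

def tabV : Nat := 0x5fa6602fd340000001115c9017e9a000000017e9a088ae500000001a48f05fa6600000017e99700ea6000000004457304b1ed0000000c350000ea6000000005fa6602fd3400000003491e0bf4cc000000088ae50186850000000bf4cc0222ba0000000258f702c63b000000045c13061a800000001e848000ea6000000002fd3402fd340000000bf4cc017e9a0000000963da01a48f00000005fa6606923a000000030d09044573000000058c7500ea6000000000ea6005fa6600000002fd3403491e0000000d2473012c7c00000001631e01a48f00000006923a022e0a000000030d4003d09000000007a1200f4240000000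

def vN (x : Nat) : Nat := Nat.mod (Nat.shiftRight tabV (Nat.mul 24 (Nat.mod x 81))) 16777216

noncomputable def frc (n : Nat) (f : Nat → Bool) : Bool :=
  Nat.rec (f 0) (fun m _ => f (Nat.succ m)) n

noncomputable def run (k : Nat → Nat → Bool) (t : Nat) : Nat → Nat → Nat → Bool :=
  Nat.rec (fun c w E => k (Nat.shiftLeft w c) (Nat.add E c))
    (fun _ ih c w E => Bool.rec false
      (frc (Nat.div c 16) fun c' => frc (Nat.div (Nat.shiftLeft w (Nat.mod c 16)) 3) fun w' =>
        frc (Nat.add E (Nat.mod c 16)) fun E' => ih c' w' E')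
      (Nat.beq (Nat.mod (Nat.shiftLeft w (Nat.mod c 16)) 3) 1)) t

noncomputable def runN (t : Nat) : Nat → Nat → Bool :=
  Nat.rec (fun _ w => Nat.beq w 1)
    (fun _ ih c w => Bool.rec false
      (ih (Nat.div c 16) (Nat.add (Nat.div (Nat.shiftLeft w (Nat.mod c 16)) 3) 1))
      (Nat.beq (Nat.mod (Nat.shiftLeft w (Nat.mod c 16)) 3) 2)) t

noncomputable def allB (f : Nat → Bool) (n : Nat) : Bool :=
  Nat.rec true (fun i ih => Bool.rec false ih (f i)) n

noncomputable def chkR (f : Nat → Nat → Bool) (l : List Nat) : Nat → Bool :=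
  List.rec (fun _ => true) (fun d _ ih b => Bool.rec false (ih (Nat.add b 1)) (f b d)) l

noncomputable def chkF (need : Nat → Bool) (f : Nat → Nat → Bool) (n : Nat) : Nat → List Nat → Bool :=
  Nat.rec (fun _ _ => true)
    (fun _ ih b l => Bool.rec (ih (Nat.add b 1) l)
      (List.rec false (fun d ds _ => Bool.rec false (ih (Nat.add b 1) ds) (f b d)) l) (need b)) n

def dk (a t q u y E : Nat) : Bool :=
  Nat.ble 1 (vN (y + 2 ^ E * u)) && Nat.ble (2 ^ E * vN (y + 2 ^ E * u) * a) (q * 3 ^ t)

noncomputable def dchk (a q t d : Nat) : Bool :=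
  allB (fun i => run (dk a t q (3 * (i / 2) + i % 2 + 1)) t ((d >>> (112 * i)) % 2 ^ 112) a 0) 54

def hubs : List (Nat × Nat) := [(128, 625673), (148, 633001), (184, 755495), (191, 703611), (206, 704855), (221, 740644), (235, 574348)]

def vk (a Q d H E : Nat) : Bool :=
  hubs.any (fun p => Nat.beq p.1 H && Nat.ble (2 ^ E * a * p.2) (Q * 3 ^ d * H))

noncomputable def via (a Q d c : Nat) : Bool := run (vk a Q d) d c a 0

def need (W : Nat) : Bool := Nat.ble 1 (vN W) && Nat.ble (W * vN W) 400000000

def fk (W d y E : Nat) : Bool := Nat.beq y 101888 && Nat.ble (100 * 2 ^ E * W) (105 * 3 ^ d * 101888)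

noncomputable def fun1 (W c : Nat) : Bool := run (fk W (c % 64)) (c % 64) (c / 64) W 0

def needN (j : Nat) : Bool := Nat.ble 1 (j % 3)

noncomputable def neg1 (j c : Nat) : Bool := runN (c % 64) (c / 64) j

end Pool.Agent.H57.IZ
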