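import Mathlib
import Pool.Agent.H57.IZRun

namespace Pool.Agent.H57.IZ

inductive Reach (a : ℤ) : ℤ → ℕ → ℕ → Prop
  | refl : Reach a a 0 0
  | dbl {b : ℤ} {E t : ℕ} : Reach a b E t → Reach a (2 * b) (E + 1) t
  | third {b : ℤ} {E t : ℕ} : Reach a (3 * b + 1) E t → Reach a b E (t + 1)

lemma Reach.trans {a b c : ℤ} {E t E' t' : ℕ} (h : Reach a b E t) (h' : Reach b c E' t') :
    Reach a c (E + E') (t + t') := by
  induction h' with
  | refl => simpa using h
  | dbl _ ih => exact Reach.dbl ih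
  | third _ ih => exact Reach.third ih

lemma Reach.pow {a b : ℤ} {E t : ℕ} (h : Reach a b E t) (e : ℕ) :
    Reach a (2 ^ e * b) (E + e) t := by
  induction e with
  | zero => simpa using h
  | succ e ih =>
    have := Reach.dbl ih
    rw [show 2 * (2 ^ e * b) = 2 ^ (e + 1) * b by ring] at this
    exact this

lemma Reach.shift {a b : ℤ} {E t : ℕ} (h : Reach a b E t) :
    ∀ u : ℤ, Reach (a + 3 ^ t * u) (b + 2 ^ E * u) E t := by
  induction h with
  | refl => intro u; simpa using Reach.refl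
  | @dbl b E t _ ih =>
    intro u
    have := Reach.dbl (ih u)
    rw [show 2 * (b + 2 ^ E * u) = 2 * b + 2 ^ (E + 1) * u by ring] at this
    exact this
  | @third b E t _ ih =>
    intro u
    have := ih (3 * u)
    rw [show a + 3 ^ t * (3 * u) = a + 3 ^ (t + 1) * u by ring,
      show 3 * b + 1 + 2 ^ E * (3 * u) = 3 * (b + 2 ^ E * u) + 1 by ring] at this
    exact Reach.third this

lemma Reach.le {a b : ℤ} {E t : ℕ} (h : Reach a b E t) : 3 ^ t * b ≤ 2 ^ E * a := by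
  induction h with
  | refl => simp
  | @dbl b E t _ ih => rw [pow_succ]; nlinarith
  | @third b E t _ ih =>
    rw [pow_succ]
    have : (0:ℤ) < 3 ^ t := by positivity
    nlinarith

lemma Reach.neg {a b : ℤ} {E t : ℕ} (h : Reach a b E t) (ha : a < 0) : b < 0 := by
  induction h with
  | refl => exact ha
  | dbl _ ih => omega
  | third _ ih => omega

lemma frc_eq (n : ℕ) (f : ℕ → Bool) : frc n f = f n := by cases n <;> rfl

lemma run_zero (k : ℕ → ℕ → Bool) (c w E : ℕ) : run k 0 c w E = k (w * 2 ^ c) (E + c) := by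
  rw [← Nat.shiftLeft_eq]; rfl

lemma run_succ (k : ℕ → ℕ → Bool) (t c w E : ℕ) (h : run k (t + 1) c w E = true) :
    (w * 2 ^ (c % 16)) % 3 = 1 ∧ run k t (c / 16) (w * 2 ^ (c % 16) / 3) (E + c % 16) = true := by
  have e : run k (t + 1) c w E = Bool.rec false
      (frc (c / 16) fun c' => frc ((w <<< (c % 16)) / 3) fun w' =>
        frc (E + c % 16) fun E' => run k t c' w' E')
      (Nat.beq ((w <<< (c % 16)) % 3) 1) := rfl
  rw [e] at h
  simp only [frc_eq, Nat.shiftLeft_eq] at h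
  cases hb : Nat.beq (w * 2 ^ (c % 16) % 3) 1
  · rw [hb] at h; exact absurd h (by simp)
  · rw [hb] at h; exact ⟨Nat.eq_of_beq_eq_true hb, h⟩

lemma run_sound (k : ℕ → ℕ → Bool) (a : ℤ) (t : ℕ) : ∀ (c w E s : ℕ), run k t c w E = true →
    Reach a w E s → ∃ y E' : ℕ, Reach a y E' (s + t) ∧ k y E' = true := by
  induction t with
  | zero =>
    intro c w E s h hr
    rw [run_zero] at h
    refine ⟨w * 2 ^ c, E + c, ?_, h⟩
    have := hr.pow c
    rw [mul_comm] at this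
    simpa using this
  | succ t ih =>
    intro c w E s h hr
    obtain ⟨h1, h2⟩ := run_succ k t c w E h
    have h3 := hr.pow (c % 16)
    have h4 : (2:ℤ) ^ (c % 16) * w = 3 * ((w * 2 ^ (c % 16) / 3 : ℕ) : ℤ) + 1 := by
      have : w * 2 ^ (c % 16) = 3 * (w * 2 ^ (c % 16) / 3) + 1 := by omega
      rw [mul_comm]; exact_mod_cast this
    rw [h4] at h3
    obtain ⟨y, E', h5, h6⟩ := ih _ _ _ (s + 1) h2 (Reach.third h3)
    exact ⟨y, E', by rw [show s + (t + 1) = s + 1 + t by ring]; exact h5, h6⟩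

lemma run_sound' {k : ℕ → ℕ → Bool} {t c a : ℕ} (h : run k t c a 0 = true) :
    ∃ y E : ℕ, Reach a y E t ∧ k y E = true := by
  simpa using run_sound k a t c a 0 0 h Reach.refl

lemma runN_sound (a : ℤ) (t : ℕ) : ∀ (c w E s : ℕ), runN t c w = true →
    Reach a (-(w : ℤ)) E s → ∃ E' s' : ℕ, Reach a (-1) E' s' := by
  induction t with
  | zero =>
    intro c w E s h hr
    have : w = 1 := Nat.eq_of_beq_eq_true h
    subst this
    exact ⟨E, s, by simpa using hr⟩
  | succ t ih =>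
    intro c w E s h hr
    have e : runN (t + 1) c w = Bool.rec false
      (runN t (c / 16) ((w <<< (c % 16)) / 3 + 1)) (Nat.beq ((w <<< (c % 16)) % 3) 2) := rfl
    rw [e] at h
    simp only [Nat.shiftLeft_eq] at h
    cases hb : Nat.beq (w * 2 ^ (c % 16) % 3) 2
    · rw [hb] at h; exact absurd h (by simp)
    · rw [hb] at h
      have h1 := Nat.eq_of_beq_eq_true hb
      have h3 := hr.pow (c % 16)
      have h4 : (2:ℤ) ^ (c % 16) * -(w:ℤ) = 3 * -((w * 2 ^ (c % 16) / 3 + 1 : ℕ) : ℤ) + 1 := by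
        have : w * 2 ^ (c % 16) + 1 = 3 * (w * 2 ^ (c % 16) / 3 + 1) := by omega
        have h5 : ((w * 2 ^ (c % 16) + 1 : ℕ) : ℤ) = ((3 * (w * 2 ^ (c % 16) / 3 + 1) : ℕ) : ℤ) := by
          rw [← this]
        rw [Nat.cast_mul 3, Nat.cast_add (w * 2 ^ (c % 16)), Nat.cast_mul w, Nat.cast_pow] at h5
        push_cast at h5 ⊢
        linarith
      rw [h4] at h3
      exact ih _ _ _ _ h (Reach.third h3)

lemma allB_sound {f : ℕ → Bool} {n : ℕ} (h : allB f n = true) : ∀ i < n, f i = true := by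
  induction n with
  | zero => intro i hi; omega
  | succ n ih =>
    have e : allB f (n + 1) = Bool.rec false (allB f n) (f n) := rfl
    rw [e] at h
    cases hb : f n
    · rw [hb] at h; exact absurd h (by simp)
    · rw [hb] at h
      intro i hi
      rcases Nat.lt_succ_iff_lt_or_eq.mp hi with hi | rfl
      · exact ih h i hi
      · exact hb

lemma chkR_sound {f : ℕ → ℕ → Bool} (l : List ℕ) : ∀ b, chkR f l b = true →
    ∀ i, b ≤ i → i < b + l.length → ∃ d, f i d = true := by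
  induction l with
  | nil => intro b _ i h1 h2; simp at h2; omega
  | cons d ds ih =>
    intro b h i h1 h2
    have e : chkR f (d :: ds) b = Bool.rec false (chkR f ds (b + 1)) (f b d) := rfl
    rw [e] at h
    cases hb : f b d
    · rw [hb] at h; exact absurd h (by simp)
    · rw [hb] at h
      rcases Nat.eq_or_lt_of_le h1 with rfl | h3
      · exact ⟨d, hb⟩
      · exact ih (b + 1) h i h3 (by simp at h2; omega)

lemma chkF_sound {nd : ℕ → Bool} {f : ℕ → ℕ → Bool} (n : ℕ) : ∀ b l, chkF nd f n b l = true →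
    ∀ i, b ≤ i → i < b + n → nd i = true → ∃ d, f i d = true := by
  induction n with
  | zero => intro b l _ i h1 h2; omega
  | succ n ih =>
    intro b l h i h1 h2 h3
    have e : chkF nd f (n + 1) b l = Bool.rec (chkF nd f n (b + 1) l)
      (List.rec false (fun d ds _ => Bool.rec false (chkF nd f n (b + 1) ds) (f b d)) l) (nd b) := rfl
    rw [e] at h
    cases hb : nd b
    · rw [hb] at h
      rcases Nat.eq_or_lt_of_le h1 with rfl | h4
      · rw [hb] at h3; exact absurd h3 (by simp)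
      · exact ih _ _ h i h4 (by omega) h3
    · rw [hb] at h
      cases l with
      | nil => exact absurd h (by simp)
      | cons d ds =>
        have h' : Bool.rec (motive := fun _ => Bool) false (chkF nd f n (b + 1) ds) (f b d) = true := h
        cases hf : f b d
        · rw [hf] at h'; exact absurd h' (by simp)
        · rw [hf] at h'
          rcases Nat.eq_or_lt_of_le h1 with rfl | h4
          · exact ⟨d, hf⟩
          · exact ih _ _ h' i h4 (by omega) h3

/-- the potential weight of an integer, read off its class mod 81 -/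
def V (z : ℤ) : ℕ := vN (z % 81).toNat

lemma vN_mod (x : ℕ) : vN (x % 81) = vN x := by
  unfold vN
  have : Nat.mod (x % 81) 81 = Nat.mod x 81 := Nat.mod_mod x 81
  rw [this]

lemma V_of_mod {z : ℤ} {x : ℕ} (h : z % 81 = (x : ℤ) % 81) : V z = vN x := by
  unfold V
  rw [h, ← vN_mod x]
  congr 1

lemma V_nat (x : ℕ) : V x = vN x := V_of_mod rfl

lemma vN_tab : ∀ x < 81, (x % 3 = 0 → vN x = 0) ∧ (x % 3 ≠ 0 → 60000 ≤ vN x) ∧ vN x ≤ 2000000 := by
  decide +kernel

lemma V_le (z : ℤ) : V z ≤ 2000000 := (vN_tab _ (by omega)).2.2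

lemma V_ge {z : ℤ} (h : ¬ (3:ℤ) ∣ z) : 60000 ≤ V z := (vN_tab _ (by omega)).2.1 (by omega)

lemma not_dvd_of_V {z : ℤ} (h : 1 ≤ V z) : ¬ (3:ℤ) ∣ z := by
  intro h3
  have := (vN_tab (z % 81).toNat (by omega)).1 (by omega)
  unfold V at h
  omega

def TB (a : ℤ) (t : ℕ) (q : ℝ) : Prop :=
  ∀ u : ℤ, ¬ (3:ℤ) ∣ u → ∃ (y : ℤ) (E : ℕ), 0 ≤ y ∧ Reach a y E t ∧ ¬ (3:ℤ) ∣ y + 2 ^ E * u ∧
    (2:ℝ) ^ E * V (y + 2 ^ E * u) * a ≤ q * 3 ^ t

lemma TB.mono {a : ℤ} {t : ℕ} {q q' : ℝ} (h : TB a t q) (hq : q ≤ q') : TB a t q' := by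
  intro u hu
  obtain ⟨y, E, h1, h2, h3, h4⟩ := h u hu
  exact ⟨y, E, h1, h2, h3, h4.trans (by gcongr)⟩

lemma not_dvd_pow_mul {u : ℤ} (hu : ¬ (3:ℤ) ∣ u) (e : ℕ) : ¬ (3:ℤ) ∣ 2 ^ e * u := by
  intro h
  rcases (Int.prime_three.dvd_or_dvd h) with h | h
  · have := Int.prime_three.dvd_of_dvd_pow h
    omega
  · exact hu h

lemma TB.comp {a b : ℤ} {E s t : ℕ} {q q' : ℝ} (hr : Reach a b E s) (ha : 0 ≤ a) (hb : 0 < b)
    (h : TB b t q) (hq : 2 ^ E * a * q ≤ q' * 3 ^ s * b) : TB a (s + t) q' := by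
  intro u hu
  obtain ⟨y, E', h1, h2, h3, h4⟩ := h (2 ^ E * u) (not_dvd_pow_mul hu E)
  have e : y + 2 ^ (E + E') * u = y + 2 ^ E' * (2 ^ E * u) := by ring
  refine ⟨y, E + E', h1, hr.trans h2, by rw [e]; exact h3, ?_⟩
  rw [e]
  have hb' : (0:ℝ) < b := by exact_mod_cast hb
  have ha' : (0:ℝ) ≤ a := by exact_mod_cast ha
  set v : ℝ := (V (y + 2 ^ E' * (2 ^ E * u)) : ℝ)
  have h5 : 2 ^ (E + E') * v * a * b ≤ q' * 3 ^ (s + t) * b := by
    calc 2 ^ (E + E') * v * a * b = (2 ^ E * a) * (2 ^ E' * v * b) := by ring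
      _ ≤ (2 ^ E * a) * (q * 3 ^ t) := by gcongr
      _ = (2 ^ E * a * q) * 3 ^ t := by ring
      _ ≤ (q' * 3 ^ s * b) * 3 ^ t := by gcongr
      _ = q' * 3 ^ (s + t) * b := by ring
  exact le_of_mul_le_mul_right h5 hb'

lemma TB.comp_eff {a b : ℤ} {E s t : ℕ} {Q D D' l : ℝ} (hr : Reach a b E s) (ha : 0 ≤ a) (hb : 0 < b)
    (h : TB b t (Q / D')) (hQ : 0 ≤ Q) (heff : 2 ^ E * a * (1 - l) ≤ 3 ^ s * b) (hD : 0 < D)
    (hD' : D ≤ D' - l) (h1 : D' ≤ 1) (hl : 0 ≤ l) : TB a (s + t) (Q / D) := by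
  refine TB.comp hr ha hb h ?_
  have ha' : (0:ℝ) ≤ a := by exact_mod_cast ha
  have hD0 : 0 < D' := by linarith
  have h2 : D ≤ D' * (1 - l) := by nlinarith
  rw [mul_div_assoc', div_mul_eq_mul_div, div_mul_eq_mul_div, div_le_div_iff₀ hD0 hD]
  have h3 : (0:ℝ) ≤ 2 ^ E * a * Q := by positivity
  calc 2 ^ E * a * Q * D ≤ 2 ^ E * a * Q * (D' * (1 - l)) := by gcongr
    _ = (Q * D') * (2 ^ E * a * (1 - l)) := by ring
    _ ≤ (Q * D') * (3 ^ s * b) := by gcongr
    _ = Q * 3 ^ s * b * D' := by ring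

lemma dchk_sound {a q t d : ℕ} (h : dchk a q t d = true) : TB a t q := by
  intro u hu
  obtain ⟨r, hr⟩ : ∃ r : ℕ, u % 81 = r := ⟨(u % 81).toNat, by omega⟩
  have h1 := allB_sound h (2 * (r / 3) + r % 3 - 1) (by omega)
  have e : 3 * ((2 * (r / 3) + r % 3 - 1) / 2) + (2 * (r / 3) + r % 3 - 1) % 2 + 1 = r := by omega
  simp only [e] at h1
  obtain ⟨y, E, h2, h3⟩ := run_sound' h1
  unfold dk at h3
  rw [Bool.and_eq_true, Nat.ble_eq, Nat.ble_eq] at h3
  have hv : V (y + 2 ^ E * u) = vN (y + 2 ^ E * r) := by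
    apply V_of_mod
    push_cast
    rw [← hr]
    simp [Int.add_emod, Int.mul_emod]
  refine ⟨y, E, by positivity, h2, not_dvd_of_V (by rw [hv]; exact h3.1), ?_⟩
  rw [hv]
  exact_mod_cast h3.2

end Pool.Agent.H57.IZ
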