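import Mathlib
import Pool.Agent.H57.IZA
import Pool.Agent.H57.IZTabA
import Pool.Agent.H57.IZTabB
import Pool.Agent.H57.IZTabC

namespace Pool.Agent.H57.IZ

lemma hub_TB : ∀ p ∈ hubs, 0 < p.1 ∧ TB p.1 22 p.2 := by
  intro p hp
  simp only [hubs, List.mem_cons, List.not_mem_nil, or_false] at hp
  rcases hp with rfl | rfl | rfl | rfl | rfl | rfl | rfl
  · exact ⟨by norm_num, dchk_sound hub128⟩
  · exact ⟨by norm_num, dchk_sound hub148⟩
  · exact ⟨by norm_num, dchk_sound hub184⟩
  · exact ⟨by norm_num, dchk_sound hub191⟩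
  · exact ⟨by norm_num, dchk_sound hub206⟩
  · exact ⟨by norm_num, dchk_sound hub221⟩
  · exact ⟨by norm_num, dchk_sound hub235⟩

lemma via_sound {a Q d c : ℕ} (h : via a Q d c = true) : TB a (d + 22) Q := by
  obtain ⟨H, E, h1, h2⟩ := run_sound' h
  unfold vk at h2
  rw [List.any_eq_true] at h2
  obtain ⟨p, hp, h3⟩ := h2
  rw [Bool.and_eq_true, Nat.ble_eq] at h3
  have h4 := Nat.eq_of_beq_eq_true h3.1
  obtain ⟨h5, h6⟩ := hub_TB p hp
  rw [h4] at h5 h6
  refine TB.comp h1 (by positivity) (by exact_mod_cast h5) h6 ?_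
  exact_mod_cast h3.2

lemma om_base (r : ℕ) (h1 : 52 ≤ r) (h2 : r < 358) : TB 101888 r 790000 := by
  obtain ⟨c, hc⟩ := chkR_sound vvO 30 viaO (r - 22) (by omega) (by rw [lenvO]; omega)
  have := via_sound hc
  rw [show r - 22 + 22 = r by omega] at this
  exact_mod_cast this

lemma om_cyc : Reach 101888 101888 485 306 := by
  obtain ⟨y, E, h1, h2⟩ := run_sound' cyc
  rw [Bool.and_eq_true] at h2
  have h3 := Nat.eq_of_beq_eq_true h2.1
  have h4 := Nat.eq_of_beq_eq_true h2.2
  subst h3 h4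
  exact_mod_cast h1

lemma om_m (m : ℕ) : ∀ r, 52 ≤ r → r < 358 + 306 * m → TB 101888 r (790000 * 1.00103 ^ m) := by
  induction m with
  | zero => intro r h1 h2; simpa using om_base r h1 (by omega)
  | succ m ih =>
    intro r h1 h2
    by_cases h : r < 358
    · refine (om_base r h1 h).mono ?_
      have : (1:ℝ) ≤ 1.00103 ^ (m + 1) := one_le_pow₀ (by norm_num)
      linarith
    · have := TB.comp (q' := 790000 * 1.00103 ^ (m + 1)) om_cyc (by norm_num) (by norm_num)
        (ih (r - 306) (by omega) (by omega)) (by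
          have h3' : 100000 * 2 ^ 485 ≤ 100103 * 3 ^ 306 := by decide +kernel
          have h3 : (100000:ℝ) * 2 ^ 485 ≤ 100103 * 3 ^ 306 := by exact_mod_cast h3'
          rw [pow_succ (1.00103:ℝ) m]
          generalize (2:ℝ) ^ 485 = A at h3 ⊢
          generalize (3:ℝ) ^ 306 = B at h3 ⊢
          have h4 : (0:ℝ) ≤ 1.00103 ^ m := by positivity
          have := mul_le_mul_of_nonneg_left h3 h4
          push_cast
          linarith)
      rw [show 306 + (r - 306) = r by omega] at this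
      exact this

lemma om_all (r : ℕ) (h1 : 52 ≤ r) (h2 : r ≤ 5400) : TB 101888 r 804220 :=
  (om_m 17 r h1 (by omega)).mono (by norm_num)

lemma funnel_tab (W : ℕ) (hW : W < 6700) (h : need W = true) : ∃ c, fun1 W c = true := by
  by_cases h0 : W < 500
  · exact chkF_sound _ _ _ fun0ok W (by omega) (by omega) h
  by_cases h1 : W < 1000
  · exact chkF_sound _ _ _ fun1ok W (by omega) (by omega) h
  by_cases h2 : W < 2000
  · exact chkF_sound _ _ _ fun2ok W (by omega) (by omega) h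
  by_cases h3 : W < 3000
  · exact chkF_sound _ _ _ fun3ok W (by omega) (by omega) h
  by_cases h4 : W < 4000
  · exact chkF_sound _ _ _ fun4ok W (by omega) (by omega) h
  by_cases h5 : W < 5000
  · exact chkF_sound _ _ _ fun5ok W (by omega) (by omega) h
  by_cases h6 : W < 6000
  · exact chkF_sound _ _ _ fun6ok W (by omega) (by omega) h
  · exact chkF_sound _ _ _ fun7ok W (by omega) (by omega) h

lemma funnel {z : ℤ} (hz : 0 < z) (h3 : ¬ (3:ℤ) ∣ z) (hp : z * V z ≤ 400000000) (r : ℕ)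
    (h1 : 115 ≤ r) (h2 : r ≤ 5400) : TB z r 845000 := by
  obtain ⟨W, rfl⟩ : ∃ W : ℕ, z = W := ⟨z.toNat, by omega⟩
  have hv := V_ge h3
  rw [V_nat] at hv hp
  have hp' : W * vN W ≤ 400000000 := by exact_mod_cast hp
  have hW : W < 6700 := by nlinarith
  obtain ⟨c, hc⟩ := funnel_tab W hW (by
    unfold need
    rw [Bool.and_eq_true, Nat.ble_eq, Nat.ble_eq]
    exact ⟨by omega, hp'⟩)
  obtain ⟨y, E, h4, h5⟩ := run_sound' hc
  unfold fk at h5
  rw [Bool.and_eq_true, Nat.ble_eq] at h5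
  have h6 := Nat.eq_of_beq_eq_true h5.1
  subst h6
  have h7 : (100:ℝ) * 2 ^ E * W ≤ 105 * 3 ^ (c % 64) * 101888 := by exact_mod_cast h5.2
  have := TB.comp (q' := 845000) h4 hz.le (by norm_num)
    (by exact_mod_cast om_all (r - c % 64) (by omega) (by omega)) (by
      push_cast
      have : (0:ℝ) < 3 ^ (c % 64) := by positivity
      linarith)
  rw [show c % 64 + (r - c % 64) = r by omega] at this
  exact this

def Sp (W : ℕ) : Prop := W = 4 ∨ W = 5 ∨ W = 7 ∨ W = 11 ∨ W = 13

lemma trans_small {W : ℕ} (hW : Sp W) (t : ℕ) (h1 : 4 ≤ t) (h2 : t ≤ 5400) : TB W t 960000 := by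
  by_cases h3 : t < 27
  · have : ∃ d, dchk W 960000 t d = true := by
      rcases hW with rfl | rfl | rfl | rfl | rfl
      · exact chkR_sound _ _ dir4 t h1 (by rw [len4]; omega)
      · exact chkR_sound _ _ dir5 t h1 (by rw [len5]; omega)
      · exact chkR_sound _ _ dir7 t h1 (by rw [len7]; omega)
      · exact chkR_sound _ _ dir11 t h1 (by rw [len11]; omega)
      · exact chkR_sound _ _ dir13 t h1 (by rw [len13]; omega)
    obtain ⟨d, hd⟩ := this
    exact_mod_cast dchk_sound hd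
  by_cases h4 : t < 115
  · have : ∃ d, via W 960000 (t - 22) d = true := by
      rcases hW with rfl | rfl | rfl | rfl | rfl
      · exact chkR_sound _ _ via4 _ (by omega) (by rw [lenv4]; omega)
      · exact chkR_sound _ _ via5 _ (by omega) (by rw [lenv5]; omega)
      · exact chkR_sound _ _ via7 _ (by omega) (by rw [lenv7]; omega)
      · exact chkR_sound _ _ via11 _ (by omega) (by rw [lenv11]; omega)
      · exact chkR_sound _ _ via13 _ (by omega) (by rw [lenv13]; omega)
    obtain ⟨d, hd⟩ := this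
    have := via_sound hd
    rw [show t - 22 + 22 = t by omega] at this
    exact_mod_cast this
  · refine (funnel ?_ ?_ ?_ t (by omega) h2).mono (by norm_num)
    · rcases hW with rfl | rfl | rfl | rfl | rfl <;> norm_num
    · rcases hW with rfl | rfl | rfl | rfl | rfl <;> norm_num
    · have := V_le (W : ℤ)
      have h5 : W ≤ 13 := by rcases hW with rfl | rfl | rfl | rfl | rfl <;> norm_num
      have : W * V W ≤ 400000000 := by nlinarith
      exact_mod_cast this

lemma neg_base (j : ℕ) (h1 : j ≤ 400) (h3 : j % 3 ≠ 0) : ∃ E s, Reach (-(j:ℤ)) (-1) E s := by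
  obtain ⟨c, hc⟩ := chkF_sound _ _ _ negok j (by omega) (by omega) (by
    unfold needN; rw [Nat.ble_eq]; omega)
  exact runN_sound _ _ _ _ 0 0 hc Reach.refl

set_option synthInstance.maxSize 100000 in
lemma cls_tab : ∀ x < 81, x % 3 ≠ 0 →
    (∃ e < 4, (2 ^ e * x) % 3 = 1 ∧ vN x ≤ 1000012 * 2 ^ e ∧ ∀ l < 3,
      1 ≤ vN ((2 ^ e * x) % 81 / 3 + 27 * l) ∧
      100 * 2 ^ e * vN ((2 ^ e * x) % 81 / 3 + 27 * l) ≤ 288 * vN x) ∨
    (∃ i < 4, ∃ W < 14, (W = 4 ∨ W = 5 ∨ W = 7 ∨ W = 11 ∨ W = 13) ∧ (2 ^ i * x) % 81 = W ∧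
      1000000 * 2 ^ i ≤ W * vN x ∧ W * vN x ≤ 1000012 * 2 ^ i) := by
  decide +kernel

end Pool.Agent.H57.IZ
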