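import Mathlib
import Pool.Agent.H57.IZB

namespace Pool.Agent.H57.IZ

lemma split3 (w : ℤ) (hw : w ≠ 0) : ∃ (e : ℕ) (u : ℤ), ¬ (3:ℤ) ∣ u ∧ w = 3 ^ e * u := by
  obtain ⟨e, n, h1, h2⟩ := Nat.exists_eq_pow_mul_and_not_dvd (n := w.natAbs) (by omega) 3 (by norm_num)
  have h3 : (w.natAbs : ℤ) = 3 ^ e * n := by exact_mod_cast h2
  rcases Int.natAbs_eq w with h | h
  · exact ⟨e, n, by omega, by rw [h, h3]⟩
  · exact ⟨e, -n, by omega, by rw [h, h3]; ring⟩

def Good (z : ℤ) : Prop :=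
  ∃ (z' : ℤ) (E s : ℕ), Reach z z' E s ∧ ¬ (3:ℤ) ∣ z' ∧ 1 ≤ s ∧ 3 ^ s ≤ 9 * |z| ∧
    (0 < z → 0 < z' ∧ (z':ℝ) * V z' ≤ 0.96 * (z * V z) ∧
      (2:ℝ) ^ E * z * (1 - 1000012 / (z * V z)) ≤ 3 ^ s * z') ∧
    (z < 0 → (-z':ℝ) * V z' ≤ 0.96 * (-z * V z) + 960000)

lemma good_ord {z : ℤ} (h3 : ¬ (3:ℤ) ∣ z) (hz : 14 ≤ |z|) {x e : ℕ} (hx : z % 81 = x)
    (h1 : (2 ^ e * x) % 3 = 1) (h2 : vN x ≤ 1000012 * 2 ^ e)
    (h4 : ∀ l < 3, 1 ≤ vN ((2 ^ e * x) % 81 / 3 + 27 * l) ∧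
      100 * 2 ^ e * vN ((2 ^ e * x) % 81 / 3 + 27 * l) ≤ 288 * vN x) : Good z := by
  have hv : V z = vN x := V_of_mod (by omega)
  have hm : (2 ^ e * z) % 81 = (((2 ^ e * x) % 81 : ℕ) : ℤ) := by
    push_cast
    rw [← hx]
    simp [Int.mul_emod]
  generalize hm' : (2 ^ e * x) = m at h1 h4 hm
  obtain ⟨z', hz'⟩ : ∃ z', 2 ^ e * z = 3 * z' + 1 := ⟨2 ^ e * z / 3, by omega⟩
  have h5 := h4 ((z' % 81).toNat / 27) (by omega)
  have hv' : V z' = vN (m % 81 / 3 + 27 * ((z' % 81).toNat / 27)) := V_of_mod (by omega)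
  rw [← hv', ← hv] at h5
  rw [← hv] at h2
  have hr : Reach z z' e 1 := by
    have := (Reach.refl (a := z)).pow e
    rw [hz', zero_add] at this
    exact Reach.third this
  have hP : (1:ℤ) ≤ 2 ^ e := one_le_pow₀ (by norm_num)
  have hzr : (2:ℝ) ^ e * z = 3 * z' + 1 := by exact_mod_cast hz'
  have h6 : (100:ℝ) * 2 ^ e * V z' ≤ 288 * V z := by exact_mod_cast h5.2
  have h7 : (V z : ℝ) ≤ 1000012 * 2 ^ e := by exact_mod_cast h2
  have h8 : (60000:ℝ) ≤ V z := by exact_mod_cast V_ge h3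
  have h9 : (V z' : ℝ) ≤ 2000000 := by exact_mod_cast V_le z'
  have h10 : (0:ℝ) ≤ V z' := by positivity
  refine ⟨z', e, 1, hr, not_dvd_of_V h5.1, le_rfl, by omega, fun hp => ⟨?_, ?_, ?_⟩, fun hn => ?_⟩
  · rw [abs_of_pos hp] at hz
    nlinarith
  · have hp' : (0:ℝ) < z := by exact_mod_cast hp
    have := mul_le_mul_of_nonneg_left h6 hp'.le
    nlinarith
  · have hp' : (0:ℝ) < z := by exact_mod_cast hp
    have e1 : (2:ℝ) ^ e * z * (1 - 1000012 / (z * V z)) = 2 ^ e * z - 1000012 * 2 ^ e / V z := by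
      field_simp
    have e2 : (1:ℝ) ≤ 1000012 * 2 ^ e / V z := by
      rw [le_div_iff₀ (by linarith)]; linarith
    rw [e1]; linarith
  · have hp' : (0:ℝ) < -z := by
      have : (z:ℝ) < 0 := by exact_mod_cast hn
      linarith
    have := mul_le_mul_of_nonneg_left h6 hp'.le
    nlinarith

lemma good_sp {z : ℤ} (h3 : ¬ (3:ℤ) ∣ z) (hz : 14 ≤ |z|) {x i W : ℕ} (hx : z % 81 = x) (hi : i < 4)
    (hW : Sp W) (h1 : (2 ^ i * x) % 81 = W) (h2 : 1000000 * 2 ^ i ≤ W * vN x)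
    (h4 : W * vN x ≤ 1000012 * 2 ^ i)
    (hT : ∀ s W : ℕ, Sp W → 4 ≤ s → 3 ^ s ≤ 9 * |z| → TB W s 960000) : Good z := by
  have hv : V z = vN x := V_of_mod (by omega)
  have hm : (2 ^ i * z) % 81 = (W : ℤ) := by
    rw [← h1]
    push_cast
    rw [← hx]
    simp [Int.mul_emod]
  have hW1 : 4 ≤ W ∧ W ≤ 13 := by rcases hW with rfl | rfl | rfl | rfl | rfl <;> norm_num
  have hP : (1:ℤ) ≤ 2 ^ i := one_le_pow₀ (by norm_num)
  have hP8 : (2:ℤ) ^ i ≤ 8 := by
    calc (2:ℤ) ^ i ≤ 2 ^ 3 := pow_le_pow_right₀ (by norm_num) (by omega)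
      _ = 8 := by norm_num
  have habs : |2 ^ i * z - W| ≤ 9 * |z| ∧ 2 ^ i * z - W ≠ 0 ∧ (0 < z → 0 < 2 ^ i * z - W) ∧
      (z < 0 → 2 ^ i * z - W < 0) := by
    have hW2 : (4:ℤ) ≤ W ∧ (W:ℤ) ≤ 13 := by omega
    rcases lt_or_ge z 0 with h | h
    · rw [abs_of_neg h] at hz ⊢
      have : 2 ^ i * z - W < 0 := by nlinarith
      rw [abs_of_neg this]
      exact ⟨by nlinarith, by omega, by omega, fun _ => this⟩
    · rw [abs_of_nonneg h] at hz ⊢
      have : 0 < 2 ^ i * z - W := by nlinarith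
      rw [abs_of_pos this]
      exact ⟨by nlinarith, by omega, fun _ => this, by omega⟩
  obtain ⟨e, u, hu, he⟩ := split3 ((2 ^ i * z - W) / 81) (by omega)
  have hw : 2 ^ i * z = W + 3 ^ (e + 4) * u := by
    have : 2 ^ i * z - W = 81 * ((2 ^ i * z - W) / 81) := by omega
    rw [he] at this
    rw [pow_add]; linarith
  have hB : (0:ℤ) < 3 ^ (e + 4) := by positivity
  have hs : 3 ^ (e + 4) ≤ 9 * |z| := by
    refine le_trans ?_ habs.1
    rw [show 2 ^ i * z - W = 3 ^ (e + 4) * u by linarith, abs_mul, abs_of_pos hB]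
    have : 1 ≤ |u| := Int.one_le_abs (by rintro rfl; simp at hu)
    nlinarith
  obtain ⟨y, E, hy, hr, h5, h6⟩ := hT (e + 4) W hW (by omega) hs u hu
  have hr' : Reach z (y + 2 ^ E * u) (i + E) (e + 4) := by
    have a1 := (Reach.refl (a := z)).pow i
    have a2 := hr.shift u
    rw [← hw] at a2
    simpa using a1.trans a2
  have hle := hr.le
  rw [← hv] at h2 h4
  have h2' : (1000000:ℝ) * 2 ^ i ≤ W * V z := by exact_mod_cast h2
  have h4' : (W:ℝ) * V z ≤ 1000012 * 2 ^ i := by exact_mod_cast h4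
  have hw' : (2:ℝ) ^ i * z = W + 3 ^ (e + 4) * u := by exact_mod_cast hw
  have hle' : (3:ℝ) ^ (e + 4) * y ≤ 2 ^ E * W := by exact_mod_cast hle
  have h8 : (60000:ℝ) ≤ V z := by exact_mod_cast V_ge h3
  have hy' : (0:ℝ) ≤ y := by exact_mod_cast hy
  have hWr : (0:ℝ) < W := by have := hW1.1; positivity
  have hA : (0:ℝ) < 2 ^ E := by positivity
  have hB' : (0:ℝ) < 3 ^ (e + 4) := by positivity
  have hPr : (0:ℝ) < 2 ^ i := by positivity
  refine ⟨y + 2 ^ E * u, i + E, e + 4, hr', h5, by omega, hs, fun hp => ⟨?_, ?_, ?_⟩, fun hn => ?_⟩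
  · have := habs.2.2.1 hp
    have hu0 : 0 < u := by
      by_contra hc
      push Not at hc
      nlinarith
    positivity
  · have hp' : (0:ℝ) < z := by exact_mod_cast hp
    push_cast at h6 ⊢
    generalize (V (y + 2 ^ E * u) : ℝ) = v' at h6 ⊢
    by_cases hv0 : v' ≤ 0
    · have hu0 : 0 < u := by
        have := habs.2.2.1 hp
        by_contra hc
        push Not at hc
        nlinarith
      have hu1 : (0:ℝ) < u := by exact_mod_cast hu0
      have : (0:ℝ) ≤ y + 2 ^ E * u := by positivity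
      have : (0:ℝ) ≤ z * V z := by positivity
      nlinarith
    push Not at hv0
    generalize (2:ℝ) ^ E = A at *
    generalize (3:ℝ) ^ (e + 4) = B at *
    generalize (2:ℝ) ^ i = P at *
    have a1 : B * (y + A * u) ≤ A * (P * z) := by rw [hw']; nlinarith
    have a2 : (y + A * u) * v' * (W * B) ≤ 0.96 * (z * V z) * (W * B) := by
      calc (y + A * u) * v' * (W * B) = (B * (y + A * u)) * (v' * W) := by ring
        _ ≤ (A * (P * z)) * (v' * W) := by gcongr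
        _ = (A * v' * W) * (P * z) := by ring
        _ ≤ (960000 * B) * (P * z) := by gcongr
        _ = 0.96 * (1000000 * P) * (B * z) := by ring
        _ ≤ 0.96 * (W * V z) * (B * z) := by gcongr
        _ = _ := by ring
    exact le_of_mul_le_mul_right a2 (by positivity)
  · have hp' : (0:ℝ) < z := by exact_mod_cast hp
    have e1 : (2:ℝ) ^ (i + E) * z * (1 - 1000012 / (z * V z)) =
        2 ^ E * (2 ^ i * z) - 2 ^ E * (1000012 * 2 ^ i / V z) := by
      rw [pow_add]; field_simp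
    have e2 : (W:ℝ) ≤ 1000012 * 2 ^ i / V z := by
      rw [le_div_iff₀ (by linarith)]; linarith
    rw [e1, hw']
    push_cast
    have := mul_le_mul_of_nonneg_left e2 hA.le
    have : (0:ℝ) ≤ 3 ^ (e + 4) * y := by positivity
    nlinarith
  · have hp' : (0:ℝ) < -z := by
      have : (z:ℝ) < 0 := by exact_mod_cast hn
      linarith
    have hu0 : u < 0 := by
      have := habs.2.2.2 hn
      by_contra hc
      push Not at hc
      nlinarith
    have hu1 : (0:ℝ) < -u := by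
      have : (u:ℝ) < 0 := by exact_mod_cast hu0
      linarith
    have hv0 : (0:ℝ) ≤ V (y + 2 ^ E * u) := by positivity
    push_cast at h6 ⊢
    generalize (V (y + 2 ^ E * u) : ℝ) = v' at h6 hv0 ⊢
    generalize (2:ℝ) ^ E = A at *
    generalize (3:ℝ) ^ (e + 4) = B at *
    generalize (2:ℝ) ^ i = P at *
    have a1 : -(y + A * u) ≤ A * (-u) := by linarith
    have a2 : -(y + A * u) * v' * W ≤ (0.96 * (-z * V z) + 960000) * W := by
      calc -(y + A * u) * v' * W ≤ A * (-u) * v' * W := by gcongr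
        _ = (A * v' * W) * (-u) := by ring
        _ ≤ (960000 * B) * (-u) := by gcongr
        _ = 0.96 * (1000000 * P) * (-z) + 960000 * W := by linear_combination (960000:ℝ) * hw'
        _ ≤ 0.96 * (W * V z) * (-z) + 960000 * W := by gcongr
        _ = _ := by ring
    exact le_of_mul_le_mul_right a2 hWr

lemma good {z : ℤ} (h3 : ¬ (3:ℤ) ∣ z) (hz : 14 ≤ |z|)
    (hT : ∀ s W : ℕ, Sp W → 4 ≤ s → 3 ^ s ≤ 9 * |z| → TB W s 960000) : Good z := by
  obtain ⟨x, hx⟩ : ∃ x : ℕ, z % 81 = x := ⟨(z % 81).toNat, by omega⟩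
  rcases cls_tab x (by omega) (by omega) with ⟨e, _, h1, h2, h4⟩ | ⟨i, hi, W, _, hW, h1, h2, h4⟩
  · exact good_ord h3 hz hx h1 h2 h4
  · exact good_sp h3 hz hx hi hW h1 h2 h4 hT

end Pool.Agent.H57.IZ
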