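import Mathlib
import Pool.Agent.H57.IZC

namespace Pool.Agent.H57.IZ

lemma descent (n : ℕ) : ∀ (z : ℤ) (r : ℕ) (ψ : ℝ), 0 < z → ¬ (3:ℤ) ∣ z → 115 + 19 * n ≤ r → r ≤ 5400 →
    (z:ℝ) * V z ≤ ψ → 384000000 ≤ ψ → (z:ℝ) * V z ≤ 20000000000000 →
    (z:ℝ) * V z * 0.96 ^ n ≤ 400000000 →
    TB z r (845000 / (1 - 25 * 1000012 / 400000000 + 24 * 1000012 / ψ)) := by
  have base : ∀ (z : ℤ) (r : ℕ) (ψ : ℝ), 0 < z → ¬ (3:ℤ) ∣ z → 115 ≤ r → r ≤ 5400 →
      384000000 ≤ ψ → (z:ℝ) * V z ≤ 400000000 →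
      TB z r (845000 / (1 - 25 * 1000012 / 400000000 + 24 * 1000012 / ψ)) := by
    intro z r ψ hz h3 h1 h2 hψ hp
    refine (funnel hz h3 (by exact_mod_cast hp) r h1 h2).mono ?_
    have a1 : 24 * 1000012 / ψ ≤ 24 * 1000012 / 384000000 := by gcongr
    have a2 : 0 ≤ 24 * 1000012 / ψ := by positivity
    rw [le_div_iff₀ (by linarith)]
    linarith
  induction n with
  | zero =>
    intro z r ψ hz h3 h1 h2 hψ hψ' _ hp
    exact base z r ψ hz h3 (by omega) h2 hψ' (by simpa using hp)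
  | succ n ih =>
    intro z r ψ hz h3 h1 h2 hψ hψ' htop hp
    by_cases hb : (z:ℝ) * V z ≤ 400000000
    · exact base z r ψ hz h3 (by omega) h2 hψ' hb
    push Not at hb
    have hzr : (0:ℝ) < z := by exact_mod_cast hz
    have v1 : (60000:ℝ) ≤ V z := by exact_mod_cast V_ge h3
    have v2 : (V z : ℝ) ≤ 2000000 := by exact_mod_cast V_le z
    have z1 : (14:ℝ) ≤ z := by nlinarith
    have z2 : (z:ℝ) ≤ 340000000 := by nlinarith
    have z1' : 14 ≤ z := by exact_mod_cast z1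
    have z2' : z ≤ 340000000 := by exact_mod_cast z2
    have hs : ∀ s : ℕ, 3 ^ s ≤ 9 * |z| → s ≤ 19 := by
      intro s h
      by_contra hc
      have : (3:ℤ) ^ 20 ≤ 3 ^ s := pow_le_pow_right₀ (by norm_num) (by omega)
      rw [abs_of_pos hz] at h
      norm_num at this
      omega
    obtain ⟨z', E, s, hr, h3', hs1, hs2, hpos, -⟩ := good h3 (by rw [abs_of_pos hz]; exact z1')
      (fun s W hW h4 h => trans_small hW s h4 (by have := hs s h; omega))
    obtain ⟨hz', hp1, hp2⟩ := hpos hz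
    have hs3 := hs s hs2
    have key := ih z' (r - s) (0.96 * (z * V z)) hz' h3' (by omega) (by omega) hp1 (by linarith)
      (by linarith) (by
        calc (z':ℝ) * V z' * 0.96 ^ n ≤ 0.96 * (z * V z) * 0.96 ^ n := by gcongr
          _ = z * V z * 0.96 ^ (n + 1) := by ring
          _ ≤ _ := hp)
    generalize (z:ℝ) * V z = φ at *
    have hφ : 0 < φ := by linarith
    have a1 : 24 * 1000012 / ψ ≤ 24 * (1000012 / φ) := by
      rw [← mul_div_assoc]; gcongr
    have a2 : 0 ≤ 24 * 1000012 / ψ := by positivity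
    have a3 : 24 * 1000012 / (0.96 * φ) = 25 * (1000012 / φ) := by field_simp; norm_num
    have a4 : 1000012 / φ ≤ 1000012 / 400000000 := by gcongr
    have := TB.comp_eff (D := 1 - 25 * 1000012 / 400000000 + 24 * 1000012 / ψ) hr hz.le hz' key
      (by norm_num) hp2 (by linarith) (by rw [a3]; linarith) (by rw [a3]; linarith) (by positivity)
    rw [show s + (r - s) = r by omega] at this
    exact this

lemma descent' {z : ℤ} {r : ℕ} (hz : 0 < z) (h3 : ¬ (3:ℤ) ∣ z) (h1 : 5292 ≤ r) (h2 : r ≤ 5400)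
    (hp : (z:ℝ) * V z ≤ 670000 * (r:ℝ) ^ 2) : TB z r 902000 := by
  have hr : (r:ℝ) ≤ 5400 := by exact_mod_cast h2
  have hr0 : (0:ℝ) ≤ r := by positivity
  have h4 : (z:ℝ) * V z ≤ 19537200000000 := by nlinarith
  have := descent 265 z r 20000000000000 hz h3 (by omega) h2 (by linarith) (by norm_num) (by linarith) (by
    have a : (0.96:ℝ) ^ 265 ≤ 0.0000202 := by
      have b : 96 ^ 265 * 10000000 ≤ 202 * 100 ^ 265 := by decide +kernel
      have b' : (96:ℝ) ^ 265 * 10000000 ≤ 202 * 100 ^ 265 := by exact_mod_cast b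
      have c : (0.96:ℝ) ^ 265 = 96 ^ 265 / 100 ^ 265 := by rw [← div_pow]; norm_num
      rw [c, div_le_iff₀ (by positivity)]
      generalize (96:ℝ) ^ 265 = A at b' ⊢
      generalize (100:ℝ) ^ 265 = B at b' ⊢
      linarith
    have a0 : (0:ℝ) ≤ 0.96 ^ 265 := by positivity
    generalize (0.96:ℝ) ^ 265 = A at a a0 ⊢
    nlinarith)
  exact this.mono (by norm_num)

lemma exists_dbl (x Y : ℝ) (hx : 0 < x) (h : x < Y) : ∃ k : ℕ, Y ≤ 2 ^ k * x ∧ 2 ^ k * x ≤ 2 * Y := by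
  have hex : ∃ k : ℕ, Y ≤ 2 ^ k * x := by
    obtain ⟨k, hk⟩ := pow_unbounded_of_one_lt (Y / x) (by norm_num : (1:ℝ) < 2)
    exact ⟨k, by rw [div_lt_iff₀ hx] at hk; exact hk.le⟩
  classical
  refine ⟨Nat.find hex, Nat.find_spec hex, ?_⟩
  rcases hk : Nat.find hex with _ | k
  · simp; linarith
  · have := Nat.find_min hex (show k < Nat.find hex by omega)
    rw [pow_succ]; linarith

lemma pow3_big (s : ℕ) (h : 20 ≤ s) : 252500 * s ^ 2 < 3 ^ s := by
  induction s, h using Nat.le_induction with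
  | base => norm_num
  | succ s hs ih => rw [pow_succ 3]; nlinarith

lemma wander (r : ℕ) : 5292 ≤ r → ∀ z : ℤ, 0 < z → ¬ (3:ℤ) ∣ z → (z:ℝ) * V z ≤ 670000 * (r:ℝ) ^ 2 →
    TB z r (902000 / (1 - 101 / 5292 + 101 / r)) := by
  induction r using Nat.strong_induction_on with
  | _ r ih =>
  intro h1 z hz h3 hp
  have hr : (5292:ℝ) ≤ r := by exact_mod_cast h1
  have d1 : (101:ℝ) / r ≤ 101 / 5292 := by gcongr
  have d0 : (0:ℝ) ≤ 101 / r := by positivity
  by_cases h2 : r ≤ 5400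
  · refine (descent' hz h3 h1 h2 hp).mono ?_
    rw [le_div_iff₀ (by linarith)]
    linarith
  push Not at h2
  have hr' : (5400:ℝ) < r := by exact_mod_cast h2
  have hzr : (0:ℝ) < z := by exact_mod_cast hz
  obtain ⟨k, hk1, hk2⟩ : ∃ k : ℕ, 10000 * (r:ℝ) ^ 2 ≤ ((2 ^ k * z : ℤ) : ℝ) * V (2 ^ k * z) ∧
      ((2 ^ k * z : ℤ) : ℝ) * V (2 ^ k * z) ≤ 670000 * (r:ℝ) ^ 2 := by
    by_cases hc : 10000 * (r:ℝ) ^ 2 ≤ z * V z
    · exact ⟨0, by simpa using hc, by simpa using hp⟩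
    · have v1 : (60000:ℝ) ≤ V z := by exact_mod_cast V_ge h3
      obtain ⟨k, a1, a2⟩ := exists_dbl (z * 60000) (10000 * (r:ℝ) ^ 2) (by positivity) (by nlinarith)
      have v3 : (60000:ℝ) ≤ V (2 ^ k * z) := by exact_mod_cast V_ge (not_dvd_pow_mul h3 k)
      have v4 : (V (2 ^ k * z) : ℝ) ≤ 2000000 := by exact_mod_cast V_le _
      have : (0:ℝ) < 2 ^ k * z := by positivity
      refine ⟨k, ?_, ?_⟩ <;> push_cast <;> nlinarith
  have hr0 : Reach z (2 ^ k * z) k 0 := by simpa using (Reach.refl (a := z)).pow k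
  have h31 := not_dvd_pow_mul h3 k
  have hz1 : 0 < 2 ^ k * z := by positivity
  have e1 : (2:ℝ) ^ k * z = ((2 ^ k * z : ℤ) : ℝ) := by push_cast; ring
  generalize 2 ^ k * z = w at *
  have hwr : (0:ℝ) < w := by exact_mod_cast hz1
  have v1 : (60000:ℝ) ≤ V w := by exact_mod_cast V_ge h31
  have v2 : (V w : ℝ) ≤ 2000000 := by exact_mod_cast V_le w
  have w1 : (14:ℝ) ≤ w := by nlinarith
  have w1' : 14 ≤ w := by exact_mod_cast w1
  have w2 : 9 * (w:ℝ) ≤ 101 * (r:ℝ) ^ 2 := by nlinarith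
  have w2' : 9 * w ≤ 101 * (r:ℤ) ^ 2 := by exact_mod_cast w2
  have hs : ∀ s : ℕ, 3 ^ s ≤ 9 * |w| → 50 * s ≤ r := by
    intro s h
    by_contra hc
    rw [abs_of_pos hz1] at h
    have a1 := pow3_big s (by omega)
    have a2 : (3:ℤ) ^ s ≤ 101 * (r:ℤ) ^ 2 := h.trans w2'
    have a3 : 3 ^ s ≤ 101 * r ^ 2 := by exact_mod_cast a2
    have a4 : r ^ 2 ≤ (50 * s) ^ 2 := Nat.pow_le_pow_left (by omega) 2
    nlinarith
  obtain ⟨z', E, s, hr1, h3', hs1, hs2, hpos, -⟩ := good h31 (by rw [abs_of_pos hz1]; exact w1')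
    (fun s W hW h4 h => by
      by_cases hc : s ≤ 5400
      · exact trans_small hW s h4 hc
      · have hW1 : 4 ≤ W ∧ W ≤ 13 ∧ W % 3 ≠ 0 := by
          rcases hW with rfl | rfl | rfl | rfl | rfl <;> norm_num
        have hsr : (5400:ℝ) < s := by exact_mod_cast (not_le.mp hc)
        have := ih s (by have := hs s h; omega) (by omega) W (by omega) (by omega) (by
          have b1 : (V W : ℝ) ≤ 2000000 := by exact_mod_cast V_le W
          have b2 : (W:ℝ) ≤ 13 := by exact_mod_cast hW1.2.1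
          have b3 : (0:ℝ) ≤ V W := by positivity
          push_cast
          nlinarith)
        refine this.mono ?_
        have : (0:ℝ) ≤ 101 / s := by positivity
        rw [div_le_iff₀ (by linarith)]
        linarith)
  obtain ⟨hz', hp1, hp2⟩ := hpos hz1
  have hs3 := hs s hs2
  obtain ⟨r', rfl⟩ : ∃ r', r = s + r' := ⟨r - s, by omega⟩
  have hs4 : 50 * (s:ℝ) ≤ s + r' := by exact_mod_cast hs3
  have hs5 : (1:ℝ) ≤ s := by exact_mod_cast hs1
  have hr2 : (5292:ℝ) ≤ r' := by exact_mod_cast (show 5292 ≤ r' by omega)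
  push_cast at *
  have key := ih r' (by omega) (by omega) z' hz' h3' (by nlinarith)
  have hrr := hr0.trans hr1
  rw [zero_add] at hrr
  have c1 : (101:ℝ) / r' ≤ 101 / 5292 := by gcongr
  have c2 : 1000012 / ((w:ℝ) * V w) ≤ 101 / r' - 101 / (s + r') := by
    have c3 : 1000012 / ((w:ℝ) * V w) ≤ 1000012 / (10000 * ((s:ℝ) + r') ^ 2) := by gcongr
    refine c3.trans ?_
    rw [div_sub_div _ _ (by linarith) (by linarith), div_le_div_iff₀ (by positivity) (by positivity)]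
    have : (0:ℝ) < s + r' := by linarith
    nlinarith [mul_pos this this]
  refine TB.comp_eff hrr hz.le hz' key (by norm_num) (l := 1000012 / ((w:ℝ) * V w)) ?_
    (by linarith) (by linarith) (by linarith) (by positivity)
  rw [pow_add, mul_comm ((2:ℝ) ^ k), mul_assoc ((2:ℝ) ^ E), e1]
  exact hp2

lemma trans_all {W : ℕ} (hW : Sp W) (s : ℕ) (h4 : 4 ≤ s) : TB W s 960000 := by
  by_cases hc : s ≤ 5400
  · exact trans_small hW s h4 hc
  · have hW1 : 4 ≤ W ∧ W ≤ 13 ∧ W % 3 ≠ 0 := by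
      rcases hW with rfl | rfl | rfl | rfl | rfl <;> norm_num
    have hsr : (5400:ℝ) < s := by exact_mod_cast (not_le.mp hc)
    have := wander s (by omega) W (by omega) (by omega) (by
      have b1 : (V W : ℝ) ≤ 2000000 := by exact_mod_cast V_le W
      have b2 : (W:ℝ) ≤ 13 := by exact_mod_cast hW1.2.1
      have b3 : (0:ℝ) ≤ V W := by positivity
      push_cast
      nlinarith)
    refine this.mono ?_
    have : (0:ℝ) ≤ 101 / s := by positivity
    rw [div_le_iff₀ (by linarith)]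
    linarith

theorem neg_all (N : ℕ) : ∀ z : ℤ, z < 0 → ¬ (3:ℤ) ∣ z → (-z:ℝ) * V z ≤ N →
    ∃ E s, Reach z (-1) E s := by
  induction N with
  | zero =>
    intro z hz h3 h
    have v1 : (60000:ℝ) ≤ V z := by exact_mod_cast V_ge h3
    have : (z:ℝ) < 0 := by exact_mod_cast hz
    push_cast at h
    nlinarith
  | succ N ih =>
    intro z hz h3 h
    by_cases hb : -400 ≤ z
    · obtain ⟨j, rfl⟩ : ∃ j : ℕ, z = -(j:ℤ) := ⟨z.natAbs, by omega⟩
      exact neg_base j (by omega) (by omega)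
    · obtain ⟨z', E, s, hr, h3', -, -, -, hneg⟩ := good h3 (by rw [abs_of_neg hz]; omega)
        (fun s W hW h4 _ => trans_all hW s h4)
      have a1 := hneg hz
      have v1 : (60000:ℝ) ≤ V z := by exact_mod_cast V_ge h3
      have a2 : (z:ℝ) ≤ -401 := by exact_mod_cast (show z ≤ -401 by omega)
      obtain ⟨E', s', hr'⟩ := ih z' (hr.neg hz) h3' (by push_cast at h; nlinarith)
      exact ⟨_, _, hr.trans hr'⟩

theorem reach_one {z : ℤ} (hz : z < 0) (h3 : ¬ (3:ℤ) ∣ z) : ∃ E s, Reach z (-1) E s :=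
  neg_all ⌈(-z:ℝ) * V z⌉₊ z hz h3 (Nat.le_ceil _)

lemma to_nat {a b : ℤ} {E s : ℕ} (h : Reach a b E s) (ha : a < 0) {n : ℕ} (hn : (n:ℤ) = -2 * a - 1) :
    ∀ m : ℕ, (m:ℤ) = -2 * b - 1 → Relation.ReflTransGen
      (fun a b : ℕ => (3 ∣ a ∧ b = a / 3) ∨ b = 2 * a + 1) n m := by
  induction h with
  | refl =>
    intro m hm
    have : n = m := by omega
    rw [this]
  | @dbl b E t h ih =>
    intro m hm
    have := h.neg ha
    exact (ih (-2 * b - 1).toNat (by omega)).tail (Or.inr (by omega))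
  | @third b E t h ih =>
    intro m hm
    have := h.neg ha
    exact (ih (3 * m) (by omega)).tail (Or.inl ⟨by omega, by omega⟩)

theorem isard_zwicky (n : ℕ) (h : n % 3 = 0 ∨ n % 3 = 1) : Relation.ReflTransGen
    (fun a b : ℕ => (3 ∣ a ∧ b = a / 3) ∨ b = 2 * a + 1) n 1 := by
  obtain ⟨E, s, hr⟩ := reach_one (z := -((n:ℤ) + 1)) (by omega) (by omega)
  exact Relation.ReflTransGen.head (b := 2 * n + 1) (Or.inr rfl)
    (to_nat hr (by omega) (by push_cast; ring) 1 (by norm_num))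

end Pool.Agent.H57.IZ
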