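import Pool.Agent.H82.LadA

set_option autoImplicit false

/-! Covering posets without large antichains by ideals. -/

namespace Pool.Agent.H57.IdC

open Set Cardinal Order
open Pool.Agent.H82.LadA (Reg reg_toType)

theorem pw {l : Cardinal.{0}} (h : ℵ₀ ≤ l) : ℵ₀ ≤ 2 ^ l := h.trans (cantor l).le

theorem un_le {ι X : Type} {θ : Cardinal.{0}} (h0 : ℵ₀ ≤ θ) {s : Set ι} (hs : #s ≤ θ)
    {f : ι → Set X} (hf : ∀ i ∈ s, #(f i) ≤ θ) : #(⋃ i ∈ s, f i) ≤ θ :=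
  (mk_biUnion_le f s).trans ((mul_le_mul' hs (ciSup_le' fun i : s => hf i i.2)).trans
    (mul_eq_self h0).le)

theorem un2 {X : Type} {θ : Cardinal.{0}} (h0 : ℵ₀ ≤ θ) {s t : Set X} (hs : #s ≤ θ)
    (ht : #t ≤ θ) : #(s ∪ t : Set X) ≤ θ :=
  (mk_union_le _ _).trans ((add_le_add hs ht).trans (add_eq_self h0).le)

theorem subs {X : Type} {l : Cardinal.{0}} (h : ℵ₀ ≤ l) {N : Set X} (hN : #N ≤ 2 ^ l) :
    #{A : Set X | A ⊆ N ∧ #A ≤ l} ≤ 2 ^ l :=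
  (mk_bounded_subset_le N l).trans ((power_le_power_right (max_le hN (pw h))).trans
    (by rw [← power_mul, mul_eq_self h]))

theorem closure {X : Type} {l : Cardinal.{0}} (h : ℵ₀ ≤ l) (F : Set X → Set X)
    (hF : ∀ A, #(F A) ≤ 2 ^ l) {N0 : Set X} (h0 : #N0 ≤ 2 ^ l) :
    ∃ N, N0 ⊆ N ∧ #N ≤ 2 ^ l ∧ ∀ A ⊆ N, #A ≤ l → F A ⊆ N := by
  have R := reg_toType (isRegular_succ h)
  let S : (succ l).ord.ToType → Set X := wellFounded_lt.fix fun ξ ih =>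
    N0 ∪ ⋃ A ∈ {A : Set X | A ⊆ (⋃ η : Iio ξ, ih η.1 η.2) ∧ #A ≤ l}, F A
  have hS : ∀ ξ, S ξ = N0 ∪ ⋃ A ∈ {A : Set X | A ⊆ (⋃ η ∈ Iio ξ, S η) ∧ #A ≤ l}, F A := fun ξ => by
    rw [biUnion_eq_iUnion (Iio ξ)]; exact wellFounded_lt.fix_eq _ ξ
  have h1 : succ l ≤ 2 ^ l := succ_le_of_lt (cantor l)
  have h2 : ∀ ξ, #(S ξ) ≤ 2 ^ l := fun ξ => by
    induction ξ using WellFoundedLT.induction with
    | ind ξ ih =>
    rw [hS]
    exact un2 (pw h) h0 (un_le (pw h) (subs h (un_le (pw h) ((R.iio ξ).le.trans h1) ih))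
      fun A _ => hF A)
  refine ⟨N0 ∪ ⋃ ξ ∈ Set.univ, S ξ, subset_union_left, un2 (pw h) h0 (un_le (pw h)
    ((mk_univ.trans R.card).trans_le h1) fun ξ _ => h2 ξ), fun A hA hl => ?_⟩
  obtain ⟨o, -⟩ := R.bdd (A := ∅) (by simpa using R.reg.pos)
  have h3 : ∀ a : A, ∃ ξ, a.1 ∈ S ξ := fun a => (hA a.2).elim
    (fun k => ⟨o, hS o ▸ Or.inl k⟩) (by simp)
  choose f hf using h3
  obtain ⟨ξ, hξ⟩ := R.bdd (A := range f) (mk_range_le.trans_lt (hl.trans_lt (lt_succ l)))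
  refine fun x hx => Or.inr (mem_biUnion (mem_univ ξ) (hS ξ ▸ Or.inr (mem_biUnion (x := A)
    ⟨fun a ha => mem_biUnion (hξ _ ⟨⟨a, ha⟩, rfl⟩) (hf ⟨a, ha⟩), hl⟩ hx)))

variable {P : Type} [PartialOrder P]

def Inc (a b : P) : Prop := ¬ a ≤ b ∧ ¬ b ≤ a

def PA (A : Set P) : Set P := {y | ∀ a ∈ A, Inc y a}

def Dir (θ : Cardinal.{0}) (J : Set P) : Prop := ∀ W ⊆ J, #W ≤ θ → ∃ z ∈ J, ∀ w ∈ W, w ≤ z

theorem Dir.low {θ : Cardinal.{0}} {J : Set P} (h : Dir θ J) : Dir θ (lowerClosure J : Set P) :=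
  fun W hW hθ => by
    choose f h1 h2 using fun w : W => hW w.2
    obtain ⟨z, h3, h4⟩ := h (range f) (range_subset_iff.2 h1) (mk_range_le.trans hθ)
    exact ⟨z, subset_lowerClosure h3, fun w hw => (h2 ⟨w, hw⟩).trans (h4 _ ⟨_, rfl⟩)⟩

theorem Dir.dir {θ : Cardinal.{0}} (h0 : ℵ₀ ≤ θ) {J : Set P} (h : Dir θ J) :
    DirectedOn (· ≤ ·) J := fun a ha b hb =>
  let ⟨z, h1, h2⟩ := h {a, b} (pair_subset ha hb) ((Set.toFinite _).lt_aleph0.le.trans h0)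
  ⟨z, h1, h2 a (by simp), h2 b (by simp)⟩

theorem Dir.avoid {θ : Cardinal.{0}} {J : Set P} (h : Dir θ J) {C : Set (Set P)} (h1 : #C ≤ θ)
    (h2 : ∀ c ∈ C, IsLowerSet c ∧ ¬ J ⊆ c) : ∃ p ∈ J, ∀ c ∈ C, p ∉ c := by
  choose f h3 h4 using fun c : C => not_subset.1 (h2 c c.2).2
  obtain ⟨z, h5, h6⟩ := h (range f) (range_subset_iff.2 h3) (mk_range_le.trans h1)
  exact ⟨z, h5, fun c hc k => h4 ⟨c, hc⟩ ((h2 c hc).1 (h6 _ ⟨_, rfl⟩) k)⟩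

theorem struct {W : Type} [LinearOrder W] [WellFoundedLT W] {lam : W → Cardinal.{0}}
    (hm : Monotone lam) (h0 : ∀ i, ℵ₀ ≤ lam i) (hW : ∀ i, #W ≤ lam i)
    (hP : ∀ A : Set P, IsAntichain (· ≤ ·) A → ∃ i, #A ≤ lam i) :
    ∃ (i0 : P → W) (K : W → P → Set P),
      (∀ x i, i0 x ≤ i → x ∈ K i x ∧ IsLowerSet (K i x) ∧ Dir (2 ^ lam i) (K i x)) ∧
      (∀ x i j, i ≤ j → K j x ⊆ K i x) ∧ ∀ i, #(K i '' {x | i0 x ≤ i}) ≤ 2 ^ lam i := by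
  classical
  have h1 : ∀ i (A : Set P), ∃ V : Set P, #V ≤ 2 ^ lam i ∧ (¬ Dir (2 ^ lam i) (PA A) →
      V ⊆ PA A ∧ ¬ ∃ z ∈ PA A, ∀ w ∈ V, w ≤ z) := fun i A => by
    by_cases h : Dir (2 ^ lam i) (PA A)
    · exact ⟨∅, by simp, fun h' => absurd h h'⟩
    · obtain ⟨V, h2⟩ := not_forall.1 h
      push Not at h2
      exact ⟨V, h2.2.1, fun _ => ⟨h2.1, by push Not; exact h2.2.2⟩⟩
  choose F f1 f2 using h1
  choose! C c1 c2 c3 using fun i N0 => closure (h0 i) (F i) (f1 i) (N0 := N0)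
  let N : W → Set P := wellFounded_lt.fix fun i ih => C i (⋃ k : Iio i, ih k.1 k.2)
  have hN : ∀ i, N i = C i (⋃ k ∈ Iio i, N k) := fun i => by
    rw [biUnion_eq_iUnion]; exact wellFounded_lt.fix_eq _ i
  have n0 : ∀ i, (∀ k < i, #(N k) ≤ 2 ^ lam k) → #(⋃ k ∈ Iio i, N k) ≤ 2 ^ lam i := fun i ih =>
    un_le (pw (h0 i)) ((mk_set_le _).trans ((hW i).trans (cantor _).le)) fun k hk =>
      (ih k hk).trans (power_le_power_left two_ne_zero (hm (le_of_lt hk)))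
  have n1 : ∀ i, #(N i) ≤ 2 ^ lam i := fun i => by
    induction i using WellFoundedLT.induction with
    | ind i ih => exact hN i ▸ c2 i _ (n0 i ih)
  have n2 : Monotone N := fun k i h => h.eq_or_lt.elim (fun h => h ▸ le_rfl) fun h =>
    hN i ▸ (subset_biUnion_of_mem (u := N) (s := Iio i) h).trans (c1 i _ (n0 i fun k _ => n1 k))
  have n3 : ∀ i, ∀ A ⊆ N i, #A ≤ lam i → F i A ⊆ N i := fun i =>
    hN i ▸ c3 i _ (n0 i fun k _ => n1 k)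
  have key : ∀ x : P, ∃ (i0 : W) (K : W → Set P), (∀ i, i0 ≤ i → x ∈ K i ∧ IsLowerSet (K i) ∧
      Dir (2 ^ lam i) (K i) ∧ K i ∈ Iic '' N i ∪ (fun A => (lowerClosure (PA A) : Set P)) ''
        {A | A ⊆ N i ∧ #A ≤ lam i}) ∧ ∀ i j, i ≤ j → K j ⊆ K i := fun x => by
    by_cases hx : ∃ i, ∃ n ∈ N i, x ≤ n
    · obtain ⟨i0, n, h1, h2⟩ := hx
      exact ⟨i0, fun _ => Iic n, fun i hi => ⟨h2, isLowerSet_Iic n, fun V hV _ => ⟨n, le_rfl, hV⟩,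
        Or.inl ⟨n, n2 hi h1, rfl⟩⟩, fun _ _ _ => subset_rfl⟩
    obtain ⟨o, -⟩ := hP ∅ IsAntichain.empty
    have h1 : ∀ a, ∃ i, (∃ j, a ∈ N j) → a ∈ N i ∧ ∀ j, a ∈ N j → i ≤ j := fun a => by
      by_cases h : ∃ j, a ∈ N j
      · obtain ⟨i, h1, h2⟩ := wellFounded_lt.has_min {j | a ∈ N j} h
        exact ⟨i, fun _ => ⟨h1, fun j hj => not_lt.1 (h2 j hj)⟩⟩
      · exact ⟨o, fun h' => absurd h' h⟩
    choose rk hrk using h1
    let r : P → P → Prop := fun a b => Prod.Lex (· < ·) WellOrderingRel (rk a, a) (rk b, b)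
    have wf : WellFounded r := InvImage.wf (fun a => (rk a, a))
      (wellFounded_lt.prod_lex (IsWellFounded.wf (r := WellOrderingRel)))
    let G : P → Prop := wf.fix fun a ih =>
      ((∃ j, a ∈ N j) ∧ Inc x a) ∧ ∀ b (h : r b a), ih b h → Inc a b
    have hG : ∀ a, G a ↔ ((∃ j, a ∈ N j) ∧ Inc x a) ∧ ∀ b, r b a → G b → Inc a b := fun a =>
      (wf.fix_eq _ a).to_iff
    obtain ⟨i0, hi⟩ := hP {a | G a} fun a ha b hb hab => by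
      rcases (trichotomous_of (Prod.Lex (· < ·) WellOrderingRel) (rk a, a) (rk b, b)) with h | h | h
      · exact (((hG b).1 hb).2 a h ha).2
      · exact absurd (congrArg Prod.snd h) hab
      · exact (((hG a).1 ha).2 b h hb).1
    refine ⟨i0, fun i => lowerClosure (PA ({a | G a} ∩ N i)), fun i h => ?_, fun i j h =>
      lowerClosure_mono fun y hy a ha => hy a ⟨ha.1, n2 h ha.2⟩⟩
    have k1 : x ∈ PA ({a | G a} ∩ N i) := fun a ha => ((hG a).1 ha.1).1.2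
    have k2 := (mk_le_mk_of_subset (inter_subset_left (t := N i))).trans (hi.trans (hm h))
    refine ⟨subset_lowerClosure k1, (lowerClosure _).lower, Dir.low (by_contra fun hd => ?_),
      Or.inr ⟨_, ⟨inter_subset_right, k2⟩, rfl⟩⟩
    obtain ⟨k3, k4⟩ := f2 i _ hd
    refine k4 ⟨x, k1, fun w hw => by_contra fun hn => ?_⟩
    have k5 := n3 i _ inter_subset_right k2 hw
    refine (k3 hw w ⟨(hG w).2 ⟨⟨⟨i, k5⟩, fun k => hx ⟨i, w, k5, k⟩, hn⟩, fun b hb hb' =>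
      k3 hw b ⟨hb', n2 ?_ (hrk b ((hG b).1 hb').1.1).1⟩⟩, k5⟩).1 le_rfl
    exact ((Prod.lex_def.1 hb).elim le_of_lt fun e => e.1.le).trans ((hrk w ⟨i, k5⟩).2 i k5)
  choose i0 K k1 k2 using key
  refine ⟨i0, fun i x => K x i, fun x i h => ⟨(k1 x i h).1, (k1 x i h).2.1, (k1 x i h).2.2.1⟩, k2,
    fun i => (mk_le_mk_of_subset (image_subset_iff.2 fun x h => (k1 x i h).2.2.2)).trans
      (un2 (pw (h0 i)) (mk_image_le.trans (n1 i)) (mk_image_le.trans (subs (h0 i) (n1 i))))⟩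

def Small (ν : Cardinal.{0}) (X : Set P) : Prop :=
  ∃ 𝓘 : Set (Set P), #𝓘 ≤ ν ∧ (∀ I ∈ 𝓘, IsLowerSet I ∧ DirectedOn (· ≤ ·) I) ∧ X ⊆ ⋃₀ 𝓘

theorem Small.mono {ν ν' : Cardinal.{0}} {X Y : Set P} (h : Small ν X) (h1 : ν ≤ ν') (h2 : Y ⊆ X) :
    Small ν' Y :=
  let ⟨I, k1, k2, k3⟩ := h
  ⟨I, k1.trans h1, k2, h2.trans k3⟩

theorem small_un {ι : Type} {ν : Cardinal.{0}} (h0 : ℵ₀ ≤ ν) {s : Set ι} (hs : #s ≤ ν)
    {f : ι → Set P} (h : ∀ i ∈ s, Small ν (f i)) : Small ν (⋃ i ∈ s, f i) := by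
  choose! I k1 k2 k3 using h
  refine ⟨⋃ i ∈ s, I i, un_le h0 hs k1, fun J hJ => ?_, iUnion₂_subset fun i hi =>
    (k3 i hi).trans (sUnion_subset_sUnion (subset_biUnion_of_mem hi))⟩
  obtain ⟨i, hi, hJ⟩ := mem_iUnion₂.1 hJ
  exact k2 i hi J hJ

theorem Small.union {ν : Cardinal.{0}} (h0 : ℵ₀ ≤ ν) {X Y : Set P} (h : Small ν X)
    (h' : Small ν Y) : Small ν (X ∪ Y) :=
  let ⟨I, k1, k2, k3⟩ := h
  let ⟨J, l1, l2, l3⟩ := h'
  ⟨I ∪ J, un2 h0 k1 l1, fun K hK => hK.elim (k2 K) (l2 K), sUnion_union I J ▸ union_subset_union k3 l3⟩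

theorem anti {l : Cardinal.{0}} (h0 : ℵ₀ ≤ l) {F : Set (Set P)}
    (hF : ∀ I ∈ F, IsLowerSet I ∧ DirectedOn (· ≤ ·) I) (h : ¬ Small (2 ^ l) (⋃₀ F)) :
    ∃ A ⊆ F, #A = l ∧ IsAntichain (· ⊆ ·) A := by
  by_contra hn
  obtain ⟨i0, K, k1, -, k2⟩ := struct (P := F) (W := Unit) (lam := fun _ => l) monotone_const
    (fun _ => h0) (fun _ => mk_le_aleph0.trans h0) fun A hA => ⟨(), le_of_not_ge fun k => by
      obtain ⟨B, h1, h2⟩ := le_mk_iff_exists_subset.1 k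
      exact hn ⟨Subtype.val '' B, image_subset_iff.2 fun x _ => x.2,
        (mk_image_eq Subtype.val_injective).trans h2, by
          rintro _ ⟨a, ha, rfl⟩ _ ⟨b, hb, rfl⟩ e
          exact hA (h1 ha) (h1 hb) fun e' => e (congrArg _ e')⟩⟩
  refine h ⟨(fun D : Set F => ⋃ J ∈ D, J.1) '' (K () '' {x | i0 x ≤ ()}),
    mk_image_le.trans (k2 ()), ?_, fun x ⟨J, h1, h2⟩ => ⟨_, ⟨_, ⟨⟨J, h1⟩, le_refl (), rfl⟩, rfl⟩,
      mem_biUnion (k1 _ () le_rfl).1 h2⟩⟩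
  rintro _ ⟨_, ⟨x, -, rfl⟩, rfl⟩
  refine ⟨isLowerSet_iUnion₂ fun J _ => (hF J J.2).1, fun a ha b hb => ?_⟩
  obtain ⟨J, j1, j2⟩ := mem_iUnion₂.1 ha
  obtain ⟨J', j3, j4⟩ := mem_iUnion₂.1 hb
  obtain ⟨J'', j5, j6, j7⟩ := (k1 x () le_rfl).2.2.dir (pw h0) J j1 J' j3
  obtain ⟨z, h1, h2⟩ := (hF _ J''.2).2 a (j6 j2) b (j7 j4)
  exact ⟨z, mem_biUnion j5 h1, h2⟩

theorem canon {W : Type} [LinearOrder W] [WellFoundedLT W] {κ μ : Cardinal.{0}} (R : Reg W κ)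
    {lam : W → Cardinal.{0}} (hm : Monotone lam) (hW : ∀ i, κ ≤ lam i)
    (hc : ∀ ν < μ, ∃ i, ν ≤ lam i) (hl : IsSuccLimit μ)
    (hP : ∀ A : Set P, IsAntichain (· ≤ ·) A → #A < μ) :
    ∃ i, Small (2 ^ (2 : Cardinal) ^ lam i) (Set.univ : Set P) := by
  by_contra hn
  have h0 := fun i => R.reg.aleph0_le.trans (hW i)
  have h1 := fun i => pw (h0 i)
  have h2 := fun i => pw (h1 i)
  have h3 : ∀ i, κ ≤ 2 ^ lam i := fun i => (hW i).trans (cantor _).le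
  have h4 : ∀ (s : Set W) i, #s ≤ 2 ^ lam i := fun s i => (mk_set_le _).trans (R.card.trans_le (h3 i))
  have h5 : ∀ {i j}, i ≤ j → (2 : Cardinal) ^ lam i ≤ 2 ^ lam j := fun h =>
    power_le_power_left two_ne_zero (hm h)
  obtain ⟨i0, K, k1, k2, k3⟩ := struct (P := P) hm h0 (fun i => R.card.trans_le (hW i))
    fun A hA => hc _ (hP A hA)
  have k4 : ∀ i, ∀ I ∈ K i '' {x | i0 x ≤ i}, IsLowerSet I ∧ DirectedOn (· ≤ ·) I := by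
    rintro i _ ⟨x, hx, rfl⟩
    exact ⟨(k1 x i hx).2.1, (k1 x i hx).2.2.dir (h1 i)⟩
  have hg : ∀ k, ∃ i, k ≤ i ∧ ¬ Small (2 ^ (2 : Cardinal) ^ lam k) {x | i0 x ≤ i} := fun k => by
    by_contra! h
    exact hn ⟨k, (small_un (h2 k) ((h4 (Ici k) k).trans (cantor _).le) h).mono le_rfl
      fun x _ => mem_biUnion (le_max_left k (i0 x)) (le_max_right k (i0 x))⟩
  choose g g1 g2 using hg
  choose! nx hx using fun (j : W) (A : Set W) (h : #A < κ) => R.bdd (A := insert j A)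
    (mk_insert_le.trans_lt (add_lt_of_lt R.reg.aleph0_le h
      (one_lt_aleph0.trans_le R.reg.aleph0_le)))
  let s : W → W := wellFounded_lt.fix fun j ih => nx j (range fun k : Iio j => g (ih k.1 k.2))
  have hs : ∀ j, ∀ a ∈ insert j (range fun k : Iio j => g (s k)), a < s j := fun j => by
    rw [show s j = nx j (range fun k : Iio j => g (s k)) from wellFounded_lt.fix_eq _ j]
    exact hx _ _ (mk_range_le.trans_lt (R.iio j))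
  have s1 : ∀ j, j ≤ s j := fun j => (hs j j (Or.inl rfl)).le
  have s2 : ∀ {k j}, k < j → g (s k) ≤ s j := fun {k j} h => (hs j _ (Or.inr ⟨⟨k, h⟩, rfl⟩)).le
  have p1 : ∀ j, ∃ τ, ¬ Small (2 ^ (2 : Cardinal) ^ lam (s j)) {x | i0 x ≤ g (s j) ∧
      {J ∈ K (s j) '' {x | i0 x ≤ s j} | J ⊆ K (g (s j)) x} = τ} := fun j => by
    by_contra! h
    exact g2 (s j) ((small_un (h2 _) (s := 𝒫 (K (s j) '' {x | i0 x ≤ s j}))
      ((mk_powerset _).trans_le (power_le_power_left two_ne_zero (k3 _))) fun τ _ => h τ).mono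
        le_rfl fun x hx => mem_biUnion (sep_subset _ _) ⟨hx, rfl⟩)
  choose τ hτ using p1
  choose x0 hx0 using fun j => nonempty_iff_ne_empty.2 fun e => hτ j
    ⟨∅, by simp, by simp, e.le.trans (empty_subset _)⟩
  let X : W → Set P := fun j => {x | i0 x ≤ g (s j) ∧
    {J ∈ K (s j) '' {x | i0 x ≤ s j} | J ⊆ K (g (s j)) x} = τ j} \
    ((⋃ k ∈ Ioi j, K (g (s k)) (x0 k)) ∪ ⋃ k ∈ Iio j, ⋃₀ (K (g (s k)) '' {x | i0 x ≤ g (s k)}))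
  have x1 : ∀ j, ¬ Small (2 ^ lam (s j)) (⋃₀ (K (g (s j)) '' X j)) := fun j h => by
    refine hτ j (((h.union (h1 _) ((small_un (h1 _) (h4 (Ioi j) _) fun k _ =>
      ⟨{_}, by simpa using one_le_aleph0.trans (h1 _), fun I hI => hI ▸ k4 _ _ ⟨_, (hx0 k).1, rfl⟩,
        (sUnion_singleton _).ge⟩).union (h1 _) (small_un (h1 _) (h4 (Iio j) _) fun k hk =>
          ⟨_, (k3 _).trans (h5 (s2 hk)), k4 _, subset_rfl⟩)))).mono (cantor _).le fun x hx => ?_)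
    exact or_iff_not_imp_right.2 fun k => ⟨_, ⟨x, ⟨hx, k⟩, rfl⟩, (k1 x _ hx.1).1⟩
  choose A a1 a2 a3 using fun j => anti (h0 (s j))
    (fun I hI => k4 _ I (image_mono (fun x hx => hx.1.1) hI)) (x1 j)
  have a4 : ∀ j, ∀ J ∈ A j, IsLowerSet J := fun j J hJ =>
    let ⟨x, hx, e⟩ := a1 j hJ
    (k4 _ J ⟨x, hx.1.1, e⟩).1
  have p2 : ∀ q : Σ j, A j, ∃ p ∈ q.2.1, ∀ c ∈ (A q.1 \ {q.2.1}) ∪
      (fun k => ⋃₀ A k) '' {q.1}ᶜ, p ∉ c := by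
    rintro ⟨j, J, hJ⟩
    obtain ⟨y, y1, rfl⟩ := a1 j hJ
    refine (k1 y _ y1.1.1).2.2.avoid (un2 (h1 _) ((mk_le_mk_of_subset diff_subset).trans
      ((a2 j).trans_le ((cantor _).le.trans (h5 (g1 _))))) (mk_image_le.trans (h4 _ _))) ?_
    rintro c (⟨c1, c2⟩ | ⟨k, hk, rfl⟩)
    · exact ⟨a4 j c c1, a3 j hJ c1 (Ne.symm c2)⟩
    refine ⟨isLowerSet_sUnion (a4 k), fun h => ?_⟩
    rcases lt_or_gt_of_ne (show k ≠ j from hk) with hk | hk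
    · obtain ⟨_, c1, c2⟩ := h (k1 y _ y1.1.1).1
      obtain ⟨x, c3, rfl⟩ := a1 k c1
      exact y1.2 (Or.inr (mem_biUnion hk ⟨_, ⟨x, c3.1.1, rfl⟩, c2⟩))
    · have c0 := y1.1.1.trans (s2 hk)
      obtain ⟨z, c1, c2⟩ := (k1 y _ c0).2.2.avoid ((a2 k).trans_le (cantor _).le)
        fun c hc => ⟨a4 k c hc, fun e => by
          obtain ⟨x, c3, rfl⟩ := a1 k hc
          exact y1.2 (Or.inl (mem_biUnion hk ((c3.1.2.trans (hx0 k).2.symm).subset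
            ⟨⟨y, c0, rfl⟩, e⟩ |>.2 (k1 y _ c0).1)))⟩
      obtain ⟨c, c3, c4⟩ := h (k2 y _ _ (s2 hk) c1)
      exact c2 c c3 c4
  choose p p3 p4 using p2
  have p5 : ∀ q q', p q ≤ p q' → q = q' := by
    rintro ⟨j, J, hJ⟩ ⟨k, J', hJ'⟩ h
    have c1 : p ⟨j, J, hJ⟩ ∈ J' := a4 k J' hJ' h (p3 ⟨k, J', hJ'⟩)
    obtain rfl : k = j := by_contra fun e => p4 ⟨j, J, hJ⟩ _ (Or.inr ⟨k, e, rfl⟩) ⟨J', hJ', c1⟩
    obtain rfl : J' = J := by_contra fun e => p4 ⟨k, J, hJ⟩ _ (Or.inl ⟨hJ', e⟩) c1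
    rfl
  obtain ⟨j, hj⟩ := hc _ (hl.succ_lt (hP (range p) (by
    rintro _ ⟨q, rfl⟩ _ ⟨q', rfl⟩ e h
    exact e (p5 q q' h ▸ rfl))))
  rw [mk_range_eq _ fun q q' h => p5 q q' h.le] at hj
  exact (lt_succ _).not_ge (hj.trans ((hm (s1 j)).trans ((a2 j).ge.trans
    (mk_le_of_injective (sigma_mk_injective (β := fun j => A j) (i := j))))))

end Pool.Agent.H57.IdC
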