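import Pool.Agent.H57.IdC

set_option autoImplicit false

/-! Strong Kurepa trees from diamond-plus and an Aronszajn tree. -/

namespace Pool.Agent.H57.Ku

open Set Cardinal Order
open Pool.Agent.H82.LadA (Reg reg_toType)
open Pool.Agent.H57.IdC (un_le un2)

section defs
variable (W : Type) [LinearOrder W] (T : Type) [PartialOrder T]

/-- The level `α`: nodes whose predecessor set has the order type of `{ξ | ξ < α}`. -/
def Lev (α : W) : Set T := {t | Nonempty (Iio α ≃o Iio t)}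

/-- A `κ`-tree, `W` being the well-order of `κ`. -/
structure KTree (κ : Cardinal.{0}) : Prop where
  lev : ∀ t : T, ∃ α : W, t ∈ Lev W T α
  ne : ∀ α : W, (Lev W T α).Nonempty
  small : ∀ α : W, #(Lev W T α) < κ

/-- Cofinal branches. -/
def Br : Type :=
  {b : Set T // IsChain (· ≤ ·) b ∧ IsLowerSet b ∧ ∀ α : W, (b ∩ Lev W T α).Nonempty}

/-- The cone topology on `[T]`. -/
@[reducible] def coneBr : TopologicalSpace (Br W T) :=
  .generateFrom {U | ∃ t : T, U = {b | t ∈ b.1}}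

/-- The cone topology on `2^κ`. -/
@[reducible] def cone2 : TopologicalSpace (W → Bool) :=
  .generateFrom {U | ∃ (α : W) (s : Iio α → Bool), U = {g | ∀ ξ : Iio α, g ξ = s ξ}}

/-- Jensen's diamond-plus. -/
def DiamondPlus (κ : Cardinal.{0}) : Prop :=
  ∃ A : W → Set (Set W), (∀ α, #(A α) < κ ∧ ∀ a ∈ A α, a ⊆ Iio α) ∧
    ∀ X : Set W, ∃ C : Set W, IsClub C ∧ ∀ α ∈ C, X ∩ Iio α ∈ A α ∧ C ∩ Iio α ∈ A α

end defs

variable {W : Type} [LinearOrder W] [WellFoundedLT W]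

theorem iso_le {α β : W} (e : Iio α ≃o Iio β) : α ≤ β := not_lt.1 fun h => by
  have k : StrictMono fun x : Iio α => (⟨(e x).1, (e x).2.trans h⟩ : Iio α) :=
    fun x y hxy => e.strictMono hxy
  exact (e ⟨β, h⟩).2.not_ge (k.le_apply (x := ⟨β, h⟩))

theorem lev_eq {T : Type} [PartialOrder T] {α β : W} {t : T} (h1 : t ∈ Lev W T α)
    (h2 : t ∈ Lev W T β) : α = β :=
  let ⟨e⟩ := h1; let ⟨f⟩ := h2
  (iso_le (e.trans f.symm)).antisymm (iso_le (f.trans e.symm))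

theorem aron {U : Type} [PartialOrder U] {κ : Cardinal.{0}} (R : Reg W κ) (hU : KTree W U κ)
    (hB : IsEmpty (Br W U)) : ∃ e : W → W → U, (∀ α, #{u | ∃ γ, α < γ ∧ e γ α = u} < κ) ∧
      (∀ α γ γ', α < γ → α < γ' → e γ α = e γ' α → ∀ ξ < α, e γ ξ = e γ' ξ) ∧
      ∀ (δ : W) (γ : W → W), (∀ α, α ≤ γ α) →
        ¬ ∀ α β ξ, δ ≤ ξ → ξ < α → ξ < β → e (γ α) ξ = e (γ β) ξ := by
  classical
  choose u hu using hU.ne
  let i : ∀ γ : W, Iio γ ≃o Iio (u γ) := fun γ => (hu γ).some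
  let e : W → W → U := fun γ ξ => if h : ξ < γ then (i γ ⟨ξ, h⟩).1 else u γ
  have e0 : ∀ {γ ξ} (h : ξ < γ), e γ ξ = (i γ ⟨ξ, h⟩).1 := fun h => dif_pos h
  have e1 : ∀ {γ ξ}, ξ < γ → e γ ξ < u γ := fun h => e0 h ▸ (i _ _).2
  have e2 : ∀ {γ ξ η}, η < ξ → ξ < γ → e γ η < e γ ξ := fun h1 h2 => by
    rw [e0 h2, e0 (h1.trans h2)]; exact (i _).strictMono (show (⟨_, _⟩ : Iio _) < ⟨_, _⟩ from h1)
  have e3 : ∀ {γ t}, t < u γ → ∃ η < γ, e γ η = t := fun {γ t} h => by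
    obtain ⟨η, k⟩ := (i γ).surjective ⟨t, h⟩
    exact ⟨η.1, η.2, (e0 η.2).trans (congrArg Subtype.val k)⟩
  have e4 : ∀ {γ ξ}, ξ < γ → e γ ξ ∈ Lev W U ξ := fun {γ ξ} h => by
    refine ⟨StrictMono.orderIsoOfSurjective (fun η => ⟨e γ η.1, e2 η.2 h⟩)
      (fun x y k => e2 k (y.2.trans h)) fun t => ?_⟩
    obtain ⟨η, k1, k2⟩ := e3 (t.2.trans (e1 h))
    refine ⟨⟨η, not_le.1 fun k => ?_⟩, Subtype.ext k2⟩
    rcases k.eq_or_lt with k | k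
    · exact t.2.ne (k2 ▸ k ▸ rfl)
    · exact (e2 k k1).not_gt (k2 ▸ t.2)
  have e5 : ∀ {γ s t}, s < u γ → t < u γ → s ≤ t ∨ t ≤ s := fun {γ s t} h1 h2 => by
    obtain ⟨a, k1, rfl⟩ := e3 h1
    obtain ⟨b, k2, rfl⟩ := e3 h2
    rcases lt_trichotomy a b with k | rfl | k
    exacts [Or.inl (e2 k k2).le, Or.inl le_rfl, Or.inr (e2 k k1).le]
  refine ⟨e, fun α => (mk_le_mk_of_subset ?_).trans_lt (hU.small α),
    fun α γ γ' h1 h2 h3 ξ h4 => ?_, fun δ γ h1 h2 => hB.false ⟨{t | ∃ α ξ, δ ≤ ξ ∧ ξ < α ∧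
      t ≤ e (γ α) ξ}, ?_, ?_, fun η => ?_⟩⟩
  · rintro _ ⟨γ, h, rfl⟩; exact e4 h
  · obtain ⟨η, k1, k2⟩ := e3 (((e2 h4 h2).trans_eq h3.symm).trans (e1 h1))
    obtain rfl := lev_eq (e4 k1) (k2 ▸ e4 (h4.trans h2))
    exact k2
  · rintro s ⟨α, ξ, a1, a2, a3⟩ t ⟨β, η, b1, b2, b3⟩ -
    have c1 := lt_max_of_lt_left (c := β) a2
    have c2 := lt_max_of_lt_right (b := α) b2
    exact e5 ((a3.trans_eq (h2 _ _ _ a1 a2 c1)).trans_lt (e1 (c1.trans_le (h1 _))))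
      ((b3.trans_eq (h2 _ _ _ b1 b2 c2)).trans_lt (e1 (c2.trans_le (h1 _))))
  · rintro s t k ⟨α, ξ, a1, a2, a3⟩; exact ⟨α, ξ, a1, a2, k.trans a3⟩
  · obtain ⟨α, k⟩ := R.bdd (A := {max δ η}) (by
      simpa using one_lt_aleph0.trans_le R.reg.aleph0_le)
    have k1 := k _ rfl
    have k2 := k1.trans_le (h1 α)
    refine ⟨e (γ α) η, ⟨α, _, le_max_left _ η, k1, ?_⟩, e4 ((le_max_right _ _).trans_lt k2)⟩
    rcases (le_max_right δ η).eq_or_lt with k | k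
    exacts [(congrArg _ k).le, (e2 k k2).le]

section fam
variable {I V : Type} (b : I → W → V)

/-- the graph of `b X` below `α` -/
def nd (X : I) (α : W) : Set (W × V) := {p | p.1 < α ∧ p.2 = b X p.1}

/-- the tree of initial segments of the family `b` -/
def Tr : Type := {s : Set (W × V) // ∃ X α, s = nd b X α}

instance : PartialOrder (Tr b) := Subtype.partialOrder _

/-- a node -/
def nt (X : I) (α : W) : Tr b := ⟨nd b X α, X, α, rfl⟩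

variable {b}

omit [WellFoundedLT W] in
theorem nt_le {X Y : I} {α β : W} : nt b X α ≤ nt b Y β ↔ α ≤ β ∧ ∀ ξ < α, b X ξ = b Y ξ :=
  ⟨fun h => ⟨not_lt.1 fun k => (h (a := (β, b X β)) ⟨k, rfl⟩).1.false,
    fun ξ k => (h (a := (ξ, b X ξ)) ⟨k, rfl⟩).2⟩,
    fun h p k => ⟨k.1.trans_le h.1, k.2.trans (h.2 _ k.1)⟩⟩

omit [WellFoundedLT W] in
theorem nt_ex (t : Tr b) : ∃ X α, t = nt b X α :=
  let ⟨X, α, h⟩ := t.2; ⟨X, α, Subtype.ext h⟩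

omit [WellFoundedLT W] in
theorem nt_low {t : Tr b} {X : I} {α : W} (h : t ≤ nt b X α) : ∃ β ≤ α, t = nt b X β := by
  obtain ⟨Y, β, rfl⟩ := nt_ex t
  have k := nt_le.1 h
  exact ⟨β, k.1, (nt_le.2 ⟨le_rfl, k.2⟩).antisymm (nt_le.2 ⟨le_rfl, fun ξ a => (k.2 ξ a).symm⟩)⟩

omit [WellFoundedLT W] in
theorem nt_mono (X : I) : StrictMono (nt b X) := fun _ _ h =>
  lt_of_le_not_ge (nt_le.2 ⟨h.le, fun _ _ => rfl⟩) fun k => h.not_ge (nt_le.1 k).1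

omit [WellFoundedLT W] in
theorem nt_lev (X : I) (α : W) : nt b X α ∈ Lev W (Tr b) α :=
  ⟨StrictMono.orderIsoOfSurjective (fun η => ⟨nt b X η.1, nt_mono X η.2⟩)
    (fun _ _ k => nt_mono X k) fun t => by
      obtain ⟨β, k1, k2⟩ := nt_low t.2.le
      exact ⟨⟨β, k1.lt_of_ne fun k => t.2.ne (k2.trans (k ▸ rfl))⟩, Subtype.ext k2.symm⟩⟩

theorem nt_of {t : Tr b} {α : W} (h : t ∈ Lev W (Tr b) α) : ∃ X, t = nt b X α := by
  obtain ⟨X, β, rfl⟩ := nt_ex t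
  exact ⟨X, lev_eq h (nt_lev X β) ▸ rfl⟩

/-- the branch of `X` -/
def brOf (X : I) : Br W (Tr b) := ⟨range (nt b X), by
  rintro _ ⟨α, rfl⟩ _ ⟨β, rfl⟩ -
  exact (le_total α β).imp (nt_mono X).monotone.imp (nt_mono X).monotone.imp, by
  rintro _ t h ⟨α, rfl⟩
  obtain ⟨β, -, k⟩ := nt_low h
  exact ⟨β, k.symm⟩, fun α => ⟨_, ⟨α, rfl⟩, nt_lev X α⟩⟩

end fam

end Pool.Agent.H57.Ku
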