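import Pool.Agent.H57.KuA

set_option autoImplicit false

namespace Pool.Agent.H57.Ku

open Set Cardinal Order
open Pool.Agent.H82.LadA (Reg reg_toType exmin)
open Pool.Agent.H57.IdC (un_le un2)

variable {W : Type} [LinearOrder W] [WellFoundedLT W]

/-- the part of `W` below some point of `C` that is at most `α` -/
def gg (C : Set W) (α : W) : Set W := {ξ | ∃ c ∈ C, ξ < c ∧ c ≤ α}

omit [WellFoundedLT W] in
theorem gg_mono (C : Set W) {α β : W} (h : α ≤ β) : gg C α ⊆ gg C β :=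
  fun _ ⟨c, k1, k2, k3⟩ => ⟨c, k1, k2, k3.trans h⟩

omit [WellFoundedLT W] in
theorem gg_eq {C D : Set W} {α ξ : W} (h : C ∩ Iic α = D ∩ Iic α) (k : ξ ≤ α) :
    gg C ξ = gg D ξ := by
  ext η
  exact ⟨fun ⟨c, k1, k2, k3⟩ => ⟨c, (h.subset ⟨k1, k3.trans k⟩).1, k2, k3⟩,
    fun ⟨c, k1, k2, k3⟩ => ⟨c, (h.symm.subset ⟨k1, k3.trans k⟩).1, k2, k3⟩⟩

theorem club_max {C : Set W} (hC : IsClub C) (α : W) : (C ∩ Iic α = ∅ ∧ gg C α = ∅) ∨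
    ∃ γ ∈ C, γ ≤ α ∧ C ∩ Iic α = insert γ (C ∩ Iio γ) ∧ gg C α = Iio γ := by
  rcases (C ∩ Iic α).eq_empty_or_nonempty with h | h
  · exact Or.inl ⟨h, eq_empty_of_forall_notMem fun _ ⟨c, k1, _, k3⟩ => h.subset ⟨k1, k3⟩⟩
  obtain ⟨γ, k1, k2⟩ := exmin (P := fun γ => γ ∈ upperBounds (C ∩ Iic α)) ⟨α, fun _ k => k.2⟩
  have k3 : IsLUB (C ∩ Iic α) γ := ⟨k1, fun y hy => not_lt.1 fun k => k2 y k hy⟩
  have k4 := hC.isLUB_mem inter_subset_left h k3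
  have k5 : γ ≤ α := k3.2 fun _ k => k.2
  refine Or.inr ⟨γ, k4, k5, Set.ext fun c => ⟨fun k => (k1 k).eq_or_lt.imp_right fun a => ⟨k.1, a⟩,
    ?_⟩, Set.ext fun ξ => ⟨fun ⟨c, a1, a2, a3⟩ => a2.trans_le (k1 ⟨a1, a3⟩), fun k => ⟨γ, k4, k, k5⟩⟩⟩
  rintro (rfl | k)
  exacts [⟨k4, k5⟩, ⟨k.1, k.2.le.trans k5⟩]

theorem main {l : Cardinal.{0}} (hl : ℵ₀ ≤ l) (R : Reg W (succ l)) (hD : DiamondPlus W (succ l))
    {U : Type} [PartialOrder U] (hU : KTree W U (succ l)) (hB : IsEmpty (Br W U)) :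
    ∃ (T : Type) (_ : PartialOrder T), KTree W T (succ l) ∧ ∃ F : Br W T → W → Bool,
      @Continuous _ _ (coneBr W T) (cone2 W) F ∧ F.Surjective := by
  classical
  obtain ⟨e, e1, e2, e3⟩ := aron R hU hB
  obtain ⟨A, hA, hX⟩ := hD
  choose C hC hCA using hX
  have up : ∀ α : W, ∃ β, α < β := fun α =>
    let ⟨β, k⟩ := R.bdd (A := {α}) (by simpa using one_lt_aleph0.trans_le R.reg.aleph0_le)
    ⟨β, k _ rfl⟩
  have nx : ∀ (X : Set W) (α : W), ∃ γ, (γ ∈ C X ∧ α < γ) ∧ ∀ c ∈ C X, α < c → γ ≤ c :=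
    fun X α => by
      obtain ⟨β, k⟩ := up α
      obtain ⟨c, k1, k2⟩ := (hC X).isCofinal β
      obtain ⟨γ, k3, k4⟩ := exmin (P := fun γ => γ ∈ C X ∧ α < γ) ⟨c, k1, k.trans_le k2⟩
      exact ⟨γ, k3, fun d a1 a2 => not_lt.1 fun a3 => k4 d a3 ⟨a1, a2⟩⟩
  choose n n1 n2 using nx
  have n3 : ∀ X {ξ α}, ξ ≤ α → (∀ c ∈ C X, ξ < c → α < c) → n X ξ = n X α := fun X ξ α k1 k2 =>
    (n2 _ _ _ (n1 X α).1 (k1.trans_lt (n1 X α).2)).antisymm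
      (n2 _ _ _ (n1 X ξ).1 (k2 _ (n1 X ξ).1 (n1 X ξ).2))
  let b : Set W → W → Set W × Set W × U := fun X α =>
    (gg (C X) α, X ∩ gg (C X) α, e (n X α) α)
  have det : ∀ X Y α, C X ∩ Iic α = C Y ∩ Iic α → X ∩ gg (C X) α = Y ∩ gg (C Y) α →
      e (n X α) α = e (n Y α) α → ∀ ξ < α, b X ξ = b Y ξ := fun X Y α h1 h2 h3 ξ h4 => by
    have g1 := gg_eq h1 h4.le
    refine Prod.ext g1 (Prod.ext (Set.ext fun η => ⟨fun k => ⟨(h2.subset ⟨k.1, gg_mono _ h4.le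
      k.2⟩).1, g1 ▸ k.2⟩, fun k => ⟨(h2.symm.subset ⟨k.1, gg_mono _ h4.le k.2⟩).1, g1 ▸ k.2⟩⟩) ?_)
    show e (n X ξ) ξ = e (n Y ξ) ξ
    by_cases k : ∃ c ∈ C X, ξ < c ∧ c ≤ α
    · obtain ⟨c, c1, c2, c3⟩ := k
      have a1 := (n2 X ξ c c1 c2).trans c3
      have a2 := n2 Y ξ _ (h1.subset ⟨(n1 X ξ).1, a1⟩).1 (n1 X ξ).2
      rw [a2.antisymm (n2 X ξ _ (h1.symm.subset ⟨(n1 Y ξ).1, a2.trans a1⟩).1 (n1 Y ξ).2)]
    · push Not at k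
      rw [n3 X h4.le k, n3 Y h4.le fun c c1 c2 => not_le.1 fun c3 =>
        (k c (h1.symm.subset ⟨c1, c3⟩).1 c2).not_ge c3]
      exact e2 α _ _ (n1 X α).2 (n1 Y α).2 h3 ξ h4
  have key : ∀ (B : Br W (Tr b)) (α : W), ∃ t ∈ B.1, ∃ p ∈ t.1, Iio α ⊆ p.2.1 := fun B α => by
    by_contra hn
    push Not at hn
    have h1 : ∀ β, ∃ X, nt b X β ∈ B.1 := fun β =>
      let ⟨t, k1, k2⟩ := B.2.2.2 β
      let ⟨X, k⟩ := nt_of k2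
      ⟨X, k ▸ k1⟩
    choose X h2 using h1
    have h3 : ∀ β, ∀ c ∈ C (X β), α < c → β ≤ c := fun β c c1 c2 => not_lt.1 fun c3 =>
      hn _ (h2 β) (c, b (X β) c) ⟨c3, rfl⟩ fun ξ k => ⟨c, c1, k.trans c2, le_rfl⟩
    have h4 : ∀ β ξ, α ≤ ξ → ξ < β → n (X β) α = n (X β) ξ := fun β ξ k1 k2 =>
      n3 _ k1 fun c c1 c2 => k2.trans_le (h3 β c c1 c2)
    refine e3 α (fun β => n (X β) α) (fun β => h3 β _ (n1 _ _).1 (n1 _ _).2)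
      fun β γ ξ k1 k2 k3 => ?_
    show e (n (X β) α) ξ = e (n (X γ) α) ξ
    rw [h4 β ξ k1 k2, h4 γ ξ k1 k3]
    rcases B.2.1.total (h2 β) (h2 γ) with k | k
    · exact congrArg (·.2.2) ((nt_le.1 k).2 ξ k2)
    · exact (congrArg (·.2.2) ((nt_le.1 k).2 ξ k3)).symm
  have loc : ∀ (B : Br W (Tr b)), ∀ t ∈ B.1, ∀ p ∈ t.1, ∀ ξ ∈ p.2.1,
      ((∃ t ∈ B.1, ∃ p ∈ t.1, ξ ∈ p.2.2.1) ↔ ξ ∈ p.2.2.1) := fun B t ht p hp ξ hξ => by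
    refine ⟨fun ⟨s, hs, q, hq, k⟩ => ?_, fun k => ⟨t, ht, p, hp, k⟩⟩
    obtain ⟨r, r1, r2⟩ : ∃ r : Tr b, p ∈ r.1 ∧ q ∈ r.1 := (B.2.1.total ht hs).elim
      (fun a => ⟨s, a hp, hq⟩) fun a => ⟨t, hp, a hq⟩
    obtain ⟨X, β, rfl⟩ := nt_ex r
    rw [r1.2] at hξ ⊢
    rw [r2.2] at k
    exact ⟨k.1, hξ⟩
  refine ⟨Tr b, inferInstance, ⟨fun t => ?_, fun α => ⟨_, nt_lev ∅ α⟩, fun α => lt_succ_iff.2 ?_⟩,
    fun B ξ => decide (∃ t ∈ B.1, ∃ p ∈ t.1, ξ ∈ p.2.2.1), ?_, fun g => ?_⟩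
  · obtain ⟨X, α, rfl⟩ := nt_ex t
    exact ⟨α, nt_lev X α⟩
  · choose X h using fun t : Lev W (Tr b) α => nt_of t.2
    have i1 : #(Iic α) ≤ l := lt_succ_iff.1 (R.iic α)
    have i0 : #({∅} : Set (Set W)) ≤ l := by simpa using one_le_aleph0.trans hl
    have p1 := un2 hl i0 (un_le hl i1 (f := fun γ => insert γ '' A γ) fun γ _ =>
      mk_image_le.trans (lt_succ_iff.1 (hA γ).1))
    have p2 := un2 hl i0 (un_le hl i1 (f := A) fun γ _ => lt_succ_iff.1 (hA γ).1)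
    refine (mk_le_of_injective (f := fun t : Lev W (Tr b) α =>
      ((⟨C (X t) ∩ Iic α, ?_⟩, ⟨X t ∩ gg (C (X t)) α, ?_⟩, ⟨e (n (X t) α) α, _, (n1 _ _).2, rfl⟩) :
      ↥({∅} ∪ ⋃ γ ∈ Iic α, insert γ '' A γ) × ↥({∅} ∪ ⋃ γ ∈ Iic α, A γ) ×
        {u | ∃ γ, α < γ ∧ e γ α = u})) fun s t k => ?_).trans ?_
    · rcases club_max (hC (X t)) α with k | ⟨γ, k1, k2, k3, -⟩
      · exact Or.inl k.1
      · exact Or.inr (mem_biUnion k2 ⟨_, (hCA _ _ k1).2, k3.symm⟩)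
    · rcases club_max (hC (X t)) α with k | ⟨γ, k1, k2, -, k3⟩
      · exact Or.inl (by rw [k.2, inter_empty]; rfl)
      · exact Or.inr (mem_biUnion k2 (k3 ▸ (hCA _ _ k1).1))
    · simp only [Prod.mk.injEq, Subtype.mk.injEq] at k
      have d := det _ _ α k.1 k.2.1 k.2.2
      exact Subtype.ext ((h s).trans (((nt_le.2 ⟨le_rfl, d⟩).antisymm
        (nt_le.2 ⟨le_rfl, fun ξ a => (d ξ a).symm⟩)).trans (h t).symm))
    · simp only [mk_prod, lift_id]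
      exact (mul_le_mul' p1 ((mul_le_mul' p2 (lt_succ_iff.1 (e1 α))).trans
        (mul_eq_self hl).le)).trans (mul_eq_self hl).le
  · letI := coneBr W (Tr b)
    refine continuous_generateFrom_iff.2 ?_
    rintro _ ⟨α, s, rfl⟩
    refine isOpen_iff_forall_mem_open.2 fun B hB => ?_
    obtain ⟨t, ht, p, hp, k⟩ := key B α
    refine ⟨{B | t ∈ B.1}, fun B' hB' ξ => (decide_eq_decide.2 ?_).trans (hB ξ),
      TopologicalSpace.isOpen_generateFrom_of_mem ⟨t, rfl⟩, ht⟩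
    rw [loc B' t hB' p hp ξ (k ξ.2), loc B t ht p hp ξ (k ξ.2)]
  · refine ⟨brOf {ξ | g ξ = true}, funext fun ξ => ?_⟩
    obtain ⟨β, k⟩ := up (n {ξ | g ξ = true} ξ)
    have k1 : ξ ∈ gg (C {ξ | g ξ = true}) (n {ξ | g ξ = true} ξ) :=
      ⟨_, (n1 _ _).1, (n1 _ _).2, le_rfl⟩
    have k2 := loc (brOf {ξ | g ξ = true}) _ ⟨β, rfl⟩ (_, b _ _) ⟨k, rfl⟩ ξ k1
    exact Bool.eq_iff_iff.2 (decide_eq_true_iff.trans (k2.trans ⟨fun a => a.1, fun a => ⟨a, k1⟩⟩))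

end Pool.Agent.H57.Ku
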