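import Pool.Agent.H57.KuB
import Pool.Agent.H42.Aron

set_option autoImplicit false

namespace Pool.Agent.H57.Ku

open Set Cardinal Order
open Pool.Agent.H82.LadA (Reg reg_toType exmin)
open Pool.Agent.H57.IdC (un_le un2)

variable {W : Type} [LinearOrder W] [WellFoundedLT W]

theorem lev_le {T : Type} [PartialOrder T] {α β : W} {s t : T} (h : s ≤ t) (h1 : s ∈ Lev W T α)
    (h2 : t ∈ Lev W T β) : α ≤ β := not_lt.1 fun l => by
  obtain ⟨e⟩ := h1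
  obtain ⟨f⟩ := h2
  have k : StrictMono fun x : Iio α =>
      (⟨(f.symm ⟨(e x).1, (e x).2.trans_le h⟩).1, (f.symm _).2.trans l⟩ : Iio α) :=
    fun x y hxy => f.symm.strictMono (e.strictMono hxy)
  exact (f.symm _).2.not_ge (k.le_apply (x := ⟨β, l⟩))

theorem club_cl {κ : Cardinal.{0}} (R : Reg W κ) (hu : ℵ₀ < κ) {P : W → W → Prop}
    (h : ∀ ξ, ∃ β, P ξ β) : IsClub {α | ∀ ξ < α, ∃ β < α, P ξ β} := by
  refine ⟨fun d hd _ _ a ha ξ k => ?_, fun x => ?_⟩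
  · obtain ⟨c, c1, c2⟩ := (lt_isLUB_iff ha).1 k
    obtain ⟨β, b1, b2⟩ := hd c1 ξ c2
    exact ⟨β, b1.trans_le (ha.1 c1), b2⟩
  choose f hf using h
  choose g hg using fun a : W => R.bdd (A := f '' Iio a) (mk_image_le.trans_lt (R.iio a))
  obtain ⟨y, hy⟩ := R.bdd (A := range fun n : ℕ => g^[n] x) ((countable_range _).le_aleph0.trans_lt hu)
  obtain ⟨γ, k1, k2⟩ := exmin (P := fun γ => ∀ n : ℕ, g^[n] x ≤ γ) ⟨y, fun n => (hy _ ⟨n, rfl⟩).le⟩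
  refine ⟨γ, fun ξ k => ?_, k1 0⟩
  obtain ⟨n, hn⟩ := not_forall.1 (k2 ξ k)
  exact ⟨f ξ, (hg _ _ ⟨ξ, not_le.1 hn, rfl⟩).trans_le
    ((Function.iterate_succ_apply' g n x).ge.trans (k1 (n + 1))), hf ξ⟩

omit [WellFoundedLT W] in
theorem cone_open {T : Type} [PartialOrder T] (o : W) {O : Set (Br W T)}
    (h : @IsOpen _ (coneBr W T) O) : ∀ b ∈ O, ∃ t ∈ b.1, ∀ c : Br W T, t ∈ c.1 → c ∈ O := by
  induction h with
  | basic s hs => obtain ⟨t, rfl⟩ := hs; exact fun b hb => ⟨t, hb, fun _ k => k⟩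
  | univ => exact fun b _ => let ⟨t, k⟩ := b.2.2.2 o; ⟨t, k.1, fun _ _ => trivial⟩
  | inter s t _ _ i1 i2 =>
    intro b hb
    obtain ⟨x, x1, x2⟩ := i1 b hb.1
    obtain ⟨y, y1, y2⟩ := i2 b hb.2
    rcases b.2.1.total x1 y1 with k | k
    · exact ⟨y, y1, fun c l => ⟨x2 c (c.2.2.1 k l), y2 c l⟩⟩
    · exact ⟨x, x1, fun c l => ⟨x2 c l, y2 c (c.2.2.1 k l)⟩⟩
  | sUnion S _ ih =>
    rintro b ⟨s, s1, s2⟩
    obtain ⟨t, t1, t2⟩ := ih s s1 b s2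
    exact ⟨t, t1, fun c l => ⟨s, s1, t2 c l⟩⟩

theorem conv {κ : Cardinal.{0}} (R : Reg W κ) (hu : ℵ₀ < κ) {T : Type} [PartialOrder T]
    (hT : KTree W T κ) {F : Br W T → W → Bool} (hF : @Continuous _ _ (coneBr W T) (cone2 W) F)
    (hs : F.Surjective) : DiamondPlus W κ := by
  classical
  let D : T → W → Prop := fun t ξ => ∀ b c : Br W T, t ∈ b.1 → t ∈ c.1 → F b ξ = F c ξ
  have d1 : ∀ (b : Br W T) ξ, ∃ β, ∃ s ∈ b.1, s ∈ Lev W T β ∧ D s ξ := fun b ξ => by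
    obtain ⟨α, k⟩ := R.bdd (A := {ξ}) (by simpa using one_lt_aleph0.trans hu)
    obtain ⟨t, t1, t2⟩ := cone_open ξ (@Continuous.isOpen_preimage _ _ (coneBr W T) (cone2 W) _ hF _
      (TopologicalSpace.isOpen_generateFrom_of_mem ⟨α, fun η => F b η, rfl⟩)) b fun _ => rfl
    obtain ⟨β, l⟩ := hT.lev t
    exact ⟨β, t, t1, l, fun c d c1 c2 => (t2 c c1 ⟨ξ, k _ rfl⟩).trans (t2 d c2 ⟨ξ, k _ rfl⟩).symm⟩
  have d2 : ∀ (b : Br W T) {s t α β}, s ∈ b.1 → t ∈ b.1 → s ∈ Lev W T β → t ∈ Lev W T α → β < α →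
      s ≤ t := fun b s t α β h1 h2 h3 h4 h5 =>
    (b.2.1.total h1 h2).resolve_right fun k => h5.not_ge (lev_le k h4 h3)
  refine ⟨fun α => (fun t => {ξ | ∃ c : Br W T, t ∈ c.1 ∧ F c ξ = true} ∩ Iio α) '' Lev W T α ∪
    (fun t => {γ | ∀ ξ < γ, ∃ β < γ, ∃ s ≤ t, s ∈ Lev W T β ∧ D s ξ} ∩ Iio α) '' Lev W T α,
    fun α => ⟨(mk_union_le _ _).trans_lt (add_lt_of_lt hu.le (mk_image_le.trans_lt (hT.small α))
      (mk_image_le.trans_lt (hT.small α))), ?_⟩, fun X => ?_⟩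
  · rintro _ (⟨t, -, rfl⟩ | ⟨t, -, rfl⟩) <;> exact inter_subset_right
  obtain ⟨b, hb⟩ := hs fun ξ => decide (ξ ∈ X)
  have hb' : ∀ ξ, F b ξ = true ↔ ξ ∈ X := fun ξ => by rw [hb, decide_eq_true_iff]
  refine ⟨_, club_cl R hu (d1 b), fun α hα => ?_⟩
  obtain ⟨t, t1, t2⟩ := b.2.2.2 α
  refine ⟨Or.inl ⟨t, t2, Set.ext fun ξ => and_congr_left fun k => ⟨fun ⟨c, c1, c2⟩ => ?_,
    fun l => ⟨b, t1, (hb' ξ).2 l⟩⟩⟩, Or.inr ⟨t, t2, Set.ext fun γ => and_congr_left fun k =>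
      forall₂_congr fun ξ _ => exists_congr fun β => and_congr_right fun l => exists_congr fun s =>
        and_congr_left fun m => ⟨fun a => b.2.2.1 a t1, fun a => d2 b a t1 m.1 t2 (l.trans k)⟩⟩⟩
  obtain ⟨β, b1, s, s1, s2, s3⟩ := hα ξ k
  exact (hb' ξ).1 ((s3 b c s1 (c.2.2.1 (d2 b s1 t1 s2 t2 b1) c1)).trans c2)

theorem aron1 (R : Reg W (succ ℵ₀)) :
    ∃ (U : Type) (_ : PartialOrder U), KTree W U (succ ℵ₀) ∧ IsEmpty (Br W U) := by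
  classical
  have hc : ∀ a : W, (Iio a).Countable := fun a =>
    le_aleph0_iff_set_countable.1 (lt_succ_iff.1 (R.iio a))
  obtain ⟨o, -⟩ := R.bdd (A := ∅) (by simpa using R.reg.pos)
  obtain ⟨e, e1, e2⟩ := H42.Aron.exists_coh ⟨o⟩ hc
  let S : Set (Tr e) := {t | ∃ γ α, α ≤ γ ∧ t = nt e γ α}
  have l1 : ∀ γ α (h : α ≤ γ), (⟨nt e γ α, γ, α, h, rfl⟩ : S) ∈ Lev W S α := fun γ α h =>
    ⟨StrictMono.orderIsoOfSurjective
      (fun η => ⟨⟨nt e γ η.1, γ, η.1, η.2.le.trans h, rfl⟩, nt_mono γ η.2⟩)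
      (fun _ _ k => nt_mono γ k) fun t => by
        obtain ⟨β, k1, k2⟩ := nt_low (t := t.1.1) t.2.le
        exact ⟨⟨β, k1.lt_of_ne fun k => t.2.ne (Subtype.ext (k2.trans (k ▸ rfl)))⟩,
          Subtype.ext (Subtype.ext k2.symm)⟩⟩
  have l2 : ∀ {α} {t : S}, t ∈ Lev W S α → ∃ γ, α ≤ γ ∧ t.1 = nt e γ α := fun {α t} h => by
    obtain ⟨_, γ, β, k, rfl⟩ := t
    obtain rfl := lev_eq h (l1 γ β k)
    exact ⟨γ, k, rfl⟩
  refine ⟨S, inferInstance, ⟨fun ⟨_, γ, α, k, rfl⟩ => ⟨α, l1 γ α k⟩, fun α => ⟨_, l1 α α le_rfl⟩,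
    fun α => lt_succ_iff.2 (le_aleph0_iff_set_countable.2 ?_)⟩, ⟨fun B => ?_⟩⟩
  · refine MapsTo.countable_of_injOn (f := fun t : S => t.1.1 \ nd e α α) (fun t h => ?_)
      (fun s hs t ht k => ?_)
      (countable_ofPred_finite_subset ((hc α).prod (countable_univ (α := ℕ))))
    · obtain ⟨γ, k1, k2⟩ := l2 h
      simp only [k2]
      refine ⟨((e2 γ α).image fun ξ => (ξ, e γ ξ)).subset ?_, fun p k => ⟨k.1.1, trivial⟩⟩
      rintro ⟨ξ, n⟩ ⟨⟨a1, a2⟩, a3⟩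
      exact ⟨ξ, ⟨a1.trans_le k1, a1, fun a => a3 ⟨a1, a2.trans a⟩⟩, Prod.ext rfl a2.symm⟩
    · obtain ⟨γ, -, k1⟩ := l2 hs
      obtain ⟨δ, -, k2⟩ := l2 ht
      simp only [k1, k2] at k
      have d : ∀ ξ < α, e γ ξ = e δ ξ := fun ξ a => by
        by_cases c1 : e γ ξ = e α ξ
        · by_cases c2 : e δ ξ = e α ξ
          · exact c1.trans c2.symm
          · exact ((Set.ext_iff.1 k (ξ, e δ ξ)).2 ⟨⟨a, rfl⟩, fun l => c2 l.2⟩).1.2.symm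
        · exact ((Set.ext_iff.1 k (ξ, e γ ξ)).1 ⟨⟨a, rfl⟩, fun l => c1 l.2⟩).1.2
      exact Subtype.ext (k1.trans (((nt_le.2 ⟨le_rfl, d⟩).antisymm
        (nt_le.2 ⟨le_rfl, fun ξ a => (d ξ a).symm⟩)).trans k2.symm))
  · choose t t1 t2 using B.2.2.2
    choose γ g1 g2 using fun α => l2 (t2 α)
    choose up hup using fun ξ : W => R.bdd (A := {ξ}) (by
      simpa using one_lt_aleph0.trans (lt_succ ℵ₀))
    have ag : ∀ ξ β, ξ < β → e (γ β) ξ = e (γ (up ξ)) ξ := fun ξ β k => by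
      rcases B.2.1.total (t1 β) (t1 (up ξ)) with l | l
      · exact (nt_le.1 ((g2 _).ge.trans (LE.le.trans l (g2 _).le))).2 ξ k
      · exact ((nt_le.1 ((g2 _).ge.trans (LE.le.trans l (g2 _).le))).2 ξ (hup ξ _ rfl)).symm
    have fin : ∀ n : ℕ, {ξ | e (γ (up ξ)) ξ = n}.Finite := fun n => not_infinite.1 fun h => by
      obtain ⟨β, k⟩ := R.bdd (A := range fun i => (h.natEmbedding _ i).1)
        ((countable_range _).le_aleph0.trans_lt (lt_succ _))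
      refine infinite_range_of_injective
        (Subtype.val_injective.comp (h.natEmbedding _).injective) ((e1 (γ β) n).subset ?_)
      rintro _ ⟨i, rfl⟩
      exact ⟨(k _ ⟨i, rfl⟩).trans_le (g1 β), ((ag _ β (k _ ⟨i, rfl⟩)).trans (h.natEmbedding _ i).2).le⟩
    have cu : (univ : Set W).Countable :=
      (countable_iUnion fun n => (fin n).countable).mono fun ξ _ =>
        mem_iUnion.2 ⟨e (γ (up ξ)) ξ, rfl⟩
    exact (lt_succ ℵ₀).not_ge ((mk_univ.trans R.card).ge.trans cu.le_aleph0)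

end Pool.Agent.H57.Ku
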