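import Pool.Agent.H57.Aro1

set_option autoImplicit false

/-! Under Martin's axiom, trees with few branches are weakly special. -/

namespace Pool.Agent.H57.Kd

open Set Cardinal Order Filter Pool.Agent.H57.Lots Pool.Agent.H57.Coh Pool.Agent.H57.Aro

structure Tr0 (r : W1 → W1 → Prop) : Prop where
  irr : ∀ a, ¬ r a a
  tr : ∀ a b c, r a b → r b c → r a c
  lin : ∀ s s' t, r s t → r s' t → s = s' ∨ r s s' ∨ r s' s
  cnt : ∀ t, {s | r s t}.Countable
  wf : ∀ t (P : W1 → Prop), (∃ s, r s t ∧ P s) → ∃ s, r s t ∧ P s ∧ ∀ s', r s' s → ¬ P s'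

variable {r : W1 → W1 → Prop}

theorem spec (hMA : MA1) (T : Tr0 r) {S : Set W1}
    (hS : ∀ c ⊆ S, IsChain r c → c.Countable) :
    ∃ c : W1 → ℕ, ∀ s ∈ S, ∀ t ∈ S, r s t → c s ≠ c t := by
  classical
  let R : W1 × ℕ → W1 × ℕ → Prop := fun v w => v.1 ∈ S ∧ (v.1 = w.1 → v.2 = w.2) ∧
    (r v.1 w.1 → v.2 ≠ w.2)
  obtain ⟨H, hH, hH'⟩ := clique hMA R (fun p hp => by
      obtain ⟨a0⟩ : Nonempty W1 := inferInstance
      have h1 : ∀ x, ∃ b, a0 < x → b < x ∧ ∀ v ∈ p x, v.1 < x → v.1 ≤ b := fun x => by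
        by_cases hx : a0 < x
        · obtain ⟨b, hb, hb'⟩ := fin_bd (s := Prod.fst '' {v | v ∈ p x ∧ v.1 < x})
            (((hp x).1.subset fun v hv => hv.1).image _) hx (by rintro _ ⟨v, hv, rfl⟩; exact hv.2)
          exact ⟨b, fun _ => ⟨hb, fun v h1 h2 => hb' _ ⟨v, ⟨h1, h2⟩, rfl⟩⟩⟩
        · exact ⟨a0, fun h => absurd h hx⟩
      choose b hb using h1
      obtain ⟨c, hc⟩ := press succ b a0 fun x _ hx => (hb x hx).1
      obtain ⟨t, ht⟩ := pigeon hc (countable_ofPred_finite_subset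
        (((Iio_countable (succ c)).prod (countable_univ (α := ℕ)))))
          (fun x => {v | v ∈ p x ∧ v.1 < x}) fun x hx => ⟨(hp x).1.subset fun v hv => hv.1,
            fun v hv => ⟨lt_succ_of_le (((hb x hx.2.1).2 v hv.1 hv.2).trans hx.2.2), trivial⟩⟩
      let l : W1 → List (W1 × ℕ) := fun x => (hp x).1.toFinset.toList
      obtain ⟨n, hn'⟩ := pigeon ht countable_univ (fun x => (l x).length) fun _ _ => trivial
      set A := {a | a ∈ {a | a ∈ {x | x ∈ Cp succ ∧ a0 < x ∧ b x ≤ c} ∧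
        {v | v ∈ p a ∧ v.1 < a} = t} ∧ (l a).length = n}
      have low : ∀ x ∈ A, ∀ y ∈ A, ∀ v ∈ p x, v.1 < x → v ∈ p y := fun x hx y hy v hv k =>
        ((hx.1.2.trans hy.1.2.symm).subset ⟨hv, k⟩).1
      by_contra hn
      push Not at hn
      let en : W1 → ℕ → W1 × ℕ := fun x i => (l x).getD i (a0, 0)
      have hen : ∀ x ∈ A, ∀ v ∈ p x, ∃ i < n, en x i = v := by
        intro x hx v hv
        obtain ⟨i, hi, rfl⟩ := List.mem_iff_getElem.1 (show v ∈ l x by simpa [l] using hv)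
        exact ⟨i, by rw [← hx.2]; exact hi, List.getD_eq_getElem _ _ hi⟩
      haveI : (atTop ⊓ 𝓟 A : Filter W1).NeBot := by
        rw [← frequently_mem_iff_neBot, frequently_atTop]
        intro a
        obtain ⟨y, hy, hy'⟩ := unb hn' a
        exact ⟨y, hy'.le, hy⟩
      let U := Ultrafilter.of (atTop ⊓ 𝓟 A : Filter W1)
      have hU := Ultrafilter.of_le (atTop ⊓ 𝓟 A : Filter W1)
      have key : ∀ x, ∃ z : W1 × ℕ, x ∈ A → x ≤ z.1 ∧ z.1 ∈ S ∧ {y | r z.1 (en y z.2).1} ∈ U := by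
        intro x
        by_cases hx : x ∈ A
        swap
        · exact ⟨(a0, 0), fun h => absurd h hx⟩
        obtain ⟨m, hm⟩ := bdd ((hp x).1.countable.biUnion (t := fun v _ => insert v.1 {s | r s v.1})
          fun v _ => (T.cnt v.1).insert _)
        have h2 : (⋃ z ∈ p x ×ˢ Iio n, {y | x ≤ z.1.1 ∧ r z.1.1 (en y z.2).1}) ∈ U := by
          refine mem_of_superset (hU (inter_mem_inf (Ioi_mem_atTop (max x m))
            (mem_principal_self A))) ?_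
          rintro y ⟨hxy, hy⟩
          obtain ⟨v, hv, w, hw, h3⟩ := hn x y ((le_max_left _ _).trans_lt hxy).ne
          have h4 : x ≤ v.1 := not_lt.1 fun h => h3 ((hp y).2 _ (low x hx y hy v hv h) _ hw)
            ((hp y).2 _ hw _ (low x hx y hy v hv h))
          have h5 : y ≤ w.1 := not_lt.1 fun h => h3 ((hp x).2 _ hv _ (low y hy x hx w hw h))
            ((hp x).2 _ (low y hy x hx w hw h) _ hv)
          have h6 : w.1 ∉ insert v.1 {s | r s v.1} := fun k => (hm (mem_iUnion₂.2 ⟨v, hv, k⟩)).not_gt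
            (((le_max_right _ _).trans_lt hxy).trans_le h5)
          obtain ⟨j, hj, rfl⟩ := hen y hy w hw
          refine mem_biUnion (x := (v, j)) ⟨hv, hj⟩ ⟨h4, by_contra fun h7 => ?_⟩
          exact h3 ⟨((hp x).2 _ hv _ hv).1, fun k => absurd (Or.inl k.symm) h6, fun k => absurd k h7⟩
            ⟨((hp y).2 _ hw _ hw).1, fun k => absurd (Or.inl k) h6, fun k => absurd (Or.inr k) h6⟩
        obtain ⟨z, z1, h3⟩ := (Ultrafilter.finite_biUnion_mem_iff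
          ((hp x).1.prod (finite_lt_nat _))).1 h2
        obtain ⟨y, hy⟩ := Ultrafilter.nonempty_of_mem h3
        exact ⟨(z.1.1, z.2), fun _ => ⟨hy.1, ((hp x).2 _ z1.1 _ z1.1).1,
          mem_of_superset h3 fun y hy => hy.2⟩⟩
      choose z hz using key
      obtain ⟨k, hk⟩ := pigeon hn' countable_univ (fun x => (z x).2) fun _ _ => trivial
      obtain ⟨m, hm⟩ := bdd (hS ((fun x => (z x).1) '' {a | a ∈ A ∧ (z a).2 = k}) (by
        rintro _ ⟨x, hx, rfl⟩; exact (hz x hx.1).2.1) (by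
        rintro _ ⟨x, hx, rfl⟩ _ ⟨y, hy, rfl⟩ ne
        obtain ⟨w, h1, h2⟩ := Ultrafilter.nonempty_of_mem (inter_mem (hz x hx.1).2.2 (hz y hy.1).2.2)
        rw [mem_setOf_eq, hx.2] at h1
        rw [mem_setOf_eq, hy.2] at h2
        exact (T.lin _ _ _ h1 h2).resolve_left ne))
      obtain ⟨x, hx, k⟩ := unb hk m
      exact (hm ⟨x, hx, rfl⟩).not_gt (k.trans_le (hz x hx.1).1))
    (I := W1) mk_W1.le (fun i q => i ∈ S → ∃ m, (i, m) ∈ q) (by
      intro a p hp hp'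
      by_cases ha : a ∈ S ∧ ∀ m, (a, m) ∉ p
      swap
      · exact ⟨p, subset_rfl, hp, hp', fun h => by_contra fun k => ha ⟨h, fun m l => k ⟨m, l⟩⟩⟩
      obtain ⟨m, hm⟩ := (hp.image fun v => v.2).bddAbove
      have h2 : ∀ w ∈ p, w.2 < m + 1 := fun w hw => Nat.lt_succ_of_le (hm ⟨w, hw, rfl⟩)
      refine ⟨insert (a, m + 1) p, subset_insert _ _, hp.insert _, ?_, fun _ => ⟨_, mem_insert _ _⟩⟩
      rintro v (rfl | hv) w (rfl | hw)
      exacts [⟨ha.1, fun _ => rfl, fun h => absurd h (T.irr _)⟩,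
        ⟨ha.1, fun k => absurd (by rw [show a = w.1 from k]; exact hw) (ha.2 w.2), fun _ => (h2 w hw).ne'⟩,
        ⟨(hp' v hv v hv).1, fun k => absurd (by rw [← show v.1 = a from k]; exact hv) (ha.2 v.2), fun _ => (h2 v hv).ne⟩,
        hp' v hv w hw])
  have h1 : ∀ a, ∃ m, a ∈ S → (a, m) ∈ H := fun a => by
    obtain ⟨q, hq, hq'⟩ := hH' a
    by_cases ha : a ∈ S
    · obtain ⟨m, hm⟩ := hq' ha
      exact ⟨m, fun _ => hq hm⟩
    · exact ⟨0, fun h => absurd h ha⟩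
  choose c hc using h1
  exact ⟨c, fun s hs t ht k => (hH _ (hc s hs) _ (hc t ht)).2.2 k⟩

/-- uncountable branches -/
def UB (r : W1 → W1 → Prop) : Set (Set W1) := {b | IsMaxChain r b ∧ ¬ b.Countable}

/-- weak specialising maps -/
def WS {Y : Type} (r : W1 → W1 → Prop) (f : W1 → Y) : Prop :=
  ∀ s t u, r s t → r s u → f s = f t → f s = f u → t = u ∨ r t u ∨ r u t

theorem above (T : Tr0 r) {b D : Set W1} (hb : IsChain r b) (hD : ¬ (b ∩ D).Countable) {v : W1}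
    (hv : v ∈ b) : ¬ (b ∩ D ∩ {t | r v t}).Countable := fun k =>
  hD ((k.union ((T.cnt v).insert v)).mono fun t ht => by
    rcases eq_or_ne t v with l | l
    · exact Or.inr (Or.inl l)
    · exact (hb ht.1 hv l).elim (fun a => Or.inr (Or.inr a)) fun a => Or.inl ⟨ht, a⟩)

theorem few (T : Tr0 r) {Y : Type} {N : Set Y} (hN : N.Countable) {f : W1 → Y} (h1 : ∀ s, f s ∈ N)
    (h2 : WS r f) : #(UB r) ≤ ℵ₁ := by
  have ne : ∀ {A : Set W1}, ¬ A.Countable → A.Nonempty := fun k =>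
    nonempty_iff_ne_empty.2 fun l => k (l ▸ countable_empty)
  have h3 : ∀ b : UB r, ∃ s, ¬ (b.1 ∩ {t | r s t ∧ f s = f t}).Countable := fun b => by
    obtain ⟨y, hy⟩ := pigeon b.2.2 hN f fun s _ => h1 s
    obtain ⟨s, hs⟩ := ne hy
    refine ⟨s, fun k => above T b.2.1.1 (D := {t | f t = y}) hy hs.1 (k.mono fun t ht => ?_)⟩
    exact ⟨ht.1.1, ht.2, hs.2.trans ht.1.2.symm⟩
  choose s hs using h3
  refine (mk_le_of_injective (f := s) fun b c k => ?_).trans mk_W1.le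
  have h4 : ∀ v ∈ b.1, ∀ w ∈ c.1, v ≠ w → r v w ∨ r w v := fun v hv w hw l => by
    obtain ⟨t, t1, t2⟩ := ne (above T b.2.1.1 (hs b) hv)
    obtain ⟨u, u1, u2⟩ := ne (above T c.2.1.1 (hs c) hw)
    rw [← k] at u1
    rcases h2 _ t u t1.2.1 u1.2.1 t1.2.2 u1.2.2 with rfl | a | a
    exacts [(T.lin _ _ _ t2 u2).resolve_left l, (T.lin _ _ _ (T.tr _ _ _ t2 a) u2).resolve_left l,
      (T.lin _ _ _ t2 (T.tr _ _ _ u2 a)).resolve_left l]
  have h5 : IsChain r (b.1 ∪ c.1) := by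
    rintro v (hv | hv) w (hw | hw) l
    exacts [b.2.1.1 hv hw l, h4 v hv w hw l, (h4 w hw v hv l.symm).symm, c.2.1.1 hv hw l]
  exact Subtype.ext ((b.2.1.2 h5 subset_union_left).trans (c.2.1.2 h5 subset_union_right).symm)

theorem low (T : Tr0 r) {b : Set W1} (hb : IsMaxChain r b) {s t : W1} (h : r s t) (ht : t ∈ b) :
    s ∈ b := by
  have k : ∀ u ∈ b, s ≠ u → r s u ∨ r u s := fun u hu l => by
    rcases eq_or_ne t u with rfl | m
    · exact Or.inl h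
    · exact (hb.1 ht hu m).elim (fun a => Or.inl (T.tr _ _ _ h a))
        fun a => (T.lin _ _ _ h a).resolve_left l
  exact (hb.2 (hb.1.insert k) (subset_insert _ _)).ge (mem_insert _ _)

theorem wspec (hMA : MA1) (T : Tr0 r) (h : #(UB r) ≤ ℵ₁) : ∃ f : W1 → ℕ, WS r f := by
  obtain ⟨ι⟩ := (Cardinal.le_def _ _).1 (h.trans mk_W1.ge)
  let lab : W1 → UB r → Prop := fun t b => t ∈ b.1 ∧ ∀ c : UB r, t ∈ c.1 → ι b ≤ ι c
  have l1 : ∀ {t b c}, lab t b → lab t c → b = c := fun h1 h2 =>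
    ι.injective ((h1.2 _ h2.1).antisymm (h2.2 _ h1.1))
  let S : Set W1 := {t | ∀ b, lab t b → ∀ s, r s t → ¬ lab s b}
  obtain ⟨c, hc⟩ := spec hMA T (S := S) fun c h1 h2 => by
    by_contra h3
    obtain ⟨b, b1, b2⟩ := h2.exists_maxChain
    have h4 : ∀ t : c, ∃ d, lab t d ∧ ι d < succ (ι ⟨b, b1, fun k => h3 (k.mono b2)⟩) := fun t => by
      obtain ⟨_, ⟨d, d1, rfl⟩, d2⟩ := exists_min (S := ι '' {d | t.1 ∈ d.1})
        ⟨_, ⟨b, b1, fun k => h3 (k.mono b2)⟩, b2 t.2, rfl⟩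
      exact ⟨d, ⟨d1, fun e k => d2 _ ⟨e, k, rfl⟩⟩, lt_succ_of_le (d2 _ ⟨_, b2 t.2, rfl⟩)⟩
    choose d d1 d2 using h4
    refine h3 (countable_coe_iff.1 (@Function.Injective.countable _ _
      (Iio_countable _).to_subtype (fun t => ⟨_, d2 t⟩) fun s t k => Subtype.ext
        (by_contra fun l => ?_)))
    have k' : d s = d t := ι.injective (congrArg Subtype.val k)
    rcases h2 s.2 t.2 l with a | a
    · exact h1 t.2 _ (d1 t) _ a (k' ▸ d1 s)
    · exact h1 s.2 _ (d1 s) _ a (k' ▸ d1 t)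
  have h1 : ∀ t, ∃ ρ ∈ S, ρ = t ∨ r ρ t ∧ ∃ b, lab ρ b ∧ lab t b := fun t => by
    by_cases k : t ∈ S
    · exact ⟨t, k, Or.inl rfl⟩
    simp only [S, mem_setOf_eq, not_forall, not_not] at k
    obtain ⟨b, b1, s, b2, b3⟩ := k
    obtain ⟨s, s1, s2, s3⟩ := T.wf t (lab · b) ⟨s, b2, b3⟩
    exact ⟨s, fun d d1 u u1 u2 => s3 u u1 (l1 d1 s2 ▸ u2), Or.inr ⟨s1, b, s2, b1⟩⟩
  choose ρ r1 r2 using h1
  have h2 : ∀ s t, r s t → c (ρ s) = c (ρ t) → ∃ b, lab (ρ s) b ∧ lab t b := fun s t k l => by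
    have a : r (ρ s) t := (r2 s).elim (fun a => a.symm ▸ k) fun a => T.tr _ _ _ a.1 k
    rcases r2 t with m | ⟨m, b, b1, b2⟩
    · exact absurd l (hc _ (r1 s) _ (r1 t) (m.symm ▸ a))
    rcases T.lin _ _ _ a m with n | n | n
    exacts [⟨b, n ▸ b1, b2⟩, absurd l (hc _ (r1 s) _ (r1 t) n),
      absurd l.symm (hc _ (r1 t) _ (r1 s) n)]
  refine ⟨fun t => c (ρ t), fun s t u a1 a2 a3 a4 => ?_⟩
  obtain ⟨b, b1, b2⟩ := h2 s t a1 a3
  obtain ⟨d, d1, d2⟩ := h2 s u a2 a4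
  obtain rfl := l1 b1 d1
  exact (eq_or_ne t u).imp_right fun k => b.2.1.1 b2.1 d2.1 k

end Pool.Agent.H57.Kd
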