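import Pool.Agent.H57.KuD

set_option autoImplicit false

/-! Projective classes on the generalized Baire space of `ω₁`. -/

namespace Pool.Agent.H57.Kd

open Set Cardinal Order Filter Topology Pool.Agent.H57.Lots Pool.Agent.H57.Coh Pool.Agent.H57.Aro

/-- The generalized Baire space `ω₁^ω₁`. -/
def Ba : Type := W1 → W1

/-- The bounded topology. -/
instance : TopologicalSpace Ba :=
  .generateFrom {U | ∃ (α : W1) (s : Iio α → W1), U = {f : Ba | ∀ ξ : Iio α, f ξ = s ξ}}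

/-- `Π¹₁` sets. -/
def Pi11 {Y : Type} [TopologicalSpace Y] (A : Set Y) : Prop :=
  ∃ B : Set (Y × Ba), IsOpen B ∧ ∀ x, x ∈ A ↔ ∀ g, (x, g) ∈ B

/-- `Σ¹₂` sets. -/
def Sigma12 (A : Set Ba) : Prop := ∃ P : Set (Ba × Ba), Pi11 P ∧ ∀ x, x ∈ A ↔ ∃ g, (x, g) ∈ P

theorem lc_res (α : W1) : IsLocallyConstant fun (g : Ba) (ξ : Iio α) => g ξ :=
  IsLocallyConstant.iff_isOpen_fiber.2 fun s =>
    TopologicalSpace.isOpen_generateFrom_of_mem ⟨α, s, Set.ext fun _ => funext_iff⟩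

theorem lc_app {Z : Type} [TopologicalSpace Z] {F : Z → Ba} (hF : Continuous F) {t : Z → W1}
    (ht : IsLocallyConstant t) : IsLocallyConstant fun z => F z (t z) :=
  (IsLocallyConstant.iff_eventually_eq _).2 fun z => by
    obtain ⟨α, k⟩ := exists_gt (t z)
    filter_upwards [ht.eventually_eq z, ((lc_res α).comp_continuous hF).eventually_eq z] with y a b
    rw [a]
    exact congrFun b ⟨t z, k⟩

theorem lc_cl {Z Y : Type} [TopologicalSpace Z] {f : Z → Y} (h : IsLocallyConstant f)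
    (P : Y → Prop) : IsClosed {z | P (f z)} := ⟨h {y | ¬ P y}⟩

theorem cont_comp (j : W1 → W1) : @Continuous Ba Ba _ _ fun g ξ => g (j ξ) := by
  refine continuous_generateFrom_iff.2 ?_
  rintro _ ⟨α, s, rfl⟩
  obtain ⟨β, k⟩ := bdd ((Iio_countable α).image j)
  exact lc_res β {u | ∀ ξ : Iio α, u ⟨j ξ, k ⟨ξ, ξ.2, rfl⟩⟩ = s ξ}

theorem nbhd {O : Set Ba} (h : IsOpen O) : ∀ x ∈ O, ∃ α, ∀ y : Ba, (∀ ξ < α, y ξ = x ξ) → y ∈ O := by
  induction h with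
  | basic s hs =>
    obtain ⟨α, s, rfl⟩ := hs
    exact fun x hx => ⟨α, fun y k ξ => (k _ ξ.2).trans (hx ξ)⟩
  | univ => exact fun _ _ => ⟨Classical.arbitrary _, fun _ _ => trivial⟩
  | inter s t _ _ i1 i2 =>
    intro x hx
    obtain ⟨a, a1⟩ := i1 x hx.1
    obtain ⟨b, b1⟩ := i2 x hx.2
    exact ⟨max a b, fun y k => ⟨a1 y fun ξ l => k ξ (lt_max_of_lt_left l),
      b1 y fun ξ l => k ξ (lt_max_of_lt_right l)⟩⟩
  | sUnion S _ ih =>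
    rintro x ⟨s, s1, s2⟩
    obtain ⟨a, a1⟩ := ih s s1 x s2
    exact ⟨a, fun y k => ⟨s, s1, a1 y k⟩⟩

theorem pi_cl {C : Set (Ba × Ba)} (hC : IsClosed C) : Pi11 C := by
  obtain ⟨o⟩ : Nonempty W1 := inferInstance
  refine ⟨⋃ α, {z | z.2 o = α} ∩ {z | ∃ y ∈ C, (fun ξ : Iio α => y.1 ξ) = (fun ξ : Iio α => z.1.1 ξ) ∧
    (fun ξ : Iio α => y.2 ξ) = fun ξ : Iio α => z.1.2 ξ}, isOpen_iUnion fun α => IsOpen.inter
      (lc_app continuous_snd (.const o) {α})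
      ((((lc_res α).comp_continuous continuous_fst.fst).prodMk
        ((lc_res α).comp_continuous continuous_fst.snd))
          {u | ∃ y ∈ C, (fun ξ : Iio α => y.1 ξ) = u.1 ∧ (fun ξ : Iio α => y.2 ξ) = u.2}),
    fun x => ⟨fun h g => mem_iUnion.2 ⟨_, rfl, x, h, rfl, rfl⟩, fun h => by_contra fun k => ?_⟩⟩
  obtain ⟨u, v, h1, h2, h3, h4, h5⟩ := isOpen_prod_iff.1 hC.isOpen_compl x.1 x.2 k
  obtain ⟨a, a1⟩ := nbhd h1 _ h3
  obtain ⟨b, b1⟩ := nbhd h2 _ h4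
  obtain ⟨_, rfl, y, y1, y2, y3⟩ := mem_iUnion.1 (h fun _ => max a b)
  exact h5 (mk_mem_prod (a1 y.1 fun ξ l => congrFun y2 ⟨ξ, lt_max_of_lt_left l⟩)
    (b1 y.2 fun ξ l => congrFun y3 ⟨ξ, lt_max_of_lt_right l⟩)) y1

/-- projections of closed sets -/
def Sg (P : Ba → Prop) : Prop := ∃ C : Set (Ba × Ba), IsClosed C ∧ ∀ x, P x ↔ ∃ g, (x, g) ∈ C

theorem Sg.of {P Q : Ba → Prop} (h : Sg P) (k : ∀ x, Q x ↔ P x) : Sg Q :=
  let ⟨C, h1, h2⟩ := h; ⟨C, h1, fun x => (k x).trans (h2 x)⟩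

theorem sg_cl {P : Ba → Prop} (h : IsClosed {x | P x}) : Sg P :=
  ⟨_, h.preimage continuous_fst, fun x => ⟨fun k => ⟨x, k⟩, fun ⟨_, k⟩ => k⟩⟩

theorem pairing : ∃ π : W1 × W1 → W1, ∀ G : W1 → Ba, ∃ h : Ba, ∀ α, (fun ξ => h (π (α, ξ))) = G α := by
  obtain ⟨π⟩ : Nonempty (W1 × W1 ≃ W1) := Cardinal.eq.1 (by simp [mk_W1])
  exact ⟨π, fun G => ⟨fun η => G (π.symm η).1 (π.symm η).2, fun α => funext fun ξ => by simp⟩⟩

theorem two : ∃ a b : W1, a ≠ b :=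
  let ⟨a⟩ : Nonempty W1 := inferInstance; let ⟨b, h⟩ := exists_gt a; ⟨a, b, h.ne⟩

theorem sg_all {P : W1 → Ba → Prop} (h : ∀ α, Sg (P α)) : Sg fun x => ∀ α, P α x := by
  obtain ⟨π, hπ⟩ := pairing
  choose C c1 c2 using h
  refine ⟨⋂ α, (fun z => (z.1, (fun ξ => z.2 (π (α, ξ)) : Ba))) ⁻¹' C α, isClosed_iInter fun α =>
    (c1 α).preimage (continuous_fst.prodMk ((cont_comp _).comp continuous_snd)),
    fun x => ⟨fun k => ?_, fun ⟨g, k⟩ α => (c2 α x).2 ⟨_, mem_iInter.1 k α⟩⟩⟩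
  choose G hG using fun α => (c2 α x).1 (k α)
  obtain ⟨g, hg⟩ := hπ G
  exact ⟨g, mem_iInter.2 fun α => show (x, fun ξ => g (π (α, ξ))) ∈ C α from hg α ▸ hG α⟩

theorem sg_ex {P : W1 → Ba → Prop} (h : ∀ α, Sg (P α)) : Sg fun x => ∃ α, P α x := by
  classical
  obtain ⟨π, hπ⟩ := pairing
  obtain ⟨a, b, ab⟩ := two
  choose C c1 c2 using h
  refine ⟨⋂ α, {z | z.2 (π (a, a)) ≠ α} ∪ (fun z => (z.1, (fun ξ => z.2 (π (b, ξ)) : Ba))) ⁻¹' C α,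
    isClosed_iInter fun α => (lc_cl (lc_app continuous_snd (.const _)) (· ≠ α)).union
    ((c1 α).preimage (continuous_fst.prodMk ((cont_comp _).comp continuous_snd))),
    fun x => ⟨fun ⟨α, k⟩ => ?_, fun ⟨g, k⟩ => ⟨_, (c2 _ x).2
      ⟨_, (mem_iInter.1 k (g (π (a, a)))).resolve_left fun l => l rfl⟩⟩⟩⟩
  obtain ⟨G, hG⟩ := (c2 α x).1 k
  obtain ⟨g, hg⟩ := hπ fun i => if i = a then fun _ => α else G
  refine ⟨g, mem_iInter.2 fun β => (em _).symm.imp id fun l : g (π (a, a)) = β => ?_⟩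
  have l1 := (hg a).trans (if_pos rfl)
  have l2 := (hg b).trans (if_neg ab.symm)
  obtain rfl : α = β := (congrFun l1 a).symm.trans l
  exact show (x, fun ξ => g (π (b, ξ))) ∈ C α from l2 ▸ hG

theorem Sg.and {P Q : Ba → Prop} (h1 : Sg P) (h2 : Sg Q) : Sg fun x => P x ∧ Q x := by
  classical
  obtain ⟨a, b, ab⟩ := two
  refine (sg_all (P := fun α => if α = a then P else Q) fun α => by split_ifs <;> assumption).of
    fun x => ⟨fun k α => ?_, fun k => ⟨by simpa using k a, by simpa [ab.symm] using k b⟩⟩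
  split_ifs
  exacts [k.1, k.2]

theorem Sg.or {P Q : Ba → Prop} (h1 : Sg P) (h2 : Sg Q) : Sg fun x => P x ∨ Q x := by
  classical
  obtain ⟨a, b, ab⟩ := two
  refine (sg_ex (P := fun α => if α = a then P else Q) fun α => by split_ifs <;> assumption).of
    fun x => ⟨fun k => k.elim (fun k => ⟨a, by simpa using k⟩)
      fun k => ⟨b, by simpa [ab.symm] using k⟩, fun ⟨α, k⟩ => ?_⟩
  split_ifs at k
  exacts [Or.inl k, Or.inr k]

theorem sg_c (p : Prop) : Sg fun _ => p := sg_cl (lc_cl (.const ()) fun _ => p)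

theorem delta {P Q : Ba → Prop} (h1 : Sg P) (h2 : Sg Q) :
    Sigma12 {x | P x ∧ ¬ Q x} ∧ Sigma12 {x | P x ∧ ¬ Q x}ᶜ := by
  classical
  obtain ⟨C, c1, c2⟩ := h1
  obtain ⟨D, d1, d2⟩ := h2
  obtain ⟨C', c3, c4⟩ := pi_cl c1
  obtain ⟨D', d3, d4⟩ := pi_cl d1
  obtain ⟨π, hπ⟩ := pairing
  obtain ⟨a, b, ab⟩ := two
  refine ⟨⟨{z | z ∈ C ∧ ¬ Q z.1}, ⟨C' ∩ (fun z => (z.1.1, z.2)) ⁻¹' Dᶜ, c3.inter
    (d1.isOpen_compl.preimage (continuous_fst.fst.prodMk continuous_snd)), fun z =>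
      ⟨fun k g => ⟨(c4 z).1 k.1 g, fun l => k.2 ((d2 _).2 ⟨g, l⟩)⟩, fun k =>
        ⟨(c4 z).2 fun g => (k g).1, fun l => let ⟨g, m⟩ := (d2 _).1 l; (k g).2 m⟩⟩⟩, fun x =>
      ⟨fun k => let ⟨g, m⟩ := (c2 x).1 k.1; ⟨g, m, k.2⟩, fun ⟨g, m, k⟩ => ⟨(c2 x).2 ⟨g, m⟩, k⟩⟩⟩,
    ⟨{z | ¬ P z.1 ∨ z ∈ D}, ⟨(fun z => (z.1.1, (fun ξ => z.2 (π (a, ξ)) : Ba))) ⁻¹' Cᶜ ∪
      (fun z => (z.1, (fun ξ => z.2 (π (b, ξ)) : Ba))) ⁻¹' D', (c1.isOpen_compl.preimage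
        (continuous_fst.fst.prodMk ((cont_comp _).comp continuous_snd))).union (d3.preimage
        (continuous_fst.prodMk ((cont_comp _).comp continuous_snd))), fun z =>
      ⟨fun k g => k.imp (fun k l => k ((c2 _).2 ⟨_, l⟩)) fun k => (d4 z).1 k _,
        fun k => by_contra fun l => ?_⟩⟩, fun x => ⟨fun k => ?_, fun ⟨g, k⟩ l =>
          k.elim (fun k => k l.1) fun k => l.2 ((d2 x).2 ⟨g, k⟩)⟩⟩⟩
  · obtain ⟨l1, l2⟩ := not_or.1 l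
    obtain ⟨g1, m1⟩ := (c2 _).1 (not_not.1 l1)
    obtain ⟨g2, m2⟩ := not_forall.1 fun m => l2 ((d4 z).2 m)
    obtain ⟨g, hg⟩ := hπ fun i => if i = a then g1 else g2
    have l1 := (hg a).trans (if_pos rfl)
    have l2 := (hg b).trans (if_neg ab.symm)
    rcases k g with k | k
    · exact k (show (z.1, fun ξ => g (π (a, ξ))) ∈ C from l1 ▸ m1)
    · exact m2 (l2 ▸ k)
  · by_cases l : P x
    · obtain ⟨g, m⟩ := (d2 x).1 (by_contra fun m => k ⟨l, m⟩)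
      exact ⟨g, Or.inr m⟩
    · exact ⟨x, Or.inl l⟩

end Pool.Agent.H57.Kd
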