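import Pool.Agent.H57.KuE

set_option autoImplicit false

namespace Pool.Agent.H57.Kd

open Set Cardinal Order Filter Topology Pool.Agent.H57.Lots Pool.Agent.H57.Coh Pool.Agent.H57.Aro

section
variable (r : W1 → W1 → Prop)

/-- `t` has height `α`: its predecessors are enumerated increasingly by the ordinals below `α`. -/
def Ht (t α : W1) : Prop :=
  ∃ e : W1 → W1, (∀ ξ < α, ∀ η < α, r (e ξ) (e η) ↔ ξ < η) ∧ ∀ s, r s t ↔ ∃ ξ : Iio α, e ξ = s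

/-- `u` is an immediate successor of `t`. -/
def Imm (t u : W1) : Prop := r t u ∧ ∀ w, r t w → ¬ r w u

/-- `r` is the strict order of a regular `ℵ₁`-tree on `ω₁`. -/
structure RegTree : Prop where
  irr : ∀ a, ¬ r a a
  tr : ∀ a b c, r a b → r b c → r a c
  ht : ∀ t, ∃ α, Ht r t α
  ne : ∀ α, ∃ t, Ht r t α
  lev : ∀ α, {t | Ht r t α}.Countable
  root : ∃ ρ, ∀ t, t = ρ ∨ r ρ t
  succ : ∀ t, ∃ u v, u ≠ v ∧ Imm r t u ∧ Imm r t v
  pr : ∀ t α β, Ht r t α → α < β → ∃ u, r t u ∧ Ht r u β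

end

variable {r : W1 → W1 → Prop}

theorem ht_le {t α β : W1} (h1 : Ht r t α) (h2 : Ht r t β) : α ≤ β := not_lt.1 fun l => by
  obtain ⟨e, e1, e2⟩ := h1
  obtain ⟨f, f1, f2⟩ := h2
  choose φ hφ using fun ξ : Iio α => (f2 _).1 ((e2 _).2 ⟨ξ, rfl⟩)
  have k : StrictMono fun x : Iio α => (⟨φ x, (φ x).2.trans l⟩ : Iio α) := fun x y a =>
    (f1 _ (φ x).2 _ (φ y).2).1 (by rw [hφ, hφ]; exact (e1 _ x.2 _ y.2).2 a)
  exact (φ _).2.not_ge (k.le_apply (x := ⟨β, l⟩))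

theorem RegTree.tr0 (h : RegTree r) : Tr0 r := by
  refine ⟨h.irr, h.tr, fun s s' t a b => ?_, fun t => ?_, fun t P ⟨s, a, b⟩ => ?_⟩ <;>
    obtain ⟨α, e, e1, e2⟩ := h.ht t
  · obtain ⟨ξ, rfl⟩ := (e2 _).1 a
    obtain ⟨η, rfl⟩ := (e2 _).1 b
    rcases lt_trichotomy ξ η with k | rfl | k
    exacts [Or.inr (Or.inl ((e1 _ ξ.2 _ η.2).2 k)), Or.inl rfl,
      Or.inr (Or.inr ((e1 _ η.2 _ ξ.2).2 k))]
  · refine ((Iio_countable α).image e).mono fun s k => ?_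
    obtain ⟨ξ, l⟩ := (e2 s).1 k
    exact ⟨ξ, ξ.2, l⟩
  · obtain ⟨ξ, rfl⟩ := (e2 _).1 a
    obtain ⟨η, k1, k2⟩ := exists_min (S := {η | η < α ∧ P (e η)}) ⟨ξ, ξ.2, b⟩
    have k3 := (e2 _).2 ⟨⟨η, k1.1⟩, rfl⟩
    refine ⟨e η, k3, k1.2, fun s l m => ?_⟩
    obtain ⟨ζ, rfl⟩ := (e2 _).1 (h.tr _ _ _ l k3)
    exact (k2 ζ ⟨ζ.2, m⟩).not_gt ((e1 _ ζ.2 _ k1.1).1 l)

theorem reg_iff : RegTree r ↔ (∀ a, ¬ r a a) ∧ (∀ a b c, ¬ r a b ∨ ¬ r b c ∨ r a c) ∧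
    (∀ α, ∃ t, Ht r t α) ∧ (∀ α, ∃ γ, ∀ t, t < γ ∨ ∃ β, β ≠ α ∧ Ht r t β) ∧
    (∃ ρ, ∀ t, t = ρ ∨ r ρ t) ∧ (∀ t, ∃ u v, u ≠ v ∧ (r t u ∧ ∀ w, ¬ r t w ∨ ¬ r w u) ∧
      r t v ∧ ∀ w, ¬ r t w ∨ ¬ r w v) ∧
    ∀ t, ∃ α, Ht r t α ∧ ∀ β, ¬ α < β ∨ ∃ u, r t u ∧ Ht r u β := by
  simp only [← imp_iff_not_or]
  refine ⟨fun h => ⟨h.irr, h.tr, h.ne, fun α => ?_, h.root, h.succ, fun t =>
    let ⟨α, k⟩ := h.ht t; ⟨α, k, fun β => h.pr t α β k⟩⟩, fun ⟨h1, h2, h3, h4, h5, h6, h7⟩ =>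
    ⟨h1, h2, fun t => (h7 t).imp fun _ k => k.1, h3, fun α => ?_, h5, h6, fun t α β a b => ?_⟩⟩
  · obtain ⟨γ, k⟩ := bdd (h.lev α)
    refine ⟨γ, fun t => ?_⟩
    obtain ⟨β, l⟩ := h.ht t
    rcases eq_or_ne β α with rfl | m
    exacts [Or.inl (k l), Or.inr ⟨β, m, l⟩]
  · obtain ⟨γ, k⟩ := h4 α
    exact (Iio_countable γ).mono fun t l => (k t).resolve_right fun ⟨β, m, n⟩ =>
      m ((ht_le n l).antisymm (ht_le l n))
  · obtain ⟨α', k1, k2⟩ := h7 t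
    exact k2 β ((ht_le k1 a).trans_lt b)

theorem cl_all {Z : Type} [TopologicalSpace Z] {ι : Sort*} {P : ι → Z → Prop}
    (h : ∀ i, IsClosed {z | P i z}) : IsClosed {z | ∀ i, P i z} := by
  rw [setOf_forall]; exact isClosed_iInter h

theorem sg_ht (π : W1 × W1 → W1) (o t α : W1) : Sg fun x => Ht (fun s t => x (π (s, t)) = o) t α :=
  ⟨{z | (∀ ξ < α, ∀ η < α, z.1 (π (z.2 ξ, z.2 η)) = o ↔ ξ < η) ∧
    ∀ s, z.1 (π (s, t)) = o ↔ ∃ ξ : Iio α, z.2 ξ = s}, IsClosed.inter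
      (cl_all fun ξ => cl_all fun _ => cl_all fun η => cl_all fun _ => lc_cl (lc_app continuous_fst
        (((lc_app continuous_snd (.const ξ)).prodMk (lc_app continuous_snd (.const η))).comp π))
          fun y => y = o ↔ ξ < η)
      (cl_all fun s => lc_cl ((lc_app continuous_fst (.const (π (s, t)))).prodMk
        ((lc_res α).comp_continuous continuous_snd)) fun y => y.1 = o ↔ ∃ ξ, y.2 ξ = s),
    fun _ => Iff.rfl⟩

theorem sg_reg (π : W1 × W1 → W1) (o : W1) : Sg fun x => RegTree fun s t => x (π (s, t)) = o := by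
  have a : ∀ s t, Sg fun x => x (π (s, t)) = o := fun s t =>
    sg_cl (lc_cl (lc_app continuous_id (.const _)) (· = o))
  have n : ∀ s t, Sg fun x => ¬ x (π (s, t)) = o := fun s t =>
    sg_cl (lc_cl (lc_app continuous_id (.const _)) (¬ · = o))
  have h := sg_ht π o
  have i : ∀ t u, Sg fun x => x (π (t, u)) = o ∧ ∀ w, ¬ x (π (t, w)) = o ∨ ¬ x (π (w, u)) = o :=
    fun t u => (a t u).and (sg_all fun w => (n t w).or (n w u))
  exact ((sg_all fun s => n s s).and ((sg_all fun s => sg_all fun t => sg_all fun u =>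
    (n s t).or ((n t u).or (a s u))).and ((sg_all fun α => sg_ex fun t => h t α).and
    ((sg_all fun α => sg_ex fun γ => sg_all fun t => (sg_c _).or
      (sg_ex fun β => (sg_c _).and (h t β))).and
    ((sg_ex fun ρ => sg_all fun t => (sg_c _).or (a ρ t)).and
    ((sg_all fun t => sg_ex fun u => sg_ex fun v => (sg_c _).and ((i t u).and (i t v))).and
    (sg_all fun t => sg_ex fun α => (h t α).and (sg_all fun β => (sg_c _).or
      (sg_ex fun u => (a t u).and (h u β)))))))))).of fun _ => reg_iff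

theorem sg_ws (π : W1 × W1 → W1) (o : W1) (N : Set W1) :
    Sg fun x => ∃ f : W1 → W1, (∀ s, f s ∈ N) ∧ WS (fun s t => x (π (s, t)) = o) f := by
  have a : ∀ s, IsLocallyConstant fun z : Ba × Ba => z.1 s := fun s =>
    lc_app continuous_fst (.const s)
  have b : ∀ s, IsLocallyConstant fun z : Ba × Ba => z.2 s := fun s =>
    lc_app continuous_snd (.const s)
  exact ⟨{z | (∀ s, z.2 s ∈ N) ∧ WS (fun s t => z.1 (π (s, t)) = o) z.2}, IsClosed.inter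
    (cl_all fun s => lc_cl (b s) (· ∈ N)) (cl_all fun s => cl_all fun t => cl_all fun u =>
      lc_cl ((((a (π (s, t))).prodMk (a (π (s, u)))).prodMk ((a (π (t, u))).prodMk
        (a (π (u, t))))).prodMk ((b s).prodMk ((b t).prodMk (b u)))) fun y => y.1.1.1 = o →
          y.1.1.2 = o → y.2.1 = y.2.2.1 → y.2.1 = y.2.2.2 → t = u ∨ y.1.2.1 = o ∨ y.1.2.2 = o),
    fun _ => Iff.rfl⟩

end Pool.Agent.H57.Kd
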