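import Mathlib

set_option autoImplicit false

namespace Pool.Agent.H57.Lots

open Set Cardinal Order

/-- order embeddings preserving existing suprema and infima of nonempty sets -/
def Emb {A B : Type} [LinearOrder A] [LinearOrder B] (f : A → B) : Prop :=
  StrictMono f ∧ (∀ (s : Set A) (a : A), s.Nonempty → IsLUB s a → IsLUB (f '' s) (f a)) ∧
    (∀ (s : Set A) (a : A), s.Nonempty → IsGLB s a → IsGLB (f '' s) (f a))

theorem Emb.comp {A B C : Type} [LinearOrder A] [LinearOrder B] [LinearOrder C] {f : A → B}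
    {g : B → C} (hg : Emb g) (hf : Emb f) : Emb (g ∘ f) :=
  ⟨hg.1.comp hf.1,
    fun s a hs ha => by rw [image_comp]; exact hg.2.1 _ _ (hs.image f) (hf.2.1 s a hs ha),
    fun s a hs ha => by rw [image_comp]; exact hg.2.2 _ _ (hs.image f) (hf.2.2 s a hs ha)⟩

theorem Emb.dual {A B : Type} [LinearOrder A] [LinearOrder B] {f : Aᵒᵈ → B} (hf : Emb f) :
    Emb (A := A) (B := Bᵒᵈ) f :=
  ⟨fun _ _ h => hf.1 h, fun s a hs ha => hf.2.2 s a hs ha, fun s a hs ha => hf.2.1 s a hs ha⟩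

/-- a strictly monotone map with convex range is an `Emb` -/
theorem emb_of_convex {A B : Type} [LinearOrder A] [LinearOrder B] {f : A → B} (hf : StrictMono f)
    (hc : ∀ a a' : A, ∀ x : B, f a ≤ x → x ≤ f a' → ∃ c, f c = x) : Emb f := by
  refine ⟨hf, fun s a hs ha => ⟨?_, ?_⟩, fun s a hs ha => ⟨?_, ?_⟩⟩
  · rintro _ ⟨x, hx, rfl⟩; exact hf.monotone (ha.1 hx)
  · intro x hx
    by_contra h
    obtain ⟨c, hc'⟩ := hs
    obtain ⟨d, rfl⟩ := hc c a x (hx ⟨c, hc', rfl⟩) (not_le.1 h).le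
    exact h (hf.monotone (ha.2 fun y hy => hf.le_iff_le.1 (hx ⟨y, hy, rfl⟩)))
  · rintro _ ⟨x, hx, rfl⟩; exact hf.monotone (ha.1 hx)
  · intro x hx
    by_contra h
    obtain ⟨c, hc'⟩ := hs
    obtain ⟨d, rfl⟩ := hc a c x (not_le.1 h).le (hx ⟨c, hc', rfl⟩)
    exact h (hf.monotone (ha.2 fun y hy => hf.le_iff_le.1 (hx ⟨y, hy, rfl⟩)))

/-- a linear order with a least element -/
structure Lab where
  C : Type
  lo : LinearOrder C
  b : C
  hb : ∀ x, lo.le b x

instance (B : Lab) : LinearOrder B.C := B.lo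

def Real' (B : Lab) {U : Type} [LinearOrder U] (u : U) : Prop :=
  ∃ f : B.C → U, Emb f ∧ f B.b = u

noncomputable def Seq {W : Type} [LinearOrder W] (g : W → Lab) : Lab where
  C := (WithTop (Σₗ a, (g a).C))ᵒᵈ
  lo := inferInstance
  b := OrderDual.toDual ⊤
  hb := fun x => (le_top : OrderDual.ofDual x ≤ ⊤)

theorem mk_Seq {W : Type} [LinearOrder W] (g : W → Lab) (k : Cardinal) (hk : ℵ₀ ≤ k)
    (hW : #W ≤ k) (hg : ∀ a, #(g a).C ≤ k) : #(Seq g).C ≤ k := by
  have h1 : #(Seq g).C = #(Option (Σ a, (g a).C)) := rfl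
  rw [h1, mk_option, mk_sigma]
  refine add_le_of_le hk ?_ (one_le_aleph0.trans hk)
  refine (sum_le_sum _ (fun _ => k) hg).trans ?_
  rw [sum_const']
  exact mul_le_of_le hk hW le_rfl

def Cont {W V : Type} [LinearOrder W] [LinearOrder V] (y : W → V) (u : V) : Prop :=
  StrictMono y ∧ (∀ (s : Set W) (a : W), s.Nonempty → IsLUB s a → IsLUB (y '' s) (y a)) ∧
    IsLUB (range y) u

theorem sig_le {W : Type} [LinearOrder W] (g : W → Lab) {a c : W} (x : (g c).C) (h : a ≤ c) :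
    (toLex ⟨a, (g a).b⟩ : Σₗ a, (g a).C) ≤ toLex ⟨c, x⟩ := by
  rcases h.lt_or_eq with h | rfl
  · exact Sigma.Lex.left _ _ h
  · exact Sigma.Lex.right _ _ ((g a).hb x)

theorem sig_fst {W : Type} [LinearOrder W] (g : W → Lab) {a c : W} {x : (g a).C} {y : (g c).C}
    (h : (toLex ⟨a, x⟩ : Σₗ a, (g a).C) ≤ toLex ⟨c, y⟩) : a ≤ c := by
  cases h with
  | left _ _ h => exact h.le
  | right _ _ _ => exact le_rfl

theorem real_seq {W : Type} [LinearOrder W] [Nonempty W] [NoMaxOrder W] (g : W → Lab) {U : Type}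
    [LinearOrder U] (u : U) (h : Real' (Seq g) u) :
    ∃ y : W → Uᵒᵈ, Cont y (OrderDual.toDual u) ∧ ∀ a, Real' (g a) (y a) := by
  obtain ⟨f0, hf, hfu0⟩ := h
  obtain ⟨f, hf', hfu⟩ : ∃ f : WithTop (Σₗ a, (g a).C) → Uᵒᵈ, Emb f ∧ f ⊤ = OrderDual.toDual u :=
    ⟨f0, Emb.dual hf, hfu0⟩
  let p : W → WithTop (Σₗ a, (g a).C) := fun a => ((toLex ⟨a, (g a).b⟩ : Σₗ a, (g a).C) : WithTop _)
  have hp : StrictMono p := fun a c h => WithTop.coe_lt_coe.2 (Sigma.Lex.left _ _ h)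
  refine ⟨fun a => f (p a), ⟨hf'.1.comp hp, fun s a hs ha => ?_, ?_⟩, fun a => ?_⟩
  · have h1 : IsLUB (p '' s) (p a) := by
      refine ⟨?_, ?_⟩
      · rintro _ ⟨x, hx, rfl⟩; exact hp.monotone (ha.1 hx)
      · intro x hx
        induction x using WithTop.recTopCoe with
        | top => exact le_top
        | coe x =>
          obtain ⟨c, x⟩ := x
          refine WithTop.coe_le_coe.2 (sig_le g x (ha.2 fun y hy => ?_))
          exact sig_fst g (WithTop.coe_le_coe.1 (hx ⟨y, hy, rfl⟩))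
    have h2 := hf'.2.1 _ _ (hs.image p) h1
    rwa [image_image] at h2
  · have h1 : IsLUB (range p) ⊤ := by
      refine ⟨fun _ _ => le_top, fun x hx => ?_⟩
      induction x using WithTop.recTopCoe with
      | top => exact le_rfl
      | coe x =>
        obtain ⟨c, x⟩ := x
        obtain ⟨d, hd⟩ := exists_gt c
        exact absurd (sig_fst g (WithTop.coe_le_coe.1 (hx ⟨d, rfl⟩))) (not_le.2 hd)
    have h2 := hf'.2.1 _ _ (range_nonempty p) h1
    rw [← range_comp, hfu] at h2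
    exact h2
  · let i : (g a).C → WithTop (Σₗ a, (g a).C) :=
      fun x => ((toLex ⟨a, x⟩ : Σₗ a, (g a).C) : WithTop _)
    have hi : Emb i := by
      refine emb_of_convex (fun x y h => WithTop.coe_lt_coe.2 (Sigma.Lex.right _ _ h)) ?_
      intro x y z h1 h2
      induction z using WithTop.recTopCoe with
      | top => exact absurd h2 (not_le.2 (WithTop.coe_lt_top _))
      | coe z =>
        obtain ⟨c, z⟩ := z
        have h3 := sig_fst g (WithTop.coe_le_coe.1 h1)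
        have h4 := sig_fst g (WithTop.coe_le_coe.1 h2)
        obtain rfl : a = c := le_antisymm h3 h4
        exact ⟨z, rfl⟩
    exact ⟨_, hf'.comp hi, rfl⟩

theorem Cont.lt {W V : Type} [LinearOrder W] [LinearOrder V] [NoMaxOrder W] {y : W → V} {u : V}
    (h : Cont y u) (a : W) : y a < u := by
  obtain ⟨c, hc⟩ := exists_gt a
  exact (h.1 hc).trans_le (h.2.2.1 ⟨c, rfl⟩)

theorem Cont.exists_gt {W V : Type} [LinearOrder W] [LinearOrder V] {y : W → V} {u : V}
    (h : Cont y u) {v : V} (hv : v < u) : ∃ a, v < y a := by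
  by_contra hcon
  push Not at hcon
  exact absurd (h.2.2.2 (by rintro _ ⟨a, rfl⟩; exact hcon a)) (not_le.2 hv)

theorem bdd_seq {W : Type} [LinearOrder W] (hW : ℵ₀ < cof W) (a : ℕ → W) : BddAbove (range a) := by
  refine .of_not_isCofinal fun hg => (cof_le hg).not_gt (hW.trans_le' ?_)
  simpa using mk_range_le (f := a)

theorem agree {W V : Type} [LinearOrder W] [WellFoundedLT W] [NoMaxOrder W] [LinearOrder V]
    (hW : ℵ₀ < cof W) {y z : W → V} {u : V} (hy : Cont y u) (hz : Cont z u) :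
    IsClub {a | y a = z a} := by
  refine ⟨fun s hs hs0 _ a ha => ?_, fun a => ?_⟩
  · have h1 := hy.2.1 s a hs0 ha
    have h2 := hz.2.1 s a hs0 ha
    rw [image_congr (g := z) hs] at h1
    exact h1.unique h2
  · have step : ∀ c : W, ∃ d, c ≤ d ∧ z c ≤ y d ∧ y c ≤ z d := by
      intro c
      obtain ⟨d1, h1⟩ := hy.exists_gt (hz.lt c)
      obtain ⟨d2, h2⟩ := hz.exists_gt (hy.lt c)
      exact ⟨max c (max d1 d2), le_max_left _ _,
        h1.le.trans (hy.1.monotone ((le_max_left _ _).trans (le_max_right _ _))),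
        h2.le.trans (hz.1.monotone ((le_max_right _ _).trans (le_max_right _ _)))⟩
    choose nx h1 h2 h3 using step
    let sq : ℕ → W := fun n => nx^[n] a
    have hsq : ∀ n, sq (n + 1) = nx (sq n) := fun n => Function.iterate_succ_apply' _ _ _
    obtain ⟨l, hl⟩ : ∃ l, IsLUB (range sq) l :=
      ⟨_, (wellFounded_lt.min_mem _ (bdd_seq hW sq)),
        fun x hx => wellFounded_lt.min_le hx⟩
    refine ⟨l, ?_, hl.1 ⟨0, rfl⟩⟩
    have e1 := hy.2.1 _ _ (range_nonempty sq) hl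
    have e2 := hz.2.1 _ _ (range_nonempty sq) hl
    refine le_antisymm (e1.2 ?_) (e2.2 ?_)
    · rintro _ ⟨_, ⟨n, rfl⟩, rfl⟩
      exact (h3 _).trans (e2.1 ⟨_, ⟨n + 1, hsq n⟩, rfl⟩)
    · rintro _ ⟨_, ⟨n, rfl⟩, rfl⟩
      exact (h2 _).trans (e1.1 ⟨_, ⟨n + 1, hsq n⟩, rfl⟩)

/-- every small set of points of a linear order omits some label of bounded size -/
def D (l k : Cardinal.{0}) : Prop :=
  ∀ (U : Type) [LinearOrder U] (S : Set U), #S ≤ l → ∃ B : Lab, #B.C ≤ k ∧ ∀ u ∈ S, ¬ Real' B u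

theorem D.mono {l k l' k' : Cardinal.{0}} (h : D l k) (h1 : l' ≤ l) (h2 : k ≤ k') : D l' k' :=
  fun U _ S hS => by
    obtain ⟨B, hB, hB'⟩ := h U S (hS.trans h1)
    exact ⟨B, hB.trans h2, hB'⟩

theorem kill {W : Type} [LinearOrder W] [WellFoundedLT W] [NoMaxOrder W] [Nonempty W]
    (hW : ℵ₀ < cof W) (k : Cardinal.{0}) (hk : ℵ₀ ≤ k) (hWk : #W ≤ k) {U : Type} [LinearOrder U]
    (S : Set U) (K : W → Set U) (hK : ∀ u ∈ S, IsStationary {a | u ∈ K a})
    (hD : ∀ a, D #(K a) k) : ∃ B : Lab, #B.C ≤ k ∧ ∀ u ∈ S, ¬ Real' B u := by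
  classical
  let z : U → W → Uᵒᵈ := fun u =>
    if h : ∃ y : W → Uᵒᵈ, Cont y (OrderDual.toDual u) then h.choose else fun _ => OrderDual.toDual u
  have h1 : ∀ a, ∃ B : Lab, #B.C ≤ k ∧ ∀ v ∈ (fun u => z u a) '' K a, ¬ Real' B v := fun a =>
    hD a Uᵒᵈ _ mk_image_le
  choose g hg1 hg2 using h1
  refine ⟨Seq g, mk_Seq g k hk hWk hg1, fun u hu hr => ?_⟩
  obtain ⟨y, hy, hy'⟩ := real_seq g u hr
  have hex : ∃ y : W → Uᵒᵈ, Cont y (OrderDual.toDual u) := ⟨y, hy⟩
  have hz : Cont (z u) (OrderDual.toDual u) := by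
    simp only [z, dif_pos hex]; exact hex.choose_spec
  obtain ⟨a, ha1, ha2⟩ := hK u hu (agree hW hy hz)
  exact hg2 a (y a) ⟨u, ha1, (ha2 : y a = z u a).symm⟩ (hy' a)

end Pool.Agent.H57.Lots
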