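import Pool.Agent.H57.Lots1

set_option autoImplicit false

namespace Pool.Agent.H57.Lots

open Set Cardinal Order

abbrev W1 : Type := (ℵ₁ : Cardinal.{0}).ord.ToType

instance : NoMaxOrder W1 := Cardinal.noMaxOrder aleph0_lt_aleph_one.le

theorem mk_W1 : #W1 = ℵ₁ := mk_ord_toType _

instance : Nonempty W1 := by
  rw [← mk_ne_zero_iff, mk_W1]
  exact (aleph0_pos.trans aleph0_lt_aleph_one).ne'

theorem cof_W1 : ℵ₀ < cof W1 := by
  rw [Ordinal.cof_toType, isRegular_aleph_one.cof_ord]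
  exact aleph0_lt_aleph_one

theorem stat_Ici {W : Type} [LinearOrder W] [NoMaxOrder W] (a : W) {s : Set W} (h : Ici a ⊆ s) :
    IsStationary s := fun t ht => by
  obtain ⟨b, hb, hb'⟩ := ht.isCofinal a
  exact ⟨b, h hb', hb⟩

theorem club_Ici {W : Type} [LinearOrder W] (a : W) : IsClub (Ici a) :=
  ⟨fun _ hs hs0 _ _ ha => by
    obtain ⟨x, hx⟩ := hs0
    exact le_trans (hs hx) (ha.1 hx),
   fun x => ⟨max a x, le_max_left _ _, le_max_right _ _⟩⟩

theorem split (S : Set W1) (hS : IsStationary S) :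
    ∃ T, T ⊆ S ∧ IsStationary T ∧ IsStationary (S \ T) := by
  by_contra hcon
  push Not at hcon
  obtain ⟨e⟩ : Nonempty (W1 ↪ Set ℕ) := by
    rw [← Cardinal.le_def, mk_W1, mk_set_nat]
    exact aleph_one_le_continuum
  have h1 : ∀ n : ℕ, ∃ b : Prop, ¬ IsStationary (S ∩ {a | ¬ (n ∈ e a ↔ b)}) := by
    intro n
    by_cases h : IsStationary (S ∩ {a | n ∈ e a})
    · refine ⟨True, fun h2 => hcon _ inter_subset_left h (h2.mono ?_)⟩
      intro a ha
      exact ⟨ha.1, fun h3 => ha.2 (by simpa using h3.2)⟩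
    · exact ⟨False, fun h2 => h (h2.mono fun a ha => ⟨ha.1, by simpa using ha.2⟩)⟩
  choose b hb using h1
  have h2 : S ⊆ (⋃ n, S ∩ {a | ¬ (n ∈ e a ↔ b n)}) ∪ {a | e a = {n | b n}} := by
    intro a ha
    by_cases h : ∀ n, n ∈ e a ↔ b n
    · exact Or.inr (Set.ext h)
    · obtain ⟨n, hn⟩ := not_forall.1 h
      exact Or.inl (mem_iUnion.2 ⟨n, ha, hn⟩)
  rcases (isStationary_union_iff cof_W1.ne').1 (hS.mono h2) with h | h
  · obtain ⟨n, hn⟩ := (isStationary_iUnion_iff_of_countable cof_W1.ne').1 h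
    exact hb n hn
  · obtain ⟨a, ha⟩ := h.nonempty
    obtain ⟨c, hc⟩ := exists_gt a
    obtain ⟨d, hd1, hd2⟩ := h (club_Ici c)
    have : d = a := e.injective (hd1.trans ha.symm)
    exact absurd (hc.trans_le hd2) (by rw [this]; exact lt_irrefl _)

theorem colouring : ∃ c : W1 → ℕ, ∀ n, IsStationary {a | c a = n} := by
  classical
  choose T hT1 hT2 hT3 using split
  let S : ℕ → {S : Set W1 // IsStationary S} := fun n =>
    Nat.rec ⟨univ, IsStationary.univ⟩ (fun _ p => ⟨T p.1 p.2, hT2 p.1 p.2⟩) n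
  have hS : ∀ n, (S (n + 1)).1 = T (S n).1 (S n).2 := fun n => rfl
  have hanti : Antitone fun n => (S n).1 :=
    antitone_nat_of_succ_le fun n => by rw [hS]; exact hT1 _ _
  refine ⟨fun a => if h : ∃ n, a ∉ (S (n + 1)).1 then Nat.find h else 0, fun n => ?_⟩
  refine (hT3 (S n).1 (S n).2).mono fun a ha => ?_
  have h : ∃ n, a ∉ (S (n + 1)).1 := ⟨n, ha.2⟩
  simp only [mem_setOf_eq, dif_pos h]
  rw [Nat.find_eq_iff]
  exact ⟨ha.2, fun m hm => not_not.2 (hanti (by omega : m + 1 ≤ n) ha.1)⟩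

theorem kill_seq (k : Cardinal.{0}) (hk : ℵ₁ ≤ k) {U : Type} [LinearOrder U] (S : Set U)
    (K : ℕ → Set U) (hK : ∀ u ∈ S, ∃ n, u ∈ K n) (hD : ∀ n, D #(K n) k) :
    ∃ B : Lab, #B.C ≤ k ∧ ∀ u ∈ S, ¬ Real' B u := by
  obtain ⟨c, hc⟩ := colouring
  refine kill cof_W1 k (aleph0_lt_aleph_one.le.trans hk) (mk_W1.trans_le hk) S (fun a => K (c a))
    (fun u hu => ?_) fun a => hD _
  obtain ⟨n, hn⟩ := hK u hu
  exact (hc n).mono fun a ha => by
    simp only [mem_setOf_eq] at ha ⊢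
    rw [ha]; exact hn

def unitLab : Lab := ⟨Unit, inferInstance, (), fun _ => le_rfl⟩

theorem D_one : D 1 ℵ₁ := by
  intro U _ S hS
  have hu : #(unitLab.C) ≤ ℵ₁ := by
    have : #(unitLab.C) = 1 := mk_unit
    rw [this]; exact one_le_aleph0.trans aleph0_lt_aleph_one.le
  by_cases h : ∀ u ∈ S, ¬ Real' (Seq fun _ : ℕ => unitLab) u
  · exact ⟨_, mk_Seq _ _ aleph0_lt_aleph_one.le (by simpa using aleph0_lt_aleph_one.le)
      fun _ => hu, h⟩
  · push Not at h
    obtain ⟨u, hu1, hu2⟩ := h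
    refine ⟨Seq fun _ : W1 => unitLab, mk_Seq _ _ aleph0_lt_aleph_one.le mk_W1.le fun _ => hu,
      fun v hv hr => ?_⟩
    obtain rfl : v = u := (le_one_iff_subsingleton.1 hS).elim ⟨v, hv⟩ ⟨u, hu1⟩ |> congrArg Subtype.val
    obtain ⟨y, hy, -⟩ := real_seq _ v hu2
    obtain ⟨z, hz, -⟩ := real_seq _ v hr
    choose a ha using fun n => hz.exists_gt (hy.lt n)
    obtain ⟨b, hb⟩ := bdd_seq cof_W1 a
    refine absurd (hy.2.2.2 ?_) (not_le.2 (hz.lt b))
    rintro _ ⟨n, rfl⟩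
    exact (ha n).le.trans (hz.1.monotone (hb ⟨n, rfl⟩))

theorem D_all (l : Cardinal.{0}) : D l (max l ℵ₁) := by
  induction l using WellFoundedLT.induction with
  | ind l ih =>
  intro U _ S hS
  rcases le_or_gt l ℵ₀ with hl | hl
  · have hc : S.Countable := le_aleph0_iff_set_countable.1 (hS.trans hl)
    obtain ⟨e, he⟩ := Set.countable_iff_exists_injOn.1 hc
    refine kill_seq _ (le_max_right _ _) S (fun n => {u ∈ S | e u = n}) (fun u hu => ⟨_, hu, rfl⟩)
      fun n => D_one.mono ?_ (le_max_right _ _)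
    exact le_one_iff_subsingleton.2
      ⟨fun a b => Subtype.ext (he a.2.1 b.2.1 (a.2.2.trans b.2.2.symm))⟩
  · haveI : NoMaxOrder l.ord.ToType := Cardinal.noMaxOrder hl.le
    haveI : Nonempty l.ord.ToType := by
      rw [← mk_ne_zero_iff, mk_ord_toType]
      exact (aleph0_pos.trans hl).ne'
    obtain ⟨e⟩ : Nonempty (S ↪ l.ord.ToType) := by
      rw [← Cardinal.le_def, mk_ord_toType]; exact hS
    let K : l.ord.ToType → Set U := fun a => {u | ∃ h : u ∈ S, e ⟨u, h⟩ < a}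
    have hK : ∀ a, D #(K a) (max l ℵ₁) := by
      intro a
      have h1 : #(K a) ≤ #(Iio a) :=
        mk_le_of_injective (f := fun u => ⟨e ⟨u.1, u.2.fst⟩, u.2.snd⟩) fun u v h =>
          Subtype.ext (congrArg Subtype.val (e.injective (congrArg Subtype.val h)) :)
      have h2 : #(Iio a) < l := by
        have := mk_Iio_lt a (by simp)
        rwa [mk_ord_toType] at this
      exact (ih _ (h1.trans_lt h2)).mono le_rfl (max_le_max_right _ (h1.trans_lt h2).le)
    rcases lt_or_ge ℵ₀ (cof l.ord.ToType) with hc | hc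
    · refine kill hc _ (hl.le.trans (le_max_left _ _)) ((mk_ord_toType l).trans_le (le_max_left _ _))
        S K (fun u hu => ?_) hK
      obtain ⟨c, hc⟩ := exists_gt (e ⟨u, hu⟩)
      exact stat_Ici c fun a ha => ⟨hu, hc.trans_le ha⟩
    · obtain ⟨s, hs, hs'⟩ := exists_cof_eq l.ord.ToType
      have hcs : s.Countable := le_aleph0_iff_set_countable.1 (hs'.trans_le hc)
      obtain ⟨w, hw⟩ := hcs.exists_eq_range hs.nonempty
      refine kill_seq _ (le_max_right _ _) S (fun n => K (w n)) (fun u hu => ?_) fun n => hK _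
      obtain ⟨c, hc⟩ := exists_gt (e ⟨u, hu⟩)
      obtain ⟨d, hd, hd'⟩ := hs c
      rw [hw] at hd
      obtain ⟨n, rfl⟩ := hd
      exact ⟨n, hu, hc.trans_le hd'⟩

theorem emb_of_continuous {A B : Type} [LinearOrder A] [LinearOrder B] [TopologicalSpace A]
    [TopologicalSpace B] [OrderTopology A] [OrderTopology B] {f : A → B} (h1 : StrictMono f)
    (h2 : Continuous f) : Emb f :=
  ⟨h1, fun s _ hs ha => ha.isLUB_of_tendsto (h1.monotone.monotoneOn s) hs
      h2.continuousWithinAt,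
    fun s _ hs ha => ha.isGLB_of_tendsto (h1.monotone.monotoneOn s) hs h2.continuousWithinAt⟩

theorem exists_not_emb (U : Type) [LinearOrder U] (hU : ℵ₀ < #U) :
    ∃ (L : Type) (_ : LinearOrder L), #L = #U ∧ ∀ f : L → U, ¬ Emb f := by
  obtain ⟨B, hB, hB'⟩ := D_all (#U) U univ (by simp)
  have h1 : ℵ₁ ≤ #U := by rw [← succ_aleph0]; exact succ_le_of_lt hU
  rw [max_eq_left h1] at hB
  refine ⟨B.C ⊕ₗ U, inferInstance, ?_, fun f hf => ?_⟩
  · have : #(B.C ⊕ₗ U) = #(B.C ⊕ U) := rfl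
    rw [this, mk_sum, lift_id, lift_id]
    exact add_eq_right hU.le hB
  · have hi : Emb (fun x : B.C => (toLex (Sum.inl x) : B.C ⊕ₗ U)) := by
      refine emb_of_convex (fun x y h => Sum.Lex.inl_lt_inl_iff.2 h) fun a a' x _ h2 => ?_
      rcases x with x | x
      · exact ⟨x, rfl⟩
      · exact absurd h2 Sum.Lex.not_inr_le_inl
    exact hB' _ (mem_univ _) ⟨_, hf.comp hi, rfl⟩

end Pool.Agent.H57.Lots
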