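import Pool.Agent.H57.MCMain

set_option autoImplicit false

namespace Pool.Agent.H57.MC.MC11203

def c : Cert :=
  { D := 4, ax := 1, ay := 1, A := 57122, K := 16, R := 61, nx0 := 31732, nx1 := 33805,
    ny0 := 31732, ny1 := 33805, m := 11202, j := 2, kc := 3 }

theorem h1 : c.ok1 = true := by decide +kernel
theorem h2 : c.ok2 = true := by decide +kernel
theorem h3 : c.ok3 1 0 91 11203 = true := by decide +kernel
theorem nonMC : ¬ IsMC 11203 := c.not_isMC h1 h2 _ _ _ _ h3 (by decide) (by decide)
theorem mc : IsMCCircle c.m c.a0 c.b0 c.rho := c.isMCCircle h1 h2 (by decide)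

end Pool.Agent.H57.MC.MC11203
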