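import Pool.Agent.H57.MCMain

set_option autoImplicit false

namespace Pool.Agent.H57.MC.MC2289

def c : Cert :=
  { D := 2, ax := 1, ay := 0, A := 2925, K := 16, R := 29, nx0 := 61163, nx1 := 69910,
    ny0 := -4373, ny1 := 4374, m := 2286, j := 4, kc := 1 }

theorem h1 : c.ok1 = true := by decide +kernel
theorem h2 : c.ok2 = true := by decide +kernel
theorem h3 : c.ok3 1 1 51 2289 = true := by decide +kernel
theorem nonMC : ¬ IsMC 2289 := c.not_isMC h1 h2 _ _ _ _ h3 (by decide) (by decide)
theorem mc : IsMCCircle c.m c.a0 c.b0 c.rho := c.isMCCircle h1 h2 (by decide)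

end Pool.Agent.H57.MC.MC2289
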