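import Mathlib

set_option autoImplicit false

namespace Pool.Agent.H57.MC

/-- The lattice points in the open disc with centre `(a, b)` and radius `r`. -/
def inside (a b r : ℝ) : Set (ℤ × ℤ) :=
  {p | ((p.1 : ℝ) - a) ^ 2 + ((p.2 : ℝ) - b) ^ 2 < r ^ 2}

/-- The lattice points on the circle with centre `(a, b)` and radius `r`. -/
def onCircle (a b r : ℝ) : Set (ℤ × ℤ) :=
  {p | ((p.1 : ℝ) - a) ^ 2 + ((p.2 : ℝ) - b) ^ 2 = r ^ 2}

/-- The circle with centre `(a, b)` and radius `r > 0` encloses exactly `n` lattice points. -/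
def Encloses (n : ℕ) (a b r : ℝ) : Prop :=
  0 < r ∧ (inside a b r).ncard = n

/-- The circle with centre `(a, b)` and radius `r` is a largest `n`-enclosing circle. -/
def IsMCCircle (n : ℕ) (a b r : ℝ) : Prop :=
  Encloses n a b r ∧ ∀ a' b' r' : ℝ, Encloses n a' b' r' → r' ≤ r

/-- `n` is an MC number: a largest `n`-enclosing circle exists. -/
def IsMC (n : ℕ) : Prop :=
  ∃ a b r : ℝ, IsMCCircle n a b r

/-- `n` is a strong MC number: `n` is MC and `n + 1` is not. -/
def IsStrong (n : ℕ) : Prop :=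
  IsMC n ∧ ¬ IsMC (n + 1)

end Pool.Agent.H57.MC
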