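import Pool.Agent.H57.MCDefs

set_option autoImplicit false

namespace Pool.Agent.H57.MC

/-! ### finite boxes of lattice points -/

def rng (R : ℕ) : List ℤ := (List.range (2 * R + 1)).map fun i : ℕ => (i : ℤ) - R

def pts (R : ℕ) : List (ℤ × ℤ) := rng R ×ˢ rng R

lemma rng_nodup (R : ℕ) : (rng R).Nodup := by
  refine List.Nodup.map ?_ List.nodup_range
  intro a b h
  simpa using h

lemma mem_rng (R : ℕ) (x : ℤ) : x ∈ rng R ↔ |x| ≤ R := by
  simp only [rng, List.mem_map, List.mem_range, abs_le]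
  constructor
  · rintro ⟨i, hi, rfl⟩; omega
  · rintro ⟨h1, h2⟩; exact ⟨(x + R).toNat, by omega, by omega⟩

lemma pts_nodup (R : ℕ) : (pts R).Nodup := (rng_nodup R).product (rng_nodup R)

lemma mem_pts (R : ℕ) (p : ℤ × ℤ) : p ∈ pts R ↔ |p.1| ≤ R ∧ |p.2| ≤ R := by
  obtain ⟨x, y⟩ := p
  simp [pts, mem_rng]

lemma ncard_eq_countP (R : ℕ) (P : ℤ × ℤ → Bool) (S : Set (ℤ × ℤ))
    (hS : ∀ p, p ∈ S ↔ P p = true) (hb : ∀ p ∈ S, |p.1| ≤ R ∧ |p.2| ≤ R) :
    S.ncard = (pts R).countP P := by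
  classical
  have h1 : S = ((pts R).filter P).toFinset := by
    ext p
    simp only [List.coe_toFinset, List.mem_filter, Set.mem_ofPred_eq, mem_pts]
    exact ⟨fun h => ⟨hb p h, (hS p).1 h⟩, fun h => (hS p).2 h.2⟩
  rw [h1, Set.ncard_coe_finset, List.toFinset_card_of_nodup ((pts_nodup R).filter _),
    List.countP_eq_length_filter]

lemma countP_le_ncard (L : List (ℤ × ℤ)) (hL : L.Nodup) (P : ℤ × ℤ → Bool) (S : Set (ℤ × ℤ))
    (hfin : S.Finite) (hS : ∀ p, P p = true → p ∈ S) : L.countP P ≤ S.ncard := by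
  classical
  rw [List.countP_eq_length_filter, ← List.toFinset_card_of_nodup (hL.filter _),
    ← Set.ncard_coe_finset]
  refine Set.ncard_le_ncard ?_ hfin
  intro p hp
  simp only [List.coe_toFinset, List.mem_filter, Set.mem_ofPred_eq] at hp
  exact hS p hp.2

lemma finite_inside (a b r : ℝ) : (inside a b r).Finite := by
  obtain ⟨R, hR⟩ := exists_nat_ge (|a| + |b| + |r|)
  refine (List.finite_toSet (pts R)).subset ?_
  intro p hp
  simp only [inside, Set.mem_ofPred_eq] at hp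
  simp only [Set.mem_ofPred_eq, mem_pts]
  have h1 : |(p.1 : ℝ) - a| ≤ |r| := sq_le_sq.1 (by nlinarith [sq_nonneg ((p.2 : ℝ) - b)])
  have h2 : |(p.2 : ℝ) - b| ≤ |r| := sq_le_sq.1 (by nlinarith [sq_nonneg ((p.1 : ℝ) - a)])
  have h3 : |(p.1 : ℝ)| ≤ R := by
    have := abs_add_le ((p.1 : ℝ) - a) a
    rw [sub_add_cancel] at this
    linarith [abs_nonneg b]
  have h4 : |(p.2 : ℝ)| ≤ R := by
    have := abs_add_le ((p.2 : ℝ) - b) b
    rw [sub_add_cancel] at this
    linarith [abs_nonneg a]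
  exact ⟨by exact_mod_cast h3, by exact_mod_cast h4⟩

lemma inside_mono (a b : ℝ) {r s : ℝ} (h : r ^ 2 ≤ s ^ 2) :
    (inside a b r).ncard ≤ (inside a b s).ncard :=
  Set.ncard_le_ncard (fun _ hp => lt_of_lt_of_le hp h) (finite_inside a b s)

/-! ### symmetry reduction -/

lemma ncard_of_equiv (e : ℤ × ℤ ≃ ℤ × ℤ) (S T : Set (ℤ × ℤ)) (h : ∀ p, p ∈ S ↔ e p ∈ T) :
    S.ncard = T.ncard := by
  have : S = e ⁻¹' T := by ext p; exact h p
  rw [this, Set.ncard_preimage_of_injective_subset_range e.injective (by simp)]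

lemma sym_shift (a b r : ℝ) (k l : ℤ) :
    (inside a b r).ncard = (inside (a - k) (b - l) r).ncard := by
  refine ncard_of_equiv (Equiv.subRight (k, l)) _ _ fun p => ?_
  simp only [inside, Set.mem_ofPred_eq, Equiv.subRight_apply, Prod.fst_sub, Prod.snd_sub]
  push_cast
  ring_nf

lemma sym_negx (a b r : ℝ) : (inside a b r).ncard = (inside (-a) b r).ncard := by
  refine ncard_of_equiv ((Equiv.neg ℤ).prodCongr (Equiv.refl ℤ)) _ _ fun p => ?_
  simp only [inside, Set.mem_ofPred_eq, Equiv.prodCongr_apply, Prod.map_fst, Prod.map_snd,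
    Equiv.neg_apply, Equiv.refl_apply]
  push_cast
  ring_nf

lemma sym_swap (a b r : ℝ) : (inside a b r).ncard = (inside b a r).ncard := by
  refine ncard_of_equiv (Equiv.prodComm ℤ ℤ) _ _ fun p => ?_
  simp only [inside, Set.mem_ofPred_eq, Equiv.prodComm_apply, Prod.fst_swap, Prod.snd_swap]
  rw [add_comm]

lemma sym_absx (a b r : ℝ) : (inside a b r).ncard = (inside |a| b r).ncard := by
  rcases abs_choice a with h | h <;> rw [h]
  exact sym_negx a b r

lemma reduce (a b : ℝ) : ∃ a' b' : ℝ, 0 ≤ b' ∧ b' ≤ a' ∧ a' ≤ 1 / 2 ∧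
    ∀ r, (inside a b r).ncard = (inside a' b' r).ncard := by
  have h1 := abs_sub_round a
  have h2 := abs_sub_round b
  have key : ∀ r, (inside a b r).ncard = (inside |a - round a| |b - round b| r).ncard := by
    intro r
    rw [sym_shift a b r (round a) (round b), sym_absx, sym_swap, sym_absx, sym_swap]
  rcases le_total |b - round b| |a - round a| with h | h
  · exact ⟨_, _, abs_nonneg _, h, h1, key⟩
  · exact ⟨_, _, abs_nonneg _, h, h2, fun r => by rw [key, sym_swap]⟩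

/-! ### the box checker -/

lemma countP_split {α : Type} (s t P : α → Bool) (L : List α)
    (hs : ∀ p, s p = true → P p = true) :
    L.countP s + (L.filter fun p => !s p && t p).countP P ≤ L.countP P := by
  induction L with
  | nil => simp
  | cons x L ih =>
    have := hs x
    cases h1 : s x <;> cases h2 : t x <;> cases h3 : P x <;>
      simp_all <;> omega

/-- `p` lies in every open disc of squared radius `T / (DD * S ^ 2)` centred in the box. -/
def sure (S DD T x0 x1 y0 y1 : ℤ) (p : ℤ × ℤ) : Bool :=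
  decide (DD * (max ((p.1 * S - x0) * (p.1 * S - x0)) ((p.1 * S - x1) * (p.1 * S - x1)) +
    max ((p.2 * S - y0) * (p.2 * S - y0)) ((p.2 * S - y1) * (p.2 * S - y1))) < T)

def gap (u x0 x1 : ℤ) : ℤ := max (max (x0 - u) (u - x1)) 0

def near (S DD T x0 x1 y0 y1 : ℤ) (p : ℤ × ℤ) : Bool :=
  decide (DD * (gap (p.1 * S) x0 x1 * gap (p.1 * S) x0 x1 +
    gap (p.2 * S) y0 y1 * gap (p.2 * S) y0 y1) < T)

open Classical in
noncomputable def inB (S DD T : ℤ) (X Y : ℝ) (p : ℤ × ℤ) : Bool :=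
  decide ((DD : ℝ) * (((p.1 : ℝ) * S - X) ^ 2 + ((p.2 : ℝ) * S - Y) ^ 2) < T)

lemma sq_le_max (u x0 x1 : ℤ) (X : ℝ) (h0 : (x0 : ℝ) ≤ X) (h1 : X ≤ x1) :
    ((u : ℝ) - X) ^ 2 ≤ ((max ((u - x0) * (u - x0)) ((u - x1) * (u - x1)) : ℤ) : ℝ) := by
  push_cast
  rcases le_total (u : ℝ) X with h | h
  · exact le_trans (by nlinarith) (le_max_right _ _)
  · exact le_trans (by nlinarith) (le_max_left _ _)

lemma sure_sound (S DD T x0 x1 y0 y1 : ℤ) (hD : 0 ≤ DD) (X Y : ℝ)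
    (hx0 : (x0 : ℝ) ≤ X) (hx1 : X ≤ x1) (hy0 : (y0 : ℝ) ≤ Y) (hy1 : Y ≤ y1) (p : ℤ × ℤ)
    (h : sure S DD T x0 x1 y0 y1 p = true) : inB S DD T X Y p = true := by
  simp only [sure, decide_eq_true_eq] at h
  simp only [inB, decide_eq_true_eq]
  have h1 := sq_le_max (p.1 * S) x0 x1 X hx0 hx1
  have h2 := sq_le_max (p.2 * S) y0 y1 Y hy0 hy1
  have h3 : ((DD * (max ((p.1 * S - x0) * (p.1 * S - x0)) ((p.1 * S - x1) * (p.1 * S - x1)) +
    max ((p.2 * S - y0) * (p.2 * S - y0)) ((p.2 * S - y1) * (p.2 * S - y1))) : ℤ) : ℝ) < T := by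
    exact_mod_cast h
  have hD' : (0 : ℝ) ≤ DD := by exact_mod_cast hD
  rw [Int.cast_mul, Int.cast_add] at h3
  rw [Int.cast_mul] at h1 h2
  exact lt_of_le_of_lt (mul_le_mul_of_nonneg_left (add_le_add h1 h2) hD') h3

def skip (nx0 nx1 ny0 ny1 x0 y0 w : ℤ) : Bool :=
  decide (x0 + w < y0) ||
    (decide (nx0 ≤ x0) && decide (x0 + w ≤ nx1) && decide (ny0 ≤ y0) && decide (y0 + w ≤ ny1))

def check (S DD T nx0 nx1 ny0 ny1 : ℤ) : ℕ → ℤ → ℤ → ℕ → List (ℤ × ℤ) → Bool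
  | 0, x0, y0, need, L =>
      skip nx0 nx1 ny0 ny1 x0 y0 1 ||
        decide (need ≤ L.countP (sure S DD T x0 (x0 + 1) y0 (y0 + 1)))
  | k + 1, x0, y0, need, L =>
      skip nx0 nx1 ny0 ny1 x0 y0 (2 ^ (k + 1)) ||
        (let c := L.countP (sure S DD T x0 (x0 + 2 ^ (k + 1)) y0 (y0 + 2 ^ (k + 1)))
         decide (need ≤ c) ||
          (let L2 := L.filter fun p =>
              !sure S DD T x0 (x0 + 2 ^ (k + 1)) y0 (y0 + 2 ^ (k + 1)) p &&
                near S DD T x0 (x0 + 2 ^ (k + 1)) y0 (y0 + 2 ^ (k + 1)) p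
           check S DD T nx0 nx1 ny0 ny1 k x0 y0 (need - c) L2 &&
           check S DD T nx0 nx1 ny0 ny1 k (x0 + 2 ^ k) y0 (need - c) L2 &&
           check S DD T nx0 nx1 ny0 ny1 k x0 (y0 + 2 ^ k) (need - c) L2 &&
           check S DD T nx0 nx1 ny0 ny1 k (x0 + 2 ^ k) (y0 + 2 ^ k) (need - c) L2))

lemma skip_sound (nx0 nx1 ny0 ny1 x0 y0 w : ℤ) (X Y : ℝ)
    (hx0 : (x0 : ℝ) ≤ X) (hx1 : X ≤ x0 + w) (hy0 : (y0 : ℝ) ≤ Y) (hy1 : Y ≤ y0 + w) (hXY : Y ≤ X)
    (h : skip nx0 nx1 ny0 ny1 x0 y0 w = true) :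
    (nx0 : ℝ) ≤ X ∧ X ≤ nx1 ∧ (ny0 : ℝ) ≤ Y ∧ Y ≤ ny1 := by
  simp only [skip, Bool.or_eq_true, decide_eq_true_eq, Bool.and_eq_true] at h
  rcases h with h | ⟨⟨⟨a, b⟩, c⟩, d⟩
  · have : (x0 : ℝ) + w < y0 := by exact_mod_cast h
    linarith
  · have a' : (nx0 : ℝ) ≤ x0 := by exact_mod_cast a
    have b' : (x0 : ℝ) + w ≤ nx1 := by exact_mod_cast b
    have c' : (ny0 : ℝ) ≤ y0 := by exact_mod_cast c
    have d' : (y0 : ℝ) + w ≤ ny1 := by exact_mod_cast d
    exact ⟨by linarith, by linarith, by linarith, by linarith⟩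

lemma check_sound (S DD T nx0 nx1 ny0 ny1 : ℤ) (hD : 0 ≤ DD) (X Y : ℝ) (hXY : Y ≤ X) :
    ∀ (k : ℕ) (x0 y0 : ℤ) (need : ℕ) (L : List (ℤ × ℤ)),
      check S DD T nx0 nx1 ny0 ny1 k x0 y0 need L = true →
      (x0 : ℝ) ≤ X → X ≤ x0 + 2 ^ k → (y0 : ℝ) ≤ Y → Y ≤ y0 + 2 ^ k →
      ((nx0 : ℝ) ≤ X ∧ X ≤ nx1 ∧ (ny0 : ℝ) ≤ Y ∧ Y ≤ ny1) ∨
        need ≤ L.countP (inB S DD T X Y) := by
  intro k
  induction k with
  | zero =>
    intro x0 y0 need L h a b c d
    simp only [check, Bool.or_eq_true, decide_eq_true_eq] at h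
    rcases h with h | h
    · exact Or.inl (skip_sound _ _ _ _ _ _ _ X Y a (by simpa using b) c (by simpa using d) hXY h)
    · refine Or.inr (h.trans (List.countP_mono_left fun p _ hp => ?_))
      exact sure_sound S DD T _ _ _ _ hD X Y a (by simpa using b) c (by simpa using d) p hp
  | succ k ih =>
    intro x0 y0 need L h a b c d
    simp only [check, Bool.or_eq_true, decide_eq_true_eq, Bool.and_eq_true] at h
    have hs : ∀ p, sure S DD T x0 (x0 + 2 ^ (k + 1)) y0 (y0 + 2 ^ (k + 1)) p = true →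
        inB S DD T X Y p = true := fun p hp =>
      sure_sound S DD T _ _ _ _ hD X Y a (by simpa using b) c (by simpa using d) p hp
    have hsp := countP_split _ (near S DD T x0 (x0 + 2 ^ (k + 1)) y0 (y0 + 2 ^ (k + 1))) _ L hs
    rcases h with h | h | ⟨⟨⟨h1, h2⟩, h3⟩, h4⟩
    · exact Or.inl (skip_sound _ _ _ _ _ _ _ X Y a (by simpa using b) c (by simpa using d) hXY h)
    · exact Or.inr (by omega)
    · rw [pow_succ] at b d
      rcases le_total X (x0 + 2 ^ k) with e | e <;> rcases le_total Y (y0 + 2 ^ k) with f | f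
      · exact (ih _ _ _ _ h1 a e c f).imp_right fun t => by omega
      · exact (ih _ _ _ _ h3 a e (by push_cast; exact f) (by push_cast; linarith)).imp_right
          fun t => by omega
      · exact (ih _ _ _ _ h2 (by push_cast; exact e) (by push_cast; linarith) c f).imp_right
          fun t => by omega
      · exact (ih _ _ _ _ h4 (by push_cast; exact e) (by push_cast; linarith)
          (by push_cast; exact f) (by push_cast; linarith)).imp_right fun t => by omega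

/-! ### the cone checker near the special centre -/

def okCone (D ax ay d1x d1y d2x d2y : ℤ) (p : ℤ × ℤ) : Bool :=
  decide (|d1x| + |d1y| ≤ (D * p.1 - ax) * d1x + (D * p.2 - ay) * d1y) &&
  decide (|d2x| + |d2y| ≤ (D * p.1 - ax) * d2x + (D * p.2 - ay) * d2y)

def cone (D ax ay : ℤ) (j : ℕ) (B : List (ℤ × ℤ)) : ℕ → ℤ → ℤ → ℤ → ℤ → Bool
  | 0, d1x, d1y, d2x, d2y => decide (j ≤ B.countP (okCone D ax ay d1x d1y d2x d2y))
  | k + 1, d1x, d1y, d2x, d2y => decide (j ≤ B.countP (okCone D ax ay d1x d1y d2x d2y)) ||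
      (cone D ax ay j B k d1x d1y (d1x + d2x) (d1y + d2y) &&
        cone D ax ay j B k (d1x + d2x) (d1y + d2y) d2x d2y)

open Classical in
noncomputable def fwd (D ax ay : ℤ) (u v : ℝ) (p : ℤ × ℤ) : Bool :=
  decide (|u| + |v| ≤ ((D : ℝ) * p.1 - ax) * u + ((D : ℝ) * p.2 - ay) * v)

lemma okCone_sound (D ax ay d1x d1y d2x d2y : ℤ) (s t : ℝ) (hs : 0 ≤ s) (ht : 0 ≤ t) (p : ℤ × ℤ)
    (h : okCone D ax ay d1x d1y d2x d2y p = true) :
    fwd D ax ay (s * d1x + t * d2x) (s * d1y + t * d2y) p = true := by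
  simp only [okCone, Bool.and_eq_true, decide_eq_true_eq] at h
  simp only [fwd, decide_eq_true_eq]
  obtain ⟨h1, h2⟩ := h
  have h1' : |(d1x : ℝ)| + |(d1y : ℝ)| ≤ ((D : ℝ) * p.1 - ax) * d1x + ((D : ℝ) * p.2 - ay) * d1y := by
    exact_mod_cast h1
  have h2' : |(d2x : ℝ)| + |(d2y : ℝ)| ≤ ((D : ℝ) * p.1 - ax) * d2x + ((D : ℝ) * p.2 - ay) * d2y := by
    exact_mod_cast h2
  have a1 := abs_add_le (s * d1x) (t * d2x)
  have a2 := abs_add_le (s * d1y) (t * d2y)
  rw [abs_mul, abs_mul, abs_of_nonneg hs, abs_of_nonneg ht] at a1 a2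
  have b1 := mul_le_mul_of_nonneg_left h1' hs
  have b2 := mul_le_mul_of_nonneg_left h2' ht
  nlinarith

lemma cone_sound (D ax ay : ℤ) (j : ℕ) (B : List (ℤ × ℤ)) :
    ∀ (k : ℕ) (d1x d1y d2x d2y : ℤ), cone D ax ay j B k d1x d1y d2x d2y = true →
      ∀ s t : ℝ, 0 ≤ s → 0 ≤ t →
        j ≤ B.countP (fwd D ax ay (s * d1x + t * d2x) (s * d1y + t * d2y)) := by
  intro k
  induction k with
  | zero =>
    intro d1x d1y d2x d2y h s t hs ht
    simp only [cone, decide_eq_true_eq] at h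
    exact h.trans (List.countP_mono_left fun p _ hp => okCone_sound _ _ _ _ _ _ _ s t hs ht p hp)
  | succ k ih =>
    intro d1x d1y d2x d2y h s t hs ht
    simp only [cone, Bool.or_eq_true, decide_eq_true_eq, Bool.and_eq_true] at h
    rcases h with h | ⟨h1, h2⟩
    · exact h.trans (List.countP_mono_left fun p _ hp => okCone_sound _ _ _ _ _ _ _ s t hs ht p hp)
    · rcases le_total t s with e | e
      · have := ih _ _ _ _ h1 (s - t) t (by linarith) ht
        push_cast at this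
        convert this using 3 <;> ring
      · have := ih _ _ _ _ h2 s (t - s) hs (by linarith)
        push_cast at this
        convert this using 3 <;> ring

def cones (D ax ay : ℤ) (j : ℕ) (B : List (ℤ × ℤ)) (k : ℕ) : Bool :=
  cone D ax ay j B k 1 0 0 1 && cone D ax ay j B k (-1) 0 0 1 &&
    cone D ax ay j B k 1 0 0 (-1) && cone D ax ay j B k (-1) 0 0 (-1)

lemma cones_sound (D ax ay : ℤ) (j : ℕ) (B : List (ℤ × ℤ)) (k : ℕ)
    (h : cones D ax ay j B k = true) (u v : ℝ) : j ≤ B.countP (fwd D ax ay u v) := by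
  simp only [cones, Bool.and_eq_true] at h
  obtain ⟨⟨⟨h1, h2⟩, h3⟩, h4⟩ := h
  rcases le_total 0 u with a | a <;> rcases le_total 0 v with b | b
  · simpa using cone_sound _ _ _ _ _ _ _ _ _ _ h1 u v a b
  · simpa using cone_sound _ _ _ _ _ _ _ _ _ _ h3 u (-v) a (by linarith)
  · simpa using cone_sound _ _ _ _ _ _ _ _ _ _ h2 (-u) v (by linarith) b
  · simpa using cone_sound _ _ _ _ _ _ _ _ _ _ h4 (-u) (-v) (by linarith) (by linarith)

end Pool.Agent.H57.MC
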