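import Pool.Agent.H57.MCLib

set_option autoImplicit false

namespace Pool.Agent.H57.MC

def nrm (D ax ay : ℤ) (p : ℤ × ℤ) : ℤ :=
  (D * p.1 - ax) * (D * p.1 - ax) + (D * p.2 - ay) * (D * p.2 - ay)

structure Cert where
  D : ℤ
  ax : ℤ
  ay : ℤ
  A : ℤ
  K : ℕ
  R : ℕ
  nx0 : ℤ
  nx1 : ℤ
  ny0 : ℤ
  ny1 : ℤ
  m : ℕ
  j : ℕ
  kc : ℕ

namespace Cert

def S (c : Cert) : ℤ := 2 ^ (c.K + 1)

def sureN (c : Cert) : ℤ × ℤ → Bool :=
  sure c.S (c.D * c.D) (c.A * (c.S * c.S)) c.nx0 c.nx1 c.ny0 c.ny1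

def ok1 (c : Cert) : Bool :=
  check c.S (c.D * c.D) (c.A * (c.S * c.S)) c.nx0 c.nx1 c.ny0 c.ny1 c.K 0 0 (c.m + c.j) (pts c.R)

def ok2 (c : Cert) : Bool :=
  decide (0 < c.D) && decide (0 < c.A) && decide (0 ≤ c.ax) && decide (c.ax ≤ c.D) &&
  decide (0 ≤ c.ay) && decide (c.ay ≤ c.D) && decide (1 ≤ c.R) &&
  decide (c.A ≤ (c.D * (c.R - 1)) * (c.D * (c.R - 1))) &&
  decide (c.ax * c.S - c.S ≤ c.D * c.nx0) && decide (c.D * c.nx1 ≤ c.ax * c.S + c.S) &&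
  decide (c.ay * c.S - c.S ≤ c.D * c.ny0) && decide (c.D * c.ny1 ≤ c.ay * c.S + c.S) &&
  decide (c.m ≤ (pts c.R).countP c.sureN) &&
  cones c.D c.ax c.ay c.j
    ((pts c.R).filter fun p => !c.sureN p && decide (nrm c.D c.ax c.ay p = c.A)) c.kc &&
  decide ((pts c.R).countP (fun p => decide (nrm c.D c.ax c.ay p < c.A)) = c.m) &&
  decide (c.m + c.j ≤ (pts c.R).countP fun p => decide (nrm c.D c.ax c.ay p ≤ c.A))

noncomputable def rho (c : Cert) : ℝ := Real.sqrt c.A / c.D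
noncomputable def a0 (c : Cert) : ℝ := (c.ax : ℝ) / c.D
noncomputable def b0 (c : Cert) : ℝ := (c.ay : ℝ) / c.D

end Cert

lemma dist_eq (D ax ay : ℤ) (hD : 0 < D) (p : ℤ × ℤ) :
    ((p.1 : ℝ) - (ax : ℝ) / D) ^ 2 + ((p.2 : ℝ) - (ay : ℝ) / D) ^ 2
      = (nrm D ax ay p : ℝ) / (D : ℝ) ^ 2 := by
  have : (D : ℝ) ≠ 0 := by exact_mod_cast hD.ne'
  simp only [nrm]; push_cast; field_simp

lemma rho_sq (A D : ℤ) (hA : 0 < A) : (Real.sqrt A / D) ^ 2 = (A : ℝ) / (D : ℝ) ^ 2 := by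
  rw [div_pow, Real.sq_sqrt (by exact_mod_cast hA.le)]

lemma box_of_nrm (D ax ay A : ℤ) (R : ℕ) (hD : 0 < D) (h1 : 0 ≤ ax) (h2 : ax ≤ D) (h3 : 0 ≤ ay)
    (h4 : ay ≤ D) (hR : 1 ≤ R) (hA : A ≤ (D * (R - 1)) * (D * (R - 1))) (p : ℤ × ℤ)
    (hp : nrm D ax ay p ≤ A) : |p.1| ≤ R ∧ |p.2| ≤ R := by
  have hR' : (1 : ℤ) ≤ R := by exact_mod_cast hR
  have hpos : 0 ≤ D * ((R : ℤ) - 1) := by positivity
  simp only [nrm] at hp
  have e1 : |D * p.1 - ax| ≤ D * ((R : ℤ) - 1) :=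
    abs_le_of_sq_le_sq' (by nlinarith [mul_self_nonneg (D * p.2 - ay)]) hpos |> abs_le.2
  have e2 : |D * p.2 - ay| ≤ D * ((R : ℤ) - 1) :=
    abs_le_of_sq_le_sq' (by nlinarith [mul_self_nonneg (D * p.1 - ax)]) hpos |> abs_le.2
  rw [abs_le] at e1 e2
  refine ⟨abs_le.2 ⟨?_, ?_⟩, abs_le.2 ⟨?_, ?_⟩⟩ <;>
    (refine le_of_mul_le_mul_left ?_ hD; nlinarith)

namespace Cert

variable (c : Cert)

lemma facts (h2 : c.ok2 = true) :
    0 < c.D ∧ 0 < c.A ∧ 0 ≤ c.ax ∧ c.ax ≤ c.D ∧ 0 ≤ c.ay ∧ c.ay ≤ c.D ∧ 1 ≤ c.R ∧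
    c.A ≤ (c.D * (c.R - 1)) * (c.D * (c.R - 1)) ∧
    c.ax * c.S - c.S ≤ c.D * c.nx0 ∧ c.D * c.nx1 ≤ c.ax * c.S + c.S ∧
    c.ay * c.S - c.S ≤ c.D * c.ny0 ∧ c.D * c.ny1 ≤ c.ay * c.S + c.S ∧
    c.m ≤ (pts c.R).countP c.sureN ∧
    cones c.D c.ax c.ay c.j
      ((pts c.R).filter fun p => !c.sureN p && decide (nrm c.D c.ax c.ay p = c.A)) c.kc = true ∧
    (pts c.R).countP (fun p => decide (nrm c.D c.ax c.ay p < c.A)) = c.m ∧
    c.m + c.j ≤ (pts c.R).countP fun p => decide (nrm c.D c.ax c.ay p ≤ c.A) := by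
  simp only [ok2, Bool.and_eq_true, decide_eq_true_eq] at h2
  tauto

lemma rho_pos (h2 : c.ok2 = true) : 0 < c.rho := by
  obtain ⟨hD, hA, -⟩ := c.facts h2
  have : (0 : ℝ) < c.D := by exact_mod_cast hD
  have : (0 : ℝ) < c.A := by exact_mod_cast hA
  unfold rho; positivity

lemma inB_iff (h2 : c.ok2 = true) (a b : ℝ) (p : ℤ × ℤ) :
    inB c.S (c.D * c.D) (c.A * (c.S * c.S)) (a * c.S) (b * c.S) p = true ↔
      p ∈ inside a b c.rho := by
  obtain ⟨hD, hA, -⟩ := c.facts h2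
  have hD' : (0 : ℝ) < c.D := by exact_mod_cast hD
  have hS : (0 : ℝ) < c.S := by unfold S; positivity
  simp only [inB, decide_eq_true_eq, inside, Set.mem_ofPred_eq, rho, rho_sq _ _ hA]
  rw [lt_div_iff₀ (by positivity)]
  push_cast
  have e : (c.D : ℝ) * c.D * (((p.1 : ℝ) * c.S - a * c.S) ^ 2 + ((p.2 : ℝ) * c.S - b * c.S) ^ 2)
      = (((p.1 : ℝ) - a) ^ 2 + ((p.2 : ℝ) - b) ^ 2) * (c.D : ℝ) ^ 2 * (c.S * c.S) := by ring
  rw [e]
  exact mul_lt_mul_iff_left₀ (by positivity)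

lemma local_count (h2 : c.ok2 = true) (a b : ℝ)
    (hx0 : (c.nx0 : ℝ) ≤ a * c.S) (hx1 : a * c.S ≤ c.nx1)
    (hy0 : (c.ny0 : ℝ) ≤ b * c.S) (hy1 : b * c.S ≤ c.ny1) (hne : ¬ (a = c.a0 ∧ b = c.b0)) :
    c.m + c.j ≤ (pts c.R).countP
      (inB c.S (c.D * c.D) (c.A * (c.S * c.S)) (a * c.S) (b * c.S)) := by
  obtain ⟨hD, hA, -, -, -, -, -, -, n1, n2, n3, n4, hm, hc, -, -⟩ := c.facts h2
  have hD' : (0 : ℝ) < c.D := by exact_mod_cast hD
  have hS : (0 : ℝ) < c.S := by unfold S; positivity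
  have hs : ∀ p, c.sureN p = true →
      inB c.S (c.D * c.D) (c.A * (c.S * c.S)) (a * c.S) (b * c.S) p = true := fun p hp =>
    sure_sound _ _ _ _ _ _ _ (mul_self_nonneg _) _ _ hx0 hx1 hy0 hy1 p hp
  have hsp := countP_split _ (fun p => decide (nrm c.D c.ax c.ay p = c.A)) _ (pts c.R) hs
  set u : ℝ := c.D * a - c.ax with hu
  set v : ℝ := c.D * b - c.ay with hv
  have hj := cones_sound _ _ _ _ _ _ hc u v
  have n1' : (c.ax : ℝ) * c.S - c.S ≤ c.D * c.nx0 := by exact_mod_cast n1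
  have n2' : (c.D : ℝ) * c.nx1 ≤ c.ax * c.S + c.S := by exact_mod_cast n2
  have n3' : (c.ay : ℝ) * c.S - c.S ≤ c.D * c.ny0 := by exact_mod_cast n3
  have n4' : (c.D : ℝ) * c.ny1 ≤ c.ay * c.S + c.S := by exact_mod_cast n4
  have u1 : |u| ≤ 1 := by
    rw [abs_le]; constructor
    · refine le_of_mul_le_mul_right ?_ hS; rw [hu]; nlinarith
    · refine le_of_mul_le_mul_right ?_ hS; rw [hu]; nlinarith
  have v1 : |v| ≤ 1 := by
    rw [abs_le]; constructor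
    · refine le_of_mul_le_mul_right ?_ hS; rw [hv]; nlinarith
    · refine le_of_mul_le_mul_right ?_ hS; rw [hv]; nlinarith
  have hpos : 0 < |u| + |v| := by
    by_contra hcon
    have e1 : |u| = 0 := by linarith [abs_nonneg u, abs_nonneg v]
    have e2 : |v| = 0 := by linarith [abs_nonneg u, abs_nonneg v]
    rw [abs_eq_zero] at e1 e2
    refine hne ⟨?_, ?_⟩
    · unfold a0; field_simp; linarith
    · unfold b0; field_simp; linarith
  have hle : ((pts c.R).filter fun p =>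
        !c.sureN p && decide (nrm c.D c.ax c.ay p = c.A)).countP (fwd c.D c.ax c.ay u v) ≤
      ((pts c.R).filter fun p => !c.sureN p && decide (nrm c.D c.ax c.ay p = c.A)).countP
        (inB c.S (c.D * c.D) (c.A * (c.S * c.S)) (a * c.S) (b * c.S)) := by
    refine List.countP_mono_left fun p hp hf => ?_
    simp only [List.mem_filter, Bool.and_eq_true, decide_eq_true_eq] at hp
    have hn : ((c.D : ℝ) * p.1 - c.ax) * (c.D * p.1 - c.ax) + (c.D * p.2 - c.ay) * (c.D * p.2 - c.ay)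
        = c.A := by
      have := hp.2.2
      simp only [nrm] at this
      exact_mod_cast this
    simp only [fwd, decide_eq_true_eq] at hf
    rw [c.inB_iff h2]
    simp only [inside, Set.mem_ofPred_eq, rho, rho_sq _ _ hA]
    rw [lt_div_iff₀ (by positivity)]
    have q1 : u ^ 2 ≤ |u| := by rw [← sq_abs]; nlinarith [abs_nonneg u]
    have q2 : v ^ 2 ≤ |v| := by rw [← sq_abs]; nlinarith [abs_nonneg v]
    have e : (((p.1 : ℝ) - a) ^ 2 + ((p.2 : ℝ) - b) ^ 2) * (c.D : ℝ) ^ 2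
        = ((c.D : ℝ) * p.1 - c.ax - u) ^ 2 + ((c.D : ℝ) * p.2 - c.ay - v) ^ 2 := by
      rw [hu, hv]; ring
    rw [e]
    nlinarith
  omega

lemma dom_count (h1 : c.ok1 = true) (h2 : c.ok2 = true) (a b : ℝ) (hb : 0 ≤ b) (hba : b ≤ a)
    (ha : a ≤ 1 / 2) : (a = c.a0 ∧ b = c.b0) ∨ c.m + c.j ≤ (inside a b c.rho).ncard := by
  by_cases hne : a = c.a0 ∧ b = c.b0
  · exact Or.inl hne
  right
  have hS : (0 : ℝ) < c.S := by unfold S; positivity
  have hS2 : (c.S : ℝ) = 2 ^ c.K * 2 := by unfold S; push_cast; ring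
  have hk : (0 : ℝ) < 2 ^ c.K := by positivity
  have key := check_sound _ _ _ _ _ _ _ (mul_self_nonneg c.D) (a * c.S) (b * c.S)
    (mul_le_mul_of_nonneg_right hba hS.le) _ _ _ _ _ h1
    (by push_cast; nlinarith) (by push_cast; rw [hS2]; nlinarith)
    (by push_cast; nlinarith) (by push_cast; rw [hS2]; nlinarith)
  have hc : c.m + c.j ≤ (pts c.R).countP
      (inB c.S (c.D * c.D) (c.A * (c.S * c.S)) (a * c.S) (b * c.S)) := by
    rcases key with ⟨e1, e2, e3, e4⟩ | key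
    · exact c.local_count h2 a b e1 e2 e3 e4 hne
    · exact key
  exact hc.trans (countP_le_ncard _ (pts_nodup _) _ _ (finite_inside _ _ _)
    fun p hp => (c.inB_iff h2 a b p).1 hp)

lemma centre_count (h2 : c.ok2 = true) : (inside c.a0 c.b0 c.rho).ncard = c.m := by
  obtain ⟨hD, hA, g1, g2, g3, g4, hR, hAR, -, -, -, -, -, -, hm, -⟩ := c.facts h2
  have hD' : (0 : ℝ) < c.D := by exact_mod_cast hD
  have hiff : ∀ p, p ∈ inside c.a0 c.b0 c.rho ↔ nrm c.D c.ax c.ay p < c.A := by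
    intro p
    simp only [inside, Set.mem_ofPred_eq, a0, b0, rho, rho_sq _ _ hA, dist_eq _ _ _ hD]
    rw [div_lt_div_iff_of_pos_right (by positivity)]
    exact_mod_cast Iff.rfl
  rw [← hm]
  exact ncard_eq_countP _ _ _ (fun p => by simp [hiff])
    fun p hp => box_of_nrm _ _ _ _ _ hD g1 g2 g3 g4 hR hAR p ((hiff p).1 hp).le

lemma centre_count_gt (h2 : c.ok2 = true) (r : ℝ) (hr : c.rho < r) :
    c.m + c.j ≤ (inside c.a0 c.b0 r).ncard := by
  obtain ⟨hD, hA, -, -, -, -, -, -, -, -, -, -, -, -, -, hm⟩ := c.facts h2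
  have hD' : (0 : ℝ) < c.D := by exact_mod_cast hD
  refine hm.trans (countP_le_ncard _ (pts_nodup _) _ _ (finite_inside _ _ _) fun p hp => ?_)
  simp only [decide_eq_true_eq] at hp
  simp only [inside, Set.mem_ofPred_eq, a0, b0, dist_eq _ _ _ hD]
  have h3 : c.rho ^ 2 < r ^ 2 := by
    have := c.rho_pos h2
    nlinarith
  refine lt_of_le_of_lt ?_ h3
  rw [rho, rho_sq _ _ hA]
  exact div_le_div_of_nonneg_right (by exact_mod_cast hp) (by positivity)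

lemma count_gt (h1 : c.ok1 = true) (h2 : c.ok2 = true) (a b r : ℝ) (hr : c.rho < r) :
    c.m + c.j ≤ (inside a b r).ncard := by
  obtain ⟨a', b', e1, e2, e3, e4⟩ := reduce a b
  rw [e4]
  rcases c.dom_count h1 h2 a' b' e1 e2 e3 with ⟨rfl, rfl⟩ | h
  · exact c.centre_count_gt h2 r hr
  · have := c.rho_pos h2
    exact h.trans (inside_mono _ _ (by nlinarith))

lemma count_eq (h1 : c.ok1 = true) (h2 : c.ok2 = true) (a b : ℝ) :
    (inside a b c.rho).ncard = c.m ∨ c.m + c.j ≤ (inside a b c.rho).ncard := by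
  obtain ⟨a', b', e1, e2, e3, e4⟩ := reduce a b
  rw [e4]
  rcases c.dom_count h1 h2 a' b' e1 e2 e3 with ⟨rfl, rfl⟩ | h
  · exact Or.inl (c.centre_count h2)
  · exact Or.inr h

theorem isMCCircle (h1 : c.ok1 = true) (h2 : c.ok2 = true) (hj : 1 ≤ c.j) :
    IsMCCircle c.m c.a0 c.b0 c.rho := by
  refine ⟨⟨c.rho_pos h2, c.centre_count h2⟩, fun a b r h => ?_⟩
  by_contra hlt
  have := c.count_gt h1 h2 a b r (not_le.1 hlt)
  have := h.2
  omega

def ok3 (c : Cert) (ux uy τ : ℤ) (n : ℕ) : Bool :=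
  decide ((pts c.R).countP (fun p => decide (nrm c.D c.ax c.ay p < c.A) ||
    (decide (nrm c.D c.ax c.ay p = c.A) &&
      decide (τ < (c.D * p.1 - c.ax) * ux + (c.D * p.2 - c.ay) * uy))) = n)

lemma approx (h2 : c.ok2 = true) (ux uy τ : ℤ) (n : ℕ) (h3 : c.ok3 ux uy τ n = true)
    (r : ℝ) (hr0 : 0 < r) (hr : r < c.rho) : ∃ a b r' : ℝ, Encloses n a b r' ∧ r < r' := by
  obtain ⟨hD, hA, g1, g2, g3, g4, hR, hAR, -⟩ := c.facts h2
  have hD' : (0 : ℝ) < c.D := by exact_mod_cast hD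
  have hA' : (0 : ℝ) < c.A := by exact_mod_cast hA
  have hgap : 0 < (c.A : ℝ) - (c.D * r) ^ 2 := by
    have h4 : r ^ 2 < c.rho ^ 2 := by nlinarith
    rw [rho, rho_sq _ _ hA, lt_div_iff₀ (by positivity)] at h4
    nlinarith
  set C : ℝ := 1 + (ux : ℝ) ^ 2 + (uy : ℝ) ^ 2 + |(τ : ℝ)| with hC
  have hC1 : 1 ≤ C := by rw [hC]; have := abs_nonneg (τ : ℝ); nlinarith
  have hτ : |(τ : ℝ)| ≤ C := by rw [hC]; nlinarith
  obtain ⟨ε, hε, e1, e2⟩ : ∃ ε : ℝ, 0 < ε ∧ 2 * ε * C * (2 + c.A) ≤ 1 ∧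
      2 * ε * C < (c.A : ℝ) - (c.D * r) ^ 2 := by
    refine ⟨min (1 / (2 * C * (2 + c.A))) (((c.A : ℝ) - (c.D * r) ^ 2) / (4 * C)),
      lt_min (by positivity) (by positivity), ?_, ?_⟩
    · have := min_le_left (1 / (2 * C * (2 + c.A))) (((c.A : ℝ) - (c.D * r) ^ 2) / (4 * C))
      rw [le_div_iff₀ (by positivity)] at this
      linarith
    · have := min_le_right (1 / (2 * C * (2 + c.A))) (((c.A : ℝ) - (c.D * r) ^ 2) / (4 * C))
      rw [le_div_iff₀ (by positivity)] at this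
      linarith
  set W : ℝ := c.A - 2 * ε * τ + ε ^ 2 * ((ux : ℝ) ^ 2 + (uy : ℝ) ^ 2) with hW
  have hWgt : (c.D * r) ^ 2 < W := by
    have a1 : (τ : ℝ) ≤ C := (le_abs_self _).trans hτ
    have a2 : 0 ≤ ε ^ 2 * ((ux : ℝ) ^ 2 + (uy : ℝ) ^ 2) := by positivity
    have a3 := mul_le_mul_of_nonneg_left a1 (by positivity : 0 ≤ 2 * ε)
    rw [hW]; linarith
  have hW0 : 0 < W := lt_of_le_of_lt (sq_nonneg _) hWgt
  have hr' : r < Real.sqrt W / c.D := by
    rw [lt_div_iff₀ hD', Real.lt_sqrt (by positivity)]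
    nlinarith
  refine ⟨(c.ax + ε * ux) / c.D, (c.ay + ε * uy) / c.D, Real.sqrt W / c.D,
    ⟨hr0.trans hr', ?_⟩, hr'⟩
  simp only [ok3, decide_eq_true_eq] at h3
  rw [← h3]
  have hiff : ∀ p : ℤ × ℤ, p ∈ inside ((c.ax + ε * ux) / c.D) ((c.ay + ε * uy) / c.D)
      (Real.sqrt W / c.D) ↔ (nrm c.D c.ax c.ay p < c.A ∨ (nrm c.D c.ax c.ay p = c.A ∧
        τ < (c.D * p.1 - c.ax) * ux + (c.D * p.2 - c.ay) * uy)) := by
    intro p
    simp only [inside, Set.mem_ofPred_eq]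
    rw [div_pow, Real.sq_sqrt hW0.le, lt_div_iff₀ (by positivity)]
    set x : ℝ := c.D * p.1 - c.ax with hx
    set y : ℝ := c.D * p.2 - c.ay with hy
    have hN : (nrm c.D c.ax c.ay p : ℝ) = x ^ 2 + y ^ 2 := by
      simp only [nrm]; push_cast; rw [hx, hy]; ring
    set s : ℝ := x * ux + y * uy - τ with hs
    have hs' : (((c.D * p.1 - c.ax) * ux + (c.D * p.2 - c.ay) * uy - τ : ℤ) : ℝ) = s := by
      push_cast; rw [hs, hx, hy]
    have e : (((p.1 : ℝ) - (c.ax + ε * ux) / c.D) ^ 2 + ((p.2 : ℝ) - (c.ay + ε * uy) / c.D) ^ 2)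
        * (c.D : ℝ) ^ 2 = (x - ε * ux) ^ 2 + (y - ε * uy) ^ 2 := by
      rw [hx, hy]; field_simp; ring
    rw [e]
    have e' : (x - ε * ux) ^ 2 + (y - ε * uy) ^ 2 < W ↔
        (nrm c.D c.ax c.ay p : ℝ) - c.A < 2 * ε * s := by
      rw [hN, hW, hs]; constructor <;> intro h <;> nlinarith
    rw [e']
    have hsb : |s| ≤ C * (1 + (x ^ 2 + y ^ 2)) := by
      have b1 := le_abs_self (τ : ℝ)
      have b2 := neg_abs_le (τ : ℝ)
      have b3 : 0 ≤ (C - 1) * (x ^ 2 + y ^ 2) := by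
        have : 0 ≤ C - 1 := by linarith
        positivity
      rw [abs_le, hs]
      constructor <;>
        nlinarith [sq_nonneg (x + ux), sq_nonneg (x - ux), sq_nonneg (y + uy), sq_nonneg (y - uy),
          sq_nonneg x, sq_nonneg y, sq_nonneg (ux : ℝ), sq_nonneg (uy : ℝ)]
    rw [← hN, abs_le] at hsb
    have hεC : 0 < 2 * ε * C := by positivity
    rcases lt_trichotomy (nrm c.D c.ax c.ay p) c.A with h | h | h
    · have h' : (nrm c.D c.ax c.ay p : ℝ) + 1 ≤ c.A := by exact_mod_cast h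
      have b4 := mul_le_mul_of_nonneg_left hsb.1 (by positivity : 0 ≤ 2 * ε)
      refine ⟨fun _ => Or.inl h, fun _ => ?_⟩
      nlinarith
    · have h' : (nrm c.D c.ax c.ay p : ℝ) = c.A := by exact_mod_cast h
      rw [h', sub_self]
      constructor
      · intro h5
        refine Or.inr ⟨h, ?_⟩
        have : 0 < s := by
          by_contra hc
          nlinarith
        rw [← hs'] at this
        have : 0 < (c.D * p.1 - c.ax) * ux + (c.D * p.2 - c.ay) * uy - τ := by exact_mod_cast this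
        omega
      · rintro (h5 | ⟨-, h5⟩)
        · omega
        · have : (0 : ℝ) < s := by
            rw [← hs']
            exact_mod_cast (by omega : 0 < (c.D * p.1 - c.ax) * ux + (c.D * p.2 - c.ay) * uy - τ)
          positivity
    · have h' : (c.A : ℝ) + 1 ≤ nrm c.D c.ax c.ay p := by exact_mod_cast h
      have b4 := mul_le_mul_of_nonneg_left hsb.2 (by positivity : 0 ≤ 2 * ε)
      refine ⟨fun h5 => ?_, fun h5 => by omega⟩
      exfalso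
      set e0 : ℝ := (nrm c.D c.ax c.ay p : ℝ) - c.A with he0
      have b5 : (1 : ℝ) + nrm c.D c.ax c.ay p ≤ (2 + c.A) * e0 := by
        have : (nrm c.D c.ax c.ay p : ℝ) = e0 + c.A := by rw [he0]; ring
        rw [this]; nlinarith
      have b6 := mul_le_mul_of_nonneg_left b5 hεC.le
      have b7 := mul_le_mul_of_nonneg_right e1 (by linarith : 0 ≤ e0)
      nlinarith
  refine ncard_eq_countP _ _ _ (fun p => by simp [hiff]) fun p hp => ?_
  refine box_of_nrm _ _ _ _ _ hD g1 g2 g3 g4 hR hAR p ?_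
  rcases (hiff p).1 hp with h | h
  · exact h.le
  · exact h.1.le

theorem not_isMC (h1 : c.ok1 = true) (h2 : c.ok2 = true) (ux uy τ : ℤ) (n : ℕ)
    (h3 : c.ok3 ux uy τ n = true) (hn1 : c.m < n) (hn2 : n < c.m + c.j) : ¬ IsMC n := by
  rintro ⟨a, b, r, ⟨hr0, hr⟩, hmax⟩
  rcases lt_trichotomy r c.rho with h | h | h
  · obtain ⟨a', b', r', he, hlt⟩ := c.approx h2 ux uy τ n h3 r hr0 h
    exact absurd (hmax _ _ _ he) (not_le.2 hlt)
  · subst h
    have := c.count_eq h1 h2 a b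
    omega
  · have := c.count_gt h1 h2 a b r h
    omega

lemma mem_onCircle (h2 : c.ok2 = true) (p : ℤ × ℤ) :
    p ∈ onCircle c.a0 c.b0 c.rho ↔ nrm c.D c.ax c.ay p = c.A := by
  obtain ⟨hD, hA, -⟩ := c.facts h2
  have hD' : (0 : ℝ) < c.D := by exact_mod_cast hD
  simp only [onCircle, Set.mem_ofPred_eq, a0, b0, rho, rho_sq _ _ hA, dist_eq _ _ _ hD]
  rw [div_left_inj' (by positivity)]
  exact_mod_cast Iff.rfl

lemma onCircle_box (h2 : c.ok2 = true) (p : ℤ × ℤ) (hp : p ∈ onCircle c.a0 c.b0 c.rho) :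
    |p.1| ≤ c.R ∧ |p.2| ≤ c.R := by
  obtain ⟨hD, hA, g1, g2, g3, g4, hR, hAR, -⟩ := c.facts h2
  exact box_of_nrm _ _ _ _ _ hD g1 g2 g3 g4 hR hAR p ((c.mem_onCircle h2 p).1 hp).le

lemma onCircle_ncard (h2 : c.ok2 = true) : (onCircle c.a0 c.b0 c.rho).ncard =
    (pts c.R).countP fun p => decide (nrm c.D c.ax c.ay p = c.A) :=
  ncard_eq_countP _ _ _ (fun p => by simp [c.mem_onCircle h2]) (c.onCircle_box h2)

end Cert

end Pool.Agent.H57.MC
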