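import Mathlib

set_option autoImplicit false

namespace Pool.Agent.H57.HurGrp

/-- the Menger property of a subset `A` of a space -/
def Menger {Z : Type} [TopologicalSpace Z] (A : Set Z) : Prop :=
  ∀ U : ℕ → Set (Set Z), (∀ n, (∀ u ∈ U n, IsOpen u) ∧ A ⊆ ⋃₀ U n) →
    ∃ F : ℕ → Set (Set Z), (∀ n, (F n).Finite ∧ F n ⊆ U n) ∧ A ⊆ ⋃ n, ⋃₀ F n

/-- the product of two Menger subsets of a Polish space is Menger -/
def MengerProductive : Prop :=
  ∀ (Z : Type) [TopologicalSpace Z] [PolishSpace Z] (A B : Set Z),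
    Menger A → Menger B → Menger (A ×ˢ B)

/-- some Polish group has a Hurewicz subset generating a Borel subgroup that is not `σ`-compact -/
def HurewiczGenerated : Prop :=
  ∃ (G : Type) (_ : TopologicalSpace G) (_ : PolishSpace G) (_ : Group G)
    (_ : IsTopologicalGroup G) (X : Set G),
    @MeasurableSet G (borel G) ((Subgroup.closure X : Subgroup G) : Set G) ∧
    ¬ IsSigmaCompact ((Subgroup.closure X : Subgroup G) : Set G) ∧
    ∀ U : ℕ → Set (Set G), (∀ n, (∀ u ∈ U n, IsOpen u) ∧ X ⊆ ⋃₀ U n) →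
      ∃ F : ℕ → Finset (Set G), (∀ n, (↑(F n) : Set (Set G)) ⊆ U n) ∧
        ∀ x ∈ X, ∀ᶠ n in Filter.atTop, x ∈ ⋃₀ ((↑(F n) : Set (Set G)))

end Pool.Agent.H57.HurGrp
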