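import Pool.Agent.H57.NstarDefs
import Pool.Agent.H57.Coh

set_option autoImplicit false

namespace Pool.Agent.H57.Nstar

open Set Cardinal Filter Pool.Agent.H57.Lots

def star (y : Set ℕ) : Set NStar := {p | y ∈ p.1}

theorem star_open (y : Set ℕ) : IsOpen (star y) :=
  (ultrafilter_isOpen_basic y).preimage continuous_subtype_val

theorem star_closed (y : Set ℕ) : IsClosed (star y) :=
  (ultrafilter_isClosed_basic y).preimage continuous_subtype_val

theorem not_finite (p : NStar) {s : Set ℕ} (hs : s.Finite) : s ∉ p.1 := fun h => by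
  obtain ⟨n, -, hn⟩ := Ultrafilter.eq_pure_of_finite_mem hs h
  exact p.2 n hn

instance : CompactSpace NStar := by
  refine isCompact_iff_compactSpace.1 (IsClosed.isCompact ?_)
  have : {p : Ultrafilter ℕ | ∀ n : ℕ, p ≠ pure n} = ⋂ n : ℕ, {p | ({n}ᶜ : Set ℕ) ∈ p} := by
    ext p
    simp only [mem_setOf_eq, mem_iInter, Ultrafilter.compl_mem_iff_notMem]
    refine forall_congr' fun n => ⟨fun h h' => ?_, fun h h' => h (by rw [h']; simp)⟩
    obtain ⟨m, hm, hp⟩ := Ultrafilter.eq_pure_of_finite_mem (finite_singleton n) h'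
    exact h (by rw [hp, mem_singleton_iff.1 hm])
  show IsClosed {p : Ultrafilter ℕ | ∀ n : ℕ, p ≠ pure n}
  rw [this]
  exact isClosed_iInter fun n => ultrafilter_isClosed_basic _

theorem star_mono {s t : Set ℕ} (h : (s \ t).Finite) : star s ⊆ star t := fun p hp => by
  by_contra hn
  exact not_finite p h (inter_mem hp (Ultrafilter.compl_mem_iff_notMem.2 hn))

theorem star_nonempty {s : Set ℕ} (h : s.Infinite) : (star s).Nonempty := by
  haveI : (cofinite ⊓ 𝓟 s).NeBot := cofinite_inf_principal_neBot_iff.2 h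
  obtain ⟨p, hp⟩ := Ultrafilter.exists_le (cofinite ⊓ 𝓟 s)
  refine ⟨⟨p, fun n hn => ?_⟩, (hp.trans inf_le_right) (mem_principal_self s)⟩
  have : ({n}ᶜ : Set ℕ) ∈ (p : Filter ℕ) :=
    (hp.trans inf_le_left) (finite_singleton n).compl_mem_cofinite
  rw [hn] at this
  simp at this

theorem finite_of_star {s t : Set ℕ} (h : star s ⊆ star t) : (s \ t).Finite := by
  by_contra hn
  obtain ⟨p, hp⟩ := star_nonempty hn
  have h1 : s ∈ p.1 := mem_of_superset hp diff_subset
  have h2 : tᶜ ∈ p.1 := mem_of_superset hp fun x hx => hx.2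
  exact Ultrafilter.compl_mem_iff_notMem.1 h2 (h h1)

theorem eq_star {W : Set NStar} (h1 : IsOpen W) (h2 : IsCompact W) : ∃ y, W = star y := by
  have h3 : ∀ p ∈ W, ∃ y, p ∈ star y ∧ star y ⊆ W := by
    intro p hp
    obtain ⟨O, hO, rfl⟩ := isOpen_induced_iff.1 h1
    obtain ⟨_, ⟨y, rfl⟩, h4, h5⟩ := ultrafilterBasis_is_basis.exists_subset_of_mem_open hp hO
    exact ⟨y, h4, fun q hq => h5 hq⟩
  choose! y hy1 hy2 using h3
  obtain ⟨t, ht1, ht2⟩ := h2.elim_nhds_subcover (fun p => star (y p))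
    fun p hp => (star_open _).mem_nhds (hy1 p hp)
  refine ⟨⋃ p ∈ t, y p, Subset.antisymm (fun q hq => ?_) fun q hq => ?_⟩
  · obtain ⟨p, hp, hq⟩ := mem_iUnion₂.1 (ht2 hq)
    exact mem_of_superset hq (subset_biUnion_of_mem (u := y) hp)
  · obtain ⟨p, hp, hq⟩ := (Ultrafilter.finite_biUnion_mem_iff t.finite_toSet).1 hq
    exact hy2 p (ht1 p hp) hq

theorem ro_inter {X : Type} [TopologicalSpace X] {U V : Set X} (hU : IsOpen U) :
    interior (closure U) ∩ interior (closure V) = interior (closure (U ∩ V)) := by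
  refine Subset.antisymm ?_ (subset_inter
    (interior_mono (closure_mono inter_subset_left))
    (interior_mono (closure_mono inter_subset_right)))
  refine interior_maximal ?_ (isOpen_interior.inter isOpen_interior)
  intro x hx
  have h1 : x ∈ closure (interior (closure V) ∩ U) :=
    isOpen_interior.inter_closure ⟨hx.2, interior_subset hx.1⟩
  refine closure_minimal ?_ isClosed_closure h1
  exact fun y hy => hU.inter_closure ⟨hy.2, interior_subset hy.1⟩

theorem family {I : Type} (U : I → Set NStar) (hU : ∀ i, IsOpen (U i))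
    (h1 : ∀ i j, i ≠ j → ∃ y, U i ∩ U j = star y)
    (h2 : ∀ i, ¬ IsCompact (interior (closure (U i)))) :
    ∃ A : Set (Set NStar), ADFamily A ∧ #A = #I := by
  have h3 : ∀ i j, i ≠ j → IsCompact (interior (closure (U i)) ∩ interior (closure (U j))) := by
    intro i j hij
    obtain ⟨y, hy⟩ := h1 i j hij
    rw [ro_inter (hU i), hy, (star_closed y).closure_eq, (star_open y).interior_eq]
    exact (star_closed y).isCompact
  refine ⟨range fun i => interior (closure (U i)), ⟨?_, ?_⟩, mk_range_eq _ fun i j h => ?_⟩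
  · rintro _ ⟨i, rfl⟩
    exact ⟨interior_closure_idem.symm, h2 i⟩
  · rintro _ ⟨i, rfl⟩ _ ⟨j, rfl⟩ h
    exact h3 i j fun e => h (by rw [e])
  · by_contra hij
    have := h3 i j hij
    rw [← h, inter_self] at this
    exact h2 i this

theorem big (h : 𝔠 < 2 ^ (ℵ₁ : Cardinal.{0})) :
    ∃ A : Set (Set NStar), ADFamily A ∧ #A = 2 ^ (ℵ₁ : Cardinal.{0}) := by
  obtain ⟨T, h1, h2, h3⟩ := Coh.tree
  let U : (W1 → Bool) → Set NStar := fun b => ⋃ a, star (T b a)
  have hU : ∀ b, IsOpen (U b) := fun b => isOpen_iUnion fun a => star_open _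
  have hm : ∀ b a c, a ≤ c → star (T b a) ⊆ star (T b c) := fun b a c h => by
    rcases h.lt_or_eq with h | rfl
    · exact star_mono (h1 b a c h)
    · exact subset_rfl
  have hint : ∀ b b', b ≠ b' → ∃ z, U b ∩ U b' = star (T b z) := by
    intro b b' hne
    obtain ⟨z, hz1, hz2⟩ := wellFounded_lt.has_min {x | b x ≠ b' x} (Function.ne_iff.1 hne)
    obtain ⟨h4, h5⟩ := h3 b b' z fun x hx => by
      by_contra hc; exact hz2 x hc hx
    refine ⟨z, Subset.antisymm ?_ fun p hp => ⟨mem_iUnion.2 ⟨z, hp⟩, mem_iUnion.2 ⟨z, h4 ▸ hp⟩⟩⟩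
    rintro p ⟨hp1, hp2⟩
    obtain ⟨a, ha⟩ := mem_iUnion.1 hp1
    obtain ⟨c, hc⟩ := mem_iUnion.1 hp2
    obtain ⟨d, hd⟩ := exists_gt (max z (max a c))
    simp only [max_lt_iff] at hd
    exact star_mono (h5 hz1 d hd.1) (inter_mem (hm b a d hd.2.1.le ha) (hm b' c d hd.2.2.le hc))
  let S : Set (W1 → Bool) := {b | IsCompact (interior (closure (U b)))}
  have hS : #S ≤ 𝔠 := by
    have h4 : ∀ b : S, ∃ y, interior (closure (U b.1)) = star y := fun b =>
      eq_star isOpen_interior b.2
    choose y hy using h4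
    rw [← mk_set_nat]
    refine mk_le_of_injective (f := y) fun b b' e => ?_
    by_contra hne
    obtain ⟨z, hz⟩ := hint b.1 b'.1 fun h => hne (Subtype.ext h)
    have h5 := ro_inter (V := U b'.1) (hU b.1)
    rw [hz, (star_closed _).closure_eq, (star_open _).interior_eq, hy b', ← e, ← hy b,
      inter_self] at h5
    obtain ⟨d, hd⟩ := exists_gt z
    refine h2 b.1 z d hd (finite_of_star ?_)
    rw [← h5]
    exact (subset_iUnion (fun a => star (T b.1 a)) d).trans
      (interior_maximal subset_closure (hU _))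
  have hall : #(W1 → Bool) = 2 ^ (ℵ₁ : Cardinal.{0}) := by simp
  obtain ⟨A, hA1, hA2⟩ := family (fun b : ↥Sᶜ => U b.1) (fun b => hU _)
    (fun b b' hne => by
      obtain ⟨z, hz⟩ := hint b.1 b'.1 fun h => hne (Subtype.ext h)
      exact ⟨_, hz⟩) fun b => b.2
  refine ⟨A, hA1, hA2.trans ?_⟩
  rw [← hall]
  exact mk_compl_of_infinite S (by rw [hall]; exact hS.trans_lt h)

theorem small : ∃ A : Set (Set NStar), ADFamily A ∧ #A = 𝔠 := by
  classical
  let e : (ℕ → Bool) → ℕ → ℕ := fun x n => Encodable.encode (List.ofFn fun i : Fin n => x i)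
  have he : ∀ x y n m, e x n = e y m → n = m ∧ ∀ i < n, x i = y i := by
    intro x y n m h
    have h1 := Encodable.encode_injective h
    obtain rfl : n = m := by simpa using congrArg List.length h1
    exact ⟨rfl, fun i hi => congrFun (List.ofFn_injective h1) ⟨i, hi⟩⟩
  let col : ℕ → Set ℕ := fun k => {m | (Nat.unpair m).1 = k}
  let U : (ℕ → Bool) → Set NStar := fun x => ⋃ n, star (col (e x n))
  have hcol : ∀ k, (col k).Infinite := fun k =>
    infinite_of_injective_forall_mem (f := fun j => Nat.pair k j)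
      (fun i j h => (Nat.pair_eq_pair.1 h).2) fun j => by simp [col]
  obtain ⟨A, hA1, hA2⟩ := family U (fun x => isOpen_iUnion fun n => star_open _)
    (fun x y hne => by
      obtain ⟨i, hi⟩ := Function.ne_iff.1 hne
      have hfin : {n | e x n = e y n}.Finite :=
        (finite_le_nat i).subset fun n hn => not_lt.1 fun h => hi ((he _ _ _ _ hn).2 i h)
      refine ⟨⋃ n ∈ {n | e x n = e y n}, col (e x n), Subset.antisymm ?_ fun p hp => ?_⟩
      · rintro p ⟨hp1, hp2⟩
        obtain ⟨n, hn⟩ := mem_iUnion.1 hp1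
        obtain ⟨m, hm⟩ := mem_iUnion.1 hp2
        obtain ⟨k, hk1, hk2⟩ := Ultrafilter.nonempty_of_mem (inter_mem hn hm)
        have h1 : e x n = e y m := hk1.symm.trans hk2
        obtain rfl := (he _ _ _ _ h1).1
        exact mem_of_superset hn (subset_biUnion_of_mem (u := fun n => col (e x n)) h1)
      · obtain ⟨n, hn, hp⟩ := (Ultrafilter.finite_biUnion_mem_iff hfin).1 hp
        refine ⟨mem_iUnion.2 ⟨n, hp⟩, mem_iUnion.2 ⟨n, ?_⟩⟩
        rw [← (hn : e x n = e y n)]; exact hp)
    (fun x hx => by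
      obtain ⟨y, hy⟩ := eq_star isOpen_interior hx
      have h1 : ∀ n, ∃ m, m ∈ col (e x n) ∧ m ∈ y := fun n => by
        have h2 : star (col (e x n)) ⊆ star y := by
          rw [← hy]
          exact (subset_iUnion (fun n => star (col (e x n))) n).trans
            (interior_maximal subset_closure (isOpen_iUnion fun n => star_open _))
        obtain ⟨m, hm1, hm2⟩ := ((hcol _).diff (finite_of_star h2)).nonempty
        exact ⟨m, hm1, not_not.1 fun h => hm2 ⟨hm1, h⟩⟩
      choose m hm1 hm2 using h1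
      have hinj : Function.Injective m := fun i j h =>
        (he _ _ _ _ ((hm1 i).symm.trans (h ▸ hm1 j))).1
      obtain ⟨p, hp⟩ := star_nonempty (infinite_range_of_injective hinj)
      have h3 : p ∈ closure (U x) := by
        refine interior_subset ?_
        rw [hy]
        exact mem_of_superset hp (range_subset_iff.2 hm2)
      obtain ⟨q, hq1, hq2⟩ := mem_closure_iff.1 h3 _ (star_open _) hp
      obtain ⟨n, hn⟩ := mem_iUnion.1 hq2
      refine not_finite q (finite_singleton (m n)) (mem_of_superset (inter_mem hq1 hn) ?_)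
      rintro _ ⟨⟨j, rfl⟩, hj⟩
      rw [(he _ _ _ _ ((hm1 j).symm.trans hj)).1]
      exact mem_singleton _)
  exact ⟨A, hA1, hA2.trans (by simp)⟩

theorem main : ∃ A : Set (Set NStar), ADFamily A ∧ #A = 2 ^ (ℵ₁ : Cardinal.{0}) := by
  have h : 𝔠 ≤ 2 ^ (ℵ₁ : Cardinal.{0}) := by
    rw [← two_power_aleph0]
    exact power_le_power_left two_ne_zero aleph0_lt_aleph_one.le
  rcases h.lt_or_eq with h | h
  · exact big h
  · rw [← h]; exact small

end Pool.Agent.H57.Nstar
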