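import Pool.Agent.H57.Nstar

set_option autoImplicit false

namespace Pool.Agent.H57.Nstar

open Set Cardinal Filter

theorem exists_chain {U : Set NStar} (hU : IsOpen U) (hc : ¬ IsCompact U) (k : Cardinal.{0})
    (H : ∀ S : Set (Set ℕ), #S ≤ k → (∀ s ∈ S, star s ⊆ U) →
      ∃ y, star y ⊆ U ∧ ∀ s ∈ S, star s ⊆ star y) :
    ∃ f : (Order.succ k).ord.ToType → Set ℕ,
      ∀ a b, a < b → (f a \ f b).Finite ∧ (f b \ f a).Infinite := by
  have step : ∀ (a : (Order.succ k).ord.ToType) (g : ∀ b, b < a → {y : Set ℕ // star y ⊆ U}),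
      ∃ y : {y : Set ℕ // star y ⊆ U}, ∀ b (h : b < a), star (g b h).1 ⊂ star y.1 := by
    intro a g
    obtain ⟨y, hy1, hy2⟩ := H (range fun b : Iio a => (g b.1 b.2).1)
      (mk_range_le.trans (Order.lt_succ_iff.1 (by simpa using mk_Iio_lt a)))
      (by rintro _ ⟨b, rfl⟩; exact (g b.1 b.2).2)
    have hne : ¬ U ⊆ star y := fun h =>
      hc (by rw [Subset.antisymm h hy1]; exact (star_closed y).isCompact)
    obtain ⟨p, hp1, hp2⟩ := not_subset.1 hne
    obtain ⟨O, hO, rfl⟩ := isOpen_induced_iff.1 hU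
    obtain ⟨_, ⟨z, rfl⟩, h4, h5⟩ := ultrafilterBasis_is_basis.exists_subset_of_mem_open hp1 hO
    refine ⟨⟨y ∪ z, fun q hq => ?_⟩, fun b h => ⟨fun q hq => ?_, fun hq => ?_⟩⟩
    · rcases Ultrafilter.union_mem_iff.1 hq with h | h
      · exact hy1 h
      · exact h5 h
    · exact mem_of_superset (hy2 _ ⟨⟨b, h⟩, rfl⟩ hq) subset_union_left
    · exact hp2 (hy2 _ ⟨⟨b, h⟩, rfl⟩ (hq (mem_of_superset h4 subset_union_right)))
  choose F hF using step
  let f : (Order.succ k).ord.ToType → {y : Set ℕ // star y ⊆ U} := wellFounded_lt.fix F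
  have hf : ∀ a, f a = F a fun b _ => f b := fun a => wellFounded_lt.fix_eq F a
  refine ⟨fun a => (f a).1, fun a b h => ?_⟩
  have h1 : star (f a).1 ⊂ star (f b).1 := by
    rw [hf b]; exact hF b (fun c _ => f c) a h
  exact ⟨finite_of_star h1.1, fun h2 => h1.2 (star_mono h2)⟩

theorem upper (k : Cardinal.{0}) (hk : ℵ₀ ≤ k)
    (H : ¬ ∃ f : (Order.succ k).ord.ToType → Set ℕ,
      ∀ a b, a < b → (f a \ f b).Finite ∧ (f b \ f a).Infinite)
    (A : Set (Set NStar)) (hA : ADFamily A) : #A ≤ 2 ^ k := by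
  have hop : ∀ U ∈ A, IsOpen U := fun U hU => by rw [(hA.1 U hU).1]; exact isOpen_interior
  have h1 : ∀ U : A, ∃ S : Set (Set ℕ), #S ≤ k ∧ (∀ s ∈ S, star s ⊆ U.1) ∧
      ¬ ∃ y, star y ⊆ U.1 ∧ ∀ s ∈ S, star s ⊆ star y := by
    intro U
    by_contra hn
    refine H (exists_chain (hop U.1 U.2) (hA.1 U.1 U.2).2 k fun S h2 h3 => ?_)
    by_contra h4
    exact hn ⟨S, h2, h3, h4⟩
  choose S h2 h3 h4 using h1
  have hinj : Function.Injective fun U : A => (⟨S U, h2 U⟩ : {t : Set (Set ℕ) // #t ≤ k}) := by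
    intro U V h
    have h' : S U = S V := congrArg Subtype.val h
    by_contra hne
    obtain ⟨y, hy⟩ := eq_star ((hop U.1 U.2).inter (hop V.1 V.2))
      (hA.2 U.1 U.2 V.1 V.2 fun e => hne (Subtype.ext e))
    refine h4 U ⟨y, hy ▸ inter_subset_left, fun s hs => ?_⟩
    rw [← hy]
    exact subset_inter (h3 U s hs) (h3 V s (h' ▸ hs))
  refine (mk_le_of_injective hinj).trans ((mk_bounded_set_le _ k).trans ?_)
  rw [mk_set, mk_nat, max_eq_left (cantor _).le, ← power_mul, mul_comm, mul_eq_left hk hk aleph0_ne_zero]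

end Pool.Agent.H57.Nstar
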