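import Mathlib

set_option autoImplicit false

namespace Pool.Agent.H57.Nstar

/-- The space of nonprincipal ultrafilters on `ℕ`, a subspace of the Stone space. -/
abbrev NStar : Type := {p : Ultrafilter ℕ // ∀ n : ℕ, p ≠ pure n}

/-- An almost disjoint family of non-compact regular open sets. -/
def ADFamily {X : Type} [TopologicalSpace X] (A : Set (Set X)) : Prop :=
  (∀ U ∈ A, U = interior (closure U) ∧ ¬ IsCompact U) ∧
    ∀ U ∈ A, ∀ V ∈ A, U ≠ V → IsCompact (U ∩ V)

end Pool.Agent.H57.Nstar
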