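import Pool.Agent.H57.PNDefs

set_option autoImplicit false

namespace Pool.Agent.H57.PN

open MeasureTheory ProbabilityTheory Filter Topology Set

/-- One coin. -/
noncomputable def coin (a b : ENNReal) : Measure Bool := a • Measure.dirac true + b • Measure.dirac false

lemma coin_single (a b : ENNReal) (c : Bool) : coin a b {c} = if c then a else b := by
  cases c <;> simp [coin]

lemma coin_prob {a b : ENNReal} (h : a + b = 1) : IsProbabilityMeasure (coin a b) :=
  ⟨by simp [coin, h]⟩

lemma coins_eq (a b : ENNReal) : coins a b = Measure.infinitePi fun _ : ℕ => coin a b := rfl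

/-- Cylinder of length `n` around `x`. -/
def cyl (n : ℕ) (x : ℕ → Bool) : Set (ℕ → Bool) := {y | ∀ i < n, y i = x i}

lemma cyl_meas {a b : ENNReal} (h : a + b = 1) (n : ℕ) (x : ℕ → Bool) :
    coins a b (cyl n x) = ∏ i ∈ Finset.range n, if x i then a else b := by
  haveI := coin_prob h
  have : cyl n x = Set.pi (Finset.range n : Finset ℕ) (fun i => {x i}) := by
    ext y
    simp [cyl]
  rw [this, coins_eq, Measure.infinitePi_pi _ (fun _ _ => MeasurableSet.of_discrete)]
  simp only [coin_single]

lemma cyl_succ {a b : ENNReal} (h : a + b = 1) (n : ℕ) (x : ℕ → Bool) (c : Bool) :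
    coins a b (cyl (n + 1) (Function.update x n c)) = coins a b (cyl n x) * if c then a else b := by
  rw [cyl_meas h, cyl_meas h, Finset.prod_range_succ, Function.update_self]
  congr 1
  refine Finset.prod_congr rfl fun i hi => ?_
  rw [Function.update_of_ne (Finset.mem_range.mp hi).ne]

lemma null_of_le {θ : ENNReal} (hθ : θ < 1) {t : ENNReal} (h : ∀ k : ℕ, t ≤ θ ^ k) : t = 0 :=
  le_antisymm (ge_of_tendsto' (ENNReal.tendsto_pow_atTop_nhds_zero_of_lt_one hθ) h) (zero_le)

lemma atomless {a b θ : ENNReal} (h : a + b = 1) (ha : a ≤ θ) (hb : b ≤ θ) (hθ : θ < 1)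
    (x : ℕ → Bool) : coins a b {x} = 0 := by
  refine null_of_le hθ fun k => ?_
  refine (measure_mono (t := cyl k x) (by rintro y rfl i _; rfl)).trans ?_
  rw [cyl_meas h]
  refine (Finset.prod_le_pow_card _ _ θ fun i _ => ?_).trans (by simp)
  split_ifs <;> assumption

lemma split_congr (P : Set (ℕ → Bool)) {x y : ℕ → Bool} {n : ℕ} (h : y ∈ cyl n x) :
    Split P y n ↔ Split P x n := by
  refine forall_congr' fun b => exists_congr fun z => and_congr_right fun _ =>
    and_congr_left fun _ => forall₂_congr fun i hi => ?_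
  rw [h i hi]

open Classical in
lemma count_bound {a b θ : ENNReal} (h : a + b = 1) (ha : a ≤ θ) (hb : b ≤ θ) (hθ : θ < 1)
    (P : Set (ℕ → Bool)) (m : ℕ) : ∀ (n k : ℕ) (x : ℕ → Bool),
    coins a b {y | y ∈ P ∧ y ∈ cyl n x ∧
      k ≤ ((Finset.Ico n (n + m)).filter fun j => ¬ Split P y j).card} ≤
      θ ^ k * coins a b (cyl n x) := by
  induction m with
  | zero =>
    intro n k x
    rcases k with _ | k
    · rw [pow_zero, one_mul]
      exact measure_mono fun y hy => hy.2.1
    · simp
  | succ m ih =>
    intro n k x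
    rcases k with _ | k
    · rw [pow_zero, one_mul]
      exact measure_mono fun y hy => hy.2.1
    have hI : ∀ y, ((Finset.Ico n (n + (m + 1))).filter fun j => ¬ Split P y j).card =
        (if Split P y n then 0 else 1) +
          ((Finset.Ico (n + 1) (n + 1 + m)).filter fun j => ¬ Split P y j).card := by
      intro y
      rw [← Finset.insert_Ico_add_one_left_eq_Ico (show n < n + (m + 1) by omega),
        Finset.filter_insert, show n + (m + 1) = n + 1 + m by omega]
      by_cases h1 : Split P y n
      · rw [if_neg (not_not.mpr h1), if_pos h1, zero_add]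
      · rw [if_pos h1, if_neg h1, Finset.card_insert_of_notMem (by simp), add_comm]
    have hc : ∀ y ∈ cyl n x, y ∈ cyl (n + 1) (Function.update x n (y n)) := by
      intro y hy i hi
      by_cases hin : i = n
      · rw [hin, Function.update_self]
      · rw [Function.update_of_ne hin]
        exact hy i (by omega)
    by_cases hs : Split P x n
    · refine (measure_mono (t := ⋃ c : Bool, {y | y ∈ P ∧ y ∈ cyl (n + 1) (Function.update x n c) ∧
          k + 1 ≤ ((Finset.Ico (n + 1) (n + 1 + m)).filter fun j => ¬ Split P y j).card})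
          ?_).trans ?_
      · rintro y ⟨h1, h2, h3⟩
        rw [hI, if_pos ((split_congr P h2).mpr hs), zero_add] at h3
        exact mem_iUnion.mpr ⟨y n, h1, hc y h2, h3⟩
      · refine (measure_iUnion_fintype_le _ _).trans ?_
        refine (Finset.sum_le_sum fun c _ => ih (n + 1) (k + 1) _).trans ?_
        simp only [cyl_succ h, Fintype.sum_bool, if_true, Bool.false_eq_true, if_false]
        rw [← mul_add, ← mul_add, h, mul_one]
    · have hs' := hs
      unfold Split at hs'
      push Not at hs'
      obtain ⟨c, hc'⟩ := hs'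
      refine (measure_mono (t := {y | y ∈ P ∧ y ∈ cyl (n + 1) (Function.update x n (!c)) ∧
          k ≤ ((Finset.Ico (n + 1) (n + 1 + m)).filter fun j => ¬ Split P y j).card})
          ?_).trans ?_
      · rintro y ⟨h1, h2, h3⟩
        rw [hI, if_neg (fun hh => hs ((split_congr P h2).mp hh))] at h3
        have : y n = !c := by
          have := hc' y h1 h2
          cases c <;> simpa using this
        exact ⟨h1, this ▸ hc y h2, by omega⟩
      · refine (ih (n + 1) k _).trans ?_
        rw [cyl_succ h, pow_succ, mul_assoc, mul_comm θ]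
        gcongr
        split_ifs <;> assumption

lemma inf_null {a b θ : ENNReal} (h : a + b = 1) (ha : a ≤ θ) (hb : b ≤ θ) (hθ : θ < 1)
    (P : Set (ℕ → Bool)) : coins a b {y | y ∈ P ∧ {j | ¬ Split P y j}.Infinite} = 0 := by
  classical
  refine null_of_le hθ fun k => ?_
  have hsub : {y | y ∈ P ∧ {j | ¬ Split P y j}.Infinite} ⊆ ⋃ m : ℕ, {y | y ∈ P ∧
      y ∈ cyl 0 (fun _ => true) ∧
      k ≤ ((Finset.Ico 0 (0 + m)).filter fun j => ¬ Split P y j).card} := by
    rintro y ⟨h1, h2⟩
    obtain ⟨t, ht, htc⟩ := h2.exists_subset_card_eq k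
    obtain ⟨M, hM⟩ := t.bddAbove
    refine mem_iUnion.mpr ⟨M + 1, h1, fun i hi => by omega, ?_⟩
    rw [← htc]
    refine Finset.card_le_card fun j hj => ?_
    have := hM hj
    simp only [Finset.mem_filter, Finset.mem_Ico]
    exact ⟨⟨by omega, by omega⟩, ht hj⟩
  refine (measure_mono hsub).trans ?_
  rw [Monotone.measure_iUnion]
  · refine iSup_le fun m => (count_bound h ha hb hθ P m 0 k _).trans ?_
    rw [cyl_meas h]
    simp
  · rintro m m' hm y ⟨h1, h2, h3⟩
    exact ⟨h1, h2, h3.trans (Finset.card_le_card (Finset.filter_subset_filter _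
      (Finset.Ico_subset_Ico le_rfl (by omega))))⟩

/-- All shifts of `y` have asymptotic frequency `p`. -/
def Freq (p : ℝ) (y : ℕ → Bool) : Prop :=
  ∀ s : ℕ, Tendsto (fun n : ℕ => (∑ i ∈ Finset.range n, if y (s + i) then (1 : ℝ) else 0) / n)
    atTop (𝓝 p)

lemma freq_ae {a b : ENNReal} (h : a + b = 1) : ∀ᵐ y ∂(coins a b), Freq a.toReal y := by
  haveI := coin_prob h
  rw [coins_eq]
  refine ae_all_iff.mpr fun s => ?_
  set f : Bool → ℝ := fun c => if c then 1 else 0 with hf
  have hfm : Measurable f := Measurable.of_discrete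
  have hind := iIndepFun_infinitePi (P := fun _ : ℕ => coin a b) (X := fun _ => f) (fun _ => hfm)
  have hmp := fun i => measurePreserving_eval_infinitePi (fun _ : ℕ => coin a b) i
  have hid : ∀ i, IdentDistrib (fun y : ℕ → Bool => f (y i)) f
      (Measure.infinitePi fun _ : ℕ => coin a b) (coin a b) := fun i =>
    ⟨(hfm.comp (measurable_pi_apply i)).aemeasurable, hfm.aemeasurable, by
      conv_rhs => rw [← (hmp i).map_eq, Measure.map_map hfm (measurable_pi_apply i)]
      rfl⟩
  have hint : Integrable f (coin a b) := Integrable.of_finite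
  have := strong_law_ae_real (μ := Measure.infinitePi fun _ : ℕ => coin a b)
    (fun i y => f (y (s + i))) ((hid _).integrable_iff.mpr hint)
    (fun i j hij => hind.indepFun (by omega)) (fun i => (hid _).trans (hid _).symm)
  rw [(hid _).integral_eq] at this
  have e : ∫ c, f c ∂(coin a b) = a.toReal := by
    rw [integral_fintype hint]
    simp [hf, Measure.real, coin_single]
  rw [e] at this
  exact this

lemma nth_shift {p : ℕ → Prop} (hp : {j | ¬ p j}.Finite) :
    ∃ N d : ℕ, ∀ i, Nat.nth p (N + i) = d + i := by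
  obtain ⟨M, hM⟩ := hp.bddAbove
  have h1 : ∀ j, M < j → p j := fun j hj => by
    by_contra hn
    have := hM hn
    omega
  have hinf : (setOf p).Infinite := (Set.Ioi_infinite M).mono fun j hj => h1 j hj
  refine ⟨M + 1, Nat.nth p (M + 1), fun i => ?_⟩
  have h0 : M + 1 ≤ Nat.nth p (M + 1) := (Nat.nth_strictMono hinf).le_apply
  induction i with
  | zero => rfl
  | succ i ih =>
    apply le_antisymm
    · by_contra hlt
      push Not at hlt
      have h2 := Nat.le_nth_of_lt_nth_succ (p := p) (k := M + 1 + i)
        (a := Nat.nth p (M + 1) + (i + 1)) hlt (h1 _ (by omega))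
      omega
    · have := Nat.nth_strictMono hinf (show M + 1 + i < M + 1 + (i + 1) by omega)
      omega

lemma third : (1 / 3 : ENNReal) + 2 / 3 = 1 := by
  rw [ENNReal.div_add_div_same, show (1 : ENNReal) + 2 = 3 by norm_num,
    ENNReal.div_self (by norm_num) (by norm_num)]

lemma two_third_lt : (2 / 3 : ENNReal) < 1 := by
  rw [ENNReal.div_lt_iff (by norm_num) (by norm_num)]
  norm_num

lemma singular (P : Set (ℕ → Bool)) :
    coins (1 / 3) (2 / 3) {x | x ∈ P ∧ Freq (1 / 2) (code P x)} = 0 := by
  have h1 := inf_null third (θ := 2 / 3) (by gcongr; norm_num) le_rfl two_third_lt P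
  have h2 := freq_ae third
  rw [ae_iff] at h2
  refine measure_mono_null ?_ (measure_union_null h1 h2)
  rintro x ⟨hx, hf⟩
  by_cases hfin : {j | ¬ Split P x j}.Finite
  · right
    intro hfx
    obtain ⟨N, d, hN⟩ := nth_shift hfin
    have e1 := hf N
    have e2 := hfx d
    simp only [code, hN] at e1
    have := tendsto_nhds_unique e1 e2
    norm_num at this
  · exact Or.inl ⟨hx, hfin⟩

lemma ch_rel (hCH : Cardinal.continuum.{0} = Cardinal.aleph 1) (ι : Type)
    (hι : Cardinal.mk ι ≤ Cardinal.continuum) :
    ∃ L : ι → Set ι, (∀ i, (L i).Countable) ∧ ∀ i j, i ∈ L j ∨ j ∈ L i := by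
  obtain ⟨_, _, hord⟩ := Cardinal.exists_ord_eq_type_lt ι
  refine ⟨Iic, fun i => ?_, fun i j => le_total i j⟩
  rw [← Iio_insert]
  refine Countable.insert _ ?_
  have := (Cardinal.mk_Iio_lt i hord).trans_le (hι.trans hCH.le)
  rwa [Cardinal.lt_aleph_one_iff, Cardinal.le_aleph0_iff_set_countable] at this

theorem main (hCH : Cardinal.continuum.{0} = Cardinal.aleph 1) :
    ∃ A : Set (ℕ → Bool), PerfectlyNull A ∧ ¬ UniversallyNull A := by
  classical
  haveI := coin_prob third
  haveI : IsProbabilityMeasure (coins (1 / 3) (2 / 3)) := by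
    rw [coins_eq]
    infer_instance
  set μ := coins (1 / 3) (2 / 3) with hμ
  let ι := {t : Set (ℕ → Bool) // MeasurableSet t}
  have hcard : Cardinal.mk ι ≤ Cardinal.continuum := by
    have := MeasurableSpace.cardinal_measurableSet_le_continuum
      (s := MeasurableSpace.countableGeneratingSet (ℕ → Bool))
      ((Cardinal.le_aleph0_iff_set_countable.mpr
        MeasurableSpace.countable_countableGeneratingSet).trans Cardinal.aleph0_le_continuum)
    rw [MeasurableSpace.generateFrom_countableGeneratingSet] at this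
    exact this
  obtain ⟨L, hcount, htot⟩ := ch_rel hCH ι hcard
  set N : ι → Set (ℕ → Bool) := fun S =>
    (if μ S.1 = 0 then S.1 else ∅) ∪ {x | x ∈ S.1 ∧ Freq (1 / 2) (code S.1 x)} with hN
  have hN0 : ∀ S, μ (N S) = 0 := by
    intro S
    refine measure_union_null ?_ (singular _)
    split_ifs with h
    · exact h
    · simp
  have hex : ∀ i : ι, ∃ x, x ∉ ⋃ j ∈ L i, N j := by
    intro i
    by_contra hne
    push Not at hne
    have h1 : μ (⋃ j ∈ L i, N j) = 0 := (measure_biUnion_null_iff (hcount i)).mpr fun j _ => hN0 j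
    rw [eq_univ_of_forall hne] at h1
    simp at h1
  choose x hx using hex
  refine ⟨range x, fun P hP _ => ?_, fun hU => ?_⟩
  · set S : ι := ⟨P, hP.closed.measurableSet⟩ with hS
    have half : (1 / 2 : ENNReal) + 1 / 2 = 1 := ENNReal.add_halves 1
    have h2 := freq_ae half
    rw [ae_iff] at h2
    have h3 : coins (1 / 2) (1 / 2) (code P '' (x '' L S)) = 0 := by
      have hc : (code P '' (x '' L S)).Countable := ((hcount S).image _).image _
      rw [← biUnion_of_singleton (code P '' (x '' L S))]
      exact (measure_biUnion_null_iff hc).mpr fun y _ =>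
        atomless half (θ := 1 / 2) le_rfl le_rfl (by norm_num) y
    refine measure_mono_null ?_ (measure_union_null h2 h3)
    rintro _ ⟨_, ⟨⟨i, rfl⟩, hi⟩, rfl⟩
    rcases htot i S with his | his
    · exact Or.inr ⟨x i, ⟨i, his, rfl⟩, rfl⟩
    · left
      intro hf
      apply hx i
      refine mem_biUnion (x := S) his (Or.inr ⟨hi, ?_⟩)
      simpa using hf
  · have h0 := hU μ inferInstance
      (atomless third (θ := 2 / 3) (by gcongr; norm_num) le_rfl two_third_lt)
    set S : ι := ⟨toMeasurable μ (range x), measurableSet_toMeasurable _ _⟩ with hS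
    apply hx S
    refine mem_biUnion (x := S) ((htot S S).elim id id) (Or.inl ?_)
    rw [if_pos (by rw [hS, measure_toMeasurable]; exact h0)]
    exact subset_toMeasurable _ _ (mem_range_self _)

end Pool.Agent.H57.PN
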