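import Mathlib

set_option autoImplicit false

namespace Pool.Agent.H57.PN

open MeasureTheory

/-- The product on Cantor space of coins showing `true` with mass `a` and `false` with mass `b`. -/
noncomputable def coins (a b : ENNReal) : Measure (ℕ → Bool) :=
  Measure.infinitePi fun _ : ℕ => a • Measure.dirac true + b • Measure.dirac false

/-- The node `x restricted to n` is a branching point of the tree of `P`. -/
def Split (P : Set (ℕ → Bool)) (x : ℕ → Bool) (n : ℕ) : Prop :=
  ∀ b : Bool, ∃ y ∈ P, (∀ i < n, y i = x i) ∧ y n = b

/-- The inverse of the canonical homeomorphism of `P`: the bits of `x` read at the successive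
branching points below `x`. -/
noncomputable def code (P : Set (ℕ → Bool)) (x : ℕ → Bool) : ℕ → Bool :=
  fun i => x (Nat.nth (Split P x) i)

/-- `A ∩ P` has canonical measure zero for every nonempty perfect `P`. -/
def PerfectlyNull (A : Set (ℕ → Bool)) : Prop :=
  ∀ P : Set (ℕ → Bool), Perfect P → P.Nonempty → coins (1 / 2) (1 / 2) (code P '' (A ∩ P)) = 0

/-- `A` is null for every finite diffused Borel measure. -/
def UniversallyNull (A : Set (ℕ → Bool)) : Prop :=
  ∀ μ : Measure (ℕ → Bool), IsFiniteMeasure μ → (∀ x, μ {x} = 0) → μ A = 0

end Pool.Agent.H57.PN
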