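import Pool.Agent.H57.PSDefs
import Pool.Agent.H57.PN

set_option autoImplicit false

namespace Pool.Agent.H57.PS

open MeasureTheory Filter Topology Set Pool.Agent.H57.PN

lemma gdelta_null {Y : Type} [TopologicalSpace Y] [MeasurableSpace Y] (ν : Measure Y)
    [ν.OuterRegular] {D : Set Y} (hD : ν D = 0) : ∃ G : Set Y, IsGδ G ∧ D ⊆ G ∧ ν G = 0 := by
  have : ∀ k : ℕ, ∃ U, D ⊆ U ∧ IsOpen U ∧ ν U < (1 / 2 : ENNReal) ^ k := fun k =>
    D.exists_isOpen_lt_of_lt _ (by rw [hD]; exact ENNReal.pow_pos (by norm_num) k)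
  choose U hU1 hU2 hU3 using this
  exact ⟨⋂ k, U k, IsGδ.iInter_of_isOpen hU2, subset_iInter hU1,
    null_of_le (θ := 1 / 2) (by norm_num) fun k =>
      (measure_mono (iInter_subset U k)).trans (hU3 k).le⟩

lemma meagre_countable {Y : Type} [TopologicalSpace Y] [T1Space Y]
    (h : ∀ x : Y, ∀ U ∈ 𝓝 x, ∃ y ∈ U, y ≠ x) {C : Set Y} (hC : C.Countable) : IsMeagre C := by
  rw [← biUnion_of_singleton C]
  refine isMeagre_biUnion hC fun x _ => IsNowhereDense.isMeagre ?_
  rw [isClosed_singleton.isNowhereDense_iff, eq_empty_iff_forall_notMem]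
  intro z hz
  have hzx : z = x := mem_singleton_iff.mp (interior_subset hz)
  obtain ⟨y, hy, hne⟩ := h z _ (mem_interior_iff_mem_nhds.mp hz)
  exact hne (hy.trans hzx.symm)

lemma cyl_sub {x : ℕ → Bool} {U : Set (ℕ → Bool)} (hU : U ∈ 𝓝 x) : ∃ n, cyl n x ⊆ U := by
  rw [nhds_pi, Filter.mem_pi] at hU
  obtain ⟨I, hI, t, ht, hsub⟩ := hU
  obtain ⟨M, hM⟩ := hI.bddAbove
  refine ⟨M + 1, fun y hy => hsub fun i hi => ?_⟩
  rw [hy i (Nat.lt_succ_of_le (hM hi))]
  exact mem_of_mem_nhds (ht i)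

lemma cantor_acc (x : ℕ → Bool) (U : Set (ℕ → Bool)) (hU : U ∈ 𝓝 x) : ∃ y ∈ U, y ≠ x := by
  obtain ⟨n, hn⟩ := cyl_sub hU
  refine ⟨Function.update x n (!x n), hn fun i hi => Function.update_of_ne hi.ne _ _, fun h => ?_⟩
  have := congrFun h n
  simp at this

lemma half : (1 / 2 : ENNReal) + 1 / 2 = 1 := ENNReal.add_halves 1

lemma meagre_of_null {C : Set (ℕ → Bool)} (hC : IsClosed C) (h0 : coins (1 / 2) (1 / 2) C = 0) :
    IsMeagre C := by
  apply IsNowhereDense.isMeagre
  rw [hC.isNowhereDense_iff, eq_empty_iff_forall_notMem]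
  intro z hz
  obtain ⟨n, hn⟩ := cyl_sub (mem_interior_iff_mem_nhds.mp hz)
  have := measure_mono_null hn h0
  rw [cyl_meas half, Finset.prod_eq_zero_iff] at this
  obtain ⟨i, -, hi⟩ := this
  simp at hi

lemma comeagre_null (ν : Measure (ℕ → Bool)) [IsFiniteMeasure ν] :
    ∃ G : Set (ℕ → Bool), IsGδ G ∧ IsMeagre Gᶜ ∧ ν G = 0 := by
  have h1 : {y | 0 < ν {y}}.Countable :=
    Measure.countable_meas_pos_of_disjoint_iUnion (μ := ν) (As := fun y => {y})
      (fun y => measurableSet_singleton y) (fun a b hab => by simpa using hab)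
  have h2 : Dense {y | 0 < ν {y}}ᶜ := dense_of_mem_residual (meagre_countable cantor_acc h1)
  obtain ⟨D, hD1, hD2, hD3⟩ := h2.exists_countable_dense_subset
  have h3 : ν D = 0 := by
    rw [← biUnion_of_singleton D]
    exact (measure_biUnion_null_iff hD2).mpr fun y hy => by simpa using hD1 hy
  obtain ⟨G, hG1, hG2, hG3⟩ := gdelta_null ν h3
  refine ⟨G, hG1, ?_, hG3⟩
  rw [IsMeagre, compl_compl]
  exact residual_of_dense_Gδ hG1 (hD3.mono hG2)

lemma fsigma_union {X : Type} [TopologicalSpace X] [T1Space X] {G C : Set X} (hG : IsGδ G)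
    (hC : C.Countable) : FSigma (Gᶜ ∪ C) := by
  have h1 : IsGδ (G ∩ Cᶜ) := hG.inter hC.isGδ_compl
  obtain ⟨U, hU, hU'⟩ := h1.eq_iInter_nat
  refine ⟨fun n => (U n)ᶜ, fun n => (hU n).isClosed_compl, ?_⟩
  rw [← compl_iInter, ← hU', compl_inter, compl_compl]

theorem main (hCH : Cardinal.continuum.{0} = Cardinal.aleph 1) :
    ∃ A : Set ((ℕ → Bool) × (ℕ → Bool)), PMSigma A ∧ UN A ∧ ¬ PNSigma A := by
  classical
  haveI := coin_prob half
  haveI : IsProbabilityMeasure (coins (1 / 2) (1 / 2)) := by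
    rw [coins_eq]
    infer_instance
  set ν := coins (1 / 2) (1 / 2) with hν
  have hν0 : ∀ y, ν {y} = 0 := atomless half (θ := 1 / 2) le_rfl le_rfl (by norm_num)
  let ι := {t : Set ((ℕ → Bool) × (ℕ → Bool)) // MeasurableSet t}
  have hcard : Cardinal.mk ι ≤ Cardinal.continuum := by
    have := MeasurableSpace.cardinal_measurableSet_le_continuum
      (s := MeasurableSpace.countableGeneratingSet ((ℕ → Bool) × (ℕ → Bool)))
      ((Cardinal.le_aleph0_iff_set_countable.mpr
        MeasurableSpace.countable_countableGeneratingSet).trans Cardinal.aleph0_le_continuum)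
    rw [MeasurableSpace.generateFrom_countableGeneratingSet] at this
    exact this
  obtain ⟨L, hcount, htot⟩ := ch_rel hCH ι hcard
  have hex : ∀ i : ι, ∃ z : (ℕ → Bool) × (ℕ → Bool), ∀ j ∈ L i,
      (ν {y | ν (Prod.mk y ⁻¹' j.1) ≠ 0} = 0 → ν (Prod.mk z.1 ⁻¹' j.1) = 0) ∧
      (IsMeagre (Prod.mk z.1 ⁻¹' j.1) → z ∉ j.1) := by
    intro i
    have h1 : ∀ᵐ y ∂ν, ∀ j ∈ L i,
        (ν {y | ν (Prod.mk y ⁻¹' j.1) ≠ 0} = 0 → ν (Prod.mk y ⁻¹' j.1) = 0) := by
      refine (ae_ball_iff (hcount i)).mpr fun j _ => ?_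
      by_cases h : ν {y | ν (Prod.mk y ⁻¹' j.1) ≠ 0} = 0
      · filter_upwards [measure_eq_zero_iff_ae_notMem.mp h] with y hy _
        simpa using hy
      · exact Eventually.of_forall fun y hy => absurd hy h
    obtain ⟨y, hy⟩ := h1.exists
    have h2 : IsMeagre (⋃ j ∈ L i, if IsMeagre (Prod.mk y ⁻¹' j.1) then Prod.mk y ⁻¹' j.1
        else ∅) := by
      refine isMeagre_biUnion (hcount i) fun j _ => ?_
      split_ifs with h
      · exact h
      · exact IsMeagre.empty
    obtain ⟨w, hw⟩ := (dense_of_mem_residual h2).nonempty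
    refine ⟨(y, w), fun j hj => ⟨hy j hj, fun hm hin => hw (mem_biUnion hj ?_)⟩⟩
    rw [if_pos hm]
    exact hin
  choose z hz using hex
  refine ⟨range z, fun P hP => ?_, fun μ hμ hμ0 => ?_, fun hA => ?_⟩
  · choose D hD1 hD2 using fun n => TopologicalSpace.exists_countable_dense (P n)
    have h1 : ν (⋃ n, (fun x : P n => x.1.1) '' D n) = 0 := by
      refine measure_iUnion_null fun n => ?_
      rw [← biUnion_of_singleton ((fun x : P n => x.1.1) '' D n)]
      exact (measure_biUnion_null_iff ((hD1 n).image _)).mpr fun y _ => hν0 y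
    obtain ⟨G, hG1, hG2, hG3⟩ := gdelta_null ν h1
    set S : ι := ⟨Prod.fst ⁻¹' G, measurable_fst hG1.measurableSet⟩ with hS
    refine ⟨(Prod.fst ⁻¹' G)ᶜ ∪ z '' L S,
      fsigma_union (hG1.preimage continuous_fst) ((hcount S).image _), ?_, fun n => ?_⟩
    · rintro _ ⟨i, rfl⟩
      rcases htot i S with his | his
      · exact Or.inr ⟨i, his, rfl⟩
      · left
        intro hin
        have := (hz i S his).1 (measure_mono_null (fun y hy => by
          by_contra hn
          apply hy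
          have : Prod.mk y ⁻¹' S.1 = ∅ := by
            ext w
            simpa [hS] using hn
          rw [this, measure_empty]) hG3)
        have h2 : Prod.mk (z i).1 ⁻¹' S.1 = univ := by
          ext w
          simpa [hS] using hin
        rw [h2] at this
        simp at this
    · rw [preimage_union]
      refine IsMeagre.union ?_ (meagre_countable ?_
        (((hcount S).image _).preimage Subtype.val_injective))
      · rw [IsMeagre, ← preimage_compl, compl_compl]
        refine residual_of_dense_Gδ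
          ((hG1.preimage continuous_fst).preimage continuous_subtype_val) ((hD2 n).mono ?_)
        intro x hx
        exact hG2 (mem_iUnion.mpr ⟨n, x, hx, rfl⟩)
      · intro x U hU
        rw [mem_nhds_subtype] at hU
        obtain ⟨V, hV, hVU⟩ := hU
        obtain ⟨y, hy, hne⟩ := preperfect_iff_nhds.mp (hP n).acc x.1 x.2 V hV
        exact ⟨⟨y, hy.2⟩, hVU hy.1, fun h => hne (congrArg Subtype.val h)⟩
  · obtain ⟨G, hG1, hG2, hG3⟩ := comeagre_null (μ.map Prod.snd)
    rw [Measure.map_apply measurable_snd hG1.measurableSet] at hG3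
    set S : ι := ⟨Prod.snd ⁻¹' Gᶜ, measurable_snd hG1.measurableSet.compl⟩ with hS
    have h1 : μ (z '' L S) = 0 := by
      rw [← biUnion_of_singleton (z '' L S)]
      exact (measure_biUnion_null_iff ((hcount S).image _)).mpr fun y _ => hμ0 y
    refine measure_mono_null ?_ (measure_union_null hG3 h1)
    rintro _ ⟨i, rfl⟩
    rcases htot i S with his | his
    · exact Or.inr ⟨i, his, rfl⟩
    · left
      have := (hz i S his).2 hG2
      simpa [hS] using this
  · obtain ⟨F, ⟨C, hC, rfl⟩, hAF, hF⟩ := hA (ν.prod ν) inferInstance (by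
      rintro ⟨a, b⟩
      rw [← singleton_prod_singleton, Measure.prod_prod, hν0, zero_mul])
    have hm : MeasurableSet (⋃ n, C n) := MeasurableSet.iUnion fun n => (hC n).measurableSet
    set S : ι := ⟨⋃ n, C n, hm⟩ with hS
    have hSS : S ∈ L S := (htot S S).elim id id
    have h1 := (hz S S hSS).1 (by
      have := (Measure.measure_prod_null hm).mp hF
      exact this)
    refine (hz S S hSS).2 ?_ (hAF (mem_range_self S))
    rw [hS, preimage_iUnion] at h1 ⊢
    refine isMeagre_iUnion fun n => meagre_of_null ((hC n).preimage (by fun_prop)) ?_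
    exact measure_mono_null (subset_iUnion (fun n => Prod.mk (z S).1 ⁻¹' C n) n) h1

lemma perfect_space : PerfectSpace ((ℕ → Bool) × (ℕ → Bool)) := by
  refine ⟨preperfect_iff_nhds.mpr ?_⟩
  rintro ⟨a, b⟩ - U hU
  obtain ⟨y, hy, hne⟩ := cantor_acc b (Prod.mk a ⁻¹' U)
    ((Continuous.prodMk_right a).continuousAt.preimage_mem_nhds hU)
  exact ⟨(a, y), ⟨hy, mem_univ _⟩, fun h => hne (congrArg Prod.snd h)⟩

end Pool.Agent.H57.PS
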