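import Mathlib

set_option autoImplicit false

namespace Pool.Agent.H57.PS

open MeasureTheory

variable {X : Type} [TopologicalSpace X]

/-- A countable union of closed sets. -/
def FSigma (F : Set X) : Prop := ∃ C : ℕ → Set X, (∀ n, IsClosed (C n)) ∧ F = ⋃ n, C n

/-- Countably perfectly meager. -/
def PMSigma (A : Set X) : Prop :=
  ∀ P : ℕ → Set X, (∀ n, Perfect (P n)) →
    ∃ F : Set X, FSigma F ∧ A ⊆ F ∧ ∀ n, IsMeagre ((↑) ⁻¹' F : Set (P n))

variable [MeasurableSpace X]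

/-- Universally null. -/
def UN (A : Set X) : Prop :=
  ∀ μ : Measure X, IsFiniteMeasure μ → (∀ x, μ {x} = 0) → μ A = 0

/-- Countably perfectly null. -/
def PNSigma (A : Set X) : Prop :=
  ∀ μ : Measure X, IsFiniteMeasure μ → (∀ x, μ {x} = 0) →
    ∃ F : Set X, FSigma F ∧ A ⊆ F ∧ μ F = 0

end Pool.Agent.H57.PS
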