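import Pool.Agent.H57.ApM
import Pool.Agent.H84.DtDefs

set_option autoImplicit false

/-! Free sets for triple systems under PFA: finite conditions with side conditions. -/

namespace Pool.Agent.H57.Pf

open Set Cardinal Pool.Agent.H57.Lots Pool.Agent.H57.Coh Pool.Agent.H57.Ap Sum
open Pool.Agent.H84.DtDefs (IsDense Proper PFA)

theorem cnt_fs {X : Type} {s : Set X} (h : s.Countable) : {a : Finset X | ↑a ⊆ s}.Countable :=
  ((countable_setOf_finite_subset h).preimage Finset.coe_injective).mono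
    fun a ha => And.intro a.finite_toSet ha

theorem fs_rec {X Z : Type} (I : Finset X → Z → Prop) (R : Finset X → Z → Z → Prop)
    (h : ∀ s (C : Set Z), C.Countable → (∀ x ∈ C, ∃ t, I t x) → ∃ z, I s z ∧ ∀ x ∈ C, R s x z) :
    ∃ st : ℕ → Finset X → Z, ∀ n s, I s (st n s) ∧ ∀ m < n, ∀ t ⊆ s, R s (st m t) (st n s) := by
  haveI : Nonempty Z := ⟨(h ∅ ∅ countable_empty (by simp)).choose⟩
  choose! p hp using h
  let st : ℕ → Finset X → Z := wellFounded_lt.fix fun n ih s =>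
    p s (⋃ m : Iio n, ih m.1 m.2 '' {t | ↑t ⊆ (s : Set X)})
  have hr : ∀ n s, st n s = p s (⋃ m : Iio n, st m '' {t | ↑t ⊆ (s : Set X)}) := fun n =>
    congrFun (wellFounded_lt.fix_eq _ n)
  refine ⟨st, fun n => ?_⟩
  induction n using WellFoundedLT.induction with
  | ind n ih =>
  intro s
  have := hp s (⋃ m : Iio n, st m '' {t | ↑t ⊆ (s : Set X)})
    (countable_iUnion fun m => (cnt_fs s.countable_toSet).image _) fun x hx => by
      obtain ⟨m, t, -, rfl⟩ := mem_iUnion.1 hx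
      exact ⟨t, (ih m m.2 t).1⟩
  rw [← hr] at this
  exact ⟨this.1, fun m hm t ht => this.2 _ (mem_iUnion.2 ⟨⟨m, hm⟩, t, ht, rfl⟩)⟩

theorem hull {X : Type} (F : Finset X → ℕ → X) {S : Set X} (hS : S.Countable) :
    ∃ N, S ⊆ N ∧ N.Countable ∧ ∀ s : Finset X, ↑s ⊆ N → ∀ n, F s n ∈ N := by
  let A : ℕ → Set X := fun k => k.rec S fun _ A => A ∪ ⋃ s ∈ {a : Finset X | ↑a ⊆ A}, range (F s)
  have h1 : Monotone A := monotone_nat_of_le_succ fun _ => subset_union_left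
  refine ⟨⋃ k, A k, subset_iUnion A 0, countable_iUnion fun k => ?_, fun s hs n => ?_⟩
  · induction k with
    | zero => exact hS
    | succ k ih => exact ih.union ((cnt_fs ih).biUnion fun _ _ => countable_range _)
  · obtain ⟨k, hk⟩ := h1.directed_le.exists_mem_subset_of_finset_subset_biUnion hs
    exact mem_iUnion.2 ⟨k + 1, Or.inr (mem_biUnion hk ⟨n, rfl⟩)⟩

section ev

variable {U : Type}

def Ev (φ : W1 × Set U → Prop) : Prop :=
  ∃ ε E, Set.Countable E ∧ ∀ z : W1 × Set U, ε < z.1 → E ⊆ z.2 → φ z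

theorem Ev.all {ι : Type} {s : Set ι} (hs : s.Countable) {φ : ι → W1 × Set U → Prop}
    (h : ∀ i ∈ s, Ev (φ i)) : Ev fun z => ∀ i ∈ s, φ i z := by
  choose! ε E h1 h2 using h
  obtain ⟨b, hb⟩ := bd1 (hs.image ε)
  exact ⟨b, ⋃ i ∈ s, E i, hs.biUnion h1, fun z k1 k2 i hi => h2 i hi z
    ((hb _ ⟨i, hi, rfl⟩).trans k1) ((subset_biUnion_of_mem hi).trans k2)⟩

theorem Ev.and {φ ψ : W1 × Set U → Prop} (h : Ev φ) (h' : Ev ψ) : Ev fun z => φ z ∧ ψ z :=
  let ⟨ε, E, h1, h2⟩ := h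
  let ⟨ε', E', h3, h4⟩ := h'
  ⟨max ε ε', E ∪ E', h1.union h3, fun z k1 k2 =>
    ⟨h2 z ((le_max_left _ _).trans_lt k1) (subset_union_left.trans k2),
      h4 z ((le_max_right _ _).trans_lt k1) (subset_union_right.trans k2)⟩⟩

theorem Ev.mono {φ ψ : W1 × Set U → Prop} (h : Ev φ) (h' : ∀ z, φ z → ψ z) : Ev ψ :=
  let ⟨ε, E, h1, h2⟩ := h
  ⟨ε, E, h1, fun z k1 k2 => h' z (h2 z k1 k2)⟩

theorem Ev.imp {φ : W1 × Set U → Prop} {p : Prop} (h : p → Ev φ) : Ev fun z => p → φ z := by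
  by_cases hp : p
  · exact (h hp).mono fun _ h _ => h
  · exact ⟨Classical.arbitrary _, ∅, countable_empty, fun _ _ _ h => absurd h hp⟩

theorem Ev.ex {φ : W1 × Set U → Prop} (h : Ev φ) : ∃ z : W1 × Set U, z.2.Countable ∧ φ z :=
  let ⟨ε, E, h1, h2⟩ := h
  let ⟨δ, h3⟩ := exists_gt ε
  ⟨(δ, E), h1, h2 _ h3 subset_rfl⟩

theorem ev_lt (ε : W1) : Ev fun z : W1 × Set U => ε < z.1 :=
  ⟨ε, ∅, countable_empty, fun _ h _ => h⟩

theorem ev_sub {E : Set U} (h : E.Countable) : Ev fun z : W1 × Set U => E ⊆ z.2 :=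
  ⟨Classical.arbitrary _, E, h, fun _ _ h => h⟩

end ev

open Classical in
def Fat (T : Set (Finset W1)) : ℕ → Finset W1 → Prop
  | 0, a => a ∈ T
  | n + 1, a => ∀ b, ∃ x, b < x ∧ Fat T n (insert x a)

open Classical in
def Refl (ε : W1) (T : Set (Finset W1)) : Prop :=
  ∀ n (a : Finset W1), ↑a ⊆ Iio ε → ∀ x, ε ≤ x → Fat T n (insert x a) → Fat T (n + 1) a

open Classical in
theorem fat_of {T : Set (Finset W1)} (b : Finset W1) : ∀ a : Finset W1, a ∪ b ∈ T →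
    (∀ x ∈ b, ∃ ε ≤ x, Refl ε T ∧ ∀ y ∈ a ∪ b, y < x → y < ε) → (∀ y ∈ a, ∀ x ∈ b, y < x) →
    Fat T b.card a := by
  induction b using Finset.induction_on_min with
  | empty => intro a h _ _; simpa [Fat] using h
  | insert x b hx ih =>
    intro a h1 h2 h3
    have e : insert x a ∪ b = a ∪ insert x b := by simp
    obtain ⟨ε, k1, k2, k3⟩ := h2 x (by simp)
    rw [Finset.card_insert_of_notMem fun h => (hx x h).false]
    refine k2 _ a (fun y hy => k3 y (by simp [show y ∈ a from hy]) (h3 y hy x (by simp))) x k1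
      (ih _ (e ▸ h1) (fun y hy => e ▸ h2 y (by simp [hy])) fun y hy z hz => ?_)
    rcases Finset.mem_insert.1 hy with rfl | hy
    · exact hx z hz
    · exact h3 y hy z (by simp [hz])

variable {Bd : W1 → W1 → W1 → Prop}

open Classical in
theorem copy (h1 : ∀ x y, ¬ Bd x y x) (h2 : ∀ y w, {x | Bd x y w ∨ Bd w y x}.Finite)
    {T : Set (Finset W1)} {δ μ : W1} (hμ : μ < δ) (b : Finset W1)
    (hT : ∀ n (a : Finset W1), ↑a ⊆ Iio δ → Fat T (n + 1) a → ∀ c < δ, ∃ x, c < x ∧ x < δ ∧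
      Fat T n (insert x a)) (n : ℕ) : ∀ a : Finset W1, ↑a ⊆ Iio δ → Fat T n a →
    (∀ y ∈ b, ∀ u ∈ a ∪ b, ∀ w ∈ a ∪ b, ¬ Bd u y w) → ∃ a' ∈ T, ↑a' ⊆ Iio δ ∧
      ∀ y ∈ b, ∀ u ∈ a' ∪ b, ∀ w ∈ a' ∪ b, ¬ Bd u y w := by
  induction n with
  | zero => exact fun a k1 k2 k3 => ⟨a, k2, k1, k3⟩
  | succ n ih =>
    intro a k1 k2 k3
    have k4 := b.finite_toSet.biUnion fun y _ => (a ∪ b).finite_toSet.biUnion fun w _ => h2 y w
    obtain ⟨c, c1, c2⟩ := Pr.fin_bd (k4.toFinset.filter (· < δ)) hμ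
      fun y hy => (Finset.mem_filter.1 hy).2
    obtain ⟨x, x1, x2, x3⟩ := hT n a k1 k2 c c1
    have k5 : ∀ y ∈ b, ∀ w ∈ a ∪ b, ¬ (Bd x y w ∨ Bd w y x) := fun y hy w hw h =>
      x1.not_ge (c2 x (Finset.mem_filter.2 ⟨k4.mem_toFinset.2
        (mem_biUnion hy (mem_biUnion hw h)), x2⟩))
    refine ih _ (by rw [Finset.coe_insert]; exact insert_subset x2 k1) x3 fun y hy u hu w hw h => ?_
    rw [Finset.insert_union, Finset.mem_insert] at hu hw
    rcases hu with rfl | hu <;> rcases hw with rfl | hw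
    · exact h1 _ _ h
    · exact k5 y hy w hw (Or.inl h)
    · exact k5 y hy u hu (Or.inr h)
    · exact k3 y hy u hu w hw h

end Pool.Agent.H57.Pf
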