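import Pool.Agent.H57.PfA

set_option autoImplicit false

/-! Free sets for triple systems under PFA. -/

namespace Pool.Agent.H57.Pf

open Set Cardinal Filter Pool.Agent.H57.Lots Pool.Agent.H57.Coh Pool.Agent.H57.Ap Sum
open Pool.Agent.H84.DtDefs (IsDense Proper PFA)

variable {U : Type} (Bd : W1 → W1 → W1 → Prop) (dec : U → Set U) (tr : U → Set (Finset W1))

structure Cond (r : Finset W1 × Finset (W1 × U)) : Prop where
  free : ∀ x ∈ r.1, ∀ y ∈ r.1, ∀ z ∈ r.1, ¬ Bd x y z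
  refl : ∀ e ∈ r.2, ∀ v ∈ dec e.2, Refl e.1 (tr v)
  chain : ∀ e ∈ r.2, ∀ e' ∈ r.2, (e.1 ≤ e'.1 → dec e.2 ⊆ dec e'.2) ∧ (e.1 < e'.1 → e.2 ∈ dec e'.2)
  sep : ∀ x ∈ r.1, ∀ y ∈ r.1, x < y → ∃ e ∈ r.2, x < e.1 ∧ e.1 ≤ y

def Pc (b : Finset W1 × Finset (W1 × U)) : Type := {r // Cond Bd dec tr r ∧ b ≤ r}

instance (b : Finset W1 × Finset (W1 × U)) : PartialOrder (Pc Bd dec tr b) :=
  PartialOrder.lift (fun r => OrderDual.toDual r.1) Subtype.val_injective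

variable {Bd dec tr} {b : Finset W1 × Finset (W1 × U)}

def M (z : W1 × Set U) : Set (Pc Bd dec tr b) :=
  {r | ↑r.1.1 ⊆ Iio z.1 ∧ ↑r.1.2 ⊆ Iio z.1 ×ˢ z.2}

theorem M_cnt {z : W1 × Set U} (h : z.2.Countable) : (M z : Set (Pc Bd dec tr b)).Countable :=
  ((cnt_fs (Iio_countable z.1)).prod (cnt_fs ((Iio_countable z.1).prod h))).preimage
    Subtype.val_injective

theorem M_mono {z z' : W1 × Set U} (h : z.1 ≤ z'.1) (h' : z.2 ⊆ z'.2) :
    (M z : Set (Pc Bd dec tr b)) ⊆ M z' := fun _ k =>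
  ⟨k.1.trans (Iio_subset_Iio h), k.2.trans (prod_mono (Iio_subset_Iio h) h')⟩

theorem ev_M (p : Pc Bd dec tr b) : Ev fun z => p ∈ M z :=
  ((Ev.all p.1.1.countable_toSet fun x _ => ev_lt x).and (Ev.all p.1.2.countable_toSet
    fun e _ => (ev_lt e.1).and (ev_sub (countable_singleton e.2)))).mono fun _ h =>
      ⟨h.1, fun e he => ⟨(h.2 e he).1, (h.2 e he).2 rfl⟩⟩

def T (D : Set (Pc Bd dec tr b)) (r : Pc Bd dec tr b) : Set (Finset W1) :=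
  {a | ∃ d ∈ D, d ≤ r ∧ d.1.1 = a}

open Classical in
structure Step (s : Finset (Pc Bd dec tr b ⊕ Set (Pc Bd dec tr b))) (x z : W1 × Set U) :
    Prop where
  lt : x.1 < z.1
  sub : x.2 ⊆ z.2
  cd : ∀ D, inr D ∈ s → ∀ r ∈ M x, ∃ v ∈ z.2, tr v = T D r
  fat : ∀ v ∈ x.2, ∀ n, ∀ a : Finset W1, ↑a ⊆ Iio x.1 →
    (Fat (tr v) (n + 1) a → ∃ y, x.1 < y ∧ y < z.1 ∧ Fat (tr v) n (insert y a)) ∧
    (¬ Fat (tr v) (n + 1) a → ∀ y, z.1 ≤ y → ¬ Fat (tr v) n (insert y a))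
  wit : ∀ D, inr D ∈ s → ∀ r ∈ M x, ∀ a : Finset W1, ↑a ⊆ Iio x.1 → a ∈ T D r →
    ∃ d ∈ D, d ∈ M z ∧ d ≤ r ∧ d.1.1 = a
  dec : ∀ u ∈ x.2, dec u ⊆ z.2

theorem ev_step (hd : ∀ u, (dec u).Countable) (ht : Function.Surjective tr)
    (s : Finset (Pc Bd dec tr b ⊕ Set (Pc Bd dec tr b))) {x : W1 × Set U} (hx : x.2.Countable) :
    Ev (Step s x) := by
  have h1 : {D | inr D ∈ s}.Countable := s.countable_toSet.preimage inr_injective
  have h2 := cnt_fs (Iio_countable x.1)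
  refine ((ev_lt x.1).and ((ev_sub hx).and ((Ev.all h1 fun D _ => Ev.all (M_cnt hx) fun r _ =>
    ?_).and ((Ev.all hx fun v _ => Ev.all countable_univ fun n _ => Ev.all h2 fun a _ =>
    (Ev.imp fun h => ?_).and (Ev.imp fun h => ?_)).and ((Ev.all h1 fun D _ =>
    Ev.all (M_cnt hx) fun r _ => Ev.all h2 fun a _ => Ev.imp fun h => ?_).and
    (Ev.all hx fun u _ => ev_sub (hd u))))))).mono fun z ⟨k1, k2, k3, k4, k5, k6⟩ =>
      ⟨k1, k2, k3, fun v hv n => k4 v hv n trivial, k5, k6⟩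
  · obtain ⟨v, hv⟩ := ht (T D r)
    exact (ev_sub (countable_singleton v)).mono fun z h => ⟨v, h rfl, hv⟩
  · obtain ⟨y, k1, k2⟩ := h x.1
    exact (ev_lt y).mono fun z h => ⟨y, k1, h, k2⟩
  · obtain ⟨c, hc⟩ := not_forall.1 h
    exact (ev_lt c).mono fun z h y hy k => hc ⟨y, h.trans_le hy, k⟩
  · obtain ⟨d, k1, k2, k3⟩ := h
    exact (ev_M d).mono fun z h => ⟨d, k1, h, k2, k3⟩

theorem gen (h0 : ∀ x y z, Bd x y z → x < y ∧ z < y ∧ x ≠ z)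
    (h2 : ∀ y w, {x | Bd x y w ∨ Bd w y x}.Finite) (hd : ∀ u, (dec u).Countable)
    (hd' : ∀ N : Set U, N.Countable → ∃ u, dec u = N) (ht : Function.Surjective tr)
    [Nonempty (Pc Bd dec tr b)] : ∃ F : Finset (Pc Bd dec tr b ⊕ Set (Pc Bd dec tr b)) → ℕ →
      Pc Bd dec tr b ⊕ Set (Pc Bd dec tr b), ∀ N : Set _, N.Countable →
      (∀ s : Finset _, ↑s ⊆ N → ∀ n, F s n ∈ N) → ∀ p, inl p ∈ N → ∃ q ≤ p, q.1.1 = p.1.1 ∧
      ∀ D, inr D ∈ N → IsDense D → ∀ r ≤ q, ∃ d ∈ D, inl d ∈ N ∧ ∃ t, t ≤ d ∧ t ≤ r := by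
  classical
  obtain ⟨st, hs⟩ := fs_rec (fun s (z : W1 × Set U) => z.2.Countable ∧
    ∀ p : Pc Bd dec tr b, inl p ∈ s → p ∈ M z) Step fun s C h1 h2 => by
      obtain ⟨z, k1, k2, k3⟩ := ((Ev.all (s.countable_toSet.preimage inl_injective)
        fun p _ => ev_M p).and (Ev.all h1 fun x hx => ev_step hd ht s (h2 x hx).choose_spec.1)).ex
      exact ⟨z, ⟨k1, k2⟩, k3⟩
  choose en hen using fun s => countable_iff_exists_subset_range.1
    (countable_iUnion fun n => M_cnt (Bd := Bd) (dec := dec) (tr := tr) (b := b) (hs n s).1.1)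
  refine ⟨fun s n => inl (en s n), fun N hN hc p hp => ?_⟩
  have := hN.to_subtype
  let s : ℕ × Finset N → Finset _ := fun i => i.2.map (Function.Embedding.subtype _)
  let z : ℕ × Finset N → W1 × Set U := fun i => st i.1 (s i)
  have e0 : ∀ i, ∀ᶠ j in atTop, Step (s j) (z i) (z j) := fun i =>
    (eventually_ge_atTop (i.1 + 1, i.2)).mono fun j h =>
      (hs _ _).2 _ h.1 _ (Finset.map_subset_map.2 h.2)
  have e3 : ∀ x ∈ N, ∀ᶠ j in atTop, x ∈ s j := fun x hx =>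
    (eventually_ge_atTop (0, {⟨x, hx⟩})).mono fun j h =>
      Finset.mem_map_of_mem _ (h.2 (Finset.mem_singleton_self _))
  obtain ⟨δ, d1, d2⟩ := wellFounded_lt.has_min {c | ∀ a ∈ range fun i => (z i).1, a < c}
    (bd1 (countable_range _))
  replace d1 : ∀ i, (z i).1 < δ := fun i => d1 _ ⟨i, rfl⟩
  obtain ⟨u, hu⟩ := hd' (⋃ i, (z i).2) (countable_iUnion fun i => (hs _ _).1.1)
  have d3 : ∀ i, (z i).2 ⊆ dec u := fun i => hu ▸ subset_iUnion (fun i => (z i).2) i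
  have e1 : ∀ c < δ, ∀ᶠ j in atTop, c < (z j).1 := fun c h => by
    obtain ⟨i, hi⟩ := not_forall.1 fun k => d2 c (forall_mem_range.2 k) h
    exact (e0 i).mono fun j k => (not_lt.1 hi).trans_lt k.lt
  have e1' : ∀ a : Finset W1, ↑a ⊆ Iio δ → ∀ᶠ j in atTop, ↑a ⊆ Iio (z j).1 := fun a h =>
    (eventually_all_finset a).2 fun c hc => e1 c (h hc)
  have e2 : ∀ v ∈ dec u, ∀ᶠ j in atTop, v ∈ (z j).2 := fun v h => by
    obtain ⟨i, hi⟩ := mem_iUnion.1 (hu ▸ h)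
    exact (e0 i).mono fun j k => k.sub hi
  have e4 : ∀ r : Pc Bd dec tr b, r ∈ M (δ, dec u) → ∀ᶠ j in atTop, r ∈ M (z j) := fun r h =>
    (e1' _ h.1).and ((eventually_all_finset r.1.2).2 fun e he =>
      (e1 _ (h.2 he).1).and (e2 _ (h.2 he).2))
  have e5 : ∀ i, (M (z i) : Set (Pc Bd dec tr b)) ⊆ M (δ, dec u) := fun i =>
    M_mono (d1 i).le (d3 i)
  have f2 : ∀ v ∈ dec u, Refl δ (tr v) ∧ ∀ n (a : Finset W1), ↑a ⊆ Iio δ →
      Fat (tr v) (n + 1) a → ∀ c < δ, ∃ x, c < x ∧ x < δ ∧ Fat (tr v) n (insert x a) :=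
    fun v hv => ⟨fun n a ha x hx h => by_contra fun k => by
      obtain ⟨i, k1, k2⟩ := ((e2 v hv).and (e1' a ha)).exists
      obtain ⟨j, k3⟩ := (e0 i).exists
      exact (k3.fat v k1 n a k2).2 k x ((d1 j).le.trans hx) (by convert h),
      fun n a ha h c hc => by
      obtain ⟨i, k1, k2, k4⟩ := ((e2 v hv).and ((e1' a ha).and (e1 c hc))).exists
      obtain ⟨j, k3⟩ := (e0 i).exists
      obtain ⟨y, l1, l2, l3⟩ := (k3.fat v k1 n a k2).1 h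
      exact ⟨y, k4.trans l1, l2.trans (d1 j), by convert l3⟩⟩
  have f4 : ∀ v ∈ dec u, dec v ⊆ dec u := fun v hv => by
    obtain ⟨i, k1⟩ := (e2 v hv).exists
    obtain ⟨j, k3⟩ := (e0 i).exists
    exact (k3.dec v k1).trans (d3 j)
  obtain ⟨i, hi⟩ := (e3 _ hp).exists
  have p1 := e5 i ((hs _ _).1.2 p hi)
  refine ⟨⟨(p.1.1, insert (δ, u) p.1.2), ⟨p.2.1.free, ?_, ?_, fun x hx y hy h => ?_⟩,
    p.2.2.1, p.2.2.2.trans (Finset.subset_insert _ _)⟩, ⟨le_rfl, Finset.subset_insert _ _⟩, rfl,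
    fun D hD hD' r hr => ?_⟩
  · simp only [Finset.forall_mem_insert]
    exact ⟨fun v hv => (f2 v hv).1, p.2.1.refl⟩
  · simp only [Finset.forall_mem_insert]
    exact ⟨⟨⟨fun _ => subset_rfl, fun h => h.false.elim⟩, fun e he =>
      ⟨fun h => absurd (p1.2 he).1 h.not_gt, fun h => absurd (p1.2 he).1 h.not_gt⟩⟩, fun e he =>
      ⟨⟨fun _ => f4 _ (p1.2 he).2, fun _ => (p1.2 he).2⟩, p.2.1.chain e he⟩⟩
  · obtain ⟨e, he, h⟩ := p.2.1.sep x hx y hy h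
    exact ⟨e, Finset.mem_insert_of_mem he, h⟩
  obtain ⟨r', r1, r2⟩ := hD' r
  have r3 : (δ, u) ∈ r'.1.2 := r2.2 (hr.2 (Finset.mem_insert_self _ _))
  have c := r'.2.1
  let r0 : Pc Bd dec tr b := ⟨(r'.1.1.filter (· < δ), r'.1.2.filter (·.1 < δ)),
    ⟨fun x hx y hy w hw => c.free x (Finset.mem_filter.1 hx).1 y (Finset.mem_filter.1 hy).1 w
      (Finset.mem_filter.1 hw).1, fun e he => c.refl e (Finset.mem_filter.1 he).1,
      fun e he e' he' => c.chain e (Finset.mem_filter.1 he).1 e' (Finset.mem_filter.1 he').1,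
      fun x hx y hy h => by
        obtain ⟨e, he, h⟩ := c.sep x (Finset.mem_filter.1 hx).1 y (Finset.mem_filter.1 hy).1 h
        exact ⟨e, Finset.mem_filter.2 ⟨he, h.2.trans_lt (Finset.mem_filter.1 hy).2⟩, h⟩⟩,
    fun x hx => Finset.mem_filter.2 ⟨r'.2.2.1 hx, p1.1 (p.2.2.1 hx)⟩,
    fun e he => Finset.mem_filter.2 ⟨r'.2.2.2 he, (p1.2 (p.2.2.2 he)).1⟩⟩
  have r4 : r0 ∈ M (δ, dec u) := ⟨fun x hx => (Finset.mem_filter.1 hx).2, fun e he =>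
    ⟨(Finset.mem_filter.1 he).2, (c.chain e (Finset.mem_filter.1 he).1 _ r3).2
      (Finset.mem_filter.1 he).2⟩⟩
  obtain ⟨v, v1, v2⟩ : ∃ v ∈ dec u, tr v = T D r0 := by
    obtain ⟨i, k1⟩ := (e4 r0 r4).exists
    obtain ⟨j, k2, k3⟩ := ((e0 i).and (e3 _ hD)).exists
    obtain ⟨v, k4, k5⟩ := k2.cd D k3 r0 k1
    exact ⟨v, d3 j k4, k5⟩
  let B := r'.1.1.filter (¬ · < δ)
  have b1 : r0.1.1 ∪ B = r'.1.1 := Finset.filter_union_filter_not_eq _ _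
  have b2 : ∀ x ∈ B, x ∈ r'.1.1 ∧ δ ≤ x := fun x hx =>
    ⟨(Finset.mem_filter.1 hx).1, not_lt.1 (Finset.mem_filter.1 hx).2⟩
  have b3 : Fat (tr v) B.card r0.1.1 := fat_of B _ (by
      rw [v2]
      exact ⟨r', r1, ⟨Finset.filter_subset _ _, Finset.filter_subset _ _⟩, by convert b1.symm⟩)
    (fun x hx => by
      by_cases h : ∃ y ∈ r'.1.1, δ ≤ y ∧ y < x
      · obtain ⟨y, k1, k2, k3⟩ := h
        obtain ⟨y', k4, k5⟩ := (r'.1.1.filter (· < x)).exists_max_image id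
          ⟨y, Finset.mem_filter.2 ⟨k1, k3⟩⟩
        obtain ⟨e, l1, l2, l3⟩ := c.sep y' (Finset.mem_filter.1 k4).1 x (b2 x hx).1
          (Finset.mem_filter.1 k4).2
        refine ⟨e.1, l3, c.refl e l1 v ((c.chain _ r3 e l1).1
          (k2.trans ((k5 y (Finset.mem_filter.2 ⟨k1, k3⟩)).trans l2.le)) v1), fun w hw k => ?_⟩
        exact lt_of_le_of_lt (k5 w (Finset.mem_filter.2 ⟨b1 ▸ (by convert hw), k⟩)) l2
      · exact ⟨δ, (b2 x hx).2, (f2 v v1).1, fun w hw k => not_le.1 fun k' =>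
          h ⟨w, b1 ▸ (by convert hw), k', k⟩⟩)
    fun y hy x hx => (r4.1 hy).trans_le (b2 x hx).2
  obtain ⟨a, a1, a2, a3⟩ := copy (fun x y h => (h0 _ _ _ h).2.2 rfl) h2 (d1 i) B
    (fun n a h h' c hc => by convert (f2 v v1).2 n a h h' c hc) _ _ r4.1 b3 fun y hy x hx w hw =>
      c.free x (b1 ▸ (by convert hx)) y (b2 y hy).1 w (b1 ▸ (by convert hw))
  obtain ⟨i, k1, k2⟩ := ((e4 r0 r4).and (e1' a a2)).exists
  obtain ⟨j, k3, k4⟩ := ((e0 i).and (e3 _ hD)).exists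
  obtain ⟨d, l1, l2, l3, rfl⟩ := k3.wit D k4 r0 k1 a k2 (v2 ▸ a1)
  obtain ⟨n, rfl⟩ := hen (s j) (mem_iUnion.2 ⟨j.1, l2⟩)
  refine ⟨_, l1, hc _ (by simp [s]) n, ?_⟩
  generalize en (s j) n = d at *
  have l4 := e5 j l2
  have m1 : ∀ x ∈ d.1.1 ∪ r'.1.1, x ∈ d.1.1 ∨ x ∈ B := fun x hx => by
    rcases Finset.mem_union.1 hx with h | h
    · exact Or.inl h
    · exact (Finset.mem_union.1 (b1 ▸ h)).imp_left (l3.1 ·)
  have m2 : ∀ e ∈ d.1.2 ∪ r'.1.2, e ∈ d.1.2 ∨ e ∈ r'.1.2 ∧ δ ≤ e.1 := fun e he => by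
    rcases Finset.mem_union.1 he with h | h
    · exact Or.inl h
    · exact (lt_or_ge e.1 δ).imp (fun k => l3.2 (Finset.mem_filter.2 ⟨h, k⟩)) (⟨h, ·⟩)
  refine ⟨⟨(d.1.1 ∪ r'.1.1, d.1.2 ∪ r'.1.2), ⟨fun x hx y hy w hw h => ?_, fun e he => ?_,
    fun e he e' he' => ?_, fun x hx y hy h => ?_⟩, d.2.2.trans ⟨Finset.subset_union_left,
    Finset.subset_union_left⟩⟩, ⟨Finset.subset_union_left, Finset.subset_union_left⟩,
    r2.1.trans Finset.subset_union_right, r2.2.trans Finset.subset_union_right⟩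
  · rcases m1 y hy with k | k
    · have m3 : ∀ x ∈ d.1.1 ∪ r'.1.1, x < y → x ∈ d.1.1 := fun x hx k' =>
        (m1 x hx).resolve_right fun k'' => (k'.trans (l4.1 k)).not_ge (b2 x k'').2
      exact d.2.1.free x (m3 x hx (h0 _ _ _ h).1) y k w (m3 w hw (h0 _ _ _ h).2.1) h
    · exact a3 y k x (by simpa using m1 x hx) w (by simpa using m1 w hw) h
  · exact (Finset.mem_union.1 he).elim (d.2.1.refl e) (c.refl e)
  · rcases m2 e he with k | k <;> rcases m2 e' he' with k' | k'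
    · exact d.2.1.chain e k e' k'
    · have := (c.chain _ r3 e' k'.1).1 k'.2
      exact ⟨fun _ => (f4 _ (l4.2 k).2).trans this, fun _ => this (l4.2 k).2⟩
    · have := ((l4.2 k').1.trans_le k.2).not_ge
      exact ⟨fun h => absurd h this, fun h => absurd h.le this⟩
    · exact c.chain e k.1 e' k'.1
  · rcases m1 x hx with k | k <;> rcases m1 y hy with k' | k'
    · obtain ⟨e, he, h⟩ := d.2.1.sep x k y k' h
      exact ⟨e, Finset.mem_union_left _ he, h⟩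
    · exact ⟨_, Finset.mem_union_right _ r3, l4.1 k, (b2 y k').2⟩
    · exact absurd (h.trans (l4.1 k')) (b2 x k).2.not_gt
    · obtain ⟨e, he, h⟩ := c.sep x (b2 x k).1 y (b2 y k').1 h
      exact ⟨e, Finset.mem_union_right _ he, h⟩

end Pool.Agent.H57.Pf
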