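import Pool.Agent.H57.PrCH

set_option autoImplicit false

namespace Pool.Agent.H57.Pr

open Set Cardinal Order Filter Topology Pool.Agent.H57.Lots

/-- a strong colouring of pairs of countable ordinals with countably many colours, under CH -/
theorem prck (hCH : (𝔠 : Cardinal.{0}) = ℵ₁) (K : Type) [Countable K] [Nonempty K] :
    ∃ c : W1 → W1 → K,
    ∀ (ι : Type) [Fintype ι] (s : W1 → ι → W1) (B : W1 → Finset W1) (F : W1 → ι → W1 → K)
      (T : Set W1), St T → (∀ d ∈ T, ∀ i j, s d i = s d j → F d i = F d j) →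
      ∃ g ∈ T, ∃ d ∈ T, g < d ∧ ∀ i, (s g i = s d i ∧ s g i < g) ∨ (g ≤ s g i ∧ s g i < d ∧
        d ≤ s d i ∧ ∀ y ∈ B d, d ≤ y → c (s g i) y = F d i y) := by
  classical
  obtain ⟨cd, hcd⟩ := exists_injective_nat K
  obtain ⟨r, -, hr⟩ := H82.Luz.luzin hCH (Prod.fst : W1 × ℕ → W1)
    (mk_pr mk_W1.le (mk_le_aleph0.trans aleph0_lt_aleph_one.le))
    (fun γ => ((H82.Luz.iio γ).prod countable_univ).mono fun x hx => And.intro hx trivial)
    (fun _ => Set.univ) (fun _ => isOpen_univ) fun _ => univ_nonempty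
  refine ⟨fun x y => Function.invFun cd (sInf {n | r y (x, n) = true}),
    fun ι _ s B F T hT hF => ?_⟩
  obtain ⟨R, hR⟩ := hT.fin R1 aleph0_lt_aleph_one fun d => Finset.univ.image (s d)
  obtain ⟨o, ho⟩ := hR.pigeon R1 (Y := Set.univ.pi fun _ => insert none (some '' R))
    ((Finite.pi fun _ => (R.finite_toSet.image _).insert _).lt_aleph0.trans_le R1.reg.aleph0_le)
    (fun d i => if s d i < d then some (s d i) else none)
    fun d hd i _ => by
      dsimp only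
      split_ifs with h
      · exact Or.inr ⟨_, hd.2.subset (by simp [h]), rfl⟩
      · exact Or.inl rfl
  obtain ⟨e, he⟩ := ho.ct1 fun d i j => decide (s d i = s d j)
  obtain ⟨S, hS, he⟩ : ∃ S, _ = S ∧ St S := ⟨_, rfl, he⟩
  have hS1 : ∀ d ∈ S, d ∈ T := fun d hd => (hS.symm.subset hd).1.1.1
  choose nx h1 h2 using he.unb
  choose b hb using fun y => H82.Luz.bdd ((countable_range (s (nx y))).insert (nx y))
  obtain ⟨δ, -, h3, h4⟩ := St_univ b (Classical.arbitrary _)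
  choose γ hγ using fun p : {p : Σ k, Fin k → ι → K // ∀ g ∈ S, ∀ i i', s g i = s g i' →
      ∀ j, p.2 j i = p.2 j i'} => hr (⋃ g ∈ {g ∈ S | g < δ ∧ ∀ i, s g i < δ}, ⋂ j : Fin p.1.1, ⋂ i,
        ⋂ n ∈ Iic (cd (p.1.2 j i)), {t | g ≤ s g i → t j (s g i, n) = decide (n = cd (p.1.2 j i))})
    (isOpen_biUnion fun g _ => isOpen_iInter_of_finite fun j => isOpen_iInter_of_finite fun i =>
      (finite_le_nat _).isOpen_biInter fun n _ =>
      (isOpen_discrete {v | g ≤ s g i → v = decide (n = cd (p.1.2 j i))}).preimage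
        (f := fun t : ℕ → W1 × ℕ → Bool => t j (s g i, n)) (by fun_prop))
    (H82.Luz.dense_iff.2 fun a t => by
      obtain ⟨y, y1, y2⟩ := fin_bd ((a.image fun q => q.2.1).filter (· < δ)) h3
        fun y hy => (Finset.mem_filter.1 hy).2
      have k1 := fun i => (hb y _ (Or.inr ⟨i, rfl⟩)).trans (h4 y y1)
      refine ⟨fun n x => if h : n < p.1.1 ∧ ∃ i, nx y ≤ s (nx y) i ∧ s (nx y) i = x.1 then
        decide (x.2 = cd (p.1.2 ⟨n, h.1⟩ h.2.choose)) else t n x, mem_biUnion (x := nx y)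
          ⟨h1 y, (hb y _ (Or.inl rfl)).trans (h4 y y1), k1⟩ (mem_iInter₂.2 fun j i =>
            mem_iInter₂.2 fun n _ h => ?_),
        fun q hq => dif_neg fun ⟨_, i, k2, k3⟩ => ?_⟩
      · have k2 : j < p.1.1 ∧ ∃ i', nx y ≤ s (nx y) i' ∧ s (nx y) i' = s (nx y) i :=
          ⟨j.2, i, h, rfl⟩
        exact (dif_pos k2).trans (by rw [p.2 _ (h1 y) _ _ k2.2.choose_spec.2])
      · exact ((h2 y).trans_le k2).not_ge (y2 _ (Finset.mem_filter.2
          ⟨k3 ▸ Finset.mem_image_of_mem (fun q : ℕ × W1 × ℕ => q.2.1) hq, k1 i⟩)))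
  obtain ⟨m, hm⟩ := H82.Luz.bdd ((countable_range γ).insert δ)
  obtain ⟨d, d1, d2⟩ := he.unb m
  let A := (B d).filter (d ≤ ·)
  let u : ℕ → W1 := fun j => if h : j < A.card then A.equivFin.symm ⟨j, h⟩ else d
  obtain ⟨z, ⟨-, z1⟩, z2⟩ := hγ ⟨⟨A.card, fun j i => F d i (u j)⟩, fun g hg i i' h j =>
    congrFun (hF d (hS1 d d1) i i' (by
      simpa [h] using congrFun₂ ((hS.symm.subset hg).2.trans (hS.symm.subset d1).2.symm) i i')) _⟩
    A.card u (fun j hj j' hj' h => by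
      simpa [u, show j < A.card from hj, show j' < A.card from hj', ← Subtype.ext_iff] using h)
    (fun j hj => ((hm _ (Or.inr ⟨_, rfl⟩)).trans d2).le.trans (by
      simpa [u, hj] using (Finset.mem_filter.1 (A.equivFin.symm ⟨j, hj⟩).2).2))
    (fun j => r (u j)) Set.univ isOpen_univ trivial fun _ _ _ _ => rfl
  obtain ⟨g, ⟨g1, g2, g3⟩, g4⟩ := mem_iUnion₂.1 z1
  have h5 := (hm _ (Or.inl rfl)).trans d2
  refine ⟨g, hS1 g g1, d, hS1 d d1, g2.trans h5, fun i => ?_⟩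
  have h6 := congrFun ((hS.symm.subset g1).1.2.trans (hS.symm.subset d1).1.2.symm) i
  split_ifs at h6 with h7 h8 h8
  · exact Or.inl ⟨Option.some.inj h6, h7⟩
  refine Or.inr ⟨not_lt.1 h7, (g3 i).trans h5, not_lt.1 h8, fun y hy hy' => ?_⟩
  have h9 : ∀ n ≤ cd (F d i y), r y (s g i, n) = decide (n = cd (F d i y)) := fun n hn => by
    have h9 := mem_iInter₂.1 (mem_iInter₂.1 g4 (A.equivFin ⟨y, Finset.mem_filter.2 ⟨hy, hy'⟩⟩) i) n
      (by simpa [u] using hn) (not_lt.1 h7)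
    rw [z2 _ (Fin.is_lt _)] at h9
    simpa [u] using h9
  dsimp only
  rw [IsLeast.csInf_eq (a := cd (F d i y)) ⟨by simp [h9], fun n hn => not_lt.1 fun h => by
    simp [h9 n h.le, h.ne] at hn⟩, Function.leftInverse_invFun hcd]

theorem wrec {Z : Type} (P : W1 → Set Z → Z → Prop) (h : ∀ β H, H.Countable → ∃ z, P β H z) :
    ∃ r : W1 → Z, ∀ β, P β (r '' Iio β) (r β) := by
  haveI : Nonempty Z := ⟨(h (Classical.arbitrary _) ∅ countable_empty).choose⟩
  choose! p hp using h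
  let r : W1 → Z := wellFounded_lt.fix fun β ih => p β (range fun α : Iio β => ih α.1 α.2)
  have hr : ∀ β, r β = p β (r '' Iio β) := fun β => by
    rw [image_eq_range]; exact wellFounded_lt.fix_eq _ β
  exact ⟨r, fun β => (hr β).symm ▸ hp _ _ ((H82.Luz.iio β).image r)⟩

theorem hl_of {Z : Type} [TopologicalSpace Z] (h : ∀ (f : W1 → Z) (U : W1 → Set Z),
    (∀ d, IsOpen (U d) ∧ f d ∈ U d) → ∃ g d, g < d ∧ f d ∈ U g) : HereditarilyLindelofSpace Z := by
  refine ⟨fun S _ => isLindelof_of_countable_subcover fun {ι} U h1 h2 => by_contra fun hn => ?_⟩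
  choose i hi using fun z : S => mem_iUnion.1 (h2 z.2)
  obtain ⟨f, hf⟩ := wrec (fun _ (H : Set S) z => ∀ w ∈ H, z.1 ∉ U (i w)) fun _ H hH => by
    obtain ⟨z, h3, h4⟩ := not_subset.1 (fun h => hn ⟨_, hH.image i, h⟩)
    exact ⟨⟨z, h3⟩, fun w hw k => h4 (mem_biUnion (mem_image_of_mem i hw) k)⟩
  obtain ⟨g, d, h3, h4⟩ := h (fun d => f d) (fun d => U (i (f d))) fun d => ⟨h1 _, hi _⟩
  exact hf d _ ⟨g, h3, rfl⟩ h4

theorem inj_choice {I : Type} (hI : #I ≤ ℵ₁) (S : I → Set W1) (hS : ∀ i, ¬ (S i).Countable) :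
    ∃ f : I → W1, Function.Injective f ∧ ∀ i, f i ∈ S i := by
  obtain ⟨j⟩ := (Cardinal.le_def I W1).1 (hI.trans mk_W1.ge)
  obtain ⟨f, hf⟩ := wrec (fun β (H : Set W1) z => z ∉ H ∧ ∀ i, j i = β → z ∈ S i) fun β H hH => by
    by_cases h : ∃ i, j i = β
    · obtain ⟨i, rfl⟩ := h
      obtain ⟨z, h1, h2⟩ := not_subset.1 fun h => hS i (hH.mono h)
      exact ⟨z, h2, fun k hk => j.injective hk ▸ h1⟩
    · obtain ⟨z, hz⟩ := H82.Luz.bdd hH
      exact ⟨z, fun h => lt_irrefl _ (hz z h), fun i hi => (h ⟨i, hi⟩).elim⟩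
  refine ⟨fun i => f (j i), fun a b h => j.injective ?_, fun i => (hf _).2 i rfl⟩
  rcases lt_trichotomy (j a) (j b) with k | k | k
  exacts [((hf _).1 ⟨_, k, h⟩).elim, k, ((hf _).1 ⟨_, k, h.symm⟩).elim]

end Pool.Agent.H57.Pr
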