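import Pool.Agent.H57.PfB
import Pool.Agent.H57.PrCK

set_option autoImplicit false

/-! Free sets for triple systems under PFA, and Cayley graphs. -/

namespace Pool.Agent.H57.Pf

open Set Cardinal Filter Pool.Agent.H57.Lots Pool.Agent.H57.Coh Pool.Agent.H57.Ap Sum
open Pool.Agent.H84.DtDefs (IsDense Proper PFA)

theorem dec_ex (X : Type) [Infinite X] : ∃ dec : Set X → Set (Set X), (∀ u, (dec u).Countable) ∧
    ∀ N : Set (Set X), N.Countable → ∃ u, dec u = N := by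
  have h : #(Set X) = #(ℕ → Option (Set X)) := by
    have h1 : ℵ₀ ≤ #X := aleph0_le_mk X
    rw [← power_def, mk_option, add_one_eq (aleph0_le_mk _), mk_set, ← power_mul, mk_nat,
      mul_aleph0_eq h1]
  obtain ⟨e⟩ := Cardinal.eq.1 h
  refine ⟨fun u => some ⁻¹' range (e u), fun u =>
    (countable_range _).preimage (Option.some_injective _), fun N hN => ?_⟩
  obtain ⟨f, hf⟩ := ((hN.image some).insert none).exists_eq_range (insert_nonempty _ _)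
  exact ⟨e.symm f, by ext; simp [← hf]⟩

theorem free (pfa : PFA) {Bd : W1 → W1 → W1 → Prop}
    (h0 : ∀ x y z, Bd x y z → x < y ∧ z < y ∧ x ≠ z)
    (h2 : ∀ y w, {x | Bd x y w ∨ Bd w y x}.Finite) :
    ∃ I : Set W1, ¬ I.Countable ∧ ∀ x ∈ I, ∀ y ∈ I, ∀ z ∈ I, ¬ Bd x y z := by
  classical
  have := H33.DiaDefs.unc
  obtain ⟨dec, d1, d2⟩ := dec_ex (Finset W1)
  let o : Pc Bd dec id ⊥ := ⟨⊥, ⟨by simp, by simp, by simp, by simp⟩, le_rfl⟩
  obtain ⟨b, hb⟩ : ∃ b : Pc Bd dec id ⊥, ∀ r ≤ b, ∀ ξ, ∃ t ≤ r, ∃ x ∈ t.1.1, ξ < x := by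
    by_contra hn
    have : Nonempty (Pc Bd dec id ⊥) := ⟨o⟩
    obtain ⟨F, hF⟩ := gen (b := ⊥) h0 h2 d1 d2 Function.surjective_id
    let Z : Set (Pc Bd dec id ⊥) := {r | ∃ ξ, ∀ t ≤ r, ∀ x ∈ t.1.1, x ≤ ξ}
    obtain ⟨N, n1, n2, n3⟩ := hull F (S := {inl o, inr Z}) (by simp)
    obtain ⟨q, -, q1, q2⟩ := hF N n2 n3 o (n1 (by simp))
    choose! ξ hξ using fun r (h : r ∈ Z) => h
    obtain ⟨x, hx⟩ := bd1 ((n2.preimage inl_injective).image ξ)
    obtain ⟨d, k1, k2, t, k3, k4⟩ := q2 Z (n1 (by simp)) (fun p => by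
        push Not at hn
        obtain ⟨r, h1, h2⟩ := hn p
        exact ⟨r, h2, h1⟩)
      ⟨({x}, q.1.2), ⟨by simpa using fun h => (h0 _ _ _ h).1.false, q.2.1.refl, q.2.1.chain,
        by simp⟩, bot_le⟩ ⟨q1.le.trans bot_le, le_rfl⟩
    exact (hx _ ⟨d, k2, rfl⟩).not_ge (hξ d k1 t k3 x (k4.1 (Finset.mem_singleton_self x)))
  have : Nonempty (Pc Bd dec id b.1) := ⟨⟨b.1, b.2.1, le_rfl⟩⟩
  obtain ⟨F, hF⟩ := gen (b := b.1) h0 h2 d1 d2 Function.surjective_id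
  obtain ⟨G, -, g1, g2⟩ := pfa (Pc Bd dec id b.1) ⟨F, fun N h1 h2 p hp =>
    (hF N h1 h2 p hp).imp fun _ h => ⟨h.1, h.2.2⟩⟩ (range fun ξ => {t | ∃ x ∈ t.1.1, ξ < x})
    (mk_range_le.trans mk_W1.le) (forall_mem_range.2 fun ξ r => by
      obtain ⟨t, h1, h2⟩ := hb ⟨r.1, r.2.1, bot_le⟩ r.2.2 ξ
      exact ⟨⟨t.1, t.2.1, r.2.2.trans h1⟩, h2, h1⟩)
  refine ⟨{x | ∃ p ∈ G, x ∈ p.1.1}, fun h => ?_, ?_⟩
  · obtain ⟨ξ, hξ⟩ := bd1 h
    obtain ⟨p, h1, x, h2, h3⟩ := g2 _ ⟨ξ, rfl⟩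
    exact (hξ x ⟨p, h1, h2⟩).not_gt h3
  · rintro x ⟨p, p1, p2⟩ y ⟨q, q1, q2⟩ z ⟨r, r1, r2⟩
    obtain ⟨s, s1, s2, s3⟩ := g1 p p1 q q1
    obtain ⟨t, -, t2, t3⟩ := g1 s s1 r r1
    exact t.2.1.free x (t2.1 (s2.1 p2)) y (t2.1 (s3.1 q2)) z (t3.1 r2)

theorem cl_cnt {G : Type} [Group G] {S : Set G} (h : S.Countable) :
    (Subgroup.closure S : Set G).Countable := by
  have := h.to_subtype
  have : Countable (FreeGroup S) := Quot.mk_surjective.countable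
  rw [← Subtype.range_coe (s := S), ← FreeGroup.range_lift_eq_closure]
  exact countable_range _

theorem cay (pfa : PFA) {V : Type} (hV : #V = ℵ₁) (X : SimpleGraph V) {G : Type} [Group G]
    (hG : ℵ₁ ≤ #G) : ∃ S : Set G, 1 ∉ S ∧ S⁻¹ = S ∧ Subgroup.closure S = ⊤ ∧
      ∃ φ : V → G, Function.Injective φ ∧ ∀ u v, X.Adj u v ↔ (φ u)⁻¹ * φ v ∈ S := by
  have hu : Uncountable G := aleph0_lt_mk_iff.1 (aleph0_lt_aleph_one.trans_le hG)
  obtain ⟨s, hs⟩ := exists_ne (1 : G)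
  obtain ⟨s', hs'⟩ := (Set.toFinite {1, s}).exists_notMem
  obtain ⟨g, hg⟩ := Pr.wrec (fun _ (H : Set G) z => z ∉ Subgroup.closure (H ∪ {s, s'}))
    fun _ H hH => not_forall.1 fun h => not_countable_univ
      ((cl_cnt (hH.union (Set.toFinite _).countable)).mono fun z _ => h z)
  let K : W1 → Subgroup G := fun m => Subgroup.closure (g '' Iio m ∪ {s, s'})
  have k1 : ∀ {x m}, x < m → g x ∈ K m := fun h => Subgroup.subset_closure (Or.inl ⟨_, h, rfl⟩)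
  have k2 : ∀ m, ∀ c ∈ ({1, s, s'} : Set G), c ∈ K m := fun m c h =>
    h.elim (· ▸ one_mem _) fun h => Subgroup.subset_closure (Or.inr h)
  have k3 : ∀ x y, ∀ c ∈ ({1, s, s'} : Set G), (g x)⁻¹ * g y = c → x = y := fun x y c hc h => by
    rcases lt_trichotomy x y with k | k | k
    · exact (hg y (eq_mul_of_inv_mul_eq h ▸ mul_mem (k1 k) (k2 y c hc))).elim
    · exact k
    · exact (hg x ((show g x = g y * c⁻¹ by rw [← h]; group) ▸
        mul_mem (k1 k) (inv_mem (k2 x c hc)))).elim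
  have k4 : Function.Injective g := fun x y h => k3 x y 1 (by simp) (by simp [h])
  obtain ⟨I, i1, i2⟩ := free pfa (Bd := fun x y z => x < y ∧ z < y ∧ x ≠ z ∧
    (g x)⁻¹ * g y * ((g z)⁻¹ * g y) ∈ ({1, s, s'} : Set G)) (fun _ _ _ h => ⟨h.1, h.2.1, h.2.2.1⟩)
    fun y w => ((((Set.toFinite ({1, s, s'} : Set G)).preimage (f := fun x =>
      (g x)⁻¹ * g y * ((g w)⁻¹ * g y)) fun a _ b _ h => k4 (by simpa using h)).union
      ((Set.toFinite ({1, s, s'} : Set G)).preimage (f := fun x =>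
      (g w)⁻¹ * g y * ((g x)⁻¹ * g y)) fun a _ b _ h => k4 (by simpa using h))).subset
      fun x h => h.imp (·.2.2.2) (·.2.2.2))
  have i3 : ∀ a ∈ I, ∀ b ∈ I, ∀ x ∈ I, ∀ y ∈ I, ∀ c ∈ ({1, s, s'} : Set G), a < b →
      (g a)⁻¹ * g b * ((g x)⁻¹ * g y) = c → (x = b ∧ y = a) ∨ x = a ∧ y = b := by
    intro a ha b hb x hx y hy c hc h e
    have l1 : ∀ m, (g a)⁻¹ * g b * ((g x)⁻¹ * g y) ∈ K m := fun m => e ▸ k2 m c hc
    rcases lt_trichotomy x y with k | rfl | k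
    · rcases lt_trichotomy b y with k' | rfl | k'
      · exact (hg y (by
          simpa only [mul_mem_cancel_left, inv_mem_iff, k1 (h.trans k'), k1 k',
            k1 k, mul_mem_cancel_right] using l1 y)).elim
      · exact Or.inr ⟨by_contra fun n => i2 a ha b hb x hx ⟨h, k, Ne.symm n, e ▸ hc⟩, rfl⟩
      · exact (hg b (by
          simpa only [mul_mem_cancel_left, inv_mem_iff, k1 (k.trans k'), k1 k',
            k1 h, mul_mem_cancel_right] using l1 b)).elim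
    · exact absurd (k3 a b c hc (by simpa using e)) h.ne
    · rcases lt_trichotomy b x with k' | rfl | k'
      · exact (hg x (by
          simpa only [mul_mem_cancel_left, inv_mem_iff, k1 (h.trans k'), k1 k',
            k1 k, mul_mem_cancel_right] using l1 x)).elim
      · exact Or.inl ⟨rfl, (k3 a y c hc (by simpa [mul_assoc] using e)).symm⟩
      · exact (hg b (by
          simpa only [mul_mem_cancel_left, inv_mem_iff, k1 (k.trans k'), k1 k',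
            k1 h, mul_mem_cancel_right] using l1 b)).elim
  obtain ⟨j⟩ := (Cardinal.le_def V I).1 (hV.trans_le (succ_aleph0 ▸ Order.succ_le_of_lt
    (not_le.1 (mt le_aleph0_iff_set_countable.1 i1))))
  let φ : V → G := fun v => g (j v)
  have j1 : ∀ {u v}, (j u).1 = j v → u = v := fun h => j.injective (Subtype.ext h)
  let S : Set G := {c | (∃ u v, X.Adj u v ∧ c = (φ u)⁻¹ * φ v) ∨ ∀ u v, c ≠ (φ u)⁻¹ * φ v}
  have s1 : ∀ c ∈ S, c⁻¹ ∈ S := by
    rintro c (⟨u, v, h, rfl⟩ | h)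
    · exact Or.inl ⟨v, u, h.symm, by simp⟩
    · exact Or.inr fun u v e => h v u (by rw [← inv_inv c, e]; simp)
  have s2 : ∀ u v, (j u).1 < j v → (φ u)⁻¹ * φ v ∈ Subgroup.closure S := fun u v h => by
    obtain ⟨c, c1, c2, c3⟩ : ∃ c ∈ ({1, s, s'} : Set G), c ≠ 1 ∧
        c ≠ (φ u)⁻¹ * φ v * ((φ u)⁻¹ * φ v) := by
      by_cases e : s = (φ u)⁻¹ * φ v * ((φ u)⁻¹ * φ v)
      · exact ⟨s', by simp, fun h => hs' (Or.inl h), fun h => hs' (Or.inr (h.trans e.symm))⟩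
      · exact ⟨s, by simp, hs, e⟩
    rw [show (φ u)⁻¹ * φ v = c * (c⁻¹ * ((φ u)⁻¹ * φ v)) by group]
    refine mul_mem (Subgroup.subset_closure (Or.inr fun x y e => c2 ?_))
      (Subgroup.subset_closure (Or.inr fun x y e => ?_))
    · rw [e, j1 (k3 _ _ c c1 e.symm), inv_mul_cancel]
    · have e' : (φ u)⁻¹ * φ v * ((φ y)⁻¹ * φ x) = c := by
        rw [eq_mul_of_inv_mul_eq e]; group
      rcases i3 _ (j u).2 _ (j v).2 _ (j y).2 _ (j x).2 c c1 h e' with ⟨l1, l2⟩ | ⟨l1, l2⟩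
      · exact c2 (by rw [← e', j1 l1, j1 l2]; group)
      · exact c3 (by rw [← e', j1 l1, j1 l2])
  have s3 : ∀ u v, (j u).1 < j v → (φ u)⁻¹ * φ v ∈ S → X.Adj u v := by
    rintro u v h (⟨x, y, h1, e⟩ | h1)
    · rcases i3 _ (j u).2 _ (j v).2 _ (j y).2 _ (j x).2 1 (by simp) h
        (show (φ u)⁻¹ * φ v * ((φ y)⁻¹ * φ x) = 1 by rw [e]; group) with ⟨l1, l2⟩ | ⟨l1, l2⟩
      · rwa [j1 l1, j1 l2] at h1
      · rw [j1 l1, j1 l2] at h1; exact h1.symm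
    · exact (h1 u v rfl).elim
  have s4 : 1 ∉ S := by
    obtain ⟨v⟩ : Nonempty V := mk_ne_zero_iff.1 (hV ▸ (aleph_pos 1).ne')
    rintro (⟨u, v, h, e⟩ | h)
    · exact h.ne (j1 (k3 _ _ 1 (by simp) e.symm))
    · exact h v v (by simp)
  refine ⟨S, s4, Subset.antisymm (fun c h => inv_inv c ▸ s1 _ h) s1, eq_top_iff.2 fun c _ => ?_,
    φ, fun _ _ h => j1 (k4 h), fun u v => ⟨fun h => Or.inl ⟨u, v, h, rfl⟩, fun h => ?_⟩⟩
  · by_contra hn
    obtain ⟨u, v, rfl⟩ : ∃ u v, c = (φ u)⁻¹ * φ v := by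
      by_contra! h
      exact hn (Subgroup.subset_closure (Or.inr h))
    rcases lt_trichotomy (j u).1 (j v) with h | h | h
    · exact hn (s2 u v h)
    · exact hn (by simp [j1 h])
    · exact hn (by simpa using inv_mem (s2 v u h))
  · rcases lt_trichotomy (j u).1 (j v) with k | k | k
    · exact s3 u v k h
    · exact (s4 (by simpa [j1 k] using h)).elim
    · exact (s3 v u k (by simpa using s1 _ h)).symm

end Pool.Agent.H57.Pf
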