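import Pool.Agent.H57.RcCore

set_option autoImplicit false

namespace Pool.Agent.H57.Pr

open Set Filter Topology

universe u

theorem agr {I : Type u} {U : Set (I → ℝ)} {x : I → ℝ} (h : U ∈ 𝓝 x) :
    ∃ F : Finset I, ∀ y : I → ℝ, (∀ i ∈ F, y i = x i) → y ∈ U := by
  obtain ⟨W, h1, h2, h3⟩ := mem_nhds_iff.1 h
  obtain ⟨F, u, h4, h5⟩ := isOpen_pi_iff.1 h2 _ h3
  exact ⟨F, fun y hy => h1 (h5 fun a ha => hy a ha ▸ (h4 a ha).2)⟩

theorem agr' {I : Type u} {X : Set (I → ℝ)} {U : Set X} {x : X}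
    (h : U ∈ 𝓝 x) : ∃ F : Finset I, ∀ y : X, (∀ i ∈ F, y.1 i = x.1 i) → y ∈ U := by
  obtain ⟨u, h1, h2⟩ := (mem_nhds_subtype _ _ _).1 h
  obtain ⟨F, hF⟩ := agr h1
  exact ⟨F, fun y hy => h2 (hF _ hy)⟩

theorem zero_of_closure {Z : Type u} [TopologicalSpace Z] {w : C(Z, ℝ) → ℝ}
    (hw : w ∈ closure (range fun (z : Z) (f : C(Z, ℝ)) => f z)) {ρ : (C(Z, ℝ) → ℝ) → ℝ}
    (hρ : Continuous ρ) (h : ρ w = 0) : ∃ z, ρ (fun f => f z) = 0 := by
  by_contra hn
  push Not at hn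
  let g : C(Z, ℝ) := ⟨fun z => (ρ fun f => f z)⁻¹,
    (hρ.comp (continuous_pi fun f => f.continuous)).inv₀ hn⟩
  have := closure_minimal (t := {v | ρ v * v g = 1}) (by
    rintro _ ⟨z, rfl⟩
    exact mul_inv_cancel₀ (hn z)) (isClosed_eq (by fun_prop) continuous_const) hw
  simp [h] at this

/-- a set of functions separated by countably many points is realcompact -/
theorem rc_of_sep {X : Type u} {N : Type} [Countable N] (Z : Set (X → ℝ)) (q : N → X)
    (hq : ∀ f ∈ Z, ∀ g ∈ Z, (∀ n, g (q n) = f (q n)) → g = f) :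
    ∃ (ι : Type u) (g : Z → ι → ℝ), IsClosedEmbedding g := by
  let ev : X → C(Z, ℝ) := fun x => ⟨fun z => z.1 x, (continuous_apply x).comp continuous_subtype_val⟩
  refine ⟨C(Z, ℝ), fun z f => f z, IsEmbedding.of_comp (g := fun w x => w (ev x))
    (continuous_pi fun f => f.continuous) (by fun_prop) IsEmbedding.subtypeVal,
    isClosed_of_closure_subset fun w hw => ?_⟩
  letI := TopologicalSpace.metrizableSpaceMetric ((N → ℝ) × ℝ)
  have h : ∀ f, ∃ z : Z, (∀ n, z.1 (q n) = w (ev (q n))) ∧ f z = w f := fun f => by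
    obtain ⟨z, hz⟩ := zero_of_closure hw (ρ := fun v => dist ((fun n => v (ev (q n)), v f) :
      (N → ℝ) × ℝ) (fun n => w (ev (q n)), w f)) (Continuous.dist (by fun_prop) continuous_const)
      (dist_self _)
    have := Prod.ext_iff.1 (dist_eq_zero.1 hz)
    exact ⟨z, congrFun this.1, this.2⟩
  choose z h1 h2 using h
  exact ⟨z 0, funext fun f => (congrArg f (Subtype.ext (hq _ (z f).2 _ (z 0).2 fun n =>
    (h1 0 n).trans (h1 f n).symm))).trans (h2 f)⟩

theorem interp {X : Type u} [TopologicalSpace X] [T35Space X] (S : Finset X) (v : X → ℝ) :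
    ∃ h : X → ℝ, Continuous h ∧ ∀ x ∈ S, h x = v x := by
  classical
  induction S using Finset.induction_on with
  | empty => exact ⟨0, continuous_const, by simp⟩
  | insert a S ha ih =>
    obtain ⟨h, h1, h2⟩ := ih
    obtain ⟨f, f1, f2, f3⟩ := CompletelyRegularSpace.completely_regular a S
      S.finite_toSet.isClosed ha
    refine ⟨fun x => h x + (v a - h a) * (1 - f x), by fun_prop, fun x hx => ?_⟩
    rcases Finset.mem_insert.1 hx with rfl | hx
    · simp [f2]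
    · simp [f3 hx, h2 x hx]

theorem closeoff {I : Type u} (f : Finset I → Set I) (hf : ∀ s, (f s).Countable) :
    ∃ Q : Set I, Q.Countable ∧ ∀ s : Finset I, ↑s ⊆ Q → f s ⊆ Q := by
  let P : ℕ → Set I := fun n => n.rec ∅ fun _ A => A ∪ ⋃ s ∈ {s : Finset I | ↑s ⊆ A}, f s
  have h1 : ∀ n, (P n).Countable := fun n => n.rec countable_empty fun _ h => h.union
    ((((countable_ofPred_finite_subset h).preimage_of_injOn Finset.coe_injective.injOn).mono
      fun s hs => And.intro s.finite_toSet hs).biUnion fun s _ => hf s)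
  have h2 : Monotone P := monotone_nat_of_le_succ fun n => subset_union_left
  refine ⟨⋃ n, P n, countable_iUnion h1, fun s hs => ?_⟩
  obtain ⟨n, hn⟩ := h2.directed_le.exists_mem_subset_of_finset_subset_biUnion hs
  exact subset_iUnion_of_subset (n + 1) (subset_union_of_subset_right
    (subset_biUnion_of_mem (u := f) hn) _)

theorem const_near {X : Type u} [TopologicalSpace X] [T35Space X] (χ : X → ℝ)
    {φ : {f : X → ℝ | Continuous f} → ℝ} (hφ : Continuous φ) : ∃ Q : Set X, Q.Countable ∧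
      ∀ g g' : {f : X → ℝ | Continuous f}, EqOn g.1 χ Q → EqOn g'.1 χ Q → φ g = φ g' := by
  classical
  have h1 : ∀ (R : Finset X) (r : ℚ), ∃ S : Finset X, (∃ g, EqOn g.1 χ R ∧ r < φ g) →
      ∃ g : X → ℝ, EqOn g χ R ∧ ∀ h : {f : X → ℝ | Continuous f},
        (∀ x ∈ S, h.1 x = g x) → r < φ h := fun R r => by
    by_cases h : ∃ g, EqOn g.1 χ R ∧ r < φ g
    · obtain ⟨g, g1, g2⟩ := h
      obtain ⟨S, hS⟩ := agr' (hφ.continuousAt (isOpen_Ioi.mem_nhds g2))
      exact ⟨S, fun _ => ⟨g, g1, hS⟩⟩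
    · exact ⟨∅, fun h' => (h h').elim⟩
  choose S hS using h1
  obtain ⟨Q, h1, h2⟩ := closeoff (fun R => ⋃ r, S R r)
    fun R => countable_iUnion fun r => Finset.countable_toSet _
  have h3 : ∀ g g' : {f : X → ℝ | Continuous f}, EqOn g.1 χ Q → EqOn g'.1 χ Q → φ g' ≤ φ g :=
    fun g g' g1 g2 => not_lt.1 fun h => by
      obtain ⟨r, r1, r2⟩ := exists_rat_btwn h
      obtain ⟨T, hT⟩ := agr' (hφ.continuousAt (isOpen_Iio.mem_nhds r1))
      have h4 : ↑(T.filter (· ∈ Q)) ⊆ Q := fun x hx => by simpa using (Finset.mem_filter.1 hx).2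
      obtain ⟨k, k1, k2⟩ := hS _ r ⟨g', g2.mono h4, r2⟩
      obtain ⟨l, l1, l2⟩ := interp (T ∪ S (T.filter (· ∈ Q)) r) fun x => if x ∈ T then g.1 x else k x
      refine (k2 ⟨l, l1⟩ fun x hx => ?_).asymm (hT ⟨l, l1⟩ fun x hx => by simp [l2, hx])
      simp only [l2 x (by simp [hx])]
      split_ifs with h'
      · have := h2 _ h4 (mem_iUnion.2 ⟨r, hx⟩)
        exact (g1 this).trans (k1 (by simp [h', this])).symm
      · rfl
  exact ⟨Q, h1, fun g g' g1 g2 => (h3 g' g g2 g1).antisymm (h3 g g' g1 g2)⟩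

theorem not_rc {X : Type u} [TopologicalSpace X] [T35Space X] (χ : X → ℝ) (h1 : ¬ Continuous χ)
    (h2 : ∀ Q : Set X, Q.Countable → ∃ g : X → ℝ, Continuous g ∧ EqOn g χ Q) :
    ¬ ∃ (ι : Type u) (g : {f : X → ℝ | Continuous f} → ι → ℝ), IsClosedEmbedding g := by
  rintro ⟨ι, e, he⟩
  choose Q h3 h4 using fun k => const_near χ ((continuous_apply k).comp he.continuous)
  choose g g1 g2 using h2
  have h5 : ∀ V ∈ 𝓝 fun k => e ⟨_, g1 _ (h3 k)⟩ k, ∀ x, ∃ f, e f ∈ V ∧ f.1 x = χ x :=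
    fun V hV x => by
      obtain ⟨F, hF⟩ := agr hV
      have h6 := ((F.countable_toSet).biUnion fun k _ => h3 k).insert x
      exact ⟨⟨_, g1 _ h6⟩, hF _ fun k hk => h4 k _ _ ((g2 _ h6).mono ((subset_biUnion_of_mem
        (u := Q) hk).trans (subset_insert _ _))) (g2 _ _), g2 _ h6 (mem_insert _ _)⟩
  rcases isEmpty_or_nonempty X with h | ⟨⟨x₀⟩⟩
  · exact h1 continuous_of_discreteTopology
  obtain ⟨f, hf⟩ := he.isClosed_range.closure_subset (mem_closure_iff_nhds.2 fun V hV =>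
    let ⟨f, h, _⟩ := h5 V hV x₀; ⟨_, h, f, rfl⟩)
  refine h1 ((funext fun x => not_not.1 fun hn => ?_ : f.1 = χ) ▸ f.2)
  have h6 : {k : {f : X → ℝ | Continuous f} | k.1 x ≠ χ x} ∈ 𝓝 f := (isOpen_ne_fun
    ((continuous_apply x).comp continuous_subtype_val) continuous_const).mem_nhds hn
  rw [he.isInducing.nhds_eq_comap, hf] at h6
  obtain ⟨V, h7, h8⟩ := h6
  obtain ⟨k, k1, k2⟩ := h5 V h7 x
  exact h8 k1 k2

theorem rc_main : ¬ (∀ (X : Type u) [TopologicalSpace X] [T35Space X],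
      (∀ D : Set (X → ℝ), D ⊆ {f : X → ℝ | Continuous f} → DiscreteTopology D →
        ∃ (ι : Type u) (g : ↥(closure D ∩ {f : X → ℝ | Continuous f}) → (ι → ℝ)),
          IsClosedEmbedding g) →
      ∃ (ι : Type u) (g : ↥{f : X → ℝ | Continuous f} → (ι → ℝ)), IsClosedEmbedding g) := by
  classical
  intro h
  obtain ⟨X, p, h1, h2, h3⟩ := core
  haveI : T35Space (ULift.{u} X) := Homeomorph.ulift.isEmbedding.t35Space
  refine not_rc (fun z : ULift.{u} X => if z.down = p then 1 else 0) (fun hc => ?_)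
    (fun Q hQ => ?_) (h _ fun D d1 d2 => ?_)
  · obtain ⟨a, ha⟩ := agree' ((hc.comp continuous_uliftUp).continuousAt (x := p)
      (isOpen_ne.mem_nhds (x := _) (show _ ≠ (0 : ℝ) by simp)))
    obtain ⟨z, z1, z2⟩ := h2 a
    simpa [z1] using ha z z2
  · obtain ⟨α, a1, a2⟩ := h3 _ (hQ.image ULift.down)
    refine ⟨fun z => if z.down.1 α = true then 1 else 0, (continuous_of_discreteTopology
      (f := fun b : Bool => if b = true then (1 : ℝ) else 0)).comp ((continuous_apply α).comp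
        (continuous_subtype_val.comp continuous_uliftDown)), fun z hz => ?_⟩
    by_cases k : z.down = p
    · simp [k, a1]
    · simp [k, a2 _ ⟨z, hz, rfl⟩ k]
  let Φ : (ULift.{u} X → ℝ) ≃ₜ (X → ℝ) :=
    { toFun := fun f x => f ⟨x⟩, invFun := fun f x => f x.down
      left_inv := fun _ => rfl, right_inv := fun _ => rfl }
  obtain ⟨q, hq⟩ := h1 (Φ '' D) (by
    rintro _ ⟨f, hf, rfl⟩
    exact (d1 hf).comp continuous_uliftUp) (Φ.image D).symm.isEmbedding.discreteTopology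
  refine rc_of_sep _ (fun n => ⟨q n⟩) fun f hf g hg k => Φ.injective ?_
  rw [← Φ.image_closure] at hq
  exact hq _ ⟨f, hf.1, rfl⟩ _ ⟨g, hg.1, rfl⟩ (hf.2.comp continuous_uliftUp)
    (hg.2.comp continuous_uliftUp) k

end Pool.Agent.H57.Pr
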