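import Pool.Agent.H57.PrCK
import Pool.Agent.H57.RcMain

set_option autoImplicit false

namespace Pool.Agent.H57.Pr

open Set Cardinal Order Filter Topology TopologicalSpace Pool.Agent.H57.Lots

/-- continuous self-maps of the plane with values in a line -/
def Lin (ψ : ℝ × ℝ → ℝ × ℝ) : Prop := Continuous ψ ∧ ∃ p q : ℝ × ℝ, ∀ t, ∃ s : ℝ, ψ t = p + s • q

theorem lin0 : Lin 0 := ⟨continuous_const, 0, 0, fun _ => ⟨0, by simp⟩⟩

theorem lin_ivt {F : ℝ × ℝ → ℝ} (hF : Continuous F) (A : Finset (ℝ × ℝ)) :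
    ∃ r, Lin r ∧ ∀ t ∈ A, F (r t) = F t := by
  rcases A.eq_empty_or_nonempty with rfl | hA
  · exact ⟨0, lin0, by simp⟩
  obtain ⟨p, -, hp⟩ := A.exists_min_image F hA
  obtain ⟨q, -, hq⟩ := A.exists_max_image F hA
  choose! s _ hs using fun t (ht : t ∈ A) => intermediate_value_Icc (a := (0 : ℝ)) (b := 1)
    (f := fun s => F (p + s • (q - p))) zero_le_one (by fun_prop)
    (show F t ∈ _ by simpa using ⟨hp t ht, hq t ht⟩)
  obtain ⟨φ, h1, h2⟩ := interp A s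
  exact ⟨fun t => p + φ t • (q - p), ⟨by fun_prop, p, q - p, fun t => ⟨_, rfl⟩⟩,
    fun t ht => by simp only [h2 t ht]; exact hs t ht⟩

abbrev BB : Type := countableBasis (ℝ × ℝ)

theorem bb {U : Set (ℝ × ℝ)} {t : ℝ × ℝ} (h : U ∈ 𝓝 t) : ∃ V : BB, t ∈ V.1 ∧ V.1 ⊆ U :=
  let ⟨V, h1, h2⟩ := (isBasis_countableBasis _).mem_nhds_iff.1 h; ⟨⟨V, h1⟩, h2⟩

instance : Nonempty BB := ⟨(bb (t := 0) univ_mem).choose⟩

theorem nb {I : Type} {X : Set (I → ℝ × ℝ)} {U : Set X} {z : X} (h : U ∈ 𝓝 z) :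
    ∃ (F : Finset I) (V : I → BB), (∀ y, z.1 y ∈ (V y).1) ∧
      ∀ w : X, (∀ y ∈ F, w.1 y ∈ (V y).1) → w ∈ U := by
  obtain ⟨u, h1, h2⟩ := (mem_nhds_subtype _ _ _).1 h
  rw [nhds_pi] at h1
  obtain ⟨F, h3, v, h4, h5⟩ := Filter.mem_pi.1 h1
  choose V h6 h7 using fun y => bb (h4 y)
  exact ⟨h3.toFinset, V, h6, fun w hw => h2 (h5 fun y hy => h7 y (hw y (h3.mem_toFinset.2 hy)))⟩

theorem perf_of_hl {Z : Type} [TopologicalSpace Z] [RegularSpace Z] [HereditarilyLindelofSpace Z]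
    (s : Set Z) (hs : IsClosed s) : IsGδ s := by
  choose V h1 h2 h3 using fun z : ↥sᶜ =>
    exists_mem_nhds_isClosed_subset (hs.isOpen_compl.mem_nhds z.2)
  obtain ⟨T, h4, h5⟩ := (HereditarilyLindelofSpace.isLindelof sᶜ).elim_countable_subcover
    (fun z => interior (V z)) (fun _ => isOpen_interior) fun z hz =>
      mem_iUnion.2 ⟨⟨z, hz⟩, mem_interior_iff_mem_nhds.2 (h1 ⟨z, hz⟩)⟩
  convert IsGδ.biInter_of_isOpen h4 fun z _ => (h2 z).isOpen_compl
  refine Subset.antisymm (subset_iInter₂ fun z _ => subset_compl_comm.1 (h3 z)) fun x hx => ?_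
  by_contra hn
  obtain ⟨z, h6, h7⟩ := mem_iUnion₂.1 (h5 hn)
  exact mem_iInter₂.1 hx z h6 (interior_subset h7)

theorem pnsq (hCH : (𝔠 : Cardinal.{0}) = ℵ₁) : ¬ (∀ (X : Type) [TopologicalSpace X] [T35Space X],
      (NormalSpace {f : X → ℝ // Continuous f} ∧
        ∀ s : Set {f : X → ℝ // Continuous f}, IsClosed s → IsGδ s) →
      (NormalSpace ({f : X → ℝ // Continuous f} × {f : X → ℝ // Continuous f}) ∧
        ∀ s : Set ({f : X → ℝ // Continuous f} × {f : X → ℝ // Continuous f}),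
          IsClosed s → IsGδ s)) := by
  classical
  intro H
  obtain ⟨c, hc⟩ := prck hCH (Finset (BB × BB))
  have h0 : ∀ κ : Finset (BB × BB), ∃ ψ, Lin ψ ∧ ∀ ψ', Lin ψ' →
      (∀ p ∈ κ, MapsTo ψ' p.1.1 p.2.1) → ∀ p ∈ κ, MapsTo ψ p.1.1 p.2.1 := fun κ => by
    by_cases h : ∃ ψ, Lin ψ ∧ ∀ p ∈ κ, MapsTo ψ p.1.1 p.2.1
    · exact let ⟨ψ, h1, h2⟩ := h; ⟨ψ, h1, fun _ _ _ => h2⟩
    · exact ⟨0, lin0, fun ψ h1 h2 => (h ⟨ψ, h1, h2⟩).elim⟩
  choose ψ hψ hψ' using h0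
  let x : W1 × ℝ × ℝ → W1 → ℝ × ℝ := fun p a =>
    if a < p.1 then 0 else if a = p.1 then p.2 else ψ (c p.1 a) p.2
  let y : W1 × ℝ × ℝ → range x := fun p => ⟨_, p, rfl⟩
  have hx : ∀ g a r, Lin r → Lin fun t => x (g, r t) a := fun g a r hr => by
    simp only [x]
    split_ifs
    exacts [lin0, hr, ⟨(hψ _).1.comp hr.1, let ⟨p, q, h⟩ := (hψ (c g a)).2; ⟨p, q, fun t => h _⟩⟩]
  have hy : ∀ g, Continuous fun t => y (g, t) := fun g =>
    Continuous.subtype_mk (continuous_pi fun a => by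
      simp only [x]
      split_ifs
      exacts [continuous_const, continuous_id, (hψ _).1]) _
  choose π hπ using fun z : range x => z.2
  have hπ' : ∀ z, y (π z) = z := fun z => Subtype.ext (hπ z)
  haveI : HereditarilyLindelofSpace {f : range x → ℝ // Continuous f} := hl_of fun f U hU => by
    have h3 : ∀ δ, ∃ e : Σ n, Fin n → ℚ × ℚ, ∃ s : Fin e.1 → W1 × ℝ × ℝ,
        (∀ i, (f δ).1 (y (s i)) ∈ Ioo ((e.2 i).1 : ℝ) (e.2 i).2) ∧
        ∀ g : {f : range x → ℝ // Continuous f},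
          (∀ i, g.1 (y (s i)) ∈ Ioo ((e.2 i).1 : ℝ) (e.2 i).2) → g ∈ U δ := fun δ => by
      obtain ⟨V, h3, h4⟩ := isOpen_induced_iff.1 (hU δ).1
      obtain ⟨I, u, h5, h6⟩ := isOpen_pi_iff.1 h3 (f δ).1 (h4.symm.subset (hU δ).2)
      choose p h7 h8 using fun z : I => rat_Ioo (h5 _ z.2).1 (h5 _ z.2).2
      refine ⟨⟨_, fun i => p (I.equivFin.symm i)⟩, fun i => π (I.equivFin.symm i),
        fun i => hπ' _ ▸ h7 _, fun g hg => h4.subset (h6 fun z hz => ?_)⟩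
      exact h8 ⟨z, hz⟩ (by simpa [hπ'] using hg (I.equivFin ⟨z, hz⟩))
    choose e he using h3
    obtain ⟨⟨n, J⟩, h4⟩ := St_univ.ct1 e
    choose! s h6 h7 using fun δ (h : δ ∈ {x ∈ Set.univ | e x = ⟨n, J⟩}) => h.2 ▸ he δ
    choose r r1 r2 using fun δ g => lin_ivt ((f δ).2.comp (hy g))
      (Finset.univ.image fun i => (s δ i).2)
    choose! B V b1 b2 using fun δ h i => nb ((f δ).2.continuousAt
      (x := y ((s δ i).1, r δ (s δ i).1 (s δ i).2)) (isOpen_Ioo.mem_nhds (mem_of_eq_of_mem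
        (r2 δ (s δ i).1 _ (Finset.mem_image_of_mem _ (Finset.mem_univ i))) (h6 δ h i))))
    let A : W1 → Finset W1 := fun δ => Finset.univ.biUnion (B δ)
    choose! W w1 w2 using fun δ h i => bb (inter_mem (((f δ).2.comp (hy (s δ i).1)).continuousAt
      (isOpen_Ioo.mem_nhds (h6 δ h i))) ((biInter_finset_mem (A δ)).2 fun a _ =>
        (hx (s δ i).1 a _ (r1 δ (s δ i).1)).1.continuousAt
          ((isOpen_of_mem_countableBasis (V δ i a).2).mem_nhds (b1 δ h i a))))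
    obtain ⟨W0, h8⟩ := h4.ct1 W
    obtain ⟨R, hR⟩ := h8.fin R1 aleph0_lt_aleph_one A
    obtain ⟨m, hm⟩ := H82.Luz.bdd R.countable_toSet
    obtain ⟨g, ⟨g1, g2⟩, d, ⟨d1, -⟩, h9, h10⟩ := hc _ (fun δ i => (s δ i).1) A (fun δ i a =>
      (Finset.univ.filter fun j => (s δ j).1 = (s δ i).1).image fun j => (W δ j, V δ j a)) _
      (hR.gt m) fun d _ i j h => by simp only [h]
    refine ⟨g, d, h9, h7 g g1.1.1 _ fun i => ?_⟩
    have k1 : (s g i).2 ∈ (W d i).1 := (g1.1.2.trans d1.1.2.symm) ▸ w1 g g1.1.1 i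
    rcases h10 i with ⟨h, -⟩ | ⟨a1, a2, a3, a4⟩
    · have := (w2 d d1.1.1 i k1).1
      rwa [← h] at this
    refine b2 d d1.1.1 i _ fun a ha => ?_
    have a5 : a ∈ A d := Finset.mem_biUnion.2 ⟨_, Finset.mem_univ _, ha⟩
    rcases lt_or_ge a d with h | h
    · simpa [y, x, h.trans_le a3, ((hm a (d1.2.subset (Finset.mem_filter.2
        ⟨a5, h⟩))).trans g2).trans_le a1] using b1 d d1.1.1 i a
    · simp only [y, x, (a2.trans_le h).not_gt, (a2.trans_le h).ne', if_false, a4 a a5 h]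
      refine hψ' _ _ (hx (s d i).1 a _ (r1 d (s d i).1)) (fun p hp => ?_) (W d i, V d i a) ?_ k1
      swap
      · exact Finset.mem_image.2 ⟨i, by simp, rfl⟩
      obtain ⟨j, j1, rfl⟩ := Finset.mem_image.1 hp
      exact fun t ht => (Finset.mem_filter.1 j1).2 ▸ mem_iInter₂.1 (w2 d d1.1.1 j ht).2 a a5
  obtain ⟨h1, h2⟩ := H (range x) ⟨inferInstance, perf_of_hl⟩
  have ce : ∀ a, Continuous fun z : range x => z.1 a := fun a =>
    (continuous_apply a).comp continuous_subtype_val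
  let p : W1 → {f : range x → ℝ // Continuous f} × {f : range x → ℝ // Continuous f} := fun a =>
    (⟨fun z => (z.1 a).1, (ce a).fst⟩, ⟨fun z => (z.1 a).2, (ce a).snd⟩)
  let O : W1 → Set ({f : range x → ℝ // Continuous f} × {f : range x → ℝ // Continuous f}) :=
    fun a => {h | (h.1.1 (y (a, 1, 0)) - h.1.1 (y (a, 0, 0))) * (h.2.1 (y (a, 0, 1)) -
      h.2.1 (y (a, 0, 0))) ≠ (h.1.1 (y (a, 0, 1)) - h.1.1 (y (a, 0, 0))) *
        (h.2.1 (y (a, 1, 0)) - h.2.1 (y (a, 0, 0)))}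
  have e1 : ∀ z, Continuous fun h : {f : range x → ℝ // Continuous f} => h.1 z := fun z =>
    (continuous_apply z).comp continuous_subtype_val
  have o1 : ∀ a, IsOpen (O a) := fun a => isOpen_ne_fun
    ((((e1 _).comp continuous_fst).sub ((e1 _).comp continuous_fst)).mul
      (((e1 _).comp continuous_snd).sub ((e1 _).comp continuous_snd)))
    ((((e1 _).comp continuous_fst).sub ((e1 _).comp continuous_fst)).mul
      (((e1 _).comp continuous_snd).sub ((e1 _).comp continuous_snd)))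
  have o2 : ∀ a, p a ∈ O a := fun a => by simp [O, p, y, x]
  have o3 : ∀ a b, p b ∈ O a → b = a := fun a b h => by_contra fun hn => h (by
    obtain ⟨-, u, v, k⟩ : Lin fun t => x (a, t) b := by
      simp only [x, hn, if_false]
      split_ifs
      exacts [lin0, hψ _]
    obtain ⟨s0, k0⟩ := k (0, 0)
    obtain ⟨s1, k1⟩ := k (1, 0)
    obtain ⟨s2, k2⟩ := k (0, 1)
    simp only [p, y, k0, k1, k2, Prod.fst_add, Prod.snd_add, Prod.smul_fst, Prod.smul_snd,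
      smul_eq_mul]
    ring)
  obtain ⟨G, h3, h4⟩ := (h2 _ (isOpen_iUnion o1).isClosed_compl).eq_iInter_nat
  obtain ⟨n, h5⟩ : ∃ n, ¬ {a | p a ∉ G n}.Countable := not_forall.1 fun h => by
    obtain ⟨a, ha⟩ := H82.Luz.bdd (countable_iUnion h)
    exact h4.symm.subset (mem_iInter.2 fun n => not_not.1 fun k =>
      lt_irrefl a (ha a (mem_iUnion.2 ⟨n, k⟩))) (mem_iUnion.2 ⟨a, o2 a⟩)
  have h6 : ∀ A ⊆ {a | p a ∉ G n}, IsClosed (p '' A) := fun A hA =>
    isClosed_of_closure_subset fun w hw => by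
      obtain ⟨a, ha⟩ := mem_iUnion.1 (not_not.1 fun k => closure_minimal (t := (G n)ᶜ)
        (image_subset_iff.2 hA) (h3 n).isClosed_compl hw (mem_iInter.1 (h4.subset k) n))
      obtain ⟨_, k1, b, k2, rfl⟩ := mem_closure_iff.1 hw _ (o1 a) ha
      refine ⟨b, k2, not_not.1 fun k => ?_⟩
      obtain ⟨_, k3, b', -, rfl⟩ := mem_closure_iff.1 hw _ ((o1 a).inter isOpen_ne) ⟨ha, Ne.symm k⟩
      exact k3.2 (by rw [o3 _ _ k1, o3 _ _ k3.1])
  let E : Finset (W1 × Finset (BB × BB)) → Set W1 := fun Q =>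
    {b | p b ∉ G n ∧ ∀ q ∈ Q, q.1 < b ∧ c q.1 b = q.2}
  obtain ⟨f, f1, f2⟩ := inj_choice (I := W1 ⊕ Finset (W1 × Finset (BB × BB))) (by
      rw [mk_sum, lift_id, lift_id]
      exact (add_le_add mk_W1.le (mk_fs (mk_pr mk_W1.le (mk_le_aleph0.trans
        aleph0_lt_aleph_one.le)))).trans (add_eq_self aleph0_lt_aleph_one.le).le)
    (Sum.elim (fun _ => {a | p a ∉ G n}) fun Q => if (E Q).Countable then {a | p a ∉ G n} else E Q)
    (by
      rintro (_ | Q)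
      · exact h5
      · simp only [Sum.elim_inr]
        split_ifs with h
        exacts [h5, h])
  obtain ⟨U, U', u1, u2, u3, u4, u5⟩ := normal_separation
    (h6 (range (f ∘ .inl)) (range_subset_iff.2 fun i => f2 (.inl i)))
    (h6 (range (f ∘ .inr)) (range_subset_iff.2 fun Q => by
      have := f2 (.inr Q)
      simp only [Sum.elim_inr] at this
      split_ifs at this
      exacts [this, this.1])) (by
      rw [disjoint_image_iff (f := p) fun a b h => o3 _ _ (by rw [h]; exact o2 b), range_comp,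
        range_comp, disjoint_image_iff f1]
      exact Set.isCompl_range_inl_range_inr.disjoint)
  have ag : ∀ U a, U ∈ 𝓝 (p a) → ∃ S : Finset (range x), ∀ h, (∀ z ∈ S, h.1.1 z = (z.1 a).1 ∧
      h.2.1 z = (z.1 a).2) → h ∈ U := fun U a hU => by
    obtain ⟨U1, k1, U2, k2, k3⟩ := mem_nhds_prod_iff.1 hU
    obtain ⟨S1, k4⟩ := agr' (X := {f | Continuous f}) k1
    obtain ⟨S2, k5⟩ := agr' (X := {f | Continuous f}) k2
    exact ⟨S1 ∪ S2, fun h k => k3 ⟨k4 _ fun z hz => (k z (by simp [hz])).1,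
      k5 _ fun z hz => (k z (by simp [hz])).2⟩⟩
  choose i hi using fun d => not_subset.1 fun h : Set.univ ⊆ {i | f (.inl i) ≤ d} =>
    H82.Luz.bdd (((H82.Luz.iic d).preimage (f1.comp Sum.inl_injective)).mono h) |>.elim
      fun a ha => lt_irrefl a (ha a trivial)
  choose S hS using fun d => ag _ _ (u1.mem_nhds (u3 ⟨_, ⟨i d, rfl⟩, rfl⟩))
  obtain ⟨R, hR⟩ := St_univ.fin R1 aleph0_lt_aleph_one fun d => (S d).image fun z => (π z).1
  obtain ⟨o, ho⟩ := hR.ct1 fun d (g : R) => c g (f (.inl (i d)))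
  have k0 : ∀ d, d < f (.inl (i d)) := fun d => not_le.1 (hi d).2
  let Q : Finset (W1 × Finset (BB × BB)) := Finset.univ.image fun g : R => (g.1, o g)
  have k1 : ¬ (E Q).Countable := fun h => by
    obtain ⟨a, ha⟩ := H82.Luz.bdd h
    obtain ⟨d, d1, d2⟩ := ho.unb a
    refine (d2.trans (k0 d)).asymm (ha _ ⟨f2 (.inl _), fun q hq => ?_⟩)
    obtain ⟨g, -, rfl⟩ := Finset.mem_image.1 hq
    exact ⟨(Finset.mem_filter.1 (d1.1.2.symm.subset g.2)).2.trans (k0 d), congrFun d1.2 g⟩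
  have k2 : f (.inr Q) ∈ E Q := by simpa [k1] using f2 (.inr Q)
  obtain ⟨S', hS'⟩ := ag _ _ (u2.mem_nhds (u4 ⟨_, ⟨Q, rfl⟩, rfl⟩))
  obtain ⟨a, ha⟩ := H82.Luz.bdd (S'.countable_toSet.image fun z => (π z).1)
  obtain ⟨d, d1, d2⟩ := ho.unb a
  let v : range x → ℝ × ℝ := fun z => if z ∈ S d then z.1 (f (.inl (i d))) else z.1 (f (.inr Q))
  obtain ⟨l1, l2, l3⟩ := interp (S d ∪ S') fun z => (v z).1
  obtain ⟨l4, l5, l6⟩ := interp (S d ∪ S') fun z => (v z).2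
  refine disjoint_left.1 u5 (hS d (⟨l1, l2⟩, ⟨l4, l5⟩) fun z hz => by simp [l3, l6, hz, v])
    (hS' _ fun z hz => ?_)
  have k3 : v z = z.1 (f (.inr Q)) := by
    simp only [v]
    split_ifs with h
    · have k4 := (ha _ ⟨z, hz, rfl⟩).trans d2
      have k5 : (π z).1 ∈ R := d1.1.2.subset (Finset.mem_filter.2 ⟨Finset.mem_image_of_mem _ h, k4⟩)
      obtain ⟨k6, k7⟩ := k2.2 _ (Finset.mem_image_of_mem _ (Finset.mem_univ ⟨_, k5⟩))
      have k8 := congrFun d1.2 ⟨_, k5⟩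
      dsimp only at k6 k7 k8
      simp [← hπ z, x, (k4.trans (k0 d)).not_gt, (k4.trans (k0 d)).ne', k6.not_gt, k6.ne', k7, k8]
    · rfl
  simp [l3, l6, hz, k3]

end Pool.Agent.H57.Pr
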