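import Pool.Agent.H57.Pr1

set_option autoImplicit false

namespace Pool.Agent.H57.Pr

open Set Cardinal Order Pool.Agent.H57.Lots Pool.Agent.H57.Coh Pool.Agent.H57.Aro
open Pool.Agent.H82.LadA (Reg Unc reg_toType exmin)

theorem mk_fs {A : Type} (h : #A ≤ ℵ₁) : #(Finset A) ≤ ℵ₁ := by
  classical
  exact ((mk_le_of_surjective (f := List.toFinset) fun s => ⟨_, s.toList_toFinset⟩).trans
    (mk_list_le_max _)).trans (max_le aleph0_lt_aleph_one.le h)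

theorem mk_pr {A B : Type} (h : #A ≤ ℵ₁) (h' : #B ≤ ℵ₁) : #(A × B) ≤ ℵ₁ := by
  rw [mk_prod, lift_id, lift_id]
  exact (mul_le_mul' h h').trans (mul_eq_self aleph0_lt_aleph_one.le).le

theorem mk_fn {ι A : Type} [Fintype ι] (h : #A ≤ ℵ₁) : #(ι → A) ≤ ℵ₁ := by
  rw [← power_def, mk_fintype ι]
  exact (power_le_power_right h).trans (power_nat_le aleph0_lt_aleph_one.le)

theorem sep {A I : Type} (r : A → Set I) (s : Finset A) (hr : InjOn r s) :
    ∃ w : Finset I, ∀ x ∈ s, ∀ y ∈ s, (∀ i ∈ w, i ∈ r x ↔ i ∈ r y) → x = y := by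
  classical
  have : ∀ p ∈ (s ×ˢ s).filter fun p => p.1 ≠ p.2, ∃ i, ¬ (i ∈ r p.1 ↔ i ∈ r p.2) := fun p hp => by
    simp only [Finset.mem_filter, Finset.mem_product] at hp
    exact not_forall.1 fun h => hp.2 (hr hp.1.1 hp.1.2 (Set.ext h))
  choose i hi using this
  exact ⟨Finset.univ.image fun p : (s ×ˢ s).filter fun p => p.1 ≠ p.2 => i p.1 p.2,
    fun x hx y hy h => not_not.1 fun h' => hi (x, y) (by simp [*]) (h _
      (Finset.mem_image.2 ⟨⟨(x, y), by simp [*]⟩, by simp, rfl⟩))⟩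

theorem pr0 {K : Type} [Nonempty K] (hK : #K ≤ ℵ₁) : ∃ c : W2 → W2 → K,
    ∀ (ι : Type) [Fintype ι] (s : W2 → ι → W2) (B : W2 → Finset W2) (F : W2 → ι → W2 → K)
      (T : Set W2), St T → (∀ d ∈ T, ∀ i j, s d i = s d j → F d i = F d j) →
      ∃ g ∈ T, ∃ d ∈ T, g < d ∧ ∀ i, s g i = s d i ∨ (g ≤ s g i ∧ s g i < d ∧ d ≤ s d i ∧
        ∀ y ∈ B d, d ≤ y → c (s g i) y = F d i y) := by
  classical
  obtain ⟨r⟩ : Nonempty (W2 ↪ Set W1) := by
    rw [← Cardinal.le_def, R2.card, mk_set, mk_W1]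
    exact succ_le_of_lt (cantor _)
  have h0 := mk_fs mk_W1.le
  have hΘ : #(Finset W1 × Finset (Finset W1 × Finset W1 × K)) ≤ ℵ₁ :=
    mk_pr h0 (mk_fs (mk_pr h0 (mk_pr h0 hK)))
  obtain ⟨c, hc⟩ := pr1 hΘ
  let ρ : Finset W1 → W2 → Finset W1 := fun w x => w.filter (· ∈ r x)
  refine ⟨fun x y => if h : ∃ k, (ρ (c x y).1 x, ρ (c x y).1 y, k) ∈ (c x y).2 then h.choose else
    Classical.arbitrary _, fun ι _ s B F T hT hF => ?_⟩
  choose w hw using fun d => sep r (Finset.univ.image (s d) ∪ B d) r.injective.injOn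
  have h1 : ∀ d, ∀ x ∈ Finset.univ.image (s d) ∪ B d, ∀ y ∈ Finset.univ.image (s d) ∪ B d,
      ρ (w d) x = ρ (w d) y → x = y := fun d x hx y hy h => hw d x hx y hy fun i hi => by
    simpa [ρ, hi] using Finset.ext_iff.1 h i
  obtain ⟨R, hR⟩ := hT.fin R2 (aleph0_lt_aleph_one.trans (lt_succ _))
    fun d => Finset.univ.image (s d)
  obtain ⟨o, ho⟩ := hR.pigeon R2 (Y := Set.univ.pi fun _ => insert none (some '' R))
    ((Finite.pi fun _ => (R.finite_toSet.image _).insert _).lt_aleph0.trans_le R2.reg.aleph0_le)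
    (fun d i => if s d i < d then some (s d i) else none)
    fun d hd i _ => by
      dsimp only
      split_ifs with h
      · exact Or.inr ⟨_, hd.2.subset (by simp [h]), rfl⟩
      · exact Or.inl rfl
  obtain ⟨⟨t, p⟩, hp⟩ := ho.pigeon R2 (Y := Set.univ)
    (mk_univ.trans_lt ((mk_pr hΘ (mk_fn (ι := ι) h0)).trans_lt (lt_succ _)))
    (fun d => ((w d, (Finset.univ ×ˢ B d).image fun q => (ρ (w d) (s d q.1), ρ (w d) q.2,
      F d q.1 q.2)), fun i => ρ (w d) (s d i))) fun _ _ => trivial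
  obtain ⟨g, g1, d, d1, h2, h3⟩ := hc (fun d => (Finset.univ.image (s d)).filter (d ≤ ·))
    (fun d => (B d).filter (d ≤ ·)) _ hp.unb (fun d _ => by simp) t
  refine ⟨g, g1.1.1.1, d, d1.1.1.1, h2, fun i => ?_⟩
  have h4 := congrFun (g1.1.2.trans d1.1.2.symm) i
  split_ifs at h4 with h5 h6 h6
  · exact Or.inl (Option.some.inj h4)
  obtain ⟨h7, h8⟩ := h3 (s g i) (by simpa using h5)
  refine Or.inr ⟨not_lt.1 h5, h7, not_lt.1 h6, fun y hy hy' => ?_⟩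
  obtain ⟨rfl, rfl⟩ := Prod.ext_iff.1 d1.2
  obtain ⟨h9, h10⟩ := Prod.ext_iff.1 g1.2
  have h11 : ρ (w d) (s g i) = ρ (w d) (s d i) :=
    (congrArg (ρ · (s g i)) (show w g = w d from congrArg Prod.fst h9)).symm.trans (congrFun h10 i)
  dsimp only
  simp only [h8 y (by simp [hy, hy']), h11]
  have h12 : ∃ k, (ρ (w d) (s d i), ρ (w d) y, k) ∈ (Finset.univ ×ˢ B d).image fun q =>
      (ρ (w d) (s d q.1), ρ (w d) q.2, F d q.1 q.2) :=
    ⟨_, Finset.mem_image.2 ⟨(i, y), by simpa, rfl⟩⟩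
  rw [dif_pos h12]
  obtain ⟨⟨j, z⟩, h13, h14⟩ := Finset.mem_image.1 h12.choose_spec
  simp only [Prod.mk.injEq, Finset.mem_product] at h13 h14
  rw [← h14.2.2, hF d d1.1.1.1 j i (h1 d _ (by simp) _ (by simp) h14.1),
    h1 d z (by simp [h13.2]) y (by simp [hy]) h14.2.1]

theorem book {A : Type} [Nonempty A] (hA : #A ≤ succ ℵ₁) :
    ∃ f : W2 → A, ∀ t a, ∃ x, a < x ∧ f x = t := by
  obtain ⟨e, he⟩ := e2_ex
  obtain ⟨g, hg⟩ := ulam R2 (mk_W1.trans_lt (lt_succ _)) hA e he St_unc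
  exact ⟨g, fun t a => let ⟨x, h1, h2⟩ := (hg t).unb a; ⟨x, h2, h1.2⟩⟩

end Pool.Agent.H57.Pr
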