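import Pool.Agent.H57.PsiDisc
import Pool.Agent.H82.LuzA

set_option autoImplicit false

namespace Pool.Agent.H57.Pr

open Set Cardinal Order Filter Topology Pool.Agent.H57.Lots

theorem St.ct1 {S : Set W1} (hS : St S) {α : Type} [Countable α] (f : W1 → α) :
    ∃ y, St {x ∈ S | f x = y} :=
  hS.pigeon R1 (Y := Set.univ) ((mk_univ.trans_le mk_le_aleph0).trans_lt aleph0_lt_aleph_one) f
    fun _ _ => trivial

/-- a strong colouring of pairs of countable ordinals under CH -/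
theorem prch (hCH : (𝔠 : Cardinal.{0}) = ℵ₁) : ∃ c : W1 → W1 → Bool,
    ∀ (ι : Type) [Fintype ι] (s : W1 → ι → W1) (B : W1 → Finset W1) (F : W1 → ι → W1 → Bool)
      (T : Set W1), St T → (∀ d ∈ T, ∀ i j, s d i = s d j → F d i = F d j) →
      ∃ g ∈ T, ∃ d ∈ T, g < d ∧ ∀ i, (s g i = s d i ∧ s g i < g) ∨ (g ≤ s g i ∧ s g i < d ∧
        d ≤ s d i ∧ ∀ y ∈ B d, d ≤ y → c (s g i) y = F d i y) := by
  classical
  obtain ⟨r, -, hr⟩ := H82.Luz.luzin hCH (id : W1 → W1) mk_W1.le H82.Luz.iio (fun _ => Set.univ)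
    (fun _ => isOpen_univ) fun _ => univ_nonempty
  refine ⟨fun x y => r y x, fun ι _ s B F T hT hF => ?_⟩
  obtain ⟨R, hR⟩ := hT.fin R1 aleph0_lt_aleph_one fun d => Finset.univ.image (s d)
  obtain ⟨o, ho⟩ := hR.pigeon R1 (Y := Set.univ.pi fun _ => insert none (some '' R))
    ((Finite.pi fun _ => (R.finite_toSet.image _).insert _).lt_aleph0.trans_le R1.reg.aleph0_le)
    (fun d i => if s d i < d then some (s d i) else none)
    fun d hd i _ => by
      dsimp only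
      split_ifs with h
      · exact Or.inr ⟨_, hd.2.subset (by simp [h]), rfl⟩
      · exact Or.inl rfl
  obtain ⟨e, he⟩ := ho.ct1 fun d i j => decide (s d i = s d j)
  obtain ⟨S, hS, he⟩ : ∃ S, _ = S ∧ St S := ⟨_, rfl, he⟩
  have hS1 : ∀ d ∈ S, d ∈ T := fun d hd => (hS.symm.subset hd).1.1.1
  choose nx h1 h2 using he.unb
  choose b hb using fun y => H82.Luz.bdd ((countable_range (s (nx y))).insert (nx y))
  obtain ⟨δ, -, h3, h4⟩ := St_univ b (Classical.arbitrary _)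
  choose γ hγ using fun p : {p : Σ k, Fin k → ι → Bool // ∀ g ∈ S, ∀ i i', s g i = s g i' →
      ∀ j, p.2 j i = p.2 j i'} => hr (⋃ g ∈ {g ∈ S | g < δ ∧ ∀ i, s g i < δ}, ⋂ j : Fin p.1.1, ⋂ i,
        {t | g ≤ s g i → t j (s g i) = p.1.2 j i})
    (isOpen_biUnion fun g _ => isOpen_iInter_of_finite fun j => isOpen_iInter_of_finite fun i =>
      (isOpen_discrete {v | g ≤ s g i → v = p.1.2 j i}).preimage
        (f := fun t : ℕ → W1 → Bool => t j (s g i)) (by fun_prop))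
    (H82.Luz.dense_iff.2 fun a t => by
      obtain ⟨y, y1, y2⟩ := fin_bd ((a.image Prod.snd).filter (· < δ)) h3
        fun y hy => (Finset.mem_filter.1 hy).2
      have k1 := fun i => (hb y _ (Or.inr ⟨i, rfl⟩)).trans (h4 y y1)
      refine ⟨fun n x => if h : n < p.1.1 ∧ ∃ i, nx y ≤ s (nx y) i ∧ s (nx y) i = x then
        p.1.2 ⟨n, h.1⟩ h.2.choose else t n x, mem_biUnion (x := nx y)
          ⟨h1 y, (hb y _ (Or.inl rfl)).trans (h4 y y1), k1⟩ (mem_iInter₂.2 fun j i h => ?_),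
        fun q hq => dif_neg fun ⟨_, i, k2, k3⟩ => ?_⟩
      · have k2 : j < p.1.1 ∧ ∃ i', nx y ≤ s (nx y) i' ∧ s (nx y) i' = s (nx y) i :=
          ⟨j.2, i, h, rfl⟩
        exact (dif_pos k2).trans (p.2 _ (h1 y) _ _ k2.2.choose_spec.2 j)
      · exact ((h2 y).trans_le k2).not_ge (y2 _ (Finset.mem_filter.2
          ⟨k3 ▸ Finset.mem_image_of_mem _ hq, k1 i⟩)))
  obtain ⟨m, hm⟩ := H82.Luz.bdd ((countable_range γ).insert δ)
  obtain ⟨d, d1, d2⟩ := he.unb m
  let A := (B d).filter (d ≤ ·)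
  let u : ℕ → W1 := fun j => if h : j < A.card then A.equivFin.symm ⟨j, h⟩ else d
  obtain ⟨z, ⟨-, z1⟩, z2⟩ := hγ ⟨⟨A.card, fun j i => F d i (u j)⟩, fun g hg i i' h j =>
    congrFun (hF d (hS1 d d1) i i' (by
      simpa [h] using congrFun₂ ((hS.symm.subset hg).2.trans (hS.symm.subset d1).2.symm) i i')) _⟩
    A.card u (fun j hj j' hj' h => by
      simpa [u, show j < A.card from hj, show j' < A.card from hj', ← Subtype.ext_iff] using h)
    (fun j hj => ((hm _ (Or.inr ⟨_, rfl⟩)).trans d2).le.trans (by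
      simpa [u, hj] using (Finset.mem_filter.1 (A.equivFin.symm ⟨j, hj⟩).2).2))
    (fun j => r (u j)) Set.univ isOpen_univ trivial fun _ _ _ _ => rfl
  obtain ⟨g, ⟨g1, g2, g3⟩, g4⟩ := mem_iUnion₂.1 z1
  have h5 := (hm _ (Or.inl rfl)).trans d2
  refine ⟨g, hS1 g g1, d, hS1 d d1, g2.trans h5, fun i => ?_⟩
  have h6 := congrFun ((hS.symm.subset g1).1.2.trans (hS.symm.subset d1).1.2.symm) i
  split_ifs at h6 with h7 h8 h8
  · exact Or.inl ⟨Option.some.inj h6, h7⟩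
  refine Or.inr ⟨not_lt.1 h7, (g3 i).trans h5, not_lt.1 h8, fun y hy hy' => ?_⟩
  have h9 := mem_iInter₂.1 g4 (A.equivFin ⟨y, Finset.mem_filter.2 ⟨hy, hy'⟩⟩) i (not_lt.1 h7)
  rw [z2 _ (Fin.is_lt _)] at h9
  simpa [u] using h9

end Pool.Agent.H57.Pr
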