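import Pool.Agent.H57.PsiDefs
import Pool.Agent.H57.Coh

set_option autoImplicit false

namespace Pool.Agent.H57.Psi

open Set Cardinal Filter Pool.Agent.H57.Lots

theorem bdd_W1 {t : Set W1} (ht : t.Countable) : ∃ b, t ⊆ Iio b := by
  rcases t.eq_empty_or_nonempty with rfl | hne
  · exact ⟨Classical.arbitrary _, empty_subset _⟩
  obtain ⟨a, rfl⟩ := ht.exists_eq_range hne
  obtain ⟨b, hb⟩ := bdd_seq cof_W1 a
  obtain ⟨c, hc⟩ := exists_gt b
  exact ⟨c, fun x hx => (hb hx).trans_lt hc⟩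

theorem cof_one : cofCount ℵ₁ = ℵ₁ := by
  obtain ⟨e⟩ : Nonempty (W1 ≃ (ℵ₁ : Cardinal.{0}).out) := by
    rw [← Cardinal.eq, mk_W1, mk_out]
  have h1 : #(range fun b : W1 => e '' Iio b) ∈ {l | ∃ F : Set (Set (ℵ₁ : Cardinal.{0}).out),
      #F = l ∧ (∀ s ∈ F, s.Countable) ∧ ∀ t : Set (ℵ₁ : Cardinal.{0}).out, t.Countable →
        ∃ s ∈ F, t ⊆ s} := by
    refine ⟨_, rfl, ?_, fun t ht => ?_⟩
    · rintro _ ⟨b, rfl⟩; exact (Coh.Iio_countable b).image _
    · obtain ⟨b, hb⟩ := bdd_W1 (ht.preimage e.injective)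
      exact ⟨_, mem_range_self b, fun x hx => ⟨e.symm x, hb (by simpa using hx), by simp⟩⟩
  refine le_antisymm ((csInf_le' h1).trans (mk_range_le.trans mk_W1.le)) ?_
  refine le_csInf ⟨_, h1⟩ ?_
  rintro _ ⟨F, rfl, h2, h3⟩
  by_contra hn
  have h4 : F.Countable := by
    rw [← le_aleph0_iff_set_countable, ← Order.lt_succ_iff, succ_aleph0]; exact not_le.1 hn
  have h5 : (univ : Set (ℵ₁ : Cardinal.{0}).out).Countable :=
    (h4.sUnion h2).mono fun x _ => by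
      obtain ⟨s, hs, hx⟩ := h3 {x} (countable_singleton x)
      exact ⟨s, hs, hx rfl⟩
  rw [← le_aleph0_iff_set_countable, mk_univ, mk_out] at h5
  exact h5.not_gt aleph0_lt_aleph_one

theorem dom_countable {S : Set (ℕ → ℕ)} (hS : S.Countable) :
    ∃ g : ℕ → ℕ, ∀ f ∈ S, ∀ᶠ n in atTop, f n < g n := by
  rcases S.eq_empty_or_nonempty with rfl | hne
  · exact ⟨id, by simp⟩
  obtain ⟨a, rfl⟩ := hS.exists_eq_range hne
  refine ⟨fun n => (Finset.range (n + 1)).sup (fun i => a i n) + 1, ?_⟩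
  rintro _ ⟨i, rfl⟩
  filter_upwards [eventually_ge_atTop i] with n hn
  exact Nat.lt_succ_of_le (Finset.le_sup (f := fun i => a i n)
    (Finset.mem_range.2 (Nat.lt_succ_of_le hn)))

theorem scale (hb : bNum = ℵ₁) : ∃ x : W1 → ℕ → ℕ, (∀ a c, a < c → ∀ᶠ n in atTop, x a n < x c n) ∧
    ∀ g : ℕ → ℕ, ∃ a, ∃ᶠ n in atTop, g n < x a n := by
  have hne : {k | ∃ F : Set (ℕ → ℕ), #F = k ∧
      ¬ ∃ g : ℕ → ℕ, ∀ f ∈ F, ∀ᶠ n in atTop, f n ≤ g n}.Nonempty := by
    refine ⟨_, univ, rfl, ?_⟩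
    rintro ⟨g, hg⟩
    obtain ⟨n, hn⟩ := (hg (fun n => g n + 1) trivial).exists
    exact absurd hn (by simp)
  obtain ⟨F, hF1, hF2⟩ := csInf_mem hne
  obtain ⟨e⟩ : Nonempty (W1 ≃ F) := by
    rw [← Cardinal.eq, mk_W1, hF1]; exact hb.symm
  have step : ∀ (a : W1) (g : ∀ b, b < a → ℕ → ℕ), ∃ y : ℕ → ℕ,
      (∀ᶠ n in atTop, (e a).1 n < y n) ∧ ∀ b (h : b < a), ∀ᶠ n in atTop, g b h n < y n := by
    intro a g
    haveI := (Coh.Iio_countable a).to_subtype
    obtain ⟨y, hy⟩ := dom_countable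
      ((countable_range fun b : Iio a => g b.1 b.2).insert (e a).1)
    exact ⟨y, hy _ (mem_insert _ _), fun b h => hy _ (mem_insert_of_mem _ ⟨⟨b, h⟩, rfl⟩)⟩
  choose G hG1 hG2 using step
  let x : W1 → ℕ → ℕ := wellFounded_lt.fix G
  have hx : ∀ a, x a = G a fun b _ => x b := fun a => wellFounded_lt.fix_eq G a
  refine ⟨x, fun a c h => by rw [hx c]; exact hG2 c (fun b _ => x b) a h, fun g => ?_⟩
  by_contra hn
  refine hF2 ⟨g, fun f hf => ?_⟩
  have h1 := hG1 (e.symm ⟨f, hf⟩) fun b _ => x b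
  rw [← hx, e.apply_symm_apply] at h1
  have h2 := not_frequently.1 (not_exists.1 hn (e.symm ⟨f, hf⟩))
  filter_upwards [h1, h2] with n h3 h4
  exact h3.le.trans (not_lt.1 h4)

def col (m : ℕ) : Set ℕ := range (Nat.pair m)

def gr (x : ℕ → ℕ) : Set ℕ := range fun m => Nat.pair m (x m)

theorem main (hb : bNum = ℵ₁) (hd : ℵ₁ < dNum) :
    ∃ A : Set (Set ℕ), AD A ∧ #A = ℵ₁ ∧ StarRothberger (Psi A) := by
  obtain ⟨x, hx1, hx2⟩ := scale hb
  have hgg : ∀ a c, a < c → (gr (x a) ∩ gr (x c)).Finite := by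
    intro a c h
    have h1 := hx1 a c h
    rw [← Nat.cofinite_eq_atTop, eventually_cofinite] at h1
    refine (h1.image fun m => Nat.pair m (x a m)).subset ?_
    rintro _ ⟨⟨m, rfl⟩, m', h2⟩
    obtain ⟨rfl, h3⟩ := Nat.pair_eq_pair.1 h2
    exact ⟨m', h3.not_gt, rfl⟩
  have hcg : ∀ m a, (col m ∩ gr (x a)).Finite := by
    intro m a
    refine (finite_singleton (Nat.pair m (x a m))).subset ?_
    rintro _ ⟨⟨j, rfl⟩, m', h2⟩
    obtain ⟨rfl, h3⟩ := Nat.pair_eq_pair.1 h2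
    exact h2.symm
  have hginf : ∀ a, (gr (x a)).Infinite := fun a =>
    infinite_range_of_injective fun _ _ h => (Nat.pair_eq_pair.1 h).1
  refine ⟨range col ∪ range fun a => gr (x a), ⟨?_, ?_⟩, le_antisymm ?_ ?_, ?_⟩
  · rintro _ (⟨m, rfl⟩ | ⟨a, rfl⟩)
    · exact infinite_range_of_injective fun _ _ h => (Nat.pair_eq_pair.1 h).2
    · exact hginf a
  · rintro _ (⟨m, rfl⟩ | ⟨a, rfl⟩) _ (⟨m', rfl⟩ | ⟨c, rfl⟩) hne
    · refine finite_empty.subset ?_
      rintro _ ⟨⟨j, rfl⟩, j', h2⟩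
      exact hne (by rw [(Nat.pair_eq_pair.1 h2).1])
    · exact hcg _ _
    · rw [inter_comm]; exact hcg _ _
    · rcases lt_trichotomy a c with h | rfl | h
      · exact hgg _ _ h
      · exact (hne rfl).elim
      · rw [inter_comm]; exact hgg _ _ h
  · refine (mk_union_le _ _).trans ((add_le_add (mk_range_le.trans ?_) (mk_range_le.trans mk_W1.le)).trans
      (add_eq_self aleph0_lt_aleph_one.le).le)
    simpa using aleph0_lt_aleph_one.le
  · refine le_trans (mk_W1.symm.trans (mk_range_eq _ fun a c h => ?_).symm).le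
      (mk_le_mk_of_subset subset_union_right)
    have h' : gr (x a) = gr (x c) := h
    rcases lt_trichotomy a c with h1 | h1 | h1
    · exact (hginf a (by simpa [h'] using hgg _ _ h1)).elim
    · exact h1
    · exact (hginf a (by simpa [h'] using hgg _ _ h1)).elim
  let A := range col ∪ range fun a => gr (x a)
  show StarRothberger (Psi A)
  intro C hC
  have h1 : ∀ n (p : Psi A), ∃ V ∈ C n, p ∈ V := fun n p => by
    have : p ∈ ⋃₀ C n := (hC n).2 ▸ mem_univ p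
    exact this
  choose V hV1 hV2 using h1
  have h2 : ∀ n (a : A), ∃ k, ∀ j ∈ a.1, k ≤ j → Psi.nat j ∈ V n (Psi.pt a) := fun n a => by
    obtain ⟨k, hk⟩ := ((hC n).1 _ (hV1 n (Psi.pt a)) a (hV2 n _)).bddAbove
    refine ⟨k + 1, fun j hj h => ?_⟩
    by_contra hn
    exact absurd (hk ⟨hj, hn⟩) (by omega)
  choose f hf using h2
  let cA : ℕ → A := fun m => ⟨col m, Or.inl (mem_range_self m)⟩
  let gA : W1 → A := fun a => ⟨gr (x a), Or.inr (mem_range_self a)⟩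
  obtain ⟨a0, ha0⟩ := hx2 fun m => (Finset.range (m + 1)).sup fun i => f (2 * i) (cA m)
  obtain ⟨s', hs'⟩ : ∃ s' : ℕ → ℕ, ∀ a, ∃ᶠ i in atTop, f (2 * i) (gA a) < s' i := by
    by_contra hn
    refine hd.not_ge (le_trans (b := #(range fun a i => f (2 * i) (gA a)))
      (csInf_le' ⟨_, rfl, fun g => ?_⟩) (mk_range_le.trans mk_W1.le))
    obtain ⟨a, ha⟩ := not_forall.1 (not_exists.1 hn g)
    exact ⟨_, mem_range_self a, (not_frequently.1 ha).mono fun n h => not_lt.1 h⟩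
  choose s hs1 hs2 using fun i => frequently_atTop.1 ha0 (max i (s' i))
  have hZ : (range (Psi.nat (A := A)) ∪ range (fun m => Psi.pt (cA m)) ∪
      (fun a => Psi.pt (gA a)) '' insert a0 (Iio a0)).Countable :=
    ((countable_range _).union (countable_range _)).union
      (((Coh.Iio_countable a0).insert a0).image _)
  obtain ⟨z, hz⟩ := hZ.exists_eq_range ⟨Psi.nat 0, Or.inl (Or.inl (mem_range_self 0))⟩
  refine ⟨fun n => V n (if n % 2 = 0 then Psi.pt (cA (s (n / 2))) else z (n / 2)),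
    fun n => hV1 _ _, eq_univ_of_forall fun p => ?_⟩
  by_cases hp : p ∈ range z
  · obtain ⟨i, rfl⟩ := hp
    refine mem_iUnion.2 ⟨2 * i + 1, V _ (z i), ⟨hV1 _ _, z i, hV2 _ _, ?_⟩, hV2 _ _⟩
    beta_reduce
    rw [if_neg (by omega), show (2 * i + 1) / 2 = i by omega]
    exact hV2 _ _
  rw [← hz] at hp
  rcases p with n | ⟨_, ⟨m, rfl⟩ | ⟨a, rfl⟩⟩
  · exact (hp (Or.inl (Or.inl (mem_range_self n)))).elim
  · exact (hp (Or.inl (Or.inr (mem_range_self m)))).elim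
  have ha : a0 < a := by
    by_contra hn
    refine hp (Or.inr ⟨a, ?_, rfl⟩)
    rcases (not_lt.1 hn).eq_or_lt with h | h
    · exact Or.inl h
    · exact Or.inr h
  obtain ⟨N, hN⟩ := eventually_atTop.1 (hx1 a0 a ha)
  obtain ⟨i, hi1, hi2⟩ := frequently_atTop.1 (hs' a) N
  refine mem_iUnion.2 ⟨2 * i, V _ (Psi.pt (gA a)),
    ⟨hV1 _ _, Psi.nat (Nat.pair (s i) (x a (s i))), ?_, ?_⟩, hV2 _ _⟩
  · exact hf _ _ _ (mem_range_self (s i))
      ((hi2.le.trans ((le_max_right _ _).trans (hs1 i))).trans (Nat.left_le_pair _ _))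
  · beta_reduce
    rw [if_pos (by omega), show 2 * i / 2 = i by omega]
    have h3 : i ≤ s i := (le_max_left _ _).trans (hs1 i)
    refine hf _ _ _ (mem_range_self _) (le_trans ?_ (Nat.right_le_pair _ _))
    exact ((Finset.le_sup (f := fun j => f (2 * j) (cA (s i)))
      (Finset.mem_range.2 (Nat.lt_succ_of_le h3))).trans (hs2 i).le).trans
      (hN _ (hi1.trans h3)).le

end Pool.Agent.H57.Psi
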