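import Mathlib

set_option autoImplicit false

namespace Pool.Agent.H57.Psi

open Cardinal Filter

/-- almost disjoint family of infinite subsets of `ℕ` -/
def AD (A : Set (Set ℕ)) : Prop :=
  (∀ a ∈ A, a.Infinite) ∧ ∀ a ∈ A, ∀ b ∈ A, a ≠ b → (a ∩ b).Finite

/-- the underlying set `ℕ ∪ A` of the Isbell–Mrówka space -/
inductive Psi (A : Set (Set ℕ)) : Type
  | nat : ℕ → Psi A
  | pt : A → Psi A

/-- `U` is open iff every point `a ∈ A` of `U` has all but finitely many of its elements in `U` -/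
instance (A : Set (Set ℕ)) : TopologicalSpace (Psi A) where
  IsOpen U := ∀ a : A, Psi.pt a ∈ U → (a.1 \ {n | Psi.nat n ∈ U}).Finite
  isOpen_univ := fun a _ => by simp
  isOpen_inter := fun U V hU hV a ha => ((hU a ha.1).union (hV a ha.2)).subset fun n hn => by
    by_contra h
    simp only [Set.mem_union, Set.mem_diff, Set.mem_setOf_eq, not_or, not_and, not_not] at h
    exact hn.2 ⟨h.1 hn.1, h.2 hn.1⟩
  isOpen_sUnion := fun S hS a ⟨U, hU, ha⟩ =>
    (hS U hU a ha).subset fun _ hn => ⟨hn.1, fun h => hn.2 ⟨U, hU, h⟩⟩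

/-- the star of `U` with respect to `C` -/
def st {X : Type} (U : Set X) (C : Set (Set X)) : Set X := ⋃₀ {V ∈ C | (V ∩ U).Nonempty}

def StarRothberger (X : Type) [TopologicalSpace X] : Prop :=
  ∀ C : ℕ → Set (Set X), (∀ n, (∀ U ∈ C n, IsOpen U) ∧ ⋃₀ C n = Set.univ) →
    ∃ U : ℕ → Set X, (∀ n, U n ∈ C n) ∧ ⋃ n, st (U n) (C n) = Set.univ

/-- the bounding number -/
noncomputable def bNum : Cardinal.{0} :=
  sInf {k | ∃ F : Set (ℕ → ℕ), #F = k ∧ ¬ ∃ g : ℕ → ℕ, ∀ f ∈ F, ∀ᶠ n in atTop, f n ≤ g n}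

/-- the dominating number -/
noncomputable def dNum : Cardinal.{0} :=
  sInf {k | ∃ F : Set (ℕ → ℕ), #F = k ∧ ∀ g : ℕ → ℕ, ∃ f ∈ F, ∀ᶠ n in atTop, g n ≤ f n}

/-- the covering number of the meager ideal, in the combinatorial form of the problem file -/
noncomputable def covM : Cardinal.{0} :=
  sInf {k | ∃ F : Set (ℕ → ℕ), #F = k ∧ ∀ g : ℕ → ℕ, ∃ f ∈ F, {n | f n = g n}.Finite}

/-- cofinality of the countable subsets of `k` under inclusion -/
noncomputable def cofCount (k : Cardinal.{0}) : Cardinal.{0} :=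
  sInf {l | ∃ F : Set (Set k.out), #F = l ∧ (∀ s ∈ F, s.Countable) ∧
    ∀ t : Set k.out, t.Countable → ∃ s ∈ F, t ⊆ s}

end Pool.Agent.H57.Psi
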