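import Pool.Agent.H57.Spread

set_option autoImplicit false

namespace Pool.Agent.H57.Pr

open Set Cardinal Order Filter Topology Pool.Agent.H57.Lots
open Pool.Agent.H82.LadA (Unc)

theorem agree' {I Z : Type} [TopologicalSpace Z] {X : Set (I → Z)} {U : Set X} {x : X}
    (h : U ∈ 𝓝 x) : ∃ F : Finset I, ∀ y : X, (∀ i ∈ F, y.1 i = x.1 i) → y ∈ U := by
  obtain ⟨u, h1, h2⟩ := (mem_nhds_subtype _ _ _).1 h
  obtain ⟨F, hF⟩ := agree h1
  exact ⟨F, fun y hy => h2 (hF _ hy)⟩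

theorem h02 : ℵ₀ < succ ℵ₁ := aleph0_lt_aleph_one.trans (lt_succ _)

theorem St.ctb {S : Set W2} (hS : St S) {α : Type} [Countable α] (f : W2 → α) :
    ∃ y, St {x ∈ S | f x = y} :=
  hS.pigeon R2 (Y := Set.univ) ((mk_univ.trans_le mk_le_aleph0).trans_lt h02) f fun _ _ => trivial

/-- countable dense families in the powers `2^β` -/
theorem hmp : ∃ d : W2 → Finset ℕ × Finset (Finset ℕ) → W2 → Bool, ∀ β (a : Finset W2)
    (p : W2 → Bool), ∃ n, ∀ α ∈ a, α < β → d β n α = p α := by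
  classical
  obtain ⟨r, hr⟩ := inj_ex (W := W2) (V := Set ℕ) fun x => (Order.lt_succ_iff.1 (R2.iio x)).trans
    (by rw [mk_set, mk_nat, two_power_aleph0]; exact aleph_one_le_continuum)
  refine ⟨fun β n α => decide (n.1.filter (· ∈ r β α) ∈ n.2), fun β a p => ?_⟩
  obtain ⟨w, hw⟩ := sep (r β) (a.filter (· < β)) ((hr β).mono fun x hx => by
    simpa using (Finset.mem_filter.1 hx).2)
  refine ⟨(w, ((a.filter (· < β)).filter (p · = true)).image fun x => w.filter (· ∈ r β x)),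
    fun α h1 h2 => ?_⟩
  rw [Bool.eq_iff_iff, decide_eq_true_iff, Finset.mem_image]
  refine ⟨fun ⟨y, h3, h4⟩ => ?_, fun h => ⟨α, by simp [*], rfl⟩⟩
  rw [Finset.mem_filter] at h3
  exact hw y h3.1 α (by simp [*]) (fun i hi => by simpa [hi] using Finset.ext_iff.1 h4 i) ▸ h3.2

theorem covc : ∃ C : W2 → Set W2, (∀ α, (C α).Countable) ∧ ∀ Q : Set W2, Q.Countable →
    ∃ α, ∀ ξ ∈ Q, ξ < α ∧ ξ ∈ C α := by
  obtain ⟨e, he⟩ := e2_ex
  obtain ⟨ψ, hψ⟩ := book (A := W2 × W1) (by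
    rw [mk_prod, lift_id, lift_id, R2.card, mk_W1]
    exact (mul_eq_left h02.le (le_succ _) (aleph_pos _).ne').le)
  refine ⟨fun α => {ξ | ξ < (ψ α).1 ∧ e (ψ α).1 ξ < (ψ α).2}, fun α => ?_, fun Q hQ => ?_⟩
  · exact countable_of_injective_of_countable_image ((he _).mono fun x hx => hx.1)
      ((countable_iff_lt_aleph_one _ |>.2 (R1.iio (ψ α).2)).mono (by rintro _ ⟨x, hx, rfl⟩; exact hx.2))
  obtain ⟨β, hβ⟩ := R2.bdd (hQ.le_aleph0.trans_lt h02)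
  obtain ⟨ι, hι⟩ := R1.bdd ((hQ.image (e β)).le_aleph0.trans_lt aleph0_lt_aleph_one)
  obtain ⟨α, h1, h2⟩ := hψ (β, ι) β
  exact ⟨α, fun ξ h => ⟨(hβ ξ h).trans h1, by simpa [h2] using ⟨hβ ξ h, hι _ ⟨ξ, h, rfl⟩⟩⟩⟩

/-- continuous functions on a dense subset of `2^{ω₂}` depend on boundedly many coordinates -/
theorem dep {X : Set (W2 → Bool)} (hX : ∀ (a : Finset W2) (p : W2 → Bool), ∃ z ∈ X,
    ∀ α ∈ a, z α = p α) {f : X → ℝ} (hf : Continuous f) :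
    ∃ β, ∀ z z' : X, (∀ α < β, z.1 α = z'.1 α) → f z = f z' := by
  classical
  by_contra hn
  have h1 : ∀ β, ∃ (z z' : X) (q : ℚ), (∀ α < β, z.1 α = z'.1 α) ∧ f z < q ∧ q < f z' := fun β => by
    simp only [not_exists, not_forall] at hn
    obtain ⟨z, z', h1, h2⟩ := hn β
    rcases lt_or_gt_of_ne h2 with h | h <;> obtain ⟨q, hq⟩ := exists_rat_btwn h
    exacts [⟨z, z', q, h1, hq⟩, ⟨z', z, q, fun α h => (h1 α h).symm, hq⟩]
  choose z z' q h1 h2 h3 using h1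
  choose a ha using fun β => agree' (hf.continuousAt (isOpen_Iio.mem_nhds (h2 β)))
  choose b hb using fun β => agree' (hf.continuousAt (isOpen_Ioi.mem_nhds (h3 β)))
  obtain ⟨r, h4⟩ := St_unc.ctb q
  obtain ⟨R, h5⟩ := h4.fin R2 h02 b
  obtain ⟨o, h6⟩ := h5.ctb fun β (α : R) => (z β).1 α
  obtain ⟨β, h7, -⟩ := h6.unb (Classical.arbitrary _)
  obtain ⟨m, hm⟩ := R2.bdd ((a β).finite_toSet.lt_aleph0.trans h02)
  obtain ⟨γ, h8, h9⟩ := h6.unb m
  obtain ⟨y, y1, y2⟩ := hX (a β ∪ b γ) fun α => if α ∈ a β then (z β).1 α else (z' γ).1 α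
  have k1 : f ⟨y, y1⟩ < q β := ha β _ fun α h => by simp [y2, h]
  have k2 : q γ < f ⟨y, y1⟩ := hb γ _ fun α h => by
    simp only [y2 α (by simp [h])]
    split_ifs with h'
    · have k := (hm α h').trans h9
      exact (congrFun (h7.2.trans h8.2.symm) ⟨α, h8.1.2.subset (by simp [h, k])⟩).trans (h1 γ α k)
    · rfl
  rw [h7.1.1.2] at k1
  rw [h8.1.1.2] at k2
  exact k1.asymm k2

theorem psi : ∃ X : Set (W2 → Bool), (∀ D : Set (X → ℝ), (∀ d ∈ D, Continuous d) →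
    (∀ d ∈ D, ∃ U : Set (X → ℝ), IsOpen U ∧ U ∩ D = {d}) → ∀ f ∈ closure D, Continuous f →
    ∃ 𝒰 : Set (Set (X → ℝ)), 𝒰.Countable ∧ (∀ U ∈ 𝒰, IsOpen U ∧ f ∈ U) ∧
      ⋂₀ 𝒰 ∩ {g | g ∈ closure D ∧ Continuous g} = {f}) ∧ ¬ TopologicalSpace.SeparableSpace X := by
  classical
  obtain ⟨c, hc⟩ := pr0 (K := Bool) (mk_le_aleph0.trans aleph0_lt_aleph_one.le)
  obtain ⟨d, hd⟩ := hmp
  obtain ⟨C, hC, hC'⟩ := covc
  have h0 : ∀ {A B : Type}, #A ≤ succ ℵ₁ → #B ≤ succ ℵ₁ → #(A × B) ≤ succ ℵ₁ := fun h h' => by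
    rw [mk_prod, lift_id, lift_id]
    exact (mul_le_mul' h h').trans (mul_eq_self h02.le).le
  have h0' : #(Finset W2) ≤ succ ℵ₁ := ((mk_le_of_surjective (f := List.toFinset)
    fun s => ⟨_, s.toList_toFinset⟩).trans (mk_list_le_max _)).trans (max_le h02.le R2.card.le)
  obtain ⟨φ, hφ⟩ := book (A := (W2 × Finset ℕ × Finset (Finset ℕ)) × Finset W2 × Finset W2)
    (h0 (h0 R2.card.le (mk_le_aleph0.trans h02.le)) (h0 h0' h0'))
  let x : W2 → W2 → Bool := fun ξ α => if α ≤ ξ then if α ∈ (φ ξ).2.1 then decide (α ∈ (φ ξ).2.2)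
    else d (φ ξ).1.1 (φ ξ).1.2 α else if ξ ∈ C α then false else c ξ α
  have H : ∀ β n (a : Finset W2) (p : W2 → Bool), ∃ z ∈ range x, (∀ α ∈ a, z α = p α) ∧
      ∀ α < β, α ∉ a → z α = d β n α := fun β n a p => by
    obtain ⟨m, hm⟩ := R2.bdd (a.finite_toSet.lt_aleph0.trans h02)
    obtain ⟨ξ, h1, h2⟩ := hφ ((β, n), a, a.filter (p · = true)) (max m β)
    rw [max_lt_iff] at h1
    exact ⟨_, ⟨ξ, rfl⟩, fun α h => by simp [x, h2, h, ((hm α h).trans h1.1).le],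
      fun α h h' => by simp [x, h2, h', (h.trans h1.2).le]⟩
  have H' : ∀ (a : Finset W2) (p : W2 → Bool), ∃ z ∈ range x, ∀ α ∈ a, z α = p α := fun a p =>
    let ⟨z, h1, h2, _⟩ := H (Classical.arbitrary _) (∅, ∅) a p; ⟨z, h1, h2⟩
  refine ⟨range x, fun D h1 h2 f h3 h4 => ?_, fun ⟨Q, h1, h2⟩ => ?_⟩
  swap
  · choose π hπ using fun z : range x => z.2
    obtain ⟨α, h3⟩ := hC' _ (h1.image π)
    obtain ⟨z, z1, z2⟩ := H' {α} fun _ => true
    obtain ⟨y, y1, y2⟩ := h2.exists_mem_open (U := {y | y.1 α = true})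
      ((isOpen_discrete {true}).preimage (f := fun y : range x => y.1 α)
        ((continuous_apply α).comp continuous_subtype_val))
      ⟨⟨z, z1⟩, z2 α (by simp)⟩
    have := h3 _ ⟨y, y1, rfl⟩
    simp [← hπ y, x, this.1.not_ge, this.2] at y2
  have hD : #D < succ ℵ₁ := by
    by_contra hn
    obtain ⟨k⟩ := (Cardinal.le_def W2 D).1 (R2.card.trans_le (not_lt.1 hn))
    let y : W2 → range x := fun ξ => ⟨_, ξ, rfl⟩
    have h3 : ∀ δ, ∃ e : Σ n, Fin n → ℚ × ℚ, ∃ s : Fin e.1 → W2,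
        (∀ i, (k δ).1 (y (s i)) ∈ Ioo ((e.2 i).1 : ℝ) (e.2 i).2) ∧
        ∀ g, (∀ i, (k g).1 (y (s i)) ∈ Ioo ((e.2 i).1 : ℝ) (e.2 i).2) → g = δ := fun δ => by
      obtain ⟨U, h3, h4⟩ := h2 _ (k δ).2
      obtain ⟨I, u, h5, h6⟩ := isOpen_pi_iff.1 h3 (k δ) (h4.symm.subset rfl).1
      choose π hπ using fun z : range x => z.2
      have hy : ∀ z, y (π z) = z := fun z => Subtype.ext (hπ z)
      choose p h7 h8 using fun z : I => rat_Ioo (h5 _ z.2).1 (h5 _ z.2).2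
      refine ⟨⟨_, fun i => p (I.equivFin.symm i)⟩, fun i => π (I.equivFin.symm i),
        fun i => hy _ ▸ h7 _, fun g hg =>
          k.injective (Subtype.ext (h4.subset ⟨h6 fun z hz => ?_, (k g).2⟩))⟩
      exact h8 ⟨z, hz⟩ (by simpa [hy] using hg (I.equivFin ⟨z, hz⟩))
    choose e he using h3
    obtain ⟨⟨n, J⟩, h4⟩ := St_unc.ctb e
    choose! s h6 h7 using fun δ (h : δ ∈ {x ∈ {x | Unc x} | e x = ⟨n, J⟩}) => h.2 ▸ he δ
    choose! B hB using fun δ h i => agree'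
      ((h1 _ (k δ).2).continuousAt (isOpen_Ioo.mem_nhds (h6 δ h i)))
    obtain ⟨R, hR⟩ := h4.fin R2 h02 fun δ => Finset.univ.biUnion (B δ)
    obtain ⟨o, ho⟩ := hR.ctb fun δ i (α : R) => x (s δ i) α
    choose! b b1 b2 using fun δ (h : Unc δ) => h
      ((⋃ α ∈ Finset.univ.biUnion (B δ), C α) ∩ Iio δ)
      (((Finset.countable_toSet _).biUnion fun α _ => hC α).mono inter_subset_left) fun _ h => h.2
    obtain ⟨w, hw⟩ := ho.fodor R2 b fun δ h => b1 δ h.1.1.1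
    obtain ⟨g, ⟨g1, g2⟩, δ, ⟨d1, -⟩, h11, h12⟩ := hc _ s (fun δ => Finset.univ.biUnion (B δ))
      (fun δ i => x (s δ i)) _ (hw.gt w) fun δ _ i j h => h ▸ rfl
    refine h11.ne' (h7 g g1.1.1.1 δ fun i => ?_)
    rcases h12 i with h | ⟨a1, a2, a3, a4⟩
    · exact h ▸ h6 δ d1.1.1.1 i
    refine hB δ d1.1.1.1 i _ fun α ha => ?_
    have a5 : α ∈ Finset.univ.biUnion (B δ) := Finset.mem_biUnion.2 ⟨_, Finset.mem_univ _, ha⟩
    rcases lt_or_ge α δ with h | h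
    · exact congrFun (congrFun (g1.1.2.trans d1.1.2.symm) i)
        ⟨α, d1.1.1.2.subset (Finset.mem_filter.2 ⟨a5, h⟩)⟩
    · have a6 : s g i ∉ C α := fun h' => (g2.trans_le a1).asymm
        (d1.2 ▸ b2 δ d1.1.1.1.1 _ ⟨mem_biUnion a5 h', a2⟩)
      exact (show _ = c (s g i) α by simp [y, x, (a2.trans_le h).not_ge, a6]).trans (a4 α a5 h)
  choose b hb using fun g : D => dep H' (h1 _ g.2)
  obtain ⟨β, hβ⟩ := R2.bdd (mk_range_le.trans_lt hD : #(range b) < _)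
  have h5 : ∀ g ∈ closure D, ∀ z z' : range x, (∀ α < β, z.1 α = z'.1 α) → g z = g z' :=
    fun g hg z z' h => closure_minimal (t := {g : range x → ℝ | g z = g z'})
      (fun g hg => hb ⟨g, hg⟩ z z' fun α h' => h α (h'.trans (hβ _ ⟨_, rfl⟩)))
      (isClosed_eq (continuous_apply z) (continuous_apply z')) hg
  choose q q1 q2 q3 using fun n => H β n ∅ fun _ => true
  refine ⟨range fun p : _ × ℕ => {g | g ⟨_, q1 p.1⟩ ∈ Metric.ball (f ⟨_, q1 p.1⟩) (1 / (p.2 + 1))},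
    countable_range _, ?_, Subset.antisymm (fun g ⟨g1, g2, g3⟩ => funext fun z => ?_) ?_⟩
  · rintro _ ⟨p, rfl⟩
    exact ⟨Metric.isOpen_ball.preimage (continuous_apply (⟨_, q1 p.1⟩ : range x)),
      Metric.mem_ball_self (by positivity)⟩
  · by_contra hn
    obtain ⟨a, ha⟩ := agree' ((isOpen_ne_fun g3 h4).mem_nhds hn)
    obtain ⟨n, h6⟩ := hd β a z
    obtain ⟨y, y1, y2, y3⟩ := H β n a z
    have h7 : ∀ α < β, y α = q n α := fun α h => by
      rw [q3 n α h (by simp)]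
      by_cases h' : α ∈ a
      exacts [(y2 α h').trans (h6 α h' h).symm, y3 α h h']
    refine ha ⟨y, y1⟩ y2 ?_
    rw [h5 g g2 ⟨y, y1⟩ ⟨_, q1 n⟩ h7, h5 f h3 ⟨y, y1⟩ ⟨_, q1 n⟩ h7]
    refine eq_of_forall_dist_le fun ε hε => ?_
    obtain ⟨m, hm⟩ := exists_nat_one_div_lt hε
    exact ((g1 _ ⟨(n, m), rfl⟩).trans hm).le
  · rintro _ rfl
    refine ⟨?_, h3, h4⟩
    rintro _ ⟨p, rfl⟩
    exact Metric.mem_ball_self (by positivity)

end Pool.Agent.H57.Pr
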