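import Mathlib

/-! Sums of powers of multinomial coefficients through q-multinomials at roots of unity. -/

namespace Pool.Agent.H57.QMult

open Finset Polynomial

/-- q-integer -/
noncomputable def qi (s : ℕ) : ℤ[X] := ∑ t ∈ range s, X ^ t

/-- q-factorial -/
noncomputable def qf (t : ℕ) : ℤ[X] := ∏ s ∈ range t, qi (s + 1)

lemma qi_mul (s : ℕ) : qi s * (X - 1) = X ^ s - 1 := geom_sum_mul _ _

lemma X1 : (X - 1 : ℤ[X]) ≠ 0 := X_sub_C_ne_zero 1

lemma qi_add (a b : ℕ) : qi (a + b) = qi a + X ^ a * qi b := by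
  simp only [qi, sum_range_add, mul_sum, pow_add]

lemma qf_succ (t : ℕ) : qf (t + 1) = qf t * qi (t + 1) := prod_range_succ _ _

lemma exists_binom (a b : ℕ) : ∃ G : ℤ[X], G * (qf a * qf b) = qf (a + b) := by
  induction a generalizing b with
  | zero => exact ⟨1, by simp [qf]⟩
  | succ a iha =>
    induction b with
    | zero => exact ⟨1, by simp [qf]⟩
    | succ b ihb =>
      obtain ⟨G1, h1⟩ := iha (b + 1)
      obtain ⟨G2, h2⟩ := ihb
      refine ⟨G1 + X ^ (a + 1) * G2, ?_⟩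
      rw [show a + (b + 1) = a + 1 + b by ring] at h1
      rw [← add_assoc (a + 1), qf_succ (a + 1 + b), add_assoc (a + 1), qi_add (a + 1) (b + 1)]
      rw [qf_succ a] at h2 ⊢
      rw [qf_succ b] at h1 ⊢
      linear_combination qi (a + 1) * h1 + X ^ (a + 1) * qi (b + 1) * h2

lemma exists_mult {ι : Type} (s : Finset ι) (f : ι → ℕ) :
    ∃ M : ℤ[X], M * ∏ i ∈ s, qf (f i) = qf (∑ i ∈ s, f i) := by
  classical
  induction s using Finset.induction_on with
  | empty => exact ⟨1, by simp [qf]⟩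
  | insert a s ha ih =>
    obtain ⟨M, hM⟩ := ih
    obtain ⟨G, hG⟩ := exists_binom (f a) (∑ i ∈ s, f i)
    refine ⟨G * M, ?_⟩
    rw [prod_insert ha, sum_insert ha, ← hG, ← hM]
    ring

/-- q-multinomial -/
noncomputable def MM {m : ℕ} (f : Fin m → ℕ) : ℤ[X] := (exists_mult univ f).choose

lemma MM_spec {m : ℕ} (f : Fin m → ℕ) : MM f * ∏ i, qf (f i) = qf (∑ i, f i) :=
  (exists_mult univ f).choose_spec

lemma eval_qi (s : ℕ) : (qi s).eval 1 = s := by simp [qi, eval_finset_sum]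

lemma eval_qf (t : ℕ) : (qf t).eval 1 = t.factorial := by
  induction t with
  | zero => simp [qf]
  | succ t ih => rw [qf_succ, eval_mul, ih, eval_qi, Nat.factorial_succ]; push_cast; ring

lemma eval_MM {m : ℕ} (f : Fin m → ℕ) : (MM f).eval 1 = Nat.multinomial univ f := by
  have h := congrArg (eval 1) (MM_spec f)
  rw [eval_mul, eval_prod] at h
  simp only [eval_qf] at h
  have h2 := Nat.multinomial_spec univ f
  have h3 : (∏ i, ((f i).factorial : ℤ)) ≠ 0 :=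
    prod_ne_zero_iff.2 fun i _ => by exact_mod_cast Nat.factorial_ne_zero _
  refine mul_right_cancel₀ h3 ?_
  rw [h, ← h2]; push_cast; ring

/-- reduced q-integer -/
noncomputable def psi (d s : ℕ) : ℤ[X] := if d ∣ s then expand ℤ d (qi (s / d)) else qi s

lemma qi_eq (d s : ℕ) : qi s = psi d s * qi d ^ (if d ∣ s then 1 else 0) := by
  unfold psi
  split_ifs with h
  · have h1 := congrArg (expand ℤ d) (qi_mul (s / d))
    simp only [map_mul, map_sub, map_pow, expand_X, map_one] at h1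
    rw [← pow_mul, Nat.mul_div_cancel' h] at h1
    refine mul_right_cancel₀ X1 ?_
    rw [pow_one, mul_assoc, qi_mul, qi_mul, h1]
  · simp

lemma qf_eq (d t : ℕ) : qf t = (∏ s ∈ range t, psi d (s + 1)) * qi d ^ (t / d) := by
  induction t with
  | zero => simp [qf]
  | succ t ih =>
    rw [qf_succ, ih, prod_range_succ, Nat.succ_div, pow_add, qi_eq d (t + 1)]
    ring

section
variable {d : ℕ} {ζ : ℂ}

/-- reduced factorial at the root -/
noncomputable def F (d : ℕ) (ζ : ℂ) (t : ℕ) : ℂ := ∏ s ∈ range t, aeval ζ (psi d (s + 1))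

/-- factorial at the root -/
noncomputable def g (ζ : ℂ) (t : ℕ) : ℂ := ∏ s ∈ range t, aeval ζ (qi (s + 1))

/-- triangular power -/
noncomputable def Z (ζ : ℂ) (t : ℕ) : ℂ := ∏ s ∈ range t, ζ ^ (s + 1)

lemma ev_qi (ζ : ℂ) (s : ℕ) : aeval ζ (qi s) * (ζ - 1) = ζ ^ s - 1 := by
  simpa using congrArg (aeval ζ) (qi_mul s)

lemma ev_qi_mod (h : IsPrimitiveRoot ζ d) (hd : 1 < d) (a x : ℕ) :
    aeval ζ (qi (d * a + x)) = aeval ζ (qi x) := by
  refine mul_right_cancel₀ (sub_ne_zero.2 (h.ne_one hd)) ?_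
  rw [ev_qi, ev_qi, pow_add, pow_mul, h.pow_eq_one, one_pow, one_mul]

lemma ev_qi_ne (h : IsPrimitiveRoot ζ d) {s : ℕ} (hs : ¬ d ∣ s) : aeval ζ (qi s) ≠ 0 := by
  intro h0
  have := ev_qi ζ s
  rw [h0, zero_mul, eq_comm, sub_eq_zero, h.pow_eq_one_iff_dvd] at this
  exact hs this

lemma F_ne (h : IsPrimitiveRoot ζ d) (hd : 1 < d) (t : ℕ) : F d ζ t ≠ 0 := by
  refine prod_ne_zero_iff.2 fun s _ => ?_
  unfold psi
  split_ifs with h1
  · rw [expand_aeval, h.pow_eq_one]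
    have : 0 < (s + 1) / d := Nat.div_pos (Nat.le_of_dvd (by omega) h1) (by omega)
    simpa [qi] using this.ne'
  · exact ev_qi_ne h h1

lemma g_ne (h : IsPrimitiveRoot ζ d) {t : ℕ} (ht : t < d) : g ζ t ≠ 0 :=
  prod_ne_zero_iff.2 fun s hs => ev_qi_ne h (Nat.not_dvd_of_pos_of_lt (by omega)
    (by have := mem_range.1 hs; omega))

lemma F_add (h : IsPrimitiveRoot ζ d) (hd : 1 < d) (a : ℕ) {x : ℕ} (hx : x < d) :
    F d ζ (d * a + x) = F d ζ (d * a) * g ζ x := by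
  rw [F, prod_range_add]
  congr 1
  refine prod_congr rfl fun s hs => ?_
  have := mem_range.1 hs
  rw [psi, if_neg, add_assoc, ev_qi_mod h hd]
  rw [add_assoc, Nat.dvd_add_right (dvd_mul_right _ _)]
  exact Nat.not_dvd_of_pos_of_lt (by omega) (by omega)

lemma Z_add (h : IsPrimitiveRoot ζ d) (a x : ℕ) : Z ζ (d * a + x) = Z ζ (d * a) * Z ζ x := by
  rw [Z, prod_range_add]
  congr 1
  refine prod_congr rfl fun s _ => ?_
  rw [add_assoc, pow_add, pow_mul, h.pow_eq_one, one_pow, one_mul]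

lemma g_refl (h : IsPrimitiveRoot ζ d) (hd : 1 < d) (y : ℕ) :
    ∀ u, u + y + 1 = d → g ζ u * g ζ y = g ζ (d - 1) * (-1) ^ y * Z ζ y := by
  induction y with
  | zero => intro u hu; simp [g, Z, show d - 1 = u by omega]
  | succ y ih =>
    intro u hu
    have h1 := ih (u + 1) (by omega)
    have h2 : aeval ζ (qi (y + 1)) = -ζ ^ (y + 1) * aeval ζ (qi (u + 1)) := by
      refine mul_right_cancel₀ (sub_ne_zero.2 (h.ne_one hd)) ?_
      have h3 : ζ ^ (y + 1) * ζ ^ (u + 1) = 1 := by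
        rw [← pow_add, show y + 1 + (u + 1) = d by omega, h.pow_eq_one]
      rw [mul_assoc, ev_qi, ev_qi]
      linear_combination h3
    simp only [g, Z, prod_range_succ] at h1 ⊢
    rw [h2]
    linear_combination (-ζ ^ (y + 1)) * h1

lemma ev_MM (h : IsPrimitiveRoot ζ d) (hd : 1 < d) {m : ℕ} (f : Fin m → ℕ) :
    aeval ζ (MM f) * ∏ i, F d ζ (f i) =
      if ∑ i, f i / d = (∑ i, f i) / d then F d ζ (∑ i, f i) else 0 := by
  have h1 := MM_spec f
  simp only [qf_eq d, prod_mul_distrib, prod_pow_eq_pow_sum] at h1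
  have hle : ∑ i, f i / d ≤ (∑ i, f i) / d := by
    rw [Nat.le_div_iff_mul_le (by omega), sum_mul]
    exact sum_le_sum fun i _ => Nat.div_mul_le_self _ _
  obtain ⟨c, hc⟩ := Nat.exists_eq_add_of_le hle
  have hq : qi d ≠ 0 := by
    intro h0
    have := eval_qi d
    rw [h0] at this
    simp at this; omega
  rw [hc, pow_add, mul_comm (qi d ^ _), ← mul_assoc, ← mul_assoc] at h1
  have h2 := congrArg (aeval ζ) (mul_right_cancel₀ (pow_ne_zero _ hq) h1)
  have h3 : aeval ζ (qi d) = 0 := by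
    simpa [qi] using ev_qi_mod h hd 1 0
  simp only [map_mul, map_prod, map_pow, h3] at h2
  simp only [F]
  rw [h2]
  split_ifs with h4
  · rw [show c = 0 by omega]; simp
  · rw [zero_pow (by omega), mul_zero]

end

/-- the signed weight -/
noncomputable def Wp {m : ℕ} (f : Fin m → ℕ) : ℤ[X] :=
  (-1) ^ (∑ i, f i) * (∏ i, ∏ s ∈ range (f i), X ^ (s + 1)) * MM f

lemma W_key {d : ℕ} {ζ : ℂ} (h : IsPrimitiveRoot ζ d) (hd : 1 < d) {m : ℕ} (f : Fin m → ℕ)
    (a c : ℕ) {x y : ℕ} (hx : x < d) (hy : y < d) (hc : ∑ i, f i + x + y + 1 = d * (c + 1)) :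
    aeval ζ (Wp (Fin.cons (d * a + x) f : Fin (m + 1) → ℕ)) *
      ((∏ i, F d ζ (f i)) * F d ζ (d * a) * (g ζ x * g ζ y)) =
    if ∑ i, f i / d = c then (-1) ^ (d * (a + c) + (d - 1)) * (∏ i, Z ζ (f i)) * Z ζ (d * a) *
      (Z ζ x * Z ζ y) * F d ζ (d * (a + c)) * g ζ (d - 1) else 0 := by
  have h1 := ev_MM h hd (Fin.cons (d * a + x) f : Fin (m + 1) → ℕ)
  have e1 : d * a + x + ∑ i, f i = d * (a + c) + (d - 1 - y) := by
    rw [mul_add] at hc ⊢; omega
  have e2 : (d * a + x) / d = a := by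
    rw [Nat.mul_add_div (by omega), Nat.div_eq_of_lt hx, add_zero]
  have e3 : (d * (a + c) + (d - 1 - y)) / d = a + c := by
    rw [Nat.mul_add_div (by omega), Nat.div_eq_of_lt (by omega), add_zero]
  simp only [Fin.prod_univ_succ, Fin.sum_univ_succ, Fin.cons_zero, Fin.cons_succ, e1, e2, e3,
    add_right_inj, F_add h hd a hx, F_add h hd (a + c) (show d - 1 - y < d by omega)] at h1
  have h2 : aeval ζ (Wp (Fin.cons (d * a + x) f : Fin (m + 1) → ℕ)) =
      (-1) ^ (d * (a + c) + (d - 1 - y)) * (Z ζ (d * a) * Z ζ x * ∏ i, Z ζ (f i)) *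
        aeval ζ (MM (Fin.cons (d * a + x) f : Fin (m + 1) → ℕ)) := by
    rw [← Z_add h]
    simp [Wp, Z, Fin.prod_univ_succ, Fin.sum_univ_succ, e1]
  have h3 := g_refl h hd y (d - 1 - y) (by omega)
  have h4 : (-1 : ℂ) ^ (d * (a + c) + (d - 1)) = (-1) ^ (d * (a + c) + (d - 1 - y)) * (-1) ^ y := by
    rw [← pow_add]; congr 1; omega
  rw [h2, h4]
  split_ifs at h1 ⊢ with h5
  · linear_combination (-1) ^ (d * (a + c) + (d - 1 - y)) * (Z ζ (d * a) * Z ζ x * ∏ i, Z ζ (f i)) *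
      (g ζ y * h1 + F d ζ (d * (a + c)) * h3)
  · linear_combination (-1) ^ (d * (a + c) + (d - 1 - y)) * (Z ζ (d * a) * Z ζ x * ∏ i, Z ζ (f i)) *
      g ζ y * h1

lemma W_swap {d : ℕ} {ζ : ℂ} (h : IsPrimitiveRoot ζ d) (hd : 1 < d) {m : ℕ} (f : Fin m → ℕ)
    (a : ℕ) {x y : ℕ} (hx : x < d) (hy : y < d) (hc : d ∣ ∑ i, f i + x + y + 1) :
    aeval ζ (Wp (Fin.cons (d * a + x) f : Fin (m + 1) → ℕ)) =
      aeval ζ (Wp (Fin.cons (d * a + y) f : Fin (m + 1) → ℕ)) := by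
  obtain ⟨c, hc⟩ := hc
  rcases c with _ | c
  · omega
  have h1 := W_key h hd f a c hx hy hc
  have h2 := W_key h hd f a c hy hx (by omega)
  rw [mul_comm (g ζ y), mul_comm (Z ζ y), ← h1] at h2
  exact (mul_right_cancel₀ (mul_ne_zero (mul_ne_zero (prod_ne_zero_iff.2 fun i _ => F_ne h hd _)
    (F_ne h hd _)) (mul_ne_zero (g_ne h hx) (g_ne h hy))) h2).symm

/-- tuples of sum below n -/
def D (m n : ℕ) : Finset (Fin m → ℕ) := (range n).biUnion (Finset.Nat.antidiagonalTuple m)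

lemma mem_D {m n : ℕ} {f : Fin m → ℕ} : f ∈ D m n ↔ ∑ i, f i < n := by
  simp [D, Finset.Nat.mem_antidiagonalTuple]

lemma sum_D {M : Type} [AddCommMonoid M] (m n : ℕ) (h : (Fin m → ℕ) → M) :
    ∑ f ∈ D m n, h f = ∑ k ∈ range n, ∑ f ∈ Finset.Nat.antidiagonalTuple m k, h f := by
  refine sum_biUnion fun a _ b _ hab => disjoint_left.2 fun f h1 h2 => hab ?_
  rw [Finset.Nat.mem_antidiagonalTuple] at h1 h2
  rw [← h1, h2]

/-- the test polynomial -/
noncomputable def P (m n r : ℕ) : ℤ[X] :=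
  ∑ f ∈ D (m + 1) n, Wp f ^ r * (qi (n - 1 - ∑ i, f i) - qi (f 0))

lemma ev_P {d : ℕ} {ζ : ℂ} (h : IsPrimitiveRoot ζ d) (hd : 1 < d) (m n r : ℕ) (hn : d ∣ n) :
    aeval ζ (P m n r) = 0 := by
  rw [P, map_sum]
  let σ : (Fin (m + 1) → ℕ) → (Fin (m + 1) → ℕ) := fun f =>
    Fin.cons (d * (f 0 / d) + (n - 1 - ∑ i, f i) % d) (Fin.tail f)
  have key : ∀ f ∈ D (m + 1) n, ∃ a x b y, x < d ∧ y < d ∧
      f = Fin.cons (d * a + x) (Fin.tail f) ∧ σ f = Fin.cons (d * a + y) (Fin.tail f) ∧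
      d * a + x + ∑ i, Fin.tail f i + (d * b + y) + 1 = n := by
    intro f hf
    have h1 := mem_D.1 hf
    refine ⟨f 0 / d, f 0 % d, (n - 1 - ∑ i, f i) / d, (n - 1 - ∑ i, f i) % d,
      Nat.mod_lt _ (by omega), Nat.mod_lt _ (by omega), ?_, rfl, ?_⟩
    · rw [Nat.div_add_mod, Fin.cons_self_tail]
    · rw [Nat.div_add_mod, Nat.div_add_mod]
      rw [Fin.sum_univ_succ] at h1 ⊢
      simp only [Fin.tail]
      omega
  have key2 : ∀ f ∈ D (m + 1) n,
      aeval ζ (Wp f ^ r * (qi (n - 1 - ∑ i, f i) - qi (f 0))) +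
        aeval ζ (Wp (σ f) ^ r * (qi (n - 1 - ∑ i, σ f i) - qi (σ f 0))) = 0 := by
    intro f hf
    obtain ⟨a, x, b, y, hx, hy, h1, h2, h3⟩ := key f hf
    rw [h2]
    generalize Fin.tail f = t at h1 h3
    subst h1
    have hc : d ∣ ∑ i, t i + x + y + 1 := by
      have e : n = d * (a + b) + (∑ i, t i + x + y + 1) := by rw [mul_add]; omega
      rw [e] at hn
      exact (Nat.dvd_add_right (dvd_mul_right _ _)).1 hn
    simp only [map_mul, map_pow, map_sub, Fin.sum_univ_succ, Fin.cons_zero, Fin.cons_succ]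
    rw [W_swap h hd t a hx hy hc, show n - 1 - (d * a + x + ∑ i, t i) = d * b + y by omega,
      show n - 1 - (d * a + y + ∑ i, t i) = d * b + x by omega]
    simp only [ev_qi_mod h hd]
    ring
  refine sum_involution (fun f _ => σ f) key2 (fun f hf h0 h1 => h0 ?_) (fun f hf => ?_)
    (fun f hf => ?_)
  · have := key2 f hf
    rw [h1] at this
    linear_combination this / 2
  · obtain ⟨a, x, b, y, hx, hy, h1, h2, h3⟩ := key f hf
    rw [h2, mem_D, Fin.sum_univ_succ]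
    simp only [Fin.cons_zero, Fin.cons_succ]
    omega
  · obtain ⟨a, x, b, y, hx, hy, h1, h2, h3⟩ := key f hf
    rw [h2]
    generalize Fin.tail f = t at h1 h3
    subst h1
    simp only [σ, Fin.sum_univ_succ, Fin.cons_zero, Fin.cons_succ, Fin.tail_cons]
    rw [show n - 1 - (d * a + y + ∑ i, t i) = d * b + x by omega, Nat.mul_add_div (by omega),
      Nat.div_eq_of_lt hy, Nat.mul_add_mod, Nat.mod_eq_of_lt hx, add_zero]

lemma dft {n : ℕ} (hn : 0 < n) {ω : ℂ} (h : IsPrimitiveRoot ω n) (Q : ℤ[X]) :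
    ∃ c : ℤ, ∑ t ∈ range n, aeval (ω ^ t) Q = n * c := by
  induction Q using Polynomial.induction_on' with
  | add p q hp hq =>
    obtain ⟨a, ha⟩ := hp
    obtain ⟨b, hb⟩ := hq
    exact ⟨a + b, by simp only [map_add, sum_add_distrib, ha, hb]; push_cast; ring⟩
  | monomial e a =>
    simp only [aeval_monomial, ← mul_sum, ← pow_mul, mul_comm _ e]
    simp only [pow_mul]
    by_cases h1 : ω ^ e = 1
    · exact ⟨a, by simp [h1, mul_comm]⟩
    · refine ⟨0, ?_⟩
      rw [geom_sum_eq h1, ← pow_mul, mul_comm e, pow_mul, h.pow_eq_one]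
      simp

lemma dvd_P (m n r : ℕ) (hn : 0 < n) : (n : ℤ) ∣ (P m n r).eval 1 := by
  have h := Complex.isPrimitiveRoot_exp n hn.ne'
  obtain ⟨c, hc⟩ := dft hn h (P m n r)
  rw [sum_eq_single 0] at hc
  · refine ⟨c, ?_⟩
    rw [pow_zero, ← map_one (algebraMap ℤ ℂ), aeval_algebraMap_apply_eq_algebraMap_eval] at hc
    rw [eq_intCast] at hc
    exact_mod_cast hc
  · intro t ht h0
    have h1 := mem_range.1 ht
    refine ev_P (IsPrimitiveRoot.orderOf _) ?_ m n r (orderOf_dvd_of_pow_eq_one ?_)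
    · have h2 : orderOf (Complex.exp (2 * Real.pi * Complex.I / n) ^ t) ∣ n :=
        orderOf_dvd_of_pow_eq_one (by rw [← pow_mul, mul_comm t, pow_mul, h.pow_eq_one, one_pow])
      have h3 := Nat.pos_of_dvd_of_pos h2 hn
      have h4 := (h.pow_ne_one_of_pos_of_lt h0 h1)
      rw [Ne, ← orderOf_eq_one_iff] at h4
      omega
    · rw [← pow_mul, mul_comm t, pow_mul, h.pow_eq_one, one_pow]
  · intro h0; exact absurd (mem_range.2 hn) h0

theorem half (m n r : ℕ) (hn : 0 < n) : (n : ℤ) ∣ ∑ f ∈ D (m + 1) n,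
    (-1) ^ (r * ∑ i, f i) * (Nat.multinomial univ f : ℤ) ^ r * (∑ i, f i + 1 + f 0) := by
  have h := dvd_P m n r hn
  have e : (P m n r).eval 1 = n * ∑ f ∈ D (m + 1) n,
      (-1) ^ (r * ∑ i, f i) * (Nat.multinomial univ f : ℤ) ^ r - ∑ f ∈ D (m + 1) n,
      (-1) ^ (r * ∑ i, f i) * (Nat.multinomial univ f : ℤ) ^ r * (∑ i, f i + 1 + f 0) := by
    rw [P, eval_finset_sum, mul_sum, ← sum_sub_distrib]
    refine sum_congr rfl fun f hf => ?_
    have h1 := mem_D.1 hf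
    simp only [Wp, eval_mul, eval_pow, eval_sub, eval_qi, eval_MM, eval_prod, eval_X, eval_neg,
      eval_one, one_pow, prod_const_one, mul_one]
    rw [Nat.cast_sub (by omega), Nat.cast_sub hn, mul_pow, ← pow_mul, mul_comm _ r]
    push_cast; ring
  rw [e] at h
  exact (dvd_sub_right (dvd_mul_right _ _)).1 h

theorem main (m n r : ℕ) (hm : 0 < m) (hn : 0 < n) : ((m * n : ℕ) : ℤ) ∣ ∑ k ∈ range n,
    (-1) ^ (r * k) * (((m : ℤ) + 1) * k + m) *
      ∑ f ∈ Finset.Nat.antidiagonalTuple m k, (Nat.multinomial univ f : ℤ) ^ r := by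
  obtain ⟨m, rfl⟩ := Nat.exists_eq_succ_of_ne_zero hm.ne'
  have h := half m n r hn
  have e1 : ∀ j : Fin (m + 1), ∑ f ∈ D (m + 1) n,
      (-1) ^ (r * ∑ i, f i) * (Nat.multinomial univ f : ℤ) ^ r * (∑ i, f i + 1 + f 0) =
      ∑ f ∈ D (m + 1) n,
      (-1) ^ (r * ∑ i, f i) * (Nat.multinomial univ f : ℤ) ^ r * (∑ i, f i + 1 + f j) := by
    intro j
    have e2 : ∀ f : Fin (m + 1) → ℕ, ∑ i, f (Equiv.swap 0 j i) = ∑ i, f i :=
      fun f => Equiv.sum_comp (Equiv.swap 0 j) f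
    refine sum_nbij' (fun f i => f (Equiv.swap 0 j i)) (fun f i => f (Equiv.swap 0 j i))
      (fun f hf => by simpa only [mem_D, e2] using hf)
      (fun f hf => by simpa only [mem_D, e2] using hf) (fun f _ => by simp) (fun f _ => by simp)
      (fun f _ => ?_)
    simp only [e2, Nat.multinomial, Equiv.swap_apply_right,
      Equiv.prod_comp (Equiv.swap 0 j) (fun i => (f i).factorial)]
  have h2 := mul_dvd_mul_left ((m + 1 : ℕ) : ℤ) h
  have e3 : ∀ y : ℤ, ((m + 1 : ℕ) : ℤ) * y = ∑ _j : Fin (m + 1), y := by simp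
  rw [e3 (∑ f ∈ _, _), sum_congr rfl fun j _ => e1 j, sum_comm, sum_D] at h2
  rw [Nat.cast_mul]
  refine h2.trans (dvd_of_eq (sum_congr rfl fun k _ => ?_))
  rw [mul_sum]
  refine sum_congr rfl fun f hf => ?_
  have h3 := Finset.Nat.mem_antidiagonalTuple.1 hf
  rw [← mul_sum, sum_add_distrib, ← Nat.cast_sum univ f, h3]
  simp only [sum_const, card_univ, Fintype.card_fin, nsmul_eq_mul]
  push_cast; ring

end Pool.Agent.H57.QMult
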