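import Pool.Agent.H57.QMult

namespace Pool.Agent.H57.QMult

open Finset

theorem main2 (n r : ℕ) (hn : 0 < n) : (2 * (n : ℤ)) ∣ ∑ k ∈ range n,
    (-1) ^ (r * k) * (3 * (k : ℤ) + 2) * ∑ j ∈ range (k + 1), (k.choose j : ℤ) ^ r := by
  have h := main 2 n r two_pos hn
  push_cast at h
  refine h.trans (dvd_of_eq (sum_congr rfl fun k _ => ?_))
  rw [Finset.Nat.antidiagonalTuple_two, sum_map,
    Finset.Nat.sum_antidiagonal_eq_sum_range_succ_mk]
  congr 1
  refine sum_congr rfl fun j hj => ?_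
  have h1 := mem_range.1 hj
  congr 2
  rw [show (univ : Finset (Fin 2)) = {0, 1} from rfl, Nat.binomial_eq_choose (by decide)]
  simp only [Equiv.coe_toEmbedding, piFinTwoEquiv_symm_apply, Fin.cons_zero, Fin.cons_one]
  congr 1
  omega

end Pool.Agent.H57.QMult
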