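import Pool.Agent.H57.PsiDisc

set_option autoImplicit false

namespace Pool.Agent.H57.Pr

open Set Cardinal Order Filter Topology Pool.Agent.H57.Lots
open Pool.Agent.H82.LadA (Unc)

universe u

theorem core : ∃ (X : Set (W2 → Bool)) (p : X), (∀ D : Set (X → ℝ), (∀ d ∈ D, Continuous d) →
    DiscreteTopology D → ∃ q : Finset ℕ × Finset (Finset ℕ) → X, ∀ f ∈ closure D,
      ∀ g ∈ closure D, Continuous f → Continuous g → (∀ n, g (q n) = f (q n)) → g = f) ∧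
    (∀ a : Finset W2, ∃ z : X, z ≠ p ∧ ∀ α ∈ a, z.1 α = p.1 α) ∧
    ∀ Q : Set X, Q.Countable → ∃ α, p.1 α = true ∧ ∀ z ∈ Q, z ≠ p → z.1 α = false := by
  classical
  obtain ⟨c, hc⟩ := pr0 (K := Bool) (mk_le_aleph0.trans aleph0_lt_aleph_one.le)
  obtain ⟨d, hd⟩ := hmp
  obtain ⟨C, hC, hC'⟩ := covc
  have h0 : ∀ {A B : Type}, #A ≤ succ ℵ₁ → #B ≤ succ ℵ₁ → #(A × B) ≤ succ ℵ₁ := fun h h' => by
    rw [mk_prod, lift_id, lift_id]
    exact (mul_le_mul' h h').trans (mul_eq_self h02.le).le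
  have h0' : #(Finset W2) ≤ succ ℵ₁ := ((mk_le_of_surjective (f := List.toFinset)
    fun s => ⟨_, s.toList_toFinset⟩).trans (mk_list_le_max _)).trans (max_le h02.le R2.card.le)
  obtain ⟨φ, hφ⟩ := book (A := (W2 × Finset ℕ × Finset (Finset ℕ)) × Finset W2 × Finset W2)
    (h0 (h0 R2.card.le (mk_le_aleph0.trans h02.le)) (h0 h0' h0'))
  obtain ⟨ξ₀⟩ : Nonempty W2 := inferInstance
  let x : W2 → W2 → Bool := fun ξ α => if ξ = ξ₀ then true else if α ≤ ξ then 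
    if α ∈ (φ ξ).2.1 then decide (α ∈ (φ ξ).2.2) else d (φ ξ).1.1 (φ ξ).1.2 α else if ξ ∈ C α then false else c ξ α
  have H : ∀ β n (a : Finset W2) (p : W2 → Bool), ∃ z ∈ range x, (∀ α ∈ a, z α = p α) ∧
      ∀ α < β, α ∉ a → z α = d β n α := fun β n a p => by
    obtain ⟨m, hm⟩ := R2.bdd (a.finite_toSet.lt_aleph0.trans h02)
    obtain ⟨ξ, h1, h2⟩ := hφ ((β, n), a, a.filter (p · = true)) (max ξ₀ (max m β))
    simp only [max_lt_iff] at h1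
    exact ⟨_, ⟨ξ, rfl⟩, fun α h => by simp [x, h2, h, ((hm α h).trans h1.2.1).le, h1.1.ne'],
      fun α h h' => by simp [x, h2, h', (h.trans h1.2.2).le, h1.1.ne']⟩
  have H' : ∀ (a : Finset W2) (p : W2 → Bool), ∃ z ∈ range x, ∀ α ∈ a, z α = p α := fun a p =>
    let ⟨z, h1, h2, _⟩ := H (Classical.arbitrary _) (∅, ∅) a p; ⟨z, h1, h2⟩
  refine ⟨range x, ⟨_, ξ₀, rfl⟩, fun D h1 h2 => ?_, fun a => ?_, fun Q h1 => ?_⟩
  rotate_left
  · obtain ⟨m, hm⟩ := R2.bdd (a.finite_toSet.lt_aleph0.trans h02)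
    obtain ⟨z, z1, z2⟩ := H' (insert m a) fun α => decide (α < m)
    exact ⟨⟨z, z1⟩, fun h => by simpa [x, z2] using congrFun (congrArg Subtype.val h) m,
      fun α h => by simp [x, z2, h, hm α h]⟩
  · choose π hπ using fun z : range x => z.2
    obtain ⟨α, h3⟩ := hC' _ (h1.image π)
    refine ⟨α, by simp [x], fun z z1 z2 => ?_⟩
    have := h3 _ ⟨z, z1, rfl⟩
    have k : π z ≠ ξ₀ := fun h => z2 (Subtype.ext (by rw [← hπ z, h]))
    simp [← hπ z, x, this.1.not_ge, this.2, k]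
  have hD : #D < succ ℵ₁ := by
    by_contra hn
    obtain ⟨k⟩ := (Cardinal.le_def W2 D).1 (R2.card.trans_le (not_lt.1 hn))
    let y : W2 → range x := fun ξ => ⟨_, ξ, rfl⟩
    have h3 : ∀ δ, ∃ e : Σ n, Fin n → ℚ × ℚ, ∃ s : Fin e.1 → W2,
        (∀ i, (k δ).1 (y (s i)) ∈ Ioo ((e.2 i).1 : ℝ) (e.2 i).2) ∧
        ∀ g, (∀ i, (k g).1 (y (s i)) ∈ Ioo ((e.2 i).1 : ℝ) (e.2 i).2) → g = δ := fun δ => by
      obtain ⟨U, h3, h4⟩ := isOpen_induced_iff.1 (isOpen_discrete {k δ})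
      obtain ⟨I, u, h5, h6⟩ := isOpen_pi_iff.1 h3 (k δ) (h4.symm.subset rfl)
      choose π hπ using fun z : range x => z.2
      have hy : ∀ z, y (π z) = z := fun z => Subtype.ext (hπ z)
      choose p h7 h8 using fun z : I => rat_Ioo (h5 _ z.2).1 (h5 _ z.2).2
      refine ⟨⟨_, fun i => p (I.equivFin.symm i)⟩, fun i => π (I.equivFin.symm i),
        fun i => hy _ ▸ h7 _, fun g hg =>
          k.injective (h4.subset (h6 fun z hz => ?_))⟩
      exact h8 ⟨z, hz⟩ (by simpa [hy] using hg (I.equivFin ⟨z, hz⟩))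
    choose e he using h3
    obtain ⟨⟨n, J⟩, h4⟩ := St_unc.ctb e
    choose! s h6 h7 using fun δ (h : δ ∈ {x ∈ {x | Unc x} | e x = ⟨n, J⟩}) => h.2 ▸ he δ
    choose! B hB using fun δ h i => agree'
      ((h1 _ (k δ).2).continuousAt (isOpen_Ioo.mem_nhds (h6 δ h i)))
    obtain ⟨R, hR⟩ := h4.fin R2 h02 fun δ => Finset.univ.biUnion (B δ)
    obtain ⟨o, ho⟩ := hR.ctb fun δ i (α : R) => x (s δ i) α
    choose! b b1 b2 using fun δ (h : Unc δ) => h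
      ((⋃ α ∈ Finset.univ.biUnion (B δ), C α) ∩ Iio δ)
      (((Finset.countable_toSet _).biUnion fun α _ => hC α).mono inter_subset_left) fun _ h => h.2
    obtain ⟨w, hw⟩ := ho.fodor R2 b fun δ h => b1 δ h.1.1.1
    obtain ⟨g, ⟨⟨g1, g2⟩, g3⟩, δ, ⟨⟨d1, -⟩, -⟩, h11, h12⟩ := hc _ s (fun δ => Finset.univ.biUnion (B δ))
      (fun δ i => x (s δ i)) _ ((hw.gt w).gt ξ₀) fun δ _ i j h => h ▸ rfl
    refine h11.ne' (h7 g g1.1.1.1 δ fun i => ?_)
    rcases h12 i with h | ⟨a1, a2, a3, a4⟩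
    · exact h ▸ h6 δ d1.1.1.1 i
    refine hB δ d1.1.1.1 i _ fun α ha => ?_
    have a5 : α ∈ Finset.univ.biUnion (B δ) := Finset.mem_biUnion.2 ⟨_, Finset.mem_univ _, ha⟩
    rcases lt_or_ge α δ with h | h
    · exact congrFun (congrFun (g1.1.2.trans d1.1.2.symm) i)
        ⟨α, d1.1.1.2.subset (Finset.mem_filter.2 ⟨a5, h⟩)⟩
    · have a6 : s g i ∉ C α := fun h' => (g2.trans_le a1).asymm
        (d1.2 ▸ b2 δ d1.1.1.1.1 _ ⟨mem_biUnion a5 h', a2⟩)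
      exact (show _ = c (s g i) α by
        simp [y, x, (a2.trans_le h).not_ge, a6, (g3.trans_le a1).ne']).trans (a4 α a5 h)
  choose b hb using fun g : D => dep H' (h1 _ g.2)
  obtain ⟨β, hβ⟩ := R2.bdd (mk_range_le.trans_lt hD : #(range b) < _)
  have h5 : ∀ g ∈ closure D, ∀ z z' : range x, (∀ α < β, z.1 α = z'.1 α) → g z = g z' :=
    fun g hg z z' h => closure_minimal (t := {g : range x → ℝ | g z = g z'})
      (fun g hg => hb ⟨g, hg⟩ z z' fun α h' => h α (h'.trans (hβ _ ⟨_, rfl⟩)))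
      (isClosed_eq (continuous_apply z) (continuous_apply z')) hg
  choose q q1 q2 q3 using fun n => H β n ∅ fun _ => true
  refine ⟨fun n => ⟨_, q1 n⟩, fun f h3 g g2 h4 g3 g1 => funext fun z => ?_⟩
  by_contra hn
  obtain ⟨a, ha⟩ := agree' ((isOpen_ne_fun g3 h4).mem_nhds hn)
  obtain ⟨n, h6⟩ := hd β a z
  obtain ⟨y, y1, y2, y3⟩ := H β n a z
  have h7 : ∀ α < β, y α = q n α := fun α h => by
    rw [q3 n α h (by simp)]
    by_cases h' : α ∈ a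
    exacts [(y2 α h').trans (h6 α h' h).symm, y3 α h h']
  refine ha ⟨y, y1⟩ y2 ?_
  rw [h5 g g2 ⟨y, y1⟩ ⟨_, q1 n⟩ h7, h5 f h3 ⟨y, y1⟩ ⟨_, q1 n⟩ h7, g1]

end Pool.Agent.H57.Pr
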