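import Mathlib

set_option autoImplicit false

namespace Pool.Agent.H57.Riele

open Filter

noncomputable def g (n : ℕ) : ℕ := ⌊(n : ℝ) * Real.sqrt 3⌋₊

lemma s3_lo : (17 / 10 : ℝ) < Real.sqrt 3 := by
  rw [Real.lt_sqrt (by norm_num)]; norm_num

lemma s3_hi : Real.sqrt 3 < (9 / 5 : ℝ) := by
  rw [Real.sqrt_lt' (by norm_num)]; norm_num

lemma s3_sq : Real.sqrt 3 * Real.sqrt 3 = 3 := Real.mul_self_sqrt (by norm_num)

lemma g_le (n : ℕ) : (g n : ℝ) ≤ n * Real.sqrt 3 :=
  Nat.floor_le (by positivity)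

lemma lt_g (n : ℕ) : (n : ℝ) * Real.sqrt 3 < g n + 1 := Nat.lt_floor_add_one _

lemma g_lt (n : ℕ) (hn : 0 < n) : (g n : ℝ) < n * Real.sqrt 3 := by
  refine lt_of_le_of_ne (g_le n) ?_
  intro h
  have hirr : Irrational (Real.sqrt 3) := by
    simpa using Nat.Prime.irrational_sqrt (p := 3) (by norm_num)
  have h2 : Irrational ((n : ℝ) * Real.sqrt 3) := hirr.natCast_mul hn.ne'
  exact h2.ne_nat (g n) h.symm

lemma gg_lt (n : ℕ) (hn : 0 < n) : g (g n) < 3 * n := by
  have h1 := g_le (g n)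
  have h2 := g_lt n hn
  have h3 : (g n : ℝ) * Real.sqrt 3 < 3 * n := by
    have := s3_lo
    have h4 : (g n : ℝ) * Real.sqrt 3 < n * Real.sqrt 3 * Real.sqrt 3 :=
      mul_lt_mul_of_pos_right h2 (by linarith)
    rw [mul_assoc, s3_sq] at h4
    linarith
  have : (g (g n) : ℝ) < ((3 * n : ℕ) : ℝ) := by push_cast; linarith
  exact_mod_cast this

lemma le_gg (n : ℕ) : 3 * n < g (g n) + 3 := by
  have h1 := lt_g (g n)
  have h2 := lt_g n
  have hlo := s3_lo
  have hhi := s3_hi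
  have h4 : (n : ℝ) * Real.sqrt 3 * Real.sqrt 3 < (g n + 1) * Real.sqrt 3 :=
    mul_lt_mul_of_pos_right h2 (by linarith)
  rw [mul_assoc, s3_sq] at h4
  have : ((3 * n : ℕ) : ℝ) < ((g (g n) + 3 : ℕ) : ℝ) := by push_cast; nlinarith
  exact_mod_cast this

lemma lt_g_self (n : ℕ) (hn : 2 ≤ n) : n < g n := by
  have h2 := lt_g n
  have hlo := s3_lo
  have hn' : (2 : ℝ) ≤ n := by exact_mod_cast hn
  have : (n : ℝ) < g n := by nlinarith
  exact_mod_cast this

lemma g_strictMono : StrictMono g := by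
  refine strictMono_nat_of_lt_succ fun n => ?_
  have h1 := g_le n
  have h2 := lt_g (n + 1)
  have hlo := s3_lo
  push_cast at h2
  have : (g n : ℝ) < g (n + 1) := by nlinarith
  exact_mod_cast this

lemma five_g_le (n : ℕ) : 5 * g n ≤ 9 * n := by
  have h1 := g_le n
  have hhi := s3_hi
  have hn : (0 : ℝ) ≤ n := by positivity
  have : ((5 * g n : ℕ) : ℝ) ≤ ((9 * n : ℕ) : ℝ) := by push_cast; nlinarith
  exact_mod_cast this

section
variable (f : ℕ → ℕ) (hf : ∀ n : ℕ, f n = if n % 3 = 0 then n / 3 else g n)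
include hf

lemma good_of (n : ℕ) (h2 : 2 ≤ n) (h3 : n % 3 ≠ 0) (h4 : g n % 3 ≠ 0) :
    Tendsto (fun k : ℕ => f^[k] n) atTop atTop := by
  have key : ∀ k : ℕ, n + k ≤ f^[k] n ∧ f^[k] n % 3 ≠ 0 ∧ g (f^[k] n) % 3 ≠ 0 := by
    intro k
    induction k with
    | zero => simpa using ⟨h3, h4⟩
    | succ k ih =>
      obtain ⟨a, b, c⟩ := ih
      rw [Function.iterate_succ_apply', hf, if_neg b]
      have e1 := lt_g_self (f^[k] n) (by omega)
      have e2 := gg_lt (f^[k] n) (by omega)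
      have e3 := le_gg (f^[k] n)
      refine ⟨by omega, c, by omega⟩
  refine tendsto_atTop_mono (f := fun k : ℕ => k) (fun k => ?_) tendsto_id
  have := (key k).1
  omega

omit hf in
lemma good_of_succ (n : ℕ) (h : Tendsto (fun k : ℕ => f^[k] (f n)) atTop atTop) :
    Tendsto (fun k : ℕ => f^[k] n) atTop atTop := by
  rw [← tendsto_add_atTop_iff_nat 1]
  simpa [Function.iterate_succ_apply] using h

end

open Classical in
noncomputable def bad (f : ℕ → ℕ) (N : ℕ) : Finset ℕ :=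
  (Finset.Icc 1 N).filter fun n => ¬ Tendsto (fun k : ℕ => f^[k] n) atTop atTop

lemma mem_bad (f : ℕ → ℕ) (N n : ℕ) :
    n ∈ bad f N ↔ 1 ≤ n ∧ n ≤ N ∧ ¬ Tendsto (fun k : ℕ => f^[k] n) atTop atTop := by
  simp [bad, and_assoc]

lemma bad_card_le (f : ℕ → ℕ) (N : ℕ) : (bad f N).card ≤ N := by
  classical
  unfold bad
  exact (Finset.card_filter_le _ _).trans (by simp)

lemma bad_rec (f : ℕ → ℕ) (hf : ∀ n : ℕ, f n = if n % 3 = 0 then n / 3 else g n) (N : ℕ) :
    (bad f N).card ≤ 1 + (bad f (N / 3)).card + (bad f (3 * N / 5)).card := by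
  classical
  set A := (bad f N).filter (fun n => n % 3 = 0) with hA
  set B := (bad f N).filter (fun n => n % 3 ≠ 0 ∧ 2 ≤ n) with hB
  have hsub : bad f N ⊆ {1} ∪ A ∪ B := by
    intro n hn
    have hn' := (mem_bad f N n).1 hn
    simp only [hA, hB, Finset.mem_union, Finset.mem_singleton, Finset.mem_filter]
    by_cases h : n % 3 = 0
    · exact Or.inl (Or.inr ⟨hn, h⟩)
    · by_cases h1 : n = 1
      · exact Or.inl (Or.inl h1)
      · exact Or.inr ⟨hn, h, by omega⟩
  have hAc : A.card ≤ (bad f (N / 3)).card := by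
    refine Finset.card_le_card_of_injOn (fun n => n / 3) ?_ ?_
    · intro n hn
      simp only [hA, Finset.coe_filter, Set.mem_ofPred_eq, mem_bad] at hn
      obtain ⟨⟨a, b, c⟩, d⟩ := hn
      simp only [Finset.mem_coe, mem_bad]
      refine ⟨by omega, by omega, fun h => c (good_of_succ f n ?_)⟩
      rw [hf n, if_pos d]; exact h
    · intro a ha b hb hab
      simp only [hA, Finset.coe_filter, Set.mem_ofPred_eq] at ha hb
      simp only at hab
      omega
  have hB3 : ∀ n ∈ B, g n % 3 = 0 := by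
    intro n hn
    simp only [hB, Finset.mem_filter, mem_bad] at hn
    by_contra h
    exact hn.1.2.2 (good_of f hf n hn.2.2 hn.2.1 h)
  have hBc : B.card ≤ (bad f (3 * N / 5)).card := by
    refine Finset.card_le_card_of_injOn (fun n => g n / 3) ?_ ?_
    · intro n hn
      have h3 := hB3 n hn
      simp only [hB, Finset.coe_filter, Set.mem_ofPred_eq, mem_bad] at hn
      obtain ⟨⟨a, b, c⟩, d, e⟩ := hn
      simp only [Finset.mem_coe, mem_bad]
      have e1 := lt_g_self n e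
      have e2 := five_g_le n
      refine ⟨by omega, by omega, fun h => c (good_of_succ f n (good_of_succ f (f n) ?_))⟩
      rw [hf n, if_neg d, hf (g n), if_pos h3]; exact h
    · intro a ha b hb hab
      have h1 := hB3 a ha
      have h2 := hB3 b hb
      simp only at hab
      exact g_strictMono.injective (by omega)
  calc (bad f N).card ≤ ({1} ∪ A ∪ B : Finset ℕ).card := Finset.card_le_card hsub
    _ ≤ ({1} ∪ A : Finset ℕ).card + B.card := Finset.card_union_le _ _
    _ ≤ ({1} : Finset ℕ).card + A.card + B.card := by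
        have := Finset.card_union_le ({1} : Finset ℕ) A
        omega
    _ ≤ _ := by simp only [Finset.card_singleton]; omega

lemma decay (b : ℕ → ℕ) (h0 : ∀ N, b N ≤ N)
    (hr : ∀ N, b N ≤ 1 + b (N / 3) + b (3 * N / 5)) (j : ℕ) :
    ∃ M : ℕ, ∀ N, M ≤ N → (b N : ℝ) ≤ (29 / 30 : ℝ) ^ j * N := by
  induction j with
  | zero => exact ⟨0, fun N _ => by simpa using h0 N⟩
  | succ j ih =>
    obtain ⟨M, hM⟩ := ih
    have hc : (0 : ℝ) < (29 / 30 : ℝ) ^ j := by positivity
    obtain ⟨K, hK⟩ := exists_nat_ge (30 / (29 / 30 : ℝ) ^ j)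
    refine ⟨3 * M + K, fun N hN => ?_⟩
    have h1 := hM (N / 3) (by omega)
    have h2 := hM (3 * N / 5) (by omega)
    have h3 : ((N / 3 : ℕ) : ℝ) ≤ (N : ℝ) / 3 := by exact_mod_cast Nat.cast_div_le
    have h4 : ((3 * N / 5 : ℕ) : ℝ) ≤ (3 * N : ℝ) / 5 := by
      have := @Nat.cast_div_le ℝ _ _ _ (3 * N) 5
      push_cast at this; exact this
    have h5 : (b N : ℝ) ≤ 1 + b (N / 3) + b (3 * N / 5) := by exact_mod_cast hr N
    have h6 : (K : ℝ) ≤ N := by exact_mod_cast (by omega : K ≤ N)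
    have h7 : 30 ≤ (29 / 30 : ℝ) ^ j * N := by
      rw [div_le_iff₀ hc] at hK
      nlinarith
    have h8 := mul_le_mul_of_nonneg_left h3 hc.le
    have h9 := mul_le_mul_of_nonneg_left h4 hc.le
    rw [pow_succ]
    nlinarith

lemma ratio_tendsto (b : ℕ → ℕ) (h0 : ∀ N, b N ≤ N)
    (hr : ∀ N, b N ≤ 1 + b (N / 3) + b (3 * N / 5)) :
    Tendsto (fun N : ℕ => (b N : ℝ) / N) atTop (nhds 0) := by
  rw [Metric.tendsto_atTop]
  intro ε hε
  obtain ⟨j, hj⟩ := exists_pow_lt_of_lt_one hε (by norm_num : (29 / 30 : ℝ) < 1)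
  obtain ⟨M, hM⟩ := decay b h0 hr j
  refine ⟨M + 1, fun N hN => ?_⟩
  have hpos : (0 : ℝ) < N := by exact_mod_cast (by omega : 0 < N)
  rw [Real.dist_eq, sub_zero, abs_of_nonneg (by positivity)]
  refine lt_of_le_of_lt ?_ hj
  rw [div_le_iff₀ hpos]
  exact hM N (by omega)

theorem main (f : ℕ → ℕ) (hf : ∀ n : ℕ, f n = if n % 3 = 0 then n / 3 else g n) :
    Tendsto
        (fun N : ℕ =>
          (({n : ℕ | 1 ≤ n ∧ n ≤ N ∧
              Tendsto (fun k : ℕ => f^[k] n) atTop atTop}.ncard : ℕ) : ℝ) / (N : ℝ))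
        atTop (nhds 1) := by
  classical
  have h := ratio_tendsto (fun N => (bad f N).card) (bad_card_le f) (bad_rec f hf)
  have h1 : Tendsto (fun N : ℕ => 1 - ((bad f N).card : ℝ) / N) atTop (nhds 1) := by
    simpa using h.const_sub 1
  refine h1.congr' ?_
  filter_upwards [eventually_gt_atTop 0] with N hN
  have hpos : (0 : ℝ) < N := by exact_mod_cast hN
  have hset : {n : ℕ | 1 ≤ n ∧ n ≤ N ∧ Tendsto (fun k : ℕ => f^[k] n) atTop atTop}
      = ((Finset.Icc 1 N).filter fun n => Tendsto (fun k : ℕ => f^[k] n) atTop atTop : Finset ℕ) := by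
    ext n; simp [and_assoc]
  rw [hset, Set.ncard_coe_finset]
  have hc := Finset.card_filter_add_card_filter_not (s := Finset.Icc 1 N)
    (fun n => Tendsto (fun k : ℕ => f^[k] n) atTop atTop)
  have hc2 : (((Finset.Icc 1 N).filter fun n =>
      Tendsto (fun k : ℕ => f^[k] n) atTop atTop).card : ℝ) + (bad f N).card = N := by
    have : ((Finset.Icc 1 N).filter fun n =>
      Tendsto (fun k : ℕ => f^[k] n) atTop atTop).card + (bad f N).card = N := by
      rw [Nat.card_Icc, Nat.add_sub_cancel] at hc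
      unfold bad
      convert hc using 1
    exact_mod_cast this
  field_simp
  linarith

end Pool.Agent.H57.Riele
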