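import Mathlib

namespace Pool.Agent.H57.Roth

open Finset

noncomputable def ch (M : ℕ) [NeZero M] : AddChar (ZMod M) ℂ := ZMod.stdAddChar

noncomputable def FT (M : ℕ) [NeZero M] (n : ℕ) (g : ℕ → ℝ) (r : ZMod M) : ℂ :=
  ∑ a ∈ range n, (g a : ℂ) * ch M ((a : ZMod M) * r)

variable {M : ℕ} [NeZero M]

lemma orth (b : ZMod M) : ∑ r : ZMod M, ch M (b * r) = if b = 0 then (M:ℂ) else 0 := by
  have := AddChar.sum_mulShift (ψ := ch M) b (ZMod.isPrimitive_stdAddChar M)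
  simp only [ZMod.card, mul_comm _ b] at this
  rw [this]
  split_ifs <;> simp

lemma norm_ch (x : ZMod M) : ‖ch M x‖ = 1 := AddChar.norm_apply _ _

lemma cast_inj {a b : ℕ} (ha : a < M) (hb : b < M) (h : (a : ZMod M) = b) : a = b := by
  rw [ZMod.natCast_eq_natCast_iff'] at h
  rwa [Nat.mod_eq_of_lt ha, Nat.mod_eq_of_lt hb] at h

lemma parseval {n : ℕ} (hn : n ≤ M) (g : ℕ → ℝ) :
    ∑ r : ZMod M, ‖FT M n g r‖ ^ 2 = M * ∑ a ∈ range n, g a ^ 2 := by
  have h1 : ∀ r : ZMod M, ((‖FT M n g r‖ ^ 2 : ℝ) : ℂ) =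
      ∑ a ∈ range n, ∑ b ∈ range n, (g a : ℂ) * g b * ch M (((a : ZMod M) - b) * r) := by
    intro r
    rw [← Complex.normSq_eq_norm_sq, Complex.normSq_eq_conj_mul_self, mul_comm]
    unfold FT
    rw [map_sum, sum_mul_sum]
    refine sum_congr rfl fun a _ => sum_congr rfl fun b _ => ?_
    rw [map_mul (starRingEnd ℂ), Complex.conj_ofReal, ← AddChar.map_neg_eq_conj, sub_mul, sub_eq_add_neg,
      AddChar.map_add_eq_mul]
    ring
  have h2 : ((∑ r : ZMod M, ‖FT M n g r‖ ^ 2 : ℝ) : ℂ) = ((M * ∑ a ∈ range n, g a ^ 2 : ℝ) : ℂ) := by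
    rw [Complex.ofReal_sum]
    simp only [h1]
    rw [sum_comm]
    push_cast
    rw [mul_sum]
    refine sum_congr rfl fun a ha => ?_
    rw [sum_comm]
    simp only [← mul_sum, orth]
    rw [sum_eq_single a]
    · simp; ring
    · intro b hb hne
      rw [if_neg, mul_zero]
      intro h
      exact hne (cast_inj (by simp at hb; omega) (by simp at ha; omega) (sub_eq_zero.mp h).symm)
    · intro h; exact absurd ha h
  exact_mod_cast h2

noncomputable def Lam (N : ℕ) (f g h : ℕ → ℝ) : ℝ :=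
  ∑ a ∈ range N, ∑ b ∈ range N, ∑ x ∈ range N, if a + b = 2 * x then f a * g b * h x else 0

lemma trilin (N : ℕ) (f g h : ℕ → ℝ) :
    ∑ r : ZMod (2 * N + 1), FT (2 * N + 1) N f r * FT (2 * N + 1) N g r * FT (2 * N + 1) N h (-2 * r)
      = (((2 * N + 1 : ℕ) * Lam N f g h : ℝ) : ℂ) := by
  have h1 : ∀ r : ZMod (2 * N + 1),
      FT (2 * N + 1) N f r * FT (2 * N + 1) N g r * FT (2 * N + 1) N h (-2 * r) =
      ∑ a ∈ range N, ∑ b ∈ range N, ∑ x ∈ range N, (f a : ℂ) * g b * h x *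
        ch (2 * N + 1) ((((a + b : ℕ) : ZMod (2 * N + 1)) - ((2 * x : ℕ) : ZMod (2 * N + 1))) * r) := by
    intro r
    unfold FT
    rw [sum_mul_sum, sum_mul]
    refine sum_congr rfl fun a _ => ?_
    rw [sum_mul]
    refine sum_congr rfl fun b _ => ?_
    rw [mul_sum]
    refine sum_congr rfl fun x _ => ?_
    rw [show (((a + b : ℕ) : ZMod (2 * N + 1)) - ((2 * x : ℕ) : ZMod (2 * N + 1))) * r =
      a * r + b * r + x * (-2 * r) by push_cast; ring, AddChar.map_add_eq_mul, AddChar.map_add_eq_mul]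
    ring
  simp only [h1]
  unfold Lam
  rw [Complex.ofReal_mul, Complex.ofReal_sum, mul_sum, sum_comm]
  refine sum_congr rfl fun a ha => ?_
  rw [Complex.ofReal_sum, mul_sum, sum_comm]
  refine sum_congr rfl fun b hb => ?_
  rw [Complex.ofReal_sum, mul_sum, sum_comm]
  refine sum_congr rfl fun x hx => ?_
  rw [← mul_sum, orth]
  simp only [mem_range] at ha hb hx
  by_cases hc : a + b = 2 * x
  · rw [if_pos hc, if_pos (by rw [hc, sub_self])]
    push_cast; ring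
  · rw [if_neg hc, if_neg]
    · simp
    · intro h
      exact hc (cast_inj (by omega) (by omega) (sub_eq_zero.mp h))

lemma holder3 {ι : Type*} (s : Finset ι) (u v w : ι → ℝ) (hu : ∀ i, 0 ≤ u i) (hv : ∀ i, 0 ≤ v i)
    (hw : ∀ i, 0 ≤ w i) {U V W : ℝ} (hU : 0 < U) (hV : 0 < V) (hW : 0 < W)
    (h1 : ∑ i ∈ s, u i ^ 3 ≤ U ^ 3) (h2 : ∑ i ∈ s, v i ^ 3 ≤ V ^ 3) (h3 : ∑ i ∈ s, w i ^ 3 ≤ W ^ 3) :
    ∑ i ∈ s, u i * v i * w i ≤ U * V * W := by
  have key : ∀ i, u i * v i * w i ≤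
      (U * V * W / 3) * (u i ^ 3 / U ^ 3 + v i ^ 3 / V ^ 3 + w i ^ 3 / W ^ 3) := by
    intro i
    have am : ∀ a b c : ℝ, 0 ≤ a → 0 ≤ b → 0 ≤ c → 3 * (a * b * c) ≤ a ^ 3 + b ^ 3 + c ^ 3 := by
      intro a b c ha hb hc
      have : 0 ≤ (a + b + c) * ((a - b) ^ 2 + (b - c) ^ 2 + (c - a) ^ 2) := by positivity
      nlinarith
    have := am (u i / U) (v i / V) (w i / W) (div_nonneg (hu i) hU.le) (div_nonneg (hv i) hV.le)
      (div_nonneg (hw i) hW.le)
    rw [div_pow, div_pow, div_pow] at this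
    calc u i * v i * w i = (U * V * W / 3) * (3 * (u i / U * (v i / V) * (w i / W))) := by
          field_simp
      _ ≤ _ := by gcongr
  refine (sum_le_sum fun i _ => key i).trans ?_
  rw [← mul_sum, sum_add_distrib, sum_add_distrib, ← sum_div, ← sum_div, ← sum_div]
  have a1 : (∑ i ∈ s, u i ^ 3) / U ^ 3 ≤ 1 := by rw [div_le_one (by positivity)]; exact h1
  have a2 : (∑ i ∈ s, v i ^ 3) / V ^ 3 ≤ 1 := by rw [div_le_one (by positivity)]; exact h2
  have a3 : (∑ i ∈ s, w i ^ 3) / W ^ 3 ≤ 1 := by rw [div_le_one (by positivity)]; exact h3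
  have : 0 < U * V * W := by positivity
  nlinarith

lemma sum_neg2 (N : ℕ) (φ : ZMod (2 * N + 1) → ℝ) : ∑ r, φ (-2 * r) = ∑ r, φ r := by
  have hu : (-2 : ZMod (2 * N + 1)) * (N : ZMod (2 * N + 1)) = 1 := by
    have : ((2 * N + 1 : ℕ) : ZMod (2 * N + 1)) = 0 := ZMod.natCast_self _
    push_cast at this
    linear_combination -this
  refine Fintype.sum_bijective (fun r => -2 * r) ?_ _ _ (fun _ => rfl)
  refine Finite.injective_iff_bijective.mp fun a b h => ?_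
  have h' : -2 * a = -2 * b := h
  calc a = (-2 * N) * a := by rw [hu, one_mul]
    _ = N * (-2 * a) := by ring
    _ = (-2 * N) * b := by rw [h']; ring
    _ = b := by rw [hu, one_mul]

lemma Lam_le (N : ℕ) (f g h : ℕ → ℝ) {U V W : ℝ} (hU : 0 < U) (hV : 0 < V) (hW : 0 < W)
    (h1 : ∑ r, ‖FT (2 * N + 1) N f r‖ ^ 3 ≤ U ^ 3) (h2 : ∑ r, ‖FT (2 * N + 1) N g r‖ ^ 3 ≤ V ^ 3)
    (h3 : ∑ r, ‖FT (2 * N + 1) N h r‖ ^ 3 ≤ W ^ 3) : 2 * N * |Lam N f g h| ≤ U * V * W := by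
  have a1 := congrArg norm (trilin N f g h)
  rw [Complex.norm_real, Real.norm_eq_abs, abs_mul, Nat.abs_cast] at a1
  have a2 := holder3 univ (fun r => ‖FT (2 * N + 1) N f r‖) (fun r => ‖FT (2 * N + 1) N g r‖)
    (fun r => ‖FT (2 * N + 1) N h (-2 * r)‖) (fun _ => norm_nonneg _) (fun _ => norm_nonneg _)
    (fun _ => norm_nonneg _) hU hV hW h1 h2
    (by rw [sum_neg2 N (fun r => ‖FT (2 * N + 1) N h r‖ ^ 3)]; exact h3)
  have a3 := norm_sum_le univ (fun r => FT (2 * N + 1) N f r * FT (2 * N + 1) N g r *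
    FT (2 * N + 1) N h (-2 * r))
  simp only [norm_mul] at a3
  have a4 := abs_nonneg (Lam N f g h)
  push_cast at a1
  nlinarith

lemma FT_le (n : ℕ) (g : ℕ → ℝ) (r : ZMod M) : ‖FT M n g r‖ ≤ ∑ a ∈ range n, |g a| := by
  refine (norm_sum_le _ _).trans (le_of_eq (sum_congr rfl fun a _ => ?_))
  rw [norm_mul, norm_ch, mul_one, Complex.norm_real, Real.norm_eq_abs]

def Free (A : Finset ℕ) : Prop := ∀ a ∈ A, ∀ b ∈ A, ∀ x ∈ A, a + b = 2 * x → a = b

noncomputable def ind (A : Finset ℕ) (a : ℕ) : ℝ := if a ∈ A then 1 else 0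

lemma sum_ind {A : Finset ℕ} {N : ℕ} (h : A ⊆ range N) : ∑ a ∈ range N, ind A a = A.card := by
  unfold ind
  rw [sum_ite_mem, inter_eq_right.mpr h]
  simp

lemma Lam_free {A : Finset ℕ} {N : ℕ} (h : A ⊆ range N) (hf : Free A) :
    Lam N (ind A) (ind A) (ind A) ≤ A.card := by
  rw [← sum_ind h]
  unfold Lam
  refine sum_le_sum fun a ha => ?_
  have : ∀ b ∈ range N, ∀ x ∈ range N, (if a + b = 2 * x then ind A a * ind A b * ind A x else 0) ≤
      if b = a then (if x = a then ind A a else 0) else 0 := by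
    intro b _ x _
    unfold ind
    by_cases h1 : a + b = 2 * x
    · by_cases h2 : a ∈ A
      · by_cases h3 : b ∈ A
        · by_cases h4 : x ∈ A
          · have := hf a h2 b h3 x h4 h1
            rw [if_pos this.symm, if_pos (show x = a by omega)]
            simp [h1, h2, h3, h4]
          · simp only [h4, if_false, mul_zero]; split_ifs <;> simp
        · simp only [h3, if_false, mul_zero, zero_mul]; split_ifs <;> simp
      · simp [h2]
    · rw [if_neg h1]; split_ifs <;> simp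
  refine (sum_le_sum fun b hb => sum_le_sum fun x hx => this b hb x hx).trans ?_
  rw [sum_eq_single a]
  · simp only [if_true]
    rw [sum_ite_eq' (range N) a, if_pos ha]
  · intro b _ hb; simp [hb]
  · intro h; exact absurd ha h

lemma Lam_one (N : ℕ) : (N:ℝ) ^ 2 / 2 - N ≤ Lam N 1 1 1 := by
  have : ∀ a ∈ range N, (N:ℝ) / 2 - 1 ≤
      ∑ b ∈ range N, ∑ x ∈ range N, if a + b = 2 * x then (1:ℝ) * 1 * 1 else 0 := by
    intro a ha
    simp only [mem_range] at ha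
    have h1 : ∑ i ∈ range (N / 2), (1:ℝ) ≤
        ∑ b ∈ range N, ∑ x ∈ range N, if a + b = 2 * x then (1:ℝ) * 1 * 1 else 0 := by
      have h2 : ∑ i ∈ range (N / 2), (1:ℝ) =
          ∑ b ∈ (range (N / 2)).image (fun i => 2 * i + a % 2), (1:ℝ) := by
        rw [sum_image]
        intro i _ j _ h
        have h' : 2 * i + a % 2 = 2 * j + a % 2 := h
        omega
      rw [h2]
      refine le_trans (sum_le_sum fun b hb => ?_) (sum_le_sum_of_subset_of_nonneg ?_ ?_)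
      · simp only [mem_image, mem_range] at hb
        obtain ⟨i, hi, rfl⟩ := hb
        refine le_trans ?_ (single_le_sum (f := fun x => if a + (2 * i + a % 2) = 2 * x
          then (1:ℝ) * 1 * 1 else 0) (fun x _ => by split_ifs <;> norm_num)
          (show (a + (2 * i + a % 2)) / 2 ∈ range N by simp only [mem_range]; omega))
        rw [if_pos (by omega)]; norm_num
      · intro b hb
        simp only [mem_image, mem_range] at hb ⊢
        obtain ⟨i, hi, rfl⟩ := hb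
        omega
      · intro b _ _
        exact sum_nonneg fun x _ => by split_ifs <;> norm_num
    refine le_trans ?_ h1
    simp only [sum_const, card_range, nsmul_eq_mul, mul_one]
    have : N ≤ 2 * (N / 2) + 1 := by omega
    have : (N:ℝ) ≤ 2 * (N / 2 : ℕ) + 1 := by exact_mod_cast this
    linarith
  refine le_trans ?_ (sum_le_sum this)
  simp only [sum_const, card_range, nsmul_eq_mul]
  nlinarith

lemma Lam_split (N : ℕ) (g : ℕ → ℝ) (δ : ℝ) :
    Lam N g g g - δ ^ 3 * Lam N 1 1 1 = Lam N (fun a => g a - δ) g g +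
      δ * Lam N 1 (fun a => g a - δ) g + δ ^ 2 * Lam N 1 1 (fun a => g a - δ) := by
  unfold Lam
  simp only [mul_sum, ← sum_sub_distrib, ← sum_add_distrib]
  refine sum_congr rfl fun a _ => sum_congr rfl fun b _ => sum_congr rfl fun x _ => ?_
  split_ifs
  · simp only [Pi.one_apply]; ring
  · simp

lemma L3 {A : Finset ℕ} {N : ℕ} {δ : ℝ} (h : A ⊆ range N) (hf : Free A) (hδ : 0 < δ) (hδ1 : δ ≤ 1)
    (hc : (A.card : ℝ) = δ * N) (hN : 16 ≤ δ ^ 2 * N) :
    (δ * N / 40) ^ 3 < ∑ r, ‖FT (2 * N + 1) N (fun a => ind A a - δ) r‖ ^ 3 := by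
  by_contra hcon
  push Not at hcon
  have hδ2 : δ ^ 2 ≤ 1 := by nlinarith
  have hN0 : (16:ℝ) ≤ N := by
    have : (0:ℝ) ≤ N := by positivity
    nlinarith
  have hI : ∑ r, ‖FT (2 * N + 1) N 1 r‖ ^ 3 ≤ 3 * (N:ℝ) ^ 3 := by
    have a1 := parseval (M := 2 * N + 1) (n := N) (by omega) 1
    have a2 : ∀ r, ‖FT (2 * N + 1) N 1 r‖ ^ 3 ≤ N * ‖FT (2 * N + 1) N 1 r‖ ^ 2 := by
      intro r
      have := FT_le (M := 2 * N + 1) N 1 r
      simp only [Pi.one_apply, abs_one, sum_const, card_range, nsmul_eq_mul, mul_one] at this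
      rw [pow_succ, mul_comm]
      gcongr
    refine (sum_le_sum fun r _ => a2 r).trans ?_
    rw [← mul_sum, a1]
    simp only [Pi.one_apply, one_pow, sum_const, card_range, nsmul_eq_mul, mul_one]
    push_cast
    nlinarith [mul_nonneg (sq_nonneg (N:ℝ)) (show (0:ℝ) ≤ N - 1 by linarith)]
  have hA : ∑ r, ‖FT (2 * N + 1) N (ind A) r‖ ^ 3 ≤ (5 / 2 * (δ * N)) ^ 3 := by
    have a2 : ∀ r, ‖FT (2 * N + 1) N (ind A) r‖ ^ 3 ≤
        4 * ‖FT (2 * N + 1) N (fun a => ind A a - δ) r‖ ^ 3 + 4 * δ ^ 3 * ‖FT (2 * N + 1) N 1 r‖ ^ 3 := by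
      intro r
      have e : FT (2 * N + 1) N (ind A) r =
          FT (2 * N + 1) N (fun a => ind A a - δ) r + δ * FT (2 * N + 1) N 1 r := by
        unfold FT
        rw [mul_sum, ← sum_add_distrib]
        refine sum_congr rfl fun a _ => ?_
        simp only [Pi.one_apply]
        push_cast; ring
      have b1 : ‖FT (2 * N + 1) N (ind A) r‖ ≤
          ‖FT (2 * N + 1) N (fun a => ind A a - δ) r‖ + δ * ‖FT (2 * N + 1) N 1 r‖ := by
        rw [e]
        refine (norm_add_le _ _).trans ?_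
        rw [norm_mul, Complex.norm_real, Real.norm_eq_abs, abs_of_pos hδ]
      have b2 : 0 ≤ δ * ‖FT (2 * N + 1) N 1 r‖ := by positivity
      have b3 := norm_nonneg (FT (2 * N + 1) N (fun a => ind A a - δ) r)
      rw [mul_assoc, ← mul_pow]
      generalize δ * ‖FT (2 * N + 1) N 1 r‖ = y at *
      generalize ‖FT (2 * N + 1) N (fun a => ind A a - δ) r‖ = x at *
      calc _ ≤ (x + y) ^ 3 := by gcongr
        _ ≤ _ := by nlinarith [mul_nonneg (add_nonneg b3 b2) (sq_nonneg (x - y))]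
    refine (sum_le_sum fun r _ => a2 r).trans ?_
    rw [sum_add_distrib, ← mul_sum, ← mul_sum]
    have b1 : 4 * δ ^ 3 * ∑ r, ‖FT (2 * N + 1) N 1 r‖ ^ 3 ≤ 4 * δ ^ 3 * (3 * (N:ℝ) ^ 3) := by gcongr
    have b2 : 0 < (δ * N) ^ 3 := by positivity
    have b3 : 4 * δ ^ 3 * (3 * (N:ℝ) ^ 3) = 12 * (δ * N) ^ 3 := by ring
    rw [div_pow] at hcon
    rw [mul_pow]
    linarith
  have hI' : ∑ r, ‖FT (2 * N + 1) N 1 r‖ ^ 3 ≤ (3 / 2 * (N:ℝ)) ^ 3 := by
    have : (0:ℝ) < N ^ 3 := by positivity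
    rw [mul_pow]; linarith
  have p1 : 0 < δ * N / 40 := by positivity
  have p2 : 0 < 5 / 2 * (δ * N) := by positivity
  have p3 : 0 < 3 / 2 * (N:ℝ) := by positivity
  have c1 := Lam_le N _ _ _ p1 p2 p2 hcon hA hA
  have c2 := Lam_le N _ _ _ p3 p1 p2 hI' hcon hA
  have c3 := Lam_le N _ _ _ p3 p3 p1 hI' hI' hcon
  have c4 := Lam_split N (ind A) δ
  have c5 := Lam_free h hf
  have c6 := Lam_one N
  have d1 := neg_abs_le (Lam N (fun a => ind A a - δ) (ind A) (ind A))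
  have d2 := neg_abs_le (Lam N 1 (fun a => ind A a - δ) (ind A))
  have d3 := neg_abs_le (Lam N 1 1 (fun a => ind A a - δ))
  generalize |Lam N (fun a => ind A a - δ) (ind A) (ind A)| = X1 at *
  generalize |Lam N 1 (fun a => ind A a - δ) (ind A)| = X2 at *
  generalize |Lam N 1 1 (fun a => ind A a - δ)| = X3 at *
  have hNp : (0:ℝ) < N := by linarith
  have e1 : X1 ≤ 25 / 320 * (δ ^ 3 * N ^ 2) := by
    apply le_of_mul_le_mul_left _ (show (0:ℝ) < 2 * N by positivity)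
    refine c1.trans (le_of_eq ?_); ring
  have e2 : δ * X2 ≤ 15 / 320 * (δ ^ 3 * N ^ 2) := by
    apply le_of_mul_le_mul_left _ (show (0:ℝ) < 2 * N by positivity)
    calc 2 * N * (δ * X2) = δ * (2 * N * X2) := by ring
      _ ≤ δ * (3 / 2 * (N:ℝ) * (δ * N / 40) * (5 / 2 * (δ * N))) := by gcongr
      _ = _ := by ring
  have e3 : δ ^ 2 * X3 ≤ 9 / 320 * (δ ^ 3 * N ^ 2) := by
    apply le_of_mul_le_mul_left _ (show (0:ℝ) < 2 * N by positivity)
    calc 2 * N * (δ ^ 2 * X3) = δ ^ 2 * (2 * N * X3) := by ring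
      _ ≤ δ ^ 2 * (3 / 2 * (N:ℝ) * (3 / 2 * (N:ℝ)) * (δ * N / 40)) := by gcongr
      _ = _ := by ring
  have f1 : δ ^ 3 * ((N:ℝ) ^ 2 / 2 - N) ≤ δ ^ 3 * Lam N 1 1 1 := by gcongr
  have f2 := mul_le_mul_of_nonneg_left d2 hδ.le
  have f3 := mul_le_mul_of_nonneg_left d3 (sq_nonneg δ)
  have f4 : 16 * (δ * N) ≤ δ ^ 3 * N ^ 2 := by
    have : 0 < δ * N := by positivity
    nlinarith
  have f5 : δ ^ 3 * N ≤ δ * N := by
    have : 0 < δ * N := by positivity
    nlinarith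
  have f6 : 0 < δ ^ 3 * N ^ 2 := by positivity
  nlinarith

end Pool.Agent.H57.Roth
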