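import Mathlib
import Pool.Agent.H57.RothA

namespace Pool.Agent.H57.Roth

open Finset

lemma cube_le (y : ℝ) (h0 : 0 ≤ y) (h2 : y ≤ 2) (T : ℕ) :
    y ^ 3 ≤ ∑ t ∈ range T, (if (1 / 2 : ℝ) ^ t ≤ y then 8 * (1 / 8 : ℝ) ^ t else 0) + 8 * (1 / 8) ^ T := by
  induction T with
  | zero =>
    simp only [range_zero, sum_empty, pow_zero]
    calc y ^ 3 ≤ 2 ^ 3 := by gcongr
      _ = _ := by norm_num
  | succ T ih =>
    rw [sum_range_succ]
    by_cases h : (1 / 2 : ℝ) ^ T ≤ y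
    · rw [if_pos h]
      have : (0:ℝ) ≤ 8 * (1 / 8) ^ (T + 1) := by positivity
      linarith
    · rw [if_neg h]
      push Not at h
      have h1 : y ^ 3 ≤ ((1 / 2 : ℝ) ^ T) ^ 3 := by gcongr
      have h3 : ((1 / 2 : ℝ) ^ T) ^ 3 = 8 * (1 / 8) ^ (T + 1) := by
        rw [← pow_mul, mul_comm T 3, pow_mul, pow_succ (1 / 8 : ℝ) T]; norm_num; ring
      have h4 : 0 ≤ ∑ t ∈ range T, (if (1 / 2 : ℝ) ^ t ≤ y then 8 * (1 / 8 : ℝ) ^ t else 0) :=
        sum_nonneg fun t _ => by split_ifs <;> positivity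
      linarith

lemma level {ι : Type*} [Fintype ι] (y : ι → ℝ) (h0 : ∀ r, 0 ≤ y r) (h2 : ∀ r, y r ≤ 2)
    (h3 : 1 / 64000 < ∑ r, y r ^ 3) :
    ∃ (t : ℕ) (Γ : Finset ι), Γ.card ≤ 6 ^ t ∧ 1 / 2500000 * (3 / 2 : ℝ) ^ t ≤ ∑ r ∈ Γ, y r ^ 2 := by
  classical
  have key : ∃ t : ℕ, 1 / 2500000 * (6:ℝ) ^ t < (univ.filter fun r => (1 / 2 : ℝ) ^ t ≤ y r).card := by
    by_contra hc
    push Not at hc
    obtain ⟨T, hT⟩ := pow_unbounded_of_one_lt (8 * 2500000 * (Fintype.card ι : ℝ)) (by norm_num : (1:ℝ) < 8)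
    have a1 := sum_le_sum fun r (_ : r ∈ univ) => cube_le (y r) (h0 r) (h2 r) T
    rw [sum_add_distrib, sum_comm] at a1
    have a2 : ∀ t ∈ range T, ∑ r, (if (1 / 2 : ℝ) ^ t ≤ y r then 8 * (1 / 8 : ℝ) ^ t else 0) ≤
        8 / 2500000 * (3 / 4 : ℝ) ^ t := by
      intro t _
      rw [← sum_filter, sum_const, nsmul_eq_mul]
      calc _ ≤ 1 / 2500000 * (6:ℝ) ^ t * (8 * (1 / 8 : ℝ) ^ t) := by gcongr; exact hc t
        _ = 8 / 2500000 * (6 * (1 / 8) : ℝ) ^ t := by rw [mul_pow]; ring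
        _ = _ := by norm_num
    have a3 := sum_le_sum a2
    rw [← mul_sum] at a3
    have a4 : ∑ t ∈ range T, (3 / 4 : ℝ) ^ t ≤ 4 := by
      rw [geom_sum_eq (by norm_num)]
      have : (0:ℝ) ≤ (3 / 4) ^ T := by positivity
      rw [div_le_iff_of_neg (by norm_num)]
      linarith
    have a5 : ∑ _r : ι, 8 * (1 / 8 : ℝ) ^ T ≤ 1 / 2500000 := by
      rw [sum_const, card_univ, nsmul_eq_mul, one_div_pow]
      have : (0:ℝ) < 8 ^ T := by positivity
      rw [mul_one_div, ← mul_div_assoc, div_le_div_iff₀ this (by norm_num)]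
      linarith
    linarith
  obtain ⟨t, ht⟩ := key
  obtain ⟨Γ, h1, h4⟩ := exists_subset_card_eq (s := univ.filter fun r => (1 / 2 : ℝ) ^ t ≤ y r)
    (n := ⌈1 / 2500000 * (6:ℝ) ^ t⌉₊) (Nat.ceil_le.mpr ht.le)
  refine ⟨t, Γ, ?_, ?_⟩
  · rw [h4, Nat.ceil_le]
    have : (0:ℝ) < 6 ^ t := by positivity
    push_cast
    linarith
  · have a1 : ∀ r ∈ Γ, ((1 / 2 : ℝ) ^ t) ^ 2 ≤ y r ^ 2 := by
      intro r hr
      have := (mem_filter.mp (h1 hr)).2
      gcongr
    refine le_trans ?_ (sum_le_sum a1)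
    rw [sum_const, nsmul_eq_mul, h4]
    calc 1 / 2500000 * (3 / 2 : ℝ) ^ t = 1 / 2500000 * (6:ℝ) ^ t * ((1 / 2 : ℝ) ^ t) ^ 2 := by
          rw [← pow_mul, mul_comm t 2, pow_mul, mul_assoc, ← mul_pow]; norm_num
      _ ≤ _ := by gcongr; exact Nat.le_ceil _

variable {M : ℕ} [NeZero M]

lemma ch_close {Q : ℕ} (hQ : 1 ≤ Q) (u v : ZMod M) (h : u.val * Q / M = v.val * Q / M) :
    ‖ch M (u - v) - 1‖ ≤ 7 / Q := by
  have hM : 0 < M := Nat.pos_of_ne_zero (NeZero.ne M)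
  have e : u - v = (((u.val : ℤ) - v.val : ℤ) : ZMod M) := by simp
  rw [e]
  unfold ch
  rw [ZMod.stdAddChar_coe]
  have e2 : (2 * Real.pi * Complex.I * (((u.val : ℤ) - v.val : ℤ) : ℂ) / M : ℂ) =
      Complex.I * ((2 * Real.pi * ((u.val : ℝ) - v.val) / M : ℝ) : ℂ) := by
    push_cast; ring
  rw [e2]
  refine Real.norm_exp_I_mul_ofReal_sub_one_le.trans ?_
  have a1 := Nat.div_add_mod (u.val * Q) M
  have a2 := Nat.div_add_mod (v.val * Q) M
  have a3 := Nat.mod_lt (u.val * Q) hM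
  have a4 := Nat.mod_lt (v.val * Q) hM
  rw [h] at a1
  have b1 : (u.val : ℝ) * Q ≤ v.val * Q + M := by exact_mod_cast (show u.val * Q ≤ v.val * Q + M by omega)
  have b2 : (v.val : ℝ) * Q ≤ u.val * Q + M := by exact_mod_cast (show v.val * Q ≤ u.val * Q + M by omega)
  have hM' : (0:ℝ) < M := by exact_mod_cast hM
  have hQ' : (0:ℝ) < Q := by exact_mod_cast hQ
  have b3 : |(u.val : ℝ) - v.val| * Q ≤ M := by
    rw [← abs_of_pos hQ', ← abs_mul, abs_le]
    constructor <;> nlinarith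
  rw [Real.norm_eq_abs, abs_div, abs_mul, abs_of_pos hM', abs_of_pos (by positivity : 0 < 2 * Real.pi),
    div_le_div_iff₀ hM' hQ']
  have := Real.pi_lt_d2
  have := Real.pi_pos
  have := abs_nonneg ((u.val : ℝ) - v.val)
  nlinarith

lemma dirichlet (Γ : Finset (ZMod M)) {Q : ℕ} (hQ : 1 ≤ Q) :
    ∃ d : ℕ, 1 ≤ d ∧ d ≤ Q ^ Γ.card ∧ ∀ r ∈ Γ, ‖ch M ((d : ZMod M) * r) - 1‖ ≤ 7 / Q := by
  have hM : 0 < M := Nat.pos_of_ne_zero (NeZero.ne M)
  let φ : Fin (Q ^ Γ.card + 1) → (Γ → Fin Q) := fun j r =>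
    ⟨(((j : ℕ) : ZMod M) * r).val * Q / M, by
      rw [Nat.div_lt_iff_lt_mul hM, mul_comm Q M]
      exact Nat.mul_lt_mul_of_pos_right (ZMod.val_lt _) hQ⟩
  obtain ⟨j1, j2, hne, he⟩ := Fintype.exists_ne_map_eq_of_card_lt φ (by simp)
  wlog hlt : (j1 : ℕ) < j2 generalizing j1 j2
  · exact this j2 j1 hne.symm he.symm (by
      have : (j1 : ℕ) ≠ j2 := fun h => hne (Fin.ext h)
      omega)
  refine ⟨j2 - j1, by omega, by have := j2.2; omega, fun r hr => ?_⟩
  have h1 := congrArg Fin.val (congrFun he ⟨r, hr⟩)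
  have := ch_close hQ (((j2 : ℕ) : ZMod M) * r) (((j1 : ℕ) : ZMod M) * r) h1.symm
  rw [Nat.cast_sub hlt.le, sub_mul]
  exact this

lemma ch_mul_le (x : ZMod M) (j : ℕ) : ‖ch M ((j : ZMod M) * x) - 1‖ ≤ j * ‖ch M x - 1‖ := by
  induction j with
  | zero => simp
  | succ j ih =>
    rw [Nat.cast_succ, add_mul, one_mul, AddChar.map_add_eq_mul]
    have e : ch M (j * x) * ch M x - 1 = ch M (j * x) * (ch M x - 1) + (ch M (j * x) - 1) := by ring
    rw [e]
    refine (norm_add_le _ _).trans ?_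
    rw [norm_mul, norm_ch]
    push_cast
    linarith

noncomputable def sm (N L d : ℕ) (f : ℕ → ℝ) (n : ℕ) : ℝ :=
  ∑ j ∈ range L, ∑ a ∈ range N, if a + j * d = n then f a else 0

lemma sm_sum (N L d : ℕ) (f : ℕ → ℝ) (φ : ℕ → ℂ) :
    ∑ n ∈ range (N + L * d), (sm N L d f n : ℂ) * φ n =
      ∑ j ∈ range L, ∑ a ∈ range N, (f a : ℂ) * φ (a + j * d) := by
  unfold sm
  simp only [Complex.ofReal_sum, sum_mul]
  rw [sum_comm]
  refine sum_congr rfl fun j hj => ?_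
  rw [sum_comm]
  refine sum_congr rfl fun a ha => ?_
  rw [sum_eq_single (a + j * d)]
  · simp
  · intro b _ hb; simp [hb.symm]
  · intro h
    simp only [mem_range] at h hj ha
    have : j * d ≤ L * d := Nat.mul_le_mul_right d hj.le
    omega

lemma inner_eq (N k n : ℕ) (f : ℕ → ℝ) : (∑ a ∈ range N, if a + k = n then f a else 0) =
    if k ≤ n ∧ n - k < N then f (n - k) else 0 := by
  split_ifs with h
  · rw [sum_eq_single (n - k)]
    · rw [if_pos (by omega)]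
    · intro b _ hb; rw [if_neg (by omega)]
    · intro h'; simp at h'; omega
  · refine sum_eq_zero fun a ha => if_neg ?_
    simp only [mem_range] at ha
    omega

lemma sum_lt_le (n k : ℕ) {X : ℝ} (hX : 0 ≤ X) : ∑ i ∈ range n, (if i < k then X else 0) ≤ k * X := by
  rw [← sum_filter, sum_const, nsmul_eq_mul]
  gcongr
  calc _ ≤ (range k).card := card_le_card fun i hi => by simp at hi ⊢; exact hi.2
    _ = k := card_range k

lemma sum_ge_eq (N k : ℕ) (Y : ℝ) : ∑ i ∈ range (N + k), (if N ≤ i then Y else 0) = k * Y := by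
  rw [sum_range_add, sum_eq_zero (fun i hi => if_neg (by simp at hi; omega))]
  simp

lemma incr {A : Finset ℕ} {N L : ℕ} {δ c x0 : ℝ} (h : A ⊆ range N) (hδ : 0 < δ) (hδ1 : δ ≤ 1)
    (hc : (A.card : ℝ) = δ * N) (Γ : Finset (ZMod (2 * N + 1)))
    (hκ : 24 * c * (δ * N) ^ 2 ≤ ∑ r ∈ Γ, ‖FT (2 * N + 1) N (fun a => ind A a - δ) r‖ ^ 2)
    (hx : 0 < x0) (hxc : x0 ≤ c) (hL1 : 1 ≤ L)
    (hL : (2 + 4 / x0) * (L * (16 * L) ^ Γ.card) < δ ^ 2 * N) :
    ∃ n d : ℕ, 1 ≤ d ∧ (L - 1) * d ≤ n ∧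
      (1 + c) * δ * L ≤ ((range L).filter fun j => n - j * d ∈ A).card := by
  obtain ⟨d, hd1, hd2, hd3⟩ := dirichlet Γ (Q := 16 * L) (by omega)
  by_contra hcon
  push Not at hcon
  set f : ℕ → ℝ := fun a => ind A a - δ with hf
  have hLr : (1:ℝ) ≤ L := by exact_mod_cast hL1
  have hd2' : (d:ℝ) ≤ (16 * L) ^ Γ.card := by exact_mod_cast hd2
  have h4 : 0 < 4 / x0 := by positivity
  have hLd : (2 + 4 / x0) * (L * d) < δ ^ 2 * N := lt_of_le_of_lt (by gcongr) hL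
  have hc0 : 0 < c := by linarith
  have hδ2 : δ ^ 2 ≤ 1 := by nlinarith
  have hN0 : (0:ℝ) ≤ N := by positivity
  have hLd0 : (0:ℝ) ≤ L * d := by positivity
  have hLdN : L * d ≤ N := by
    have : (L:ℝ) * d ≤ N := by nlinarith
    exact_mod_cast this
  have hN1 : 1 ≤ N := le_trans (Nat.mul_pos hL1 hd1) hLdN
  have hN1' : (1:ℝ) ≤ N := by exact_mod_cast hN1
  have e1 : ∀ r, FT (2 * N + 1) (N + L * d) (sm N L d f) r = FT (2 * N + 1) N f r *
      ∑ j ∈ range L, ch (2 * N + 1) ((j : ZMod (2 * N + 1)) * ((d : ZMod (2 * N + 1)) * r)) := by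
    intro r
    unfold FT
    rw [sm_sum N L d f (fun n => ch (2 * N + 1) ((n : ZMod (2 * N + 1)) * r)), mul_sum]
    refine sum_congr rfl fun j _ => ?_
    rw [sum_mul]
    refine sum_congr rfl fun a _ => ?_
    rw [mul_assoc, ← AddChar.map_add_eq_mul]
    congr 2
    push_cast; ring
  have e2 : ∀ r ∈ Γ, (L:ℝ) / 2 ≤
      ‖∑ j ∈ range L, ch (2 * N + 1) ((j : ZMod (2 * N + 1)) * ((d : ZMod (2 * N + 1)) * r))‖ := by
    intro r hr
    have a1 : ‖∑ j ∈ range L, (ch (2 * N + 1) ((j : ZMod (2 * N + 1)) * ((d : ZMod (2 * N + 1)) * r)) - 1)‖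
        ≤ L * (7 / 16) := by
      refine (norm_sum_le _ _).trans ?_
      have : ∀ j ∈ range L, ‖ch (2 * N + 1) ((j : ZMod (2 * N + 1)) * ((d : ZMod (2 * N + 1)) * r)) - 1‖
          ≤ 7 / 16 := by
        intro j hj
        have hj' : (j:ℝ) ≤ L := by exact_mod_cast (mem_range.mp hj).le
        refine (ch_mul_le _ j).trans ?_
        calc _ ≤ (L:ℝ) * (7 / ((16 * L : ℕ) : ℝ)) := by gcongr; exact hd3 r hr
          _ = 7 / 16 := by push_cast; field_simp
      refine (sum_le_sum this).trans ?_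
      simp
    rw [sum_sub_distrib] at a1
    simp only [sum_const, card_range, nsmul_eq_mul, mul_one] at a1
    have a2 := norm_sub_norm_le (L:ℂ)
      (∑ j ∈ range L, ch (2 * N + 1) ((j : ZMod (2 * N + 1)) * ((d : ZMod (2 * N + 1)) * r)))
    rw [norm_sub_rev, Complex.norm_natCast] at a2
    linarith
  have e3 : (L:ℝ) ^ 2 / 4 * (24 * c * (δ * N) ^ 2) ≤
      (2 * N + 1 : ℕ) * ∑ n ∈ range (N + L * d), sm N L d f n ^ 2 := by
    rw [← parseval (by omega)]
    calc _ ≤ (L:ℝ) ^ 2 / 4 * ∑ r ∈ Γ, ‖FT (2 * N + 1) N f r‖ ^ 2 := by gcongr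
      _ ≤ ∑ r ∈ Γ, ‖FT (2 * N + 1) (N + L * d) (sm N L d f) r‖ ^ 2 := by
        rw [mul_sum]
        refine sum_le_sum fun r hr => ?_
        rw [e1, norm_mul, mul_pow, mul_comm, show (L:ℝ) ^ 2 / 4 = (L / 2) ^ 2 by ring]
        gcongr
        exact e2 r hr
      _ ≤ _ := sum_le_sum_of_subset_of_nonneg (subset_univ _) fun _ _ _ => by positivity
  have e4 : ∑ n ∈ range (N + L * d), sm N L d f n = 0 := by
    have a1 := sm_sum N L d f (fun _ => 1)
    simp only [mul_one] at a1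
    have a2 : ∑ a ∈ range N, f a = 0 := by
      simp only [hf, sum_sub_distrib, sum_ind h, hc]
      simp [mul_comm]
    rw [← Complex.ofReal_sum, ← Complex.ofReal_sum, a2] at a1
    simpa using (by exact_mod_cast a1 : ∑ n ∈ range (N + L * d), sm N L d f n = ∑ _j ∈ range L, (0:ℝ))
  have e5 : ∀ n, |sm N L d f n| ≤ L := by
    intro n
    unfold sm
    refine (abs_sum_le_sum_abs _ _).trans ?_
    have : ∀ j ∈ range L, |∑ a ∈ range N, if a + j * d = n then f a else 0| ≤ 1 := by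
      intro j _
      rw [inner_eq]
      simp only [hf, ind]
      split_ifs <;> rw [abs_le] <;> constructor <;> linarith
    refine (sum_le_sum this).trans ?_
    simp
  have e6 : ∀ n, (L - 1) * d ≤ n → n < N →
      sm N L d f n = ((range L).filter fun j => n - j * d ∈ A).card - δ * L := by
    intro n h1 h2
    unfold sm
    have : ∀ j ∈ range L, (∑ a ∈ range N, if a + j * d = n then f a else 0) =
        (if n - j * d ∈ A then 1 else 0) - δ := by
      intro j hj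
      have : j * d ≤ (L - 1) * d := Nat.mul_le_mul_right d (by simp at hj; omega)
      rw [inner_eq, if_pos (by omega)]
      rfl
    rw [sum_congr rfl this, sum_sub_distrib, sum_boole]
    simp [mul_comm]
  have e7 : ∀ n ∈ range (N + L * d), sm N L d f n ^ 2 ≤ (c - 1) * δ * L * sm N L d f n +
      ((if n < N then c * δ ^ 2 * L ^ 2 else 0) + (if n < L * d then (c + 2) * (L:ℝ) ^ 2 else 0) +
        (if N ≤ n then (c + 2) * (L:ℝ) ^ 2 else 0)) := by
    intro n _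
    have p1 : 0 ≤ (if n < N then c * δ ^ 2 * L ^ 2 else 0) := by split_ifs <;> positivity
    have p2 : 0 ≤ (if n < L * d then (c + 2) * (L:ℝ) ^ 2 else 0) := by split_ifs <;> positivity
    have p3 : 0 ≤ (if N ≤ n then (c + 2) * (L:ℝ) ^ 2 else 0) := by split_ifs <;> positivity
    have bd : sm N L d f n ^ 2 ≤ (c - 1) * δ * L * sm N L d f n + (c + 2) * (L:ℝ) ^ 2 := by
      have b1 := abs_le.mp (e5 n)
      have b2 : |(c - 1) * δ * L * sm N L d f n| ≤ (c + 1) * 1 * L * L := by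
        rw [abs_mul, abs_mul, abs_mul, abs_of_pos hδ, Nat.abs_cast]
        gcongr
        · rw [abs_le]; constructor <;> linarith
        · exact e5 n
      have b3 := neg_abs_le ((c - 1) * δ * L * sm N L d f n)
      nlinarith
    by_cases c1 : N ≤ n
    · rw [if_pos c1]; linarith
    by_cases c2 : n < L * d
    · rw [if_pos c2]; linarith
    have c3 : (L - 1) * d ≤ n := le_trans (Nat.mul_le_mul_right d (by omega)) (not_lt.mp c2)
    rw [if_pos (not_le.mp c1)]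
    have b1 := hcon n d hd1 c3
    have b2 := e6 n c3 (by omega)
    have b3 : (0:ℝ) ≤ ((range L).filter fun j => n - j * d ∈ A).card := by positivity
    have b4 : 0 ≤ (sm N L d f n + δ * L) * (c * δ * L - sm N L d f n) :=
      mul_nonneg (by linarith) (by linarith)
    nlinarith
  have e8 := sum_le_sum e7
  rw [sum_add_distrib, sum_add_distrib, sum_add_distrib, ← mul_sum, e4, sum_ge_eq] at e8
  have g1 := sum_lt_le (N + L * d) N (X := c * δ ^ 2 * L ^ 2) (by positivity)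
  have g2 := sum_lt_le (N + L * d) (L * d) (X := (c + 2) * (L:ℝ) ^ 2) (by positivity)
  have g3 : 2 * (c + 2) * (L * d) < c * (δ ^ 2 * N) := by
    have a1 : 4 ≤ c * (4 / x0) := by rw [← mul_div_assoc, le_div_iff₀ hx]; linarith
    have a2 := mul_lt_mul_of_pos_left hLd hc0
    nlinarith
  have g4 : ∑ n ∈ range (N + L * d), sm N L d f n ^ 2 < 2 * c * δ ^ 2 * N * L ^ 2 := by
    have : (0:ℝ) < L ^ 2 := by positivity
    have := mul_lt_mul_of_pos_left g3 this
    push_cast at e8 g2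
    nlinarith
  have g5 : (0:ℝ) ≤ ∑ n ∈ range (N + L * d), sm N L d f n ^ 2 := sum_nonneg fun _ _ => sq_nonneg _
  push_cast at e3
  nlinarith

end Pool.Agent.H57.Roth
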