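import Mathlib
import Pool.Agent.H57.RothB

namespace Pool.Agent.H57.Roth

open Finset

lemma pow_le_incr (t : ℕ) : (1 + 1 / 240000000 : ℝ) ^ (t + 1) ≤ 1 + 1 / 60000000 * (3 / 2) ^ t := by
  induction t with
  | zero => norm_num
  | succ t ih =>
    have h1 : (1:ℝ) ≤ (3 / 2) ^ t := one_le_pow₀ (by norm_num)
    rw [pow_succ, pow_succ (3 / 2 : ℝ)]
    nlinarith

lemma step {A : Finset ℕ} {N : ℕ} {δ : ℝ} (h : A ⊆ range N) (hf : Free A) (hδ : 0 < δ)
    (hc : (A.card : ℝ) = δ * N) (hN : 16 ≤ δ ^ 2 * N) :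
    ∃ t : ℕ, δ * (1 + 1 / 240000000 : ℝ) ^ (t + 1) ≤ 2 ∧ ∀ L : ℕ, 1 ≤ L →
      240000002 * ((L:ℝ) * (16 * L) ^ (6 ^ t)) < δ ^ 2 * N →
      ∃ B : Finset ℕ, B ⊆ range L ∧ Free B ∧ (1 + 1 / 240000000 : ℝ) ^ (t + 1) * δ * L ≤ B.card := by
  have hN0 : (0:ℝ) < N := by
    by_contra hh
    have : (N:ℝ) = 0 := le_antisymm (not_lt.mp hh) (by positivity)
    rw [this] at hN; linarith
  have hδ1 : δ ≤ 1 := by
    have : (A.card : ℝ) ≤ N := by exact_mod_cast (card_le_card h).trans (card_range N).le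
    nlinarith
  have hp : 0 < δ * N := by positivity
  have h3 := L3 h hf hδ hδ1 hc hN
  obtain ⟨t, Γ, h4, h5⟩ := level (fun r => ‖FT (2 * N + 1) N (fun a => ind A a - δ) r‖ / (δ * N))
    (fun r => by positivity) (fun r => by
      rw [div_le_iff₀ hp]
      refine (FT_le _ _ _).trans ?_
      have : ∀ a ∈ range N, |ind A a - δ| ≤ ind A a + δ := by
        intro a _
        unfold ind
        split_ifs <;> rw [abs_le] <;> constructor <;> linarith
      refine (sum_le_sum this).trans ?_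
      rw [sum_add_distrib, sum_ind h, hc]
      simp only [sum_const, card_range, nsmul_eq_mul]
      linarith) (by
      simp only [div_pow]
      rw [← sum_div, lt_div_iff₀ (by positivity)]
      rw [div_pow] at h3
      linarith)
  simp only [div_pow] at h5
  rw [← sum_div, le_div_iff₀ (by positivity), ← div_pow] at h5
  have h6 : ∑ r ∈ Γ, ‖FT (2 * N + 1) N (fun a => ind A a - δ) r‖ ^ 2 ≤ 3 * N * (δ * N) := by
    refine (sum_le_sum_of_subset_of_nonneg (subset_univ _) fun _ _ _ => by positivity).trans ?_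
    rw [parseval (by omega)]
    have a1 : ∑ a ∈ range N, (ind A a - δ) ^ 2 ≤ δ * N := by
      have : ∀ a ∈ range N, (ind A a - δ) ^ 2 = (1 - 2 * δ) * ind A a + δ ^ 2 := by
        intro a _
        unfold ind
        split_ifs <;> ring
      rw [sum_congr rfl this, sum_add_distrib, ← mul_sum, sum_ind h, hc]
      simp only [sum_const, card_range, nsmul_eq_mul]
      nlinarith
    have a2 : (1:ℝ) ≤ N := by
      have : 0 < N := by exact_mod_cast hN0
      exact_mod_cast this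
    have a3 : ((2 * N + 1 : ℕ) : ℝ) ≤ 3 * N := by push_cast; linarith
    have a4 : 0 ≤ ∑ a ∈ range N, (ind A a - δ) ^ 2 := sum_nonneg fun _ _ => sq_nonneg _
    gcongr
  have h7 := pow_le_incr t
  have h8 : (1:ℝ) ≤ (3 / 2) ^ t := one_le_pow₀ (by norm_num)
  refine ⟨t, ?_, fun L hL1 hL => ?_⟩
  · have a1 : 1 / 2500000 * (3 / 2 : ℝ) ^ t * δ * (δ * N * N) ≤ 3 * (δ * N * N) := by nlinarith
    have a2 := le_of_mul_le_mul_right a1 (by positivity)
    nlinarith
  · have hLr : (1:ℝ) ≤ L := by exact_mod_cast hL1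
    obtain ⟨n, d, hd, hn, hB⟩ := incr (L := L) (c := 1 / 60000000 * (3 / 2) ^ t) (x0 := 1 / 60000000)
      h hδ hδ1 hc Γ (by linarith) (by norm_num) (by linarith) hL1 (by
        refine lt_of_le_of_lt ?_ hL
        have : (16 * L : ℝ) ^ Γ.card ≤ (16 * L) ^ (6 ^ t) := pow_le_pow_right₀ (by linarith) h4
        norm_num
        gcongr)
    refine ⟨_, filter_subset _ _, ?_, le_trans (by gcongr) hB⟩
    intro a ha b hb x hx habx
    simp only [mem_filter, mem_range] at ha hb hx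
    have b1 : a * d ≤ (L - 1) * d := Nat.mul_le_mul_right d (by omega)
    have b2 : b * d ≤ (L - 1) * d := Nat.mul_le_mul_right d (by omega)
    have b3 : x * d ≤ (L - 1) * d := Nat.mul_le_mul_right d (by omega)
    have b4 : a * d + b * d = 2 * (x * d) := by rw [← add_mul, habx]; ring
    have b5 := hf _ ha.2 _ hb.2 _ hx.2 (by omega)
    have b6 : a * d = b * d := by omega
    exact Nat.eq_of_mul_eq_mul_right hd b6

lemma iter {δ0 : ℝ} {N0 : ℕ} (hδ0 : 0 < δ0) (h16 : 16 ≤ N0) (hN0 : 240000002 < δ0 ^ 2 * N0) (j : ℕ) :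
    ∀ (N : ℕ) (A : Finset ℕ), N0 ^ (16 ^ j) ≤ N → A ⊆ range N → Free A → δ0 * N ≤ A.card →
      (A.card : ℝ) * (1 + 1 / 240000000) ^ j ≤ 2 * N := by
  induction j using Nat.strong_induction_on with
  | _ j ih =>
  intro N A hN h hf hc
  have p1 : ∀ i, N0 ≤ N0 ^ (16 ^ i) := fun i => Nat.le_self_pow (by positivity) _
  have hNN : (N0:ℝ) ≤ N := by exact_mod_cast (p1 j).trans hN
  have h16' : (16:ℝ) ≤ N0 := by exact_mod_cast h16
  have hNp : (0:ℝ) < N := by linarith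
  obtain ⟨δ, hδ⟩ : ∃ δ : ℝ, (A.card : ℝ) = δ * N := ⟨A.card / N, by field_simp⟩
  have hδδ : δ0 ≤ δ := by
    rw [hδ] at hc
    exact le_of_mul_le_mul_right hc hNp
  have hδp : 0 < δ := by linarith
  have hsq : δ0 ^ 2 ≤ δ ^ 2 := by gcongr
  obtain ⟨t, h1, h2⟩ := step h hf hδp hδ (by
    have : δ0 ^ 2 * N0 ≤ δ ^ 2 * N := by gcongr
    linarith)
  rw [hδ]
  by_cases hj : j ≤ t + 1
  · have : (1 + 1 / 240000000 : ℝ) ^ j ≤ (1 + 1 / 240000000 : ℝ) ^ (t + 1) :=
      pow_le_pow_right₀ (by norm_num) hj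
    have : δ * (1 + 1 / 240000000 : ℝ) ^ j ≤ 2 := le_trans (by gcongr) h1
    nlinarith
  · obtain ⟨i, rfl⟩ : ∃ i, j = i + (t + 1) := ⟨j - (t + 1), by omega⟩
    set L := N0 ^ (16 ^ i) with hL
    have hL1 : N0 ≤ L := p1 i
    have hLr : (N0:ℝ) ≤ L := by exact_mod_cast hL1
    have hLp : (0:ℝ) < L := by linarith
    obtain ⟨B, hB1, hB2, hB3⟩ := h2 L (by omega) (by
      have a1 : L * (L * (16 * L) ^ (6 ^ t)) ≤ N := by
        refine le_trans ?_ hN
        calc L * (L * (16 * L) ^ (6 ^ t)) ≤ L * (L * (L * L) ^ (6 ^ t)) := by gcongr; omega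
          _ = L ^ (2 + 2 * 6 ^ t) := by rw [← pow_two, ← pow_mul]; ring
          _ ≤ L ^ (16 ^ (t + 1)) := by
            apply Nat.pow_le_pow_right (by omega)
            have : 6 ^ t ≤ 16 ^ t := Nat.pow_le_pow_left (by norm_num) t
            have : 1 ≤ 6 ^ t := Nat.one_le_pow _ _ (by norm_num)
            rw [pow_succ]; omega
          _ = _ := by rw [hL, ← pow_mul, ← pow_add]
      have a2 : (L:ℝ) * (L * (16 * L) ^ (6 ^ t)) ≤ N := by exact_mod_cast a1
      have a3 : 240000002 < δ ^ 2 * L := lt_of_lt_of_le hN0 (by gcongr)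
      have a4 : (0:ℝ) < L * (16 * L) ^ (6 ^ t) := by positivity
      calc _ < δ ^ 2 * L * ((L:ℝ) * (16 * L) ^ (6 ^ t)) := by gcongr
        _ = δ ^ 2 * (L * ((L:ℝ) * (16 * L) ^ (6 ^ t))) := by ring
        _ ≤ _ := by gcongr)
    have q1 : (1:ℝ) ≤ (1 + 1 / 240000000 : ℝ) ^ (t + 1) := one_le_pow₀ (by norm_num)
    have q2 := ih i (by omega) L B le_rfl hB1 hB2 (by
      refine le_trans ?_ hB3
      have : δ0 ≤ (1 + 1 / 240000000 : ℝ) ^ (t + 1) * δ := by nlinarith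
      gcongr)
    have q3 : (1 + 1 / 240000000 : ℝ) ^ (t + 1) * δ * (1 + 1 / 240000000) ^ i * L ≤ 2 * L := by
      refine le_trans ?_ q2
      have : (0:ℝ) ≤ (1 + 1 / 240000000) ^ i := by positivity
      have := mul_le_mul_of_nonneg_right hB3 this
      linarith
    have q4 := le_of_mul_le_mul_right q3 hLp
    rw [pow_add]
    nlinarith

lemma ar1 (m J : ℕ) : 2 * m + 28 + 4 * (J * (m + 2)) ≤ (30 + 8 * J) * (m + 1) := by
  nlinarith [Nat.zero_le (J * m)]

theorem r3_bound : ∃ C : ℕ, ∀ (m N : ℕ) (A : Finset ℕ), 2 ^ (2 ^ (C * (m + 1))) ≤ N → A ⊆ range N →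
    Free A → 2 ^ m * A.card < N := by
  obtain ⟨J, hJ⟩ := pow_unbounded_of_one_lt (2:ℝ) (by norm_num : (1:ℝ) < 1 + 1 / 240000000)
  refine ⟨30 + 8 * J, fun m N A hN h hf => ?_⟩
  by_contra hc
  push Not at hc
  have hc' : (N:ℝ) ≤ 2 ^ m * A.card := by exact_mod_cast hc
  have hNp : (0:ℝ) < N := by
    have : 0 < N := lt_of_lt_of_le (by positivity) hN
    exact_mod_cast this
  have h2 : (0:ℝ) < 2 ^ m := by positivity
  have b1 : 16 ≤ 2 ^ (2 * m + 28) := by
    calc 16 = 2 ^ 4 := by norm_num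
      _ ≤ _ := Nat.pow_le_pow_right (by norm_num) (by omega)
  have b2 : (240000002:ℝ) < (1 / 2 ^ m) ^ 2 * ((2 ^ (2 * m + 28) : ℕ) : ℝ) := by
    have e : ((2 ^ (2 * m + 28) : ℕ) : ℝ) = (2 ^ m) ^ 2 * 268435456 := by
      rw [Nat.cast_pow, pow_add, mul_comm 2 m, pow_mul]; norm_num
    rw [e]
    field_simp
    norm_num
  have b3 : (2 ^ (2 * m + 28)) ^ (16 ^ (J * (m + 2))) ≤ N := by
    refine le_trans ?_ hN
    rw [← pow_mul]
    apply Nat.pow_le_pow_right (by norm_num)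
    have a1 : 2 * m + 28 ≤ 2 ^ (2 * m + 28) := Nat.lt_two_pow_self.le
    have a2 : 16 ^ (J * (m + 2)) = 2 ^ (4 * (J * (m + 2))) := by rw [pow_mul 2 4]; rfl
    rw [a2]
    refine le_trans (Nat.mul_le_mul_right _ a1) ?_
    rw [← pow_add]
    apply Nat.pow_le_pow_right (by norm_num)
    exact ar1 m J
  clear hN
  have b4 : 1 / 2 ^ m * (N:ℝ) ≤ A.card := by
    rw [div_mul_eq_mul_div, div_le_iff₀ h2]; linarith
  have := iter (by positivity) b1 b2 (J * (m + 2)) N A b3 h hf b4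
  clear b1 b2 b3
  generalize (1 + 1 / 240000000 : ℝ) = u at hJ this
  have a1 : (2:ℝ) ^ (m + 2) ≤ u ^ (J * (m + 2)) := by
    rw [pow_mul]; gcongr
  have a2 : (0:ℝ) ≤ A.card := by positivity
  have a3 := mul_le_mul_of_nonneg_left a1 a2
  rw [pow_add] at a3
  nlinarith

/-- few colours force many monochromatic restricted sums -/
theorem sums_many : ∃ C : ℕ, ∀ (m N k : ℕ), 2 ^ (2 ^ (C * (m + 1))) ≤ N → 2 * k ≤ 2 ^ m →
    ∀ c : ℕ → Fin k, (N : ℝ) / 2 ≤ ((Set.ncard {s : ℕ | ∃ a b : ℕ, 1 ≤ a ∧ a ≤ N ∧ 1 ≤ b ∧ b ≤ N ∧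
      a ≠ b ∧ c a = c b ∧ a + b = s} : ℕ) : ℝ) := by
  obtain ⟨C, hC⟩ := r3_bound
  refine ⟨C, fun m N k hN hk c => ?_⟩
  classical
  set S := {s : ℕ | ∃ a b : ℕ, 1 ≤ a ∧ a ≤ N ∧ 1 ≤ b ∧ b ≤ N ∧ a ≠ b ∧ c a = c b ∧ a + b = s} with hS
  have hfin : S.Finite := (Set.finite_le_nat (2 * N)).subset (by
    rintro s ⟨a, b, _, _, _, _, _, _, rfl⟩
    simp only [Set.mem_ofPred_eq]; omega)
  have h1 : ((range N).filter fun x => 2 * (x + 1) ∈ S).card ≤ S.ncard := by
    rw [Set.ncard_eq_toFinset_card S hfin]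
    refine card_le_card_of_injOn (fun x => 2 * (x + 1)) (fun x hx => ?_) (fun x _ y _ h => ?_)
    · simpa using (mem_filter.mp hx).2
    · have h' : 2 * (x + 1) = 2 * (y + 1) := h
      omega
  have h2 : ∀ i : Fin k, 2 ^ m * (((range N).filter fun x => 2 * (x + 1) ∉ S).filter
      fun x => c (x + 1) = i).card ≤ N := by
    intro i
    refine (hC m N _ hN ((filter_subset _ _).trans (filter_subset _ _)) ?_).le
    intro a ha b hb x hx h
    simp only [mem_filter, mem_range] at ha hb hx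
    by_contra hne
    exact hx.1.2 ⟨a + 1, b + 1, by omega, by omega, by omega, by omega, by omega,
      ha.2.trans hb.2.symm, by omega⟩
  have h3 : ((range N).filter fun x => 2 * (x + 1) ∉ S).card =
      ∑ i : Fin k, (((range N).filter fun x => 2 * (x + 1) ∉ S).filter fun x => c (x + 1) = i).card :=
    card_eq_sum_card_fiberwise (fun _ _ => mem_univ _)
  have h4 := sum_le_sum fun i (_ : i ∈ (univ : Finset (Fin k))) => h2 i
  rw [← mul_sum, ← h3] at h4
  simp only [sum_const, card_univ, Fintype.card_fin, smul_eq_mul] at h4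
  have h5 := card_filter_add_card_filter_not (s := range N) (fun x => 2 * (x + 1) ∈ S)
  rw [card_range] at h5
  have h6 : 2 * ((range N).filter fun x => 2 * (x + 1) ∉ S).card ≤ N := by
    have hp : 0 < 2 ^ m := by positivity
    apply Nat.le_of_mul_le_mul_left _ hp
    nlinarith
  have h7 : N ≤ 2 * S.ncard := by omega
  have : (N:ℝ) ≤ 2 * S.ncard := by exact_mod_cast h7
  linarith

end Pool.Agent.H57.Roth
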