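import Mathlib
import Pool.Agent.H57.RothC

namespace Pool.Agent.H57.Roth

open Filter

lemma tendsto_logN : Tendsto (fun N : ℕ => Real.log (N : ℝ)) atTop atTop :=
  Real.tendsto_log_atTop.comp tendsto_natCast_atTop_atTop

theorem sums_many_log : ∃ ε : ℝ, 0 < ε ∧ ε ≤ 1 ∧ ∀ᶠ N : ℕ in atTop, ∀ k : ℕ, (k : ℝ) ≤ Real.log N ^ ε →
    ∀ c : ℕ → Fin k, (N : ℝ) / 2 ≤ ((Set.ncard {s : ℕ | ∃ a b : ℕ, 1 ≤ a ∧ a ≤ N ∧ 1 ≤ b ∧ b ≤ N ∧
      a ≠ b ∧ c a = c b ∧ a + b = s} : ℕ) : ℝ) := by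
  obtain ⟨C, hC⟩ := sums_many
  have hC0 : (0:ℝ) ≤ C := by positivity
  refine ⟨1 / (2 * C + 2), by positivity, by rw [div_le_one (by positivity)]; linarith, ?_⟩
  have h1 : ∀ᶠ N : ℕ in atTop, (8:ℝ) ^ C ≤ Real.log N ^ (1 / 2 : ℝ) :=
    ((tendsto_rpow_atTop (by norm_num)).comp tendsto_logN).eventually_ge_atTop _
  filter_upwards [h1, tendsto_logN.eventually_ge_atTop 1, eventually_ge_atTop 1] with N h1 h2 h3 k hk c
  have hk0 : k ≠ 0 := by rintro rfl; exact (c 0).elim0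
  have a1 := Nat.lt_pow_succ_log_self (by norm_num : 1 < 2) k
  have a2 := Nat.pow_log_le_self 2 hk0
  refine hC (Nat.log 2 k + 2) N k ?_ (by rw [pow_succ] at a1; rw [pow_add]; omega) c
  have a3 : 2 ^ (C * (Nat.log 2 k + 2 + 1)) ≤ (8 * k) ^ C := by
    rw [mul_comm C, pow_mul]
    apply Nat.pow_le_pow_left
    rw [add_assoc, pow_add]; omega
  generalize 2 ^ (C * (Nat.log 2 k + 2 + 1)) = X at a3 ⊢
  have a4 : (X:ℝ) ≤ Real.log N := by
    have b1 : (X:ℝ) ≤ (8 * k) ^ C := by exact_mod_cast a3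
    have b2 : (k:ℝ) ^ C ≤ Real.log N ^ (1 / 2 : ℝ) := by
      calc (k:ℝ) ^ C ≤ (Real.log N ^ (1 / (2 * C + 2) : ℝ)) ^ C := by gcongr
        _ = Real.log N ^ ((1 / (2 * C + 2) : ℝ) * C) := by
          rw [← Real.rpow_natCast, ← Real.rpow_mul (by linarith)]
        _ ≤ _ := by
          apply Real.rpow_le_rpow_of_exponent_le h2
          rw [div_mul_eq_mul_div, div_le_div_iff₀ (by positivity) (by norm_num)]; linarith
    calc (X:ℝ) ≤ 8 ^ C * k ^ C := by rw [← mul_pow]; exact b1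
      _ ≤ Real.log N ^ (1 / 2 : ℝ) * Real.log N ^ (1 / 2 : ℝ) := by gcongr
      _ = _ := by rw [← Real.rpow_add (by linarith)]; norm_num
  have a5 : ((2 ^ X : ℕ) : ℝ) ≤ N := by
    have hN : (0:ℝ) < N := by exact_mod_cast h3
    calc ((2 ^ X : ℕ) : ℝ) = 2 ^ X := by push_cast; rfl
      _ ≤ Real.exp 1 ^ X := by
        gcongr
        have := Real.add_one_le_exp 1
        linarith
      _ = Real.exp X := by rw [← Real.exp_nat_mul, mul_one]
      _ ≤ Real.exp (Real.log N) := by gcongr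
      _ = N := Real.exp_log hN
  exact_mod_cast a5

end Pool.Agent.H57.Roth
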