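import Pool.Agent.H57.STSDefs
import Pool.Agent.H57.DHJ5

/-! Trades in Steiner triple systems and the density argument. -/

namespace Pool.Agent.H57.STS

open Finset Filter Topology

variable {V : Type}

lemma IsSTS.unique [DecidableEq V] {B : Finset (Finset V)} (hB : IsSTS B) {T T' : Finset V}
    (hT : T ∈ B) (hT' : T' ∈ B) {x y : V} (hxy : x ≠ y) (hx : x ∈ T) (hy : y ∈ T) (hx' : x ∈ T')
    (hy' : y ∈ T') : T = T' :=
  (hB.2 {x, y} (card_pair hxy)).unique ⟨hT, insert_subset hx (singleton_subset_iff.2 hy)⟩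
    ⟨hT', insert_subset hx' (singleton_subset_iff.2 hy')⟩

lemma IsSTS.ex [DecidableEq V] {B : Finset (Finset V)} (hB : IsSTS B) {x y : V} (hxy : x ≠ y) :
    ∃ T ∈ B, x ∈ T ∧ y ∈ T := by
  obtain ⟨T, hT, hP⟩ := (hB.2 {x, y} (card_pair hxy)).exists
  exact ⟨T, hT, hP (by simp), hP (by simp)⟩

lemma isSTS_of [DecidableEq V] {B : Finset (Finset V)} (h3 : ∀ T ∈ B, T.card = 3)
    (hex : ∀ x y, x ≠ y → ∃ T ∈ B, x ∈ T ∧ y ∈ T)
    (hun : ∀ x y, x ≠ y → ∀ T ∈ B, ∀ T' ∈ B, x ∈ T → y ∈ T → x ∈ T' → y ∈ T' → T = T') :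
    IsSTS B := by
  refine ⟨h3, fun P hP => ?_⟩
  obtain ⟨x, y, hxy, rfl⟩ := card_eq_two.1 hP
  obtain ⟨T, hT, hx, hy⟩ := hex x y hxy
  refine ⟨T, ⟨hT, insert_subset hx (singleton_subset_iff.2 hy)⟩, fun T' hT' => ?_⟩
  exact hun x y hxy T' hT'.1 T hT (hT'.2 (by simp)) (hT'.2 (by simp)) hx hy

lemma IsSTS.isDefining_self {B : Finset (Finset V)} (hB : IsSTS B) : IsDefining B B := by
  classical
  refine ⟨Subset.rfl, fun B₀ h₀ hsub => Subset.antisymm (fun T hT => ?_) hsub⟩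
  obtain ⟨x, y, z, hxy, -, -, rfl⟩ := card_eq_three.1 (h₀.1 T hT)
  obtain ⟨T', hT', hx, hy⟩ := hB.ex hxy
  rw [h₀.unique hT (hsub hT') hxy (by simp) (by simp) hx hy]
  exact hT'

/-- ordered pairs covered by a family of blocks -/
lemma IsSTS.card_pairs [DecidableEq V] {B U : Finset (Finset V)} (hB : IsSTS B) (hU : U ⊆ B) :
    (U.biUnion offDiag).card = 6 * U.card := by
  rw [card_biUnion]
  · rw [sum_congr rfl (g := fun _ => 6), sum_const, smul_eq_mul, mul_comm]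
    intro T hT
    rw [offDiag_card, hB.1 T (hU hT)]
  · intro T hT T' hT' hne
    refine disjoint_left.2 fun q hq hq' => hne ?_
    rw [mem_offDiag] at hq hq'
    exact hB.unique (hU hT) (hU hT') hq.2.2 hq.1 hq.2.1 hq'.1 hq'.2.1

lemma IsSTS.card_blocks [Fintype V] {B : Finset (Finset V)} (hB : IsSTS B) :
    6 * B.card = Fintype.card V * Fintype.card V - Fintype.card V := by
  classical
  rw [← hB.card_pairs Subset.rfl, ← card_univ, ← offDiag_card]
  congr 1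
  ext q
  simp only [mem_biUnion, mem_offDiag, mem_univ, true_and]
  exact ⟨fun ⟨T, _, h⟩ => h.2.2, fun h => by
    obtain ⟨T, hT, hx, hy⟩ := hB.ex h
    exact ⟨T, hT, hx, hy, h⟩⟩

/-- abstract trade property -/
def IsTrade {I : Type} [DecidableEq I] (T₁ T₂ : Finset (Finset I)) : Prop :=
  (∀ T ∈ T₂, T.card = 3) ∧
  (∀ i j, i ≠ j → ((∃ T ∈ T₁, i ∈ T ∧ j ∈ T) ↔ ∃ T ∈ T₂, i ∈ T ∧ j ∈ T)) ∧
  (∀ i j, i ≠ j → ∀ T ∈ T₂, ∀ T' ∈ T₂, i ∈ T → j ∈ T → i ∈ T' → j ∈ T' → T = T') ∧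
  ∃ T ∈ T₁, T ∉ T₂

lemma not_defining_of_trade [DecidableEq V] {I : Type} [DecidableEq I] {T₁ T₂ : Finset (Finset I)}
    (hT : IsTrade T₁ T₂) {B S : Finset (Finset V)} (hB : IsSTS B) (hS : IsDefining B S)
    (e : I ↪ V) (h : ∀ T ∈ T₁, T.map e ∈ B \ S) : False := by
  obtain ⟨h3, hiff, hun, T₀, hT₀, hT₀'⟩ := hT
  have hmem : ∀ {T : Finset I} {x : V}, x ∈ T.map e → ∃ i ∈ T, e i = x := fun h => mem_map.1 h
  have hB' : IsSTS ((B \ T₁.image (Finset.map e)) ∪ T₂.image (Finset.map e)) := by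
    have cross : ∀ x y, x ≠ y → ∀ T ∈ B \ T₁.image (Finset.map e), ∀ T' ∈ T₂.image (Finset.map e),
        x ∈ T → y ∈ T → x ∈ T' → y ∈ T' → False := by
      intro x y hxy T hT T' hT' hx hy hx' hy'
      obtain ⟨T'', hT'', rfl⟩ := mem_image.1 hT'
      obtain ⟨i, hi, rfl⟩ := hmem hx'
      obtain ⟨j, hj, rfl⟩ := hmem hy'
      obtain ⟨U, hU, hiU, hjU⟩ := (hiff i j (fun h => hxy (by rw [h]))).2 ⟨T'', hT'', hi, hj⟩
      have := hB.unique (mem_sdiff.1 hT).1 (mem_sdiff.1 (h U hU)).1 hxy hx hy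
        (mem_map_of_mem e hiU) (mem_map_of_mem e hjU)
      exact (mem_sdiff.1 hT).2 (this ▸ mem_image_of_mem _ hU)
    refine isSTS_of (fun T hT => ?_) (fun x y hxy => ?_) (fun x y hxy T hT T' hT' hx hy hx' hy' => ?_)
    · rcases mem_union.1 hT with hT | hT
      · exact hB.1 T (mem_sdiff.1 hT).1
      · obtain ⟨T', hT', rfl⟩ := mem_image.1 hT
        rw [card_map, h3 T' hT']
    · obtain ⟨T, hT, hx, hy⟩ := hB.ex hxy
      by_cases hT1 : T ∈ T₁.image (Finset.map e)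
      · obtain ⟨T', hT', rfl⟩ := mem_image.1 hT1
        obtain ⟨i, hi, rfl⟩ := hmem hx
        obtain ⟨j, hj, rfl⟩ := hmem hy
        obtain ⟨U, hU, hiU, hjU⟩ := (hiff i j (fun h => hxy (by rw [h]))).1 ⟨T', hT', hi, hj⟩
        exact ⟨U.map e, mem_union_right _ (mem_image_of_mem _ hU), mem_map_of_mem e hiU,
          mem_map_of_mem e hjU⟩
      · exact ⟨T, mem_union_left _ (mem_sdiff.2 ⟨hT, hT1⟩), hx, hy⟩
    · rcases mem_union.1 hT with hT | hT <;> rcases mem_union.1 hT' with hT' | hT'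
      · exact hB.unique (mem_sdiff.1 hT).1 (mem_sdiff.1 hT').1 hxy hx hy hx' hy'
      · exact (cross x y hxy T hT T' hT' hx hy hx' hy').elim
      · exact (cross x y hxy T' hT' T hT hx' hy' hx hy).elim
      · obtain ⟨U, hU, rfl⟩ := mem_image.1 hT
        obtain ⟨U', hU', rfl⟩ := mem_image.1 hT'
        obtain ⟨i, hi, rfl⟩ := hmem hx
        obtain ⟨j, hj, rfl⟩ := hmem hy
        rw [hun i j (fun h => hxy (by rw [h])) U hU U' hU' hi hj ((mem_map' e).1 hx')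
          ((mem_map' e).1 hy')]
  have hEq := hS.2 _ hB' (fun T hT => mem_union_left _ (mem_sdiff.2 ⟨hS.1 hT, fun hT1 => by
    obtain ⟨T', hT', rfl⟩ := mem_image.1 hT1
    exact (mem_sdiff.1 (h T' hT')).2 hT⟩))
  have h0 : T₀.map e ∈ (B \ T₁.image (Finset.map e)) ∪ T₂.image (Finset.map e) := by
    rw [hEq]; exact (mem_sdiff.1 (h T₀ hT₀)).1
  rcases mem_union.1 h0 with h1 | h1
  · exact (mem_sdiff.1 h1).2 (mem_image_of_mem _ hT₀)
  · obtain ⟨T', hT', h2⟩ := mem_image.1 h1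
    exact hT₀' (map_injective e h2 ▸ hT')

/-- the cyclic Latin square of order `q`, shifted by `c` -/
def latin (q : ℕ) [NeZero q] (c : ZMod q) : Finset (Finset (Fin 3 × ZMod q)) :=
  univ.image fun st : ZMod q × ZMod q => {(0, st.1), (1, st.2), (2, c - st.1 - st.2)}

set_option synthInstance.maxSize 100000 in
lemma trade2 : IsTrade (latin 2 0) (latin 2 1) := by
  unfold IsTrade; decide +kernel

set_option synthInstance.maxSize 100000 in
lemma trade3 : IsTrade (latin 3 0) (latin 3 1) := by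
  unfold IsTrade; decide +kernel

/-- a dense set of pairs in `F_q^n` contains a full grid over a line -/
lemma grid (q : ℕ) [NeZero q] [Nontrivial (ZMod q)] {δ : ℝ} (hδ : 0 < δ) :
    ∃ N : ℕ, ∀ n, N ≤ n → ∀ A : Finset ((Fin n → ZMod q) × (Fin n → ZMod q)),
      δ * ((q:ℝ) ^ n * (q:ℝ) ^ n) ≤ A.card →
      ∃ x y p : Fin n → ZMod q, (∃ i, p i = 1) ∧ ∀ s t : ZMod q, (x + s • p, y + t • p) ∈ A := by
  obtain ⟨N, hN⟩ := DHJ.dhj_group (ZMod q × ZMod q) hδ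
  refine ⟨N, fun n hn A hA => ?_⟩
  obtain ⟨x, J, ⟨i, hi⟩, hx⟩ := hN ((Fin n → ZMod q) × (Fin n → ZMod q)) (Fin n) (by simpa using hn)
    (fun i st => (Pi.single i st.1, Pi.single i st.2)) A (by simpa [ZMod.card] using hA)
  refine ⟨x.1, x.2, ∑ j ∈ J, Pi.single j 1, ⟨i, ?_⟩, fun s t => ?_⟩
  · simp [Finset.sum_apply, Pi.single_apply, hi]
  · convert hx (s, t) using 1
    ext k <;> simp [Prod.fst_sum, Prod.snd_sum, Finset.sum_apply, Pi.single_apply]

/-- from a density statement to the limit -/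
lemma tendsto_of_sparse (W : ℕ → Type) [∀ n, Fintype (W n)]
    (B : ∀ n, Finset (Finset (W n))) (hB : ∀ n, IsSTS (B n)) (b : ℕ → ℝ)
    (hb : ∀ n, (B n).card = b n)
    (h : ∀ ε : ℝ, 0 < ε → ∀ᶠ n in atTop, 0 < b n ∧ ∀ S, IsDefining (B n) S →
      (B n).card - S.card ≤ ε * b n) :
    Tendsto (fun n => (minDefining (B n) : ℝ) / b n) atTop (𝓝 1) := by
  rw [Metric.tendsto_nhds]
  intro ε hε
  filter_upwards [h (ε / 2) (by positivity)] with n hn
  have hne : {m | ∃ S, IsDefining (B n) S ∧ S.card = m}.Nonempty :=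
    ⟨_, B n, (hB n).isDefining_self, rfl⟩
  obtain ⟨S, hS, hc⟩ := Nat.sInf_mem hne
  have h1 := hn.2 S hS
  have h2 : (S.card : ℝ) ≤ (B n).card := by exact_mod_cast card_le_card hS.1
  unfold minDefining
  rw [← hc, Real.dist_eq, abs_lt, hb] at *
  have hpos := hn.1
  constructor
  · have : 1 - ε / 2 ≤ (S.card : ℝ) / b n := by rw [le_div_iff₀ hpos]; linarith
    linarith
  · have : (S.card : ℝ) / b n ≤ 1 := by rw [div_le_one hpos]; exact h2
    linarith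

end Pool.Agent.H57.STS
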