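import Mathlib

/-! Steiner triple systems and their defining sets. -/

namespace Pool.Agent.H57.STS

/-- `B` is the block collection of a Steiner triple system on the point set `V`: blocks are
3-subsets and every 2-subset lies in exactly one block. -/
def IsSTS {V : Type} (B : Finset (Finset V)) : Prop :=
  (∀ T ∈ B, T.card = 3) ∧ ∀ P : Finset V, P.card = 2 → ∃! T, T ∈ B ∧ P ⊆ T

/-- `S` is a defining set of `B`: a set of blocks of `B` contained in no other Steiner triple
system on the same point set. -/
def IsDefining {V : Type} (B S : Finset (Finset V)) : Prop :=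
  S ⊆ B ∧ ∀ B₀ : Finset (Finset V), IsSTS B₀ → S ⊆ B₀ → B₀ = B

/-- the smallest size of a defining set of `B` -/
noncomputable def minDefining {V : Type} (B : Finset (Finset V)) : ℕ :=
  sInf {m | ∃ S, IsDefining B S ∧ S.card = m}

end Pool.Agent.H57.STS
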