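import Pool.Agent.H57.Aro1
import Pool.Agent.H82.LuzD
import Pool.Agent.H83.Entang

set_option autoImplicit false

namespace Pool.Agent.H57.SeqSep

open Set Cardinal Order Filter Topology Pool.Agent.H57.Lots Pool.Agent.H57.Coh Pool.Agent.H57.Aro

theorem W1_unc : ¬ (univ : Set W1).Countable := fun h =>
  let ⟨b, hb⟩ := bdd h; lt_irrefl b (hb trivial)

theorem hs {X : Type} [TopologicalSpace X]
    (h : ∀ (n : ℕ) (x : W1 → Fin n → X) (U : W1 → Set (Fin n → X)) (S : Set W1), ¬ S.Countable →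
      (∀ a ∈ S, IsOpen (U a) ∧ x a ∈ U a) → ∃ a ∈ S, ∃ b ∈ S, b < a ∧ x a ∈ U b)
    (Y : Set (X → ℝ)) (hY : ∀ f ∈ Y, Continuous f) : ∃ D ⊆ Y, D.Countable ∧ Y ⊆ closure D := by
  by_contra hn
  push Not at hn
  have h1 : ∀ (a : W1) (g : Iio a → Y), ∃ y : Y, y.1 ∉ closure (range fun b => (g b).1) :=
    fun a g => by
      haveI := (Iio_countable a).to_subtype
      obtain ⟨y, h1, h2⟩ := not_subset.1 (hn _ (range_subset_iff.2 fun b => (g b).2)
        (countable_range _))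
      exact ⟨⟨y, h1⟩, h2⟩
  choose F hF using h1
  let f : W1 → Y := (wellFounded_lt (α := W1)).fix fun x rc => F x fun i => rc i.1 i.2
  have hf : ∀ x, f x = F x fun i => f i.1 := fun x => WellFounded.fix_eq _ _ _
  have h2 : ∀ a, ∃ d : Σ n, Fin n → ℚ × ℚ, ∃ x : Fin d.1 → X,
      (∀ j, (f a).1 (x j) ∈ Ioo ((d.2 j).1 : ℝ) (d.2 j).2) ∧
        ∀ b < a, ¬ ∀ j, (f b).1 (x j) ∈ Ioo ((d.2 j).1 : ℝ) (d.2 j).2 := fun a => by
    obtain ⟨I, u, h2, h3⟩ := isOpen_pi_iff.1 isClosed_closure.isOpen_compl (f a).1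
      (hf a ▸ hF a fun i => f i.1)
    have h4 : ∀ x : I, ∃ p : ℚ × ℚ, (f a).1 x ∈ Ioo (p.1 : ℝ) p.2 ∧ Ioo (p.1 : ℝ) p.2 ⊆ u x :=
      fun x => by
        obtain ⟨_, h4, h5⟩ := Real.isTopologicalBasis_Ioo_rat.exists_subset_of_mem_open
          (h2 x x.2).2 (h2 x x.2).1
        simp only [mem_iUnion, mem_singleton_iff] at h4
        obtain ⟨p, q, -, rfl⟩ := h4
        exact ⟨(p, q), h5⟩
    choose p h4 h5 using h4
    exact ⟨⟨_, fun j => p (I.equivFin.symm j)⟩, fun j => I.equivFin.symm j, fun j => h4 _,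
      fun b hb h => h3 (fun x hx => h5 ⟨x, hx⟩ (by simpa using h (I.equivFin ⟨x, hx⟩)))
        (subset_closure ⟨⟨b, hb⟩, rfl⟩)⟩
  choose d hd using h2
  obtain ⟨e, he⟩ := pigeon W1_unc countable_univ d fun _ _ => trivial
  have h3 := fun a (ha : a ∈ {a | a ∈ Set.univ ∧ d a = e}) => ha.2 ▸ hd a
  haveI : Nonempty (Fin e.1 → X) := by
    obtain ⟨a, ha, -⟩ := unb he (Classical.arbitrary _)
    exact ⟨(h3 a ha).choose⟩
  choose! x h3 h4 using h3
  obtain ⟨a, h5, b, -, h6, h7⟩ := h _ x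
    (fun b => ⋂ j, {y | (f b).1 (y j) ∈ Ioo ((e.2 j).1 : ℝ) (e.2 j).2}) _ he fun a ha =>
      ⟨isOpen_iInter_of_finite fun j => isOpen_Ioo.preimage ((hY _ (f a).2).comp
        (continuous_apply j)), mem_iInter.2 (h3 a ha)⟩
  exact h4 a h5 b h6 (mem_iInter.1 h7)

theorem notseq (hCH : (𝔠 : Cardinal.{0}) = ℵ₁) : ∃ (X : Type) (_ : TopologicalSpace X),
    T35Space X ∧ (∀ S : Set (X → ℝ), (∀ f ∈ S, Continuous f) →
      ∃ D ⊆ S, D.Countable ∧ S ⊆ closure D) ∧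
    ∃ S : Set (X → ℝ), (∀ f ∈ S, Continuous f) ∧ ¬ ∃ D ⊆ S, D.Countable ∧
      ∀ f ∈ S, ∃ u : ℕ → X → ℝ, (∀ n, u n ∈ D) ∧ Tendsto u atTop (𝓝 f) := by
  classical
  obtain ⟨r, -, h2⟩ := H82.Luz.luzin hCH (id : W1 → W1) mk_W1.le Iio_countable (fun _ => univ)
    (fun _ => isOpen_univ) fun _ => univ_nonempty
  let φ : W1 → range r → ℝ := fun i p => if p.1 i = true then 1 else 0
  refine ⟨range r, inferInstance, inferInstance, hs fun n x U S hS hU => ?_, range φ,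
    forall_mem_range.2 fun i => ?_, fun ⟨D, h3, h4, h5⟩ => ?_⟩
  · haveI := H82.Luz.hl_pow (x := r) (fun G h3 h4 => (h2 G h3 h4).imp fun γ h5 k u h6 h7 z O h8 h9
      h10 => h5 k u h6 h7 z O h8 h9 fun j hj i _ => by rw [h10 j hj]) n
    obtain ⟨T, h3, h4⟩ := (HereditarilyLindelofSpace.isLindelof (x '' S)).elim_countable_subcover
      (fun a : S => U a) (fun a => (hU a a.2).1) (image_subset_iff.2 fun a ha =>
        mem_iUnion.2 ⟨⟨a, ha⟩, (hU a ha).2⟩)
    obtain ⟨c, hc⟩ := bdd (h3.image Subtype.val)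
    obtain ⟨a, h5, h6⟩ := unb hS c
    obtain ⟨b, h7, h8⟩ := mem_iUnion₂.1 (h4 ⟨a, h5, rfl⟩)
    exact ⟨a, h5, b, b.2, (hc ⟨b, h7, rfl⟩).trans h6, h8⟩
  · exact (continuous_of_discreteTopology (f := fun b : Bool => if b = true then (1 : ℝ) else 0)).comp
      ((continuous_apply i).comp continuous_subtype_val)
  have key : ∀ (j : ℕ → W1) g, Tendsto (fun k => φ (j k)) atTop (𝓝 g) → (range j).Finite := by
    intro j g hg
    by_contra hj
    choose γ hγ using fun p : ℕ × Bool => h2 (⋃ k ≥ p.1, {t | t 0 (j k) = p.2})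
      (isOpen_biUnion fun k _ => (isOpen_discrete {p.2}).preimage (f := fun t : ℕ → W1 → Bool =>
        t 0 (j k)) (by fun_prop)) (H82.Luz.dense_iff.2 fun a t => by
          obtain ⟨_, ⟨k, rfl⟩, hk⟩ := Set.Infinite.exists_notMem_finite hj
            (((finite_lt_nat p.1).image j).union (a.finite_toSet.image Prod.snd))
          refine ⟨fun n i => if i = j k then p.2 else t n i, mem_iUnion₂.2
            ⟨k, not_lt.1 fun h => hk (Or.inl ⟨k, h, rfl⟩), if_pos rfl⟩, fun q hq =>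
              if_neg fun h => hk (Or.inr ⟨q, hq, h⟩)⟩)
    obtain ⟨c, hc⟩ := bdd (countable_range γ)
    have h6 : ∀ b, ∃ᶠ k in atTop, r c (j k) = b := fun b => frequently_atTop.2 fun m => by
      obtain ⟨z, ⟨-, h6⟩, h7⟩ := hγ (m, b) 1 (fun _ => c) (fun a ha b hb _ =>
        (Nat.lt_one_iff.1 ha).trans (Nat.lt_one_iff.1 hb).symm) (fun _ _ => (hc ⟨_, rfl⟩).le) (fun _ => r c) univ isOpen_univ trivial
          fun _ _ _ _ => rfl
      obtain ⟨k, h8, h9⟩ := mem_iUnion₂.1 h6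
      exact ⟨k, h8, (congrFun (h7 0 one_pos) _).symm.trans h9⟩
    have h7 := tendsto_pi_nhds.1 hg ⟨r c, c, rfl⟩
    exact zero_ne_one ((tendsto_nhds_unique_of_frequently_eq h7 tendsto_const_nhds
      ((h6 false).mono fun k hk => by simp [φ, hk])).symm.trans
        (tendsto_nhds_unique_of_frequently_eq h7 tendsto_const_nhds
          ((h6 true).mono fun k hk => by simp [φ, hk])))
  have h6 : (φ ⁻¹' D).Countable := by
    rw [← biUnion_preimage_singleton]
    refine h4.biUnion fun g _ => Finite.countable ?_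
    by_contra h
    let e := Set.Infinite.natEmbedding _ h
    exact infinite_range_of_injective (Subtype.val_injective.comp e.injective)
      (key _ g (tendsto_const_nhds.congr fun k => (e k).2.symm))
  obtain ⟨i, hi⟩ := bdd h6
  obtain ⟨u, h7, h8⟩ := h5 _ ⟨i, rfl⟩
  choose j hj using fun k => h3 (h7 k)
  obtain rfl : (fun k => φ (j k)) = u := funext hj
  obtain ⟨_, ⟨k, rfl⟩, h9⟩ := ((key j _ h8).image φ).isClosed.mem_of_tendsto h8
    (.of_forall fun k => ⟨_, ⟨k, rfl⟩, rfl⟩)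
  exact lt_irrefl i (hi (show φ i ∈ D from h9 ▸ h7 k))

theorem incr (hCH : (𝔠 : Cardinal.{0}) = ℵ₁) : ∃ r : W1 → ℝ, ¬ (range r).Countable ∧
    ∀ (n : ℕ) (i : W1 → Fin n → W1) (S : Set W1), ¬ S.Countable →
      ∃ a ∈ S, ∃ b ∈ S, b < a ∧ ∀ j, r (i b j) ≤ r (i a j) := by
  classical
  obtain ⟨q, hq⟩ := exists_surjective_nat ℚ
  obtain ⟨r, hr⟩ := H83.Entang.entangled (X := ℝ) (T := Finset ℕ) (O := ℕ) (I := W1) ℵ₀ le_rfl
    mk_le_aleph0 mk_le_aleph0 (by simp [mk_real]) (fun a => by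
      rw [two_power_aleph0, hCH]
      exact (le_aleph0_iff_set_countable.2 (Iio_countable a)).trans_lt aleph0_lt_aleph_one)
    (by rw [two_power_aleph0, hCH, mk_W1]) (fun s hs => bdd (le_aleph0_iff_set_countable.1 hs))
    (fun n x => (Finset.range n).filter fun k => (q k : ℝ) < x) (fun m n x y h h' => by
      ext k
      have := Finset.ext_iff.1 h' k
      simp only [Finset.mem_filter, Finset.mem_range, and_congr_right_iff] at this ⊢
      exact fun hk => this (by omega))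
    (fun u a => if u < a then 1 else 0) (fun u a h => by
      rcases h.lt_or_gt with h | h <;> simp [h, h.not_gt]) (fun u a h => by
      rcases h.lt_or_gt with h | h <;> obtain ⟨p, h1, h2⟩ := exists_rat_btwn h <;>
        obtain ⟨k, rfl⟩ := hq p <;> refine ⟨k + 1, fun v hv => ?_⟩ <;>
        have := Finset.ext_iff.1 hv k <;>
        simp only [Finset.mem_filter, Finset.mem_range, Nat.lt_succ_self, true_and] at this
      · rw [if_pos h, if_pos ((not_lt.1 (mt this.1 h1.not_gt)).trans_lt h2)]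
      · rw [if_neg h.not_gt, if_neg (h1.trans (this.2 h2)).not_gt])
  refine ⟨r, fun h => ?_, fun n i S hS => ?_⟩
  · obtain ⟨v, hv⟩ := pigeon W1_unc h r fun a _ => ⟨a, rfl⟩
    obtain ⟨a, h1, h2⟩ := hr 1 {a | r (a 0) = v} (fun _ _ _ _ _ _ => by omega) fun c => by
      obtain ⟨a, h1, h2⟩ := unb hv c
      exact ⟨fun _ => a, h1.2, fun _ _ => h2⟩
    obtain ⟨b, h3, -, h4, -⟩ := h2 1
    simpa [show r (b 0) = v from h3, show r (a 0) = v from h1] using h4 0 one_pos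
  obtain ⟨J, ⟨T, h1, h2, h3⟩, hJ⟩ := exists_max_image {J : Finset (Fin n) | ∃ T ⊆ S,
    ¬ T.Countable ∧ ∀ j ∈ J, ∀ a ∈ T, ∀ b ∈ T, i a j = i b j} Finset.card (toFinite _)
    ⟨∅, S, subset_rfl, hS, by simp⟩
  have h4 : ∀ c, {a | ∃ j ∉ J, a ∈ T ∧ i a j ≤ c}.Countable := fun c => by
    simp only [setOf_exists, setOf_and]
    refine countable_iUnion fun j => ?_
    by_contra h
    obtain ⟨c', hc⟩ := exists_gt c
    obtain ⟨v, hv⟩ := pigeon h (Iio_countable c') (fun a => i a j) fun a ha => ha.2.2.trans_lt hc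
    obtain ⟨a, h5, -⟩ := unb hv c
    have := hJ (insert j J) ⟨_, fun a ha => h1 ha.1.2.1, hv, Finset.forall_mem_insert .. |>.2
      ⟨fun a ha b hb => ha.2.trans hb.2.symm, fun k hk a ha b hb => h3 k hk a ha.1.2.1 b hb.1.2.1⟩⟩
    rw [Finset.card_insert_of_notMem h5.1.1] at this
    omega
  have h5 : ∀ a, ∃ d : ℕ × ℕ × (Fin n → ℕ), ∃ s : ℕ → W1, (∀ k l, k < l → l < d.1 → s k < s l) ∧
      (∀ k < d.1, s k = a ∨ ∃ j ∉ J, s k = i a j) ∧ (d.2.1 < d.1 ∧ s d.2.1 = a) ∧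
        ∀ j ∉ J, d.2.2 j < d.1 ∧ s (d.2.2 j) = i a j := fun a => by
    let e := (insert a (Jᶜ.image (i a))).orderEmbOfFin rfl
    have he : ∀ b ∈ insert a (Jᶜ.image (i a)), ∃ k, e k = b := fun b hb =>
      (Finset.range_orderEmbOfFin _ rfl).symm.subset hb
    obtain ⟨k, hk⟩ := he a (by simp)
    haveI : Nonempty _ := ⟨k⟩
    choose! p hp using fun j (hj : j ∉ J) => he (i a j) (by
      simp only [Finset.mem_insert, Finset.mem_image, Finset.mem_compl]; exact Or.inr ⟨j, hj, rfl⟩)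
    refine ⟨(_, k, fun j => p j), fun k => if h : k < _ then e ⟨k, h⟩ else a, fun k l h h' => ?_,
      fun k h => ?_, ⟨k.2, (dif_pos k.2).trans hk⟩, fun j hj => ⟨(p j).2,
        (dif_pos (p j).2).trans (hp j hj)⟩⟩
    · change l < Finset.card _ at h'
      dsimp only
      rw [dif_pos h', dif_pos (h.trans h')]
      exact e.strictMono (a := ⟨k, h.trans h'⟩) (b := ⟨l, h'⟩) h
    · have := Finset.orderEmbOfFin_mem (insert a (Jᶜ.image (i a))) rfl ⟨k, h⟩
      simp only [Finset.mem_insert, Finset.mem_image, Finset.mem_compl] at this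
      exact this.imp (dif_pos h).trans fun ⟨j, hj, h'⟩ => ⟨j, hj, (dif_pos h).trans h'.symm⟩
  choose d hd using h5
  obtain ⟨e, he⟩ := pigeon h2 countable_univ d fun _ _ => trivial
  choose! s h5 h6 h7 h8 using fun a (ha : a ∈ {a | a ∈ T ∧ d a = e}) => ha.2 ▸ hd a
  obtain ⟨_, ⟨a, ha, rfl⟩, h9⟩ := hr e.1 (s '' {a | a ∈ T ∧ d a = e}) (forall_mem_image.2 h5)
    fun c => by
      obtain ⟨c', hc⟩ := bdd (h4 c)
      obtain ⟨a, h9, h10⟩ := unb he (max c c')
      refine ⟨_, ⟨a, h9, rfl⟩, fun k hk => ?_⟩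
      rcases h6 a h9 k hk with h | ⟨j, hj, h⟩ <;> rw [h]
      · exact lt_of_le_of_lt (le_max_left _ _) h10
      · exact not_le.1 fun h' => (hc ⟨j, hj, h9.1, h'⟩).not_gt ((le_max_right _ _).trans_lt h10)
  obtain ⟨_, ⟨b, hb, rfl⟩, h10, h11, -⟩ := h9 1
  refine ⟨a, h1 ha.1, b, h1 hb.1, ?_, fun j => ?_⟩
  · simpa [(h7 a ha).2, (h7 b hb).2] using h10 _ (h7 a ha).1 _ (h7 a ha).1
  by_cases hj : j ∈ J
  · rw [h3 j hj a ha.1 b hb.1]
  · exact le_of_lt (by simpa [(h8 a ha j hj).2, (h8 b hb j hj).2] using h11 _ (h8 a ha j hj).1)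

theorem notcosmic (hCH : (𝔠 : Cardinal.{0}) = ℵ₁) : ∃ (X : Type) (_ : TopologicalSpace X),
    T35Space X ∧ (∀ A : Set (X → ℝ), A ⊆ {f : X → ℝ | Continuous f} → ∃ D ⊆ A, D.Countable ∧
      ∀ f ∈ A, ∃ u : ℕ → X → ℝ, (∀ k, u k ∈ D) ∧ Tendsto u atTop (𝓝 f)) ∧
    ¬ ∃ N : Set (Set (X → ℝ)), N.Countable ∧ ∀ f : X → ℝ, Continuous f →
      ∀ U : Set (X → ℝ), IsOpen U → f ∈ U → ∃ n ∈ N, f ∈ n ∧ n ⊆ U := by
  classical
  obtain ⟨r, h1, h2⟩ := incr hCH
  let E : range r → ℝ → Bool := fun x t => decide (t ≤ x)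
  have hE : Function.Injective E := fun x y h => Subtype.ext (le_antisymm
    (by simpa [E] using congrFun h x) (by simpa [E] using congrFun h y))
  letI τ : TopologicalSpace (range r) := .induced E inferInstance
  have hE' : IsEmbedding E := ⟨⟨rfl⟩, hE⟩
  have hc : ∀ t, Continuous fun x => E x t := fun t => (continuous_apply t).comp hE'.continuous
  have h3 : ∀ (x : range r) (U : Set (range r)), U ∈ 𝓝 x →
      ∃ q : ℚ, x.1 < q ∧ ∀ y : range r, x.1 ≤ y → y.1 < q → y ∈ U := fun x U hU => by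
    rw [hE'.nhds_eq_comap] at hU
    obtain ⟨V, h3, h4⟩ := hU
    obtain ⟨F, hF⟩ : ∃ F : Finset ℝ, ∀ y : ℝ → Bool, (∀ i ∈ F, y i = E x i) → y ∈ V := by
      obtain ⟨W, h1, h2, h3⟩ := mem_nhds_iff.1 h3
      obtain ⟨F, u, h4, h5⟩ := isOpen_pi_iff.1 h2 _ h3
      exact ⟨F, fun y hy => h1 (h5 fun a ha => hy a ha ▸ (h4 a ha).2)⟩
    obtain ⟨q, h5, h6⟩ : ∃ q : ℚ, x.1 < q ∧ ∀ t ∈ F, x.1 < t → q < t := by
      obtain ⟨s, h5, h6⟩ := (((eventually_all_finset (l := 𝓝[>] x.1) F).2 fun t _ =>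
        show ∀ᶠ s in 𝓝[>] x.1, x.1 < t → s < t by
          by_cases h : x.1 < t
          exacts [nhdsWithin_le_nhds ((eventually_lt_nhds h).mono fun _ h _ => h),
            .of_forall fun _ h' => absurd h' h]).and self_mem_nhdsWithin).exists
      obtain ⟨q, h7, h8⟩ := exists_rat_btwn (show x.1 < s from h6)
      exact ⟨q, h7, fun t ht h => h8.trans (h5 t ht h)⟩
    refine ⟨q, h5, fun y h7 h8 => h4 (hF _ fun t ht => decide_eq_decide.2
      ⟨fun h => not_lt.1 fun h' => (h8.trans (h6 t ht h')).not_ge h, fun h => h.trans h7⟩)⟩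
  refine ⟨range r, τ, hE'.t35Space, fun A hA => ?_, fun ⟨N, h4, h5⟩ => ?_⟩
  · let P : (range r → ℝ) → ℚ × ℚ × ℚ × ℚ → Prop := fun f c =>
      ∀ y : range r, y.1 ∈ Ioo (c.1 : ℝ) c.2.1 → f y ∈ Ioo (c.2.2.1 : ℝ) c.2.2.2
    choose D h4 h5 h6 using fun c : Finset (ℚ × ℚ × ℚ × ℚ) => hs (fun n x U S hS hU => by
      have h4 : ∀ a ∈ S, ∃ q : Fin n → ℚ, (∀ j, (x a j).1 < q j) ∧
          ∀ y : Fin n → range r, (∀ j, (x a j).1 ≤ y j ∧ (y j).1 < q j) → y ∈ U a := fun a ha => by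
        obtain ⟨u, h4, h5⟩ := isOpen_pi_iff'.1 (hU a ha).1 _ (hU a ha).2
        choose q h6 h7 using fun j => h3 _ _ ((h4 j).1.mem_nhds (h4 j).2)
        exact ⟨q, h6, fun y hy => h5 fun j _ => h7 j _ (hy j).1 (hy j).2⟩
      choose! q h4 h5 using h4
      obtain ⟨p, hp⟩ := pigeon hS countable_univ q fun _ _ => trivial
      choose i hi using fun a j => (x a j).2
      obtain ⟨a, h6, b, h7, h8, h9⟩ := h2 n i _ hp
      exact ⟨a, h6.1, b, h7.1, h8, h5 b h7.1 _ fun j => ⟨hi a j ▸ hi b j ▸ h9 j,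
        h7.2 ▸ h6.2 ▸ h4 a h6.1 j⟩⟩) {g ∈ A | ∀ d ∈ c, P g d} fun g hg => hA hg.1
    refine ⟨⋃ c, D c, iUnion_subset fun c g hg => (h4 c hg).1, countable_iUnion h5, fun f hf => ?_⟩
    let B : ℕ → Set (range r) := fun k => {x | ¬ ∃ c, P f c ∧ x.1 ∈ Ioo (c.1 : ℝ) c.2.1 ∧
      (c.2.2.2 : ℝ) - c.2.2.1 < 1 / (k + 1)}
    have h7 : ∀ k, (B k).Countable := fun k => by
      have h7 : ∀ x : range r, ∃ q : ℚ, x.1 < q ∧ ∀ y : range r, x.1 < y → y.1 < q → y ∉ B k :=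
        fun x => by
          have hk : (0 : ℝ) < 1 / (k + 1) := Nat.one_div_pos_of_nat
          obtain ⟨a, a1, a2⟩ := exists_rat_btwn (show f x - 1 / (k + 1) / 2 < f x by linarith)
          obtain ⟨b, a3, a4⟩ := exists_rat_btwn (show f x < f x + 1 / (k + 1) / 2 by linarith)
          obtain ⟨q, a5, a6⟩ := h3 x _ ((hA hf).continuousAt (Ioo_mem_nhds a2 a3))
          refine ⟨q, a5, fun y a7 a8 h => ?_⟩
          obtain ⟨p, a9, a10⟩ := exists_rat_btwn a7
          exact h ⟨(p, q, a, b), fun z hz => a6 z (a9.trans hz.1).le hz.2, ⟨a10, a8⟩, by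
            dsimp only; linarith⟩
      choose q a1 a2 using h7
      refine countable_of_injective_of_countable_image (f := q) (fun x hx y hy h => ?_)
        (to_countable _)
      rcases lt_trichotomy x.1 y.1 with h' | h' | h'
      exacts [absurd hy (a2 x y h' (h ▸ a1 y)), Subtype.ext h', absurd hx (a2 y x h' (h ▸ a1 x))]
    obtain ⟨e, he⟩ := countable_iff_exists_injOn.1 (countable_iUnion h7)
    obtain ⟨g, hg⟩ := exists_surjective_nat (ℚ × ℚ × ℚ × ℚ)
    have h8 : ∀ k : ℕ, ∃ u ∈ D (((Finset.range k).image g).filter (P f)),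
        ∀ x ∈ ⋃ k, B k, e x < k → dist (u x) (f x) < 1 / (k + 1) := fun k => by
      obtain ⟨u, a1, a2⟩ := mem_closure_iff_nhds.1 (h6 (((Finset.range k).image g).filter (P f))
        ⟨hf, fun d hd => (Finset.mem_filter.1 hd).2⟩) _ ((eventually_all_finite
          (Finite.of_finite_image (s := {x ∈ ⋃ k, B k | e x < k}) ((finite_lt_nat k).subset
            (image_subset_iff.2 fun _ h => h.2)) (he.mono fun _ h => h.1))).2 fun x _ =>
            (continuous_apply x).continuousAt (Metric.ball_mem_nhds (f x)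
              (Nat.one_div_pos_of_nat (n := k))))
      exact ⟨u, a2, fun x h h' => a1 x ⟨h, h'⟩⟩
    choose u h8 h9 using h8
    refine ⟨u, fun k => mem_iUnion.2 ⟨_, h8 k⟩, tendsto_pi_nhds.2 fun x =>
      Metric.tendsto_nhds.2 fun ε hε => ?_⟩
    obtain ⟨m, hm⟩ := exists_nat_one_div_lt hε
    by_cases hx : x ∈ ⋃ k, B k
    · filter_upwards [eventually_gt_atTop (e x), eventually_ge_atTop m] with k a1 a2
      exact (h9 k x hx a1).trans ((Nat.one_div_le_one_div a2).trans_lt hm)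
    obtain ⟨c, a1, a2, a3⟩ := not_not.1 fun h => hx (mem_iUnion.2 ⟨m, h⟩)
    obtain ⟨l, rfl⟩ := hg c
    filter_upwards [eventually_gt_atTop l] with k hk
    have a4 := (h4 _ (h8 k)).2 _ (Finset.mem_filter.2
      ⟨Finset.mem_image_of_mem _ (Finset.mem_range.2 hk), a1⟩) x a2
    have a5 := a1 x a2
    exact abs_sub_lt_iff.2 ⟨by linarith [a4.2, a5.1], by linarith [a4.1, a5.2]⟩
  · choose n a1 a2 a3 using fun x : range r => h5 (fun y => (E y x).toNat)
      ((continuous_of_discreteTopology (f := fun b : Bool => (b.toNat : ℝ))).comp (hc x))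
      {g | 0 < g x} (isOpen_lt continuous_const (continuous_apply x)) (by simp [E])
    have a4 : ∀ x y : range r, (0 : ℝ) < (E y x).toNat → x.1 ≤ y := fun x y h =>
      not_lt.1 fun h' => by simp [E, h'.not_ge] at h
    refine h1 (countable_coe_iff.1 (countable_univ_iff.1 (countable_of_injective_of_countable_image
      (f := n) (fun x _ y _ h => Subtype.ext (le_antisymm ?_ ?_)) (h4.mono (image_subset_iff.2 fun x _ => a1 x)))))
    exacts [a4 _ _ (a3 y (h ▸ a2 x)), a4 _ _ (a3 x (h ▸ a2 y))]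

end Pool.Agent.H57.SeqSep
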