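import Pool.Agent.H57.SeqSep
import Pool.Agent.H57.PsiDisc

set_option autoImplicit false

namespace Pool.Agent.H57.SeqSep

open Set Cardinal Order Filter Topology Pool.Agent.H57.Lots Pool.Agent.H57.Coh Pool.Agent.H57.Aro

theorem notseq2 (hCH : (𝔠 : Cardinal.{0}) = ℵ₁) : ¬ (∀ (X : Type) [TopologicalSpace X] [T35Space X],
      (∀ S : Set {f : X → ℝ // Continuous f},
          ∃ c ⊆ S, c.Countable ∧ S ⊆ closure c) →
      ∃ D : Set {f : X → ℝ // Continuous f}, D.Countable ∧ seqClosure D = Set.univ) := by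
  classical
  intro H
  obtain ⟨j⟩ := (Cardinal.le_def (Finset W1 × Finset W1) W1).1
    ((Pr.mk_pr (Pr.mk_fs mk_W1.le) (Pr.mk_fs mk_W1.le)).trans mk_W1.ge)
  let E := Function.invFun j
  obtain ⟨r, h1, h2⟩ := H82.Luz.luzin hCH (id : W1 → W1) mk_W1.le Iio_countable
    (fun β => ⋂ i ∈ (E β).1, {z | z i = decide (i ∈ (E β).2)})
    (fun _ => isOpen_biInter_finset fun i _ => (isOpen_discrete {_}).preimage (continuous_apply i))
    fun β => ⟨fun i => decide (i ∈ (E β).2), by simp⟩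
  have den : ∀ (a : Finset W1) (p : W1 → Bool), ∃ z : range r, ∀ i ∈ a, z.1 i = p i := fun a p => by
    obtain ⟨β, hβ⟩ := Function.invFun_surjective j.injective (a, a.filter (p · = true))
    refine ⟨⟨_, β, rfl⟩, fun i hi => ?_⟩
    simpa [E, hβ, hi] using mem_iInter₂.1 (h1 β) i (by simpa [E, hβ])
  have hl := H82.Luz.hl_pow (x := r) (fun G h3 h4 => (h2 G h3 h4).imp fun γ h5 k u h6 h7 z O h8 h9
      h10 => h5 k u h6 h7 z O h8 h9 fun j hj i _ => by rw [h10 j hj])
  obtain ⟨D, h3, h4⟩ := H (range r) fun S => by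
    obtain ⟨D, d1, d2, d3⟩ := hs (X := range r) (fun n x U S hS hU => by
      haveI := hl n
      obtain ⟨T, h3, h4⟩ := (HereditarilyLindelofSpace.isLindelof (x '' S)).elim_countable_subcover
        (fun a : S => U a) (fun a => (hU a a.2).1) (image_subset_iff.2 fun a ha =>
          mem_iUnion.2 ⟨⟨a, ha⟩, (hU a ha).2⟩)
      obtain ⟨c, hc⟩ := bdd (h3.image Subtype.val)
      obtain ⟨a, h5, h6⟩ := unb hS c
      obtain ⟨b, h7, h8⟩ := mem_iUnion₂.1 (h4 ⟨a, h5, rfl⟩)
      exact ⟨a, h5, b, b.2, (hc ⟨b, h7, rfl⟩).trans h6, h8⟩) (Subtype.val '' S)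
      (by rintro _ ⟨f, -, rfl⟩; exact f.2)
    refine ⟨_, (preimage_mono d1).trans (preimage_image_eq _ Subtype.val_injective).subset,
      d2.preimage Subtype.val_injective, fun f hf => ?_⟩
    rw [IsEmbedding.subtypeVal.closure_eq_preimage_closure_image, image_preimage_eq_of_subset
      (d1.trans (image_subset_range _ _))]
    exact d3 ⟨f, hf, rfl⟩
  have loc : ∀ U : Set (range r), IsOpen U → ∃ β, ∀ z ∈ U, ∃ a : Finset W1, (∀ i ∈ a, i < β) ∧
      ∀ w : range r, (∀ i ∈ a, w.1 i = z.1 i) → w ∈ U := fun U hU => by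
    haveI := hl 1
    choose a ha using fun z : U => Pr.agree' (hU.mem_nhds z.2)
    obtain ⟨T, t1, t2⟩ := (HereditarilyLindelofSpace.isLindelof
      {t : Fin 1 → range r | t 0 ∈ U}).elim_countable_subcover
      (fun z : U => ⋂ i ∈ a z, {t | (t 0).1 i = z.1.1 i}) (fun z => isOpen_biInter_finset
        fun i _ => (isOpen_discrete {_}).preimage (f := fun t : Fin 1 → range r => (t 0).1 i)
          ((continuous_apply i).comp (continuous_subtype_val.comp (continuous_apply 0))))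
      fun t ht => mem_iUnion.2 ⟨⟨_, ht⟩, by simp⟩
    obtain ⟨β, hβ⟩ := bdd (t1.biUnion fun z _ => (a z).countable_toSet)
    refine ⟨β, fun z hz => ?_⟩
    obtain ⟨v, v1, v2⟩ := mem_iUnion₂.1 (t2 (show (fun _ => z) ∈ _ from hz))
    exact ⟨a v, fun i hi => hβ (mem_biUnion v1 hi), fun w hw => ha v w fun i hi =>
      (hw i hi).trans (mem_iInter₂.1 v2 i hi)⟩
  let φ : Bool → ℝ := fun b => if b = true then 1 else 0
  let O : Bool → Set ℝ := fun b => Metric.ball (φ b) (1 / 2)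
  choose b hb using fun (p : {f : range r → ℝ // Continuous f} × Bool) =>
    loc _ ((Metric.isOpen_ball (x := φ p.2) (ε := 1 / 2)).preimage p.1.2)
  obtain ⟨i, hi⟩ := bdd ((h3.prod countable_univ).image b)
  obtain ⟨u, u1, u2⟩ := h4.symm.subset (mem_univ ⟨fun z => φ (z.1 i),
    (continuous_of_discreteTopology (f := φ)).comp
      ((continuous_apply i).comp continuous_subtype_val)⟩)
  have h5 : ∀ z : range r, ∀ᶠ n in atTop, (u n).1 z ∈ O (z.1 i) := fun z =>
    (((continuous_apply z).comp continuous_subtype_val).continuousAt.tendsto.comp u2).eventually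
      (Metric.ball_mem_nhds _ one_half_pos)
  choose γ hγ using fun p : ℕ × Bool => h2 (⋃ n ≥ p.1, ⋃ a : Finset W1,
      {t | ∀ w : range r, (∀ k : a, w.1 k = t 0 k) → (u n).1 w ∈ O p.2})
    (isOpen_biUnion fun n _ => isOpen_iUnion fun a => (isOpen_discrete
      {v : a → Bool | ∀ w : range r, (∀ k : a, w.1 k = v k) → (u n).1 w ∈ O p.2}).preimage
        (f := fun (t : ℕ → W1 → Bool) (k : a) => t 0 k) (by fun_prop))
    (H82.Luz.dense_iff.2 fun c t => by
      obtain ⟨z, hz⟩ := den (insert i (c.image Prod.snd)) (Function.update (t 0) i p.2)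
      obtain ⟨n, n1, n2⟩ := ((h5 z).and (eventually_ge_atTop p.1)).exists
      rw [hz i (by simp), Function.update_self] at n1
      obtain ⟨a, a1, a2⟩ := hb (u n, p.2) z n1
      refine ⟨Function.update t 0 (Function.update z i (t 0 i)), mem_iUnion₂.2 ⟨n, n2,
        mem_iUnion.2 ⟨a, fun w hw => a2 w fun k hk => ?_⟩⟩, fun q hq => ?_⟩
      · simpa [((a1 k hk).trans (hi ⟨_, ⟨u1 n, trivial⟩, rfl⟩)).ne] using hw ⟨k, hk⟩
      · have := hz q.2 (Finset.mem_insert_of_mem (Finset.mem_image_of_mem _ hq))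
        rcases eq_or_ne q.1 0 with h | h
        · rcases eq_or_ne q.2 i with h' | h' <;> simp_all
        · simp [h])
  obtain ⟨c, hc⟩ := bdd (countable_range γ)
  obtain ⟨m, hm⟩ := eventually_atTop.1 (h5 ⟨_, c, rfl⟩)
  obtain ⟨z, ⟨-, h6⟩, h7⟩ := hγ (m, !r c i) 1 (fun _ => c) (fun a ha b hb _ =>
    (Nat.lt_one_iff.1 ha).trans (Nat.lt_one_iff.1 hb).symm) (fun _ _ => (hc ⟨_, rfl⟩).le)
    (fun _ => r c) univ isOpen_univ trivial fun _ _ _ _ => rfl
  obtain ⟨n, h8, h9⟩ := mem_iUnion₂.1 h6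
  obtain ⟨a, ha⟩ := mem_iUnion.1 h9
  have k1 := ha ⟨_, c, rfl⟩ fun k => (congrFun (h7 0 one_pos) k).symm
  have k2 := hm n h8
  simp only [O, φ, Metric.mem_ball, Real.dist_eq, abs_lt] at k1 k2
  cases h : r c i <;> simp [h] at k1 k2 <;> linarith

end Pool.Agent.H57.SeqSep
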