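import Pool.Agent.H57.Aro1
import Pool.Agent.H42.Spl2

set_option autoImplicit false

namespace Pool.Agent.H57.SplAdd

open Set Cardinal Order Filter Topology Pool.Agent.H57.Lots Pool.Agent.H57.Coh Pool.Agent.H57.Aro
open Pool.Agent.H42.Spl Pool.Agent.H42.PolD

/-- a countably closed order has a chain meeting `ℵ₁` dense sets -/
theorem gen {T I : Type} (le : T → T → Prop) (tr : ∀ a b c, le a b → le b c → le a c)
    (hb : ∀ (a : W1) (f : Iio a → T), (∀ b c, b < c → le (f b) (f c)) → ∃ t, ∀ b, le (f b) t)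
    (hI : #I ≤ ℵ₁) (D : I → T → Prop) (hD : ∀ i s, ∃ t, le s t ∧ D i t) :
    ∃ f : W1 → T, (∀ b c, b < c → le (f b) (f c)) ∧ ∀ i, ∃ a, D i (f a) := by
  classical
  obtain ⟨e⟩ : Nonempty (I ↪ W1) := by rwa [← Cardinal.le_def, mk_W1]
  have h1 : ∀ (a : W1) (f : Iio a → T), ∃ t, (∀ b c, b < c → le (f b) (f c)) →
      (∀ b, le (f b) t) ∧ ∀ i, e i = a → D i t := fun a f => by
    obtain ⟨a0, -, h0⟩ := exists_min (S := univ) univ_nonempty
    obtain ⟨t0, -⟩ := hb a0 (fun b => absurd b.2 (h0 b trivial).not_gt)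
      fun b => absurd b.2 (h0 b trivial).not_gt
    by_cases h : ∀ b c, b < c → le (f b) (f c)
    · obtain ⟨t, ht⟩ := hb a f h
      by_cases h' : ∃ i, e i = a
      · obtain ⟨i, rfl⟩ := h'
        obtain ⟨u, h2, h3⟩ := hD i t
        exact ⟨u, fun _ => ⟨fun b => tr _ _ _ (ht b) h2, fun j hj => e.injective hj ▸ h3⟩⟩
      · exact ⟨t, fun _ => ⟨ht, fun i hi => absurd ⟨i, hi⟩ h'⟩⟩
    · exact ⟨t0, fun h' => absurd h' h⟩
  choose F hF using h1
  let f : W1 → T := (wellFounded_lt (α := W1)).fix fun x rc => F x fun i => rc i.1 i.2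
  have hf : ∀ x, f x = F x fun i => f i.1 := fun x => WellFounded.fix_eq _ _ _
  have key : ∀ c b, b < c → le (f b) (f c) := fun c => by
    induction c using WellFoundedLT.induction with
    | ind c ih =>
    intro b hb
    rw [hf c]
    exact (hF c _ fun x y h => ih y.1 y.2 x.1 h).1 ⟨b, hb⟩
  exact ⟨f, fun b c => key c b, fun i => ⟨e i, by
    rw [hf]; exact (hF _ _ fun x y h => key y.1 x.1 h).2 i rfl⟩⟩

abbrev C : Type := ℕ → Bool

theorem cyl {O : Set C} (hO : IsOpen O) {x : C} (hx : x ∈ O) :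
    ∃ n, ∀ y : C, (∀ i < n, y i = x i) → y ∈ O := by
  obtain ⟨_, ⟨z, n, rfl⟩, h1, h2⟩ :=
    (PiNat.isTopologicalBasis_cylinders fun _ : ℕ => Bool).exists_subset_of_mem_open hx hO
  exact ⟨n, fun y hy => h2 fun i hi => (hy i hi).trans (h1 i hi)⟩

def Box (A s : C) (n : ℕ) : Set C := {x | (∀ i < n, x i = s i) ∧ ∀ i, n ≤ i → x i = true → A i = true}

def Good (O : Set C) (A : C) : Prop := ∀ s n, (O ∩ Box A s n).Nonempty

theorem baire {𝒪 : Set (Set C)} (hc : 𝒪.Countable) (hne : 𝒪.Nonempty) (ho : ∀ O ∈ 𝒪, IsOpen O)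
    {A : C} (h : ∀ O ∈ 𝒪, Good O A) (s : C) (n : ℕ) : ∃ x ∈ Box A s n, ∀ O ∈ 𝒪, x ∈ O := by
  obtain ⟨O, rfl⟩ := hc.exists_eq_range hne
  have h1 : ∀ k (p : C × ℕ), ∃ q : C × ℕ, q.1 ∈ Box A p.1 p.2 ∧ p.2 < q.2 ∧
      ∀ y : C, (∀ i < q.2, y i = q.1 i) → y ∈ O k := fun k p => by
    obtain ⟨x, h1, h2⟩ := h _ ⟨k, rfl⟩ p.1 p.2
    obtain ⟨m, hm⟩ := cyl (ho _ ⟨k, rfl⟩) h1
    exact ⟨(x, max m (p.2 + 1)), h2, by simp, fun y hy => hm y fun i hi => hy i (by simp [hi])⟩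
  choose F h2 h3 h4 using h1
  let p : ℕ → C × ℕ := fun k => Nat.rec (s, n) F k
  have hp : ∀ k, p (k + 1) = F k (p k) := fun k => rfl
  have hm : StrictMono fun k => (p k).2 := strictMono_nat_of_lt_succ fun k => h3 k _
  have h5 : ∀ k l, k ≤ l → ∀ i < (p k).2, (p l).1 i = (p k).1 i := fun k l hl => by
    induction l, hl using Nat.le_induction with
    | base => exact fun _ _ => rfl
    | succ l hl ih => exact fun i hi => ((h2 l _).1 i (hi.trans_le (hm.monotone hl))).trans (ih i hi)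
  have h6 : ∀ k, ∀ i < (p k).2, (p (i + 1)).1 i = (p k).1 i := fun k i hi =>
    (h5 _ _ (le_max_left (i + 1) k) i (hm.le_apply (x := i + 1))).symm.trans
      (h5 _ _ (le_max_right (i + 1) k) i hi)
  refine ⟨fun i => (p (i + 1)).1 i, ⟨h6 0, fun i hi hx => ?_⟩, ?_⟩
  · have hex : ∃ k, i < (p k).2 := ⟨i + 1, hm.le_apply (x := i + 1)⟩
    obtain ⟨k, hk⟩ := Nat.exists_eq_succ_of_ne_zero (n := Nat.find hex) fun h0 =>
      hi.not_gt (show i < (p 0).2 from h0 ▸ Nat.find_spec hex)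
    have h7 := Nat.find_spec hex
    rw [hk] at h7
    exact (h2 k (p k)).2 i (not_lt.1 (Nat.find_min hex (by omega))) ((h6 (k + 1) i h7).symm.trans hx)
  · rintro _ ⟨k, rfl⟩
    exact h4 k _ _ (h6 (k + 1))

theorem open_meets {O : Set C} (hO : IsOpen O) (s : C) (n : ℕ) :
    IsOpen {A | (O ∩ Box A s n).Nonempty} := by
  refine isOpen_iff_mem_nhds.2 fun A ⟨x, h1, h2⟩ => ?_
  obtain ⟨m, hm⟩ := cyl hO h1
  refine mem_of_superset ((PiNat.isOpen_cylinder _ A (max m n)).mem_nhds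
    (PiNat.self_mem_cylinder _ _)) fun B hB => ⟨fun i => if i < max m n then x i else false,
      hm _ fun i hi => if_pos (by omega), fun i hi => (if_pos (by omega)).trans (h2.1 i hi),
      fun i hi hx => ?_⟩
  by_cases h : i < max m n
  · exact (hB i h).trans (h2.2 i hi ((if_pos h).symm.trans hx))
  · simp [h] at hx

structure Side where
  P : Set C
  O : Set (Set C)
  cP : P.Countable
  cO : O.Countable
  oO : ∀ U ∈ O, IsOpen U
  base : ∀ m, {x : C | ∃ i, m ≤ i ∧ x i = true} ∈ O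
  inf : ∀ x ∈ P, ∀ m, ∃ i, m ≤ i ∧ x i = true

def Side.le (s t : Side) : Prop :=
  s.P ⊆ t.P ∧ s.O ⊆ t.O ∧ ∀ x ∈ t.P, x ∈ s.P ∨ ∀ U ∈ s.O, x ∈ U

theorem Side.le_refl (s : Side) : s.le s := ⟨subset_rfl, subset_rfl, fun _ h => Or.inl h⟩

theorem Side.le.trans {s t u : Side} (h : s.le t) (h' : t.le u) : s.le u :=
  ⟨h.1.trans h'.1, h.2.1.trans h'.2.1, fun x hx =>
    (h'.2.2 x hx).elim (h.2.2 x) fun h1 => Or.inr fun U hU => h1 U (h.2.1 hU)⟩

def Compat (L R : Side) : Prop :=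
  ∀ A : C, ∀ U ∈ L.O, ∀ V ∈ R.O, Good U A ∨ Good V fun i => !A i

theorem Compat.symm {L R : Side} (h : Compat L R) : Compat R L := fun A U hU V hV => by
  simpa only [Bool.not_not] using (h (fun i => !A i) V hV U hU).symm

theorem Side.add (L : Side) {A : C} (h : ∀ U ∈ L.O, Good U A) (s : C) (n : ℕ) :
    ∃ L' : Side, L.le L' ∧ L'.O = L.O ∧ ∃ x ∈ L'.P, x ∈ Box A s n := by
  obtain ⟨x, h1, h2⟩ := baire L.cO ⟨_, L.base 0⟩ L.oO h s n
  refine ⟨⟨insert x L.P, L.O, L.cP.insert x, L.cO, L.oO, L.base, ?_⟩,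
    ⟨subset_insert _ _, subset_rfl, ?_⟩, rfl, x, mem_insert _ _, h1⟩
  · rintro y (rfl | hy)
    exacts [fun m => h2 _ (L.base m), L.inf y hy]
  · rintro y (rfl | hy)
    exacts [Or.inr h2, Or.inl hy]

def Tail (W : ℕ → Set C) (S : Set ℕ) (m : ℕ) : Set C := {x | ∃ k ∈ S, m ≤ k ∧ x ∈ W k}

def Done (W : ℕ → Set C) (L : Side) : Prop :=
  (∃ x ∈ L.P, {k | x ∈ W k}.Finite) ∨ ∃ S, ∀ m, (∀ x ∈ L.P, x ∈ Tail W S m ∧ x ∈ Tail W Sᶜ m) ∧
    Tail W S m ∈ L.O ∧ Tail W Sᶜ m ∈ L.O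

theorem tail_open {W : ℕ → Set C} (hW : ∀ k, IsOpen (W k)) (S : Set ℕ) (m : ℕ) :
    IsOpen (Tail W S m) := by
  have : Tail W S m = ⋃ k ∈ S ∩ Ici m, W k := by ext x; simp [Tail, and_assoc]
  exact this ▸ isOpen_biUnion fun k _ => hW k

theorem step {L R : Side} (h : Compat L R) {W : ℕ → Set C} (hW : ∀ k, IsOpen (W k)) :
    ∃ L', L.le L' ∧ Compat L' R ∧ Done W L' := by
  classical
  by_cases c0 : ∃ x ∈ L.P, {k | x ∈ W k}.Finite
  · exact ⟨L, L.le_refl, h, Or.inl c0⟩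
  by_cases c1 : ∃ A m, (∀ U ∈ L.O, Good U A) ∧ ¬ Good (Tail W univ m) A
  · obtain ⟨A, m, h1, h2⟩ := c1
    simp only [Good, not_forall] at h2
    obtain ⟨s, n, h2⟩ := h2
    obtain ⟨L', h3, h4, x, h5, h6⟩ := L.add h1 s n
    exact ⟨L', h3, fun A U hU => h A U (h4 ▸ hU), Or.inl ⟨x, h5, (finite_lt_nat m).subset
      fun k hk => not_le.1 fun h7 => h2 ⟨x, ⟨k, trivial, h7, hk⟩, h6⟩⟩⟩
  push Not at c0 c1
  let K : R.O × Finset ℕ × ℕ → Set C := fun i =>
    {A | ¬ (i.1.1 ∩ Box (fun j => !A j) (fun j => decide (j ∈ i.2.1)) i.2.2).Nonempty}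
  have hK : ∀ i, IsCompact (K i) := fun i => IsClosed.isCompact (isOpen_compl_iff.1 (by
    have := (open_meets (R.oO _ i.1.2) (fun j => decide (j ∈ i.2.1)) i.2.2).preimage
      (f := fun (A : C) j => !A j) (continuous_pi fun j =>
        (continuous_of_discreteTopology (f := fun b : Bool => !b)).comp (continuous_apply j))
    convert this using 1
    ext A; simp [K]))
  have h1 : ∀ (i : (R.O × Finset ℕ × ℕ) × Finset ℕ × ℕ) m, ∃ M, ∀ A ∈ K i.1,
      (Tail W (Iio M) m ∩ Box A (fun j => decide (j ∈ i.2.1)) i.2.2).Nonempty := fun i m => by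
    obtain ⟨M, hM⟩ := (hK i.1).elim_directed_cover
      (fun M => {A | (Tail W (Iio M) m ∩ Box A (fun j => decide (j ∈ i.2.1)) i.2.2).Nonempty})
      (fun M => open_meets (tail_open hW _ _) _ _) (fun A hA => by
        obtain ⟨x, ⟨k, -, h2, h3⟩, h4⟩ := c1 A m (fun U hU => (h A U hU _ i.1.1.2).resolve_right
          fun h => hA (h _ _)) (fun j => decide (j ∈ i.2.1)) i.2.2
        exact mem_iUnion.2 ⟨k + 1, x, ⟨k, Nat.lt_succ_self k, h2, h3⟩, h4⟩)
      (Monotone.directed_le fun a b hab A ⟨x, ⟨k, h2, h3⟩, h4⟩ =>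
        ⟨x, ⟨k, lt_of_lt_of_le h2 hab, h3⟩, h4⟩)
    exact ⟨M, hM⟩
  choose f hf using h1
  have h2 : ∀ (x : L.P) m, ∃ M, x.1 ∈ Tail W (Iio M) m := fun x m => by
    obtain ⟨k, h2, h3⟩ := (c0 x x.2).exists_gt m
    exact ⟨k + 1, k, Nat.lt_succ_self k, h3.le, h2⟩
  choose g hg using h2
  haveI := L.cP.to_subtype
  haveI := R.cO.to_subtype
  obtain ⟨c, hc⟩ := Pool.Agent.H42.PolO.ex_split'
    (ι := (((R.O × Finset ℕ × ℕ) × Finset ℕ × ℕ) ⊕ L.P) × ℕ)
    (mk_le_aleph0.trans_lt aleph0_lt_d) (mk_le_aleph0.trans_lt Pool.Agent.H42.PolO.aleph0_lt_u)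
    fun i n => Sum.elim f g i.1 (max n i.2)
  have h3 : ∀ b n m M, (∀ k, n ≤ k → k ≤ M → c k = b) →
      Tail W (Iio M) (max n m) ⊆ Tail W {k | c k = b} m := fun b n m M h x ⟨k, h1, h2, h3⟩ =>
    ⟨k, h k (le_of_max_le_left h2) (le_of_lt h1), le_of_max_le_right h2, h3⟩
  have e : {k | c k = true}ᶜ = {k | c k = false} := by ext k; simp
  have fs : ∀ (s : C) n (A : C), Box A s n =
      Box A (fun j => decide (j ∈ (Finset.range n).filter fun j => s j = true)) n := fun s n A => by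
    ext x
    exact and_congr_left' (forall₂_congr fun i hi => by simp [hi])
  refine ⟨⟨L.P, L.O ∪ range fun i : Bool × ℕ => Tail W {k | c k = i.1} i.2, L.cP,
    L.cO.union (countable_range _), ?_, fun m => Or.inl (L.base m), L.inf⟩,
    ⟨subset_rfl, subset_union_left, fun _ h => Or.inl h⟩, ?_, Or.inr ⟨{k | c k = true}, fun m =>
      ⟨fun x hx => ?_, Or.inr ⟨(true, m), rfl⟩, Or.inr ⟨(false, m), by rw [e]⟩⟩⟩⟩
  · rintro _ (hU | ⟨i, rfl⟩)
    exacts [L.oO _ hU, tail_open hW _ _]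
  · rintro A _ (hU | ⟨⟨b, m⟩, rfl⟩) V hV
    · exact h A _ hU V hV
    refine or_iff_not_imp_right.2 fun hn s n => ?_
    simp only [Good, not_forall] at hn
    obtain ⟨s', n', hn⟩ := hn
    rw [fs] at hn
    obtain ⟨k, -, hk⟩ := hc (Sum.inl ((⟨V, hV⟩, _, n'), _, n), m) b
    rw [fs]
    exact (hf ((⟨V, hV⟩, _, n'), _, n) _ A hn).mono (inter_subset_inter_left _ (h3 b k m _ hk))
  · have : ∀ b, x ∈ Tail W {k | c k = b} m := fun b => by
      obtain ⟨k, -, hk⟩ := hc (Sum.inr ⟨x, hx⟩, m) b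
      exact h3 b k m _ hk (hg ⟨x, hx⟩ _)
    exact ⟨this true, e ▸ this false⟩

theorem base_open (m : ℕ) : IsOpen {x : C | ∃ i, m ≤ i ∧ x i = true} := by
  have : {x : C | ∃ i, m ≤ i ∧ x i = true} = ⋃ i ∈ Ici m, (fun x : C => x i) ⁻¹' {true} := by
    ext x; simp
  exact this ▸ isOpen_biUnion fun i _ => (isOpen_discrete _).preimage (continuous_apply i)

def sup {ι : Type} [Countable ι] (f : ι → Side) : Side where
  P := ⋃ i, (f i).P
  O := (range fun m => {x : C | ∃ i, m ≤ i ∧ x i = true}) ∪ ⋃ i, (f i).O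
  cP := countable_iUnion fun i => (f i).cP
  cO := (countable_range _).union (countable_iUnion fun i => (f i).cO)
  oO := by
    rintro _ (⟨m, rfl⟩ | hU)
    · exact base_open m
    · obtain ⟨i, hi⟩ := mem_iUnion.1 hU
      exact (f i).oO _ hi
  base m := Or.inl ⟨m, rfl⟩
  inf x hx := by
    obtain ⟨i, hi⟩ := mem_iUnion.1 hx
    exact (f i).inf x hi

theorem le_sup {ι : Type} [Countable ι] [LinearOrder ι] (f : ι → Side)
    (hf : ∀ b c, b < c → (f b).le (f c)) (b : ι) : (f b).le (sup f) := by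
  refine ⟨subset_iUnion (fun i => (f i).P) b,
    (subset_iUnion (fun i => (f i).O) b).trans subset_union_right, fun x hx => ?_⟩
  obtain ⟨c, hc⟩ := mem_iUnion.1 hx
  rcases lt_trichotomy b c with h | rfl | h
  exacts [(hf b c h).2.2 x hc, Or.inl hc, Or.inl ((hf c b h).1 hc)]

theorem good_base {A : C} (h : ∀ m, ∃ i, m ≤ i ∧ A i = true) (m : ℕ) :
    Good {x : C | ∃ i, m ≤ i ∧ x i = true} A := fun s n => by
  obtain ⟨i, h1, h2⟩ := h (max m n)
  refine ⟨fun j => if j < n then s j else A j, ⟨i, by omega, ?_⟩, fun j hj => if_pos hj,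
    fun j hj hx => (if_neg hj.not_gt).symm.trans hx⟩
  exact (if_neg (by omega)).trans h2

theorem main (hCH : (𝔠 : Cardinal.{0}) = ℵ₁) : ∃ X Y : Set C,
    (∀ Z, Z = X ∨ Z = Y → ∀ W : ℕ → Set C, (∀ k, IsOpen (W k)) →
      (∀ x ∈ Z, {k | x ∈ W k}.Infinite) →
        ∃ S, ∀ x ∈ Z, ({k | x ∈ W k} ∩ S).Infinite ∧ ({k | x ∈ W k} \ S).Infinite) ∧
    (∀ x ∈ X ∪ Y, {i | x i = true}.Infinite) ∧
    ∀ A : C, ∃ x ∈ X ∪ Y, (∀ i, x i = true → A i = true) ∨ ∀ i, x i = true → A i = false := by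
  have hO : #{U : Set C // IsOpen U} ≤ ℵ₁ := by
    haveI := (TopologicalSpace.countable_countableBasis C).to_subtype
    refine (mk_le_of_injective (f := fun U : {U : Set C // IsOpen U} =>
      {s : TopologicalSpace.countableBasis C | s.1 ⊆ U.1}) fun U V h => Subtype.ext ?_).trans ?_
    · rw [(TopologicalSpace.isBasis_countableBasis C).open_eq_sUnion' U.2,
        (TopologicalSpace.isBasis_countableBasis C).open_eq_sUnion' V.2]
      congr 1
      ext s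
      exact and_congr_right fun hs => Set.ext_iff.1 h ⟨s, hs⟩
    · rw [mk_set, ← hCH, ← two_power_aleph0]
      exact power_le_power_left two_ne_zero mk_le_aleph0
  obtain ⟨f, h1, h2⟩ := gen (T := {p : Side × Side // Compat p.1 p.2})
    (I := (Bool × (ℕ → {U : Set C // IsOpen U})) ⊕ C)
    (fun p q => p.1.1.le q.1.1 ∧ p.1.2.le q.1.2) (fun _ _ _ h h' => ⟨h.1.trans h'.1, h.2.trans h'.2⟩)
    (fun a f hf => by
      haveI := (Iio_countable a).to_subtype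
      refine ⟨⟨(sup fun b => (f b).1.1, sup fun b => (f b).1.2), fun A U hU V hV => ?_⟩, fun b =>
        ⟨le_sup _ (fun b c h => (hf b c h).1) b, le_sup _ (fun b c h => (hf b c h).2) b⟩⟩
      rcases hU with ⟨m, rfl⟩ | hU <;> rcases hV with ⟨m', rfl⟩ | hV
      · by_cases h : ∀ m, ∃ i, m ≤ i ∧ A i = true
        · exact Or.inl (good_base h m)
        · push Not at h
          obtain ⟨k, hk⟩ := h
          exact Or.inr (good_base (fun l => ⟨max k l, by omega, by simpa using hk _ (by omega)⟩) m')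
      · obtain ⟨c, hc⟩ := mem_iUnion.1 hV
        exact (f c).2 A _ ((f c).1.1.base m) V hc
      · obtain ⟨c, hc⟩ := mem_iUnion.1 hU
        exact (f c).2 A _ hc _ ((f c).1.2.base m')
      · obtain ⟨b, hb⟩ := mem_iUnion.1 hU
        obtain ⟨c, hc⟩ := mem_iUnion.1 hV
        rcases lt_trichotomy b c with h | rfl | h
        exacts [(f c).2 A _ ((hf b c h).1.2.1 hb) V hc, (f b).2 A _ hb V hc,
          (f b).2 A _ hb V ((hf c b h).2.2.1 hc)])
    (by
      have e1 : #(ℕ → {U : Set C // IsOpen U}) ≤ ℵ₁ := by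
        rw [← power_def, mk_nat]
        exact (power_le_power_right hO).trans (by rw [← hCH, continuum_power_aleph0])
      have e2 : #C = ℵ₁ := by rw [← hCH]; simp
      rw [mk_sum, mk_prod, lift_id, lift_id, lift_id, lift_id, e2, mk_bool]
      refine (add_le_add (mul_le_mul_right e1 _) le_rfl).trans ?_
      rw [two_mul, add_eq_self aleph0_lt_aleph_one.le, add_eq_self aleph0_lt_aleph_one.le])
    (fun i p => Sum.elim (fun j => Done (fun k => (j.2 k).1) (cond j.1 p.1.1 p.1.2))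
      (fun A => ∃ x ∈ p.1.1.P ∪ p.1.2.P,
        (∀ i, x i = true → A i = true) ∨ ∀ i, x i = true → A i = false) i) (by
      rintro (⟨_ | _, W⟩ | A) ⟨⟨L, R⟩, h⟩
      · obtain ⟨R', h1, h2, h3⟩ := step h.symm fun k => (W k).2
        exact ⟨⟨(L, R'), h2.symm⟩, ⟨L.le_refl, h1⟩, h3⟩
      · obtain ⟨L', h1, h2, h3⟩ := step h fun k => (W k).2
        exact ⟨⟨(L', R), h2⟩, ⟨h1, R.le_refl⟩, h3⟩
      by_cases c : ∀ U ∈ L.O, Good U A
      · obtain ⟨L', h1, h2, x, h3, h4⟩ := L.add c A 0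
        exact ⟨⟨(L', R), fun A U hU => h A U (h2 ▸ hU)⟩, ⟨h1, R.le_refl⟩, x, Or.inl h3,
          Or.inl fun i => h4.2 i i.zero_le⟩
      · push Not at c
        obtain ⟨U, hU, c⟩ := c
        obtain ⟨R', h1, h2, x, h3, h4⟩ := R.add (fun V hV => (h A U hU V hV).resolve_left c) A 0
        exact ⟨⟨(L, R'), fun A U hU V hV => h A U hU V (h2 ▸ hV)⟩, ⟨L.le_refl, h1⟩, x, Or.inr h3,
          Or.inr fun i hi => by simpa using h4.2 i i.zero_le hi⟩)
  have key : ∀ (b : Bool) (W : ℕ → Set C), (∀ k, IsOpen (W k)) →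
      (∀ x ∈ ⋃ a, (cond b (f a).1.1 (f a).1.2).P, {k | x ∈ W k}.Infinite) →
        ∃ S, ∀ x ∈ ⋃ a, (cond b (f a).1.1 (f a).1.2).P,
          ({k | x ∈ W k} ∩ S).Infinite ∧ ({k | x ∈ W k} \ S).Infinite := by
    intro b W hW hW'
    obtain ⟨a, ⟨x, h3, h4⟩ | ⟨S, hS⟩⟩ := h2 (Sum.inl (b, fun k => ⟨W k, hW k⟩))
    · exact absurd h4 (hW' x (mem_iUnion.2 ⟨a, h3⟩))
    refine ⟨S, fun x hx => ?_⟩
    obtain ⟨c, hc⟩ := mem_iUnion.1 hx
    have hle : ∀ a c, a < c → (cond b (f a).1.1 (f a).1.2).le (cond b (f c).1.1 (f c).1.2) :=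
      fun a c h => by cases b; exacts [(h1 a c h).2, (h1 a c h).1]
    have h5 : ∀ m, x ∈ Tail W S m ∧ x ∈ Tail W Sᶜ m := fun m => by
      rcases lt_trichotomy a c with h | rfl | h
      · exact ((hle a c h).2.2 x hc).elim ((hS m).1 x) fun h => ⟨h _ (hS m).2.1, h _ (hS m).2.2⟩
      · exact (hS m).1 x hc
      · exact (hS m).1 x ((hle c a h).1 hc)
    constructor <;> refine infinite_of_forall_exists_gt fun m => ?_
    · obtain ⟨k, h6, h7, h8⟩ := (h5 (m + 1)).1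
      exact ⟨k, ⟨h8, h6⟩, h7⟩
    · obtain ⟨k, h6, h7, h8⟩ := (h5 (m + 1)).2
      exact ⟨k, ⟨h8, h6⟩, h7⟩
  refine ⟨⋃ a, (f a).1.1.P, ⋃ a, (f a).1.2.P, ?_, fun x hx => infinite_of_forall_exists_gt
    fun m => ?_, fun A => ?_⟩
  · rintro _ (rfl | rfl)
    exacts [key true, key false]
  · rcases hx with hx | hx <;> obtain ⟨a, ha⟩ := mem_iUnion.1 hx
    · obtain ⟨i, h3, h4⟩ := (f a).1.1.inf x ha (m + 1)
      exact ⟨i, h4, h3⟩
    · obtain ⟨i, h3, h4⟩ := (f a).1.2.inf x ha (m + 1)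
      exact ⟨i, h4, h3⟩
  · obtain ⟨a, x, h3, h4⟩ := h2 (Sum.inr A)
    exact ⟨x, h3.imp (fun h => mem_iUnion.2 ⟨a, h⟩) fun h => mem_iUnion.2 ⟨a, h⟩, h4⟩

theorem neg (hCH : (𝔠 : Cardinal.{0}) = ℵ₁) : ∃ X Y : Set ℝ, SplitL X ∧ SplitL Y ∧ ¬ SplitL (X ∪ Y : Set ℝ) := by
  classical
  obtain ⟨X, Y, h1, h2, h3⟩ := main hCH
  let E : C → ℝ := fun x => cantorSetHomeomorphNatToBool.symm x
  have hE : Continuous E := continuous_subtype_val.comp cantorSetHomeomorphNatToBool.symm.continuous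
  have hE' : Function.Injective E :=
    Subtype.val_injective.comp cantorSetHomeomorphNatToBool.symm.injective
  have key : ∀ Z, Z = X ∨ Z = Y → SplitL (E '' Z) := fun Z hZ => ISplit.split fun U hU hU' => by
    choose V hV hV' using fun n => isOpen_induced_iff.1 (hU n)
    have e : ∀ x (hx : x ∈ Z), {k | x ∈ E ⁻¹' V k} = {k | (⟨E x, x, hx, rfl⟩ : E '' Z) ∈ U k} :=
      fun x hx => by simp only [← hV']; rfl
    obtain ⟨S, hS⟩ := h1 Z hZ (fun k => E ⁻¹' V k) (fun k => (hV k).preimage hE)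
      fun x hx => e x hx ▸ hU' _
    refine ⟨S, ?_⟩
    rintro ⟨_, x, hx, rfl⟩
    exact e x hx ▸ hS x hx
  refine ⟨E '' X, E '' Y, key X (Or.inl rfl), key Y (Or.inr rfl), fun h => ?_⟩
  rw [← image_union] at h
  have e : ∀ x (hx : x ∈ X ∪ Y), {n | (⟨E x, x, hx, rfl⟩ : E '' (X ∪ Y)) ∈
      Subtype.val ⁻¹' (E '' {x | x n = false})ᶜ} = {n | x n = true} := fun x hx => by
    ext n; simp [hE'.eq_iff]
  obtain ⟨S, hS⟩ := h.isplit (fun n => Subtype.val ⁻¹' (E '' {x | x n = false})ᶜ) (fun n =>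
    (((isClosed_eq (continuous_apply n) continuous_const).isCompact.image
      hE).isClosed.isOpen_compl).preimage continuous_subtype_val) (by
      rintro ⟨_, x, hx, rfl⟩
      exact e x hx ▸ h2 x hx)
  obtain ⟨x, hx, h4⟩ := h3 fun i => decide (i ∈ S)
  have h5 := hS ⟨E x, x, hx, rfl⟩
  rw [e x hx] at h5
  rcases h4 with h4 | h4
  · obtain ⟨i, h6, h7⟩ := h5.2.nonempty
    exact h7 (by simpa using h4 i h6)
  · obtain ⟨i, h6, h7⟩ := h5.1.nonempty
    exact absurd h7 (by simpa using h4 i h6)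

theorem pos (h : uNum < gNum) (X : ℕ → Set ℝ) (hX : ∀ n, SplitL (X n)) :
    SplitL (⋃ n, X n : Set ℝ) := ISplit.split fun U h1 h2 => by
  have h3 : ∀ i, ∃ q : ℕ → ℕ, StrictMono q ∧ ∀ y : X i, ∃ k0, ∀ k, k0 ≤ k →
      ∃ n ∈ {n | inclusion (subset_iUnion X i) y ∈ U n}, n ∈ Ico (q k) (q (k + 1)) := fun i =>
    ex_part h (hX i).isplit (fun y => {n | inclusion (subset_iUnion X i) y ∈ U n})
      (fun n => (h1 n).preimage (continuous_inclusion _)) fun y => h2 _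
  choose q hq hq' using h3
  obtain ⟨c, hc⟩ := Pool.Agent.H42.PolO.ex_split' (ι := ℕ × ℕ)
    (mk_le_aleph0.trans_lt aleph0_lt_d) (mk_le_aleph0.trans_lt Pool.Agent.H42.PolO.aleph0_lt_u)
    fun i n => q i.1 (max n i.2 + 1)
  have key : ∀ z b, {n | z ∈ U n ∧ c n = b}.Infinite := fun ⟨z, hz⟩ b =>
    infinite_of_forall_exists_gt fun k => by
      obtain ⟨i, hi⟩ := mem_iUnion.1 hz
      obtain ⟨N, hN⟩ := hq' i ⟨z, hi⟩
      obtain ⟨n, -, a2⟩ := hc (i, max N (k + 1)) b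
      obtain ⟨m, a3, a4, a5⟩ := hN (max n (max N (k + 1))) (by omega)
      have := (hq i).le_apply (x := max n (max N (k + 1)))
      exact ⟨m, ⟨a3, a2 m (by omega) a5.le⟩, by omega⟩
  exact ⟨{n | c n = true}, fun z => ⟨key z true, (key z false).mono fun n hn =>
    ⟨hn.1, by simp [hn.2]⟩⟩⟩

end Pool.Agent.H57.SplAdd
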