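import Pool.Agent.H57.Pr0

set_option autoImplicit false

namespace Pool.Agent.H57.Pr

open Set Cardinal Order Filter Topology Pool.Agent.H57.Lots

def Btw (w : Fin 3 → Fin 3 → ℚ) : Prop :=
  ∃ m, ∃ t : ℚ, 0 ≤ t ∧ t ≤ 1 ∧ ∀ i, w m i = (1 - t) * w (m + 1) i + t * w (m + 2) i

theorem btw0 : Btw 0 := ⟨0, 0, le_rfl, zero_le_one, by simp⟩

theorem rat_Ioo {u : Set ℝ} (hu : IsOpen u) {x : ℝ} (hx : x ∈ u) :
    ∃ p : ℚ × ℚ, x ∈ Ioo (p.1 : ℝ) p.2 ∧ Ioo (p.1 : ℝ) p.2 ⊆ u := by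
  obtain ⟨_, h4, h5⟩ := Real.isTopologicalBasis_Ioo_rat.exists_subset_of_mem_open hx hu
  simp only [mem_iUnion, mem_singleton_iff] at h4
  obtain ⟨p, q, -, rfl⟩ := h4
  exact ⟨(p, q), h5⟩

theorem agree {I Z : Type} [TopologicalSpace Z] {U : Set (I → Z)} {x : I → Z} (h : U ∈ 𝓝 x) :
    ∃ F : Finset I, ∀ y : I → Z, (∀ i ∈ F, y i = x i) → y ∈ U := by
  obtain ⟨W, h1, h2, h3⟩ := mem_nhds_iff.1 h
  obtain ⟨F, u, h4, h5⟩ := isOpen_pi_iff.1 h2 _ h3
  exact ⟨F, fun y hy => h1 (h5 fun a ha => hy a ha ▸ (h4 a ha).2)⟩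

theorem ivt {I : Type} (f : (I → Fin 3 → ℝ) → ℝ) (hf : Continuous f) (p : Fin 3 → I → Fin 3 → ℚ)
    (u : Fin 3 → Set ℝ) (hu : ∀ j, IsOpen (u j)) (h : ∀ j, f (fun a i => p j a i) ∈ u j) :
    ∃ q : Fin 3 → I → Fin 3 → ℚ, (∀ a, Btw fun j => q j a) ∧
      (∀ a, (∀ j, p j a = 0) → ∀ j, q j a = 0) ∧ ∀ j, f (fun a i => q j a i) ∈ u j := by
  obtain ⟨m, hm⟩ : ∃ m, f (fun a i => p m a i) ∈
      uIcc (f fun a i => p (m + 1) a i) (f fun a i => p (m + 2) a i) := by
    generalize hr : (fun j => f fun a i => p j a i) = r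
    simp only [congrFun hr, Fin.exists_fin_succ, mem_uIcc]
    simp only [Fin.isValue, Fin.succ_zero_eq_one, Fin.reduceAdd, Fin.reduceSucc, IsEmpty.exists_iff]
    grind
  let φ : ℝ → ℝ := fun t => f fun a i => (1 - t) * p (m + 1) a i + t * p (m + 2) a i
  have hφ : Continuous φ := hf.comp (by fun_prop)
  obtain ⟨t, h1, h2⟩ := intermediate_value_uIcc (a := 0) (b := 1) hφ.continuousOn
    (by simpa [φ] using hm)
  rw [uIcc_of_le zero_le_one, ← closure_Ioo zero_ne_one] at h1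
  obtain ⟨s, h3, h4⟩ := Rat.denseRange_cast.exists_mem_open
    (((hu m).preimage hφ).inter isOpen_Ioo) (mem_closure_iff.1 h1 _ ((hu m).preimage hφ)
      (show φ t ∈ u m from h2 ▸ h m))
  have e1 : ∀ m : Fin 3, m + 1 ≠ m ∧ m + 2 ≠ m := by decide
  refine ⟨Function.update p m fun a i => (1 - s) * p (m + 1) a i + s * p (m + 2) a i,
    fun a => ⟨m, s, mod_cast h4.1.le, mod_cast h4.2.le, fun i => by simp [e1 m]⟩,
    fun a ha j => ?_, fun j => ?_⟩ <;> rcases eq_or_ne j m with rfl | hj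
  · funext i; simp [ha]
  · simp [hj, ha]
  · simpa [φ] using h3
  · simpa [hj] using h j

theorem spread : ∃ Y : Set (W2 → Fin 3 → ℝ),
    (∃ D : Set (Y → ℝ), (D ⊆ range (fun f : C(Y, ℝ) => (f : Y → ℝ)) ∧ DiscreteTopology D) ∧
      succ ℵ₁ ≤ #D) ∧
    ∀ D : Set (Y → ℝ), D ⊆ range (fun f : C(W2 → Fin 3 → ℝ, ℝ) => fun y : Y => f y.1) →
      DiscreteTopology D → #D ≤ ℵ₁ := by
  classical
  haveI : Nonempty {w // Btw w} := ⟨⟨0, btw0⟩⟩
  obtain ⟨c, hc⟩ := pr0 (K := {w // Btw w}) (mk_le_aleph0.trans aleph0_lt_aleph_one.le)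
  let P : W2 → Fin 3 → W2 → Fin 3 → ℚ := fun g j a =>
    if a < g then 0 else if a = g then Pi.single j 1 else (c g a).1 j
  let y : W2 × Fin 3 → W2 → Fin 3 → ℝ := fun p a i => P p.1 p.2 a i
  refine ⟨range y, ?_, fun D h1 h2 => ?_⟩
  · have i1 : Irrational (√2 / (2 : ℕ)) := irrational_sqrt_two.div_natCast two_ne_zero
    have i2 : 0 < √2 / (2 : ℕ) := by positivity
    have i3 : √2 / (2 : ℕ) < 1 := by
      rw [div_lt_one (by positivity), Real.sqrt_lt' (by positivity)]; norm_num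
    generalize √2 / (2 : ℕ) = θ at *
    let G : (Fin 3 → Bool) → ℝ := fun b => Encodable.encode b
    let f : W2 → range y → ℝ := fun d z => G fun i => decide (θ < z.1 d i)
    have h1 : ∀ d g, (∀ j, f g ⟨_, (d, j), rfl⟩ ∈ Metric.ball (f d ⟨_, (d, j), rfl⟩) 1) → g = d := by
      intro d g h
      by_contra hn
      obtain ⟨m, t, h1, h2, h3⟩ : Btw fun j => P d j g := by
        simp only [P, hn, if_false]
        split_ifs
        exacts [btw0, (c d g).2]
      have h4 : ∀ j i, θ < P d j g i ↔ i = j := fun j i => by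
        have k1 := h j
        simp only [f, G, Metric.mem_ball, Real.dist_eq] at k1
        have k2 : ∀ a b : ℕ, |(a : ℝ) - b| < 1 → a = b := fun a b hab => by
          have : |(a : ℤ) - b| < 1 := by exact_mod_cast hab
          have := abs_lt.1 this
          omega
        have k3 := decide_eq_decide.1 (congrFun (Encodable.encode_injective (k2 _ _ k1)) i)
        simp only [y] at k3
        rw [k3]
        rcases eq_or_ne i j with rfl | k4
        · simpa [P] using i3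
        · simpa [P, k4] using i2.le
      have e1 : ∀ m : Fin 3, m ≠ m + 1 ∧ m ≠ m + 2 := by decide
      have h5 := (h4 m m).2 rfl
      have h6 := not_lt.1 (mt (h4 (m + 1) m).1 (e1 m).1)
      have h7 := not_lt.1 (mt (h4 (m + 2) m).1 (e1 m).2)
      have h8 : (0 : ℝ) ≤ t := mod_cast h1
      have h9 : (t : ℝ) ≤ 1 := mod_cast h2
      have h10 := h3 m
      dsimp only at h10
      rw [h10] at h5
      push_cast at h5
      nlinarith
    have hct : ∀ d i, Continuous fun z : range y => z.1 d i := fun d i =>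
      (continuous_apply i).comp ((continuous_apply d).comp continuous_subtype_val)
    refine ⟨range f, ⟨range_subset_iff.2 fun d => ⟨⟨f d, (continuous_of_discreteTopology (f := G)).comp
      (continuous_pi fun i => (continuous_bool_rng true).2 ⟨?_, ?_⟩)⟩, rfl⟩,
      discreteTopology_iff_isOpen_singleton.2 ?_⟩, ?_⟩
    · convert (isClosed_Ici (a := θ)).preimage (hct d i)
      ext ⟨_, p, rfl⟩
      simpa using ⟨le_of_lt, fun h => lt_of_le_of_ne h (i1.ne_rat _)⟩
    · convert (isOpen_Ioi (a := θ)).preimage (hct d i)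
      ext; simp
    · rintro ⟨_, d, rfl⟩
      refine isOpen_induced_iff.2 ⟨⋂ j, {g | g ⟨_, (d, j), rfl⟩ ∈ Metric.ball (f d ⟨_, (d, j), rfl⟩) 1},
        isOpen_iInter_of_finite fun j => Metric.isOpen_ball.preimage
          (continuous_apply (⟨_, (d, j), rfl⟩ : range y)), ?_⟩
      ext ⟨_, g, rfl⟩
      exact ⟨fun h => Subtype.ext (congrArg f (h1 d g fun j => mem_iInter.1 (mem_preimage.1 h) j)),
        fun h => mem_preimage.2 <| mem_iInter.2
        fun j => by simp [show f g = f d from congrArg Subtype.val h]⟩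
    · rw [mk_range_eq f fun g d h => h1 d g fun j => by simp [h], R2.card]
  by_contra hn
  obtain ⟨k⟩ := (Cardinal.le_def W2 D).1 (R2.card.trans_le (succ_le_of_lt (not_le.1 hn)))
  choose f hf using fun d => h1 (k d).2
  have h3 : ∀ d, ∃ e : Σ n, Fin n → Fin 3 → ℚ × ℚ, ∃ s : Fin e.1 → W2, Function.Injective s ∧
      (∀ i j, f d (y (s i, j)) ∈ Ioo ((e.2 i j).1 : ℝ) (e.2 i j).2) ∧
      ∀ g, (∀ i j, f g (y (s i, j)) ∈ Ioo ((e.2 i j).1 : ℝ) (e.2 i j).2) → g = d := fun d => by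
    obtain ⟨U, h3, h4⟩ := isOpen_induced_iff.1 (isOpen_discrete {k d})
    obtain ⟨I, u, h5, h6⟩ := isOpen_pi_iff.1 h3 (k d) (h4.symm.subset rfl)
    choose π hπ using fun z : range y => z.2
    let A := I.image fun z => (π z).1
    choose p h7 h8 using fun (x : A) j => rat_Ioo (x := f d (y (x, j)))
      (u := if ⟨_, (x.1, j), rfl⟩ ∈ I then u ⟨_, (x.1, j), rfl⟩ else Set.univ)
      (by split_ifs with h; exacts [(h5 _ h).1, isOpen_univ])
      (by split_ifs with h; exacts [by simpa [← hf d] using (h5 _ h).2, trivial])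
    refine ⟨⟨_, fun i => p (A.equivFin.symm i)⟩, fun i => A.equivFin.symm i,
      Subtype.val_injective.comp A.equivFin.symm.injective, fun i => h7 _, fun g hg =>
        k.injective (h4.subset (h6 fun z hz => ?_))⟩
    have := h8 ⟨_, Finset.mem_image_of_mem _ hz⟩ (π z).2
      (by simpa using hg (A.equivFin ⟨_, Finset.mem_image_of_mem _ hz⟩) (π z).2)
    have k : z ∈ I → f g z ∈ u z := by simpa [hπ, ← hf g] using this
    simpa [← hf g] using k hz
  choose e he using h3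
  obtain ⟨⟨n, J⟩, h4⟩ := St_unc.pigeon R2 (Y := Set.univ)
    ((mk_univ.trans_le mk_le_aleph0).trans_lt (aleph0_lt_aleph_one.trans (lt_succ _))) e
    fun _ _ => trivial
  choose! s h5 h6 h7 using fun d (hd : d ∈ {x ∈ {x | H82.LadA.Unc x} | e x = ⟨n, J⟩}) => hd.2 ▸ he d
  choose! q h8 h9 h10 using fun d hd i => ivt (f d) (f d).continuous (P (s d i)) _
    (fun _ => isOpen_Ioo) (h6 d hd i)
  choose! B hB using fun d hd (i : Fin n × Fin 3) => agree
    ((f d).continuous.continuousAt (isOpen_Ioo.mem_nhds (h10 d hd i.1 i.2)))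
  obtain ⟨R, hR⟩ := h4.fin R2 (aleph0_lt_aleph_one.trans (lt_succ _))
    fun d => Finset.univ.biUnion (B d)
  obtain ⟨g, g1, d, d1, h11, h12⟩ := hc _ s (fun d => Finset.univ.biUnion (B d))
    (fun d i a => if h : Btw fun j => q d i j a then ⟨_, h⟩ else ⟨0, btw0⟩) _ hR
    fun d hd i j h => h5 d hd.1 h ▸ rfl
  refine h11.ne' (h7 g g1.1 d fun i j => ?_)
  rcases h12 i with h | ⟨a1, a2, a3, a4⟩
  · exact h ▸ h6 d d1.1 i j
  refine hB d d1.1 (i, j) _ fun a ha => funext fun l => congrArg (fun r : ℚ => (r : ℝ))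
    (congrFun (show P (s g i) j a = q d i j a from ?_) l)
  have a5 : a ∈ Finset.univ.biUnion (B d) := Finset.mem_biUnion.2 ⟨_, Finset.mem_univ _, ha⟩
  rcases lt_or_ge a d with h | h
  · rw [h9 d d1.1 i a fun _ => if_pos (h.trans_le a3)]
    exact if_pos ((Finset.mem_filter.1 ((d1.2.trans g1.2.symm).subset
      (Finset.mem_filter.2 ⟨a5, h⟩))).2.trans_le a1)
  · simp only [P, (a2.trans_le h).not_gt, (a2.trans_le h).ne', if_false, a4 a a5 h,
      dif_pos (h8 d d1.1 i a)]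

end Pool.Agent.H57.Pr
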