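import Pool.Agent.H57.IdC
import Pool.Agent.H57.PfC

set_option autoImplicit false

/-! Large good subsets of groups. -/

namespace Pool.Agent.H57.Str

open Set Cardinal Order Pool.Agent.H57.Lots Pool.Agent.H57.Coh

variable {G : Type} [Group G]

def D (A : Set G) : Set G := image2 (fun x y => y * x⁻¹ * y) A A

def tp (A : Set G) (y : G) : Set (G × G) := {p | p ∈ A ×ˢ A ∧ y * p.1⁻¹ * y = p.2}

theorem top {W : Type} [LinearOrder W] {g : W → G} (hg : ∀ a, g a ∉ D (g '' Iio a)) :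
    Function.Injective g ∧ ∀ a b c, (g a)⁻¹ * g b = (g b)⁻¹ * g c → g a ≠ g c →
      a < b ∧ c < b ∧ g b * (g a)⁻¹ * g b = g c := by
  have k : ∀ a b c, a < c → b < c → g b * (g a)⁻¹ * g b ≠ g c := fun a b c h h' e =>
    hg c ⟨_, ⟨a, h, rfl⟩, _, ⟨b, h', rfl⟩, e⟩
  refine ⟨fun a b h => by_contra fun n => (lt_or_gt_of_ne n).elim
    (fun l => k a a b l l (by simp [h])) fun l => k b b a l l (by simp [h]), fun a b c h n => ?_⟩
  have e1 : g b * (g a)⁻¹ * g b = g c := by rw [mul_assoc, h]; group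
  have e2 : g b * (g c)⁻¹ * g b = g a := by rw [← e1]; group
  have n1 : a ≠ b := by rintro rfl; exact n (by rw [← e1]; group)
  have n2 : c ≠ b := by rintro rfl; exact n (by rw [← e2]; group)
  have n3 : a ≠ c := fun e => n (e ▸ rfl)
  refine ⟨by_contra fun l => ?_, by_contra fun l => ?_, e1⟩
  · have l := lt_of_le_of_ne (not_lt.1 l) n1.symm
    exact (lt_or_gt_of_ne n3).elim (fun m => k a b c m (l.trans m) e1) fun m => k c b a m l e2
  · have l := lt_of_le_of_ne (not_lt.1 l) n2.symm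
    exact (lt_or_gt_of_ne n3).elim (fun m => k a b c m l e1) fun m => k c b a m (l.trans m) e2

theorem D_le {θ : Cardinal.{0}} (h0 : ℵ₀ ≤ θ) {A B : Set G} (h : #A ≤ θ) (h' : #B ≤ θ) :
    #(image2 (fun x y => y * x⁻¹ * y) A B) ≤ θ :=
  mk_image2_le.trans ((mul_le_mul' h h').trans (mul_eq_self h0).le)

theorem pfa (h : H84.DtDefs.PFA) (hG : #G = ℵ₁) :
    ∃ H : Set G, #H = ℵ₁ ∧ ∀ x ∈ H, ∀ y ∈ H, ∀ z ∈ H, x⁻¹ * y = y⁻¹ * z → x = z := by
  have hu : Uncountable G := aleph0_lt_mk_iff.1 (aleph0_lt_aleph_one.trans_eq hG.symm)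
  obtain ⟨g, hg⟩ := Pr.wrec (fun _ (H : Set G) z => z ∉ D H) fun _ H hH => not_forall.1 fun h =>
    not_countable_univ ((hH.image2 hH _).mono fun z _ => h z)
  obtain ⟨k1, k2⟩ := top hg
  obtain ⟨I, i1, i2⟩ := Pf.free h (Bd := fun x y z => x < y ∧ z < y ∧ x ≠ z ∧
    g y * (g x)⁻¹ * g y = g z) (fun _ _ _ h => ⟨h.1, h.2.1, h.2.2.1⟩) fun y w =>
      ((Set.toFinite {g y * (g w)⁻¹ * g y}).preimage k1.injOn).subset fun x h =>
        h.elim (fun h => by rw [mem_preimage, ← h.2.2.2]; simp [mul_assoc]) fun h => h.2.2.2.symm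
  refine ⟨g '' I, ((mk_set_le _).trans hG.le).antisymm ?_, ?_⟩
  · rw [mk_image_eq k1]
    exact succ_aleph0 ▸ Order.succ_le_of_lt (not_le.1 (mt le_aleph0_iff_set_countable.1 i1))
  · rintro _ ⟨a, ha, rfl⟩ _ ⟨b, hb, rfl⟩ _ ⟨c, hc, rfl⟩ e
    by_contra n
    obtain ⟨l1, l2, l3⟩ := k2 a b c e n
    exact i2 a ha b hb c hc ⟨l1, l2, fun e => n (e ▸ rfl), l3⟩

theorem sing {μ : Cardinal.{0}} (h1 : μ.IsStrongLimit) (h2 : μ.IsSingular) (hG : #G = μ) :
    ∃ H : Set G, #H = μ ∧ ∀ x ∈ H, ∀ y ∈ H, ∀ z ∈ H, x⁻¹ * y = y⁻¹ * z → x = z := by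
  classical
  obtain ⟨s, s1, s2⟩ := Order.exists_cof_eq μ.ord.ToType
  have s3 : #s < μ := s2.trans_lt ((Ordinal.cof_toType _).trans_lt h2.cof_ord_lt)
  have hu : ℵ₀ < μ := h1.aleph0_le.lt_of_ne fun e => h2.not_isRegular (e ▸ isRegular_aleph0)
  let lam : μ.ord.ToType → Cardinal := fun i => max ℵ₀ #(Iio i)
  have l0 : ∀ i, ℵ₀ ≤ lam i := fun i => le_max_left _ _
  have l1 : ∀ i, lam i < μ := fun i => max_lt hu (by simpa using mk_Iio_lt i)
  have l2 : Monotone lam := fun _ _ h => max_le_max le_rfl (mk_le_mk_of_subset (Iio_subset_Iio h))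
  choose j j1 j2 using fun a => wellFounded_lt.has_min {i ∈ s | a ≤ i} (s1 a)
  have j3 : Monotone j := fun a b h => not_lt.1 (j2 a _ ⟨(j1 b).1, h.trans (j1 b).2⟩)
  choose! c hc using fun (A : Set G) (τ : Set (G × G)) (h : ∃ y, y ∉ D A ∧ tp A y = τ) => h
  let N : μ.ord.ToType → Set G := fun i =>
    ⋂₀ {N | ∀ A ⊆ N, #A ≤ lam i → c A '' 𝒫 (A ×ˢ A) ⊆ N}
  have n1 : ∀ i, #(N i) ≤ 2 ^ lam i := fun i => by
    obtain ⟨M, -, m1, m2⟩ := IdC.closure (l0 i)
      (fun A => if #A ≤ lam i then c A '' 𝒫 (A ×ˢ A) else ∅) (fun A => by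
        split_ifs with h
        · refine mk_image_le.trans ((mk_powerset _).trans_le (power_le_power_left two_ne_zero ?_))
          rw [mk_setProd]
          exact (mul_le_mul' h h).trans (mul_eq_self (l0 i)).le
        · simp) (N0 := ∅) (by simp)
    exact (mk_le_mk_of_subset (sInter_subset_of_mem fun A h h' => by
      simpa only [if_pos h'] using m2 A h h')).trans m1
  have n2 : ∀ i, ∀ A ⊆ N i, #A ≤ lam i → c A '' 𝒫 (A ×ˢ A) ⊆ N i := fun i A h h' =>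
    subset_sInter fun M hM => hM A (h.trans (sInter_subset_of_mem hM)) h'
  have n3 : Monotone N := fun i k h => sInter_subset_sInter fun M hM A h1 h2 =>
    hM A h1 (h2.trans (l2 h))
  choose w hw using fun i => not_forall.1 fun h : ∀ z, z ∈ D (N i) =>
    (h1.two_power_lt (l1 i)).not_ge (hG.ge.trans ((mk_univ.ge.trans (mk_le_mk_of_subset
      fun z _ => h z)).trans (D_le (IdC.pw (l0 i)) (n1 i) (n1 i))))
  let g : μ.ord.ToType → G := wellFounded_lt.fix fun a ih =>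
    c (range fun b : Iio a => ih b b.2) (tp (range fun b : Iio a => ih b b.2) (w (j a)))
  have hg : ∀ a, g a = c (g '' Iio a) (tp (g '' Iio a) (w (j a))) := fun a => by
    rw [image_eq_range]; exact wellFounded_lt.fix_eq _ a
  have g1 : ∀ a, g a ∈ N (j a) := fun a => by
    induction a using WellFoundedLT.induction with
    | ind a ih =>
    rw [hg a]
    exact n2 _ (g '' Iio a) (image_subset_iff.2 fun b hb => n3 (j3 (le_of_lt hb)) (ih b hb))
      (mk_image_le.trans ((le_max_right _ _).trans (l2 (j1 a).2)))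
      ⟨tp (g '' Iio a) (w (j a)), fun _ h => h.1, rfl⟩
  have g2 : ∀ a, g a ∉ D (g '' Iio a) ∧ tp (g '' Iio a) (g a) = tp (g '' Iio a) (w (j a)) :=
    fun a => by
      have k : g '' Iio a ⊆ N (j a) := image_subset_iff.2 fun b hb => n3 (j3 (le_of_lt hb)) (g1 b)
      have := hc (g '' Iio a) _ ⟨w (j a), fun h => hw _ (image2_subset k k h), rfl⟩
      rwa [← hg] at this
  obtain ⟨k1, k2⟩ := top fun a => (g2 a).1
  obtain ⟨H, ⟨m1, m2⟩, m3⟩ := zorn_subset {H : Set G | H ⊆ range g ∧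
      H.Pairwise fun x z => ∀ i ∈ s, w i * x⁻¹ * w i ≠ z} fun C h hC =>
    ⟨⋃₀ C, ⟨sUnion_subset fun t ht => (h ht).1, hC.pairwise_sUnion.2 fun t ht => (h ht).2⟩,
      fun _ => subset_sUnion_of_mem⟩
  refine ⟨H, ((mk_set_le _).trans hG.le).antisymm (not_lt.1 fun h => ?_), fun x hx y hy z hz e => ?_⟩
  · have k3 : range g ⊆ H ∪ image2 (fun x y => y * x⁻¹ * y) H (w '' s) := fun x hx =>
      or_iff_not_imp_right.2 fun n => m3 (y := insert x H) ⟨insert_subset hx m1,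
        m2.insert fun z hz _ => ⟨fun i hi e => n ⟨z, hz, _, ⟨i, hi, rfl⟩, by rw [← e]; group⟩,
          fun i hi e => n ⟨z, hz, _, ⟨i, hi, rfl⟩, e⟩⟩⟩ (subset_insert _ _) (mem_insert _ _)
    have k4 := mk_le_mk_of_subset k3
    rw [mk_range_eq _ k1, mk_ord_toType] at k4
    have k5 : ℵ₀ ≤ max ℵ₀ (max #H #s) := le_max_left _ _
    exact (max_lt hu (max_lt h s3)).not_ge (k4.trans (IdC.un2 k5 (by simp)
      (D_le k5 (by simp) (mk_image_le.trans (by simp)))))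
  · obtain ⟨a, rfl⟩ := m1 hx
    obtain ⟨b, rfl⟩ := m1 hy
    obtain ⟨c, rfl⟩ := m1 hz
    by_contra n
    obtain ⟨l1, l2, l3⟩ := k2 a b c e n
    exact m2 hx hz n _ (j1 b).1 ((Set.ext_iff.1 (g2 b).2 (g a, g c)).1
      ⟨⟨⟨a, l1, rfl⟩, ⟨c, l2, rfl⟩⟩, l3⟩).2

end Pool.Agent.H57.Str
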