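import Mathlib

namespace Pool.Agent.H57.SumCol

open Finset Polynomial

lemma var_sum {d : ℕ} (g : Fin d → ℝ) (hg : ∑ y, g y = 0) {B : ℝ} (hB : ∑ y, g y ^ 2 ≤ d * B) (L : ℕ) :
    (∑ α : Fin L → Fin d, ∑ j, g (α j) = 0) ∧
      ∑ α : Fin L → Fin d, (∑ j, g (α j)) ^ 2 ≤ L * B * d ^ L := by
  induction L with
  | zero => simp
  | succ L ih =>
    have e : ∀ F : (Fin (L + 1) → Fin d) → ℝ, ∑ α, F α = ∑ y : Fin d, ∑ α : Fin L → Fin d,
        F (Fin.cons y α) := by
      intro F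
      rw [← (Fin.consEquiv fun _ => Fin d).sum_comp, Fintype.sum_prod_type]
      rfl
    constructor
    · rw [e]
      simp only [Fin.sum_univ_succ, Fin.cons_zero, Fin.cons_succ, sum_add_distrib, ih.1, sum_const,
        add_zero, nsmul_eq_mul]
      rw [← mul_sum, hg, mul_zero]
    · rw [e]
      simp only [Fin.sum_univ_succ, Fin.cons_zero, Fin.cons_succ, add_sq, sum_add_distrib, ← mul_sum,
        ih.1, sum_const, nsmul_eq_mul, mul_zero, add_zero, card_univ, Fintype.card_fin,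
        Fintype.card_pi, prod_const]
      have h1 : (0:ℝ) ≤ d ^ L := by positivity
      have h2 : (0:ℝ) ≤ d := by positivity
      have h3 := mul_le_mul_of_nonneg_left hB h1
      have h4 := mul_le_mul_of_nonneg_left ih.2 h2
      push_cast
      rw [pow_succ]
      nlinarith

lemma syndrome {L d w P : ℕ} [Fact P.Prime] (hL : L ≤ P) (hd : d ≤ P) (α β : Fin L → Fin d) (hne : α ≠ β)
    (h : ∀ i : Fin w, ∑ j, ((α j : ℕ) : ZMod P) * ((j : ℕ) : ZMod P) ^ (i : ℕ) =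
      ∑ j, ((β j : ℕ) : ZMod P) * ((j : ℕ) : ZMod P) ^ (i : ℕ)) :
    w ≤ (univ.filter fun j => α j ≠ β j).card := by
  by_contra hc
  push Not at hc
  have inj : ∀ a b : ℕ, a < P → b < P → (a : ZMod P) = b → a = b := by
    intro a b ha hb h
    rw [ZMod.natCast_eq_natCast_iff'] at h
    rwa [Nat.mod_eq_of_lt ha, Nat.mod_eq_of_lt hb] at h
  obtain ⟨j0, hj0⟩ := Function.ne_iff.mp hne
  set D := (univ.filter fun j => α j ≠ β j).erase j0 with hD
  set p : (ZMod P)[X] := ∏ j ∈ D, (X - C ((j : ℕ) : ZMod P)) with hp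
  have hdeg : p.natDegree < w := by
    rw [hp, natDegree_finsetProd_X_sub_C_eq_card]
    exact lt_of_le_of_lt card_erase_le hc
  have h1 : ∑ j, (((α j : ℕ) : ZMod P) - ((β j : ℕ) : ZMod P)) * p.eval ((j : ℕ) : ZMod P) = 0 := by
    simp only [eval_eq_sum_range' hdeg, mul_sum]
    rw [sum_comm]
    refine sum_eq_zero fun i hi => ?_
    have := h ⟨i, mem_range.mp hi⟩
    simp only at this
    calc _ = p.coeff i * (∑ j, ((α j : ℕ) : ZMod P) * ((j : ℕ) : ZMod P) ^ i -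
        ∑ j, ((β j : ℕ) : ZMod P) * ((j : ℕ) : ZMod P) ^ i) := by
          rw [← sum_sub_distrib, mul_sum]
          exact sum_congr rfl fun j _ => by ring
      _ = 0 := by rw [this, sub_self, mul_zero]
  rw [sum_eq_single j0] at h1
  · rcases mul_eq_zero.mp h1 with h2 | h2
    · exact hj0 (Fin.ext (inj _ _ (by have := (α j0).2; omega) (by have := (β j0).2; omega)
        (sub_eq_zero.mp h2)))
    · rw [hp, eval_prod, prod_eq_zero_iff] at h2
      obtain ⟨j, hj, h3⟩ := h2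
      simp only [eval_sub, eval_X, eval_C] at h3
      exact (mem_erase.mp hj).1 (Fin.ext (inj _ _ (by have := j.2; omega) (by have := j0.2; omega)
        (sub_eq_zero.mp h3).symm))
  · intro j _ hj
    by_cases h2 : α j = β j
    · rw [h2, sub_self, zero_mul]
    · rw [hp, eval_prod, prod_eq_zero (i := j) (by simp [hD, hj, h2]) (by simp), mul_zero]
  · intro h; simp at h

noncomputable def mu (d : ℕ) : ℝ := (∑ y : Fin d, ((y : ℕ) : ℝ) ^ 2) / d

noncomputable def gg {d : ℕ} [NeZero d] (τ y : Fin d) : ℝ := (((y + τ : Fin d) : ℕ) : ℝ) ^ 2 - mu d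

lemma gg_sum {d : ℕ} [NeZero d] (τ : Fin d) : ∑ y, gg τ y = 0 := by
  unfold gg
  have e : ∑ y : Fin d, (((y + τ : Fin d) : ℕ) : ℝ) ^ 2 = ∑ y : Fin d, ((y : ℕ) : ℝ) ^ 2 :=
    Equiv.sum_comp (Equiv.addRight τ) (fun y : Fin d => ((y : ℕ) : ℝ) ^ 2)
  rw [sum_sub_distrib, e]
  have : (d:ℝ) ≠ 0 := by exact_mod_cast NeZero.ne d
  simp only [mu, sum_const, card_univ, Fintype.card_fin, nsmul_eq_mul]
  field_simp
  ring

lemma gg_comm {d : ℕ} [NeZero d] (τ y : Fin d) : gg τ y = gg y τ := by unfold gg; rw [add_comm]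

lemma gg_sq {d : ℕ} [NeZero d] (τ : Fin d) : ∑ y, gg τ y ^ 2 ≤ d * (d:ℝ) ^ 4 := by
  have hd : (0:ℝ) < d := by exact_mod_cast Nat.pos_of_ne_zero (NeZero.ne d)
  have b : ∀ y : Fin d, ((y : ℕ) : ℝ) ^ 2 ≤ d ^ 2 := fun y => by
    have : ((y : ℕ) : ℝ) ≤ d := by exact_mod_cast y.2.le
    gcongr
  have h1 : mu d ≤ d ^ 2 := by
    unfold mu
    rw [div_le_iff₀ hd]
    refine (sum_le_sum fun y _ => b y).trans ?_
    simp [mul_comm]
  have h2 : 0 ≤ mu d := by unfold mu; positivity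
  have h3 : ∀ y, gg τ y ^ 2 ≤ (d:ℝ) ^ 4 := by
    intro y
    have := b (y + τ)
    have := sq_nonneg (((y + τ : Fin d) : ℕ) : ℝ)
    rw [show (d:ℝ) ^ 4 = (d ^ 2) ^ 2 by ring]
    apply sq_le_sq' <;> unfold gg <;> linarith
  refine (sum_le_sum fun y _ => h3 y).trans ?_
  simp

lemma exists_tau {d L : ℕ} [NeZero d] (α : Fin L → Fin d) : ∃ τ : Fin d, ∑ j, gg τ (α j) ≤ 0 := by
  by_contra hc
  push Not at hc
  have := sum_pos (s := univ) (fun τ _ => hc τ) univ_nonempty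
  rw [sum_comm] at this
  simp only [fun τ (j : Fin L) => gg_comm τ (α j), gg_sum, sum_const_zero, lt_self_iff_false] at this

lemma gg_mid {d : ℕ} [NeZero d] (τ a b m : Fin d) (h : (a : ℕ) + b = 2 * m)
    (hw : ((a : ℕ) + τ < d) ↔ ((b : ℕ) + τ < d)) :
    gg τ m ≤ (gg τ a + gg τ b) / 2 - if a ≠ b then 1 else 0 := by
  have ha := a.2
  have hb := b.2
  have ht := τ.2
  have key : ∃ x y z : ℕ, ((a + τ : Fin d) : ℕ) = x ∧ ((b + τ : Fin d) : ℕ) = y ∧
      ((m + τ : Fin d) : ℕ) = z ∧ x + y = 2 * z ∧ (a ≠ b → x ≠ y) := by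
    simp only [Fin.val_add]
    by_cases hc : (a : ℕ) + τ < d
    · have hc' := hw.mp hc
      refine ⟨a + τ, b + τ, m + τ, Nat.mod_eq_of_lt hc, Nat.mod_eq_of_lt hc',
        Nat.mod_eq_of_lt (by omega), by omega, fun hn h => hn (Fin.ext (by omega))⟩
    · have hc' : ¬ ((b : ℕ) + τ < d) := fun h => hc (hw.mpr h)
      refine ⟨a + τ - d, b + τ - d, m + τ - d, ?_, ?_, ?_, by omega, fun hn h => hn (Fin.ext (by omega))⟩
      all_goals rw [Nat.mod_eq_sub_mod (by omega), Nat.mod_eq_of_lt (by omega)]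
  obtain ⟨x, y, z, hx, hy, hz, h1, h2⟩ := key
  unfold gg
  rw [hx, hy, hz]
  have h3 : (x:ℝ) + y = 2 * z := by exact_mod_cast h1
  split_ifs with hc
  · have h4 := h2 hc
    have h5 : (1:ℝ) ≤ ((x:ℝ) - z) ^ 2 := by
      have : (1:ℤ) ≤ ((x:ℤ) - z) ^ 2 := by
        have : (x:ℤ) - z ≠ 0 := by omega
        have := sq_pos_of_ne_zero this
        omega
      exact_mod_cast this
    have : (y:ℝ) = 2 * z - x := by linarith
    rw [this]; nlinarith
  · have : (y:ℝ) = 2 * z - x := by linarith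
    rw [this]; nlinarith [sq_nonneg ((x:ℝ) - z)]

theorem core {d L w P : ℕ} [NeZero d] [Fact P.Prime] (hL : L ≤ P) (hd : d ≤ P) :
    ∃ (c : ℕ → Fin d × (Fin L → Bool) × (Fin L → Bool) × (Fin w → ZMod P)) (S : Finset ℕ),
      (S.card : ℝ) * w ^ 2 ≤ L * d ^ 5 * d ^ L ∧
      ∀ a b, a < d ^ L → b < d ^ L → a ≠ b → c a = c b → a + b ∈ S := by
  classical
  choose T hT using fun α : Fin L → Fin d => exists_tau α
  let col : (Fin L → Fin d) → Fin d × (Fin L → Bool) × (Fin L → Bool) × (Fin w → ZMod P) := fun α =>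
    (T α, fun j => decide ((α j : ℕ) % 2 = 0), fun j => decide ((α j : ℕ) + T α < d),
      fun i => ∑ j, ((α j : ℕ) : ZMod P) * ((j : ℕ) : ZMod P) ^ (i : ℕ))
  let bad : Fin d → Finset (Fin L → Fin d) := fun τ => univ.filter fun α => ∑ j, gg τ (α j) ≤ -w
  have hpos : 0 < d ^ L := Nat.pos_of_ne_zero (pow_ne_zero _ (NeZero.ne d))
  refine ⟨fun a => col (finFunctionFinEquiv.symm ⟨a % d ^ L, Nat.mod_lt _ hpos⟩),
    univ.biUnion fun τ => (bad τ).image fun α => 2 * (finFunctionFinEquiv α : ℕ), ?_, ?_⟩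
  · have h1 : ∀ τ, ((bad τ).card : ℝ) * w ^ 2 ≤ L * d ^ 4 * d ^ L := by
      intro τ
      refine le_trans ?_ (var_sum (gg τ) (gg_sum τ) (gg_sq τ) L).2
      refine le_trans ?_ (sum_le_sum_of_subset_of_nonneg (subset_univ (bad τ)) fun _ _ _ => sq_nonneg _)
      rw [← nsmul_eq_mul, ← sum_const]
      refine sum_le_sum fun α hα => ?_
      have := (mem_filter.mp hα).2
      have hw : (0:ℝ) ≤ w := by positivity
      nlinarith
    have h2 : (univ.biUnion fun τ => (bad τ).image fun α => 2 * (finFunctionFinEquiv α : ℕ)).card ≤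
        ∑ τ, (bad τ).card := card_biUnion_le.trans (sum_le_sum fun τ _ => card_image_le)
    have h3 : ((univ.biUnion fun τ => (bad τ).image fun α => 2 * (finFunctionFinEquiv α : ℕ)).card : ℝ) ≤
        ∑ τ, ((bad τ).card : ℝ) := by exact_mod_cast h2
    calc _ ≤ (∑ τ, ((bad τ).card : ℝ)) * w ^ 2 := by gcongr
      _ ≤ ∑ _τ : Fin d, (L:ℝ) * d ^ 4 * d ^ L := by rw [sum_mul]; exact sum_le_sum fun τ _ => h1 τ
      _ = _ := by simp; ring
  · intro a b ha hb hne hc
    simp only [Nat.mod_eq_of_lt ha, Nat.mod_eq_of_lt hb] at hc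
    set α := finFunctionFinEquiv.symm ⟨a, ha⟩ with hα
    set β := finFunctionFinEquiv.symm ⟨b, hb⟩ with hβ
    have ea : a = ∑ j, (α j : ℕ) * d ^ (j : ℕ) := by
      rw [← finFunctionFinEquiv_apply, hα, Equiv.apply_symm_apply]
    have eb : b = ∑ j, (β j : ℕ) * d ^ (j : ℕ) := by
      rw [← finFunctionFinEquiv_apply, hβ, Equiv.apply_symm_apply]
    have hab : α ≠ β := fun h => hne (by rw [ea, eb, h])
    simp only [col, Prod.mk.injEq] at hc
    obtain ⟨c1, c2, c3, c4⟩ := hc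
    have p2 : ∀ j, (α j : ℕ) % 2 = 0 ↔ (β j : ℕ) % 2 = 0 := fun j => by simpa using congrFun c2 j
    have p3 : ∀ j, (α j : ℕ) + T α < d ↔ (β j : ℕ) + T α < d := fun j => by
      have := congrFun c3 j
      rw [← c1] at this
      simpa using this
    have p4 := syndrome hL hd α β hab (fun i => congrFun c4 i)
    let m : Fin L → Fin d := fun j => ⟨(α j + β j) / 2, by have := (α j).2; have := (β j).2; omega⟩
    have hm : ∀ j, (α j : ℕ) + β j = 2 * m j := fun j => by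
      have := p2 j
      simp only [m]; omega
    simp only [mem_biUnion, mem_univ, true_and, mem_image]
    refine ⟨T α, m, ?_, ?_⟩
    · simp only [bad, mem_filter, mem_univ, true_and]
      refine (sum_le_sum fun j _ => gg_mid (T α) (α j) (β j) (m j) (hm j) (p3 j)).trans ?_
      rw [sum_sub_distrib, ← sum_div, sum_add_distrib, sum_boole]
      have q1 := hT α
      have q2 := hT β
      rw [← c1] at q2
      have q3 : (w:ℝ) ≤ (univ.filter fun j => α j ≠ β j).card := by exact_mod_cast p4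
      linarith
    · rw [finFunctionFinEquiv_apply, ea, eb, mul_sum, ← sum_add_distrib]
      exact sum_congr rfl fun j _ => by rw [← add_mul, hm j]; ring

lemma refine_nat {κ : Type*} (X : Finset ℕ) (c : ℕ → κ) (f : ℕ → ℕ)
    (hf : ∀ a ∈ X, ∀ b ∈ X, f a = f b → c a = c b) (k : ℕ) (h1 : (X.image f).card ≤ k) (h2 : k ≤ X.card) :
    ∃ g : ℕ → ℕ, (∀ a ∈ X, ∀ b ∈ X, g a = g b → c a = c b) ∧ (X.image g).card = k := by
  induction k, h1 using Nat.le_induction with
  | base => exact ⟨f, hf, rfl⟩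
  | succ k _ ih =>
    obtain ⟨g, hg, hk⟩ := ih (by omega)
    obtain ⟨a, ha, b, hb, hne, hab⟩ := exists_ne_map_eq_of_card_lt_of_maps_to (s := X) (t := X.image g)
      (by omega) (f := g) (fun x hx => mem_image_of_mem g hx)
    obtain ⟨z, hz⟩ := Infinite.exists_notMem_finset (X.image g)
    have hz' : ∀ x ∈ X, g x ≠ z := fun x hx h => hz (h ▸ mem_image_of_mem g hx)
    refine ⟨Function.update g a z, fun x hx y hy h => ?_, ?_⟩
    · by_cases h1 : x = a <;> by_cases h2 : y = a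
      · rw [h1, h2]
      · subst h1
        rw [Function.update_self, Function.update_of_ne h2] at h
        exact absurd h.symm (hz' y hy)
      · subst h2
        rw [Function.update_self, Function.update_of_ne h1] at h
        exact absurd h (hz' x hx)
      · rw [Function.update_of_ne h1, Function.update_of_ne h2] at h
        exact hg x hx y hy h
    · have : X.image (Function.update g a z) = insert z (X.image g) := by
        ext y
        simp only [mem_image, mem_insert]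
        constructor
        · rintro ⟨x, hx, rfl⟩
          by_cases h1 : x = a
          · left; rw [h1, Function.update_self]
          · right; exact ⟨x, hx, (Function.update_of_ne h1 _ _).symm⟩
        · rintro (rfl | ⟨x, hx, rfl⟩)
          · exact ⟨a, ha, Function.update_self _ _ _⟩
          · by_cases h1 : x = a
            · exact ⟨b, hb, by rw [Function.update_of_ne hne.symm, h1, hab]⟩
            · exact ⟨x, hx, Function.update_of_ne h1 _ _⟩
      rw [this, card_insert_of_notMem hz, hk]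

lemma refine_fin {κ : Type*} [Fintype κ] (X : Finset ℕ) (c : ℕ → κ) (k : ℕ) (h1 : Fintype.card κ ≤ k)
    (h2 : k ≤ X.card) : ∃ g : ℕ → Fin k, (∀ a ∈ X, ∀ b ∈ X, g a = g b → c a = c b) ∧
      ∀ i, ∃ a ∈ X, g a = i := by
  classical
  obtain ⟨g, hg, hk⟩ := refine_nat X c (fun a => (Fintype.equivFin κ (c a) : ℕ))
    (fun a _ b _ h => (Fintype.equivFin κ).injective (Fin.ext h)) k (by
      refine le_trans (card_le_card (t := range (Fintype.card κ)) fun y hy => ?_) (by simpa using h1)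
      obtain ⟨x, _, rfl⟩ := mem_image.mp hy
      exact mem_range.mpr (Fin.is_lt _)) h2
  have hpos : 0 < k := lt_of_lt_of_le (Fintype.card_pos_iff.mpr ⟨c 0⟩) h1
  let e := (X.image g).equivFinOfCardEq hk
  refine ⟨fun a => if h : a ∈ X then e ⟨g a, mem_image_of_mem g h⟩ else ⟨0, hpos⟩,
    fun a ha b hb h => ?_, fun i => ?_⟩
  · simp only [dif_pos ha, dif_pos hb] at h
    exact hg a ha b hb (congrArg Subtype.val (e.injective h))
  · obtain ⟨a, ha, h⟩ := mem_image.mp (e.symm i).2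
    refine ⟨a, ha, ?_⟩
    simp only [dif_pos ha, h]
    simp

lemma ar_w {u s q d : ℕ} (hu : 1 ≤ u) (hs : s ≤ 10 * u + 9) (hd : u ≤ d) (hq : d ^ 5 ≤ q) (hq1 : 1 ≤ q) :
    5 * d ^ 3 * (q + 1) * (s + 2) * (s + 1) ≤ 4410 * (q * q) := by
  have h1 : (s + 2) * (s + 1) ≤ (21 * d) * (21 * d) := Nat.mul_le_mul (by omega) (by omega)
  calc 5 * d ^ 3 * (q + 1) * (s + 2) * (s + 1) = 5 * d ^ 3 * (q + 1) * ((s + 2) * (s + 1)) := by ring
    _ ≤ 5 * d ^ 3 * (2 * q) * ((21 * d) * (21 * d)) := by gcongr; omega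
    _ = 4410 * (d ^ 5 * q) := by ring
    _ ≤ _ := by gcongr

theorem few_sums (N : ℕ) (hN : 2 ^ 1024 ≤ N) : ∃ E : ℕ, E * (Nat.log 2 (Nat.log 2 N) + 1) ≤
    5000 * Nat.log 2 N ∧ ∀ k, 2 ^ E ≤ k → k ≤ N → ∃ c : ℕ → Fin k, (∀ i, ∃ a, 1 ≤ a ∧ a ≤ N ∧ c a = i) ∧
      20 * Set.ncard {s : ℕ | ∃ a b : ℕ, 1 ≤ a ∧ a ≤ N ∧ 1 ≤ b ∧ b ≤ N ∧
        a ≠ b ∧ c a = c b ∧ a + b = s} ≤ N := by
  have hN0 : N ≠ 0 := by
    have : 0 < 2 ^ 1024 := by positivity
    omega
  have t1 : 1024 ≤ Nat.log 2 N := Nat.le_log_of_pow_le (by norm_num) hN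
  have t2 := Nat.pow_log_le_self 2 hN0
  have t3 := Nat.lt_pow_succ_log_self (by norm_num : 1 < 2) N
  clear hN
  generalize Nat.log 2 N = t at *
  have s1 : 10 ≤ Nat.log 2 t := Nat.le_log_of_pow_le (by norm_num) (by omega)
  have s2 := Nat.pow_log_le_self 2 (show t ≠ 0 by omega)
  have s3 := Nat.lt_pow_succ_log_self (by norm_num : 1 < 2) t
  generalize Nat.log 2 t = s at *
  obtain ⟨u, hu1, hu2, hu3⟩ : ∃ u, 1 ≤ u ∧ 10 * u ≤ s ∧ s ≤ 10 * u + 9 := ⟨s / 10, by omega, by omega, by omega⟩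
  have l1 := Nat.div_add_mod t u
  have l2 := Nat.mod_lt t (show 0 < u by omega)
  have l3 := Nat.div_le_self t u
  generalize t / u = l at *
  obtain ⟨P, hP, hP1, hP2⟩ := Nat.exists_prime_lt_and_le_two_mul (t + 1) (by omega)
  haveI : Fact P.Prime := ⟨hP⟩
  have d1 : u < 2 ^ u := Nat.lt_two_pow_self
  have d2 : (2 ^ u) ^ 5 * (2 ^ u) ^ 5 ≤ t := by
    rw [← pow_add, ← pow_mul]
    exact le_trans (Nat.pow_le_pow_right (by norm_num) (by omega)) s2
  have d3 : 2 ^ u ≤ t := le_trans (Nat.pow_le_pow_right (by norm_num) (by omega)) s2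
  have d4 : N ≤ (2 ^ u) ^ (l + 1) := by
    rw [← pow_mul]
    exact le_trans t3.le (Nat.pow_le_pow_right (by norm_num) (by rw [mul_add]; omega))
  have d5 : (2 ^ u) ^ (l + 1) ≤ 2 ^ u * N := by
    rw [pow_succ, mul_comm, ← pow_mul]
    exact Nat.mul_le_mul_left _ (le_trans (Nat.pow_le_pow_right (by norm_num) (by omega)) t2)
  have q1 := Nat.sqrt_le t
  have q2 := Nat.lt_succ_sqrt t
  have q3 := Nat.le_sqrt.mpr d2
  have q4 : 1 ≤ Nat.sqrt t := le_trans (Nat.one_le_pow _ _ (by positivity)) q3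
  generalize Nat.sqrt t = q at *
  have d6 : ∀ w : ℕ, 2 ^ u * (2 ^ (l + 1) * (2 ^ (l + 1) * P ^ w)) ≤ 2 ^ (u + 2 * (l + 1) + w * (s + 2)) := by
    intro w
    have : P ^ w ≤ 2 ^ (w * (s + 2)) := by
      rw [mul_comm, pow_mul]
      exact Nat.pow_le_pow_left (by rw [pow_succ] at s3; rw [pow_add]; omega) _
    calc _ ≤ 2 ^ u * (2 ^ (l + 1) * (2 ^ (l + 1) * 2 ^ (w * (s + 2)))) := by gcongr
      _ = _ := by rw [← pow_add, ← pow_add, ← pow_add]; congr 1; ring
  have e1 := ar_w hu1 hu3 d1.le q3 q4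
  have e2 : s < 2 ^ u * 20 := by omega
  have e3 : u * (s + 1) ≤ 20 * t := by
    have : 2 ^ u * 2 ^ u ≤ (2 ^ u) ^ 5 * (2 ^ u) ^ 5 :=
      Nat.mul_le_mul (Nat.le_self_pow (by norm_num) _) (Nat.le_self_pow (by norm_num) _)
    calc u * (s + 1) ≤ 2 ^ u * (2 ^ u * 20) := Nat.mul_le_mul d1.le (by omega)
      _ = 20 * (2 ^ u * 2 ^ u) := by ring
      _ ≤ _ := by omega
  have e4 : l * (s + 1) ≤ 20 * t := by
    calc l * (s + 1) ≤ l * (20 * u) := Nat.mul_le_mul_left _ (by omega)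
      _ = 20 * (u * l) := by ring
      _ ≤ _ := by omega
  haveI : NeZero (2 ^ u) := ⟨by positivity⟩
  generalize 2 ^ u = d at *
  obtain ⟨c0, S, hS, hc0⟩ := core (d := d) (L := l + 1) (w := 5 * d ^ 3 * (q + 1)) (P := P) (by omega) (by omega)
  refine ⟨u + 2 * (l + 1) + 5 * d ^ 3 * (q + 1) * (s + 2), ?_, fun k hk1 hk2 => ?_⟩
  · rw [add_mul, add_mul, mul_assoc 2, add_mul l]
    omega
  obtain ⟨c, h1, h2⟩ := refine_fin (Icc 1 N) (fun a => c0 (a - 1)) k (by
    refine le_trans ?_ ((d6 _).trans hk1)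
    simp) (by simpa using hk2)
  refine ⟨c, fun i => ?_, ?_⟩
  · obtain ⟨a, ha, h⟩ := h2 i
    exact ⟨a, (mem_Icc.mp ha).1, (mem_Icc.mp ha).2, h⟩
  have f1 : Set.ncard {s : ℕ | ∃ a b : ℕ, 1 ≤ a ∧ a ≤ N ∧ 1 ≤ b ∧ b ≤ N ∧
      a ≠ b ∧ c a = c b ∧ a + b = s} ≤ S.card := by
    refine le_trans (Set.ncard_le_ncard (t := ((S.image fun x => x + 2 : Finset ℕ) : Set ℕ)) ?_) ?_
    · rintro _ ⟨a, b, a1, a2, b1, b2, hne, hab, rfl⟩
      have := hc0 (a - 1) (b - 1) (by omega) (by omega) (by omega)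
        (h1 a (mem_Icc.mpr ⟨a1, a2⟩) b (mem_Icc.mpr ⟨b1, b2⟩) hab)
      simp only [coe_image, Set.mem_image, mem_coe]
      exact ⟨_, this, by omega⟩
    · rw [Set.ncard_coe_finset]; exact card_image_le
  have f2 : S.card * (5 * d ^ 3 * (q + 1)) ^ 2 ≤ (l + 1) * d ^ 5 * d ^ (l + 1) := by exact_mod_cast hS
  have f3 : 20 * S.card * (5 * d ^ 3 * (q + 1)) ^ 2 ≤ N * (5 * d ^ 3 * (q + 1)) ^ 2 := by
    calc 20 * S.card * (5 * d ^ 3 * (q + 1)) ^ 2 = 20 * (S.card * (5 * d ^ 3 * (q + 1)) ^ 2) := by ring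
      _ ≤ 20 * ((l + 1) * d ^ 5 * (d * N)) := by
        apply Nat.mul_le_mul_left
        exact f2.trans (by gcongr)
      _ = N * d ^ 6 * (20 * (l + 1)) := by ring
      _ ≤ N * d ^ 6 * (25 * ((q + 1) * (q + 1))) := by
        apply Nat.mul_le_mul_left
        simp only [Nat.succ_eq_add_one] at q2
        omega
      _ = _ := by ring
  have f4 := Nat.le_of_mul_le_mul_right f3 (by have := NeZero.pos d; positivity)
  omega

end Pool.Agent.H57.SumCol
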