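import Pool.Agent.H57.Pr0

set_option autoImplicit false

namespace Pool.Agent.H57.SymRect

open Set Function MeasurableSpace MeasureTheory

/-- every subset of the plane is generated by rectangles -/
abbrev Rect : Prop := ∀ S : Set (ℝ × ℝ), MeasurableSet[generateFrom
  {T : Set (ℝ × ℝ) | ∃ A B : Set ℝ, T = A ×ˢ B}] S

theorem joint (hR : Rect) {X J : Type} [MeasurableSpace X] (f : J → X → ℝ)
    (hf : ∀ j W, MeasurableSet (f j ⁻¹' W)) (s : Finset J) : ∃ φ : X → ℝ,
    (∀ W, MeasurableSet (φ ⁻¹' W)) ∧ ∀ x y, φ x = φ y → ∀ j ∈ s, f j x = f j y := by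
  classical
  obtain ⟨e⟩ : Nonempty (ℝ × ℝ ↪ ℝ) := (Cardinal.le_def _ _).1 (by simp)
  induction s using Finset.induction_on with
  | empty => exact ⟨fun _ => 0, fun W => by by_cases h : (0 : ℝ) ∈ W <;> simp [h], by simp⟩
  | insert j s _ ih =>
    obtain ⟨φ, h1, h2⟩ := ih
    refine ⟨fun x => e (φ x, f j x), fun W => measurable_generateFrom (f := fun x => (φ x, f j x))
      (by rintro _ ⟨A, B, rfl⟩; exact (h1 A).inter (hf j B)) (hR (e ⁻¹' W)), fun x y h => ?_⟩
    obtain ⟨h3, h4⟩ := Prod.ext_iff.1 (e.injective h)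
    simpa using ⟨h4, h2 x y h3⟩

variable {G : Type} [AddCommGroup G]

/-- the sigma-algebra of subgroups -/
abbrev sg (G : Type) [AddCommGroup G] : MeasurableSpace G :=
  generateFrom {S : Set G | ∃ H : AddSubgroup G, (H : Set G) = S}

theorem pm {Q : Type} [AddCommGroup Q] [Module ℚ Q] (F : G →+ Q) (q : Q) :
    MeasurableSet[sg G] {x | F x = q ∨ F x = -q} := by
  have h : ∀ w : Q, MeasurableSet[sg G] (F ⁻¹' AddSubgroup.zmultiples w) := fun w =>
    measurableSet_generateFrom ⟨(AddSubgroup.zmultiples w).comap F, rfl⟩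
  rcases eq_or_ne q 0 with rfl | hq
  · simpa [preimage] using h 0
  convert (h q).diff (MeasurableSet.biUnion (to_countable {m : ℤ | m ≠ 1 ∧ m ≠ -1})
    fun m _ => h (m • q))
  have k : ∀ a b : ℤ, a • q = b • q → a = b := fun a b hab => by
    rw [← Int.cast_smul_eq_zsmul ℚ, ← Int.cast_smul_eq_zsmul ℚ] at hab
    exact_mod_cast smul_left_injective ℚ hq hab
  ext x
  simp only [mem_ofPred_eq, mem_sdiff, mem_preimage, SetLike.mem_coe,
    AddSubgroup.mem_zmultiples_iff, mem_iUnion, not_exists]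
  refine ⟨fun h => ⟨h.elim (fun h => ⟨1, by simp [h]⟩) fun h => ⟨-1, by simp [h]⟩,
    fun m hm n hn => ?_⟩, fun ⟨⟨n, hn⟩, h⟩ => ?_⟩
  · rw [smul_smul] at hn
    rcases h with h | h
    · have := Int.eq_one_or_neg_one_of_mul_eq_one' (k (n * m) 1 (by simp [hn, h]))
      grind
    · have := Int.eq_one_or_neg_one_of_mul_eq_neg_one' (k (n * m) (-1) (by simp [hn, h]))
      grind
  · by_contra hc
    refine h n ⟨?_, ?_⟩ 1 (by simp [hn]) <;> rintro rfl <;> simp [← hn] at hc

open Classical in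
/-- the point of a finite set in a cell -/
noncomputable def pt {J : Type} (cell : ℝ → J) (s : Finset ℝ) (k : J) : ℝ :=
  if h : ∃ t ∈ s, cell t = k then h.choose else 0

theorem pt_mem {J : Type} {cell : ℝ → J} {c : ℝ →₀ ℚ} {k : J}
    (h : k ∈ (c.mapDomain cell).support) :
    pt cell c.support k ∈ c.support ∧ cell (pt cell c.support k) = k := by
  classical
  have : ∃ t ∈ c.support, cell t = k := Finset.mem_image.1 (Finsupp.mapDomain_support h)
  rw [pt, dif_pos this]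
  exact this.choose_spec

theorem det {J : Type} {cell : ℝ → J} {c c' : ℝ →₀ ℚ} (h1 : InjOn cell c.support)
    (h2 : InjOn cell c'.support) (h3 : c.mapDomain cell = c'.mapDomain cell)
    (h4 : ∀ k ∈ (c.mapDomain cell).support, pt cell c.support k = pt cell c'.support k) :
    c = c' := by
  have key : ∀ c c' : ℝ →₀ ℚ, InjOn cell c.support → InjOn cell c'.support →
      c.mapDomain cell = c'.mapDomain cell → (∀ k ∈ (c.mapDomain cell).support,
        pt cell c.support k = pt cell c'.support k) → ∀ t ∈ c.support, c t = c' t := by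
    intro c c' h1 h2 h3 h4 t ht
    have k1 := Finsupp.mapDomain_apply' _ c Subset.rfl h1 ht
    have k2 : cell t ∈ (c.mapDomain cell).support := by
      rw [Finsupp.mem_support_iff, k1]; exact Finsupp.mem_support_iff.1 ht
    have k3 := (pt_mem (h3 ▸ k2)).1
    rw [← h4 _ k2, h1 (pt_mem k2).1 ht (pt_mem k2).2] at k3
    rw [← k1, h3, Finsupp.mapDomain_apply' _ c' Subset.rfl h2 k3]
  ext t
  by_cases h : t ∈ c.support
  · exact key c c' h1 h2 h3 h4 t h
  by_cases h' : t ∈ c'.support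
  · exact (key c' c h2 h1 h3.symm (fun k hk => (h4 k (h3 ▸ hk)).symm) t h').symm
  · rw [Finsupp.notMem_support_iff.1 h, Finsupp.notMem_support_iff.1 h']

theorem of_rect (hR : Rect) (e : G ≃+ (ℝ →₀ ℚ)) (Z : Set G) (hZ : ∀ z ∈ Z, -z ∈ Z) :
    MeasurableSet[sg G] Z := by
  classical
  letI := sg G
  have hK : ∀ A : Set ℝ, MeasurableSet {x | ∀ t ∈ (e x).support, t ∉ A} := fun A =>
    measurableSet_generateFrom ⟨(Finsupp.supported ℚ ℚ Aᶜ).toAddSubgroup.comap e.toAddMonoidHom,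
      rfl⟩
  let cell : Finset ℚ → ℝ → Finset ℚ := fun w t => w.filter (· < t)
  let P : Finset ℚ × (Finset ℚ →₀ ℚ) → Set G := fun p => {x | InjOn (cell p.1) (e x).support ∧
    ((e x).mapDomain (cell p.1) = p.2 ∨ (e x).mapDomain (cell p.1) = -p.2)}
  have hP : ∀ p, MeasurableSet (P p) := fun p => by
    refine MeasurableSet.inter (s₁ := {x | InjOn (cell p.1) (e x).support}) ?_ (pm ((Finsupp.mapDomain.addMonoidHom (cell p.1)).comp
      e.toAddMonoidHom) p.2)
    convert MeasurableSet.iInter fun r : Finset ℚ × ℚ =>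
      (hK {t | cell p.1 t = r.1 ∧ r.2 < t}).union (hK {t | cell p.1 t = r.1 ∧ t ≤ r.2})
    ext x
    simp only [mem_iInter, mem_union, mem_ofPred_eq]
    refine ⟨fun h r => by_contra fun hn => ?_, fun h a ha b hb k => ?_⟩
    · push Not at hn
      obtain ⟨⟨a, a1, a2, a3⟩, b, b1, b2, b3⟩ := hn
      exact (b3.trans_lt a3).ne' (h a1 b1 (a2.trans b2.symm))
    · wlog hab : a ≤ b generalizing a b
      · exact (this b hb a ha k.symm (le_of_not_ge hab)).symm
      refine hab.eq_or_lt.resolve_right fun hab => ?_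
      obtain ⟨r, r1, r2⟩ := exists_rat_btwn hab
      exact (h (cell p.1 b, r)).elim (fun h => h b hb ⟨rfl, r2⟩) fun h => h a ha ⟨k, r1.le⟩
  have hs : ∀ p, ∀ x ∈ P p, ((e x).mapDomain (cell p.1)).support = p.2.support := fun p x hx => by
    rcases hx.2 with h | h <;> simp [h]
  convert MeasurableSet.iUnion fun p => (?_ : MeasurableSet (P p ∩ Z))
  · refine Subset.antisymm (fun x hx => ?_) (iUnion_subset fun _ => inter_subset_right)
    obtain ⟨w, hw⟩ := Pr.sep (fun t : ℝ => {r : ℚ | r < t}) (e x).support fun a _ b _ h =>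
      eq_of_forall_rat_lt_iff_lt fun r => Set.ext_iff.1 h r
    exact mem_iUnion.2 ⟨(w, (e x).mapDomain (cell w)), ⟨fun a ha b hb h => hw a ha b hb fun r hr => by
      simpa [cell, hr] using Finset.ext_iff.1 h r, Or.inl rfl⟩, hx⟩
  obtain ⟨φ, h1, h2⟩ := joint hR (X := P p) (fun (k : p.2.support) x => pt (cell p.1) (e x).support k)
    (fun k W => by
      convert measurable_subtype_coe (hK {t | cell p.1 t = k ∧ t ∉ W})
      ext ⟨x, hx⟩
      obtain ⟨k1, k2⟩ := pt_mem ((hs p x hx).symm.subset k.2)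
      exact ⟨fun h t ht k3 => k3.2 (hx.1 k1 ht (k2.trans k3.1.symm) ▸ h),
        fun h => not_not.1 fun hn => h _ k1 ⟨k2, hn⟩⟩) Finset.univ
  rw [← Subtype.image_preimage_coe]
  refine (hP p).subtype_image ?_
  convert h1 (φ '' (Subtype.val ⁻¹' Z))
  refine Subset.antisymm (subset_preimage_image _ _) fun ⟨x, hx⟩ ⟨⟨y, hy⟩, h3, h4⟩ => ?_
  have h5 := fun k hk => h2 _ _ h4 ⟨k, (hs p y hy).subset hk⟩ (Finset.mem_univ _)
  have h6 : (e (-x)).mapDomain (cell p.1) = -(e x).mapDomain (cell p.1) := by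
    rw [map_neg]; exact map_neg (Finsupp.mapDomain.addMonoidHom (cell p.1)) _
  by_cases h : (e y).mapDomain (cell p.1) = (e x).mapDomain (cell p.1)
  · exact e.injective (det hy.1 hx.1 h h5) ▸ h3
  · have := e.injective (det (c' := e (-x)) hy.1 (by simpa using hx.1)
      (by rcases hx.2 with a | a <;> rcases hy.2 with b | b <;> simp_all) (by simpa using h5))
    simpa [this] using hZ y h3

theorem diag (f g : ℝ → ℝ) : MeasurableSet[generateFrom {T : Set (ℝ × ℝ) | ∃ A B : Set ℝ,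
    T = A ×ˢ B}] {p | f p.1 = g p.2} := by
  letI := generateFrom {T : Set (ℝ × ℝ) | ∃ A B : Set ℝ, T = A ×ˢ B}
  exact measurableSet_eq_fun
    (fun A _ => measurableSet_generateFrom ⟨f ⁻¹' A, univ, by ext; simp⟩)
    fun A _ => measurableSet_generateFrom ⟨univ, g ⁻¹' A, by ext; simp⟩

theorem rect_of_ch (hCH : Cardinal.continuum.{0} = Cardinal.aleph 1) : Rect := fun S => by
  obtain ⟨j⟩ : Nonempty (ℝ ≃ Lots.W1) := Cardinal.eq.1 (by
    rw [Cardinal.mk_real, hCH, Lots.mk_W1])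
  choose u hu using fun x => (((Cardinal.countable_iff_lt_aleph_one _).2
    (Pr.R1.iic (j x))).preimage j.injective).exists_eq_range ⟨x, le_refl (j x)⟩
  letI := generateFrom {T : Set (ℝ × ℝ) | ∃ A B : Set ℝ, T = A ×ˢ B}
  convert MeasurableSet.iUnion fun n => ((diag (u · n) id).inter (measurableSet_generateFrom
    ⟨{x | (x, u x n) ∈ S}, univ, rfl⟩)).union ((diag id (u · n)).inter
      (measurableSet_generateFrom ⟨univ, {y | (u y n, y) ∈ S}, rfl⟩))
  ext ⟨x, y⟩
  simp only [mem_iUnion, mem_union, mem_inter_iff, mem_ofPred_eq, mem_prod, mem_univ, id]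
  refine ⟨fun h => ?_, ?_⟩
  · rcases le_total (j y) (j x) with k | k
    · obtain ⟨n, rfl⟩ := (hu x).subset k
      exact ⟨n, Or.inl ⟨rfl, h, trivial⟩⟩
    · obtain ⟨n, rfl⟩ := (hu y).subset k
      exact ⟨n, Or.inr ⟨rfl, trivial, h⟩⟩
  · rintro ⟨n, ⟨rfl, h, -⟩ | ⟨rfl, -, h⟩⟩ <;> exact h

theorem to_rect (e : ℝ ≃+ (ℝ →₀ ℚ)) (h : ∀ Z : Set ℝ, (∀ z ∈ Z, -z ∈ Z) → MeasurableSet[sg ℝ] Z) :
    Rect := fun S => by
  classical
  let m : ℝ × ℝ → ℝ := fun p => e.symm (Finsupp.single p.1 1) + e.symm (Finsupp.single p.2 2)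
  have h1 := diag
  convert @measurable_generateFrom _ _ (generateFrom {T : Set (ℝ × ℝ) | ∃ A B : Set ℝ,
      T = A ×ˢ B}) _ m (by
    rintro _ ⟨H, rfl⟩
    convert h1 (fun x => (QuotientAddGroup.mk (-e.symm (Finsupp.single x 1)) : ℝ ⧸ H).out)
      fun y => (QuotientAddGroup.mk (e.symm (Finsupp.single y 2)) : ℝ ⧸ H).out
    ext p
    rw [mem_ofPred_eq, Quotient.out_inj, QuotientAddGroup.eq, neg_neg]
    rfl) _
    (h (m '' S ∪ -m '' S) fun z hz => hz.symm.imp id (by simp))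
  ext ⟨x, y⟩
  refine ⟨fun h => Or.inl ⟨_, h, rfl⟩, ?_⟩
  rintro (⟨⟨a, b⟩, h2, h3⟩ | ⟨⟨a, b⟩, -, h3⟩)
  · simp only [m, ← map_add, e.symm.injective.eq_iff, Finsupp.ext_iff, Finsupp.add_apply,
      Finsupp.single_apply] at h3
    have := h3 a
    have := h3 b
    have := h3 x
    have : a = x ∧ b = y := by grind
    exact this.1 ▸ this.2 ▸ h2
  · simp only [m, ← map_add, ← map_neg, e.symm.injective.eq_iff, Finsupp.ext_iff,
      Finsupp.add_apply, Finsupp.neg_apply, Finsupp.single_apply] at h3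
    have := h3 a
    grind

theorem main : (∀ Z : Set ℝ, (∀ z ∈ Z, -z ∈ Z) → MeasurableSet[sg ℝ] Z) ↔ Rect := by
  obtain ⟨e⟩ : Nonempty (ℝ ≃ₗ[ℚ] (ℝ →₀ ℚ)) := LinearEquiv.nonempty_equiv_iff_rank_eq.2 (by
    simp [Real.rank_rat_real, Cardinal.mk_real])
  exact ⟨to_rect e.toAddEquiv, fun h => of_rect h e.toAddEquiv⟩

end Pool.Agent.H57.SymRect
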