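import Pool.Agent.H57.TStarDefs
import Pool.Agent.H57.SplAdd

set_option autoImplicit false

namespace Pool.Agent.H57.TStar

open Set Cardinal Order Filter Topology Pool.Agent.H57.Lots Pool.Agent.H57.Coh Pool.Agent.H57.Aro

abbrev N : Type := Σ k : ℕ, Fin (k + 1) → Bool

def v (k : ℕ) (x : ℕ → Bool) : Fin (k + 1) → Bool := fun i => x (Nat.pair k i)

theorem v_surj (g : ∀ k : ℕ, Fin (k + 1) → Bool) : ∃ x, ∀ k, v k x = g k :=
  ⟨fun n => if h : n.unpair.2 < n.unpair.1 + 1 then g _ ⟨_, h⟩ else false, fun k => funext fun i => by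
    have e1 : (Nat.pair k i).unpair.1 = k := by simp
    have e2 : (Nat.pair k i).unpair.2 = i := by simp
    have : ∀ (a b : ℕ) (h : b < a + 1), a = k → b = i → g a ⟨b, h⟩ = g k i := by
      rintro _ _ _ rfl rfl; rfl
    simp only [v]
    rw [dif_pos (by rw [e1, e2]; exact i.2)]
    exact this _ _ _ e1 e2⟩

def Big (t : Set N) : Prop :=
  ∀ j, ∃ k, j ≤ k ∧ ∃ F : Finset (Fin (k + 1) → Bool), j ≤ F.card ∧ ∀ s ∈ F, (⟨k, s⟩ : N) ∈ t

theorem fin_lt (k : ℕ) : {m : N | m.1 < k}.Finite :=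
  ((finite_lt_nat k).biUnion fun j _ => finite_range (Sigma.mk (β := fun k => Fin (k + 1) → Bool) j)).subset
    fun m hm => mem_iUnion₂.2 ⟨m.1, hm, m.2, rfl⟩

theorem fin_bd' {s : Set N} (hs : s.Finite) : ∃ k, ∀ m ∈ s, m.1 < k := by
  obtain ⟨k, hk⟩ := (hs.image Sigma.fst).bddAbove
  exact ⟨k + 1, fun m hm => Nat.lt_succ_of_le (hk ⟨m, hm, rfl⟩)⟩

theorem Big.inf {t : Set N} (h : Big t) : t.Infinite := fun hf => by
  obtain ⟨k, hk⟩ := fin_bd' hf
  obtain ⟨l, h1, F, h2, h3⟩ := h (k + 1)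
  obtain ⟨s, hs⟩ := Finset.card_pos.1 (by omega : 0 < F.card)
  have := hk _ (h3 s hs)
  dsimp only at this
  omega

theorem tower (hCH : (𝔠 : Cardinal.{0}) = ℵ₁) : ∃ t : (ℕ → Bool) → Set N,
    (∀ x, (t x).Infinite ∧ ∀ k, (⟨k, v k x⟩ : N) ∉ t x) ∧
      ∀ x y, (t x \ t y).Finite ∨ (t y \ t x).Finite := by
  classical
  obtain ⟨f, h1, h2⟩ := SplAdd.gen (T := {t // Big t}) (I := ℕ → Bool)
    (fun a b => (b.1 \ a.1).Finite)
    (fun a b c h h' => (h.union h').subset fun m hm => by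
      by_cases h1 : m ∈ b.1
      exacts [Or.inl ⟨h1, hm.2⟩, Or.inr ⟨hm.1, h1⟩])
    (fun a f hf => by
      rcases isEmpty_or_nonempty (Iio a) with h0 | h0
      · refine ⟨⟨univ, fun j => ⟨j, le_rfl, Finset.univ, ?_, fun _ _ => trivial⟩⟩, fun b => isEmptyElim b⟩
        simp only [Finset.card_univ, Fintype.card_pi, Fintype.card_bool, Finset.prod_const,
          Fintype.card_fin]
        exact (Nat.le_succ j).trans Nat.lt_two_pow_self.le
      haveI := (Iio_countable a).to_subtype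
      obtain ⟨g, hg⟩ := exists_surjective_nat (Iio a)
      have h1 : ∀ j, ∃ k, j ≤ k ∧ ∃ F : Finset (Fin (k + 1) → Bool), j ≤ F.card ∧
          ∀ s ∈ F, ∀ i ≤ j, (⟨k, s⟩ : N) ∈ (f (g i)).1 := fun j => by
        obtain ⟨i0, -, h2⟩ := exists_max_image (Iic j) g (finite_le_nat j) ⟨0, j.zero_le⟩
        obtain ⟨l, hl⟩ := fin_bd' ((finite_le_nat j).biUnion fun i hi =>
          show ((f (g i0)).1 \ (f (g i)).1).Finite by
            rcases (h2 i hi).eq_or_lt with h | h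
            · simp [h]
            · exact hf _ _ h)
        obtain ⟨k, h3, F, h4, h5⟩ := (f (g i0)).2 (max j l)
        refine ⟨k, by omega, F, by omega, fun s hs i hi => ?_⟩
        by_contra hn
        have := hl _ (mem_biUnion hi ⟨h5 s hs, hn⟩)
        dsimp only at this
        omega
      choose k h2 F h3 h4 using h1
      refine ⟨⟨{m | ∃ j, ∃ s ∈ F j, m = ⟨k j, s⟩}, fun j => ⟨k j, h2 j, F j, h3 j,
        fun s hs => ⟨j, s, hs, rfl⟩⟩⟩, fun b => ?_⟩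
      obtain ⟨i, rfl⟩ := hg b
      refine ((finite_lt_nat i).biUnion fun j _ =>
        finite_range (Sigma.mk (β := fun k => Fin (k + 1) → Bool) (k j))).subset ?_
      rintro _ ⟨⟨j, s, hs, rfl⟩, hn⟩
      exact mem_iUnion₂.2 ⟨j, not_le.1 fun h => hn (h4 j s hs i h), s, rfl⟩)
    (by rw [← hCH]; simp) (fun x t => ∀ k, (⟨k, v k x⟩ : N) ∉ t.1) (fun x t =>
      ⟨⟨{m | m ∈ t.1 ∧ m.2 ≠ v m.1 x}, fun j => by
        obtain ⟨k, h1, F, h2, h3⟩ := t.2 (j + 1)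
        refine ⟨k, by omega, F.erase (v k x), ?_, fun s hs =>
          ⟨h3 s (Finset.mem_of_mem_erase hs), Finset.ne_of_mem_erase hs⟩⟩
        have := Finset.pred_card_le_card_erase (s := F) (a := v k x)
        omega⟩, finite_empty.subset fun m hm => hm.2 hm.1.1, fun k hk => hk.2 rfl⟩)
  choose a ha using h2
  refine ⟨fun x => (f (a x)).1, fun x => ⟨(f (a x)).2.inf, ha x⟩, fun x y => ?_⟩
  rcases lt_trichotomy (a x) (a y) with h | h | h
  exacts [Or.inr (h1 _ _ h), Or.inl (by simp [h]), Or.inl (h1 _ _ h)]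

theorem neg (hCH : (𝔠 : Cardinal.{0}) = ℵ₁) : ¬ TStarGamma (ℕ → Bool) := fun h => by
  classical
  obtain ⟨t, h1, h2⟩ := tower hCH
  haveI : Infinite N := Infinite.of_injective (fun k => (⟨k, fun _ => true⟩ : N))
    fun _ _ h => congrArg Sigma.fst h
  obtain ⟨e⟩ := nonempty_equiv_of_countable (α := ℕ) (β := N)
  have h3 : ∀ x, e ⁻¹' t x ⊆ {n | x ∈ {x | v (e n).1 x ≠ (e n).2}} := fun x n hn h =>
    (h1 x).2 (e n).1 (h ▸ hn)
  have h4 : ∀ x, (e ⁻¹' t x).Infinite := fun x => (h1 x).1.preimage (by simp)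
  have key : TauStar fun n => {x | v (e n).1 x ≠ (e n).2} := by
    refine ⟨fun m n hmn => ?_, fun n => ⟨?_, fun h => ?_⟩, fun x => (h4 x).mono (h3 x),
      fun y => if h : y ∈ range fun x => {n | x ∈ {x | v (e n).1 x ≠ (e n).2}} then
        e ⁻¹' t h.choose else ∅, fun y hy => ?_, fun y hy z hz => ?_⟩
    · refine e.injective ?_
      beta_reduce at hmn
      generalize e m = p at hmn
      generalize e n = q at hmn
      obtain ⟨k, s⟩ := p
      obtain ⟨l, r⟩ := q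
      obtain ⟨x, hx⟩ := v_surj (Function.update (fun j _ => !r 0) k s)
      have h5 : v l x = r := not_not.1 fun h => ((Set.ext_iff.1 hmn x).2 h) (by simp [hx])
      rw [hx] at h5
      by_cases h : l = k
      · subst h
        rw [← h5]; simp
      · rw [Function.update_of_ne h] at h5
        simpa using congrFun h5 0
    · exact isOpen_ne_fun (continuous_pi fun i => continuous_apply _) continuous_const
    · obtain ⟨x, hx⟩ := v_surj (Function.update (fun _ _ => true) (e n).1 (e n).2)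
      exact (Set.ext_iff.1 h x).2 trivial (by simp [hx])
    · beta_reduce
      rw [dif_pos hy]
      exact ⟨(h3 _).trans hy.choose_spec.subset, h4 _⟩
    · beta_reduce
      rw [dif_pos hy, dif_pos hz]
      rw [← preimage_diff, ← preimage_diff]
      exact (h2 _ _).imp (fun h => h.preimage e.injective.injOn) fun h => h.preimage e.injective.injOn
  obtain ⟨B, hB, hB'⟩ := h _ key
  have : ∀ k, ∃ s, (∃ s, (⟨k, s⟩ : N) ∈ e '' B) → (⟨k, s⟩ : N) ∈ e '' B := fun k => by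
    by_cases h : ∃ s, (⟨k, s⟩ : N) ∈ e '' B
    exacts [h.imp fun _ h _ => h, ⟨fun _ => true, fun h' => absurd h' h⟩]
  choose g hg using this
  obtain ⟨x, hx⟩ := v_surj g
  obtain ⟨k, hk⟩ := fin_bd' ((hB' x).image e)
  obtain ⟨_, ⟨n, hn, rfl⟩, h5⟩ := ((hB.image e.injective.injOn).diff (fin_lt k)).nonempty
  obtain ⟨m, h6, h7⟩ := hg (e n).1 ⟨_, n, hn, rfl⟩
  refine h5 (hk ⟨(e n).1, g (e n).1⟩ ⟨m, ⟨h6, ?_⟩, h7⟩)
  rw [h7]
  exact fun h => h (hx _)

theorem coinitial (h : NoOmegaTwoChain) {T : Set (Set ℕ)}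
    (hT : ∀ y ∈ T, ∀ z ∈ T, (y \ z).Finite ∨ (z \ y).Finite) :
    ∃ S ⊆ T, #S ≤ ℵ₁ ∧ ∀ y ∈ T, ∃ z ∈ S, (z \ y).Finite := by
  by_contra hn
  push Not at hn
  have h1 : ∀ (a : (ℵ_ 2 : Cardinal.{0}).ord.ToType) (r : Iio a → T),
      ∃ y : T, ∀ i, ((r i).1 \ y.1).Infinite := fun a r => by
    obtain ⟨y, hy, hy'⟩ := hn (range fun i => (r i).1) (range_subset_iff.2 fun i => (r i).2)
      (mk_range_le.trans (Order.lt_succ_iff.1 ((mk_Iio_lt a (by simp)).trans_eq (by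
        rw [mk_ord_toType, succ_aleph, one_add_one_eq_two]))))
    exact ⟨⟨y, hy⟩, fun i => hy' _ ⟨i, rfl⟩⟩
  choose F hF using h1
  let s : (ℵ_ 2 : Cardinal.{0}).ord.ToType → T :=
    wellFounded_lt.fix fun x rc => F x fun i => rc i.1 i.2
  have hs : ∀ x, s x = F x fun i => s i.1 := fun x => WellFounded.fix_eq _ _ _
  refine h ⟨fun a => s a, fun a b hab => ?_⟩
  have : ((s a).1 \ (s b).1).Infinite := by
    rw [hs b]; exact hF b (fun i => s i.1) ⟨a, hab⟩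
  exact ⟨(hT _ (s a).2 _ (s b).2).resolve_left this, this⟩

theorem diag (B : ℕ → Set ℕ) (h : ∀ j, (⋂ i ≤ j, B i).Infinite) :
    ∃ A : Set ℕ, A.Infinite ∧ ∀ i, (A \ B i).Finite := by
  choose n h1 h2 using fun j => (h j).exists_gt j
  refine ⟨range n, infinite_of_forall_exists_gt fun j => ⟨_, ⟨j, rfl⟩, h2 j⟩,
    fun i => ((finite_lt_nat i).image n).subset ?_⟩
  rintro _ ⟨⟨j, rfl⟩, hj⟩
  exact ⟨j, not_le.1 fun h => hj (mem_iInter₂.1 (h1 j) i h), rfl⟩

theorem pseudo {T : Set (Set ℕ)} (hc : T.Countable) (hi : ∀ y ∈ T, y.Infinite)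
    (hT : ∀ y ∈ T, ∀ z ∈ T, (y \ z).Finite ∨ (z \ y).Finite) :
    ∃ A : Set ℕ, A.Infinite ∧ ∀ y ∈ T, (A \ y).Finite := by
  rcases T.eq_empty_or_nonempty with rfl | hne
  · exact ⟨univ, infinite_univ, by simp⟩
  obtain ⟨B, rfl⟩ := hc.exists_eq_range hne
  have h1 : ∀ j, ∃ k, (B k \ ⋂ i ≤ j, B i).Finite := fun j => by
    induction j with
    | zero => exact ⟨0, by simp⟩
    | succ j ih =>
      obtain ⟨k, hk⟩ := ih
      rw [biInter_le_succ]
      rcases hT _ ⟨k, rfl⟩ _ ⟨j + 1, rfl⟩ with h | h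
      · exact ⟨k, by rw [sdiff_inter]; exact hk.union h⟩
      · refine ⟨j + 1, (hk.union h).subset fun n hn => ?_⟩
        by_cases h2 : n ∈ B k
        exacts [Or.inl ⟨h2, fun h3 => hn.2 ⟨h3, hn.1⟩⟩, Or.inr ⟨hn.1, h2⟩]
  obtain ⟨A, h2, h3⟩ := diag B fun j => by
    obtain ⟨k, hk⟩ := h1 j
    exact ((hi _ ⟨k, rfl⟩).diff hk).mono fun n hn => not_not.1 fun h => hn.2 ⟨hn.1, h⟩
  exact ⟨A, h2, forall_mem_range.2 h3⟩

theorem pos (hc : ℵ₁ < covMeager) (h2 : NoOmegaTwoChain) (X : Type) [TopologicalSpace X]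
    [CompactSpace X] : TStarGamma X := by
  classical
  rintro U ⟨-, hU, -, r, hr, hr'⟩
  let T := r '' range fun x => {n | x ∈ U n}
  have hT : ∀ y ∈ T, ∀ z ∈ T, (y \ z).Finite ∨ (z \ y).Finite := by
    rintro _ ⟨y, hy, rfl⟩ _ ⟨z, hz, rfl⟩
    exact hr' y hy z hz
  have hT' : ∀ y ∈ T, y.Infinite := by
    rintro _ ⟨y, hy, rfl⟩
    exact (hr y hy).2
  let Q : Finset ℕ → Set ℕ → Prop := fun s B =>
    ∀ x, (∀ n ∈ s, x ∉ U n) → {n | n ∈ B ∧ x ∉ U n}.Finite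
  let P : Finset ℕ → Prop := fun s => ∃ S ⊆ T, S.Countable ∧ ∀ B : Set ℕ, B.Infinite →
    (∀ y ∈ S, (B \ y).Finite) → ∃ B' ⊆ B, B'.Infinite ∧ Q s B'
  have step : ∀ s, ∀ t ∈ T, ∀ k, (∀ n ∈ t, k < n → P (insert n s)) → P s := by
    intro s t ht k h
    choose S h3 h4 h5 using fun n : {n | n ∈ t ∧ k < n} => h n n.2.1 n.2.2
    refine ⟨insert t (⋃ n, S n), insert_subset ht (iUnion_subset h3),
      (countable_iUnion h4).insert t, fun B hB hB' => ?_⟩
    have h6 : ∀ (n : ℕ) (D : {D : Set ℕ // D ⊆ B ∧ D.Infinite}),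
        ∃ D' : {D : Set ℕ // D ⊆ B ∧ D.Infinite}, D'.1 ⊆ D.1 ∧
          (n ∈ t → k < n → Q (insert n s) D'.1) := fun n D => by
      by_cases hn : n ∈ t ∧ k < n
      · obtain ⟨B', h6, h7, h8⟩ := h5 ⟨n, hn⟩ D.1 D.2.2 fun y hy =>
          (hB' y (Or.inr (mem_iUnion.2 ⟨_, hy⟩))).subset (sdiff_subset_sdiff_left D.2.1)
        exact ⟨⟨B', h6.trans D.2.1, h7⟩, h6, fun _ _ => h8⟩
      · exact ⟨D, subset_rfl, fun h h' => absurd ⟨h, h'⟩ hn⟩
    choose G h7 h8 using h6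
    let D : ℕ → {D : Set ℕ // D ⊆ B ∧ D.Infinite} := fun n => Nat.rec ⟨B, subset_rfl, hB⟩ G n
    have hD : Antitone fun n => (D n).1 := antitone_nat_of_succ_le fun n => h7 n _
    obtain ⟨A, h9, h10⟩ := diag (fun n => (D n).1) fun j =>
      (D j).2.2.mono (subset_iInter₂ fun i hi => hD hi)
    refine ⟨A ∩ B, inter_subset_right, (h9.diff (h10 0)).mono fun n hn =>
      ⟨hn.1, not_not.1 fun h => hn.2 ⟨hn.1, h⟩⟩, fun x hx => ?_⟩
    by_contra hn
    obtain ⟨n, h11, h12⟩ := (Set.Infinite.diff hn (hB' t (mem_insert _ _))).exists_gt k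
    refine hn (((h8 n (D n) (not_not.1 fun h => h11.2 ⟨h11.1.1.2, h⟩) h12 x ?_).union
      (h10 (n + 1))).subset fun m hm => ?_)
    · simpa using ⟨h11.1.2, hx⟩
    · by_cases h : m ∈ (D (n + 1)).1
      exacts [Or.inl ⟨h, hm.2⟩, Or.inr ⟨hm.1.1, h⟩]
  by_contra hn
  have h0 : ¬ P ∅ := fun ⟨S, h3, h4, h5⟩ => by
    obtain ⟨A, h6, h7⟩ := pseudo h4 (fun y hy => hT' y (h3 hy)) fun y hy z hz =>
      hT y (h3 hy) z (h3 hz)
    obtain ⟨B, -, h8, h9⟩ := h5 A h6 h7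
    exact hn ⟨B, h8, fun x => h9 x (by simp)⟩
  let s : (ℕ → ℕ) → ℕ → Finset ℕ := fun f i =>
    Nat.rec ∅ (fun i s => if P (insert (f i) s) then s else insert (f i) s) i
  have hs : ∀ f i, s f (i + 1) =
      if P (insert (f i) (s f i)) then s f i else insert (f i) (s f i) := fun _ _ => rfl
  have hs1 : ∀ f i, ¬ P (s f i) := fun f i => by
    induction i with
    | zero => exact h0
    | succ i ih => rw [hs]; split_ifs <;> assumption
  have hs2 : ∀ f g i, (∀ j < i, f j = g j) → s f i = s g i := fun f g i => by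
    induction i with
    | zero => exact fun _ => rfl
    | succ i ih =>
      exact fun h => by rw [hs, hs, ih fun j hj => h j (by omega), h i (by omega)]
  obtain ⟨S, h3, h4, h5⟩ := coinitial h2 hT
  let O : S → ℕ → Set (ℕ → ℕ) := fun t k => {f | ∃ i, ∃ n ∈ s f i, n ∈ t.1 ∧ k < n}
  have hO : ∀ t, IsMeagre (⋂ k, O t k)ᶜ := fun t => by
    rw [IsMeagre, compl_compl]
    refine countable_iInter_mem.2 fun k => residual_of_dense_open
      (isOpen_iff_mem_nhds.2 fun f ⟨i, hi⟩ => mem_of_superset ((PiNat.isOpen_cylinder _ f i).mem_nhds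
        (PiNat.self_mem_cylinder _ _)) fun g hg => ⟨i, by rwa [hs2 g f i hg]⟩) ?_
    refine (PiNat.isTopologicalBasis_cylinders fun _ : ℕ => ℕ).dense_iff.2 ?_
    rintro _ ⟨f, i, rfl⟩ -
    obtain ⟨n, h6, h7, h8⟩ : ∃ n ∈ t.1, k < n ∧ ¬ P (insert n (s f i)) := by
      by_contra h
      push Not at h
      exact hs1 f i (step _ _ (h3 t.2) k h)
    refine ⟨_, PiNat.update_mem_cylinder f i n, i + 1, n, ?_, h6, h7⟩
    rw [hs, hs2 _ f i (PiNat.update_mem_cylinder f i n), Function.update_self, if_neg h8]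
    exact Finset.mem_insert_self _ _
  obtain ⟨f, hf⟩ : ∃ f, ∀ t k, f ∈ O t k := by
    by_contra h
    refine (csInf_le' ⟨range fun t => (⋂ k, O t k)ᶜ, rfl, forall_mem_range.2 hO,
      eq_univ_of_forall fun f => ?_⟩ : covMeager ≤ _).not_gt ((mk_range_le.trans h4).trans_lt hc)
    by_contra h6
    exact h ⟨f, fun t k => mem_iInter.1 (not_not.1 fun h7 => h6 ⟨_, ⟨t, rfl⟩, h7⟩) k⟩
  have hm : Monotone (s f) := monotone_nat_of_le_succ fun i => by
    rw [hs]; split_ifs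
    exacts [le_rfl, Finset.subset_insert _ _]
  obtain ⟨x, hx⟩ := IsCompact.nonempty_iInter_of_sequence_nonempty_isCompact_isClosed
    (fun i => ⋂ n ∈ s f i, (U n)ᶜ) (fun i => biInter_subset_biInter_left (hm i.le_succ))
    (fun i => by
      by_contra h
      exact hs1 f i ⟨∅, empty_subset _, countable_empty, fun B hB _ => ⟨B, subset_rfl, hB,
        fun x hx => absurd ⟨x, mem_iInter₂.2 hx⟩ h⟩⟩)
    (isClosed_biInter fun n _ => (hU n).1.isClosed_compl).isCompact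
    fun i => isClosed_biInter fun n _ => (hU n).1.isClosed_compl
  obtain ⟨t, h6, h7⟩ := h5 _ ⟨_, ⟨x, rfl⟩, rfl⟩
  obtain ⟨k, hk⟩ := h7.bddAbove
  obtain ⟨i, n, h8, h9, h10⟩ := hf ⟨t, h6⟩ k
  exact (hk ⟨h9, fun h => mem_iInter₂.1 (mem_iInter.1 hx i) n h8
    ((hr _ ⟨x, rfl⟩).1 h)⟩).not_gt h10

end Pool.Agent.H57.TStar
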