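import Mathlib

set_option autoImplicit false

namespace Pool.Agent.H57.TStar

open Cardinal

/-- linearly refinable families of subsets of `ℕ` -/
def LinRef (Y : Set (Set ℕ)) : Prop :=
  ∃ r : Set ℕ → Set ℕ, (∀ y ∈ Y, r y ⊆ y ∧ (r y).Infinite) ∧
    ∀ y ∈ Y, ∀ z ∈ Y, (r y \ r z).Finite ∨ (r z \ r y).Finite

/-- `U` enumerates injectively an open `τ*`-cover -/
def TauStar {X : Type} [TopologicalSpace X] (U : ℕ → Set X) : Prop :=
  Function.Injective U ∧ (∀ n, IsOpen (U n) ∧ U n ≠ Set.univ) ∧ (∀ x, {n | x ∈ U n}.Infinite) ∧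
    LinRef (Set.range fun x => {n | x ∈ U n})

/-- every countable open `τ*`-cover of `X` has a subfamily that is a `γ`-cover -/
def TStarGamma (X : Type) [TopologicalSpace X] : Prop :=
  ∀ U : ℕ → Set X, TauStar U → ∃ B : Set ℕ, B.Infinite ∧ ∀ x, {n | n ∈ B ∧ x ∉ U n}.Finite

/-- the covering number of the meager ideal, computed in the Baire space -/
noncomputable def covMeager : Cardinal.{0} :=
  sInf {k | ∃ F : Set (Set (ℕ → ℕ)), #F = k ∧ (∀ M ∈ F, IsMeagre M) ∧ ⋃₀ F = Set.univ}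

/-- there is no strictly decreasing `ω₂`-sequence of subsets of `ℕ` modulo finite sets -/
def NoOmegaTwoChain : Prop :=
  ¬ ∃ t : (ℵ_ 2 : Cardinal.{0}).ord.ToType → Set ℕ,
    ∀ a b, a < b → (t b \ t a).Finite ∧ (t a \ t b).Infinite

end Pool.Agent.H57.TStar
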