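import Mathlib

set_option autoImplicit false

namespace H57.Ul

open Set Cardinal

theorem mk_closure {E : Type} [Group E] (s : Set E) (hs : s.Nonempty) :
    #(Subgroup.closure s) ≤ max #s ℵ₀ := by
  haveI := hs.to_subtype
  have h : Subgroup.closure s = (FreeGroup.lift (Subtype.val : s → E)).range := by
    rw [FreeGroup.range_lift_eq_closure, Subtype.range_coe]
  rw [h, ← Cardinal.mk_freeGroup]
  exact mk_range_le

theorem free {E : Type} [LinearOrder E] [WellFoundedLT E] {κ : Cardinal.{0}} (hκ : κ.IsRegular)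
    (Q : Set E) (hQ : ¬ #Q < κ) (D : E → Set E) (hD : ∀ s, #(D s) < κ) (hs : ∀ s, s ∈ D s) :
    ∃ F ⊆ Q, ¬ #F < κ ∧ ∀ s ∈ F, ∀ t ∈ F, s < t → t ∉ D s := by
  let P : E → Prop := (wellFounded_lt (α := E)).fix
    (fun x (p : ∀ y, y < x → Prop) => x ∈ Q ∧ ∀ s (h : s < x), p s h → x ∉ D s)
  have hP : ∀ x, P x ↔ x ∈ Q ∧ ∀ s, s < x → P s → x ∉ D s := fun x =>
    Iff.of_eq (WellFounded.fix_eq _ _ x)
  refine ⟨{x | P x}, fun x hx => ((hP x).1 hx).1, fun hc => hQ ?_,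
    fun s hs t ht h => ((hP t).1 ht).2 s h hs⟩
  refine (mk_le_mk_of_subset fun x hx => ?_).trans_lt
    ((card_biUnion_lt_iff_forall_of_isRegular (t := fun s _ => D s) hκ hc).2 fun s _ => hD s)
  by_contra hn
  simp only [mem_iUnion, not_exists] at hn
  exact hn x ((hP x).2 ⟨hx, fun s _ h => hn s h⟩) (hs x)

theorem two_eq {E : Type} [LinearOrder E] {a b c : E} (h1 : a ≤ max b c) (h2 : b ≤ max a c)
    (h3 : c ≤ max a b) : a = b ∨ b = c ∨ a = c := by
  rw [le_max_iff] at h1 h2 h3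
  rcases h1 with h1 | h1 <;> rcases h2 with h2 | h2 <;> rcases h3 with h3 | h3 <;>
    first
      | (left; order)
      | (right; left; order)
      | (right; right; order)

theorem comb (E : Type) [Group E] (h1 : ℵ₀ < #E) (h2 : #E ≤ ℵ_ 2) :
    ∃ (F : Set E) (C : E → Set E) (z0 : E), #F = #E ∧ (∀ w, (C w).Countable) ∧
      ∀ x y : E, (x ∉ F ∧ y ∈ C x) ∨ (y ∉ F ∧ x ∈ C y) ∨ (x * y ∉ F ∧ x ∈ C (x * y)) ∨
        y = 1 ∨ x = 1 ∨ (x = y ∧ x ∈ F ∧ ∀ s ∈ F, s * s = z0) := by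
  classical
  have e2 : (ℵ_ 2 : Cardinal.{0}) = Order.succ ℵ₁ := by
    rw [succ_aleph]; norm_num
  have hκ : (#E).IsRegular := by
    rw [e2, Order.le_succ_iff_eq_or_le] at h2
    rcases h2 with h | h
    · rw [h]; exact isRegular_succ aleph0_lt_aleph_one.le
    · have : #E = ℵ₁ := le_antisymm h (by rw [← succ_aleph0, Order.succ_le_iff]; exact h1)
      rw [this]; exact isRegular_aleph_one
  obtain ⟨i, j, hij⟩ := Cardinal.exists_ord_eq_type_lt E
  have hI : ∀ a : E, #(Iic a) < #E := fun a => by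
    rw [← Iio_insert]
    exact mk_insert_le.trans_lt (add_lt_of_lt h1.le (mk_Iio_lt a hij) (one_lt_aleph0.trans h1))
  let K : E → Subgroup E := fun a => Subgroup.closure (Iic a)
  have hK : ∀ a, #(K a) < #E := fun a =>
    (mk_closure _ nonempty_Iic).trans_lt (max_lt (hI a) h1)
  have hKm : ∀ {a b}, a ≤ b → K a ≤ K b := fun h => Subgroup.closure_mono (Iic_subset_Iic.2 h)
  have hKs : ∀ a, a ∈ K a := fun a => Subgroup.subset_closure (le_refl a)
  let lev : E → E := fun x => (wellFounded_lt (α := E)).min {a | x ∈ K a} ⟨x, hKs x⟩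
  have l1 : ∀ x, x ∈ K (lev x) := fun x =>
    (wellFounded_lt (α := E)).min_mem {a | x ∈ K a} ⟨x, hKs x⟩
  have l2 : ∀ x a, x ∈ K a → lev x ≤ a := fun x a h =>
    not_lt.1 ((wellFounded_lt (α := E)).not_lt_min {a | x ∈ K a} h)
  have l3 : ∀ x y : E, x ∈ K (max (lev x) (lev y)) ∧ y ∈ K (max (lev x) (lev y)) := fun x y =>
    ⟨hKm (le_max_left _ _) (l1 x), hKm (le_max_right _ _) (l1 y)⟩
  obtain ⟨Q, R, z0, hQ, hR, hR', hQR⟩ : ∃ (Q : Set E) (R : E → Set E) (z0 : E), ¬ #Q < #E ∧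
      (∀ w, #(R w) < #E) ∧ (∀ w, ∀ s ∈ R w, s * s = w) ∧
      ((∀ s, s ∈ R (s * s)) ∨ ∀ s ∈ Q, s * s = z0) := by
    by_cases hc : ∀ z : E, #{s : E | s * s = z} < #E
    · exact ⟨univ, fun z => {s | s * s = z}, 1, by simp, hc, fun _ _ h => h, Or.inl fun s => rfl⟩
    · push Not at hc
      obtain ⟨z, hz⟩ := hc
      exact ⟨_, fun _ => ∅, z, not_lt.2 hz, fun _ => by simpa using aleph0_pos.trans h1,
        fun _ _ h => h.elim, Or.inr fun s hs => hs⟩
  let D : E → Set E := fun s => (K s : Set E) ∪ R s ∪ R (s * s)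
  have hD : ∀ s, #(D s) < #E := fun s =>
    (mk_union_le _ _).trans_lt (add_lt_of_lt h1.le
      ((mk_union_le _ _).trans_lt (add_lt_of_lt h1.le (hK s) (hR s))) (hR _))
  obtain ⟨F, hFQ, hF, hfree⟩ := free hκ Q hQ D hD fun s => Or.inl (Or.inl (hKs s))
  have tri : ∀ s ∈ F, ∀ t ∈ F, t ∈ D s → s ∈ D t → s = t := by
    intro s hs t ht h1 h2
    rcases lt_trichotomy s t with h | h | h
    exacts [absurd h1 (hfree s hs t ht h), h, absurd h2 (hfree t ht s hs h)]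
  have uniq : ∀ s ∈ F, ∀ t ∈ F, lev s = lev t → s = t := fun s hs t ht h =>
    tri s hs t ht (Or.inl (Or.inl (hKm (l2 s s (hKs s)) (h ▸ l1 t))))
      (Or.inl (Or.inl (hKm (l2 t t (hKs t)) (h ▸ l1 s))))
  let W := (ℵ₁ : Cardinal.{0}).ord.ToType
  have hW : ∀ a : W, (Iic a).Countable := fun a => by
    rw [← Iio_insert]
    refine Set.Countable.insert _ ?_
    rw [← Cardinal.le_aleph0_iff_set_countable, ← Order.lt_succ_iff, Cardinal.succ_aleph0]
    have := mk_Iio_lt a (by simp [W])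
    simpa [W] using this
  have hidx : ∀ a, ∃ g : E → W, InjOn g (K a) := fun a => by
    have : #(K a) ≤ #W := by
      have := (hK a).trans_le h2
      rw [e2, Order.lt_succ_iff] at this
      simpa [W] using this
    obtain ⟨g⟩ := Cardinal.le_def _ _ |>.1 this
    refine ⟨fun x => if h : x ∈ K a then g ⟨x, h⟩ else g 1, fun x hx y hy h => ?_⟩
    have hx' : x ∈ K a := hx
    have hy' : y ∈ K a := hy
    simpa [hx', hy'] using h
  choose g hg using hidx
  let S : E → Set E := fun v => {u | lev u = lev v ∧ (u ∈ F ∨ g (lev v) u ≤ g (lev v) v)}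
  have hS : ∀ v, (S v).Countable := fun v => by
    have a1 : {u | lev u = lev v ∧ u ∈ F}.Countable :=
      Set.Subsingleton.countable fun s hs t ht => uniq s hs.2 t ht.2 (hs.1.trans ht.1.symm)
    have a2 : ((K (lev v) : Set E) ∩ g (lev v) ⁻¹' Iic (g (lev v) v)).Countable :=
      countable_of_injective_of_countable_image ((hg _).mono inter_subset_left)
        ((hW (g (lev v) v)).mono (by rintro _ ⟨u, hu, rfl⟩; exact hu.2))
    refine (a1.union a2).mono ?_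
    rintro u ⟨h, h' | h'⟩
    exacts [Or.inl ⟨h, h'⟩, Or.inr ⟨h ▸ l1 u, h'⟩]
  have core : ∀ u v, lev u = lev v → (u ∉ F ∧ v ∈ S u) ∨ (v ∉ F ∧ u ∈ S v) ∨ (u = v ∧ u ∈ F) := by
    intro u v h
    by_cases hu : u ∈ F <;> by_cases hv : v ∈ F
    · exact Or.inr (Or.inr ⟨uniq u hu v hv h, hu⟩)
    · exact Or.inr (Or.inl ⟨hv, h, Or.inl hu⟩)
    · exact Or.inl ⟨hu, h.symm, Or.inl hv⟩
    · rcases le_total (g (lev v) u) (g (lev v) v) with h' | h'
      · exact Or.inr (Or.inl ⟨hv, h, Or.inr h'⟩)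
      · exact Or.inl ⟨hu, h.symm, Or.inr (by rw [h]; exact h')⟩
  let C : E → Set E := fun w => S w ∪ (fun u => w⁻¹ * u) '' S w ∪ (fun u => u * w⁻¹) '' S w ∪
    (fun u => w * u⁻¹) '' S w ∪ (F ∩ R w)
  refine ⟨F, C, z0, le_antisymm (mk_set_le F) (not_lt.1 hF), fun w => ?_, fun x y => ?_⟩
  · refine ((((hS w).union ((hS w).image _)).union ((hS w).image _)).union
      ((hS w).image _)).union (Set.Subsingleton.countable fun s hs t ht => ?_)
    refine tri s hs.1 t ht.1 (Or.inr ?_) (Or.inr ?_)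
    · rw [hR' w s hs.2]; exact ht.2
    · rw [hR' w t ht.2]; exact hs.2
  have c1 : ∀ w u, u ∈ S w → u ∈ C w := fun w u h => Or.inl (Or.inl (Or.inl (Or.inl h)))
  have c2 : ∀ w u, u ∈ S w → w⁻¹ * u ∈ C w := fun w u h =>
    Or.inl (Or.inl (Or.inl (Or.inr ⟨u, h, rfl⟩)))
  have c3 : ∀ w u, u ∈ S w → u * w⁻¹ ∈ C w := fun w u h => Or.inl (Or.inl (Or.inr ⟨u, h, rfl⟩))
  have c4 : ∀ w u, u ∈ S w → w * u⁻¹ ∈ C w := fun w u h => Or.inl (Or.inr ⟨u, h, rfl⟩)
  have t := two_eq (a := lev x) (b := lev y) (c := lev (x * y))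
    (l2 _ _ (by simpa using mul_mem (l3 y (x * y)).2 (inv_mem (l3 y (x * y)).1)))
    (l2 _ _ (by simpa using mul_mem (inv_mem (l3 x (x * y)).1) (l3 x (x * y)).2))
    (l2 _ _ (mul_mem (l3 x y).1 (l3 x y).2))
  rcases t with t | t | t
  · rcases core _ _ t with h | h | ⟨rfl, h⟩
    · exact Or.inl ⟨h.1, c1 _ _ h.2⟩
    · exact Or.inr (Or.inl ⟨h.1, c1 _ _ h.2⟩)
    · rcases hQR with hr | hr
      · by_cases hz : x * x ∈ F
        · have := tri x h _ hz (Or.inl (Or.inl (mul_mem (hKs x) (hKs x)))) (Or.inl (Or.inr (hr x)))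
          exact Or.inr (Or.inr (Or.inr (Or.inl (by simpa using this))))
        · exact Or.inr (Or.inr (Or.inl ⟨hz, Or.inr ⟨h, hr x⟩⟩))
      · exact Or.inr (Or.inr (Or.inr (Or.inr (Or.inr ⟨rfl, h, fun s hs => hr s (hFQ hs)⟩))))
  · rcases core _ _ t with h | h | ⟨h, -⟩
    · exact Or.inr (Or.inl ⟨h.1, by simpa using c3 _ _ h.2⟩)
    · exact Or.inr (Or.inr (Or.inl ⟨h.1, by simpa using c4 _ _ h.2⟩))
    · exact Or.inr (Or.inr (Or.inr (Or.inr (Or.inl (by simpa using h)))))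
  · rcases core _ _ t with h | h | ⟨h, -⟩
    · exact Or.inl ⟨h.1, by simpa using c2 _ _ h.2⟩
    · exact Or.inr (Or.inr (Or.inl ⟨h.1, c1 _ _ h.2⟩))
    · exact Or.inr (Or.inr (Or.inr (Or.inl (by simpa using h))))

end H57.Ul
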