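import Mathlib

set_option autoImplicit false

namespace H57.Heis

open Function

@[ext] structure H where
  a : ℤ
  b : ℤ
  c : ℤ

instance : Mul H := ⟨fun x y => ⟨x.a + y.a, x.b + y.b, x.c + y.c + x.a * y.b⟩⟩
instance : One H := ⟨⟨0, 0, 0⟩⟩
instance : Inv H := ⟨fun x => ⟨-x.a, -x.b, -x.c + x.a * x.b⟩⟩

@[simp] theorem mul_a (x y : H) : (x * y).a = x.a + y.a := rfl
@[simp] theorem mul_b (x y : H) : (x * y).b = x.b + y.b := rfl
@[simp] theorem mul_c (x y : H) : (x * y).c = x.c + y.c + x.a * y.b := rfl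
@[simp] theorem inv_a (x : H) : x⁻¹.a = -x.a := rfl
@[simp] theorem inv_b (x : H) : x⁻¹.b = -x.b := rfl
@[simp] theorem inv_c (x : H) : x⁻¹.c = -x.c + x.a * x.b := rfl
@[simp] theorem one_a : (1 : H).a = 0 := rfl
@[simp] theorem one_b : (1 : H).b = 0 := rfl
@[simp] theorem one_c : (1 : H).c = 0 := rfl

instance : Group H := Group.ofLeftAxioms
  (fun x y z => by ext <;> simp <;> ring) (fun x => by ext <;> simp)
  (fun x => by ext <;> simp)

def h : FreeGroup (Fin 2) →* H := FreeGroup.lift ![⟨1, 0, 0⟩, ⟨0, 1, 0⟩]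

theorem lin (χ : FreeGroup (Fin 2) → ℤ) (hχ : ∀ u v, χ (u * v) = χ u + χ v) (w : FreeGroup (Fin 2)) :
    χ w = (h w).a * χ (FreeGroup.of 0) + (h w).b * χ (FreeGroup.of 1) := by
  have h1 : χ 1 = 0 := by simpa using hχ 1 1
  have hi : ∀ u, χ u⁻¹ = -χ u := fun u => by
    have := hχ u u⁻¹
    rw [mul_inv_cancel, h1] at this; omega
  induction w using FreeGroup.induction_on with
  | C1 => simp [h1]
  | of x => fin_cases x <;> simp [h]
  | inv_of x ih => rw [hi, ih]; simp; ring
  | mul x y ihx ihy => rw [hχ, ihx, ihy]; simp; ring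

theorem comm_ne : (FreeGroup.of 0 * FreeGroup.of 1 * (FreeGroup.of 0)⁻¹ * (FreeGroup.of 1)⁻¹ :
    FreeGroup (Fin 2)) ≠ 1 := by
  intro e
  have := congrArg (fun w => (h w).c) e
  simp [h] at this

theorem not_mem (A B : Subgroup (FreeGroup (Fin 2)))
    (hb : Bijective (Monoid.Coprod.lift A.subtype B.subtype)) (hA : A ≠ ⊤) :
    FreeGroup.of 0 * FreeGroup.of 1 * (FreeGroup.of 0)⁻¹ * (FreeGroup.of 1)⁻¹ ∉ A := by
  intro hg
  let e := MulEquiv.ofBijective _ hb
  have eA : ∀ x : A, e.symm x = Monoid.Coprod.inl x := fun x => e.symm_apply_eq.2 (by simp [e])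
  have eB : ∀ x : B, e.symm x = Monoid.Coprod.inr x := fun x => e.symm_apply_eq.2 (by simp [e])
  let r : FreeGroup (Fin 2) →* FreeGroup (Fin 2) :=
    (Monoid.Coprod.lift A.subtype 1).comp e.symm.toMonoidHom
  have rA : ∀ x : A, r x = x := fun x => by simp [r, eA]
  have rB : ∀ x : B, r x = 1 := fun x => by simp [r, eB]
  obtain ⟨g0⟩ : Nonempty (IsFreeGroup.Generators B) := by
    by_contra hn
    rw [not_nonempty_iff] at hn
    have hs : Subsingleton B := (IsFreeGroup.toFreeGroup B).injective.subsingleton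
    apply hA
    rw [eq_top_iff]
    intro w _
    obtain ⟨z, rfl⟩ := hb.2 w
    induction z using Monoid.Coprod.induction_on with
    | inl m => simp
    | inr n => simp [Subsingleton.elim n 1]
    | mul x y hx hy => rw [map_mul]; exact mul_mem (hx trivial) (hy trivial)
  let χ : FreeGroup (Fin 2) →* Multiplicative ℤ :=
    (Monoid.Coprod.lift 1 (IsFreeGroup.lift fun _ => Multiplicative.ofAdd 1)).comp
      e.symm.toMonoidHom
  have c0 : χ (IsFreeGroup.of g0 : B) = Multiplicative.ofAdd 1 := by simp [χ, eB]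
  have c1 := lin (fun w => (χ w).toAdd) (by simp) (IsFreeGroup.of g0 : B)
  have c2 := lin (fun w => (h (r w)).a) (by simp) (IsFreeGroup.of g0 : B)
  have c3 := lin (fun w => (h (r w)).b) (by simp) (IsFreeGroup.of g0 : B)
  have c4 := congrArg (fun w => (h w).c) (rA ⟨_, hg⟩)
  simp only [c0, rB, map_one, one_a, one_b, toAdd_ofAdd] at c1 c2 c3
  simp only [map_mul, map_inv, mul_c, mul_a, inv_a, inv_b, inv_c] at c4
  have e0 : h (FreeGroup.of 0) = ⟨1, 0, 0⟩ := by simp [h]
  have e1 : h (FreeGroup.of 1) = ⟨0, 1, 0⟩ := by simp [h]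
  rw [e0, e1] at c4
  simp only at c4
  set p := (h (IsFreeGroup.of g0 : B)).a
  set q := (h (IsFreeGroup.of g0 : B)).b
  set a1 := (h (r (FreeGroup.of 0))).a
  set a2 := (h (r (FreeGroup.of 0))).b
  set b1 := (h (r (FreeGroup.of 1))).a
  set b2 := (h (r (FreeGroup.of 1))).b
  have hd : a1 * b2 - a2 * b1 = 1 := by linear_combination c4
  have hp : p = 0 := by linear_combination (-p) * hd - b2 * c2 + b1 * c3
  have hq : q = 0 := by linear_combination (-q) * hd + a2 * c2 - a1 * c3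
  rw [hp, hq] at c1
  simp at c1

end H57.Heis
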