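import Pool.Agent.H57.WeiDefs

set_option autoImplicit false

namespace Pool.Agent.H57.Wei

open Set Cardinal

theorem pre_mono (x : Baire) {n m : ℕ} (h : n ≤ m) : pre x n <+: pre x m :=
  List.IsPrefix.map x (by
    obtain ⟨k, rfl⟩ := Nat.exists_eq_add_of_le h
    rw [List.range_add]; exact List.prefix_append _ _)

theorem pre_length (x : Baire) (n : ℕ) : (pre x n).length = n := by simp [pre]

theorem Functional.Eval.unique {F : Functional} {x y z : Baire} (h1 : F.Eval x y)
    (h2 : F.Eval x z) : y = z := by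
  funext n
  obtain ⟨k, hk⟩ := h1 (n + 1)
  obtain ⟨l, hl⟩ := h2 (n + 1)
  have h3 := hk.trans (F.mono _ _ (pre_mono x (le_max_left k l)))
  have h4 := hl.trans (F.mono _ _ (pre_mono x (le_max_right k l)))
  have h5 := (List.prefix_of_prefix_length_le h3 h4 (by simp [pre_length])).eq_of_length
    (by simp [pre_length])
  have h6 : (pre y (n + 1))[n]? = (pre z (n + 1))[n]? := by rw [h5]
  simpa [pre] using h6

def idF : Functional := ⟨id, Computable.id, fun _ _ h => h⟩

theorem eval_id (x : Baire) : idF.Eval x x := fun n => ⟨n, List.prefix_rfl⟩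

def compF (G F : Functional) : Functional :=
  ⟨fun s => G.toFun (F.toFun s), G.comp.comp F.comp, fun _ _ h => G.mono _ _ (F.mono _ _ h)⟩

theorem eval_comp {F G : Functional} {x y z : Baire} (h1 : F.Eval x y) (h2 : G.Eval y z) :
    (compF G F).Eval x z := fun n => by
  obtain ⟨k, hk⟩ := h2 n
  obtain ⟨l, hl⟩ := h1 k
  exact ⟨l, hk.trans (G.mono _ _ hl)⟩

def fstF : Functional :=
  ⟨fun s => s.map fun a => a.unpair.1,
    (Primrec.list_map Primrec.id
      ((Primrec.fst.comp (Primrec.unpair.comp Primrec.snd)).to₂)).to_comp,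
    fun _ _ h => h.map _⟩

def sndF : Functional :=
  ⟨fun s => s.map fun a => a.unpair.2,
    (Primrec.list_map Primrec.id
      ((Primrec.snd.comp (Primrec.unpair.comp Primrec.snd)).to₂)).to_comp,
    fun _ _ h => h.map _⟩

theorem eval_fst (x y : Baire) : fstF.Eval (pair x y) x := fun n =>
  ⟨n, by simp [fstF, pre, pair, Function.comp_def]⟩

theorem eval_snd (x y : Baire) : sndF.Eval (pair x y) y := fun n =>
  ⟨n, by simp [sndF, pre, pair, Function.comp_def]⟩

theorem zip_mono : ∀ a b a' b' : List ℕ, a <+: a' → b <+: b' →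
    List.zipWith Nat.pair a b <+: List.zipWith Nat.pair a' b'
  | [], _, _, _, _, _ => by simp
  | _ :: _, [], _, _, _, _ => by simp
  | _ :: _, _ :: _, [], _, h, _ => by simp at h
  | _ :: _, _ :: _, _ :: _, [], _, h => by simp at h
  | x :: a, y :: b, x' :: a', y' :: b', h1, h2 => by
    rw [List.cons_prefix_cons] at h1 h2
    simp only [List.zipWith_cons_cons, List.cons_prefix_cons]
    exact ⟨by rw [h1.1, h2.1], zip_mono a b a' b' h1.2 h2.2⟩

theorem zip_prim : Primrec₂ (List.zipWith Nat.pair) := by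
  have h : Primrec fun p : List ℕ × List ℕ => (List.range (min p.1.length p.2.length)).map
      fun i => Nat.pair (p.1.getD i 0) (p.2.getD i 0) :=
    Primrec.list_map (Primrec.list_range.comp (Primrec.nat_min.comp
      (Primrec.list_length.comp Primrec.fst) (Primrec.list_length.comp Primrec.snd)))
      (Primrec₂.natPair.comp
        ((Primrec.list_getD 0).comp (Primrec.fst.comp Primrec.fst) Primrec.snd)
        ((Primrec.list_getD 0).comp (Primrec.snd.comp Primrec.fst) Primrec.snd)).to₂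
  refine h.of_eq fun p => ?_
  refine List.ext_getElem (by simp) fun i h1 h2 => ?_
  simp only [List.length_zipWith, lt_min_iff] at h2
  simp [List.getD_eq_getElem?_getD, List.getElem?_eq_getElem h2.1, List.getElem?_eq_getElem h2.2]

def pairF (F G : Functional) : Functional :=
  ⟨fun s => List.zipWith Nat.pair (F.toFun s) (G.toFun s), zip_prim.to_comp.comp F.comp G.comp,
    fun _ _ h => zip_mono _ _ _ _ (F.mono _ _ h) (G.mono _ _ h)⟩

theorem eval_pair {F G : Functional} {w x y : Baire} (h1 : F.Eval w x) (h2 : G.Eval w y) :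
    (pairF F G).Eval w (pair x y) := fun n => by
  obtain ⟨k, hk⟩ := h1 n
  obtain ⟨l, hl⟩ := h2 n
  refine ⟨max k l, ?_⟩
  have : pre (pair x y) n = List.zipWith Nat.pair (pre x n) (pre y n) := by
    simp [pre, pair, List.zipWith_map]
  rw [this]
  exact zip_mono _ _ _ _ (hk.trans (F.mono _ _ (pre_mono w (le_max_left k l))))
    (hl.trans (G.mono _ _ (pre_mono w (le_max_right k l))))

instance : Countable Functional := by
  have h : ∀ F : Functional, ∃ c : Nat.Partrec.Code, c.eval = fun n =>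
      Part.bind (Encodable.decode (α := List ℕ) n : Part (List ℕ))
        fun a => ((F.toFun : List ℕ →. List ℕ) a).map Encodable.encode :=
    fun F => Nat.Partrec.Code.exists_code.1 F.comp
  choose c hc using h
  refine Function.Injective.countable (f := c) fun F G h => ?_
  have h1 := (hc F).symm.trans (h ▸ hc G)
  obtain ⟨f, _, _⟩ := F
  obtain ⟨g, _, _⟩ := G
  obtain rfl : f = g := by
    funext s
    have := congrFun h1 (Encodable.encode s)
    simpa using this
  rfl

def cl (W : Set Baire) : Set Baire := {x | ∃ w ∈ W, ∃ F : Functional, F.Eval w x}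

theorem cl_countable {W : Set Baire} (h : W.Countable) : (cl W).Countable := by
  have : cl W = ⋃ w ∈ W, ⋃ F : Functional, {x | F.Eval w x} := by ext; simp [cl]
  rw [this]
  exact h.biUnion fun w _ => countable_iUnion fun F =>
    Set.Subsingleton.countable fun _ h1 _ h2 => Functional.Eval.unique h1 h2

abbrev CS (X : Type) : Type := {s : Set X // s.Countable}

abbrev J : Type := CS Baire × CS Baire × CS (Baire × Baire)

def Loc (f : Problem) (j : J) : Prop :=
  ∃ F G : Functional, ∀ x ∈ cl j.1.1, (f x).Nonempty → ∃ u, F.Eval x u ∧ u ∈ j.2.1.1 ∧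
    ∀ y, (u, y) ∈ j.2.2.1 → ∃ z, G.Eval (pair x y) z ∧ z ∈ f x

theorem loc_mono {f g : Problem} (h : WLe f g) {j : J} (hj : Loc g j) : Loc f j := by
  obtain ⟨F, G, h⟩ := h
  obtain ⟨F', G', hj⟩ := hj
  refine ⟨compF F' F, compF G (pairF fstF (compF G' (pairF (compF F fstF) sndF))),
    fun x hx hf => ?_⟩
  obtain ⟨u, h1, h2, h3⟩ := h x hf
  obtain ⟨w, hw, H, hH⟩ := hx
  obtain ⟨v, h4, h5, h6⟩ := hj u ⟨w, hw, _, eval_comp hH h1⟩ h2
  refine ⟨v, eval_comp h1 h4, h5, fun y hy => ?_⟩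
  obtain ⟨z, h7, h8⟩ := h6 y hy
  obtain ⟨t, h9, h10⟩ := h3 z h8
  exact ⟨t, eval_comp (eval_pair (eval_fst x y) (eval_comp
    (eval_pair (eval_comp (eval_fst x y) h1) (eval_snd x y)) h7)) h9, h10⟩

theorem loc_sep {f g : Problem} (h : ¬ WLe f g) : ∃ j, Loc g j ∧ ¬ Loc f j := by
  have h1 : ∀ p : Functional × Functional, ∃ x y : Baire, (f x).Nonempty ∧ ∀ u, p.1.Eval x u →
      (g u).Nonempty → y ∈ g u ∧ ∀ z, p.2.Eval (pair x y) z → z ∉ f x := by
    intro p
    unfold WLe at h
    push Not at h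
    obtain ⟨x, hx, h⟩ := h p.1 p.2
    by_cases hu : ∃ u, p.1.Eval x u ∧ (g u).Nonempty
    · obtain ⟨u, h2, h3⟩ := hu
      obtain ⟨y, h4, h5⟩ := h u h2 h3
      exact ⟨x, y, hx, fun v hv _ => h2.unique hv ▸ ⟨h4, h5⟩⟩
    · exact ⟨x, x, hx, fun v h2 h3 => (hu ⟨v, h2, h3⟩).elim⟩
  choose x y h1 h2 using h1
  have hc := cl_countable (countable_range x)
  refine ⟨(⟨range x, countable_range x⟩, ⟨{u | u ∈ cl (range x) ∧ (g u).Nonempty},
    hc.mono fun _ h => h.1⟩, ⟨{q | q.1 ∈ cl (range x) ∧ q.2 ∈ range y ∧ q.2 ∈ g q.1},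
    (hc.prod (countable_range y)).mono fun _ h => mem_prod.2 ⟨h.1, h.2.1⟩⟩), ?_, ?_⟩
  · exact ⟨idF, sndF, fun u hu hg => ⟨u, eval_id u, ⟨hu, hg⟩,
      fun z hz => ⟨z, eval_snd u z, hz.2.2⟩⟩⟩
  · rintro ⟨F, G, h3⟩
    obtain ⟨u, h4, h5, h6⟩ := h3 (x (F, G)) ⟨_, mem_range_self _, idF, eval_id _⟩ (h1 _)
    obtain ⟨h7, h8⟩ := h2 (F, G) u h4 h5.2
    obtain ⟨z, h9, h10⟩ := h6 (y (F, G)) ⟨h5.1, mem_range_self _, h7⟩
    exact h8 z h9 h10

theorem mk_CS (X : Type) (h : #X ≤ 𝔠) : #(CS X) ≤ 𝔠 := by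
  have h1 : #(CS X) ≤ #{t : Set X // #t ≤ ℵ₀} :=
    mk_le_of_injective (f := fun s => ⟨s.1, s.2.le_aleph0⟩) fun s t h =>
      Subtype.ext (congrArg (fun r : {t : Set X // #t ≤ ℵ₀} => r.1) h)
  refine h1.trans ((mk_bounded_set_le _ _).trans ?_)
  exact (power_le_power_right (max_le h aleph0_le_continuum)).trans continuum_power_aleph0.le

theorem main : ∃ I : Problem → Set ℝ, ∀ f g, WLe f g ↔ I f ⊆ I g := by
  have hB : #Baire = 𝔠 := by simp
  have hJ : #J ≤ #ℝ := by
    rw [mk_real]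
    have h1 := mk_CS Baire hB.le
    have h2 := mk_CS (Baire × Baire) (by simp)
    simp only [J, mk_prod, lift_id]
    exact (mul_le_mul' h1 (mul_le_mul' h1 h2)).trans (by simp)
  obtain ⟨e⟩ := (Cardinal.le_def _ _).1 hJ
  refine ⟨fun f => e '' {j | ¬ Loc f j}, fun f g => ?_⟩
  rw [image_subset_image_iff e.injective]
  refine ⟨fun h j hj hg => hj (loc_mono h hg), fun h => ?_⟩
  by_contra hn
  obtain ⟨j, h1, h2⟩ := loc_sep hn
  exact h h2 h1

end Pool.Agent.H57.Wei
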