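import Mathlib

set_option autoImplicit false

namespace Pool.Agent.H57.Wei

/-- Baire space -/
abbrev Baire : Type := ℕ → ℕ

/-- the first `n` values of `x` -/
def pre (x : Baire) (n : ℕ) : List ℕ := (List.range n).map x

/-- the pairing `⟨x, y⟩` on Baire space -/
def pair (x y : Baire) : Baire := fun n => Nat.pair (x n) (y n)

/-- A computable functional is given by a computable monotone map on finite words. -/
structure Functional where
  toFun : List ℕ → List ℕ
  comp : Computable toFun
  mono : ∀ s t, s <+: t → toFun s <+: toFun t

/-- `F` converges on input `x` with output `y`. -/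
def Functional.Eval (F : Functional) (x y : Baire) : Prop :=
  ∀ n, ∃ k, pre y n <+: F.toFun (pre x k)

/-- A problem assigns to each instance its set of solutions; its domain is the set of `x`
with a nonempty set of solutions. -/
abbrev Problem : Type := Baire → Set Baire

/-- Weihrauch reducibility -/
def WLe (f g : Problem) : Prop :=
  ∃ F G : Functional, ∀ x, (f x).Nonempty → ∃ u, F.Eval x u ∧ (g u).Nonempty ∧
    ∀ y ∈ g u, ∃ z, G.Eval (pair x y) z ∧ z ∈ f x

end Pool.Agent.H57.Wei
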