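import Pool.Agent.H57.YorDefs
import Pool.Agent.H57.PN

set_option autoImplicit false

namespace Pool.Agent.H57.Yor

open MeasureTheory Filter Finset Topology

theorem half : (1 / 2 : ENNReal) + 1 / 2 = 1 := ENNReal.add_halves 1

theorem fair_eq : fair = PN.coins (1 / 2) (1 / 2) := rfl

instance : IsProbabilityMeasure fair := by
  haveI := PN.coin_prob half
  rw [fair_eq, PN.coins_eq]; infer_instance

theorem fair_cyl (n : ℕ) (x : ℕ → Bool) : fair (PN.cyl n x) = (1 / 2) ^ n := by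
  rw [fair_eq, PN.cyl_meas half]; simp

/-- the initial segment of length `n` -/
def seg (n : ℕ) (x : ℕ → Bool) : List Bool := List.ofFn fun i : Fin n => x i

theorem seg_len (n : ℕ) (x : ℕ → Bool) : (seg n x).length = n := by simp [seg]

theorem ext_seg (n : ℕ) (x y : ℕ → Bool) : Ext (seg n x) y ↔ ∀ i < n, y i = x i := by
  simp [Ext, seg]

theorem Yorioka.mono {f : ℕ → ℕ} {A B : Set (ℕ → Bool)} (h : B ∈ Yorioka f) (hAB : A ⊆ B) :
    A ∈ Yorioka f := by
  obtain ⟨σ, h1, h2⟩ := h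
  exact ⟨σ, h1, hAB.trans h2⟩

theorem enum {f : ℕ → ℕ} (hf : Monotone f) (U : ℕ → Finset (List Bool)) (S : ℕ → ℕ)
    (hS : ∀ n, ∑ m ∈ range (n + 1), (#(U m) + 1) ≤ S n)
    (hU : ∀ k, ∀ᶠ n in atTop, ∀ s ∈ U n, f (S n ^ k) ≤ s.length) :
    {z | ∃ᶠ n in atTop, ∃ s ∈ U n, Ext s z} ∈ Yorioka f := by
  classical
  let t : ℕ → ℕ := fun n => ∑ m ∈ range n, (#(U m) + 1)
  have ht : ∀ n, t (n + 1) = t n + (#(U n) + 1) := fun n => sum_range_succ _ _
  have htm : StrictMono t := strictMono_nat_of_lt_succ fun n => by rw [ht]; omega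
  have hex : ∀ i, ∃ n, i < t (n + 1) := fun i => ⟨i, htm.le_apply⟩
  let ν : ℕ → ℕ := fun i => Nat.find (hex i)
  have hν1 : ∀ i, i < t (ν i + 1) := fun i => Nat.find_spec (hex i)
  have hν2 : ∀ i n, t n ≤ i → n ≤ ν i := fun i n h => by
    have := htm.lt_iff_lt.1 (h.trans_lt (hν1 i)); omega
  have hν3 : ∀ i n, i < t (n + 1) → ν i ≤ n := fun i n h => Nat.find_min' _ h
  let σ : ℕ → List Bool := fun i =>
    if h : i - t (ν i) < #(U (ν i)) then ((U (ν i)).equivFin.symm ⟨_, h⟩).1
    else List.replicate (f (i ^ i)) false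
  refine ⟨σ, fun k => ?_, fun z hz => ?_⟩
  · obtain ⟨n0, hn0⟩ := eventually_atTop.1 (hU k)
    refine ⟨t n0 + k + 1, fun i hi => ?_⟩
    simp only [σ]
    split_ifs with h
    · refine le_trans (hf ?_) (hn0 (ν i) (hν2 i n0 (by omega)) _ (Subtype.prop _))
      exact Nat.pow_le_pow_left ((hν1 i).le.trans (hS _)) k
    · rw [List.length_replicate]
      exact hf (Nat.pow_le_pow_right (by omega) (by omega))
  · refine frequently_atTop.2 fun a => ?_
    obtain ⟨n, hn, s, hs, hz⟩ := frequently_atTop.1 hz a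
    let j := (U n).equivFin ⟨s, hs⟩
    have h1 : ν (t n + j) = n :=
      le_antisymm (hν3 _ _ (by rw [ht]; have := j.2; omega)) (hν2 _ _ (by omega))
    refine ⟨t n + j, le_trans hn (le_trans htm.le_apply (by omega)), ?_⟩
    have h2 : σ (t n + j) = s := by
      have key : ∀ m (_ : m = n) (h : t n + j - t m < #(U m)),
          ((U m).equivFin.symm ⟨_, h⟩).1 = s := by
        rintro m rfl h
        have : (⟨t m + j - t m, h⟩ : Fin _) = j := Fin.ext (by simp)
        rw [this]; simp [j]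
      have h3 : t n + j - t (ν (t n + j)) < #(U (ν (t n + j))) := by
        rw [h1]; simp
      simp only [σ, dif_pos h3]
      exact key _ h1 h3
    rw [h2]; exact hz

theorem single_mem {f : ℕ → ℕ} (hf : Monotone f) (x : ℕ → Bool) : {x} ∈ Yorioka f := by
  refine ⟨fun i => seg (f (i ^ i)) x, fun k => ⟨k + 1, fun i hi => ?_⟩, ?_⟩
  · simp only [seg_len]; exact hf (Nat.pow_le_pow_right (by omega) (by omega))
  · rintro _ rfl
    exact Frequently.of_forall fun n => (ext_seg _ _ _).2 fun _ _ => rfl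

theorem null_of_sum (K : ℕ → Set (ℕ → Bool)) (h : ∀ᶠ n in atTop, fair (K n) ≤ (1 / 2) ^ n) :
    fair {z | ∃ᶠ n in atTop, z ∈ K n} = 0 := by
  obtain ⟨m, hm⟩ := eventually_atTop.1 h
  have h1 : ∑' n, fair (K (n + m)) ≠ ⊤ := by
    refine ne_top_of_le_ne_top (b := ∑' n : ℕ, (1 / 2 : ENNReal) ^ n) (by simp) ?_
    refine ENNReal.tsum_le_tsum fun n => (hm _ (by omega)).trans ?_
    exact pow_le_pow_of_le_one bot_le (by simp) (by omega)
  refine measure_mono_null ?_ (measure_setOf_frequently_eq_zero (p := fun n z => z ∈ K (n + m)) h1)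
  intro z hz
  refine frequently_atTop.2 fun a => ?_
  obtain ⟨n, hn, hz⟩ := frequently_atTop.1 hz (a + m)
  exact ⟨n - m, by omega, by rwa [Nat.sub_add_cancel (by omega)]⟩

theorem univ_not_mem {f : ℕ → ℕ} (hf : StrictMono f) : Set.univ ∉ Yorioka f := by
  rintro ⟨σ, h1, h2⟩
  obtain ⟨m, hm⟩ := h1 1
  have h3 := null_of_sum (fun n => {z | Ext (σ n) z}) (eventually_atTop.2 ⟨m, fun n hn => by
    have h4 : {z | Ext (σ n) z} ⊆ PN.cyl n fun i => (σ n).getD i false := by
      intro z hz i hi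
      have h5 : i < (σ n).length := by
        have := hm n hn
        have h6 : n ≤ f (n ^ 1) := by rw [pow_one]; exact hf.le_apply
        simp only at this
        omega
      rw [hz i h5]; simp [h5]
    exact (measure_mono h4).trans (fair_cyl _ _).le⟩)
  have h4 := measure_mono_null h2 h3
  simp at h4

end Pool.Agent.H57.Yor
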