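import Pool.Agent.H57.Yor1

set_option autoImplicit false

namespace Pool.Agent.H57.Yor

open Filter Finset

def GG (x n : ℕ) : ℕ := (n + 1) * ((x + n + 1) ^ n + 1)

def NN : ℕ → ℕ
  | 0 => 1
  | n + 1 => GG (NN n) (n + 1) ^ (2 * (n + 1))

theorem NN_mono : StrictMono NN := by
  refine strictMono_nat_of_lt_succ fun n => ?_
  have h1 : NN n + (n + 1) + 1 ≤ (NN n + (n + 1) + 1) ^ (n + 1) := Nat.le_self_pow (by omega) _
  have h2 : (NN n + (n + 1) + 1) ^ (n + 1) + 1 ≤ GG (NN n) (n + 1) :=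
    Nat.le_mul_of_pos_left _ (by omega)
  have h3 : GG (NN n) (n + 1) ≤ NN (n + 1) := Nat.le_self_pow (by omega) _
  omega

theorem NN_ev (c : ℕ) : ∀ᶠ n in atTop, c ≤ NN n :=
  (eventually_ge_atTop c).mono fun _ h => h.trans NN_mono.le_apply

def Sub (Y : ℕ → Finset ℕ) : Prop := ∀ k, ∀ᶠ n in atTop, (#(Y n) + 1) ^ k ≤ NN n

section
variable (b : ℕ → ℕ)

def cc (k : ℕ) : ℕ := b k + NN k + 1

def PP : ℕ → ℕ
  | 0 => 0
  | k + 1 => PP k + cc b k + NN k

def AA (k : ℕ) : ℕ := PP b k + cc b k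

theorem PP_mono : StrictMono (PP b) :=
  strictMono_nat_of_lt_succ fun n => by simp only [PP, cc]; omega

theorem AA_mono : StrictMono (AA b) :=
  strictMono_nat_of_lt_succ fun n => by simp only [AA, PP, cc]; omega

theorem nu_ex (j : ℕ) : ∃ n, j ≤ NN n := ⟨j, NN_mono.le_apply⟩

def ff (j : ℕ) : ℕ := j + AA b (Nat.find (nu_ex j))

theorem ff_mono : StrictMono (ff b) := fun i j h => by
  have : Nat.find (nu_ex i) ≤ Nat.find (nu_ex j) :=
    Nat.find_min' _ (h.le.trans (Nat.find_spec (nu_ex j)))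
  have := (AA_mono b).monotone this
  simp only [ff]; omega

theorem ff_le {j n : ℕ} (h : j ≤ NN n) : ff b j ≤ PP b (n + 1) := by
  have := (AA_mono b).monotone (Nat.find_min' (nu_ex j) h)
  simp only [ff, PP, AA] at this ⊢; omega

theorem le_of_ff {j n : ℕ} (h : ff b j < AA b (n + 1)) : j ≤ NN n := by
  have h1 : AA b (Nat.find (nu_ex j)) < AA b (n + 1) := by simp only [ff] at h; omega
  have h2 := (AA_mono b).lt_iff_lt.1 h1
  exact (Nat.find_spec (nu_ex j)).trans (NN_mono.monotone (by omega))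

open Classical in
noncomputable def zz (a : ℕ → ℕ) : ℕ → Bool := fun p => decide (∃ k, p = PP b k + a k)

def AY (Y : ℕ → Finset ℕ) : Set (ℕ → Bool) :=
  {w | ∃ a, w = zz b a ∧ ∃ᶠ n in atTop, (∀ k < n, a k ≤ NN k + n) ∧ a n ∈ Y n}

theorem AY_mem (Y : ℕ → Finset ℕ) (hY : Sub Y) : AY b Y ∈ Yorioka (ff b) := by
  classical
  let V : ℕ → Finset (List Bool) := fun n =>
    ((Fintype.piFinset fun k : Fin n => range (NN k + n + 1)) ×ˢ Y n).image fun p =>
      seg (PP b (n + 1)) (zz b fun k => if h : k < n then p.1 ⟨k, h⟩ else p.2)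
  let U : ℕ → Finset (List Bool) := fun n => if #(Y n) ≤ NN n then V n else ∅
  have hV : ∀ m x y, (∀ k < m, NN k ≤ x) → m ≤ y → #(V m) ≤ (x + y + 1) ^ m * #(Y m) := by
    intro m x y h1 h2
    refine card_image_le.trans ?_
    rw [card_product, Fintype.card_piFinset]
    refine Nat.mul_le_mul_right _ ?_
    refine (prod_le_pow_card _ _ (x + y + 1) fun k _ => ?_).trans (by simp)
    have := h1 k k.2
    rw [card_range]; omega
  have hUV : ∀ n, #(U n) ≤ #(V n) := fun n => by
    simp only [U]; split_ifs <;> simp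
  have hsum : ∀ n, ∑ m ∈ range (n + 1 + 1), (#(U m) + 1) ≤
      GG (NN n) (n + 1) * (#(Y (n + 1)) + 1) := by
    intro n
    set D := (NN n + (n + 1) + 1) ^ (n + 1) with hD
    have h1 : ∀ m ∈ range (n + 1), #(U m) + 1 ≤ D + 1 := by
      intro m hm
      have hm' := mem_range.1 hm
      simp only [U]
      split_ifs with h
      · have h2 := hV m (NN n) (n + 1) (fun k hk => NN_mono.monotone (by omega)) (by omega)
        have h3 : #(Y m) ≤ NN n + (n + 1) + 1 := by
          have := NN_mono.monotone (by omega : m ≤ n); omega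
        have h4 : (NN n + (n + 1) + 1) ^ m ≤ (NN n + (n + 1) + 1) ^ n :=
          Nat.pow_le_pow_right (by omega) (by omega)
        have h5 := Nat.mul_le_mul h4 h3
        rw [← pow_succ] at h5
        omega
      · simp
    have h2 := sum_le_card_nsmul _ _ _ h1
    have h3 := (hUV (n + 1)).trans
      (hV (n + 1) (NN n) (n + 1) (fun k hk => NN_mono.monotone (by omega)) le_rfl)
    rw [sum_range_succ]
    rw [card_range, smul_eq_mul] at h2
    simp only [GG]
    rw [← hD] at h3 ⊢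
    nlinarith [Nat.zero_le (#(Y (n + 1))), Nat.zero_le D, Nat.zero_le (n * #(Y (n + 1))),
      Nat.zero_le (n * D * #(Y (n + 1)))]
  refine Yorioka.mono (enum (ff_mono b).monotone U _ (fun n => le_rfl) fun k => ?_) ?_
  · obtain ⟨n0, hn0⟩ := eventually_atTop.1 (hY (2 * k))
    refine eventually_atTop.2 ⟨n0 + k + 1, fun n hn s hs => ?_⟩
    obtain ⟨n, rfl⟩ : ∃ m, n = m + 1 := ⟨n - 1, by omega⟩
    have hlen : s.length = PP b (n + 1 + 1) := by
      simp only [U] at hs
      split_ifs at hs with h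
      · obtain ⟨p, _, rfl⟩ := mem_image.1 hs
        exact seg_len _ _
      · simp at hs
    rw [hlen]
    refine ff_le b ?_
    have h1 := Nat.pow_le_pow_left (hsum n) (2 * k)
    rw [mul_pow] at h1
    have h2 : GG (NN n) (n + 1) ^ (2 * k) ≤ NN (n + 1) :=
      Nat.pow_le_pow_right (Nat.mul_pos (by omega) (by omega)) (by omega)
    have h3 := h1.trans (Nat.mul_le_mul h2 (hn0 (n + 1) (by omega)))
    rw [two_mul, pow_add] at h3
    exact Nat.mul_self_le_mul_self_iff.1 h3
  · rintro w ⟨a, rfl, ha⟩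
    refine (ha.and_eventually (hY 1)).mono fun n ⟨⟨h1, h2⟩, h3⟩ => ?_
    have h4 : #(Y n) ≤ NN n := by rw [pow_one] at h3; omega
    simp only [U, if_pos h4]
    refine ⟨_, mem_image.2 ⟨(fun k => a k, a n), mem_product.2 ⟨?_, h2⟩, rfl⟩, ?_⟩
    · rw [Fintype.mem_piFinset]
      intro k
      have := h1 k k.2
      rw [mem_range]
      exact Nat.lt_succ_of_le this
    · rw [ext_seg]
      intro i hi
      simp only [zz, decide_eq_decide]
      refine exists_congr fun k => ?_
      rcases lt_trichotomy k n with h | rfl | h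
      · simp [h]
      · simp
      · have := (PP_mono b).monotone (by omega : n + 1 ≤ k)
        constructor <;> intro h <;> omega

theorem zz_block (a : ℕ → ℕ) (ha : ∀ k, a k < cc b k) (n j : ℕ) (hj : j < cc b n) :
    zz b a (PP b n + j) = true ↔ j = a n := by
  simp only [zz, decide_eq_true_eq]
  refine ⟨fun ⟨k, hk⟩ => ?_, fun h => ⟨n, by rw [h]⟩⟩
  rcases lt_trichotomy k n with h | rfl | h
  · have h1 := (PP_mono b).monotone (by omega : k + 1 ≤ n)
    have h2 := ha k
    simp only [PP] at h1; omega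
  · omega
  · have h1 := (PP_mono b).monotone (by omega : n + 1 ≤ k)
    simp only [PP] at h1; omega

theorem core (B : Set (ℕ → Bool)) (hB : B ∈ Yorioka (ff b)) :
    ∃ φ : ℕ → Finset ℕ, Sub φ ∧ ∀ Y : ℕ → Finset ℕ, (∀ n, ∀ j ∈ Y n, j < cc b n) →
      AY b Y ⊆ B → ∀ᶠ n in atTop, Y n ⊆ φ n := by
  classical
  obtain ⟨τ, hτ, hBτ⟩ := hB
  have hfin : ∀ L, {i | (τ i).length < L}.Finite := by
    intro L
    obtain ⟨m, hm⟩ := hτ 1
    refine (Set.finite_lt_nat (m + L)).subset fun i hi => ?_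
    by_contra h
    simp only [Set.mem_setOf_eq] at hi h
    have h1 := hm i (by omega)
    have h2 : i ≤ ff b (i ^ 1) := by rw [pow_one]; exact (ff_mono b).le_apply
    simp only at h1
    omega
  let dec : ℕ → List Bool → ℕ := fun n s => sInf {j | s.getD (PP b n + j) false = true}
  let φ : ℕ → Finset ℕ := fun n => (hfin (AA b (n + 1))).toFinset.image fun i => dec n (τ i)
  have hsub : Sub φ := by
    intro k
    obtain ⟨m, hm⟩ := hτ (2 * k)
    filter_upwards [NN_ev ((m + 3) ^ k)] with n hn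
    set T := (hfin (AA b (n + 1))).toFinset with hT
    have h1 : #(φ n) ≤ #T := card_image_le
    rcases T.eq_empty_or_nonempty with h | h
    · have : #(φ n) + 1 ≤ m + 3 := by rw [h, card_empty] at h1; omega
      exact (Nat.pow_le_pow_left this k).trans hn
    · set i := T.max' h with hi
      have h2 : #T ≤ i + 1 := by
        rw [← card_range (i + 1)]
        exact card_le_card fun x hx => mem_range.2 (Nat.lt_succ_of_le (T.le_max' x hx))
      rcases lt_or_ge i (m + 2) with h3 | h3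
      · exact (Nat.pow_le_pow_left (by omega) k).trans hn
      · have h4 : (τ i).length < AA b (n + 1) := by
          exact (hfin (AA b (n + 1))).mem_toFinset.1 (T.max'_mem h)
        have h5 := le_of_ff b ((hm i (by omega)).trans_lt h4)
        have h6 : #(φ n) + 1 ≤ i ^ 2 := by nlinarith
        rw [pow_mul] at h5
        exact (Nat.pow_le_pow_left h6 k).trans h5
  refine ⟨φ, hsub, fun Y hY hAB => ?_⟩
  by_contra hcon
  rw [not_eventually] at hcon
  obtain ⟨n0, hn0⟩ := eventually_atTop.1 (hsub 1)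
  have hth : ∀ n, ∃ j, j ≤ NN n ∧ (n0 ≤ n → j ∉ φ n) := by
    intro n
    by_cases h : n0 ≤ n
    · have h1 : #(φ n) < #(range (NN n + 1)) := by
        have := hn0 n h
        rw [pow_one] at this
        rw [card_range]; omega
      obtain ⟨j, hj1, hj2⟩ := exists_mem_notMem_of_card_lt_card h1
      exact ⟨j, Nat.lt_succ_iff.1 (mem_range.1 hj1), fun _ => hj2⟩
    · exact ⟨0, Nat.zero_le _, fun h' => absurd h' h⟩
  choose th hth1 hth2 using hth
  choose nx hnx1 hnx2 using frequently_atTop.1 hcon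
  have hjj : ∀ n, ∃ j, ¬ Y n ⊆ φ n → j ∈ Y n ∧ j ∉ φ n := by
    intro n
    by_cases h : Y n ⊆ φ n
    · exact ⟨0, fun h' => absurd h h'⟩
    · obtain ⟨j, hj⟩ := not_subset.1 h
      exact ⟨j, fun _ => hj⟩
  choose jj hjj using hjj
  obtain ⟨q, hq0, hq⟩ : ∃ q : ℕ → ℕ, q 0 = nx 0 ∧
      ∀ r, q (r + 1) = nx (PP b (q r + 1) + q r + 1) :=
    ⟨fun r => Nat.rec (nx 0) (fun _ p => nx (PP b (p + 1) + p + 1)) r, rfl, fun r => rfl⟩
  have hqm : StrictMono q := strictMono_nat_of_lt_succ fun r => by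
    have := hnx1 (PP b (q r + 1) + q r + 1)
    rw [hq]; omega
  have hqb : ∀ r, ¬ Y (q r) ⊆ φ (q r) := fun r => by
    cases r with
    | zero => rw [hq0]; exact hnx2 0
    | succ r => rw [hq]; exact hnx2 _
  let a : ℕ → ℕ := fun n => if n ∈ Set.range q then jj n else th n
  have ha1 : ∀ r, a (q r) = jj (q r) := fun r => if_pos ⟨r, rfl⟩
  have ha2 : ∀ k, a k < cc b k := by
    intro k
    by_cases h : k ∈ Set.range q
    · obtain ⟨r, rfl⟩ := h
      rw [ha1]; exact hY _ _ (hjj _ (hqb r)).1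
    · simp only [a, if_neg h, cc]
      have := hth1 k; omega
  have ha3 : ∀ k, n0 ≤ k → a k ∉ φ k := by
    intro k hk
    by_cases h : k ∈ Set.range q
    · obtain ⟨r, rfl⟩ := h
      rw [ha1]; exact (hjj _ (hqb r)).2
    · simp only [a, if_neg h]
      exact hth2 k hk
  have hz : zz b a ∈ AY b Y := by
    refine ⟨a, rfl, frequently_atTop.2 fun r => ⟨q (r + 1), ?_, fun k hk => ?_, ?_⟩⟩
    · have : r + 1 ≤ q (r + 1) := hqm.le_apply
      omega
    · by_cases h : k ∈ Set.range q
      · obtain ⟨r', rfl⟩ := h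
        have h1 := hqm.monotone (by have := hqm.lt_iff_lt.1 hk; omega : r' ≤ r)
        have h2 := (PP_mono b).monotone (by omega : q r' + 1 ≤ q r + 1)
        have h3 := hnx1 (PP b (q r + 1) + q r + 1)
        have h4 := ha2 (q r')
        rw [← hq] at h3
        have h5 : PP b (q r' + 1) = PP b (q r') + cc b (q r') + NN (q r') := rfl
        omega
      · simp only [a, if_neg h]
        have := hth1 k; omega
    · rw [ha1]; exact (hjj _ (hqb _)).1
  have hio := hBτ (hAB hz)
  obtain ⟨M, hM⟩ := (hfin (AA b n0)).bddAbove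
  obtain ⟨i, hi, hext⟩ := frequently_atTop.1 hio (M + 1)
  have hi1 : AA b n0 ≤ (τ i).length := by
    by_contra h
    have := hM (not_le.1 h : i ∈ {i | (τ i).length < AA b n0})
    omega
  have hex : ∃ n, (τ i).length < AA b (n + 1) :=
    ⟨(τ i).length, Nat.lt_of_succ_le (AA_mono b).le_apply⟩
  set n := Nat.find hex with hn
  have hn1 : (τ i).length < AA b (n + 1) := Nat.find_spec hex
  have hn2 : n0 ≤ n := by
    have := (AA_mono b).lt_iff_lt.1 (hi1.trans_lt hn1); omega
  have hn3 : AA b n ≤ (τ i).length := by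
    rcases Nat.eq_zero_or_pos n with h | h
    · have : n0 = n := by omega
      rw [← this]; exact hi1
    · have := Nat.find_min hex (by omega : n - 1 < n)
      rw [Nat.sub_add_cancel h] at this
      omega
  have hget : ∀ j < cc b n, ((τ i).getD (PP b n + j) false = true ↔ j = a n) := by
    intro j hj
    have h1 : PP b n + j < (τ i).length := by simp only [AA] at hn3; omega
    rw [← zz_block b a ha2 n j hj, hext _ h1]
    simp [h1]
  have hdec : dec n (τ i) = a n := by
    have h1 : a n ∈ {j | (τ i).getD (PP b n + j) false = true} := (hget _ (ha2 n)).2 rfl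
    refine le_antisymm (Nat.sInf_le h1) (le_csInf ⟨_, h1⟩ fun j hj => ?_)
    by_contra h
    have := ha2 n
    have := (hget j (by omega)).1 hj
    omega
  exact ha3 n hn2 (mem_image.2 ⟨i, (Set.Finite.mem_toFinset _).2 hn1, hdec⟩)

end

/-- bounded localisation reduces to a Yorioka ideal -/
theorem T1a (b : ℕ → ℕ) : ∃ (f : ℕ → ℕ) (A : (ℕ → ℕ) → Set (ℕ → Bool))
    (φ : Set (ℕ → Bool) → ℕ → Finset ℕ), StrictMono f ∧ (∀ x, A x ∈ Yorioka f) ∧
    (∀ B n, #(φ B n) ≤ NN n) ∧ ∀ B ∈ Yorioka f, ∀ x, (∀ n, x n ≤ b n) → A x ⊆ B →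
      ∀ᶠ n in atTop, x n ∈ φ B n := by
  classical
  choose! φ h1 h2 using core b
  refine ⟨ff b, fun x => AY b fun n => {x n}, fun B n => if #(φ B n) ≤ NN n then φ B n else ∅,
    ff_mono b, fun x => AY_mem b _ fun k => ?_, fun B n => ?_, fun B hB x hx h => ?_⟩
  · simpa using NN_ev (2 ^ k)
  · simp only
    split_ifs with h
    · exact h
    · simp
  · filter_upwards [h2 B hB (fun n => {x n}) (fun n j hj => by
      rw [mem_singleton.1 hj]; have := hx n; simp only [cc]; omega) h, h1 B hB 1] with n h3 h4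
    rw [pow_one] at h4
    rw [if_pos (by omega)]
    exact h3 (mem_singleton_self _)

/-- eventual domination reduces to a Yorioka ideal -/
theorem T1b : ∃ (f : ℕ → ℕ) (A : (ℕ → ℕ) → Set (ℕ → Bool))
    (ψ : Set (ℕ → Bool) → ℕ → ℕ), StrictMono f ∧ (∀ x, A x ∈ Yorioka f) ∧
    ∀ B ∈ Yorioka f, ∀ x, A x ⊆ B → ∀ᶠ n in atTop, x n ≤ ψ B n := by
  classical
  choose! φ h1 h2 using core (fun _ => 0)
  have hex : ∀ (x : ℕ → ℕ) n, ∃ k, n ≤ x k + k := fun x n => ⟨n, by omega⟩
  let Y : (ℕ → ℕ) → ℕ → Finset ℕ := fun x n =>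
    range (Nat.nthRoot (Nat.find (hex x n) + 1) (NN n) - 1)
  have hpos : ∀ k n, 1 ≤ Nat.nthRoot (k + 1) (NN n) := fun k n => by
    by_contra h
    have h1 := Nat.lt_pow_nthRoot_add_one (n := k + 1) (by omega) (NN n)
    have h2 : Nat.nthRoot (k + 1) (NN n) = 0 := by omega
    have h3 := NN_mono.monotone (Nat.zero_le n)
    rw [h2] at h1
    simp only [NN, zero_add, one_pow] at h1 h3
    omega
  have hle : ∀ k n, Nat.nthRoot (k + 1) (NN n) ^ (k + 1) ≤ NN n := fun k n =>
    Nat.pow_nthRoot_le (Or.inl (by omega))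
  have hth : ∀ B ∈ Yorioka (ff fun _ => 0), ∀ k, ∃ m, ∀ n, m ≤ n →
      (#(φ B n) + 1) ^ (2 * (k + 1)) ≤ NN n ∧ 2 ^ (k + 1) ≤ NN n := fun B hB k =>
    eventually_atTop.1 ((h1 B hB _).and (NN_ev _))
  choose! ψ hψ using hth
  refine ⟨ff fun _ => 0, fun x => AY _ (Y x), ψ, ff_mono _, fun x => AY_mem _ _ fun k => ?_,
    fun B hB x h => ?_⟩
  · refine eventually_atTop.2 ⟨∑ i ∈ range k, (x i + i) + 1, fun n hn => ?_⟩
    have h3 : k ≤ Nat.find (hex x n) := by
      by_contra h
      have h4 := Nat.find_spec (hex x n)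
      have h5 := single_le_sum (f := fun i => x i + i) (fun _ _ => Nat.zero_le _)
        (mem_range.2 (not_le.1 h))
      omega
    simp only [Y, card_range]
    rw [Nat.sub_add_cancel (hpos _ _)]
    exact (Nat.pow_le_pow_right (hpos _ _) (by omega)).trans (hle _ n)
  · obtain ⟨n0, hn0⟩ := eventually_atTop.1 (h2 B hB (Y x) (fun n j hj => by
      have h3 := mem_range.1 hj
      have h4 := (Nat.le_self_pow (by omega) _).trans (hle (Nat.find (hex x n)) n)
      simp only [cc]; omega) h)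
    refine eventually_atTop.2 ⟨n0, fun k hk => ?_⟩
    by_contra hlt
    obtain ⟨h3, h4⟩ := hψ B hB k (x k + k) (by omega)
    have h5 := card_le_card (hn0 (x k + k) (by omega))
    have h6 : Nat.find (hex x (x k + k)) ≤ k := Nat.find_min' _ le_rfl
    simp only [Y, card_range] at h5
    have h7 := Nat.lt_pow_nthRoot_add_one (n := Nat.find (hex x (x k + k)) + 1) (by omega)
      (NN (x k + k))
    set ρ := Nat.nthRoot (Nat.find (hex x (x k + k)) + 1) (NN (x k + k)) with hρ
    have h8 : (ρ + 1) ^ (Nat.find (hex x (x k + k)) + 1) ≤ (ρ + 1) ^ (k + 1) :=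
      Nat.pow_le_pow_right (by omega) (by omega)
    have h9 : (ρ ^ 2) ^ (k + 1) ≤ NN (x k + k) := by
      rw [← pow_mul]
      exact (Nat.pow_le_pow_left (by omega) _).trans h3
    have h10 : ρ ^ 2 < ρ + 1 := lt_of_pow_lt_pow_left₀ (k + 1) (by omega) (by omega)
    have h11 : ρ + 1 ≤ 2 := by nlinarith
    have h12 := Nat.pow_le_pow_left h11 (k + 1)
    omega

end Pool.Agent.H57.Yor
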