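import Pool.Agent.H57.Yor1

set_option autoImplicit false

namespace Pool.Agent.H57.Yor

open MeasureTheory Filter Finset Topology TopologicalSpace

theorem clopen_countable : {K : Set (ℕ → Bool) | IsClopen K}.Countable := by
  haveI : Countable (Clopens (ℕ → Bool)) :=
    Clopens.countable_iff_secondCountable.2 inferInstance
  refine (Set.countable_range fun K : Clopens (ℕ → Bool) => (K : Set (ℕ → Bool))).mono ?_
  intro K hK
  exact ⟨⟨K, hK⟩, rfl⟩

theorem clopen_enum : ∃ u : ℕ → Set (ℕ → Bool), (∀ j, IsClopen (u j)) ∧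
    ∀ O : Set (ℕ → Bool), IsOpen O → ∀ z ∈ O, ∃ j, z ∈ u j ∧ u j ⊆ O := by
  obtain ⟨u, hu⟩ := clopen_countable.exists_eq_range ⟨∅, isClopen_empty⟩
  refine ⟨u, fun j => ?_, fun O hO z hz => ?_⟩
  · have : u j ∈ {K : Set (ℕ → Bool) | IsClopen K} := by rw [hu]; exact ⟨j, rfl⟩
    exact this
  · obtain ⟨K, hK, h1, h2⟩ := isTopologicalBasis_isClopen.exists_subset_of_mem_open hz hO
    rw [hu] at hK
    obtain ⟨j, rfl⟩ := hK
    exact ⟨j, h1, h2⟩

theorem T2 (ε : ℕ → ENNReal) (hε : ∀ n, ε n ≠ 0) : ∃ C : ℕ → ℕ → Set (ℕ → Bool),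
    (∀ n j, fair (C n j) ≤ ε n) ∧
      ∀ A, fair A = 0 → ∃ x : ℕ → ℕ, A ⊆ {z | ∃ᶠ n in atTop, z ∈ C n (x n)} := by
  classical
  have h1 : ∀ n, ∃ c : ℕ → Set (ℕ → Bool),
      {K | IsClopen K ∧ fair K ≤ ε n} = Set.range c := fun n =>
    (clopen_countable.mono fun K hK => hK.1).exists_eq_range ⟨∅, isClopen_empty, by simp⟩
  choose C hC using h1
  refine ⟨C, fun n j => ?_, fun A hA => ?_⟩
  · have : C n j ∈ {K | IsClopen K ∧ fair K ≤ ε n} := by rw [hC]; exact ⟨j, rfl⟩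
    exact this.2
  suffices h : ∃ K : ℕ → Set (ℕ → Bool), (∀ n, IsClopen (K n) ∧ fair (K n) ≤ ε n) ∧
      A ⊆ {z | ∃ᶠ n in atTop, z ∈ K n} by
    obtain ⟨K, hK, hAK⟩ := h
    have : ∀ n, ∃ j, C n j = K n := fun n => by
      have := hK n
      change K n ∈ {K | IsClopen K ∧ fair K ≤ ε n} at this
      rwa [hC] at this
    choose x hx using this
    exact ⟨x, by simpa only [hx] using hAK⟩
  obtain ⟨u, hu1, hu2⟩ := clopen_enum
  have hε2 : ∀ n, 0 < ε n / 2 := fun n => ENNReal.half_pos (hε n)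
  have h2 : ∀ m, ∃ O, A ⊆ O ∧ IsOpen O ∧ fair O < ε m / 2 := fun m =>
    Set.exists_isOpen_lt_of_lt A _ (by rw [hA]; exact hε2 m)
  choose O hO1 hO2 hO3 using h2
  let V : ℕ → ℕ → Set (ℕ → Bool) := fun m i => ⋃ j ∈ (range i).filter (fun j => u j ⊆ O m), u j
  have hV1 : ∀ m i, IsClopen (V m i) := fun m i => isClopen_biUnion_finset fun j _ => hu1 j
  have hV2 : ∀ m i, V m i ⊆ O m := fun m i =>
    Set.iUnion₂_subset fun j hj => (mem_filter.1 hj).2
  have hV3 : ∀ m, Monotone (V m) := fun m i i' h =>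
    Set.biUnion_subset_biUnion_left fun j hj => mem_coe.2 (mem_filter.2
      ⟨mem_range.2 ((mem_range.1 (mem_filter.1 hj).1).trans_le h), (mem_filter.1 hj).2⟩)
  have hV4 : ∀ m, ∀ z ∈ O m, ∃ i, z ∈ V m i := fun m z hz => by
    obtain ⟨j, h1, h2⟩ := hu2 _ (hO2 m) z hz
    exact ⟨j + 1, Set.mem_biUnion (mem_coe.2 (mem_filter.2 ⟨mem_range.2 (by omega), h2⟩)) h1⟩
  have hV5 : ∀ m, Tendsto (fun i => fair (O m \ V m i)) atTop (𝓝 0) := fun m => by
    have h := tendsto_measure_iInter_atTop (μ := fair) (s := fun i => O m \ V m i)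
      (fun i => ((hO2 m).measurableSet.diff (hV1 m i).isOpen.measurableSet).nullMeasurableSet)
      (fun i i' h => Set.diff_subset_diff_right (hV3 m h)) ⟨0, measure_ne_top _ _⟩
    have h0 : ⋂ i, O m \ V m i = ∅ := by
      refine Set.eq_empty_of_forall_notMem fun z hz => ?_
      obtain ⟨i, hi⟩ := hV4 m z (Set.mem_iInter.1 hz 0).1
      exact (Set.mem_iInter.1 hz i).2 hi
    rwa [h0, measure_empty] at h
  have h3 : ∀ n : ℕ, ∃ t, n ≤ t ∧ ∀ m ∈ range n, fair (O m \ V m t) ≤ ε n / 2 / n := fun n => by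
    have hpos : 0 < ε n / 2 / n := ENNReal.div_pos (hε2 n).ne' (ENNReal.natCast_ne_top n)
    exact ((eventually_ge_atTop n).and ((eventually_all_finset (range n)).2 fun m _ =>
      (hV5 m).eventually (ge_mem_nhds hpos))).exists
  choose t ht1 ht2 using h3
  refine ⟨fun n => V n (t (n + 1)) ∪ ⋃ m ∈ range n, (V m (t (n + 1)) \ V m (t n)),
    fun n => ⟨(hV1 _ _).union (isClopen_biUnion_finset fun m _ => (hV1 _ _).diff (hV1 _ _)), ?_⟩,
    fun z hz => frequently_atTop.2 fun m => ?_⟩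
  · refine (measure_union_le _ _).trans ?_
    rw [← ENNReal.add_halves (ε n)]
    refine add_le_add ((measure_mono (hV2 _ _)).trans (hO3 n).le) ?_
    refine (measure_biUnion_finset_le _ _).trans ?_
    refine (sum_le_card_nsmul _ _ (ε n / 2 / n) fun m hm => ?_).trans ?_
    · exact (measure_mono (Set.diff_subset_diff_left (hV2 _ _))).trans (ht2 n m hm)
    · rw [card_range, nsmul_eq_mul]; exact ENNReal.mul_div_le
  · obtain ⟨i, hi⟩ := hV4 m z (hO1 m hz)
    have hex : ∃ n, m ≤ n ∧ z ∈ V m (t (n + 1)) :=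
      ⟨m + i, by omega, hV3 m (by have := ht1 (m + i + 1); omega) hi⟩
    obtain ⟨h1, h2⟩ := Nat.find_spec hex
    refine ⟨Nat.find hex, h1, ?_⟩
    rcases h1.eq_or_lt with h | h
    · left
      rw [← h] at h2 ⊢; exact h2
    · right
      refine Set.mem_biUnion (mem_coe.2 (mem_range.2 h)) ⟨h2, fun h3 => ?_⟩
      have h4 := Nat.find_min hex (by omega : Nat.find hex - 1 < Nat.find hex)
      rw [Nat.sub_add_cancel (by omega)] at h4
      exact h4 ⟨by omega, h3⟩

def Gs (n m : ℕ) : Set (ℕ → Bool) := {z | ∀ t < n + 1, z (Nat.pair (Nat.pair n m) t) = true}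

theorem Gs_open (n m : ℕ) : IsOpen (Gs n m) := by
  have : Gs n m = ⋂ t ∈ range (n + 1), (fun z : ℕ → Bool => z (Nat.pair (Nat.pair n m) t)) ⁻¹' {true} := by
    ext z; simp [Gs]
  rw [this]
  exact isOpen_biInter_finset fun t _ => (isOpen_discrete _).preimage (continuous_apply _)

theorem blocks (n : ℕ) : MeasurePreserving
    (fun (z : ℕ → Bool) (m t : ℕ) => z (Nat.pair (Nat.pair n m) t)) fair
    (Measure.infinitePi fun _ : ℕ => fair) := by
  haveI := PN.coin_prob half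
  refine ⟨by fun_prop, ?_⟩
  have hinj : Function.Injective fun p : ℕ × ℕ => Nat.pair (Nat.pair n p.1) p.2 := by
    rintro ⟨a, b⟩ ⟨c, d⟩ h
    simp only [Nat.pair_eq_pair] at h
    exact Prod.ext h.1.2 h.2
  have h1 := Measure.map_infinitePi_infinitePi_of_inj
    (P := fun _ : ℕ => PN.coin (1 / 2) (1 / 2)) hinj
  have h2 := Measure.infinitePi_map_curry (fun (_ _ : ℕ) => PN.coin (1 / 2) (1 / 2))
  rw [← h1, Measure.map_map (by fun_prop) (by fun_prop)] at h2
  exact h2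

theorem cyl_measurable (n : ℕ) (x : ℕ → Bool) : MeasurableSet (PN.cyl n x) := by
  have : PN.cyl n x = Set.pi (range n : Finset ℕ) (fun i => {x i}) := by
    ext y; simp [PN.cyl]
  rw [this]
  exact MeasurableSet.pi (Finset.countable_toSet _) fun _ _ => MeasurableSet.of_discrete

theorem Gs_meas (n m : ℕ) : fair (Gs n m) = (1 / 2) ^ (n + 1) := by
  have h : Gs n m = (fun (z : ℕ → Bool) (m t : ℕ) => z (Nat.pair (Nat.pair n m) t)) ⁻¹'
      Set.pi ({m} : Finset ℕ) fun _ => PN.cyl (n + 1) fun _ => true := by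
    ext z; simp [Gs, PN.cyl]
  rw [h, (blocks n).measure_preimage (MeasurableSet.pi (Finset.countable_toSet _)
    fun _ _ => cyl_measurable _ _).nullMeasurableSet,
    Measure.infinitePi_pi _ fun _ _ => cyl_measurable _ _]
  simp [fair_cyl]

theorem avoid_meas (n : ℕ) (F : Finset ℕ) :
    (fair {z | ∀ m ∈ F, z ∉ Gs n m}).toReal * (#F * (1 / 2) ^ (n + 1)) ≤ 1 := by
  have h : {z | ∀ m ∈ F, z ∉ Gs n m} =
      (fun (z : ℕ → Bool) (m t : ℕ) => z (Nat.pair (Nat.pair n m) t)) ⁻¹'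
      Set.pi F fun _ => (PN.cyl (n + 1) fun _ => true)ᶜ := by
    ext z; simp [Gs, PN.cyl]
  rw [h, (blocks n).measure_preimage (MeasurableSet.pi (Finset.countable_toSet _)
    fun _ _ => (cyl_measurable _ _).compl).nullMeasurableSet,
    Measure.infinitePi_pi _ fun _ _ => (cyl_measurable _ _).compl]
  rw [prod_const, prob_compl_eq_one_sub (cyl_measurable _ _), fair_cyl, ENNReal.toReal_pow,
    ENNReal.toReal_sub_of_le (pow_le_one₀ bot_le (by simp)) ENNReal.one_ne_top]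
  have e : ((1 / 2 : ENNReal) ^ (n + 1)).toReal = (1 / 2) ^ (n + 1) := by simp
  rw [e, ENNReal.toReal_one]
  set p : ℝ := (1 / 2) ^ (n + 1)
  have hp0 : 0 ≤ p := by positivity
  have hp1 : p ≤ 1 := pow_le_one₀ (by norm_num) (by norm_num)
  have h1 : 1 + #F * p ≤ (1 + p) ^ #F := one_add_mul_le_pow (by linarith) _
  have h2 : (1 - p) ^ #F * (1 + p) ^ #F ≤ 1 := by
    rw [← mul_pow]; exact pow_le_one₀ (by nlinarith) (by nlinarith)
  have h3 : 0 ≤ (1 - p) ^ #F := pow_nonneg (by linarith) _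
  nlinarith

def hh (n : ℕ) : ℕ := (n + 1) * (n * 2 ^ (n + 1))

/-- Bartoszynski: localisation reduces to the null ideal -/
theorem T3 : ∃ (H : (ℕ → ℕ) → Set (ℕ → Bool)) (φ : Set (ℕ → Bool) → ℕ → Finset ℕ),
    (∀ x, fair (H x) = 0) ∧ (∀ B n, #(φ B n) ≤ hh n) ∧
    ∀ B, fair B = 0 → ∀ x, H x ⊆ B → ∀ᶠ n in atTop, x n ∈ φ B n := by
  classical
  obtain ⟨u, hu1, hu2⟩ := clopen_enum
  have key : ∀ B : Set (ℕ → Bool), ∃ φ : ℕ → Finset ℕ, (∀ n, #(φ n) ≤ hh n) ∧
      (fair B = 0 → ∀ x : ℕ → ℕ, {z | ∃ᶠ n in atTop, z ∈ Gs n (x n)} ⊆ B →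
        ∀ᶠ n in atTop, x n ∈ φ n) := by
    intro B
    by_cases hB : fair B = 0
    swap
    · exact ⟨fun _ => ∅, fun _ => by simp, fun h => absurd h hB⟩
    have h1 : (0 : ENNReal) < fair (toMeasurable fair B)ᶜ := by
      rw [prob_compl_eq_one_sub (measurableSet_toMeasurable _ _), measure_toMeasurable, hB]; simp
    obtain ⟨K0, hK1, hK2, hK3⟩ :=
      (measurableSet_toMeasurable fair B).compl.exists_lt_isCompact h1
    let W : Set (ℕ → Bool) := ⋃ j ∈ {j | fair (K0 ∩ u j) = 0}, u j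
    let K : Set (ℕ → Bool) := K0 \ W
    have hKc : IsClosed K :=
      hK2.isClosed.sdiff (isOpen_biUnion fun j _ => (hu1 j).isOpen)
    have hW : fair (K0 ∩ W) = 0 := by
      simp only [W, Set.inter_iUnion]
      exact (measure_biUnion_null_iff (Set.to_countable _)).2 fun j hj => hj
    have hpos : ∀ j, (K ∩ u j).Nonempty → fair (K ∩ u j) ≠ 0 := by
      rintro j ⟨z, hz1, hz2⟩ h0
      refine hz1.2 (Set.mem_biUnion (x := j) ?_ hz2)
      refine measure_mono_null (t := K ∩ u j ∪ K0 ∩ W) (fun y hy => ?_) (measure_union_null h0 hW)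
      by_cases h : y ∈ W
      · exact Or.inr ⟨hy.1, h⟩
      · exact Or.inl ⟨⟨hy.1, h⟩, hy.2⟩
    have hKn : K.Nonempty := by
      by_contra h
      rw [Set.not_nonempty_iff_eq_empty, Set.diff_eq_empty] at h
      rw [Set.inter_eq_left.2 h] at hW
      exact hK3.ne' hW
    let S : ℕ → ℕ → Set ℕ := fun j n => {m | ∀ z ∈ K ∩ u j, z ∉ Gs n m}
    let S' : ℕ → ℕ → Finset ℕ := fun j n =>
      if h : ∃ F : Finset ℕ, (F : Set ℕ) = S j n ∧ #F ≤ n * 2 ^ (n + 1) then h.choose else ∅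
    refine ⟨fun n => (range (n + 1)).biUnion fun j => S' j n, fun n => ?_, fun _ x hx => ?_⟩
    · refine card_biUnion_le.trans ((sum_le_card_nsmul _ _ (n * 2 ^ (n + 1)) fun j _ => ?_).trans ?_)
      · simp only [S']
        split_ifs with h
        · exact h.choose_spec.2
        · simp
      · rw [card_range, smul_eq_mul]; exact le_rfl
    haveI : CompactSpace K := isCompact_iff_compactSpace.1 hKc.isCompact
    haveI : Nonempty K := hKn.to_subtype
    obtain ⟨n0, y, hy⟩ := nonempty_interior_of_iUnion_of_closed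
      (f := fun n0 : ℕ => {y : K | ∀ n, n0 ≤ n → y.1 ∉ Gs n (x n)}) (fun n0 => by
        simp only [Set.setOf_forall]
        exact isClosed_iInter fun n => isClosed_iInter fun _ =>
          (Gs_open n (x n)).isClosed_compl.preimage continuous_subtype_val) (by
        refine Set.eq_univ_of_forall fun y => ?_
        have h2 : y.1 ∉ {z | ∃ᶠ n in atTop, z ∈ Gs n (x n)} := fun h =>
          hK1 y.2.1 (subset_toMeasurable _ _ (hx h))
        simp only [Set.mem_setOf_eq, not_frequently] at h2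
        obtain ⟨n0, hn0⟩ := eventually_atTop.1 h2
        exact Set.mem_iUnion.2 ⟨n0, hn0⟩)
    obtain ⟨O, hO1, hO2⟩ := isOpen_induced_iff.1 (isOpen_interior
      (s := {y : K | ∀ n, n0 ≤ n → y.1 ∉ Gs n (x n)}))
    obtain ⟨j, hj1, hj2⟩ := hu2 O hO1 y.1 (by rw [← hO2] at hy; exact hy)
    have hδ : 0 < (fair (K ∩ u j)).toReal :=
      ENNReal.toReal_pos (hpos j ⟨y.1, y.2, hj1⟩) (measure_ne_top _ _)
    obtain ⟨N, hN⟩ := exists_nat_ge (1 / (fair (K ∩ u j)).toReal)
    rw [div_le_iff₀ hδ] at hN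
    refine eventually_atTop.2 ⟨n0 + j + N, fun n hn => ?_⟩
    have hb : ∀ F : Finset ℕ, (F : Set ℕ) ⊆ S j n → #F ≤ n * 2 ^ (n + 1) := by
      intro F hF
      have h2 : (fair (K ∩ u j)).toReal ≤ (fair {z | ∀ m ∈ F, z ∉ Gs n m}).toReal :=
        ENNReal.toReal_mono (measure_ne_top _ _) (measure_mono fun z hz m hm => hF hm z hz)
      have h3 := avoid_meas n F
      have h4 : (0 : ℝ) ≤ #F * (1 / 2) ^ (n + 1) := by positivity
      have h5 : (N : ℝ) ≤ n := by exact_mod_cast (by omega : N ≤ n)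
      have h6 : (#F : ℝ) * (1 / 2) ^ (n + 1) ≤ n := by
        refine le_of_mul_le_mul_left ?_ hδ
        nlinarith
      have h7 : (#F : ℝ) ≤ n * 2 ^ (n + 1) := by
        rw [one_div, inv_pow, ← div_eq_mul_inv, div_le_iff₀ (by positivity)] at h6
        exact h6
      exact_mod_cast h7
    have hfin : (S j n).Finite := by
      by_contra h
      obtain ⟨F, h1, h2⟩ := Set.Infinite.exists_subset_card_eq h (n * 2 ^ (n + 1) + 1)
      have := hb F h1
      omega
    have hex : ∃ F : Finset ℕ, (F : Set ℕ) = S j n ∧ #F ≤ n * 2 ^ (n + 1) :=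
      ⟨hfin.toFinset, by simp, hb _ (by simp)⟩
    refine mem_biUnion.2 ⟨j, mem_range.2 (by omega), ?_⟩
    simp only [S', dif_pos hex]
    rw [← mem_coe, hex.choose_spec.1]
    intro z hz
    have h8 : (⟨z, hz.1⟩ : K) ∈ interior {y : K | ∀ n, n0 ≤ n → y.1 ∉ Gs n (x n)} := by
      rw [← hO2]; exact hj2 hz.2
    exact interior_subset h8 n (by omega)
  choose φ h1 h2 using key
  refine ⟨fun x => {z | ∃ᶠ n in atTop, z ∈ Gs n (x n)}, φ, fun x => null_of_sum _ ?_, h1, h2⟩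
  refine Eventually.of_forall fun n => ?_
  rw [Gs_meas]
  exact pow_le_pow_of_le_one bot_le (by simp) (by omega)

end Pool.Agent.H57.Yor
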