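import Pool.Agent.H57.Yor2
import Pool.Agent.H57.Yor3

set_option autoImplicit false

namespace Pool.Agent.H57.Yor

open MeasureTheory Filter Finset Cardinal

/-- a Yorioka ideal reduces to localisation -/
theorem T4 {f : ℕ → ℕ} (hf : StrictMono f) (h : ℕ → ℕ) :
    ∃ (X : Set (ℕ → Bool) → ℕ → ℕ) (E : (ℕ → Finset ℕ) → Set (ℕ → Bool)),
      (∀ φ : ℕ → Finset ℕ, (∀ n, (φ n).card ≤ h n) → E φ ∈ Yorioka f) ∧
      ∀ A ∈ Yorioka f, ∀ φ : ℕ → Finset ℕ, (∀ᶠ n in atTop, X A n ∈ φ n) → A ⊆ E φ := by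
  classical
  obtain ⟨dc, hdc⟩ := exists_surjective_nat (Finset (ℕ × List Bool))
  let valid : ℕ → Finset (ℕ × List Bool) → Prop := fun n D =>
    (∀ p ∈ D, h n + n ≤ p.1 ∧ f (p.1 ^ n) ≤ p.2.length) ∧ ∀ p ∈ D, ∀ q ∈ D, p.1 = q.1 → p = q
  let U : (ℕ → Finset ℕ) → ℕ → Finset (List Bool) := fun φ i =>
    (range (i + 1)).biUnion fun n => (φ n).biUnion fun c =>
      if valid n (dc c) then ((dc c).filter fun p => p.1 = i).image Prod.snd else ∅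
  have hU : ∀ φ i s, s ∈ U φ i ↔ ∃ n, ∃ c ∈ φ n, valid n (dc c) ∧ (i, s) ∈ dc c := by
    intro φ i s
    simp only [U, mem_biUnion]
    constructor
    · rintro ⟨n, _, c, hc, hs⟩
      split_ifs at hs with hv
      · obtain ⟨⟨i', s'⟩, hp, rfl⟩ := mem_image.1 hs
        obtain ⟨h1, h2⟩ := mem_filter.1 hp
        simp only at h2
        subst h2
        exact ⟨n, c, hc, hv, h1⟩
      · simp at hs
    · rintro ⟨n, c, hc, hv, hs⟩
      refine ⟨n, mem_range.2 ?_, c, hc, ?_⟩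
      · have := (hv.1 _ hs).1
        simp only at this; omega
      · rw [if_pos hv]
        exact mem_image.2 ⟨(i, s), mem_filter.2 ⟨hs, rfl⟩, rfl⟩
  have hX : ∀ A ∈ Yorioka f, ∃ X : ℕ → ℕ, ∀ φ : ℕ → Finset ℕ, (∀ᶠ n in atTop, X n ∈ φ n) →
      A ⊆ {z | ∃ᶠ i in atTop, ∃ s ∈ U φ i, Ext s z} := by
    rintro A ⟨σ, hσ, hA⟩
    choose m0 hm0 using hσ
    let m : ℕ → ℕ := fun n => ∑ k ∈ range (n + 1), (m0 k + h k + k + 1)
    have hm : StrictMono m := strictMono_nat_of_lt_succ fun n => by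
      simp only [m]; rw [sum_range_succ _ (n + 1)]; omega
    have hm1 : ∀ n, m0 n + h n + n ≤ m n := fun n => by
      simp only [m]; rw [sum_range_succ]; omega
    choose X hX using fun n => hdc ((Ico (m n) (m (n + 1))).image fun i => (i, σ i))
    refine ⟨X, fun φ hφ z hz => ?_⟩
    obtain ⟨n0, hn0⟩ := eventually_atTop.1 hφ
    refine ((hA hz).and_eventually (eventually_ge_atTop (m n0))).mono fun i ⟨h1, h2⟩ => ?_
    refine ⟨σ i, (hU _ _ _).2 ?_, h1⟩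
    have hex : ∃ n, i < m (n + 1) := ⟨i, hm.le_apply⟩
    have h3 := Nat.find_spec hex
    have h4 : n0 ≤ Nat.find hex := by
      have := hm.lt_iff_lt.1 (h2.trans_lt h3); omega
    have h5 : m (Nat.find hex) ≤ i := by
      rcases h4.eq_or_lt with h6 | h6
      · rw [← h6]; exact h2
      · have := Nat.find_min hex (by omega : Nat.find hex - 1 < Nat.find hex)
        rw [Nat.sub_add_cancel (by omega)] at this
        omega
    refine ⟨Nat.find hex, X _, hn0 _ h4, ?_, ?_⟩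
    · rw [hX]
      refine ⟨fun p hp => ?_, fun p hp q hq e => ?_⟩
      · obtain ⟨j, hj, rfl⟩ := mem_image.1 hp
        have h6 := (mem_Ico.1 hj).1
        have h7 := hm1 (Nat.find hex)
        exact ⟨by simp only; omega, hm0 _ j (by omega)⟩
      · obtain ⟨j, _, rfl⟩ := mem_image.1 hp
        obtain ⟨j', _, rfl⟩ := mem_image.1 hq
        simp only at e
        rw [e]
    · rw [hX]
      exact mem_image.2 ⟨i, mem_Ico.2 ⟨h5, h3⟩, rfl⟩
  choose! X hX using hX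
  refine ⟨X, fun φ => {z | ∃ᶠ i in atTop, ∃ s ∈ U φ i, Ext s z}, fun φ hφ => ?_, hX⟩
  have hc : ∀ i, (U φ i).card ≤ (i + 1) * i := by
    intro i
    refine card_biUnion_le.trans ((sum_le_card_nsmul _ _ i fun n _ => ?_).trans (by simp))
    by_cases hn : h n ≤ i
    · refine card_biUnion_le.trans ((sum_le_card_nsmul _ _ 1 fun c _ => ?_).trans ?_)
      · split_ifs with hv
        · refine card_image_le.trans (card_le_one.2 fun p hp q hq => ?_)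
          exact hv.2 p (mem_filter.1 hp).1 q (mem_filter.1 hq).1
            ((mem_filter.1 hp).2.trans (mem_filter.1 hq).2.symm)
        · simp
      · rw [smul_eq_mul, mul_one]; exact (hφ n).trans hn
    · refine le_trans (le_of_eq (card_eq_zero.2 ?_)) (Nat.zero_le _)
      refine eq_empty_of_forall_notMem fun s hs => ?_
      obtain ⟨c, _, hs⟩ := mem_biUnion.1 hs
      split_ifs at hs with hv
      · obtain ⟨p, hp, _⟩ := mem_image.1 hs
        have h1 := (hv.1 p (mem_filter.1 hp).1).1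
        have h2 := (mem_filter.1 hp).2
        omega
      · simp at hs
  refine enum hf.monotone (U φ) (fun i => (i + 1) * ((i + 1) * i + 1)) (fun i => ?_) fun k => ?_
  · refine (sum_le_card_nsmul _ _ ((i + 1) * i + 1) fun j hj => ?_).trans (by simp)
    have h1 := mem_range.1 hj
    have h2 := Nat.mul_le_mul (by omega : j + 1 ≤ i + 1) (by omega : j ≤ i)
    have := hc j
    omega
  · let M := ((range (8 * k)).biUnion fun n => (φ n).biUnion fun c => (dc c).image Prod.fst).sup id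
    refine eventually_atTop.2 ⟨M + 2, fun i hi s hs => ?_⟩
    obtain ⟨n, c, hc1, hv, hs⟩ := (hU _ _ _).1 hs
    have hn : 8 * k ≤ n := by
      by_contra hlt
      have : id i ≤ M := le_sup (mem_biUnion.2 ⟨n, mem_range.2 (not_le.1 hlt),
        mem_biUnion.2 ⟨c, hc1, mem_image.2 ⟨_, hs, rfl⟩⟩⟩)
      simp only [id] at this
      omega
    refine le_trans (hf.monotone ?_) (hv.1 _ hs).2
    have h1 : i + 1 ≤ i ^ 2 := by nlinarith
    have h2 : (i + 1) * ((i + 1) * i + 1) ≤ (i + 1) ^ 4 := by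
      have : (i + 1) * i + 1 ≤ (i + 1) ^ 3 := by nlinarith
      calc (i + 1) * ((i + 1) * i + 1) ≤ (i + 1) * (i + 1) ^ 3 := Nat.mul_le_mul_left _ this
        _ = _ := by ring
    have h3 : (i + 1) ^ 4 ≤ i ^ 8 := by
      calc (i + 1) ^ 4 ≤ (i ^ 2) ^ 4 := Nat.pow_le_pow_left h1 4
        _ = _ := by ring
    calc ((i + 1) * ((i + 1) * i + 1)) ^ k ≤ (i ^ 8) ^ k := Nat.pow_le_pow_left (h2.trans h3) k
      _ = i ^ (8 * k) := by rw [pow_mul]
      _ ≤ i ^ n := Nat.pow_le_pow_right (by omega) hn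

theorem add_le {I J : Set (Set (ℕ → Bool))} (h1 : J ⊆ I) (h2 : ⋃₀ J ∉ I) : add I ≤ #J :=
  csInf_le' ⟨J, h1, h2, rfl⟩

theorem add_spec {I : Set (Set (ℕ → Bool))} (h1 : ∀ x, {x} ∈ I) (h2 : Set.univ ∉ I) :
    ∃ J, J ⊆ I ∧ ⋃₀ J ∉ I ∧ #J = add I := by
  refine csInf_mem (s := {c | ∃ J : Set (Set (ℕ → Bool)), J ⊆ I ∧ ⋃₀ J ∉ I ∧ #J = c})
    ⟨_, Set.range fun x => {x}, ?_, ?_, rfl⟩
  · rintro _ ⟨x, rfl⟩; exact h1 x
  · rwa [Set.sUnion_range, Set.iUnion_of_singleton]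

theorem cof_le {I J : Set (Set (ℕ → Bool))} (h1 : J ⊆ I) (h2 : ∀ A ∈ I, ∃ B ∈ J, A ⊆ B) :
    cof I ≤ #J := csInf_le' ⟨J, h1, h2, rfl⟩

theorem cof_spec (I : Set (Set (ℕ → Bool))) :
    ∃ J, J ⊆ I ∧ (∀ A ∈ I, ∃ B ∈ J, A ⊆ B) ∧ #J = cof I :=
  csInf_mem (s := {c | ∃ J : Set (Set (ℕ → Bool)), J ⊆ I ∧ (∀ A ∈ I, ∃ B ∈ J, A ⊆ B) ∧ #J = c})
    ⟨_, I, subset_rfl, fun A hA => ⟨A, hA, subset_rfl⟩, rfl⟩

theorem tukey_null {f : ℕ → ℕ} (hf : StrictMono f) :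
    ∃ (P Q : Set (ℕ → Bool) → Set (ℕ → Bool)), (∀ A, P A ∈ Null) ∧ (∀ B, Q B ∈ Yorioka f) ∧
      ∀ A ∈ Yorioka f, ∀ B ∈ Null, P A ⊆ B → A ⊆ Q B := by
  obtain ⟨H, φ, h1, h2, h3⟩ := T3
  obtain ⟨X, E, h4, h5⟩ := T4 hf hh
  exact ⟨fun A => H (X A), fun B => E (φ B), fun A => h1 _, fun B => h4 _ (h2 B),
    fun A hA B hB h => h5 A hA _ (h3 B hB _ h)⟩

theorem add_null_le {f : ℕ → ℕ} (hf : StrictMono f) : add Null ≤ add (Yorioka f) := by
  obtain ⟨P, Q, h1, h2, h3⟩ := tukey_null hf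
  obtain ⟨J, hJ1, hJ2, hJ3⟩ := add_spec (single_mem hf.monotone) (univ_not_mem hf)
  refine (add_le (J := P '' J) ?_ fun h => hJ2 ?_).trans (hJ3 ▸ mk_image_le)
  · rintro _ ⟨A, _, rfl⟩; exact h1 A
  · refine Yorioka.mono (h2 (⋃₀ (P '' J))) (Set.sUnion_subset fun A hA => ?_)
    exact h3 A (hJ1 hA) _ h (Set.subset_sUnion_of_mem ⟨A, hA, rfl⟩)

theorem cof_le_null {f : ℕ → ℕ} (hf : StrictMono f) : cof (Yorioka f) ≤ cof Null := by
  obtain ⟨P, Q, h1, h2, h3⟩ := tukey_null hf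
  obtain ⟨J, hJ1, hJ2, hJ3⟩ := cof_spec Null
  refine (cof_le (J := Q '' J) ?_ fun A hA => ?_).trans (hJ3 ▸ mk_image_le)
  · rintro _ ⟨A, _, rfl⟩; exact h2 A
  · obtain ⟨B, hB1, hB2⟩ := hJ2 _ (h1 A)
    exact ⟨_, ⟨B, hB1, rfl⟩, h3 A hA B (hJ1 hB1) hB2⟩

theorem coding : ∃ (X : Set (ℕ → Bool) → ℕ → ℕ) (E : (ℕ → Finset ℕ) → Set (ℕ → Bool)),
    (∀ φ : ℕ → Finset ℕ, (∀ n, (φ n).card ≤ NN n) → E φ ∈ Null) ∧
    ∀ A ∈ Null, ∀ φ : ℕ → Finset ℕ, (∀ᶠ n in atTop, X A n ∈ φ n) → A ⊆ E φ := by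
  obtain ⟨C, h1, h2⟩ := T2 (fun n => (1 / 2) ^ n / NN n) fun n =>
    (ENNReal.div_pos (pow_ne_zero _ (by simp)) (ENNReal.natCast_ne_top _)).ne'
  choose! X hX using h2
  refine ⟨X, fun φ => {z | ∃ᶠ n in atTop, z ∈ ⋃ j ∈ φ n, C n j}, fun φ hφ => ?_,
    fun A hA φ hφ z hz => ?_⟩
  · refine null_of_sum _ (Eventually.of_forall fun n => ?_)
    refine (measure_biUnion_finset_le _ _).trans
      ((sum_le_card_nsmul _ _ _ fun j _ => h1 n j).trans ?_)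
    rw [nsmul_eq_mul]
    refine le_trans (mul_le_mul_left (Nat.cast_le.2 (hφ n)) _) ENNReal.mul_div_le
  · exact ((hX A hA hz).and_eventually hφ).mono fun n ⟨h3, h4⟩ => Set.mem_biUnion h4 h3

theorem trunc_ev {x b : ℕ → ℕ} {φ : ℕ → Finset ℕ} (h1 : ∀ᶠ n in atTop, x n ≤ b n)
    (h2 : ∀ᶠ n in atTop, min (x n) (b n) ∈ φ n) : ∀ᶠ n in atTop, x n ∈ φ n := by
  filter_upwards [h1, h2] with n h3 h4
  rwa [min_eq_left h3] at h4

theorem minadd_le : minadd ≤ add Null := by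
  obtain ⟨J, hJ1, hJ2, hJ3⟩ := add_spec (I := Null)
    (fun x => PN.atomless (θ := 1 / 2) half le_rfl le_rfl (by simp) x) (by simp [Null])
  by_contra hlt
  rw [not_le, ← hJ3] at hlt
  have key : ∀ f, StrictMono f → ∀ A : Set (ℕ → Bool) → Set (ℕ → Bool),
      (∀ x, A x ∈ Yorioka f) → ⋃₀ (A '' J) ∈ Yorioka f := by
    intro f hf A hA
    by_contra h
    have h1 : add (Yorioka f) ≤ #J :=
      (add_le (J := A '' J) (by rintro _ ⟨x, _, rfl⟩; exact hA x) h).trans mk_image_le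
    have h2 : minadd ≤ add (Yorioka f) :=
      ciInf_le' (fun f : {f : ℕ → ℕ // StrictMono f} => add (Yorioka f.1)) ⟨f, hf⟩
    exact absurd (h2.trans h1) (not_le.2 hlt)
  obtain ⟨X, E, hE1, hE2⟩ := coding
  obtain ⟨f0, A0, ψ, hf0, hA0, hψ⟩ := T1b
  have h0 := key f0 hf0 (fun a => A0 (X a)) fun a => hA0 _
  set b := ψ (⋃₀ ((fun a => A0 (X a)) '' J))
  obtain ⟨f1, A1, φ, hf1, hA1, hφ1, hφ2⟩ := T1a b
  have h1 := key f1 hf1 (fun a => A1 fun n => min (X a n) (b n)) fun a => hA1 _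
  refine hJ2 (measure_mono_null (Set.sUnion_subset fun a ha => ?_)
    (hE1 _ (hφ1 (⋃₀ ((fun a => A1 fun n => min (X a n) (b n)) '' J)))))
  refine hE2 a (hJ1 ha) _ (trunc_ev (b := b) ?_ ?_)
  · exact hψ _ h0 _ (Set.subset_sUnion_of_mem ⟨a, ha, rfl⟩)
  · exact hφ2 _ h1 _ (fun n => min_le_right _ _) (Set.subset_sUnion_of_mem ⟨a, ha, rfl⟩)

theorem le_supcof : cof Null ≤ supcof := by
  have hle : ∀ f, StrictMono f → cof (Yorioka f) ≤ supcof := fun f hf =>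
    le_ciSup (f := fun f : {f : ℕ → ℕ // StrictMono f} => cof (Yorioka f.1))
      (bddAbove_range _) ⟨f, hf⟩
  obtain ⟨X, E, hE1, hE2⟩ := coding
  obtain ⟨f0, A0, ψ, hf0, hA0, hψ⟩ := T1b
  obtain ⟨D, hD1, hD2, hD3⟩ := cof_spec (Yorioka f0)
  have hinf : ℵ₀ ≤ supcof := by
    refine le_trans ?_ (hD3.le.trans (hle f0 hf0))
    rw [← Cardinal.infinite_iff, Set.infinite_coe_iff]
    intro hfin
    obtain ⟨B, hB1, hB2⟩ := hD2 _ (hA0 fun n => ∑ B ∈ hfin.toFinset, ψ B n + 1)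
    obtain ⟨n, hn⟩ := (hψ B (hD1 hB1) _ hB2).exists
    have := single_le_sum (f := fun B => ψ B n) (fun _ _ => Nat.zero_le _)
      (hfin.mem_toFinset.2 hB1)
    omega
  choose f1 A1 φ hf1 hA1 hφ1 hφ2 using T1a
  choose D1 hD11 hD12 hD13 using fun b => cof_spec (Yorioka (f1 b))
  let G : (Σ B : D, D1 (ψ B.1)) → Set (ℕ → Bool) := fun p => E (φ (ψ p.1.1) p.2.1)
  refine (cof_le (J := Set.range G) ?_ fun a ha => ?_).trans (mk_range_le.trans ?_)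
  · rintro _ ⟨p, rfl⟩; exact hE1 _ (hφ1 _ _)
  · obtain ⟨B, hB1, hB2⟩ := hD2 _ (hA0 (X a))
    obtain ⟨B', hB3, hB4⟩ := hD12 (ψ B) _ (hA1 (ψ B) fun n => min (X a n) (ψ B n))
    refine ⟨_, ⟨⟨⟨B, hB1⟩, ⟨B', hB3⟩⟩, rfl⟩, hE2 a ha _ (trunc_ev (b := ψ B) ?_ ?_)⟩
    · exact hψ B (hD1 hB1) _ hB2
    · exact hφ2 _ B' (hD11 _ hB3) _ (fun n => min_le_right _ _) hB4
  · rw [mk_sigma]
    refine (sum_le_sum _ (fun _ => supcof) fun B => (hD13 _).le.trans (hle _ (hf1 _))).trans ?_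
    rw [sum_const']
    exact mul_le_of_le hinf (hD3.le.trans (hle f0 hf0)) le_rfl

theorem main : supcof = cof Null ∧ minadd = add Null := by
  haveI : Nonempty {f : ℕ → ℕ // StrictMono f} := ⟨⟨id, strictMono_id⟩⟩
  exact ⟨le_antisymm (ciSup_le' fun f => cof_le_null f.2) le_supcof,
    le_antisymm minadd_le (le_ciInf fun f => add_null_le f.2)⟩

end Pool.Agent.H57.Yor
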