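import Pool.Agent.H57.Yor4

set_option autoImplicit false

namespace Pool.Agent.H57.Yor

open Filter Cardinal

open Classical in
noncomputable def spread (f : ℕ → ℕ) (x : ℕ → Bool) : ℕ → Bool :=
  fun p => decide (∃ i, f i = p ∧ x i = true)

theorem spread_apply {f : ℕ → ℕ} (hf : StrictMono f) (x : ℕ → Bool) (i : ℕ) :
    spread f x (f i) = x i := by
  cases h : x i <;> simp [spread, hf.injective.eq_iff, h]

theorem image_spread {f : ℕ → ℕ} (hf : StrictMono f) {A : Set (ℕ → Bool)} (hA : A ∈ Yorioka id) :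
    spread f '' A ∈ Yorioka f := by
  obtain ⟨σ, h1, h2⟩ := hA
  refine ⟨fun n => seg (f (σ n).length) (spread f fun i => (σ n).getD i false), fun k => ?_, ?_⟩
  · obtain ⟨m, hm⟩ := h1 k
    refine ⟨m, fun i hi => ?_⟩
    simp only [seg_len]
    exact hf.monotone (hm i hi)
  · rintro _ ⟨x, hx, rfl⟩
    refine (h2 hx).mono fun n hn => (ext_seg _ _ _).2 fun p hp => ?_
    simp only [spread, decide_eq_decide]
    refine exists_congr fun i => and_congr_right fun h => ?_
    have h3 : i < (σ n).length := hf.lt_iff_lt.1 (h ▸ hp)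
    rw [hn i h3]; simp [h3]

theorem preimage_spread {f : ℕ → ℕ} (hf : StrictMono f) {B : Set (ℕ → Bool)}
    (hB : B ∈ Yorioka f) : spread f ⁻¹' B ∈ Yorioka id := by
  obtain ⟨τ, h1, h2⟩ := hB
  have hex : ∀ n, ∃ j, (τ n).length ≤ f j := fun n => ⟨_, hf.le_apply⟩
  refine ⟨fun n => seg (Nat.find (hex n)) fun i => (τ n).getD (f i) false, fun k => ?_, ?_⟩
  · obtain ⟨m, hm⟩ := h1 k
    refine ⟨m, fun i hi => ?_⟩
    simp only [seg_len, id]
    exact hf.le_iff_le.1 ((hm i hi).trans (Nat.find_spec (hex i)))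
  · intro x hx
    refine (h2 hx).mono fun n hn => (ext_seg _ _ _).2 fun i hi => ?_
    have h3 : f i < (τ n).length := not_le.1 (Nat.find_min (hex n) hi)
    rw [← spread_apply hf x i, hn _ h3]; simp [h3]

theorem add_le_id {f : ℕ → ℕ} (hf : StrictMono f) : add (Yorioka f) ≤ add (Yorioka id) := by
  obtain ⟨J, hJ1, hJ2, hJ3⟩ := add_spec (single_mem monotone_id) (univ_not_mem strictMono_id)
  refine (add_le (J := (fun A => spread f '' A) '' J) ?_ fun h => hJ2 ?_).trans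
    (hJ3 ▸ mk_image_le)
  · rintro _ ⟨A, hA, rfl⟩; exact image_spread hf (hJ1 hA)
  · refine Yorioka.mono (preimage_spread hf h) ?_
    rintro x ⟨A, hA, hx⟩
    exact ⟨_, ⟨A, hA, rfl⟩, x, hx, rfl⟩

theorem cof_id_le {f : ℕ → ℕ} (hf : StrictMono f) : cof (Yorioka id) ≤ cof (Yorioka f) := by
  obtain ⟨J, hJ1, hJ2, hJ3⟩ := cof_spec (Yorioka f)
  refine (cof_le (J := (fun B => spread f ⁻¹' B) '' J) ?_ fun A hA => ?_).trans
    (hJ3 ▸ mk_image_le)
  · rintro _ ⟨B, hB, rfl⟩; exact preimage_spread hf (hJ1 hB)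
  · obtain ⟨B, hB1, hB2⟩ := hJ2 _ (image_spread hf hA)
    exact ⟨_, ⟨B, hB1, rfl⟩, Set.image_subset_iff.1 hB2⟩

theorem q2 : (minadd = add (Yorioka id) ↔ ∀ f, StrictMono f → add (Yorioka f) = add Null) ∧
    (supcof = cof (Yorioka id) ↔ ∀ f, StrictMono f → cof (Yorioka f) = cof Null) := by
  rw [main.1, main.2]
  exact ⟨⟨fun h f hf => le_antisymm (h ▸ add_le_id hf) (add_null_le hf),
      fun h => (h id strictMono_id).symm⟩,
    ⟨fun h f hf => le_antisymm (cof_le_null hf) (h ▸ cof_id_le hf),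
      fun h => (h id strictMono_id).symm⟩⟩

end Pool.Agent.H57.Yor
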