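import Mathlib

set_option autoImplicit false

namespace Pool.Agent.H57.Yor

open MeasureTheory Filter Cardinal

/-- The standard product (fair coin) measure on Cantor space. -/
noncomputable def fair : Measure (ℕ → Bool) :=
  Measure.infinitePi fun _ : ℕ =>
    (1 / 2 : ENNReal) • Measure.dirac true + (1 / 2 : ENNReal) • Measure.dirac false

/-- The ideal of null subsets of Cantor space. -/
def Null : Set (Set (ℕ → Bool)) := {A | fair A = 0}

/-- The finite string `s` is an initial segment of `x`. -/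
def Ext (s : List Bool) (x : ℕ → Bool) : Prop := ∀ (i : ℕ) (h : i < s.length), x i = s[i]

/-- The points extending `σ n` for infinitely many `n`. -/
def io (σ : ℕ → List Bool) : Set (ℕ → Bool) := {x | ∃ᶠ n in atTop, Ext (σ n) x}

/-- For every `k`, `x (i ^ k) ≤ y i` for all large `i`. -/
def LL (x y : ℕ → ℕ) : Prop := ∀ k : ℕ, ∃ m : ℕ, ∀ i, m ≤ i → x (i ^ k) ≤ y i

/-- The Yorioka ideal of `f`. -/
def Yorioka (f : ℕ → ℕ) : Set (Set (ℕ → Bool)) :=
  {A | ∃ σ : ℕ → List Bool, LL f (fun n => (σ n).length) ∧ A ⊆ io σ}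

/-- Additivity of an ideal. -/
noncomputable def add (I : Set (Set (ℕ → Bool))) : Cardinal.{0} :=
  sInf {c | ∃ J : Set (Set (ℕ → Bool)), J ⊆ I ∧ ⋃₀ J ∉ I ∧ #J = c}

/-- Cofinality of an ideal. -/
noncomputable def cof (I : Set (Set (ℕ → Bool))) : Cardinal.{0} :=
  sInf {c | ∃ J : Set (Set (ℕ → Bool)), J ⊆ I ∧ (∀ A ∈ I, ∃ B ∈ J, A ⊆ B) ∧ #J = c}

noncomputable def minadd : Cardinal.{0} :=
  ⨅ f : {f : ℕ → ℕ // StrictMono f}, add (Yorioka f.1)

noncomputable def supcof : Cardinal.{0} :=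
  ⨆ f : {f : ℕ → ℕ // StrictMono f}, cof (Yorioka f.1)

end Pool.Agent.H57.Yor
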